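import Mathlib

section

namespace Pool.Agent.E6b

section
variable {R S : Type} [NonAssocSemiring R] [NonAssocSemiring S]

instance fastRH₁ : AddHomClass (R →+* S) R S := inferInstance

instance fastRH₂ : MulHomClass (R →+* S) R S := inferInstance

instance fastRH₃ : ZeroHomClass (R →+* S) R S := inferInstance

instance fastRH₄ : OneHomClass (R →+* S) R S := inferInstance

instance fastRH₅ : AddMonoidHomClass (R →+* S) R S := inferInstance

instance fastRH₆ : MonoidHomClass (R →+* S) R S := inferInstance

instance fastRH₇ : MonoidWithZeroHomClass (R →+* S) R S := inferInstance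

end

section
variable {R A B : Type} [CommSemiring R] [Semiring A] [Semiring B] [Algebra R A] [Algebra R B]

instance fastAH₁ : AddHomClass (A →ₐ[R] B) A B := inferInstance

instance fastAH₂ : MulHomClass (A →ₐ[R] B) A B := inferInstance

instance fastAH₃ : ZeroHomClass (A →ₐ[R] B) A B := inferInstance

instance fastAH₄ : OneHomClass (A →ₐ[R] B) A B := inferInstance

instance fastAH₅ : AddMonoidHomClass (A →ₐ[R] B) A B := inferInstance

instance fastAH₆ : MonoidHomClass (A →ₐ[R] B) A B := inferInstance

instance fastAH₇ : MonoidWithZeroHomClass (A →ₐ[R] B) A B := inferInstance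

instance fastAH₈ : RingHomClass (A →ₐ[R] B) A B := inferInstance

instance fastAH₉ : MulActionHomClass (A →ₐ[R] B) R A B := inferInstance

end

section
variable {R M N : Type} [Semiring R] [AddCommMonoid M] [AddCommMonoid N] [Module R M] [Module R N]

instance fastLM₁ : AddHomClass (M →ₗ[R] N) M N := inferInstance

instance fastLM₂ : ZeroHomClass (M →ₗ[R] N) M N := inferInstance

instance fastLM₃ : AddMonoidHomClass (M →ₗ[R] N) M N := inferInstance

instance fastLM₄ : MulActionHomClass (M →ₗ[R] N) R M N := inferInstance

instance fastLE₁ : AddHomClass (M ≃ₗ[R] N) M N := inferInstance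

instance fastLE₂ : ZeroHomClass (M ≃ₗ[R] N) M N := inferInstance

instance fastLE₃ : AddMonoidHomClass (M ≃ₗ[R] N) M N := inferInstance

instance fastLE₄ : MulActionHomClass (M ≃ₗ[R] N) R M N := inferInstance

end

section
variable {M N : Type} [AddZeroClass M] [AddZeroClass N]

instance fastAM₁ : AddHomClass (M →+ N) M N := inferInstance

instance fastAM₂ : ZeroHomClass (M →+ N) M N := inferInstance

end

section
variable {R Γ : Type} [Ring R] [LinearOrderedCommMonoidWithZero Γ]

instance fastV₁ : MulHomClass (Valuation R Γ) R Γ := inferInstance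

instance fastV₂ : ZeroHomClass (Valuation R Γ) R Γ := inferInstance

instance fastV₃ : OneHomClass (Valuation R Γ) R Γ := inferInstance

instance fastV₄ : MonoidHomClass (Valuation R Γ) R Γ := inferInstance

instance fastV₅ : MonoidWithZeroHomClass (Valuation R Γ) R Γ := inferInstance

end

end Pool.Agent.E6b

end
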