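import Pool.Agent.E6c.A00

section
open scoped NNReal TensorProduct IntermediateField BigOperators Classical Topology
open Filter

namespace Pool.Agent.E6b

/-- function field in one variable -/
class IsFF (κ F : Type) [Field κ] [Field F] [Algebra κ F] : Prop where
  ex : ∃ t : F, Transcendental κ t ∧ FiniteDimensional κ⟮t⟯ F

/-- places -/
@[ext] structure Place (κ F : Type) [Field κ] [Field F] [Algebra κ F] where
  O : ValuationSubring F
  const : ∀ c : κ, algebraMap κ F c ∈ O
  ne_top : O ≠ ⊤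

/-- homomorphisms of function fields, semilinear over an automorphism of the constants -/
structure FHom (κ F F' : Type) [Field κ] [Field F] [Algebra κ F] [Field F'] [Algebra κ F'] where
  f : F →+* F'
  c : κ ≃+* κ
  comm : ∀ x : κ, f (algebraMap κ F x) = algebraMap κ F' (c x)

section
variable {κ F F' F'' : Type} [Field κ] [Field F] [Algebra κ F] [Field F'] [Algebra κ F']
  [Field F''] [Algebra κ F'']

structure OrdSpec (P : Place κ F) (v : F → ℤ) : Prop where
  zero : v 0 = 0
  mul : ∀ f g, f ≠ 0 → g ≠ 0 → v (f * g) = v f + v g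
  mem : ∀ f, f ≠ 0 → (f ∈ P.O ↔ 0 ≤ v f)
  unif : ∃ π, π ≠ 0 ∧ v π = 1

/-- normalised order at a place (`ord 0 = 0`) -/
noncomputable def Place.ord (P : Place κ F) : F → ℤ :=
  if h : ∃ v, OrdSpec P v then h.choose else 0

/-- value at a place (`0` at a pole) -/
noncomputable def Place.ev (P : Place κ F) (f : F) : κ :=
  if h : ∃ c : κ, P.O.valuation (f - algebraMap κ F c) < 1 then h.choose else 0

/-- divisors -/
abbrev Dv (κ F : Type) [Field κ] [Field F] [Algebra κ F] : Type := Place κ F →₀ ℤ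

/-- principal divisor (`dv 0 = 0`) -/
noncomputable def dv (κ : Type) [Field κ] [Algebra κ F] (f : F) : Dv κ F :=
  if h : (Function.support fun P : Place κ F => P.ord f).Finite then
    Finsupp.ofSupportFinite (fun P => P.ord f) h else 0

def deg (D : Dv κ F) : ℤ := D.sum fun _ n => n

/-- the divisor of one place -/
noncomputable def pd (P : Place κ F) : Dv κ F := Finsupp.single P 1

def LinEq (D D' : Dv κ F) : Prop := ∃ f : F, f ≠ 0 ∧ D' = D + dv κ f

/-- degree of a homomorphism -/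
noncomputable def FHom.deg (φ : FHom κ F F') : ℕ := Module.finrank φ.f.fieldRange F'

end

end Pool.Agent.E6b

end

section
open scoped NNReal TensorProduct IntermediateField BigOperators Classical Topology
open Filter

namespace Pool.Agent.E6b

theorem F0_finite_of_range {A B L : Type} [CommRing A] [CommRing B] [CommRing L] [Algebra A L]
    [Algebra B L] [Module.Finite A L] (h : ∀ a : A, ∃ b : B, algebraMap B L b = algebraMap A L a) :
    Module.Finite B L := by
  obtain ⟨S, hS⟩ := Module.Finite.fg_top (R := A) (M := L)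
  refine ⟨⟨S, ?_⟩⟩
  rw [eq_top_iff]
  intro x _
  have hx : x ∈ Submodule.span A (S : Set L) := hS ▸ Submodule.mem_top
  induction hx using Submodule.span_induction with
  | mem y hy => exact Submodule.subset_span hy
  | zero => exact Submodule.zero_mem _
  | add y z _ _ hy hz => exact Submodule.add_mem _ (hy trivial) (hz trivial)
  | smul a y _ hy =>
    obtain ⟨b, hb⟩ := h a
    have : a • y = b • y := by rw [Algebra.smul_def, Algebra.smul_def, hb]
    rw [this]
    exact Submodule.smul_mem _ _ (hy trivial)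

theorem F0_mem_of_integral {A L : Type} [CommRing A] [Field L] [Algebra A L]
    (O : ValuationSubring L) (h : ∀ a : A, algebraMap A L a ∈ O) {x : L} (hx : IsIntegral A x) :
    x ∈ O := by
  let φ : A →+* O := (algebraMap A L).codRestrict O h
  have h1 : IsIntegral O x := by
    have := IsIntegral.map_of_comp_eq φ (RingHom.id L) (by ext a; rfl) hx
    simpa using this
  obtain ⟨y, hy⟩ := IsIntegrallyClosed.algebraMap_eq_of_integral h1
  rw [← hy]
  exact y.2

section
variable {κ F : Type} [Field κ] [Field F] [Algebra κ F] {P : Place κ F} {v : F → ℤ}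

theorem F0_one (hv : OrdSpec P v) : v 1 = 0 := by
  have := hv.mul 1 1 one_ne_zero one_ne_zero
  rw [mul_one] at this
  omega

theorem F0_inv (hv : OrdSpec P v) {f : F} (hf : f ≠ 0) : v f⁻¹ = - v f := by
  have := hv.mul f f⁻¹ hf (inv_ne_zero hf)
  rw [mul_inv_cancel₀ hf, F0_one hv] at this
  omega

end
variable {κ F F' : Type} [Field κ] [IsAlgClosed κ] [CharZero κ] [Field F] [Algebra κ F] [IsFF κ F]
  [Field F'] [Algebra κ F'] [IsFF κ F']

omit [IsAlgClosed κ] [CharZero κ] in
theorem F0_finiteDimensional {t : F} (ht : Transcendental κ t) :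
    FiniteDimensional κ⟮t⟯ F := by
  obtain ⟨s, hs, hfin⟩ := IsFF.ex (κ := κ) (F := F)
  have h1 : IsAlgebraic κ⟮s⟯ t := Algebra.IsAlgebraic.isAlgebraic t
  have h2 : IsAlgebraic κ⟮t⟯ s :=
    IntermediateField.isAlgebraic_adjoin_iff.mpr (IsAlgebraic.adjoin_singleton hs ht
      (IntermediateField.isAlgebraic_adjoin_iff.mp h1))
  have h3 : FiniteDimensional κ⟮t⟯ κ⟮t⟯⟮s⟯ :=
    IntermediateField.adjoin.finiteDimensional h2.isIntegral
  have h4 : Module.Finite κ⟮t⟯⟮s⟯ F := by
    refine F0_finite_of_range (A := κ⟮s⟯) fun a => ?_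
    have hle : κ⟮s⟯ ≤ (κ⟮t⟯⟮s⟯).restrictScalars κ := by
      rw [IntermediateField.adjoin_le_iff]
      intro x hx
      rw [Set.mem_singleton_iff.1 hx]
      exact IntermediateField.mem_adjoin_simple_self κ⟮t⟯ s
    exact ⟨⟨a.1, hle a.2⟩, rfl⟩
  exact Module.Finite.trans κ⟮t⟯⟮s⟯ F

omit [CharZero κ] [IsFF κ F] in
theorem F0_transcendental {t : F} (ht : t ∉ (algebraMap κ F).range) : Transcendental κ t := by
  intro h
  have hi := h.isIntegral
  exact ht (minpoly.mem_range_of_degree_eq_one κ t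
    (IsAlgClosed.degree_eq_one_of_irreducible κ (minpoly.irreducible hi)))

open scoped IntermediateField.algebraAdjoinAdjoin in
omit [IsAlgClosed κ] in
theorem F0_exists_of_mem (P : Place κ F) {t : F} (ht : Transcendental κ t) (htO : t ∈ P.O) :
    ∃ v, OrdSpec P v := by
  have hfin : FiniteDimensional κ⟮t⟯ F := F0_finiteDimensional ht
  have hpid : IsPrincipalIdealRing (Algebra.adjoin κ {t}) :=
    IsPrincipalIdealRing.of_surjective (Polynomial.algEquivOfTranscendental κ t ht).toRingHom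
      (Polynomial.algEquivOfTranscendental κ t ht).surjective
  have hchar : CharZero κ⟮t⟯ := charZero_of_injective_algebraMap (algebraMap κ κ⟮t⟯).injective
  have hsep : Algebra.IsSeparable κ⟮t⟯ F := inferInstance
  have hded : IsDedekindDomain (integralClosure (Algebra.adjoin κ {t}) F) :=
    integralClosure.isDedekindDomain (Algebra.adjoin κ {t}) κ⟮t⟯ F
  have hfr : IsFractionRing (integralClosure (Algebra.adjoin κ {t}) F) F :=
    integralClosure.isFractionRing_of_finite_extension κ⟮t⟯ F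
  have hA : ∀ a : Algebra.adjoin κ {t}, algebraMap _ F a ∈ P.O := by
    intro a
    have hle : Algebra.adjoin κ {t} ≤
        { P.O.toSubring.toSubsemiring with algebraMap_mem' := P.const } := by
      rw [Algebra.adjoin_le_iff]
      intro x hx
      rw [Set.mem_singleton_iff.1 hx]
      exact htO
    exact hle a.2
  have hB : ∀ b : integralClosure (Algebra.adjoin κ {t}) F, algebraMap _ F b ∈ P.O :=
    fun b => F0_mem_of_integral P.O hA b.2
  generalize integralClosure (Algebra.adjoin κ {t}) F = B at hded hfr hB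
  let φ : B →+* P.O := (algebraMap B F).codRestrict P.O hB
  have hunit : ∀ d : B, d ∉ (IsLocalRing.maximalIdeal P.O).comap φ → (algebraMap B F d)⁻¹ ∈ P.O := by
    intro d hd
    rw [Ideal.mem_comap, IsLocalRing.mem_maximalIdeal, mem_nonunits_iff, not_not] at hd
    obtain ⟨u, hu⟩ := hd.exists_right_inv
    have h1 : algebraMap B F d * (u : F) = 1 := congrArg Subtype.val hu
    rw [inv_eq_of_mul_eq_one_right h1]
    exact u.2
  have hne : (IsLocalRing.maximalIdeal P.O).comap φ ≠ ⊥ := by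
    intro h0
    apply P.ne_top
    rw [eq_top_iff]
    intro x _
    obtain ⟨a, b, hb, rfl⟩ := IsFractionRing.div_surjective B x
    rw [div_eq_mul_inv]
    refine P.O.mul_mem _ _ (hB a) (hunit b ?_)
    rw [h0, Ideal.mem_bot]
    exact nonZeroDivisors.ne_zero hb
  let p : IsDedekindDomain.HeightOneSpectrum B :=
    ⟨(IsLocalRing.maximalIdeal P.O).comap φ, Ideal.comap_isPrime _ _, hne⟩
  have hle : ∀ x : F, p.valuation F x ≤ 1 → x ∈ P.O := by
    intro x hx
    obtain ⟨n, d, hnd⟩ := p.exists_primeCompl_mul_eq_of_integer x hx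
    have hd := hunit d d.2
    have hd0 : algebraMap B F d ≠ 0 := by
      intro h0
      have : (d : B) = 0 := IsFractionRing.injective B F (by rw [h0, map_zero])
      exact d.2 (this ▸ p.asIdeal.zero_mem)
    rw [(eq_mul_inv_iff_mul_eq₀ hd0).2 hnd]
    exact P.O.mul_mem _ _ (hB n) hd
  obtain ⟨π, hπ⟩ := p.valuation_exists_uniformizer F
  have hπ0 : π ≠ 0 := by
    intro h
    rw [h, map_zero] at hπ
    exact WithZero.exp_ne_zero hπ.symm
  have hv0 : ∀ x : F, x ≠ 0 → p.valuation F x ≠ 0 := fun x hx => (Valuation.ne_zero_iff _).2 hx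
  have hge : ∀ x ∈ P.O, p.valuation F x ≤ 1 := by
    intro x hx
    by_contra hc
    rw [not_le] at hc
    have hx0 : x ≠ 0 := by
      rintro rfl
      simp at hc
    apply P.ne_top
    rw [eq_top_iff]
    intro y _
    by_cases hy0 : y = 0
    · rw [hy0]; exact P.O.zero_mem
    have hl : 0 < WithZero.log (p.valuation F x) := by
      rw [← WithZero.log_one (M := ℤ), WithZero.log_lt_log one_ne_zero (hv0 x hx0)]
      exact hc
    obtain ⟨n, hn⟩ : ∃ n : ℕ, WithZero.log (p.valuation F y) ≤ n :=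
      ⟨(WithZero.log (p.valuation F y)).toNat, Int.self_le_toNat _⟩
    have h1 : p.valuation F (y / x ^ n) ≤ 1 := by
      rw [← WithZero.log_le_log (hv0 _ (div_ne_zero hy0 (pow_ne_zero _ hx0))) one_ne_zero,
        map_div₀, map_pow, WithZero.log_div (hv0 y hy0) (pow_ne_zero _ (hv0 x hx0)),
        WithZero.log_pow, WithZero.log_one, nsmul_eq_mul]
      nlinarith
    have h2 : y = y / x ^ n * x ^ n := by field_simp
    rw [h2]
    exact P.O.mul_mem _ _ (hle _ h1) (pow_mem hx n)
  refine ⟨fun f => - WithZero.log (p.valuation F f), ⟨by simp, fun f g hf hg => ?_,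
    fun f hf => ?_, π, hπ0, ?_⟩⟩
  · rw [map_mul, WithZero.log_mul (hv0 f hf) (hv0 g hg)]
    ring
  · rw [neg_nonneg, ← WithZero.log_one (M := ℤ), WithZero.log_le_log (hv0 f hf) one_ne_zero]
    exact ⟨hge f, hle f⟩
  · simp [hπ]

theorem exists_ordSpec (P : Place κ F) : ∃ v, OrdSpec P v := by
  obtain ⟨t, ht, -⟩ := IsFF.ex (κ := κ) (F := F)
  rcases P.O.mem_or_inv_mem t with h | h
  · exact F0_exists_of_mem P ht h
  · exact F0_exists_of_mem P (fun h' => ht (IsAlgebraic.inv_iff.1 h')) h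

theorem F0_spec (P : Place κ F) : OrdSpec P P.ord := by
  have h := exists_ordSpec P
  unfold Place.ord
  rw [dif_pos h]
  exact h.choose_spec

theorem Place.ord_add_ge (P : Place κ F) {f g : F} (hf : f ≠ 0) (hg : g ≠ 0) (h : f + g ≠ 0) :
    min (P.ord f) (P.ord g) ≤ P.ord (f + g) := by
  have hv := F0_spec P
  have key : ∀ f g : F, f ≠ 0 → g ≠ 0 → f + g ≠ 0 → P.ord f ≤ P.ord g → P.ord f ≤ P.ord (f + g) := by
    intro f g hf hg h hle
    have h1 : g * f⁻¹ ∈ P.O := by
      rw [hv.mem _ (mul_ne_zero hg (inv_ne_zero hf)), hv.mul _ _ hg (inv_ne_zero hf), F0_inv hv hf]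
      omega
    have h2 : (f + g) * f⁻¹ ∈ P.O := by
      rw [add_mul, mul_inv_cancel₀ hf]
      exact P.O.add_mem _ _ P.O.one_mem h1
    rw [hv.mem _ (mul_ne_zero h (inv_ne_zero hf)), hv.mul _ _ h (inv_ne_zero hf),
      F0_inv hv hf] at h2
    omega
  rcases le_total (P.ord f) (P.ord g) with hle | hle
  · exact (min_le_left _ _).trans (key f g hf hg h hle)
  · rw [add_comm] at h ⊢
    exact (min_le_right _ _).trans (key g f hg hf h hle)

theorem Place.ord_algebraMap (P : Place κ F) (c : κ) : P.ord (algebraMap κ F c) = 0 := by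
  have hv := F0_spec P
  by_cases hc : c = 0
  · rw [hc, map_zero, hv.zero]
  have h0 : algebraMap κ F c ≠ 0 := (map_ne_zero _).2 hc
  have h1 := (hv.mem _ h0).1 (P.const c)
  have h2 := (hv.mem _ (inv_ne_zero h0)).1 (by rw [← map_inv₀]; exact P.const _)
  rw [F0_inv hv h0] at h2
  omega

theorem Place.ord_mul (P : Place κ F) {f g : F} (hf : f ≠ 0) (hg : g ≠ 0) :
    P.ord (f * g) = P.ord f + P.ord g := (F0_spec P).mul f g hf hg

theorem FHom.finite (φ : FHom κ F F') : FiniteDimensional φ.f.fieldRange F' := by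
  obtain ⟨t, ht, -⟩ := IsFF.ex (κ := κ) (F := F)
  have h1 : φ.f t ∉ (algebraMap κ F').range := by
    rintro ⟨c, hc⟩
    obtain ⟨x, rfl⟩ := φ.c.surjective c
    rw [← φ.comm] at hc
    exact ht (φ.f.injective hc ▸ isAlgebraic_algebraMap x)
  have h2 : FiniteDimensional κ⟮φ.f t⟯ F' := F0_finiteDimensional (F0_transcendental h1)
  refine F0_finite_of_range (A := κ⟮φ.f t⟯) fun a => ?_
  have hle : κ⟮φ.f t⟯ ≤ φ.f.fieldRange.toIntermediateField (fun c => by
      obtain ⟨x, rfl⟩ := φ.c.surjective c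
      exact ⟨_, φ.comm x⟩) := by
    rw [IntermediateField.adjoin_le_iff]
    intro x hx
    rw [Set.mem_singleton_iff.1 hx]
    exact ⟨t, rfl⟩
  exact ⟨⟨a.1, hle a.2⟩, rfl⟩

theorem FHom.comap_ne_top (φ : FHom κ F F') (R : Place κ F') : R.O.comap φ.f ≠ ⊤ := by
  intro h
  have hfin := φ.finite
  apply R.ne_top
  rw [eq_top_iff]
  intro x _
  refine F0_mem_of_integral (A := φ.f.fieldRange) R.O ?_ (Algebra.IsIntegral.isIntegral x)
  rintro ⟨a, y, rfl⟩
  have hy : y ∈ R.O.comap φ.f := h ▸ ValuationSubring.mem_top y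
  exact hy

theorem finiteDimensional_of_transcendental {t : F} (ht : Transcendental κ t) :
    FiniteDimensional κ⟮t⟯ F := F0_finiteDimensional ht

theorem transcendental_of_notMem {t : F} (ht : t ∉ (algebraMap κ F).range) :
    Transcendental κ t := F0_transcendental ht

instance instIsFFRatFunc : IsFF κ (RatFunc κ) := by
  refine ⟨⟨RatFunc.X, RatFunc.transcendental_X, ?_⟩⟩
  refine F0_finite_of_range (A := RatFunc κ) fun a => ?_
  have h : a ∈ κ⟮(RatFunc.X : RatFunc κ)⟯ := by
    rw [RatFunc.adjoin_X]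
    exact IntermediateField.mem_top
  exact ⟨⟨a, h⟩, rfl⟩

end Pool.Agent.E6b

end

section
open scoped NNReal TensorProduct IntermediateField BigOperators Classical Topology
open Filter

namespace Pool.Agent.E6b

section
variable {κ F F' : Type} [Field κ] [IsAlgClosed κ] [CharZero κ] [Field F] [Algebra κ F] [IsFF κ F]
  [Field F'] [Algebra κ F'] [IsFF κ F']

/-- Riemann-Roch space -/
def LL (D : Dv κ F) : Submodule κ F where
  carrier := {f | f = 0 ∨ ∀ P : Place κ F, - D P ≤ P.ord f}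
  zero_mem' := Or.inl rfl
  add_mem' := by
    intro a b ha hb
    by_cases h0 : a + b = 0
    · exact Or.inl h0
    by_cases ha0 : a = 0
    · simpa [ha0] using hb
    by_cases hb0 : b = 0
    · simpa [hb0] using ha
    refine Or.inr fun P => le_trans (le_min ?_ ?_) (P.ord_add_ge ha0 hb0 h0)
    · exact (ha.resolve_left ha0) P
    · exact (hb.resolve_left hb0) P
  smul_mem' := by
    intro c a ha
    by_cases hc : c = 0
    · exact Or.inl (by simp [hc])
    by_cases ha0 : a = 0
    · exact Or.inl (by simp [ha0])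
    refine Or.inr fun P => ?_
    rw [Algebra.smul_def, P.ord_mul (by simpa using hc) ha0, P.ord_algebraMap, zero_add]
    exact (ha.resolve_left ha0) P

noncomputable def ell (D : Dv κ F) : ℕ := Module.finrank κ (LL D)

/-- restriction of a place -/
def FHom.res (φ : FHom κ F F') (R : Place κ F') : Place κ F where
  O := R.O.comap φ.f
  const := fun c => by
    rw [ValuationSubring.mem_comap, φ.comm]; exact R.const _
  ne_top := φ.comap_ne_top R

/-- ramification index -/
noncomputable def FHom.e (φ : FHom κ F F') (R : Place κ F') : ℕ :=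
  if h : ∃ n : ℕ, ∀ f : F, R.ord (φ.f f) = n * (φ.res R).ord f then h.choose else 0

/-- divisor of poles -/
noncomputable def dinf (κ : Type) [Field κ] [Algebra κ F] (f : F) : Dv κ F :=
  (dv κ f).mapRange (fun n => max (-n) 0) (by simp)

end

end Pool.Agent.E6b

end

section
open scoped NNReal TensorProduct IntermediateField BigOperators Classical Topology
open Filter

namespace Pool.Agent.E6b
variable {κ F : Type} [Field κ] [IsAlgClosed κ] [CharZero κ] [Field F] [Algebra κ F] [IsFF κ F]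

theorem Place.ordSpec (P : Place κ F) : OrdSpec P P.ord := by
  have h := exists_ordSpec P
  unfold Place.ord
  rw [dif_pos h]
  exact h.choose_spec

theorem Place.ord_zero (P : Place κ F) : P.ord 0 = 0 := P.ordSpec.zero

theorem Place.ord_one (P : Place κ F) : P.ord 1 = 0 := by
  have h := P.ord_mul (f := 1) (g := 1) one_ne_zero one_ne_zero
  rw [one_mul] at h
  omega

theorem Place.ord_neg (P : Place κ F) (f : F) : P.ord (-f) = P.ord f := by
  by_cases hf : f = 0
  · simp [hf]
  have h1 : P.ord (-1) = 0 := by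
    have h := P.ord_mul (f := -1) (g := -1) (by simp) (by simp)
    rw [neg_mul_neg, one_mul, P.ord_one] at h
    omega
  have h := P.ord_mul (f := -1) (g := f) (by simp) hf
  rw [neg_one_mul, h1, zero_add] at h
  exact h

theorem Place.ord_inv (P : Place κ F) (f : F) : P.ord f⁻¹ = - P.ord f := by
  by_cases hf : f = 0
  · simp [hf, P.ord_zero]
  have h := P.ord_mul hf (inv_ne_zero hf)
  rw [mul_inv_cancel₀ hf, P.ord_one] at h
  omega

theorem Place.ord_div (P : Place κ F) {f g : F} (hf : f ≠ 0) (hg : g ≠ 0) :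
    P.ord (f / g) = P.ord f - P.ord g := by
  rw [div_eq_mul_inv, P.ord_mul hf (inv_ne_zero hg), P.ord_inv]
  ring

theorem Place.ord_pow (P : Place κ F) (f : F) (n : ℕ) : P.ord (f ^ n) = n * P.ord f := by
  by_cases hf : f = 0
  · rcases Nat.eq_zero_or_pos n with rfl | hn
    · simp [P.ord_one]
    · rw [hf, zero_pow hn.ne', P.ord_zero, mul_zero]
  induction n with
  | zero => simp [P.ord_one]
  | succ n ih =>
    rw [pow_succ, P.ord_mul (pow_ne_zero _ hf) hf, ih]
    push_cast
    ring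

theorem Place.ord_zpow (P : Place κ F) (f : F) (n : ℤ) : P.ord (f ^ n) = n * P.ord f := by
  obtain ⟨m, rfl | rfl⟩ := Int.eq_nat_or_neg n
  · rw [zpow_natCast, P.ord_pow]
  · rw [zpow_neg, zpow_natCast, P.ord_inv, P.ord_pow]
    ring

theorem Place.ord_smul (P : Place κ F) {c : κ} (hc : c ≠ 0) (f : F) : P.ord (c • f) = P.ord f := by
  by_cases hf : f = 0
  · simp [hf]
  rw [Algebra.smul_def, P.ord_mul (by simpa using hc) hf, P.ord_algebraMap, zero_add]

theorem F1a_le_ord_add (P : Place κ F) {f g : F} {n : ℤ} (hf : f = 0 ∨ n ≤ P.ord f)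
    (hg : g = 0 ∨ n ≤ P.ord g) : f + g = 0 ∨ n ≤ P.ord (f + g) := by
  by_cases h0 : f + g = 0
  · exact Or.inl h0
  by_cases hf0 : f = 0
  · simpa [hf0] using hg
  by_cases hg0 : g = 0
  · simpa [hg0] using hf
  exact Or.inr (le_trans (le_min (hf.resolve_left hf0) (hg.resolve_left hg0))
    (P.ord_add_ge hf0 hg0 h0))

theorem Place.le_ord_sum (P : Place κ F) {ι : Type*} (s : Finset ι) (f : ι → F) {n : ℤ}
    (hf : ∀ i ∈ s, f i = 0 ∨ n ≤ P.ord (f i)) :
    ∑ i ∈ s, f i = 0 ∨ n ≤ P.ord (∑ i ∈ s, f i) := by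
  induction s using Finset.induction_on with
  | empty => simp
  | insert a s ha ih =>
    rw [Finset.sum_insert ha]
    exact F1a_le_ord_add P (hf a (Finset.mem_insert_self a s))
      (ih fun i hi => hf i (Finset.mem_insert_of_mem hi))

theorem Place.ord_add_eq (P : Place κ F) {f g : F} (hf : f ≠ 0) (h : g = 0 ∨ P.ord f < P.ord g) :
    f + g ≠ 0 ∧ P.ord (f + g) = P.ord f := by
  by_cases hg : g = 0
  · simpa [hg] using hf
  have hlt := h.resolve_left hg
  have h0 : f + g ≠ 0 := by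
    intro h0
    have : g = -f := by linear_combination h0
    rw [this, P.ord_neg] at hlt
    exact lt_irrefl _ hlt
  refine ⟨h0, ?_⟩
  have h1 := P.ord_add_ge hf hg h0
  have h2 := P.ord_add_ge h0 (neg_ne_zero.2 hg) (by simpa using hf)
  rw [add_neg_cancel_right, P.ord_neg] at h2
  omega

theorem Place.mem_iff (P : Place κ F) {f : F} : f ∈ P.O ↔ 0 ≤ P.ord f := by
  by_cases hf : f = 0
  · simp [hf, P.ord_zero]
  exact P.ordSpec.mem f hf

theorem Place.valuation_lt_one_iff (P : Place κ F) {f : F} :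
    P.O.valuation f < 1 ↔ f = 0 ∨ 0 < P.ord f := by
  rw [← ValuationSubring.mem_nonunits_iff, ValuationSubring.mem_nonunits_iff_or, P.mem_iff,
    P.ord_inv]
  constructor
  · rintro (h | h)
    · exact Or.inl h
    · exact Or.inr (by omega)
  · rintro (h | h)
    · exact Or.inl h
    · exact Or.inr (by omega)

theorem Place.exists_ord_eq (P : Place κ F) (n : ℤ) : ∃ f : F, f ≠ 0 ∧ P.ord f = n := by
  obtain ⟨π, hπ, h1⟩ := P.ordSpec.unif
  exact ⟨π ^ n, zpow_ne_zero _ hπ, by rw [P.ord_zpow, h1, mul_one]⟩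

theorem Place.eq_of_le {P Q : Place κ F} (h : P.O ≤ Q.O) : P = Q := by
  refine Place.ext (le_antisymm h fun f hf => ?_)
  by_contra hn
  have hlt : P.ord f < 0 := by
    rw [P.mem_iff] at hn
    omega
  have hf0 : f ≠ 0 := by
    rintro rfl
    rw [P.ord_zero] at hlt
    exact lt_irrefl _ hlt
  apply Q.ne_top
  refine top_unique fun g _ => ?_
  by_cases hg : g = 0
  · rw [hg]
    exact Q.O.zero_mem
  have hp : f ^ (P.ord g).natAbs ≠ 0 := pow_ne_zero _ hf0
  have h1 : g / f ^ (P.ord g).natAbs ∈ P.O := by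
    rw [P.mem_iff, P.ord_div hg hp, P.ord_pow]
    have h2 : -(P.ord g) ≤ ((P.ord g).natAbs : ℤ) := by omega
    have h3 : (0 : ℤ) ≤ ((P.ord g).natAbs : ℤ) := by omega
    nlinarith
  have h2 := Q.O.mul_mem _ _ (h h1) (pow_mem hf (P.ord g).natAbs)
  rwa [div_mul_cancel₀ _ hp] at h2

omit [IsAlgClosed κ] [CharZero κ] [Algebra κ F] [IsFF κ F] [Field κ] in
theorem F1a_mem_of_integral (O : ValuationSubring F) {R : Type} [CommRing R] [Algebra R F]
    (h : ∀ r, algebraMap R F r ∈ O) {x : F} (hx : IsIntegral R x) : x ∈ O := by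
  let _ : Algebra R O := ((algebraMap R F).codRestrict O h).toAlgebra
  have : IsScalarTower R O F := IsScalarTower.of_algebraMap_eq fun _ => rfl
  obtain ⟨y, hy⟩ := (IsIntegrallyClosed.isIntegral_iff (R := O) (K := F)).1 hx.tower_top
  rw [← hy]
  exact y.2

theorem F1a_aeval_unit (P : Place κ F) {f : F}
    (h : ∀ c : κ, f - algebraMap κ F c ≠ 0 ∧ P.ord (f - algebraMap κ F c) = 0)
    {s : Polynomial κ} (hs : s ≠ 0) :
    Polynomial.aeval f s ≠ 0 ∧ P.ord (Polynomial.aeval f s) = 0 := by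
  have key : ∀ m : Multiset κ,
      Polynomial.aeval f (m.map fun a => Polynomial.X - Polynomial.C a).prod ≠ 0 ∧
      P.ord (Polynomial.aeval f (m.map fun a => Polynomial.X - Polynomial.C a).prod) = 0 := by
    intro m
    induction m using Multiset.induction_on with
    | empty => simp [P.ord_one]
    | cons a m ih =>
      rw [Multiset.map_cons, Multiset.prod_cons, map_mul, map_sub, Polynomial.aeval_X,
        Polynomial.aeval_C]
      refine ⟨mul_ne_zero (h a).1 ih.1, ?_⟩
      rw [P.ord_mul (h a).1 ih.1, (h a).2, ih.2, add_zero]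
  have hl : algebraMap κ F s.leadingCoeff ≠ 0 := by simpa using hs
  rw [(IsAlgClosed.splits s).eq_prod_roots, map_mul, Polynomial.aeval_C]
  refine ⟨mul_ne_zero hl (key _).1, ?_⟩
  rw [P.ord_mul hl (key _).1, (key _).2, P.ord_algebraMap, add_zero]

theorem F1a_exists_ev (P : Place κ F) {f : F} (hf : f ∈ P.O) :
    ∃ c : κ, P.O.valuation (f - algebraMap κ F c) < 1 := by
  by_contra hn
  have h : ∀ c : κ, f - algebraMap κ F c ≠ 0 ∧ P.ord (f - algebraMap κ F c) = 0 := by
    intro c
    have h1 : ¬ (f - algebraMap κ F c = 0 ∨ 0 < P.ord (f - algebraMap κ F c)) := fun h =>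
      hn ⟨c, P.valuation_lt_one_iff.2 h⟩
    have h2 := P.mem_iff.1 (sub_mem hf (P.const c))
    exact ⟨fun h => h1 (Or.inl h), by
      by_contra h3
      exact h1 (Or.inr (by omega))⟩
  have hr : f ∉ (algebraMap κ F).range := by
    rintro ⟨c, hc⟩
    exact (h c).1 (by rw [hc, sub_self])
  have := finiteDimensional_of_transcendental (transcendental_of_notMem hr)
  apply P.ne_top
  refine top_unique fun g _ => ?_
  refine F1a_mem_of_integral P.O (R := κ⟮f⟯) (fun r => ?_) (IsIntegral.of_finite _ g)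
  obtain ⟨p, q, hpq⟩ := (IntermediateField.mem_adjoin_simple_iff κ (r : F)).1 r.2
  change (r : F) ∈ P.O
  rw [hpq]
  by_cases hp : p = 0
  · simp [hp]
  by_cases hq : q = 0
  · simp [hq]
  rw [P.mem_iff, P.ord_div (F1a_aeval_unit P h hp).1 (F1a_aeval_unit P h hq).1,
    (F1a_aeval_unit P h hp).2, (F1a_aeval_unit P h hq).2]
  simp

theorem F1a_ev_val (P : Place κ F) {f : F} (hf : f ∈ P.O) :
    P.O.valuation (f - algebraMap κ F (P.ev f)) < 1 := by
  have h := F1a_exists_ev P hf
  unfold Place.ev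
  rw [dif_pos h]
  exact h.choose_spec

theorem F1a_ev_eq_of_val (P : Place κ F) {f : F} {c : κ}
    (h : P.O.valuation (f - algebraMap κ F c) < 1) : P.ev f = c := by
  have hf : f ∈ P.O := by
    have h1 := add_mem ((P.O.valuation_le_one_iff _).1 h.le) (P.const c)
    rwa [sub_add_cancel] at h1
  have h1 := P.O.valuation.map_sub_lt h (F1a_ev_val P hf)
  have h2 : f - algebraMap κ F c - (f - algebraMap κ F (P.ev f)) = algebraMap κ F (P.ev f - c) := by
    rw [map_sub]
    ring
  rw [h2, P.valuation_lt_one_iff, P.ord_algebraMap] at h1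
  rcases h1 with h1 | h1
  · have h3 : P.ev f - c = 0 := (map_eq_zero _).1 h1
    exact sub_eq_zero.1 h3
  · exact absurd h1 (lt_irrefl _)

theorem Place.ev_spec (P : Place κ F) {f : F} (hf : f ∈ P.O) :
    f = algebraMap κ F (P.ev f) ∨ 0 < P.ord (f - algebraMap κ F (P.ev f)) := by
  have h := P.valuation_lt_one_iff.1 (F1a_ev_val P hf)
  rwa [sub_eq_zero] at h

theorem Place.ev_eq (P : Place κ F) {f : F} {c : κ}
    (h : f = algebraMap κ F c ∨ 0 < P.ord (f - algebraMap κ F c)) : P.ev f = c :=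
  F1a_ev_eq_of_val P (P.valuation_lt_one_iff.2 (by rwa [sub_eq_zero]))

theorem Place.ev_algebraMap (P : Place κ F) (c : κ) : P.ev (algebraMap κ F c) = c :=
  P.ev_eq (Or.inl rfl)

theorem Place.ev_add (P : Place κ F) {f g : F} (hf : f ∈ P.O) (hg : g ∈ P.O) :
    P.ev (f + g) = P.ev f + P.ev g := by
  apply F1a_ev_eq_of_val
  have h := P.O.valuation.map_add_lt (F1a_ev_val P hf) (F1a_ev_val P hg)
  convert h using 2
  rw [map_add]
  ring

omit [IsAlgClosed κ] [CharZero κ] [IsFF κ F] in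
theorem F1a_val_mul_lt (P : Place κ F) {f g : F} (hf : P.O.valuation f < 1) (hg : g ∈ P.O) :
    P.O.valuation (f * g) < 1 := by
  rw [map_mul]
  exact lt_of_le_of_lt (mul_le_of_le_one_right' ((P.O.valuation_le_one_iff _).2 hg)) hf

theorem Place.ev_mul (P : Place κ F) {f g : F} (hf : f ∈ P.O) (hg : g ∈ P.O) :
    P.ev (f * g) = P.ev f * P.ev g := by
  apply F1a_ev_eq_of_val
  have h := P.O.valuation.map_add_lt (F1a_val_mul_lt P (F1a_ev_val P hf) hg)
    (F1a_val_mul_lt P (F1a_ev_val P hg) (P.const (P.ev f)))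
  convert h using 2
  rw [map_mul]
  ring

theorem Place.ev_smul (P : Place κ F) (c : κ) {f : F} (hf : f ∈ P.O) :
    P.ev (c • f) = c * P.ev f := by
  rw [Algebra.smul_def, P.ev_mul (P.const c) hf, P.ev_algebraMap]

theorem Place.ev_eq_zero_iff (P : Place κ F) {f : F} (hf : f ∈ P.O) :
    P.ev f = 0 ↔ f = 0 ∨ 0 < P.ord f := by
  constructor
  · intro h
    have h1 := P.ev_spec hf
    rw [h] at h1
    simpa using h1
  · intro h
    exact P.ev_eq (by simpa using h)

theorem F1a_sep_two {P Q : Place κ F} (h : Q ≠ P) : ∃ z : F, 0 < P.ord z ∧ Q.ord z < 0 := by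
  have h1 : ¬ P.O ≤ Q.O := fun h' => h (Place.eq_of_le h').symm
  have h2 : ¬ Q.O ≤ P.O := fun h' => h (Place.eq_of_le h')
  obtain ⟨a, ha, ha'⟩ := SetLike.not_le_iff_exists.1 h1
  obtain ⟨b, hb, hb'⟩ := SetLike.not_le_iff_exists.1 h2
  have ha0 : a ≠ 0 := fun h' => ha' (h' ▸ Q.O.zero_mem)
  have hb0 : b ≠ 0 := fun h' => hb' (h' ▸ P.O.zero_mem)
  rw [Place.mem_iff] at ha ha' hb hb'
  refine ⟨a / b, ?_, ?_⟩
  · rw [P.ord_div ha0 hb0]
    omega
  · rw [Q.ord_div ha0 hb0]
    omega

theorem F1a_ne_zero_of_ord (P : Place κ F) {f : F} (h : P.ord f ≠ 0) : f ≠ 0 := by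
  rintro rfl
  exact h P.ord_zero

theorem F1a_sep (P : Place κ F) (S : Finset (Place κ F)) (hS : P ∉ S) :
    ∃ u : F, 0 < P.ord u ∧ ∀ Q ∈ S, Q.ord u < 0 := by
  induction S using Finset.induction_on with
  | empty =>
    obtain ⟨π, _, h1⟩ := P.exists_ord_eq 1
    exact ⟨π, by omega, by simp⟩
  | insert R S hR ih =>
    obtain ⟨y, hy, hy'⟩ := ih fun h => hS (Finset.mem_insert_of_mem h)
    by_cases hRy : R.ord y < 0
    · refine ⟨y, hy, fun Q hQ => ?_⟩
      rcases Finset.mem_insert.1 hQ with rfl | hQ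
      · exact hRy
      · exact hy' Q hQ
    obtain ⟨z, hz, hz'⟩ := F1a_sep_two (P := P) (Q := R)
      (fun h => hS (h ▸ Finset.mem_insert_self R S))
    have hy0 : y ≠ 0 := F1a_ne_zero_of_ord P hy.ne'
    have hz0 : z ≠ 0 := F1a_ne_zero_of_ord P hz.ne'
    set r : ℕ := S.sup (fun Q => (Q.ord z).natAbs) + 1 with hr
    have hyr : y ^ r ≠ 0 := pow_ne_zero _ hy0
    have hr1 : (1 : ℤ) ≤ r := by omega
    have hRu := R.ord_add_eq hz0 (g := y ^ r) (Or.inr (by
      rw [R.ord_pow]
      nlinarith))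
    refine ⟨z + y ^ r, ?_, fun Q hQ => ?_⟩
    · have h1 := F1a_le_ord_add P (f := z) (g := y ^ r) (n := 1) (Or.inr hz) (Or.inr (by
        rw [P.ord_pow]
        nlinarith))
      exact h1.resolve_left hRu.1
    · rcases Finset.mem_insert.1 hQ with rfl | hQ
      · rw [hRu.2]
        exact hz'
      · have h1 := hy' Q hQ
        have h2 : (Q.ord z).natAbs ≤ S.sup (fun Q => (Q.ord z).natAbs) :=
          Finset.le_sup (f := fun Q => (Q.ord z).natAbs) hQ
        have h3 : -(r : ℤ) < Q.ord z := by omega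
        have h4 := Q.ord_add_eq hyr (g := z) (Or.inr (by
          rw [Q.ord_pow]
          nlinarith))
        rw [add_comm, h4.2, Q.ord_pow]
        nlinarith

theorem F1a_idem (P : Place κ F) (S : Finset (Place κ F)) (hS : P ∉ S) (N : ℕ) :
    ∃ w : F, w ≠ 0 ∧ w - 1 ≠ 0 ∧ (N : ℤ) ≤ P.ord (w - 1) ∧ ∀ Q ∈ S, (N : ℤ) ≤ Q.ord w := by
  obtain ⟨u, hu, hu'⟩ := F1a_sep P S hS
  have hu0 : u ≠ 0 := F1a_ne_zero_of_ord P hu.ne'
  have hp : u ^ (N + 1) ≠ 0 := pow_ne_zero _ hu0
  have hN : (0 : ℤ) ≤ N := by omega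
  have h1 := P.ord_add_eq (f := 1) (g := u ^ (N + 1)) one_ne_zero (Or.inr (by
    rw [P.ord_pow, P.ord_one]
    push_cast
    nlinarith))
  have h2 : (1 + u ^ (N + 1))⁻¹ - 1 = -(u ^ (N + 1) / (1 + u ^ (N + 1))) := by
    have := h1.1
    field_simp
    ring
  refine ⟨(1 + u ^ (N + 1))⁻¹, inv_ne_zero h1.1, ?_, ?_, fun Q hQ => ?_⟩
  · rw [h2]
    exact neg_ne_zero.2 (div_ne_zero hp h1.1)
  · rw [h2, P.ord_neg, P.ord_div hp h1.1, h1.2, P.ord_one, P.ord_pow]
    push_cast
    nlinarith
  · have h3 := hu' Q hQ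
    have h4 := Q.ord_add_eq hp (g := 1) (Or.inr (by
      rw [Q.ord_pow, Q.ord_one]
      push_cast
      nlinarith))
    rw [Q.ord_inv, add_comm, h4.2, Q.ord_pow]
    push_cast
    nlinarith

theorem F1a_approx (S : Finset (Place κ F)) (g : Place κ F → F) (n : ℤ) :
    ∃ f : F, ∀ P ∈ S, f = g P ∨ n ≤ P.ord (f - g P) := by
  have h := fun P : Place κ F => F1a_idem P (S.erase P) (Finset.notMem_erase P S)
    (S.sup fun Q => (n - Q.ord (g P)).natAbs)
  choose w hw0 hw1 hwP hwQ using h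
  have hb : ∀ P : Place κ F, ∀ Q ∈ S,
      n - Q.ord (g P) ≤ ((S.sup fun Q => (n - Q.ord (g P)).natAbs : ℕ) : ℤ) := by
    intro P Q hQ
    have h2 : (n - Q.ord (g P)).natAbs ≤ S.sup fun Q => (n - Q.ord (g P)).natAbs :=
      Finset.le_sup (f := fun Q => (n - Q.ord (g P)).natAbs) hQ
    omega
  refine ⟨∑ P ∈ S, g P * w P, fun Q hQ => ?_⟩
  rw [← sub_eq_zero]
  have h1 : ∑ P ∈ S, g P * w P - g Q = g Q * (w Q - 1) + ∑ P ∈ S.erase Q, g P * w P := by
    rw [← Finset.add_sum_erase S _ hQ]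
    ring
  rw [h1]
  refine F1a_le_ord_add Q ?_ (Q.le_ord_sum _ _ fun P hP => ?_)
  · by_cases hg : g Q = 0
    · exact Or.inl (by rw [hg, zero_mul])
    · right
      rw [Q.ord_mul hg (hw1 Q)]
      have h2 := hwP Q
      have h3 := hb Q Q hQ
      omega
  · by_cases hg : g P = 0
    · exact Or.inl (by rw [hg, zero_mul])
    · right
      rw [Q.ord_mul hg (hw0 P)]
      have h2 := hwQ P Q (Finset.mem_erase.2 ⟨(Finset.mem_erase.1 hP).1.symm, hQ⟩)
      have h3 := hb P Q hQ
      omega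

/-- weak approximation -/
theorem weak_approx (S : Finset (Place κ F)) (n : Place κ F → ℤ) :
    ∃ f : F, f ≠ 0 ∧ ∀ P ∈ S, P.ord f = n P := by
  rcases S.eq_empty_or_nonempty with rfl | ⟨P₀, hP₀⟩
  · exact ⟨1, one_ne_zero, by simp⟩
  choose g hg0 hg using fun P : Place κ F => P.exists_ord_eq (n P)
  obtain ⟨f, hf⟩ := F1a_approx S g (((S.sup fun Q => (n Q).natAbs : ℕ) : ℤ) + 1)
  have key : ∀ P ∈ S, f ≠ 0 ∧ P.ord f = n P := by
    intro P hP
    have h2 : (n P).natAbs ≤ S.sup fun Q => (n Q).natAbs :=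
      Finset.le_sup (f := fun Q => (n Q).natAbs) hP
    have h1 := P.ord_add_eq (hg0 P) (g := f - g P) (by
      rcases hf P hP with h | h
      · exact Or.inl (sub_eq_zero.2 h)
      · right
        rw [hg]
        omega)
    rwa [add_sub_cancel, hg] at h1
  exact ⟨f, (key P₀ hP₀).1, fun P hP => (key P hP).2⟩

theorem isIntegral_of_forall_mem (B : Subalgebra κ F) {f : F}
    (h : ∀ P : Place κ F, (∀ b ∈ B, b ∈ P.O) → f ∈ P.O) : IsIntegral B f := by
  by_contra hn
  have hR : f ∉ (integralClosure B F).toSubring := hn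
  have : IsIntegrallyClosedIn (integralClosure B F).toSubring F :=
    inferInstanceAs (IsIntegrallyClosedIn (integralClosure B F) F)
  obtain ⟨V, hV, hfV⟩ := Subring.exists_le_valuationSubring_of_isIntegrallyClosedIn hR
  have hB : ∀ b ∈ B, b ∈ V := fun b hb => hV ((integralClosure B F).algebraMap_mem ⟨b, hb⟩)
  refine hfV (h ⟨V, fun c => hB _ (B.algebraMap_mem c), ?_⟩ hB)
  rintro rfl
  exact hfV (ValuationSubring.mem_top f)

theorem mem_range_of_forall_mem {f : F} (h : ∀ P : Place κ F, f ∈ P.O) :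
    f ∈ (algebraMap κ F).range := by
  by_contra hn
  apply transcendental_of_notMem hn
  have h1 := isIntegral_of_forall_mem (⊥ : Subalgebra κ F) (f := f) fun P _ => h P
  have : Algebra.IsIntegral κ (⊥ : Subalgebra κ F) := by
    constructor
    rintro ⟨x, hx⟩
    obtain ⟨c, rfl⟩ := Algebra.mem_bot.1 hx
    exact isIntegral_algebraMap (x := c)
  exact (isIntegral_trans (R := κ) f h1).isAlgebraic

end Pool.Agent.E6b

end

section
open scoped NNReal TensorProduct IntermediateField BigOperators Classical Topology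
open Filter

namespace Pool.Agent.E6b
variable {κ F : Type} [Field κ] [IsAlgClosed κ] [CharZero κ] [Field F] [Algebra κ F] [IsFF κ F]

omit [IsAlgClosed κ] [CharZero κ] [IsFF κ F] in
theorem F1_aeval_mem (P : Place κ F) {t : F} (ht : t ∈ P.O) (p : Polynomial κ) :
    Polynomial.aeval t p ∈ P.O := by
  induction p using Polynomial.induction_on' with
  | add p q hp hq => rw [map_add]; exact add_mem hp hq
  | monomial n c => rw [Polynomial.aeval_monomial]; exact mul_mem (P.const c) (pow_mem ht n)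

theorem F1_ord_aeval {t : F} (p : Polynomial κ) (hp : Polynomial.aeval t p ≠ 0) :
    ∃ m : ℤ, ∀ P : Place κ F, 0 < P.ord t → P.ord (Polynomial.aeval t p) = m * P.ord t := by
  have hp0 : p ≠ 0 := by rintro rfl; simp at hp
  obtain ⟨q, hq, hd⟩ := Polynomial.exists_eq_pow_rootMultiplicity_mul_and_not_dvd p hp0 0
  set k := Polynomial.rootMultiplicity 0 p
  rw [map_zero, sub_zero] at hq hd
  rw [Polynomial.X_dvd_iff] at hd
  refine ⟨k, fun P hP => ?_⟩
  have ht0 : t ≠ 0 := by rintro rfl; rw [P.ord_zero] at hP; exact lt_irrefl _ hP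
  have htO : t ∈ P.O := P.mem_iff.2 hP.le
  have e : Polynomial.aeval t q =
      algebraMap κ F (q.coeff 0) + Polynomial.aeval t q.divX * t := by
    conv_lhs => rw [← Polynomial.divX_mul_X_add q]
    rw [map_add, map_mul, Polynomial.aeval_X, Polynomial.aeval_C, add_comm]
  have hc : algebraMap κ F (q.coeff 0) ≠ 0 := by simpa using hd
  have h1 := P.ord_add_eq (g := Polynomial.aeval t q.divX * t) hc (by
    by_cases h : Polynomial.aeval t q.divX = 0
    · left; rw [h, zero_mul]
    · right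
      rw [P.ord_algebraMap, P.ord_mul h ht0]
      have := P.mem_iff.1 (F1_aeval_mem P htO q.divX)
      omega)
  rw [← e, P.ord_algebraMap] at h1
  rw [hq, map_mul, map_pow, Polynomial.aeval_X, P.ord_mul (pow_ne_zero _ ht0) h1.1, h1.2,
    P.ord_pow, add_zero]

theorem F1_ord_adjoin {t a : F} (ha : a ∈ κ⟮t⟯) (ha0 : a ≠ 0) :
    ∃ m : ℤ, ∀ P : Place κ F, 0 < P.ord t → P.ord a = m * P.ord t := by
  obtain ⟨r, s, rfl⟩ := (IntermediateField.mem_adjoin_simple_iff κ a).1 ha
  have hr : Polynomial.aeval t r ≠ 0 := fun h => ha0 (by rw [h, zero_div])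
  have hs : Polynomial.aeval t s ≠ 0 := fun h => ha0 (by rw [h, div_zero])
  obtain ⟨m, hm⟩ := F1_ord_aeval r hr
  obtain ⟨n, hn⟩ := F1_ord_aeval s hs
  exact ⟨m - n, fun P hP => by rw [P.ord_div hr hs, hm P hP, hn P hP]; ring⟩

theorem F1_sum_ne_zero (P : Place κ F) {ι : Type*} (s : Finset ι) (f : ι → F) {i₀ : ι}
    (hi : i₀ ∈ s) (h0 : f i₀ ≠ 0)
    (h : ∀ i ∈ s, i ≠ i₀ → f i = 0 ∨ P.ord (f i₀) < P.ord (f i)) :
    ∑ i ∈ s, f i ≠ 0 ∧ P.ord (∑ i ∈ s, f i) = P.ord (f i₀) := by
  rw [← Finset.add_sum_erase s f hi]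
  refine P.ord_add_eq h0 ?_
  have := P.le_ord_sum (s.erase i₀) f (n := P.ord (f i₀) + 1) (fun i hi => by
    rcases h i (Finset.mem_of_mem_erase hi) (Finset.ne_of_mem_erase hi) with h | h
    · exact Or.inl h
    · exact Or.inr (by omega))
  rcases this with h | h
  · exact Or.inl h
  · exact Or.inr (by omega)

/-- The zeros of a non-constant function, counted with multiplicity, are at most the degree. -/
theorem F1_sum_ord_le {t : F} (ht : t ∉ (algebraMap κ F).range) (S : Finset (Place κ F))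
    (hS : ∀ P ∈ S, 0 < P.ord t) : ∑ P ∈ S, P.ord t ≤ Module.finrank κ⟮t⟯ F := by
  have := finiteDimensional_of_transcendental (transcendental_of_notMem ht)
  set T : Finset (Σ _ : Place κ F, ℕ) := S.sigma fun P => Finset.range (P.ord t).toNat with hT
  have hTm : ∀ x ∈ T, x.1 ∈ S ∧ (x.2 : ℤ) < x.1.ord t := by
    intro x hx
    rw [hT, Finset.mem_sigma, Finset.mem_range] at hx
    exact ⟨hx.1, by have := hx.2; omega⟩
  choose y hy0 hy using fun x : (Σ _ : Place κ F, ℕ) =>
    weak_approx S (fun Q => if Q = x.1 then (x.2 : ℤ) else Q.ord t)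
  have hli : LinearIndependent κ⟮t⟯ (fun x : T => y x.1) := by
    rw [Fintype.linearIndependent_iff]
    intro g hg
    by_contra hne
    push Not at hne
    have hm : ∀ x : T, ∃ m : ℤ, g x ≠ 0 → ∀ P : Place κ F, 0 < P.ord t →
        P.ord (g x : F) = m * P.ord t := by
      intro x
      by_cases h : g x = 0
      · exact ⟨0, fun h' => absurd h h'⟩
      · obtain ⟨m, hm⟩ := F1_ord_adjoin (g x).2 (fun h' => h (Subtype.ext h'))
        exact ⟨m, fun _ => hm⟩
    choose m hm using hm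
    obtain ⟨x₁, hx₁, hmin₁⟩ := Finset.exists_min_image (Finset.univ.filter fun x => g x ≠ 0) m
      (by obtain ⟨x, hx⟩ := hne; exact ⟨x, by simpa using hx⟩)
    obtain ⟨x₀, hx₀, hmin₀⟩ := Finset.exists_min_image
      (Finset.univ.filter fun x => g x ≠ 0 ∧ m x = m x₁) (fun x => x.1.2)
      ⟨x₁, by simpa using hx₁⟩
    simp only [Finset.mem_filter, Finset.mem_univ, true_and] at hx₁ hmin₁ hx₀ hmin₀
    set P := x₀.1.1 with hP
    have hPS : P ∈ S := (hTm _ x₀.2).1
    have he : 0 < P.ord t := hS P hPS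
    have hk₀ : (x₀.1.2 : ℤ) < P.ord t := (hTm _ x₀.2).2
    have hord : ∀ x : T, g x ≠ 0 → g x • y x.1 ≠ 0 ∧ P.ord (g x • y x.1) =
        m x * P.ord t + if P = x.1.1 then (x.1.2 : ℤ) else P.ord t := by
      intro x hx
      have hx' : (g x : F) ≠ 0 := fun h => hx (Subtype.ext h)
      have e : g x • y x.1 = (g x : F) * y x.1 := rfl
      rw [e]
      exact ⟨mul_ne_zero hx' (hy0 _), by rw [P.ord_mul hx' (hy0 _), hm x hx P he, hy _ P hPS]⟩
    refine (F1_sum_ne_zero P Finset.univ (fun x : T => g x • y x.1) (Finset.mem_univ x₀)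
      (hord x₀ hx₀.1).1 ?_).1 hg
    intro x _ hx
    by_cases h : g x = 0
    · left; rw [h, zero_smul]
    right
    rw [(hord x₀ hx₀.1).2, (hord x h).2, if_pos rfl]
    have h1 : m x₀ ≤ m x := by rw [hx₀.2]; exact hmin₁ x h
    have h2 : m x₀ * P.ord t ≤ m x * P.ord t := mul_le_mul_of_nonneg_right h1 he.le
    split_ifs with h3
    · rcases h1.eq_or_lt with h4 | h4
      · have h5 := hmin₀ x ⟨h, by rw [← h4, hx₀.2]⟩
        have h6 : x₀.1.2 ≠ x.1.2 := fun h6 =>
          hx (Subtype.ext (Sigma.ext h3 (heq_of_eq h6))).symm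
        rw [h4]
        omega
      · have h5 : (m x₀ + 1) * P.ord t ≤ m x * P.ord t :=
          mul_le_mul_of_nonneg_right (by omega) he.le
        have h6 : (0 : ℤ) ≤ (x.1.2 : ℤ) := Int.natCast_nonneg _
        nlinarith
    · omega
  have hc := hli.fintype_card_le_finrank
  rw [Fintype.card_coe, hT, Finset.card_sigma] at hc
  calc ∑ P ∈ S, P.ord t = ((∑ P ∈ S, (Finset.range (P.ord t).toNat).card : ℕ) : ℤ) := by
        push_cast
        refine Finset.sum_congr rfl fun P hP => ?_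
        rw [Finset.card_range, Int.toNat_of_nonneg (hS P hP).le]
    _ ≤ _ := by exact_mod_cast hc

theorem F1_finite_zeros (t : F) : {P : Place κ F | 0 < P.ord t}.Finite := by
  by_cases ht : t ∈ (algebraMap κ F).range
  · obtain ⟨c, rfl⟩ := ht
    simp [Place.ord_algebraMap]
  by_contra hinf
  obtain ⟨S, hS, hc⟩ := Set.Infinite.exists_subset_card_eq hinf (Module.finrank κ⟮t⟯ F + 1)
  have h1 := F1_sum_ord_le ht S (fun P hP => hS hP)
  have h2 : ∑ _P ∈ S, (1 : ℤ) ≤ ∑ P ∈ S, P.ord t :=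
    Finset.sum_le_sum fun P hP => (hS hP : 0 < P.ord t)
  rw [Finset.sum_const, hc] at h2
  simp only [nsmul_eq_mul, mul_one] at h2
  push_cast at h2
  omega

theorem F1_finite_support (f : F) : (Function.support fun P : Place κ F => P.ord f).Finite := by
  refine ((F1_finite_zeros (κ := κ) f).union (F1_finite_zeros (κ := κ) f⁻¹)).subset ?_
  intro P hP
  simp only [Function.mem_support] at hP
  simp only [Set.mem_union, Set.mem_ofPred_eq, P.ord_inv]
  omega

theorem dv_apply (f : F) (P : Place κ F) : dv κ f P = P.ord f := by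
  unfold dv
  rw [dif_pos (F1_finite_support f)]
  rfl

theorem dinf_apply (f : F) (P : Place κ F) : dinf κ f P = max (- P.ord f) 0 := by
  unfold dinf
  rw [Finsupp.mapRange_apply, dv_apply]

theorem dv_mul {f g : F} (hf : f ≠ 0) (hg : g ≠ 0) : dv κ (f * g) = dv κ f + dv κ g := by
  ext P
  rw [Finsupp.add_apply, dv_apply, dv_apply, dv_apply, P.ord_mul hf hg]

theorem dv_inv (f : F) : dv κ f⁻¹ = - dv κ f := by
  ext P
  rw [Finsupp.neg_apply, dv_apply, dv_apply, P.ord_inv]

theorem dv_algebraMap (c : κ) : dv κ (algebraMap κ F c) = 0 := by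
  ext P
  rw [dv_apply, P.ord_algebraMap, Finsupp.zero_apply]

theorem F1_dv_one : dv κ (1 : F) = 0 := by
  have := dv_algebraMap (F := F) (1 : κ)
  rwa [map_one] at this

/-- the degree as an additive homomorphism -/
noncomputable def F1_degHom (κ F : Type) [Field κ] [Field F] [Algebra κ F] : Dv κ F →+ ℤ :=
  Finsupp.liftAddHom fun _ => AddMonoidHom.id ℤ

omit [IsAlgClosed κ] [CharZero κ] [IsFF κ F] in
theorem F1_deg_eq (D : Dv κ F) : deg D = F1_degHom κ F D := rfl

omit [IsAlgClosed κ] [CharZero κ] [IsFF κ F] in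
theorem deg_sub (D E : Dv κ F) : deg (D - E) = deg D - deg E := by
  simp only [F1_deg_eq, map_sub]

omit [IsAlgClosed κ] [CharZero κ] [IsFF κ F] in
theorem deg_zero : deg (0 : Dv κ F) = 0 := by
  simp only [F1_deg_eq, map_zero]

omit [IsAlgClosed κ] [CharZero κ] [IsFF κ F] in
theorem deg_single (P : Place κ F) (n : ℤ) : deg (Finsupp.single P n : Dv κ F) = n := by
  unfold deg
  exact Finsupp.sum_single_index rfl

omit [IsAlgClosed κ] [CharZero κ] [IsFF κ F] in
theorem deg_pd (P : Place κ F) : deg (pd P) = 1 := deg_single P 1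

omit [IsAlgClosed κ] [CharZero κ] [IsFF κ F] in
theorem F1_pd_apply (P Q : Place κ F) : pd P Q = if P = Q then 1 else 0 := by
  unfold pd
  rw [Finsupp.single_apply]

omit [IsAlgClosed κ] [CharZero κ] [IsFF κ F] in
theorem F1_deg_nonneg {D : Dv κ F} (h : 0 ≤ D) : 0 ≤ deg D :=
  Finset.sum_nonneg fun P _ => h P

omit [IsAlgClosed κ] [CharZero κ] [IsFF κ F] in
theorem card_support_le_deg {D : Dv κ F} (h : 0 ≤ D) : (D.support.card : ℤ) ≤ deg D := by
  have h2 : ∑ _P ∈ D.support, (1 : ℤ) ≤ ∑ P ∈ D.support, D P := by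
    refine Finset.sum_le_sum fun P hP => ?_
    have h1 : 0 ≤ D P := h P
    have h3 := Finsupp.mem_support_iff.1 hP
    omega
  rw [Finset.sum_const] at h2
  simp only [nsmul_eq_mul, mul_one] at h2
  exact h2

omit [IsAlgClosed κ] [CharZero κ] [IsFF κ F] in
theorem eq_of_le_of_deg_le {D E : Dv κ F} (h : D ≤ E) (h' : deg E ≤ deg D) : D = E := by
  have h1 := card_support_le_deg (sub_nonneg.2 h)
  rw [deg_sub] at h1
  have h2 : (E - D).support.card = 0 := by omega
  rw [Finset.card_eq_zero, Finsupp.support_eq_empty, sub_eq_zero] at h2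
  exact h2.symm

theorem mem_LL {D : Dv κ F} {f : F} : f ∈ LL D ↔ f = 0 ∨ ∀ P : Place κ F, - D P ≤ P.ord f :=
  Iff.rfl

theorem LL_mono {D E : Dv κ F} (h : D ≤ E) : LL D ≤ LL E := by
  intro f hf
  rw [mem_LL] at hf ⊢
  refine hf.imp_right fun hf P => ?_
  have h1 : D P ≤ E P := h P
  have h2 := hf P
  omega

theorem mem_LL_dinf (f : F) : f ∈ LL (dinf κ f) := by
  refine mem_LL.2 (Or.inr fun P => ?_)
  rw [dinf_apply]
  omega

theorem LinEq.refl (D : Dv κ F) : LinEq D D := ⟨1, one_ne_zero, by rw [F1_dv_one, add_zero]⟩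

theorem LinEq.symm {D E : Dv κ F} (h : LinEq D E) : LinEq E D := by
  obtain ⟨f, hf, rfl⟩ := h
  exact ⟨f⁻¹, inv_ne_zero hf, by rw [dv_inv]; abel⟩

theorem LinEq.trans {D E G : Dv κ F} (h : LinEq D E) (h' : LinEq E G) : LinEq D G := by
  obtain ⟨f, hf, rfl⟩ := h
  obtain ⟨g, hg, rfl⟩ := h'
  exact ⟨f * g, mul_ne_zero hf hg, by rw [dv_mul hf hg]; abel⟩

theorem LinEq.add {D E D' E' : Dv κ F} (h : LinEq D E) (h' : LinEq D' E') :
    LinEq (D + D') (E + E') := by
  obtain ⟨f, hf, rfl⟩ := h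
  obtain ⟨g, hg, rfl⟩ := h'
  exact ⟨f * g, mul_ne_zero hf hg, by rw [dv_mul hf hg]; abel⟩

theorem LinEq.sum {ι : Type*} (s : Finset ι) {D E : ι → Dv κ F} (h : ∀ i ∈ s, LinEq (D i) (E i)) :
    LinEq (∑ i ∈ s, D i) (∑ i ∈ s, E i) := by
  induction s using Finset.induction_on with
  | empty => simpa using LinEq.refl (0 : Dv κ F)
  | insert a s ha ih =>
    rw [Finset.sum_insert ha, Finset.sum_insert ha]
    exact (h a (Finset.mem_insert_self a s)).add
      (ih fun i hi => h i (Finset.mem_insert_of_mem hi))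

end Pool.Agent.E6b

end

section
open scoped NNReal TensorProduct IntermediateField BigOperators Classical Topology
open Filter

namespace Pool.Agent.E6b
variable {κ F : Type} [Field κ] [IsAlgClosed κ] [CharZero κ] [Field F] [Algebra κ F] [IsFF κ F]

theorem F2_pd_apply (P Q : Place κ F) : pd P Q = if P = Q then 1 else 0 := by
  unfold pd
  rw [Finsupp.single_apply]

theorem F2_pd_nonneg (P : Place κ F) : 0 ≤ pd P := by
  intro Q
  rw [F2_pd_apply]
  split_ifs <;> simp

theorem F2_sub_pd_le (D : Dv κ F) (P : Place κ F) : D - pd P ≤ D :=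
  sub_le_self _ (F2_pd_nonneg P)

theorem F2_dinf_nonneg (f : F) : 0 ≤ dinf κ f := by
  intro P
  rw [dinf_apply]
  exact le_max_right _ _

theorem F2_notMem_sub_pd {D : Dv κ F} {P : Place κ F} {f : F} (hf : f ∈ LL D) :
    f ∉ LL (D - pd P) ↔ f ≠ 0 ∧ P.ord f = - D P := by
  constructor
  · intro h
    have h0 : f ≠ 0 := fun h0 => h (h0 ▸ Submodule.zero_mem _)
    refine ⟨h0, ?_⟩
    have h1 := (mem_LL.1 hf).resolve_left h0
    by_contra h2
    refine h (mem_LL.2 (Or.inr fun Q => ?_))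
    rw [Finsupp.sub_apply, F2_pd_apply]
    have h3 := h1 Q
    split_ifs with hPQ
    · subst hPQ
      omega
    · omega
  · rintro ⟨h0, h1⟩ h
    have h2 := (mem_LL.1 h).resolve_left h0 P
    rw [Finsupp.sub_apply, F2_pd_apply, if_pos rfl] at h2
    omega

theorem F2_exists_fun (D : Dv κ F) (P : Place κ F) :
    ∃ φ : LL D →ₗ[κ] κ, LinearMap.ker φ = (LL (D - pd P)).comap (LL D).subtype := by
  obtain ⟨u, hu0, hu⟩ := P.exists_ord_eq (D P)
  have hm : ∀ f : LL D, u * (f : F) ∈ P.O := by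
    intro f
    rw [P.mem_iff]
    by_cases h0 : (f : F) = 0
    · rw [h0, mul_zero, P.ord_zero]
    · have h1 := (mem_LL.1 f.2).resolve_left h0 P
      rw [P.ord_mul hu0 h0, hu]
      omega
  refine ⟨⟨⟨fun f => P.ev (u * f), fun f g => ?_⟩, fun c f => ?_⟩, ?_⟩
  · rw [Submodule.coe_add, mul_add, P.ev_add (hm f) (hm g)]
  · simp only [Submodule.coe_smul, RingHom.id_apply, smul_eq_mul]
    rw [mul_smul_comm, P.ev_smul c (hm f)]
  · ext f
    rw [LinearMap.mem_ker, Submodule.mem_comap]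
    change P.ev (u * f) = 0 ↔ (f : F) ∈ LL (D - pd P)
    rw [P.ev_eq_zero_iff (hm f), ← not_iff_not, F2_notMem_sub_pd f.2]
    by_cases h0 : (f : F) = 0
    · simp [h0]
    · have h1 := (mem_LL.1 f.2).resolve_left h0 P
      rw [P.ord_mul hu0 h0, hu]
      simp only [mul_eq_zero, hu0, h0, or_self, false_or, not_lt, ne_eq, not_false_eq_true,
        true_and]
      omega

end Pool.Agent.E6b

end

section
open scoped NNReal TensorProduct IntermediateField BigOperators Classical Topology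
open Filter

namespace Pool.Agent.E6b
variable {κ F : Type} [Field κ] [IsAlgClosed κ] [CharZero κ] [Field F] [Algebra κ F] [IsFF κ F]

theorem F2_ord_aeval (P : Place κ F) {t : F} (ht : P.ord t < 0) {p : Polynomial κ} (hp : p ≠ 0) :
    Polynomial.aeval t p ≠ 0 ∧ P.ord (Polynomial.aeval t p) = p.natDegree * P.ord t := by
  have ht0 : t ≠ 0 := fun h => by
    rw [h, P.ord_zero] at ht
    exact lt_irrefl _ ht
  have hl : p.coeff p.natDegree ≠ 0 := Polynomial.leadingCoeff_ne_zero.2 hp
  have h1 : P.ord (p.coeff p.natDegree • t ^ p.natDegree) = p.natDegree * P.ord t := by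
    rw [P.ord_smul hl, P.ord_pow]
  have h2 := P.le_ord_sum (Finset.range p.natDegree) (fun i => p.coeff i • t ^ i)
    (n := p.natDegree * P.ord t + 1) (fun i hi => by
      by_cases hc : p.coeff i = 0
      · exact Or.inl (by simp [hc])
      · refine Or.inr ?_
        rw [P.ord_smul hc, P.ord_pow]
        have h3 : (i : ℤ) + 1 ≤ p.natDegree := by exact_mod_cast Finset.mem_range.1 hi
        nlinarith)
  rw [Polynomial.aeval_eq_sum_range, Finset.sum_range_succ_comm, ← h1]
  refine P.ord_add_eq (smul_ne_zero hl (pow_ne_zero _ ht0)) ?_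
  rw [h1]
  exact h2.imp_right fun h => by omega

theorem F2_ord_adjoin {t : F} (φ : κ⟮t⟯) (hφ : φ ≠ 0) :
    ∃ m : ℤ, ∀ P : Place κ F, P.ord t < 0 → P.ord (φ : F) = m * (- P.ord t) := by
  obtain ⟨r, s, h⟩ := (IntermediateField.mem_adjoin_simple_iff κ (φ : F)).1 φ.2
  have h0 : (φ : F) ≠ 0 := fun h => hφ (Subtype.ext h)
  have hr : r ≠ 0 := fun hr => h0 (by rw [h, hr, map_zero, zero_div])
  have hs : s ≠ 0 := fun hs => h0 (by rw [h, hs, map_zero, div_zero])
  refine ⟨(s.natDegree : ℤ) - r.natDegree, fun P hP => ?_⟩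
  obtain ⟨r1, r2⟩ := F2_ord_aeval P hP hr
  obtain ⟨s1, s2⟩ := F2_ord_aeval P hP hs
  rw [h, P.ord_div r1 s1, r2, s2]
  ring

end Pool.Agent.E6b

end
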