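import Pool.Agent.E6c.A00

section
open scoped NNReal TensorProduct IntermediateField BigOperators Classical Topology
open Filter

namespace Pool.Agent.E6b

/-- The field of algebraic numbers. -/
abbrev Qb : Type := AlgebraicClosure ℚ

/-- Normalised places of `Qb` above `p` (`p = 0`: archimedean). -/
def IsPl (p : ℕ) (v : AbsoluteValue Qb ℝ) : Prop :=
  (p = 0 ∧ ∃ ι : Qb →+* ℂ, ∀ x, v x = ‖ι x‖) ∨
    (p.Prime ∧ IsNonarchimedean v ∧ v (p : Qb) = (p : ℝ)⁻¹)

/-- `max_{a ∈ s} v a` (`0` for the empty set). -/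
noncomputable def nrm (v : AbsoluteValue Qb ℝ) (s : Finset Qb) : ℝ :=
  ((s.sup fun a => Real.toNNReal (v a) : ℝ≥0) : ℝ)

/-- `c` at the archimedean places, `1` at the others. -/
noncomputable def th (p : ℕ) (c : ℝ) : ℝ := if p = 0 then c else 1

/-- What we use of the absolute logarithmic (projective) height of a finite set. -/
structure HtSpec (ht : Finset Qb → ℝ) : Prop where
  lg : ∀ {r : Type} [Fintype r] (s : r → Finset Qb) (c : r → ℝ) (cst : ℕ →₀ ℝ),
    (∀ i, ∃ a ∈ s i, a ≠ 0) → (∀ p, p ≠ 0 → 0 ≤ cst p) →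
    (∀ p v, IsPl p v → ∑ i, c i * Real.log (nrm v (s i)) ≤ cst p) →
    ∑ i, c i * ht (s i) ≤ cst.sum fun _ x => x
  single : ∀ a : Qb, a ≠ 0 → ht {a} = 0
  gal : ∀ (σ : Qb ≃ₐ[ℚ] Qb) (s : Finset Qb), ht (s.image σ) = ht s
  zero : ∀ s : Finset Qb, (∀ a ∈ s, a = 0) → ht s = 0

end Pool.Agent.E6b

end

section
open scoped NNReal TensorProduct IntermediateField BigOperators Classical Topology
open Filter

namespace Pool.Agent.E6b

theorem H1a_isAlgebraic : Algebra.IsAlgebraic ℚ Qb := by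
  have := AlgebraicClosure.isAlgebraic ℚ
  convert this
  · rfl
  · exact Subsingleton.elim _ _

theorem exists_isPl {p : ℕ} (hp : p = 0 ∨ p.Prime) : ∃ v, IsPl p v := by
  have := H1a_isAlgebraic
  rcases hp with hp | hp
  · let ι : Qb →ₐ[ℚ] ℂ := IsAlgClosed.lift
    refine ⟨(NormedField.toAbsoluteValue ℂ).comp (f := (ι : Qb →+* ℂ)) (RingHom.injective _),
      Or.inl ⟨hp, ι, fun x => rfl⟩⟩
  · have : Fact p.Prime := ⟨hp⟩
    let ι : Qb →ₐ[ℚ] PadicAlgCl p := IsAlgClosed.lift
    refine ⟨(NormedField.toAbsoluteValue (PadicAlgCl p)).comp (f := (ι : Qb →+* PadicAlgCl p))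
      (RingHom.injective _), Or.inr ⟨hp, ?_, ?_⟩⟩
    · intro a b
      change ‖ι (a + b)‖ ≤ max ‖ι a‖ ‖ι b‖
      rw [map_add]
      exact PadicAlgCl.isNonarchimedean p _ _
    · change ‖ι (p : Qb)‖ = _
      rw [map_natCast, ← map_natCast (algebraMap ℚ_[p] (PadicAlgCl p))]
      have := PadicAlgCl.norm_extends p (p : ℚ_[p])
      rw [Padic.norm_p] at this
      exact this

theorem IsPl.comp {p : ℕ} {v : AbsoluteValue Qb ℝ} (h : IsPl p v) (σ : Qb ≃ₐ[ℚ] Qb) :
    IsPl p (v.comp (f := (σ : Qb →+* Qb)) σ.injective) := by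
  rcases h with ⟨hp, ι, hι⟩ | ⟨hp, hna, hv⟩
  · exact Or.inl ⟨hp, ι.comp (σ : Qb →+* Qb), fun x => hι _⟩
  · refine Or.inr ⟨hp, ?_, ?_⟩
    · intro a b
      change v (σ (a + b)) ≤ max (v (σ a)) (v (σ b))
      rw [map_add]
      exact hna _ _
    · change v (σ (p : Qb)) = _
      rw [map_natCast, hv]

theorem IsPl.nonarch {p : ℕ} {v : AbsoluteValue Qb ℝ} (h : IsPl p v) (hp : p ≠ 0) :
    IsNonarchimedean v := by
  rcases h with ⟨h0, _⟩ | ⟨_, hna, _⟩
  · exact absurd h0 hp
  · exact hna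

theorem H1a_prime {p : ℕ} {v : AbsoluteValue Qb ℝ} (h : IsPl p v) (hp : p ≠ 0) :
    p.Prime ∧ v (p : Qb) = (p : ℝ)⁻¹ := by
  rcases h with ⟨h0, _⟩ | ⟨h1, _, h2⟩
  · exact absurd h0 hp
  · exact ⟨h1, h2⟩

theorem H1a_int_le_one {p : ℕ} {v : AbsoluteValue Qb ℝ} (h : IsPl p v) (hp : p ≠ 0) (n : ℤ) :
    v (n : Qb) ≤ 1 :=
  IsNonarchimedean.apply_intCast_le_one (h.nonarch hp)

theorem H1a_coprime {p : ℕ} {v : AbsoluteValue Qb ℝ} (h : IsPl p v) (hp : p ≠ 0) {m : ℤ}
    (hm : ¬ (p : ℤ) ∣ m) : v (m : Qb) = 1 := by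
  obtain ⟨hpp, hv⟩ := H1a_prime h hp
  have hprime : Prime (p : ℤ) := Nat.prime_iff_prime_int.mp hpp
  have hc : IsCoprime (p : ℤ) m := (hprime.irreducible.coprime_iff_not_dvd).mpr hm
  obtain ⟨a, b, hab⟩ := hc
  refine le_antisymm (H1a_int_le_one h hp m) ?_
  by_contra hlt
  push Not at hlt
  have h1 : ((a : Qb) * (p : Qb) + (b : Qb) * (m : Qb)) = 1 := by exact_mod_cast congrArg (Int.cast : ℤ → Qb) hab
  have h2 := h.nonarch hp ((a : Qb) * (p : Qb)) ((b : Qb) * (m : Qb))
  rw [h1, map_one, map_mul, map_mul, hv] at h2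
  have hp1 : (p : ℝ)⁻¹ < 1 := inv_lt_one_of_one_lt₀ (by exact_mod_cast hpp.one_lt)
  have hp0 : 0 ≤ (p : ℝ)⁻¹ := by positivity
  have ha := H1a_int_le_one h hp a
  have hb := H1a_int_le_one h hp b
  have ha0 := v.nonneg (a : Qb)
  have hb0 := v.nonneg (b : Qb)
  have hm0 := v.nonneg (m : Qb)
  have e1 : v (a : Qb) * (p : ℝ)⁻¹ < 1 := by nlinarith
  have e2 : v (b : Qb) * v (m : Qb) < 1 := by nlinarith
  exact absurd h2 (not_le.mpr (max_lt e1 e2))

theorem IsPl.eq_padicNorm {p : ℕ} {v : AbsoluteValue Qb ℝ} (h : IsPl p v) (hp : p ≠ 0) (x : ℚ) :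
    v (x : Qb) = (padicNorm p x : ℝ) := by
  obtain ⟨hpp, hv⟩ := H1a_prime h hp
  have : Fact p.Prime := ⟨hpp⟩
  have key : v.comp (f := algebraMap ℚ Qb) (RingHom.injective _) = Rat.AbsoluteValue.padic p := by
    rw [← Rat.AbsoluteValue.eq_on_nat_iff_eq]
    intro n
    change v (algebraMap ℚ Qb (n : ℚ)) = _
    rw [map_natCast]
    rcases eq_or_ne n 0 with rfl | hn
    · simp
    obtain ⟨k, m, hm, rfl⟩ := Nat.exists_eq_pow_mul_and_not_dvd hn p hpp.ne_one
    have h1 : v (m : Qb) = 1 := by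
      have := H1a_coprime h hp (m := (m : ℤ)) (by exact_mod_cast hm)
      simpa using this
    have h2 : Rat.AbsoluteValue.padic p (m : ℚ) = 1 := by
      rw [Rat.AbsoluteValue.padic_eq_padicNorm, (padicNorm.nat_eq_one_iff m).mpr hm]
      simp
    have h3 : Rat.AbsoluteValue.padic p (p : ℚ) = (p : ℝ)⁻¹ := by
      rw [Rat.AbsoluteValue.padic_eq_padicNorm, padicNorm.padicNorm_p hpp.one_lt]
      simp
    push_cast
    rw [map_mul, map_mul, map_pow, map_pow, h1, h2, h3, hv]
  have := congrArg (fun w : AbsoluteValue ℚ ℝ => w x) key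
  exact this

theorem IsPl.eq_abs {v : AbsoluteValue Qb ℝ} (h : IsPl 0 v) (x : ℚ) :
    v (x : Qb) = |(x : ℝ)| := by
  rcases h with ⟨_, ι, hι⟩ | ⟨h1, _⟩
  · rw [hι, map_ratCast, Complex.norm_ratCast]
  · exact absurd h1 Nat.not_prime_zero

theorem IsPl.sum_le {p : ℕ} {v : AbsoluteValue Qb ℝ} (h : IsPl p v) {ι : Type*} (s : Finset ι)
    (f : ι → Qb) {M : ℝ} (hM : 0 ≤ M) (hf : ∀ i ∈ s, v (f i) ≤ M) :
    v (∑ i ∈ s, f i) ≤ th p s.card * M := by
  unfold th
  split_ifs with hp
  · refine (v.sum_le s f).trans ?_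
    have := Finset.sum_le_card_nsmul s (fun i => v (f i)) M hf
    rwa [nsmul_eq_mul] at this
  · rw [one_mul]
    have hna := h.nonarch hp
    induction s using Finset.induction_on with
    | empty => simpa using hM
    | insert a s ha ih =>
      rw [Finset.sum_insert ha]
      refine (hna _ _).trans (max_le (hf a (Finset.mem_insert_self _ _)) (ih ?_))
      exact fun i hi => hf i (Finset.mem_insert_of_mem hi)

/-- the bound for a root of a monic integer polynomial. -/
theorem H1a_root_le {p : ℕ} {v : AbsoluteValue Qb ℝ} (h : IsPl p v) {a : Qb}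
    {P : Polynomial ℤ} (hP : P.Monic) (ha : Polynomial.aeval a P = 0) {B : ℝ} (hB : 0 ≤ B)
    (hc : ∀ i < P.natDegree, v ((P.coeff i : ℤ) : Qb) ≤ B) :
    v a ≤ max 1 (th p P.natDegree * B) := by
  by_contra hlt
  push Not at hlt
  have h1 : 1 < v a := lt_of_le_of_lt (le_max_left _ _) hlt
  have h2 : th p P.natDegree * B < v a := lt_of_le_of_lt (le_max_right _ _) hlt
  have hsum : a ^ P.natDegree =
      -∑ i ∈ Finset.range P.natDegree, ((P.coeff i : ℤ) : Qb) * a ^ i := by
    rw [Polynomial.aeval_eq_sum_range, Finset.sum_range_succ, hP.coeff_natDegree, one_smul] at ha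
    simp only [zsmul_eq_mul] at ha
    exact eq_neg_of_add_eq_zero_right ha
  rcases Nat.eq_zero_or_pos P.natDegree with h0 | hpos
  · rw [h0] at hsum
    simp at hsum
  obtain ⟨d, hd⟩ : ∃ d, P.natDegree = d + 1 := ⟨P.natDegree - 1, by omega⟩
  have hva : 0 < v a := by linarith
  have h3 := h.sum_le (Finset.range P.natDegree) (fun i => ((P.coeff i : ℤ) : Qb) * a ^ i)
    (M := B * v a ^ d) (by positivity) (by
      intro i hi
      rw [Finset.mem_range] at hi
      rw [map_mul, map_pow]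
      exact mul_le_mul (hc i hi) (pow_le_pow_right₀ h1.le (by omega)) (by positivity) hB)
  rw [Finset.card_range, ← v.map_neg, ← hsum, map_pow, ← mul_assoc] at h3
  have h4 : v a ^ P.natDegree = v a * v a ^ d := by rw [hd, pow_succ']
  rw [h4] at h3
  have h5 : 0 < v a ^ d := by positivity
  nlinarith

theorem IsPl.le_one_of_isIntegral {p : ℕ} {v : AbsoluteValue Qb ℝ} (h : IsPl p v) (hp : p ≠ 0)
    {a : Qb} (ha : IsIntegral ℤ a) : v a ≤ 1 := by
  obtain ⟨P, hP, hPa⟩ := ha
  have := H1a_root_le h hP (a := a) hPa (B := 1) zero_le_one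
    (fun i _ => H1a_int_le_one h hp _)
  simpa [th, hp] using this

theorem H1a_exists_mul (a : Qb) : ∃ N : ℕ, 0 < N ∧ IsIntegral ℤ ((N : Qb) * a) := by
  have h1 : IsAlgebraic ℚ a := H1a_isAlgebraic.isAlgebraic a
  have h2 : IsAlgebraic ℤ a := (IsFractionRing.isAlgebraic_iff ℤ ℚ Qb).mpr h1
  obtain ⟨y, hy, hi⟩ := h2.exists_integral_multiple
  refine ⟨y.natAbs, Int.natAbs_pos.mpr hy, ?_⟩
  rw [zsmul_eq_mul] at hi
  rcases Int.natAbs_eq y with e | e
  · have : ((y.natAbs : ℕ) : Qb) = (y : Qb) := by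
      conv_rhs => rw [e]
      simp only [Int.cast_natCast]
    rw [this]
    exact hi
  · have : ((y.natAbs : ℕ) : Qb) = -(y : Qb) := by
      conv_rhs => rw [e]
      simp only [Int.cast_neg, Int.cast_natCast, neg_neg]
    rw [this, neg_mul]
    exact hi.neg

theorem H1a_nat_lower {p : ℕ} {v : AbsoluteValue Qb ℝ} (h : IsPl p v) {N : ℕ} (hN : 0 < N) :
    1 ≤ N * v (N : Qb) := by
  have hN1 : (1 : ℝ) ≤ N := by exact_mod_cast hN
  rcases eq_or_ne p 0 with rfl | hp
  · have := h.eq_abs (N : ℚ)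
    simp only [Rat.cast_natCast, Nat.abs_cast] at this
    rw [this]
    nlinarith
  · obtain ⟨hpp, hv⟩ := H1a_prime h hp
    obtain ⟨k, m, hm, rfl⟩ := Nat.exists_eq_pow_mul_and_not_dvd hN.ne' p hpp.ne_one
    have h1 : v (m : Qb) = 1 := by
      have := H1a_coprime h hp (m := (m : ℤ)) (by exact_mod_cast hm)
      simpa using this
    have hm1 : (1 : ℝ) ≤ m := by
      have : m ≠ 0 := by
        rintro rfl
        exact hm (dvd_zero p)
      exact_mod_cast Nat.one_le_iff_ne_zero.mpr this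
    have hp0 : (p : ℝ) ≠ 0 := by exact_mod_cast hp
    push_cast
    rw [map_mul, map_pow, h1, hv, mul_one, inv_pow, mul_right_comm,
      mul_inv_cancel₀ (pow_ne_zero _ hp0), one_mul]
    exact hm1

theorem H1a_eventually_le_one (a : Qb) : ∃ N : ℕ, ∀ p v, IsPl p v → N ≤ p → v a ≤ 1 := by
  obtain ⟨N, hN, hi⟩ := H1a_exists_mul a
  refine ⟨N + 1, fun p v h hp => ?_⟩
  have hp0 : p ≠ 0 := by omega
  have h1 := h.le_one_of_isIntegral hp0 hi
  have h2 : v (N : Qb) = 1 := by
    have := H1a_coprime h hp0 (m := (N : ℤ)) (by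
      intro hd
      have := Nat.le_of_dvd hN (by exact_mod_cast hd : p ∣ N)
      omega)
    simpa using this
  rwa [map_mul, h2, one_mul] at h1

theorem eventually_eq_one {a : Qb} (ha : a ≠ 0) :
    ∃ N : ℕ, ∀ p v, IsPl p v → N ≤ p → v a = 1 := by
  obtain ⟨N, hN⟩ := H1a_eventually_le_one a
  obtain ⟨M, hM⟩ := H1a_eventually_le_one a⁻¹
  refine ⟨max N M, fun p v h hp => ?_⟩
  have h1 := hN p v h (le_trans (le_max_left _ _) hp)
  have h2 := hM p v h (le_trans (le_max_right _ _) hp)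
  rw [map_inv₀] at h2
  have h3 : 0 < v a := v.pos ha
  exact le_antisymm h1 ((inv_le_one₀ h3).mp h2)

theorem nrm_nonneg (v : AbsoluteValue Qb ℝ) (s : Finset Qb) : 0 ≤ nrm v s :=
  NNReal.coe_nonneg _

theorem le_nrm (v : AbsoluteValue Qb ℝ) {s : Finset Qb} {a : Qb} (ha : a ∈ s) :
    v a ≤ nrm v s := by
  have h1 : Real.toNNReal (v a) ≤ s.sup fun a => Real.toNNReal (v a) :=
    Finset.le_sup (f := fun a => Real.toNNReal (v a)) ha
  exact (Real.le_coe_toNNReal _).trans (NNReal.coe_le_coe.mpr h1)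

theorem nrm_le (v : AbsoluteValue Qb ℝ) {s : Finset Qb} {M : ℝ} (hM : 0 ≤ M)
    (h : ∀ a ∈ s, v a ≤ M) : nrm v s ≤ M := by
  have h1 : (s.sup fun a => Real.toNNReal (v a)) ≤ Real.toNNReal M :=
    Finset.sup_le fun a ha => Real.toNNReal_le_toNNReal (h a ha)
  have h2 := NNReal.coe_le_coe.mpr h1
  rw [Real.coe_toNNReal _ hM] at h2
  exact h2

theorem exists_nrm_eq (v : AbsoluteValue Qb ℝ) {s : Finset Qb} (hs : s.Nonempty) :
    ∃ a ∈ s, v a = nrm v s := by
  obtain ⟨a, ha, e⟩ := Finset.exists_mem_eq_sup s hs (fun a => Real.toNNReal (v a))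
  refine ⟨a, ha, ?_⟩
  unfold nrm
  rw [e, Real.coe_toNNReal _ (v.nonneg a)]

theorem nrm_pos (v : AbsoluteValue Qb ℝ) {s : Finset Qb} (hs : ∃ a ∈ s, a ≠ 0) :
    0 < nrm v s := by
  obtain ⟨a, ha, h0⟩ := hs
  exact lt_of_lt_of_le (v.pos h0) (le_nrm v ha)

end Pool.Agent.E6b

end

section
open scoped NNReal TensorProduct IntermediateField BigOperators Classical Topology
open Filter

namespace Pool.Agent.E6b

/-- a chosen place above `p` -/
noncomputable def H1b_bp (p : ℕ) : AbsoluteValue Qb ℝ :=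
  if h : p = 0 ∨ p.Prime then (exists_isPl h).choose else (exists_isPl (Or.inl rfl)).choose

theorem H1b_bp_isPl {p : ℕ} (h : p = 0 ∨ p.Prime) : IsPl p (H1b_bp p) := by
  unfold H1b_bp
  rw [dif_pos h]
  exact (exists_isPl h).choose_spec

/-- the local term -/
noncomputable def H1b_loc (p : ℕ) (t : Finset Qb) : ℝ :=
  if p = 0 ∨ p.Prime then Real.log (nrm (H1b_bp p) t) else 0

/-- the sum of the local terms -/
noncomputable def H1b_G (t : Finset Qb) : ℝ := ∑ᶠ p, H1b_loc p t

theorem H1b_loc_eventually (t : Finset Qb) : ∃ N : ℕ, ∀ p, N ≤ p → H1b_loc p t = 0 := by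
  have h1 : ∀ a : Qb, ∃ N : ℕ, ∀ p v, IsPl p v → N ≤ p → v a = 0 ∨ v a = 1 := by
    intro a
    by_cases ha : a = 0
    · exact ⟨0, fun p v _ _ => Or.inl (by rw [ha, map_zero])⟩
    · obtain ⟨N, hN⟩ := eventually_eq_one ha
      exact ⟨N, fun p v hv hp => Or.inr (hN p v hv hp)⟩
  choose N hN using h1
  refine ⟨t.sup N, fun p hp => ?_⟩
  unfold H1b_loc
  split_ifs with h
  · rcases t.eq_empty_or_nonempty with rfl | ht
    · simp [nrm]
    · obtain ⟨a, ha, e⟩ := exists_nrm_eq (H1b_bp p) ht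
      rw [← e]
      rcases hN a p _ (H1b_bp_isPl h) ((Finset.le_sup ha).trans hp) with h0 | h0 <;> simp [h0]
  · rfl

theorem H1b_G_eq (t : Finset Qb) :
    ∃ N : ℕ, ∀ M, N ≤ M → H1b_G t = ∑ p ∈ Finset.range M, H1b_loc p t := by
  obtain ⟨N, hN⟩ := H1b_loc_eventually t
  refine ⟨N, fun M hM => finsum_eq_sum_of_support_subset _ fun p hp => ?_⟩
  simp only [Finset.coe_range, Set.mem_Iio]
  by_contra hc
  exact hp (hN p (hM.trans (not_lt.1 hc)))

theorem H1b_nrm_single (v : AbsoluteValue Qb ℝ) (a : Qb) : nrm v {a} = v a := by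
  simp [nrm]

theorem H1b_nrm_image (v : AbsoluteValue Qb ℝ) (σ : Qb ≃ₐ[ℚ] Qb) (s : Finset Qb) :
    nrm v (s.image σ) = nrm (v.comp (f := (σ : Qb →+* Qb)) σ.injective) s := by
  unfold nrm
  rw [Finset.sup_image]
  rfl

theorem H1b_G_mul {a b : Qb} (ha : a ≠ 0) (hb : b ≠ 0) :
    H1b_G {a * b} = H1b_G {a} + H1b_G {b} := by
  obtain ⟨N₁, h₁⟩ := H1b_G_eq {a * b}
  obtain ⟨N₂, h₂⟩ := H1b_G_eq {a}
  obtain ⟨N₃, h₃⟩ := H1b_G_eq {b}
  rw [h₁ (N₁ + N₂ + N₃) (by omega), h₂ (N₁ + N₂ + N₃) (by omega), h₃ (N₁ + N₂ + N₃) (by omega),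
    ← Finset.sum_add_distrib]
  refine Finset.sum_congr rfl fun p _ => ?_
  unfold H1b_loc
  split_ifs with h
  · simp only [H1b_nrm_single, map_mul]
    exact Real.log_mul ((H1b_bp p).ne_zero ha) ((H1b_bp p).ne_zero hb)
  · simp

theorem H1b_G_unit {a : Qb} (ha : ∀ v : AbsoluteValue Qb ℝ, v a = 1) : H1b_G {a} = 0 := by
  unfold H1b_G
  have : ∀ p, H1b_loc p {a} = 0 := by
    intro p
    unfold H1b_loc
    split_ifs with h
    · rw [H1b_nrm_single, ha, Real.log_one]
    · rfl
  simp [this]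

theorem H1b_G_prime {l : ℕ} (hl : l.Prime) : H1b_G {(l : Qb)} = 0 := by
  obtain ⟨N, hN⟩ := H1b_G_eq {(l : Qb)}
  rw [hN (N + l + 1) (by omega)]
  have hl0 : l ≠ 0 := hl.ne_zero
  have hcast : ((l : ℚ) : Qb) = (l : Qb) := by simp
  rw [Finset.sum_eq_add_of_mem 0 l (by simp) (by simp) hl0.symm]
  · unfold H1b_loc
    rw [if_pos (Or.inl rfl), if_pos (Or.inr hl), H1b_nrm_single, H1b_nrm_single]
    have e0 := (H1b_bp_isPl (p := 0) (Or.inl rfl)).eq_abs (l : ℚ)
    rw [hcast] at e0
    have e1 : H1b_bp l (l : Qb) = (l : ℝ)⁻¹ := by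
      rcases H1b_bp_isPl (Or.inr hl) with h | h
      · exact absurd h.1 hl0
      · exact h.2.2
    rw [e0, e1, Real.log_inv]
    simp
  · intro p _ hp
    unfold H1b_loc
    split_ifs with h
    · have hpp : p.Prime := h.resolve_left hp.1
      have : Fact p.Prime := ⟨hpp⟩
      have : Fact l.Prime := ⟨hl⟩
      have e := (H1b_bp_isPl h).eq_padicNorm hp.1 (l : ℚ)
      rw [hcast, padicNorm.padicNorm_of_prime_of_ne hp.2] at e
      rw [H1b_nrm_single, e]
      simp
    · rfl

theorem H1b_G_nat (n : ℕ) (hn : n ≠ 0) : H1b_G {(n : Qb)} = 0 := by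
  induction n using Nat.recOnMul with
  | zero => exact absurd rfl hn
  | one => exact H1b_G_unit fun v => by simp
  | prime p hp => exact H1b_G_prime hp
  | mul a b iha ihb =>
    have ha : a ≠ 0 := left_ne_zero_of_mul hn
    have hb : b ≠ 0 := right_ne_zero_of_mul hn
    rw [Nat.cast_mul, H1b_G_mul (by exact_mod_cast ha) (by exact_mod_cast hb), iha ha, ihb hb,
      add_zero]

theorem H1b_G_neg {a : Qb} (ha : a ≠ 0) : H1b_G {-a} = H1b_G {a} := by
  rw [← neg_one_mul, H1b_G_mul (by simp) ha, H1b_G_unit fun v => by simp, zero_add]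

theorem H1b_G_int (n : ℤ) (hn : n ≠ 0) : H1b_G {(n : Qb)} = 0 := by
  have h0 : n.natAbs ≠ 0 := Int.natAbs_ne_zero.2 hn
  rcases Int.natAbs_eq n with h | h
  · rw [h, Int.cast_natCast]
    exact H1b_G_nat _ h0
  · rw [h, Int.cast_neg, Int.cast_natCast, H1b_G_neg (by exact_mod_cast h0)]
    exact H1b_G_nat _ h0

theorem H1b_G_rat (q : ℚ) (hq : q ≠ 0) : H1b_G {(q : Qb)} = 0 := by
  have h1 : (q : Qb) * (q.den : Qb) = (q.num : Qb) := by
    exact_mod_cast congrArg (fun x : ℚ => (x : Qb)) (Rat.mul_den_eq_num q)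
  have h2 := H1b_G_mul (a := (q : Qb)) (b := (q.den : Qb)) (by exact_mod_cast hq)
    (by exact_mod_cast q.den_nz)
  rw [h1, H1b_G_int _ (Rat.num_ne_zero.2 hq), H1b_G_nat _ q.den_nz] at h2
  linarith

theorem H1b_galois : IsGalois ℚ Qb := by
  have h : IsAlgClosure ℚ Qb := by
    convert AlgebraicClosure.instIsAlgClosure ℚ
    · rfl
    · exact Subsingleton.elim _ _
  exact IsAlgClosure.isGalois ℚ Qb

theorem H1b_lc (a : Qb) : IsLocallyConstant fun σ : Qb ≃ₐ[ℚ] Qb => σ.symm a := by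
  have := H1b_galois
  rw [IsLocallyConstant.iff_eventually_eq]
  intro σ
  have h1 := stabilizer_isOpen_of_isIntegral (K := ℚ) (σ⁻¹ a)
  have h2 : Continuous fun τ : Qb ≃ₐ[ℚ] Qb => τ⁻¹ * σ := by fun_prop
  have h3 : (fun τ : Qb ≃ₐ[ℚ] Qb => τ⁻¹ * σ) ⁻¹'
      (MulAction.stabilizer (Qb ≃ₐ[ℚ] Qb) (σ⁻¹ a) : Set (Qb ≃ₐ[ℚ] Qb)) ∈ 𝓝 σ :=
    (h1.preimage h2).mem_nhds (by simp)
  filter_upwards [h3] with τ hτ
  simpa [MulAction.mem_stabilizer_iff, AlgEquiv.smul_def] using hτ

theorem H1b_cont (s : Finset Qb) :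
    Continuous fun σ : Qb ≃ₐ[ℚ] Qb => H1b_G (s.image σ.symm) := by
  refine IsLocallyConstant.continuous ?_
  rw [IsLocallyConstant.iff_eventually_eq]
  intro σ
  have h1 : ∀ᶠ τ : Qb ≃ₐ[ℚ] Qb in 𝓝 σ, ∀ a ∈ s, τ.symm a = σ.symm a :=
    (Finset.eventually_all s).2 fun a _ => (H1b_lc a).eventually_eq σ
  filter_upwards [h1] with τ hτ
  rw [Finset.image_congr hτ]

theorem H1b_point {r : Type} [Fintype r] (s : r → Finset Qb) (c : r → ℝ) (cst : ℕ →₀ ℝ)
    (h0 : ∀ p, p ≠ 0 → 0 ≤ cst p)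
    (h : ∀ p v, IsPl p v → ∑ i, c i * Real.log (nrm v (s i)) ≤ cst p) (σ : Qb ≃ₐ[ℚ] Qb) :
    ∑ i, c i * H1b_G ((s i).image σ) ≤ cst.sum fun _ x => x := by
  choose N hN using fun i => H1b_G_eq ((s i).image σ)
  set M := Finset.univ.sup N + (cst.support.sup id + 1) with hM
  have e1 : ∀ i, H1b_G ((s i).image σ) = ∑ p ∈ Finset.range M, H1b_loc p ((s i).image σ) :=
    fun i => hN i M ((Finset.le_sup (Finset.mem_univ i)).trans (Nat.le_add_right _ _))
  have e2 : (cst.sum fun _ x => x) = ∑ p ∈ Finset.range M, cst p := by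
    refine Finsupp.sum_of_support_subset _ (fun p hp => ?_) _ fun _ _ => rfl
    have : p ≤ cst.support.sup id := Finset.le_sup (f := id) hp
    rw [Finset.mem_range]
    omega
  simp only [e1, e2, Finset.mul_sum]
  rw [Finset.sum_comm]
  refine Finset.sum_le_sum fun p _ => ?_
  unfold H1b_loc
  split_ifs with hp
  · simp only [H1b_nrm_image]
    exact h p _ ((H1b_bp_isPl hp).comp σ)
  · simp only [mul_zero, Finset.sum_const_zero]
    exact h0 p fun e => hp (Or.inl e)

open MeasureTheory in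
theorem H1b_mean : ∃ I : ((Qb ≃ₐ[ℚ] Qb) → ℝ) → ℝ,
    (∀ {r : Type} [Fintype r] (f : r → (Qb ≃ₐ[ℚ] Qb) → ℝ) (c : r → ℝ) (b : ℝ),
      (∀ i, Continuous (f i)) → (∀ σ, ∑ i, c i * f i σ ≤ b) → ∑ i, c i * I (f i) ≤ b) ∧
    (∀ f g, Continuous f → Continuous g → I (fun σ => f σ + g σ) = I f + I g) ∧
    (∀ f τ, I (fun σ => f (τ * σ)) = I f) ∧ I (fun _ => 0) = 0 := by
  have := H1b_galois
  let _ : MeasurableSpace (Qb ≃ₐ[ℚ] Qb) := borel _
  have : BorelSpace (Qb ≃ₐ[ℚ] Qb) := ⟨rfl⟩
  let μ : Measure (Qb ≃ₐ[ℚ] Qb) := Measure.haarMeasure ⊤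
  have : IsProbabilityMeasure μ := ⟨by
    have := Measure.haarMeasure_self (K₀ := (⊤ : TopologicalSpace.PositiveCompacts (Qb ≃ₐ[ℚ] Qb)))
    simpa using this⟩
  have hint : ∀ f : (Qb ≃ₐ[ℚ] Qb) → ℝ, Continuous f → Integrable f μ := fun f hf =>
    hf.integrable_of_hasCompactSupport (HasCompactSupport.of_compactSpace f)
  refine ⟨fun f => ∫ σ, f σ ∂μ, ?_, ?_, ?_, ?_⟩
  · intro r _ f c b hf hb
    simp only [← integral_const_mul]
    rw [← integral_finsetSum _ fun i _ => (hint _ (hf i)).const_mul (c i)]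
    have h1 := integral_mono (integrable_finsetSum _ fun i _ => (hint _ (hf i)).const_mul (c i))
      (integrable_const b) hb
    simpa using h1
  · intro f g hf hg
    exact integral_add (hint f hf) (hint g hg)
  · intro f τ
    exact integral_mul_left_eq_self f τ
  · simp

theorem exists_ht : ∃ ht : Finset Qb → ℝ, HtSpec ht := by
  have := H1b_galois
  obtain ⟨I, hI1, hI2, hI3, hI4⟩ := H1b_mean
  let ht : Finset Qb → ℝ := fun s => I fun σ => H1b_G (s.image σ.symm)
  have hgal : ∀ (τ : Qb ≃ₐ[ℚ] Qb) (s : Finset Qb), ht (s.image τ) = ht s := by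
    intro τ s
    have := hI3 (fun σ => H1b_G (s.image σ.symm)) τ⁻¹
    refine Eq.trans ?_ this
    simp only [ht, Finset.image_image]
    rfl
  have hmul : ∀ a b : Qb, a ≠ 0 → b ≠ 0 → ht {a * b} = ht {a} + ht {b} := by
    intro a b ha hb
    simp only [ht]
    rw [← hI2 _ _ (H1b_cont {a}) (H1b_cont {b})]
    congr 1
    funext σ
    simp only [Finset.image_singleton, map_mul]
    exact H1b_G_mul (by simpa using ha) (by simpa using hb)
  have hrat : ∀ q : ℚ, q ≠ 0 → ht {(q : Qb)} = 0 := by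
    intro q hq
    simp only [ht, Finset.image_singleton, map_ratCast, H1b_G_rat q hq, hI4]
  have hprod : ∀ (x : ℝ) (m : Multiset Qb), (∀ b ∈ m, b ≠ 0 ∧ ht {b} = x) →
      ht {m.prod} = Multiset.card m * x := by
    intro x m
    induction m using Multiset.induction_on with
    | empty =>
      intro _
      simpa using hrat 1 one_ne_zero
    | cons b m ih =>
      intro h
      have hb := h b (Multiset.mem_cons_self _ _)
      have hm : ∀ c ∈ m, c ≠ 0 ∧ ht {c} = x := fun c hc => h c (Multiset.mem_cons_of_mem hc)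
      rw [Multiset.prod_cons, hmul _ _ hb.1 (Multiset.prod_ne_zero fun h0 => (hm 0 h0).1 rfl),
        ih hm, hb.2, Multiset.card_cons]
      push_cast
      ring
  refine ⟨ht, ⟨?_, ?_, hgal, ?_⟩⟩
  · intro r _ s c cst _ h0 h
    exact hI1 _ c _ (fun i => H1b_cont (s i)) fun σ => H1b_point s c cst h0 h σ.symm
  · intro a ha
    have hint : IsIntegral ℚ a := Algebra.IsIntegral.isIntegral a
    set f := (minpoly ℚ a).map (algebraMap ℚ Qb) with hf
    have hmon : f.Monic := (minpoly.monic hint).map _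
    have hsp : f.Splits := IsAlgClosed.splits f
    have hroots : ∀ b ∈ f.roots, b ≠ 0 ∧ ht {b} = ht {a} := by
      intro b hb
      have h1 : IsConjRoot ℚ a b := (isConjRoot_iff_mem_minpoly_aroots hint).2 hb
      obtain ⟨σ, hσ⟩ := h1.exists_algEquiv
      refine ⟨fun h0 => ha (by rw [← hσ, h0, map_zero]), ?_⟩
      rw [← hgal σ {b}, Finset.image_singleton, hσ]
    have h2 := hprod _ _ hroots
    have h3 := hsp.coeff_zero_eq_prod_roots_of_monic hmon
    have h4 : f.roots.prod = (((-1) ^ f.natDegree * (minpoly ℚ a).coeff 0 : ℚ) : Qb) := by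
      have e : f.coeff 0 = (((minpoly ℚ a).coeff 0 : ℚ) : Qb) := by
        rw [hf, Polynomial.coeff_map]
        rfl
      push_cast
      rw [← e, h3, ← mul_assoc, ← mul_pow]
      simp
    have h5 : (minpoly ℚ a).coeff 0 ≠ 0 := minpoly.coeff_zero_ne_zero hint ha
    rw [h4, hrat _ (mul_ne_zero (pow_ne_zero _ (by norm_num)) h5)] at h2
    have h6 : 0 < Multiset.card f.roots := by
      rw [← hsp.natDegree_eq_card_roots, hf, (minpoly.monic hint).natDegree_map]
      exact minpoly.natDegree_pos hint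
    have h7 : (0 : ℝ) < Multiset.card f.roots := by exact_mod_cast h6
    rcases mul_eq_zero.1 h2.symm with h | h
    · exact absurd h h7.ne'
    · exact h
  · intro s hs
    have : ∀ σ : Qb ≃ₐ[ℚ] Qb, H1b_G (s.image σ.symm) = 0 := by
      intro σ
      have h1 : ∀ p, H1b_loc p (s.image σ.symm) = 0 := by
        intro p
        unfold H1b_loc
        split_ifs with h
        · have h2 : nrm (H1b_bp p) (s.image σ.symm) = 0 := by
            refine le_antisymm (nrm_le _ le_rfl fun a ha => ?_) (nrm_nonneg _ _)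
            obtain ⟨b, hb, rfl⟩ := Finset.mem_image.1 ha
            simp [hs b hb]
          rw [h2, Real.log_zero]
        · rfl
      simp [H1b_G, h1]
    simp only [ht, this, hI4]

end Pool.Agent.E6b

end

section
open scoped NNReal TensorProduct IntermediateField BigOperators Classical Topology
open Filter

namespace Pool.Agent.E6b

/-- absolute logarithmic projective height of a finite set of algebraic numbers -/
noncomputable def ht : Finset Qb → ℝ := Classical.choose exists_ht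

theorem htSpec : HtSpec ht := Classical.choose_spec exists_ht

/-- height of a vector -/
noncomputable def hv {ι : Type*} [Fintype ι] (x : ι → Qb) : ℝ := ht (Finset.univ.image x)

/-- local norm of a vector -/
noncomputable def nv {ι : Type*} [Fintype ι] (v : AbsoluteValue Qb ℝ) (x : ι → Qb) : ℝ :=
  nrm v (Finset.univ.image x)

/-- height of a number -/
noncomputable def h1 (a : Qb) : ℝ := ht {1, a}

/-- height of a polynomial -/
noncomputable def hp {σ : Type*} (P : MvPolynomial σ Qb) : ℝ := ht P.coeffs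

/-- proportional vectors -/
def Prp {ι K : Type*} [Field K] (x y : ι → K) : Prop := ∃ μ : K, μ ≠ 0 ∧ ∀ i, x i = μ * y i

end Pool.Agent.E6b

end

section
open scoped NNReal TensorProduct IntermediateField BigOperators Classical Topology
open Filter

namespace Pool.Agent.E6b

theorem H2_gen {r : Type} [Fintype r] {s : Finset Qb} (hs : ∃ a ∈ s, a ≠ 0)
    (t : r → Finset Qb) (ht0 : ∀ i, ∃ a ∈ t i, a ≠ 0) (k : r → ℝ) (cst : ℕ →₀ ℝ)
    (hc : ∀ p, p ≠ 0 → 0 ≤ cst p)
    (h : ∀ p v, IsPl p v → nrm v s ≤ Real.exp (cst p) * ∏ i, nrm v (t i) ^ k i) :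
    ht s ≤ (cst.sum fun _ x => x) + ∑ i, k i * ht (t i) := by
  have key := htSpec.lg (r := Option r) (fun o => o.elim s t) (fun o => o.elim 1 fun i => -k i) cst
    (fun o => by
      cases o with
      | none => exact hs
      | some i => exact ht0 i) hc (fun p v hv => by
      have h1 := Real.log_le_log (nrm_pos v hs) (h p v hv)
      have hp : ∀ i, 0 < nrm v (t i) := fun i => nrm_pos v (ht0 i)
      rw [Real.log_mul (Real.exp_pos _).ne'
          (Finset.prod_pos fun i _ => Real.rpow_pos_of_pos (hp i) _).ne', Real.log_exp,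
        Real.log_prod fun i _ => (Real.rpow_pos_of_pos (hp i) _).ne'] at h1
      simp only [Real.log_rpow (hp _)] at h1
      simp only [Fintype.sum_option, Option.elim_none, Option.elim_some, one_mul, neg_mul,
        Finset.sum_neg_distrib]
      linarith)
  simp only [Fintype.sum_option, Option.elim_none, Option.elim_some, one_mul, neg_mul,
    Finset.sum_neg_distrib] at key
  linarith

/-- multiplicative form of the local-to-global principle -/
theorem ht_le_of_local {r : Type} [Fintype r] {s : Finset Qb} (hs : ∃ a ∈ s, a ≠ 0)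
    (t : r → Finset Qb) (ht0 : ∀ i, ∃ a ∈ t i, a ≠ 0) (k : r → ℝ) {c : ℝ} (hc : 0 < c)
    (h : ∀ p v, IsPl p v → nrm v s ≤ th p c * ∏ i, nrm v (t i) ^ k i) :
    ht s ≤ Real.log c + ∑ i, k i * ht (t i) := by
  have key := H2_gen hs t ht0 k (Finsupp.single 0 (Real.log c))
    (fun p hp => by rw [Finsupp.single_eq_of_ne hp]) (fun p v hv => by
      have e : Real.exp (Finsupp.single 0 (Real.log c) p) = th p c := by
        unfold th
        split_ifs with hp
        · rw [hp, Finsupp.single_eq_same, Real.exp_log hc]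
        · rw [Finsupp.single_eq_of_ne hp, Real.exp_zero]
      rw [e]
      exact h p v hv)
  rwa [Finsupp.sum_single_index rfl] at key

theorem ht_le_of_local1 {s t : Finset Qb} (hs : ∃ a ∈ s, a ≠ 0) (ht0 : ∃ a ∈ t, a ≠ 0) (k : ℕ)
    {c : ℝ} (hc : 0 < c) (h : ∀ p v, IsPl p v → nrm v s ≤ th p c * nrm v t ^ k) :
    ht s ≤ Real.log c + k * ht t := by
  have key := ht_le_of_local (r := Unit) hs (fun _ => t) (fun _ => ht0) (fun _ => (k : ℝ)) hc
    (fun p v hv => by simpa using h p v hv)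
  simpa using key

theorem H2_th_one (p : ℕ) : th p 1 = 1 := by simp [th]

theorem H2_nrm_mono (v : AbsoluteValue Qb ℝ) {s t : Finset Qb} (h : s ⊆ t) :
    nrm v s ≤ nrm v t :=
  nrm_le v (nrm_nonneg v t) fun _ ha => le_nrm v (h ha)

theorem H2_vec_ne {ι : Type*} [Fintype ι] {x : ι → Qb} (hx : x ≠ 0) :
    ∃ a ∈ Finset.univ.image x, a ≠ 0 := by
  obtain ⟨i, hi⟩ := Function.ne_iff.1 hx
  exact ⟨x i, Finset.mem_image_of_mem x (Finset.mem_univ i), hi⟩

end Pool.Agent.E6b

end

section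
open scoped NNReal TensorProduct IntermediateField BigOperators Classical Topology
open Filter

namespace Pool.Agent.E6b
open Polynomial

theorem H3_isAlgebraic : Algebra.IsAlgebraic ℚ Qb := by
  convert AlgebraicClosure.isAlgebraic ℚ
  · rfl
  · exact Subsingleton.elim _ _

theorem H3_isAlgClosure : IsAlgClosure ℚ Qb :=
  ⟨inferInstance, H3_isAlgebraic⟩

theorem H3_isGalois : IsGalois ℚ Qb :=
  have := H3_isAlgClosure
  IsAlgClosure.isGalois ℚ Qb

/-- an element fixed by all automorphisms fixing `K` lies in `K`. -/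
theorem mem_of_fixed (K : IntermediateField ℚ Qb) {a : Qb}
    (h : ∀ σ : Qb ≃ₐ[ℚ] Qb, (∀ x ∈ K, σ x = x) → σ a = a) : a ∈ K := by
  have := H3_isGalois
  rw [← InfiniteGalois.fixedField_fixingSubgroup K, IntermediateField.mem_fixedField_iff]
  intro σ hσ
  exact h σ ((IntermediateField.mem_fixingSubgroup_iff K σ).mp hσ)

end Pool.Agent.E6b

end

section
open scoped NNReal TensorProduct IntermediateField BigOperators Classical Topology
open Filter

namespace Pool.Agent.E6b

theorem U3_smooth (L Ω : Type) [Field L] [CharZero L] [Field Ω] [Algebra L Ω] :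
    Algebra.FormallySmooth L Ω := by
  obtain ⟨s, hs⟩ := exists_isTranscendenceBasis L Ω
  have := hs.isAlgebraic_field
  exact Algebra.FormallySmooth.of_algebraicIndependent_of_isSeparable hs.1

theorem U3_lift {A Ω B : Type} [CommRing A] [CommRing Ω] [CommRing B] [Algebra A Ω]
    [Algebra.FormallySmooth A Ω] (φ : A →+* B) (π : B →+* Ω) (hπ : Function.Surjective π)
    (hn : IsNilpotent (RingHom.ker π)) (hc : ∀ l, π (φ l) = algebraMap A Ω l) :
    ∃ ψ : Ω →+* B, (∀ x, π (ψ x) = x) ∧ ∀ l, ψ (algebraMap A Ω l) = φ l := by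
  let _ : Algebra A B := φ.toAlgebra
  let g : B →ₐ[A] Ω := { π with commutes' := hc }
  let ψ := Algebra.FormallySmooth.liftOfSurjective (AlgHom.id A Ω) g hπ hn
  exact ⟨ψ.toRingHom, fun x => Algebra.FormallySmooth.liftOfSurjective_apply _ g hπ hn x,
    fun l => ψ.commutes l⟩

theorem U3_ext {K A Ω : Type} [Field K] [CommRing A] [Field Ω] [Algebra K A] [Algebra K Ω]
    [Algebra A Ω] [IsScalarTower K A Ω] [Algebra.FormallySmooth A Ω] (δ : Derivation K A Ω) :
    ∃ δ' : Derivation K Ω Ω, ∀ x, δ' (algebraMap A Ω x) = δ x := by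
  let φ : A →+* TrivSqZeroExt Ω Ω :=
    { toFun := fun l => TrivSqZeroExt.inl (algebraMap A Ω l) + TrivSqZeroExt.inr (δ l)
      map_one' := by
        refine TrivSqZeroExt.ext ?_ ?_ <;> simp
      map_mul' := fun x y => by
        refine TrivSqZeroExt.ext (by simp) ?_
        simp [Algebra.smul_def (A := Ω) (R := A), mul_comm]
      map_zero' := by
        refine TrivSqZeroExt.ext ?_ ?_ <;> simp
      map_add' := fun x y => by
        refine TrivSqZeroExt.ext ?_ ?_ <;> simp }
  have hφ1 : ∀ l, (φ l).fst = algebraMap A Ω l := fun l => by simp [φ]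
  have hφ2 : ∀ l, (φ l).snd = δ l := fun l => by simp [φ]
  obtain ⟨ψ, h1, h2⟩ := U3_lift φ (TrivSqZeroExt.fstHom Ω Ω Ω).toRingHom
    (fun x => ⟨TrivSqZeroExt.inl x, rfl⟩) ⟨2, by
      rw [sq, Ideal.zero_eq_bot, eq_bot_iff, Ideal.mul_le]
      intro r hr t ht
      have hr' : r.fst = 0 := hr
      have ht' : t.fst = 0 := ht
      rw [Ideal.mem_bot]
      refine TrivSqZeroExt.ext ?_ ?_ <;> simp [hr', ht']⟩ hφ1
  have h1' : ∀ x, (ψ x).fst = x := h1
  have hmul : ∀ x y, (ψ (x * y)).snd = x * (ψ y).snd + y * (ψ x).snd := fun x y => by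
    rw [map_mul, TrivSqZeroExt.snd_mul, h1', h1']
    simp [mul_comm]
  let D : Ω →ₗ[K] Ω :=
    { toFun := fun x => (ψ x).snd
      map_add' := fun x y => by rw [map_add, TrivSqZeroExt.snd_add]
      map_smul' := fun c x => by
        rw [Algebra.smul_def, hmul, IsScalarTower.algebraMap_apply K A Ω, h2, hφ2,
          Derivation.map_algebraMap, mul_zero, add_zero, RingHom.id_apply, Algebra.smul_def,
          IsScalarTower.algebraMap_apply K A Ω] }
  refine ⟨Derivation.mk' D hmul, fun x => ?_⟩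
  change (ψ (algebraMap A Ω x)).snd = δ x
  rw [h2, hφ2]

/-- derivations -/
theorem exists_derivation {K Ω : Type} [Field K] [CharZero K] [Field Ω] [Algebra K Ω] {x : Ω}
    (hx : Transcendental K x) : ∃ δ : Derivation K Ω Ω, δ x = 1 := by
  let _ : Algebra (Polynomial K) Ω := (Polynomial.aeval x).toRingHom.toAlgebra
  have : IsScalarTower K (Polynomial K) Ω :=
    IsScalarTower.of_algebraMap_eq fun c => ((Polynomial.aeval x).commutes c).symm
  have : FaithfulSMul (Polynomial K) Ω :=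
    (faithfulSMul_iff_algebraMap_injective _ _).2 (transcendental_iff_injective.1 hx)
  let _ := FractionRing.liftAlgebra (Polynomial K) Ω
  have := FractionRing.isScalarTower_liftAlgebra (Polynomial K) Ω
  have : Algebra.FormallySmooth (Polynomial K) (FractionRing (Polynomial K)) :=
    Algebra.FormallySmooth.of_isLocalization (nonZeroDivisors _)
  have := U3_smooth (FractionRing (Polynomial K)) Ω
  have : Algebra.FormallySmooth (Polynomial K) Ω :=
    Algebra.FormallySmooth.comp _ (FractionRing (Polynomial K)) _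
  obtain ⟨δ, hδ⟩ := U3_ext (K := K)
    ((Algebra.linearMap (Polynomial K) Ω).compDer Polynomial.derivative')
  refine ⟨δ, ?_⟩
  have h1 := hδ Polynomial.X
  have h2 : algebraMap (Polynomial K) Ω Polynomial.X = x := Polynomial.aeval_X x
  rw [h2] at h1
  rw [h1]
  change algebraMap (Polynomial K) Ω (Polynomial.derivative Polynomial.X) = 1
  rw [Polynomial.derivative_X, map_one]

end Pool.Agent.E6b

end

section
open scoped NNReal TensorProduct IntermediateField BigOperators Classical Topology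
open Filter

namespace Pool.Agent.E6b

/-- geometric bounds for the coefficients of a power series at all places, in terms of a finite set
`S` of algebraic numbers (always used with `1 ∈ S`) -/
def SB {σ : Type} (S : Finset Qb) (k : ℕ) (f : MvPowerSeries σ Qb) : Prop :=
  ∀ p v, IsPl p v → ∀ m : σ →₀ ℕ,
    v (MvPowerSeries.coeff m f) ≤ (th p 2 * nrm v S) ^ (k * (m.degree + 1))

end Pool.Agent.E6b

end

section
open scoped NNReal TensorProduct IntermediateField BigOperators Classical Topology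
open Filter

namespace Pool.Agent.E6b
open MvPowerSeries

theorem TB1_th_one_le (p : ℕ) : 1 ≤ th p 2 := by
  unfold th
  split_ifs <;> norm_num

theorem TB1_one_le_nrm (v : AbsoluteValue Qb ℝ) {S : Finset Qb} (h1 : 1 ∈ S) : 1 ≤ nrm v S := by
  simpa using le_nrm v h1

theorem TB1_nrm_le (p : ℕ) (v : AbsoluteValue Qb ℝ) (S : Finset Qb) :
    nrm v S ≤ th p 2 * nrm v S := by
  have h := TB1_th_one_le p
  have h2 := nrm_nonneg v S
  nlinarith

theorem TB1_th_le (p : ℕ) (v : AbsoluteValue Qb ℝ) {S : Finset Qb} (h1 : 1 ∈ S) :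
    th p 2 ≤ th p 2 * nrm v S := by
  have h := TB1_th_one_le p
  have h2 := TB1_one_le_nrm v h1
  nlinarith

theorem TB1_one_le (p : ℕ) (v : AbsoluteValue Qb ℝ) {S : Finset Qb} (h1 : 1 ∈ S) :
    1 ≤ th p 2 * nrm v S :=
  (TB1_th_one_le p).trans (TB1_th_le p v h1)

end Pool.Agent.E6b

end

section
open scoped NNReal TensorProduct IntermediateField BigOperators Classical Topology
open Filter

namespace Pool.Agent.E6b
open MvPowerSeries
variable {σ : Type} [Fintype σ] {S : Finset Qb} {k : ℕ} {f g : MvPowerSeries σ Qb}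

theorem TB1_le_pow (h1 : 1 ∈ S) {a : Qb} (ha : a ∈ S) (p : ℕ) (v : AbsoluteValue Qb ℝ) (d : ℕ) :
    v a ≤ (th p 2 * nrm v S) ^ (1 * (d + 1)) := by
  have h0 := TB1_one_le p v h1
  calc v a ≤ nrm v S := le_nrm v ha
    _ ≤ th p 2 * nrm v S := TB1_nrm_le p v S
    _ ≤ (th p 2 * nrm v S) ^ (1 * (d + 1)) := le_self_pow₀ h0 (by omega)

theorem SB.C (h1 : 1 ∈ S) {a : Qb} (ha : a ∈ S) : SB S 1 (C a : MvPowerSeries σ Qb) := by
  intro p v hv m
  rw [coeff_C]
  split_ifs
  · exact TB1_le_pow h1 ha p v _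
  · rw [map_zero]
    exact pow_nonneg (zero_le_one.trans (TB1_one_le p v h1)) _

theorem SB.shiftX (h1 : 1 ∈ S) {a : Qb} (ha : a ∈ S) (j : σ) :
    SB S 1 (MvPowerSeries.C a + X j : MvPowerSeries σ Qb) := by
  intro p v hv m
  rw [map_add, coeff_C, coeff_X]
  by_cases hm : m = 0
  · subst hm
    have : ¬ ((0 : σ →₀ ℕ) = Finsupp.single j 1) := by
      intro h
      have := congrArg (fun x : σ →₀ ℕ => x j) h
      simp at this
    rw [if_pos rfl, if_neg this, add_zero]
    exact TB1_le_pow h1 ha p v _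
  · rw [if_neg hm, zero_add]
    split_ifs
    · exact TB1_le_pow h1 h1 p v _
    · rw [map_zero]
      exact pow_nonneg (zero_le_one.trans (TB1_one_le p v h1)) _

theorem coeff_rename_mul {τ : Type} [Fintype τ] (f : MvPowerSeries σ Qb) (g : MvPowerSeries τ Qb)
    (m : σ ⊕ τ →₀ ℕ) :
    coeff m (rename Sum.inl f * rename Sum.inr g) =
      coeff (m.comapDomain Sum.inl Sum.inl_injective.injOn) f *
        coeff (m.comapDomain Sum.inr Sum.inr_injective.injOn) g := by
  set a := m.comapDomain Sum.inl Sum.inl_injective.injOn with ha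
  set b := m.comapDomain Sum.inr Sum.inr_injective.injOn with hb
  have hm : Finsupp.mapDomain Sum.inl a + Finsupp.mapDomain Sum.inr b = m := by
    rw [← Finsupp.sumElim_eq_add, ha, hb, Finsupp.comapDomain_sumElim_comapDomain]
  have e1 : coeff (Finsupp.mapDomain Sum.inl a) (rename (Sum.inl : σ → σ ⊕ τ) f) = coeff a f := by
    have := coeff_embDomain_rename (Function.Embedding.inl : σ ↪ σ ⊕ τ) f a
    rwa [Finsupp.embDomain_eq_mapDomain] at this
  have e2 : coeff (Finsupp.mapDomain Sum.inr b) (rename (Sum.inr : τ → σ ⊕ τ) g) = coeff b g := by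
    have := coeff_embDomain_rename (Function.Embedding.inr : τ ↪ σ ⊕ τ) g b
    rwa [Finsupp.embDomain_eq_mapDomain] at this
  rw [coeff_mul, Finset.sum_eq_single (Finsupp.mapDomain Sum.inl a, Finsupp.mapDomain Sum.inr b),
    e1, e2]
  · rintro ⟨x, y⟩ hxy hne
    have hxy' : x + y = m := by simpa using hxy
    by_cases hx : x ∈ Set.range (Finsupp.mapDomain (Sum.inl : σ → σ ⊕ τ))
    · by_cases hy : y ∈ Set.range (Finsupp.mapDomain (Sum.inr : τ → σ ⊕ τ))
      · exfalso
        obtain ⟨x', rfl⟩ := hx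
        obtain ⟨y', rfl⟩ := hy
        rw [← Finsupp.sumElim_eq_add] at hxy'
        apply hne
        rw [ha, hb, ← hxy', Finsupp.comapDomain_inl_sumElim, Finsupp.comapDomain_inr_sumElim]
      · rw [coeff_rename_eq_zero _ _ hy, mul_zero]
    · rw [coeff_rename_eq_zero _ _ hx, zero_mul]
  · intro h
    exact absurd (by simpa using hm) h

end Pool.Agent.E6b

end

section
open scoped NNReal TensorProduct IntermediateField BigOperators Classical Topology
open Filter

namespace Pool.Agent.E6b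

/-- Taylor expansion of a polynomial at `p` -/
noncomputable def shf {σ : Type} (p : σ → Qb) (F : MvPolynomial σ Qb) : MvPolynomial σ Qb :=
  MvPolynomial.aeval (fun j => MvPolynomial.X j + MvPolynomial.C (p j)) F

/-- the index of `F` at `p` with respect to `d` is at least `ϑ` -/
def IdxGe {σ : Type} [Fintype σ] (F : MvPolynomial σ Qb) (p : σ → Qb) (d : σ → ℕ) (ϑ : ℝ) : Prop :=
  ∀ m ∈ (shf p F).support, ϑ ≤ ∑ j, (m j : ℝ) / d j

end Pool.Agent.E6b

end

section
open scoped NNReal TensorProduct IntermediateField BigOperators Classical Topology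
open Filter

namespace Pool.Agent.E6b
open MvPolynomial

theorem PT2_coeff_le {σ : Type} (v : AbsoluteValue Qb ℝ) (P : MvPolynomial σ Qb) (m : σ →₀ ℕ) :
    v (coeff m P) ≤ nrm v P.coeffs := by
  by_cases h : coeff m P = 0
  · rw [h, map_zero]; exact nrm_nonneg _ _
  · exact le_nrm v (coeff_mem_coeffs m h)

theorem PT2_nrm_le {σ : Type} (v : AbsoluteValue Qb ℝ) (P : MvPolynomial σ Qb) {B : ℝ}
    (hB : 0 ≤ B) (h : ∀ m, v (coeff m P) ≤ B) : nrm v P.coeffs ≤ B := by
  refine nrm_le v hB fun a ha => ?_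
  obtain ⟨m, -, rfl⟩ := mem_coeffs_iff.1 ha
  exact h m

theorem PT2_th_nonneg (q : ℕ) {c : ℝ} (hc : 0 ≤ c) : 0 ≤ th q c := by
  unfold th; split_ifs
  · exact hc
  · exact zero_le_one

theorem PT2_th_mono (q : ℕ) {c c' : ℝ} (hc : c ≤ c') : th q c ≤ th q c' := by
  unfold th; split_ifs
  · exact hc
  · exact le_rfl

theorem PT2_nrm_mul {σ : Type} {q : ℕ} {v : AbsoluteValue Qb ℝ} (hv : IsPl q v)
    (P Q : MvPolynomial σ Qb) :
    nrm v (P * Q).coeffs ≤ th q P.support.card * (nrm v P.coeffs * nrm v Q.coeffs) := by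
  have h0 : 0 ≤ nrm v P.coeffs * nrm v Q.coeffs := mul_nonneg (nrm_nonneg _ _) (nrm_nonneg _ _)
  refine PT2_nrm_le v _ (mul_nonneg (PT2_th_nonneg _ (Nat.cast_nonneg _)) h0) fun m => ?_
  have h1 : coeff m (P * Q) = ∑ u ∈ P.support, coeff m (monomial u (coeff u P) * Q) := by
    conv_lhs => rw [← support_sum_monomial_coeff P]
    rw [Finset.sum_mul, coeff_sum]
  rw [h1]
  refine hv.sum_le _ _ h0 fun u _ => ?_
  rw [coeff_monomial_mul']
  split_ifs
  · rw [map_mul]
    exact mul_le_mul (PT2_coeff_le v P u) (PT2_coeff_le v Q _) (v.nonneg _) (nrm_nonneg _ _)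
  · rw [map_zero]; exact h0

/-- the shift as a ring homomorphism -/
noncomputable def PT2_sh {σ : Type} (p : σ → Qb) : MvPolynomial σ Qb →+* MvPolynomial σ Qb :=
  (MvPolynomial.aeval (R := Qb) (fun j => MvPolynomial.X j + MvPolynomial.C (p j))).toRingHom

theorem PT2_sh_apply {σ : Type} (p : σ → Qb) (F : MvPolynomial σ Qb) : PT2_sh p F = shf p F := rfl

theorem PT2_sum_range (K : ℕ) : ∑ c ∈ Finset.range K, (c : ℝ) = K * (K - 1) / 2 := by
  induction K with
  | zero => simp
  | succ K ih => rw [Finset.sum_range_succ, ih]; push_cast; ring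

end Pool.Agent.E6b

end

section
open scoped NNReal TensorProduct IntermediateField BigOperators Classical Topology
open Filter

namespace Pool.Agent.E6b

theorem P5_of_segre {K Ω ι ι' : Type} [Field K] [Field Ω] (f : K → Ω) {x : ι → Ω} {x' : ι' → Ω}
    (hx' : x' ≠ 0) {y : ι × ι' → K} (h : Prp (fun p : ι × ι' => x p.1 * x' p.2) fun p => f (y p)) :
    ∃ y' : ι → K, Prp x fun i => f (y' i) := by
  obtain ⟨j, hj⟩ := Function.ne_iff.mp hx'
  have hj' : x' j ≠ 0 := hj
  obtain ⟨μ, hμ, h⟩ := h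
  refine ⟨fun i => y (i, j), μ / x' j, div_ne_zero hμ hj', fun i => ?_⟩
  have h1 : x i * x' j = μ * f (y (i, j)) := h (i, j)
  field_simp
  exact h1

end Pool.Agent.E6b

end

section
open scoped NNReal TensorProduct IntermediateField BigOperators Classical Topology
open Filter

namespace Pool.Agent.E6b

/-- common kernel of a set of rows -/
def kerR {ι : Type} [Fintype ι] (R : Set (ι → Qb)) : Submodule Qb (ι → Qb) where
  carrier := {w | ∀ r ∈ R, ∑ i, r i * w i = 0}
  add_mem' := by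
    intro a b ha hb r hr
    simp only [Pi.add_apply, mul_add, Finset.sum_add_distrib, ha r hr, hb r hr, add_zero]
  zero_mem' := by intro r _; simp
  smul_mem' := by
    intro c a ha r hr
    have := ha r hr
    simp only [Pi.smul_apply, smul_eq_mul, mul_left_comm _ c, ← Finset.mul_sum, this, mul_zero]

theorem Sieg_desc (L : IntermediateField ℚ Qb) {ι : Type} [Fintype ι] (W : Submodule Qb (ι → Qb))
    (hW : ∀ σ : Qb ≃ₐ[ℚ] Qb, (∀ a ∈ L, σ a = a) → ∀ w ∈ W, (fun i => σ (w i)) ∈ W) :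
    W ≤ Submodule.span Qb {u | u ∈ W ∧ ∀ i, u i ∈ L} := by
  let sp : (ι → Qb) → Finset ι := fun w => Finset.univ.filter fun i => w i ≠ 0
  have hsp : ∀ w i, i ∈ sp w ↔ w i ≠ 0 := by intro w i; simp [sp]
  have key : ∀ n : ℕ, ∀ w ∈ W, (sp w).card = n →
      w ∈ Submodule.span Qb {u | u ∈ W ∧ ∀ i, u i ∈ L} := by
    intro n
    induction n using Nat.strong_induction_on with
    | _ n ih =>
    intro w hw hn
    by_cases h0 : w = 0
    · rw [h0]; exact Submodule.zero_mem _
    have hex : ∃ m, ∃ u ∈ W, u ≠ 0 ∧ sp u ⊆ sp w ∧ (sp u).card = m :=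
      ⟨_, w, hw, h0, subset_rfl, rfl⟩
    obtain ⟨u, hu, hu0, hus, hum⟩ := Nat.find_spec hex
    obtain ⟨i, hi⟩ := Function.ne_iff.mp hu0
    simp only [Pi.zero_apply] at hi
    let u' : ι → Qb := (u i)⁻¹ • u
    have hu' : u' ∈ W := W.smul_mem _ hu
    have hu'i : u' i = 1 := by simp [u', hi]
    have hu's : ∀ j, u j = 0 → u' j = 0 := by intro j hj; simp [u', hj]
    have hL : ∀ j, u' j ∈ L := by
      intro j
      refine mem_of_fixed L fun σ hσ => ?_
      by_contra hne
      let t : ι → Qb := (fun j => σ (u' j)) - u'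
      have ht : t ∈ W := W.sub_mem (hW σ hσ _ hu') hu'
      have hsub : sp t ⊆ (sp u).erase i := by
        intro l hl
        rw [hsp] at hl
        rw [Finset.mem_erase, hsp]
        constructor
        · rintro rfl
          apply hl
          simp [t, hu'i]
        · intro h
          apply hl
          simp [t, hu's l h]
      have hlt : (sp t).card < Nat.find hex := by
        rw [← hum]
        exact lt_of_le_of_lt (Finset.card_le_card hsub)
          (Finset.card_erase_lt_of_mem ((hsp _ _).mpr hi))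
      refine Nat.find_min hex hlt ⟨t, ht, ?_, ?_, rfl⟩
      · intro h
        have := congrFun h j
        simp only [t, Pi.sub_apply, Pi.zero_apply, sub_eq_zero] at this
        exact hne this
      · exact hsub.trans ((Finset.erase_subset _ _).trans hus)
    have hwi : i ∈ sp w := hus ((hsp _ _).mpr hi)
    have hsub : sp (w - w i • u') ⊆ (sp w).erase i := by
      intro l hl
      rw [hsp] at hl
      rw [Finset.mem_erase]
      constructor
      · rintro rfl
        apply hl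
        simp [hu'i]
      · by_contra h
        have h1 : w l = 0 := by simpa [hsp] using h
        have h2 : u l = 0 := by
          by_contra h2
          exact h (hus ((hsp _ _).mpr h2))
        apply hl
        simp [h1, hu's l h2]
    have h1 := ih _ (by
      rw [← hn]
      exact lt_of_le_of_lt (Finset.card_le_card hsub) (Finset.card_erase_lt_of_mem hwi))
      (w - w i • u') (W.sub_mem hw (W.smul_mem _ hu')) rfl
    have h2 : w i • u' ∈ Submodule.span Qb {u | u ∈ W ∧ ∀ i, u i ∈ L} :=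
      Submodule.smul_mem _ _ (Submodule.subset_span ⟨hu', hL⟩)
    simpa using Submodule.add_mem _ h1 h2
  intro w hw
  exact key _ w hw rfl

/-- the rational points of a subspace -/
def Sieg_WL (L : IntermediateField ℚ Qb) {ι : Type} (W : Submodule Qb (ι → Qb)) :
    Submodule L (ι → L) where
  carrier := {u | (fun i => (u i : Qb)) ∈ W}
  add_mem' := by
    intro a b ha hb
    exact W.add_mem ha hb
  zero_mem' := W.zero_mem
  smul_mem' := by
    intro c a ha
    exact W.smul_mem (c : Qb) ha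

theorem Sieg_U (L : IntermediateField ℚ Qb) {J : Type} [Fintype J] (θ : Module.Basis J ℚ L)
    {ι : Type} [Fintype ι] (R : Set (ι → Qb)) :
    ∃ U : Submodule ℝ (ι × J → ℝ),
      Fintype.card J * Module.finrank L (Sieg_WL L (kerR R)) ≤ Module.finrank ℝ U ∧
      ∀ u ∈ U, ∀ r ∈ R, ∀ e : Qb →+* ℂ, ∑ p : ι × J, e (r p.1 * (θ p.2 : Qb)) * (u p : ℂ) = 0 := by
  let b := Module.finBasis L (Sieg_WL L (kerR R))
  let B := θ.smulTower b
  let Ψ : Sieg_WL L (kerR R) →ₗ[ℚ] (ι × J → ℚ) :=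
    { toFun := fun w p => θ.repr (w.1 p.1) p.2
      map_add' := by intro a b; funext p; simp
      map_smul' := by intro c a; funext p; simp }
  have hΨ : LinearMap.ker Ψ = ⊥ := by
    rw [LinearMap.ker_eq_bot']
    intro w hw
    ext i
    have : θ.repr (w.1 i) = 0 := by
      ext j
      exact congrFun hw (i, j)
    simpa using this
  have h1 : LinearIndependent ℚ (Ψ ∘ B) := B.linearIndependent.map' Ψ hΨ
  have h2 : LinearIndependent ℝ (fun q => algebraMap ℚ ℝ ∘ (Ψ ∘ B) q) :=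
    linearIndependent_algebraMap_comp_iff.mpr h1
  refine ⟨Submodule.span ℝ (Set.range fun q => algebraMap ℚ ℝ ∘ (Ψ ∘ B) q), ?_, ?_⟩
  · rw [finrank_span_eq_card h2]
    simp
  · intro u hu r hr e
    induction hu using Submodule.span_induction with
    | mem x hx =>
      obtain ⟨q, rfl⟩ := hx
      have h3 : ∑ i, r i * (((B q).1 i : L) : Qb) = 0 := (B q).2 r hr
      have h4 := congrArg e h3
      rw [map_zero, map_sum] at h4
      rw [← h4, Fintype.sum_prod_type]
      refine Finset.sum_congr rfl fun i _ => ?_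
      have h5 := congrArg (fun t : L => (t : Qb)) (θ.sum_repr ((B q).1 i))
      simp only [IntermediateField.coe_sum] at h5
      rw [← h5, Finset.mul_sum, map_sum]
      refine Finset.sum_congr rfl fun j _ => ?_
      simp [Ψ, Rat.smul_def, mul_comm, mul_assoc]
    | zero => simp
    | add x y _ _ hx hy =>
      simp only [Pi.add_apply, Complex.ofReal_add, mul_add, Finset.sum_add_distrib, hx, hy,
        add_zero]
    | smul c x _ hx =>
      simp only [Pi.smul_apply, smul_eq_mul, Complex.ofReal_mul, mul_left_comm _ (c : ℂ),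
        ← Finset.mul_sum, hx, mul_zero]

end Pool.Agent.E6b

end

section
open scoped NNReal TensorProduct IntermediateField BigOperators Classical Topology
open Filter

namespace Pool.Agent.E6b

theorem C7_psd {G : Type} [AddCommGroup G] (B : G →+ G →+ ℝ) (hs : ∀ a b, B a b = B b a)
    (hp : ∀ a, 0 ≤ B a a) (s : ℕ) (a b : G) :
    B ((s : ℤ) • a + (1 : ℤ) • b) ((s : ℤ) • a + (1 : ℤ) • b) ≤
      2 * (s : ℝ) ^ 2 * B a a + 2 * B b b := by
  have h := hp ((s : ℤ) • a - b)
  simp only [map_add, map_sub, map_zsmul, AddMonoidHom.add_apply, AddMonoidHom.sub_apply,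
    AddMonoidHom.zsmul_apply, one_smul, zsmul_eq_mul, Int.cast_natCast, hs b a] at h ⊢
  nlinarith [h]

theorem C7_exp (C : ℝ) (r : ℕ) : ∀ᶠ D : ℕ in atTop, Real.log (C * (D : ℝ) ^ r + 1) ≤ D := by
  have h := (Real.tendsto_exp_div_pow_atTop r).comp tendsto_natCast_atTop_atTop
  filter_upwards [h.eventually_ge_atTop (|C| + 1), eventually_ge_atTop 1] with D h1 h2
  have h3 : (1 : ℝ) ≤ (D : ℝ) ^ r := one_le_pow₀ (by exact_mod_cast h2)
  have h4 : (|C| + 1) * (D : ℝ) ^ r ≤ Real.exp D := (le_div_iff₀ (by positivity)).1 h1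
  have h5 : |C * (D : ℝ) ^ r + 1| ≤ Real.exp D := by
    refine (abs_add_le _ _).trans ?_
    rw [abs_mul, abs_of_nonneg (by positivity : (0 : ℝ) ≤ (D : ℝ) ^ r), abs_one]
    nlinarith
  rw [← Real.log_abs]
  rcases (abs_nonneg (C * (D : ℝ) ^ r + 1)).eq_or_lt with h6 | h6
  · rw [← h6, Real.log_zero]
    positivity
  · exact (Real.log_le_iff_le_exp h6).2 h5

/-- a finite family has an independent spanning subfamily indexed by `Fin N` -/
theorem C7_indep {K V ι : Type} [Field K] [AddCommGroup V] [Module K V] [Finite ι] (v : ι → V) :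
    ∃ (N : ℕ) (μ : Fin N → ι), LinearIndependent K (fun i => v (μ i)) ∧
      ∀ g ∈ Submodule.span K (Set.range v), ∃ w : Fin N → K, ∑ i, w i • v (μ i) = g := by
  obtain ⟨κ, a, ha, hsp, hli⟩ := exists_linearIndependent' K v
  have : Finite κ := Finite.of_injective a ha
  obtain ⟨N, ⟨e⟩⟩ := Finite.exists_equiv_fin κ
  refine ⟨N, fun i => a (e.symm i), hli.comp e.symm e.symm.injective, fun g hg => ?_⟩
  rw [← hsp, ← e.symm.surjective.range_comp (v ∘ a)] at hg
  exact (Submodule.mem_span_range_iff_exists_fun K).1 hg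

theorem C7_count {C₁ r₁ r₂ a s c N : ℕ} (hs : 0 < s) (hc : 2 * c + 1 ≤ a)
    (h : N ≤ C₁ * (2 * a * s ^ 2 + c + c + 1) ^ r₁ * (2 * a + c + c + 1) ^ r₂) :
    N ≤ C₁ * 3 ^ (r₁ + r₂) * (s ^ (2 * r₁) * a ^ (r₁ + r₂)) := by
  have h1 : a ≤ a * s ^ 2 := Nat.le_mul_of_pos_right _ (by positivity)
  have h2 : 2 * a * s ^ 2 + c + c + 1 ≤ 3 * a * s ^ 2 := by nlinarith
  have h3 : 2 * a + c + c + 1 ≤ 3 * a := by omega
  refine h.trans ((Nat.mul_le_mul (Nat.mul_le_mul_left _ (Nat.pow_le_pow_left h2 _))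
    (Nat.pow_le_pow_left h3 _)).trans (le_of_eq ?_))
  rw [mul_pow, mul_pow, mul_pow, ← pow_mul]
  ring

end Pool.Agent.E6b

end

section
open scoped NNReal TensorProduct IntermediateField BigOperators Classical Topology
open Filter

namespace Pool.Agent.E6b

section Mat
variable {σ : Type} {p : ℕ} {v : AbsoluteValue Qb ℝ} {A I : Type} [CommRing A]
  [Algebra (MvPolynomial σ Qb) A] [Fintype I] [DecidableEq I]
variable {b : Module.Basis I (MvPolynomial σ Qb) A} {a a' : σ → ℕ} {c c' : ℝ} {z z' : A}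
variable {χ : σ → ℕ} {U : ℝ} {n n' E : ℕ}

omit [Fintype I] [DecidableEq I] in
theorem C2_repr {K : Type} [Fintype K] (φ : K → I) (hφ : Function.Injective φ)
    (g : K → MvPolynomial σ Qb) (i : I) :
    b.repr (∑ k, g k • b (φ k)) i = 0 ∨ ∃ k, b.repr (∑ k, g k • b (φ k)) i = g k := by
  have e : b.repr (∑ k, g k • b (φ k)) i = ∑ k, g k * if φ k = i then 1 else 0 := by
    rw [map_sum, Finsupp.finsetSum_apply]
    refine Finset.sum_congr rfl fun k _ => ?_
    rw [map_smul, Finsupp.smul_apply, Module.Basis.repr_self, Finsupp.single_apply, smul_eq_mul]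
  rw [e]
  by_cases hi : ∃ k, φ k = i
  · obtain ⟨k, rfl⟩ := hi
    refine Or.inr ⟨k, ?_⟩
    rw [Finset.sum_eq_single k]
    · simp
    · intro k' _ hk
      rw [if_neg fun e => hk (hφ e), mul_zero]
    · simp
  · refine Or.inl (Finset.sum_eq_zero fun k _ => ?_)
    rw [if_neg fun e => hi ⟨k, e⟩, mul_zero]

end Mat

end Pool.Agent.E6b

end
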