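import Pool.Agent.E6c.A00

section
open scoped NNReal TensorProduct IntermediateField BigOperators Classical Topology
open Filter

namespace Pool.Agent.E6b

/-- valuation rings of `Ω` containing `κ` -/
abbrev VS (κ Ω : Type) [Field κ] [Field Ω] [Algebra κ Ω] : Type :=
  {O : ValuationSubring Ω // ∀ c : κ, algebraMap κ Ω c ∈ O}

/-- valuative classes (b-divisors) -/
abbrev VC (κ Ω : Type) [Field κ] [Field Ω] [Algebra κ Ω] : Type := VS κ Ω → Ωˣ

section
variable {κ Ω : Type} [Field κ] [Field Ω] [Algebra κ Ω]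

/-- `l ≤ m` : `v (l O) ≤ v (m O)` for all `O`; then `TT l ≤ TT m`. -/
def VLe (l m : VC κ Ω) : Prop := ∀ O : VS κ Ω, ((l O : Ω) / (m O : Ω)) ∈ O.1

def VEq (l m : VC κ Ω) : Prop := VLe l m ∧ VLe m l

/-- sections of a class -/
def TT (l : VC κ Ω) : Submodule κ Ω where
  carrier := {G | ∀ O : VS κ Ω, G / (l O : Ω) ∈ O.1}
  add_mem' := by
    intro a b ha hb O
    rw [add_div]; exact O.1.add_mem _ _ (ha O) (hb O)
  zero_mem' := by intro O; simp
  smul_mem' := by
    intro c a ha O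
    rw [Algebra.smul_def, mul_div_assoc]; exact O.1.mul_mem _ _ (O.2 c) (ha O)

/-- principal class -/
def cstC (κ : Type) [Field κ] [Algebra κ Ω] (g : Ωˣ) : VC κ Ω := fun _ => g

/-- class generated by a finite vector: an entry of maximal valuation -/
noncomputable def gen (κ : Type) [Field κ] [Algebra κ Ω] {ι : Type} (l : ι → Ω) : VC κ Ω :=
  fun O => if h : ∃ g : Ωˣ, (∃ j, l j = g) ∧ ∀ j, l j / (g : Ω) ∈ O.1 then h.choose else 1

/-- class of the pencil `1, t` -/
noncomputable def pen (κ : Type) [Field κ] [Algebra κ Ω] (t : Ω) : VC κ Ω := gen κ ![1, t]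

/-- equality of classes up to principal classes and torsion -/
def QEq (l m : VC κ Ω) : Prop := ∃ k : ℕ, 0 < k ∧ ∃ g : Ωˣ, VEq (l ^ k) (cstC κ g * m ^ k)

def QLe (l m : VC κ Ω) : Prop := ∃ k : ℕ, 0 < k ∧ ∃ g : Ωˣ, VLe (l ^ k) (cstC κ g * m ^ k)

/-- restriction of a class to the valuations trivial on a bigger field -/
def resC (K : Type) [Field K] [Algebra κ K] [Algebra K Ω] [IsScalarTower κ K Ω] (l : VC κ Ω) :
    VC K Ω := fun O => l ⟨O.1, fun c => by
      rw [IsScalarTower.algebraMap_apply κ K Ω]; exact O.2 _⟩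

/-- maximal valuation of the entries of a finite vector -/
noncomputable def vs (O : ValuationSubring Ω) {ι : Type} [Fintype ι] (x : ι → Ω) : O.ValueGroup :=
  Finset.univ.sup fun i => O.valuation (x i)

/-- residue field -/
abbrev RF (O : VS κ Ω) : Type := IsLocalRing.ResidueField O.1

noncomputable instance (O : VS κ Ω) : Algebra κ O.1 :=
  ((algebraMap κ Ω).codRestrict O.1.toSubring O.2).toAlgebra

/-- residue of an element (`0` if it is not in the valuation ring) -/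
noncomputable def rs (O : VS κ Ω) (x : Ω) : RF O :=
  if h : x ∈ O.1 then IsLocalRing.residue O.1 ⟨x, h⟩ else 0

end

end Pool.Agent.E6b

end

section
open scoped NNReal TensorProduct IntermediateField BigOperators Classical Topology
open Filter

namespace Pool.Agent.E6b
variable {κ Ω : Type} [Field κ] [Field Ω] [Algebra κ Ω]

theorem V1_div_mem (O : ValuationSubring Ω) (x : Ω) {g : Ω} (hg : g ≠ 0) :
    x / g ∈ O ↔ O.valuation x ≤ O.valuation g := by
  have h : O.valuation g ≠ 0 := by simpa using hg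
  rw [← O.valuation_le_one_iff, map_div₀, div_le_one₀ (zero_lt_iff.mpr h)]

theorem V1_unit_ne (O : ValuationSubring Ω) (g : Ωˣ) : O.valuation (g : Ω) ≠ 0 := by
  simp

theorem V1_unit_pos (O : ValuationSubring Ω) (g : Ωˣ) : 0 < O.valuation (g : Ω) :=
  zero_lt_iff.mpr (V1_unit_ne O g)

theorem le_vs (O : ValuationSubring Ω) {ι : Type} [Fintype ι] (x : ι → Ω) (i : ι) :
    O.valuation (x i) ≤ vs O x :=
  Finset.le_sup (f := fun i => O.valuation (x i)) (Finset.mem_univ i)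

theorem vs_le (O : ValuationSubring Ω) {ι : Type} [Fintype ι] {x : ι → Ω} {γ : O.ValueGroup}
    (h : ∀ i, O.valuation (x i) ≤ γ) : vs O x ≤ γ :=
  Finset.sup_le fun i _ => h i

theorem exists_vs_eq (O : ValuationSubring Ω) {ι : Type} [Fintype ι] [Nonempty ι] (x : ι → Ω) :
    ∃ i, O.valuation (x i) = vs O x := by
  obtain ⟨i, -, hi⟩ := Finset.exists_max_image Finset.univ (fun i => O.valuation (x i))
    Finset.univ_nonempty
  exact ⟨i, le_antisymm (le_vs O x i) (vs_le O fun j => hi j (Finset.mem_univ j))⟩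

theorem vs_ne_zero (O : ValuationSubring Ω) {ι : Type} [Fintype ι] {x : ι → Ω} (hx : x ≠ 0) :
    vs O x ≠ 0 := by
  obtain ⟨i, hi⟩ := Function.ne_iff.mp hx
  have h : O.valuation (x i) ≠ 0 := by simpa using hi
  exact (lt_of_lt_of_le (zero_lt_iff.mpr h) (le_vs O x i)).ne'

theorem gen_spec {ι : Type} [Finite ι] {l : ι → Ω} (hl : l ≠ 0) (O : VS κ Ω) :
    (∃ j, l j = gen κ l O) ∧ ∀ j, l j / (gen κ l O : Ω) ∈ O.1 := by
  have h : ∃ g : Ωˣ, (∃ j, l j = g) ∧ ∀ j, l j / (g : Ω) ∈ O.1 := by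
    have := Fintype.ofFinite ι
    obtain ⟨i0, -⟩ := Function.ne_iff.mp hl
    have : Nonempty ι := ⟨i0⟩
    obtain ⟨i, hi⟩ := exists_vs_eq O.1 l
    have h0 : l i ≠ 0 := by
      intro h
      apply vs_ne_zero O.1 hl
      rw [← hi, h, map_zero]
    refine ⟨Units.mk0 _ h0, ⟨i, rfl⟩, fun j => ?_⟩
    rw [Units.val_mk0, V1_div_mem _ _ h0, hi]
    exact le_vs O.1 l j
  have e : gen κ l O = h.choose := by
    unfold gen
    rw [dif_pos h]
  rw [e]
  exact h.choose_spec

theorem valuation_gen {ι : Type} [Fintype ι] {l : ι → Ω} (hl : l ≠ 0) (O : VS κ Ω) :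
    O.1.valuation (gen κ l O : Ω) = vs O.1 l := by
  obtain ⟨⟨j, hj⟩, h⟩ := gen_spec (κ := κ) hl O
  apply le_antisymm
  · rw [← hj]; exact le_vs O.1 l j
  · exact vs_le O.1 fun i => (V1_div_mem _ _ (Units.ne_zero _)).mp (h i)

theorem vle_iff {l m : VC κ Ω} :
    VLe l m ↔ ∀ O : VS κ Ω, O.1.valuation (l O : Ω) ≤ O.1.valuation (m O : Ω) :=
  forall_congr' fun O => V1_div_mem O.1 _ (Units.ne_zero _)

theorem mem_TT_iff {l : VC κ Ω} {G : Ω} :
    G ∈ TT l ↔ ∀ O : VS κ Ω, O.1.valuation G ≤ O.1.valuation (l O : Ω) :=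
  forall_congr' fun O => V1_div_mem O.1 _ (Units.ne_zero _)

theorem VLe.refl (l : VC κ Ω) : VLe l l := vle_iff.mpr fun _ => le_rfl

theorem VLe.trans {l m n : VC κ Ω} (h : VLe l m) (h' : VLe m n) : VLe l n :=
  vle_iff.mpr fun O => (vle_iff.mp h O).trans (vle_iff.mp h' O)

theorem VLe.mul {l m l' m' : VC κ Ω} (h : VLe l m) (h' : VLe l' m') : VLe (l * l') (m * m') := by
  refine vle_iff.mpr fun O => ?_
  simp only [Pi.mul_apply, Units.val_mul, map_mul]
  exact mul_le_mul' (vle_iff.mp h O) (vle_iff.mp h' O)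

theorem VLe.pow {l m : VC κ Ω} (h : VLe l m) (k : ℕ) : VLe (l ^ k) (m ^ k) := by
  refine vle_iff.mpr fun O => ?_
  simp only [Pi.pow_apply, Units.val_pow_eq_pow_val, map_pow]
  exact pow_le_pow_left' (vle_iff.mp h O) k

theorem VLe.inv {l m : VC κ Ω} (h : VLe l m) : VLe m⁻¹ l⁻¹ := by
  refine vle_iff.mpr fun O => ?_
  simp only [Pi.inv_apply, Units.val_inv_eq_inv_val, map_inv₀]
  exact inv_anti₀ (V1_unit_pos _ _) (vle_iff.mp h O)

theorem VLe.prod {ι : Type} (s : Finset ι) {l m : ι → VC κ Ω} (h : ∀ i ∈ s, VLe (l i) (m i)) :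
    VLe (∏ i ∈ s, l i) (∏ i ∈ s, m i) := by
  induction s using Finset.induction_on with
  | empty => simpa using VLe.refl _
  | insert a s ha ih =>
    rw [Finset.prod_insert ha, Finset.prod_insert ha]
    exact (h a (Finset.mem_insert_self _ _)).mul
      (ih fun i hi => h i (Finset.mem_insert_of_mem hi))

theorem VLe.TT_le {l m : VC κ Ω} (h : VLe l m) : TT l ≤ TT m := fun _ hG =>
  mem_TT_iff.mpr fun O => (mem_TT_iff.mp hG O).trans (vle_iff.mp h O)

theorem V1_cstC_mul (g g' : Ωˣ) : (cstC κ (g * g') : VC κ Ω) = cstC κ g * cstC κ g' := rfl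

theorem V1_cstC_pow (g : Ωˣ) (k : ℕ) : (cstC κ (g ^ k) : VC κ Ω) = cstC κ g ^ k := rfl

theorem V1_cstC_inv (g : Ωˣ) : (cstC κ g⁻¹ : VC κ Ω) = (cstC κ g)⁻¹ := rfl

theorem V1_cstC_one : (cstC κ (1 : Ωˣ) : VC κ Ω) = 1 := rfl

theorem V1_veq_refl (l : VC κ Ω) : VEq l l := ⟨VLe.refl l, VLe.refl l⟩

theorem V1_veq_symm {l m : VC κ Ω} (h : VEq l m) : VEq m l := ⟨h.2, h.1⟩

theorem V1_veq_trans {l m n : VC κ Ω} (h : VEq l m) (h' : VEq m n) : VEq l n :=
  ⟨h.1.trans h'.1, h'.2.trans h.2⟩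

theorem V1_veq_mul {l m l' m' : VC κ Ω} (h : VEq l m) (h' : VEq l' m') :
    VEq (l * l') (m * m') := ⟨h.1.mul h'.1, h.2.mul h'.2⟩

theorem V1_veq_pow {l m : VC κ Ω} (h : VEq l m) (k : ℕ) : VEq (l ^ k) (m ^ k) :=
  ⟨h.1.pow k, h.2.pow k⟩

theorem V1_e1 {G : Type} [CommGroup G] (l : G) (a b : ℕ) : (l ^ a) ^ b = l ^ (a * b) :=
  (pow_mul l a b).symm

theorem V1_e2 {G : Type} [CommGroup G] (g g' m : G) (a b : ℕ) :
    g ^ b * (g' * m ^ b) ^ a = (g ^ b * g' ^ a) * m ^ (a * b) := by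
  rw [mul_pow, ← pow_mul, mul_comm b a, mul_assoc]

theorem V1_e3 {G : Type} [CommGroup G] (g m : G) (a b : ℕ) :
    (g * m ^ a) ^ b = g ^ b * (m ^ b) ^ a := by
  rw [mul_pow, ← pow_mul, ← pow_mul, mul_comm a b]

theorem V1_e4 {G : Type} [CommGroup G] (l l' : G) (a b : ℕ) :
    (l ^ a) ^ b * (l' ^ b) ^ a = (l * l') ^ (a * b) := by
  rw [mul_pow, ← pow_mul, ← pow_mul, mul_comm b a]

theorem V1_e5 {G : Type} [CommGroup G] (g g' m m' : G) (a b : ℕ) :
    (g * m ^ a) ^ b * (g' * m' ^ b) ^ a = (g ^ b * g' ^ a) * (m * m') ^ (a * b) := by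
  rw [mul_pow, mul_pow, mul_pow, ← pow_mul, ← pow_mul, mul_comm b a, mul_mul_mul_comm]

theorem QEq.refl (l : VC κ Ω) : QEq l l :=
  ⟨1, one_pos, 1, by rw [V1_cstC_one, one_mul]; exact V1_veq_refl _⟩

theorem QEq.symm {l m : VC κ Ω} (h : QEq l m) : QEq m l := by
  obtain ⟨k, hk, g, h⟩ := h
  refine ⟨k, hk, g⁻¹, ?_⟩
  have := V1_veq_mul (V1_veq_refl (cstC κ g⁻¹)) (V1_veq_symm h)
  rwa [V1_cstC_inv, inv_mul_cancel_left, ← V1_cstC_inv] at this

theorem QEq.trans {l m n : VC κ Ω} (h : QEq l m) (h' : QEq m n) : QEq l n := by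
  obtain ⟨a, ha, g, h⟩ := h
  obtain ⟨b, hb, g', h'⟩ := h'
  refine ⟨a * b, Nat.mul_pos ha hb, g ^ b * g' ^ a, ?_⟩
  have h1 := V1_veq_pow h b
  have h2 := V1_veq_mul (V1_veq_refl (cstC κ g ^ b)) (V1_veq_pow h' a)
  rw [V1_e1, V1_e3] at h1
  rw [V1_e2] at h2
  rw [V1_cstC_mul, V1_cstC_pow, V1_cstC_pow]
  exact V1_veq_trans h1 h2

theorem QEq.mul {l m l' m' : VC κ Ω} (h : QEq l m) (h' : QEq l' m') : QEq (l * l') (m * m') := by
  obtain ⟨a, ha, g, h⟩ := h
  obtain ⟨b, hb, g', h'⟩ := h'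
  refine ⟨a * b, Nat.mul_pos ha hb, g ^ b * g' ^ a, ?_⟩
  have h1 := V1_veq_mul (V1_veq_pow h b) (V1_veq_pow h' a)
  rw [V1_e4, V1_e5] at h1
  rw [V1_cstC_mul, V1_cstC_pow, V1_cstC_pow]
  exact h1

theorem QEq.qle {l m : VC κ Ω} (h : QEq l m) : QLe l m := by
  obtain ⟨a, ha, g, h⟩ := h
  exact ⟨a, ha, g, h.1⟩

theorem VLe.qle {l m : VC κ Ω} (h : VLe l m) : QLe l m :=
  ⟨1, one_pos, 1, by rw [V1_cstC_one, one_mul, pow_one, pow_one]; exact h⟩

theorem QLe.trans {l m n : VC κ Ω} (h : QLe l m) (h' : QLe m n) : QLe l n := by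
  obtain ⟨a, ha, g, h⟩ := h
  obtain ⟨b, hb, g', h'⟩ := h'
  refine ⟨a * b, Nat.mul_pos ha hb, g ^ b * g' ^ a, ?_⟩
  have h1 := h.pow b
  have h2 := (VLe.refl (cstC κ g ^ b)).mul (h'.pow a)
  rw [V1_e1, V1_e3] at h1
  rw [V1_e2] at h2
  rw [V1_cstC_mul, V1_cstC_pow, V1_cstC_pow]
  exact h1.trans h2

theorem QLe.mul {l m l' m' : VC κ Ω} (h : QLe l m) (h' : QLe l' m') : QLe (l * l') (m * m') := by
  obtain ⟨a, ha, g, h⟩ := h
  obtain ⟨b, hb, g', h'⟩ := h'
  refine ⟨a * b, Nat.mul_pos ha hb, g ^ b * g' ^ a, ?_⟩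
  have h1 := (h.pow b).mul (h'.pow a)
  rw [V1_e4, V1_e5] at h1
  rw [V1_cstC_mul, V1_cstC_pow, V1_cstC_pow]
  exact h1

theorem QLe.pow {l m : VC κ Ω} (h : QLe l m) (k : ℕ) : QLe (l ^ k) (m ^ k) := by
  induction k with
  | zero => rw [pow_zero, pow_zero]; exact (VLe.refl _).qle
  | succ k ih => rw [pow_succ, pow_succ]; exact ih.mul h

theorem qle_one_gen {ι : Type} [Finite ι] {l : ι → Ω} (hl : l ≠ 0) : QLe 1 (gen κ l) := by
  obtain ⟨j, hj⟩ := Function.ne_iff.mp hl
  have hj0 : l j ≠ 0 := hj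
  refine ⟨1, one_pos, (Units.mk0 _ hj0)⁻¹, ?_⟩
  rw [pow_one, pow_one]
  intro O
  have := (gen_spec (κ := κ) hl O).2 j
  have e : (((1 : VC κ Ω) O : Ωˣ) : Ω) / ((cstC κ (Units.mk0 _ hj0)⁻¹ * gen κ l) O : Ωˣ) =
      l j / (gen κ l O : Ω) := by
    simp only [Pi.one_apply, Units.val_one, Pi.mul_apply, cstC, Units.val_mul,
      Units.val_inv_eq_inv_val, Units.val_mk0]
    have := Units.ne_zero (gen κ l O)
    field_simp
  rw [e]; exact this

theorem mem_TT_cstC_mul (g : Ωˣ) (l : VC κ Ω) (G : Ω) :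
    G ∈ TT (cstC κ g * l) ↔ G / g ∈ TT l := by
  refine forall_congr' fun O => ?_
  simp only [Pi.mul_apply, cstC, Units.val_mul, div_div]

/-- multiplication by a unit as a linear equivalence between section spaces -/
noncomputable def V1_equiv (g : Ωˣ) (l : VC κ Ω) : TT (cstC κ g * l) ≃ₗ[κ] TT l where
  toFun G := ⟨G.1 / g, (mem_TT_cstC_mul g l G.1).mp G.2⟩
  invFun F := ⟨F.1 * g, (mem_TT_cstC_mul g l _).mpr (by
    rw [mul_div_cancel_right₀ _ (Units.ne_zero g)]; exact F.2)⟩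
  map_add' a b := Subtype.ext (by simp [add_div])
  map_smul' c a := Subtype.ext (by simp [Algebra.smul_def, mul_div_assoc])
  left_inv a := Subtype.ext (by simp)
  right_inv a := Subtype.ext (by simp)

theorem finrank_TT_cstC_mul (g : Ωˣ) (l : VC κ Ω) :
    Module.finrank κ (TT (cstC κ g * l)) = Module.finrank κ (TT l) :=
  (V1_equiv g l).finrank_eq

theorem finite_TT_cstC_mul (g : Ωˣ) (l : VC κ Ω) :
    Module.Finite κ (TT (cstC κ g * l)) ↔ Module.Finite κ (TT l) :=
  ⟨fun _ => Module.Finite.equiv (V1_equiv g l), fun _ => Module.Finite.equiv (V1_equiv g l).symm⟩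

/-- a ring homomorphism to a field is dominated by a valuation ring -/
theorem exists_vs_dom (B : Subalgebra κ Ω) {K : Type} [Field K] [Algebra κ K] (χ : B →ₐ[κ] K) :
    ∃ O : VS κ Ω, (∀ b : B, (b : Ω) ∈ O.1) ∧ ∀ b : B, O.1.valuation (b : Ω) < 1 ↔ χ b = 0 := by
  let χ' : B.toSubring →+* K := χ.toRingHom
  let P : Ideal B.toSubring := RingHom.ker χ'
  have hP : P.IsPrime := RingHom.ker_isPrime χ'
  obtain ⟨V, hV⟩ := (LocalSubring.ofPrime B.toSubring P).exists_le_valuationSubring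
  have hle : B.toSubring ≤ V.toSubring := (LocalSubring.le_ofPrime ..).trans hV.1
  refine ⟨⟨V, fun c => hle (B.algebraMap_mem c)⟩, fun b => hle b.2, fun b => ?_⟩
  have h1 := IsLocalization.AtPrime.to_map_mem_maximal_iff
    (LocalSubring.ofPrime B.toSubring P).toSubring P (⟨b.1, b.2⟩ : B.toSubring)
  have h2 : (⟨b.1, b.2⟩ : B.toSubring) ∈ P ↔ χ b = 0 := Iff.rfl
  rw [← h2, ← h1]
  have h3 := V.valuation_lt_one_iff ⟨b.1, hle b.2⟩
  change V.valuation ((⟨b.1, hle b.2⟩ : V) : Ω) < 1 ↔ _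
  rw [← h3, IsLocalRing.mem_maximalIdeal, IsLocalRing.mem_maximalIdeal, mem_nonunits_iff,
    mem_nonunits_iff, not_iff_not]
  have := hV.2
  exact isUnit_map_iff (Subring.inclusion hV.1)
    (algebraMap B.toSubring (LocalSubring.ofPrime B.toSubring P).toSubring ⟨b.1, b.2⟩)

theorem isAlgebraic_of_forall_mem {G : Ω} (h : ∀ O : VS κ Ω, G ∈ O.1) : IsAlgebraic κ G := by
  by_contra hG
  have hG0 : G ≠ 0 := fun e => hG (e ▸ isAlgebraic_zero)
  have hT : Transcendental κ G⁻¹ := fun hh => hG (IsAlgebraic.inv_iff.mp hh)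
  have hinj : Function.Injective (Polynomial.aeval (R := κ) G⁻¹) :=
    transcendental_iff_injective.mp hT
  let e := AlgEquiv.ofInjective (Polynomial.aeval (R := κ) G⁻¹) hinj
  let χ : (Polynomial.aeval (R := κ) G⁻¹).range →ₐ[κ] κ :=
    (Polynomial.aeval (0 : κ)).comp (e.symm : _ →ₐ[κ] _)
  obtain ⟨O, -, hO⟩ := exists_vs_dom _ χ
  have h1 := (hO (e Polynomial.X)).mpr (by simp [χ])
  have h2 : ((e Polynomial.X : (Polynomial.aeval (R := κ) G⁻¹).range) : Ω) = G⁻¹ := by
    simp [e]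
  rw [h2, map_inv₀] at h1
  have h0 : O.1.valuation G ≠ 0 := by simpa using hG0
  rw [inv_lt_one₀ (zero_lt_iff.mpr h0)] at h1
  exact absurd ((O.1.valuation_le_one_iff G).mpr (h O)) (not_le.mpr h1)

theorem V1_rs (O : VS κ Ω) {x : Ω} (hx : x ∈ O.1) :
    rs O x = IsLocalRing.residue O.1 ⟨x, hx⟩ := dif_pos hx

theorem rs_add (O : VS κ Ω) {x y : Ω} (hx : x ∈ O.1) (hy : y ∈ O.1) :
    rs O (x + y) = rs O x + rs O y := by
  rw [V1_rs O hx, V1_rs O hy, V1_rs O (O.1.add_mem _ _ hx hy), ← map_add]; rfl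

theorem rs_mul (O : VS κ Ω) {x y : Ω} (hx : x ∈ O.1) (hy : y ∈ O.1) :
    rs O (x * y) = rs O x * rs O y := by
  rw [V1_rs O hx, V1_rs O hy, V1_rs O (O.1.mul_mem _ _ hx hy), ← map_mul]; rfl

theorem rs_algebraMap (O : VS κ Ω) (c : κ) :
    rs O (algebraMap κ Ω c) = algebraMap κ (RF O) c := by
  rw [V1_rs O (O.2 c)]; rfl

theorem rs_eq_zero_iff (O : VS κ Ω) {x : Ω} (hx : x ∈ O.1) :
    rs O x = 0 ↔ O.1.valuation x < 1 := by
  rw [V1_rs O hx, IsLocalRing.residue_eq_zero_iff, O.1.valuation_lt_one_iff]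

theorem rs_surj (O : VS κ Ω) (r : RF O) : ∃ x ∈ O.1, rs O x = r := by
  obtain ⟨x, rfl⟩ := IsLocalRing.residue_surjective r
  exact ⟨x.1, x.2, V1_rs O x.2⟩

instance instIsAlgClosedRF [IsAlgClosed Ω] (O : VS κ Ω) : IsAlgClosed (RF O) := by
  refine IsAlgClosed.of_exists_root _ fun p hp hirr => ?_
  have hlift : p ∈ Polynomial.lifts (IsLocalRing.residue O.1) :=
    Polynomial.mem_lifts_of_surjective IsLocalRing.residue_surjective p
  obtain ⟨q, hq, hdeg, hmon⟩ := Polynomial.lifts_and_degree_eq_and_monic hlift hp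
  have hd : (q.map (algebraMap O.1 Ω)).degree ≠ 0 := by
    rw [hmon.degree_map, hdeg]
    exact (Polynomial.degree_pos_of_irreducible hirr).ne'
  obtain ⟨x, hx⟩ := IsAlgClosed.exists_root _ hd
  have hint : IsIntegral O.1 x := ⟨q, hmon, by
    rw [← Polynomial.eval_map]; exact hx⟩
  obtain ⟨y, rfl⟩ := IsIntegrallyClosed.isIntegral_iff.mp hint
  have hy : q.eval y = 0 := by
    apply IsFractionRing.injective O.1 Ω
    rw [map_zero, ← Polynomial.eval₂_at_apply, ← Polynomial.eval_map]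
    exact hx
  refine ⟨IsLocalRing.residue O.1 y, ?_⟩
  rw [← hq, Polynomial.eval_map, Polynomial.eval₂_at_apply, hy, map_zero]

instance instCharZeroRF [CharZero κ] (O : VS κ Ω) : CharZero (RF O) :=
  charZero_of_injective_algebraMap (algebraMap κ (RF O)).injective

end Pool.Agent.E6b

end

section
open scoped NNReal TensorProduct IntermediateField BigOperators Classical Topology
open Filter

namespace Pool.Agent.E6b
variable {κ Ω : Type} [Field κ] [Field Ω] [Algebra κ Ω]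

theorem V2_pen (t : Ω) (O : VS κ Ω) :
    O.1.valuation (pen κ t O : Ω) = max 1 (O.1.valuation t) := by
  have h : (![1, t] : Fin 2 → Ω) ≠ 0 := fun e => one_ne_zero (congrFun e 0)
  rw [pen, valuation_gen h]
  apply le_antisymm
  · refine vs_le _ fun i => ?_
    fin_cases i
    · simp
    · simp
  · refine max_le ?_ (le_vs O.1 ![1, t] 1)
    have := le_vs O.1 ![1, t] 0
    simpa using this

theorem V2_one_le (t : Ω) (O : VS κ Ω) : 1 ≤ O.1.valuation (pen κ t O : Ω) := by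
  rw [V2_pen]; exact le_max_left _ _

theorem V2_le (t : Ω) (O : VS κ Ω) : O.1.valuation t ≤ O.1.valuation (pen κ t O : Ω) := by
  rw [V2_pen]; exact le_max_right _ _

theorem V2_eq_one {t : Ω} {O : VS κ Ω} (h : t ∈ O.1) : O.1.valuation (pen κ t O : Ω) = 1 := by
  rw [V2_pen]; exact max_eq_left ((O.1.valuation_le_one_iff t).2 h)

theorem V2_mulz (l m : VC κ Ω) (b : ℤ) (O : VS κ Ω) :
    O.1.valuation ((l * m ^ b) O : Ω) =
      O.1.valuation (l O : Ω) * O.1.valuation (m O : Ω) ^ b := by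
  rw [Pi.mul_apply, Pi.pow_apply, Units.val_mul, map_mul, Units.val_zpow_eq_zpow_val, map_zpow₀]

theorem V2_prod {σ : Type} (s : Finset σ) (l : σ → VC κ Ω) (b : σ → ℕ) (O : VS κ Ω) :
    O.1.valuation ((∏ k ∈ s, l k ^ b k) O : Ω) =
      ∏ k ∈ s, O.1.valuation (l k O : Ω) ^ b k := by
  rw [Finset.prod_apply, Units.coe_prod, map_prod]
  refine Finset.prod_congr rfl fun k _ => ?_
  rw [Pi.pow_apply, Units.val_pow_eq_pow_val, map_pow]

theorem V2_down (t : Ω) (l : VC κ Ω) {b c : ℤ} (h : b ≤ c) :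
    TT (l * pen κ t ^ b) ≤ TT (l * pen κ t ^ c) := by
  refine VLe.TT_le (vle_iff.2 fun O => ?_)
  rw [V2_mulz, V2_mulz]
  exact mul_le_mul_right (zpow_le_zpow_right₀ (V2_one_le t O) h) _

theorem V2_res (t : Ω) (l : VC κ Ω) (b : ℤ) {G : Ω} (hG : G ∈ TT (l * pen κ t ^ b)) :
    G ∈ TT (resC κ⟮t⟯ l) := by
  refine mem_TT_iff.2 fun O => ?_
  have h := mem_TT_iff.1 hG ⟨O.1, fun c => by
    rw [IsScalarTower.algebraMap_apply κ κ⟮t⟯ Ω]; exact O.2 _⟩
  rw [V2_mulz, V2_eq_one (κ := κ) (t := t) (O.2 (IntermediateField.AdjoinSimple.gen κ t)),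
    one_zpow, mul_one] at h
  exact h

theorem V2_lead {ι : Type} [Fintype ι] (t : Ω) (l : VC κ Ω) (b : ℤ) (F : ι → Ω)
    (hF : ∀ i, F i ∈ TT (l * pen κ t ^ b)) (P : ι → Polynomial κ) (N : ℕ)
    (hN : ∀ i, (P i).natDegree ≤ N) (h : ∑ i, Polynomial.aeval t (P i) * F i = 0) :
    ∑ i, (P i).coeff N • F i ∈ TT (l * pen κ t ^ (b - 1)) := by
  have hG : ∑ i, (P i).coeff N • F i ∈ TT (l * pen κ t ^ b) :=
    Submodule.sum_mem _ fun i _ => Submodule.smul_mem _ _ (hF i)
  have key : t ^ N * ∑ i, (P i).coeff N • F i =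
      -∑ i, ∑ j ∈ Finset.range N, (P i).coeff j • (t ^ j * F i) := by
    rw [eq_neg_iff_add_eq_zero, ← h, Finset.mul_sum, ← Finset.sum_add_distrib]
    refine Finset.sum_congr rfl fun i _ => ?_
    rw [Polynomial.aeval_eq_sum_range' (Nat.lt_succ_of_le (hN i)), Finset.sum_range_succ, add_mul,
      Finset.sum_mul, add_comm]
    simp only [smul_mul_assoc, mul_smul_comm]
  refine mem_TT_iff.2 fun O => ?_
  by_cases ht : t ∈ O.1
  · have h1 := mem_TT_iff.1 hG O
    rw [V2_mulz, V2_eq_one ht, one_zpow] at h1 ⊢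
    exact h1
  · have h1 : 1 < O.1.valuation t := not_le.1 fun h => ht ((O.1.valuation_le_one_iff t).1 h)
    have h0 : 0 < O.1.valuation t := zero_lt_one.trans h1
    have h2 : O.1.valuation (pen κ t O : Ω) = O.1.valuation t := by
      rw [V2_pen]; exact max_eq_right h1.le
    rw [V2_mulz, h2]
    refine le_of_mul_le_mul_left ?_ (pow_pos h0 N)
    rw [← map_pow, ← map_mul, key, Valuation.map_neg]
    refine Valuation.map_sum_le _ fun i _ => Valuation.map_sum_le _ fun j hj => ?_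
    have h3 := mem_TT_iff.1 (Submodule.smul_mem _ ((P i).coeff j) (hF i)) O
    rw [V2_mulz, h2] at h3
    rw [← mul_smul_comm, map_mul, map_pow, map_pow]
    refine (mul_le_mul_right h3 _).trans ?_
    have h4 : O.1.valuation t ^ b = O.1.valuation t * O.1.valuation t ^ (b - 1) := by
      rw [← zpow_one_add₀ h0.ne', add_sub_cancel]
    rw [h4, mul_left_comm (O.1.valuation (l O : Ω)), ← mul_assoc, ← pow_succ]
    exact mul_le_mul_left (pow_le_pow_right₀ h1.le (Finset.mem_range.1 hj)) _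

theorem V2_indep {ι : Type} [Fintype ι] (t : Ω) (l : VC κ Ω) (b : ℤ) (F : ι → Ω)
    (hF : ∀ i, F i ∈ TT (l * pen κ t ^ b))
    (H : ∀ c : ι → κ, ∑ i, c i • F i ∈ TT (l * pen κ t ^ (b - 1)) → ∀ i, c i = 0) :
    LinearIndependent κ⟮t⟯ F := by
  rw [Fintype.linearIndependent_iff]
  intro g hg
  have h1 : ∀ i, ∃ r s : Polynomial κ, Polynomial.aeval t s ≠ 0 ∧
      Polynomial.aeval t r = (g i : Ω) * Polynomial.aeval t s := fun i => by
    obtain ⟨r, s, h⟩ := (IntermediateField.mem_adjoin_simple_iff κ (g i : Ω)).1 (g i).2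
    by_cases hs : Polynomial.aeval t s = 0
    · refine ⟨0, 1, by simp, ?_⟩
      rw [h, hs, div_zero, zero_mul, map_zero]
    · exact ⟨r, s, hs, by rw [h, div_mul_cancel₀ _ hs]⟩
  choose r s hs hr using h1
  obtain ⟨P, hP⟩ : ∃ P : ι → Polynomial κ, ∀ i, Polynomial.aeval t (P i) =
      (∏ j, Polynomial.aeval t (s j)) * (g i : Ω) :=
    ⟨fun i => r i * ∏ j ∈ Finset.univ.erase i, s j, fun i => by
      rw [map_mul, map_prod, hr, ← Finset.mul_prod_erase _ _ (Finset.mem_univ i)]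
      ring⟩
  have hD : ∏ j, Polynomial.aeval t (s j) ≠ 0 := Finset.prod_ne_zero_iff.2 fun j _ => hs j
  have h2 : ∑ i, Polynomial.aeval t (P i) * F i = 0 := by
    have : ∑ i, (g i : Ω) * F i = 0 := hg
    simp only [hP, mul_assoc]
    rw [← Finset.mul_sum, this, mul_zero]
  have h3 : ∀ N : ℕ, (∀ i, (P i).degree < N) → ∀ i, P i = 0 := by
    intro N
    induction N with
    | zero => exact fun h i => Polynomial.degree_eq_bot.1 (Nat.WithBot.lt_zero_iff.1 (h i))
    | succ N ih =>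
      intro h
      have h4 : ∀ i, (P i).natDegree ≤ N := fun i =>
        Polynomial.natDegree_le_iff_coeff_eq_zero.2 fun j hj =>
          Polynomial.coeff_eq_zero_of_degree_lt ((h i).trans_le (Nat.cast_le.2 hj))
      have h5 := H _ (V2_lead t l b F hF P N h4 h2)
      refine ih fun i => (Polynomial.degree_lt_iff_coeff_zero _ _).2 fun j hj => ?_
      rcases hj.eq_or_lt with rfl | hj
      · exact h5 i
      · exact Polynomial.coeff_eq_zero_of_natDegree_lt ((h4 i).trans_lt hj)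
  have h4 := h3 (Finset.univ.sup (fun i => (P i).natDegree) + 1) fun i =>
    Polynomial.degree_le_natDegree.trans_lt (Nat.cast_lt.2 (Nat.lt_succ_of_le
      (Finset.le_sup (f := fun i => (P i).natDegree) (Finset.mem_univ i))))
  intro i
  have h5 := hP i
  rw [h4 i, map_zero] at h5
  exact Subtype.ext ((mul_eq_zero.1 h5.symm).resolve_left hD)

/-- Pencil lemma. -/
theorem pencil (t : Ω) (l : VC κ Ω) (b : ℤ) [Module.Finite κ (TT (l * pen κ t ^ (b - 1)))]
    [Module.Finite κ⟮t⟯ (TT (resC κ⟮t⟯ l))] :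
    Module.Finite κ (TT (l * pen κ t ^ b)) ∧
      Module.finrank κ (TT (l * pen κ t ^ b)) ≤ Module.finrank κ (TT (l * pen κ t ^ (b - 1))) +
        Module.finrank κ⟮t⟯ (TT (resC κ⟮t⟯ l)) := by
  have hle := V2_down t l (sub_one_lt b).le
  obtain ⟨p, hp⟩ : ∃ p : Submodule κ (TT (l * pen κ t ^ b)),
      p = (TT (l * pen κ t ^ (b - 1))).comap (TT (l * pen κ t ^ b)).subtype := ⟨_, rfl⟩
  have e : p ≃ₗ[κ] TT (l * pen κ t ^ (b - 1)) := hp ▸ Submodule.comapSubtypeEquivOfLe hle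
  have hr : Module.rank κ (TT (l * pen κ t ^ b) ⧸ p) ≤
      Module.finrank κ⟮t⟯ (TT (resC κ⟮t⟯ l)) := by
    refine rank_le fun s hs => ?_
    choose F hF using fun i : s => p.mkQ_surjective i.1
    have h1 : LinearIndependent κ⟮t⟯ fun i => (F i : Ω) := by
      refine V2_indep t l b _ (fun i => (F i).2) fun c hc => ?_
      refine Fintype.linearIndependent_iff.1 hs c ?_
      have h2 : ∑ i, c i • F i ∈ p := by
        refine hp.ge ?_
        rw [Submodule.mem_comap, map_sum]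
        exact hc
      have h3 := (Submodule.Quotient.mk_eq_zero p).2 h2
      rw [← Submodule.mkQ_apply, map_sum] at h3
      simpa only [map_smul, hF] using h3
    have h2 : LinearIndependent κ⟮t⟯ fun i =>
        (⟨F i, V2_res t l b (F i).2⟩ : TT (resC κ⟮t⟯ l)) :=
      LinearIndependent.of_comp (TT (resC κ⟮t⟯ l)).subtype h1
    simpa using h2.fintype_card_le_finrank
  have f1 : Module.Finite κ p := Module.Finite.equiv e.symm
  have f2 : Module.Finite κ (TT (l * pen κ t ^ b) ⧸ p) :=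
    Module.rank_lt_aleph0_iff.1 (hr.trans_lt (Cardinal.natCast_lt_aleph0))
  have f3 : Module.Finite κ (TT (l * pen κ t ^ b)) := Module.Finite.of_submodule_quotient p
  refine ⟨f3, ?_⟩
  rw [← p.finrank_quotient_add_finrank, e.finrank_eq, add_comm]
  exact Nat.add_le_add_left (Module.finrank_le_of_rank_le hr) _

theorem V2_resC {σ : Type} (K : Type) [Field K] [Algebra κ K] [Algebra K Ω] [IsScalarTower κ K Ω]
    (s : Finset σ) (u : σ → Ω) (b : σ → ℕ) :
    resC K (∏ k ∈ s, pen κ (u k) ^ b k) = ∏ k ∈ s, pen K (u k) ^ b k := by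
  funext O
  simp only [resC, Finset.prod_apply, Pi.pow_apply]
  rfl

theorem V2_bot {σ : Type} (s : Finset σ) (u : σ → Ω) (b : σ → ℕ) {t : Ω}
    (ht : Transcendental (IntermediateField.adjoin κ (u '' s)) t) :
    TT ((∏ k ∈ s, pen κ (u k) ^ b k) * pen κ t ^ (-1 : ℤ)) = ⊥ := by
  refine (Submodule.eq_bot_iff _).2 fun G hG => ?_
  by_contra h0
  have key : ∀ O : VS (IntermediateField.adjoin κ (u '' s)) Ω, G ∈ O.1 ∧ G * t ∈ O.1 := by
    intro O
    obtain ⟨O', hO'⟩ : ∃ O' : VS κ Ω, O'.1 = O.1 := ⟨⟨O.1, fun c => by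
      rw [IsScalarTower.algebraMap_apply κ (IntermediateField.adjoin κ (u '' s)) Ω]
      exact O.2 _⟩, rfl⟩
    have h := mem_TT_iff.1 hG O'
    have h1 : ∏ k ∈ s, O'.1.valuation (pen κ (u k) O' : Ω) ^ b k = 1 := by
      refine Finset.prod_eq_one fun k hk => ?_
      rw [V2_eq_one, one_pow]
      rw [hO']
      exact O.2 ⟨u k, IntermediateField.subset_adjoin _ _ ⟨k, hk, rfl⟩⟩
    have h2 : 0 < O'.1.valuation (pen κ t O' : Ω) := zero_lt_one.trans_le (V2_one_le t O')
    rw [V2_mulz, V2_prod, h1, one_mul, zpow_neg_one] at h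
    rw [← hO', ← O'.1.valuation_le_one_iff, ← O'.1.valuation_le_one_iff, map_mul]
    refine ⟨h.trans (inv_le_one_of_one_le₀ (V2_one_le t O')), ?_⟩
    refine (mul_le_mul' h (V2_le t O')).trans_eq (inv_mul_cancel₀ h2.ne')
  have a1 := isAlgebraic_of_forall_mem fun O => (key O).1
  have a2 := isAlgebraic_of_forall_mem fun O => (key O).2
  have a3 := a1.inv.mul a2
  rw [inv_mul_cancel_left₀ h0] at a3
  exact ht a3

theorem V2_ub {σ : Type} (u : σ → Ω) (b : σ → ℕ) (L : Subfield Ω) [FiniteDimensional L Ω]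
    (s : Finset σ) : ∀ (K : Type) [Field K] [Algebra K Ω],
    (∀ k ∈ s, Transcendental (IntermediateField.adjoin K (u '' (s.erase k))).toSubfield (u k)) →
    (IntermediateField.adjoin K (u '' s)).toSubfield = L →
    Module.Finite K (TT (∏ k ∈ s, pen K (u k) ^ b k)) ∧
      Module.finrank K (TT (∏ k ∈ s, pen K (u k) ^ b k)) ≤
        Module.finrank L Ω * ∏ k ∈ s, (b k + 1) := by
  induction s using Finset.induction_on with
  | empty =>
    intro K _ _ _ hL
    rw [Finset.coe_empty, Set.image_empty, IntermediateField.adjoin_empty] at hL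
    subst hL
    have h1 : FiniteDimensional (⊥ : IntermediateField K Ω) Ω := ‹_›
    have h2 : FiniteDimensional K Ω := FiniteDimensional.trans K (⊥ : IntermediateField K Ω) Ω
    refine ⟨inferInstance, ?_⟩
    rw [Finset.prod_empty (f := fun k => b k + 1), mul_one]
    refine (Submodule.finrank_le _).trans_eq ?_
    exact (IntermediateField.finrank_bot' (F := K) (E := Ω)).symm
  | insert k₀ s hk ih =>
    intro K _ _ hT hL
    have hA : ∀ S : Set Ω, (IntermediateField.adjoin K⟮u k₀⟯ S).toSubfield =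
        (IntermediateField.adjoin K (insert (u k₀) S)).toSubfield := fun S => by
      rw [Set.insert_eq, ← IntermediateField.adjoin_adjoin_left]
      rfl
    obtain ⟨f1, f2⟩ := ih K⟮u k₀⟯ (fun k hks => by
      have h := hT k (Finset.mem_insert_of_mem hks)
      have hne : k₀ ≠ k := fun e => hk (e ▸ hks)
      rw [Finset.erase_insert_of_ne hne, Finset.coe_insert, Set.image_insert_eq, ← hA] at h
      exact h) (by rw [hA, ← hL, Finset.coe_insert, Set.image_insert_eq])
    rw [← V2_resC (κ := K)] at f1 f2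
    have h0 := hT k₀ (Finset.mem_insert_self _ _)
    rw [Finset.erase_insert hk] at h0
    have hb := V2_bot s u b (κ := K) h0
    have key : ∀ n : ℕ,
        Module.Finite K (TT ((∏ k ∈ s, pen K (u k) ^ b k) * pen K (u k₀) ^ ((n : ℤ) - 1))) ∧
        Module.finrank K (TT ((∏ k ∈ s, pen K (u k) ^ b k) * pen K (u k₀) ^ ((n : ℤ) - 1))) ≤
          n * (Module.finrank L Ω * ∏ k ∈ s, (b k + 1)) := by
      intro n
      induction n with
      | zero =>
        rw [Nat.cast_zero, zero_sub, hb]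
        exact ⟨inferInstance, by simp⟩
      | succ n ihn =>
        have := ihn.1
        obtain ⟨g1, g2⟩ := pencil (u k₀) (∏ k ∈ s, pen K (u k) ^ b k) (n : ℤ)
        rw [Nat.cast_succ, add_sub_cancel_right]
        refine ⟨g1, g2.trans ?_⟩
        rw [add_mul, one_mul]
        exact Nat.add_le_add ihn.2 f2
    have h := key (b k₀ + 1)
    rw [Nat.cast_succ, add_sub_cancel_right, zpow_natCast, mul_comm _ (pen K (u k₀) ^ b k₀),
      mul_left_comm] at h
    rw [Finset.prod_insert hk, Finset.prod_insert hk]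
    exact h

theorem V2_trans {σ : Type} {u : σ → Ω} (hu : AlgebraicIndependent κ u) {S : Set σ} {k : σ}
    (hk : k ∉ S) : Transcendental (IntermediateField.adjoin κ (u '' S)).toSubfield (u k) :=
  (IntermediateField.transcendental_adjoin_iff (F := κ) (s := u '' S) (x := u k)).2
    (hu.transcendental_adjoin hk)

/-- the same on the generic fibre of the pencil `u k₀` -/
theorem ub_res {σ : Type} [Fintype σ] (u : σ → Ω) (hu : AlgebraicIndependent κ u)
    [FiniteDimensional (IntermediateField.adjoin κ (Set.range u)) Ω] (b : σ → ℕ) (k₀ : σ)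
    (g : Ωˣ) {l : VC κ Ω} (hl : VLe l (cstC κ g * ∏ k, pen κ (u k) ^ b k)) :
    Module.Finite κ⟮u k₀⟯ (TT (resC κ⟮u k₀⟯ l)) ∧
      Module.finrank κ⟮u k₀⟯ (TT (resC κ⟮u k₀⟯ l)) ≤
        Module.finrank (IntermediateField.adjoin κ (Set.range u)) Ω *
          ∏ k ∈ Finset.univ.erase k₀, (b k + 1) := by
  have : FiniteDimensional (IntermediateField.adjoin κ (Set.range u)).toSubfield Ω := ‹_›
  have hA : ∀ S : Set σ, (IntermediateField.adjoin κ⟮u k₀⟯ (u '' S)).toSubfield =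
      (IntermediateField.adjoin κ (u '' insert k₀ S)).toSubfield := fun S => by
    rw [Set.image_insert_eq, Set.insert_eq, ← IntermediateField.adjoin_adjoin_left]
    rfl
  obtain ⟨f1, f2⟩ := V2_ub u b (IntermediateField.adjoin κ (Set.range u)).toSubfield
    (Finset.univ.erase k₀) κ⟮u k₀⟯
    (fun k hk => by
      rw [hA]
      exact V2_trans hu (by simpa using Finset.ne_of_mem_erase hk))
    (by rw [hA, ← Finset.coe_insert, Finset.insert_erase (Finset.mem_univ _), Finset.coe_univ,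
      Set.image_univ])
  have h1 : TT (resC κ⟮u k₀⟯ l) ≤
      TT (cstC κ⟮u k₀⟯ g * ∏ k ∈ Finset.univ.erase k₀, pen κ⟮u k₀⟯ (u k) ^ b k) := by
    refine VLe.TT_le (vle_iff.2 fun O => ?_)
    have h := vle_iff.1 hl ⟨O.1, fun c => by
      rw [IsScalarTower.algebraMap_apply κ κ⟮u k₀⟯ Ω]; exact O.2 _⟩
    rw [Pi.mul_apply, Units.val_mul, map_mul, V2_prod,
      ← Finset.mul_prod_erase _ _ (Finset.mem_univ k₀),
      V2_eq_one (κ := κ) (t := u k₀) (O.2 (IntermediateField.AdjoinSimple.gen κ (u k₀))),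
      one_pow, one_mul] at h
    rw [Pi.mul_apply, Units.val_mul, map_mul, V2_prod]
    exact h
  have f3 := (finite_TT_cstC_mul g _).2 f1
  refine ⟨Submodule.finiteDimensional_of_le h1, (Submodule.finrank_mono h1).trans ?_⟩
  rw [finrank_TT_cstC_mul]
  exact f2

end Pool.Agent.E6b

end

section
open scoped NNReal TensorProduct IntermediateField BigOperators Classical Topology
open Filter

namespace Pool.Agent.E6b
variable {κ Ω : Type} [Field κ] [CharZero κ] [Field Ω] [Algebra κ Ω]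
open MvPolynomial

/-- generators of the multigraded section ring -/
def V4_gens {I : Type} {ι : I → Type} (L : ∀ i, ι i → Ω) : Set (MvPolynomial I Ω) :=
  Set.range fun p : Σ i, ι i => C (L p.1 p.2) * X p.1

omit [CharZero κ] in
theorem V4_graded {I : Type} [Fintype I] {ι : I → Type} (L : ∀ i, ι i → Ω)
    {p : MvPolynomial I Ω} (hp : p ∈ Algebra.adjoin κ (V4_gens L)) (c : I →₀ ℕ) :
    coeff c p ∈ ∏ i, Submodule.span κ (Set.range (L i)) ^ c i := by
  induction hp using Algebra.adjoin_induction generalizing c with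
  | mem p hp =>
    obtain ⟨⟨i, j⟩, rfl⟩ := hp
    simp only [coeff_C_mul, coeff_X]
    split_ifs with h
    · subst h
      rw [mul_one, Finset.prod_eq_single i]
      · simp only [Finsupp.single_eq_same, pow_one]
        exact Submodule.subset_span ⟨j, rfl⟩
      · intro k _ hk
        rw [Finsupp.single_eq_of_ne hk, pow_zero]
      · simp
    · simp
  | algebraMap r =>
    rw [IsScalarTower.algebraMap_apply κ Ω (MvPolynomial I Ω), algebraMap_eq, coeff_C]
    split_ifs with h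
    · subst h
      simp only [Finsupp.coe_zero, Pi.zero_apply, pow_zero, Finset.prod_const_one]
      exact Submodule.algebraMap_mem r
    · simp
  | add p q _ _ hp hq =>
    rw [coeff_add]
    exact Submodule.add_mem _ (hp c) (hq c)
  | mul p q _ _ hp hq =>
    rw [coeff_mul]
    refine Submodule.sum_mem _ fun x hx => ?_
    have hx' : x.1 + x.2 = c := Finset.HasAntidiagonal.mem_antidiagonal.mp hx
    have := Submodule.mul_mem_mul (hp x.1) (hq x.2)
    rw [← Finset.prod_mul_distrib] at this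
    simp only [← pow_add] at this
    rw [← hx']
    exact this

omit [CharZero κ] in
theorem V4_pow_mono {M : Submodule κ Ω} (h : (1 : Ω) ∈ M) {a b : ℕ} (hab : a ≤ b) :
    M ^ a ≤ M ^ b := by
  induction hab with
  | refl => exact le_rfl
  | step _ ih =>
    refine ih.trans fun x hx => ?_
    rw [pow_succ]
    simpa using Submodule.mul_mem_mul hx h

end Pool.Agent.E6b

end

section
open scoped NNReal TensorProduct IntermediateField BigOperators Classical Topology
open Filter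

namespace Pool.Agent.E6b

section aux
variable {κ Ω : Type} [Field κ] [Field Ω] [Algebra κ Ω]

theorem V5_cst_mul (g h : Ωˣ) : cstC κ (g * h) = cstC κ g * cstC κ h := rfl

theorem V5_cst_one : cstC κ (1 : Ωˣ) = 1 := rfl

/-- classes dominated by box classes -/
def V5Gen (m : VC κ Ω) : Prop :=
  ∀ (σ : Type) [Fintype σ] (v : σ → Ω),
    Algebra.IsAlgebraic (IntermediateField.adjoin κ (Set.range v)) Ω →
      ∃ (g : Ωˣ) (c : ℕ), VLe m (cstC κ g * (∏ k, pen κ (v k)) ^ c)

theorem V5Gen_one : V5Gen (1 : VC κ Ω) :=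
  fun _ _ _ _ => ⟨1, 0, by simpa [V5_cst_one] using VLe.refl _⟩

theorem V5Gen.mul {l m : VC κ Ω} (hl : V5Gen l) (hm : V5Gen m) : V5Gen (l * m) := by
  intro σ _ v hv
  obtain ⟨g, c, h⟩ := hl σ v hv
  obtain ⟨g', c', h'⟩ := hm σ v hv
  refine ⟨g * g', c + c', ?_⟩
  have := h.mul h'
  rwa [mul_mul_mul_comm, ← V5_cst_mul, ← pow_add] at this

theorem V5Gen.pow {l : VC κ Ω} (hl : V5Gen l) (k : ℕ) : V5Gen (l ^ k) := by
  induction k with
  | zero => simpa using V5Gen_one
  | succ k ih => rw [pow_succ]; exact ih.mul hl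

end aux

end Pool.Agent.E6b

end
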