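import Pool.Agent.E6c.A01

section
open scoped NNReal TensorProduct IntermediateField BigOperators Classical Topology
open Filter

namespace Pool.Agent.E6b

section
variable {κ F F' F'' : Type} [Field κ] [Field F] [Algebra κ F] [Field F'] [Algebra κ F']
  [Field F''] [Algebra κ F'']

def FHom.comp (ψ : FHom κ F' F'') (φ : FHom κ F F') : FHom κ F F'' where
  f := ψ.f.comp φ.f
  c := φ.c.trans ψ.c
  comm := fun x => by simp [φ.comm, ψ.comm]

end

end Pool.Agent.E6b

end

section
open scoped NNReal TensorProduct IntermediateField BigOperators Classical Topology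
open Filter

namespace Pool.Agent.E6b

section
variable {κ F F' : Type} [Field κ] [IsAlgClosed κ] [CharZero κ] [Field F] [Algebra κ F] [IsFF κ F]
  [Field F'] [Algebra κ F'] [IsFF κ F']

/-- genus -/
noncomputable def genus (κ F : Type) [Field κ] [IsAlgClosed κ] [CharZero κ] [Field F] [Algebra κ F]
    [IsFF κ F] : ℕ :=
  sSup {n : ℕ | ∃ D : Dv κ F, (n : ℤ) = deg D + 1 - ell D}

end

end Pool.Agent.E6b

end

section
open scoped NNReal TensorProduct IntermediateField BigOperators Classical Topology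
open Filter

namespace Pool.Agent.E6b
variable {κ F : Type} [Field κ] [IsAlgClosed κ] [CharZero κ] [Field F] [Algebra κ F] [IsFF κ F]

theorem F1a_exists_pole {t : F} (ht : t ∉ (algebraMap κ F).range) :
    ∃ P : Place κ F, P.ord t < 0 := by
  by_contra hn
  refine ht (mem_range_of_forall_mem fun P => P.mem_iff.2 ?_)
  by_contra h
  exact hn ⟨P, by omega⟩

theorem exists_place_ev {t : F} (ht : t ∉ (algebraMap κ F).range) (c : κ) :
    ∃ P : Place κ F, 0 < P.ord (t - algebraMap κ F c) := by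
  have h1 : (t - algebraMap κ F c)⁻¹ ∉ (algebraMap κ F).range := by
    rintro ⟨d, hd⟩
    refine ht ⟨d⁻¹ + c, ?_⟩
    rw [map_add, map_inv₀, hd, inv_inv, sub_add_cancel]
  obtain ⟨P, hP⟩ := F1a_exists_pole h1
  rw [P.ord_inv] at hP
  exact ⟨P, by omega⟩

instance instInfinitePlace : Infinite (Place κ F) := by
  obtain ⟨t, ht, -⟩ := IsFF.ex (κ := κ) (F := F)
  have hr : t ∉ (algebraMap κ F).range := by
    rintro ⟨c, rfl⟩
    exact ht (isAlgebraic_algebraMap c)
  choose P hP using exists_place_ev hr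
  refine Infinite.of_injective P fun c d hcd => ?_
  have h1 := (P c).ev_eq (Or.inr (hP c))
  have h2 := (P d).ev_eq (Or.inr (hP d))
  rw [← hcd, h1] at h2
  exact h2

end Pool.Agent.E6b

end

section
open scoped NNReal TensorProduct IntermediateField BigOperators Classical Topology
open Filter

namespace Pool.Agent.E6b
variable {κ F : Type} [Field κ] [IsAlgClosed κ] [CharZero κ] [Field F] [Algebra κ F] [IsFF κ F]

omit [IsAlgClosed κ] [CharZero κ] [IsFF κ F] in
theorem deg_add (D E : Dv κ F) : deg (D + E) = deg D + deg E := by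
  simp only [F1_deg_eq, map_add]

omit [IsAlgClosed κ] [CharZero κ] [IsFF κ F] in
theorem deg_nsmul (n : ℕ) (D : Dv κ F) : deg (n • D) = n * deg D := by
  simp only [F1_deg_eq, map_nsmul, nsmul_eq_mul]

omit [IsAlgClosed κ] [CharZero κ] [IsFF κ F] in
theorem deg_mono {D E : Dv κ F} (h : D ≤ E) : deg D ≤ deg E := by
  have := F1_deg_nonneg (sub_nonneg.2 h)
  rw [deg_sub] at this
  omega

omit [IsAlgClosed κ] [CharZero κ] [IsFF κ F] in
theorem exists_eq_sum_pd {D : Dv κ F} (h : 0 ≤ D) {n : ℕ} (hn : deg D = n) :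
    ∃ P : Fin n → Place κ F, D = ∑ i, pd (P i) := by
  induction n generalizing D with
  | zero =>
    refine ⟨Fin.elim0, ?_⟩
    rw [Finset.univ_eq_empty, Finset.sum_empty]
    exact (eq_of_le_of_deg_le h (by rw [hn, deg_zero]; simp)).symm
  | succ n ih =>
    have h0 : D ≠ 0 := by
      rintro rfl
      rw [deg_zero] at hn
      omega
    obtain ⟨Q, hQ⟩ := Finsupp.support_nonempty_iff.2 h0
    have h1 : 0 ≤ D - pd Q := by
      intro R
      have h2 : 0 ≤ D R := h R
      have h3 := Finsupp.mem_support_iff.1 hQ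
      simp only [Finsupp.coe_zero, Pi.zero_apply, Finsupp.sub_apply, F1_pd_apply]
      split_ifs with h4
      · subst h4; omega
      · omega
    obtain ⟨P, hP⟩ := ih h1 (by rw [deg_sub, deg_pd, hn]; push_cast; ring)
    refine ⟨Fin.cons Q P, ?_⟩
    rw [Fin.sum_univ_succ]
    simp only [Fin.cons_zero, Fin.cons_succ]
    rw [← hP]
    abel

theorem mem_LL_iff {D : Dv κ F} {f : F} (hf : f ≠ 0) : f ∈ LL D ↔ 0 ≤ D + dv κ f := by
  rw [mem_LL, or_iff_right hf, Finsupp.le_def]
  refine forall_congr' fun P => ?_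
  rw [Finsupp.add_apply, dv_apply, Finsupp.zero_apply]
  omega

theorem mul_mem_LL {D E : Dv κ F} {f g : F} (hf : f ∈ LL D) (hg : g ∈ LL E) :
    f * g ∈ LL (D + E) := by
  by_cases hf0 : f = 0
  · rw [hf0, zero_mul]; exact zero_mem _
  by_cases hg0 : g = 0
  · rw [hg0, mul_zero]; exact zero_mem _
  refine mem_LL.2 (Or.inr fun P => ?_)
  have h1 := (mem_LL.1 hf).resolve_left hf0 P
  have h2 := (mem_LL.1 hg).resolve_left hg0 P
  rw [P.ord_mul hf0 hg0, Finsupp.add_apply]
  omega

theorem LinEq.neg {D E : Dv κ F} (h : LinEq D E) : LinEq (-D) (-E) := by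
  obtain ⟨f, hf, rfl⟩ := h
  exact ⟨f⁻¹, inv_ne_zero hf, by rw [dv_inv]; abel⟩

end Pool.Agent.E6b

end

section
open scoped NNReal TensorProduct IntermediateField BigOperators Classical Topology
open Filter

namespace Pool.Agent.E6b
variable {κ F : Type} [Field κ] [IsAlgClosed κ] [CharZero κ] [Field F] [Algebra κ F] [IsFF κ F]

theorem F2_mem_LL_zero {f : F} : f ∈ LL (0 : Dv κ F) ↔ f ∈ (algebraMap κ F).range := by
  constructor
  · intro h
    refine mem_range_of_forall_mem fun P => P.mem_iff.2 ?_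
    rcases mem_LL.1 h with rfl | h
    · rw [P.ord_zero]
    · simpa using h P
  · rintro ⟨c, rfl⟩
    refine mem_LL.2 (Or.inr fun P => ?_)
    rw [P.ord_algebraMap]
    simp

theorem F2_LL_zero : LL (0 : Dv κ F) = Submodule.span κ {(1 : F)} := by
  ext f
  rw [F2_mem_LL_zero, Submodule.mem_span_singleton]
  constructor
  · rintro ⟨c, rfl⟩
    exact ⟨c, by rw [Algebra.smul_def, mul_one]⟩
  · rintro ⟨c, rfl⟩
    exact ⟨c, by rw [Algebra.smul_def, mul_one]⟩

theorem F2_step (D : Dv κ F) (P : Place κ F) (h : Module.Finite κ (LL (D - pd P))) :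
    Module.Finite κ (LL D) ∧ ell D ≤ ell (D - pd P) + 1 := by
  obtain ⟨φ, hφ⟩ := F2_exists_fun D P
  have e : LinearMap.ker φ ≃ₗ[κ] LL (D - pd P) :=
    (LinearEquiv.ofEq _ _ hφ).trans (Submodule.comapSubtypeEquivOfLe (LL_mono (F2_sub_pd_le D P)))
  have hk : Module.Finite κ (LinearMap.ker φ) := Module.Finite.equiv e.symm
  have hf : Module.Finite κ (LL D) := by
    refine ⟨Submodule.fg_of_fg_map_of_fg_inf_ker φ (IsNoetherian.noetherian _) ?_⟩
    rw [top_inf_eq]
    exact Module.Finite.iff_fg.1 hk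
  refine ⟨hf, ?_⟩
  have h1 := φ.finrank_range_add_finrank_ker
  have h2 := (LinearMap.range φ).finrank_le
  rw [Module.finrank_self] at h2
  rw [e.finrank_eq] at h1
  unfold ell
  omega

theorem F2_steps (D : Dv κ F) (h : Module.Finite κ (LL D)) (n : ℕ) (P : Fin n → Place κ F) :
    Module.Finite κ (LL (D + ∑ i, pd (P i))) ∧ ell (D + ∑ i, pd (P i)) ≤ ell D + n := by
  induction n with
  | zero =>
    rw [Finset.univ_eq_empty, Finset.sum_empty, add_zero]
    exact ⟨h, le_rfl⟩
  | succ n ih =>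
    obtain ⟨h1, h2⟩ := ih fun i => P i.castSucc
    rw [Fin.sum_univ_castSucc, ← add_assoc]
    obtain ⟨h3, h4⟩ := F2_step (D + ∑ i : Fin n, pd (P i.castSucc) + pd (P (Fin.last n)))
      (P (Fin.last n)) (by rwa [add_sub_cancel_right])
    rw [add_sub_cancel_right] at h4
    exact ⟨h3, by omega⟩

theorem F2_deg_nonneg {D : Dv κ F} (h : 0 ≤ D) : 0 ≤ deg D := by
  have h1 := deg_mono h
  rwa [deg_zero] at h1

theorem F2_finite (D : Dv κ F) : Module.Finite κ (LL D) := by
  have h0 : Module.Finite κ (LL (0 : Dv κ F)) := by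
    rw [F2_LL_zero]
    infer_instance
  have h1 : (0 : Dv κ F) ≤ D ⊔ 0 := le_sup_right
  obtain ⟨P, hP⟩ := exists_eq_sum_pd h1 (Int.toNat_of_nonneg (F2_deg_nonneg h1)).symm
  have h2 := (F2_steps 0 h0 _ P).1
  rw [zero_add, ← hP] at h2
  exact Module.Finite.of_injective (Submodule.inclusion (LL_mono (le_sup_left : D ≤ D ⊔ 0)))
    (Submodule.inclusion_injective _)

theorem F2_ell_add_le (D : Dv κ F) {E : Dv κ F} (h : 0 ≤ E) :
    (ell (D + E) : ℤ) ≤ ell D + deg E := by
  have h1 := (Int.toNat_of_nonneg (F2_deg_nonneg h)).symm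
  obtain ⟨P, hP⟩ := exists_eq_sum_pd h h1
  have h2 := (F2_steps D (F2_finite D) _ P).2
  rw [← hP] at h2
  omega

theorem F2_ell_zero : ell (0 : Dv κ F) = 1 := by
  unfold ell
  rw [F2_LL_zero]
  exact finrank_span_singleton one_ne_zero

theorem F2_ell_add_dv (D : Dv κ F) {f : F} (hf : f ≠ 0) : ell (D + dv κ f) = ell D := by
  have h : (LL (D + dv κ f)).map
      (((Units.mk0 f hf).mulLeftLinearEquiv κ F : F ≃ₗ[κ] F) : F →ₗ[κ] F) = LL D := by
    ext g
    rw [Submodule.mem_map_equiv]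
    change f⁻¹ * g ∈ _ ↔ _
    by_cases hg : g = 0
    · simp [hg]
    · rw [mem_LL_iff hg, mem_LL_iff (mul_ne_zero (inv_ne_zero hf) hg), dv_mul (inv_ne_zero hf) hg,
        dv_inv, add_assoc, add_neg_cancel_left]
  unfold ell
  rw [← h, LinearEquiv.finrank_map_eq]

end Pool.Agent.E6b

end

section
open scoped NNReal TensorProduct IntermediateField BigOperators Classical Topology
open Filter

namespace Pool.Agent.E6b
variable {κ F : Type} [Field κ] [IsAlgClosed κ] [CharZero κ] [Field F] [Algebra κ F] [IsFF κ F]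

theorem F2_deg_dinf_le {t : F} (ht : t ∉ (algebraMap κ F).range) :
    deg (dinf κ t) ≤ Module.finrank κ⟮t⟯ F := by
  haveI := finiteDimensional_of_transcendental (transcendental_of_notMem ht)
  set S := (dinf κ t).support with hS
  have hSm : ∀ P ∈ S, P.ord t < 0 := by
    intro P hP
    have h1 := Finsupp.mem_support_iff.1 hP
    rw [dinf_apply] at h1
    omega
  have hy : ∀ i : (Σ P : S, Fin (- P.1.ord t).toNat), ∃ y : F, y ≠ 0 ∧
      ∀ Q ∈ S, Q.ord y = if Q = i.1.1 then (i.2.1 : ℤ) else - Q.ord t := fun i =>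
    weak_approx S fun Q => if Q = i.1.1 then (i.2.1 : ℤ) else - Q.ord t
  choose y hy0 hy using hy
  have hli : LinearIndependent κ⟮t⟯ y := by
    rw [Fintype.linearIndependent_iff]
    intro g hg
    by_contra hne
    push Not at hne
    have hm : ∀ i, ∃ m : ℤ, g i ≠ 0 →
        ∀ P : Place κ F, P.ord t < 0 → P.ord (g i : F) = m * (- P.ord t) := by
      intro i
      by_cases h : g i = 0
      · exact ⟨0, fun h' => absurd h h'⟩
      · obtain ⟨m, hm⟩ := F2_ord_adjoin (g i) h
        exact ⟨m, fun _ => hm⟩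
    choose m hm using hm
    obtain ⟨i0, hi0, hmin⟩ := Finset.exists_min_image (Finset.univ.filter fun i => g i ≠ 0)
      (fun i => toLex (m i, (i.2.1 : ℕ))) (by
        obtain ⟨i, hi⟩ := hne
        exact ⟨i, by simpa using hi⟩)
    have hg0 : g i0 ≠ 0 := (Finset.mem_filter.1 hi0).2
    have hP0 := hSm _ i0.1.2
    have hord : ∀ i, g i ≠ 0 → i0.1.1.ord (g i • y i) =
        m i * (- i0.1.1.ord t) + if i0.1.1 = i.1.1 then (i.2.1 : ℤ) else - i0.1.1.ord t := by
      intro i hi
      have h0 : (g i : F) ≠ 0 := fun h => hi (Subtype.ext h)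
      rw [IntermediateField.smul_def, smul_eq_mul, i0.1.1.ord_mul h0 (hy0 i), hm i hi _ hP0,
        hy i _ i0.1.2]
    have hj0 : (i0.2.1 : ℤ) < - i0.1.1.ord t := by
      have := i0.2.2
      omega
    have h2 := i0.1.1.le_ord_sum (Finset.univ.erase i0) (fun i => g i • y i)
      (n := m i0 * (- i0.1.1.ord t) + i0.2.1 + 1) (fun i hi => by
        by_cases hc : g i = 0
        · exact Or.inl (by simp [hc])
        refine Or.inr ?_
        rw [hord i hc]
        have h3 := hmin i (by simpa using hc)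
        rw [Prod.Lex.toLex_le_toLex] at h3
        dsimp only at h3
        have hne' : i ≠ i0 := Finset.ne_of_mem_erase hi
        rcases h3 with h3 | ⟨h3, h4⟩
        · have h5 : m i0 + 1 ≤ m i := h3
          have h6 : (0 : ℤ) ≤ if i0.1.1 = i.1.1 then (i.2.1 : ℤ) else - i0.1.1.ord t := by
            split_ifs
            · positivity
            · omega
          nlinarith
        · rw [← h3]
          split_ifs with h5
          · have h6 : (i0.2.1 : ℕ) ≠ i.2.1 := by
              intro h6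
              apply hne'
              obtain ⟨a, b⟩ := i
              obtain ⟨a0, b0⟩ := i0
              have h7 : a0 = a := Subtype.ext h5
              subst h7
              have h8 : b0 = b := Fin.ext h6
              rw [h8]
            omega
          · omega)
    have h0 : g i0 • y i0 ≠ 0 := smul_ne_zero hg0 (hy0 i0)
    have h3 := (i0.1.1.ord_add_eq h0 (g := ∑ i ∈ Finset.univ.erase i0, g i • y i) (by
      rw [hord i0 hg0, if_pos rfl]
      exact h2.imp_right fun h => by omega)).1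
    rw [Finset.add_sum_erase _ (fun i => g i • y i) (Finset.mem_univ i0)] at h3
    exact h3 hg
  have hc := hli.fintype_card_le_finrank
  rw [Fintype.card_sigma] at hc
  simp only [Fintype.card_fin] at hc
  have h4 : deg (dinf κ t) = ((∑ P : S, (- P.1.ord t).toNat : ℕ) : ℤ) := by
    rw [Nat.cast_sum, Finset.sum_coe_sort S fun P => (((- P.ord t).toNat : ℕ) : ℤ)]
    unfold deg Finsupp.sum
    refine Finset.sum_congr rfl fun P _ => ?_
    change dinf κ t P = _
    rw [dinf_apply]
    omega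
  rw [h4]
  exact_mod_cast hc

theorem F2_pow_mem (t : F) {i m : ℕ} (h : i ≤ m) : t ^ i ∈ LL (m • dinf κ t) := by
  refine mem_LL.2 (Or.inr fun P => ?_)
  rw [P.ord_pow, Finsupp.smul_apply, dinf_apply, nsmul_eq_mul]
  have h1 : (i : ℤ) ≤ m := by exact_mod_cast h
  have h2 : (0 : ℤ) ≤ i := by positivity
  have h3 := le_max_left (- P.ord t) 0
  have h4 := le_max_right (- P.ord t) 0
  nlinarith

theorem F2_count {t : F} (ht : t ∉ (algebraMap κ F).range) {ι : Type} [Fintype ι] (y : ι → F)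
    (hy : LinearIndependent κ⟮t⟯ y) (C : Dv κ F) (h : ∀ i, y i ∈ LL C) (m : ℕ) :
    (m + 1) * Fintype.card ι ≤ ell (m • dinf κ t + C) := by
  haveI := F2_finite (m • dinf κ t + C)
  have h1 : LinearIndependent κ fun i : ℕ => t ^ i := by
    have h2 := (Polynomial.basisMonomials κ).linearIndependent.map'
      (Polynomial.aeval t : Polynomial κ →ₐ[κ] F).toLinearMap
      (LinearMap.ker_eq_bot.2 (transcendental_iff_injective.1 (transcendental_of_notMem ht)))
    have h3 : (fun i : ℕ => t ^ i) = (Polynomial.aeval t : Polynomial κ →ₐ[κ] F).toLinearMap ∘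
        Polynomial.basisMonomials κ := by
      ext i
      simp
    rw [h3]
    exact h2
  have h2 : LinearIndependent κ fun i : Fin (m + 1) =>
      (IntermediateField.AdjoinSimple.gen κ t) ^ (i : ℕ) := by
    refine LinearIndependent.of_comp (κ⟮t⟯).val.toLinearMap ?_
    exact h1.comp (fun i : Fin (m + 1) => (i : ℕ)) Fin.val_injective
  have h3 := linearIndependent_smul h2 hy
  have h4 : ∀ p : Fin (m + 1) × ι,
      (IntermediateField.AdjoinSimple.gen κ t) ^ (p.1 : ℕ) • y p.2 ∈ LL (m • dinf κ t + C) := by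
    intro p
    rw [IntermediateField.smul_def, smul_eq_mul]
    exact mul_mem_LL (F2_pow_mem t (Nat.lt_succ_iff.1 p.1.2)) (h p.2)
  have h5 : LinearIndependent κ fun p : Fin (m + 1) × ι =>
      (⟨_, h4 p⟩ : LL (m • dinf κ t + C)) :=
    LinearIndependent.of_comp (LL (m • dinf κ t + C)).subtype h3
  have h6 := h5.fintype_card_le_finrank
  rwa [Fintype.card_prod, Fintype.card_fin] at h6

theorem F2_exists_basis {t : F} (ht : t ∉ (algebraMap κ F).range) :
    ∃ (y : Fin (Module.finrank κ⟮t⟯ F) → F) (C : Dv κ F), LinearIndependent κ⟮t⟯ y ∧ 0 ≤ C ∧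
      ∀ i, y i ∈ LL C := by
  haveI := finiteDimensional_of_transcendental (transcendental_of_notMem ht)
  let b := Module.finBasis κ⟮t⟯ F
  refine ⟨b, ∑ i, dinf κ (b i), b.linearIndependent,
    Finset.sum_nonneg fun i _ => F2_dinf_nonneg _, fun i => ?_⟩
  exact LL_mono (Finset.single_le_sum (f := fun i => dinf κ (b i))
    (fun i _ => F2_dinf_nonneg _) (Finset.mem_univ i)) (mem_LL_dinf (b i))

theorem F2_deg_dinf {t : F} (ht : t ∉ (algebraMap κ F).range) :
    deg (dinf κ t) = Module.finrank κ⟮t⟯ F := by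
  refine le_antisymm (F2_deg_dinf_le ht) ?_
  obtain ⟨y, C, hy, hC, h⟩ := F2_exists_basis ht
  have hC0 := F2_deg_nonneg hC
  obtain ⟨m, hm⟩ : ∃ m : ℕ, (m : ℤ) = deg C + 2 := ⟨(deg C + 2).toNat, by omega⟩
  have h1 := F2_count ht y hy C h m
  have h2 := F2_ell_add_le 0 (add_nonneg (nsmul_nonneg (F2_dinf_nonneg t) m) hC)
  rw [zero_add, F2_ell_zero, deg_add, deg_nsmul] at h2
  rw [Fintype.card_fin] at h1
  have h3 : ((m : ℤ) + 1) * (Module.finrank κ⟮t⟯ F : ℤ) ≤ ell (m • dinf κ t + C) := by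
    exact_mod_cast h1
  have h4 : (0 : ℤ) ≤ (Module.finrank κ⟮t⟯ F : ℤ) := by positivity
  by_contra h5
  have h6 : deg (dinf κ t) + 1 ≤ (Module.finrank κ⟮t⟯ F : ℤ) := not_le.1 h5
  have h7 : (0 : ℤ) ≤ m := by positivity
  push_cast at h2
  nlinarith

theorem F2_deg_dv (f : F) : deg (dv κ f) = 0 := by
  by_cases hf : f ∈ (algebraMap κ F).range
  · obtain ⟨c, rfl⟩ := hf
    rw [dv_algebraMap, deg_zero]
  have hf' : f⁻¹ ∉ (algebraMap κ F).range := by
    rintro ⟨c, hc⟩
    exact hf ⟨c⁻¹, by rw [map_inv₀, hc, inv_inv]⟩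
  have h1 : dv κ f = dinf κ f⁻¹ - dinf κ f := by
    ext P
    rw [Finsupp.sub_apply, dinf_apply, dinf_apply, dv_apply, P.ord_inv]
    omega
  have h2 : κ⟮f⁻¹⟯ = κ⟮f⟯ := by
    apply le_antisymm
    · rw [IntermediateField.adjoin_simple_le_iff]
      exact inv_mem (IntermediateField.mem_adjoin_simple_self κ f)
    · rw [IntermediateField.adjoin_simple_le_iff]
      have h3 := inv_mem (IntermediateField.mem_adjoin_simple_self κ f⁻¹)
      rwa [inv_inv] at h3
  rw [h1, deg_sub, F2_deg_dinf hf, F2_deg_dinf hf',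
    congrArg (fun K : IntermediateField κ F => Module.finrank K F) h2, sub_self]

/-- the quantity `deg D - ell D` is monotone up to linear equivalence -/
theorem F2_r_mono {D E : Dv κ F} {f : F} (hf : f ≠ 0) (h : D ≤ E + dv κ f) :
    deg D - ell D ≤ deg E - ell E := by
  have h1 := F2_ell_add_le D (sub_nonneg.2 h)
  rw [add_sub_cancel, F2_ell_add_dv E hf, deg_sub, deg_add, F2_deg_dv] at h1
  omega

theorem F2_exists_ne {D : Dv κ F} (h : 0 < ell D) : ∃ f ∈ LL D, f ≠ 0 := by
  by_contra h1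
  push Not at h1
  have h2 : LL D = ⊥ := (Submodule.eq_bot_iff _).2 h1
  unfold ell at h
  rw [h2, finrank_bot] at h
  exact lt_irrefl _ h

theorem F2_bound {t : F} (ht : t ∉ (algebraMap κ F).range) {ι : Type} [Fintype ι] (y : ι → F)
    (hy : LinearIndependent κ⟮t⟯ y) (hc : Fintype.card ι = Module.finrank κ⟮t⟯ F) (C : Dv κ F)
    (h : ∀ i, y i ∈ LL C) (D : Dv κ F) : deg D + 1 - ell D ≤ deg C := by
  haveI := finiteDimensional_of_transcendental (transcendental_of_notMem ht)
  have hn : 1 ≤ (Module.finrank κ⟮t⟯ F : ℤ) := by exact_mod_cast Module.finrank_pos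
  have h1 : ∀ m : ℕ, deg (m • dinf κ t + C) - ell (m • dinf κ t + C) ≤ deg C - 1 := by
    intro m
    have h2 := F2_count ht y hy C h m
    rw [hc] at h2
    have h3 : ((m : ℤ) + 1) * (Module.finrank κ⟮t⟯ F : ℤ) ≤ ell (m • dinf κ t + C) := by
      exact_mod_cast h2
    rw [deg_add, deg_nsmul, F2_deg_dinf ht]
    nlinarith
  have hD : (0 : Dv κ F) ≤ D ⊔ 0 := le_sup_right
  have hD0 := F2_deg_nonneg hD
  obtain ⟨m, hm⟩ : ∃ m : ℕ, (m : ℤ) = deg (D ⊔ 0) := ⟨(deg (D ⊔ 0)).toNat, by omega⟩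
  have h4 := F2_r_mono (D := m • dinf κ t + C - (D ⊔ 0)) (E := m • dinf κ t + C) one_ne_zero (by
    rw [← map_one (algebraMap κ F), dv_algebraMap, add_zero]
    exact sub_le_self _ hD)
  have h5 := h1 m
  rw [deg_sub, deg_add, deg_nsmul, F2_deg_dinf ht] at h4
  rw [deg_add, deg_nsmul, F2_deg_dinf ht] at h5
  have h6 : (0 : ℤ) ≤ m := by positivity
  have h7 : 0 < ell (m • dinf κ t + C - (D ⊔ 0)) := by
    have : (0 : ℤ) < ell (m • dinf κ t + C - (D ⊔ 0)) := by nlinarith
    exact_mod_cast this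
  obtain ⟨f, hf, hf0⟩ := F2_exists_ne h7
  rw [mem_LL_iff hf0, sub_add_eq_add_sub, sub_nonneg] at hf
  have h8 := F2_r_mono hf0 (le_sup_left.trans hf)
  have h9 := h1 m
  omega

end Pool.Agent.E6b

end

section
open scoped NNReal TensorProduct IntermediateField BigOperators Classical Topology
open Filter

namespace Pool.Agent.E6b
variable {κ F : Type} [Field κ] [IsAlgClosed κ] [CharZero κ] [Field F] [Algebra κ F] [IsFF κ F]

theorem deg_dv (f : F) : deg (dv κ f) = 0 := F2_deg_dv f

theorem LinEq.deg {D E : Dv κ F} (h : LinEq D E) : deg D = deg E := by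
  obtain ⟨f, -, rfl⟩ := h
  rw [deg_add, deg_dv, add_zero]

theorem LinEq.ell {D E : Dv κ F} (h : LinEq D E) : ell D = ell E := by
  obtain ⟨f, hf, rfl⟩ := h
  exact (F2_ell_add_dv D hf).symm

instance instFiniteLL (D : Dv κ F) : Module.Finite κ (LL D) := F2_finite D

theorem ell_zero : ell (0 : Dv κ F) = 1 := F2_ell_zero

theorem ell_mono {D E : Dv κ F} (h : D ≤ E) : ell D ≤ ell E :=
  Submodule.finrank_mono (LL_mono h)

theorem LL_eq_bot {D : Dv κ F} (h : deg D < 0) : LL D = ⊥ := by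
  rw [Submodule.eq_bot_iff]
  intro f hf
  by_contra h0
  have h1 := F2_deg_nonneg ((mem_LL_iff h0).1 hf)
  rw [deg_add, deg_dv] at h1
  omega

theorem ell_eq_zero_iff {D : Dv κ F} : ell D = 0 ↔ LL D = ⊥ :=
  Submodule.finrank_eq_zero

theorem ell_add_pd_le (D : Dv κ F) (P : Place κ F) : ell (D + pd P) ≤ ell D + 1 := by
  have h := (F2_step (D + pd P) P (F2_finite _)).2
  rwa [add_sub_cancel_right] at h

theorem ell_sub_pd_lt_iff (D : Dv κ F) (P : Place κ F) :
    ell (D - pd P) < ell D ↔ ∃ f ∈ LL D, f ≠ 0 ∧ P.ord f = - D P := by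
  have hle := LL_mono (F2_sub_pd_le D P)
  constructor
  · intro h
    have h1 : LL (D - pd P) < LL D := lt_of_le_of_ne hle fun h1 => by
      unfold ell at h
      rw [h1] at h
      exact lt_irrefl _ h
    obtain ⟨f, hf, hf'⟩ := SetLike.exists_of_lt h1
    exact ⟨f, hf, (F2_notMem_sub_pd hf).1 hf'⟩
  · rintro ⟨f, hf, hf'⟩
    exact Submodule.finrank_lt_finrank_of_lt (lt_of_le_of_ne hle fun h1 =>
      (F2_notMem_sub_pd hf).2 hf' (h1 ▸ hf))

theorem F2_bdd : BddAbove {n : ℕ | ∃ D : Dv κ F, (n : ℤ) = deg D + 1 - ell D} := by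
  obtain ⟨t, ht, -⟩ := IsFF.ex (κ := κ) (F := F)
  have ht' : t ∉ (algebraMap κ F).range := by
    rintro ⟨c, rfl⟩
    exact ht (isAlgebraic_algebraMap c)
  obtain ⟨y, C, hy, -, h⟩ := F2_exists_basis ht'
  refine ⟨(deg C).toNat, ?_⟩
  rintro n ⟨D, hD⟩
  have h1 := F2_bound ht' y hy (Fintype.card_fin _) C h D
  omega

theorem F2_nonempty : {n : ℕ | ∃ D : Dv κ F, (n : ℤ) = deg D + 1 - ell D}.Nonempty :=
  ⟨0, 0, by rw [deg_zero, ell_zero]; rfl⟩

/-- Riemann's inequality -/
theorem riemann (D : Dv κ F) : deg D + 1 - genus κ F ≤ ell D := by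
  by_cases h : 0 ≤ deg D + 1 - ell D
  · have h1 : (deg D + 1 - ell D).toNat ≤ genus κ F :=
      le_csSup F2_bdd ⟨D, Int.toNat_of_nonneg h⟩
    omega
  · omega

theorem exists_ell_eq : ∃ D : Dv κ F, (ell D : ℤ) = deg D + 1 - genus κ F := by
  obtain ⟨D, hD⟩ := Nat.sSup_mem (F2_nonempty (κ := κ) (F := F)) F2_bdd
  refine ⟨D, ?_⟩
  change (genus κ F : ℤ) = _ at hD
  omega

theorem exists_rr_large : ∃ c : ℤ, ∀ D : Dv κ F, c ≤ deg D →
    (ell D : ℤ) = deg D + 1 - genus κ F := by
  obtain ⟨D0, hD0⟩ := exists_ell_eq (κ := κ) (F := F)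
  refine ⟨deg D0 + genus κ F, fun D hD => ?_⟩
  have h1 := riemann (D - D0)
  rw [deg_sub] at h1
  obtain ⟨f, hf, hf0⟩ := F2_exists_ne (D := D - D0) (by omega)
  rw [mem_LL_iff hf0, sub_add_eq_add_sub, sub_nonneg] at hf
  have h2 := F2_r_mono hf0 hf
  have h3 := riemann D
  omega

end Pool.Agent.E6b

end

section
open scoped NNReal TensorProduct IntermediateField BigOperators Classical Topology
open Filter

namespace Pool.Agent.E6b

/-- adding one vector outside a subspace lowers the codimension by one -/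
theorem F3_codim_step {K V : Type*} [Field K] [AddCommGroup V] [Module K V] (U : Submodule K V)
    {e : V} (he : e ∉ U) [Module.Finite K (V ⧸ (U ⊔ K ∙ e))] :
    Module.Finite K (V ⧸ U) ∧
      Module.finrank K (V ⧸ U) = Module.finrank K (V ⧸ (U ⊔ K ∙ e)) + 1 := by
  have hm : (U ⊔ K ∙ e).map U.mkQ = K ∙ (U.mkQ e) := by
    rw [Submodule.map_sup, Submodule.map_span, Set.image_singleton]
    have : U.map U.mkQ = ⊥ := by
      rw [eq_bot_iff, Submodule.map_le_iff_le_comap]
      intro x hx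
      simpa using hx
    rw [this, bot_sup_eq]
  have eq := Submodule.quotientQuotientEquivQuotient U (U ⊔ K ∙ e) le_sup_left
  rw [hm] at eq
  have hne : U.mkQ e ≠ 0 := by simpa using he
  have : Module.Finite K ((V ⧸ U) ⧸ (K ∙ (U.mkQ e))) := Module.Finite.equiv eq.symm
  have : Module.Finite K (V ⧸ U) := Module.Finite.of_submodule_quotient (K ∙ (U.mkQ e))
  refine ⟨this, ?_⟩
  rw [← Submodule.finrank_quotient_add_finrank (K ∙ (U.mkQ e)), finrank_span_singleton hne,
    eq.finrank_eq]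
variable {κ F : Type} [Field κ] [IsAlgClosed κ] [CharZero κ] [Field F] [Algebra κ F] [IsFF κ F]

theorem F3_pd_apply (P Q : Place κ F) : pd P Q = if P = Q then 1 else 0 := by
  simp [pd, Finsupp.single_apply]

theorem F3_pd_nonneg (P : Place κ F) : 0 ≤ pd P := by
  intro Q
  rw [F3_pd_apply]
  split_ifs <;> simp

/-- downward induction on divisors -/
theorem F3_down (p : Dv κ F → Prop) (E : Dv κ F)
    (h : ∀ D, E ≤ D → ∀ P, p (D + pd P) → p D) {G : Dv κ F} (hG : E ≤ G) (hp : p G) : p E := by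
  have key : ∀ n : ℕ, ∀ G : Dv κ F, E ≤ G → deg G - deg E = n → p G → p E := by
    intro n
    induction n with
    | zero =>
      intro G hG hn hp
      rwa [eq_of_le_of_deg_le hG (by push_cast at hn; omega)]
    | succ n ih =>
      intro G hG hn hp
      have : ∃ P, E P < G P := by
        by_contra hc
        push Not at hc
        have : G ≤ E := fun P => hc P
        have := deg_mono this
        push_cast at hn; omega
      obtain ⟨P, hP⟩ := this
      have hle : E ≤ G - pd P := by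
        intro Q
        have := hG Q
        simp only [Finsupp.coe_sub, Pi.sub_apply, F3_pd_apply]
        split_ifs with hq
        · subst hq; omega
        · simpa using this
      refine ih (G - pd P) hle ?_ (h _ hle P (by simpa using hp))
      rw [deg_sub, deg_pd]; push_cast at hn; omega
  have := deg_mono hG
  exact key (deg G - deg E).toNat G hG (by omega) hp

/-- the condition `ord x ≥ n`, with `ord 0 = ∞` -/
def F3ge (P : Place κ F) (n : ℤ) (x : F) : Prop := x = 0 ∨ n ≤ P.ord x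

theorem F3ge.add {P : Place κ F} {n : ℤ} {x y : F} (hx : F3ge P n x) (hy : F3ge P n y) :
    F3ge P n (x + y) := by
  by_cases h0 : x + y = 0
  · exact Or.inl h0
  by_cases hx0 : x = 0
  · simpa [hx0] using hy
  by_cases hy0 : y = 0
  · simpa [hy0] using hx
  exact Or.inr (le_trans (le_min (hx.resolve_left hx0) (hy.resolve_left hy0))
    (P.ord_add_ge hx0 hy0 h0))

theorem F3ge.mul {P : Place κ F} {n m : ℤ} {x y : F} (hx : F3ge P n x) (hy : F3ge P m y) :
    F3ge P (n + m) (x * y) := by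
  by_cases hx0 : x = 0
  · exact Or.inl (by simp [hx0])
  by_cases hy0 : y = 0
  · exact Or.inl (by simp [hy0])
  refine Or.inr ?_
  rw [P.ord_mul hx0 hy0]
  exact add_le_add (hx.resolve_left hx0) (hy.resolve_left hy0)

theorem F3ge.mono {P : Place κ F} {n m : ℤ} {x : F} (hx : F3ge P n x) (h : m ≤ n) :
    F3ge P m x := hx.imp id fun h' => h.trans h'

theorem F3ge.smul {P : Place κ F} {n : ℤ} {x : F} (hx : F3ge P n x) (c : κ) :
    F3ge P n (c • x) := by
  have : F3ge P 0 (algebraMap κ F c) := Or.inr (P.ord_algebraMap c).ge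
  have h := this.mul hx
  rwa [zero_add, ← Algebra.smul_def] at h

theorem F3ge.neg {P : Place κ F} {n : ℤ} {x : F} (hx : F3ge P n x) : F3ge P n (-x) := by
  simpa using hx.smul (-1 : κ)

theorem F3ge_self (P : Place κ F) (x : F) : F3ge P (P.ord x) x := Or.inr le_rfl

theorem F3ge_zero (P : Place κ F) (n : ℤ) : F3ge P n (0 : F) := Or.inl rfl

theorem F3_mem_LL {D : Dv κ F} {f : F} : f ∈ LL D ↔ ∀ P : Place κ F, F3ge P (- D P) f := by
  rw [mem_LL]
  constructor
  · rintro (h | h) P
    · exact Or.inl h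
    · exact Or.inr (h P)
  · intro h
    by_cases hf : f = 0
    · exact Or.inl hf
    · exact Or.inr fun P => (h P).resolve_left hf

/-- if `ord x ≥ n` and `ord π = n` then `x - c π` has larger order for some constant `c` -/
theorem F3ge.exists_sub {P : Place κ F} {n : ℤ} {x π : F} (hx : F3ge P n x) (hπ : π ≠ 0)
    (h : P.ord π = n) : ∃ c : κ, F3ge P (n + 1) (x - c • π) := by
  have h1 : F3ge P 0 (x / π) := by
    have := hx.mul (F3ge_self P π⁻¹)
    rw [P.ord_inv, h, add_neg_cancel] at this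
    rwa [div_eq_mul_inv]
  have h2 : x / π ∈ P.O := by
    rw [P.mem_iff]
    rcases h1 with h1 | h1
    · rw [h1, P.ord_zero]
    · exact h1
  refine ⟨P.ev (x / π), ?_⟩
  have h3 : F3ge P 1 (x / π - algebraMap κ F (P.ev (x / π))) := by
    rcases P.ev_spec h2 with h3 | h3
    · exact Or.inl (sub_eq_zero.2 h3)
    · exact Or.inr h3
  have h4 := h3.mul (F3ge_self P π)
  rw [h, add_comm, sub_mul, div_mul_cancel₀ _ hπ, ← Algebra.smul_def] at h4
  exact h4

variable (κ F) in
/-- adeles -/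
def F3A : Submodule F (Place κ F → F) where
  carrier := {α | ∃ D : Dv κ F, ∀ P, F3ge P (- D P) (α P)}
  zero_mem' := ⟨0, fun P => F3ge_zero P _⟩
  add_mem' := by
    rintro a b ⟨D, hD⟩ ⟨E, hE⟩
    refine ⟨D ⊔ E, fun P => F3ge.add ((hD P).mono ?_) ((hE P).mono ?_)⟩
    · simp [Finsupp.sup_apply]
    · simp [Finsupp.sup_apply]
  smul_mem' := by
    rintro c a ⟨D, hD⟩
    refine ⟨D - dv κ c, fun P => ((F3ge_self P c).mul (hD P)).mono ?_⟩
    simp only [Finsupp.coe_sub, Pi.sub_apply, dv_apply]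
    omega

/-- adeles bounded by a divisor -/
def F3AD (D : Dv κ F) : Submodule κ (F3A κ F) where
  carrier := {α | ∀ P, F3ge P (- D P) (α.1 P)}
  zero_mem' := fun P => F3ge_zero P _
  add_mem' := fun ha hb P => (ha P).add (hb P)
  smul_mem' := fun c _ ha P => (ha P).smul c

theorem F3AD_mono {D E : Dv κ F} (h : D ≤ E) : F3AD D ≤ F3AD E :=
  fun _ ha P => (ha P).mono (neg_le_neg (h P))

variable (κ) in
/-- principal adeles -/
noncomputable def F3dg : F →ₗ[κ] F3A κ F where
  toFun f := ⟨fun _ => f, dinf κ f, fun P => (F3_mem_LL.1 (mem_LL_dinf f)) P⟩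
  map_add' _ _ := rfl
  map_smul' _ _ := rfl

/-- an adele supported at one place -/
noncomputable def F3one (P : Place κ F) (x : F) : F3A κ F :=
  ⟨Pi.single P x, Finsupp.single P (- P.ord x), fun Q => by
    by_cases h : Q = P
    · subst h; simpa using F3ge_self Q x
    · simpa [Pi.single_apply, h] using F3ge_zero Q _⟩

theorem F3one_apply (P Q : Place κ F) (x : F) : (F3one P x).1 Q = if Q = P then x else 0 := by
  simp [F3one, Pi.single_apply]

noncomputable def F3B (D : Dv κ F) : Submodule κ (F3A κ F) := F3AD D ⊔ LinearMap.range (F3dg κ)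

theorem F3AD_step (D : Dv κ F) (P : Place κ F) {π : F} (hπ : π ≠ 0) (h : P.ord π = - D P - 1) :
    F3AD (D + pd P) = F3AD D ⊔ κ ∙ F3one P π := by
  apply le_antisymm
  · intro α hα
    have h1 : F3ge P (- D P - 1) (α.1 P) := (hα P).mono (by simp [F3_pd_apply]; omega)
    obtain ⟨c, hc⟩ := h1.exists_sub hπ h
    have : α = (α - c • F3one P π) + c • F3one P π := by abel
    rw [this]
    refine Submodule.add_mem_sup (fun Q => ?_)
      (Submodule.smul_mem _ _ (Submodule.mem_span_singleton_self _))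
    have e : (α - c • F3one P π).1 Q = α.1 Q - c • (F3one P π).1 Q := rfl
    rw [e, F3one_apply]
    split_ifs with hq
    · subst hq; simpa using hc
    · have := hα Q
      simpa [F3_pd_apply, Ne.symm hq] using this
  · refine sup_le (F3AD_mono (le_add_of_nonneg_right (F3_pd_nonneg P))) ?_
    rw [Submodule.span_singleton_le_iff_mem]
    intro Q
    rw [F3one_apply]
    split_ifs with hq
    · subst hq; exact Or.inr (by simp [F3_pd_apply, h])
    · exact F3ge_zero _ _

theorem F3B_step (D : Dv κ F) (P : Place κ F) {π : F} (hπ : π ≠ 0) (h : P.ord π = - D P - 1) :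
    F3B (D + pd P) = F3B D ⊔ κ ∙ F3one P π := by
  rw [F3B, F3B, F3AD_step D P hπ h, sup_right_comm]

theorem F3one_mem_iff (D : Dv κ F) (P : Place κ F) {π : F} (hπ : π ≠ 0)
    (h : P.ord π = - D P - 1) : F3one P π ∈ F3B D ↔ ell D < ell (D + pd P) := by
  have key := ell_sub_pd_lt_iff (D + pd P) P
  rw [add_sub_cancel_right] at key
  have hP : (D + pd P) P = D P + 1 := by simp [F3_pd_apply]
  rw [key, hP]
  constructor
  · intro hm
    obtain ⟨α, hα, β, ⟨f, rfl⟩, hab⟩ := Submodule.mem_sup.1 hm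
    have hq : ∀ Q, f = (if Q = P then π else 0) + - α.1 Q := by
      intro Q
      rw [← F3one_apply, ← hab]
      change f = α.1 Q + f + - α.1 Q
      ring
    have hfP : f ≠ 0 ∧ P.ord f = P.ord π := by
      have h1 := hq P
      rw [if_pos rfl] at h1
      rw [h1]
      refine P.ord_add_eq hπ ?_
      rcases (hα P).neg with h2 | h2
      · exact Or.inl h2
      · exact Or.inr (by omega)
    refine ⟨f, F3_mem_LL.2 fun Q => ?_, hfP.1, by rw [hfP.2, h]; ring⟩
    by_cases hQ : Q = P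
    · subst hQ
      exact Or.inr (by rw [hfP.2, h, hP]; omega)
    · have h1 := hq Q
      rw [if_neg hQ, zero_add] at h1
      rw [h1]
      simpa [F3_pd_apply, Ne.symm hQ] using (hα Q).neg
  · rintro ⟨f, hf, hf0, hfP⟩
    obtain ⟨c, hc⟩ := (show F3ge P (- D P - 1) π from Or.inr h.ge).exists_sub hf0
      (by rw [hfP]; ring)
    have : F3one P π = (F3one P π - c • F3dg κ f) + F3dg κ (c • f) := by
      rw [map_smul]; abel
    rw [this]
    refine Submodule.add_mem_sup (fun Q => ?_) ⟨_, rfl⟩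
    have e : (F3one P π - c • F3dg κ f).1 Q = (F3one P π).1 Q - c • f := rfl
    rw [e, F3one_apply]
    split_ifs with hq
    · subst hq; simpa using hc
    · have := ((F3_mem_LL.1 hf Q).smul c).neg
      simpa [F3_pd_apply, Ne.symm hq] using this

theorem F3B_eq_top : ∃ c : ℤ, ∀ D : Dv κ F, c ≤ deg D → F3B D = ⊤ := by
  obtain ⟨c, hc⟩ := exists_rr_large (κ := κ) (F := F)
  refine ⟨c, fun E hE => ?_⟩
  rw [eq_top_iff]
  rintro ⟨α, D', hD'⟩ -
  refine F3_down (fun D => (⟨α, D', hD'⟩ : F3A κ F) ∈ F3B D) E ?_ (G := E ⊔ D') le_sup_left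
    (Submodule.mem_sup_left (F3AD_mono le_sup_right hD'))
  intro D hD P hp
  obtain ⟨π, hπ, h⟩ := P.exists_ord_eq (- D P - 1)
  have h1 := hc D (hE.trans (deg_mono hD))
  have h2 := hc (D + pd P) (by rw [deg_add, deg_pd]; have := deg_mono hD; omega)
  rw [deg_add, deg_pd] at h2
  have h3 : F3one P π ∈ F3B D := (F3one_mem_iff D P hπ h).2 (by omega)
  rw [F3B_step D P hπ h, sup_eq_left.2 ((Submodule.span_singleton_le_iff_mem _ _).2 h3)] at hp
  exact hp

theorem F3_exists_ge (D : Dv κ F) (c : ℤ) : ∃ G : Dv κ F, D ≤ G ∧ c ≤ deg G := by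
  obtain ⟨P⟩ : Nonempty (Place κ F) := inferInstance
  refine ⟨D + Finsupp.single P (max 0 (c - deg D)), le_add_of_nonneg_right ?_, ?_⟩
  · intro Q
    simp only [Finsupp.coe_zero, Pi.zero_apply, Finsupp.single_apply]
    split_ifs <;> simp
  · rw [deg_add, deg_single]; omega

/-- the index of speciality is the codimension of `A(D) + F` -/
theorem F3_codim (D : Dv κ F) : Module.Finite κ (F3A κ F ⧸ F3B D) ∧
    (Module.finrank κ (F3A κ F ⧸ F3B D) : ℤ) = ell D - deg D - 1 + genus κ F := by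
  obtain ⟨c, hc⟩ := exists_rr_large (κ := κ) (F := F)
  obtain ⟨c', hc'⟩ := F3B_eq_top (κ := κ) (F := F)
  obtain ⟨G, hG, hd⟩ := F3_exists_ge D (max c c')
  refine F3_down (fun D => Module.Finite κ (F3A κ F ⧸ F3B D) ∧
    (Module.finrank κ (F3A κ F ⧸ F3B D) : ℤ) = ell D - deg D - 1 + genus κ F) D ?_ hG ?_
  · rintro E - P ⟨h1, h2⟩
    obtain ⟨π, hπ, h⟩ := P.exists_ord_eq (- E P - 1)
    rw [F3B_step E P hπ h] at h1 h2
    rw [deg_add, deg_pd] at h2
    have h3 := ell_add_pd_le E P
    have h4 := ell_mono (le_add_of_nonneg_right (F3_pd_nonneg P) : E ≤ E + pd P)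
    by_cases he : F3one P π ∈ F3B E
    · have h5 := (F3one_mem_iff E P hπ h).1 he
      rw [sup_eq_left.2 ((Submodule.span_singleton_le_iff_mem _ _).2 he)] at h1 h2
      exact ⟨h1, by omega⟩
    · have h5 := mt (F3one_mem_iff E P hπ h).2 he
      obtain ⟨h6, h7⟩ := F3_codim_step (F3B E) he
      exact ⟨h6, by omega⟩
  · have h1 := hc G ((le_max_left _ _).trans hd)
    have h2 := hc' G ((le_max_right _ _).trans hd)
    rw [h2]
    have : Subsingleton (F3A κ F ⧸ (⊤ : Submodule κ (F3A κ F))) := inferInstance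
    exact ⟨inferInstance, by rw [Module.finrank_zero_of_subsingleton]; omega⟩

end Pool.Agent.E6b

end

section
open scoped NNReal TensorProduct IntermediateField BigOperators Classical Topology
open Filter

namespace Pool.Agent.E6b
variable {κ F : Type} [Field κ] [IsAlgClosed κ] [CharZero κ] [Field F] [Algebra κ F] [IsFF κ F]

/-- Weil differentials bounded by a divisor -/
noncomputable def F3Om (D : Dv κ F) : Submodule κ (Module.Dual κ (F3A κ F)) :=
  (F3B D).dualAnnihilator

theorem F3_mem_Om {D : Dv κ F} {ω : Module.Dual κ (F3A κ F)} :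
    ω ∈ F3Om D ↔ (∀ α ∈ F3AD D, ω α = 0) ∧ ∀ f : F, ω (F3dg κ f) = 0 := by
  rw [F3Om, Submodule.mem_dualAnnihilator]
  constructor
  · intro h
    exact ⟨fun α hα => h α (Submodule.mem_sup_left hα),
      fun f => h _ (Submodule.mem_sup_right ⟨f, rfl⟩)⟩
  · rintro ⟨h1, h2⟩ w hw
    obtain ⟨α, hα, β, ⟨f, rfl⟩, rfl⟩ := Submodule.mem_sup.1 hw
    rw [map_add, h1 α hα, h2, add_zero]

theorem F3Om_finrank (D : Dv κ F) : Module.Finite κ (F3Om D) ∧
    (Module.finrank κ (F3Om D) : ℤ) = ell D - deg D - 1 + genus κ F := by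
  obtain ⟨h1, h2⟩ := F3_codim D
  refine ⟨Submodule.finite_dualAnnihilator_iff.2 h1, ?_⟩
  rw [← h2, F3Om, ← (F3B D).dualQuotEquivDualAnnihilator.finrank_eq, Subspace.dual_finrank_eq]

/-- the action of functions on a differential -/
noncomputable def F3act (ω : Module.Dual κ (F3A κ F)) : F →ₗ[κ] Module.Dual κ (F3A κ F) where
  toFun f :=
    { toFun := fun α => ω (f • α)
      map_add' := fun a b => by rw [smul_add, map_add]
      map_smul' := fun c a => by rw [smul_comm f c a, map_smul]; rfl }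
  map_add' f g := by
    ext α
    change ω ((f + g) • α) = ω (f • α) + ω (g • α)
    rw [add_smul, map_add]
  map_smul' c f := by
    ext α
    change ω ((c • f) • α) = c • ω (f • α)
    rw [smul_assoc, map_smul]

theorem F3act_apply (ω : Module.Dual κ (F3A κ F)) (f : F) (α : F3A κ F) :
    F3act ω f α = ω (f • α) := rfl

theorem F3act_mul (ω : Module.Dual κ (F3A κ F)) (f g : F) :
    F3act (F3act ω f) g = F3act ω (f * g) := by
  ext α
  rw [F3act_apply, F3act_apply, F3act_apply, mul_smul]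

theorem F3act_one (ω : Module.Dual κ (F3A κ F)) : F3act ω 1 = ω := by
  ext α
  rw [F3act_apply, one_smul]

theorem F3act_zero (f : F) : F3act (0 : Module.Dual κ (F3A κ F)) f = 0 := by
  ext α
  rfl

theorem F3act_eq_zero {ω : Module.Dual κ (F3A κ F)} (hω : ω ≠ 0) {f : F} (h : F3act ω f = 0) :
    f = 0 := by
  by_contra hf
  apply hω
  rw [← F3act_one ω, ← mul_inv_cancel₀ hf, ← F3act_mul, h, F3act_zero]

theorem F3act_mem {D E : Dv κ F} {ω : Module.Dual κ (F3A κ F)} (hω : ω ∈ F3Om D) {f : F}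
    (hf : f ∈ LL E) : F3act ω f ∈ F3Om (D - E) := by
  rw [F3_mem_Om] at hω ⊢
  refine ⟨fun α hα => hω.1 _ fun P => ?_, fun g => hω.2 (f * g)⟩
  refine ((F3_mem_LL.1 hf P).mul (hα P)).mono ?_
  simp

theorem F3Om_sup {D E : Dv κ F} {ω : Module.Dual κ (F3A κ F)} (hD : ω ∈ F3Om D)
    (hE : ω ∈ F3Om E) : ω ∈ F3Om (D ⊔ E) := by
  rw [F3_mem_Om] at hD hE ⊢
  refine ⟨fun α hα => ?_, hD.2⟩
  have h1 : ∀ P, F3ge P (- D P) (if E P ≤ D P then α.1 P else 0) := by
    intro P
    split_ifs with h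
    · have := hα P
      rwa [Finsupp.sup_apply, sup_eq_left.2 h] at this
    · exact F3ge_zero _ _
  let β : F3A κ F := ⟨fun P => if E P ≤ D P then α.1 P else 0, D, h1⟩
  have h2 : α - β ∈ F3AD E := by
    intro P
    change F3ge P (- E P) (α.1 P - if E P ≤ D P then α.1 P else 0)
    split_ifs with h
    · rw [sub_self]; exact F3ge_zero _ _
    · have := hα P
      rwa [Finsupp.sup_apply, sup_eq_right.2 (not_le.1 h).le, ← sub_zero (α.1 P)] at this
  have : α = β + (α - β) := by abel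
  rw [this, map_add, hD.1 β h1, hE.1 _ h2, add_zero]

/-- the divisor of a differential -/
theorem F3_exists_max {D : Dv κ F} {ω : Module.Dual κ (F3A κ F)} (hD : ω ∈ F3Om D) (hne : ω ≠ 0) :
    ∃ W : Dv κ F, ω ∈ F3Om W ∧ ∀ E, ω ∈ F3Om E → E ≤ W := by
  obtain ⟨c, hc⟩ := F3B_eq_top (κ := κ) (F := F)
  obtain ⟨n, ⟨W, hW, rfl⟩, hmax⟩ := Int.exists_greatest_of_bdd
    (P := fun n => ∃ E : Dv κ F, ω ∈ F3Om E ∧ deg E = n)
    ⟨c, by
      rintro _ ⟨E, hE, rfl⟩
      by_contra h
      rw [F3Om, hc E (not_le.1 h).le, Submodule.dualAnnihilator_top, Submodule.mem_bot] at hE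
      exact hne hE⟩ ⟨_, D, hD, rfl⟩
  refine ⟨W, hW, fun E hE => ?_⟩
  have h1 := hmax _ ⟨_, F3Om_sup hW hE, rfl⟩
  have h2 := eq_of_le_of_deg_le (le_sup_left : W ≤ W ⊔ E) h1
  rw [h2]
  exact le_sup_right

end Pool.Agent.E6b

end

section
open scoped NNReal TensorProduct IntermediateField BigOperators Classical Topology
open Filter

namespace Pool.Agent.E6b
variable {κ F : Type} [Field κ] [IsAlgClosed κ] [CharZero κ] [Field F] [Algebra κ F] [IsFF κ F]

theorem canonical_deg {W : Dv κ F} (hW : ∀ D : Dv κ F,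
    (ell (W - D) : ℤ) = ell D - deg D - 1 + genus κ F) :
    deg W = 2 * genus κ F - 2 ∧ ell W = genus κ F := by
  have h0 := hW 0
  have h1 := hW W
  rw [sub_zero, ell_zero, deg_zero] at h0
  rw [sub_self, ell_zero] at h1
  omega

end Pool.Agent.E6b

end

section
open scoped NNReal TensorProduct IntermediateField BigOperators Classical Topology
open Filter

namespace Pool.Agent.E6b

section
variable {κ F : Type} [Field κ] [IsAlgClosed κ] [CharZero κ] [Field F] [Algebra κ F] [IsFF κ F]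

/-- functions regular outside `o` -/
def AA (o : Place κ F) : Subalgebra κ F where
  carrier := {f | ∀ P : Place κ F, P ≠ o → f ∈ P.O}
  mul_mem' := fun ha hb P hP => P.O.mul_mem _ _ (ha P hP) (hb P hP)
  add_mem' := fun ha hb P hP => P.O.add_mem _ _ (ha P hP) (hb P hP)
  algebraMap_mem' := fun c P _ => P.const c

/-- a basis of `AA o` adapted to the pole order at `o` -/
structure EBSpec (o : Place κ F) (b : Module.Basis ℕ κ (AA o)) (p : ℕ → ℕ) : Prop where
  zero : b 0 = 1
  ord : ∀ i, o.ord (b i : F) = - (p i : ℤ)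
  mono : StrictMono p
  large : ∀ i, genus κ F ≤ i → p i = i + genus κ F
  per : ∀ i, genus κ F ≤ i → b (i + (2 * genus κ F + 1)) = b i * b (genus κ F + 1)

end

end Pool.Agent.E6b

end

section
open scoped NNReal TensorProduct IntermediateField BigOperators Classical Topology
open Filter

namespace Pool.Agent.E6b
variable {κ F : Type} [Field κ] [IsAlgClosed κ] [CharZero κ] [Field F] [Algebra κ F] [IsFF κ F]

/-- pole numbers of a place -/
def O0_Pole (o : Place κ F) (n : ℕ) : Prop :=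
  ∃ f : AA o, (f : F) ≠ 0 ∧ o.ord (f : F) = - (n : ℤ)

omit [IsAlgClosed κ] [CharZero κ] [IsFF κ F] in
theorem O0_smul_pd (o Q : Place κ F) (n : ℕ) :
    (n • pd o : Dv κ F) Q = if o = Q then (n : ℤ) else 0 := by
  rw [Finsupp.smul_apply, F1_pd_apply]
  split_ifs <;> simp

theorem O0_pole_iff (o : Place κ F) (n : ℕ) :
    O0_Pole o (n + 1) ↔ ell (n • pd o) < ell ((n + 1) • pd o) := by
  have h := ell_sub_pd_lt_iff ((n + 1) • pd o) o
  rw [show ((n + 1) • pd o - pd o : Dv κ F) = n • pd o by rw [succ_nsmul, add_sub_cancel_right]]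
    at h
  rw [h]
  constructor
  · rintro ⟨f, hf0, hf⟩
    refine ⟨f, mem_LL.2 (Or.inr fun Q => ?_), hf0, ?_⟩
    · rw [O0_smul_pd]
      split_ifs with hQ
      · subst hQ; exact hf.ge
      · simpa using Q.mem_iff.1 (f.2 Q (Ne.symm hQ))
    · rw [O0_smul_pd, if_pos rfl, hf]
  · rintro ⟨f, hf, hf0, h1⟩
    refine ⟨⟨f, fun Q hQ => ?_⟩, hf0, ?_⟩
    · have := (mem_LL.1 hf).resolve_left hf0 Q
      rw [O0_smul_pd, if_neg (Ne.symm hQ)] at this
      exact Q.mem_iff.2 (by simpa using this)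
    · rw [O0_smul_pd, if_pos rfl] at h1
      exact h1

end Pool.Agent.E6b

end
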