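import Pool.Agent.E6c.A01
import Pool.Agent.E6c.A02

section
open scoped NNReal TensorProduct IntermediateField BigOperators Classical Topology
open Filter

namespace Pool.Agent.E6b

section
variable {κ F F' F'' : Type} [Field κ] [Field F] [Algebra κ F] [Field F'] [Algebra κ F']
  [Field F''] [Algebra κ F'']

/-- the reduced divisor of a finite set of places -/
noncomputable def ind (S : Finset (Place κ F)) : Dv κ F := ∑ P ∈ S, pd P

/-- base point free -/
def BPF (D : Dv κ F) : Prop :=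
  ∀ P : Place κ F, ∃ f : F, f ≠ 0 ∧ (∀ Q : Place κ F, - D Q ≤ Q.ord f) ∧ P.ord f = - D P

/-- linear homomorphism as an `FHom` -/
def FHom.ofAlgHom (φ : F →ₐ[κ] F') : FHom κ F F' where
  f := φ.toRingHom
  c := RingEquiv.refl κ
  comm := φ.commutes

end

end Pool.Agent.E6b

end

section
open scoped NNReal TensorProduct IntermediateField BigOperators Classical Topology
open Filter

namespace Pool.Agent.E6b

section
variable {κ F F' : Type} [Field κ] [IsAlgClosed κ] [CharZero κ] [Field F] [Algebra κ F] [IsFF κ F]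
  [Field F'] [Algebra κ F'] [IsFF κ F']

/-- pull-back of divisors -/
noncomputable def FHom.pull (φ : FHom κ F F') (D : Dv κ F) : Dv κ F' :=
  if h : (Function.support fun R : Place κ F' => (φ.e R : ℤ) * D (φ.res R)).Finite then
    Finsupp.ofSupportFinite (fun R => (φ.e R : ℤ) * D (φ.res R)) h else 0

/-- the finite set of places above `P` -/
noncomputable def FHom.fib (φ : FHom κ F F') (P : Place κ F) : Finset (Place κ F') :=
  (φ.pull (pd P)).support

end

end Pool.Agent.E6b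

end

section
open scoped NNReal TensorProduct IntermediateField BigOperators Classical Topology
open Filter

namespace Pool.Agent.E6b
variable {κ F : Type} [Field κ] [IsAlgClosed κ] [CharZero κ] [Field F] [Algebra κ F] [IsFF κ F]

/-- Chevalley: a point of an affine model comes from a place. -/
theorem exists_place_of_algHom (B : Subalgebra κ F) (hB : ∃ b ∈ B, b ∉ (algebraMap κ F).range)
    (χ : B →ₐ[κ] κ) : ∃ P : Place κ F, ∀ b : B, (b : F) ∈ P.O ∧ P.ev b = χ b := by
  obtain ⟨V, hV, hI⟩ := Ideal.image_subset_nonunits_valuationSubring (A := B.toSubring)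
    (RingHom.ker (show B.toSubring →+* κ from χ.toRingHom)) (RingHom.ker_ne_top _)
  have key : ∀ b : B, V.valuation ((b : F) - algebraMap κ F (χ b)) < 1 := by
    intro b
    rw [← ValuationSubring.mem_nonunits_iff]
    refine hI ⟨(b - algebraMap κ B (χ b) : B), ?_, rfl⟩
    change χ (b - algebraMap κ B (χ b)) = 0
    simp
  have hne : V ≠ ⊤ := by
    rintro rfl
    obtain ⟨b, hb, hb'⟩ := hB
    have h1 := key ⟨b, hb⟩
    rw [← ValuationSubring.mem_nonunits_iff, ValuationSubring.mem_nonunits_iff_or] at h1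
    rcases h1 with h1 | h1
    · exact hb' ⟨_, (sub_eq_zero.1 h1).symm⟩
    · exact h1 (ValuationSubring.mem_top _)
  refine ⟨⟨V, fun c => hV (B.algebraMap_mem c), hne⟩, fun b => ⟨hV b.2, ?_⟩⟩
  exact F1a_ev_eq_of_val _ (key b)

end Pool.Agent.E6b

end

section
open scoped NNReal TensorProduct IntermediateField BigOperators Classical Topology
open Filter

namespace Pool.Agent.E6b
variable {κ F : Type} [Field κ] [IsAlgClosed κ] [CharZero κ] [Field F] [Algebra κ F] [IsFF κ F]

omit [IsAlgClosed κ] [CharZero κ] [IsFF κ F] in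
theorem deg_neg (D : Dv κ F) : deg (-D) = - deg D := by
  simp only [F1_deg_eq, map_neg]

omit [IsAlgClosed κ] [CharZero κ] [IsFF κ F] in
theorem deg_zsmul (n : ℤ) (D : Dv κ F) : deg (n • D) = n * deg D := by
  simp only [F1_deg_eq, map_zsmul, smul_eq_mul]

omit [IsAlgClosed κ] [CharZero κ] [IsFF κ F] in
theorem deg_sum {ι : Type*} (s : Finset ι) (D : ι → Dv κ F) :
    deg (∑ i ∈ s, D i) = ∑ i ∈ s, deg (D i) := by
  simp only [F1_deg_eq, map_sum]

omit [IsAlgClosed κ] [CharZero κ] [IsFF κ F] in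
theorem deg_ind (S : Finset (Place κ F)) : deg (ind S) = S.card := by
  unfold ind
  rw [deg_sum]
  simp [deg_pd]

omit [IsAlgClosed κ] [CharZero κ] [IsFF κ F] in
theorem ind_apply (S : Finset (Place κ F)) (P : Place κ F) : ind S P = if P ∈ S then 1 else 0 := by
  unfold ind
  rw [Finsupp.finsetSum_apply]
  simp [F1_pd_apply]

end Pool.Agent.E6b

end

section
open scoped NNReal TensorProduct IntermediateField BigOperators Classical Topology
open Filter

namespace Pool.Agent.E6b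
open Polynomial

section
variable {κ F : Type} [Field κ] [Field F] [Algebra κ F]

/-- elements congruent to a constant modulo `s R` -/
def F3T (R : Subalgebra κ F) {s : F} (hs : s ∈ R) : Subalgebra κ F where
  carrier := {x | ∃ c : κ, ∃ z ∈ R, x = algebraMap κ F c + s * z}
  mul_mem' := by
    rintro _ _ ⟨c, z, hz, rfl⟩ ⟨c', z', hz', rfl⟩
    refine ⟨c * c', algebraMap κ F c * z' + algebraMap κ F c' * z + s * z * z',
      add_mem (add_mem (mul_mem (R.algebraMap_mem _) hz') (mul_mem (R.algebraMap_mem _) hz))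
        (mul_mem (mul_mem hs hz) hz'), ?_⟩
    rw [map_mul]; ring
  add_mem' := by
    rintro _ _ ⟨c, z, hz, rfl⟩ ⟨c', z', hz', rfl⟩
    refine ⟨c + c', z + z', add_mem hz hz', ?_⟩
    rw [map_add]; ring
  algebraMap_mem' c := ⟨c, 0, zero_mem _, by simp⟩

theorem F3_mem_T {R : Subalgebra κ F} {s : F} (hs : s ∈ R) {x : F} :
    x ∈ F3T R hs ↔ ∃ c : κ, ∃ z ∈ R, x = algebraMap κ F c + s * z := Iff.rfl

/-- second order expansion inside a subalgebra -/
theorem F3_taylor {A O : Subalgebra κ F} (h : A ≤ O) (M : A[X]) {a b : F} (ha : a ∈ O)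
    (hb : b ∈ O) : aeval a (derivative M) ∈ O ∧
      ∃ k ∈ O, aeval (a + b) M = aeval a M + aeval a (derivative M) * b + k * b ^ 2 := by
  let ι : A →+* O := (Subalgebra.inclusion h).toRingHom
  have key : ∀ (p : A[X]) (z : O), (((p.map ι).eval z : O) : F) = aeval (z : F) p := by
    intro p z
    rw [eval_map, aeval_def]
    exact hom_eval₂ p ι O.val.toRingHom z
  obtain ⟨k, hk⟩ := (M.map ι).binomExpansion ⟨a, ha⟩ ⟨b, hb⟩
  rw [derivative_map] at hk
  refine ⟨by rw [← key _ ⟨a, ha⟩]; exact Subtype.mem _, k, k.2, ?_⟩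
  have := congrArg (fun z : O => (z : F)) hk
  simp only [Subalgebra.coe_add, Subalgebra.coe_mul, Subalgebra.coe_pow, key] at this
  exact this

open scoped IntermediateField.algebraAdjoinAdjoin in
theorem F3_exists_rel [CharZero κ] (t y : F) [FiniteDimensional κ⟮t⟯ F] :
    ∃ M : (Algebra.adjoin κ {t})[X], aeval y M = 0 ∧ aeval y (derivative M) ≠ 0 := by
  have : CharZero κ⟮t⟯ := algebraRat.charZero _
  have hsep : (minpoly κ⟮t⟯ y).Separable := Algebra.IsSeparable.isSeparable κ⟮t⟯ y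
  have hd := hsep.aeval_derivative_ne_zero (minpoly.aeval κ⟮t⟯ y)
  obtain ⟨b, hb, hM⟩ := IsLocalization.integerNormalization_spec
    (nonZeroDivisors (Algebra.adjoin κ {t})) (minpoly κ⟮t⟯ y)
  refine ⟨_, IsLocalization.integerNormalization_aeval_eq_zero
    (nonZeroDivisors (Algebra.adjoin κ {t})) _ (minpoly.aeval κ⟮t⟯ y), ?_⟩
  rw [← aeval_map_algebraMap κ⟮t⟯, ← derivative_map, hM, derivative_smul, aeval_def,
    ← algebraMap_smul κ⟮t⟯ b, eval₂_smul, ← aeval_def]
  refine mul_ne_zero ?_ hd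
  have := nonZeroDivisors.ne_zero hb
  simpa using this

end
variable {κ F : Type} [Field κ] [IsAlgClosed κ] [CharZero κ] [Field F] [Algebra κ F] [IsFF κ F]

theorem F3_dvd (P : Place κ F) {s : F} (hs0 : s ≠ 0) (hpos : 0 < P.ord s) (R : Subalgebra κ F)
    (hs : s ∈ R) (hR : ∀ x ∈ R, x ∈ P.O) (hT : R ≤ F3T R hs) :
    ∀ x ∈ R, x ≠ 0 → P.ord s ∣ P.ord x := by
  have key : ∀ n : ℕ, ∀ x ∈ R, x ≠ 0 → P.ord x < n → P.ord s ∣ P.ord x := by
    intro n
    induction n with
    | zero =>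
      intro x hx _ h
      have := P.mem_iff.1 (hR x hx)
      omega
    | succ n ih =>
      intro x hx h0 h
      obtain ⟨c, z, hz, rfl⟩ := (F3_mem_T hs).1 (hT hx)
      have hz0 := P.mem_iff.1 (hR z hz)
      by_cases hc : c = 0
      · subst hc
        rw [map_zero, zero_add] at h0 h ⊢
        have hz1 : z ≠ 0 := right_ne_zero_of_mul h0
        rw [P.ord_mul hs0 hz1] at h ⊢
        exact dvd_add dvd_rfl (ih z hz hz1 (by omega))
      · have := P.ord_add_eq (f := algebraMap κ F c) (g := s * z) (by simpa using hc) (by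
          by_cases hz1 : z = 0
          · exact Or.inl (by simp [hz1])
          · refine Or.inr ?_
            rw [P.ord_mul hs0 hz1, P.ord_algebraMap]; omega)
        rw [this.2, P.ord_algebraMap]
        exact dvd_zero _
  intro x hx h0
  exact key ((P.ord x).toNat + 1) x hx h0 (by omega)

end Pool.Agent.E6b

end

section
open scoped NNReal TensorProduct IntermediateField BigOperators Classical Topology
open Filter

namespace Pool.Agent.E6b
variable {κ F F' F'' : Type} [Field κ] [IsAlgClosed κ] [CharZero κ] [Field F] [Algebra κ F]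
  [IsFF κ F] [Field F'] [Algebra κ F'] [IsFF κ F'] [Field F''] [Algebra κ F''] [IsFF κ F'']
  (φ : FHom κ F F')

namespace FHom

theorem map_mem_iff (R : Place κ F') (f : F) : φ.f f ∈ R.O ↔ f ∈ (φ.res R).O := Iff.rfl

theorem F4_ex (R : Place κ F') :
    ∃ n : ℕ, 0 < n ∧ ∀ f : F, R.ord (φ.f f) = n * (φ.res R).ord f := by
  obtain ⟨π, h0, h1⟩ := (φ.res R).exists_ord_eq 1
  have hn : 0 < R.ord (φ.f π) := by
    have : ¬ φ.f π⁻¹ ∈ R.O := by
      rw [map_mem_iff, Place.mem_iff, Place.ord_inv, h1]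
      norm_num
    rw [Place.mem_iff, map_inv₀, Place.ord_inv] at this
    omega
  have hu : ∀ u : F, (φ.res R).ord u = 0 → R.ord (φ.f u) = 0 := by
    intro u hu
    have a1 : φ.f u ∈ R.O := by rw [map_mem_iff, Place.mem_iff, hu]
    have a2 : φ.f u⁻¹ ∈ R.O := by rw [map_mem_iff, Place.mem_iff, Place.ord_inv, hu, neg_zero]
    rw [Place.mem_iff] at a1 a2
    rw [map_inv₀, Place.ord_inv] at a2
    omega
  refine ⟨(R.ord (φ.f π)).toNat, by omega, fun f => ?_⟩
  rw [Int.toNat_of_nonneg hn.le]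
  by_cases hf : f = 0
  · rw [hf, map_zero, Place.ord_zero, Place.ord_zero, mul_zero]
  have h2 := hu (f / π ^ (φ.res R).ord f) (by
    rw [Place.ord_div _ hf (zpow_ne_zero _ h0), Place.ord_zpow, h1, mul_one, sub_self])
  rw [map_div₀, map_zpow₀, Place.ord_div _ ((map_ne_zero _).2 hf)
    (zpow_ne_zero _ ((map_ne_zero _).2 h0)), Place.ord_zpow] at h2
  linear_combination h2

theorem ord_map (R : Place κ F') (f : F) : R.ord (φ.f f) = φ.e R * (φ.res R).ord f := by
  obtain ⟨n, -, hn⟩ := φ.F4_ex R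
  have h : ∃ n : ℕ, ∀ f : F, R.ord (φ.f f) = n * (φ.res R).ord f := ⟨n, hn⟩
  rw [FHom.e, dif_pos h]
  exact h.choose_spec f

theorem F4_e_eq (R : Place κ F') {π : F} (h : (φ.res R).ord π = 1) :
    (φ.e R : ℤ) = R.ord (φ.f π) := by
  rw [ord_map, h, mul_one]

theorem e_pos (R : Place κ F') : 0 < φ.e R := by
  obtain ⟨n, h0, hn⟩ := φ.F4_ex R
  obtain ⟨π, -, h1⟩ := (φ.res R).exists_ord_eq 1
  have := φ.F4_e_eq R h1
  rw [hn, h1] at this
  omega

theorem F4_e_pos (R : Place κ F') : (0 : ℤ) < φ.e R := Int.natCast_pos.2 (φ.e_pos R)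

theorem F4_fin (P : Place κ F) : {R : Place κ F' | φ.res R = P}.Finite := by
  obtain ⟨π, -, h1⟩ := P.exists_ord_eq 1
  refine (dv κ (φ.f π)).support.finite_toSet.subset fun R hR => ?_
  rw [Finset.mem_coe, Finsupp.mem_support_iff, dv_apply, ← φ.F4_e_eq R (by rw [hR, h1])]
  exact (φ.F4_e_pos R).ne'

theorem pull_apply (D : Dv κ F) (R : Place κ F') : φ.pull D R = φ.e R * D (φ.res R) := by
  have h : (Function.support fun R : Place κ F' => (φ.e R : ℤ) * D (φ.res R)).Finite := by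
    refine (D.support.finite_toSet.biUnion fun P _ => φ.F4_fin P).subset fun R hR => ?_
    exact Set.mem_biUnion (Finsupp.mem_support_iff.2 (right_ne_zero_of_mul hR)) rfl
  rw [FHom.pull, dif_pos h]
  rfl

theorem mem_fib {P : Place κ F} {R : Place κ F'} : R ∈ φ.fib P ↔ φ.res R = P := by
  rw [FHom.fib, Finsupp.mem_support_iff, pull_apply, pd, Finsupp.single_apply]
  have := φ.e_pos R
  by_cases h : P = φ.res R
  · simp [h, this.ne']
  · simp [h, Ne.symm h]

theorem ev_map (R : Place κ F') (f : F) : R.ev (φ.f f) = φ.c ((φ.res R).ev f) := by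
  by_cases hf : f ∈ (φ.res R).O
  · refine R.ev_eq ?_
    rw [← φ.comm, ← map_sub, ord_map]
    exact ((φ.res R).ev_spec hf).imp (congrArg φ.f) (mul_pos (φ.F4_e_pos R))
  · have h1 : ¬ ∃ c : κ, (φ.res R).O.valuation (f - algebraMap κ F c) < 1 := by
      rintro ⟨c, hc⟩
      exact hf (by
        simpa using add_mem (((φ.res R).O.valuation_le_one_iff _).1 hc.le) ((φ.res R).const c))
    have h2 : ¬ ∃ c : κ, R.O.valuation (φ.f f - algebraMap κ F' c) < 1 := by
      rintro ⟨c, hc⟩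
      exact hf ((φ.map_mem_iff R f).1 (by
        simpa using add_mem ((R.O.valuation_le_one_iff _).1 hc.le) (R.const c)))
    rw [Place.ev, Place.ev, dif_neg h1, dif_neg h2, map_zero]

theorem pull_add (D E : Dv κ F) : φ.pull (D + E) = φ.pull D + φ.pull E := by
  ext R
  simp only [pull_apply, Finsupp.add_apply, mul_add]

/-- pull-back as an additive map -/
noncomputable def F4_pullHom : Dv κ F →+ Dv κ F' := AddMonoidHom.mk' φ.pull φ.pull_add

theorem pull_sub (D E : Dv κ F) : φ.pull (D - E) = φ.pull D - φ.pull E :=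
  map_sub φ.F4_pullHom D E

theorem pull_zero : φ.pull 0 = 0 := map_zero φ.F4_pullHom

theorem pull_zsmul (n : ℤ) (D : Dv κ F) : φ.pull (n • D) = n • φ.pull D :=
  map_zsmul φ.F4_pullHom n D

theorem pull_nsmul (n : ℕ) (D : Dv κ F) : φ.pull (n • D) = n • φ.pull D :=
  map_nsmul φ.F4_pullHom n D

theorem pull_sum {ι : Type*} (s : Finset ι) (D : ι → Dv κ F) :
    φ.pull (∑ i ∈ s, D i) = ∑ i ∈ s, φ.pull (D i) := map_sum φ.F4_pullHom D s

theorem pull_dv (f : F) : φ.pull (dv κ f) = dv κ (φ.f f) := by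
  ext R
  rw [pull_apply, dv_apply, dv_apply, ord_map]

theorem pull_dinf (f : F) : φ.pull (dinf κ f) = dinf κ (φ.f f) := by
  ext R
  rw [pull_apply, dinf_apply, dinf_apply, ord_map, mul_max_of_nonneg _ _ (φ.F4_e_pos R).le,
    mul_zero, mul_neg]

theorem F4_range : φ.f '' Set.range (algebraMap κ F) = Set.range (algebraMap κ F') := by
  ext y
  constructor
  · rintro ⟨_, ⟨c, rfl⟩, rfl⟩
    exact ⟨φ.c c, (φ.comm c).symm⟩
  · rintro ⟨c, rfl⟩
    exact ⟨_, ⟨φ.c.symm c, rfl⟩, by rw [φ.comm, RingEquiv.apply_symm_apply]⟩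

theorem F4_nonconst {t : F} (ht : t ∉ (algebraMap κ F).range) :
    φ.f t ∉ (algebraMap κ F').range := by
  intro h
  have h' : φ.f t ∈ φ.f '' Set.range (algebraMap κ F) := by
    rw [F4_range]
    exact h
  exact ht ((φ.f.injective.mem_set_image).1 h')

theorem linEq_pull {D E : Dv κ F} (h : LinEq D E) : LinEq (φ.pull D) (φ.pull E) := by
  obtain ⟨f, hf, rfl⟩ := h
  exact ⟨φ.f f, (map_ne_zero _).2 hf, by rw [pull_add, pull_dv]⟩

theorem le_pull_mapDomain {E : Dv κ F'} (h : 0 ≤ E) : E ≤ φ.pull (E.mapDomain φ.res) := by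
  intro R
  have h0 : (0 : ℤ) ≤ ∑ i ∈ E.support with φ.res i = φ.res R, E i :=
    Finset.sum_nonneg fun i _ => h i
  rw [pull_apply, Finsupp.mapDomain_apply_eq_sum]
  refine le_trans ?_ (le_mul_of_one_le_left h0 (φ.F4_e_pos R))
  by_cases hR : E R = 0
  · rwa [hR]
  · exact Finset.single_le_sum (f := E) (fun i _ => h i)
      (Finset.mem_filter.2 ⟨Finsupp.mem_support_iff.2 hR, rfl⟩)

theorem res_congr {ψ : FHom κ F F'} (h : φ.f = ψ.f) : φ.res = ψ.res :=
  funext fun R => Place.ext (congrArg R.O.comap h)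

theorem e_congr {ψ : FHom κ F F'} (h : φ.f = ψ.f) : φ.e = ψ.e := by
  funext R
  obtain ⟨π, -, h1⟩ := (φ.res R).exists_ord_eq 1
  have a := φ.F4_e_eq R h1
  rw [φ.res_congr h] at h1
  rw [h, ← ψ.F4_e_eq R h1] at a
  exact_mod_cast a

theorem pull_congr {ψ : FHom κ F F'} (h : φ.f = ψ.f) : φ.pull = ψ.pull := by
  funext D
  ext R
  rw [pull_apply, pull_apply, φ.res_congr h, φ.e_congr h]

end FHom

end Pool.Agent.E6b

end

section
open scoped NNReal TensorProduct IntermediateField BigOperators Classical Topology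
open Filter

namespace Pool.Agent.E6b

/-- a semilinear action of the absolute Galois group with open stabilisers -/
structure GAct (F : Type) [Field F] [Algebra Qb F] where
  act : (Qb ≃ₐ[ℚ] Qb) →* (F ≃+* F)
  comm : ∀ σ c, act σ (algebraMap Qb F c) = algebraMap Qb F (σ c)
  opn : ∀ f, ∃ K : IntermediateField ℚ Qb, FiniteDimensional ℚ K ∧
    ∀ σ : Qb ≃ₐ[ℚ] Qb, (∀ x ∈ K, σ x = x) → act σ f = f

section
variable {F : Type} [Field F] [Algebra Qb F] (A : GAct F)

noncomputable def GAct.fh (σ : Qb ≃ₐ[ℚ] Qb) : FHom Qb F F where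
  f := (A.act σ).toRingHom
  c := σ.toRingEquiv
  comm := A.comm σ
variable [IsFF Qb F]

/-- action on places -/
noncomputable def GAct.sm (σ : Qb ≃ₐ[ℚ] Qb) (P : Place Qb F) : Place Qb F := (A.fh σ⁻¹).res P

/-- orbit of a place under the Galois group over `K` -/
def GAct.orb (K : IntermediateField ℚ Qb) (P : Place Qb F) : Set (Place Qb F) :=
  {Q | ∃ σ : Qb ≃ₐ[ℚ] Qb, (∀ x ∈ K, σ x = x) ∧ A.sm σ P = Q}

/-- sets of places stable under the Galois group over `K` -/
def GAct.Stab (K : IntermediateField ℚ Qb) (S : Finset (Place Qb F)) : Prop :=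
  ∀ σ : Qb ≃ₐ[ℚ] Qb, (∀ x ∈ K, σ x = x) → ∀ P ∈ S, A.sm σ P ∈ S

end

end Pool.Agent.E6b

end

section
open scoped NNReal TensorProduct IntermediateField BigOperators Classical Topology
open Filter

namespace Pool.Agent.E6b
variable {F : Type} [Field F] [Algebra Qb F] [IsFF Qb F] (A : GAct F)

namespace GAct

omit [IsFF Qb F] in
theorem fh_surj (σ : Qb ≃ₐ[ℚ] Qb) : Function.Surjective (A.fh σ).f := (A.act σ).surjective

theorem G1_mem (σ : Qb ≃ₐ[ℚ] Qb) (P : Place Qb F) (f : F) :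
    f ∈ (A.sm σ P).O ↔ A.act σ⁻¹ f ∈ P.O := Iff.rfl

theorem sm_one (P : Place Qb F) : A.sm 1 P = P := by
  ext f
  rw [G1_mem, inv_one, map_one]
  rfl

theorem sm_mul (σ τ : Qb ≃ₐ[ℚ] Qb) (P : Place Qb F) : A.sm (σ * τ) P = A.sm σ (A.sm τ P) := by
  ext f
  rw [G1_mem, G1_mem, G1_mem, mul_inv_rev, map_mul]
  rfl

theorem G1_inv (σ : Qb ≃ₐ[ℚ] Qb) (P : Place Qb F) : A.sm σ⁻¹ (A.sm σ P) = P := by
  rw [← sm_mul, inv_mul_cancel, sm_one]

theorem sm_injective (σ : Qb ≃ₐ[ℚ] Qb) : Function.Injective (A.sm σ) :=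
  Function.LeftInverse.injective (A.G1_inv σ)

theorem res_sm (σ : Qb ≃ₐ[ℚ] Qb) (P : Place Qb F) : (A.fh σ).res (A.sm σ P) = P := by
  have h := A.G1_inv σ P
  rwa [GAct.sm, inv_inv] at h

theorem mem_sm (σ : Qb ≃ₐ[ℚ] Qb) (P : Place Qb F) (f : F) :
    A.act σ f ∈ (A.sm σ P).O ↔ f ∈ P.O := by
  have h := (A.fh σ).map_mem_iff (A.sm σ P) f
  rwa [res_sm] at h

theorem ev_sm (σ : Qb ≃ₐ[ℚ] Qb) (P : Place Qb F) (f : F) :
    (A.sm σ P).ev (A.act σ f) = σ (P.ev f) := by
  have h := (A.fh σ).ev_map (A.sm σ P) f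
  rwa [res_sm] at h

theorem Stab.image_eq {K : IntermediateField ℚ Qb} {S : Finset (Place Qb F)} (h : A.Stab K S)
    {σ : Qb ≃ₐ[ℚ] Qb} (hσ : ∀ x ∈ K, σ x = x) : S.image (A.sm σ) = S :=
  Finset.eq_of_subset_of_card_le (Finset.image_subset_iff.2 (h σ hσ))
    (Finset.card_image_of_injective S (A.sm_injective σ)).ge

theorem mem_orb_self (K : IntermediateField ℚ Qb) (P : Place Qb F) : P ∈ A.orb K P :=
  ⟨1, fun _ _ => rfl, A.sm_one P⟩

theorem G1_fix_inv {K : IntermediateField ℚ Qb} {σ : Qb ≃ₐ[ℚ] Qb} (h : ∀ x ∈ K, σ x = x) :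
    ∀ x ∈ K, σ⁻¹ x = x := fun x hx => by
  conv_lhs => rw [← h x hx, ← AlgEquiv.mul_apply, inv_mul_cancel, AlgEquiv.one_apply]

theorem G1_fix_mul {K : IntermediateField ℚ Qb} {σ τ : Qb ≃ₐ[ℚ] Qb} (h : ∀ x ∈ K, σ x = x)
    (h' : ∀ x ∈ K, τ x = x) : ∀ x ∈ K, (σ * τ) x = x := fun x hx => by
  rw [AlgEquiv.mul_apply, h' x hx, h x hx]

theorem orb_eq_of_mem {K : IntermediateField ℚ Qb} {P Q : Place Qb F} (h : Q ∈ A.orb K P) :
    A.orb K Q = A.orb K P := by
  obtain ⟨τ, hτ, rfl⟩ := h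
  ext R
  constructor
  · rintro ⟨σ, hσ, rfl⟩
    exact ⟨σ * τ, G1_fix_mul hσ hτ, A.sm_mul σ τ P⟩
  · rintro ⟨σ, hσ, rfl⟩
    exact ⟨σ * τ⁻¹, G1_fix_mul hσ (G1_fix_inv hτ), by rw [sm_mul, G1_inv]⟩

end GAct

end Pool.Agent.E6b

end

section
open scoped NNReal TensorProduct IntermediateField BigOperators Classical Topology
open Filter

namespace Pool.Agent.E6b

section
variable {κ F : Type} [Field κ] [IsAlgClosed κ] [CharZero κ] [Field F] [Algebra κ F] [IsFF κ F]

/-- the valuation ring of a place as a subalgebra -/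
def Place.OA (P : Place κ F) : Subalgebra κ F where
  carrier := {f | f ∈ P.O}
  mul_mem' := fun ha hb => P.O.mul_mem _ _ ha hb
  add_mem' := fun ha hb => P.O.add_mem _ _ ha hb
  algebraMap_mem' := fun c => P.const c

/-- evaluation at a place as an algebra homomorphism -/
noncomputable def Place.evH (P : Place κ F) : P.OA →ₐ[κ] κ where
  toFun f := P.ev f
  map_one' := by simpa using P.ev_algebraMap 1
  map_mul' f g := P.ev_mul f.2 g.2
  map_zero' := by simpa using P.ev_algebraMap 0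
  map_add' f g := P.ev_add f.2 g.2
  commutes' c := P.ev_algebraMap c

/-- `a ⊗ 1 - 1 ⊗ a` -/
noncomputable def dlt {B : Type} [CommRing B] [Algebra κ B] (a : B) : B ⊗[κ] B :=
  a ⊗ₜ[κ] 1 - 1 ⊗ₜ[κ] a

end

end Pool.Agent.E6b

end

section
open scoped NNReal TensorProduct IntermediateField BigOperators Classical Topology
open Filter

namespace Pool.Agent.E6b

section
variable {κ B : Type} [Field κ] [CommRing B] [Algebra κ B]

theorem Osm_dlt_add (a b : B) : (dlt (a + b) : B ⊗[κ] B) = dlt a + dlt b := by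
  simp only [dlt, TensorProduct.add_tmul, TensorProduct.tmul_add]
  ring

theorem Osm_dlt_sub (a b : B) : (dlt (a - b) : B ⊗[κ] B) = dlt a - dlt b := by
  simp only [dlt, TensorProduct.sub_tmul, TensorProduct.tmul_sub]
  ring

theorem Osm_dlt_mul (a b : B) :
    (dlt (a * b) : B ⊗[κ] B) = a ⊗ₜ[κ] 1 * dlt b + 1 ⊗ₜ[κ] b * dlt a := by
  simp only [dlt, mul_sub, Algebra.TensorProduct.tmul_mul_tmul, one_mul, mul_one, mul_comm b a]
  ring

theorem Osm_dlt_const (c : κ) : (dlt (algebraMap κ B c) : B ⊗[κ] B) = 0 := by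
  simp only [dlt, Algebra.algebraMap_eq_smul_one, TensorProduct.smul_tmul, sub_self]

end

end Pool.Agent.E6b

end
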