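import Pool.Agent.E6c.A01
import Pool.Agent.E6c.A02

section
open scoped NNReal TensorProduct IntermediateField BigOperators Classical Topology
open Filter

namespace Pool.Agent.E6b

section
variable {κ F : Type} [Field κ] [Field F] [Algebra κ F] {P : Place κ F} {v : F → ℤ}

theorem F0_zpow (hv : OrdSpec P v) {f : F} (hf : f ≠ 0) (n : ℤ) : v (f ^ n) = n * v f := by
  induction n using Int.induction_on with
  | zero => simp [F0_one hv]
  | succ n ih => rw [zpow_add_one₀ hf, hv.mul _ _ (zpow_ne_zero _ hf) hf, ih]; ring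
  | pred n ih =>
    rw [zpow_sub_one₀ hf, hv.mul _ _ (zpow_ne_zero _ hf) (inv_ne_zero hf), ih, F0_inv hv hf]; ring

end
variable {κ F F' : Type} [Field κ] [IsAlgClosed κ] [CharZero κ] [Field F] [Algebra κ F] [IsFF κ F]
  [Field F'] [Algebra κ F'] [IsFF κ F']

omit [IsAlgClosed κ] [CharZero κ] [IsFF κ F] in
theorem OrdSpec.unique {P : Place κ F} {v w : F → ℤ} (hv : OrdSpec P v) (hw : OrdSpec P w) :
    v = w := by
  obtain ⟨π, hπ0, hπ⟩ := hv.unif
  have key : ∀ f, f ≠ 0 → w f = v f * w π := by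
    intro f hf
    have hu : f * π ^ (- v f) ≠ 0 := mul_ne_zero hf (zpow_ne_zero _ hπ0)
    have h1 : v (f * π ^ (- v f)) = 0 := by
      rw [hv.mul _ _ hf (zpow_ne_zero _ hπ0), F0_zpow hv hπ0, hπ]; ring
    have h2 := (hw.mem _ hu).1 ((hv.mem _ hu).2 h1.ge)
    have h3 := (hw.mem _ (inv_ne_zero hu)).1 ((hv.mem _ (inv_ne_zero hu)).2
      (by rw [F0_inv hv hu, h1]; rfl))
    rw [F0_inv hw hu] at h3
    have h4 : w (f * π ^ (- v f)) = 0 := by omega
    rw [hw.mul _ _ hf (zpow_ne_zero _ hπ0), F0_zpow hw hπ0] at h4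
    linarith
  obtain ⟨ρ, hρ0, hρ⟩ := hw.unif
  have h5 : 0 ≤ w π := (hw.mem _ hπ0).1 ((hv.mem _ hπ0).2 (by omega))
  have h6 : w π = 1 := by
    have h7 := key ρ hρ0
    rw [hρ] at h7
    exact Int.eq_one_of_mul_eq_one_left h5 h7.symm
  funext f
  by_cases hf : f = 0
  · rw [hf, hv.zero, hw.zero]
  · rw [key f hf, h6, mul_one]

end Pool.Agent.E6b

end

section
open scoped NNReal TensorProduct IntermediateField BigOperators Classical Topology
open Filter

namespace Pool.Agent.E6b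
variable {κ F : Type} [Field κ] [IsAlgClosed κ] [CharZero κ] [Field F] [Algebra κ F] [IsFF κ F]

theorem Place.ev_sub (P : Place κ F) {f g : F} (hf : f ∈ P.O) (hg : g ∈ P.O) :
    P.ev (f - g) = P.ev f - P.ev g := by
  apply F1a_ev_eq_of_val
  have h := P.O.valuation.map_sub_lt (F1a_ev_val P hf) (F1a_ev_val P hg)
  convert h using 2
  rw [map_sub]
  ring

theorem F1a_ev_zero (P : Place κ F) : P.ev 0 = 0 := by
  simpa using P.ev_algebraMap 0

theorem Place.ev_sum (P : Place κ F) {ι : Type*} (s : Finset ι) (f : ι → F)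
    (hf : ∀ i ∈ s, f i ∈ P.O) : P.ev (∑ i ∈ s, f i) = ∑ i ∈ s, P.ev (f i) := by
  induction s using Finset.induction_on with
  | empty => simp [F1a_ev_zero]
  | insert a s ha ih =>
    rw [Finset.sum_insert ha, Finset.sum_insert ha,
      P.ev_add (hf a (Finset.mem_insert_self a s))
        (sum_mem fun i hi => hf i (Finset.mem_insert_of_mem hi)),
      ih fun i hi => hf i (Finset.mem_insert_of_mem hi)]

theorem Place.ev_div (P : Place κ F) {f g : F} (hf : f ∈ P.O) (hg : g ∈ P.O) (h : P.ev g ≠ 0) :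
    f / g ∈ P.O ∧ P.ev (f / g) = P.ev f / P.ev g := by
  have h1 : ¬ (g = 0 ∨ 0 < P.ord g) := fun h' => h ((P.ev_eq_zero_iff hg).2 h')
  have hg0 : g ≠ 0 := fun h' => h1 (Or.inl h')
  have h2 : g⁻¹ ∈ P.O := by
    rw [P.mem_iff, P.ord_inv]
    by_contra h3
    exact h1 (Or.inr (by omega))
  have h3 : f / g ∈ P.O := by
    rw [div_eq_mul_inv]
    exact mul_mem hf h2
  refine ⟨h3, ?_⟩
  have h4 := P.ev_mul h3 hg
  rw [div_mul_cancel₀ _ hg0] at h4
  rw [h4, mul_div_cancel_right₀ _ h]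

end Pool.Agent.E6b

end

section
open scoped NNReal TensorProduct IntermediateField BigOperators Classical Topology
open Filter

namespace Pool.Agent.E6b

theorem H2_one_le_th (p : ℕ) {c : ℝ} (hc : 1 ≤ c) : 1 ≤ th p c := by
  unfold th
  split_ifs
  · exact hc
  · exact le_rfl

theorem H2_th_mono (p : ℕ) {c c' : ℝ} (hc : c ≤ c') : th p c ≤ th p c' := by
  unfold th
  split_ifs
  · exact hc
  · exact le_rfl

theorem H2_le0 {s t : Finset Qb} (hs : ∃ a ∈ s, a ≠ 0) (ht0 : ∃ a ∈ t, a ≠ 0)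
    (h : ∀ p v, IsPl p v → nrm v s ≤ nrm v t) : ht s ≤ ht t := by
  have key := ht_le_of_local1 hs ht0 1 one_pos fun p v hv => by
    rw [H2_th_one, one_mul, pow_one]
    exact h p v hv
  simpa using key

theorem ht_nonneg (s : Finset Qb) : 0 ≤ ht s := by
  by_cases hs : ∃ a ∈ s, a ≠ 0
  · obtain ⟨a, ha, h0⟩ := hs
    rw [← htSpec.single a h0]
    exact H2_le0 ⟨a, by simp, h0⟩ ⟨a, ha, h0⟩ fun p v _ => H2_nrm_mono v (by simpa using ha)
  · push Not at hs
    exact (htSpec.zero s hs).ge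

theorem H2_le {s t : Finset Qb} (h : ∀ p v, IsPl p v → nrm v s ≤ nrm v t) : ht s ≤ ht t := by
  by_cases hs : ∃ a ∈ s, a ≠ 0
  · refine H2_le0 hs ?_ h
    by_contra hn
    push Not at hn
    obtain ⟨v, hv⟩ := exists_isPl (p := 0) (Or.inl rfl)
    have h1 := nrm_pos v hs
    have h2 := h 0 v hv
    have h3 : nrm v t ≤ 0 := nrm_le v le_rfl fun a ha => by simp [hn a ha]
    linarith
  · push Not at hs
    rw [htSpec.zero s hs]
    exact ht_nonneg t

theorem ht_mono {s t : Finset Qb} (h : s ⊆ t) : ht s ≤ ht t :=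
  H2_le fun _ v _ => H2_nrm_mono v h

theorem H2_prod {ι : Type*} (I : Finset ι) {s : Finset Qb} (hs : ∃ a ∈ s, a ≠ 0)
    (t : ι → Finset Qb) (ht0 : ∀ i ∈ I, ∃ a ∈ t i, a ≠ 0) {c : ℝ} (hc : 0 < c)
    (h : ∀ p v, IsPl p v → nrm v s ≤ th p c * ∏ i ∈ I, nrm v (t i)) :
    ht s ≤ Real.log c + ∑ i ∈ I, ht (t i) := by
  have key := ht_le_of_local (r := Fin I.card) hs (fun j => t (I.equivFin.symm j))
    (fun j => ht0 _ (I.equivFin.symm j).2) (fun _ => 1) hc (fun p v hv => by
      simp only [Real.rpow_one]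
      rw [I.equivFin.symm.prod_comp fun i => nrm v (t i),
        Finset.prod_coe_sort I fun i => nrm v (t i)]
      exact h p v hv)
  simp only [one_mul] at key
  rwa [I.equivFin.symm.sum_comp fun i => ht (t i), Finset.sum_coe_sort I fun i => ht (t i)] at key

theorem H2_two {s t u : Finset Qb} (hs : ∃ a ∈ s, a ≠ 0) (ht0 : ∃ a ∈ t, a ≠ 0)
    (hu : ∃ a ∈ u, a ≠ 0) {c : ℝ} (hc : 0 < c)
    (h : ∀ p v, IsPl p v → nrm v s ≤ th p c * (nrm v t * nrm v u)) :
    ht s ≤ Real.log c + (ht t + ht u) := by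
  have key := H2_prod (Finset.univ : Finset (Fin 2)) hs ![t, u]
    (fun i _ => by fin_cases i <;> simpa) hc fun p v hv => by simpa using h p v hv
  simpa using key

theorem H2_smul_le {c : Qb} (hc : c ≠ 0) (s : Finset Qb) : ht (s.image (c * ·)) ≤ ht s := by
  by_cases hs : ∃ a ∈ s, a ≠ 0
  · obtain ⟨a, ha, h0⟩ := hs
    have key := H2_two (s := s.image (c * ·)) (t := {c}) (u := s)
      ⟨c * a, Finset.mem_image_of_mem _ ha, mul_ne_zero hc h0⟩ ⟨c, by simp, hc⟩ ⟨a, ha, h0⟩ one_pos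
      fun p v _ => by
        rw [H2_th_one, one_mul]
        refine nrm_le v (mul_nonneg (nrm_nonneg _ _) (nrm_nonneg _ _)) fun b hb => ?_
        obtain ⟨b, hb', rfl⟩ := Finset.mem_image.1 hb
        rw [map_mul]
        exact mul_le_mul (le_nrm v (by simp)) (le_nrm v hb') (v.nonneg _) (nrm_nonneg _ _)
    rw [htSpec.single c hc] at key
    simpa using key
  · push Not at hs
    rw [htSpec.zero _ fun b hb => ?_]
    · exact ht_nonneg s
    · obtain ⟨b, hb', rfl⟩ := Finset.mem_image.1 hb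
      rw [hs b hb', mul_zero]

theorem ht_smul {c : Qb} (hc : c ≠ 0) (s : Finset Qb) : ht (s.image (c * ·)) = ht s := by
  refine le_antisymm (H2_smul_le hc s) ?_
  have key := H2_smul_le (inv_ne_zero hc) (s.image (c * ·))
  rw [Finset.image_image] at key
  have e : ((fun x => c⁻¹ * x) ∘ fun x => c * x) = id := by
    funext x
    simp [hc]
  rwa [e, Finset.image_id] at key

theorem ht_insert_zero (s : Finset Qb) : ht (insert 0 s) = ht s := by
  refine le_antisymm (H2_le fun p v _ => nrm_le v (nrm_nonneg _ _) fun a ha => ?_)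
    (ht_mono (Finset.subset_insert _ _))
  rcases Finset.mem_insert.1 ha with rfl | ha
  · rw [map_zero]
    exact nrm_nonneg _ _
  · exact le_nrm v ha

theorem h1_le_of_mem {s : Finset Qb} {a b : Qb} (ha : a ∈ s) (hb : b ∈ s) (hb0 : b ≠ 0) :
    h1 (a / b) ≤ ht s := by
  unfold h1
  rw [← ht_smul hb0]
  refine ht_mono fun x hx => ?_
  obtain ⟨x, hx', rfl⟩ := Finset.mem_image.1 hx
  rcases Finset.mem_insert.1 hx' with rfl | hx
  · rwa [mul_one]
  · rwa [Finset.mem_singleton.1 hx, mul_div_cancel₀ _ hb0]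

theorem hv_nonneg {ι : Type*} [Fintype ι] (x : ι → Qb) : 0 ≤ hv x := ht_nonneg _

theorem hv_congr {ι : Type*} [Fintype ι] {x y : ι → Qb} (h : Prp x y) : hv x = hv y := by
  obtain ⟨μ, hμ, h⟩ := h
  unfold hv
  rw [← ht_smul hμ (Finset.univ.image y), Finset.image_image]
  congr 2
  exact funext h

theorem hv_comp_le {ι ι' : Type*} [Fintype ι] [Fintype ι'] (x : ι → Qb) (e : ι' → ι) :
    hv (x ∘ e) ≤ hv x := by
  refine ht_mono fun a ha => ?_
  obtain ⟨i, -, rfl⟩ := Finset.mem_image.1 ha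
  exact Finset.mem_image_of_mem x (Finset.mem_univ (e i))

theorem nv_le {ι : Type*} [Fintype ι] (v : AbsoluteValue Qb ℝ) {x : ι → Qb} {M : ℝ} (hM : 0 ≤ M)
    (h : ∀ i, v (x i) ≤ M) : nv v x ≤ M :=
  nrm_le v hM fun a ha => by
    obtain ⟨i, -, rfl⟩ := Finset.mem_image.1 ha
    exact h i

theorem h1_nonneg (a : Qb) : 0 ≤ h1 a := ht_nonneg _

theorem H2_coeff_le (v : AbsoluteValue Qb ℝ) (P : Polynomial Qb) (i : ℕ) :
    v (P.coeff i) ≤ nrm v P.coeffs := by
  by_cases h : P.coeff i = 0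
  · rw [h, map_zero]
    exact nrm_nonneg _ _
  · exact le_nrm v (Polynomial.coeff_mem_coeffs h)

theorem H2_root {p : ℕ} {v : AbsoluteValue Qb ℝ} (hv : IsPl p v) {P : Polynomial Qb}
    (hP : P ≠ 0) {a : Qb} (ha : P.IsRoot a) :
    v (P.leadingCoeff * a) ≤ th p 2 * nrm v P.coeffs := by
  have hM := nrm_nonneg v P.coeffs
  have hL : v P.leadingCoeff ≤ nrm v P.coeffs := H2_coeff_le v P _
  have hth := H2_one_le_th p (c := 2) one_le_two
  rw [map_mul]
  rcases le_or_gt (v a) 1 with hx | hx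
  · nlinarith [v.nonneg a, v.nonneg P.leadingCoeff]
  have he : P.leadingCoeff * a ^ P.natDegree =
      -∑ i ∈ Finset.range P.natDegree, P.coeff i * a ^ i := by
    have h := ha.eq_zero
    rw [Polynomial.eval_eq_sum_range, Finset.sum_range_succ] at h
    rw [Polynomial.leadingCoeff]
    linear_combination h
  have he' : v P.leadingCoeff * v a ^ P.natDegree =
      v (∑ i ∈ Finset.range P.natDegree, P.coeff i * a ^ i) := by
    rw [← map_pow, ← map_mul, he, v.map_neg]
  have hpos : 0 < v a ^ P.natDegree := pow_pos (by linarith) _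
  by_cases hp : p = 0
  · have h1 : v (∑ i ∈ Finset.range P.natDegree, P.coeff i * a ^ i) ≤
        nrm v P.coeffs * ∑ i ∈ Finset.range P.natDegree, v a ^ i := by
      rw [Finset.mul_sum]
      refine (v.sum_le _ _).trans (Finset.sum_le_sum fun i _ => ?_)
      rw [map_mul, map_pow]
      exact mul_le_mul_of_nonneg_right (H2_coeff_le v P i) (pow_nonneg (v.nonneg _) _)
    have h2 := geom_sum_mul (v a) P.natDegree
    have h3 : v P.leadingCoeff * (v a - 1) * v a ^ P.natDegree ≤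
        nrm v P.coeffs * v a ^ P.natDegree := by
      have h4 := mul_le_mul_of_nonneg_right (he'.le.trans h1) (sub_pos.2 hx).le
      rw [mul_assoc (nrm v P.coeffs), h2] at h4
      nlinarith
    have h5 := le_of_mul_le_mul_right h3 hpos
    rw [hp, th, if_pos rfl]
    linarith
  · obtain ⟨e, hd⟩ : ∃ e, P.natDegree = e + 1 := by
      refine Nat.exists_eq_succ_of_ne_zero fun h0 => ?_
      rw [h0] at he
      simp at he
      exact hP he
    have h1 := hv.sum_le (Finset.range P.natDegree) (fun i => P.coeff i * a ^ i)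
      (M := nrm v P.coeffs * v a ^ e) (mul_nonneg hM (pow_nonneg (v.nonneg _) _)) fun i hi => by
        rw [map_mul, map_pow]
        refine mul_le_mul (H2_coeff_le v P i) (pow_le_pow_right₀ hx.le ?_)
          (pow_nonneg (v.nonneg _) _) hM
        have := Finset.mem_range.1 hi
        omega
    rw [th, if_neg hp, one_mul, ← he', hd, pow_succ'] at h1
    rw [th, if_neg hp, one_mul]
    refine le_of_mul_le_mul_right ?_ (pow_pos (zero_lt_one.trans hx) e)
    linarith

/-- a root of a nonzero polynomial -/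
theorem h1_root_le {P : Polynomial Qb} (hP : P ≠ 0) {a : Qb} (ha : P.IsRoot a) :
    h1 a ≤ ht P.coeffs + Real.log 2 := by
  have hl : P.leadingCoeff ≠ 0 := Polynomial.leadingCoeff_ne_zero.2 hP
  unfold h1
  rw [← ht_smul hl, Finset.image_insert, Finset.image_singleton, mul_one]
  have key := ht_le_of_local1 (s := {P.leadingCoeff, P.leadingCoeff * a}) (t := P.coeffs)
    ⟨_, by simp, hl⟩ ⟨_, Polynomial.coeff_mem_coeffs hl, hl⟩ 1 two_pos fun p v hv => by
      have hM := nrm_nonneg v P.coeffs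
      have hth := H2_one_le_th p (c := 2) one_le_two
      rw [pow_one]
      refine nrm_le v (by positivity) fun b hb => ?_
      rcases Finset.mem_insert.1 hb with rfl | hb
      · exact (H2_coeff_le v P _).trans (le_mul_of_one_le_left hM hth)
      · rw [Finset.mem_singleton.1 hb]
        exact H2_root hv hP ha
  rw [Nat.cast_one, one_mul, add_comm] at key
  exact key

end Pool.Agent.E6b

end

section
open scoped NNReal TensorProduct IntermediateField BigOperators Classical Topology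
open Filter

namespace Pool.Agent.E6b

theorem O2_ev_notMem {κ F : Type} [Field κ] [Field F] [Algebra κ F] (P : Place κ F) {f : F}
    (hf : f ∉ P.O) : P.ev f = 0 := by
  rw [Place.ev, dif_neg]
  rintro ⟨c, hc⟩
  have h1 : f - algebraMap κ F c ∈ P.O := (P.O.valuation_le_one_iff _).1 hc.le
  exact hf (by simpa using P.O.add_mem _ _ h1 (P.const c))

theorem O2_deg_map {α γ : Type} (g : α → γ) (D : α →₀ ℤ) :
    ((D.mapDomain g).sum fun _ n => n) = D.sum fun _ n => n :=
  Finsupp.sum_mapDomain_index (fun _ => rfl) fun _ _ _ => rfl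

end Pool.Agent.E6b

end

section
open scoped NNReal TensorProduct IntermediateField BigOperators Classical Topology
open Filter

namespace Pool.Agent.E6b

theorem Gelf_sum_lt {v : AbsoluteValue Qb ℝ} (hv : IsNonarchimedean v) {ι : Type*} (s : Finset ι)
    (f : ι → Qb) {M : ℝ} (hM : 0 < M) (hf : ∀ i ∈ s, v (f i) < M) : v (∑ i ∈ s, f i) < M := by
  induction s using Finset.induction_on with
  | empty => simpa using hM
  | insert a s ha ih =>
    rw [Finset.sum_insert ha]
    refine (hv _ _).trans_lt (max_lt (hf a (Finset.mem_insert_self _ _)) (ih fun i hi => ?_))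
    exact hf i (Finset.mem_insert_of_mem hi)

theorem Gelf_coeff_le {σ : Type} (v : AbsoluteValue Qb ℝ) (P : MvPolynomial σ Qb) (m : σ →₀ ℕ) :
    v (P.coeff m) ≤ nrm v P.coeffs := by
  by_cases h : P.coeff m = 0
  · rw [h, map_zero]
    exact nrm_nonneg v _
  · exact le_nrm v (MvPolynomial.coeff_mem_coeffs m h)

theorem Gelf_nrm_le {σ : Type} (v : AbsoluteValue Qb ℝ) (P : MvPolynomial σ Qb) {M : ℝ}
    (hM : 0 ≤ M) (h : ∀ m, v (P.coeff m) ≤ M) : nrm v P.coeffs ≤ M := by
  refine nrm_le v hM fun a ha => ?_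
  obtain ⟨m, -, rfl⟩ := MvPolynomial.mem_coeffs_iff.1 ha
  exact h m

theorem Gelf_exists_ne {σ : Type} {P : MvPolynomial σ Qb} (hP : P ≠ 0) :
    ∃ a ∈ P.coeffs, a ≠ 0 := by
  obtain ⟨m, hm⟩ := MvPolynomial.exists_coeff_ne_zero hP
  exact ⟨_, MvPolynomial.coeff_mem_coeffs m hm, hm⟩

theorem Gelf_exists_eq {σ : Type} (v : AbsoluteValue Qb ℝ) {P : MvPolynomial σ Qb} (hP : P ≠ 0) :
    ∃ m ∈ P.support, v (P.coeff m) = nrm v P.coeffs := by
  obtain ⟨a, ha, -⟩ := Gelf_exists_ne hP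
  obtain ⟨b, hb, hb'⟩ := exists_nrm_eq v ⟨a, ha⟩
  obtain ⟨m, hm, rfl⟩ := MvPolynomial.mem_coeffs_iff.1 hb
  exact ⟨m, hm, hb'⟩

theorem Gelf_nrm_zero {σ : Type} (v : AbsoluteValue Qb ℝ) :
    nrm v (0 : MvPolynomial σ Qb).coeffs = 0 :=
  le_antisymm (Gelf_nrm_le v 0 le_rfl fun m => by simp) (nrm_nonneg v _)

theorem Gelf_nrm_one {σ : Type} (v : AbsoluteValue Qb ℝ) :
    nrm v (1 : MvPolynomial σ Qb).coeffs = 1 := by
  rw [MvPolynomial.coeffs_one_of_nontrivial]
  obtain ⟨a, ha, h⟩ := exists_nrm_eq v (Finset.singleton_nonempty (1 : Qb))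
  rw [Finset.mem_singleton.1 ha, map_one] at h
  exact h.symm

/-- the largest monomial at which the norm is attained -/
theorem Gelf_top {σ : Type} [LinearOrder σ] (v : AbsoluteValue Qb ℝ) {P : MvPolynomial σ Qb}
    (hP : P ≠ 0) : ∃ m : σ →₀ ℕ, v (P.coeff m) = nrm v P.coeffs ∧
      ∀ m' : σ →₀ ℕ, toLex m < toLex m' → v (P.coeff m') < nrm v P.coeffs := by
  obtain ⟨m0, hm0, hm0'⟩ := Gelf_exists_eq v hP
  obtain ⟨m, hm, hmax⟩ := Finset.exists_max_image
    (P.support.filter fun m => v (P.coeff m) = nrm v P.coeffs) (fun m => toLex m)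
    ⟨m0, Finset.mem_filter.2 ⟨hm0, hm0'⟩⟩
  refine ⟨m, (Finset.mem_filter.1 hm).2, fun m' hm' => ?_⟩
  refine lt_of_le_of_ne (Gelf_coeff_le v P m') fun he => ?_
  have h1 : m' ∈ P.support := by
    rw [MvPolynomial.mem_support_iff]
    intro h0
    rw [h0, map_zero] at he
    exact (nrm_pos v (Gelf_exists_ne hP)).ne he
  exact absurd (hmax m' (Finset.mem_filter.2 ⟨h1, he⟩)) (not_le.2 hm')

theorem Gelf_coeff_mul {σ : Type} (P Q : MvPolynomial σ Qb) (m : σ →₀ ℕ) :
    ∃ T : Finset ((σ →₀ ℕ) × (σ →₀ ℕ)), (∀ x, x ∈ T ↔ x.1 + x.2 = m) ∧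
      (P * Q).coeff m = ∑ x ∈ T, P.coeff x.1 * Q.coeff x.2 :=
  ⟨_, fun _ => Finset.HasAntidiagonal.mem_antidiagonal, MvPolynomial.coeff_mul P Q m⟩

/-- Gauss lemma at a non-archimedean place. -/
theorem nrm_coeffs_mul {σ : Type} {p : ℕ} {v : AbsoluteValue Qb ℝ} (h : IsPl p v) (hp : p ≠ 0)
    (P Q : MvPolynomial σ Qb) : nrm v (P * Q).coeffs = nrm v P.coeffs * nrm v Q.coeffs := by
  have hv := h.nonarch hp
  by_cases hP : P = 0
  · rw [hP, zero_mul, Gelf_nrm_zero, zero_mul]
  by_cases hQ : Q = 0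
  · rw [hQ, mul_zero, Gelf_nrm_zero, mul_zero]
  have hP0 := nrm_pos v (Gelf_exists_ne hP)
  have hQ0 := nrm_pos v (Gelf_exists_ne hQ)
  apply le_antisymm
  · refine Gelf_nrm_le v _ (by positivity) fun m => ?_
    obtain ⟨T, -, hT⟩ := Gelf_coeff_mul P Q m
    rw [hT]
    have := h.sum_le T (fun x => P.coeff x.1 * Q.coeff x.2)
      (M := nrm v P.coeffs * nrm v Q.coeffs) (by positivity) fun x _ => by
        rw [map_mul]
        exact mul_le_mul (Gelf_coeff_le v P _) (Gelf_coeff_le v Q _) (v.nonneg _) hP0.le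
    rwa [th, if_neg hp, one_mul] at this
  · let _ : LinearOrder σ := linearOrderOfSTO WellOrderingRel
    obtain ⟨a, ha, ha'⟩ := Gelf_top v hP
    obtain ⟨b, hb, hb'⟩ := Gelf_top v hQ
    refine le_trans ?_ (Gelf_coeff_le v (P * Q) (a + b))
    obtain ⟨T, hT, hT'⟩ := Gelf_coeff_mul P Q (a + b)
    have hab : (a, b) ∈ T := (hT _).2 rfl
    rw [hT', ← Finset.add_sum_erase _ _ hab]
    have h1 : v (P.coeff a * Q.coeff b) = nrm v P.coeffs * nrm v Q.coeffs := by
      rw [map_mul, ha, hb]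
    have h2 : v (∑ x ∈ T.erase (a, b), P.coeff x.1 * Q.coeff x.2) <
        nrm v P.coeffs * nrm v Q.coeffs := by
      refine Gelf_sum_lt hv _ _ (by positivity) fun x hx => ?_
      obtain ⟨hx1, hx2⟩ := Finset.mem_erase.1 hx
      have hx3 : x.1 + x.2 = a + b := (hT _).1 hx2
      rw [map_mul]
      by_cases h3 : toLex a < toLex x.1
      · exact (mul_le_mul_of_nonneg_left (Gelf_coeff_le v Q _) (v.nonneg _)).trans_lt
          (mul_lt_mul_of_pos_right (ha' _ h3) hQ0)
      · have h4 : toLex b < toLex x.2 := by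
          by_contra h4
          have h5 : toLex x.1 + toLex x.2 = toLex a + toLex b := congrArg toLex hx3
          have h6 := (add_eq_add_iff_eq_and_eq (not_lt.1 h3) (not_lt.1 h4)).1 h5
          exact hx1 (Prod.ext (toLex.injective h6.1) (toLex.injective h6.2))
        exact (mul_le_mul_of_nonneg_right (Gelf_coeff_le v P _) (v.nonneg _)).trans_lt
          (mul_lt_mul_of_pos_left (hb' _ h4) hP0)
    by_contra h3
    have h4 := hv (P.coeff a * Q.coeff b +
      ∑ x ∈ T.erase (a, b), P.coeff x.1 * Q.coeff x.2)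
      (-∑ x ∈ T.erase (a, b), P.coeff x.1 * Q.coeff x.2)
    rw [add_neg_cancel_right, h1, v.map_neg] at h4
    exact absurd h4 (not_le.2 (max_lt (not_le.1 h3) h2))

theorem Gelf_parseval (p : Polynomial ℂ) {B : ℝ} (h : ∀ z : ℂ, ‖z‖ = 1 → ‖p.eval z‖ ≤ B) :
    ∑ i ∈ p.support, ‖p.coeff i‖ ^ 2 ≤ B ^ 2 := by
  rw [p.sum_sq_norm_coeff_eq_circleAverage]
  refine Real.circleAverage_mono_on_of_le_circle ?_ fun x hx => ?_
  · exact Continuous.continuousOn (by fun_prop) |>.circleIntegrable zero_le_one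
  · refine pow_le_pow_left₀ (norm_nonneg _) (h x ?_) 2
    simpa using hx

theorem Gelf_mahler_le (p : Polynomial ℂ) {B : ℝ} (h : ∀ z : ℂ, ‖z‖ = 1 → ‖p.eval z‖ ≤ B) :
    p.mahlerMeasure ≤ B := by
  have hB : 0 ≤ B := (norm_nonneg _).trans (h 1 norm_one)
  refine p.mahlerMeasure_le_sqrt_sum_sq_norm_coeff.trans ?_
  rw [Real.sqrt_le_left hB]
  exact Gelf_parseval p h

theorem Gelf_coeff_le1 (p : Polynomial ℂ) {B : ℝ} (h : ∀ z : ℂ, ‖z‖ = 1 → ‖p.eval z‖ ≤ B)
    (n : ℕ) : ‖p.coeff n‖ ≤ B := by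
  have hB : 0 ≤ B := (norm_nonneg _).trans (h 1 norm_one)
  by_cases hn : n ∈ p.support
  · have h1 := Finset.single_le_sum (f := fun i => ‖p.coeff i‖ ^ 2) (fun _ _ => by positivity) hn
    exact (pow_le_pow_iff_left₀ (norm_nonneg _) hB two_ne_zero).1 (h1.trans (Gelf_parseval p h))
  · rw [Polynomial.notMem_support_iff.1 hn, norm_zero]
    exact hB

theorem Gelf_eval_le (p : Polynomial ℂ) {z : ℂ} (hz : ‖z‖ = 1) :
    ‖p.eval z‖ ≤ 2 ^ p.natDegree * p.mahlerMeasure := by
  rw [Polynomial.eval_eq_sum_range]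
  refine (norm_sum_le _ _).trans ?_
  have h1 : ∀ i ∈ Finset.range (p.natDegree + 1), ‖p.coeff i * z ^ i‖ ≤
      (p.natDegree.choose i : ℝ) * p.mahlerMeasure := by
    intro i _
    rw [norm_mul, norm_pow, hz, one_pow, mul_one]
    exact p.norm_coeff_le_choose_mul_mahlerMeasure i
  refine (Finset.sum_le_sum h1).trans (le_of_eq ?_)
  rw [← Finset.sum_mul, ← Nat.cast_sum, Nat.sum_range_choose]
  push_cast
  rfl

theorem Gelf_mahler_prod {ι : Type} (s : Finset ι) (G : ι → Polynomial ℂ) :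
    (∏ i ∈ s, G i).mahlerMeasure = ∏ i ∈ s, (G i).mahlerMeasure := by
  induction s using Finset.induction_on with
  | empty => simp
  | insert a s ha ih =>
    rw [Finset.prod_insert ha, Finset.prod_insert ha, Polynomial.mahlerMeasure_mul, ih]

theorem Gelf_one_var {ι : Type} (s : Finset ι) (G : ι → Polynomial ℂ) (t : ι → ℂ)
    (ht : ∀ i, ‖t i‖ = 1) {B : ℝ} (h : ∀ z : ℂ, ‖z‖ = 1 → ∏ i ∈ s, ‖(G i).eval z‖ ≤ B) :
    ∏ i ∈ s, ‖(G i).eval (t i)‖ ≤ 2 ^ (∑ i ∈ s, (G i).natDegree) * B := by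
  have h1 : (∏ i ∈ s, G i).mahlerMeasure ≤ B := by
    refine Gelf_mahler_le _ fun z hz => ?_
    rw [Polynomial.eval_prod, norm_prod]
    exact h z hz
  refine (Finset.prod_le_prod (fun _ _ => norm_nonneg _) fun i _ => Gelf_eval_le (G i) (ht i)).trans
    ?_
  rw [Finset.prod_mul_distrib, Finset.prod_pow_eq_pow_sum, ← Gelf_mahler_prod]
  exact mul_le_mul_of_nonneg_left h1 (by positivity)

theorem Gelf_restrict {σ : Type} [Fintype σ] (F : MvPolynomial σ ℂ) (a : σ → ℂ) (j : σ) :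
    ∃ G : Polynomial ℂ, G.natDegree ≤ F.degreeOf j ∧
      ∀ t, G.eval t = MvPolynomial.eval (Function.update a j t) F := by
  refine ⟨∑ m ∈ F.support, Polynomial.monomial (m j)
    (F.coeff m * ∏ k ∈ Finset.univ.erase j, a k ^ m k), ?_, fun t => ?_⟩
  · refine Polynomial.natDegree_sum_le_of_forall_le _ _ fun m hm => ?_
    exact (Polynomial.natDegree_monomial_le _).trans (MvPolynomial.monomial_le_degreeOf j hm)
  · rw [Polynomial.eval_finsetSum, MvPolynomial.eval_eq']
    refine Finset.sum_congr rfl fun m _ => ?_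
    rw [Polynomial.eval_monomial, ← Finset.mul_prod_erase _ _ (Finset.mem_univ j),
      Function.update_self]
    have h1 : ∏ k ∈ Finset.univ.erase j, Function.update a j t k ^ m k =
        ∏ k ∈ Finset.univ.erase j, a k ^ m k := by
      refine Finset.prod_congr rfl fun k hk => ?_
      rw [Function.update_of_ne (Finset.ne_of_mem_erase hk)]
    rw [h1]
    ring

theorem Gelf_hybrid {σ ι : Type} [Fintype σ] (s : Finset ι) (F : ι → MvPolynomial σ ℂ) (d : σ → ℕ)
    (hd : ∀ j, ∑ i ∈ s, (F i).degreeOf j ≤ d j) {B : ℝ}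
    (h : ∀ z : σ → ℂ, (∀ j, ‖z j‖ = 1) → ∏ i ∈ s, ‖MvPolynomial.eval z (F i)‖ ≤ B)
    (T : Finset σ) : ∀ (c : σ → ℂ) (a : ι → σ → ℂ), (∀ j, ‖c j‖ = 1) → (∀ i j, ‖a i j‖ = 1) →
      (∀ i, ∀ j ∉ T, a i j = c j) →
      ∏ i ∈ s, ‖MvPolynomial.eval (a i) (F i)‖ ≤ 2 ^ (∑ j ∈ T, d j) * B := by
  have hB : 0 ≤ B := (Finset.prod_nonneg fun _ _ => norm_nonneg _).trans
    (h (fun _ => 1) fun _ => norm_one)
  induction T using Finset.induction_on with
  | empty =>
    intro c a hc _ hac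
    have h1 : ∀ i, a i = c := fun i => funext fun j => hac i j (Finset.notMem_empty j)
    simp only [h1, Finset.sum_empty, pow_zero, one_mul]
    exact h c hc
  | insert j T hj ih =>
    intro c a hc ha hac
    choose G hG1 hG2 using fun i => Gelf_restrict (F i) (a i) j
    have h1 := Gelf_one_var s G (fun i => a i j) (fun i => ha i j)
      (B := 2 ^ (∑ j ∈ T, d j) * B) (by
        intro z hz
        simp only [hG2]
        refine ih (Function.update c j z) (fun i => Function.update (a i) j z) ?_ ?_ ?_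
        · intro k
          by_cases hk : k = j
          · rw [hk, Function.update_self, hz]
          · rw [Function.update_of_ne hk, hc]
        · intro i k
          by_cases hk : k = j
          · rw [hk, Function.update_self, hz]
          · rw [Function.update_of_ne hk, ha]
        · intro i k hkT
          by_cases hk : k = j
          · rw [hk, Function.update_self, Function.update_self]
          · rw [Function.update_of_ne hk, Function.update_of_ne hk]
            exact hac i k fun hm => (Finset.mem_insert.1 hm).elim hk hkT)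
    simp only [hG2, Function.update_eq_self] at h1
    refine h1.trans ?_
    rw [Finset.sum_insert hj, pow_add, mul_assoc]
    refine mul_le_mul_of_nonneg_right (pow_le_pow_right₀ one_le_two ?_) (by positivity)
    exact (Finset.sum_le_sum fun i _ => hG1 i).trans (hd j)

theorem Gelf_coeff_fin (n : ℕ) : ∀ (F : MvPolynomial (Fin n) ℂ) {B : ℝ},
    (∀ z : Fin n → ℂ, (∀ j, ‖z j‖ = 1) → ‖MvPolynomial.eval z F‖ ≤ B) →
    ∀ m, ‖F.coeff m‖ ≤ B := by
  induction n with
  | zero =>
    intro F B h m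
    have h1 := h (fun _ => 1) fun _ => norm_one
    rw [MvPolynomial.eq_C_of_isEmpty F, MvPolynomial.eval_C] at h1
    rwa [Subsingleton.elim m 0]
  | succ n ih =>
    intro F B h m
    rw [← Finsupp.cons_tail m, ← MvPolynomial.finSuccEquiv_coeff_coeff]
    refine ih _ (fun z hz => ?_) _
    rw [← Polynomial.coeff_map]
    refine Gelf_coeff_le1 _ (fun y hy => ?_) _
    rw [← MvPolynomial.eval_eq_eval_mv_eval']
    refine h _ fun j => ?_
    refine Fin.cases ?_ (fun k => ?_) j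
    · simpa using hy
    · simpa using hz k

theorem Gelf_coeff_torus {σ : Type} [Fintype σ] (F : MvPolynomial σ ℂ) (m : σ →₀ ℕ) :
    ∃ z : σ → ℂ, (∀ j, ‖z j‖ = 1) ∧ ‖F.coeff m‖ ≤ ‖MvPolynomial.eval z F‖ := by
  have hK : IsCompact (Set.pi Set.univ fun _ : σ => Metric.sphere (0 : ℂ) 1) :=
    isCompact_univ_pi fun _ => isCompact_sphere 0 1
  obtain ⟨z, hz, hmax⟩ := hK.exists_isMaxOn (f := fun z => ‖MvPolynomial.eval z F‖)
    ⟨fun _ => 1, fun _ _ => by simp⟩ (MvPolynomial.continuous_eval F).norm.continuousOn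
  refine ⟨z, fun j => by simpa using hz j (Set.mem_univ j), ?_⟩
  let e := Fintype.equivFin σ
  rw [← MvPolynomial.coeff_rename_mapDomain e e.injective]
  refine Gelf_coeff_fin _ _ (fun w hw => ?_) _
  rw [MvPolynomial.eval_rename]
  exact hmax (show w ∘ e ∈ Set.pi Set.univ fun _ : σ => Metric.sphere (0 : ℂ) 1 from
    fun j _ => by simpa using hw (e j))

theorem Gelf_card_support {σ R : Type} [Fintype σ] [CommSemiring R] (F : MvPolynomial σ R)
    (d : σ → ℕ) (hd : ∀ j, F.degreeOf j ≤ d j) :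
    (F.support.card : ℝ) ≤ Real.exp (∑ j, (d j : ℝ)) := by
  have h1 : F.support.card ≤ (Fintype.piFinset fun j => Finset.range (d j + 1)).card := by
    refine Finset.card_le_card_of_injOn (fun m => (m : σ → ℕ)) (fun m hm => ?_)
      fun m _ m' _ hmm => DFunLike.coe_injective hmm
    refine Finset.mem_coe.2 (Fintype.mem_piFinset.2 fun j => Finset.mem_range.2 ?_)
    exact Nat.lt_succ_of_le ((MvPolynomial.monomial_le_degreeOf j (Finset.mem_coe.1 hm)).trans (hd j))
  rw [Fintype.card_piFinset] at h1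
  refine (Nat.cast_le.2 h1).trans ?_
  rw [Real.exp_sum, Nat.cast_prod]
  refine Finset.prod_le_prod (fun _ _ => Nat.cast_nonneg _) fun j _ => ?_
  rw [Finset.card_range]
  push_cast
  exact Real.add_one_le_exp _

theorem Gelf_complex {σ ι : Type} [Fintype σ] (s : Finset ι) (F : ι → MvPolynomial σ ℂ)
    (hF : ∀ i ∈ s, F i ≠ 0) (d : σ → ℕ) (hd : ∀ j, (∏ i ∈ s, F i).degreeOf j ≤ d j) {N : ℝ}
    (hN0 : 0 ≤ N) (hN : ∀ m, ‖(∏ i ∈ s, F i).coeff m‖ ≤ N) (m : ι → σ →₀ ℕ) :
    ∏ i ∈ s, ‖(F i).coeff (m i)‖ ≤ Real.exp (2 * ∑ j, (d j : ℝ)) * N := by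
  choose a ha1 ha2 using fun i => Gelf_coeff_torus (F i) (m i)
  refine (Finset.prod_le_prod (fun _ _ => norm_nonneg _) fun i _ => ha2 i).trans ?_
  have h1 := Gelf_hybrid s F d (fun j => by
      rw [← MvPolynomial.degreeOf_prod_eq s F hF]
      exact hd j) (B := Real.exp (∑ j, (d j : ℝ)) * N) (by
      intro z hz
      rw [← norm_prod, ← map_prod, MvPolynomial.eval_eq']
      refine (norm_sum_le _ _).trans ?_
      refine (Finset.sum_le_card_nsmul _ _ N fun k _ => ?_).trans ?_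
      · rw [norm_mul, norm_prod]
        simp only [norm_pow, hz, one_pow, Finset.prod_const_one, mul_one]
        exact hN k
      · rw [nsmul_eq_mul]
        exact mul_le_mul_of_nonneg_right (Gelf_card_support _ d hd) hN0)
    Finset.univ (fun _ => 1) a (fun _ => norm_one) ha1 fun _ j hj => absurd (Finset.mem_univ j) hj
  refine h1.trans ?_
  rw [two_mul, Real.exp_add, mul_assoc]
  refine mul_le_mul_of_nonneg_right ?_ (by positivity)
  rw [← Nat.cast_sum, ← Real.exp_one_pow]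
  refine pow_le_pow_left₀ zero_le_two ?_ _
  have := Real.add_one_le_exp 1
  linarith

/-- Gelfond's inequality at an archimedean place. -/
theorem prod_nrm_coeffs_le {σ ι : Type} [Fintype σ] {v : AbsoluteValue Qb ℝ} (h : IsPl 0 v)
    (s : Finset ι) (P : ι → MvPolynomial σ Qb) (d : σ → ℕ)
    (hd : ∀ j, (∏ i ∈ s, P i).degreeOf j ≤ d j) :
    ∏ i ∈ s, nrm v (P i).coeffs ≤ Real.exp (2 * ∑ j, (d j : ℝ)) * nrm v (∏ i ∈ s, P i).coeffs := by
  by_cases hP : ∀ i ∈ s, P i ≠ 0
  swap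
  · push Not at hP
    obtain ⟨i, hi, hi0⟩ := hP
    rw [Finset.prod_eq_zero hi (by rw [hi0, Gelf_nrm_zero])]
    exact mul_nonneg (Real.exp_pos _).le (nrm_nonneg v _)
  obtain ⟨φ, hφ⟩ : ∃ φ : Qb →+* ℂ, ∀ x, v x = ‖φ x‖ := by
    rcases h with h | h
    · exact h.2
    · exact absurd h.1 Nat.not_prime_zero
  have hm : ∀ i, ∃ m : σ →₀ ℕ, i ∈ s → v ((P i).coeff m) = nrm v (P i).coeffs := by
    intro i
    by_cases hi : i ∈ s
    · obtain ⟨m, -, hm⟩ := Gelf_exists_eq v (hP i hi)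
      exact ⟨m, fun _ => hm⟩
    · exact ⟨0, fun h => absurd h hi⟩
  choose m hm using hm
  have h1 := Gelf_complex s (fun i => MvPolynomial.map φ (P i))
    (fun i hi h0 => hP i hi (MvPolynomial.map_injective φ φ.injective (by rw [h0, map_zero]))) d
    (fun j => by
      rw [← map_prod]
      refine le_trans ?_ (hd j)
      rw [MvPolynomial.degreeOf_le_iff]
      intro k hk
      exact MvPolynomial.monomial_le_degreeOf j (MvPolynomial.support_map_subset _ _ hk))
    (nrm_nonneg v (∏ i ∈ s, P i).coeffs) (fun k => by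
      rw [← map_prod, MvPolynomial.coeff_map, ← hφ]
      exact Gelf_coeff_le v _ k) m
  refine le_trans (le_of_eq (Finset.prod_congr rfl fun i hi => ?_)) h1
  rw [MvPolynomial.coeff_map, ← hφ, hm i hi]

theorem Gelf_nrm_prod {σ ι : Type} {p : ℕ} {v : AbsoluteValue Qb ℝ} (h : IsPl p v) (hp : p ≠ 0)
    (s : Finset ι) (P : ι → MvPolynomial σ Qb) :
    nrm v (∏ i ∈ s, P i).coeffs = ∏ i ∈ s, nrm v (P i).coeffs := by
  induction s using Finset.induction_on with
  | empty => rw [Finset.prod_empty, Finset.prod_empty, Gelf_nrm_one]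
  | insert a s ha ih =>
    rw [Finset.prod_insert ha, Finset.prod_insert ha, nrm_coeffs_mul h hp, ih]

theorem gelfond {σ ι : Type} [Fintype σ] (s : Finset ι) (P : ι → MvPolynomial σ Qb)
    (hP : ∀ i ∈ s, P i ≠ 0) (d : σ → ℕ) (hd : ∀ j, (∏ i ∈ s, P i).degreeOf j ≤ d j) :
    ∑ i ∈ s, hp (P i) ≤ hp (∏ i ∈ s, P i) + 2 * ∑ j, (d j : ℝ) := by
  have hQ : ∏ i ∈ s, P i ≠ 0 := Finset.prod_ne_zero_iff.2 hP
  have h1 := htSpec.lg (r := Option s)
    (fun o => o.elim (∏ i ∈ s, P i).coeffs fun i => (P i).coeffs)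
    (fun o => o.elim (-1) fun _ => 1) (Finsupp.single 0 (2 * ∑ j, (d j : ℝ)))
    (by
      rintro (_ | i)
      · exact Gelf_exists_ne hQ
      · exact Gelf_exists_ne (hP i i.2))
    (fun p hp => by rw [Finsupp.single_eq_of_ne hp])
    (by
      intro p v hv
      rw [Fintype.sum_option]
      simp only [Option.elim, one_mul]
      rw [Finset.sum_coe_sort s fun i => Real.log (nrm v (P i).coeffs),
        ← Real.log_prod fun i hi => (nrm_pos v (Gelf_exists_ne (hP i hi))).ne']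
      by_cases hp : p = 0
      · subst hp
        have h2 := Real.log_le_log
          (Finset.prod_pos fun i hi => nrm_pos v (Gelf_exists_ne (hP i hi)))
          (prod_nrm_coeffs_le hv s P d hd)
        rw [Real.log_mul (Real.exp_pos _).ne' (nrm_pos v (Gelf_exists_ne hQ)).ne',
          Real.log_exp] at h2
        rw [Finsupp.single_eq_same]
        linarith
      · rw [Finsupp.single_eq_of_ne hp, Gelf_nrm_prod hv hp]
        linarith)
  rw [Fintype.sum_option, Finsupp.sum_single_index rfl] at h1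
  simp only [Option.elim, one_mul] at h1
  rw [Finset.sum_coe_sort s fun i => ht (P i).coeffs] at h1
  unfold Pool.Agent.E6b.hp
  linarith

end Pool.Agent.E6b

end

section
open scoped NNReal TensorProduct IntermediateField BigOperators Classical Topology
open Filter

namespace Pool.Agent.E6b

/-- two-block weights -/
def wt {σ : Type} (blk : σ → Bool) (d₁ d₂ : ℕ) : σ → ℕ := fun j => if blk j then d₂ else d₁

end Pool.Agent.E6b

end

section
open scoped NNReal TensorProduct IntermediateField BigOperators Classical Topology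
open Filter

namespace Pool.Agent.E6b
open MvPolynomial

theorem PT2_coprime {A K : Type*} [CommRing A] [IsDomain A] [UniqueFactorizationMonoid A]
    [Field K] [Algebra A K] [IsFractionRing A K] (f g : Polynomial A) (hf : f ≠ 0)
    (h : ∀ q : Polynomial A, Irreducible q → q ∣ f → ¬ q ∣ g) :
    IsCoprime (f.map (algebraMap A K)) (g.map (algebraMap A K)) := by
  have hinj : Function.Injective (algebraMap A K) := IsFractionRing.injective A K
  obtain ⟨inst⟩ : Nonempty (NormalizedGCDMonoid A) := inferInstance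
  refine isCoprime_of_dvd _ _ (fun h0 => hf ?_) ?_
  · exact (Polynomial.map_eq_zero_iff hinj).1 h0.1
  intro z hz hz0 hzf hzg
  set w := IsLocalization.integerNormalization (nonZeroDivisors A) z with hw
  obtain ⟨b, hb, hbz⟩ := IsLocalization.integerNormalization_spec (nonZeroDivisors A) z
  have hb0 : algebraMap A K b ≠ 0 := by
    intro h0
    exact nonZeroDivisors.ne_zero hb (hinj (by simpa using h0))
  have hdz : w.primPart.map (algebraMap A K) ∣ z := by
    have h1 : w.primPart.map (algebraMap A K) ∣ w.map (algebraMap A K) :=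
      Polynomial.map_dvd _ w.primPart_dvd
    rw [hw, hbz, Algebra.smul_def, Polynomial.algebraMap_apply] at h1
    exact (IsUnit.dvd_mul_left (Polynomial.isUnit_C.2 (IsUnit.mk0 _ hb0))).1 h1
  have hnu : ¬ IsUnit w.primPart := fun hu =>
    hz (Polynomial.isUnit_or_eq_zero_of_isUnit_integerNormalization_primPart hz0 hu)
  obtain ⟨q, hq, hqw⟩ := WfDvdMonoid.exists_irreducible_factor hnu w.primPart_ne_zero
  exact h q hq
    (hqw.trans (w.isPrimitive_primPart.dvd_of_fraction_map_dvd_fraction_map (hdz.trans hzf)))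
    (hqw.trans (w.isPrimitive_primPart.dvd_of_fraction_map_dvd_fraction_map (hdz.trans hzg)))

theorem PT2_res_ne_zero {A : Type*} [CommRing A] [IsDomain A] [UniqueFactorizationMonoid A]
    (f g : Polynomial A) (hf : f ≠ 0)
    (h : ∀ q : Polynomial A, Irreducible q → q ∣ f → ¬ q ∣ g) (n : ℕ) (hn : g.natDegree ≤ n) :
    Polynomial.resultant f g f.natDegree n ≠ 0 := by
  obtain ⟨k, rfl⟩ := Nat.exists_eq_add_of_le hn
  rw [Polynomial.resultant_add_right_deg _ _ _ _ _ le_rfl]
  refine mul_ne_zero (pow_ne_zero _ (Polynomial.leadingCoeff_ne_zero.2 hf)) ?_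
  have hinj : Function.Injective (algebraMap A (FractionRing A)) :=
    IsFractionRing.injective A (FractionRing A)
  have h1 := Polynomial.resultant_ne_zero _ _ (PT2_coprime (K := FractionRing A) f g hf h)
  rw [Polynomial.natDegree_map_eq_of_injective hinj, Polynomial.natDegree_map_eq_of_injective hinj,
    Polynomial.resultant_map_map] at h1
  intro h0
  exact h1 (by rw [h0, map_zero])

theorem PT2_res_taylor {A : Type*} [CommRing A] (f g : Polynomial A) (r : A) (n : ℕ)
    (hn : g.natDegree ≤ n) :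
    Polynomial.resultant (Polynomial.taylor r f) (Polynomial.taylor r g) f.natDegree n =
      Polynomial.resultant f g f.natDegree n := by
  obtain ⟨k, rfl⟩ := Nat.exists_eq_add_of_le hn
  have h1 := Polynomial.resultant_taylor f g r
  rw [Polynomial.natDegree_taylor, Polynomial.natDegree_taylor] at h1
  have h2 := Polynomial.leadingCoeff_taylor r f
  rw [Polynomial.leadingCoeff, Polynomial.natDegree_taylor] at h2
  rw [Polynomial.resultant_add_right_deg _ _ _ _ _ le_rfl,
    Polynomial.resultant_add_right_deg _ _ _ _ _ (Polynomial.natDegree_taylor g r).le, h1, h2,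
    Polynomial.leadingCoeff]

theorem PT2_supp_prod {σ ι : Type} (w : (σ →₀ ℕ) → ℝ) (w0 : w 0 = 0)
    (wadd : ∀ a b, w (a + b) = w a + w b) (s : Finset ι) (P : ι → MvPolynomial σ Qb) (t : ι → ℝ)
    (h : ∀ i ∈ s, ∀ m ∈ (P i).support, t i ≤ w m) :
    ∀ m ∈ (∏ i ∈ s, P i).support, ∑ i ∈ s, t i ≤ w m := by
  induction s using Finset.induction_on with
  | empty =>
    intro m hm
    rw [Finset.prod_empty, mem_support_iff, coeff_one] at hm
    have : 0 = m := by by_contra h0; exact hm (if_neg h0)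
    subst this
    simp [w0]
  | insert a s ha ih =>
    intro m hm
    rw [Finset.prod_insert ha] at hm
    obtain ⟨x, hx, y, hy, rfl⟩ := Finset.mem_add.1 (support_mul _ _ hm)
    rw [Finset.sum_insert ha, wadd]
    exact add_le_add (h a (Finset.mem_insert_self _ _) x hx)
      (ih (fun i hi => h i (Finset.mem_insert_of_mem hi)) y hy)

theorem PT2_sign_coeff {σ : Type} (e : ℤˣ) (T : MvPolynomial σ Qb) (m : σ →₀ ℕ) :
    coeff m ((((e : ℤˣ) : ℤ) : MvPolynomial σ Qb) * T) = coeff m T ∨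
      coeff m ((((e : ℤˣ) : ℤ) : MvPolynomial σ Qb) * T) = - coeff m T := by
  rcases Int.units_eq_one_or e with rfl | rfl
  · left; simp
  · right; simp

theorem PT2_supp_det {σ n : Type} [Fintype n] [DecidableEq n] (w : (σ →₀ ℕ) → ℝ) (w0 : w 0 = 0)
    (wadd : ∀ a b, w (a + b) = w a + w b) (M : Matrix n n (MvPolynomial σ Qb)) (t : n → ℝ)
    (h : ∀ i j, ∀ m ∈ (M i j).support, t i ≤ w m) :
    ∀ m ∈ M.det.support, ∑ i, t i ≤ w m := by
  intro m hm
  rw [Matrix.det_apply', mem_support_iff, coeff_sum] at hm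
  obtain ⟨e, -, he⟩ := Finset.exists_ne_zero_of_sum_ne_zero hm
  have h1 : m ∈ (∏ i, M (e i) i).support := by
    rw [mem_support_iff]
    intro h0
    rcases PT2_sign_coeff (Equiv.Perm.sign e) (∏ i, M (e i) i) m with h2 | h2
    · exact he (by rw [h2, h0])
    · exact he (by rw [h2, h0, neg_zero])
  have h2 := PT2_supp_prod w w0 wadd Finset.univ (fun i => M (e i) i) (fun i => t (e i))
    (fun i _ => h (e i) i) m h1
  rwa [Equiv.sum_comp e t] at h2

theorem PT2_nrm_prod {σ ι : Type} {q : ℕ} {v : AbsoluteValue Qb ℝ} (hv : IsPl q v)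
    (s : Finset ι) (P : ι → MvPolynomial σ Qb) {K B : ℝ} (hK0 : 0 ≤ K) (hB0 : 0 ≤ B)
    (hK : ∀ i ∈ s, ((P i).support.card : ℝ) ≤ K) (hB : ∀ i ∈ s, nrm v (P i).coeffs ≤ B) :
    nrm v (∏ i ∈ s, P i).coeffs ≤ (th q K * B) ^ s.card := by
  induction s using Finset.induction_on with
  | empty =>
    rw [Finset.prod_empty, Finset.card_empty, pow_zero]
    refine PT2_nrm_le v _ zero_le_one fun m => ?_
    rw [coeff_one]
    split_ifs <;> simp
  | insert a s ha ih =>
    rw [Finset.prod_insert ha, Finset.card_insert_of_notMem ha, pow_succ', mul_assoc]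
    refine (PT2_nrm_mul hv _ _).trans ?_
    refine mul_le_mul (PT2_th_mono _ (hK a (Finset.mem_insert_self _ _))) ?_
      (mul_nonneg (nrm_nonneg _ _) (nrm_nonneg _ _)) (PT2_th_nonneg _ hK0)
    exact mul_le_mul (hB a (Finset.mem_insert_self _ _))
      (ih (fun i hi => hK i (Finset.mem_insert_of_mem hi))
        (fun i hi => hB i (Finset.mem_insert_of_mem hi))) (nrm_nonneg _ _) hB0

theorem PT2_nrm_det {σ n : Type} [Fintype n] [DecidableEq n] {q : ℕ} {v : AbsoluteValue Qb ℝ}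
    (hv : IsPl q v) (M : Matrix n n (MvPolynomial σ Qb)) {K B : ℝ} (hK0 : 0 ≤ K) (hB0 : 0 ≤ B)
    (hK : ∀ i j, ((M i j).support.card : ℝ) ≤ K) (hB : ∀ i j, nrm v (M i j).coeffs ≤ B) :
    nrm v M.det.coeffs ≤
      th q ((Fintype.card n).factorial : ℕ) * (th q K * B) ^ Fintype.card n := by
  have h0 : 0 ≤ (th q K * B) ^ Fintype.card n :=
    pow_nonneg (mul_nonneg (PT2_th_nonneg _ hK0) hB0) _
  refine PT2_nrm_le v _ (mul_nonneg (PT2_th_nonneg _ (Nat.cast_nonneg _)) h0) fun m => ?_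
  rw [Matrix.det_apply', coeff_sum, ← Fintype.card_perm, ← Finset.card_univ]
  refine hv.sum_le _ _ h0 fun e _ => ?_
  have h1 := PT2_nrm_prod hv Finset.univ (fun i => M (e i) i) hK0 hB0 (fun i _ => hK _ _)
    (fun i _ => hB _ _)
  rw [Finset.card_univ] at h1
  have h2 := (PT2_coeff_le v _ m).trans h1
  rcases PT2_sign_coeff (Equiv.Perm.sign e) (∏ i, M (e i) i) m with h3 | h3
  · rw [h3]; exact h2
  · rw [h3, AbsoluteValue.map_neg]; exact h2

theorem PT2_entry {A : Type*} [CommRing A] (f g : Polynomial A) (m n : ℕ) (i j : Fin (m + n)) :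
    Polynomial.sylvester f g m n i j = 0 ∨
      ∃ c ≤ (i : ℕ), Polynomial.sylvester f g m n i j = f.coeff c ∨
        Polynomial.sylvester f g m n i j = g.coeff c := by
  induction j using Fin.addCases with
  | left j =>
    simp only [Polynomial.sylvester, Matrix.of_apply, Fin.addCases_left]
    split_ifs
    · exact Or.inr ⟨_, Nat.sub_le _ _, Or.inr rfl⟩
    · exact Or.inl rfl
  | right j =>
    simp only [Polynomial.sylvester, Matrix.of_apply, Fin.addCases_right]
    split_ifs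
    · exact Or.inr ⟨_, Nat.sub_le _ _, Or.inl rfl⟩
    · exact Or.inl rfl

theorem PT2_card_supp {N : ℕ} (P : MvPolynomial (Fin N) Qb) (D : Fin N → ℕ)
    (h : ∀ j, P.degreeOf j ≤ D j) : (P.support.card : ℝ) ≤ Real.exp (∑ j, (D j : ℝ)) := by
  have h1 : P.support.card ≤ (Fintype.piFinset fun j => Finset.range (D j + 1)).card := by
    refine Finset.card_le_card_of_injOn (fun m => (m : Fin N → ℕ)) (fun m hm => ?_)
      (fun a _ b _ hab => DFunLike.coe_injective hab)
    rw [Finset.mem_coe, Fintype.mem_piFinset]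
    intro j
    rw [Finset.mem_range]
    exact Nat.lt_succ_of_le ((monomial_le_degreeOf j (Finset.mem_coe.1 hm)).trans (h j))
  rw [Fintype.card_piFinset] at h1
  simp only [Finset.card_range] at h1
  calc (P.support.card : ℝ) ≤ ((∏ j, (D j + 1) : ℕ) : ℝ) := by exact_mod_cast h1
    _ = ∏ j, ((D j : ℝ) + 1) := by push_cast; rfl
    _ ≤ ∏ j, Real.exp (D j) :=
        Finset.prod_le_prod (fun j _ => by positivity) fun j _ => Real.add_one_le_exp _
    _ = _ := (Real.exp_sum _ _).symm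

theorem PT2_sh_inj {σ : Type} (p : σ → Qb) : Function.Injective (PT2_sh p) := by
  have h : (PT2_sh (fun j => - p j)).comp (PT2_sh p) = RingHom.id _ := by
    refine MvPolynomial.ringHom_ext (fun r => ?_) (fun j => ?_)
    · simp [PT2_sh]
    · simp [PT2_sh]
  exact Function.LeftInverse.injective (g := PT2_sh (fun j => - p j))
    fun F => by simpa using RingHom.congr_fun h F

theorem PT2_fin_shf {N : ℕ} (p : Fin (N + 1) → Qb) (F : MvPolynomial (Fin (N + 1)) Qb) :
    finSuccEquiv Qb N (shf p F) =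
      Polynomial.taylor (C (p 0)) ((finSuccEquiv Qb N F).map (PT2_sh fun j => p j.succ)) := by
  have hC : ∀ r : Qb, finSuccEquiv Qb N (C r) = Polynomial.C (C r) := fun r => by
    simp [finSuccEquiv_apply]
  induction F using MvPolynomial.induction_on with
  | C r => simp [shf, hC, PT2_sh]
  | add P Q hP hQ =>
    rw [← PT2_sh_apply, map_add, map_add, PT2_sh_apply, PT2_sh_apply, hP, hQ, map_add,
      Polynomial.map_add, map_add]
  | mul_X P j hP =>
    rw [← PT2_sh_apply, map_mul, map_mul, PT2_sh_apply, hP, map_mul, Polynomial.map_mul,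
      Polynomial.taylor_mul]
    refine congrArg _ ?_
    induction j using Fin.cases with
    | zero => simp [PT2_sh, hC, finSuccEquiv_X_zero]
    | succ j => simp [PT2_sh, hC, finSuccEquiv_X_succ]

theorem PT2_sum_max (D k : ℕ) (hD : 0 < D) (hk : D ≤ k) (τ : ℝ) (h0 : 0 ≤ τ) (h1 : τ ≤ 1) :
    τ ^ 2 / 2 * D ≤ ∑ i : Fin k, max (τ - ((i : ℕ) : ℝ) / D) 0 := by
  rw [Fin.sum_univ_eq_sum_range (fun c => max (τ - (c : ℝ) / D) 0) k]
  have hD' : (0 : ℝ) < D := by exact_mod_cast hD
  set K := ⌈τ * D⌉₊ with hK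
  have hKD : K ≤ D := Nat.ceil_le.2 (by nlinarith)
  have hK1 : τ * D ≤ K := Nat.le_ceil _
  have hK2 : (K : ℝ) < τ * D + 1 := Nat.ceil_lt_add_one (by positivity)
  calc τ ^ 2 / 2 * D ≤ ∑ c ∈ Finset.range K, (τ - (c : ℝ) / D) := by
        rw [Finset.sum_sub_distrib, ← Finset.sum_div, PT2_sum_range, Finset.sum_const,
          Finset.card_range, nsmul_eq_mul]
        have h2 : (K : ℝ) * (K - 1) / 2 / D ≤ K * τ / 2 := by
          rw [div_le_iff₀ hD']
          have : (0 : ℝ) ≤ K := Nat.cast_nonneg _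
          nlinarith
        nlinarith
    _ ≤ ∑ c ∈ Finset.range K, max (τ - (c : ℝ) / D) 0 :=
        Finset.sum_le_sum fun c _ => le_max_left _ _
    _ ≤ _ := Finset.sum_le_sum_of_subset_of_nonneg
        (Finset.range_subset_range.2 (hKD.trans hk)) fun c _ _ => le_max_right _ _

theorem PT2_idx_coeff {N : ℕ} (F : MvPolynomial (Fin (N + 1)) Qb) (p : Fin (N + 1) → Qb)
    (d : Fin (N + 1) → ℕ) (τ : ℝ) (h : IdxGe F p d τ) (c i : ℕ) (hc : c ≤ i)
    (m : Fin N →₀ ℕ) (hm : m ∈ ((finSuccEquiv Qb N (shf p F)).coeff c).support) :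
    max (τ - (i : ℝ) / d 0) 0 ≤ ∑ j, (m j : ℝ) / d j.succ := by
  refine max_le ?_ (Finset.sum_nonneg fun j _ => by positivity)
  have h1 := h _ (mem_support_coeff_finSuccEquiv.1 hm)
  rw [Fin.sum_univ_succ] at h1
  simp only [Finsupp.cons_zero, Finsupp.cons_succ] at h1
  have h2 : (c : ℝ) / d 0 ≤ (i : ℝ) / d 0 :=
    div_le_div_of_nonneg_right (by exact_mod_cast hc) (Nat.cast_nonneg _)
  linarith

theorem PT2_nrm_coeff {N : ℕ} (v : AbsoluteValue Qb ℝ) (F : MvPolynomial (Fin (N + 1)) Qb)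
    (c : ℕ) : nrm v ((finSuccEquiv Qb N F).coeff c).coeffs ≤ nrm v F.coeffs := by
  refine PT2_nrm_le v _ (nrm_nonneg _ _) fun m => ?_
  rw [finSuccEquiv_coeff_coeff]
  exact PT2_coeff_le v F _

theorem PT2_coeffs_ne {σ : Type} {P : MvPolynomial σ Qb} (hP : P ≠ 0) :
    ∃ a ∈ P.coeffs, a ≠ 0 := by
  obtain ⟨m, hm⟩ := ne_zero_iff.1 hP
  exact ⟨_, coeff_mem_coeffs m hm, hm⟩

/-- Elimination of the variable `0` by a resultant. -/
theorem exists_elim {N : ℕ} (F G : MvPolynomial (Fin (N + 1)) Qb) (hF : F ≠ 0)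
    (hcop : ∀ q : MvPolynomial (Fin (N + 1)) Qb, Irreducible q → q ∣ F → ¬ q ∣ G)
    (p : Fin (N + 1) → Qb) (d : Fin (N + 1) → ℕ) (hd : ∀ j, 0 < d j) (a : ℕ) (ha : 0 < a)
    (hdF : ∀ j, F.degreeOf j ≤ a * d j) (hdG : ∀ j, G.degreeOf j ≤ a * d j)
    (τ : ℝ) (hτ0 : 0 ≤ τ) (hτ : τ ≤ 1) (hiF : IdxGe F p d τ) (hiG : IdxGe G p d τ)
    (c : ℝ) (hc : 1 ≤ c)
    (hG : ∀ q v, IsPl q v → nrm v G.coeffs ≤ th q c * nrm v F.coeffs) :
    ∃ R : MvPolynomial (Fin N) Qb, R ≠ 0 ∧
      (∀ j, R.degreeOf j ≤ 2 * a ^ 2 * (d 0 * d j.succ)) ∧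
      IdxGe R (fun j => p j.succ) (fun j => d 0 * d j.succ) (τ ^ 2 / 2) ∧
      hp R ≤ 2 * a * d 0 * (hp F + Real.log c + 3 * a * ∑ j, (d j : ℝ)) := by
  set f := finSuccEquiv Qb N F with hf
  set g := finSuccEquiv Qb N G with hg
  have hf0 : f ≠ 0 := fun h0 => hF ((finSuccEquiv Qb N).injective (by rw [← hf, h0, map_zero]))
  have hm : f.natDegree ≤ a * d 0 := by rw [hf, natDegree_finSuccEquiv]; exact hdF 0
  have hn : g.natDegree ≤ a * d 0 := by rw [hg, natDegree_finSuccEquiv]; exact hdG 0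
  have hR0 : Polynomial.resultant f g f.natDegree (a * d 0) ≠ 0 := by
    refine PT2_res_ne_zero f g hf0 (fun q hq h1 h2 => ?_) _ hn
    refine hcop ((finSuccEquiv Qb N).symm q)
      ((MulEquiv.irreducible_iff (finSuccEquiv Qb N).symm).2 hq) ?_ ?_
    · simpa [hf] using map_dvd (finSuccEquiv Qb N).symm h1
    · simpa [hg] using map_dvd (finSuccEquiv Qb N).symm h2
  have hk : f.natDegree + a * d 0 ≤ 2 * a * d 0 := by nlinarith
  have hdeg : ∀ i j l, (Polynomial.sylvester f g f.natDegree (a * d 0) i j).degreeOf l ≤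
      a * d l.succ := by
    intro i j l
    rcases PT2_entry f g _ _ i j with h | ⟨e, -, h | h⟩ <;> rw [h]
    · simp
    · exact (degreeOf_coeff_finSuccEquiv F l e).trans (hdF _)
    · exact (degreeOf_coeff_finSuccEquiv G l e).trans (hdG _)
  refine ⟨Polynomial.resultant f g f.natDegree (a * d 0), hR0, fun l => ?_, ?_, ?_⟩
  · rw [degreeOf_le_iff]
    intro m hm'
    have h1 := PT2_supp_det (fun m => -(m l : ℝ)) (by simp) (fun x y => by simp; ring)
      (Polynomial.sylvester f g f.natDegree (a * d 0)) (fun _ => -((a * d l.succ : ℕ) : ℝ))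
      (fun i j u hu => neg_le_neg (by
        exact_mod_cast (monomial_le_degreeOf l hu).trans (hdeg i j l))) m hm'
    rw [Finset.sum_const, Finset.card_univ, Fintype.card_fin, nsmul_eq_mul, mul_neg,
      neg_le_neg_iff] at h1
    have h2 : m l ≤ (f.natDegree + a * d 0) * (a * d l.succ) := by exact_mod_cast h1
    calc m l ≤ _ := h2
      _ ≤ (2 * a * d 0) * (a * d l.succ) := Nat.mul_le_mul_right _ hk
      _ = _ := by ring
  · intro m hm'
    have hinj := PT2_sh_inj fun j : Fin N => p j.succ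
    rw [← PT2_sh_apply, ← Polynomial.resultant_map_map] at hm'
    have h1 := PT2_res_taylor (f.map (PT2_sh fun j : Fin N => p j.succ))
      (g.map (PT2_sh fun j : Fin N => p j.succ)) (C (p 0)) (a * d 0)
      (by rw [Polynomial.natDegree_map_eq_of_injective hinj]; exact hn)
    rw [Polynomial.natDegree_map_eq_of_injective hinj] at h1
    rw [← h1, hf, hg, ← PT2_fin_shf, ← PT2_fin_shf, ← hf] at hm'
    have h2 := PT2_supp_det (fun m : Fin N →₀ ℕ => ∑ j, (m j : ℝ) / d j.succ) (by simp)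
      (fun x y => by simp [add_div, Finset.sum_add_distrib])
      (Polynomial.sylvester (finSuccEquiv Qb N (shf p F)) (finSuccEquiv Qb N (shf p G))
        f.natDegree (a * d 0)) (fun i => max (τ - ((i : ℕ) : ℝ) / d 0) 0)
      (fun i j u hu => by
        rcases PT2_entry (finSuccEquiv Qb N (shf p F)) (finSuccEquiv Qb N (shf p G)) _ _ i j with
          h | ⟨e, he, h | h⟩ <;> rw [h] at hu
        · simp at hu
        · exact PT2_idx_coeff F p d τ hiF e i he u hu
        · exact PT2_idx_coeff G p d τ hiG e i he u hu) m hm'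
    have h3 := (PT2_sum_max (d 0) (f.natDegree + a * d 0) (hd 0)
      ((Nat.le_mul_of_pos_left _ ha).trans (Nat.le_add_left _ _)) τ hτ0 hτ).trans h2
    have hD : (0 : ℝ) < d 0 := by exact_mod_cast hd 0
    have h4 : ∑ j, (m j : ℝ) / ((d 0 * d j.succ : ℕ) : ℝ) =
        (∑ j : Fin N, (m j : ℝ) / d j.succ) / d 0 := by
      rw [Finset.sum_div]
      refine Finset.sum_congr rfl fun j _ => ?_
      push_cast
      rw [div_div, mul_comm]
    show τ ^ 2 / 2 ≤ ∑ j, (m j : ℝ) / ((d 0 * d j.succ : ℕ) : ℝ)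
    rw [h4, le_div_iff₀ hD]
    exact h3
  · set k := f.natDegree + a * d 0 with hkdef
    set S : ℝ := ∑ j : Fin N, ((a * d j.succ : ℕ) : ℝ) with hS
    have hc0 : 0 < c := lt_of_lt_of_le one_pos hc
    have hC : (0 : ℝ) < (k.factorial : ℕ) * (Real.exp S * c) ^ k := by positivity
    have h1 := ht_le_of_local1 (PT2_coeffs_ne hR0) (PT2_coeffs_ne hF) k hC (fun q v hv => by
      have hB : 0 ≤ th q c * nrm v F.coeffs := mul_nonneg (PT2_th_nonneg _ hc0.le) (nrm_nonneg _ _)
      have h2 := PT2_nrm_det hv (Polynomial.sylvester f g f.natDegree (a * d 0))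
        (K := Real.exp S) (B := th q c * nrm v F.coeffs) (Real.exp_pos _).le hB
        (fun i j => PT2_card_supp _ _ (hdeg i j)) (fun i j => by
          rcases PT2_entry f g _ _ i j with h | ⟨e, -, h | h⟩ <;> rw [h]
          · exact PT2_nrm_le v _ hB fun u => by simpa using hB
          · refine (PT2_nrm_coeff v F e).trans (le_mul_of_one_le_left (nrm_nonneg _ _) ?_)
            unfold th; split_ifs
            · exact hc
            · exact le_rfl
          · exact (PT2_nrm_coeff v G e).trans (hG q v hv))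
      rw [Fintype.card_fin] at h2
      refine h2.trans (le_of_eq ?_)
      unfold th
      split_ifs
      · rw [← hkdef]; ring
      · rw [← hkdef]; ring)
    have hlc : 0 ≤ Real.log c := Real.log_nonneg hc
    have hF0 : 0 ≤ hp F := ht_nonneg _
    have hk' : (k : ℝ) ≤ 2 * a * d 0 := by exact_mod_cast hk
    have hk0 : (0 : ℝ) ≤ k := Nat.cast_nonneg _
    have hfac : Real.log (k.factorial : ℕ) ≤ k * k := by
      have h5 : ((k.factorial : ℕ) : ℝ) ≤ (k : ℝ) ^ k := by
        exact_mod_cast Nat.factorial_le_pow k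
      calc Real.log (k.factorial : ℕ) ≤ Real.log ((k : ℝ) ^ k) :=
            Real.log_le_log (by positivity) h5
        _ = k * Real.log k := Real.log_pow _ _
        _ ≤ k * k := mul_le_mul_of_nonneg_left (Real.log_le_self hk0) hk0
    rw [Real.log_mul (by positivity) (by positivity), Real.log_pow,
      Real.log_mul (by positivity) (by positivity), Real.log_exp] at h1
    have hT : 0 ≤ ∑ j : Fin N, (d j.succ : ℝ) := Finset.sum_nonneg fun j _ => Nat.cast_nonneg _
    have hS' : S = a * ∑ j : Fin N, (d j.succ : ℝ) := by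
      rw [hS, Finset.mul_sum]; push_cast; rfl
    have ha0 : (0 : ℝ) ≤ a := Nat.cast_nonneg _
    have hd0 : (0 : ℝ) ≤ d 0 := Nat.cast_nonneg _
    have h6 : (k : ℝ) + S ≤ 3 * a * ∑ j, (d j : ℝ) := by
      rw [Fin.sum_univ_succ, hS']
      nlinarith [mul_nonneg ha0 hd0, mul_nonneg ha0 hT]
    have h7 : 0 ≤ hp F + Real.log c + 3 * a * ∑ j, (d j : ℝ) := by
      have : 0 ≤ ∑ j, (d j : ℝ) := Finset.sum_nonneg fun j _ => Nat.cast_nonneg _
      positivity
    calc hp (Polynomial.resultant f g f.natDegree (a * d 0))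
        ≤ Real.log (k.factorial : ℕ) + k * (S + Real.log c) + k * hp F := h1
      _ ≤ k * (hp F + Real.log c + (k + S)) := by nlinarith
      _ ≤ k * (hp F + Real.log c + 3 * a * ∑ j, (d j : ℝ)) :=
          mul_le_mul_of_nonneg_left (by linarith) hk0
      _ ≤ _ := mul_le_mul_of_nonneg_right hk' h7

end Pool.Agent.E6b

end

section
open scoped NNReal TensorProduct IntermediateField BigOperators Classical Topology
open Filter

namespace Pool.Agent.E6b
open MvPolynomial

theorem PT3_hp_nonneg {σ : Type} (F : MvPolynomial σ Qb) : 0 ≤ hp F := ht_nonneg _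

theorem PT3_totalDegree_le_sum {σ : Type} [Fintype σ] (F : MvPolynomial σ Qb) :
    F.totalDegree ≤ ∑ j, F.degreeOf j := by
  refine Finset.sup_le fun m hm => ?_
  rw [Finsupp.sum_fintype _ _ (fun _ => rfl)]
  exact Finset.sum_le_sum fun j _ => monomial_le_degreeOf j hm

theorem PT3_degreeOf_pow_dvd {σ : Type} {q F : MvPolynomial σ Qb} (hF : F ≠ 0) {e : ℕ}
    (h : q ^ e ∣ F) (j : σ) : e * q.degreeOf j ≤ F.degreeOf j := by
  obtain ⟨R, rfl⟩ := h
  rcases Nat.eq_zero_or_pos e with rfl | he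
  · simp
  have hq : q ≠ 0 := by
    rintro rfl
    exact hF (by rw [zero_pow he.ne', zero_mul])
  rw [degreeOf_mul_eq (left_ne_zero_of_mul hF) (right_ne_zero_of_mul hF),
    degreeOf_pow_eq _ _ _ hq]
  exact Nat.le_add_right _ _

theorem PT3_hp_pow_dvd {σ : Type} [Fintype σ] {q F : MvPolynomial σ Qb} (hF : F ≠ 0) {e : ℕ}
    (h : q ^ e ∣ F) (d : σ → ℕ) (hd : ∀ j, F.degreeOf j ≤ d j) :
    e * hp q ≤ hp F + 2 * ∑ j, (d j : ℝ) := by
  obtain ⟨R, rfl⟩ := h
  have hprod : ∏ i : Option (Fin e), (i.elim R fun _ => q) = q ^ e * R := by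
    rw [Fintype.prod_option]
    simp [mul_comm]
  have hne : ∀ i ∈ (Finset.univ : Finset (Option (Fin e))), (i.elim R fun _ => q) ≠ 0 := by
    rw [← Finset.prod_ne_zero_iff, hprod]
    exact hF
  have h1 := gelfond Finset.univ (fun i : Option (Fin e) => i.elim R fun _ => q) hne d
    (by rw [hprod]; exact hd)
  rw [hprod, Fintype.sum_option] at h1
  simp only [Option.elim_none, Option.elim_some, Finset.sum_const, Finset.card_univ,
    Fintype.card_fin, nsmul_eq_mul] at h1
  have := PT3_hp_nonneg R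
  linarith

end Pool.Agent.E6b

end

section
open scoped NNReal TensorProduct IntermediateField BigOperators Classical Topology
open Filter

namespace Pool.Agent.E6b
open MvPolynomial

theorem PT3_wt_le {σ : Type} (blk : σ → Bool) {d₁ d₂ : ℕ} (h : d₂ ≤ d₁) (j : σ) :
    wt blk d₁ d₂ j ≤ d₁ := by
  unfold wt; split_ifs
  · exact h
  · exact le_rfl

theorem PT3_wt_pos {σ : Type} (blk : σ → Bool) {d₁ d₂ : ℕ} (h0 : 0 < d₂) (h : d₂ ≤ d₁) (j : σ) :
    0 < wt blk d₁ d₂ j := by
  unfold wt; split_ifs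
  · exact h0
  · exact h0.trans_le h

theorem PT3_sum_le {N : ℕ} (blk : Fin N → Bool) (a : ℕ) {d₁ d₂ : ℕ} (h : d₂ ≤ d₁) :
    ∑ j, a * wt blk d₁ d₂ j ≤ N * a * d₁ := by
  have := Finset.sum_le_card_nsmul Finset.univ (fun j => a * wt blk d₁ d₂ j) (a * d₁)
    fun j _ => Nat.mul_le_mul_left _ (PT3_wt_le blk h j)
  simpa [mul_assoc] using this

/-- a factor of large multiplicity -/
theorem PT3_caseA {N : ℕ} (blk : Fin N → Bool) (a : ℕ) {τ : ℝ} (hτ : 0 < τ) (L : ℕ)
    (hL : 1 ≤ τ * L) {d₁ d₂ : ℕ} (h0 : 0 < d₂) (h12 : d₂ ≤ d₁) (hρ : (a * L + 1) * d₂ ≤ d₁)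
    {F : MvPolynomial (Fin N) Qb} (hF : F ≠ 0) (hd : ∀ j, F.degreeOf j ≤ a * wt blk d₁ d₂ j)
    {q : MvPolynomial (Fin N) Qb} {e : ℕ} (he : q ^ e ∣ F) {j : Fin N}
    (hj : blk j = true → ∀ i ∈ q.vars, blk i = true) (hbig : τ * wt blk d₁ d₂ j ≤ e) :
    (∀ i ∈ q.vars, blk i = blk j) ∧ q.totalDegree ≤ N * (a * L) ∧
      hp q * (wt blk d₁ d₂ j : ℕ) ≤ (L * (1 + 2 * N * a) : ℕ) * (hp F + d₁) := by
  have hw : wt blk d₁ d₂ j ≤ e * L := by
    have h1 : (wt blk d₁ d₂ j : ℝ) ≤ e * L := by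
      have h2 : (0 : ℝ) ≤ wt blk d₁ d₂ j := Nat.cast_nonneg _
      have h3 : (0 : ℝ) ≤ L := Nat.cast_nonneg _
      calc (wt blk d₁ d₂ j : ℝ) ≤ (τ * L) * wt blk d₁ d₂ j := le_mul_of_one_le_left h2 hL
        _ = (τ * wt blk d₁ d₂ j) * L := by ring
        _ ≤ e * L := mul_le_mul_of_nonneg_right hbig h3
    exact_mod_cast h1
  have hdeg : ∀ i, e * q.degreeOf i ≤ a * wt blk d₁ d₂ i := fun i =>
    (PT3_degreeOf_pow_dvd hF he i).trans (hd i)
  have hblk : ∀ i ∈ q.vars, blk i = blk j := by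
    intro i hi
    cases hbj : blk j with
    | true => exact hj hbj i hi
    | false =>
      by_contra hbi
      have hbi' : blk i = true := by simpa using hbi
      have h1 : 1 ≤ q.degreeOf i := Nat.one_le_iff_ne_zero.2 (mem_vars_iff_degreeOf_ne_zero.1 hi)
      have h2 := hdeg i
      simp only [wt, hbi', hbj, if_true] at h2 hw
      simp only [Bool.false_eq_true, if_false] at hw
      have h3 : e ≤ a * d₂ := (Nat.le_mul_of_pos_right e h1).trans h2
      have h4 : e * L ≤ a * d₂ * L := Nat.mul_le_mul_right _ h3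
      nlinarith
  refine ⟨hblk, ?_, ?_⟩
  · refine (PT3_totalDegree_le_sum q).trans ?_
    have := Finset.sum_le_card_nsmul Finset.univ (fun i => q.degreeOf i) (a * L) fun i _ => by
      by_cases hi : i ∈ q.vars
      · have h1 : wt blk d₁ d₂ i = wt blk d₁ d₂ j := by simp only [wt, hblk i hi]
        have h2 := hdeg i
        rw [h1] at h2
        have h3 : 0 < e := by
          rcases Nat.eq_zero_or_pos e with rfl | h
          · have := PT3_wt_pos blk h0 h12 j
            omega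
          · exact h
        have h4 : e * q.degreeOf i ≤ e * (a * L) := by
          calc e * q.degreeOf i ≤ a * wt blk d₁ d₂ j := h2
            _ ≤ a * (e * L) := Nat.mul_le_mul_left _ hw
            _ = e * (a * L) := by ring
        exact Nat.le_of_mul_le_mul_left h4 h3
      · have : q.degreeOf i = 0 := by
          by_contra h
          exact hi (mem_vars_iff_degreeOf_ne_zero.2 h)
        simp [this]
    simpa using this
  · have h1 := PT3_hp_pow_dvd hF he (fun i => a * wt blk d₁ d₂ i) hd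
    have h2 : ∑ i, ((a * wt blk d₁ d₂ i : ℕ) : ℝ) ≤ N * a * d₁ := by
      exact_mod_cast PT3_sum_le blk a h12
    have h3 : (wt blk d₁ d₂ j : ℝ) ≤ e * L := by exact_mod_cast hw
    have h4 := PT3_hp_nonneg q
    have h5 := PT3_hp_nonneg F
    have h6 : (0 : ℝ) ≤ L := Nat.cast_nonneg _
    have h7 : (0 : ℝ) ≤ N * a := by positivity
    have h8 : (0 : ℝ) ≤ d₁ := Nat.cast_nonneg _
    push_cast
    calc hp q * (wt blk d₁ d₂ j : ℝ) ≤ hp q * (e * L) := mul_le_mul_of_nonneg_left h3 h4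
      _ = L * (e * hp q) := by ring
      _ ≤ L * (hp F + 2 * (N * a * d₁)) := mul_le_mul_of_nonneg_left (by linarith) h6
      _ ≤ L * ((1 + 2 * N * a) * (hp F + d₁)) :=
        mul_le_mul_of_nonneg_left (by nlinarith [mul_nonneg h7 h5]) h6
      _ = _ := by ring

end Pool.Agent.E6b

end

section
open scoped NNReal TensorProduct IntermediateField BigOperators Classical Topology
open Filter

namespace Pool.Agent.E6b

theorem C7_hv_le {ι ι' : Type} [Fintype ι] [Fintype ι'] {x : ι → Qb} {y : ι' → Qb}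
    (h : ∀ p v, IsPl p v → ∀ i, v (x i) ≤ nv v y) : hv x ≤ hv y :=
  H2_le fun p v hv => nv_le v (nrm_nonneg v _) (h p v hv)

end Pool.Agent.E6b

end

section
open scoped NNReal TensorProduct IntermediateField BigOperators Classical Topology
open Filter

namespace Pool.Agent.E6b

section Size
variable {σ : Type} {p : ℕ} {v : AbsoluteValue Qb ℝ}

theorem C2_th_pow (p : ℕ) (a : ℝ) (n : ℕ) : th p (a ^ n) = th p a ^ n := by
  unfold th
  split_ifs <;> simp

theorem C2_th_nonneg (p : ℕ) {a : ℝ} (ha : 0 ≤ a) : 0 ≤ th p a := by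
  unfold th
  split_ifs
  · exact ha
  · exact zero_le_one

theorem C2_one_le_th2 (p : ℕ) : 1 ≤ th p 2 := H2_one_le_th p one_le_two

theorem C2_th_le (p : ℕ) {n E : ℕ} (h : n ≤ E) : th p n ≤ th p 2 ^ E := by
  rw [← C2_th_pow]
  refine H2_th_mono p ?_
  exact_mod_cast h.trans Nat.lt_two_pow_self.le

/-- sum of the sizes of the coefficients -/
noncomputable def C2_l1 (v : AbsoluteValue Qb ℝ) (P : MvPolynomial σ Qb) : ℝ :=
  ∑ m ∈ P.support, v (P.coeff m)

theorem C2_l1_eq (P : MvPolynomial σ Qb) {s : Finset (σ →₀ ℕ)} (hs : P.support ⊆ s) :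
    C2_l1 v P = ∑ m ∈ s, v (P.coeff m) :=
  Finset.sum_subset hs fun m _ hm => by rw [MvPolynomial.notMem_support_iff.1 hm, map_zero]

theorem C2_l1_nonneg (P : MvPolynomial σ Qb) : 0 ≤ C2_l1 v P :=
  Finset.sum_nonneg fun _ _ => v.nonneg _

theorem C2_l1_add (P Q : MvPolynomial σ Qb) : C2_l1 v (P + Q) ≤ C2_l1 v P + C2_l1 v Q := by
  rw [C2_l1_eq (P + Q) MvPolynomial.support_add, C2_l1_eq P Finset.subset_union_left,
    C2_l1_eq Q Finset.subset_union_right, ← Finset.sum_add_distrib]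
  exact Finset.sum_le_sum fun m _ => by rw [MvPolynomial.coeff_add]; exact v.add_le _ _

theorem C2_l1_sum {ι : Type*} (s : Finset ι) (f : ι → MvPolynomial σ Qb) :
    C2_l1 v (∑ i ∈ s, f i) ≤ ∑ i ∈ s, C2_l1 v (f i) := by
  induction s using Finset.induction_on with
  | empty => simp [C2_l1]
  | insert a s ha ih =>
    rw [Finset.sum_insert ha, Finset.sum_insert ha]
    exact (C2_l1_add _ _).trans (by linarith)

theorem C2_l1_monomial (m : σ →₀ ℕ) (a : Qb) : C2_l1 v (MvPolynomial.monomial m a) ≤ v a := by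
  rw [C2_l1_eq _ MvPolynomial.support_monomial_subset]
  simp

theorem C2_l1_mul (P Q : MvPolynomial σ Qb) : C2_l1 v (P * Q) ≤ C2_l1 v P * C2_l1 v Q := by
  have e : P * Q = ∑ m ∈ P.support, ∑ n ∈ Q.support,
      MvPolynomial.monomial (m + n) (P.coeff m * Q.coeff n) := by
    conv_lhs => rw [P.as_sum, Q.as_sum]
    rw [Finset.sum_mul_sum]
    simp only [MvPolynomial.monomial_mul]
  rw [e]
  refine (C2_l1_sum _ _).trans ?_
  unfold C2_l1
  rw [Finset.sum_mul_sum]
  refine Finset.sum_le_sum fun m _ => (C2_l1_sum _ _).trans (Finset.sum_le_sum fun n _ => ?_)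
  exact (C2_l1_monomial _ _).trans (map_mul v _ _).le

/-- local size of a polynomial -/
noncomputable def C2_sz (p : ℕ) (v : AbsoluteValue Qb ℝ) (P : MvPolynomial σ Qb) : ℝ :=
  if p = 0 then C2_l1 v P else nrm v P.coeffs

theorem C2_sz_nonneg (P : MvPolynomial σ Qb) : 0 ≤ C2_sz p v P := by
  unfold C2_sz
  split_ifs
  · exact C2_l1_nonneg P
  · exact nrm_nonneg _ _

theorem C2_nrm_le_sz (P : MvPolynomial σ Qb) : nrm v P.coeffs ≤ C2_sz p v P := by
  unfold C2_sz
  split_ifs
  · refine Gelf_nrm_le v P (C2_l1_nonneg P) fun m => ?_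
    by_cases hm : m ∈ P.support
    · exact Finset.single_le_sum (f := fun m => v (P.coeff m)) (fun _ _ => v.nonneg _) hm
    · rw [MvPolynomial.notMem_support_iff.1 hm, map_zero]
      exact C2_l1_nonneg P
  · exact le_rfl

theorem C2_sz_mul (h : IsPl p v) (P Q : MvPolynomial σ Qb) :
    C2_sz p v (P * Q) ≤ C2_sz p v P * C2_sz p v Q := by
  unfold C2_sz
  split_ifs with hp
  · exact C2_l1_mul P Q
  · exact (nrm_coeffs_mul h hp P Q).le

theorem C2_sz_monomial (m : σ →₀ ℕ) (a : Qb) : C2_sz p v (MvPolynomial.monomial m a) ≤ v a := by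
  unfold C2_sz
  split_ifs
  · exact C2_l1_monomial m a
  · refine Gelf_nrm_le v _ (v.nonneg a) fun n => ?_
    rw [MvPolynomial.coeff_monomial]
    split_ifs
    · exact le_rfl
    · rw [map_zero]; exact v.nonneg a

theorem C2_sz_sum (h : IsPl p v) {ι : Type*} (s : Finset ι) (f : ι → MvPolynomial σ Qb) {M : ℝ}
    (hM : 0 ≤ M) (hf : ∀ i ∈ s, C2_sz p v (f i) ≤ M) :
    C2_sz p v (∑ i ∈ s, f i) ≤ th p s.card * M := by
  by_cases hp : p = 0
  · simp only [C2_sz, th, if_pos hp] at hf ⊢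
    refine (C2_l1_sum s f).trans ?_
    simpa using Finset.sum_le_card_nsmul s _ M hf
  · simp only [C2_sz, if_neg hp] at hf ⊢
    refine Gelf_nrm_le v _ (mul_nonneg (C2_th_nonneg p (Nat.cast_nonneg _)) hM) fun m => ?_
    rw [MvPolynomial.coeff_sum]
    exact h.sum_le s _ hM fun i hi => (Gelf_coeff_le v _ m).trans (hf i hi)

/-- bounds for the degrees and the local size -/
structure C2_Bd (p : ℕ) (v : AbsoluteValue Qb ℝ) (a : σ → ℕ) (c : ℝ) (P : MvPolynomial σ Qb) :
    Prop where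
  deg : ∀ k, P.degreeOf k ≤ a k
  sz : C2_sz p v P ≤ c
variable {a a' : σ → ℕ} {c c' : ℝ} {P Q : MvPolynomial σ Qb}

theorem C2_Bd.nonneg (h : C2_Bd p v a c P) : 0 ≤ c := (C2_sz_nonneg P).trans h.sz

theorem C2_Bd.mono (h : C2_Bd p v a c P) (ha : ∀ k, a k ≤ a' k) (hc : c ≤ c') :
    C2_Bd p v a' c' P := ⟨fun k => (h.deg k).trans (ha k), h.sz.trans hc⟩

theorem C2_Bd.mul (h : IsPl p v) (hP : C2_Bd p v a c P) (hQ : C2_Bd p v a' c' Q) :
    C2_Bd p v (fun k => a k + a' k) (c * c') (P * Q) :=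
  ⟨fun k => (MvPolynomial.degreeOf_mul_le k P Q).trans (add_le_add (hP.deg k) (hQ.deg k)),
    (C2_sz_mul h P Q).trans (mul_le_mul hP.sz hQ.sz (C2_sz_nonneg Q) hP.nonneg)⟩

theorem C2_Bd_C (x : Qb) : C2_Bd p v (fun _ => 0) (v x) (MvPolynomial.C x : MvPolynomial σ Qb) :=
  ⟨fun k => (MvPolynomial.degreeOf_C x k).le, C2_sz_monomial 0 x⟩

theorem C2_Bd_zero (hc : 0 ≤ c) : C2_Bd p v a c (0 : MvPolynomial σ Qb) := by
  have := C2_Bd_C (σ := σ) (p := p) (v := v) 0
  rw [map_zero, map_zero] at this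
  exact this.mono (fun _ => Nat.zero_le _) hc

theorem C2_Bd_one (hc : 1 ≤ c) : C2_Bd p v a c (1 : MvPolynomial σ Qb) := by
  have := C2_Bd_C (σ := σ) (p := p) (v := v) 1
  rw [map_one, map_one] at this
  exact this.mono (fun _ => Nat.zero_le _) hc

theorem C2_Bd.neg (h : IsPl p v) (hP : C2_Bd p v a c P) : C2_Bd p v a c (-P) := by
  have := (C2_Bd_C (σ := σ) (-1)).mul h hP
  rw [AbsoluteValue.map_neg, map_one, one_mul, map_neg, map_one, neg_one_mul] at this
  exact this.mono (fun _ => by simp) le_rfl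

theorem C2_Bd_sum (h : IsPl p v) {ι : Type*} (s : Finset ι) (f : ι → MvPolynomial σ Qb)
    (hc : 0 ≤ c) (hf : ∀ i ∈ s, C2_Bd p v a c (f i)) :
    C2_Bd p v a (th p s.card * c) (∑ i ∈ s, f i) :=
  ⟨fun k => (MvPolynomial.degreeOf_sum_le k s f).trans
    (Finset.sup_le fun i hi => (hf i hi).deg k), C2_sz_sum h s f hc fun i hi => (hf i hi).sz⟩

theorem C2_Bd_prod (h : IsPl p v) {ι : Type*} (s : Finset ι) (f : ι → MvPolynomial σ Qb)
    (hf : ∀ i ∈ s, C2_Bd p v a c (f i)) :
    C2_Bd p v (fun k => s.card * a k) (c ^ s.card) (∏ i ∈ s, f i) := by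
  induction s using Finset.induction_on with
  | empty => simpa using C2_Bd_one le_rfl
  | insert i s hi ih =>
    rw [Finset.prod_insert hi, Finset.card_insert_of_notMem hi]
    refine ((hf i (Finset.mem_insert_self _ _)).mul h
      (ih fun j hj => hf j (Finset.mem_insert_of_mem hj))).mono (fun k => ?_) ?_
    · exact le_of_eq (by ring)
    · exact le_of_eq (by ring)

theorem C2_Bd_det (h : IsPl p v) {I : Type} [Fintype I] [DecidableEq I]
    (M : Matrix I I (MvPolynomial σ Qb)) (hc : 0 ≤ c) (hM : ∀ i j, C2_Bd p v a c (M i j)) :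
    C2_Bd p v (fun k => Fintype.card I * a k)
      (th p (Fintype.card I).factorial * c ^ Fintype.card I) M.det := by
  rw [Matrix.det_apply, ← Fintype.card_perm]
  refine C2_Bd_sum h Finset.univ _ (pow_nonneg hc _) fun s _ => ?_
  have := C2_Bd_prod h Finset.univ (fun i => M (s i) i) fun i _ => hM _ _
  rcases Int.units_eq_one_or (Equiv.Perm.sign s) with e | e
  · rw [e, one_smul]; exact this
  · rw [e, Units.neg_smul, one_smul]; exact this.neg h

theorem C2_card_support (r D : ℕ) : ∃ K : ℕ, ∀ q : MvPolynomial (Fin r) Qb, q.totalDegree ≤ D →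
    q.support.card ≤ K := by
  refine ⟨(Finsupp.finite_of_degree_le (σ := Fin r) D).toFinset.card, fun q hq => ?_⟩
  refine Finset.card_le_card fun m hm => ?_
  rw [Set.Finite.mem_toFinset]
  exact (MvPolynomial.le_totalDegree hm).trans hq

theorem C2_Bd_rename (h : IsPl p v) {τ : Type} (f : τ → σ) {χ : σ → ℕ} (hχ : ∀ i, 1 ≤ χ (f i))
    {S : Finset Qb} {D : ℕ} {q : MvPolynomial τ Qb} (hq : q.totalDegree ≤ D) (hS : q.coeffs ⊆ S) :
    C2_Bd p v (fun k => D * χ k) (th p q.support.card * nrm v S) (MvPolynomial.rename f q) := by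
  constructor
  · intro k
    by_cases hk : χ k = 0
    · rw [MvPolynomial.degreeOf_le_iff]
      intro m hm
      obtain ⟨u, rfl, -⟩ := MvPolynomial.coeff_rename_ne_zero f q m (MvPolynomial.mem_support_iff.1 hm)
      rw [Finsupp.mapDomain_of_notMem_range]
      · exact Nat.zero_le _
      · rintro ⟨i, rfl⟩
        have := hχ i
        omega
    · refine (MvPolynomial.degreeOf_le_totalDegree _ _).trans
        ((MvPolynomial.totalDegree_rename_le f q).trans (hq.trans ?_))
      exact Nat.le_mul_of_pos_right _ (Nat.pos_of_ne_zero hk)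
  · conv_lhs => rw [q.as_sum, map_sum]
    refine C2_sz_sum h _ _ (nrm_nonneg _ _) fun m hm => ?_
    rw [MvPolynomial.rename_monomial]
    exact (C2_sz_monomial _ _).trans
      (le_nrm v (hS (MvPolynomial.coeff_mem_coeffs m (MvPolynomial.mem_support_iff.1 hm))))

end Size

section Mat
variable {σ : Type} {p : ℕ} {v : AbsoluteValue Qb ℝ} {A I : Type} [CommRing A]
  [Algebra (MvPolynomial σ Qb) A] [Fintype I] [DecidableEq I]

/-- bounds for the entries of the matrix of multiplication -/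
def C2_BE (p : ℕ) (v : AbsoluteValue Qb ℝ) (b : Module.Basis I (MvPolynomial σ Qb) A)
    (a : σ → ℕ) (c : ℝ) (z : A) : Prop :=
  0 ≤ c ∧ ∀ i j, C2_Bd p v a c (Algebra.leftMulMatrix b z i j)
variable {b : Module.Basis I (MvPolynomial σ Qb) A} {a a' : σ → ℕ} {c c' : ℝ} {z z' : A}

theorem C2_BE.mono (h : C2_BE p v b a c z) (ha : ∀ k, a k ≤ a' k) (hc : c ≤ c') :
    C2_BE p v b a' c' z := ⟨h.1.trans hc, fun i j => (h.2 i j).mono ha hc⟩

theorem C2_BE.mul (h : IsPl p v) {E : ℕ} (hE : Fintype.card I ≤ E) (hz : C2_BE p v b a c z)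
    (hz' : C2_BE p v b a' c' z') :
    C2_BE p v b (fun k => a k + a' k) (th p 2 ^ E * (c * c')) (z * z') := by
  have h0 := mul_nonneg hz.1 hz'.1
  refine ⟨mul_nonneg (pow_nonneg (C2_th_nonneg p zero_le_two) _) h0, fun i j => ?_⟩
  rw [map_mul, Matrix.mul_apply]
  exact (C2_Bd_sum h Finset.univ _ h0 fun k _ => (hz.2 i k).mul h (hz'.2 k j)).mono
    (fun _ => le_rfl) (mul_le_mul_of_nonneg_right (C2_th_le p hE) h0)

theorem C2_BE_sum (h : IsPl p v) {ι : Type*} (s : Finset ι) (f : ι → A) (hc : 0 ≤ c)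
    (hf : ∀ i ∈ s, C2_BE p v b a c (f i)) : C2_BE p v b a (th p s.card * c) (∑ i ∈ s, f i) := by
  refine ⟨mul_nonneg (C2_th_nonneg p (Nat.cast_nonneg _)) hc, fun i j => ?_⟩
  rw [map_sum, Matrix.sum_apply]
  exact C2_Bd_sum h s _ hc fun k hk => (hf k hk).2 i j

theorem C2_BE.smul (h : IsPl p v) {P : MvPolynomial σ Qb} (hP : C2_Bd p v a c P)
    (hz : C2_BE p v b a' c' z) : C2_BE p v b (fun k => a k + a' k) (c * c') (P • z) := by
  refine ⟨mul_nonneg hP.nonneg hz.1, fun i j => ?_⟩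
  rw [map_smul, Matrix.smul_apply, smul_eq_mul]
  exact hP.mul h (hz.2 i j)

theorem C2_BE_one (hc : 1 ≤ c) : C2_BE p v b a c 1 := by
  refine ⟨zero_le_one.trans hc, fun i j => ?_⟩
  rw [map_one, Matrix.one_apply]
  split_ifs
  · exact C2_Bd_one hc
  · exact C2_Bd_zero (zero_le_one.trans hc)

/-- elements of the type of one block -/
def C2_Ty (p : ℕ) (v : AbsoluteValue Qb ℝ) (b : Module.Basis I (MvPolynomial σ Qb) A)
    (χ : σ → ℕ) (U : ℝ) (n : ℕ) (z : A) : Prop := C2_BE p v b (fun k => n * χ k) (U ^ n) z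
variable {χ : σ → ℕ} {U : ℝ} {n n' E : ℕ}

theorem C2_Ty.mono (hU : th p 2 ≤ U) (hz : C2_Ty p v b χ U n z) (hn : n ≤ n') :
    C2_Ty p v b χ U n' z :=
  C2_BE.mono hz (fun _ => Nat.mul_le_mul_right _ hn)
    (pow_le_pow_right₀ ((C2_one_le_th2 p).trans hU) hn)

theorem C2_Ty.mul (h : IsPl p v) (hU : th p 2 ≤ U) (hE : Fintype.card I ≤ E)
    (hz : C2_Ty p v b χ U n z) (hz' : C2_Ty p v b χ U n' z') :
    C2_Ty p v b χ U (n + n' + E) (z * z') := by
  refine (C2_BE.mul h hE hz hz').mono (fun k => ?_) ?_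
  · nlinarith [Nat.zero_le (E * χ k)]
  · have h0 := mul_nonneg hz.1 hz'.1
    calc th p 2 ^ E * (U ^ n * U ^ n') ≤ U ^ E * (U ^ n * U ^ n') :=
          mul_le_mul_of_nonneg_right (pow_le_pow_left₀ (C2_th_nonneg p zero_le_two) hU _) h0
      _ = U ^ (n + n' + E) := by ring

theorem C2_Ty_prod (h : IsPl p v) (hU : th p 2 ≤ U) (hE : Fintype.card I ≤ E) {ι : Type*}
    (s : Finset ι) (f : ι → A) (hf : ∀ i ∈ s, C2_Ty p v b χ U n (f i)) :
    C2_Ty p v b χ U (s.card * (n + E)) (∏ i ∈ s, f i) := by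
  induction s using Finset.induction_on with
  | empty => exact C2_BE_one (by simp)
  | insert i s hi ih =>
    rw [Finset.prod_insert hi, Finset.card_insert_of_notMem hi]
    exact ((hf i (Finset.mem_insert_self _ _)).mul h hU hE
      (ih fun j hj => hf j (Finset.mem_insert_of_mem hj))).mono hU (le_of_eq (by ring))

theorem C2_Ty_sum (h : IsPl p v) (hU : th p 2 ≤ U) {ι : Type*} (s : Finset ι) (f : ι → A)
    (hs : s.card ≤ n') (hf : ∀ i ∈ s, C2_Ty p v b χ U n (f i)) :
    C2_Ty p v b χ U (n + n') (∑ i ∈ s, f i) := by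
  have hU0 : 0 ≤ U := (C2_th_nonneg p zero_le_two).trans hU
  refine (C2_BE_sum h s f (pow_nonneg hU0 n) hf).mono (fun k => ?_) ?_
  · nlinarith [Nat.zero_le (n' * χ k)]
  · calc th p s.card * U ^ n ≤ U ^ n' * U ^ n :=
          mul_le_mul_of_nonneg_right ((C2_th_le p hs).trans
            (pow_le_pow_left₀ (C2_th_nonneg p zero_le_two) hU _)) (pow_nonneg hU0 n)
      _ = U ^ (n + n') := by ring

end Mat

section Block

/-- small degrees, coefficients in `S` -/
def C2_Ok {r : ℕ} (D : ℕ) (S : Finset Qb) (q : Polynomial (MvPolynomial (Fin r) Qb)) : Prop :=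
  q.natDegree ≤ D ∧ ∀ i, (q.coeff i).totalDegree ≤ D ∧ (q.coeff i).coeffs ⊆ S

theorem C2_block (r D E : ℕ) : ∃ L : ℕ, ∀ {σ A I : Type} [CommRing A]
    [Algebra (MvPolynomial σ Qb) A] [Fintype I] [DecidableEq I]
    (b : Module.Basis I (MvPolynomial σ Qb) A) (f : Fin r → σ) (χ : σ → ℕ)
    (ε : Polynomial (MvPolynomial (Fin r) Qb) →+* A) (S : Finset Qb)
    (m : Polynomial (MvPolynomial (Fin r) Qb)), Fintype.card I ≤ E → (∀ i, 1 ≤ χ (f i)) →
    (∀ q, ε (Polynomial.C q) = algebraMap _ A (MvPolynomial.rename f q)) → (1 : Qb) ∈ S →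
    C2_Ok D S m → (∀ i j, Algebra.leftMulMatrix b (ε Polynomial.X) i j = 0 ∨
      Algebra.leftMulMatrix b (ε Polynomial.X) i j = 1 ∨
      ∃ k, Algebra.leftMulMatrix b (ε Polynomial.X) i j = -MvPolynomial.rename f (m.coeff k)) →
    ∀ p v, IsPl p v → ∀ {ι : Type} [Fintype ι] (q : ι → Polynomial (MvPolynomial (Fin r) Qb)),
      (∀ i, C2_Ok D S (q i)) →
      C2_Ty p v b χ (th p 2 * nrm v S) (Fintype.card ι * L) (ε (∏ i, q i)) := by
  obtain ⟨K, hK⟩ := C2_card_support r D
  refine ⟨(D + K + 1) + D * (D + K + 1 + E) + E + (D + 1) + E, ?_⟩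
  intro σ A I _ _ _ _ b f χ ε S m hE hχ hC h1 hm hx p v h ι _ q hq
  have hN : 1 ≤ nrm v S := by simpa using le_nrm v h1
  have hθ := C2_one_le_th2 p
  set U := th p 2 * nrm v S with hUdef
  have hU : th p 2 ≤ U := le_mul_of_one_le_right (zero_le_one.trans hθ) hN
  have hU' : nrm v S ≤ U := le_mul_of_one_le_left (zero_le_one.trans hN) hθ
  have hU1 : 1 ≤ U := hθ.trans hU
  have hren : ∀ t : MvPolynomial (Fin r) Qb, t.totalDegree ≤ D → t.coeffs ⊆ S →
      C2_Bd p v (fun k => (D + K + 1) * χ k) (U ^ (D + K + 1)) (MvPolynomial.rename f t) := by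
    intro t ht hS
    refine (C2_Bd_rename h f hχ ht hS).mono (fun k => Nat.mul_le_mul_right _ (by omega)) ?_
    calc th p t.support.card * nrm v S ≤ U ^ K * U :=
          mul_le_mul ((C2_th_le p (hK t ht)).trans
            (pow_le_pow_left₀ (zero_le_one.trans hθ) hU _)) hU' (nrm_nonneg _ _) (by positivity)
      _ = U ^ (K + 1) := by ring
      _ ≤ U ^ (D + K + 1) := pow_le_pow_right₀ hU1 (by omega)
  have hX : C2_Ty p v b χ U (D + K + 1) (ε Polynomial.X) := by
    refine ⟨by positivity, fun i j => ?_⟩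
    rcases hx i j with e | e | ⟨k, e⟩
    · rw [e]; exact C2_Bd_zero (by positivity)
    · rw [e]; exact C2_Bd_one (one_le_pow₀ hU1)
    · rw [e]; exact (hren _ (hm.2 k).1 (hm.2 k).2).neg h
  have hCq : ∀ t : MvPolynomial (Fin r) Qb, t.totalDegree ≤ D → t.coeffs ⊆ S →
      C2_Ty p v b χ U (D + K + 1) (ε (Polynomial.C t)) := by
    intro t ht hS
    rw [hC, Algebra.algebraMap_eq_smul_one]
    exact (C2_BE.smul h (hren t ht hS) (C2_BE_one (a := fun _ => 0) le_rfl)).mono
      (fun _ => by simp) (by simp)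
  have hpow : ∀ i, i ≤ D → C2_Ty p v b χ U (D * (D + K + 1 + E)) (ε Polynomial.X ^ i) := by
    intro i hi
    have := C2_Ty_prod h hU hE (Finset.range i) (fun _ => ε Polynomial.X) fun _ _ => hX
    rw [Finset.prod_const, Finset.card_range] at this
    exact this.mono hU (Nat.mul_le_mul_right _ hi)
  have hone : ∀ t, C2_Ok D S t →
      C2_Ty p v b χ U ((D + K + 1) + D * (D + K + 1 + E) + E + (D + 1)) (ε t) := by
    intro t ht
    rw [t.as_sum_range_C_mul_X_pow, map_sum]
    refine C2_Ty_sum h hU _ _ (by rw [Finset.card_range]; have := ht.1; omega) fun i hi => ?_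
    rw [map_mul, map_pow]
    refine (hCq _ (ht.2 i).1 (ht.2 i).2).mul h hU hE (hpow i ?_)
    have := Finset.mem_range.1 hi
    have := ht.1
    omega
  rw [map_prod]
  exact C2_Ty_prod h hU hE Finset.univ _ fun i _ => hone _ (hq i)

end Block

end Pool.Agent.E6b

end
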