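import Pool.Agent.E6c.A01
import Pool.Agent.E6c.A02

section
open scoped NNReal TensorProduct IntermediateField BigOperators Classical Topology
open Filter

namespace Pool.Agent.E6b

section
variable {κ F F' E : Type} [Field κ] [IsAlgClosed κ] [CharZero κ] [Field F] [Algebra κ F] [IsFF κ F]
  [Field F'] [Algebra κ F'] [IsFF κ F'] [Field E] [Algebra κ E] [IsFF κ E]

/-- local parameter of the `t`-line at `c` -/
noncomputable def lc {κ F : Type} [Field κ] [Field F] [Algebra κ F] (t : F) : Option κ → F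
  | some c => t - algebraMap κ F c
  | none => t⁻¹

/-- `t` is unramified above `c` -/
def Unr {κ F : Type} [Field κ] [Field F] [Algebra κ F] (t : F) (c : Option κ) : Prop :=
  ∀ P : Place κ F, 0 < P.ord (lc t c) → P.ord (lc t c) = 1

/-- value of `t` at a place, in the projective line -/
noncomputable def tv {κ F : Type} [Field κ] [Field F] [Algebra κ F] (t : F) (P : Place κ F) :
    Option κ := if t ∈ P.O then some (P.ev t) else none

/-- degree of the function `t` -/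
noncomputable def rk (κ : Type) {F : Type} [Field κ] [Field F] [Algebra κ F] (t : F) : ℕ :=
  Module.finrank κ⟮t⟯ F

/-- reduced basis for the divisor `N` and the function `t` -/
structure RB (t : E) (N : Dv κ E) where
  b : Fin (rk κ t) → E
  a : Fin (rk κ t) → ℤ
  indep : LinearIndependent κ⟮t⟯ b
  mem : ∀ i (P : Place κ E), - N P ≤ P.ord (if t ∈ P.O then b i else t ^ a i * b i)
  sat : ∀ (c : Option κ) (γ : Fin (rk κ t) → κ),
    (∑ i, γ i • (if c = none then t ^ a i * b i else b i) = 0 ∨ ∀ P : Place κ E, tv t P = c →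
      - N P ≤ P.ord ((∑ i, γ i • (if c = none then t ^ a i * b i else b i)) / lc t c)) → γ = 0

end

end Pool.Agent.E6b

end

section
open NumberField IsDedekindDomain

namespace Pool.Agent.E6b.H1c

instance instIsAlgClosureQb : IsAlgClosure ℚ Qb := AlgebraicClosure.instIsAlgClosure ℚ

instance instIsGaloisQb : IsGalois ℚ Qb := IsAlgClosure.isGalois ℚ Qb

/-- The absolute Galois group of the rationals. -/
abbrev GQ : Type := Qb ≃ₐ[ℚ] Qb

/-- τ lies in the inertia group of v. -/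
def Inr {F : Type} [Field F] (v : AbsoluteValue F ℝ) (τ : F → F) : Prop :=
  ∀ x, v x ≤ 1 → v (τ x - x) < 1

section
variable {F : Type} [Field F] {v : AbsoluteValue F ℝ}

/-- The valuation ring of v. -/
def BValA_ring (hv : IsNonarchimedean v) : ValuationSubring F where
  carrier := {x | v x ≤ 1}
  mul_mem' := fun {a b} ha hb => by
    show v (a * b) ≤ 1
    rw [map_mul]
    exact mul_le_one₀ ha (v.nonneg _) hb
  one_mem' := by simp
  add_mem' := fun {a b} ha hb => (hv a b).trans (max_le ha hb)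
  zero_mem' := by simp
  neg_mem' := fun {a} ha => by simpa using ha
  mem_or_inv_mem' := fun x => by
    rcases le_total (v x) 1 with h | h
    · exact Or.inl h
    · right
      show v x⁻¹ ≤ 1
      rw [map_inv₀]
      exact inv_le_one_of_one_le₀ h

theorem v_int (hv : IsNonarchimedean v) {x : F} (hx : IsIntegral ℤ x) : v x ≤ 1 := by
  have h : IsIntegral (BValA_ring hv) x := hx.tower_top
  obtain ⟨y, rfl⟩ := IsIntegrallyClosed.isIntegral_iff.1 h
  exact y.2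

end
variable {v : AbsoluteValue Qb ℝ}

theorem val_one {L : Type} [Field L] [NumberField L] {w : AbsoluteValue L ℝ}
    (Q : HeightOneSpectrum (𝓞 L)) (hQ : ∀ x : 𝓞 L, x ∈ Q.asIdeal ↔ w x < 1)
    (hw : IsNonarchimedean w) {y : L} (hy : w y = 1) : Q.valuation L y = 1 := by
  have h1 : ∀ a : 𝓞 L, a ∉ Q.asIdeal ↔ w (algebraMap (𝓞 L) L a) = 1 := fun a => by
    rw [hQ, not_lt]
    exact ⟨fun h => le_antisymm (v_int hw a.isIntegral_coe) h, fun h => h.ge⟩
  obtain ⟨n, d, h | h⟩ := Q.exists_primeCompl_mul_eq_or_mul_eq y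
  · have hd : d.1 ∉ Q.asIdeal := d.2
    have hn : n ∉ Q.asIdeal := by rw [h1, ← h, map_mul, hy, (h1 _).1 hd, mul_one]
    have := congrArg (Q.valuation L) h
    rwa [map_mul, Q.valuation_eq_one_iff_notMem.2 hd, Q.valuation_eq_one_iff_notMem.2 hn,
      mul_one] at this
  · have hd : d.1 ∉ Q.asIdeal := d.2
    have hn : n ∉ Q.asIdeal := by
      have := (h1 _).1 hd
      rwa [← h, map_mul, hy, one_mul, ← h1] at this
    have := congrArg (Q.valuation L) h
    rwa [map_mul, Q.valuation_eq_one_iff_notMem.2 hd, Q.valuation_eq_one_iff_notMem.2 hn,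
      mul_one] at this

theorem frac (hv : IsNonarchimedean v) {q : ℕ} (hq : q.Prime) (h : v q < 1) {x : Qb}
    (hx : v x ≤ 1) : ∃ a b : Qb, IsIntegral ℤ a ∧ IsIntegral ℤ b ∧ v b = 1 ∧ x * b = a := by
  let K := IntermediateField.adjoin ℚ {x}
  have : FiniteDimensional ℚ K :=
    IntermediateField.adjoin.finiteDimensional (Algebra.IsIntegral.isIntegral x)
  have : NumberField K := NumberField.of_module_finite ℚ K
  let f : 𝓞 K →+* Qb := (algebraMap K Qb).comp (algebraMap (𝓞 K) K)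
  have hf : ∀ a : 𝓞 K, IsIntegral ℤ (f a) := fun a =>
    (RingOfIntegers.isIntegral a).map f.toIntAlgHom
  have hf1 : ∀ a : 𝓞 K, v (f a) ≤ 1 := fun a => v_int hv (hf a)
  let P : Ideal (𝓞 K) :=
    { carrier := {a | v (f a) < 1}
      add_mem' := fun {a b} ha hb => by
        show v (f (a + b)) < 1
        rw [map_add]
        exact (hv _ _).trans_lt (max_lt ha hb)
      zero_mem' := by simp
      smul_mem' := fun c a ha => by
        show v (f (c * a)) < 1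
        rw [map_mul, map_mul]
        exact (mul_le_of_le_one_left (v.nonneg _) (hf1 c)).trans_lt ha }
  have hP : ∀ a, a ∈ P ↔ v (f a) < 1 := fun a => Iff.rfl
  have hPp : P.IsPrime := by
    refine ⟨fun e => ?_, fun {a b} hab => ?_⟩
    · have := (hP 1).1 (e ▸ Submodule.mem_top)
      simp at this
    · rw [hP, map_mul, map_mul] at hab
      by_contra hc
      rw [not_or, hP, hP, not_lt, not_lt] at hc
      exact absurd hab (not_lt.2 (one_le_mul_of_one_le_of_one_le hc.1 hc.2))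
  have hP0 : P ≠ ⊥ := fun e => by
    have h1 : (q : 𝓞 K) ∈ P := by rw [hP, map_natCast]; exact h
    rw [e, Ideal.mem_bot] at h1
    exact hq.ne_zero (Nat.cast_eq_zero.1 h1)
  let Q : HeightOneSpectrum (𝓞 K) := ⟨P, hPp, hP0⟩
  obtain ⟨n, d, hnd⟩ := Q.exists_primeCompl_mul_eq_or_mul_eq
    (⟨x, IntermediateField.mem_adjoin_simple_self ℚ x⟩ : K)
  have hd : v (f d) = 1 := le_antisymm (hf1 _) (not_lt.1 d.2)
  rcases hnd with e | e
  · exact ⟨f n, f d, hf _, hf _, hd, congrArg (algebraMap K Qb) e⟩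
  · have e' : x * f n = f d := congrArg (algebraMap K Qb) e
    refine ⟨f d, f n, hf _, hf _, le_antisymm (hf1 _) ?_, e'⟩
    rw [← hd, ← e', map_mul]
    exact mul_le_of_le_one_left (v.nonneg _) hx

section generic
open scoped Pointwise
variable (K E : Type) [Field K] [Field E] [Algebra K E]

lemma BValB_coe (g : E ≃ₐ[K] E) (b : 𝓞 E) : ((g • b : 𝓞 E) : E) = g (b : E) := rfl

lemma BValB_comm : SMulCommClass (E ≃ₐ[K] E) (𝓞 K) (𝓞 E) := by
  refine ⟨fun g a b => RingOfIntegers.ext ?_⟩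
  rw [Algebra.smul_def, Algebra.smul_def, BValB_coe]
  simp only [map_mul]
  congr 1
  exact g.commutes (a : K)
variable [IsGalois K E]

lemma BValB_inv : Algebra.IsInvariant (𝓞 K) (𝓞 E) (E ≃ₐ[K] E) := by
  refine ⟨fun b hb => ?_⟩
  obtain ⟨c, hc⟩ := (InfiniteGalois.mem_range_algebraMap_iff_fixed (k := K) (b : E)).2
    fun g => congrArg (fun z : 𝓞 E => (z : E)) (hb g)
  have hi : IsIntegral ℤ c := by
    rw [← isIntegral_algHom_iff (algebraMap K E).toIntAlgHom (algebraMap K E).injective]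
    have := RingOfIntegers.isIntegral_coe b
    rw [← RingOfIntegers.coe_eq_algebraMap, ← hc] at this
    exact this
  exact ⟨⟨c, hi⟩, RingOfIntegers.ext hc⟩

lemma BValB_open (b : 𝓞 E) :
    IsOpen (MulAction.stabilizer (E ≃ₐ[K] E) b : Set (E ≃ₐ[K] E)) := by
  have h := stabilizer_isOpen_of_isIntegral (K := K) (b : E)
  have e : MulAction.stabilizer (E ≃ₐ[K] E) b = MulAction.stabilizer (E ≃ₐ[K] E) (b : E) := by
    ext g
    rw [MulAction.mem_stabilizer_iff, MulAction.mem_stabilizer_iff, ← RingOfIntegers.eq_iff]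
    rfl
  rw [e]
  exact h
variable {E}

lemma BValB_conj (P P' : Ideal (𝓞 E)) [P.IsPrime] [P'.IsPrime]
    (h : ∀ x : 𝓞 K, algebraMap (𝓞 K) (𝓞 E) x ∈ P ↔ algebraMap (𝓞 K) (𝓞 E) x ∈ P') :
    ∃ ρ : E ≃ₐ[K] E, ∀ b, b ∈ P ↔ ρ • b ∈ P' := by
  let _ : TopologicalSpace (𝓞 E) := ⊥
  have : DiscreteTopology (𝓞 E) := ⟨rfl⟩
  have := BValB_comm K E
  have := BValB_inv K E
  have : ContinuousSMul (E ≃ₐ[K] E) (𝓞 E) :=
    continuousSMul_iff_stabilizer_isOpen.2 (BValB_open K E)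
  obtain ⟨ρ, hρ⟩ := Algebra.IsInvariant.exists_smul_of_under_eq_of_profinite (A := 𝓞 K)
    (G := E ≃ₐ[K] E) P P' (Ideal.ext h)
  exact ⟨ρ, fun b => by rw [hρ, Ideal.smul_mem_pointwise_smul_iff]⟩

lemma BValB_surj (P : Ideal (𝓞 E)) [P.IsPrime] (e : 𝓞 E ≃+* 𝓞 E) (he : ∀ b, b ∈ P ↔ e b ∈ P)
    (hK : ∀ x : 𝓞 K, e (algebraMap (𝓞 K) (𝓞 E) x) - algebraMap (𝓞 K) (𝓞 E) x ∈ P) :
    ∃ ρ : E ≃ₐ[K] E, (∀ b, b ∈ P → ρ⁻¹ • b ∈ P) ∧ ∀ b, e b - ρ • b ∈ P := by
  let _ : TopologicalSpace (𝓞 E) := ⊥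
  have : DiscreteTopology (𝓞 E) := ⟨rfl⟩
  have := BValB_comm K E
  have := BValB_inv K E
  have : ContinuousSMul (E ≃ₐ[K] E) (𝓞 E) :=
    continuousSMul_iff_stabilizer_isOpen.2 (BValB_open K E)
  have hP : P = P.map (e : 𝓞 E →+* 𝓞 E) := by
    ext b
    obtain ⟨c, rfl⟩ := e.surjective b
    rw [← he]
    exact (Ideal.apply_mem_of_equiv_iff (f := e)).symm
  let σ : (𝓞 E ⧸ P) ≃ₐ[𝓞 K ⧸ P.under (𝓞 K)] (𝓞 E ⧸ P) :=
    AlgEquiv.ofRingEquiv (f := Ideal.quotientEquiv P P e hP) (by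
      intro x
      obtain ⟨x, rfl⟩ := Ideal.Quotient.mk_surjective x
      exact Ideal.Quotient.eq.2 (hK x))
  obtain ⟨ρ, hρ⟩ := Ideal.Quotient.stabilizerHom_surjective_of_profinite (G := E ≃ₐ[K] E)
    (P.under (𝓞 K)) P σ
  refine ⟨ρ.1, fun b hb => ?_, fun b => ?_⟩
  · have h1 : ρ.1 • P = P := ρ.2
    rw [← Ideal.mem_pointwise_smul_iff_inv_smul_mem, h1]
    exact hb
  · have h1 := DFunLike.congr_fun hρ (Ideal.Quotient.mk P b)
    exact Ideal.Quotient.eq.1 h1.symm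

end generic

/-- The center of a nonarchimedean absolute value. -/
def BValB_cen {v : AbsoluteValue Qb ℝ} (hv : IsNonarchimedean v) : Ideal (𝓞 Qb) where
  carrier := {b | v (b : Qb) < 1}
  add_mem' := fun {a b} ha hb => lt_of_le_of_lt (hv (a : Qb) (b : Qb)) (max_lt ha hb)
  zero_mem' := by
    show v 0 < 1
    rw [map_zero]
    exact one_pos
  smul_mem' := fun c b hb => by
    show v ((c : Qb) * (b : Qb)) < 1
    rw [map_mul]
    exact mul_lt_one_of_nonneg_of_lt_one_right (v_int hv c.2) (v.nonneg _) hb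

lemma BValB_mem {v : AbsoluteValue Qb ℝ} (hv : IsNonarchimedean v) (b : 𝓞 Qb) :
    b ∈ BValB_cen hv ↔ v (b : Qb) < 1 := Iff.rfl

lemma BValB_prime {v : AbsoluteValue Qb ℝ} (hv : IsNonarchimedean v) : (BValB_cen hv).IsPrime := by
  refine ⟨fun h => ?_, fun {a b} h => ?_⟩
  · have h1 : v 1 < 1 := (BValB_mem hv 1).1 (h ▸ Submodule.mem_top)
    rw [map_one] at h1
    exact lt_irrefl _ h1
  · have h1 : v ((a : Qb) * (b : Qb)) < 1 := h
    rw [map_mul] at h1
    by_contra hc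
    rw [not_or, BValB_mem, BValB_mem, not_lt, not_lt] at hc
    exact absurd h1 (not_lt.2 (one_le_mul_of_one_le_of_one_le hc.1 hc.2))

lemma BValB_int {R : Type} [CommRing R] (P : Ideal R) [hP : P.IsPrime] {q : ℕ} (hq : q.Prime)
    (h : (q : R) ∈ P) (n : ℤ) : (n : R) ∈ P ↔ (q : ℤ) ∣ n := by
  constructor
  · intro hn
    by_contra hd
    obtain ⟨a, b, hab⟩ := (Nat.prime_iff_prime_int.1 hq).irreducible.coprime_iff_not_dvd.2 hd
    have h1 := congrArg (fun z : ℤ => (z : R)) hab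
    push_cast at h1
    exact hP.ne_top ((Ideal.eq_top_iff_one P).2
      (h1 ▸ P.add_mem (P.mul_mem_left _ h) (P.mul_mem_left _ hn)))
  · rintro ⟨c, rfl⟩
    push_cast
    exact P.mul_mem_right _ h

theorem lift_inr (L : IntermediateField ℚ Qb) [FiniteDimensional ℚ L] {v : AbsoluteValue Qb ℝ}
    (hv : IsNonarchimedean v) {q : ℕ} (hq : q.Prime) (h : v q < 1) (s : L ≃ₐ[ℚ] L)
    (hs : ∀ x : 𝓞 L, v ((s (x : L) : Qb) - ((x : L) : Qb)) < 1) :
    ∃ τ : GQ, Inr v τ ∧ ∀ x : L, τ (x : Qb) = (s x : Qb) := by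
  obtain ⟨τ₀, h₀⟩ : ∃ τ₀ : GQ, ∀ x : L, τ₀ (x : Qb) = (s x : Qb) :=
    ⟨s.liftNormal Qb, fun x => s.liftNormal_commutes Qb x⟩
  have := BValB_prime hv
  set P := BValB_cen hv with hPdef
  have hs' : ∀ τ : GQ, (∀ x : L, τ (x : Qb) = (s x : Qb)) → ∀ x : 𝓞 L,
      τ • algebraMap (𝓞 L) (𝓞 Qb) x - algebraMap (𝓞 L) (𝓞 Qb) x ∈ P := by
    intro τ hτ x
    have := hs x
    rw [← hτ] at this
    exact this
  obtain ⟨ρ, hρ⟩ := BValB_conj L P
    (P.comap (MulSemiringAction.toRingHom GQ (𝓞 Qb) τ₀)) fun x => by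
      rw [Ideal.mem_comap, MulSemiringAction.toRingHom_apply]
      have := hs' τ₀ h₀ x
      exact ⟨fun hx => by simpa using P.add_mem this hx,
        fun hx => by simpa using P.sub_mem hx this⟩
  obtain ⟨τ₁, h₁, h₂⟩ : ∃ τ₁ : GQ, (∀ x : L, τ₁ (x : Qb) = (s x : Qb)) ∧
      ∀ b, b ∈ P ↔ τ₁ • b ∈ P := by
    refine ⟨τ₀ * ρ.restrictScalars ℚ, fun x => ?_, fun b => hρ b⟩
    rw [AlgEquiv.mul_apply, ← h₀]
    exact congrArg τ₀ (ρ.commutes x)
  obtain ⟨ρ', h₃, h₄⟩ := BValB_surj L P (MulSemiringAction.toRingEquiv GQ (𝓞 Qb) τ₁) h₂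
    (hs' τ₁ h₁)
  obtain ⟨τ, h₅, h₆⟩ : ∃ τ : GQ, (∀ x : L, τ (x : Qb) = (s x : Qb)) ∧
      ∀ b : 𝓞 Qb, v (τ (b : Qb) - b) < 1 := by
    refine ⟨(ρ'⁻¹).restrictScalars ℚ * τ₁, fun x => ?_, fun b => ?_⟩
    · rw [AlgEquiv.mul_apply, h₁]
      exact (ρ'⁻¹).commutes (s x)
    · have := h₃ _ (h₄ b)
      rw [smul_sub, inv_smul_smul] at this
      exact this
  refine ⟨τ, fun x hx => ?_, h₅⟩
  obtain ⟨a, b, ha, hb, hb1, hab⟩ := frac hv hq h hx
  have e1 : v (τ a - a) < 1 := h₆ ⟨a, ha⟩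
  have e2 : v (τ b - b) < 1 := h₆ ⟨b, hb⟩
  have e3 : 1 ≤ v (τ b) := by
    by_contra hc
    have h7 := hv (τ b) (-(τ b - b))
    rw [v.map_neg, show τ b + -(τ b - b) = b by ring, hb1] at h7
    exact absurd h7 (not_le.2 (max_lt (not_le.1 hc) e2))
  have e4 : (τ x - x) * τ b = (τ a - a) + -(x * (τ b - b)) := by
    rw [← hab, map_mul]
    ring
  have e5 : v (τ x - x) * v (τ b) < 1 := by
    rw [← map_mul, e4]
    refine lt_of_le_of_lt (hv _ _) (max_lt e1 ?_)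
    rw [v.map_neg, map_mul]
    exact mul_lt_one_of_nonneg_of_lt_one_right hx (v.nonneg _) e2
  exact lt_of_le_of_lt (le_mul_of_one_le_right (v.nonneg _) e3) e5

theorem bvalc_pow {K N : Type} [Field K] [NumberField K] [Field N] [NumberField N] [Algebra K N]
    (G : Type) [Group G] [Finite G] [MulSemiringAction G N] [IsGaloisGroup G K N]
    (w : HeightOneSpectrum (𝓞 N)) (x : K) :
    w.valuation N (algebraMap K N x) =
      (w.under (𝓞 K)).valuation K x ^ Nat.card (w.asIdeal.inertia G) := by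
  have : w.asIdeal.LiesOver (w.under (𝓞 K)).asIdeal := ⟨rfl⟩
  have := w.isPrime
  have := (w.under (𝓞 K)).isMaximal
  rw [← HeightOneSpectrum.valuation_liesOver N (w.under (𝓞 K)) w x,
    Ideal.ramificationIdx'_eq_ramificationIdx _ _ (w.under (𝓞 K)).ne_bot,
    Ideal.card_inertia_eq_ramificationIdxIn (w.under (𝓞 K)).asIdeal w.asIdeal,
    Ideal.ramificationIdxIn_eq_ramificationIdx (w.under (𝓞 K)).asIdeal w.asIdeal G]

theorem bvalc_top {K N : Type} [Field K] [NumberField K] [Field N] [NumberField N] [Algebra K N]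
    (G : Type) [Group G] [Finite G] [MulSemiringAction G N] [IsGaloisGroup G K N]
    (w : HeightOneSpectrum (𝓞 N)) (hG : ∀ (σ : G) (x : 𝓞 N), σ • x - x ∈ w.asIdeal) (x : K) :
    w.valuation N (algebraMap K N x) = (w.under (𝓞 K)).valuation K x ^ Nat.card G := by
  have htop : w.asIdeal.inertia G = ⊤ := eq_top_iff.2 fun σ _ => hG σ
  rw [bvalc_pow G w x, htop, Subgroup.card_top]

theorem bvalc_ex {K N : Type} [Field K] [NumberField K] [Field N] [NumberField N] [Algebra K N]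
    [IsGalois K N] (w : HeightOneSpectrum (𝓞 N)) {y : N}
    (hy : ∀ σ : N ≃ₐ[K] N, (∀ x : 𝓞 N, σ • x - x ∈ w.asIdeal) → σ y = y) :
    ∃ x : K, w.valuation N (algebraMap K N x) = w.valuation N y := by
  set I := w.asIdeal.inertia (N ≃ₐ[K] N) with hI
  set E : IntermediateField K N := FixedPoints.intermediateField I with hE
  have : IsGaloisGroup I E N := IsGaloisGroup.subgroup (N ≃ₐ[K] N) K N I
  have hyE : y ∈ E := fun σ => hy σ.1 σ.2
  have h1 := bvalc_top I w (fun σ x => σ.2 x) (⟨y, hyE⟩ : E)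
  obtain ⟨x, hx⟩ := (w.under (𝓞 K)).valuation_surjective K
    ((w.under (𝓞 E)).valuation E (⟨y, hyE⟩ : E))
  exact ⟨x, by rw [bvalc_pow (N ≃ₐ[K] N) w x, hx]; exact h1.symm⟩

theorem bvalc_le {N : Type} [Field N] [NumberField N] {a : AbsoluteValue N ℝ}
    (ha : IsNonarchimedean a) (w : HeightOneSpectrum (𝓞 N))
    (hw : ∀ x : 𝓞 N, x ∈ w.asIdeal ↔ a x < 1) {u : N} (hu : w.valuation N u ≤ 1) : a u ≤ 1 := by
  obtain ⟨n, d, h⟩ := w.exists_primeCompl_mul_eq_of_integer u hu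
  have hd : 1 ≤ a (d : 𝓞 N) := not_lt.1 fun h1 => d.2 ((hw d).2 h1)
  have hn : a n ≤ 1 := v_int ha n.isIntegral_coe
  have h2 : a u * a (d : 𝓞 N) = a n := by rw [← map_mul]; exact congrArg a h
  nlinarith [a.nonneg u]

theorem bvalc_center {N : Type} [Field N] [NumberField N] {a : AbsoluteValue N ℝ}
    (ha : IsNonarchimedean a) {q : ℕ} (hq : q.Prime) (h : a q < 1) :
    ∃ w : HeightOneSpectrum (𝓞 N), ∀ x : 𝓞 N, x ∈ w.asIdeal ↔ a x < 1 := by
  let P : Ideal (𝓞 N) :=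
    { carrier := {x | a x < 1}
      zero_mem' := by simp
      add_mem' := fun {x y} hx hy => by
        have := ha (x : N) (y : N)
        change a ((x : N) + y) < 1
        exact this.trans_lt (max_lt hx hy)
      smul_mem' := fun c x hx => by
        change a ((c : N) * x) < 1
        rw [map_mul]
        exact mul_lt_one_of_nonneg_of_lt_one_right (v_int ha c.isIntegral_coe) (a.nonneg _) hx }
  have hP : ∀ x : 𝓞 N, x ∈ P ↔ a x < 1 := fun _ => Iff.rfl
  refine ⟨⟨P, ⟨?_, fun {x y} hxy => ?_⟩, ?_⟩, hP⟩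
  · rw [Ideal.ne_top_iff_one, hP]
    simp
  · by_contra hc
    rw [not_or, hP, hP, not_lt, not_lt] at hc
    have h1 : a ((x : N) * y) < 1 := hxy
    rw [map_mul] at h1
    nlinarith [hc.1, hc.2]
  · intro h0
    have h1 : (q : 𝓞 N) ∈ P := by rw [hP]; simpa using h
    rw [h0, Ideal.mem_bot, Nat.cast_eq_zero] at h1
    exact hq.ne_zero h1

theorem ram_a (L : IntermediateField ℚ Qb) [FiniteDimensional ℚ L] (hv : IsNonarchimedean v)
    {q : ℕ} (hq : q.Prime) (h : v q < 1) {y : Qb}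
    (hy : ∀ τ : GQ, (∀ x ∈ L, τ x = x) → Inr v τ → τ y = y) : ∃ x ∈ L, v x = v y := by
  by_cases hy0 : y = 0
  · exact ⟨0, L.zero_mem, by rw [hy0]⟩
  have : FiniteDimensional ℚ (IntermediateField.adjoin ℚ {y}) :=
    IntermediateField.adjoin.finiteDimensional (Algebra.IsIntegral.isIntegral y)
  set M : IntermediateField ℚ Qb := L ⊔ IntermediateField.adjoin ℚ {y} with hM
  set N : IntermediateField ℚ Qb := IntermediateField.normalClosure ℚ M Qb with hN
  have hMN : M ≤ N := IntermediateField.le_normalClosure M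
  have hLN : L ≤ N := le_sup_left.trans hMN
  have hyN : y ∈ N := hMN (le_sup_right (a := L) (IntermediateField.mem_adjoin_simple_self ℚ y))
  have : NumberField L := NumberField.of_module_finite ℚ L
  have : NumberField N := NumberField.of_module_finite ℚ N
  have : Normal ℚ Qb := IsAlgClosure.normal ℚ Qb
  have : Normal ℚ N := normalClosure.normal ℚ M Qb
  have : IsGalois ℚ N := IsGalois.mk
  let _ : Algebra L N := (IntermediateField.inclusion hLN).toAlgebra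
  have : IsScalarTower ℚ L N := IsScalarTower.of_algebraMap_eq fun x => rfl
  have : IsGalois L N := IsGalois.tower_top_of_isGalois ℚ L N
  let a : AbsoluteValue N ℝ := v.comp (f := algebraMap N Qb) (RingHom.injective _)
  have ha : IsNonarchimedean a := fun x z => hv (x : Qb) (z : Qb)
  have hq1 : a q < 1 := by
    change v (algebraMap N Qb q) < 1
    rwa [map_natCast]
  obtain ⟨w, hw⟩ := bvalc_center ha hq hq1
  obtain ⟨x, hx⟩ := bvalc_ex (K := L) w (y := ⟨y, hyN⟩) fun σ hσ => by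
    obtain ⟨τ, hτ, e⟩ := lift_inr N hv hq h (σ.restrictScalars ℚ) fun x => (hw _).1 (hσ x)
    have h1 : τ y = y := hy τ (fun x hx => by
      have h2 := e ⟨x, hLN hx⟩
      have h3 : σ ⟨x, hLN hx⟩ = ⟨x, hLN hx⟩ := σ.commutes ⟨x, hx⟩
      exact h2.trans (congrArg Subtype.val h3)) hτ
    exact Subtype.ext ((e ⟨y, hyN⟩).symm.trans h1)
  have hy1 : (⟨y, hyN⟩ : N) ≠ 0 := fun e => hy0 (congrArg Subtype.val e)
  have hy2 : w.valuation N ⟨y, hyN⟩ ≠ 0 := (Valuation.ne_zero_iff _).2 hy1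
  have hx1 : algebraMap L N x ≠ 0 := (Valuation.ne_zero_iff _).1 (hx ▸ hy2)
  have h1 := bvalc_le ha w hw (u := algebraMap L N x / ⟨y, hyN⟩)
    (by rw [map_div₀, hx, div_self hy2])
  have h2 := bvalc_le ha w hw (u := ⟨y, hyN⟩ / algebraMap L N x)
    (by rw [map_div₀, hx, div_self hy2])
  rw [map_div₀, div_le_one (a.pos hy1)] at h1
  rw [map_div₀, div_le_one (a.pos hx1)] at h2
  exact ⟨x, x.2, le_antisymm h1 h2⟩

end Pool.Agent.E6b.H1c

end

section
open NumberField IsDedekindDomain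
open scoped nonZeroDivisors

namespace Pool.Agent.E6b.H1c

/-- `T` lies in finitely many classes modulo squares. -/
def FinSq {L : Type} [Field L] (T : L → Prop) : Prop :=
  ∃ R : Set L, R.Finite ∧ ∀ θ, T θ → ∃ r ∈ R, ∃ u : L, θ = r * u ^ 2

lemma finSq_cover {L X : Type} [Field L] [Finite X] (T T1 : L → Prop)
    (P : L → X → Prop) (h1 : ∀ a, T a → ∃ y, P a y)
    (h2 : ∀ a b y, T a → T b → P a y → P b y → ∃ c u, T1 c ∧ a = c * b * u ^ 2)
    (h3 : FinSq T1) : FinSq T := by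
  obtain ⟨R1, hR1, h3⟩ := h3
  have : ∀ y : X, ∃ b : L, (∃ a, T a ∧ P a y) → T b ∧ P b y := by
    intro y
    by_cases h : ∃ a, T a ∧ P a y
    · obtain ⟨a, ha⟩ := h
      exact ⟨a, fun _ => ha⟩
    · exact ⟨0, fun h' => absurd h' h⟩
  choose b hb using this
  refine ⟨Set.image2 (fun y r => b y * r) Set.univ R1, Set.finite_univ.image2 _ hR1, ?_⟩
  intro θ hθ
  obtain ⟨y, hP⟩ := h1 θ hθ
  obtain ⟨hb1, hb2⟩ := hb y ⟨θ, hθ, hP⟩
  obtain ⟨c, u, hc, e⟩ := h2 θ (b y) y hθ hb1 hP hb2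
  obtain ⟨r, hr, u', hu⟩ := h3 _ hc
  refine ⟨b y * r, Set.mem_image2_of_mem (Set.mem_univ y) hr, u * u', ?_⟩
  rw [e, hu]
  ring
variable {L : Type} [Field L] [NumberField L]

lemma finSq_units : FinSq (fun θ : L => ∃ u : (𝓞 L)ˣ, θ = ((u : 𝓞 L) : L)) := by
  have : Group.FG (𝓞 L)ˣ := Group.fg_iff_monoid_fg.2 inferInstance
  have hfi := Subgroup.finiteIndex_range_powMonoidHom_of_fg (𝓞 L)ˣ (n := 2) two_ne_zero
  set H := (powMonoidHom (α := (𝓞 L)ˣ) 2).range with hH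
  have : Finite ((𝓞 L)ˣ ⧸ H) := Subgroup.finite_quotient_of_finiteIndex
  refine ⟨Set.range fun q : (𝓞 L)ˣ ⧸ H => (((q.out : (𝓞 L)ˣ) : 𝓞 L) : L), Set.finite_range _, ?_⟩
  rintro θ ⟨u, rfl⟩
  obtain ⟨h, e⟩ := QuotientGroup.mk_out_eq_mul H u
  obtain ⟨t, ht⟩ := h.2
  refine ⟨_, ⟨(u : (𝓞 L)ˣ ⧸ H), rfl⟩, (((t⁻¹ : (𝓞 L)ˣ) : 𝓞 L) : L), ?_⟩
  have e2 : u = (u : (𝓞 L)ˣ ⧸ H).out * t⁻¹ ^ 2 := by
    rw [e, ← ht, powMonoidHom_apply, mul_assoc, ← mul_pow, mul_inv_cancel, one_pow, mul_one]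
  have e3 := congrArg (fun z : (𝓞 L)ˣ => algebraMap (𝓞 L) L (z : 𝓞 L)) e2
  simpa only [Units.val_mul, Units.val_pow_eq_pow_val, map_mul, map_pow] using e3

/-- The order of θ at Q, up to sign. -/
noncomputable def ordAt (Q : HeightOneSpectrum (𝓞 L)) (θ : L) : ℤ :=
  WithZero.log (Q.valuation L θ)

lemma ordAt_mul (Q : HeightOneSpectrum (𝓞 L)) {a b : L} (ha : a ≠ 0) (hb : b ≠ 0) :
    ordAt Q (a * b) = ordAt Q a + ordAt Q b := by
  simp only [ordAt, map_mul]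
  exact WithZero.log_mul ((Valuation.ne_zero_iff _).2 ha) ((Valuation.ne_zero_iff _).2 hb)

lemma ordAt_pow (Q : HeightOneSpectrum (𝓞 L)) (a : L) (n : ℕ) :
    ordAt Q (a ^ n) = n * ordAt Q a := by
  simp only [ordAt, map_pow, WithZero.log_pow, nsmul_eq_mul]

lemma pow_ideal {x : 𝓞 L} (hx : x ≠ 0)
    (h : ∀ Q : HeightOneSpectrum (𝓞 L), Even (ordAt Q (x : L))) :
    ∃ A : Ideal (𝓞 L), Ideal.span {x} = A ^ 2 := by
  have hs : (Ideal.span {x} : Ideal (𝓞 L)) ≠ 0 := by simpa using hx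
  obtain ⟨b, hb⟩ := Associates.is_pow_of_dvd_count (a := Associates.mk (Ideal.span {x}))
    (Associates.mk_ne_zero.2 hs) (k := 2) (by
      intro P hP
      obtain ⟨P, rfl⟩ := Associates.mk_surjective P
      rw [Associates.irreducible_mk] at hP
      have := (h (HeightOneSpectrum.ofPrime hP.prime)).two_dvd
      rw [ordAt, show (x : L) = algebraMap (𝓞 L) L x from rfl,
        HeightOneSpectrum.valuation_of_algebraMap, HeightOneSpectrum.intValuation_if_neg _ hx,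
        WithZero.log_exp, dvd_neg] at this
      exact Int.natCast_dvd_natCast.1 this)
  obtain ⟨A, rfl⟩ := Associates.mk_surjective b
  refine ⟨A, ?_⟩
  rwa [← Associates.mk_pow, Associates.mk_eq_mk_iff_associated, associated_iff_eq] at hb

lemma finSq_even :
    FinSq (fun θ : L => θ ≠ 0 ∧ ∀ Q : HeightOneSpectrum (𝓞 L), Even (ordAt Q θ)) := by
  refine finSq_cover (X := ClassGroup (𝓞 L)) _ _
    (fun θ y => ∃ (A : (Ideal (𝓞 L))⁰) (d : L) (x : 𝓞 L), d ≠ 0 ∧ θ * d ^ 2 = x ∧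
      Ideal.span {x} = A.1 ^ 2 ∧ y = ClassGroup.mk0 A) ?_ ?_ finSq_units
  · rintro θ ⟨h0, h⟩
    obtain ⟨a, b, hb, rfl⟩ := IsFractionRing.div_surjective (A := 𝓞 L) θ
    have hb0 : b ≠ 0 := nonZeroDivisors.ne_zero hb
    have hb1 : algebraMap (𝓞 L) L b ≠ 0 := by simpa using hb0
    have e : algebraMap (𝓞 L) L a / algebraMap (𝓞 L) L b * algebraMap (𝓞 L) L b ^ 2 =
        ((a * b : 𝓞 L) : L) := by
      rw [show ((a * b : 𝓞 L) : L) = algebraMap (𝓞 L) L (a * b) from rfl, map_mul]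
      field_simp
    have hx : a * b ≠ 0 := by
      intro h1
      rw [h1] at e
      exact mul_ne_zero h0 (pow_ne_zero _ hb1) e
    obtain ⟨A, hA⟩ := pow_ideal hx (fun Q => by
      rw [← e, ordAt_mul Q h0 (pow_ne_zero _ hb1), ordAt_pow]
      exact (h Q).add (Even.mul_right (by decide) _))
    have hA0 : A ≠ 0 := by
      rintro rfl
      rw [zero_pow two_ne_zero] at hA
      exact hx (by simpa using hA)
    exact ⟨_, ⟨A, mem_nonZeroDivisors_of_ne_zero hA0⟩, _, _, hb1, e, hA, rfl⟩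
  · rintro a b y - - ⟨A, d, x, hd, hx, hA, hy⟩ ⟨A', d', x', hd', hx', hA', hy'⟩
    obtain ⟨r, t, hr, ht, hrt⟩ := ClassGroup.mk0_eq_mk0_iff.1 (hy.symm.trans hy')
    have e2 : Ideal.span {t ^ 2 * x'} = Ideal.span {r ^ 2 * x} := by
      rw [← Ideal.span_singleton_mul_span_singleton, ← Ideal.span_singleton_mul_span_singleton,
        ← Ideal.span_singleton_pow, ← Ideal.span_singleton_pow, hA, hA', ← mul_pow, ← mul_pow, hrt]
    obtain ⟨u, hu⟩ := Ideal.span_singleton_eq_span_singleton.1 e2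
    have hr' : (r : L) ≠ 0 := by simpa using hr
    refine ⟨_, t * d' / (r * d), ⟨u, rfl⟩, ?_⟩
    have hu' : (t : L) ^ 2 * x' * ((u : 𝓞 L) : L) = (r : L) ^ 2 * x := by
      have := congrArg (algebraMap (𝓞 L) L) hu
      simpa only [map_mul, map_pow] using this
    rw [← hx, ← hx'] at hu'
    field_simp
    linear_combination -hu'

lemma finSq_outside (S : Set (HeightOneSpectrum (𝓞 L))) (hS : S.Finite) :
    FinSq (fun θ : L => θ ≠ 0 ∧ ∀ Q ∉ S, Even (ordAt Q θ)) := by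
  have := hS.to_subtype
  refine finSq_cover (X := S → Prop) _ _ (fun θ y => y = fun Q => Even (ordAt Q.1 θ))
    (fun a _ => ⟨_, rfl⟩) ?_ finSq_even
  rintro a b y ⟨ha, ha'⟩ ⟨hb, hb'⟩ rfl e
  refine ⟨a * b, b⁻¹, ⟨mul_ne_zero ha hb, fun Q => ?_⟩, by field_simp⟩
  rw [ordAt_mul Q ha hb, Int.even_add]
  by_cases hQ : Q ∈ S
  · exact iff_of_eq (congrFun e ⟨Q, hQ⟩)
  · exact iff_of_true (ha' Q hQ) (hb' Q hQ)

end Pool.Agent.E6b.H1c

end

section
open scoped NNReal TensorProduct IntermediateField BigOperators Classical Topology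
open Filter

namespace Pool.Agent.E6b

section
open NumberField IsDedekindDomain H1c

lemma H1c_spec {p : ℕ} {v : AbsoluteValue Qb ℝ} (hv : IsPl p v) (hp : p ≠ 0) :
    p.Prime ∧ IsNonarchimedean v ∧ v (p : Qb) = (p : ℝ)⁻¹ ∧ v (p : Qb) < 1 := by
  rcases hv with ⟨h, -⟩ | ⟨h1, h2, h3⟩
  · exact absurd h hp
  · refine ⟨h1, h2, h3, ?_⟩
    rw [h3]
    exact inv_lt_one_of_one_lt₀ (by exact_mod_cast h1.one_lt)

lemma H1c_conj {p : ℕ} (hp : p.Prime) (P P' : Ideal (𝓞 Qb)) [P.IsPrime] [P'.IsPrime]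
    (h1 : (p : 𝓞 Qb) ∈ P) (h2 : (p : 𝓞 Qb) ∈ P') : ∃ ρ : GQ, ∀ b, b ∈ P ↔ ρ • b ∈ P' :=
  BValB_conj ℚ P P' fun x => by
    obtain ⟨n, rfl⟩ := Rat.ringOfIntegersEquiv.symm.surjective x
    rw [eq_intCast Rat.ringOfIntegersEquiv.symm, map_intCast, BValB_int P hp h1,
      BValB_int _ hp h2]

lemma H1c_cen {p : ℕ} {v : AbsoluteValue Qb ℝ} (hv : IsNonarchimedean v) (h : v (p : Qb) < 1) :
    (p : 𝓞 Qb) ∈ BValB_cen hv := by
  rw [BValB_mem, RingOfIntegers.coe_eq_algebraMap, map_natCast]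
  exact h

lemma H1c_le {p : ℕ} (hp : p.Prime) {v w : AbsoluteValue Qb ℝ} (hv : IsNonarchimedean v)
    (hw : IsNonarchimedean w) (h : v (p : Qb) < 1)
    (e : ∀ b : Qb, IsIntegral ℤ b → w b < 1 → v b < 1) {x : Qb} (hx : v x ≤ 1) : w x ≤ 1 := by
  obtain ⟨a, b, ha, hb, hb1, hab⟩ := frac hv hp h hx
  have h1 : 1 ≤ w b := not_lt.1 fun hc => absurd (e b hb hc) (by rw [hb1]; exact lt_irrefl _)
  have h2 : w x * w b ≤ 1 := by rw [← map_mul, hab]; exact v_int hw ha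
  exact (le_mul_of_one_le_right (w.nonneg _) h1).trans h2

lemma H1c_eq {p : ℕ} {v w : AbsoluteValue Qb ℝ} (hv : IsPl p v) (hw : IsPl p w) (hp : p ≠ 0)
    (e : ∀ b : Qb, IsIntegral ℤ b → (w b < 1 ↔ v b < 1)) (x : Qb) : w x = v x := by
  obtain ⟨h0, v1, v2, v3⟩ := H1c_spec hv hp
  obtain ⟨-, w1, w2, w3⟩ := H1c_spec hw hp
  have hle : ∀ x, v x ≤ 1 ↔ w x ≤ 1 := fun x =>
    ⟨H1c_le h0 v1 w1 v3 fun b hb => (e b hb).1, H1c_le h0 w1 v1 w3 fun b hb => (e b hb).2⟩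
  have heq : v.IsEquiv w := fun x y => by
    by_cases hy : y = 0
    · subst hy
      simp
    · have := hle (x / y)
      rwa [map_div₀, map_div₀, div_le_one (v.pos hy), div_le_one (w.pos hy)] at this
  obtain ⟨c, -, hc⟩ := AbsoluteValue.isEquiv_iff_exists_rpow_eq.1 heq
  have h1 : v (p : Qb) ^ c = v (p : Qb) ^ (1 : ℝ) := by
    rw [Real.rpow_one]
    exact (congrFun hc (p : Qb)).trans (w2.trans v2.symm)
  have h2 : c = 1 :=
    (Real.rpow_right_inj (v.pos (Nat.cast_ne_zero.2 hp)) v3.ne).1 h1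
  rw [← congrFun hc x, h2]
  exact Real.rpow_one _

lemma H1c_center (K : IntermediateField ℚ Qb) [FiniteDimensional ℚ K] (Q : Ideal (𝓞 K))
    [Q.IsMaximal] {p : ℕ} (hp : p.Prime) (hq : (p : 𝓞 K) ∈ Q) :
    ∃ v, IsPl p v ∧ ∀ x : 𝓞 K, x ∈ Q ↔ v ((x : K) : Qb) < 1 := by
  obtain ⟨P, hP, hPQ⟩ := Ideal.exists_ideal_over_maximal_of_isIntegral (S := 𝓞 Qb) Q
    (by rw [RingOfIntegers.ker_algebraMap_eq_bot]; exact bot_le)
  obtain ⟨v, hv⟩ := exists_isPl (Or.inr hp)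
  obtain ⟨-, v1, -, v3⟩ := H1c_spec hv hp.ne_zero
  have := BValB_prime v1
  have h1 : (p : 𝓞 Qb) ∈ P := by
    rw [← hPQ, Ideal.mem_comap, map_natCast] at hq
    exact hq
  obtain ⟨ρ, hρ⟩ := H1c_conj hp P (BValB_cen v1) h1 (H1c_cen v1 v3)
  refine ⟨_, hv.comp ρ, fun x => ?_⟩
  rw [← hPQ, Ideal.mem_comap, hρ, BValB_mem]
  rfl

lemma H1c_root (K : IntermediateField ℚ Qb) [FiniteDimensional ℚ K] (χ : K.fixingSubgroup →* ℤˣ)
    (L : IntermediateField ℚ Qb) [FiniteDimensional ℚ L]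
    (hL : ∀ σ : K.fixingSubgroup, (∀ x ∈ L, (σ : GQ) x = x) → χ σ = 1) :
    ∃ a : Qb, a ≠ 0 ∧ ∀ σ : K.fixingSubgroup, (σ : GQ) a = ((χ σ : ℤ) : Qb) * a := by
  by_cases hχ : ∀ σ, χ σ = 1
  · exact ⟨1, one_ne_zero, fun σ => by rw [hχ]; simp⟩
  push Not at hχ
  obtain ⟨s, hs⟩ := hχ
  have hs' : χ s = -1 := (Int.units_eq_one_or _).resolve_left hs
  set H : Subgroup GQ := χ.ker.map K.fixingSubgroup.subtype with hHdef
  have hopen : IsOpen (H : Set GQ) := by
    refine Subgroup.isOpen_mono (H₁ := K.fixingSubgroup ⊓ L.fixingSubgroup) ?_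
      (K.fixingSubgroup_isOpen.inter L.fixingSubgroup_isOpen)
    rintro σ ⟨h1, h2⟩
    exact ⟨⟨σ, h1⟩, hL _ ((IntermediateField.mem_fixingSubgroup_iff L σ).1 h2), rfl⟩
  have hH : (IntermediateField.fixedField H).fixingSubgroup = H :=
    InfiniteGalois.fixingSubgroup_fixedField ⟨H, H.isClosed_of_isOpen hopen⟩
  have hsH : (s : GQ) ∉ (IntermediateField.fixedField H).fixingSubgroup := by
    rw [hH]
    rintro ⟨t, ht, e⟩
    have : t = s := Subtype.ext e
    exact hs (this ▸ ht)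
  rw [IntermediateField.mem_fixingSubgroup_iff] at hsH
  push Not at hsH
  obtain ⟨y, hy, hsy⟩ := hsH
  have fix : ∀ τ : K.fixingSubgroup, χ τ = 1 → (τ : GQ) y = y := fun τ hτ =>
    (IntermediateField.mem_fixedField_iff H y).1 hy _ ⟨τ, hτ, rfl⟩
  have mov : ∀ τ : K.fixingSubgroup, χ τ = -1 → (τ : GQ) y = (s : GQ) y := fun τ hτ => by
    have h1 := fix (s⁻¹ * τ) (by rw [map_mul, map_inv, hs', hτ]; simp)
    nth_rewrite 2 [← h1]
    rw [← AlgEquiv.mul_apply, ← Subgroup.coe_mul, mul_inv_cancel_left]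
  refine ⟨y - (s : GQ) y, sub_ne_zero.2 hsy.symm, fun σ => ?_⟩
  rw [map_sub, ← AlgEquiv.mul_apply, ← Subgroup.coe_mul]
  rcases Int.units_eq_one_or (χ σ) with h | h
  · rw [fix σ h, mov (σ * s) (by rw [map_mul, h, hs', one_mul]), h]
    simp
  · rw [mov σ h, fix (σ * s) (by rw [map_mul, h, hs']; simp), h]
    simp

end

/-- two places above the same `p` are Galois conjugate over `ℚ`. -/
theorem IsPl.exists_conj {p : ℕ} {v w : AbsoluteValue Qb ℝ} (hv : IsPl p v) (hw : IsPl p w) :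
    ∃ σ : Qb ≃ₐ[ℚ] Qb, ∀ x, w x = v (σ x) := by
  by_cases hp : p = 0
  · subst hp
    obtain ⟨-, ι, h1⟩ | h1 := hv
    swap
    · exact absurd h1.1 Nat.not_prime_zero
    obtain ⟨-, κ, h2⟩ | h2 := hw
    swap
    · exact absurd h2.1 Nat.not_prime_zero
    let _ : Algebra Qb ℂ := ι.toAlgebra
    have : IsScalarTower ℚ Qb ℂ := IsScalarTower.of_algebraMap_eq fun x => by
      simp [RingHom.algebraMap_toAlgebra]
    refine ⟨κ.toRatAlgHom.restrictNormal' Qb, fun x => ?_⟩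
    rw [h1, h2]
    exact congrArg norm (κ.toRatAlgHom.restrictNormal_commutes Qb x).symm
  · obtain ⟨h0, v1, -, v3⟩ := H1c_spec hv hp
    obtain ⟨-, w1, -, w3⟩ := H1c_spec hw hp
    have := H1c.BValB_prime v1
    have := H1c.BValB_prime w1
    obtain ⟨ρ, hρ⟩ := H1c_conj h0 _ _ (H1c_cen w1 w3) (H1c_cen v1 v3)
    exact ⟨ρ, H1c_eq (hv.comp ρ) hw hp fun b hb => hρ ⟨b, hb⟩⟩

/-- `K(S,2)` is finite: finitely many quadratic characters of the absolute Galois group of a number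
field are trivial on all inertia groups above the primes `p ≥ N`. -/
theorem finite_unram_char (K : IntermediateField ℚ Qb) [FiniteDimensional ℚ K] (N : ℕ) :
    {χ : K.fixingSubgroup →* ℤˣ |
      (∃ L : IntermediateField ℚ Qb, FiniteDimensional ℚ L ∧
        ∀ σ : K.fixingSubgroup, (∀ x ∈ L, (σ : Qb ≃ₐ[ℚ] Qb) x = x) → χ σ = 1) ∧
      ∀ p v, IsPl p v → N ≤ p → p ≠ 0 → ∀ σ : K.fixingSubgroup,
        (∀ x, v x ≤ 1 → v ((σ : Qb ≃ₐ[ℚ] Qb) x - x) < 1) → χ σ = 1}.Finite := by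
  have : NumberField K := NumberField.of_module_finite ℚ K
  have hm : (Ideal.span {((N.factorial : ℕ) : NumberField.RingOfIntegers K)}) ≠ 0 := by
    simpa using N.factorial_ne_zero
  obtain ⟨R, hR, hRs⟩ := H1c.finSq_outside (L := K) _ (Ideal.finite_factors hm)
  choose r hr using fun f : K => IsAlgClosed.exists_pow_nat_eq (f : Qb) two_pos
  refine (hR.biUnion (t := fun f => {χ : K.fixingSubgroup →* ℤˣ | r f ≠ 0 ∧
      ∀ σ : K.fixingSubgroup, (σ : Qb ≃ₐ[ℚ] Qb) (r f) = ((χ σ : ℤ) : Qb) * r f}) ?_).subset ?_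
  · intro f _
    refine Set.Subsingleton.finite ?_
    rintro χ ⟨h0, h1⟩ χ' ⟨-, h2⟩
    ext σ
    have := mul_right_cancel₀ h0 ((h1 σ).symm.trans (h2 σ))
    exact_mod_cast this
  rintro χ ⟨⟨L, hL, hL'⟩, hun⟩
  obtain ⟨a, ha0, ha⟩ := H1c_root K χ L hL'
  have hsq : a ^ 2 ∈ K := by
    rw [← InfiniteGalois.fixedField_fixingSubgroup K, IntermediateField.mem_fixedField_iff]
    intro σ hσ
    rw [map_pow, ha ⟨σ, hσ⟩, mul_pow, ← Int.cast_pow, ← Units.val_pow_eq_pow_val,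
      Int.units_sq]
    simp
  have hα : (⟨a ^ 2, hsq⟩ : K) ≠ 0 := fun e => pow_ne_zero 2 ha0 (congrArg Subtype.val e)
  obtain ⟨f, hf, β, e⟩ := hRs ⟨a ^ 2, hsq⟩ ⟨hα, fun Q hQ => by
    have := Q.isMaximal
    obtain ⟨p, n, -, hpQ, hp, -⟩ := Ideal.exists_prime_and_absNorm_eq_pow Q.asIdeal
    have hNp : N ≤ p := by
      by_contra hc
      obtain ⟨c, hc⟩ := (hp.dvd_factorial).2 (not_le.1 hc).le
      refine hQ (Ideal.dvd_span_singleton.2 ?_)
      rw [hc, Nat.cast_mul]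
      exact Q.asIdeal.mul_mem_right _ hpQ
    obtain ⟨v, hv, hQv⟩ := H1c_center K Q.asIdeal hp hpQ
    obtain ⟨-, v1, -, v3⟩ := H1c_spec hv hp.ne_zero
    obtain ⟨x, hx, hxa⟩ := H1c.ram_a K v1 hp v3 (y := a) fun τ h1 h2 => by
      have h3 : τ ∈ K.fixingSubgroup := (IntermediateField.mem_fixingSubgroup_iff K τ).2 h1
      have h4 := ha ⟨τ, h3⟩
      rw [hun p v hv hNp hp.ne_zero ⟨τ, h3⟩ h2] at h4
      simpa using h4
    have hx0 : x ≠ 0 := by
      rintro rfl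
      rw [map_zero] at hxa
      exact (v.pos ha0).ne hxa
    have hx1 : (⟨x, hx⟩ : K) ≠ 0 := fun e => hx0 (congrArg Subtype.val e)
    have h5 := H1c.val_one (w := v.comp (f := algebraMap K Qb) (RingHom.injective _)) Q hQv
      (fun x z => v1 (x : Qb) (z : Qb)) (y := ⟨a ^ 2, hsq⟩ / ⟨x, hx⟩ ^ 2) (by
        change v (a ^ 2 / x ^ 2) = 1
        rw [map_div₀, map_pow, map_pow, hxa, div_self (pow_ne_zero 2 (v.pos ha0).ne')])
    rw [map_div₀, div_eq_one_iff_eq ((Valuation.ne_zero_iff _).2 (pow_ne_zero 2 hx1))] at h5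
    have h6 : H1c.ordAt Q ⟨a ^ 2, hsq⟩ = H1c.ordAt Q (⟨x, hx⟩ ^ 2) := congrArg WithZero.log h5
    rw [h6, H1c.ordAt_pow]
    exact Even.mul_right (by decide) _⟩
  have e1 : a ^ 2 = (r f * β) ^ 2 := by
    rw [mul_pow, hr]
    exact congrArg Subtype.val e
  have h0 : r f * β ≠ 0 := fun h => pow_ne_zero 2 ha0 (by rw [e1, h]; simp)
  refine Set.mem_biUnion hf ⟨left_ne_zero_of_mul h0, fun σ => ?_⟩
  have hβ : (σ : Qb ≃ₐ[ℚ] Qb) β = β := (IntermediateField.mem_fixingSubgroup_iff K _).1 σ.2 _ β.2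
  have h1 := ha σ
  refine mul_right_cancel₀ (right_ne_zero_of_mul h0) ?_
  rcases sq_eq_sq_iff_eq_or_eq_neg.1 e1 with h | h
  · rw [h, map_mul, hβ] at h1
    rw [h1, mul_assoc]
  · rw [h, map_neg, map_mul, hβ, mul_neg, neg_inj] at h1
    rw [h1, mul_assoc]

end Pool.Agent.E6b

end

section
open scoped NNReal TensorProduct IntermediateField BigOperators Classical Topology
open Filter

namespace Pool.Agent.E6b

section
variable {v : AbsoluteValue Qb ℝ}

theorem X6a_add_lt (hv : IsNonarchimedean v) {a b : Qb} (h : v a < v b) : v (a + b) = v b := by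
  rw [IsNonarchimedean.add_eq_max_of_ne hv h.ne, max_eq_right h.le]

theorem X6a_sub_le (hv : IsNonarchimedean v) (a b : Qb) : v (a - b) ≤ max (v a) (v b) := by
  have := hv a (-b)
  rwa [← sub_eq_add_neg, AbsoluteValue.map_neg] at this

end

end Pool.Agent.E6b

end

section
open scoped NNReal TensorProduct IntermediateField BigOperators Classical Topology
open Filter

namespace Pool.Agent.E6b

section
variable {κ F' E : Type} [Field κ] [Field F'] [Algebra κ F'] [Field E] [Algebra κ E]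

theorem K4_smul_sum {ι : Type} [Fintype ι] (a : F') (c : ι → F') (u : ι → E) :
    a • ∑ i, c i ⊗ₜ[κ] u i = ∑ i, (a * c i) ⊗ₜ[κ] u i := by
  rw [Finset.smul_sum]
  exact Finset.sum_congr rfl fun i _ => by rw [TensorProduct.smul_tmul', smul_eq_mul]

end

end Pool.Agent.E6b

end
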