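import Pool.Agent.E6c.A02
import Pool.Agent.E6c.A03

section
open scoped NNReal TensorProduct IntermediateField BigOperators Classical Topology
open Filter

namespace Pool.Agent.E6b
variable {κ Ω : Type} [Field κ] [Field Ω] [Algebra κ Ω]

theorem V1_vs_empty (O : ValuationSubring Ω) {ι : Type} [Fintype ι] [IsEmpty ι] (x : ι → Ω) :
    vs O x = 0 :=
  le_antisymm (vs_le O fun i => isEmptyElim i) zero_le

theorem vs_segre (O : ValuationSubring Ω) {ι ι' : Type} [Fintype ι] [Fintype ι'] (x : ι → Ω)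
    (y : ι' → Ω) : vs O (fun p : ι × ι' => x p.1 * y p.2) = vs O x * vs O y := by
  rcases isEmpty_or_nonempty ι with h | h
  · rw [V1_vs_empty, V1_vs_empty O x, zero_mul]
  rcases isEmpty_or_nonempty ι' with h' | h'
  · rw [V1_vs_empty, V1_vs_empty O y, mul_zero]
  apply le_antisymm
  · refine vs_le O fun p => ?_
    rw [map_mul]
    exact mul_le_mul' (le_vs O x p.1) (le_vs O y p.2)
  · obtain ⟨i, hi⟩ := exists_vs_eq O x
    obtain ⟨j, hj⟩ := exists_vs_eq O y
    rw [← hi, ← hj, ← map_mul]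
    exact le_vs O (fun p : ι × ι' => x p.1 * y p.2) (i, j)

theorem vs_smul (O : ValuationSubring Ω) {ι : Type} [Fintype ι] (μ : Ω) (x : ι → Ω) :
    vs O (fun i => μ * x i) = O.valuation μ * vs O x := by
  rcases isEmpty_or_nonempty ι with h | h
  · rw [V1_vs_empty, V1_vs_empty O x, mul_zero]
  apply le_antisymm
  · refine vs_le O fun i => ?_
    rw [map_mul]
    exact mul_le_mul' le_rfl (le_vs O x i)
  · obtain ⟨i, hi⟩ := exists_vs_eq O x
    rw [← hi, ← map_mul]
    exact le_vs O (fun i => μ * x i) i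

theorem veq_iff {l m : VC κ Ω} :
    VEq l m ↔ ∀ O : VS κ Ω, O.1.valuation (l O : Ω) = O.1.valuation (m O : Ω) := by
  unfold VEq
  rw [vle_iff, vle_iff]
  exact ⟨fun h O => le_antisymm (h.1 O) (h.2 O), fun h => ⟨fun O => (h O).le, fun O => (h O).ge⟩⟩

theorem VLe.of_pow {l m : VC κ Ω} {k : ℕ} (hk : 0 < k) (h : VLe (l ^ k) (m ^ k)) : VLe l m := by
  refine vle_iff.mpr fun O => ?_
  have := vle_iff.mp h O
  simp only [Pi.pow_apply, Units.val_pow_eq_pow_val, map_pow] at this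
  exact (pow_le_pow_iff_left₀ zero_le zero_le hk.ne').mp this

theorem VEq.TT_eq {l m : VC κ Ω} (h : VEq l m) : TT l = TT m :=
  le_antisymm h.1.TT_le h.2.TT_le

theorem V1_veq_inv {l m : VC κ Ω} (h : VEq l m) : VEq l⁻¹ m⁻¹ := ⟨h.2.inv, h.1.inv⟩

theorem V1_qeq_pow {l m : VC κ Ω} (h : QEq l m) (k : ℕ) : QEq (l ^ k) (m ^ k) := by
  induction k with
  | zero => rw [pow_zero, pow_zero]; exact QEq.refl _
  | succ k ih => rw [pow_succ, pow_succ]; exact ih.mul h

theorem V1_qeq_inv {l m : VC κ Ω} (h : QEq l m) : QEq l⁻¹ m⁻¹ := by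
  obtain ⟨k, hk, g, h⟩ := h
  refine ⟨k, hk, g⁻¹, ?_⟩
  have := V1_veq_inv h
  rwa [mul_inv, ← V1_cstC_inv, ← inv_pow, ← inv_pow] at this

theorem QEq.zpow {l m : VC κ Ω} (h : QEq l m) (k : ℤ) : QEq (l ^ k) (m ^ k) := by
  rcases Int.eq_nat_or_neg k with ⟨n, rfl | rfl⟩
  · rw [zpow_natCast, zpow_natCast]; exact V1_qeq_pow h n
  · rw [zpow_neg, zpow_neg, zpow_natCast, zpow_natCast]; exact V1_qeq_inv (V1_qeq_pow h n)

theorem QEq.of_pow {l m : VC κ Ω} {k : ℕ} (hk : 0 < k) (h : QEq (l ^ k) (m ^ k)) : QEq l m := by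
  obtain ⟨a, ha, g, h⟩ := h
  refine ⟨k * a, Nat.mul_pos hk ha, g, ?_⟩
  rwa [V1_e1, V1_e1] at h

theorem mem_TT_gen {ι : Type} [Finite ι] {l : ι → Ω} (hl : l ≠ 0) (j : ι) : l j ∈ TT (gen κ l) :=
  fun O => (gen_spec hl O).2 j

theorem qeq_gen_of_prp {ι : Type} [Finite ι] {l m : ι → Ω} (hm : m ≠ 0) {μ : Ω} (hμ : μ ≠ 0)
    (h : ∀ i, l i = μ * m i) : VEq (gen κ l) (cstC κ (Units.mk0 μ hμ) * gen κ m) := by
  have := Fintype.ofFinite ι
  have hl : l ≠ 0 := by
    obtain ⟨j, hj⟩ := Function.ne_iff.mp hm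
    intro h0
    have := h j
    rw [h0] at this
    exact mul_ne_zero hμ hj this.symm
  refine veq_iff.mpr fun O => ?_
  have e : l = fun i => μ * m i := funext h
  simp only [Pi.mul_apply, cstC, Units.val_mul, Units.val_mk0, map_mul]
  rw [valuation_gen hl, valuation_gen hm, e, vs_smul]

theorem mul_mem_TT {l m : VC κ Ω} {F G : Ω} (hF : F ∈ TT l) (hG : G ∈ TT m) :
    F * G ∈ TT (l * m) := by
  refine mem_TT_iff.mpr fun O => ?_
  simp only [Pi.mul_apply, Units.val_mul, map_mul]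
  exact mul_le_mul' (mem_TT_iff.mp hF O) (mem_TT_iff.mp hG O)

theorem one_vle_gen {ι : Type} [Finite ι] {l : ι → Ω} {j : ι} (hj : l j = 1) : VLe 1 (gen κ l) := by
  have hl : l ≠ 0 := fun h0 => by rw [h0] at hj; exact zero_ne_one hj
  intro O
  have := (gen_spec (κ := κ) hl O).2 j
  rw [hj] at this
  exact this

theorem gen_vle_of_mem {ι : Type} [Finite ι] {l : ι → Ω} (hl : l ≠ 0) {m : VC κ Ω}
    (h : ∀ j, l j ∈ TT m) : VLe (gen κ l) m := by
  intro O
  obtain ⟨j, hj⟩ := (gen_spec (κ := κ) hl O).1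
  rw [← hj]
  exact h j O

theorem gen_vle_prod_pen {ι : Type} [Fintype ι] {l : ι → Ω} {j : ι} (hj : l j = 1) :
    VLe (gen κ l) (∏ i, pen κ (l i)) := by
  have hl : l ≠ 0 := fun h0 => by rw [h0] at hj; exact zero_ne_one hj
  refine gen_vle_of_mem hl fun i => ?_
  have hne : ∀ t : Ω, (![1, t] : Fin 2 → Ω) ≠ 0 := fun t h0 => by
    have := congrFun h0 0
    simp at this
  have h1 : l i ∈ TT (pen κ (l i)) := mem_TT_gen (κ := κ) (hne (l i)) 1
  have h2 : VLe (∏ k ∈ Finset.univ.erase i, (1 : VC κ Ω))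
      (∏ k ∈ Finset.univ.erase i, pen κ (l k)) :=
    VLe.prod _ fun k _ => one_vle_gen (κ := κ) (l := ![1, l k]) (j := 0) rfl
  rw [Finset.prod_const_one] at h2
  have h3 := ((VLe.refl (pen κ (l i))).mul h2).TT_le
  rw [mul_one, Finset.mul_prod_erase _ (fun k => pen κ (l k)) (Finset.mem_univ i)] at h3
  exact h3 h1

/-- valuation rings extend to overfields -/
theorem exists_vs_lift (Ω' : Type) [Field Ω'] [Algebra Ω Ω'] (O : ValuationSubring Ω) :
    ∃ O' : ValuationSubring Ω', O'.comap (algebraMap Ω Ω') = O := by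
  obtain ⟨A, h, hloc⟩ :=
    IsLocalRing.exists_factor_valuationRing ((algebraMap Ω Ω').comp O.subtype)
  refine ⟨A, ValuationSubring.ext _ _ fun x => ?_⟩
  rw [ValuationSubring.mem_comap]
  refine ⟨fun hx => ?_, fun hx => h ⟨x, hx⟩⟩
  by_contra hxO
  have hx0 : x ≠ 0 := fun e => hxO (e ▸ O.zero_mem)
  have hi : x⁻¹ ∈ O := (O.mem_or_inv_mem x).resolve_left hxO
  have hu : IsUnit ((((algebraMap Ω Ω').comp O.subtype).codRestrict A.toSubring h) ⟨x⁻¹, hi⟩) := by
    refine isUnit_iff_exists_inv.mpr ⟨⟨algebraMap Ω Ω' x, hx⟩, Subtype.ext ?_⟩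
    change algebraMap Ω Ω' x⁻¹ * algebraMap Ω Ω' x = 1
    rw [← map_mul, inv_mul_cancel₀ hx0, map_one]
  obtain ⟨y, hy⟩ := isUnit_iff_exists_inv.mp (hloc.1 _ hu)
  have hy' : x⁻¹ * (y : Ω) = 1 := congrArg Subtype.val hy
  have : (y : Ω) = x := by
    field_simp at hy'
    exact hy'
  exact hxO (this ▸ y.2)

end Pool.Agent.E6b

end

section
open scoped NNReal TensorProduct IntermediateField BigOperators Classical Topology
open Filter

namespace Pool.Agent.E6b
variable {κ Ω : Type} [Field κ] [Field Ω] [Algebra κ Ω]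

theorem pencil_sub (t : Ω) (l : VC κ Ω) (b : ℕ) [Module.Finite κ (TT l)]
    [Module.Finite κ⟮t⟯ (TT (resC κ⟮t⟯ l))] :
    Module.finrank κ (TT l) ≤ Module.finrank κ (TT (l * (pen κ t ^ b)⁻¹)) +
        b * Module.finrank κ⟮t⟯ (TT (resC κ⟮t⟯ l)) := by
  rw [← zpow_natCast, ← zpow_neg]
  induction b with
  | zero => rw [Nat.cast_zero, neg_zero, zpow_zero, mul_one]; simp
  | succ b ih =>
    have h1 : TT (l * pen κ t ^ (-(b : ℤ) - 1)) ≤ TT l := by
      have := V2_down t l (show -(b : ℤ) - 1 ≤ 0 by omega)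
      rwa [zpow_zero, mul_one] at this
    have := Submodule.finiteDimensional_of_le h1
    have h2 := (pencil t l (-(b : ℤ))).2
    have h3 : (-((b + 1 : ℕ) : ℤ)) = -(b : ℤ) - 1 := by push_cast; ring
    rw [h3, add_mul, one_mul]
    omega

/-- Upper bound for the sections of a box class. -/
theorem ub {σ : Type} [Fintype σ] (u : σ → Ω) (hu : AlgebraicIndependent κ u)
    [FiniteDimensional (IntermediateField.adjoin κ (Set.range u)) Ω] (b : σ → ℕ) :
    Module.Finite κ (TT (∏ k, pen κ (u k) ^ b k)) ∧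
      Module.finrank κ (TT (∏ k, pen κ (u k) ^ b k)) ≤
        Module.finrank (IntermediateField.adjoin κ (Set.range u)) Ω * ∏ k, (b k + 1) := by
  have : FiniteDimensional (IntermediateField.adjoin κ (Set.range u)).toSubfield Ω := ‹_›
  exact V2_ub u b (IntermediateField.adjoin κ (Set.range u)).toSubfield Finset.univ κ
    (fun k _ => V2_trans hu (by simp)) (by rw [Finset.coe_univ, Set.image_univ])

theorem V2_box {σ : Type} [Fintype σ] (u : σ → Ω) (Δ : ℕ) (O : VS κ Ω) :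
    O.1.valuation (((∏ k, pen κ (u k)) ^ Δ) O : Ω) =
      ∏ k, O.1.valuation (pen κ (u k) O : Ω) ^ Δ := by
  rw [← Finset.prod_pow, V2_prod]

theorem V2_mono {σ : Type} [Fintype σ] (u : σ → Ω) {a c : ℕ} (h : a ≤ c) :
    TT ((∏ k, pen κ (u k)) ^ a) ≤ TT ((∏ k, pen κ (u k)) ^ c) := by
  refine VLe.TT_le (vle_iff.2 fun O => ?_)
  rw [V2_box, V2_box]
  exact Finset.prod_le_prod' fun k _ => pow_le_pow_right₀ (V2_one_le _ O) h

theorem V2_root {σ : Type} [Fintype σ] (u : σ → Ω) {A : Type} [CommRing A] (f : A →+* Ω)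
    (m : Polynomial A) (hm : m.Monic) {Δ : ℕ}
    (hΔ : ∀ i < m.natDegree, f (m.coeff i) ∈ TT ((∏ k, pen κ (u k)) ^ Δ)) {ξ : Ω}
    (hξ : m.eval₂ f ξ = 0) : ξ ∈ TT ((∏ k, pen κ (u k)) ^ Δ) := by
  refine mem_TT_iff.2 fun O => ?_
  by_contra hlt
  rw [not_le] at hlt
  have h1 : 1 ≤ O.1.valuation (((∏ k, pen κ (u k)) ^ Δ) O : Ω) := by
    rw [V2_box]
    exact Finset.one_le_prod' fun k _ => one_le_pow₀ (V2_one_le _ O)
  have h2 : 1 < O.1.valuation ξ := h1.trans_lt hlt
  have h0 : 0 < O.1.valuation ξ := zero_lt_one.trans h2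
  rw [Polynomial.eval₂_eq_sum_range, Finset.sum_range_succ, hm.coeff_natDegree, map_one, one_mul,
    add_eq_zero_iff_neg_eq] at hξ
  have h3 : O.1.valuation (∑ i ∈ Finset.range m.natDegree, f (m.coeff i) * ξ ^ i) <
      O.1.valuation ξ ^ m.natDegree := by
    refine Valuation.map_sum_lt _ (pow_pos h0 _).ne' fun i hi => ?_
    have hi' := Finset.mem_range.1 hi
    rw [map_mul, map_pow]
    refine (mul_lt_mul_of_pos_right ((mem_TT_iff.1 (hΔ i hi') O).trans_lt hlt)
      (pow_pos h0 i)).trans_le ?_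
    rw [← pow_succ']
    exact pow_le_pow_right₀ h2.le hi'
  rw [← map_pow, ← hξ, Valuation.map_neg] at h3
  exact lt_irrefl _ h3

theorem aeval_mem_TT {σ : Type} [Fintype σ] (u : σ → Ω) (P : MvPolynomial σ κ) {Δ : ℕ}
    (hP : P.totalDegree ≤ Δ) : MvPolynomial.aeval u P ∈ TT ((∏ k, pen κ (u k)) ^ Δ) := by
  rw [MvPolynomial.aeval_def, MvPolynomial.eval₂_eq']
  refine Submodule.sum_mem _ fun d hd => ?_
  rw [← Algebra.smul_def]
  refine Submodule.smul_mem _ _ (mem_TT_iff.2 fun O => ?_)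
  rw [V2_box, map_prod]
  refine Finset.prod_le_prod' fun k _ => ?_
  rw [map_pow]
  exact (pow_le_pow_left' (V2_le _ O) _).trans (pow_le_pow_right₀ (V2_one_le _ O)
    ((MvPolynomial.monomial_le_degreeOf k hd).trans
      ((MvPolynomial.degreeOf_le_totalDegree P k).trans hP)))

theorem root_mem_TT {σ : Type} [Fintype σ] (u : σ → Ω) (m : Polynomial (MvPolynomial σ κ))
    (hm : m.Monic) {Δ : ℕ} (hΔ : ∀ i, (m.coeff i).totalDegree ≤ Δ) {ξ : Ω}
    (hξ : m.eval₂ (MvPolynomial.aeval u).toRingHom ξ = 0) : ξ ∈ TT ((∏ k, pen κ (u k)) ^ Δ) :=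
  V2_root u _ m hm (fun i _ => aeval_mem_TT u _ (hΔ i)) hξ

theorem exists_gen_vle {σ ι : Type} [Fintype σ] [Finite ι] (u : σ → Ω)
    [Algebra.IsAlgebraic (IntermediateField.adjoin κ (Set.range u)) Ω] {l : ι → Ω} (hl : l ≠ 0) :
    ∃ (g : Ωˣ) (c : ℕ), VLe (gen κ l) (cstC κ g * (∏ k, pen κ (u k)) ^ c) := by
  have := Fintype.ofFinite ι
  have halg : Algebra.IsAlgebraic (Algebra.adjoin κ (Set.range u)) Ω :=
    IntermediateField.isAlgebraic_adjoin_iff_top.1 ‹_›
  obtain ⟨y, hy, hint⟩ := Algebra.IsAlgebraic.exists_integral_multiples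
    (Algebra.adjoin κ (Set.range u)) (Finset.univ.image l)
  have h1 : ∀ a : Algebra.adjoin κ (Set.range u), ∃ Δ : ℕ,
      (a : Ω) ∈ TT ((∏ k, pen κ (u k)) ^ Δ) := fun a => by
    obtain ⟨P, hP⟩ := (Algebra.adjoin_range_eq_range_aeval κ u).le a.2
    exact ⟨_, hP ▸ aeval_mem_TT u P le_rfl⟩
  choose D hD using h1
  have h2 : ∀ j, ∃ Δ : ℕ, y • l j ∈ TT ((∏ k, pen κ (u k)) ^ Δ) := fun j => by
    obtain ⟨m, hm, hξ⟩ := hint (l j) (Finset.mem_image_of_mem _ (Finset.mem_univ j))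
    refine ⟨(Finset.range m.natDegree).sup fun i => D (m.coeff i), V2_root u _ m hm
      (fun i hi => V2_mono u ?_ (hD _)) hξ⟩
    exact Finset.le_sup (f := fun i => D (m.coeff i)) (Finset.mem_range.2 hi)
  choose c hc using h2
  have hy' : (y : Ω) ≠ 0 := fun e => hy (Subtype.ext e)
  refine ⟨(Units.mk0 _ hy')⁻¹, Finset.univ.sup c, gen_vle_of_mem hl fun j => ?_⟩
  rw [mem_TT_cstC_mul, Units.val_inv_eq_inv_val, div_inv_eq_mul, Units.val_mk0, mul_comm]
  exact V2_mono u (Finset.le_sup (Finset.mem_univ j)) (hc j)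

end Pool.Agent.E6b

end

section
open scoped NNReal TensorProduct IntermediateField BigOperators Classical Topology
open Filter

namespace Pool.Agent.E6b

theorem P5_range {K Ω : Type} [Field K] [IsAlgClosed K] [Field Ω] [Algebra K Ω] {G : Ω}
    (h : IsAlgebraic K G) : G ∈ (algebraMap K Ω).range :=
  minpoly.mem_range_of_degree_eq_one K G
    (IsAlgClosed.degree_eq_one_of_irreducible K (minpoly.irreducible h.isIntegral))

theorem P5_exists_prp {κ K Ω : Type} [Field κ] [Field K] [IsAlgClosed K] [Field Ω] [Algebra κ K]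
    [Algebra κ Ω] (τ : K →ₐ[κ] Ω) {ι : Type} [Fintype ι] {x : ι → Ω} (hx : x ≠ 0) {k : ℕ}
    (hk : 0 < k) {γ : Ω} (h : ∀ O : VS κ Ω, (∀ c, τ c ∈ O.1) → vs O.1 x ^ k = O.1.valuation γ) :
    ∃ y : ι → K, Prp x fun i => τ (y i) := by
  let _ : Algebra K Ω := (τ : K →+* Ω).toAlgebra
  have hτ : ∀ c, algebraMap K Ω c = τ c := fun _ => rfl
  obtain ⟨i0, hi0⟩ := Function.ne_iff.mp hx
  have hi0' : x i0 ≠ 0 := hi0
  have hγ : γ ≠ 0 := by
    intro h0
    have h1 := h ⟨⊤, fun _ => ValuationSubring.mem_top _⟩ fun _ => ValuationSubring.mem_top _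
    rw [h0, map_zero] at h1
    exact vs_ne_zero _ hx (pow_eq_zero_iff hk.ne' |>.mp h1)
  have h1 : ∀ i, x i ^ k / γ ∈ (algebraMap K Ω).range := by
    intro i
    refine P5_range (isAlgebraic_of_forall_mem fun O => ?_)
    have h2 := h ⟨O.1, fun c => by rw [← τ.commutes c]; exact O.2 _⟩ fun c => O.2 c
    rw [V1_div_mem _ _ hγ, ← h2, map_pow]
    exact pow_le_pow_left' (le_vs O.1 x i) k
  have h2 : ∀ i, x i / x i0 ∈ (algebraMap K Ω).range := by
    intro i
    obtain ⟨c, hc⟩ := h1 i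
    obtain ⟨c0, hc0⟩ := h1 i0
    refine P5_range (IsAlgebraic.of_pow hk ?_)
    have h3 : (x i / x i0) ^ k = algebraMap K Ω (c / c0) := by
      rw [map_div₀, hc, hc0, div_pow]
      field_simp
    rw [h3]
    exact isAlgebraic_algebraMap _
  choose y hy using h2
  refine ⟨y, x i0, hi0', fun i => ?_⟩
  change x i = x i0 * τ (y i)
  rw [← hτ, hy]
  field_simp

theorem P5_val_one {κ K Ω : Type} [Field κ] [Field K] [Field Ω] [Algebra κ K]
    [Algebra κ Ω] (τ : K →ₐ[κ] Ω) (O : ValuationSubring Ω) (h : ∀ c, τ c ∈ O) {c : K}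
    (hc : c ≠ 0) : O.valuation (τ c) = 1 := by
  have h1 := (O.valuation_le_one_iff _).mpr (h c)
  have h2 := (O.valuation_le_one_iff _).mpr (h c⁻¹)
  have h3 : O.valuation (τ c) ≠ 0 := by simpa using hc
  rw [map_inv₀, map_inv₀, inv_le_one₀ (zero_lt_iff.mpr h3)] at h2
  exact le_antisymm h1 h2

theorem P5_vs_one {κ K Ω : Type} [Field κ] [Field K] [Field Ω] [Algebra κ K]
    [Algebra κ Ω] (τ : K →ₐ[κ] Ω) (O : ValuationSubring Ω) (h : ∀ c, τ c ∈ O) {ι : Type}
    [Fintype ι] {x : ι → K} (hx : x ≠ 0) : vs O (fun i => τ (x i)) = 1 := by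
  obtain ⟨i, hi⟩ := Function.ne_iff.mp hx
  refine le_antisymm (vs_le O fun j => (O.valuation_le_one_iff _).mpr (h _)) ?_
  rw [← P5_val_one τ O h (c := x i) hi]
  exact le_vs O (fun i => τ (x i)) i

theorem P5_ne_zero_of_prp {K Ω ι : Type} [Field K] [Field Ω] {f : K → Ω} (hf : f 0 = 0)
    {x : ι → Ω} {y : ι → K} (hx : x ≠ 0) (h : Prp x fun i => f (y i)) : y ≠ 0 := by
  rintro rfl
  obtain ⟨μ, -, h⟩ := h
  refine hx (funext fun i => ?_)
  have h1 : x i = μ * f 0 := h i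
  rw [h1, hf, mul_zero]
  rfl

/-- the size of a vector proportional to a `K`-vector is principal -/
theorem P5_vs_prp {κ K Ω : Type} [Field κ] [Field K] [Field Ω] [Algebra κ K]
    [Algebra κ Ω] (τ : K →ₐ[κ] Ω) {ι : Type} [Fintype ι] {x : ι → Ω} {y : ι → K} (hx : x ≠ 0)
    (h : Prp x fun i => τ (y i)) : ∃ μ : Ω, μ ≠ 0 ∧
      ∀ O : ValuationSubring Ω, (∀ c, τ c ∈ O) → vs O x = O.valuation μ := by
  have hy := P5_ne_zero_of_prp (map_zero τ) hx h
  obtain ⟨μ, hμ, h⟩ := h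
  refine ⟨μ, hμ, fun O hO => ?_⟩
  have e : x = fun i => μ * τ (y i) := funext h
  rw [e, vs_smul, P5_vs_one τ O hO hy, mul_one]

theorem P5_equiv {A B : Type} [Field A] [Field B] (f : A →+* B) (O : ValuationSubring B) :
    (O.comap f).valuation.IsEquiv (O.valuation.comap f) := by
  refine Valuation.isEquiv_of_val_le_one fun x => ?_
  rw [ValuationSubring.valuation_le_one_iff, ValuationSubring.mem_comap, Valuation.comap_apply,
    ValuationSubring.valuation_le_one_iff]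

theorem P5_val_eq {A B : Type} [Field A] [Field B] (f : A →+* B) (O : ValuationSubring B)
    (x y : A) : (O.comap f).valuation x = (O.comap f).valuation y ↔
      O.valuation (f x) = O.valuation (f y) :=
  (P5_equiv f O).eq_iff

theorem P5_norm {K Ω : Type} [Field K] [Field Ω] [Algebra K Ω] [IsAlgClosed Ω]
    [Algebra.IsAlgebraic K Ω] {γ : Ω} (hγ : γ ≠ 0) : ∃ k : ℕ, 0 < k ∧ ∃ g : K, g ≠ 0 ∧
      ∀ (O : ValuationSubring Ω) (v : O.ValueGroup), (∀ σ : Ω ≃ₐ[K] Ω, O.valuation (σ γ) = v) →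
        O.valuation (algebraMap K Ω g) = v ^ k := by
  have hi : IsIntegral K γ := Algebra.IsIntegral.isIntegral γ
  have : IsAlgClosure K Ω := ⟨inferInstance, inferInstance⟩
  refine ⟨(minpoly K γ).natDegree, minpoly.natDegree_pos hi, (minpoly K γ).coeff 0,
    minpoly.coeff_zero_ne_zero hi hγ, fun O v h => ?_⟩
  have hs : ((minpoly K γ).map (algebraMap K Ω)).Splits := IsAlgClosed.splits _
  have h1 := hs.coeff_zero_eq_prod_roots_of_monic ((minpoly.monic hi).map _)
  have h2 := hs.natDegree_eq_card_roots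
  rw [Polynomial.coeff_map] at h1
  rw [Polynomial.natDegree_map] at h2
  rw [h1, map_mul, map_pow, Valuation.map_neg, map_one, one_pow, one_mul, map_multiset_prod, h2,
    ← Multiset.prod_replicate]
  congr 1
  rw [Multiset.eq_replicate]
  refine ⟨Multiset.card_map _ _, fun b hb => ?_⟩
  obtain ⟨r, hr, rfl⟩ := Multiset.mem_map.mp hb
  have h3 : IsConjRoot K γ r := (isConjRoot_iff_mem_minpoly_aroots hi).mpr hr
  obtain ⟨σ, hσ⟩ := h3.symm.exists_algEquiv
  rw [← hσ]
  exact h σ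

section
variable {κ K Ω : Type} [Field κ] [Field K] [Field Ω] [Algebra κ K] [Algebra κ Ω] [Algebra K Ω]
  [IsScalarTower κ K Ω]

/-- descent of a principal class -/
theorem P5_descend [IsAlgClosed Ω] [Algebra.IsAlgebraic K Ω] {l m : VC κ K} {γ : Ω} (hγ : γ ≠ 0)
    (h : ∀ (O0 : VS κ K) (O : VS κ Ω), O.1.comap (algebraMap K Ω) = O0.1 →
      O.1.valuation (algebraMap K Ω (l O0)) =
        O.1.valuation γ * O.1.valuation (algebraMap K Ω (m O0))) : QEq l m := by
  obtain ⟨k, hk, g, hg, hn⟩ := P5_norm (K := K) hγ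
  refine ⟨k, hk, Units.mk0 g hg, veq_iff.mpr fun O0 => ?_⟩
  obtain ⟨O, hO⟩ := exists_vs_lift Ω O0.1
  have hm : (m O0 : K) ≠ 0 := Units.ne_zero _
  have hm' : algebraMap K Ω (m O0) ≠ 0 := by simp
  have h1 : ∀ σ : Ω ≃ₐ[K] Ω,
      O.valuation (σ γ) = O.valuation (algebraMap K Ω (l O0 / m O0)) := by
    intro σ
    have hc : (O.comap (σ : Ω →+* Ω)).comap (algebraMap K Ω) = O0.1 := by
      rw [← hO]
      ext x
      simp only [ValuationSubring.mem_comap, RingHom.coe_coe, AlgEquiv.commutes]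
    have h2 := h O0 ⟨O.comap (σ : Ω →+* Ω), fun c => by
      rw [IsScalarTower.algebraMap_apply κ K Ω, ← ValuationSubring.mem_comap, hc]
      exact O0.2 c⟩ hc
    rw [← map_mul] at h2
    have h3 := (P5_val_eq (σ : Ω →+* Ω) O _ _).mp h2
    simp only [RingHom.coe_coe, map_mul, AlgEquiv.commutes] at h3
    have h4 : O.valuation (algebraMap K Ω (m O0)) ≠ 0 := by simp
    rw [map_div₀, map_div₀, h3, mul_div_cancel_right₀ _ h4]
  have h5 := hn O _ h1
  have h6 := (P5_val_eq (algebraMap K Ω) O (((l ^ k) O0 : Kˣ) : K)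
    (((cstC κ (Units.mk0 g hg) * m ^ k) O0 : Kˣ) : K)).mpr (by
      simp only [Pi.pow_apply, Pi.mul_apply, cstC, Units.val_pow_eq_pow_val, Units.val_mul,
        Units.val_mk0, map_pow, map_mul]
      have h4 : O.valuation (algebraMap K Ω (m O0)) ≠ 0 := by simp
      rw [h5, map_div₀, map_div₀, ← mul_pow, div_mul_cancel₀ _ h4])
  rw [hO] at h6
  exact h6

end

section
variable {κ K : Type} [Field κ] [Field K] [Algebra κ K]

/-- classes which are trivial up to torsion -/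
def P5H (κ K : Type) [Field κ] [Field K] [Algebra κ K] : Subgroup (VC κ K) where
  carrier := {l | QEq l 1}
  one_mem' := QEq.refl 1
  mul_mem' := fun {a b} ha hb => by
    have h := QEq.mul ha hb
    rwa [mul_one] at h
  inv_mem' := fun {a} ha => by
    have h := V1_qeq_inv ha
    rwa [inv_one] at h

/-- the class in the quotient -/
def P5m (l : VC κ K) : Additive (VC κ K ⧸ P5H κ K) := Additive.ofMul (QuotientGroup.mk l)

theorem P5m_eq {l m : VC κ K} : P5m l = P5m m ↔ QEq l m := by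
  unfold P5m
  rw [Additive.ofMul.apply_eq_iff_eq, QuotientGroup.eq]
  constructor
  · intro h
    have h1 : QEq (l⁻¹ * m) 1 := h
    have h2 := (QEq.refl l).mul h1
    rw [mul_inv_cancel_left, mul_one] at h2
    exact h2.symm
  · intro h
    have h1 := (QEq.refl l⁻¹).mul h.symm
    rw [inv_mul_cancel] at h1
    exact h1

theorem P5m_mul (l m : VC κ K) : P5m (l * m) = P5m l + P5m m := rfl

theorem P5m_pow (l : VC κ K) (n : ℕ) : P5m (l ^ n) = n • P5m l := by
  unfold P5m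
  rw [QuotientGroup.mk_pow, ofMul_pow]

theorem P5m_zpow (l : VC κ K) (n : ℤ) : P5m (l ^ n) = n • P5m l := by
  unfold P5m
  rw [QuotientGroup.mk_zpow, ofMul_zpow]

theorem P5m_one : P5m (1 : VC κ K) = 0 := rfl

theorem P5m_surj (x : Additive (VC κ K ⧸ P5H κ K)) : ∃ l, P5m l = x :=
  QuotientGroup.mk_surjective (Additive.toMul x)

theorem P5m_tf (x : Additive (VC κ K ⧸ P5H κ K)) (h : 2 • x = 0) : x = 0 := by
  obtain ⟨l, rfl⟩ := P5m_surj x
  rw [← P5m_pow, ← P5m_one, P5m_eq, ← one_pow 2] at h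
  rw [← P5m_one, P5m_eq]
  exact h.of_pow two_pos

theorem P5m_prp {ι : Type} [Finite ι] {x y : ι → K} (hy : y ≠ 0) (h : Prp x y) :
    P5m (gen κ x) = P5m (gen κ y) := by
  obtain ⟨μ, hμ, h⟩ := h
  refine P5m_eq.mpr ⟨1, one_pos, Units.mk0 μ hμ, ?_⟩
  rw [pow_one, pow_one]
  exact qeq_gen_of_prp hy hμ h

end

end Pool.Agent.E6b

end

section
open scoped NNReal TensorProduct IntermediateField BigOperators Classical Topology
open Filter

namespace Pool.Agent.E6b

/-- functions that agree with a polynomial for large arguments -/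
def V3EP {I : Type} (f : (I → ℕ) → ℚ) : Prop :=
  ∃ (P : MvPolynomial I ℚ) (b₀ : ℕ), ∀ b : I → ℕ, (∀ i, b₀ ≤ b i) →
    f b = MvPolynomial.eval (fun i => (b i : ℚ)) P

theorem V3EP.congr {I : Type} {f g : (I → ℕ) → ℚ} (h : V3EP f) (b₁ : ℕ)
    (e : ∀ b : I → ℕ, (∀ i, b₁ ≤ b i) → g b = f b) : V3EP g := by
  obtain ⟨P, b₀, h⟩ := h
  exact ⟨P, max b₀ b₁, fun b hb => (e b fun i => (le_max_right _ _).trans (hb i)).trans
    (h b fun i => (le_max_left _ _).trans (hb i))⟩

theorem V3EP.sub {I : Type} {f g : (I → ℕ) → ℚ} (h : V3EP f) (h' : V3EP g) :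
    V3EP fun b => f b - g b := by
  obtain ⟨P, b₀, h⟩ := h
  obtain ⟨Q, b₁, h'⟩ := h'
  refine ⟨P - Q, max b₀ b₁, fun b hb => ?_⟩
  rw [map_sub, ← h b fun i => (le_max_left _ _).trans (hb i),
    ← h' b fun i => (le_max_right _ _).trans (hb i)]

theorem V3EP.prod {I J : Type} [Fintype J] {f : J → (I → ℕ) → ℚ} (h : ∀ j, V3EP (f j)) :
    V3EP fun b => ∏ j, f j b := by
  choose P b₀ h using h
  refine ⟨∏ j, P j, ∑ j, b₀ j, fun b hb => ?_⟩
  rw [map_prod]
  exact Finset.prod_congr rfl fun j _ => h j b fun i =>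
    (Finset.single_le_sum (f := b₀) (fun _ _ => Nat.zero_le _) (Finset.mem_univ j)).trans (hb i)

theorem V3_multichoose {I : Type} (i : I) (k g : ℕ) :
    V3EP fun b : I → ℕ => (Nat.multichoose k (b i - g) : ℚ) := by
  rcases k with _ | k
  · refine ⟨0, g + 1, fun b hb => ?_⟩
    obtain ⟨c, hc⟩ : ∃ c, b i - g = c + 1 := ⟨b i - g - 1, by have := hb i; omega⟩
    simp [hc]
  · refine ⟨Polynomial.aeval (MvPolynomial.X i - MvPolynomial.C (g : ℚ) + MvPolynomial.C (k : ℚ))
      (descPochhammer ℚ k) * MvPolynomial.C ((k.factorial : ℚ)⁻¹), g, fun b hb => ?_⟩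
    have h1 : Nat.multichoose (k + 1) (b i - g) = (b i - g + k).choose k := by
      rw [Nat.multichoose_eq, show k + 1 + (b i - g) - 1 = b i - g + k by omega,
        Nat.choose_symm_add]
    have h2 : ∀ (x : I → ℚ) (q : MvPolynomial I ℚ) (p : Polynomial ℚ),
        MvPolynomial.eval x (Polynomial.aeval q p) = p.eval (MvPolynomial.eval x q) := by
      intro x q p
      rw [← MvPolynomial.coe_aeval_eq_eval, RingHom.coe_coe, ← Polynomial.aeval_algHom_apply,
        Polynomial.coe_aeval_eq_eval]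
    simp only [h1, Nat.cast_choose_eq_descPochhammer_div, map_mul, h2, map_add, map_sub,
      MvPolynomial.eval_X, MvPolynomial.eval_C, Nat.cast_add, Nat.cast_sub (hb i), div_eq_mul_inv]

theorem V3_card {ι : Type} [Fintype ι] (n : ℕ) (g : ι → ℕ) (h : ∑ j, g j ≤ n) :
    ((Finset.piAntidiag Finset.univ n).filter fun m : ι → ℕ => g ≤ m).card =
      Nat.multichoose (Fintype.card ι) (n - ∑ j, g j) := by
  have h1 : ∀ c, (Finset.piAntidiag (Finset.univ : Finset ι) c).card =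
      Nat.multichoose (Fintype.card ι) c := fun c => by
    have := Finset.card_finsuppAntidiag_nat_eq_multichoose (s := (Finset.univ : Finset ι)) c
    rwa [Finset.finsuppAntidiag, Finset.card_map, Finset.card_attach, Finset.card_univ] at this
  rw [← h1]
  symm
  refine Finset.card_bij (fun m _ => m + g) (fun m hm => ?_)
    (fun _ _ _ _ e => add_right_cancel e) (fun m hm => ?_)
  · simp only [Finset.mem_piAntidiag, Finset.mem_univ, implies_true, and_true] at hm
    simp only [Finset.mem_filter, Finset.mem_piAntidiag, Finset.mem_univ, implies_true, and_true]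
    refine ⟨?_, le_add_self⟩
    have : ∑ j, (m + g) j = ∑ j, m j + ∑ j, g j := Finset.sum_add_distrib
    have hm' : ∑ j, m j = n - ∑ j, g j := hm
    change ∑ j, (m + g) j = n
    omega
  · simp only [Finset.mem_filter, Finset.mem_piAntidiag, Finset.mem_univ, implies_true,
      and_true] at hm
    obtain ⟨c, rfl⟩ := exists_add_of_le hm.2
    refine ⟨c, ?_, add_comm _ _⟩
    simp only [Finset.mem_piAntidiag, Finset.mem_univ, implies_true, and_true]
    have : ∑ j, (g + c) j = ∑ j, g j + ∑ j, c j := Finset.sum_add_distrib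
    have hm' : ∑ j, (g + c) j = n := hm.1
    change ∑ j, c j = _
    omega

/-- exponent vectors of a given multidegree -/
noncomputable def V3T {I : Type} [Fintype I] (ι : I → Type) [∀ i, Fintype (ι i)] (b : I → ℕ) :
    Finset (∀ i, ι i → ℕ) :=
  Fintype.piFinset fun i => Finset.piAntidiag Finset.univ (b i)

theorem V3_mem {I : Type} [Fintype I] {ι : I → Type} [∀ i, Fintype (ι i)] {b : I → ℕ}
    {m : ∀ i, ι i → ℕ} : m ∈ V3T ι b ↔ ∀ i, ∑ j, m i j = b i := by
  simp only [V3T, Fintype.mem_piFinset, Finset.mem_piAntidiag, Finset.mem_univ, implies_true,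
    and_true]

theorem V3_count {I : Type} [Fintype I] {ι : I → Type} [∀ i, Fintype (ι i)]
    (G : Finset (∀ i, ι i → ℕ)) : ∀ g₀ : ∀ i, ι i → ℕ,
    V3EP fun b => (((V3T ι b).filter fun m => g₀ ≤ m ∧ ∀ g ∈ G, ¬ g ≤ m).card : ℚ) := by
  induction G using Finset.induction_on with
  | empty =>
    intro g₀
    refine (V3EP.prod fun i => V3_multichoose i (Fintype.card (ι i)) (∑ j, g₀ i j)).congr
      (∑ i, ∑ j, g₀ i j) fun b hb => ?_
    have h1 : ((V3T ι b).filter fun m => g₀ ≤ m ∧ ∀ g ∈ (∅ : Finset (∀ i, ι i → ℕ)), ¬ g ≤ m) =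
        Fintype.piFinset fun i =>
          (Finset.piAntidiag Finset.univ (b i)).filter fun m : ι i → ℕ => g₀ i ≤ m := by
      ext m
      simp only [V3T, Finset.mem_filter, Fintype.mem_piFinset, Finset.notMem_empty,
        IsEmpty.forall_iff, implies_true, and_true, forall_and]
      rfl
    rw [h1, Fintype.card_piFinset, Nat.cast_prod]
    refine Finset.prod_congr rfl fun i _ => ?_
    rw [V3_card]
    exact (Finset.single_le_sum (f := fun i => ∑ j, g₀ i j) (fun _ _ => Nat.zero_le _)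
      (Finset.mem_univ i)).trans (hb i)
  | insert a G _ ih =>
    intro g₀
    refine ((ih g₀).sub (ih (g₀ ⊔ a))).congr 0 fun b _ => ?_
    rw [eq_sub_iff_add_eq, ← Nat.cast_add, Nat.cast_inj, add_comm,
      ← Finset.card_filter_add_card_filter_not (s := (V3T ι b).filter fun m =>
        g₀ ≤ m ∧ ∀ g ∈ G, ¬ g ≤ m) (fun m => a ≤ m), Finset.filter_filter, Finset.filter_filter]
    congr 2
    · ext m
      simp only [Finset.mem_filter, sup_le_iff]
      tauto
    · ext m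
      simp only [Finset.mem_filter, Finset.forall_mem_insert]
      tauto

theorem V3_rank {κ Ω M S : Type} [Field κ] [AddCommGroup Ω] [Module κ Ω] [LinearOrder S]
    (r : M → S) (hr : Function.Injective r) (v : M → Ω) (T : Finset M) :
    Module.finrank κ (Submodule.span κ (v '' T)) =
      (T.filter fun m => v m ∉ Submodule.span κ (v '' {m' | m' ∈ T ∧ r m' < r m})).card := by
  induction T using Finset.induction_on_max_value r with
  | empty =>
    rw [Finset.coe_empty, Set.image_empty, Submodule.span_empty, finrank_bot, Finset.filter_empty,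
      Finset.card_empty]
  | insert a T ha hmax ih =>
    have hlt : ∀ m ∈ T, r m < r a := fun m hm =>
      lt_of_le_of_ne (hmax m hm) fun e => ha (hr e ▸ hm)
    have h1 : {m' | m' ∈ insert a T ∧ r m' < r a} = (T : Set M) := by
      ext m
      simp only [Finset.mem_insert, Set.mem_ofPred_eq, Finset.mem_coe]
      exact ⟨fun h => h.1.resolve_left fun e => lt_irrefl _ (e ▸ h.2),
        fun h => ⟨Or.inr h, hlt m h⟩⟩
    have h2 : ∀ m ∈ T, {m' | m' ∈ insert a T ∧ r m' < r m} = {m' | m' ∈ T ∧ r m' < r m} := by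
      intro m hm
      ext m'
      simp only [Finset.mem_insert, Set.mem_ofPred_eq]
      exact ⟨fun h => ⟨h.1.resolve_left fun e => lt_asymm (hlt m hm) (e ▸ h.2), h.2⟩,
        fun h => ⟨Or.inr h.1, h.2⟩⟩
    have h3 : (T.filter fun m =>
        v m ∉ Submodule.span κ (v '' {m' | m' ∈ insert a T ∧ r m' < r m})) =
        T.filter fun m => v m ∉ Submodule.span κ (v '' {m' | m' ∈ T ∧ r m' < r m}) :=
      Finset.filter_congr fun m hm => by rw [h2 m hm]
    rw [Finset.filter_insert, h1, h3, Finset.coe_insert, Set.image_insert_eq]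
    split_ifs with h
    · rw [Submodule.span_insert_eq_span h, ih]
    · rw [Finset.card_insert_of_notMem fun hm => ha (Finset.mem_filter.1 hm).1, ← ih,
        Submodule.span_insert]
      have : FiniteDimensional κ (Submodule.span κ (v '' T)) :=
        FiniteDimensional.span_of_finite κ (T.finite_toSet.image v)
      have h4 := Submodule.finrank_sup_add_finrank_inf_eq (Submodule.span κ {v a})
        (Submodule.span κ (v '' T))
      rw [(Submodule.disjoint_span_singleton_of_notMem h).symm.eq_bot, finrank_bot,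
        finrank_span_singleton (v := v a) fun e => h (by rw [e]; exact Submodule.zero_mem _)] at h4
      omega

theorem V3_pow {κ Ω ι : Type} [Field κ] [CommRing Ω] [Algebra κ Ω] [Fintype ι] (L : ι → Ω)
    (n : ℕ) : Submodule.span κ (Set.range L) ^ n =
      Submodule.span κ {x | ∃ m : ι → ℕ, ∑ j, m j = n ∧ ∏ j, L j ^ m j = x} := by
  have key : ∀ (m : ι → ℕ) (j : ι), ∑ k, (m + Pi.single j 1 : ι → ℕ) k = ∑ k, m k + 1 ∧
      ∏ k, L k ^ (m + Pi.single j 1 : ι → ℕ) k = (∏ k, L k ^ m k) * L j := by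
    intro m j
    constructor
    · simp [Finset.sum_add_distrib]
    · simp only [Pi.add_apply, pow_add, Finset.prod_mul_distrib]
      congr 1
      rw [Finset.prod_eq_single j] <;> simp +contextual
  induction n with
  | zero =>
    rw [pow_zero, Submodule.one_eq_span_one_set]
    congr 1
    ext x
    rw [Set.mem_one]
    constructor
    · rintro rfl
      exact ⟨0, by simp, by simp⟩
    · rintro ⟨m, hm, rfl⟩
      exact Finset.prod_eq_one fun j _ => by
        rw [Finset.sum_eq_zero_iff.1 hm j (Finset.mem_univ j), pow_zero]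
  | succ n ih =>
    rw [pow_succ, ih, Submodule.span_mul_span]
    congr 1
    ext x
    rw [Set.mem_mul]
    constructor
    · rintro ⟨_, ⟨m, hm, rfl⟩, _, ⟨j, rfl⟩, rfl⟩
      exact ⟨m + Pi.single j 1, by rw [(key m j).1, hm], (key m j).2⟩
    · rintro ⟨m, hm, rfl⟩
      obtain ⟨j, -, hj⟩ := Finset.exists_ne_zero_of_sum_ne_zero (s := Finset.univ) (f := m)
        (by omega)
      have hle : (Pi.single j 1 : ι → ℕ) ≤ m := by
        intro k
        by_cases e : k = j
        · subst e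
          rw [Pi.single_eq_same]
          exact Nat.pos_of_ne_zero hj
        · rw [Pi.single_eq_of_ne e]
          exact Nat.zero_le _
      obtain ⟨c, rfl⟩ := exists_add_of_le hle
      rw [add_comm] at hm ⊢
      rw [(key c j).1] at hm
      exact ⟨_, ⟨c, by omega, rfl⟩, _, ⟨j, rfl⟩, (key c j).2.symm⟩

theorem V3_span {κ Ω : Type} [Field κ] [CommRing Ω] [Algebra κ Ω] {I : Type} [Fintype I]
    {ι : I → Type} [∀ i, Fintype (ι i)] (L : ∀ i, ι i → Ω) (b : I → ℕ) :
    ∏ i, Submodule.span κ (Set.range (L i)) ^ b i =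
      Submodule.span κ ((fun m : ∀ i, ι i → ℕ => ∏ i, ∏ j, L i j ^ m i j) '' V3T ι b) := by
  simp only [V3_pow, Submodule.prod_span]
  congr 1
  ext x
  rw [Set.mem_fintype_prod]
  constructor
  · rintro ⟨f, hf, rfl⟩
    choose m hm using hf
    exact ⟨m, V3_mem.2 fun i => (hm i).1, Finset.prod_congr rfl fun i _ => (hm i).2⟩
  · rintro ⟨m, hm, rfl⟩
    exact ⟨fun i => ∏ j, L i j ^ m i j, fun i => ⟨m i, V3_mem.1 hm i, rfl⟩, rfl⟩

/-- Multigraded Hilbert polynomial. -/
theorem hilbert_multi {κ Ω : Type} [Field κ] [CommRing Ω] [Algebra κ Ω] {I : Type} [Fintype I]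
    {ι : I → Type} [∀ i, Fintype (ι i)] (L : ∀ i, ι i → Ω) :
    ∃ (P : MvPolynomial I ℚ) (b₀ : ℕ), ∀ b : I → ℕ, (∀ i, b₀ ≤ b i) →
      (Module.finrank κ ↥(∏ i, Submodule.span κ (Set.range (L i)) ^ b i) : ℚ) =
        MvPolynomial.eval (fun i => (b i : ℚ)) P := by
  let e := (Fintype.equivFin (Σ i, ι i)).symm
  let r : (∀ i, ι i → ℕ) → Lex (Fin (Fintype.card (Σ i, ι i)) → ℕ) :=
    fun m => toLex fun s => m (e s).1 (e s).2
  have hr : Function.Injective r := fun m m' h => by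
    funext i j
    have h1 := congrFun (toLex.injective h) (e.symm ⟨i, j⟩)
    have h2 : ∀ s : Σ i, ι i, s = ⟨i, j⟩ → m s.1 s.2 = m' s.1 s.2 → m i j = m' i j := by
      rintro _ rfl h
      exact h
    exact h2 _ (e.apply_symm_apply _) h1
  have hadd : ∀ m n, r (m + n) = r m + r n := fun _ _ => rfl
  let v : (∀ i, ι i → ℕ) → Ω := fun m => ∏ i, ∏ j, L i j ^ m i j
  have hv : ∀ m n, v (m + n) = v n * v m := fun m n => by
    simp only [v, Pi.add_apply, pow_add, Finset.prod_mul_distrib, mul_comm]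
  let U : Set (∀ i, ι i → ℕ) := {m | v m ∈ Submodule.span κ
    (v '' {m' | m' ∈ V3T ι (fun i => ∑ j, m i j) ∧ r m' < r m})}
  have hU : ∀ m ∈ U, ∀ n, m + n ∈ U := by
    intro m hm n
    have h0 : v m ∈ Submodule.span κ
      (v '' {m' | m' ∈ V3T ι (fun i => ∑ j, m i j) ∧ r m' < r m}) := hm
    have h1 := Submodule.mem_map_of_mem (f := LinearMap.mulLeft κ (v n)) h0
    rw [Submodule.map_span, LinearMap.mulLeft_apply, ← hv] at h1
    refine Submodule.span_mono ?_ h1
    rintro _ ⟨_, ⟨m', ⟨h2, h3⟩, rfl⟩, rfl⟩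
    refine ⟨m' + n, ⟨V3_mem.2 fun i => ?_, ?_⟩, hv m' n⟩
    · simp only [Pi.add_apply, Finset.sum_add_distrib, V3_mem.1 h2 i]
    · rw [hadd, hadd]
      exact add_lt_add_left h3 _
  have hfin : {m | Minimal (· ∈ U) m}.Finite :=
    WellQuasiOrderedLE.finite_of_isAntichain (setOfPred_minimal_antichain _)
  have hG : ∀ m, m ∈ U ↔ ∃ g ∈ hfin.toFinset, g ≤ m := by
    intro m
    constructor
    · intro hm
      obtain ⟨g, h1, h2⟩ := exists_minimal_le_of_wellFoundedLT (· ∈ U) m hm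
      exact ⟨g, hfin.mem_toFinset.2 h2, h1⟩
    · rintro ⟨g, h1, h2⟩
      obtain ⟨c, rfl⟩ := exists_add_of_le h2
      exact hU g (hfin.mem_toFinset.1 h1).1 c
  refine (V3_count hfin.toFinset 0).congr 0 fun b _ => ?_
  rw [V3_span, V3_rank r hr]
  congr 2
  refine Finset.filter_congr fun m hm => ?_
  have h1 : (fun i => ∑ j, m i j) = b := funext (V3_mem.1 hm)
  subst h1
  refine (not_congr (hG m)).trans ?_
  simp only [not_exists, not_and, zero_le, true_and]

end Pool.Agent.E6b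

end

section
open scoped NNReal TensorProduct IntermediateField BigOperators Classical Topology
open Filter

namespace Pool.Agent.E6b

open scoped nonZeroDivisors in
/-- A finitely generated domain in characteristic zero has a nonzero conductor. -/
theorem V4_cond {κ S K : Type} [Field κ] [CharZero κ] [CommRing S] [IsDomain S] [Algebra κ S]
    [Algebra.FiniteType κ S] [Field K] [Algebra S K] [IsFractionRing S K] :
    ∃ γ : S, γ ≠ 0 ∧ ∀ x : K, IsIntegral S x → ∃ s : S, algebraMap S K s = algebraMap S K γ * x := by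
  obtain ⟨n, g, hinj, hfin⟩ := exists_finite_inj_algHom_of_fg κ S
  let A := MvPolynomial (Fin n) κ
  let : Algebra A S := g.toRingHom.toAlgebra
  have : Module.Finite A S := hfin
  let : Algebra A K := ((algebraMap S K).comp g.toRingHom).toAlgebra
  have : IsScalarTower A S K := IsScalarTower.of_algebraMap_eq fun _ => rfl
  have : FaithfulSMul A S := (faithfulSMul_iff_algebraMap_injective A S).mpr hinj
  have : FaithfulSMul A K := (faithfulSMul_iff_algebraMap_injective A K).mpr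
    ((IsFractionRing.injective S K).comp hinj)
  let : Algebra (FractionRing A) K := FractionRing.liftAlgebra A K
  have : IsScalarTower A (FractionRing A) K := FractionRing.isScalarTower_liftAlgebra A K
  have : Module.Finite (FractionRing A) K := Module.Finite.of_isLocalization A S A⁰
  have : CharZero (FractionRing A) :=
    charZero_of_injective_algebraMap (IsFractionRing.injective A (FractionRing A))
  have : Module.Finite A (integralClosure A K) :=
    IsIntegralClosure.finite A (FractionRing A) K (integralClosure A K)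
  obtain ⟨T, hT⟩ := (inferInstance : Module.Finite A (integralClosure A K)).fg_top
  obtain ⟨b, hb⟩ := IsLocalization.exist_integer_multiples (M := S⁰) (S := K) T
    (fun c : integralClosure A K => (c : K))
  refine ⟨b, nonZeroDivisors.coe_ne_zero b, fun x hx => ?_⟩
  have hxA : IsIntegral A x := isIntegral_trans x hx
  have hmem : (⟨x, hxA⟩ : integralClosure A K) ∈ Submodule.span A (T : Set (integralClosure A K)) := by
    rw [hT]; trivial
  have key : ∀ y ∈ Submodule.span A (T : Set (integralClosure A K)),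
      ∃ s : S, algebraMap S K s = algebraMap S K b * (y : K) := by
    intro y hy
    induction hy using Submodule.span_induction with
    | mem y hy =>
      obtain ⟨s, hs⟩ := hb y hy
      exact ⟨s, by rw [hs, Algebra.smul_def]⟩
    | zero => exact ⟨0, by simp⟩
    | add y z _ _ hy hz =>
      obtain ⟨s, hs⟩ := hy
      obtain ⟨t, ht⟩ := hz
      exact ⟨s + t, by rw [map_add, hs, ht, Subalgebra.coe_add, mul_add]⟩
    | smul a y _ hy =>
      obtain ⟨s, hs⟩ := hy
      refine ⟨algebraMap A S a * s, ?_⟩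
      rw [map_mul, hs, Subalgebra.coe_smul, Algebra.smul_def, ← IsScalarTower.algebraMap_apply]
      ring
  exact key _ hmem
variable {κ Ω : Type} [Field κ] [CharZero κ] [Field Ω] [Algebra κ Ω]

omit [CharZero κ] in
theorem V4_pow_le {M : Submodule κ Ω} {l : VC κ Ω} (h : M ≤ TT l) (k : ℕ) :
    M ^ k ≤ TT (l ^ k) := by
  induction k with
  | zero =>
    rw [pow_zero, pow_zero, Submodule.one_le]
    intro O
    simp
  | succ k ih =>
    rw [pow_succ, pow_succ]
    exact Submodule.mul_le.mpr fun a ha b hb => mul_mem_TT (ih ha) (h hb)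

omit [CharZero κ] in
theorem span_prod_le_TT {I : Type} [Fintype I] {ι : I → Type} [∀ i, Fintype (ι i)]
    (L : ∀ i, ι i → Ω) (hL : ∀ i, L i ≠ 0) (b : I → ℕ) :
    (∏ i, Submodule.span κ (Set.range (L i)) ^ b i) ≤ TT (∏ i, gen κ (L i) ^ b i) := by
  have h : ∀ i, Submodule.span κ (Set.range (L i)) ^ b i ≤ TT (gen κ (L i) ^ b i) := fun i =>
    V4_pow_le (Submodule.span_le.mpr (by
      rintro _ ⟨j, rfl⟩
      exact mem_TT_gen (hL i) j)) _
  have : ∀ s : Finset I, (∏ i ∈ s, Submodule.span κ (Set.range (L i)) ^ b i) ≤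
      TT (∏ i ∈ s, gen κ (L i) ^ b i) := by
    intro s
    induction s using Finset.induction_on with
    | empty =>
      rw [Finset.prod_empty, Finset.prod_empty, Submodule.one_le]
      intro O
      simp
    | insert a s ha ih =>
      rw [Finset.prod_insert ha, Finset.prod_insert ha]
      exact Submodule.mul_le.mpr fun x hx y hy => mul_mem_TT (h a hx) (ih hy)
  exact this _
open MvPolynomial

omit [CharZero κ] in
theorem V4_prod_mono {I : Type} (s : Finset I) {M N : I → Submodule κ Ω} (h : ∀ i, M i ≤ N i) :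
    ∏ i ∈ s, M i ≤ ∏ i ∈ s, N i := by
  induction s using Finset.induction_on with
  | empty => simp
  | insert a s ha ih =>
    rw [Finset.prod_insert ha, Finset.prod_insert ha]
    exact Submodule.mul_le.mpr fun x hx y hy => Submodule.mul_mem_mul (h a hx) (ih hy)

omit [CharZero κ] in
theorem V4_top {I : Type} {ι : I → Type} (L : ∀ i, ι i → Ω) (h1 : ∀ i, ∃ j, L i j = 1)
    (hgen : IntermediateField.adjoin κ (⋃ i, Set.range (L i)) = ⊤)
    (x : FractionRing (MvPolynomial I Ω)) :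
    x ∈ IntermediateField.adjoin κ
      (algebraMap (MvPolynomial I Ω) (FractionRing (MvPolynomial I Ω)) '' V4_gens L) := by
  revert x
  set K := FractionRing (MvPolynomial I Ω)
  intro x
  set φ := algebraMap (MvPolynomial I Ω) K with hφ
  set F := IntermediateField.adjoin κ (φ '' V4_gens L)
  have hg : ∀ i j, φ (C (L i j) * X i) ∈ F := fun i j =>
    IntermediateField.subset_adjoin _ _ ⟨_, ⟨⟨i, j⟩, rfl⟩, rfl⟩
  have hX : ∀ i, φ (X i) ∈ F := fun i => by
    obtain ⟨j, hj⟩ := h1 i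
    have := hg i j
    rwa [hj, C_1, one_mul] at this
  have hX0 : ∀ i, φ (X i) ≠ 0 := fun i =>
    (map_ne_zero_iff φ (IsFractionRing.injective _ _)).mpr (X_ne_zero i)
  have hC : ∀ w : Ω, φ (C w) ∈ F := by
    intro w
    have hw : w ∈ IntermediateField.adjoin κ (⋃ i, Set.range (L i)) := by rw [hgen]; trivial
    induction hw using IntermediateField.adjoin_induction with
    | mem w hw =>
      obtain ⟨i, hi⟩ := Set.mem_iUnion.mp hw
      obtain ⟨j, rfl⟩ := hi
      have := F.div_mem (hg i j) (hX i)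
      rwa [map_mul, mul_div_cancel_right₀ _ (hX0 i)] at this
    | algebraMap r =>
      have : φ (C (algebraMap κ Ω r)) = algebraMap κ K r := by
        rw [IsScalarTower.algebraMap_apply κ (MvPolynomial I Ω) K,
          IsScalarTower.algebraMap_apply κ Ω (MvPolynomial I Ω), algebraMap_eq]
      rw [this]
      exact F.algebraMap_mem r
    | add a b _ _ ha hb => rw [map_add, map_add]; exact F.add_mem ha hb
    | inv a _ ha =>
      have : φ (C a⁻¹) = (φ (C a))⁻¹ := map_inv₀ (φ.comp C) a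
      rw [this]
      exact F.inv_mem ha
    | mul a b _ _ ha hb => rw [map_mul, map_mul]; exact F.mul_mem ha hb
  have hP : ∀ p : MvPolynomial I Ω, φ p ∈ F := by
    intro p
    induction p using MvPolynomial.induction_on with
    | C w => exact hC w
    | add p q hp hq => rw [map_add]; exact F.add_mem hp hq
    | mul_X p i hp => rw [map_mul]; exact F.mul_mem hp (hX i)
  obtain ⟨a, b, -, e⟩ := IsFractionRing.div_surjective (A := MvPolynomial I Ω) x
  have := F.div_mem (hP a) (hP b)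
  rwa [e] at this

omit [CharZero κ] in
theorem V4_integral {I : Type} [Fintype I] {ι : I → Type} [∀ i, Fintype (ι i)]
    (L : ∀ i, ι i → Ω) (hL : ∀ i, L i ≠ 0) (b : I → ℕ) {G : Ω}
    (hG : G ∈ TT (∏ i, gen κ (L i) ^ b i))
    (S : Subalgebra κ (FractionRing (MvPolynomial I Ω)))
    (hS : algebraMap (MvPolynomial I Ω) (FractionRing (MvPolynomial I Ω)) '' V4_gens L ⊆ S) :
    IsIntegral S (algebraMap (MvPolynomial I Ω) (FractionRing (MvPolynomial I Ω))
      (C G * ∏ i, X i ^ b i)) := by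
  set K := FractionRing (MvPolynomial I Ω)
  set φ := algebraMap (MvPolynomial I Ω) K with hφ
  have key : φ (C G * ∏ i, X i ^ b i) ∈
      (⨅ V : {V : ValuationSubring K // (S : Set K) ⊆ V.toSubring}, V.1.toSubring) := by
    rw [Subring.mem_iInf]
    rintro ⟨V, hV⟩
    have hκ : ∀ c : κ, algebraMap κ Ω c ∈ V.comap (φ.comp C) := fun r => by
      have : φ (C (algebraMap κ Ω r)) = algebraMap κ K r := by
        rw [IsScalarTower.algebraMap_apply κ (MvPolynomial I Ω) K,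
          IsScalarTower.algebraMap_apply κ Ω (MvPolynomial I Ω), algebraMap_eq]
      rw [ValuationSubring.mem_comap, RingHom.comp_apply, this]
      exact hV (S.algebraMap_mem r)
    let O : VS κ Ω := ⟨V.comap (φ.comp C), hκ⟩
    have h1 : φ (C (G / ((∏ i, gen κ (L i) ^ b i) O : Ωˣ))) ∈ V := hG O
    have h2 : ∀ i, φ (C ((gen κ (L i) O : Ωˣ) : Ω) * X i) ∈ V := fun i => by
      obtain ⟨j, hj⟩ := (gen_spec (κ := κ) (hL i) O).1
      rw [← hj]
      exact hV (hS ⟨_, ⟨⟨i, j⟩, rfl⟩, rfl⟩)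
    have h3 : (C G * ∏ i, X i ^ b i : MvPolynomial I Ω) =
        C (G / ((∏ i, gen κ (L i) ^ b i) O : Ωˣ)) *
          ∏ i, (C ((gen κ (L i) O : Ωˣ) : Ω) * X i) ^ b i := by
      simp only [mul_pow, Finset.prod_mul_distrib, ← map_pow, ← map_prod, ← mul_assoc, ← map_mul]
      congr 2
      have e : (((∏ i, gen κ (L i) ^ b i) O : Ωˣ) : Ω) = ∏ i, ((gen κ (L i) O : Ωˣ) : Ω) ^ b i := by
        simp [Finset.prod_apply]
      rw [← e, div_mul_cancel₀ _ (Units.ne_zero _)]
    rw [h3, map_mul, map_prod]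
    refine V.toSubring.mul_mem h1 (V.toSubring.prod_mem fun i _ => ?_)
    rw [map_pow]
    exact V.toSubring.pow_mem (h2 i) _
  rw [iInf_valuationSubring_superset] at key
  have key' : IsIntegral (Subring.closure (S : Set K)) (φ (C G * ∏ i, X i ^ b i)) := key
  have e : Subring.closure (S : Set K) = S.toSubring := Subring.closure_eq S.toSubring
  rw [e] at key'
  exact key'

/-- Conductor. -/
theorem exists_conductor {I : Type} [Fintype I] {ι : I → Type} [∀ i, Fintype (ι i)]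
    (L : ∀ i, ι i → Ω) (h1 : ∀ i, ∃ j, L i j = 1)
    (hgen : IntermediateField.adjoin κ (⋃ i, Set.range (L i)) = ⊤) :
    ∃ (γ : Ω) (c : ℕ), γ ≠ 0 ∧ ∀ (b : I → ℕ), ∀ G ∈ TT (∏ i, gen κ (L i) ^ b i),
      γ * G ∈ ∏ i, Submodule.span κ (Set.range (L i)) ^ (b i + c) := by
  set K := FractionRing (MvPolynomial I Ω)
  set φ := algebraMap (MvPolynomial I Ω) K with hφ
  have hinj : Function.Injective φ := IsFractionRing.injective _ _
  have hL : ∀ i, L i ≠ 0 := fun i h0 => by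
    obtain ⟨j, hj⟩ := h1 i
    rw [h0] at hj
    exact zero_ne_one hj
  let S : Subalgebra κ K := Algebra.adjoin κ (φ '' V4_gens L)
  have hfin : (φ '' V4_gens L).Finite := (Set.finite_range _).image _
  have : Algebra.FiniteType κ S :=
    (Subalgebra.fg_iff_finiteType S).mp ⟨hfin.toFinset, by rw [hfin.coe_toFinset]⟩
  have : IsFractionRing S K := IsFractionRing.of_field _ _ fun z => by
    obtain ⟨r, hr, s, hs, e⟩ := IntermediateField.mem_adjoin_iff_div.mp (V4_top L h1 hgen z)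
    exact ⟨⟨r, hr⟩, ⟨s, hs⟩, e⟩
  have hS : ∀ s ∈ S, ∃ p ∈ Algebra.adjoin κ (V4_gens L), φ p = s := by
    intro s hs
    have e : S = (Algebra.adjoin κ (V4_gens L)).map
        (IsScalarTower.toAlgHom κ (MvPolynomial I Ω) K) := by
      rw [AlgHom.map_adjoin]; rfl
    rw [e] at hs
    exact hs
  obtain ⟨γ, hγ0, hγ⟩ := V4_cond (κ := κ) (S := S) (K := K)
  obtain ⟨p, hp, hpγ⟩ := hS γ γ.2
  have hp0 : p ≠ 0 := by
    rintro rfl
    exact hγ0 (Subtype.ext (by rw [← hpγ, map_zero]; rfl))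
  obtain ⟨e, he⟩ := ne_zero_iff.mp hp0
  refine ⟨coeff e p, ∑ i, e i, he, fun b G hG => ?_⟩
  obtain ⟨s, hs⟩ := hγ _ (V4_integral L hL b hG S Algebra.subset_adjoin)
  obtain ⟨q, hq, hqs⟩ := hS s s.2
  have hqe : q = p * (C G * ∏ i, X i ^ b i) := by
    apply hinj
    rw [map_mul, hqs, hpγ]
    exact hs
  let b' : I →₀ ℕ := Finsupp.equivFunOnFinite.symm b
  have hmon : (C G * ∏ i, X i ^ b i : MvPolynomial I Ω) = monomial b' G := by
    rw [monomial_eq, Finsupp.prod_fintype _ _ (fun i => pow_zero _)]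
    rfl
  have := V4_graded L hq (e + b')
  rw [hqe, hmon, coeff_mul_monomial] at this
  refine V4_prod_mono Finset.univ (fun i => ?_) this
  obtain ⟨j, hj⟩ := h1 i
  refine V4_pow_mono (Submodule.subset_span (s := Set.range (L i)) ⟨j, hj⟩) ?_
  have h2 : e i ≤ ∑ i, e i := Finset.single_le_sum (f := fun i => e i) (fun _ _ => Nat.zero_le _)
    (Finset.mem_univ i)
  have h3 : (e + b') i = e i + b i := rfl
  omega

end Pool.Agent.E6b

end

section
open scoped BigOperators Classical Topology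
open Filter

namespace Pool.Agent.E6b

theorem V5_ratio (k d : ℕ) (hk : k ≤ d) :
    Tendsto (fun a : ℕ => (a : ℝ) ^ k / (a : ℝ) ^ d) atTop (𝓝 (if k = d then 1 else 0)) := by
  split_ifs with h
  · subst h
    refine tendsto_const_nhds.congr' ?_
    filter_upwards [eventually_gt_atTop 0] with a ha
    have : (a : ℝ) ^ k ≠ 0 := by positivity
    rw [div_self this]
  · exact (tendsto_pow_div_pow_atTop_zero (𝕜 := ℝ) (lt_of_le_of_ne hk h)).comp
      tendsto_natCast_atTop_atTop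

theorem V5_lin (b e : ℝ) : Tendsto (fun a : ℕ => ((a : ℝ) * b + e) / a) atTop (𝓝 b) := by
  have h : Tendsto (fun a : ℕ => b + e / (a : ℝ)) atTop (𝓝 (b + 0)) :=
    tendsto_const_nhds.add (tendsto_const_div_atTop_nhds_zero_nat e)
  rw [add_zero] at h
  refine h.congr' ?_
  filter_upwards [eventually_gt_atTop 0] with a ha
  have : (a : ℝ) ≠ 0 := by positivity
  field_simp

theorem V5_asym {I : Type} [Fintype I] (Q : MvPolynomial I ℝ) (d : ℕ) (hd : Q.totalDegree ≤ d)
    (b e : I → ℝ) :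
    Tendsto (fun a : ℕ => MvPolynomial.eval (fun i => (a : ℝ) * b i + e i) Q / (a : ℝ) ^ d) atTop
      (𝓝 (MvPolynomial.eval b (MvPolynomial.homogeneousComponent d Q))) := by
  have e1 : MvPolynomial.eval b (MvPolynomial.homogeneousComponent d Q) =
      ∑ s ∈ Q.support, (Q.coeff s * ∏ i, b i ^ s i) * (if s.degree = d then 1 else 0) := by
    rw [MvPolynomial.homogeneousComponent_apply, map_sum, Finset.sum_filter]
    refine Finset.sum_congr rfl fun s _ => ?_
    split_ifs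
    · rw [MvPolynomial.eval_monomial, Finsupp.prod_fintype _ _ (by simp), mul_one]
    · simp
  rw [e1]
  have h : Tendsto (fun a : ℕ => ∑ s ∈ Q.support,
      (Q.coeff s * ∏ i, (((a : ℝ) * b i + e i) / a) ^ s i) * ((a : ℝ) ^ s.degree / (a : ℝ) ^ d))
      atTop (𝓝 (∑ s ∈ Q.support,
        (Q.coeff s * ∏ i, b i ^ s i) * (if s.degree = d then 1 else 0))) := by
    refine tendsto_finsetSum _ fun s hs => ?_
    refine Tendsto.mul (tendsto_const_nhds.mul ?_) (V5_ratio _ _ ?_)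
    · exact tendsto_finsetProd _ fun i _ => (V5_lin (b i) (e i)).pow _
    · exact (MvPolynomial.le_totalDegree hs).trans hd
  refine h.congr' ?_
  filter_upwards [eventually_gt_atTop 0] with a ha
  have ha' : (a : ℝ) ≠ 0 := by positivity
  rw [MvPolynomial.eval_eq', Finset.sum_div]
  refine Finset.sum_congr rfl fun s _ => ?_
  have : (a : ℝ) ^ s.degree = ∏ i, (a : ℝ) ^ s i := by
    rw [Finset.prod_pow_eq_pow_sum, Finsupp.degree_eq_sum]
  simp only [div_pow]
  rw [Finset.prod_div_distrib, this]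
  have h2 : ∏ i, (a : ℝ) ^ s i ≠ 0 := Finset.prod_ne_zero_iff.2 fun i _ => pow_ne_zero _ ha'
  field_simp

theorem V5_shift (n : ℕ) (c : ℝ) :
    Tendsto (fun a : ℕ => ((a : ℝ) + c) ^ n / (a : ℝ) ^ n) atTop (𝓝 1) := by
  have h := (V5_lin 1 c).pow n
  simp only [mul_one, one_pow, div_pow] at h
  exact h

theorem V5_top_ne {I : Type} {Q : MvPolynomial I ℝ} (hQ : Q ≠ 0) :
    MvPolynomial.homogeneousComponent Q.totalDegree Q ≠ 0 := by
  obtain ⟨s, hs, e⟩ := Finset.exists_mem_eq_sup Q.support (MvPolynomial.support_nonempty.2 hQ)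
    (fun s : I →₀ ℕ => s.sum fun _ e => e)
  intro h
  have := congrArg (MvPolynomial.coeff s) h
  rw [MvPolynomial.coeff_homogeneousComponent, if_pos, MvPolynomial.coeff_zero] at this
  · exact MvPolynomial.mem_support_iff.1 hs this
  · rw [MvPolynomial.totalDegree, e]
    rfl

/-- a polynomial growing at most like `a ^ n` on all shifted rays has total degree at most `n` -/
theorem V5_deg {I : Type} [Fintype I] (Q : MvPolynomial I ℝ) (n : ℕ) (e : I → ℝ)
    (h : ∀ b : I → ℕ, ∃ C : ℝ, ∀ a : ℕ,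
      |MvPolynomial.eval (fun i => (a : ℝ) * b i + e i) Q| ≤ C * ((a : ℝ) + 2) ^ n) :
    Q.totalDegree ≤ n := by
  by_contra hn
  push Not at hn
  have hQ : Q ≠ 0 := by
    rintro rfl
    simp at hn
  apply V5_top_ne hQ
  refine MvPolynomial.funext_set (fun _ => Set.range (Nat.cast : ℕ → ℝ))
    (fun _ => Set.infinite_range_of_injective Nat.cast_injective) fun x hx => ?_
  choose b hb using fun i => hx i (Set.mem_univ i)
  obtain rfl : x = fun i => (b i : ℝ) := funext fun i => (hb i).symm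
  obtain ⟨C, hC⟩ := h b
  rw [map_zero]
  refine tendsto_nhds_unique (V5_asym Q _ le_rfl (fun i => (b i : ℝ)) e) ?_
  have h0 : Tendsto (fun a : ℕ => C * ((((a : ℝ) + 2) ^ n / (a : ℝ) ^ n) *
      ((a : ℝ) ^ n / (a : ℝ) ^ Q.totalDegree))) atTop (𝓝 (C * (1 * 0))) := by
    refine tendsto_const_nhds.mul ((V5_shift n 2).mul ?_)
    have := V5_ratio n _ hn.le
    rwa [if_neg hn.ne] at this
  rw [mul_zero, mul_zero] at h0
  refine squeeze_zero_norm' ?_ h0
  filter_upwards [eventually_gt_atTop 0] with a ha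
  have ha' : (0 : ℝ) < a := by positivity
  rw [Real.norm_eq_abs, abs_div, abs_of_pos (pow_pos ha' _)]
  calc _ ≤ C * ((a : ℝ) + 2) ^ n / (a : ℝ) ^ Q.totalDegree := by gcongr; exact hC a
    _ = _ := by field_simp

/-- removing a boundary term -/
theorem V5_bdry (f g : ℕ → ℕ) (n C : ℕ) (x : ℝ) (hfg : ∀ a, f a ≤ g a)
    (h : ∀ a, (a + 2) * g a ≤ (a + 2) * f a + C * (a + 2) ^ n)
    (hg : Tendsto (fun a : ℕ => (g a : ℝ) / (a : ℝ) ^ n) atTop (𝓝 x)) :
    Tendsto (fun a : ℕ => (f a : ℝ) / (a : ℝ) ^ n) atTop (𝓝 x) := by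
  have h0 : Tendsto (fun a : ℕ => (g a : ℝ) / (a : ℝ) ^ n -
      ((C : ℝ) / a) * (((a : ℝ) + 2) ^ n / (a : ℝ) ^ n)) atTop (𝓝 (x - 0 * 1)) :=
    hg.sub ((tendsto_const_div_atTop_nhds_zero_nat (C : ℝ)).mul (V5_shift n 2))
  rw [zero_mul, sub_zero] at h0
  refine tendsto_of_tendsto_of_tendsto_of_le_of_le' h0 hg ?_ ?_
  · filter_upwards [eventually_gt_atTop 0] with a ha
    have ha' : (0 : ℝ) < a := by positivity
    have h1 : ((a : ℝ) + 2) * g a ≤ ((a : ℝ) + 2) * f a + C * ((a : ℝ) + 2) ^ n := by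
      exact_mod_cast h a
    have h2 : (f a : ℝ) ≤ g a := by exact_mod_cast hfg a
    have h3 : (g a : ℝ) - C / a * ((a : ℝ) + 2) ^ n ≤ f a := by
      have : (a : ℝ) * (g a - f a) ≤ C * ((a : ℝ) + 2) ^ n := by nlinarith
      have h4 : (g a : ℝ) - f a ≤ C * ((a : ℝ) + 2) ^ n / a := by
        rw [le_div_iff₀ ha']; linarith
      have h5 : (C : ℝ) / a * ((a : ℝ) + 2) ^ n = C * ((a : ℝ) + 2) ^ n / a := by ring
      linarith
    rw [← mul_div_assoc, ← sub_div]
    gcongr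
  · filter_upwards with a
    have h2 : (f a : ℝ) ≤ g a := by exact_mod_cast hfg a
    gcongr

end Pool.Agent.E6b

end

section
open scoped NNReal TensorProduct IntermediateField BigOperators Classical Topology
open Filter

namespace Pool.Agent.E6b

section aux
variable {κ Ω : Type} [Field κ] [Field Ω] [Algebra κ Ω]

theorem V5_cst_pow (g : Ωˣ) (k : ℕ) : cstC κ (g ^ k) = cstC κ g ^ k := rfl

theorem V5_cst_prod {I : Type} (s : Finset I) (g : I → Ωˣ) :
    cstC κ (∏ i ∈ s, g i) = ∏ i ∈ s, cstC κ (g i) := by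
  funext O
  simp [cstC]

theorem V5_one_le_mul {l m : VC κ Ω} (hl : VLe 1 l) (hm : VLe 1 m) : VLe 1 (l * m) := by
  simpa using hl.mul hm

theorem V5_one_le_pow {l : VC κ Ω} (hl : VLe 1 l) (k : ℕ) : VLe 1 (l ^ k) := by
  simpa using hl.pow k

theorem V5_one_le_prod {I : Type} (s : Finset I) {l : I → VC κ Ω} (h : ∀ i ∈ s, VLe 1 (l i)) :
    VLe 1 (∏ i ∈ s, l i) := by
  simpa using VLe.prod s (l := fun _ => 1) h

theorem V5_le_mul (l : VC κ Ω) {m : VC κ Ω} (hm : VLe 1 m) : VLe l (l * m) := by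
  simpa using (VLe.refl l).mul hm

theorem V5_div_le (l : VC κ Ω) {m : VC κ Ω} (hm : VLe 1 m) : VLe (l * m⁻¹) l := by
  simpa using (VLe.refl l).mul hm.inv

theorem V5_one_le_pen (t : Ω) : VLe 1 (pen κ t) := one_vle_gen (j := 0) rfl

theorem V5_pen_ne (t : Ω) : (![1, t] : Fin 2 → Ω) ≠ 0 := fun h => by
  simpa using congrFun h 0

theorem V5_pen_le_one {t : Ω} (ht : IsAlgebraic κ t) : VLe (pen κ t) 1 := by
  refine gen_vle_of_mem (V5_pen_ne t) fun j O => ?_
  have h : t ∈ O.1 := by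
    have hi : IsIntegral O.1 t := by
      obtain ⟨p, hp, hpt⟩ := ht.isIntegral
      refine ⟨p.map ((algebraMap κ Ω).codRestrict O.1.toSubring O.2), hp.map _, ?_⟩
      rw [Polynomial.eval₂_map]
      exact hpt
    obtain ⟨y, hy⟩ := IsIntegrallyClosed.algebraMap_eq_of_integral (K := Ω) hi
    rw [← hy]
    exact y.2
  fin_cases j
  · simp
  · simpa using h

theorem V5Gen_gen {ι : Type} [Finite ι] {l : ι → Ω} (hl : l ≠ 0) : V5Gen (gen κ l) :=
  fun _ _ v _ => exists_gen_vle v hl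

theorem V5Gen_prod {I : Type} (s : Finset I) {l : I → VC κ Ω} (h : ∀ i ∈ s, V5Gen (l i)) :
    V5Gen (∏ i ∈ s, l i) :=
  Finset.prod_induction _ _ (fun _ _ => V5Gen.mul) V5Gen_one h

theorem V5Gen.box {m : VC κ Ω} (hm : V5Gen m) {σ : Type} [Fintype σ] (v : σ → Ω)
    [FiniteDimensional (IntermediateField.adjoin κ (Set.range v)) Ω] :
    ∃ (g : Ωˣ) (c : ℕ), ∀ (l : VC κ Ω) (N : ℕ), VLe l (m ^ N) →
      VLe l (cstC κ (g ^ N) * ∏ k, pen κ (v k) ^ (c * N)) := by
  obtain ⟨g, c, h⟩ := hm σ v (Algebra.IsAlgebraic.of_finite _ _)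
  refine ⟨g, c, fun l N hl => hl.trans ?_⟩
  have := h.pow N
  rwa [mul_pow, ← V5_cst_pow, ← pow_mul, ← Finset.prod_pow] at this

theorem V5_pow_le (c N k : ℕ) : (c * N + 1) ^ k ≤ (c + 1) ^ k * (N + 1) ^ k := by
  rw [← mul_pow]
  exact Nat.pow_le_pow_left (by nlinarith) k

theorem V5_ub {σ : Type} [Fintype σ] (u : σ → Ω) (hu : AlgebraicIndependent κ u)
    [FiniteDimensional (IntermediateField.adjoin κ (Set.range u)) Ω] {m : VC κ Ω} (hm : V5Gen m) :
    ∃ C : ℕ, ∀ (l : VC κ Ω) (N : ℕ), VLe l (m ^ N) →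
      Module.Finite κ (TT l) ∧ Module.finrank κ (TT l) ≤ C * (N + 1) ^ Fintype.card σ := by
  obtain ⟨g, c, h⟩ := hm.box u
  refine ⟨Module.finrank (IntermediateField.adjoin κ (Set.range u)) Ω * (c + 1) ^ Fintype.card σ,
    fun l N hl => ?_⟩
  obtain ⟨h1, h2⟩ := ub u hu fun _ => c * N
  have h3 := (finite_TT_cstC_mul (g ^ N) _).2 h1
  have h4 := (h l N hl).TT_le
  refine ⟨Submodule.finiteDimensional_of_le h4, (Submodule.finrank_mono h4).trans ?_⟩
  rw [finrank_TT_cstC_mul]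
  refine h2.trans ?_
  rw [Finset.prod_const, Finset.card_univ, mul_assoc]
  exact Nat.mul_le_mul_left _ (V5_pow_le _ _ _)

theorem V5_basis {σ : Type} [Fintype σ] (u : σ → Ω) (hu : AlgebraicIndependent κ u)
    [FiniteDimensional (IntermediateField.adjoin κ (Set.range u)) Ω] {S : Set Ω} (hS : S.Finite)
    (hgen : IntermediateField.adjoin κ S = ⊤) {t : Ω} (ht : Transcendental κ t) :
    ∃ (v : σ → Ω) (k₀ : σ), v k₀ = t ∧ AlgebraicIndependent κ v ∧
      FiniteDimensional (IntermediateField.adjoin κ (Set.range v)) Ω := by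
  have hb : IsTranscendenceBasis κ u := hu.isTranscendenceBasis_iff_isAlgebraic.2
    (IntermediateField.isAlgebraic_adjoin_iff_top.1 (Algebra.IsAlgebraic.of_finite _ _))
  have h1 : AlgebraicIndepOn κ id ({t} : Set Ω) := by
    refine algebraicIndependent_unique_type_iff.2 ?_
    simpa using ht
  obtain ⟨T, hT, hTb⟩ := exists_isTranscendenceBasis_superset h1
  obtain ⟨e⟩ := Cardinal.eq.1 (hb.cardinalMk_eq hTb)
  have hv := hTb.comp_equiv e
  refine ⟨_, e.symm ⟨t, hT rfl⟩, by simp, hv.1, ?_⟩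
  have := hv.isAlgebraic_field
  set K := IntermediateField.adjoin κ (Set.range ((↑) ∘ e : σ → Ω))
  have : Finite S := hS
  have h2 : FiniteDimensional K (IntermediateField.adjoin K S) :=
    IntermediateField.finiteDimensional_adjoin fun x _ => (Algebra.IsAlgebraic.isAlgebraic x).isIntegral
  have h3 : IntermediateField.adjoin K S = ⊤ := by
    rw [eq_top_iff]
    intro x _
    have hx : x ∈ IntermediateField.adjoin κ S := hgen ▸ IntermediateField.mem_top
    have : IntermediateField.adjoin κ S ≤ (IntermediateField.adjoin K S).restrictScalars κ :=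
      IntermediateField.adjoin_le_iff.2 (IntermediateField.subset_adjoin K S)
    exact this hx
  rw [h3] at h2
  exact IntermediateField.topEquiv.toLinearEquiv.finiteDimensional

/-- classes whose removal only changes lower order terms -/
def V5Sm (n : ℕ) (p : VC κ Ω) : Prop :=
  VLe 1 p ∧ ∀ m : VC κ Ω, V5Gen m → ∃ C : ℕ, ∀ (l : VC κ Ω) (N : ℕ), VLe l (m ^ N) →
    (N + 1) * Module.finrank κ (TT l) ≤
      (N + 1) * Module.finrank κ (TT (l * p⁻¹)) + C * (N + 1) ^ n

theorem V5Sm_of_le_one (n : ℕ) {p : VC κ Ω} (h1 : VLe 1 p) (h2 : VLe p 1) : V5Sm n p := by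
  refine ⟨h1, fun m _ => ⟨0, fun l N _ => ?_⟩⟩
  have : VEq l (l * p⁻¹) := ⟨by simpa using (VLe.refl l).mul h2.inv, V5_div_le l h1⟩
  rw [← this.TT_eq]
  simp

theorem V5Sm.mul {n : ℕ} {p q : VC κ Ω} (hp : V5Sm n p) (hq : V5Sm n q) : V5Sm n (p * q) := by
  refine ⟨V5_one_le_mul hp.1 hq.1, fun m hm => ?_⟩
  obtain ⟨C, hC⟩ := hp.2 m hm
  obtain ⟨C', hC'⟩ := hq.2 m hm
  refine ⟨C + C', fun l N hl => ?_⟩
  have h1 := hC l N hl
  have h2 := hC' _ N ((V5_div_le l hp.1).trans hl)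
  rw [mul_inv, ← mul_assoc, add_mul C]
  omega

theorem V5Sm.pow {n : ℕ} {p : VC κ Ω} (hp : V5Sm n p) (k : ℕ) : V5Sm n (p ^ k) := by
  induction k with
  | zero => simpa using V5Sm_of_le_one n (VLe.refl _) (VLe.refl _)
  | succ k ih => rw [pow_succ]; exact ih.mul hp

theorem V5Sm_prod {n : ℕ} {I : Type} (s : Finset I) {l : I → VC κ Ω}
    (h : ∀ i ∈ s, V5Sm n (l i)) : V5Sm n (∏ i ∈ s, l i) :=
  Finset.prod_induction _ _ (fun _ _ => V5Sm.mul) (V5Sm_of_le_one n (VLe.refl _) (VLe.refl _)) h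

theorem V5Sm.mono {σ : Type} [Fintype σ] (u : σ → Ω) (hu : AlgebraicIndependent κ u)
    [FiniteDimensional (IntermediateField.adjoin κ (Set.range u)) Ω] {n : ℕ} {p q : VC κ Ω}
    (hp : V5Sm n p) (h1 : VLe 1 q) (h2 : VLe q p) : V5Sm n q := by
  refine ⟨h1, fun m hm => ?_⟩
  obtain ⟨C, hC⟩ := hp.2 m hm
  obtain ⟨C', hC'⟩ := V5_ub u hu hm
  refine ⟨C, fun l N hl => (hC l N hl).trans ?_⟩
  have := (hC' _ N ((V5_div_le l h1).trans hl)).1
  have h3 : VLe (l * p⁻¹) (l * q⁻¹) := (VLe.refl l).mul h2.inv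
  have := Submodule.finrank_mono h3.TT_le
  gcongr

theorem V5Sm_pen {σ : Type} [Fintype σ] (u : σ → Ω) (hu : AlgebraicIndependent κ u)
    [FiniteDimensional (IntermediateField.adjoin κ (Set.range u)) Ω] {S : Set Ω} (hS : S.Finite)
    (hgen : IntermediateField.adjoin κ S = ⊤) (t : Ω) : V5Sm (Fintype.card σ) (pen κ t) := by
  by_cases ht : IsAlgebraic κ t
  · exact V5Sm_of_le_one _ (V5_one_le_pen t) (V5_pen_le_one ht)
  obtain ⟨v, k₀, rfl, hv, hfin⟩ := V5_basis u hu hS hgen ht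
  refine ⟨V5_one_le_pen _, fun m hm => ?_⟩
  obtain ⟨g, c, h⟩ := hm.box v
  obtain ⟨C', hC'⟩ := V5_ub u hu hm
  refine ⟨Module.finrank (IntermediateField.adjoin κ (Set.range v)) Ω *
    (c + 1) ^ (Fintype.card σ - 1), fun l N hl => ?_⟩
  obtain ⟨h1, h2⟩ := ub_res v hv (fun _ => c * N) k₀ _ (h l N hl)
  have := (hC' l N hl).1
  have h3 := pencil_sub (v k₀) l 1
  rw [pow_one, one_mul] at h3
  rw [Finset.prod_const, Finset.card_erase_of_mem (Finset.mem_univ _), Finset.card_univ] at h2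
  have h4 : 0 < Fintype.card σ := Fintype.card_pos_iff.2 ⟨k₀⟩
  have h5 : (N + 1) ^ Fintype.card σ = (N + 1) * (N + 1) ^ (Fintype.card σ - 1) := by
    rw [← pow_succ', Nat.sub_add_cancel h4]
  have h6 := h2.trans (Nat.mul_le_mul_left _ (V5_pow_le c N (Fintype.card σ - 1)))
  rw [h5, mul_left_comm, ← mul_add]
  refine Nat.mul_le_mul_left _ (h3.trans ?_)
  rw [mul_assoc]
  omega

end aux
variable {κ Ω : Type} [Field κ] [CharZero κ] [Field Ω] [Algebra κ Ω]

theorem V5_core {σ : Type} [Fintype σ] (u : σ → Ω) (hu : AlgebraicIndependent κ u)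
    [FiniteDimensional (IntermediateField.adjoin κ (Set.range u)) Ω]
    {I : Type} [Fintype I] {ι : I → Type} [∀ i, Fintype (ι i)] (L : ∀ i, ι i → Ω)
    (h1 : ∀ i, ∃ j, L i j = 1) (hgen : IntermediateField.adjoin κ (⋃ i, Set.range (L i)) = ⊤) :
    ∃ P : MvPolynomial I ℝ, P.IsHomogeneous (Fintype.card σ) ∧ ∀ b : I → ℕ,
      (∀ a : ℕ, Module.Finite κ (TT ((∏ i, gen κ (L i) ^ b i) ^ a))) ∧
      Tendsto (fun a : ℕ => (Module.finrank κ (TT ((∏ i, gen κ (L i) ^ b i) ^ a)) : ℝ) /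
        (a : ℝ) ^ Fintype.card σ) atTop (𝓝 (MvPolynomial.eval (fun i => (b i : ℝ)) P)) := by
  have hL : ∀ i, L i ≠ 0 := fun i h => by
    obtain ⟨j, hj⟩ := h1 i
    rw [h] at hj
    exact zero_ne_one hj
  have hone : ∀ i, VLe 1 (gen κ (L i)) := fun i => one_vle_gen (h1 i).choose_spec
  have hone' : ∀ b : I → ℕ, VLe 1 (∏ i, gen κ (L i) ^ b i) := fun b =>
    V5_one_le_prod _ fun i _ => V5_one_le_pow (hone i) _
  have hG : ∀ b : I → ℕ, V5Gen (∏ i, gen κ (L i) ^ b i) := fun b =>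
    V5Gen_prod _ fun i _ => (V5Gen_gen (hL i)).pow _
  have hS : (⋃ i, Set.range (L i)).Finite := Set.finite_iUnion fun i => Set.finite_range _
  have hSm : ∀ b : I → ℕ, V5Sm (Fintype.card σ) (∏ i, gen κ (L i) ^ b i) := fun b =>
    V5Sm_prod _ fun i _ => V5Sm.pow
      ((V5Sm_prod Finset.univ fun j _ => V5Sm_pen u hu hS hgen (L i j)).mono u hu (hone i)
        (gen_vle_prod_pen (h1 i).choose_spec)) _
  have hfin : ∀ b : I → ℕ, Module.Finite κ (TT (∏ i, gen κ (L i) ^ b i)) := fun b => by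
    obtain ⟨C, hC⟩ := V5_ub u hu (hG b)
    exact (hC _ 1 (by simpa using VLe.refl _)).1
  have hsplit : ∀ (b : I → ℕ) (a e : ℕ), ∏ i, gen κ (L i) ^ (a * b i + e) =
      (∏ i, gen κ (L i) ^ b i) ^ a * ∏ i, gen κ (L i) ^ e := fun b a e => by
    rw [← Finset.prod_pow, ← Finset.prod_mul_distrib]
    refine Finset.prod_congr rfl fun i _ => ?_
    rw [pow_add, mul_comm a, pow_mul]
  have hle : ∀ (b : I → ℕ) (a e : ℕ), VLe (∏ i, gen κ (L i) ^ (a * b i + e))
      (((∏ i, gen κ (L i) ^ b i) * ∏ i, gen κ (L i) ^ e) ^ (a + 1)) := fun b a e => by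
    rw [hsplit, mul_pow, pow_succ, pow_succ']
    exact (V5_le_mul _ (hone' b)).mul (V5_le_mul _ (V5_one_le_pow (hone' fun _ => e) a))
  obtain ⟨Q₀, b₀, hQ₀⟩ := hilbert_multi (κ := κ) L
  obtain ⟨γ, c, hγ, hc⟩ := exists_conductor L h1 hgen
  set Q : MvPolynomial I ℝ := MvPolynomial.map (Rat.castHom ℝ) Q₀ with hQdef
  have hQ : ∀ (b : I → ℕ) (a e : ℕ), b₀ ≤ e →
      (Module.finrank κ ↥(∏ i, Submodule.span κ (Set.range (L i)) ^ (a * b i + e)) : ℝ) =
        MvPolynomial.eval (fun i => (a : ℝ) * b i + e) Q := fun b a e he => by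
    have h := congrArg (Rat.castHom ℝ) (hQ₀ (fun i => a * b i + e) fun i => by omega)
    rw [MvPolynomial.map_eval, map_natCast] at h
    rw [h]
    congr 2
    funext i
    simp
  have hlow : ∀ b : I → ℕ, Module.finrank κ ↥(∏ i, Submodule.span κ (Set.range (L i)) ^ b i) ≤
      Module.finrank κ (TT (∏ i, gen κ (L i) ^ b i)) := fun b => by
    have := hfin b
    exact Submodule.finrank_mono (span_prod_le_TT L hL b)
  have hup : ∀ b : I → ℕ, Module.finrank κ (TT (∏ i, gen κ (L i) ^ b i)) ≤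
      Module.finrank κ ↥(∏ i, Submodule.span κ (Set.range (L i)) ^ (b i + c)) := fun b => by
    have := hfin fun i => b i + c
    have := Submodule.finiteDimensional_of_le (span_prod_le_TT (κ := κ) L hL fun i => b i + c)
    let f : TT (∏ i, gen κ (L i) ^ b i) →ₗ[κ]
        ↥(∏ i, Submodule.span κ (Set.range (L i)) ^ (b i + c)) :=
      (LinearMap.mulLeft κ γ).restrict fun G hG => hc b G hG
    refine LinearMap.finrank_le_finrank_of_injective (f := f) fun x y hxy => ?_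
    have h : γ * (x : Ω) = γ * y := congrArg Subtype.val hxy
    exact Subtype.ext (mul_left_cancel₀ hγ h)
  have hdeg : Q.totalDegree ≤ Fintype.card σ := by
    refine V5_deg Q _ (fun _ => (b₀ : ℝ)) fun b => ?_
    obtain ⟨C, hC⟩ := V5_ub u hu ((hG b).mul (hG fun _ => b₀))
    refine ⟨C, fun a => ?_⟩
    rw [← hQ b a b₀ le_rfl, Nat.abs_cast]
    have h := (hlow fun i => a * b i + b₀).trans (hC _ _ (hle b a b₀)).2
    have h' : ((a + 1 + 1 : ℕ) : ℝ) = (a : ℝ) + 2 := by push_cast; ring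
    rw [← h']
    exact_mod_cast h
  refine ⟨MvPolynomial.homogeneousComponent _ Q,
    MvPolynomial.homogeneousComponent_isHomogeneous _ _, fun b => ⟨fun a => ?_, ?_⟩⟩
  · have := hfin fun i => a * b i + 0
    rwa [hsplit, Finset.prod_congr rfl fun i _ => pow_zero (gen κ (L i)), Finset.prod_const_one,
      mul_one] at this
  · obtain ⟨C, hC⟩ := (hSm fun _ => b₀).2 _ ((hG b).mul (hG fun _ => b₀))
    refine V5_bdry _ (fun a => Module.finrank κ (TT (∏ i, gen κ (L i) ^ (a * b i + b₀)))) _ C _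
      (fun a => ?_) (fun a => ?_) ?_
    · have := hfin fun i => a * b i + b₀
      refine Submodule.finrank_mono (VLe.TT_le ?_)
      rw [hsplit]
      exact V5_le_mul _ (hone' fun _ => b₀)
    · have h := hC _ _ (hle b a b₀)
      have e : (∏ i, gen κ (L i) ^ (a * b i + b₀)) * (∏ i, gen κ (L i) ^ b₀)⁻¹ =
          (∏ i, gen κ (L i) ^ b i) ^ a := by
        rw [hsplit, mul_inv_cancel_right]
      rw [e] at h
      exact h
    · refine tendsto_of_tendsto_of_tendsto_of_le_of_le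
        (V5_asym Q _ hdeg (fun i => (b i : ℝ)) fun _ => (b₀ : ℝ))
        (V5_asym Q _ hdeg (fun i => (b i : ℝ)) fun _ => ((b₀ + c : ℕ) : ℝ)) (fun a => ?_)
        (fun a => ?_)
      · simp only
        rw [← hQ b a b₀ le_rfl]
        have : (Module.finrank κ ↥(∏ i, Submodule.span κ (Set.range (L i)) ^ (a * b i + b₀)) : ℝ) ≤
            Module.finrank κ (TT (∏ i, gen κ (L i) ^ (a * b i + b₀))) := by
          exact_mod_cast hlow fun i => a * b i + b₀
        gcongr
      · simp only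
        rw [← hQ b a (b₀ + c) (by omega)]
        have : (Module.finrank κ (TT (∏ i, gen κ (L i) ^ (a * b i + b₀))) : ℝ) ≤
            Module.finrank κ
              ↥(∏ i, Submodule.span κ (Set.range (L i)) ^ (a * b i + (b₀ + c))) := by
          have := hup fun i => a * b i + b₀
          have e : ∏ i, Submodule.span κ (Set.range (L i)) ^ (a * b i + b₀ + c) =
              ∏ i, Submodule.span κ (Set.range (L i)) ^ (a * b i + (b₀ + c)) :=
            Finset.prod_congr rfl fun i _ => by rw [add_assoc]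
          rw [e] at this
          exact_mod_cast this
        gcongr

/-- index types of the extended family -/
def V5io {I : Type} (A : Type) (ι : I → Type) : Option I → Type
  | none => A
  | some i => ι i

/-- the extended family -/
def V5L {I A : Type} {ι : I → Type} {Ω : Type} (L₀ : A → Ω) (L : ∀ i, ι i → Ω) :
    ∀ o, V5io A ι o → Ω
  | none => L₀
  | some i => L i

theorem V5io_finite {I : Type} (A : Type) (ι : I → Type) [Finite A] [∀ i, Finite (ι i)] :
    ∀ o, Finite (V5io A ι o)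
  | none => ‹Finite A›
  | some i => ‹∀ i, Finite (ι i)› i

theorem V5_norm {σ : Type} [Fintype σ] (u : σ → Ω) (hu : AlgebraicIndependent κ u)
    [FiniteDimensional (IntermediateField.adjoin κ (Set.range u)) Ω]
    {I : Type} [Fintype I] {ι : I → Type} [∀ i, Fintype (ι i)] (L : ∀ i, ι i → Ω)
    (h1 : ∀ i, ∃ j, L i j = 1) :
    ∃ P : MvPolynomial I ℝ, P.IsHomogeneous (Fintype.card σ) ∧ ∀ b : I → ℕ,
      (∀ a : ℕ, Module.Finite κ (TT ((∏ i, gen κ (L i) ^ b i) ^ a))) ∧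
      Tendsto (fun a : ℕ => (Module.finrank κ (TT ((∏ i, gen κ (L i) ^ b i) ^ a)) : ℝ) /
        (a : ℝ) ^ Fintype.card σ) atTop (𝓝 (MvPolynomial.eval (fun i => (b i : ℝ)) P)) := by
  set K := IntermediateField.adjoin κ (Set.range u) with hK
  let B := Module.finBasis K Ω
  let A := Option (σ ⊕ Fin (Module.finrank K Ω))
  let L₀ : A → Ω := fun o => o.elim 1 (Sum.elim u B)
  have inst : ∀ o, Fintype (V5io A ι o) := fun o =>
    @Fintype.ofFinite _ (V5io_finite A ι o)
  have h1' : ∀ o, ∃ j, V5L L₀ L o j = 1 := by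
    rintro (_ | i)
    · exact ⟨(none : A), rfl⟩
    · exact h1 i
  have hgen : IntermediateField.adjoin κ (⋃ o, Set.range (V5L L₀ L o)) = ⊤ := by
    set M := IntermediateField.adjoin κ (⋃ o, Set.range (V5L L₀ L o))
    have hM : ∀ j : A, L₀ j ∈ M := fun j =>
      IntermediateField.subset_adjoin _ _ (Set.mem_iUnion.2 ⟨none, j, rfl⟩)
    have hKM : K ≤ M := IntermediateField.adjoin_le_iff.2 (by
      rintro _ ⟨k, rfl⟩
      exact hM (some (Sum.inl k)))
    rw [eq_top_iff]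
    intro x _
    rw [← B.sum_repr x]
    refine sum_mem fun j _ => ?_
    rw [Algebra.smul_def]
    exact mul_mem (hKM (B.repr x j).2) (hM (some (Sum.inr j)))
  obtain ⟨P, hP, h⟩ := V5_core u hu (V5L L₀ L) h1' hgen
  refine ⟨MvPolynomial.aeval (fun o : Option I => o.elim 0 MvPolynomial.X) P, ?_, fun b => ?_⟩
  · have := hP.aeval (n := 1) (fun o : Option I => o.elim (0 : MvPolynomial I ℝ) MvPolynomial.X)
      (by
        rintro (_ | i)
        · exact MvPolynomial.isHomogeneous_zero _ _ _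
        · exact MvPolynomial.isHomogeneous_X _ _)
    rwa [one_mul] at this
  · have h' := h fun o => o.elim 0 b
    have e : ∏ o : Option I, gen κ (V5L L₀ L o) ^ o.elim 0 b = ∏ i, gen κ (L i) ^ b i := by
      rw [Fintype.prod_option]
      simp only [Option.elim_none, Option.elim_some, pow_zero, one_mul]
      rfl
    have e2 : MvPolynomial.eval (fun i => (b i : ℝ))
        (MvPolynomial.aeval (fun o : Option I => o.elim 0 MvPolynomial.X) P) =
        MvPolynomial.eval (fun o : Option I => ((o.elim 0 b : ℕ) : ℝ)) P := by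
      rw [← MvPolynomial.coe_aeval_eq_eval, ← MvPolynomial.coe_aeval_eq_eval, RingHom.coe_coe,
        RingHom.coe_coe, MvPolynomial.comp_aeval_apply]
      congr 2
      funext o
      rcases o with _ | i <;> simp
    rw [e] at h'
    rw [e2]
    exact h'

/-- The volume is a homogeneous polynomial on the cone spanned by finitely many generated classes. -/
theorem exists_vol {σ : Type} [Fintype σ] (u : σ → Ω) (hu : AlgebraicIndependent κ u)
    [FiniteDimensional (IntermediateField.adjoin κ (Set.range u)) Ω]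
    {I : Type} [Fintype I] {ι : I → Type} [∀ i, Fintype (ι i)] (L : ∀ i, ι i → Ω)
    (hL : ∀ i, L i ≠ 0) :
    ∃ P : MvPolynomial I ℝ, P.IsHomogeneous (Fintype.card σ) ∧ ∀ b : I → ℕ,
      (∀ a : ℕ, Module.Finite κ (TT ((∏ i, gen κ (L i) ^ b i) ^ a))) ∧
      Tendsto (fun a : ℕ => (Module.finrank κ (TT ((∏ i, gen κ (L i) ^ b i) ^ a)) : ℝ) /
        (a : ℝ) ^ Fintype.card σ) atTop (𝓝 (MvPolynomial.eval (fun i => (b i : ℝ)) P)) := by
  choose j hj using fun i => Function.ne_iff.1 (hL i)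
  have hj' : ∀ i, L i (j i) ≠ 0 := hj
  let M : ∀ i, ι i → Ω := fun i k => L i k / L i (j i)
  have h1 : ∀ i, ∃ k, M i k = 1 := fun i => ⟨j i, div_self (hj' i)⟩
  have hM : ∀ i, M i ≠ 0 := fun i h => by
    obtain ⟨k, hk⟩ := h1 i
    rw [h] at hk
    exact zero_ne_one hk
  have hE : ∀ i, VEq (gen κ (L i)) (cstC κ (Units.mk0 _ (hj' i)) * gen κ (M i)) := fun i =>
    qeq_gen_of_prp (hM i) (hj' i) fun k => (mul_div_cancel₀ _ (hj' i)).symm
  obtain ⟨P, hP, h⟩ := V5_norm u hu M h1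
  refine ⟨P, hP, fun b => ?_⟩
  have e : ∀ a : ℕ, TT ((∏ i, gen κ (L i) ^ b i) ^ a) =
      TT (cstC κ ((∏ i, Units.mk0 _ (hj' i) ^ b i) ^ a) * (∏ i, gen κ (M i) ^ b i) ^ a) := by
    intro a
    have e' : cstC κ ((∏ i, Units.mk0 _ (hj' i) ^ b i) ^ a) * (∏ i, gen κ (M i) ^ b i) ^ a =
        (∏ i, (cstC κ (Units.mk0 _ (hj' i)) * gen κ (M i)) ^ b i) ^ a := by
      rw [V5_cst_pow, V5_cst_prod, ← mul_pow, ← Finset.prod_mul_distrib]
      simp only [V5_cst_pow, mul_pow]
    rw [e']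
    exact VEq.TT_eq ⟨(VLe.prod _ fun i _ => (hE i).1.pow _).pow a,
      (VLe.prod _ fun i _ => (hE i).2.pow _).pow a⟩
  refine ⟨fun a => ?_, ?_⟩
  · rw [e, finite_TT_cstC_mul]
    exact (h b).1 a
  · refine (h b).2.congr fun a => ?_
    rw [e, finrank_TT_cstC_mul]

end Pool.Agent.E6b

end

section
open scoped NNReal TensorProduct IntermediateField BigOperators Classical Topology
open Filter

namespace Pool.Agent.E6b

theorem V6_deg (p : Polynomial ℝ) (m : ℕ) {C : ℝ}
    (h : ∀ s : ℕ, 0 < s → |p.eval (s : ℝ)| ≤ C * (s : ℝ) ^ m) : p.degree ≤ m := by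
  by_contra hlt
  have h1 : (Polynomial.X ^ m : Polynomial ℝ).degree < p.degree := by
    rw [Polynomial.degree_X_pow]
    exact not_le.1 hlt
  have h2 := (Polynomial.abs_div_tendsto_atTop_atTop_of_degree_gt p _ h1
    (pow_ne_zero m Polynomial.X_ne_zero)).comp tendsto_natCast_atTop_atTop
  obtain ⟨s, hs1, hs2⟩ := ((h2.eventually_gt_atTop C).and (eventually_gt_atTop 0)).exists
  have hs : (0 : ℝ) < (s : ℝ) ^ m := by positivity
  simp only [Function.comp_apply, Polynomial.eval_pow, Polynomial.eval_X, abs_div,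
    abs_of_pos hs] at hs1
  exact absurd ((div_le_iff₀ hs).2 (h s hs2)) (not_le.2 hs1)

theorem V6_supp (P : MvPolynomial (Fin 2) ℝ) {N : ℕ} (hP : P.IsHomogeneous N) (i : Fin 2) (m : ℕ)
    {C : ℝ} (h : ∀ s : ℕ, 0 < s →
      |MvPolynomial.eval (fun j => if j = i then (s : ℝ) else 1) P| ≤ C * (s : ℝ) ^ m)
    {d : Fin 2 →₀ ℕ} (hd : d ∈ P.support) : d i ≤ m := by
  have hdeg : ∀ e ∈ P.support, e 0 + e 1 = N := by
    intro e he
    by_contra hne
    refine MvPolynomial.mem_support_iff.1 he (hP.coeff_eq_zero ?_)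
    rwa [Finsupp.degree_eq_sum, Fin.sum_univ_two]
  have h1 := V6_deg (∑ e ∈ P.support, Polynomial.monomial (e i) (P.coeff e)) m (C := C) (by
    intro s hs
    have h2 := h s hs
    rw [MvPolynomial.eval_eq'] at h2
    rw [Polynomial.eval_finsetSum]
    simpa [ite_pow, Finset.prod_ite_eq'] using h2)
  by_contra hlt
  have h2 := Polynomial.coeff_eq_zero_of_degree_lt (n := d i)
    (lt_of_le_of_lt h1 (by exact_mod_cast not_le.1 hlt))
  rw [Polynomial.finsetSum_coeff, Finset.sum_eq_single d] at h2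
  · rw [Polynomial.coeff_monomial, if_pos rfl] at h2
    exact MvPolynomial.mem_support_iff.1 hd h2
  · intro e he hne
    rw [Polynomial.coeff_monomial, if_neg]
    intro hei
    apply hne
    have h3 := hdeg e he
    have h4 := hdeg d hd
    ext j
    fin_cases i <;> fin_cases j <;> simp at hei ⊢ <;> omega
  · intro h3
    exact absurd hd h3

/-- a homogeneous polynomial in two variables bounded by a monomial on positive integers -/
theorem mono_of_bound (P : MvPolynomial (Fin 2) ℝ) (m n : ℕ) (hP : P.IsHomogeneous (m + n))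
    {C : ℝ} (h : ∀ s t : ℕ, 0 < s → 0 < t →
      |MvPolynomial.eval ![(s : ℝ), (t : ℝ)] P| ≤ C * (s : ℝ) ^ m * (t : ℝ) ^ n) (s t : ℝ) :
    MvPolynomial.eval ![s, t] P = MvPolynomial.eval ![1, 1] P * s ^ m * t ^ n := by
  have h0 : ∀ d ∈ P.support, d 0 ≤ m := fun d hd => V6_supp P hP 0 m (C := C) (by
    intro s hs
    have h1 := h s 1 hs one_pos
    have h2 : (fun j : Fin 2 => if j = 0 then (s : ℝ) else 1) = ![(s : ℝ), ((1 : ℕ) : ℝ)] := by
      ext j
      fin_cases j <;> simp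
    rw [h2]
    simpa using h1) hd
  have h1 : ∀ d ∈ P.support, d 1 ≤ n := fun d hd => V6_supp P hP 1 n (C := C) (by
    intro s hs
    have h1 := h 1 s one_pos hs
    have h2 : (fun j : Fin 2 => if j = 1 then (s : ℝ) else 1) = ![((1 : ℕ) : ℝ), (s : ℝ)] := by
      ext j
      fin_cases j <;> simp
    rw [h2]
    simpa using h1) hd
  rw [MvPolynomial.eval_eq', MvPolynomial.eval_eq', Finset.sum_mul, Finset.sum_mul]
  refine Finset.sum_congr rfl fun d hd => ?_
  have h2 : d 0 + d 1 = m + n := by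
    by_contra hne
    refine MvPolynomial.mem_support_iff.1 hd (hP.coeff_eq_zero ?_)
    rwa [Finsupp.degree_eq_sum, Fin.sum_univ_two]
  have h3 := h0 d hd
  have h4 := h1 d hd
  have h5 : d 0 = m := by omega
  have h6 : d 1 = n := by omega
  simp [Fin.prod_univ_two, h5, h6, mul_assoc]

theorem V6_grid {I : Type} {p q : MvPolynomial I ℝ}
    (h : ∀ b : I → ℕ, MvPolynomial.eval (fun i => (b i : ℝ)) p =
      MvPolynomial.eval (fun i => (b i : ℝ)) q) : p = q := by
  refine MvPolynomial.funext_set (fun _ => Set.range (Nat.cast : ℕ → ℝ))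
    (fun _ => Set.infinite_range_of_injective Nat.cast_injective) fun x hx => ?_
  choose b hb using fun i => hx i (Set.mem_univ i)
  have : x = fun i => (b i : ℝ) := funext fun i => (hb i).symm
  rw [this]
  exact h b

theorem V6_eval_aeval {I K : Type} (g : I → MvPolynomial K ℝ) (x : K → ℝ) (P : MvPolynomial I ℝ) :
    MvPolynomial.eval x (MvPolynomial.aeval g P) =
      MvPolynomial.eval (fun i => MvPolynomial.eval x (g i)) P := by
  induction P using MvPolynomial.induction_on with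
  | C c => simp
  | add p q hp hq => simp only [map_add, hp, hq]
  | mul_X p i hp => simp only [map_mul, hp, MvPolynomial.aeval_X, MvPolynomial.eval_X]

section
variable {κ Ω : Type} [Field κ] [Field Ω] [Algebra κ Ω]

/-- the class `l` has volume `v` in dimension `n` -/
def V6Vol (n : ℕ) (l : VC κ Ω) (v : ℝ) : Prop :=
  (∀ a : ℕ, Module.Finite κ (TT (l ^ a))) ∧
    Tendsto (fun a : ℕ => (Module.finrank κ (TT (l ^ a)) : ℝ) / (a : ℝ) ^ n) atTop (𝓝 v)

theorem V6_core {l m : VC κ Ω} (h : QLe l m) (hm : ∀ a : ℕ, Module.Finite κ (TT (m ^ a))) :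
    ∃ k : ℕ, 0 < k ∧ ∀ a : ℕ,
      Module.finrank κ (TT (l ^ (k * a))) ≤ Module.finrank κ (TT (m ^ (k * a))) := by
  obtain ⟨k, hk, g, hg⟩ := h
  refine ⟨k, hk, fun a => ?_⟩
  have h1 := hg.pow a
  have h2 : cstC κ g ^ a = cstC κ (g ^ a) := rfl
  rw [mul_pow, h2, ← pow_mul, ← pow_mul] at h1
  have := (finite_TT_cstC_mul (g ^ a) (m ^ (k * a))).2 (hm _)
  rw [← finrank_TT_cstC_mul (g ^ a) (m ^ (k * a))]
  exact Submodule.finrank_mono h1.TT_le

theorem V6_tend {k : ℕ} (hk : 0 < k) : Tendsto (fun a : ℕ => k * a) atTop atTop :=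
  tendsto_id.const_mul_atTop' hk

theorem V6_le {n : ℕ} {l m : VC κ Ω} {v w : ℝ} (hl : V6Vol n l v) (hm : V6Vol n m w)
    (h : QLe l m) : v ≤ w := by
  obtain ⟨k, hk, h1⟩ := V6_core h hm.1
  refine le_of_tendsto_of_tendsto' (hl.2.comp (V6_tend hk)) (hm.2.comp (V6_tend hk)) fun a => ?_
  exact div_le_div_of_nonneg_right (by exact_mod_cast h1 a) (by positivity)

theorem V6_eq {n : ℕ} {l m : VC κ Ω} {v w : ℝ} (hl : V6Vol n l v) (hm : V6Vol n m w)
    (h : QEq l m) : v = w :=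
  le_antisymm (V6_le hl hm h.qle) (V6_le hm hl h.symm.qle)

theorem V6_le' {n : ℕ} {l m : VC κ Ω} {v W : ℝ} (hl : V6Vol n l v)
    (hm : ∀ a : ℕ, Module.Finite κ (TT (m ^ a)))
    (hW : ∀ a : ℕ, 0 < a → (Module.finrank κ (TT (m ^ a)) : ℝ) ≤ W * (a : ℝ) ^ n)
    (h : QLe l m) : v ≤ W := by
  obtain ⟨k, hk, h1⟩ := V6_core h hm
  refine le_of_tendsto (hl.2.comp (V6_tend hk)) ?_
  filter_upwards [eventually_gt_atTop 0] with a ha
  have hka : 0 < k * a := Nat.mul_pos hk ha
  refine (div_le_iff₀ (by positivity)).2 (le_trans ?_ (hW _ hka))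
  exact_mod_cast h1 a

theorem V6_nonneg {n : ℕ} {l : VC κ Ω} {v : ℝ} (hl : V6Vol n l v) : 0 ≤ v :=
  ge_of_tendsto' hl.2 fun a => by positivity

theorem V6_qpow {l m : VC κ Ω} (h : QEq l m) (k : ℕ) : QEq (l ^ k) (m ^ k) := by
  simpa only [zpow_natCast] using h.zpow (k : ℤ)

theorem V6_one_mem : (1 : Ω) ∈ TT (1 : VC κ Ω) := by
  intro O
  simp

theorem V6_pow_mem {l : VC κ Ω} {z : Ω} (h : z ∈ TT l) (k : ℕ) : z ^ k ∈ TT (l ^ k) := by
  induction k with
  | zero => simpa using V6_one_mem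
  | succ k ih =>
    rw [pow_succ, pow_succ]
    exact mul_mem_TT ih h

theorem V6_prod_mem {l : VC κ Ω} {I : Type} (S : Finset I) {z : I → Ω} (h : ∀ i, z i ∈ TT l)
    (f : I → ℕ) : ∏ i ∈ S, z i ^ f i ∈ TT (l ^ ∑ i ∈ S, f i) := by
  induction S using Finset.induction_on with
  | empty => simpa using V6_one_mem
  | insert i S hi ih =>
    rw [Finset.prod_insert hi, Finset.sum_insert hi, pow_add]
    exact mul_mem_TT (V6_pow_mem (h i) _) ih

theorem V6_count {J : Type} [Fintype J] (y : J → Ω) {n : ℕ} (j₀ : J) (j : Fin n → J)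
    (h0 : y j₀ ≠ 0) (hi : AlgebraicIndependent κ fun i => y (j i) / y j₀) (a : ℕ)
    [Module.Finite κ (TT (gen κ y ^ a))] :
    (a + n).choose n ≤ Module.finrank κ (TT (gen κ y ^ a)) := by
  have hy : y ≠ 0 := fun h => h0 (congrFun h j₀)
  let S := (Finset.univ : Finset (Fin (n + 1))).finsuppAntidiag a
  have hS : ∀ f : S, f.1 0 + ∑ i : Fin n, f.1 i.succ = a := fun f => by
    rw [← Fin.sum_univ_succ]
    exact (Finset.mem_finsuppAntidiag.1 f.2).1
  have hinj : Function.Injective fun f : S => f.1.tail := by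
    intro f f' h
    have h1 : ∀ i : Fin n, f.1 i.succ = f'.1 i.succ := fun i => DFunLike.congr_fun h i
    have h2 := hS f
    have h3 := hS f'
    rw [Finset.sum_congr rfl fun i _ => h1 i] at h2
    refine Subtype.ext (Finsupp.ext fun i => ?_)
    refine Fin.cases ?_ h1 i
    omega
  let Ψ : MvPolynomial (Fin n) κ →ₗ[κ] Ω := (LinearMap.mulLeft κ (y j₀ ^ a)).comp
    (MvPolynomial.aeval fun i => y (j i) / y j₀).toLinearMap
  have hΨ : LinearMap.ker Ψ = ⊥ := by
    rw [LinearMap.ker_eq_bot']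
    intro p hp
    have h1 : y j₀ ^ a * MvPolynomial.aeval (fun i => y (j i) / y j₀) p = 0 := hp
    exact hi.eq_zero_of_aeval_eq_zero p ((mul_eq_zero.1 h1).resolve_left (pow_ne_zero a h0))
  have hli := (((MvPolynomial.basisMonomials (Fin n) κ).linearIndependent).comp _ hinj).map' Ψ hΨ
  have hmem : ∀ f : S, Ψ (MvPolynomial.monomial f.1.tail 1) ∈ TT (gen κ y ^ a) := by
    intro f
    have h1 := mul_mem_TT (V6_pow_mem (mem_TT_gen (κ := κ) hy j₀) (f.1 0))
      (V6_prod_mem Finset.univ (fun i => mem_TT_gen (κ := κ) hy (j i)) fun i => f.1 i.succ)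
    rw [← pow_add, hS f] at h1
    have h2 : Ψ (MvPolynomial.monomial f.1.tail 1) =
        y j₀ ^ f.1 0 * ∏ i : Fin n, y (j i) ^ f.1 i.succ := by
      change y j₀ ^ a * MvPolynomial.aeval (fun i => y (j i) / y j₀)
        (MvPolynomial.monomial f.1.tail 1) = _
      rw [MvPolynomial.aeval_monomial, map_one, one_mul, Finsupp.prod_fintype _ _ (by simp)]
      simp only [Finsupp.tail_apply, div_pow, Finset.prod_div_distrib, Finset.prod_pow_eq_pow_sum]
      conv_lhs => rw [← hS f, pow_add]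
      field_simp
    rw [h2]
    exact h1
  have hli' : LinearIndependent κ fun f : S => (⟨_, hmem f⟩ : TT (gen κ y ^ a)) := by
    refine LinearIndependent.of_comp (TT (gen κ y ^ a)).subtype ?_
    simpa [Function.comp_def] using hli
  have h1 := hli'.fintype_card_le_finrank
  rw [Fintype.card_coe, Finset.card_finsuppAntidiag_nat_eq_choose, Finset.card_univ,
    Fintype.card_fin] at h1
  rw [← Nat.choose_symm_add]
  convert h1 using 2
  omega

theorem V6_lower {J : Type} [Fintype J] (y : J → Ω) {n : ℕ} (j₀ : J) (j : Fin n → J)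
    (h0 : y j₀ ≠ 0) (hi : AlgebraicIndependent κ fun i => y (j i) / y j₀) {v : ℝ}
    (hv : V6Vol n (gen κ y) v) : 1 / (n.factorial : ℝ) ≤ v := by
  refine ge_of_tendsto hv.2 ?_
  filter_upwards [eventually_gt_atTop 0] with a ha
  have := hv.1 a
  have h1 : ((a + n).choose n : ℝ) ≤ Module.finrank κ (TT (gen κ y ^ a)) := by
    exact_mod_cast V6_count y j₀ j h0 hi a
  have h2 := Nat.pow_le_choose (α := ℝ) n (a + n)
  have h3 : (a : ℝ) ^ n ≤ ((a + n + 1 - n : ℕ) : ℝ) ^ n := by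
    refine pow_le_pow_left₀ (by positivity) ?_ n
    exact_mod_cast (by omega : a ≤ a + n + 1 - n)
  rw [le_div_iff₀ (by positivity), one_div, ← div_eq_inv_mul]
  exact le_trans (div_le_div_of_nonneg_right h3 (by positivity)) (h2.trans h1)

theorem V6_box {r₁ r₂ : ℕ} (u : Fin r₁ ⊕ Fin r₂ → Ω) (hu : AlgebraicIndependent κ u)
    [FiniteDimensional (IntermediateField.adjoin κ (Set.range u)) Ω] (c A B : ℕ) (hA : 0 < A)
    (hB : 0 < B) {l : VC κ Ω} {v : ℝ} (hl : V6Vol (r₁ + r₂) l v)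
    (h : QLe l ((∏ k, pen κ (u (.inl k))) ^ (c * A) * (∏ k, pen κ (u (.inr k))) ^ (c * B))) :
    v ≤ Module.finrank (IntermediateField.adjoin κ (Set.range u)) Ω * ((c : ℝ) + 1) ^ (r₁ + r₂) *
      (A : ℝ) ^ r₁ * (B : ℝ) ^ r₂ := by
  have h1 : ∀ a : ℕ,
      ((∏ k, pen κ (u (.inl k))) ^ (c * A) * (∏ k, pen κ (u (.inr k))) ^ (c * B)) ^ a =
      ∏ k, pen κ (u k) ^ (Sum.elim (fun _ => c * A * a) (fun _ => c * B * a) k : ℕ) := by
    intro a
    rw [Fintype.prod_sum_type, mul_pow, ← pow_mul, ← pow_mul, ← Finset.prod_pow, ← Finset.prod_pow]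
    rfl
  refine V6_le' hl (fun a => ?_) (fun a ha => ?_) h
  · rw [h1]
    exact (ub u hu _).1
  · rw [h1]
    have h2 := (ub u hu (Sum.elim (fun _ => c * A * a) (fun _ => c * B * a))).2
    rw [Fintype.prod_sum_type (fun k => Sum.elim (fun _ => c * A * a) (fun _ => c * B * a) k + 1)]
      at h2
    simp only [Sum.elim_inl, Sum.elim_inr, Finset.prod_const, Finset.card_univ,
      Fintype.card_fin] at h2
    have h3 : c * A * a + 1 ≤ (c + 1) * A * a := by
      have := Nat.mul_pos hA ha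
      nlinarith
    have h4 : c * B * a + 1 ≤ (c + 1) * B * a := by
      have := Nat.mul_pos hB ha
      nlinarith
    have h5 := h2.trans (Nat.mul_le_mul_left _
      (Nat.mul_le_mul (Nat.pow_le_pow_left h3 r₁) (Nat.pow_le_pow_left h4 r₂)))
    refine le_trans (Nat.cast_le.2 h5) (le_of_eq ?_)
    push_cast
    simp only [mul_pow, pow_add]
    ring

end
variable {κ Ω : Type} [Field κ] [CharZero κ] [Field Ω] [Algebra κ Ω]

theorem V6_vol {σ : Type} [Fintype σ] (u : σ → Ω) (hu : AlgebraicIndependent κ u)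
    [FiniteDimensional (IntermediateField.adjoin κ (Set.range u)) Ω]
    {J : Type} [Fintype J] (x₁ x₂ xp : J → Ω) (h₁ : x₁ ≠ 0) (h₂ : x₂ ≠ 0) (hp : xp ≠ 0) :
    ∃ P₀ : MvPolynomial (Fin 3) ℝ, P₀.IsHomogeneous (Fintype.card σ) ∧
      ∀ (x : J → Ω) (α β γ : ℕ), x ≠ 0 →
        QEq (gen κ x * gen κ xp ^ γ) (gen κ x₁ ^ α * gen κ x₂ ^ β) →
        V6Vol (Fintype.card σ) (gen κ x)
          (MvPolynomial.eval ![(α : ℝ), (β : ℝ), -(γ : ℝ)] P₀) := by
  obtain ⟨P₀, hP₀, hv₀⟩ := exists_vol (κ := κ) u hu (I := Fin 3) (ι := fun _ => J) ![x₁, x₂, xp]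
    (by intro i; fin_cases i <;> simpa)
  refine ⟨P₀, hP₀, fun x α β γ hx hq => ?_⟩
  obtain ⟨P, -, hv⟩ := exists_vol (κ := κ) u hu (I := Fin 4) (ι := fun _ => J) ![x, x₁, x₂, xp]
    (by intro i; fin_cases i <;> simpa)
  have hid : MvPolynomial.aeval (![.X 0, .X 1, .X 2, .X 3 + .X 0 * .C (γ : ℝ)] :
        Fin 4 → MvPolynomial (Fin 4) ℝ) P =
      MvPolynomial.aeval (![.X 1 + .X 0 * .C (α : ℝ), .X 2 + .X 0 * .C (β : ℝ), .X 3] :
        Fin 3 → MvPolynomial (Fin 4) ℝ) P₀ := by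
    refine V6_grid fun b => ?_
    rw [V6_eval_aeval, V6_eval_aeval]
    have h3 := V6_eq (n := Fintype.card σ) (hv ![b 0, b 1, b 2, b 3 + b 0 * γ])
      (hv₀ ![b 1 + b 0 * α, b 2 + b 0 * β, b 3]) (by
        have h4 := (V6_qpow hq (b 0)).mul
          (QEq.refl (gen κ x₁ ^ b 1 * gen κ x₂ ^ b 2 * gen κ xp ^ b 3))
        convert h4 using 1
        · simp only [Fin.prod_univ_four, Matrix.cons_val_zero, Matrix.cons_val_one,
            Matrix.cons_val, pow_add, mul_pow, pow_mul']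
          simp only [mul_assoc, mul_comm, mul_left_comm]
        · simp only [Fin.prod_univ_three, Matrix.cons_val_zero, Matrix.cons_val_one,
            Matrix.cons_val, pow_add, mul_pow, pow_mul']
          simp only [mul_assoc, mul_comm, mul_left_comm])
    convert h3 using 3
    · funext i
      fin_cases i <;> simp
    · funext i
      fin_cases i <;> simp
  have h5 := congrArg (MvPolynomial.eval ![(1 : ℝ), 0, 0, -(γ : ℝ)]) hid
  rw [V6_eval_aeval, V6_eval_aeval] at h5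
  have h6 := hv ![1, 0, 0, 0]
  have h7 : ∏ i : Fin 4, gen κ ((![x, x₁, x₂, xp] : Fin 4 → J → Ω) i) ^
      (![1, 0, 0, 0] : Fin 4 → ℕ) i = gen κ x := by
    simp [Fin.prod_univ_four]
  rw [h7] at h6
  have h8 : MvPolynomial.eval ![(α : ℝ), (β : ℝ), -(γ : ℝ)] P₀ =
      MvPolynomial.eval (fun i => (((![1, 0, 0, 0] : Fin 4 → ℕ) i : ℕ) : ℝ)) P := by
    convert h5.symm using 3
    · funext i
      fin_cases i <;> simp
    · funext i
      fin_cases i <;> simp
  rw [h8]
  exact h6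

/-- the volume of `x s t` is the monomial `vol(x 1 1) s^(2 r₁) t^(2 r₂)` -/
theorem vol_lower {r₁ r₂ : ℕ} (u : Fin r₁ ⊕ Fin r₂ → Ω) (hu : AlgebraicIndependent κ u)
    [FiniteDimensional (IntermediateField.adjoin κ (Set.range u)) Ω]
    {J : Type} [Fintype J] (x₁ x₂ xp : J → Ω) (h₁ : x₁ ≠ 0) (h₂ : x₂ ≠ 0) (hp : xp ≠ 0)
    (x : ℕ → ℕ → J → Ω) (hx : ∀ s t, x s t ≠ 0)
    (hq : ∀ s t : ℕ, 0 < s → 0 < t → QEq (gen κ (x s t) * gen κ xp ^ (s * t))
      (gen κ x₁ ^ (s ^ 2 + s * t) * gen κ x₂ ^ (t ^ 2 + s * t)))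
    (c : ℕ) (hb : ∀ s t : ℕ, 0 < s → 0 < t → QLe (gen κ (x s t))
      ((∏ k, pen κ (u (.inl k))) ^ (c * s ^ 2) * (∏ k, pen κ (u (.inr k))) ^ (c * t ^ 2)))
    (hpos : ∃ (j₀ : J) (j : Fin (r₁ + r₂) → J), x 1 1 j₀ ≠ 0 ∧
      AlgebraicIndependent κ fun i => x 1 1 (j i) / x 1 1 j₀)
    (s t : ℕ) (hs : 0 < s) (ht : 0 < t) :
    ∀ᶠ a : ℕ in atTop, (s : ℝ) ^ (2 * r₁) * (t : ℝ) ^ (2 * r₂) * (a : ℝ) ^ (r₁ + r₂) /
      (2 * (r₁ + r₂).factorial) ≤ Module.finrank κ (TT (gen κ (x s t) ^ a)) := by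
  obtain ⟨P₀, hP₀, hv₀⟩ := V6_vol u hu x₁ x₂ xp h₁ h₂ hp
  have hc : Fintype.card (Fin r₁ ⊕ Fin r₂) = r₁ + r₂ := by simp
  rw [hc] at hP₀ hv₀
  let g : Fin 3 → MvPolynomial (Fin 2) ℝ :=
    ![.X 0 * .X 0 + .X 0 * .X 1, .X 1 * .X 1 + .X 0 * .X 1, -(.X 0 * .X 1)]
  have hXX : ∀ i j : Fin 2, (.X i * .X j : MvPolynomial (Fin 2) ℝ).IsHomogeneous 2 := fun i j =>
    (MvPolynomial.isHomogeneous_X ℝ i).mul (MvPolynomial.isHomogeneous_X ℝ j)
  have hg : ∀ i, (g i).IsHomogeneous 2 := by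
    intro i
    fin_cases i
    · exact (hXX 0 0).add (hXX 0 1)
    · exact (hXX 1 1).add (hXX 0 1)
    · exact (hXX 0 1).neg
  have hΦ := hP₀.aeval g hg
  rw [mul_add] at hΦ
  have hvol : ∀ s t : ℕ, 0 < s → 0 < t → V6Vol (r₁ + r₂) (gen κ (x s t))
      (MvPolynomial.eval ![(s : ℝ), (t : ℝ)] (MvPolynomial.aeval g P₀)) := by
    intro s t hs ht
    rw [V6_eval_aeval]
    convert hv₀ (x s t) _ _ _ (hx s t) (hq s t hs ht) using 3
    funext i
    fin_cases i <;> simp [g, sq]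
  have hmono := mono_of_bound _ _ _ hΦ (C := Module.finrank
      (IntermediateField.adjoin κ (Set.range u)) Ω * ((c : ℝ) + 1) ^ (r₁ + r₂)) (by
    intro s t hs ht
    rw [abs_of_nonneg (V6_nonneg (hvol s t hs ht)), pow_mul, pow_mul]
    have := V6_box u hu c (s ^ 2) (t ^ 2) (by positivity) (by positivity) (hvol s t hs ht)
      (hb s t hs ht)
    rwa [Nat.cast_pow, Nat.cast_pow] at this) s t
  obtain ⟨j₀, j, h0, hi⟩ := hpos
  have hlow := V6_lower (x 1 1) j₀ j h0 hi (hvol 1 1 one_pos one_pos)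
  rw [Nat.cast_one] at hlow
  have hf : (0 : ℝ) < (r₁ + r₂).factorial := by exact_mod_cast Nat.factorial_pos _
  have hK : (0 : ℝ) < (s : ℝ) ^ (2 * r₁) * (t : ℝ) ^ (2 * r₂) := by positivity
  have hlt : (s : ℝ) ^ (2 * r₁) * (t : ℝ) ^ (2 * r₂) / (2 * (r₁ + r₂).factorial) <
      MvPolynomial.eval ![(s : ℝ), (t : ℝ)] (MvPolynomial.aeval g P₀) := by
    rw [hmono, mul_assoc]
    refine lt_of_lt_of_le ?_ (mul_le_mul_of_nonneg_right hlow hK.le)
    rw [one_div, ← div_eq_inv_mul]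
    exact div_lt_div_of_pos_left hK hf (by linarith)
  filter_upwards [(hvol s t hs ht).2.eventually (lt_mem_nhds hlt), eventually_gt_atTop 0]
    with a ha ha0
  rw [lt_div_iff₀ (by positivity)] at ha
  rw [mul_div_right_comm]
  exact ha.le

end Pool.Agent.E6b

end

section
open scoped NNReal TensorProduct IntermediateField BigOperators Classical Topology
open Filter

namespace Pool.Agent.E6b

theorem V7_prod_bound (r₁ r₂ c s t a : ℕ) (hs : 0 < s) (ht : 0 < t) (ha : 0 < a) (k₀ : Fin r₁) :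
    a * s ^ 2 * ∏ k ∈ Finset.univ.erase (Sum.inl k₀ : Fin r₁ ⊕ Fin r₂),
      (Sum.elim (fun _ => c * s ^ 2 * a) (fun _ => c * t ^ 2 * a) k + 1) ≤
      (c + 1) ^ (r₁ + r₂) * (s ^ (2 * r₁) * t ^ (2 * r₂) * a ^ (r₁ + r₂)) := by
  set w : Fin r₁ ⊕ Fin r₂ → ℕ := Sum.elim (fun _ => (c + 1) * a * s ^ 2)
    (fun _ => (c + 1) * a * t ^ 2) with hw
  have h1 : ∏ k ∈ Finset.univ.erase (Sum.inl k₀ : Fin r₁ ⊕ Fin r₂),
      (Sum.elim (fun _ => c * s ^ 2 * a) (fun _ => c * t ^ 2 * a) k + 1) ≤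
      ∏ k ∈ Finset.univ.erase (Sum.inl k₀ : Fin r₁ ⊕ Fin r₂), w k := by
    apply Finset.prod_le_prod'
    intro k _
    have hs2 : 0 < a * s ^ 2 := by positivity
    have ht2 : 0 < a * t ^ 2 := by positivity
    rcases k with k | k
    · simp only [hw, Sum.elim_inl]; nlinarith
    · simp only [hw, Sum.elim_inr]; nlinarith
  have h2 : w (Sum.inl k₀) * ∏ k ∈ Finset.univ.erase (Sum.inl k₀ : Fin r₁ ⊕ Fin r₂), w k =
      ∏ k, w k := Finset.mul_prod_erase _ _ (Finset.mem_univ _)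
  have h3 : ∏ k, w k = (c + 1) ^ (r₁ + r₂) * (s ^ (2 * r₁) * t ^ (2 * r₂) * a ^ (r₁ + r₂)) := by
    rw [Fintype.prod_sum_type]
    simp only [hw, Sum.elim_inl, Sum.elim_inr, Finset.prod_const, Finset.card_univ,
      Fintype.card_fin, mul_pow, pow_add, ← pow_mul]
    ring
  have h4 : a * s ^ 2 ≤ w (Sum.inl k₀) := by
    simp only [hw, Sum.elim_inl]
    have : 0 ≤ c * (a * s ^ 2) := Nat.zero_le _
    nlinarith
  rw [← h3, ← h2]
  exact Nat.mul_le_mul h4 h1

theorem V7_cstC_pow {κ Ω : Type} [Field κ] [Field Ω] [Algebra κ Ω] (g : Ωˣ) (m : ℕ) :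
    (cstC κ g : VC κ Ω) ^ m = cstC κ (g ^ m) := by
  funext O; simp [cstC]

theorem V7_vle {κ Ω : Type} [Field κ] [Field Ω] [Algebra κ Ω] {r₁ r₂ : ℕ}
    (u : Fin r₁ ⊕ Fin r₂ → Ω) (l : VC κ Ω) (p q k m : ℕ) (g : Ωˣ)
    (h : VLe (l ^ k) (cstC κ g *
      ((∏ i, pen κ (u (.inl i))) ^ p * (∏ i, pen κ (u (.inr i))) ^ q) ^ k)) :
    VLe (l ^ (k * m)) (cstC κ (g ^ m) * ∏ i, pen κ (u i) ^
      (Sum.elim (fun _ => p * (k * m)) (fun _ => q * (k * m)) i : ℕ)) := by
  have h1 := h.pow m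
  rw [← pow_mul, mul_pow, V7_cstC_pow, ← pow_mul] at h1
  convert h1 using 2
  rw [Fintype.prod_sum_type]
  simp only [Sum.elim_inl, Sum.elim_inr]
  rw [Finset.prod_pow, Finset.prod_pow, mul_pow, ← pow_mul, ← pow_mul]

theorem V7_vle_mul_inv {κ Ω : Type} [Field κ] [Field Ω] [Algebra κ Ω] (l : VC κ Ω) (t : Ω)
    (b : ℕ) : VLe (l * (pen κ t ^ b)⁻¹) l := by
  have h1 : VLe (1 : VC κ Ω) (pen κ t) := one_vle_gen (j := 0) rfl
  have h2 := (h1.pow b).inv
  rw [one_pow, inv_one] at h2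
  have h3 := (VLe.refl l).mul h2
  rwa [mul_one] at h3

/-- Main dimension count. -/
theorem vol_main (r₁ r₂ e c : ℕ) : ∃ E : ℕ, 0 < E ∧
    ∀ {κ Ω : Type} [Field κ] [CharZero κ] [Field Ω] [Algebra κ Ω]
      (u : Fin r₁ ⊕ Fin r₂ → Ω), AlgebraicIndependent κ u →
      ∀ [FiniteDimensional (IntermediateField.adjoin κ (Set.range u)) Ω],
      Module.finrank (IntermediateField.adjoin κ (Set.range u)) Ω ≤ e →
      ∀ {J : Type} [Fintype J] (x₁ x₂ xp : J → Ω), x₁ ≠ 0 → x₂ ≠ 0 → xp ≠ 0 →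
      ∀ (x : ℕ → ℕ → J → Ω), (∀ s t, x s t ≠ 0) →
      (∀ s t : ℕ, 0 < s → 0 < t → QEq (gen κ (x s t) * gen κ xp ^ (s * t))
        (gen κ x₁ ^ (s ^ 2 + s * t) * gen κ x₂ ^ (t ^ 2 + s * t))) →
      (∀ s t : ℕ, 0 < s → 0 < t → QLe (gen κ (x s t))
        ((∏ k, pen κ (u (.inl k))) ^ (c * s ^ 2) * (∏ k, pen κ (u (.inr k))) ^ (c * t ^ 2))) →
      (∃ (j₀ : J) (j : Fin (r₁ + r₂) → J), x 1 1 j₀ ≠ 0 ∧
        AlgebraicIndependent κ fun i => x 1 1 (j i) / x 1 1 j₀) →
      ∀ (k₀ : Fin r₁) (s t : ℕ), 0 < s → 0 < t → ∃ k : ℕ, 0 < k ∧ ∀ᶠ D : ℕ in atTop,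
        Module.Finite κ
          (TT (gen κ (x s t) ^ (k * D * E) * (pen κ (u (.inl k₀)) ^ (k * D * s ^ 2))⁻¹)) ∧
        (s : ℝ) ^ (2 * r₁) * (t : ℝ) ^ (2 * r₂) * ((k * D * E : ℕ) : ℝ) ^ (r₁ + r₂) /
          (4 * (r₁ + r₂).factorial) ≤ Module.finrank κ
            (TT (gen κ (x s t) ^ (k * D * E) * (pen κ (u (.inl k₀)) ^ (k * D * s ^ 2))⁻¹)) := by
  set E : ℕ := 4 * (r₁ + r₂).factorial * (e + 1) * (c + 1) ^ (r₁ + r₂) + 1 with hE
  have hE0 : 0 < E := Nat.succ_pos _
  refine ⟨E, hE0, ?_⟩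
  intro κ Ω _ _ _ _ u hu _ he J _ x₁ x₂ xp h₁ h₂ hp x hx hq hb hpos k₀ s t hs ht
  obtain ⟨k, hk, g, hg⟩ := hb s t hs ht
  refine ⟨k, hk, ?_⟩
  have hlow := vol_lower u hu x₁ x₂ xp h₁ h₂ hp x hx hq c hb hpos s t hs ht
  have htend : Tendsto (fun D : ℕ => k * D * E) atTop atTop := by
    refine tendsto_atTop_mono (fun D => ?_) tendsto_id
    have : 1 * D * 1 ≤ k * D * E := Nat.mul_le_mul (Nat.mul_le_mul_right _ hk) hE0
    simpa using this
  filter_upwards [htend.eventually hlow, eventually_gt_atTop 0] with D hD hD0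
  set a : ℕ := k * D * E with ha
  have ha0 : 0 < a := by positivity
  have hv := V7_vle u (gen κ (x s t)) (c * s ^ 2) (c * t ^ 2) k (D * E) g hg
  rw [← mul_assoc k D E, ← ha] at hv
  have hfin0 := (ub u hu (Sum.elim (fun _ => c * s ^ 2 * a) (fun _ => c * t ^ 2 * a))).1
  have hfin1 := (finite_TT_cstC_mul (g ^ (D * E)) _).2 hfin0
  have hfin : Module.Finite κ (TT (gen κ (x s t) ^ a)) :=
    Submodule.finiteDimensional_of_le hv.TT_le
  obtain ⟨hres, hres'⟩ := ub_res u hu _ (Sum.inl k₀) _ hv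
  have hsub := pencil_sub (u (.inl k₀)) (gen κ (x s t) ^ a) (k * D * s ^ 2)
  refine ⟨Submodule.finiteDimensional_of_le (V7_vle_mul_inv _ _ _).TT_le, ?_⟩
  have hpb := V7_prod_bound r₁ r₂ c s t a hs ht ha0 k₀
  set R : ℕ := ∏ k ∈ Finset.univ.erase (Sum.inl k₀ : Fin r₁ ⊕ Fin r₂),
      (Sum.elim (fun _ => c * s ^ 2 * a) (fun _ => c * t ^ 2 * a) k + 1) with hR
  set M : ℕ := s ^ (2 * r₁) * t ^ (2 * r₂) * a ^ (r₁ + r₂) with hM
  set F : ℕ := (r₁ + r₂).factorial with hF
  set ρ : ℕ := Module.finrank κ⟮u (.inl k₀)⟯ (TT (resC κ⟮u (.inl k₀)⟯ (gen κ (x s t) ^ a)))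
    with hρ
  have hρ1 : ρ ≤ e * R := by
    refine hres'.trans (Nat.mul_le_mul he (le_of_eq ?_))
    rw [hR]
    exact Finset.prod_congr (Finset.ext fun _ => by simp only [Finset.mem_erase]) fun _ _ => rfl
  have key : 4 * F * (k * D * s ^ 2 * ρ) ≤ M := by
    refine Nat.le_of_mul_le_mul_left ?_ hE0
    calc E * (4 * F * (k * D * s ^ 2 * ρ)) = 4 * F * (a * s ^ 2 * ρ) := by rw [ha]; ring
      _ ≤ 4 * F * (a * s ^ 2 * (e * R)) := by gcongr
      _ = 4 * F * e * (a * s ^ 2 * R) := by ring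
      _ ≤ 4 * F * e * ((c + 1) ^ (r₁ + r₂) * M) := by gcongr
      _ = (4 * F * e * (c + 1) ^ (r₁ + r₂)) * M := by ring
      _ ≤ E * M := by
        apply Nat.mul_le_mul_right
        rw [hE]
        have : 4 * F * e * (c + 1) ^ (r₁ + r₂) ≤ 4 * F * (e + 1) * (c + 1) ^ (r₁ + r₂) := by
          gcongr; omega
        omega
  have hF0 : (0 : ℝ) < F := by exact_mod_cast Nat.factorial_pos _
  have hMc : (s : ℝ) ^ (2 * r₁) * (t : ℝ) ^ (2 * r₂) * (a : ℝ) ^ (r₁ + r₂) = (M : ℝ) := by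
    rw [hM]; push_cast; ring
  rw [hMc] at hD ⊢
  have key' : 4 * (F : ℝ) * ((k * D * s ^ 2 * ρ : ℕ) : ℝ) ≤ M := by exact_mod_cast key
  have hsub' : (Module.finrank κ (TT (gen κ (x s t) ^ a)) : ℝ) ≤
      Module.finrank κ (TT (gen κ (x s t) ^ a * (pen κ (u (.inl k₀)) ^ (k * D * s ^ 2))⁻¹)) +
        ((k * D * s ^ 2 * ρ : ℕ) : ℝ) := by exact_mod_cast hsub
  rw [div_le_iff₀ (by positivity)] at hD ⊢
  nlinarith

end Pool.Agent.E6b

end
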