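import Pool.Agent.E6c.A04
import Pool.Agent.E6c.A05
import Pool.Agent.E6c.A07

section
open scoped NNReal TensorProduct IntermediateField BigOperators Classical Topology
open Filter

namespace Pool.Agent.E6b
variable {κ F : Type} [Field κ] [IsAlgClosed κ] [CharZero κ] [Field F] [Algebra κ F] [IsFF κ F]

theorem exists_pole {t : F} (ht : t ∉ (algebraMap κ F).range) : ∃ P : Place κ F, P.ord t < 0 :=
  F1a_exists_pole ht

end Pool.Agent.E6b

end

section
open scoped NNReal TensorProduct IntermediateField BigOperators Classical Topology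
open Filter

namespace Pool.Agent.E6b
variable {κ F : Type} [Field κ] [IsAlgClosed κ] [CharZero κ] [Field F] [Algebra κ F] [IsFF κ F]

theorem deg_dinf {t : F} (ht : t ∉ (algebraMap κ F).range) :
    deg (dinf κ t) = Module.finrank κ⟮t⟯ F := F2_deg_dinf ht

theorem two_le_ell_iff {D : Dv κ F} (h : 0 ≤ D) :
    2 ≤ ell D ↔ ∃ f ∈ LL D, f ∉ (algebraMap κ F).range := by
  have hle := LL_mono h
  have h0 : Module.finrank κ (LL (0 : Dv κ F)) = 1 := ell_zero
  constructor
  · intro h2
    have h1 : LL 0 < LL D := lt_of_le_of_ne hle fun h1 => by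
      unfold ell at h2
      rw [← h1, h0] at h2
      omega
    obtain ⟨f, hf, hf'⟩ := SetLike.exists_of_lt h1
    exact ⟨f, hf, fun h3 => hf' (F2_mem_LL_zero.2 h3)⟩
  · rintro ⟨f, hf, hf'⟩
    have h1 := Submodule.finrank_lt_finrank_of_lt (lt_of_le_of_ne hle fun h1 =>
      hf' (F2_mem_LL_zero.1 (h1 ▸ hf)))
    rw [h0] at h1
    exact h1

theorem BPF.exists_avoid {D : Dv κ F} (h : BPF D) (T : Finset (Place κ F)) :
    ∃ f ∈ LL D, f ≠ 0 ∧ ∀ P ∈ T, P.ord f = - D P := by
  obtain ⟨P0⟩ : Nonempty (Place κ F) := inferInstance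
  have h1 : ⊤ ∉ (insert P0 T).image fun P => (LL (D - pd P)).comap (LL D).subtype := by
    intro h1
    obtain ⟨P, -, hP⟩ := Finset.mem_image.1 h1
    obtain ⟨f, hf0, hf, hfP⟩ := h P
    have hf' : f ∈ LL D := mem_LL.2 (Or.inr hf)
    have h2 : (⟨f, hf'⟩ : LL D) ∈ (LL (D - pd P)).comap (LL D).subtype := hP ▸ Submodule.mem_top
    exact (F2_notMem_sub_pd hf').2 ⟨hf0, hfP⟩ h2
  obtain ⟨f, hf⟩ := (Set.ne_univ_iff_exists_notMem _).1
    (Subspace.biUnion_ne_univ_of_top_notMem h1)
  have h2 : ∀ P ∈ insert P0 T, (f : F) ≠ 0 ∧ P.ord (f : F) = - D P := fun P hP =>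
    (F2_notMem_sub_pd f.2).1 fun h2 => hf (Set.mem_biUnion
      (Finset.mem_coe.2 (Finset.mem_image_of_mem _ hP)) h2)
  exact ⟨f, f.2, (h2 P0 (Finset.mem_insert_self _ _)).1,
    fun P hP => (h2 P (Finset.mem_insert_of_mem hP)).2⟩

theorem BPF.exists_dinf {D : Dv κ F} (h : BPF D) :
    ∃ φ : F, φ ≠ 0 ∧ LinEq D (dinf κ φ) := by
  obtain ⟨f, hf, hf0, -⟩ := h.exists_avoid ∅
  obtain ⟨g, hg, hg0, hg'⟩ := h.exists_avoid (D + dv κ f).support
  refine ⟨g / f, div_ne_zero hg0 hf0, f, hf0, ?_⟩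
  ext P
  have h1 := (mem_LL.1 hf).resolve_left hf0 P
  have h2 := (mem_LL.1 hg).resolve_left hg0 P
  have h3 := hg' P
  rw [Finsupp.mem_support_iff, Finsupp.add_apply, dv_apply] at h3
  rw [dinf_apply, P.ord_div hg0 hf0, Finsupp.add_apply, dv_apply]
  by_cases h4 : D P + P.ord f = 0
  · omega
  · have h5 := h3 h4
    omega

end Pool.Agent.E6b

end

section
open scoped NNReal TensorProduct IntermediateField BigOperators Classical Topology
open Filter

namespace Pool.Agent.E6b
open Polynomial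
variable {κ F : Type} [Field κ] [IsAlgClosed κ] [CharZero κ] [Field F] [Algebra κ F] [IsFF κ F]

theorem F3_adjoin_le (P : Place κ F) {S : Set F} (h : ∀ x ∈ S, x ∈ P.O) :
    ∀ x ∈ Algebra.adjoin κ S, x ∈ P.O := by
  intro x hx
  induction hx using Algebra.adjoin_induction with
  | mem x hx => exact h x hx
  | algebraMap c => exact P.const c
  | add x y _ _ hx hy => exact add_mem hx hy
  | mul x y _ _ hx hy => exact mul_mem hx hy

theorem F3_unram {t y : F} (ht : t ∉ (algebraMap κ F).range) (hy : κ⟮t⟯⟮y⟯ = ⊤)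
    {A : Subalgebra κ F} (hA : A ≤ Algebra.adjoin κ {t})
    (M : A[X]) (hM : aeval y M = 0) (hM' : aeval y (derivative M) ≠ 0)
    (P : Place κ F) (h1 : t ∈ P.O) (h2 : y ∈ P.O) (h3 : P.ord (aeval y (derivative M)) = 0) :
    P.ord (t - algebraMap κ F (P.ev t)) = 1 := by
  set s := t - algebraMap κ F (P.ev t) with hsd
  set u := algebraMap κ F (P.ev y) - y with hud
  have hs0 : s ≠ 0 := fun h => ht ⟨_, (sub_eq_zero.1 h).symm⟩
  have hpos : 0 < P.ord s := (P.ev_spec h1).resolve_left fun h => ht ⟨_, h.symm⟩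
  have hu : F3ge P 1 u := by
    have : F3ge P 1 (y - algebraMap κ F (P.ev y)) :=
      (P.ev_spec h2).imp (fun h => sub_eq_zero.2 h) id
    simpa using this.neg
  set O := Algebra.adjoin κ {t, y} with hO
  have hAO : A ≤ O := hA.trans (Algebra.adjoin_mono (by simp))
  have htO : t ∈ O := Algebra.subset_adjoin (by simp)
  have hyO : y ∈ O := Algebra.subset_adjoin (by simp)
  have huO : u ∈ O := sub_mem (O.algebraMap_mem _) hyO
  have hOP : ∀ x ∈ O, x ∈ P.O := F3_adjoin_le P (by rintro x (rfl | rfl) <;> assumption)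
  obtain ⟨hdO, k, hk, hexp⟩ := F3_taylor hAO M hyO huO
  set d := aeval y (derivative M) with hd
  set N := d + k * u with hN
  have hku : F3ge P 1 (k * u) := by
    have h0 : F3ge P 0 k := Or.inr (P.mem_iff.1 (hOP k hk))
    simpa using h0.mul hu
  have hNo : N ≠ 0 ∧ P.ord N = P.ord d := P.ord_add_eq hM' (hku.imp id fun h => by omega)
  rw [h3] at hNo
  have hNO : N ∈ O := add_mem hdO (mul_mem hk huO)
  have huN : u * N ∈ A := by
    have e1 : u * N = aeval (algebraMap A F (algebraMap κ A (P.ev y))) M := by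
      rw [← IsScalarTower.algebraMap_apply, show algebraMap κ F (P.ev y) = y + u by simp [hud],
        hexp, hM, hN]
      ring
    rw [e1, aeval_algebraMap_apply_eq_algebraMap_eval]
    exact Subtype.mem _
  set R := Algebra.adjoin κ {t, y, N⁻¹} with hR
  have hOR : O ≤ R := Algebra.adjoin_mono (by intro x hx; rcases hx with rfl | rfl <;> simp)
  have hNR : N⁻¹ ∈ R := Algebra.subset_adjoin (by simp)
  have hsR : s ∈ R := sub_mem (hOR htO) (R.algebraMap_mem _)
  have hRP : ∀ x ∈ R, x ∈ P.O := F3_adjoin_le P (by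
    rintro x (rfl | rfl | rfl)
    · assumption
    · assumption
    · rw [P.mem_iff, P.ord_inv, hNo.2]; simp)
  have hsz : ∀ z ∈ R, F3ge P 1 (s * z) := by
    intro z hz
    have h0 : F3ge P 0 z := Or.inr (P.mem_iff.1 (hRP z hz))
    have h1 : F3ge P 1 s := Or.inr hpos
    simpa using h1.mul h0
  have htT : t ∈ F3T R hsR := ⟨P.ev t, 1, one_mem _, by simp [hsd]⟩
  have hAT : A ≤ F3T R hsR := hA.trans (Algebra.adjoin_le (by rintro x rfl; exact htT))
  have hyT : y ∈ F3T R hsR := by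
    obtain ⟨c, z, hz, e⟩ := (F3_mem_T hsR).1 (hAT huN)
    have hc : c = 0 := by
      by_contra hc
      have h4 : F3ge P 1 (u * N) := by
        have h0 : F3ge P 0 N := Or.inr hNo.2.ge
        simpa using hu.mul h0
      have h5 : F3ge P 1 (algebraMap κ F c) := by
        have := h4.add (hsz z hz).neg
        rwa [e, add_neg_cancel_right] at this
      rcases h5 with h5 | h5
      · exact hc (by simpa using h5)
      · rw [P.ord_algebraMap] at h5; omega
    rw [hc, map_zero, zero_add] at e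
    refine ⟨P.ev y, -(z * N⁻¹), neg_mem (mul_mem hz hNR), ?_⟩
    have : u = s * z * N⁻¹ := by rw [← e, mul_assoc, mul_inv_cancel₀ hNo.1, mul_one]
    rw [mul_neg, ← mul_assoc, ← this, hud]; ring
  have hOT : O ≤ F3T R hsR := Algebra.adjoin_le (by rintro x (rfl | rfl) <;> assumption)
  have hNT : N⁻¹ ∈ F3T R hsR := by
    obtain ⟨c, z, hz, e⟩ := (F3_mem_T hsR).1 (hOT hNO)
    have hc : algebraMap κ F c ≠ 0 := by
      intro hc
      rw [hc, zero_add] at e
      rcases hsz z hz with h | h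
      · exact hNo.1 (e.trans h)
      · rw [← e, hNo.2] at h; omega
    refine ⟨c⁻¹, -(z * N⁻¹ * algebraMap κ F c⁻¹),
      neg_mem (mul_mem (mul_mem hz hNR) (R.algebraMap_mem _)), ?_⟩
    have hN0 := hNo.1
    rw [map_inv₀]
    field_simp
    rw [e]; ring
  have hRT : R ≤ F3T R hsR := Algebra.adjoin_le (by rintro x (rfl | rfl | rfl) <;> assumption)
  have hdvd := F3_dvd P hs0 hpos R hsR hRP hRT
  obtain ⟨π, hπ0, hπ⟩ := P.exists_ord_eq 1
  have hmem : π ∈ κ⟮t, y⟯ := by
    rw [← IntermediateField.adjoin_simple_adjoin_simple, hy]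
    trivial
  obtain ⟨a, ha, b, hb, rfl⟩ := IntermediateField.mem_adjoin_iff_div.1 hmem
  have ha0 : a ≠ 0 := fun h => hπ0 (by simp [h])
  have hb0 : b ≠ 0 := fun h => hπ0 (by simp [h])
  rw [P.ord_div ha0 hb0] at hπ
  have h1 : P.ord s ∣ 1 := hπ ▸ dvd_sub (hdvd a (hOR ha) ha0) (hdvd b (hOR hb) hb0)
  exact Int.eq_one_of_dvd_one hpos.le h1

theorem F3_finite_ram {t : F} (ht : t ∉ (algebraMap κ F).range) :
    {P : Place κ F | P.ord (t - algebraMap κ F (P.ev t)) ≠ 1}.Finite := by
  have := finiteDimensional_of_transcendental (transcendental_of_notMem ht)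
  have : CharZero κ⟮t⟯ := algebraRat.charZero _
  obtain ⟨y, hy⟩ := Field.exists_primitive_element κ⟮t⟯ F
  obtain ⟨M, hM, hM'⟩ := F3_exists_rel (κ := κ) t y
  refine ((dv κ t).support ∪ (dv κ y).support ∪
    (dv κ (aeval y (derivative M))).support).finite_toSet.subset fun P hP => ?_
  by_contra hc
  simp only [Finset.coe_union, Set.mem_union, Finset.mem_coe, Finsupp.mem_support_iff, dv_apply,
    not_or, not_not] at hc
  exact hP (F3_unram ht hy le_rfl M hM hM' P (P.mem_iff.2 hc.1.1.ge) (P.mem_iff.2 hc.1.2.ge) hc.2)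

end Pool.Agent.E6b

end

section
open scoped NNReal TensorProduct IntermediateField BigOperators Classical Topology
open Filter

namespace Pool.Agent.E6b
variable {κ F : Type} [Field κ] [IsAlgClosed κ] [CharZero κ] [Field F] [Algebra κ F] [IsFF κ F]

/-- a non-constant function is unramified at almost all places -/
theorem finite_ram {t : F} (ht : t ∉ (algebraMap κ F).range) :
    {P : Place κ F | P.ord (t - algebraMap κ F (P.ev t)) ≠ 1}.Finite := F3_finite_ram ht

/-- moving lemma -/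
theorem BPF.exists_reduced {D : Dv κ F} (h : BPF D) (T : Finset (Place κ F)) :
    ∃ S : Finset (Place κ F), Disjoint S T ∧ LinEq D (ind S) := by
  obtain ⟨φ, hφ0, hφ⟩ := h.exists_dinf
  by_cases hc : φ ∈ (algebraMap κ F).range
  · obtain ⟨c, rfl⟩ := hc
    refine ⟨∅, Finset.disjoint_empty_left _, ?_⟩
    have : dinf κ (algebraMap κ F c) = ind ∅ := by
      ext P
      rw [dinf_apply, P.ord_algebraMap, ind_apply]
      simp
    rwa [this] at hφ
  have hfin := finite_ram hc
  obtain ⟨c, hcn⟩ := Infinite.exists_notMem_finset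
    ((hfin.toFinset ∪ T).image fun P : Place κ F => P.ev φ)
  have hne : φ - algebraMap κ F c ≠ 0 := fun h => hc ⟨c, (sub_eq_zero.1 h).symm⟩
  have hz : ∀ P : Place κ F, 0 < P.ord (φ - algebraMap κ F c) →
      P ∉ T ∧ P.ord (φ - algebraMap κ F c) = 1 := by
    intro P hP
    have e : P.ev φ = c := P.ev_eq (Or.inr hP)
    have h1 : P ∉ hfin.toFinset ∪ T := fun hm => hcn (Finset.mem_image.2 ⟨P, hm, e⟩)
    rw [Finset.mem_union, not_or, Set.Finite.mem_toFinset, Set.mem_ofPred_eq, not_not, e] at h1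
    exact ⟨h1.2, h1.1⟩
  let S := (dv κ (φ - algebraMap κ F c)).support.filter
    fun P => 0 < P.ord (φ - algebraMap κ F c)
  have hS : ∀ P, P ∈ S ↔ 0 < P.ord (φ - algebraMap κ F c) := by
    intro P
    simp only [S, Finset.mem_filter, Finsupp.mem_support_iff, dv_apply]
    exact ⟨fun h => h.2, fun h => ⟨h.ne', h⟩⟩
  refine ⟨S, Finset.disjoint_left.2 fun P hP => (hz P ((hS P).1 hP)).1,
    hφ.trans ⟨_, hne, ?_⟩⟩
  ext P
  rw [Finsupp.add_apply, dinf_apply, dv_apply, ind_apply]
  by_cases h0 : P.ord φ < 0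
  · have h1 := P.ord_add_eq (g := - algebraMap κ F c) hφ0
      (Or.inr (by rw [P.ord_neg, P.ord_algebraMap]; exact h0))
    rw [← sub_eq_add_neg] at h1
    rw [if_neg (by rw [hS, h1.2]; omega), h1.2]
    omega
  · have h1 : 0 ≤ P.ord (φ - algebraMap κ F c) :=
      P.mem_iff.1 (sub_mem (P.mem_iff.2 (not_lt.1 h0)) (P.const c))
    split_ifs with h2
    · rw [(hz P ((hS P).1 h2)).2]; omega
    · rw [hS] at h2; omega

end Pool.Agent.E6b

end

section
open scoped NNReal TensorProduct IntermediateField BigOperators Classical Topology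
open Filter

namespace Pool.Agent.E6b
variable {κ F F' F'' : Type} [Field κ] [IsAlgClosed κ] [CharZero κ] [Field F] [Algebra κ F]
  [IsFF κ F] [Field F'] [Algebra κ F'] [IsFF κ F'] [Field F''] [Algebra κ F''] [IsFF κ F'']
  (φ : FHom κ F F')

namespace FHom

theorem deg_pos : 0 < φ.deg := by
  have := φ.finite
  exact Module.finrank_pos

theorem F4_tower (K : Subfield F) :
    Module.finrank (K.map φ.f) F' = Module.finrank K F * φ.deg := by
  rw [FHom.deg, ← Subfield.relfinrank_top_right K, ← Subfield.relfinrank_map_map K ⊤ φ.f,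
    RingHom.fieldRange_eq_map]
  exact (Subfield.relfinrank_mul_finrank_top (by
    rintro _ ⟨x, -, rfl⟩
    exact ⟨x, trivial, rfl⟩)).symm

theorem F4_adjoin (t : F) :
    Module.finrank κ⟮φ.f t⟯ F' = Module.finrank κ⟮t⟯ F * φ.deg := by
  have h : κ⟮φ.f t⟯.toSubfield = κ⟮t⟯.toSubfield.map φ.f := by
    rw [IntermediateField.adjoin_toSubfield, IntermediateField.adjoin_toSubfield,
      RingHom.map_field_closure, Set.image_union, F4_range, Set.image_singleton]
  have := φ.F4_tower κ⟮t⟯.toSubfield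
  rw [← h] at this
  exact this

theorem F4_deg_pd (P : Place κ F) : E6b.deg (φ.pull (pd P)) = φ.deg := by
  have h0 : (0 : Dv κ F) ≤ (genus κ F + 1) • pd P :=
    nsmul_nonneg (Finsupp.single_nonneg.2 zero_le_one) _
  have h1 := riemann ((genus κ F + 1) • pd P)
  rw [deg_nsmul, deg_pd] at h1
  obtain ⟨t, ht, hc⟩ := (two_le_ell_iff h0).1 (by push_cast at h1; omega)
  have ht0 : t ≠ 0 := fun h => hc (h ▸ zero_mem _)
  have h2 : ∀ Q, Q ≠ P → 0 ≤ Q.ord t := fun Q hQ => by
    simpa [pd, Finsupp.single_apply, hQ.symm] using (mem_LL.1 ht).resolve_left ht0 Q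
  have h3 : P.ord t < 0 := by
    obtain ⟨Q, hQ⟩ := exists_pole hc
    by_cases h : Q = P
    · exact h ▸ hQ
    · exact absurd (h2 Q h) (not_le.2 hQ)
  have h4 : dinf κ t = (- P.ord t) • pd P := by
    ext Q
    rw [dinf_apply, pd, Finsupp.smul_apply, Finsupp.single_apply]
    split_ifs with h
    · subst h
      rw [smul_eq_mul, mul_one]
      omega
    · have := h2 Q (Ne.symm h)
      rw [smul_zero]
      omega
  have h5 := deg_dinf hc
  have h6 := deg_dinf (φ.F4_nonconst hc)
  rw [← pull_dinf, F4_adjoin, Nat.cast_mul, ← h5, h4, pull_zsmul, deg_zsmul, deg_zsmul, deg_pd,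
    mul_one] at h6
  exact mul_left_cancel₀ (by omega) h6

theorem sum_e (P : Place κ F) : ∑ R ∈ φ.fib P, φ.e R = φ.deg := by
  have h := φ.F4_deg_pd P
  have h' : E6b.deg (φ.pull (pd P)) = ∑ R ∈ φ.fib P, (φ.e R : ℤ) :=
    Finset.sum_congr rfl fun R hR => by
      rw [pull_apply, φ.mem_fib.1 hR, pd, Finsupp.single_eq_same, mul_one]
  rw [h'] at h
  exact_mod_cast h

theorem res_surj (P : Place κ F) : ∃ R, φ.res R = P := by
  obtain ⟨R, hR, -⟩ := Finset.exists_ne_zero_of_sum_ne_zero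
    ((φ.sum_e P).trans_ne φ.deg_pos.ne')
  exact ⟨R, φ.mem_fib.1 hR⟩

theorem card_fib_le (P : Place κ F) : (φ.fib P).card ≤ φ.deg := by
  rw [← φ.sum_e P, Finset.card_eq_sum_ones]
  exact Finset.sum_le_sum fun R _ => φ.e_pos R

theorem pull_le_iff {D E : Dv κ F} : φ.pull D ≤ φ.pull E ↔ D ≤ E := by
  refine ⟨fun h P => ?_, fun h R => ?_⟩
  · obtain ⟨R, rfl⟩ := φ.res_surj P
    have := h R
    rw [pull_apply, pull_apply] at this
    exact le_of_mul_le_mul_left this (φ.F4_e_pos R)
  · rw [pull_apply, pull_apply]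
    exact mul_le_mul_of_nonneg_left (h _) (φ.F4_e_pos R).le

theorem map_mem_LL {D : Dv κ F} {f : F} : φ.f f ∈ LL (φ.pull D) ↔ f ∈ LL D := by
  by_cases hf : f = 0
  · simp [hf]
  rw [mem_LL_iff hf, mem_LL_iff ((map_ne_zero _).2 hf), ← pull_dv, ← pull_add, ← φ.pull_zero,
    pull_le_iff]

end FHom

end Pool.Agent.E6b

end

section
open scoped NNReal TensorProduct IntermediateField BigOperators Classical Topology
open Filter

namespace Pool.Agent.E6b

section
variable {κ F F' E : Type} [Field κ] [IsAlgClosed κ] [CharZero κ] [Field F] [Algebra κ F] [IsFF κ F]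
  [Field F'] [Algebra κ F'] [IsFF κ F'] [Field E] [Algebra κ E] [IsFF κ E]

/-- no homomorphism of small degree -/
def NoMap (κ E F' : Type) [Field κ] [Field E] [Algebra κ E] [Field F'] [Algebra κ F'] (B : ℕ) :
    Prop := ∀ φ : E →ₐ[κ] F', B < (FHom.ofAlgHom φ).deg

/-- a fibre product over the `t`-line with disjoint branch loci -/
structure Sq (κ F' E F : Type) [Field κ] [Field F'] [Algebra κ F'] [Field E] [Algebra κ E]
    [Field F] [Algebra κ F] where
  p' : F' →ₐ[κ] F
  p : E →ₐ[κ] F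
  t' : F'
  t : E
  comm : p' t' = p t
  nc : t ∉ (algebraMap κ E).range
  deg' : (FHom.ofAlgHom p').deg = rk κ t
  gen : IntermediateField.adjoin κ (Set.range p' ∪ Set.range p) = ⊤
  unr : ∀ c : Option κ, Unr t c ∨ Unr t' c

def Sq.q' (S : Sq κ F' E F) : FHom κ F' F := FHom.ofAlgHom S.p'

def Sq.q (S : Sq κ F' E F) : FHom κ E F := FHom.ofAlgHom S.p

/-- multiplication map -/
noncomputable def Sq.rho (S : Sq κ F' E F) : F' ⊗[κ] E →ₐ[κ] F :=
  Algebra.TensorProduct.lift S.p' S.p fun _ _ => Commute.all _ _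

end

/-- inclusion of intermediate fields -/
def incl {κ L : Type} [Field κ] [Field L] [Algebra κ L] {K K' : IntermediateField κ L}
    (h : K ≤ K') : FHom κ K K' := FHom.ofAlgHom (IntermediateField.inclusion h)

/-- five genus one covers of the line and their composita -/
structure Tw (κ L : Type) [Field κ] [IsAlgClosed κ] [CharZero κ] [Field L] [Algebra κ L]
    (n₀ B : ℕ) where
  F : Finset (Fin 5) → IntermediateField κ L
  t : L
  mem : ∀ J, t ∈ F J
  nc : t ∉ (algebraMap κ L).range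
  [ff : ∀ J, IsFF κ (F J)]
  mono : ∀ {J J'}, J ⊆ J' → F J ≤ F J'
  sup : ∀ J J', F (J ∪ J') = F J ⊔ F J'
  rk_eq : ∀ J, rk κ (⟨t, mem J⟩ : F J) = n₀ ^ J.card
  g1 : ∀ s, genus κ (F {s}) = 1
  unr : ∀ s s', s ≠ s' → ∀ c : Option κ,
    Unr (⟨t, mem {s}⟩ : F {s}) c ∨ Unr (⟨t, mem {s'}⟩ : F {s'}) c
  nomap : ∀ s J, s ∉ J → NoMap κ (F {s}) (F J) B

attribute [instance] Tw.ff

namespace Tw
variable {κ L : Type} [Field κ] [IsAlgClosed κ] [CharZero κ] [Field L] [Algebra κ L] {n₀ B : ℕ}
  (T : Tw κ L n₀ B)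

def tJ (J : Finset (Fin 5)) : T.F J := ⟨T.t, T.mem J⟩

def pi {J J' : Finset (Fin 5)} (h : J ⊆ J') : FHom κ (T.F J) (T.F J') := incl (T.mono h)

/-- the top field -/
abbrev FU : Type := T.F Finset.univ

end Tw

/-- Galois action permuting the five covers -/
structure TwG {L : Type} [Field L] [Algebra Qb L] {n₀ B : ℕ} (T : Tw Qb L n₀ B) where
  A : GAct T.FU
  perm : (Qb ≃ₐ[ℚ] Qb) →* Equiv.Perm (Fin 5)
  fix : ∀ σ, A.act σ (T.tJ Finset.univ) = T.tJ Finset.univ
  eqv : ∀ σ s, ∃ ψ : FHom Qb (T.F {s}) (T.F {perm σ s}), Function.Surjective ψ.f ∧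
    ∀ x, A.act σ ((T.pi (Finset.subset_univ {s})).f x) =
      (T.pi (Finset.subset_univ {perm σ s})).f (ψ.f x)

end Pool.Agent.E6b

end

section
open scoped NNReal TensorProduct IntermediateField BigOperators Classical Topology
open Filter

namespace Pool.Agent.E6b
variable {κ E F : Type} [Field κ] [IsAlgClosed κ] [CharZero κ] [Field E] [Algebra κ E] [IsFF κ E]
  [Field F] [Algebra κ F] [IsFF κ F]

theorem tv_eq_iff {t : E} (ht : t ∉ (algebraMap κ E).range) {P : Place κ E} {c : Option κ} :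
    tv t P = c ↔ 0 < P.ord (lc t c) := by
  unfold tv
  cases c with
  | none =>
    rw [lc, P.ord_inv]
    split_ifs with h
    · rw [P.mem_iff] at h
      exact ⟨False.elim, fun e => by omega⟩
    · rw [P.mem_iff] at h
      exact ⟨fun _ => by omega, fun _ => rfl⟩
  | some c =>
    rw [lc]
    constructor
    · intro e
      split_ifs at e with h
      obtain rfl := Option.some.inj e
      exact (P.ev_spec h).resolve_left fun h' => ht ⟨_, h'.symm⟩
    · intro e
      have h : t ∈ P.O := by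
        have := P.O.add_mem _ _ (P.mem_iff.2 e.le) (P.const c)
        rwa [sub_add_cancel] at this
      rw [if_pos h, P.ev_eq (Or.inr e)]

omit [IsAlgClosed κ] [CharZero κ] [IsFF κ E] in
theorem lc_ne_zero {t : E} (ht : t ∉ (algebraMap κ E).range) (c : Option κ) : lc t c ≠ 0 := by
  cases c with
  | none => exact inv_ne_zero fun h => ht ⟨0, by rw [h, map_zero]⟩
  | some c => exact sub_ne_zero.2 fun h => ht ⟨c, h.symm⟩

theorem tv_res (φ : FHom κ E F) (t : E) (R : Place κ F) :
    tv (φ.f t) R = (tv t (φ.res R)).map φ.c := by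
  unfold tv
  by_cases h : t ∈ (φ.res R).O
  · rw [if_pos h, if_pos ((φ.map_mem_iff R t).2 h), φ.ev_map, Option.map_some]
  · rw [if_neg h, if_neg (mt (φ.map_mem_iff R t).1 h), Option.map_none]

theorem rk_pos {t : E} (ht : t ∉ (algebraMap κ E).range) : 0 < rk κ t := by
  have := finiteDimensional_of_transcendental (transcendental_of_notMem ht)
  exact Module.finrank_pos

theorem rk_map (φ : FHom κ E F) {t : E} (ht : t ∉ (algebraMap κ E).range) :
    φ.f t ∉ (algebraMap κ F).range ∧ rk κ (φ.f t) = φ.deg * rk κ t := 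
  ⟨φ.F4_nonconst ht, (φ.F4_adjoin t).trans (mul_comm _ _)⟩

theorem finite_tv {t : E} (ht : t ∉ (algebraMap κ E).range) (c : Option κ) :
    {P : Place κ E | tv t P = c}.Finite := 
  (F1_finite_zeros (lc t c)).subset fun _ h => (tv_eq_iff ht).1 h

omit [IsAlgClosed κ] [CharZero κ] [IsFF κ E] in
theorem K2_adjoin {t : E} (_ht : t ∉ (algebraMap κ E).range) (c : Option κ) :
    κ⟮(lc t c)⁻¹⟯ = κ⟮t⟯ := by
  cases c with
  | none => rw [lc, inv_inv]
  | some c =>
    rw [lc]
    refine le_antisymm (IntermediateField.adjoin_simple_le_iff.2 (inv_mem (sub_mem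
      (IntermediateField.mem_adjoin_simple_self κ t) (IntermediateField.algebraMap_mem _ c))))
      (IntermediateField.adjoin_simple_le_iff.2 ?_)
    have := add_mem (inv_mem (IntermediateField.mem_adjoin_simple_self κ
      (t - algebraMap κ E c)⁻¹)) (IntermediateField.algebraMap_mem _ c)
    rwa [inv_inv, sub_add_cancel] at this

theorem sum_ord_lc {t : E} (ht : t ∉ (algebraMap κ E).range) (c : Option κ) :
    ∑ P ∈ (finite_tv ht c).toFinset, P.ord (lc t c) = rk κ t := by
  have h1 := K2_adjoin ht c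
  have h2 : (lc t c)⁻¹ ∉ (algebraMap κ E).range := by
    rintro ⟨x, hx⟩
    have h3 : t ∈ κ⟮(lc t c)⁻¹⟯ := h1 ▸ IntermediateField.mem_adjoin_simple_self κ t
    rw [← hx, IntermediateField.adjoin_simple_eq_bot_iff.2 (IntermediateField.algebraMap_mem _ x)]
      at h3
    exact ht (IntermediateField.mem_bot.1 h3)
  have h3 := deg_dinf h2
  rw [h1] at h3
  refine Eq.trans ?_ h3
  rw [deg, Finsupp.sum_of_support_subset _ (s := (finite_tv ht c).toFinset) _ _ fun _ _ => rfl]
  · refine Finset.sum_congr rfl fun P hP => ?_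
    have h4 := (tv_eq_iff ht).1 ((finite_tv ht c).mem_toFinset.1 hP)
    rw [dinf_apply, P.ord_inv]
    omega
  · intro P hP
    rw [Finsupp.mem_support_iff, dinf_apply, P.ord_inv] at hP
    exact (Set.Finite.mem_toFinset _).2 ((tv_eq_iff ht).2 (by omega))

theorem finite_not_unr {t : E} (ht : t ∉ (algebraMap κ E).range) :
    {c : Option κ | ¬ Unr t c}.Finite := by
  refine (((finite_ram ht).image fun P => some (P.ev t)).insert none).subset fun c hc => ?_
  cases c with
  | none => exact Set.mem_insert _ _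
  | some c =>
    simp only [Unr, Set.mem_ofPred_eq, not_forall] at hc
    obtain ⟨P, h1, h2⟩ := hc
    have h3 : P.ev t = c := P.ev_eq (Or.inr h1)
    exact Set.mem_insert_of_mem _ ⟨P, by rwa [Set.mem_ofPred_eq, h3], congrArg some h3⟩

theorem K2_better {t : E} (ht : t ∉ (algebraMap κ E).range) {N : Dv κ E} {n : ℕ} {b : Fin n → E}
    {a : Fin n → ℤ} (hm : ∀ i, b i ∈ LL (N - a i • dinf κ t)) {γ : Fin n → κ} {i : Fin n}
    (hi : γ i ≠ 0) (hmin : ∀ j, γ j ≠ 0 → a i ≤ a j) (c : Option κ)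
    (h : ∑ i, γ i • (if c = none then t ^ a i * b i else b i) = 0 ∨ ∀ P : Place κ E, tv t P = c →
      - N P ≤ P.ord ((∑ i, γ i • (if c = none then t ^ a i * b i else b i)) / lc t c)) :
    ∃ r : Fin n → κ⟮t⟯, r i ≠ 0 ∧ ∑ j, r j • b j ∈ LL (N - (a i + 1) • dinf κ t) := by
  have ht0 : t ≠ 0 := fun h => ht ⟨0, by rw [h, map_zero]⟩
  have hl := lc_ne_zero ht c
  have hτ := IntermediateField.mem_adjoin_simple_self κ t
  cases c with
  | none =>
    simp only [if_true] at h
    have e : ∑ j, γ j • (t ^ (a j - a i) * b j) = t ^ (- a i) * ∑ j, γ j • (t ^ a j * b j) := by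
      rw [Finset.mul_sum]
      refine Finset.sum_congr rfl fun j _ => ?_
      rw [mul_smul_comm, ← mul_assoc, ← zpow_add₀ ht0, neg_add_eq_sub]
    have h1 : ∑ j, γ j • (t ^ (a j - a i) * b j) ∈ LL (N - a i • dinf κ t) := by
      refine Submodule.sum_mem _ fun j _ => ?_
      by_cases hj : γ j = 0
      · rw [hj, zero_smul]
        exact Submodule.zero_mem _
      obtain ⟨k, hk⟩ := Int.eq_ofNat_of_zero_le (sub_nonneg.2 (hmin j hj))
      have h2 := mul_mem_LL (F2_pow_mem (κ := κ) t (le_refl k)) (hm j)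
      rw [← natCast_zsmul, ← zpow_natCast, ← hk, sub_smul, sub_add_sub_cancel'] at h2
      exact Submodule.smul_mem _ _ h2
    refine ⟨fun j => γ j • ⟨t ^ (a j - a i), zpow_mem hτ _⟩, smul_ne_zero hi fun e =>
      zpow_ne_zero _ ht0 (congrArg Subtype.val e), ?_⟩
    have e2 : ∑ j, (γ j • (⟨t ^ (a j - a i), zpow_mem hτ _⟩ : κ⟮t⟯)) • b j =
        ∑ j, γ j • (t ^ (a j - a i) * b j) :=
      Finset.sum_congr rfl fun j _ => by rw [smul_assoc]; rfl
    rw [e2]
    by_cases h0 : ∑ j, γ j • (t ^ a j * b j) = 0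
    · rw [e, h0, mul_zero]
      exact Submodule.zero_mem _
    refine mem_LL.2 ((mem_LL.1 h1).imp_right fun h2 P => ?_)
    have h3 := h2 P
    rw [Finsupp.sub_apply, Finsupp.smul_apply, dinf_apply, smul_eq_mul] at h3 ⊢
    by_cases hP : 0 ≤ P.ord t
    · rw [max_eq_right (by omega), mul_zero] at h3 ⊢
      exact h3
    · have h4 := h.resolve_left h0 P ((tv_eq_iff ht).2 (by rw [lc, P.ord_inv]; omega))
      rw [P.ord_div h0 hl, lc, P.ord_inv] at h4
      rw [max_eq_left (by omega), e, P.ord_mul (zpow_ne_zero _ ht0) h0, P.ord_zpow]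
      linarith
  | some c =>
    simp only [reduceCtorEq, if_false] at h
    have h1 : ∑ j, γ j • b j ∈ LL (N - a i • dinf κ t) := by
      refine Submodule.sum_mem _ fun j _ => ?_
      by_cases hj : γ j = 0
      · rw [hj, zero_smul]
        exact Submodule.zero_mem _
      exact Submodule.smul_mem _ _ (LL_mono (sub_le_sub_left
        (smul_le_smul_of_nonneg_right (hmin j hj) (F2_dinf_nonneg t)) N) (hm j))
    have hσ : (lc t (some c))⁻¹ ∈ κ⟮t⟯ :=
      inv_mem (sub_mem hτ (IntermediateField.algebraMap_mem _ c))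
    refine ⟨fun j => γ j • ⟨_, hσ⟩, smul_ne_zero hi fun e =>
      inv_ne_zero hl (congrArg Subtype.val e), ?_⟩
    have e2 : ∑ j, (γ j • (⟨_, hσ⟩ : κ⟮t⟯)) • b j = (∑ j, γ j • b j) / lc t (some c) := by
      rw [div_eq_inv_mul, Finset.mul_sum]
      exact Finset.sum_congr rfl fun j _ => by rw [smul_assoc, mul_smul_comm]; rfl
    rw [e2]
    by_cases h0 : ∑ j, γ j • b j = 0
    · rw [h0, zero_div]
      exact Submodule.zero_mem _
    refine mem_LL.2 (Or.inr fun P => ?_)
    have h3 := (mem_LL.1 h1).resolve_left h0 P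
    rw [Finsupp.sub_apply, Finsupp.smul_apply, dinf_apply, smul_eq_mul] at h3 ⊢
    by_cases hP : 0 ≤ P.ord t
    · rw [max_eq_right (by omega), mul_zero, sub_zero] at h3 ⊢
      by_cases h4 : 0 < P.ord (lc t (some c))
      · exact h.resolve_left h0 P ((tv_eq_iff ht).2 h4)
      · rw [P.ord_div h0 hl]
        omega
    · have h4 : P.ord (lc t (some c)) = P.ord t := by
        rw [lc, sub_eq_add_neg]
        exact (P.ord_add_eq ht0 (Or.inr (by rw [P.ord_neg, P.ord_algebraMap]; omega))).2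
      rw [max_eq_left (by omega)] at h3 ⊢
      rw [P.ord_div h0 hl, h4]
      linarith

end Pool.Agent.E6b

end

section
open scoped NNReal TensorProduct IntermediateField BigOperators Classical Topology
open Filter

namespace Pool.Agent.E6b

/-- parameters of the cover `t = τ + 1 / (x ^ a y + c)` of the line by `y ^ 2 = x ^ 3 + A x ^ 2 + B` -/
structure WP (κ : Type) where
  A : κ
  B : κ
  c : κ
  τ : κ

end Pool.Agent.E6b

end

section
open scoped NNReal TensorProduct IntermediateField BigOperators Classical Topology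
open Filter

namespace Pool.Agent.E6b
variable {κ F F' E : Type} [Field κ] [IsAlgClosed κ] [CharZero κ] [Field F] [Algebra κ F] [IsFF κ F]
  [Field F'] [Algebra κ F'] [IsFF κ F'] [Field E] [Algebra κ E] [IsFF κ E] (S : Sq κ F' E F)

theorem K1_mem_of_tv {s y : F} (hs : s ∉ (algebraMap κ F).range) (hy : y ∈ κ⟮s⟯)
    {R₁ R₂ : Place κ F} (h : tv s R₁ = tv s R₂) (h1 : y ∈ R₁.O) : y ∈ R₂.O := by
  by_cases hy0 : y = 0
  · rw [hy0]; exact zero_mem _
  have e1 : 0 < R₁.ord (lc s (tv s R₂)) := (tv_eq_iff hs).1 h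
  have e2 : 0 < R₂.ord (lc s (tv s R₂)) := (tv_eq_iff hs).1 rfl
  generalize tv s R₂ = c at e1 e2
  have hsc : s ∈ κ⟮lc s c⟯ := by
    have h0 := IntermediateField.mem_adjoin_simple_self κ (lc s c)
    cases c with
    | none =>
      have h2 := inv_mem h0
      rwa [show (lc s (none : Option κ))⁻¹ = s from inv_inv s] at h2
    | some c =>
      have h2 := add_mem h0 (IntermediateField.algebraMap_mem κ⟮lc s (some c)⟯ c)
      rwa [show lc s (some c) + algebraMap κ F c = s from sub_add_cancel s _] at h2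
  obtain ⟨m, hm⟩ := F1_ord_adjoin (IntermediateField.adjoin_simple_le_iff.2 hsc hy) hy0
  rw [Place.mem_iff, hm _ e1] at h1
  rw [Place.mem_iff, hm _ e2]
  exact mul_nonneg (nonneg_of_mul_nonneg_left h1 e1) e2.le

namespace Sq

theorem rho_tmul (c : F') (u : E) : S.rho (c ⊗ₜ[κ] u) = S.p' c * S.p u :=
  Algebra.TensorProduct.lift_tmul _ _ _ _ _

theorem rho_surj : Function.Surjective S.rho := by
  have hfin := S.q'.finite
  have h1 : ∀ c : F', S.p' c ∈ S.rho.range := fun c =>
    ⟨c ⊗ₜ[κ] 1, by change S.rho _ = _; rw [rho_tmul, map_one, mul_one]⟩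
  have h2 : ∀ u : E, S.p u ∈ S.rho.range := fun u =>
    ⟨1 ⊗ₜ[κ] u, by change S.rho _ = _; rw [rho_tmul, map_one, one_mul]⟩
  let A : Subalgebra S.q'.f.fieldRange F :=
    { S.rho.range.toSubsemiring with
      algebraMap_mem' := by
        rintro ⟨_, c, rfl⟩
        exact h1 c }
  let M : IntermediateField κ F := S.rho.range.toIntermediateField fun x hx =>
    A.inv_mem_of_algebraic (x := ⟨x, hx⟩) (Algebra.IsAlgebraic.isAlgebraic x)
  have h3 : IntermediateField.adjoin κ (Set.range S.p' ∪ Set.range S.p) ≤ M := by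
    rw [IntermediateField.adjoin_le_iff]
    rintro _ (⟨c, rfl⟩ | ⟨u, rfl⟩)
    · exact h1 c
    · exact h2 u
  rw [S.gen] at h3
  intro x
  exact h3 (IntermediateField.mem_top (x := x))

theorem deg_q' : S.q'.deg = rk κ S.t := S.deg'

theorem K1_tv (R : Place κ F) : tv (S.p S.t) R = tv S.t (S.q.res R) := by
  have h := tv_res S.q S.t R
  have e : (S.q.c : κ → κ) = id := rfl
  rwa [e, Option.map_id, id] at h

theorem K1_tv' (R : Place κ F) : tv (S.p S.t) R = tv S.t' (S.q'.res R) := by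
  have h := tv_res S.q' S.t' R
  have e : (S.q'.c : κ → κ) = id := rfl
  rw [e, Option.map_id, id] at h
  rw [← S.comm]
  exact h

theorem tv_res_eq (R : Place κ F) : tv S.t' (S.q'.res R) = tv S.t (S.q.res R) :=
  (S.K1_tv' R).symm.trans (S.K1_tv R)

theorem K1_map_mem {x : E} (hx : x ∈ κ⟮S.t⟯) : S.p x ∈ κ⟮S.p S.t⟯ := by
  rw [← Set.image_singleton, ← IntermediateField.adjoin_map]
  exact ⟨x, hx, rfl⟩

theorem K1_ex' {y : F} (hy : y ∈ κ⟮S.p S.t⟯) : ∃ z ∈ κ⟮S.t'⟯, S.p' z = y := by
  rw [← S.comm, ← Set.image_singleton, ← IntermediateField.adjoin_map] at hy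
  exact hy

theorem K1_span {ι : Type} [Fintype ι] {b : ι → E}
    (hb : Submodule.span κ⟮S.t⟯ (Set.range b) = ⊤) (x : F) :
    ∃ c : ι → F', x = ∑ i, S.p' (c i) * S.p (b i) := by
  obtain ⟨G, rfl⟩ := S.rho_surj x
  induction G using TensorProduct.induction_on with
  | zero => exact ⟨0, by simp⟩
  | tmul c u =>
    have hu : u ∈ Submodule.span κ⟮S.t⟯ (Set.range b) := hb ▸ Submodule.mem_top
    obtain ⟨r, hr⟩ := (Submodule.mem_span_range_iff_exists_fun _).1 hu
    choose z _ hz using fun i => S.K1_ex' (S.K1_map_mem (r i).2)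
    refine ⟨fun i => c * z i, ?_⟩
    rw [rho_tmul, ← hr, map_sum, Finset.mul_sum]
    refine Finset.sum_congr rfl fun i _ => ?_
    rw [map_mul, hz, IntermediateField.smul_def, smul_eq_mul, map_mul, mul_assoc]
  | add x y hx hy =>
    obtain ⟨c, hc⟩ := hx
    obtain ⟨d, hd⟩ := hy
    refine ⟨c + d, ?_⟩
    rw [map_add, hc, hd, ← Finset.sum_add_distrib]
    refine Finset.sum_congr rfl fun i _ => ?_
    rw [Pi.add_apply, map_add, add_mul]

theorem K1_basis {ι : Type} [Fintype ι] (β : Module.Basis ι κ⟮S.t⟯ E) :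
    LinearIndependent S.q'.f.fieldRange fun i => S.p (β i) := by
  refine linearIndependent_of_top_le_span_of_card_eq_finrank ?_ ?_
  · intro x _
    obtain ⟨c, rfl⟩ := S.K1_span β.span_eq x
    refine Submodule.sum_mem _ fun i _ => ?_
    exact Submodule.smul_mem _ (⟨S.p' (c i), c i, rfl⟩ : S.q'.f.fieldRange)
      (Submodule.subset_span ⟨i, rfl⟩)
  · rw [← Module.finrank_eq_card_basis β]
    exact S.deg'.symm

theorem K1_indep {ι : Type} {b : ι → E} (hb : LinearIndependent κ⟮S.t⟯ b) :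
    LinearIndependent S.q'.f.fieldRange fun i => S.p (b i) := by
  have := finiteDimensional_of_transcendental (transcendental_of_notMem S.nc)
  let β := Module.Basis.extend hb.linearIndepOn_id
  let _ := FiniteDimensional.fintypeBasisIndex β
  let e : ι → hb.linearIndepOn_id.extend (Set.subset_univ _) := fun i =>
    ⟨b i, hb.linearIndepOn_id.subset_extend _ ⟨i, rfl⟩⟩
  have he : Function.Injective e := fun i j h => hb.injective (congrArg Subtype.val h)
  have h := (S.K1_basis β).comp e he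
  have e2 : ((fun i => S.p (β i)) ∘ e) = fun i => S.p (b i) := by
    funext i
    exact congrArg S.p (Module.Basis.extend_apply_self hb.linearIndepOn_id (e i))
  rwa [e2] at h

/-- the minimal polynomial over `κ(t)` divides every equation over `F'` -/
theorem K1_dvd (u : E) {f : Polynomial S.q'.f.fieldRange} (hf : Polynomial.aeval (S.p u) f = 0) :
    (minpoly κ⟮S.t⟯ u).map (S.p.toRingHom.comp (algebraMap κ⟮S.t⟯ E)) ∣
      f.map (algebraMap S.q'.f.fieldRange F) := by
  have := finiteDimensional_of_transcendental (transcendental_of_notMem S.nc)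
  have hK : ∀ r : κ⟮S.t⟯, (S.p.toRingHom.comp (algebraMap κ⟮S.t⟯ E)) r ∈ S.q'.f.fieldRange :=
    fun r => by
      obtain ⟨z, -, hz⟩ := S.K1_ex' (S.K1_map_mem r.2)
      exact ⟨z, hz⟩
  let j : κ⟮S.t⟯ →+* S.q'.f.fieldRange :=
    (S.p.toRingHom.comp (algebraMap κ⟮S.t⟯ E)).codRestrict S.q'.f.fieldRange hK
  have hj : (algebraMap S.q'.f.fieldRange F).comp j =
      S.p.toRingHom.comp (algebraMap κ⟮S.t⟯ E) := rfl
  have hui : IsIntegral κ⟮S.t⟯ u := Algebra.IsIntegral.isIntegral u
  have hm := minpoly.monic hui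
  have hm' := hm.map j
  have hroot : Polynomial.aeval (S.p u) ((minpoly κ⟮S.t⟯ u).map j) = 0 := by
    rw [Polynomial.aeval_def, Polynomial.eval₂_map, hj]
    have h1 := Polynomial.hom_eval₂ (minpoly κ⟮S.t⟯ u) (algebraMap κ⟮S.t⟯ E) S.p.toRingHom u
    rw [← Polynomial.aeval_def, minpoly.aeval, map_zero] at h1
    exact h1.symm
  have hi' : IsIntegral S.q'.f.fieldRange (S.p u) := ⟨_, hm', hroot⟩
  have hdeg : ((minpoly κ⟮S.t⟯ u).map j).natDegree ≤
      (minpoly S.q'.f.fieldRange (S.p u)).natDegree := by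
    rw [hm.natDegree_map]
    by_contra hlt
    rw [not_le] at hlt
    have hind := S.K1_indep (linearIndependent_pow (K := κ⟮S.t⟯) u)
    have h0 := minpoly.aeval S.q'.f.fieldRange (S.p u)
    rw [Polynomial.aeval_eq_sum_range' hlt, Finset.sum_range] at h0
    have h1 := Fintype.linearIndependent_iff.1 hind
      (fun i => (minpoly S.q'.f.fieldRange (S.p u)).coeff i) (by simpa only [map_pow] using h0)
      ⟨_, hlt⟩
    exact one_ne_zero ((minpoly.monic hi').coeff_natDegree.symm.trans h1)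
  have heq := Polynomial.eq_of_monic_of_dvd_of_natDegree_le (minpoly.monic hi') hm'
    (minpoly.dvd _ _ hroot) hdeg
  rw [← hj, ← Polynomial.map_map, heq]
  exact Polynomial.map_dvd _ (minpoly.dvd _ _ hf)

theorem exists_place {Q : Place κ F'} {P : Place κ E} (h : tv S.t' Q = tv S.t P) :
    ∃ R : Place κ F, S.q'.res R = Q ∧ S.q.res R = P := by
  by_contra hne
  have := finiteDimensional_of_transcendental (transcendental_of_notMem S.nc)
  have hP : P ∉ (S.q'.fib Q).image S.q.res := by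
    intro hP
    obtain ⟨R, hR, e⟩ := Finset.mem_image.1 hP
    exact hne ⟨R, S.q'.mem_fib.1 hR, e⟩
  obtain ⟨w, hw, hw'⟩ := F1a_sep P _ hP
  have huP : w⁻¹ ∉ P.O := by
    rw [P.mem_iff, P.ord_inv]
    omega
  have huR : ∀ R, S.q'.res R = Q → S.p w⁻¹ ∈ R.O := fun R hR => by
    have h1 := hw' _ (Finset.mem_image_of_mem _ (S.q'.mem_fib.2 hR))
    refine (S.q.map_mem_iff R w⁻¹).2 ?_
    rw [Place.mem_iff, Place.ord_inv]
    omega
  generalize w⁻¹ = u at huP huR
  let A : Subalgebra κ F' := { Q.O.toSubring.toSubsemiring with algebraMap_mem' := Q.const }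
  let B : Subalgebra κ F := A.map S.p'
  have hint : IsIntegral B (S.p u) := isIntegral_of_forall_mem B fun R hR =>
    huR R (Place.eq_of_le (P := Q) (Q := S.q'.res R) fun x hx =>
      (S.q'.map_mem_iff R x).1 (hR _ ⟨x, hx, rfl⟩)).symm
  obtain ⟨f, hf, hf0⟩ := hint
  have hB : ∀ b : B, B.val.toRingHom b ∈ S.q'.f.fieldRange := by
    rintro ⟨_, x, -, rfl⟩
    exact ⟨x, rfl⟩
  let jB : B →+* S.q'.f.fieldRange := B.val.toRingHom.codRestrict S.q'.f.fieldRange hB
  have hjB : (algebraMap S.q'.f.fieldRange F).comp jB = algebraMap B F := rfl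
  have hd := S.K1_dvd u (f := f.map jB) (by
    rw [Polynomial.aeval_def, Polynomial.eval₂_map, hjB]; exact hf0)
  rw [Polynomial.map_map, hjB] at hd
  have hm := (minpoly.monic (Algebra.IsIntegral.isIntegral (R := κ⟮S.t⟯) u)).map
    (S.p.toRingHom.comp (algebraMap κ⟮S.t⟯ E))
  have hl := (Polynomial.lifts_iff_coeff_lifts _).1
    (integralClosure.mem_lifts_of_monic_of_dvd_map F hf hm hd)
  obtain ⟨R₁, h₁⟩ := S.q'.res_surj Q
  obtain ⟨R₂, h₂⟩ := S.q.res_surj P
  have htv : tv (S.p S.t) R₁ = tv (S.p S.t) R₂ := by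
    rw [S.K1_tv' R₁, S.K1_tv R₂, h₁, h₂, h]
  have hl2 : (minpoly κ⟮S.t⟯ u).map (S.p.toRingHom.comp (algebraMap κ⟮S.t⟯ E)) ∈
      Polynomial.lifts (algebraMap R₂.O F) := by
    rw [Polynomial.lifts_iff_coeff_lifts]
    intro n
    obtain ⟨⟨y, hy⟩, e⟩ := hl n
    have hy1 : y ∈ R₁.O := by
      refine F0_mem_of_integral (A := B) R₁.O ?_ hy
      rintro ⟨_, x, hx, rfl⟩
      refine (S.q'.map_mem_iff R₁ x).2 ?_
      rw [h₁]
      exact hx
    have hy2 : y ∈ κ⟮S.p S.t⟯ := by
      have e' : y = S.p ((minpoly κ⟮S.t⟯ u).coeff n : κ⟮S.t⟯) := by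
        rw [Polynomial.coeff_map] at e
        exact e
      rw [e']
      exact S.K1_map_mem (Subtype.property _)
    exact ⟨⟨y, K1_mem_of_tv (rk_map S.q S.nc).1 hy2 htv hy1⟩, e⟩
  obtain ⟨g, hg, -, hgm⟩ := Polynomial.lifts_and_natDegree_eq_and_monic hl2 hm
  have hint2 : IsIntegral R₂.O (S.p u) := by
    refine ⟨g, hgm, ?_⟩
    rw [Polynomial.eval₂_eq_eval_map, hg, Polynomial.eval_map]
    have h1 := Polynomial.hom_eval₂ (minpoly κ⟮S.t⟯ u) (algebraMap κ⟮S.t⟯ E) S.p.toRingHom u
    rw [← Polynomial.aeval_def, minpoly.aeval, map_zero] at h1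
    exact h1.symm
  have h3 := (S.q.map_mem_iff R₂ u).1 (F0_mem_of_integral (A := R₂.O) R₂.O (fun a => a.2) hint2)
  rw [h₂] at h3
  exact huP h3

end Sq

end Pool.Agent.E6b

end

section
open scoped NNReal TensorProduct IntermediateField BigOperators Classical Topology
open Filter

namespace Pool.Agent.E6b

section
variable {κ F' E : Type} [Field κ] [Field F'] [Algebra κ F'] [Field E] [Algebra κ E]

theorem K4_rep (G : F' ⊗[κ] E) : ∃ (ι : Type) (_ : Fintype ι) (u : ι → E) (c : ι → F'),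
    LinearIndependent κ u ∧ (∀ i, c i ≠ 0) ∧ G = ∑ i, c i ⊗ₜ[κ] u i := by
  let b := Module.Basis.ofVectorSpace κ E
  let B := Algebra.TensorProduct.basis F' b
  refine ⟨(B.repr G).support, inferInstance, fun i => b i, fun i => B.repr G i,
    b.linearIndependent.comp _ Subtype.val_injective, fun i => Finsupp.mem_support_iff.1 i.2, ?_⟩
  rw [Finset.sum_coe_sort (B.repr G).support fun i => B.repr G i ⊗ₜ[κ] b i]
  conv_lhs => rw [← B.linearCombination_repr G, Finsupp.linearCombination_apply, Finsupp.sum]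
  refine Finset.sum_congr rfl fun i _ => ?_
  rw [Algebra.TensorProduct.basis_apply, TensorProduct.smul_tmul', smul_eq_mul, mul_one]

end
variable {κ F F' E : Type} [Field κ] [IsAlgClosed κ] [CharZero κ] [Field F] [Algebra κ F] [IsFF κ F]
  [Field F'] [Algebra κ F'] [IsFF κ F'] [Field E] [Algebra κ E] [IsFF κ E]

/-- integral tensors -/
noncomputable def K4_inc (Q : Place κ F') : Q.OA ⊗[κ] E →ₐ[κ] F' ⊗[κ] E :=
  Algebra.TensorProduct.map Q.OA.val (AlgHom.id κ E)

/-- reduction of integral tensors -/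
noncomputable def K4_red (Q : Place κ F') : Q.OA ⊗[κ] E →ₐ[κ] E :=
  Algebra.TensorProduct.lift ((Algebra.ofId κ E).comp Q.evH) (AlgHom.id κ E)
    fun _ _ => Commute.all _ _

omit [IsFF κ E] in
theorem K4_red_tmul (Q : Place κ F') (c : Q.OA) (u : E) :
    K4_red Q (c ⊗ₜ[κ] u) = Q.ev c • u := by
  rw [K4_red, Algebra.TensorProduct.lift_tmul, Algebra.smul_def]
  rfl

omit [IsFF κ E] in
theorem K4_inc_inj (Q : Place κ F') : Function.Injective (K4_inc (E := E) Q) :=
  Module.Flat.rTensor_preserves_injective_linearMap (M := E) Q.OA.val.toLinearMap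
    Subtype.val_injective

/-- `a G` is primitive at `Q` for an element `a` of order `k` -/
def K4_Prim (Q : Place κ F') (k : ℤ) (G : F' ⊗[κ] E) : Prop :=
  ∃ a : F', a ≠ 0 ∧ Q.ord a = k ∧ ∃ G₀, K4_inc Q G₀ = a • G ∧ K4_red Q G₀ ≠ 0

omit [IsFF κ E] in
theorem K4_Prim.ne_zero {Q : Place κ F'} {k : ℤ} {G : F' ⊗[κ] E} (h : K4_Prim Q k G) : G ≠ 0 := by
  rintro rfl
  obtain ⟨a, -, -, G₀, h1, h2⟩ := h
  rw [smul_zero, map_eq_zero_iff _ (K4_inc_inj Q)] at h1
  exact h2 (by rw [h1, map_zero])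

omit [IsFF κ E] in
theorem K4_Prim.mul {Q : Place κ F'} {k l : ℤ} {G H : F' ⊗[κ] E} (h : K4_Prim Q k G)
    (h' : K4_Prim Q l H) : K4_Prim Q (k + l) (G * H) := by
  obtain ⟨a, a0, a1, G₀, h1, h2⟩ := h
  obtain ⟨b, b0, b1, H₀, h3, h4⟩ := h'
  refine ⟨a * b, mul_ne_zero a0 b0, by rw [Q.ord_mul a0 b0, a1, b1], G₀ * H₀, ?_, ?_⟩
  · rw [map_mul, h1, h3, smul_mul_smul_comm]
  · rw [map_mul]
    exact mul_ne_zero h2 h4

omit [IsFF κ E] in
theorem K4_exists_prim (Q : Place κ F') {G : F' ⊗[κ] E} (h : G ≠ 0) : ∃ k, K4_Prim Q k G := by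
  obtain ⟨ι, _, u, c, hu, hc, rfl⟩ := K4_rep G
  obtain ⟨i, -, hi⟩ := Finset.exists_min_image Finset.univ (fun i => Q.ord (c i))
    (Finset.nonempty_of_sum_ne_zero h)
  have h1 : ∀ j, (c i)⁻¹ * c j ∈ Q.OA := fun j => Q.mem_iff.2 (by
    have := hi j (Finset.mem_univ j)
    rw [Q.ord_mul (inv_ne_zero (hc i)) (hc j), Q.ord_inv]
    omega)
  refine ⟨_, (c i)⁻¹, inv_ne_zero (hc i), rfl, ∑ j, (⟨_, h1 j⟩ : Q.OA) ⊗ₜ[κ] u j, ?_, fun h2 => ?_⟩
  · rw [map_sum, K4_smul_sum]
    rfl
  · simp only [map_sum, K4_red_tmul] at h2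
    have h3 := Fintype.linearIndependent_iff.1 hu _ h2 i
    rw [inv_mul_cancel₀ (hc i), ← map_one (algebraMap κ F'), Q.ev_algebraMap] at h3
    exact one_ne_zero h3

instance instIsDomainTensor : IsDomain (F' ⊗[κ] E) := by
  obtain ⟨Q⟩ : Nonempty (Place κ F') := inferInstance
  have : NoZeroDivisors (F' ⊗[κ] E) := ⟨fun {G H} h => by
    by_contra hc
    obtain ⟨k, hk⟩ := K4_exists_prim Q fun c : G = 0 => hc (Or.inl c)
    obtain ⟨l, hl⟩ := K4_exists_prim Q fun c : H = 0 => hc (Or.inr c)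
    exact (hk.mul hl).ne_zero h⟩
  exact NoZeroDivisors.to_isDomain _

end Pool.Agent.E6b

end

section
open scoped NNReal TensorProduct IntermediateField BigOperators Classical Topology
open Filter

namespace Pool.Agent.E6b
variable {κ F F' E : Type} [Field κ] [IsAlgClosed κ] [CharZero κ] [Field F] [Algebra κ F] [IsFF κ F]
  [Field F'] [Algebra κ F'] [IsFF κ F'] [Field E] [Algebra κ E] [IsFF κ E]

theorem K5_one_mem : (1 : F) ∈ LL (0 : Dv κ F) :=
  mem_LL.2 (Or.inr fun P => by rw [Place.ord_one]; simp)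

theorem K5_prod_mem {ι : Type} (s : Finset ι) (f : ι → F) (D : ι → Dv κ F)
    (h : ∀ i ∈ s, f i ∈ LL (D i)) : ∏ i ∈ s, f i ∈ LL (∑ i ∈ s, D i) := by
  induction s using Finset.induction_on with
  | empty => simpa using K5_one_mem
  | insert a s ha ih =>
    rw [Finset.prod_insert ha, Finset.sum_insert ha]
    exact mul_mem_LL (h a (Finset.mem_insert_self _ _))
      (ih fun i hi => h i (Finset.mem_insert_of_mem hi))

theorem K5_det_mem {m : Type} [Fintype m] (A : Matrix m m F) (D : m → Dv κ F)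
    (h : ∀ i j, A i j ∈ LL (D j)) : A.det ∈ LL (∑ j, D j) := by
  rw [Matrix.det_apply']
  refine Submodule.sum_mem _ fun σ _ => ?_
  have h1 := K5_prod_mem Finset.univ (fun j => A (σ j) j) D fun j _ => h _ _
  rcases Int.units_eq_one_or (Equiv.Perm.sign σ) with e | e
  · simpa [e] using h1
  · simpa [e] using Submodule.neg_mem _ h1

/-- Cramer's rule with bounds on the poles -/
theorem K5_cramer {J m : Type} [Fintype J] [Fintype m] (v : J → m → F) (D : J → Dv κ F)
    (hD : ∀ j i, v j i ∈ LL (D j)) :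
    ∃ T : Dv κ F, (∀ X : Dv κ F, 0 ≤ X → (∀ j, D j ≤ X) → T ≤ Fintype.card m • X) ∧
      (∀ b : ℕ, (∀ j, deg (D j) ≤ b) → deg T ≤ Fintype.card m * b) ∧
      ∃ δ : F, δ ≠ 0 ∧ δ ∈ LL T ∧ ∀ y ∈ Submodule.span F (Set.range v), ∀ D₀ : Dv κ F,
        (∀ i, y i ∈ LL D₀) → ∃ w : J → F, ∑ j, w j • v j = δ • y ∧
          ∀ j, w j ∈ LL (D₀ + T - D j) := by
  let v' : J ⊕ m → m → F := Sum.elim v fun i => Pi.single i 1
  let D' : J ⊕ m → Dv κ F := Sum.elim D fun _ => 0
  have hD' : ∀ x i, v' x i ∈ LL (D' x) := by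
    rintro (j | k) i
    · exact hD j i
    · change (Pi.single k (1 : F) : m → F) i ∈ LL 0
      rw [Pi.single_apply]
      split_ifs
      · exact K5_one_mem
      · exact Submodule.zero_mem _
  obtain ⟨s, hs, -, hsp, hsi⟩ := exists_linearIndepOn_extension (K := F) (v := v') (s := ∅)
    (t := Set.range Sum.inl) (linearIndepOn_empty _ _) (Set.empty_subset _)
  obtain ⟨b, -, hsb, hbp, hbi⟩ := exists_linearIndepOn_extension (t := Set.univ) hsi
    (Set.subset_univ _)
  have htop : ⊤ ≤ Submodule.span F (Set.range fun x : b => v' x) := by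
    rw [← (Pi.basisFun F m).span_eq, Submodule.span_le]
    rintro _ ⟨i, rfl⟩
    have h1 := hbp ⟨Sum.inr i, Set.mem_univ _, rfl⟩
    rw [Set.image_eq_range] at h1
    simpa [v'] using h1
  have hcard : Fintype.card m = Fintype.card b := by
    rw [← Module.finrank_eq_card_basis (Module.Basis.mk hbi htop),
      Module.finrank_fintype_fun_eq_card]
  let e : m ≃ b := Fintype.equivOfCardEq hcard
  let f : m → J ⊕ m := fun k => (e k).1
  let A : Matrix m m F := Matrix.of fun i k => v' (f k) i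
  have hA : A.det ≠ 0 := by
    have h1 : LinearIndependent F A.col := hbi.comp e e.injective
    exact ((Matrix.isUnit_iff_isUnit_det A).1
      (Matrix.linearIndependent_cols_iff_isUnit.1 h1)).ne_zero
  refine ⟨∑ k, D' (f k), fun X h0 hX => ?_, fun c hc => ?_, A.det, hA,
    K5_det_mem A _ fun i k => hD' _ _, fun y hy D₀ hy0 => ?_⟩
  · rw [← Finset.card_univ]
    refine Finset.sum_le_card_nsmul _ _ _ fun k _ => ?_
    rcases f k with j | i
    · exact hX j
    · exact h0
  · rw [deg_sum, ← Finset.card_univ, ← nsmul_eq_mul]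
    refine Finset.sum_le_card_nsmul _ _ _ fun k _ => ?_
    rcases f k with j | i
    · exact hc j
    · change deg (0 : Dv κ F) ≤ _
      rw [deg_zero]; positivity
  · have h1 : y ∈ Submodule.span F (v' '' s) := by
      refine Submodule.span_le.2 ?_ hy
      rintro _ ⟨j, rfl⟩
      exact hsp ⟨Sum.inl j, ⟨j, rfl⟩, rfl⟩
    have h2 : ∀ k i, f k = Sum.inr i → A.cramer y k = 0 := by
      intro k i hk
      clear hy hy0
      induction h1 using Submodule.span_induction with
      | mem x hx =>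
        obtain ⟨x, hx, rfl⟩ := hx
        have h3 : f (e.symm ⟨x, hsb hx⟩) = x := by simp [f]
        rw [Matrix.cramer_row_self A (v' x) (e.symm ⟨x, hsb hx⟩) fun j => by simp [A, h3],
          Pi.single_eq_of_ne]
        rintro rfl
        obtain ⟨j, hj⟩ := hs hx
        rw [h3, ← hj] at hk
        cases hk
      | zero => simp
      | add x x' _ _ h h' => rw [map_add, Pi.add_apply, h, h', add_zero]
      | smul c x _ h => rw [map_smul, Pi.smul_apply, h, smul_zero]
    refine ⟨fun j => ∑ k, if f k = Sum.inl j then A.cramer y k else 0, ?_, fun j => ?_⟩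
    · rw [← Matrix.mulVec_cramer]
      ext i
      simp only [Finset.sum_apply, Pi.smul_apply, smul_eq_mul, Finset.sum_mul, Matrix.mulVec,
        dotProduct]
      rw [Finset.sum_comm]
      refine Finset.sum_congr rfl fun k _ => ?_
      rcases hk : f k with j | l
      · simp [A, hk, v', mul_comm]
      · simp [h2 k l hk]
    · refine Submodule.sum_mem _ fun k _ => ?_
      split_ifs with hk
      · rw [Matrix.cramer_apply]
        have h3 := K5_det_mem (A.updateCol k y)
          (fun l => D' (f l) + if l = k then D₀ - D j else 0) fun i l => by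
            rw [Matrix.updateCol_apply]
            split_ifs with hl
            · subst hl
              simpa [hk, D'] using hy0 i
            · simpa [A] using hD' (f l) i
        rw [Finset.sum_add_distrib, Finset.sum_ite_eq' Finset.univ k, if_pos (Finset.mem_univ _)]
          at h3
        convert h3 using 2
        abel
      · exact Submodule.zero_mem _

end Pool.Agent.E6b

end
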