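import Pool.Agent.E6c.A03
import Pool.Agent.E6c.A04
import Pool.Agent.E6c.A05

section
open scoped NNReal TensorProduct IntermediateField BigOperators Classical Topology
open Filter

namespace Pool.Agent.E6b
variable {κ F : Type} [Field κ] [IsAlgClosed κ] [CharZero κ] [Field F] [Algebra κ F] [IsFF κ F]

/-- the differentials form a line over the function field -/
theorem F3_line {D₁ D₂ : Dv κ F} {ω₁ ω₂ : Module.Dual κ (F3A κ F)} (h₁ : ω₁ ∈ F3Om D₁)
    (h₂ : ω₂ ∈ F3Om D₂) (hne : ω₁ ≠ 0) : ∃ f : F, ω₂ = F3act ω₁ f := by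
  by_cases h0 : ω₂ = 0
  · exact ⟨0, by rw [h0, map_zero]⟩
  obtain ⟨B, -, hB⟩ := F3_exists_ge (0 : Dv κ F)
    (max 1 (3 * genus κ F - deg D₁ - deg D₂))
  obtain ⟨hfin, hr⟩ := F3Om_finrank (-B)
  have hl : ell (-B) = 0 := ell_eq_zero_iff.2 (LL_eq_bot (by rw [deg_neg]; omega))
  let Φ : (LL (D₁ + B) × LL (D₂ + B)) →ₗ[κ] F3Om (-B) :=
    LinearMap.codRestrict (F3Om (-B))
      (((F3act ω₁).domRestrict (LL (D₁ + B))).coprod (-(F3act ω₂).domRestrict (LL (D₂ + B))))
      (by
        rintro ⟨f, g⟩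
        have a1 := F3act_mem h₁ f.2
        have a2 := F3act_mem h₂ g.2
        rw [sub_add_cancel_left] at a1 a2
        exact add_mem a1 (neg_mem a2))
  have hk : LinearMap.ker Φ ≠ ⊥ := by
    refine LinearMap.ker_ne_bot_of_finrank_lt (K := κ) (V := LL (D₁ + B) × LL (D₂ + B))
      (V₂ := F3Om (-B)) (f := Φ) ?_
    rw [Module.finrank_prod]
    have r1 := riemann (D₁ + B)
    have r2 := riemann (D₂ + B)
    rw [deg_add] at r1 r2
    rw [deg_neg, hl] at hr
    change _ < ell (D₁ + B) + ell (D₂ + B)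
    omega
  obtain ⟨⟨f, g⟩, hfg, hne'⟩ := (Submodule.ne_bot_iff _).1 hk
  have e : F3act ω₁ f = F3act ω₂ g := by
    have := congrArg Subtype.val (LinearMap.mem_ker.1 hfg)
    change F3act ω₁ f + - F3act ω₂ g = 0 at this
    rwa [add_neg_eq_zero] at this
  have hg : (g : F) ≠ 0 := by
    intro hg
    rw [hg, map_zero] at e
    exact hne' (Prod.ext (Subtype.ext (F3act_eq_zero hne e)) (Subtype.ext hg))
  refine ⟨f * (g : F)⁻¹, ?_⟩
  rw [← F3act_mul, e, F3act_mul, mul_inv_cancel₀ hg, F3act_one]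

theorem F3_exists_canonical : ∃ W : Dv κ F, ∀ D : Dv κ F,
    (ell (W - D) : ℤ) = ell D - deg D - 1 + genus κ F := by
  obtain ⟨B, -, hB⟩ := F3_exists_ge (0 : Dv κ F) 2
  obtain ⟨hfin, hr⟩ := F3Om_finrank (-B)
  rw [deg_neg] at hr
  have hb : F3Om (-B) ≠ ⊥ := by
    intro h
    rw [h, finrank_bot] at hr
    omega
  obtain ⟨ω, hω, hne⟩ := (Submodule.ne_bot_iff _).1 hb
  obtain ⟨W, hW, hmax⟩ := F3_exists_max hω hne
  refine ⟨W, fun D => ?_⟩
  rw [← (F3Om_finrank D).2]
  let Φ : LL (W - D) →ₗ[κ] F3Om D :=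
    LinearMap.codRestrict (F3Om D) ((F3act ω).domRestrict (LL (W - D)))
      (fun f => by simpa using F3act_mem hW f.2)
  have hinj : Function.Injective Φ := by
    rw [injective_iff_map_eq_zero]
    intro f hf
    exact Subtype.ext (F3act_eq_zero hne (congrArg Subtype.val hf))
  have hsurj : Function.Surjective Φ := by
    rintro ⟨ω', hω'⟩
    obtain ⟨f, rfl⟩ := F3_line hW hω' hne
    by_cases hf : f = 0
    · exact ⟨0, Subtype.ext (by simp [hf])⟩
    have h1 : f⁻¹ ∈ LL (dv κ f) := by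
      rw [mem_LL_iff (inv_ne_zero hf), dv_inv, add_neg_cancel]
    have h2 := F3act_mem hω' h1
    rw [F3act_mul, mul_inv_cancel₀ hf, F3act_one] at h2
    have h3 := hmax _ h2
    refine ⟨⟨f, (mem_LL_iff hf).2 fun P => ?_⟩, rfl⟩
    have := h3 P
    simp only [Finsupp.coe_sub, Pi.sub_apply, Finsupp.coe_zero, Pi.zero_apply, Finsupp.coe_add,
      Pi.add_apply] at this ⊢
    omega
  rw [← (LinearEquiv.ofBijective Φ ⟨hinj, hsurj⟩).finrank_eq]
  rfl

end Pool.Agent.E6b

end

section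
open scoped NNReal TensorProduct IntermediateField BigOperators Classical Topology
open Filter

namespace Pool.Agent.E6b
variable {κ F : Type} [Field κ] [IsAlgClosed κ] [CharZero κ] [Field F] [Algebra κ F] [IsFF κ F]

/-- Riemann-Roch (Weil differentials) -/
theorem exists_canonical : ∃ W : Dv κ F, ∀ D : Dv κ F,
    (ell (W - D) : ℤ) = ell D - deg D - 1 + genus κ F := F3_exists_canonical

theorem rr_large {D : Dv κ F} (h : 2 * (genus κ F : ℤ) - 1 ≤ deg D) :
    (ell D : ℤ) = deg D + 1 - genus κ F := by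
  obtain ⟨W, hW⟩ := exists_canonical (κ := κ) (F := F)
  have h1 := (canonical_deg hW).1
  have h2 : ell (W - D) = 0 := ell_eq_zero_iff.2 (LL_eq_bot (by rw [deg_sub]; omega))
  have h3 := hW D
  omega

theorem bpf_of_large {D : Dv κ F} (h : 2 * (genus κ F : ℤ) ≤ deg D) : BPF D := by
  intro P
  have h1 := rr_large (D := D) (by omega)
  have h2 := rr_large (D := D - pd P) (by rw [deg_sub, deg_pd]; omega)
  rw [deg_sub, deg_pd] at h2
  obtain ⟨f, hf, hf0, hP⟩ := (ell_sub_pd_lt_iff D P).1 (by omega)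
  exact ⟨f, hf0, (mem_LL.1 hf).resolve_left hf0, hP⟩

end Pool.Agent.E6b

end

section
open scoped NNReal TensorProduct IntermediateField BigOperators Classical Topology
open Filter

namespace Pool.Agent.E6b
variable {κ F : Type} [Field κ] [IsAlgClosed κ] [CharZero κ] [Field F] [Algebra κ F] [IsFF κ F]

theorem O0_pole_zero (o : Place κ F) : O0_Pole o 0 :=
  ⟨1, by simp, by simpa using o.ord_one⟩

theorem O0_count (o : Place κ F) (n : ℕ) : Nat.count (O0_Pole o) (n + 1) = ell (n • pd o) := by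
  induction n with
  | zero =>
    rw [Nat.count_succ, Nat.count_zero, if_pos (O0_pole_zero o), zero_nsmul, ell_zero]
  | succ n ih =>
    rw [Nat.count_succ, ih]
    have h1 := ell_add_pd_le (n • pd o) o
    rw [← succ_nsmul] at h1
    have h2 : ell (n • pd o) ≤ ell ((n + 1) • pd o) := by
      refine ell_mono fun Q => ?_
      rw [O0_smul_pd, O0_smul_pd]
      split_ifs <;> simp
    have h3 := O0_pole_iff o n
    split_ifs with h
    · have := h3.1 h
      omega
    · have := mt h3.2 h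
      omega

theorem O0_count_large (o : Place κ F) {m : ℕ} (hm : 2 * genus κ F ≤ m) :
    Nat.count (O0_Pole o) m + genus κ F = m := by
  rcases m with _ | n
  · rw [Nat.count_zero]; omega
  · rw [O0_count]
    have := rr_large (D := n • pd o) (by rw [deg_nsmul, deg_pd]; omega)
    rw [deg_nsmul, deg_pd] at this
    omega

theorem O0_pole_large (o : Place κ F) {m : ℕ} (hm : 2 * genus κ F ≤ m) : O0_Pole o m := by
  have h1 := O0_count_large o hm
  have h2 := O0_count_large o (m := m + 1) (by omega)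
  rw [Nat.count_succ] at h2
  by_contra h
  rw [if_neg h] at h2
  omega

theorem O0_infinite (o : Place κ F) : (Set.ofPred (O0_Pole o)).Infinite := by
  refine Set.infinite_of_forall_exists_gt fun n => ⟨n + 1 + 2 * genus κ F, ?_, by omega⟩
  exact O0_pole_large o (by omega)

theorem O0_nth_large (o : Place κ F) {i : ℕ} (hi : genus κ F ≤ i) :
    Nat.nth (O0_Pole o) i = i + genus κ F := by
  have h1 := O0_count_large o (m := i + genus κ F) (by omega)
  have h2 := Nat.nth_count (O0_pole_large o (m := i + genus κ F) (by omega))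
  rwa [show Nat.count (O0_Pole o) (i + genus κ F) = i by omega] at h2

theorem O0_ord_nonpos (o : Place κ F) (a : AA o) : o.ord (a : F) ≤ 0 := by
  by_contra h
  obtain ⟨c, hc⟩ := mem_range_of_forall_mem (κ := κ) (f := (a : F)) fun P => by
    by_cases hP : P = o
    · subst hP; exact P.mem_iff.2 (by omega)
    · exact a.2 P hP
  rw [← hc, o.ord_algebraMap] at h
  exact h le_rfl

theorem O0_indep (o : Place κ F) (b : ℕ → AA o) (p : ℕ → ℕ) (hp : StrictMono p)
    (h0 : ∀ i, (b i : F) ≠ 0) (hb : ∀ i, o.ord (b i : F) = - (p i : ℤ)) :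
    LinearIndependent κ b := by
  rw [linearIndependent_iff']
  intro s c hs
  by_contra hn
  push Not at hn
  have hne : (s.filter fun i => c i ≠ 0).Nonempty := by
    obtain ⟨i, hi, hc⟩ := hn
    exact ⟨i, Finset.mem_filter.2 ⟨hi, hc⟩⟩
  obtain ⟨j, hj, hmax⟩ := Finset.exists_max_image _ (fun i : ℕ => i) hne
  rw [Finset.mem_filter] at hj
  have h1 := F1_sum_ne_zero o s (fun i => c i • (b i : F)) hj.1 (smul_ne_zero hj.2 (h0 j))
    (fun i hi hij => by
      by_cases hc : c i = 0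
      · left; simp [hc]
      · right
        have h2 : i < j := lt_of_le_of_ne (hmax i (Finset.mem_filter.2 ⟨hi, hc⟩)) hij
        have h3 := hp h2
        rw [o.ord_smul hj.2, o.ord_smul hc, hb, hb]
        omega)
  apply h1.1
  have h2 := congrArg (fun x : AA o => (x : F)) hs
  simpa using h2

theorem O0_span (o : Place κ F) (b : ℕ → AA o)
    (h0 : ∀ i, (b i : F) ≠ 0) (hb : ∀ i, o.ord (b i : F) = - (Nat.nth (O0_Pole o) i : ℤ)) :
    ⊤ ≤ Submodule.span κ (Set.range b) := by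
  have key : ∀ n : ℕ, ∀ a : AA o, ((a : F) = 0 ∨ - (n : ℤ) < o.ord (a : F)) →
      a ∈ Submodule.span κ (Set.range b) := by
    intro n
    induction n with
    | zero =>
      intro a ha
      have h1 := O0_ord_nonpos o a
      have h2 : (a : F) = 0 := ha.resolve_right (by simpa using h1)
      have h3 : a = 0 := Subtype.ext h2
      rw [h3]; exact zero_mem _
    | succ n ih =>
      intro a ha
      by_cases ha0 : (a : F) = 0
      · exact ih a (Or.inl ha0)
      by_cases hlt : - (n : ℤ) < o.ord (a : F)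
      · exact ih a (Or.inr hlt)
      have h1 : o.ord (a : F) = - (n : ℤ) := by
        have := ha.resolve_left ha0
        push_cast at this
        omega
      have h2 : O0_Pole o n := ⟨a, ha0, h1⟩
      set i := Nat.count (O0_Pole o) n with hi
      have h3 : o.ord (b i : F) = - (n : ℤ) := by rw [hb, hi, Nat.nth_count h2]
      have h4 : (a : F) / b i ∈ o.O := o.mem_iff.2 (by rw [o.ord_div ha0 (h0 i), h1, h3]; simp)
      set c := o.ev ((a : F) / b i) with hc
      have h5 : ((a - c • b i : AA o) : F) = ((a : F) / b i - algebraMap κ F c) * b i := by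
        have := h0 i
        rw [sub_mul, div_mul_cancel₀ _ this, ← Algebra.smul_def]
        simp
      have h6 : a - c • b i ∈ Submodule.span κ (Set.range b) := by
        apply ih
        rw [h5]
        rcases o.ev_spec h4 with h | h
        · left
          rw [← hc] at h
          rw [sub_eq_zero.2 h, zero_mul]
        · right
          rw [← hc] at h
          rw [o.ord_mul (F1a_ne_zero_of_ord o h.ne') (h0 i), h3]
          omega
      have h7 : c • b i ∈ Submodule.span κ (Set.range b) :=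
        Submodule.smul_mem _ _ (Submodule.subset_span ⟨i, rfl⟩)
      simpa using add_mem h6 h7
  intro a _
  refine key ((- o.ord (a : F)).toNat + 1) a (Or.inr ?_)
  push_cast
  omega

theorem exists_eb (o : Place κ F) : ∃ b p, EBSpec o b p := by
  have hinf := O0_infinite o
  have hz : Nat.nth (O0_Pole o) 0 = 0 := Nat.nth_zero_of_zero (O0_pole_zero o)
  have hex : ∀ i, ∃ f : AA o, (f : F) ≠ 0 ∧ o.ord (f : F) = - (Nat.nth (O0_Pole o) i : ℤ) ∧
      (i = 0 → f = 1) := by
    intro i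
    by_cases hi : i = 0
    · subst hi
      exact ⟨1, by simp, by rw [hz]; simpa using o.ord_one, fun _ => rfl⟩
    · obtain ⟨f, h1, h2⟩ := Nat.nth_mem_of_infinite hinf i
      exact ⟨f, h1, h2, fun h => absurd h hi⟩
  choose f hf0 hf hf1 using hex
  set g := genus κ F with hg
  let b : ℕ → AA o := fun i =>
    if i < g then f i else f (g + (i - g) % (2 * g + 1)) * f (g + 1) ^ ((i - g) / (2 * g + 1))
  have hb0 : ∀ i, (b i : F) ≠ 0 := by
    intro i
    simp only [b]
    split_ifs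
    · exact hf0 i
    · push_cast
      exact mul_ne_zero (hf0 _) (pow_ne_zero _ (hf0 _))
  have hb : ∀ i, o.ord (b i : F) = - (Nat.nth (O0_Pole o) i : ℤ) := by
    intro i
    simp only [b]
    split_ifs with h
    · exact hf i
    · push_cast
      rw [o.ord_mul (hf0 _) (pow_ne_zero _ (hf0 _)), o.ord_pow, hf, hf,
        O0_nth_large o (Nat.le_add_right _ _), O0_nth_large o (Nat.le_add_right _ _),
        O0_nth_large o (not_lt.1 h), ← hg]
      have h1 := Nat.mod_add_div (i - g) (2 * g + 1)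
      have h2 : i - g + g = i := by omega
      generalize (i - g) % (2 * g + 1) = r at h1 ⊢
      generalize (i - g) / (2 * g + 1) = q at h1 ⊢
      rw [← h2, ← h1]
      push_cast
      ring
  have hbz : b 0 = 1 := by
    simp only [b]
    split_ifs with h
    · exact hf1 0 rfl
    · have h1 : g = 0 := by omega
      simp [h1, hf1 0 rfl]
  have hbg : b (g + 1) = f (g + 1) := by
    simp only [b]
    rw [if_neg (by omega), Nat.add_sub_cancel_left]
    rcases Nat.eq_zero_or_pos g with h | h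
    · simp [h, hf1 0 rfl]
    · rw [Nat.mod_eq_of_lt (by omega), Nat.div_eq_of_lt (by omega), pow_zero, mul_one]
  refine ⟨Module.Basis.mk (O0_indep o b _ (Nat.nth_strictMono hinf) hb0 hb) (O0_span o b hb0 hb),
    Nat.nth (O0_Pole o), ?_, ?_, Nat.nth_strictMono hinf, fun i hi => O0_nth_large o hi, ?_⟩
  · rw [Module.Basis.mk_apply, hbz]
  · intro i
    rw [Module.Basis.mk_apply, hb]
  · intro i hi
    rw [Module.Basis.mk_apply, Module.Basis.mk_apply, Module.Basis.mk_apply, ← hg, hbg]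
    rw [← hg] at hi
    simp only [b]
    rw [if_neg (by omega), if_neg (by omega),
      show i + (2 * g + 1) - g = (i - g) + (2 * g + 1) by omega, Nat.add_mod_right,
      Nat.add_div_right _ (by omega), pow_succ, mul_assoc]

instance instFiniteTypeAA (o : Place κ F) : Algebra.FiniteType κ (AA o) := by
  obtain ⟨b, p, h⟩ := exists_eb o
  refine ⟨⟨(Finset.range (3 * genus κ F + 2)).image b, ?_⟩⟩
  set A := Algebra.adjoin κ (((Finset.range (3 * genus κ F + 2)).image b : Finset (AA o)) :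
    Set (AA o)) with hA
  have h1 : ∀ i, i < 3 * genus κ F + 2 → b i ∈ A := fun i hi =>
    Algebra.subset_adjoin (Finset.mem_coe.2 (Finset.mem_image_of_mem _ (Finset.mem_range.2 hi)))
  have h2 : ∀ i, b i ∈ A := by
    intro i
    induction i using Nat.strong_induction_on with
    | _ i ih =>
      by_cases hi : i < 3 * genus κ F + 2
      · exact h1 i hi
      · obtain ⟨j, rfl⟩ : ∃ j, i = j + (2 * genus κ F + 1) := ⟨i - (2 * genus κ F + 1), by omega⟩
        rw [h.per j (by omega)]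
        exact mul_mem (ih j (by omega)) (h1 _ (by omega))
  rw [eq_top_iff]
  intro a _
  have h3 : Submodule.span κ (Set.range b) ≤ A.toSubmodule :=
    Submodule.span_le.2 (by rintro _ ⟨i, rfl⟩; exact h2 i)
  exact h3 (b.mem_span a)

theorem O0_exists_den (o : Place κ F) {P : Place κ F} (hP : P ≠ o) (f : F) :
    ∃ a s : AA o, (s : F) ≠ 0 ∧ P.ord (s : F) = max (- P.ord f) 0 ∧ f * s = a := by
  set N : ℕ := 2 * genus κ F + (deg (dinf κ f)).toNat with hN
  have h := bpf_of_large (D := N • pd o - dinf κ f) (by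
    rw [deg_sub, deg_nsmul, deg_pd, hN]
    push_cast
    omega)
  obtain ⟨s, hs0, hs, hsP⟩ := h P
  have h1 : ∀ Q : Place κ F, Q ≠ o → - (N • pd o - dinf κ f : Dv κ F) Q = max (- Q.ord f) 0 := by
    intro Q hQ
    rw [Finsupp.sub_apply, O0_smul_pd, if_neg (Ne.symm hQ), dinf_apply]
    ring
  refine ⟨⟨f * s, fun Q hQ => ?_⟩, ⟨s, fun Q hQ => ?_⟩, hs0, ?_, rfl⟩
  · by_cases hf : f = 0
    · rw [hf, zero_mul]; exact zero_mem _
    · have := hs Q
      rw [h1 Q hQ] at this
      rw [Q.mem_iff, Q.ord_mul hf hs0]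
      omega
  · have := hs Q
    rw [h1 Q hQ] at this
    rw [Q.mem_iff]
    omega
  · rw [← h1 P hP]
    exact hsP

theorem exists_place_of_pt (o : Place κ F) (χ : AA o →ₐ[κ] κ) :
    ∃ P : Place κ F, P ≠ o ∧ ∀ a : AA o, P.ev a = χ a := by
  obtain ⟨w, -, hw⟩ := O0_pole_large o (m := 2 * genus κ F + 1) (by omega)
  obtain ⟨P, hP⟩ := exists_place_of_algHom (AA o) ⟨w, w.2, by
    rintro ⟨c, hc⟩
    rw [← hc, o.ord_algebraMap] at hw
    omega⟩ χ
  refine ⟨P, ?_, fun a => (hP a).2⟩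
  rintro rfl
  have := P.mem_iff.1 (hP w).1
  omega

/-- the local ring at a place `P ≠ o` is the localisation of `AA o`. -/
theorem exists_div_AA (o : Place κ F) {P : Place κ F} (hP : P ≠ o) {f : F} (hf : f ∈ P.O) :
    ∃ a s : AA o, P.ev s ≠ 0 ∧ f * s = a := by
  obtain ⟨a, s, hs, h1, h⟩ := O0_exists_den o hP f
  refine ⟨a, s, fun h0 => ?_, h⟩
  have h2 := P.mem_iff.1 hf
  have h3 := (P.ev_eq_zero_iff (s.2 P hP)).1 h0
  rcases h3 with h3 | h3
  · exact hs h3
  · omega

end Pool.Agent.E6b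

end

section
open scoped NNReal TensorProduct IntermediateField BigOperators Classical Topology
open Filter

namespace Pool.Agent.E6b

section
variable {κ F : Type} [Field κ] [IsAlgClosed κ] [CharZero κ] [Field F] [Algebra κ F] [IsFF κ F]
  (o : Place κ F)

noncomputable def eb : Module.Basis ℕ κ (AA o) := (exists_eb o).choose

/-- pole numbers -/
noncomputable def pn : ℕ → ℕ := (exists_eb o).choose_spec.choose

theorem ebSpec : EBSpec o (eb o) (pn o) := (exists_eb o).choose_spec.choose_spec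

/-- `3 g + 2` : the `eb i`, `i < MM`, generate `AA o` -/
noncomputable def MM (_o : Place κ F) : ℕ := 3 * genus κ F + 2

/-- a function with a pole of order `NN` at `o` -/
noncomputable def wN : AA o := eb o (genus κ F + 1)

/-- points with values in `Ω` -/
abbrev Pt (Ω : Type) [CommRing Ω] [Algebra κ Ω] : Type := AA o →ₐ[κ] Ω

/-- base change of `AA o` -/
abbrev AO (Ω : Type) [Field Ω] [Algebra κ Ω] : Type := Ω ⊗[κ] AA o

section
variable {κ F : Type} [Field κ] [Field F] [Algebra κ F] (o : Place κ F) (Ω : Type) [Field Ω]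
  [Algebra κ Ω]

noncomputable instance fastAO₀ : CommRing (AO o Ω) := inferInstance

noncomputable instance fastAO₁ : Ring (AO o Ω) := inferInstance

noncomputable instance fastAO₂ : CommSemiring (AO o Ω) := inferInstance

noncomputable instance fastAO₃ : Semiring (AO o Ω) := inferInstance

noncomputable instance fastAO₄ : NonAssocSemiring (AO o Ω) := inferInstance

noncomputable instance fastAO₇ : Mul (AO o Ω) := inferInstance

noncomputable instance fastAO₈ : Algebra κ (AO o Ω) := inferInstance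

noncomputable instance fastAO₉ : Algebra Ω (AO o Ω) := inferInstance

instance fastAOT₁ : IsScalarTower κ Ω (AO o Ω) := inferInstance

end
variable {Ω : Type} [Field Ω] [Algebra κ Ω]

/-- the basis `1 ⊗ eb i` -/
noncomputable def ebO (Ω : Type) [Field Ω] [Algebra κ Ω] : Module.Basis ℕ Ω (AO o Ω) :=
  Algebra.TensorProduct.basis Ω (eb o)

end

end Pool.Agent.E6b

end

section
open scoped NNReal TensorProduct IntermediateField BigOperators Classical Topology
open Filter

namespace Pool.Agent.E6b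

section
variable {κ B : Type} [Field κ] [CommRing B] [Algebra κ B]

theorem Osm_dlt_mem {S : Set B} {a : B} (ha : a ∈ Algebra.adjoin κ S) :
    (dlt a : B ⊗[κ] B) ∈ Ideal.span ((dlt : B → B ⊗[κ] B) '' S) := by
  induction ha using Algebra.adjoin_induction with
  | mem x hx => exact Ideal.subset_span ⟨x, hx, rfl⟩
  | algebraMap c => rw [Osm_dlt_const]; exact zero_mem _
  | add x y _ _ hx hy => rw [Osm_dlt_add]; exact add_mem hx hy
  | mul x y _ _ hx hy =>
    rw [Osm_dlt_mul]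
    exact add_mem (Ideal.mul_mem_left _ _ hy) (Ideal.mul_mem_left _ _ hx)

theorem Osm_loc (χ : B →ₐ[κ] κ) {S : Set B} (hS : S.Finite) {t : B} (ht : χ t = 0)
    (h : ∀ a ∈ S, ∃ s ∈ Algebra.adjoin κ S, ∃ m ∈ Algebra.adjoin κ S, χ s ≠ 0 ∧
      s * (a - algebraMap κ B (χ a)) = t * m) :
    ∃ u : B ⊗[κ] B, χ (Algebra.TensorProduct.lmul' κ u) = 1 ∧
      ∀ a ∈ Algebra.adjoin κ S, ∃ w : B ⊗[κ] B, u * dlt a = w * dlt t := by
  let ψ : B ⊗[κ] B →ₐ[κ] κ := χ.comp (Algebra.TensorProduct.lmul' κ)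
  have hψ : ∀ a b : B, ψ (a ⊗ₜ b) = χ a * χ b := fun a b => by simp [ψ]
  let J : Ideal (B ⊗[κ] B) := Ideal.span ((dlt : B → B ⊗[κ] B) '' S)
  have hle : J ≤ Ideal.span {(dlt t : B ⊗[κ] B)} ⊔ RingHom.ker ψ • J := by
    rw [Ideal.span_le]
    rintro _ ⟨a, ha, rfl⟩
    obtain ⟨s, hs, m, hm, h0, h1⟩ := h a ha
    have h2 := congrArg (dlt : B → B ⊗[κ] B) h1
    rw [Osm_dlt_mul, Osm_dlt_mul, Osm_dlt_sub, Osm_dlt_const, sub_zero] at h2
    have key : ∀ {x : B ⊗[κ] B} {b : B}, ψ x = 0 → b ∈ Algebra.adjoin κ S →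
        x * dlt b ∈ Ideal.span {(dlt t : B ⊗[κ] B)} ⊔ RingHom.ker ψ • J := fun hx hb =>
      Ideal.mem_sup_right (Submodule.smul_mem_smul hx (Osm_dlt_mem hb))
    have h3 : (dlt a : B ⊗[κ] B) = algebraMap κ _ (χ s)⁻¹ *
        (1 ⊗ₜ[κ] m * dlt t + t ⊗ₜ[κ] 1 * dlt m - 1 ⊗ₜ[κ] (a - algebraMap κ B (χ a)) * dlt s
          - (s ⊗ₜ[κ] 1 - algebraMap κ _ (χ s)) * dlt a) := by
      have h4 : algebraMap κ (B ⊗[κ] B) (χ s)⁻¹ * algebraMap κ _ (χ s) = 1 := by
        rw [← map_mul, inv_mul_cancel₀ h0, map_one]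
      linear_combination algebraMap κ (B ⊗[κ] B) (χ s)⁻¹ * h2 - dlt a * h4
    rw [SetLike.mem_coe, h3]
    refine Ideal.mul_mem_left _ _ (sub_mem (sub_mem (add_mem ?_ (key ?_ hm)) (key ?_ hs))
      (key ?_ (Algebra.subset_adjoin ha)))
    · exact Ideal.mem_sup_left (Ideal.mul_mem_left _ _ (Ideal.subset_span rfl))
    · rw [hψ, ht, zero_mul]
    · simp [hψ]
    · rw [map_sub, hψ, AlgHom.commutes]
      simp
  obtain ⟨u, hu, hJ⟩ := Submodule.exists_sub_one_mem_and_smul_le_of_fg_of_le_sup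
    (Submodule.fg_span (hS.image _)) le_rfl hle
  refine ⟨u, ?_, fun a ha => ?_⟩
  · have h1 : ψ (u - 1) = 0 := hu
    rwa [map_sub, map_one, sub_eq_zero] at h1
  · obtain ⟨w, hw⟩ := Ideal.mem_span_singleton'.1
      (hJ (Submodule.smul_mem_pointwise_smul _ u _ (Osm_dlt_mem ha)))
    exact ⟨w, hw.symm⟩

theorem Osm_pt [IsAlgClosed κ] {C : Type} [CommRing C] [IsDomain C] [Algebra κ C]
    [Algebra.IsIntegral κ C] (y : B →ₐ[κ] C) : ∃ p : B →ₐ[κ] κ, ∀ a, y a = algebraMap κ C (p a) := by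
  let e : κ ≃ₐ[κ] C :=
    AlgEquiv.ofBijective (Algebra.ofId κ C) IsAlgClosed.algebraMap_bijective_of_isIntegral
  exact ⟨e.symm.toAlgHom.comp y, fun a => (e.apply_symm_apply _).symm⟩

theorem Osm_top [IsAlgClosed κ] [Algebra.FiniteType κ B] (I : Ideal B)
    (h : ∀ χ : B →ₐ[κ] κ, ∃ a ∈ I, χ a ≠ 0) : I = ⊤ := by
  by_contra hI
  obtain ⟨m, hm, hle⟩ := Ideal.exists_le_maximal I hI
  let _ := Ideal.Quotient.field m
  have := finite_of_finite_type_of_isJacobsonRing κ (B ⧸ m)
  obtain ⟨p, hp⟩ := Osm_pt (Ideal.Quotient.mkₐ κ m)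
  obtain ⟨a, ha, h0⟩ := h p
  have h1 := hp a
  rw [Ideal.Quotient.mkₐ_eq_mk, Ideal.Quotient.eq_zero_iff_mem.2 (hle ha)] at h1
  exact h0 ((map_eq_zero _).1 h1.symm)

end
variable {κ F : Type} [Field κ] [IsAlgClosed κ] [CharZero κ] [Field F] [Algebra κ F] [IsFF κ F]
  (o : Place κ F)

theorem Osm_ind (N : Submodule κ (AA o)) (h0 : ∀ i : Fin (MM o), eb o i ∈ N)
    (h1 : ∀ a ∈ N, a * wN o ∈ N) : N = ⊤ := by
  rw [eq_top_iff, ← (eb o).span_eq, Submodule.span_le]
  rintro _ ⟨i, rfl⟩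
  induction i using Nat.strong_induction_on with
  | _ i ih =>
    by_cases hi : i < MM o
    · exact h0 ⟨i, hi⟩
    · obtain ⟨j, rfl⟩ : ∃ j, i = j + (2 * genus κ F + 1) :=
        ⟨i - (2 * genus κ F + 1), by unfold MM at hi; omega⟩
      rw [(ebSpec o).per j (by unfold MM at hi; omega)]
      exact h1 _ (ih j (by omega))

theorem adjoin_eb : Algebra.adjoin κ (Set.range fun i : Fin (MM o) => eb o i) = ⊤ := by
  rw [← Algebra.toSubmodule_eq_top]
  exact Osm_ind o _ (fun i => Algebra.subset_adjoin ⟨i, rfl⟩) fun a ha => Subalgebra.mul_mem _ ha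
    (Algebra.subset_adjoin ⟨⟨genus κ F + 1, by unfold MM; omega⟩, rfl⟩)

theorem Osm_div {P : Place κ F} (hP : P ≠ o) {t a : F} (ht : P.ord t = 1) (ha : a ∈ P.O) :
    ∃ s m : AA o, P.ev s ≠ 0 ∧ s * (a - algebraMap κ F (P.ev a)) = t * m := by
  have h0 : t ≠ 0 := fun h => by simp [h, P.ord_zero] at ht
  have h1 : (a - algebraMap κ F (P.ev a)) / t ∈ P.O := by
    rcases eq_or_ne (a - algebraMap κ F (P.ev a)) 0 with h | h
    · rw [h, zero_div]
      exact zero_mem _
    · have := (P.ev_spec ha).resolve_left (sub_ne_zero.1 h)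
      rw [P.mem_iff, P.ord_div h h0]
      omega
  obtain ⟨m, s, h2, h3⟩ := exists_div_AA o hP h1
  exact ⟨s, m, h2, by rw [← h3]; field_simp⟩

theorem Osm_at (χ : Pt o κ) : ∃ (τ : AA o) (u : AA o ⊗[κ] AA o),
    χ (Algebra.TensorProduct.lmul' κ u) = 1 ∧
      ∀ a : AA o, ∃ w : AA o ⊗[κ] AA o, u * dlt a = w * dlt τ := by
  obtain ⟨P, hP, hχ⟩ := exists_place_of_pt o χ
  obtain ⟨π, h0, h1⟩ := P.exists_ord_eq 1
  obtain ⟨t, s, hs, ht⟩ := exists_div_AA o hP (f := π) (by rw [P.mem_iff]; omega)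
  have h2 : P.ord (t : F) = 1 := by
    have h3 := (P.ev_eq_zero_iff (s.2 P hP)).not.1 hs
    have h4 := P.mem_iff.1 (s.2 P hP)
    rw [not_or] at h3
    rw [← ht, P.ord_mul h0 h3.1]
    omega
  obtain ⟨u, hu, h⟩ := Osm_loc χ (Set.finite_range fun i : Fin (MM o) => eb o i) (t := t)
    (by rw [← hχ, P.ev_eq_zero_iff (t.2 P hP)]; omega) fun a _ => by
      obtain ⟨s, m, h3, h4⟩ := Osm_div o hP h2 (a.2 P hP)
      rw [adjoin_eb]
      rw [hχ] at h3 h4
      exact ⟨s, trivial, m, trivial, h3, Subtype.ext h4⟩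
  exact ⟨t, u, hu, fun a => h a (by rw [adjoin_eb]; trivial)⟩

/-- smoothness of the affine curve -/
theorem exists_smooth : ∃ (n : ℕ) (τ v : Fin n → AA o) (u : Fin n → AA o ⊗[κ] AA o),
    ∑ i, v i * Algebra.TensorProduct.lmul' κ (u i) = 1 ∧
      ∀ i (a : AA o), ∃ w : AA o ⊗[κ] AA o, u i * dlt a = w * dlt (τ i) := by
  choose τ u h1 h2 using Osm_at o
  have h3 := Osm_top (κ := κ) (Ideal.span (Set.range fun χ => Algebra.TensorProduct.lmul' κ (u χ)))
    fun χ => ⟨_, Ideal.subset_span ⟨χ, rfl⟩, by rw [h1]; exact one_ne_zero⟩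
  obtain ⟨n, v, g, h4⟩ := Submodule.mem_span_set'.1 ((Ideal.eq_top_iff_one _).1 h3)
  choose χ hχ using fun i => (g i).2
  exact ⟨n, fun i => τ (χ i), v, fun i => u (χ i), by simpa only [← hχ, smul_eq_mul] using h4,
    fun i => h2 (χ i)⟩

end Pool.Agent.E6b

end

section
open scoped NNReal TensorProduct IntermediateField BigOperators Classical Topology
open Filter

namespace Pool.Agent.E6b
variable {κ F : Type} [Field κ] [IsAlgClosed κ] [CharZero κ] [Field F] [Algebra κ F] [IsFF κ F]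
  (o : Place κ F) (Ω : Type) [Field Ω] [Algebra κ Ω]

/-- `i` is the largest index in the support -/
def O1a_Top {R : Type} [Zero R] (f : ℕ →₀ R) (i : ℕ) : Prop := f i ≠ 0 ∧ ∀ j, i < j → f j = 0

theorem O1a_exists_top {R : Type} [Zero R] {f : ℕ →₀ R} (hf : f ≠ 0) : ∃ i, O1a_Top f i := by
  have hne := Finsupp.support_nonempty_iff.2 hf
  refine ⟨f.support.max' hne, Finsupp.mem_support_iff.1 (f.support.max'_mem hne), fun j hj => ?_⟩
  by_contra h
  exact absurd (f.support.le_max' j (Finsupp.mem_support_iff.2 h)) (not_le.2 hj)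

theorem O1a_eb_ne (i : ℕ) : (eb o i : F) ≠ 0 := fun h =>
  (eb o).ne_zero i (Subtype.ext h)

theorem O1a_ord {a : AA o} {i : ℕ} (h : O1a_Top ((eb o).repr a) i) :
    o.ord (a : F) = - (pn o i : ℤ) := by
  have h1 : (a : F) = ∑ j ∈ ((eb o).repr a).support, (eb o).repr a j • (eb o j : F) := by
    conv_lhs => rw [← (eb o).linearCombination_repr a, Finsupp.linearCombination_apply,
      Finsupp.sum]
    simp
  have h2 := F1_sum_ne_zero o ((eb o).repr a).support (fun j => (eb o).repr a j • (eb o j : F))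
    (Finsupp.mem_support_iff.2 h.1) (smul_ne_zero h.1 (O1a_eb_ne o i)) fun j hj hji => by
      have hj' := Finsupp.mem_support_iff.1 hj
      have h3 : j < i := lt_of_le_of_ne (not_lt.1 fun c => hj' (h.2 j c)) hji
      have h4 := (ebSpec o).mono h3
      right
      rw [o.ord_smul h.1, o.ord_smul hj', (ebSpec o).ord, (ebSpec o).ord]
      omega
  rw [h1, h2.2, o.ord_smul h.1, (ebSpec o).ord]

theorem O1a_mul_eb (i j : ℕ) :
    ∃ k, pn o k = pn o i + pn o j ∧ O1a_Top ((eb o).repr (eb o i * eb o j)) k := by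
  have h0 : eb o i * eb o j ≠ 0 := mul_ne_zero ((eb o).ne_zero i) ((eb o).ne_zero j)
  obtain ⟨k, hk⟩ := O1a_exists_top (f := (eb o).repr (eb o i * eb o j)) (by simpa using h0)
  refine ⟨k, ?_, hk⟩
  have h1 := O1a_ord o hk
  rw [MulMemClass.coe_mul, o.ord_mul (O1a_eb_ne o i) (O1a_eb_ne o j), (ebSpec o).ord,
    (ebSpec o).ord] at h1
  omega

theorem O1a_ebO (i : ℕ) : ebO o Ω i = 1 ⊗ₜ[κ] eb o i := Algebra.TensorProduct.basis_apply _ i

theorem O1a_mul_ebO (i j : ℕ) :
    ∃ k, pn o k = pn o i + pn o j ∧ O1a_Top ((ebO o Ω).repr (ebO o Ω i * ebO o Ω j)) k := by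
  obtain ⟨k, hk, h1, h2⟩ := O1a_mul_eb o i j
  have h3 : ∀ l, (ebO o Ω).repr (ebO o Ω i * ebO o Ω j) l =
      algebraMap κ Ω ((eb o).repr (eb o i * eb o j) l) := fun l => by
    rw [O1a_ebO, O1a_ebO, Algebra.TensorProduct.tmul_mul_tmul, one_mul, ebO,
      Algebra.TensorProduct.basis_repr_tmul, one_smul, Finsupp.mapRange_apply]
  refine ⟨k, hk, ?_, fun l hl => ?_⟩
  · rw [h3]
    simpa using h1
  · rw [h3, h2 l hl, map_zero]

/-- functions with pole order less than `n` -/
noncomputable def O1a_S (n : ℕ) : Submodule Ω (AO o Ω) :=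
  Submodule.span Ω (ebO o Ω '' {i | pn o i < n})

theorem O1a_mem_S {n : ℕ} {f : AO o Ω} :
    f ∈ O1a_S o Ω n ↔ ∀ i, (ebO o Ω).repr f i ≠ 0 → pn o i < n := by
  rw [O1a_S, Module.Basis.mem_span_image]
  exact ⟨fun h i hi => h (Finsupp.mem_support_iff.2 hi),
    fun h i hi => h i (Finsupp.mem_support_iff.1 hi)⟩

theorem O1a_top_mem {f : AO o Ω} {i : ℕ} (h : O1a_Top ((ebO o Ω).repr f) i) :
    f ∈ O1a_S o Ω (pn o i + 1) :=
  (O1a_mem_S o Ω).2 fun j hj =>
    Nat.lt_succ_of_le ((ebSpec o).mono.monotone (not_lt.1 fun c => hj (h.2 j c)))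

theorem O1a_mul_S {n m : ℕ} {f g : AO o Ω} (hf : f ∈ O1a_S o Ω (n + 1)) (hg : g ∈ O1a_S o Ω m) :
    f * g ∈ O1a_S o Ω (n + m) := by
  have h : O1a_S o Ω (n + 1) * O1a_S o Ω m ≤ O1a_S o Ω (n + m) := by
    rw [O1a_S, O1a_S, Submodule.span_mul_span, Submodule.span_le]
    rintro _ ⟨_, ⟨i, hi, rfl⟩, _, ⟨j, hj, rfl⟩, rfl⟩
    obtain ⟨k, hk, h1⟩ := O1a_mul_ebO o Ω i j
    have hi' : pn o i < n + 1 := hi
    have hj' : pn o j < m := hj
    refine (O1a_mem_S o Ω).2 fun l hl => ?_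
    have := (O1a_mem_S o Ω).1 (O1a_top_mem o Ω h1) l hl
    omega
  exact h (Submodule.mul_mem_mul hf hg)

theorem O1a_lead {f : AO o Ω} {i : ℕ} (h : O1a_Top ((ebO o Ω).repr f) i) :
    f - (ebO o Ω).repr f i • ebO o Ω i ∈ O1a_S o Ω (pn o i) := by
  refine (O1a_mem_S o Ω).2 fun j hj => (ebSpec o).mono ?_
  rw [map_sub, map_smul, Module.Basis.repr_self, Finsupp.sub_apply, Finsupp.smul_apply] at hj
  rcases lt_trichotomy j i with c | c | c
  · exact c
  · subst c
    simp at hj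
  · rw [h.2 j c, Finsupp.single_eq_of_ne c.ne'] at hj
    simp at hj

theorem O1a_mul_top {f g : AO o Ω} {i j : ℕ} (hf : O1a_Top ((ebO o Ω).repr f) i)
    (hg : O1a_Top ((ebO o Ω).repr g) j) :
    ∃ k, pn o k = pn o i + pn o j ∧ O1a_Top ((ebO o Ω).repr (f * g)) k := by
  obtain ⟨k, hk, h1⟩ := O1a_mul_ebO o Ω i j
  obtain ⟨c, hc⟩ : ∃ c, c = (ebO o Ω).repr f i := ⟨_, rfl⟩
  obtain ⟨d, hd⟩ : ∃ d, d = (ebO o Ω).repr g j := ⟨_, rfl⟩
  have h2 := O1a_mul_S o Ω (O1a_top_mem o Ω hf) (O1a_lead o Ω hg)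
  have hj : ebO o Ω j ∈ O1a_S o Ω (pn o j + 1) :=
    Submodule.subset_span ⟨j, Nat.lt_succ_self _, rfl⟩
  have h3 := O1a_mul_S o Ω (Submodule.smul_mem _ d hj) (O1a_lead o Ω hf)
  rw [add_comm] at h3
  rw [← hd] at h2
  rw [← hc] at h3
  have h4 := (O1a_mem_S o Ω).1 (Submodule.add_mem _ h2 h3)
  have h5 : f * (g - d • ebO o Ω j) + d • ebO o Ω j * (f - c • ebO o Ω i) =
      f * g - (c * d) • (ebO o Ω i * ebO o Ω j) := by
    have e : ∀ (x : Ω) (y : AO o Ω), x • y = algebraMap Ω (AO o Ω) x * y :=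
      fun x y => Algebra.smul_def x y
    rw [e, e, e, map_mul]
    ring
  rw [h5] at h4
  have h6 : ∀ l, k ≤ l → (ebO o Ω).repr (f * g) l =
      c * d * (ebO o Ω).repr (ebO o Ω i * ebO o Ω j) l := fun l hl => by
    by_contra h7
    have h8 := h4 l (by
      rw [map_sub, map_smul, Finsupp.sub_apply, Finsupp.smul_apply, smul_eq_mul]
      exact sub_ne_zero.2 h7)
    have h9 := (ebSpec o).mono.monotone hl
    omega
  refine ⟨k, hk, ?_, fun l hl => ?_⟩
  · rw [h6 k le_rfl]
    exact mul_ne_zero (mul_ne_zero (hc ▸ hf.1) (hd ▸ hg.1)) h1.1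
  · rw [h6 l hl.le, h1.2 l hl, mul_zero]

theorem O1a_top {f : AO o Ω} (hf : f ≠ 0) : ∃ i, O1a_Top ((ebO o Ω).repr f) i :=
  O1a_exists_top (by simpa using hf)

theorem O1a_ne_of_top {f : AO o Ω} {i : ℕ} (h : O1a_Top ((ebO o Ω).repr f) i) : f ≠ 0 := by
  rintro rfl
  exact h.1 (by simp)

instance instIsDomainAO : IsDomain (AO o Ω) := by
  have : Nontrivial (AO o Ω) := ⟨_, _, (ebO o Ω).ne_zero 0⟩
  have : NoZeroDivisors (AO o Ω) := ⟨fun {f g} h => by
    by_contra hc
    obtain ⟨i, hi⟩ := O1a_top o Ω fun c => hc (Or.inl c)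
    obtain ⟨j, hj⟩ := O1a_top o Ω fun c => hc (Or.inr c)
    obtain ⟨k, -, hk⟩ := O1a_mul_top o Ω hi hj
    exact O1a_ne_of_top o Ω hk h⟩
  exact NoZeroDivisors.to_isDomain _

instance instNontrivialAO : Nontrivial (AO o Ω) := (instIsDomainAO o Ω).toNontrivial

instance instNoZeroDivisorsAO : NoZeroDivisors (AO o Ω) := IsDomain.to_noZeroDivisors _

instance instNeZeroAO : NeZero (1 : AO o Ω) := NeZero.one

/-- the pole order -/
noncomputable def O1a_dg (f : AO o Ω) : ℕ := ((ebO o Ω).repr f).support.sup (pn o)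

theorem O1a_dg_top {f : AO o Ω} {i : ℕ} (h : O1a_Top ((ebO o Ω).repr f) i) :
    O1a_dg o Ω f = pn o i :=
  le_antisymm (Finset.sup_le fun j hj => Nat.le_of_lt_succ
    ((O1a_mem_S o Ω).1 (O1a_top_mem o Ω h) j (Finsupp.mem_support_iff.1 hj)))
    (Finset.le_sup (Finsupp.mem_support_iff.2 h.1))

theorem O1a_top_smul {c : Ω} (hc : c ≠ 0) (i : ℕ) :
    O1a_Top ((ebO o Ω).repr (c • ebO o Ω i)) i :=
  ⟨by simpa using hc, fun j hj => by simp [Finsupp.single_eq_of_ne hj.ne']⟩

theorem O1a_pn_zero : pn o 0 = 0 := by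
  have h := (ebSpec o).ord 0
  rw [(ebSpec o).zero, OneMemClass.coe_one, o.ord_one] at h
  omega

theorem O1a_dg_const {c : Ω} (hc : c ≠ 0) : O1a_dg o Ω (algebraMap Ω (AO o Ω) c) = 0 := by
  have h := O1a_dg_top o Ω (O1a_top_smul o Ω hc 0)
  rw [O1a_pn_zero, O1a_ebO, (ebSpec o).zero, ← Algebra.TensorProduct.one_def,
    ← Algebra.algebraMap_eq_smul_one] at h
  exact h

/-- function field of the base change -/
def FO : Type := FractionRing (AO o Ω)

theorem O1a_loc (χ : AO o Ω →ₐ[Ω] Ω) : ∃ s π : AO o Ω, χ s ≠ 0 ∧ χ π = 0 ∧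
    ∀ f, χ f = 0 → s * f ∈ Ideal.span {π} := by
  obtain ⟨n, τ, v, u, h1, h2⟩ := exists_smooth o
  let ι : AA o →ₐ[κ] AO o Ω := Algebra.TensorProduct.includeRight
  let y : AA o →ₐ[κ] Ω := (χ.restrictScalars κ).comp ι
  let Φ : AA o ⊗[κ] AA o →ₐ[κ] AO o Ω := Algebra.TensorProduct.lift ι
    ((IsScalarTower.toAlgHom κ Ω (AO o Ω)).comp y) fun _ _ => Commute.all _ _
  have hΦ : ∀ a b, Φ (a ⊗ₜ[κ] b) = ι a * algebraMap Ω (AO o Ω) (y b) := fun a b =>
    Algebra.TensorProduct.lift_tmul _ _ _ a b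
  have hd : ∀ a, Φ (dlt a) = ι a - algebraMap Ω (AO o Ω) (y a) := fun a => by
    rw [dlt, map_sub, hΦ, hΦ, map_one, map_one, map_one, mul_one, one_mul]
  have h3 : ∀ z, χ (Φ z) = y (Algebra.TensorProduct.lmul' κ z) := by
    intro z
    induction z using TensorProduct.induction_on with
    | zero => simp
    | add a b ha hb => simp only [map_add, ha, hb]
    | tmul a b =>
      rw [hΦ, map_mul, χ.commutes, Algebra.TensorProduct.lmul'_apply_tmul, map_mul]
      rfl
  obtain ⟨i, hi⟩ : ∃ i, y (Algebra.TensorProduct.lmul' κ (u i)) ≠ 0 := by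
    by_contra hc
    push Not at hc
    have h4 := congrArg y h1
    rw [map_sum, map_one] at h4
    simp [hc] at h4
  refine ⟨Φ (u i), Φ (dlt (τ i)), by rwa [h3], ?_, ?_⟩
  · rw [hd, map_sub, χ.commutes]
    exact sub_self _
  · have h4 : ∀ f, Φ (u i) * (f - algebraMap Ω (AO o Ω) (χ f)) ∈ Ideal.span {Φ (dlt (τ i))} := by
      intro f
      induction f using TensorProduct.induction_on with
      | zero => simp
      | add a b ha hb =>
        have := Ideal.add_mem _ ha hb
        rw [map_add, map_add]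
        convert this using 1
        ring
      | tmul c a =>
        obtain ⟨w, hw⟩ := h2 i a
        have h5 := congrArg Φ hw
        rw [map_mul, map_mul, hd a] at h5
        have h6 : (c ⊗ₜ[κ] a : AO o Ω) = algebraMap Ω (AO o Ω) c * ι a := by
          simp [ι]
        have h7 : χ (ι a) = y a := rfl
        rw [h6, map_mul, χ.commutes, h7, Algebra.algebraMap_self_apply, map_mul,
          Ideal.mem_span_singleton']
        exact ⟨algebraMap Ω (AO o Ω) c * Φ w, by
          linear_combination (-algebraMap Ω (AO o Ω) c) * h5⟩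
    intro f hf
    simpa [hf] using h4 f

end Pool.Agent.E6b

end

section
open scoped NNReal TensorProduct IntermediateField BigOperators Classical Topology
open Filter

namespace Pool.Agent.E6b
variable {κ F : Type} [Field κ] [IsAlgClosed κ] [CharZero κ] [Field F] [Algebra κ F] [IsFF κ F]
  {o : Place κ F} {Ω Ω' : Type} [Field Ω] [Algebra κ Ω] [Field Ω'] [Algebra κ Ω']

theorem O2_ext {a a' : AO o Ω} (h : ∀ i, (ebO o Ω).repr a i = (ebO o Ω).repr a' i) : a = a' :=
  (ebO o Ω).repr.injective (Finsupp.ext h)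

end Pool.Agent.E6b

end

section
open scoped NNReal TensorProduct IntermediateField BigOperators Classical Topology
open Filter

namespace Pool.Agent.E6b
variable {κ F : Type} [Field κ] [IsAlgClosed κ] [CharZero κ] [Field F] [Algebra κ F] [IsFF κ F]
  {o : Place κ F} {Ω : Type} [Field Ω] [IsAlgClosed Ω] [CharZero Ω] [Algebra κ Ω] (O : VS κ Ω)

instance L1_nontrivial (Ω : Type) [Field Ω] [Algebra κ Ω] : Nontrivial (AO o Ω) :=
  (instIsDomainAO o Ω).toNontrivial

/-- Gauss norm on `AO` -/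
noncomputable def gvA (f : AO o Ω) : O.1.ValueGroup :=
  ((ebO o Ω).repr f).support.sup fun i => O.1.valuation ((ebO o Ω).repr f i)

end Pool.Agent.E6b

end
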