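import Pool.Agent.E6c.A04

section
open scoped NNReal TensorProduct IntermediateField BigOperators Classical Topology
open Filter

namespace Pool.Agent.E6b
variable {κ F : Type} [Field κ] [IsAlgClosed κ] [CharZero κ] [Field F] [Algebra κ F] [IsFF κ F]
  {o : Place κ F} {Ω : Type} [Field Ω] [IsAlgClosed Ω] [CharZero Ω] [Algebra κ Ω]

theorem O1_max {R M : Type} [Ring R] [AddCommGroup M] [Module R M] (b : Module.Basis ℕ R M) {a : M}
    (ha : a ≠ 0) : ∃ i, b.repr a i ≠ 0 ∧ ∀ j, i < j → b.repr a j = 0 := by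
  have h : (b.repr a).support.Nonempty := by simpa using ha
  exact ⟨_, Finsupp.mem_support_iff.1 (Finset.max'_mem _ h), fun j hj =>
    by_contra fun h' => hj.not_ge (Finset.le_max' _ j (Finsupp.mem_support_iff.2 h'))⟩

end Pool.Agent.E6b

end
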