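import Pool.Agent.E6c.A10

section
open scoped NNReal TensorProduct IntermediateField BigOperators Classical Topology
open Filter

namespace Pool.Agent.E6b
variable {κ F : Type} [Field κ] [IsAlgClosed κ] [CharZero κ] [Field F] [Algebra κ F] [IsFF κ F]

instance instFractionRingAA (o : Place κ F) : IsFractionRing (AA o) F := by
  refine IsFractionRing.of_field (AA o) F fun z => ?_
  obtain ⟨P, hP⟩ := exists_ne o
  obtain ⟨a, s, hs, -, h⟩ := O0_exists_den o hP z
  exact ⟨a, s, (eq_div_iff hs).2 h⟩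

end Pool.Agent.E6b

end

section
open scoped NNReal TensorProduct IntermediateField BigOperators Classical Topology
open Filter

namespace Pool.Agent.E6b

section
variable {κ F : Type} [Field κ] [IsAlgClosed κ] [CharZero κ] [Field F] [Algebra κ F] [IsFF κ F]
  (o : Place κ F)

/-- `2 g + 1` -/
noncomputable def NN (_o : Place κ F) : ℕ := 2 * genus κ F + 1

/-- a uniformiser at `o` -/
noncomputable def zo : F := (eb o (genus κ F) : F) / (wN o : F)

section
variable {κ F : Type} [Field κ] [Field F] [Algebra κ F] (o : Place κ F) (Ω : Type) [Field Ω]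
  [Algebra κ Ω]

noncomputable instance fastAO₅ : NonUnitalSemiring (AO o Ω) := inferInstance

noncomputable instance fastAO₆ : NonUnitalNonAssocSemiring (AO o Ω) := inferInstance

instance fastAOT₂ : IsScalarTower Ω (AO o Ω) (AO o Ω) := inferInstance

instance fastAOT₃ : SMulCommClass Ω (AO o Ω) (AO o Ω) := inferInstance

end

end

end Pool.Agent.E6b

end

section
open scoped NNReal TensorProduct IntermediateField BigOperators Classical Topology
open Filter

namespace Pool.Agent.E6b
variable {κ F : Type} [Field κ] [IsAlgClosed κ] [CharZero κ] [Field F] [Algebra κ F] [IsFF κ F]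
  (o : Place κ F)

theorem Osm_ord_wN : o.ord (wN o : F) = - (NN o : ℤ) := by
  rw [wN, (ebSpec o).ord, (ebSpec o).large _ (Nat.le_succ _), NN]
  push_cast
  ring

theorem wN_notMem : (wN o : F) ∉ (algebraMap κ F).range := by
  rintro ⟨c, hc⟩
  have h := Osm_ord_wN o
  rw [← hc, o.ord_algebraMap, NN] at h
  omega

theorem ord_wN : o.ord (wN o : F) = - (NN o : ℤ) := Osm_ord_wN o

theorem ord_zo : o.ord (zo o) = 1 := by
  have h0 : ∀ i, (eb o i : F) ≠ 0 := fun i h => (eb o).ne_zero i (Subtype.ext h)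
  rw [zo, wN, o.ord_div (h0 _) (h0 _), (ebSpec o).ord, (ebSpec o).ord, (ebSpec o).large _ le_rfl,
    (ebSpec o).large _ (Nat.le_succ _)]
  push_cast
  ring

end Pool.Agent.E6b

end

section
open scoped NNReal TensorProduct IntermediateField BigOperators Classical Topology
open Filter

namespace Pool.Agent.E6b
variable {κ F : Type} [Field κ] [IsAlgClosed κ] [CharZero κ] [Field F] [Algebra κ F] [IsFF κ F]
  (o : Place κ F) (Ω : Type) [Field Ω] [Algebra κ Ω]

instance instFaithfulAO : FaithfulSMul Ω (AO o Ω) :=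
  (faithfulSMul_iff_algebraMap_injective Ω (AO o Ω)).2 (algebraMap Ω (AO o Ω)).injective

end Pool.Agent.E6b

end

section
open scoped NNReal TensorProduct IntermediateField BigOperators Classical Topology
open Filter

namespace Pool.Agent.E6b
variable {κ F : Type} [Field κ] [IsAlgClosed κ] [CharZero κ] [Field F] [Algebra κ F] [IsFF κ F]
  {o : Place κ F} {Ω Ω' : Type} [Field Ω] [Algebra κ Ω] [Field Ω'] [Algebra κ Ω']

theorem O2_ind {R M : Type} [CommRing R] [AddCommGroup M] [Module R M] (b : Module.Basis ℕ R M)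
    {Q : M → Prop} (h0 : Q 0) (hadd : ∀ x y, Q x → Q y → Q (x + y))
    (hb : ∀ (c : R) i, Q (c • b i)) (a : M) : Q a := by
  rw [← b.linearCombination_repr a]
  induction b.repr a using Finsupp.induction_linear with
  | zero => simpa using h0
  | add f g hf hg => rw [map_add]; exact hadd _ _ hf hg
  | single i c => rw [Finsupp.linearCombination_single]; exact hb c i

/-- an additive semilinear map which is multiplicative on the basis is multiplicative -/
theorem O2_mul_of_basis {B : Type} [CommRing B] (X : AO o Ω →+ B) (t : Ω → B)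
    (ht : ∀ c c', t (c * c') = t c * t c') (hX : ∀ c a, X (c • a) = t c * X a)
    (h : ∀ i j, X (ebO o Ω i * ebO o Ω j) = X (ebO o Ω i) * X (ebO o Ω j)) (a a' : AO o Ω) :
    X (a * a') = X a * X a' := by
  refine O2_ind (ebO o Ω) (Q := fun a => X (a * a') = X a * X a') (by simp)
    (fun x y hx hy => by simp only [add_mul, map_add, hx, hy]) (fun c i => ?_) a
  refine O2_ind (ebO o Ω) (Q := fun a' => X (c • ebO o Ω i * a') = X (c • ebO o Ω i) * X a')
    (by simp) (fun x y hx hy => by simp only [mul_add, map_add, hx, hy]) (fun c' j => ?_) a'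
  show X (c • ebO o Ω i * c' • ebO o Ω j) = X (c • ebO o Ω i) * X (c' • ebO o Ω j)
  rw [smul_mul_smul_comm, hX, hX, hX, h, ht]
  ring

omit [IsAlgClosed κ] [CharZero κ] [IsFF κ F] in
theorem O2_smul_def (c : Ω) (a : AO o Ω) : c • a = algebraMap Ω (AO o Ω) c * a :=
  Algebra.smul_def c a

end Pool.Agent.E6b

end

section
open scoped NNReal TensorProduct IntermediateField BigOperators Classical Topology
open Filter

namespace Pool.Agent.E6b
variable {κ F : Type} [Field κ] [IsAlgClosed κ] [CharZero κ] [Field F] [Algebra κ F] [IsFF κ F]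
  {o : Place κ F} {Ω : Type} [Field Ω] [IsAlgClosed Ω] [CharZero Ω] [Algebra κ Ω] (O : VS κ Ω)

instance L1_noZeroDivisors (Ω : Type) [Field Ω] [Algebra κ Ω] : NoZeroDivisors (AO o Ω) :=
  IsDomain.to_noZeroDivisors _

/-- reduction of the coordinates -/
noncomputable def redA (f : AO o Ω) : AO o (RF O) :=
  (ebO o (RF O)).repr.symm (((ebO o Ω).repr f).mapRange (rs O) (by simpa using rs_algebraMap O 0))

theorem gvA_le_iff {f : AO o Ω} {γ : O.1.ValueGroup} :
    gvA O f ≤ γ ↔ ∀ i, O.1.valuation ((ebO o Ω).repr f i) ≤ γ := by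
  rw [gvA, Finset.sup_le_iff]
  refine ⟨fun h i => ?_, fun h i _ => h i⟩
  by_cases hi : (ebO o Ω).repr f i = 0
  · rw [hi, map_zero]
    exact zero_le
  · exact h i (Finsupp.mem_support_iff.2 hi)

theorem repr_redA (f : AO o Ω) (i : ℕ) :
    (ebO o (RF O)).repr (redA O f) i = rs O ((ebO o Ω).repr f i) := by
  rw [redA, LinearEquiv.apply_symm_apply, Finsupp.mapRange_apply]

theorem L1_le (f : AO o Ω) (i : ℕ) : O.1.valuation ((ebO o Ω).repr f i) ≤ gvA O f :=
  (gvA_le_iff O).1 le_rfl i

theorem L1_mem {f : AO o Ω} (hf : gvA O f ≤ 1) (i : ℕ) : (ebO o Ω).repr f i ∈ O.1 :=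
  (O.1.valuation_le_one_iff _).1 ((L1_le O f i).trans hf)

theorem L1_repr {R S : Type} [CommRing R] [Algebra κ R] [CommRing S] [Algebra κ S]
    (g : R →ₐ[κ] S) (x : R ⊗[κ] AA o) (i : ℕ) :
    (Algebra.TensorProduct.basis S (eb o)).repr
      (Algebra.TensorProduct.map g (AlgHom.id κ (AA o)) x) i =
      g ((Algebra.TensorProduct.basis R (eb o)).repr x i) := by
  induction x using TensorProduct.induction_on with
  | zero => simp
  | tmul c a => simp
  | add x y hx hy => simp only [map_add, Finsupp.add_apply, hx, hy]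

variable (o) in
/-- the integral model -/
noncomputable def L1_i : O.1 ⊗[κ] AA o →ₐ[κ] AO o Ω :=
  Algebra.TensorProduct.map { O.1.subtype with commutes' := fun _ => rfl } (AlgHom.id κ (AA o))

variable (o) in
/-- its reduction -/
noncomputable def L1_r : O.1 ⊗[κ] AA o →ₐ[κ] AO o (RF O) :=
  Algebra.TensorProduct.map { IsLocalRing.residue O.1 with commutes' := fun _ => rfl }
    (AlgHom.id κ (AA o))

theorem L1_ir (x : O.1 ⊗[κ] AA o) :
    gvA O (L1_i o O x) ≤ 1 ∧ redA O (L1_i o O x) = L1_r o O x := by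
  have h : ∀ i, (ebO o Ω).repr (L1_i o O x) i =
      ((Algebra.TensorProduct.basis O.1 (eb o)).repr x i : O.1) := L1_repr _ x
  refine ⟨(gvA_le_iff O).2 fun i => ?_, (ebO o (RF O)).ext_elem fun i => ?_⟩
  · rw [h]
    exact O.1.valuation_le_one _
  · rw [repr_redA, h, V1_rs O (SetLike.coe_mem _)]
    exact (L1_repr (S := RF O) { IsLocalRing.residue O.1 with commutes' := fun _ => rfl } x i).symm

theorem L1_range {f : AO o Ω} (hf : gvA O f ≤ 1) : ∃ x, L1_i o O x = f := by
  refine ⟨(Algebra.TensorProduct.basis O.1 (eb o)).repr.symm (Finsupp.onFinset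
    ((ebO o Ω).repr f).support (fun i => ⟨_, L1_mem O hf i⟩) fun i hi =>
      Finsupp.mem_support_iff.2 fun h => hi (Subtype.ext h)), (ebO o Ω).ext_elem fun i => ?_⟩
  refine (L1_repr _ _ i).trans ?_
  rw [LinearEquiv.apply_symm_apply]
  rfl

theorem L1_mul {f g : AO o Ω} (hf : gvA O f ≤ 1) (hg : gvA O g ≤ 1) :
    gvA O (f * g) ≤ 1 ∧ redA O (f * g) = redA O f * redA O g := by
  obtain ⟨x, rfl⟩ := L1_range O hf
  obtain ⟨y, rfl⟩ := L1_range O hg
  rw [← map_mul, (L1_ir O x).2, (L1_ir O y).2, ← map_mul]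
  exact L1_ir O _

theorem L1_add {f g : AO o Ω} (hf : gvA O f ≤ 1) (hg : gvA O g ≤ 1) :
    gvA O (f + g) ≤ 1 ∧ redA O (f + g) = redA O f + redA O g := by
  obtain ⟨x, rfl⟩ := L1_range O hf
  obtain ⟨y, rfl⟩ := L1_range O hg
  rw [← map_add, (L1_ir O x).2, (L1_ir O y).2, ← map_add]
  exact L1_ir O _

theorem L1_red0 {f : AO o Ω} (hf : gvA O f ≤ 1) : redA O f = 0 ↔ gvA O f < 1 := by
  rw [(ebO o (RF O)).ext_elem_iff]
  simp only [repr_redA, map_zero, Finsupp.zero_apply, rs_eq_zero_iff O (L1_mem O hf _)]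
  exact ⟨fun h => (Finset.sup_lt_iff ((bot_le (a := 0)).trans_lt (zero_lt_one' _))).2 fun i _ => h i,
    fun h i => (L1_le O f i).trans_lt h⟩

theorem L1_red1 {f : AO o Ω} (hf : gvA O f ≤ 1) : redA O f ≠ 0 ↔ gvA O f = 1 := by
  rw [Ne, L1_red0 O hf, not_lt]
  exact ⟨le_antisymm hf, fun h => h.ge⟩

theorem L1_zero : gvA O (0 : AO o Ω) = 0 :=
  le_antisymm ((gvA_le_iff O).2 fun i => by simp) zero_le

theorem L1_ne {f : AO o Ω} (hf : f ≠ 0) : gvA O f ≠ 0 := fun h =>
  hf ((ebO o Ω).ext_elem fun i => by simpa [h] using L1_le O f i)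

theorem L1_smul (c : Ω) (f : AO o Ω) : gvA O (c • f) = O.1.valuation c * gvA O f := by
  have h : ∀ (c : Ω) (f : AO o Ω), gvA O (c • f) ≤ O.1.valuation c * gvA O f := fun c f =>
    (gvA_le_iff O).2 fun i => by
      rw [map_smul, Finsupp.smul_apply, smul_eq_mul, map_mul]
      exact mul_le_mul_right (L1_le O f i) _
  refine le_antisymm (h c f) ?_
  by_cases hc : c = 0
  · simp [hc]
  have := h c⁻¹ (c • f)
  rwa [inv_smul_smul₀ hc, map_inv₀, le_inv_mul_iff₀ (by simpa [zero_lt_iff] using hc)] at this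

theorem L1_norm {f : AO o Ω} (hf : f ≠ 0) : ∃ (c : Ω) (g : AO o Ω), gvA O g = 1 ∧ f = c • g := by
  obtain ⟨c, hc⟩ := O.1.valuation_surjective (gvA O f)
  have h0 : c ≠ 0 := fun h => L1_ne O hf (by rw [← hc, h, map_zero])
  exact ⟨c, c⁻¹ • f, by rw [L1_smul, map_inv₀, hc, inv_mul_cancel₀ (L1_ne O hf)],
    (smul_inv_smul₀ h0 f).symm⟩

theorem L1_one : gvA O (1 : AO o Ω) = 1 ∧ redA O (1 : AO o Ω) = 1 := by
  have h := L1_ir (o := o) O 1
  rw [map_one, map_one] at h
  exact ⟨(L1_red1 O h.1).1 (h.2 ▸ one_ne_zero), h.2⟩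

theorem L1_mul1 {f g : AO o Ω} (hf : gvA O f = 1) (hg : gvA O g = 1) : gvA O (f * g) = 1 := by
  obtain ⟨h1, h2⟩ := L1_mul O hf.le hg.le
  exact (L1_red1 O h1).1 (h2 ▸ mul_ne_zero ((L1_red1 O hf.le).2 hf) ((L1_red1 O hg.le).2 hg))

variable (o) in
/-- the Gauss norm as a valuation -/
noncomputable def L1_v : Valuation (AO o Ω) O.1.ValueGroup where
  toFun := gvA O
  map_zero' := L1_zero O
  map_one' := (L1_one O).1
  map_mul' f g := by
    by_cases hf : f = 0
    · simp [hf, L1_zero]
    by_cases hg : g = 0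
    · simp [hg, L1_zero]
    obtain ⟨c, f, h1, rfl⟩ := L1_norm O hf
    obtain ⟨d, g, h2, rfl⟩ := L1_norm O hg
    rw [smul_mul_smul_comm, L1_smul, L1_smul, L1_smul, L1_mul1 O h1 h2, h1, h2, map_mul,
      mul_one, mul_one, mul_one]
  map_add_le_max' f g := (gvA_le_iff O).2 fun i => by
    rw [map_add, Finsupp.add_apply]
    exact (O.1.valuation.map_add _ _).trans (max_le_max (L1_le O f i) (L1_le O g i))

end Pool.Agent.E6b

end

section
open scoped NNReal TensorProduct IntermediateField BigOperators Classical Topology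
open Filter

namespace Pool.Agent.E6b

section
variable {κ F : Type} [Field κ] [IsAlgClosed κ] [CharZero κ] [Field F] [Algebra κ F] [IsFF κ F]
  {o : Place κ F} {Ω : Type} [Field Ω] [IsAlgClosed Ω] [CharZero Ω] [Algebra κ Ω] (O : VS κ Ω)

/-- integral points -/
def Intg (y : Pt o Ω) : Prop := ∀ a, y a ∈ O.1

/-- reduction of an integral point -/
noncomputable def redp (y : Pt o Ω) (h : Intg O y) : Pt o (RF O) where
  toFun a := rs O (y a)
  map_one' := by simpa using rs_algebraMap O 1
  map_mul' a b := by rw [map_mul]; exact rs_mul O (h a) (h b)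
  map_zero' := by simpa using rs_algebraMap O 0
  map_add' a b := by rw [map_add]; exact rs_add O (h a) (h b)
  commutes' c := by rw [AlgHom.commutes]; exact rs_algebraMap O c

/-- the determinant of the first basis elements at a family of points -/
noncomputable def Det {Ω : Type} [Field Ω] [Algebra κ Ω] {ι : Type} [Fintype ι] (z : ι → Pt o Ω) :
    Ω := (Matrix.of fun a b : ι => z a (eb o (Fintype.equivFin ι b))).det

end

end Pool.Agent.E6b

end

section
open scoped NNReal TensorProduct IntermediateField BigOperators Classical Topology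
open Filter

namespace Pool.Agent.E6b
variable {κ F : Type} [Field κ] [IsAlgClosed κ] [CharZero κ] [Field F] [Algebra κ F] [IsFF κ F]
  {o : Place κ F} {Ω : Type} [Field Ω] [IsAlgClosed Ω] [CharZero Ω] [Algebra κ Ω] (O : VS κ Ω)

theorem redp_apply (y : Pt o Ω) (h : Intg O y) (a : AA o) : redp O y h a = rs O (y a) := rfl

theorem L2_val_sub {y y' : Pt o Ω} (h : Intg O y) (h' : Intg O y') (a : AA o) :
    O.1.valuation (y a - y' a) ≤ vs O.1 fun i : Fin (MM o) => y (eb o i) - y' (eb o i) := by
  have ha : a ∈ Algebra.adjoin κ (Set.range fun i : Fin (MM o) => eb o i) := by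
    rw [adjoin_eb]; trivial
  induction ha using Algebra.adjoin_induction with
  | mem x hx =>
    obtain ⟨i, rfl⟩ := hx
    exact le_vs O.1 (fun i : Fin (MM o) => y (eb o i) - y' (eb o i)) i
  | algebraMap c => rw [AlgHom.commutes, AlgHom.commutes, sub_self, map_zero]; exact zero_le
  | add a b _ _ ha hb =>
    rw [map_add, map_add, add_sub_add_comm]
    exact O.1.valuation.map_add_le ha hb
  | mul a b _ _ ha hb =>
    have e : y a * y b - y' a * y' b = (y a - y' a) * y b + y' a * (y b - y' b) := by ring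
    rw [map_mul, map_mul, e]
    refine O.1.valuation.map_add_le ?_ ?_
    · rw [map_mul]
      exact le_trans (mul_le_of_le_one_right' ((O.1.valuation_le_one_iff _).2 (h b))) ha
    · rw [map_mul]
      exact le_trans (mul_le_of_le_one_left' ((O.1.valuation_le_one_iff _).2 (h' a))) hb

end Pool.Agent.E6b

end

section
open scoped NNReal TensorProduct IntermediateField BigOperators Classical Topology
open Filter

namespace Pool.Agent.E6b
variable {κ F : Type} [Field κ] [IsAlgClosed κ] [CharZero κ] [Field F] [Algebra κ F] [IsFF κ F]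
  {o : Place κ F} {Ω : Type} [Field Ω] [IsAlgClosed Ω] [CharZero Ω] [Algebra κ Ω] (O : VS κ Ω)

theorem L3_wN_ne : (wN o : F) ≠ 0 := fun h => wN_notMem o ⟨0, by rw [h, map_zero]⟩

theorem L3_zo_ne : zo o ≠ 0 := fun h => by
  have := ord_zo o
  rw [h, Place.ord_zero] at this
  exact zero_ne_one this

end Pool.Agent.E6b

end

section
open scoped NNReal TensorProduct IntermediateField BigOperators Classical Topology
open Filter

namespace Pool.Agent.E6b
variable {κ F : Type} [Field κ] [IsAlgClosed κ] [CharZero κ] [Field F] [Algebra κ F] [IsFF κ F]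
  {o : Place κ F} {Ω : Type} [Field Ω] [IsAlgClosed Ω] [CharZero Ω] [Algebra κ Ω] (O : VS κ Ω)
  {ι ι' : Type} [Fintype ι] [Fintype ι']

theorem exists_Det_comp_equiv (e : ι' ≃ ι) : ∃ ε : ℤˣ, ∀ (Ω : Type) [Field Ω] [Algebra κ Ω]
    (z : ι → Pt o Ω), Det (z ∘ e) = ((ε : ℤ) : Ω) * Det z := by
  let σ : ι' ≃ ι := ((Fintype.equivFin ι').trans (finCongr (Fintype.card_congr e))).trans
    (Fintype.equivFin ι).symm
  refine ⟨Equiv.Perm.sign (σ.trans e.symm), fun Ω _ _ z => ?_⟩
  unfold Det
  rw [← Matrix.det_submatrix_equiv_self e, ← Matrix.det_permute']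
  congr 1
  ext a b
  simp [σ]

omit [IsAlgClosed Ω] [CharZero Ω] in
theorem Det_red {z : ι → Pt o Ω} (h : ∀ a, Intg O (z a)) :
    Det z ∈ O.1 ∧ rs O (Det z) = Det fun a => redp O (z a) (h a) := by
  let M : Matrix ι ι O.1 := Matrix.of fun a b => ⟨z a (eb o (Fintype.equivFin ι b)), h a _⟩
  have h1 : Det z = (M.det : O.1) := by
    unfold Det
    exact (RingHom.map_det O.1.subtype M).symm
  rw [h1]
  refine ⟨M.det.2, ?_⟩
  rw [V1_rs O M.det.2]
  unfold Det
  refine (RingHom.map_det (IsLocalRing.residue O.1) M).trans ?_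
  congr 1
  ext a b
  exact (V1_rs O (h a _)).symm

end Pool.Agent.E6b

end

section
open scoped NNReal TensorProduct IntermediateField BigOperators Classical Topology
open Filter

namespace Pool.Agent.E6b

section
variable {κ F : Type} [Field κ] [IsAlgClosed κ] [CharZero κ] [Field F] [Algebra κ F] [IsFF κ F]

/-- index set of the theta vectors -/
abbrev JJ (_o : Place κ F) : Type := (Fin (genus κ F) ⊕ Fin (genus κ F)) ↪ Fin (5 * genus κ F + 1)
variable {o : Place κ F}

/-- swap the two halves -/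
def sw (j : JJ o) : JJ o := (Equiv.sumComm _ _).toEmbedding.trans j

end

end Pool.Agent.E6b

end

section
open scoped NNReal TensorProduct IntermediateField BigOperators Classical Topology
open Filter

namespace Pool.Agent.E6b
variable {κ F : Type} [Field κ] [IsAlgClosed κ] [CharZero κ] [Field F] [Algebra κ F] [IsFF κ F]
  {o : Place κ F} {Ω Ω' : Type} [Field Ω] [IsAlgClosed Ω] [CharZero Ω] [Algebra κ Ω]
  [Field Ω'] [IsAlgClosed Ω'] [CharZero Ω'] [Algebra κ Ω'] {ι ι' : Type} [Fintype ι] [Fintype ι']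

/-- the fibre used by `Pj` -/
noncomputable def P1_ix (j : JJ o) (x : Fin (genus κ F) × Fin (NN o)) : Fin (5 * genus κ F + 1) :=
  if (x.2 : ℕ) = 0 then j (.inr x.1) else j (.inl x.1)

/-- the first index -/
def P1_l0 (o : Place κ F) : Fin (NN o) := ⟨0, Nat.succ_pos _⟩

end Pool.Agent.E6b

end

section
open scoped NNReal TensorProduct IntermediateField BigOperators Classical Topology
open Filter

namespace Pool.Agent.E6b

section
variable {F : Type} [Field F] [Algebra Qb F] [IsFF Qb F]

/-- coordinates of `d` points and of a symmetric theta vector -/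
abbrev IX (o : Place Qb F) (d : ℕ) : Type := (Fin d × Fin (MM o)) ⊕ (JJ o × JJ o)

end

end Pool.Agent.E6b

end
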