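import Pool.Agent.E6c.A06
import Pool.Agent.E6c.A08
import Pool.Agent.E6c.A10

section
open scoped NNReal TensorProduct IntermediateField BigOperators Classical Topology
open Filter

namespace Pool.Agent.E6b

section
variable {κ F : Type} [Field κ] [IsAlgClosed κ] [CharZero κ] [Field F] [Algebra κ F] [IsFF κ F]
  (o : Place κ F)
variable {Ω : Type} [Field Ω] [Algebra κ Ω]
variable {o}

/-- evaluation at a point -/
noncomputable def evA (y : Pt o Ω) : AO o Ω →ₐ[Ω] Ω :=
  Algebra.TensorProduct.lift (AlgHom.id Ω Ω) y fun _ _ => Commute.all _ _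

/-- coordinates of a point -/
noncomputable def cd {R : Type} [CommRing R] [Algebra κ R] (y : Pt o R) : Fin (MM o) → R :=
  fun i => y (eb o i)

end

end Pool.Agent.E6b

end

section
open scoped NNReal TensorProduct IntermediateField BigOperators Classical Topology
open Filter

namespace Pool.Agent.E6b
variable {κ F : Type} [Field κ] [IsAlgClosed κ] [CharZero κ] [Field F] [Algebra κ F] [IsFF κ F]
  (o : Place κ F)

theorem pt_ext {R : Type} [CommRing R] [Algebra κ R] {y y' : Pt o R} (h : cd y = cd y') : y = y' :=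
  AlgHom.ext_of_adjoin_eq_top (adjoin_eb o) (by rintro _ ⟨i, rfl⟩; exact congrFun h i)

/-- a vector satisfying the relations of the generators is a point -/
theorem exists_pt_of_rel {R : Type} [CommRing R] [Algebra κ R] (x : Fin (MM o) → R)
    (h : ∀ Q : MvPolynomial (Fin (MM o)) κ,
      MvPolynomial.aeval (fun i : Fin (MM o) => eb o i) Q = 0 → MvPolynomial.aeval x Q = 0) :
    ∃ y : Pt o R, cd y = x := by
  have hs : Function.Surjective
      (MvPolynomial.aeval (R := κ) (fun i : Fin (MM o) => eb o i)) := by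
    rw [← AlgHom.range_eq_top, ← Algebra.adjoin_range_eq_range_aeval, adjoin_eb]
  refine ⟨AlgHom.liftOfSurjective _ hs (MvPolynomial.aeval x) h, funext fun i => ?_⟩
  have := AlgHom.liftOfSurjective_apply _ hs (MvPolynomial.aeval x) h (MvPolynomial.X i)
  rwa [MvPolynomial.aeval_X, MvPolynomial.aeval_X] at this

end Pool.Agent.E6b

end

section
open scoped NNReal TensorProduct IntermediateField BigOperators Classical Topology
open Filter

namespace Pool.Agent.E6b

/-- ultrapower of a field -/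
abbrev UP (U : Ultrafilter ℕ) (L : Type) : Type := Filter.Germ (U : Filter ℕ) L

noncomputable instance (U : Ultrafilter ℕ) (κ L : Type) [Field κ] [Field L] [Algebra κ L] :
    Algebra κ (UP U L) where
  toSMul := Filter.Germ.instSMul
  algebraMap := (Filter.Germ.coeRingHom (U : Filter ℕ)).comp
    ((Pi.constRingHom ℕ L).comp (algebraMap κ L))
  commutes' := fun _ _ => mul_comm _ _
  smul_def' := fun c x => Filter.Germ.inductionOn x fun f =>
    congrArg (fun g : ℕ → L => (g : Filter.Germ (U : Filter ℕ) L))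
      (funext fun n => Algebra.smul_def c (f n))

/-- class of a sequence -/
def gm (U : Ultrafilter ℕ) {L : Type} (x : ℕ → L) : UP U L := (x : Filter.Germ (U : Filter ℕ) L)

end Pool.Agent.E6b

end

section
open scoped NNReal TensorProduct IntermediateField BigOperators Classical Topology
open Filter

namespace Pool.Agent.E6b
variable {κ F : Type} [Field κ] [IsAlgClosed κ] [CharZero κ] [Field F] [Algebra κ F] [IsFF κ F]
  {o : Place κ F} {Ω : Type} [Field Ω] [IsAlgClosed Ω] [CharZero Ω] [Algebra κ Ω]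

theorem evA_tmul (y : Pt o Ω) (c : Ω) (a : AA o) : evA y (c ⊗ₜ[κ] a) = c * y a := by
  simp [evA]

theorem evA_ebO (y : Pt o Ω) (i : ℕ) : evA y (ebO o Ω i) = y (eb o i) := by
  rw [ebO, Algebra.TensorProduct.basis_apply, evA_tmul, one_mul]

end Pool.Agent.E6b

end

section
open scoped NNReal TensorProduct IntermediateField BigOperators Classical Topology
open Filter

namespace Pool.Agent.E6b
variable {κ F : Type} [Field κ] [IsAlgClosed κ] [CharZero κ] [Field F] [Algebra κ F] [IsFF κ F]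
  {o : Place κ F} {Ω Ω' : Type} [Field Ω] [Algebra κ Ω] [Field Ω'] [Algebra κ Ω']

theorem O2_ebO (i : ℕ) : ebO o Ω i = 1 ⊗ₜ[κ] eb o i := Algebra.TensorProduct.basis_apply _ _

theorem O2_ebO_zero : ebO o Ω 0 = 1 := by
  rw [O2_ebO, (ebSpec o).zero, Algebra.TensorProduct.one_def]

theorem O2_ebO_mul (i j : ℕ) : ebO o Ω i * ebO o Ω j = 1 ⊗ₜ[κ] (eb o i * eb o j) := by
  rw [O2_ebO, O2_ebO, Algebra.TensorProduct.tmul_mul_tmul, one_mul]

theorem O2_evA_ebO (y : Pt o Ω) (i : ℕ) : evA y (ebO o Ω i) = y (eb o i) := by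
  rw [O2_ebO, evA, Algebra.TensorProduct.lift_tmul, map_one, one_mul]

end Pool.Agent.E6b

end

section
open scoped NNReal TensorProduct IntermediateField BigOperators Classical Topology
open Filter

namespace Pool.Agent.E6b
variable (U : Ultrafilter ℕ) {κ L : Type} [Field κ] [Field L] [Algebra κ L]

omit [Field L] in
theorem gm_surj (x : UP U L) : ∃ y : ℕ → L, gm U y = x :=
  Filter.Germ.inductionOn x fun y => ⟨y, rfl⟩

omit [Field L] in
theorem gm_eq_iff (x y : ℕ → L) : gm U x = gm U y ↔ ∀ᶠ n in (U : Filter ℕ), x n = y n :=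
  Filter.Germ.coe_eq

omit [Field L] in
theorem gm_ne_iff (x y : ℕ → L) : gm U x ≠ gm U y ↔ ∀ᶠ n in (U : Filter ℕ), x n ≠ y n := by
  rw [Ne, gm_eq_iff]
  exact Ultrafilter.eventually_not.symm

theorem gm_eq_zero_iff (x : ℕ → L) : gm U x = 0 ↔ ∀ᶠ n in (U : Filter ℕ), x n = 0 :=
  gm_eq_iff U x fun _ => 0

/-- `gm` as a ring homomorphism -/
noncomputable def U1_hom : (ℕ → L) →+* UP U L := Filter.Germ.coeRingHom (U : Filter ℕ)

theorem U1_hom_apply (x : ℕ → L) : U1_hom U x = gm U x := rfl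

theorem gm_add (x y : ℕ → L) : gm U (fun n => x n + y n) = gm U x + gm U y := rfl

theorem gm_sub (x y : ℕ → L) : gm U (fun n => x n - y n) = gm U x - gm U y :=
  map_sub (U1_hom U) x y

theorem gm_mul (x y : ℕ → L) : gm U (fun n => x n * y n) = gm U x * gm U y := rfl

theorem gm_inv (x : ℕ → L) : gm U (fun n => (x n)⁻¹) = (gm U x)⁻¹ := rfl

theorem gm_div (x y : ℕ → L) : gm U (fun n => x n / y n) = gm U x / gm U y := by
  rw [div_eq_mul_inv, ← gm_inv, ← gm_mul]
  simp only [div_eq_mul_inv]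

theorem gm_pow (x : ℕ → L) (k : ℕ) : gm U (fun n => x n ^ k) = gm U x ^ k :=
  map_pow (U1_hom U) x k

theorem gm_sum {ι : Type*} (s : Finset ι) (x : ι → ℕ → L) :
    gm U (fun n => ∑ i ∈ s, x i n) = ∑ i ∈ s, gm U (x i) := by
  have h : (fun n => ∑ i ∈ s, x i n) = ∑ i ∈ s, x i := by
    funext n
    rw [Finset.sum_apply]
  rw [h]
  exact map_sum (U1_hom U) x s

theorem gm_prod {ι : Type*} (s : Finset ι) (x : ι → ℕ → L) :
    gm U (fun n => ∏ i ∈ s, x i n) = ∏ i ∈ s, gm U (x i) := by
  have h : (fun n => ∏ i ∈ s, x i n) = ∏ i ∈ s, x i := by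
    funext n
    rw [Finset.prod_apply]
  rw [h]
  exact map_prod (U1_hom U) x s

theorem gm_const (c : κ) : gm U (fun _ => algebraMap κ L c) = algebraMap κ (UP U L) c := rfl

theorem gm_det {ι : Type} [Fintype ι] [DecidableEq ι] (M : ℕ → Matrix ι ι L) :
    gm U (fun n => (M n).det) = (Matrix.of fun i j => gm U fun n => M n i j).det := by
  have h1 : (fun n => (M n).det) = (Matrix.of fun i j => fun n => M n i j).det := by
    funext n
    exact ((Pi.evalRingHom (fun _ : ℕ => L) n).map_det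
      (Matrix.of fun i j => fun n => M n i j)).symm
  rw [h1]
  exact RingHom.map_det (R := ℕ → L) (S := UP U L) (U1_hom U) _

theorem gm_aeval {σ : Type} (P : MvPolynomial σ κ) (x : σ → ℕ → L) :
    gm U (fun n => MvPolynomial.aeval (fun i => x i n) P) =
      MvPolynomial.aeval (fun i => gm U (x i)) P := by
  induction P using MvPolynomial.induction_on with
  | C a =>
    simp only [MvPolynomial.aeval_C]
    exact gm_const U a
  | add p q hp hq =>
    simp only [map_add]
    rw [gm_add, hp, hq]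
  | mul_X p i hp =>
    simp only [map_mul, MvPolynomial.aeval_X]
    rw [gm_mul, hp]

instance instCharZeroUP [CharZero L] : CharZero (UP U L) :=
  charZero_of_injective_algebraMap (algebraMap L (UP U L)).injective

instance instTowerUP : IsScalarTower κ L (UP U L) :=
  ⟨fun a b x => Filter.Germ.inductionOn x fun f =>
    congrArg (fun g : ℕ → L => (g : Filter.Germ (U : Filter ℕ) L))
      (funext fun n => smul_assoc a b (f n))⟩

/-- the tower for the scalar actions that come from the algebra structures -/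
instance U1_towerAlg : @IsScalarTower κ L (UP U L) _ Algebra.toSMul Algebra.toSMul :=
  IsScalarTower.of_algebraMap_eq fun _ => rfl

instance instIsAlgClosedUP [IsAlgClosed L] : IsAlgClosed (UP U L) := by
  refine IsAlgClosed.of_exists_root _ fun p hm hi => ?_
  have hd : 0 < p.natDegree := hi.natDegree_pos
  choose a ha using fun i => gm_surj U (p.coeff i)
  have hex : ∀ n : ℕ, ∃ x : L, x ^ p.natDegree + ∑ i ∈ Finset.range p.natDegree, a i n * x ^ i = 0 := by
    intro n
    set q : Polynomial L := ∑ i ∈ Finset.range p.natDegree, Polynomial.C (a i n) * Polynomial.X ^ i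
      with hq
    have hlt : q.degree < (p.natDegree : WithBot ℕ) := by
      rw [hq]
      refine (Polynomial.degree_sum_le _ _).trans_lt ?_
      refine (Finset.sup_lt_iff (WithBot.bot_lt_coe _)).2 fun i hi' => ?_
      refine (Polynomial.degree_C_mul_X_pow_le _ _).trans_lt ?_
      exact_mod_cast Finset.mem_range.1 hi'
    have hdeg : (Polynomial.X ^ p.natDegree + q).degree = (p.natDegree : WithBot ℕ) := by
      rw [Polynomial.degree_add_eq_left_of_degree_lt] <;> rw [Polynomial.degree_X_pow]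
      exact hlt
    obtain ⟨x, hx⟩ := IsAlgClosed.exists_root (Polynomial.X ^ p.natDegree + q) (by
      rw [hdeg]
      exact_mod_cast hd.ne')
    refine ⟨x, ?_⟩
    have := hx.eq_zero
    simpa [hq, Polynomial.eval_finsetSum] using this
  choose x hx using hex
  refine ⟨gm U x, ?_⟩
  have h0 : gm U (fun n => x n ^ p.natDegree + ∑ i ∈ Finset.range p.natDegree, a i n * x n ^ i) = 0 :=
    (gm_eq_zero_iff U _).2 (Eventually.of_forall hx)
  rw [gm_add, gm_pow, gm_sum U _ (fun i n => a i n * x n ^ i)] at h0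
  rw [Polynomial.eval_eq_sum_range, Finset.sum_range_succ, hm.coeff_natDegree, one_mul, add_comm,
    ← h0]
  congr 1
  refine Finset.sum_congr rfl fun i _ => ?_
  rw [gm_mul, gm_pow, ha]

theorem U1_fin {σ : Type} [Fintype σ] (d : ℕ) :
    {m : σ →₀ ℕ | (m.sum fun _ e => e) ≤ d}.Finite := by
  have h := Finsupp.finite_of_degree_le (σ := σ) d
  refine h.subset fun m hm => ?_
  exact hm

theorem U1_coeff_zero {σ R : Type} [CommSemiring R] {P : MvPolynomial σ R} {d : ℕ}
    (h : P.totalDegree ≤ d) {m : σ →₀ ℕ} (hm : ¬ (m.sum fun _ e => e) ≤ d) : P.coeff m = 0 := by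
  by_contra hne
  exact hm ((MvPolynomial.le_totalDegree (MvPolynomial.mem_support_iff.2 hne)).trans h)

theorem U1_coeff_sum {σ R : Type} [CommSemiring R] (s : Finset (σ →₀ ℕ)) (c : (σ →₀ ℕ) → R)
    (m : σ →₀ ℕ) :
    (∑ k ∈ s, MvPolynomial.monomial k (c k)).coeff m = if m ∈ s then c m else 0 := by
  rw [MvPolynomial.coeff_sum]
  simp only [MvPolynomial.coeff_monomial]
  exact Finset.sum_ite_eq' s m c

/-- polynomials of bounded degree: ultralimit. -/
theorem exists_poly_gm {σ : Type} [Fintype σ] (P : ℕ → MvPolynomial σ L) (d : ℕ)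
    (hd : ∀ᶠ n in (U : Filter ℕ), (P n).totalDegree ≤ d) :
    ∃ Q : MvPolynomial σ (UP U L), Q.totalDegree ≤ d ∧
      ∀ m, Q.coeff m = gm U fun n => (P n).coeff m := by
  refine ⟨∑ k ∈ (U1_fin (σ := σ) d).toFinset,
    MvPolynomial.monomial k (gm U fun n => (P n).coeff k), ?_, fun m => ?_⟩
  · refine MvPolynomial.totalDegree_finsetSum_le fun k hk => ?_
    have hk' : (k.sum fun _ e => e) ≤ d := (U1_fin (σ := σ) d).mem_toFinset.1 hk
    exact (MvPolynomial.totalDegree_monomial_le _ _).trans hk'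
  · rw [U1_coeff_sum]
    split_ifs with hm
    · rfl
    · refine ((gm_eq_zero_iff U _).2 (hd.mono fun n hn => U1_coeff_zero hn ?_)).symm
      exact fun h => hm ((Set.Finite.mem_toFinset _).2 h)

theorem U1_eval_eq {σ R : Type} [CommSemiring R] (s : Finset (σ →₀ ℕ)) (P : MvPolynomial σ R)
    (h : ∀ m, m ∉ s → P.coeff m = 0) (x : σ → R) :
    MvPolynomial.eval x P = ∑ m ∈ s, P.coeff m * ∏ i ∈ m.support, x i ^ m i := by
  rw [MvPolynomial.eval_eq]
  refine Finset.sum_subset (fun m hm => ?_) fun m _ hm => ?_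
  · by_contra hs
    exact MvPolynomial.mem_support_iff.1 hm (h m hs)
  · rw [MvPolynomial.notMem_support_iff.1 hm, zero_mul]

theorem eval_poly_gm {σ : Type} [Fintype σ] {P : ℕ → MvPolynomial σ L} {d : ℕ}
    (hd : ∀ᶠ n in (U : Filter ℕ), (P n).totalDegree ≤ d) {Q : MvPolynomial σ (UP U L)}
    (hQ : ∀ m, Q.coeff m = gm U fun n => (P n).coeff m) (x : σ → ℕ → L) :
    MvPolynomial.eval (fun i => gm U (x i)) Q =
      gm U fun n => MvPolynomial.eval (fun i => x i n) (P n) := by
  set s := (U1_fin (σ := σ) d).toFinset with hs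
  have hns : ∀ m, m ∉ s → ¬ (m.sum fun _ e => e) ≤ d := fun m hm h =>
    hm ((Set.Finite.mem_toFinset _).2 h)
  have h1 : ∀ m, m ∉ s → Q.coeff m = 0 := fun m hm => by
    rw [hQ]
    exact (gm_eq_zero_iff U _).2 (hd.mono fun n hn => U1_coeff_zero hn (hns m hm))
  have h2 : (gm U fun n => MvPolynomial.eval (fun i => x i n) (P n)) =
      gm U fun n => ∑ m ∈ s, (P n).coeff m * ∏ i ∈ m.support, x i n ^ m i :=
    (gm_eq_iff U _ _).2 (hd.mono fun n hn =>
      U1_eval_eq s (P n) (fun m hm => U1_coeff_zero hn (hns m hm)) _)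
  rw [h2, U1_eval_eq s Q h1,
    gm_sum U s (fun m n => (P n).coeff m * ∏ i ∈ m.support, x i n ^ m i)]
  refine Finset.sum_congr rfl fun m _ => ?_
  rw [gm_mul, hQ, gm_prod U m.support (fun i n => x i n ^ m i)]
  congr 1

end Pool.Agent.E6b

end

section
open scoped NNReal TensorProduct IntermediateField BigOperators Classical Topology
open Filter

namespace Pool.Agent.E6b
variable {κ F : Type} [Field κ] [IsAlgClosed κ] [CharZero κ] [Field F] [Algebra κ F] [IsFF κ F]
  {o : Place κ F} {Ω : Type} [Field Ω] [IsAlgClosed Ω] [CharZero Ω] [Algebra κ Ω]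

/-- the derivation on the base change -/
noncomputable def Rig_D (δ : Derivation κ Ω Ω) : AO o Ω →ₗ[κ] AO o Ω :=
  LinearMap.rTensor (AA o) δ.toLinearMap

omit [IsAlgClosed Ω] [CharZero Ω] in
theorem Rig_D_tmul (δ : Derivation κ Ω Ω) (c : Ω) (a : AA o) :
    Rig_D δ (c ⊗ₜ[κ] a : AO o Ω) = δ c ⊗ₜ[κ] a := rfl

omit [IsAlgClosed Ω] [CharZero Ω] in
theorem Rig_D_repr (δ : Derivation κ Ω Ω) (f : AO o Ω) (i : ℕ) :
    (ebO o Ω).repr (Rig_D δ f) i = δ ((ebO o Ω).repr f i) := by
  induction f using TensorProduct.induction_on with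
  | zero => simp
  | tmul c a =>
    rw [Rig_D_tmul, ebO, Algebra.TensorProduct.basis_repr_tmul,
      Algebra.TensorProduct.basis_repr_tmul]
    simp [mul_comm]
  | add a b ha hb => simp [ha, hb]

theorem Rig_D_ev (δ : Derivation κ Ω Ω) {y : Pt o Ω} (hy : ∀ a, δ (y a) = 0) (f : AO o Ω) :
    evA y (Rig_D δ f) = δ (evA y f) := by
  induction f using TensorProduct.induction_on with
  | zero => simp
  | tmul c a => rw [Rig_D_tmul, evA_tmul, evA_tmul]; simp [hy, mul_comm]
  | add a b ha hb => simp [ha, hb]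

end Pool.Agent.E6b

end

section
open scoped NNReal TensorProduct IntermediateField BigOperators Classical Topology
open Filter

namespace Pool.Agent.E6b
variable {κ F : Type} [Field κ] [IsAlgClosed κ] [CharZero κ] [Field F] [Algebra κ F] [IsFF κ F]
  {o : Place κ F} (U : Ultrafilter ℕ) {L : Type} [Field L] [IsAlgClosed L] [CharZero L]
  [Algebra κ L] {ι : Type} [Fintype ι]

/-- ultralimit of points -/
noncomputable def ptU (y : ℕ → Pt o L) : Pt o (UP U L) where
  toFun a := gm U fun n => y n a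
  map_one' := by simp only [map_one]; rfl
  map_mul' a b := by simp only [map_mul]; exact gm_mul U _ _
  map_zero' := by simp only [map_zero]; rfl
  map_add' a b := by simp only [map_add]; exact gm_add U _ _
  commutes' c := by simp only [AlgHom.commutes]; exact gm_const U c

theorem ptU_apply (y : ℕ → Pt o L) (a : AA o) : ptU U y a = gm U fun n => y n a := rfl

theorem ptU_eq_iff (y y' : ℕ → Pt o L) :
    ptU U y = ptU U y' ↔ ∀ᶠ n in (U : Filter ℕ), y n = y' n := by
  refine ⟨fun h => ?_, fun h => AlgHom.ext fun a =>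
    (gm_eq_iff U _ _).2 (h.mono fun n hn => by rw [hn])⟩
  have h1 : ∀ᶠ n in (U : Filter ℕ), ∀ i : Fin (MM o), y n (eb o i) = y' n (eb o i) :=
    Filter.eventually_all.2 fun i => (gm_eq_iff U _ _).1 (AlgHom.congr_fun h (eb o i))
  exact h1.mono fun n hn => pt_ext o (funext hn)

theorem ptU_injective_iff (z : ℕ → ι → Pt o L) :
    (Function.Injective fun a => ptU U fun n => z n a) ↔
      ∀ᶠ n in (U : Filter ℕ), Function.Injective (z n) := by
  refine ⟨fun h => ?_, fun h a b hab => ?_⟩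
  · refine Filter.eventually_all.2 fun a => Filter.eventually_all.2 fun b => ?_
    by_cases hab : a = b
    · exact Filter.Eventually.of_forall fun _ _ => hab
    · have h1 : ¬ ∀ᶠ n in (U : Filter ℕ), z n a = z n b := fun h1 =>
        hab (h ((ptU_eq_iff U _ _).2 h1))
      exact (Ultrafilter.eventually_not.2 h1).mono fun n hn h2 => absurd h2 hn
  · obtain ⟨n, h1, h2⟩ := (h.and ((ptU_eq_iff U _ _).1 hab)).exists
    exact h1 h2

/-- the diagonal embedding -/
noncomputable def dU (κ : Type) [Field κ] (L : Type) [Field L] [Algebra κ L] : L →ₐ[κ] UP U L :=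
  IsScalarTower.toAlgHom κ L (UP U L)

end Pool.Agent.E6b

end

section
open scoped NNReal TensorProduct IntermediateField BigOperators Classical Topology
open Filter

namespace Pool.Agent.E6b
variable {κ F : Type} [Field κ] [IsAlgClosed κ] [CharZero κ] [Field F] [Algebra κ F] [IsFF κ F]
  {o : Place κ F} {Ω Ω' : Type} [Field Ω] [IsAlgClosed Ω] [CharZero Ω] [Algebra κ Ω]
  [Field Ω'] [IsAlgClosed Ω'] [CharZero Ω'] [Algebra κ Ω'] {ι ι' : Type} [Fintype ι] [Fintype ι']

theorem Prp.symm {ι K : Type*} [Field K] {x y : ι → K} (h : Prp x y) : Prp y x := by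
  obtain ⟨μ, h0, h⟩ := h
  exact ⟨μ⁻¹, inv_ne_zero h0, fun i => by rw [h, inv_mul_cancel_left₀ h0]⟩

theorem Prp.trans {ι K : Type*} [Field K] {x y z : ι → K} (h : Prp x y) (h' : Prp y z) :
    Prp x z := by
  obtain ⟨μ, h0, h⟩ := h
  obtain ⟨μ', h0', h'⟩ := h'
  exact ⟨μ * μ', mul_ne_zero h0 h0', fun i => by rw [h, h', mul_assoc]⟩

theorem Prp.ne_zero {ι K : Type*} [Field K] {x y : ι → K} (h : Prp x y) (hy : y ≠ 0) : x ≠ 0 := by
  obtain ⟨μ, h0, h⟩ := h
  intro hx
  refine hy (funext fun i => ?_)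
  have h1 : μ * y i = 0 := by rw [← h, hx]; rfl
  exact (mul_eq_zero.1 h1).resolve_left h0

theorem prp_gm_iff (U : Ultrafilter ℕ) {L : Type} [Field L] (x y : ℕ → ι → L) :
    Prp (fun i => gm U fun n => x n i) (fun i => gm U fun n => y n i) ↔
      ∀ᶠ n in (U : Filter ℕ), Prp (x n) (y n) := by
  constructor
  · rintro ⟨μ, h0, h⟩
    obtain ⟨m, rfl⟩ := gm_surj U μ
    have h1 : ∀ᶠ n in (U : Filter ℕ), m n ≠ 0 := (gm_ne_iff U m fun _ => 0).1 h0
    have h2 : ∀ᶠ n in (U : Filter ℕ), ∀ i, x n i = m n * y n i := by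
      refine eventually_all.2 fun i => (gm_eq_iff U _ _).1 ?_
      rw [gm_mul]
      exact h i
    filter_upwards [h1, h2] with n a1 a2 using ⟨m n, a1, a2⟩
  · intro h
    let m : ℕ → L := fun n => if h : Prp (x n) (y n) then h.choose else 1
    have h1 : ∀ᶠ n in (U : Filter ℕ), m n ≠ 0 ∧ ∀ i, x n i = m n * y n i := by
      filter_upwards [h] with n hn
      simp only [m, dif_pos hn]
      exact hn.choose_spec
    refine ⟨gm U m, (gm_ne_iff U m fun _ => 0).2 (h1.mono fun n hn => hn.1), fun i => ?_⟩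
    change gm U (fun n => x n i) = gm U m * gm U fun n => y n i
    rw [← gm_mul]
    exact (gm_eq_iff U _ _).2 (h1.mono fun n hn => hn.2 i)

end Pool.Agent.E6b

end

section
open scoped NNReal TensorProduct IntermediateField BigOperators Classical Topology
open Filter

namespace Pool.Agent.E6b
variable {κ F : Type} [Field κ] [IsAlgClosed κ] [CharZero κ] [Field F] [Algebra κ F] [IsFF κ F]
  {o : Place κ F} {Ω : Type} [Field Ω] [IsAlgClosed Ω] [CharZero Ω] [Algebra κ Ω]
  {ι ι' : Type} [Fintype ι] [Fintype ι']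

/-- the span of the first `r` basis elements -/
def P2V (r : ℕ) (a : AO o Ω) : Prop := ∀ i, r ≤ i → (ebO o Ω).repr a i = 0

omit [IsAlgClosed Ω] [CharZero Ω] in
theorem P2V_eb {r i : ℕ} (h : i < r) : P2V r (ebO o Ω i) := by
  intro k hk
  rw [Module.Basis.repr_self, Finsupp.single_eq_of_ne (by omega)]

theorem P2_det_mul {J : Type} [Fintype J] [DecidableEq J] {r : ℕ} (e : J ≃ Fin r) (u : J → AO o Ω)
    (hu : ∀ b, P2V r (u b)) (z : J → Pt o Ω) :
    (Matrix.of fun a b => evA (z a) (u b)).det =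
      (Matrix.of fun a b => z a (eb o (e b))).det *
        (Matrix.of fun k b => (ebO o Ω).repr (u b) (e k)).det := by
  rw [← Matrix.det_mul]
  congr 1
  ext a b
  have h : u b = ∑ k, (ebO o Ω).repr (u b) (e k) • ebO o Ω (e k) := by
    refine (ebO o Ω).ext_elem fun i => ?_
    simp only [map_sum, map_smul, Module.Basis.repr_self, Finsupp.coe_finsetSum, Finset.sum_apply,
      Finsupp.smul_apply, smul_eq_mul]
    by_cases hi : i < r
    · rw [Finset.sum_eq_single (e.symm ⟨i, hi⟩)]
      · simp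
      · intro k _ hk
        rw [Finsupp.single_eq_of_ne, mul_zero]
        intro e1
        exact hk (e.eq_symm_apply.2 (Fin.ext e1.symm))
      · simp
    · rw [hu b i (not_lt.1 hi), Finset.sum_eq_zero fun k _ => ?_]
      rw [Finsupp.single_eq_of_ne (by have := (e k).2; omega), mul_zero]
  rw [Matrix.of_apply, h, map_sum, Matrix.mul_apply]
  refine Finset.sum_congr rfl fun k _ => ?_
  rw [map_smul, evA_ebO, smul_eq_mul, mul_comm]
  rfl

/-- the columns `u l`, then `f * eb i` -/
noncomputable def P2U (f : AO o Ω) (u : ι' → AO o Ω) (j : ℕ) : AO o Ω :=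
  if h : j < Fintype.card ι' then u ((Fintype.equivFin ι').symm ⟨j, h⟩)
  else f * ebO o Ω (j - Fintype.card ι')

/-- the determinant of the change of basis -/
noncomputable def P2T (U : ℕ → AO o Ω) (r : ℕ) : Ω :=
  (Matrix.of fun k j : Fin r => (ebO o Ω).repr (U j) k).det

omit [IsAlgClosed Ω] [CharZero Ω] in
theorem P2T_succ (U : ℕ → AO o Ω) (r : ℕ) (h0 : ∀ j < r, (ebO o Ω).repr (U j) r = 0)
    (h1 : (ebO o Ω).repr (U r) r = 1) : P2T U (r + 1) = P2T U r := by
  rw [P2T, Matrix.det_succ_row _ (Fin.last r), Finset.sum_eq_single (Fin.last r)]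
  · simp only [Matrix.of_apply, Fin.val_last, h1, Fin.succAbove_last, mul_one]
    rw [Even.neg_one_pow ⟨r, rfl⟩, one_mul]
    rfl
  · intro j _ hj
    rw [Matrix.of_apply, Fin.val_last, h0 j (Fin.val_lt_last hj), mul_zero, zero_mul]
  · simp

end Pool.Agent.E6b

end

section
open scoped NNReal TensorProduct IntermediateField BigOperators Classical Topology
open Filter

namespace Pool.Agent.E6b
variable {κ F : Type} [Field κ] [IsAlgClosed κ] [CharZero κ] [Field F] [Algebra κ F] [IsFF κ F]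
  {o : Place κ F} {Ω Ω' : Type} [Field Ω] [IsAlgClosed Ω] [CharZero Ω] [Algebra κ Ω]
  [Field Ω'] [IsAlgClosed Ω'] [CharZero Ω'] [Algebra κ Ω'] {ι ι' ι'' : Type} [Fintype ι]
  [Fintype ι'] [Fintype ι'']

omit [IsAlgClosed κ] [CharZero κ] [IsAlgClosed Ω] [CharZero Ω] in
theorem P3_red_gen (O : VS κ Ω) {x u : ι → Ω} {y : ι → RF O} (hx : Prp x u) (hu : ∀ j, u j ∈ O.1)
    (hy : Prp (fun j => rs O (u j)) y) (hy0 : y ≠ 0) (h1 : vs O.1 x = 1) :
    Prp (fun j => rs O (x j)) y := by
  obtain ⟨μ, hμ, hx⟩ := hx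
  obtain ⟨i, hi⟩ := Function.ne_iff.1 (hy.ne_zero hy0)
  have hu1 : vs O.1 u = 1 := by
    refine le_antisymm (vs_le _ fun j => (O.1.valuation_le_one_iff _).2 (hu j)) ?_
    refine le_trans ?_ (le_vs O.1 u i)
    exact not_lt.1 fun h => hi ((rs_eq_zero_iff O (hu i)).2 h)
  have hv : O.1.valuation μ = 1 := by
    have h2 : x = fun j => μ * u j := funext hx
    rw [h2, vs_smul, hu1, mul_one] at h1
    exact h1
  have hm : μ ∈ O.1 := (O.1.valuation_le_one_iff _).1 hv.le
  refine Prp.trans ⟨rs O μ, fun h => ?_, fun j => ?_⟩ hy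
  · exact ((rs_eq_zero_iff O hm).1 h).ne hv
  · show rs O (x j) = _
    rw [hx j, rs_mul O hm (hu j)]

theorem P3_alg {Γ : Type} [LinearOrderedCommGroupWithZero Γ] {a b A B E E' W : Γ} (Q : Γ)
    (hB : B ≠ 0) (hW : W ≠ 0) (hE : E * E' = W * B ^ 2) :
    (a * (A * B)) ^ 2 * (b * (A * B)) ^ 2 = (a * b / W * A ^ 2) ^ 2 * (W * B ^ 2) ^ 2 ∧
      (Q * E ^ 2) * (Q * E' ^ 2) = Q ^ 2 * (W * B ^ 2) ^ 2 := by
  constructor
  · field_simp
  · rw [← hE]
    field_simp

theorem P3_alg' {Γ : Type} [LinearOrderedCommGroupWithZero Γ] {a b A B E E' W Q : Γ}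
    (hB : B ≠ 0) (hW : W ≠ 0) (hE : E * E' = W * B ^ 2) :
    ((a * (A * B)) ^ 2 ≤ Q * E ^ 2 → (b * (A * B)) ^ 2 ≤ Q * E' ^ 2 → a * b / W * A ^ 2 ≤ Q) ∧
    ((a * (A * B)) ^ 2 = Q * E ^ 2 → (b * (A * B)) ^ 2 = Q * E' ^ 2 → a * b / W * A ^ 2 = Q) := by
  obtain ⟨h1, h2⟩ := P3_alg (a := a) (b := b) (A := A) Q hB hW hE
  have h0 : (W * B ^ 2) ^ 2 ≠ 0 := pow_ne_zero _ (mul_ne_zero hW (pow_ne_zero _ hB))
  constructor
  · intro h h'
    have h3 := mul_le_mul' h h'
    rw [h1, h2] at h3
    have h4 := le_of_mul_le_mul_right h3 (zero_lt_iff.2 h0)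
    exact (pow_le_pow_iff_left₀ zero_le zero_le two_ne_zero).1 h4
  · intro h h'
    rw [h, h', h2] at h1
    have h4 := mul_right_cancel₀ h0 h1
    exact ((pow_left_inj₀ zero_le zero_le two_ne_zero).1 h4).symm

end Pool.Agent.E6b

end

section
open scoped NNReal TensorProduct IntermediateField BigOperators Classical Topology
open Filter

namespace Pool.Agent.E6b

/-- polynomials in `T` over `K[u]` -/
abbrev PP (K : Type) [Field K] (r : ℕ) : Type := Polynomial (MvPolynomial (Fin r) K)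

/-- degrees at most `Δ` -/
def CxP {K : Type} [Field K] {r : ℕ} (Δ : ℕ) (p : PP K r) : Prop :=
  p.natDegree ≤ Δ ∧ ∀ i, (p.coeff i).totalDegree ≤ Δ

/-- the coefficients in `K` -/
noncomputable def cfs {K : Type} [Field K] {r : ℕ} (p : PP K r) : Finset K :=
  p.support.biUnion fun i => (p.coeff i).coeffs

/-- the family `1, T, u` -/
noncomputable def xp (K : Type) [Field K] (r : ℕ) : Option (Option (Fin r)) → PP K r
  | none => 1
  | some none => Polynomial.X
  | some (some k) => Polynomial.C (MvPolynomial.X k)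

end Pool.Agent.E6b

end

section
open scoped NNReal TensorProduct IntermediateField BigOperators Classical Topology
open Filter

namespace Pool.Agent.E6b

theorem M1_mono {K : Type} [Field K] {r : ℕ} {Δ Δ' : ℕ} {p : PP K r} (h : CxP Δ p) (h' : Δ ≤ Δ') :
    CxP Δ' p := ⟨h.1.trans h', fun i => (h.2 i).trans h'⟩

end Pool.Agent.E6b

end

section
open scoped NNReal TensorProduct IntermediateField BigOperators Classical Topology
open Filter

namespace Pool.Agent.E6b
variable (U : Ultrafilter ℕ)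

/-- `p` is the ultralimit of the `ps n` -/
def LimP {L : Type} [Field L] {r : ℕ} (p : PP (UP U L) r) (ps : ℕ → PP L r) : Prop :=
  ∀ i μ, (p.coeff i).coeff μ = gm U fun n => ((ps n).coeff i).coeff μ

section Aux
variable {L : Type} [Field L] {r : ℕ}

theorem M2_mono {Δ Δ' : ℕ} {p : PP L r} (h : CxP Δ p) (h' : Δ ≤ Δ') : CxP Δ' p :=
  ⟨h.1.trans h', fun i => (h.2 i).trans h'⟩

theorem M2_cx_one (Δ : ℕ) : CxP Δ (1 : PP L r) := by
  refine ⟨by rw [Polynomial.natDegree_one]; exact Nat.zero_le _, fun i => ?_⟩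
  rw [Polynomial.coeff_one]
  split_ifs <;> simp

theorem M2_cx_X {Δ : ℕ} (h : 1 ≤ Δ) : CxP Δ (Polynomial.X : PP L r) := by
  refine ⟨Polynomial.natDegree_X_le.trans h, fun i => ?_⟩
  rw [Polynomial.coeff_X]
  split_ifs <;> simp

theorem M2_cx_zero (Δ : ℕ) : CxP Δ (0 : PP L r) := ⟨by simp, fun i => by simp⟩

end Aux

end Pool.Agent.E6b

end

section
open scoped NNReal TensorProduct IntermediateField BigOperators Classical Topology
open Filter

namespace Pool.Agent.E6b

section
variable {κ Ω : Type} [Field κ] [Field Ω] [Algebra κ Ω]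

theorem C6_cxP_mono {r Δ Δ' : ℕ} {p : PP κ r} (h : CxP Δ p) (h' : Δ ≤ Δ') : CxP Δ' p :=
  ⟨h.1.trans h', fun i => (h.2 i).trans h'⟩

theorem C6_cxP_C {r Δ : ℕ} {p : MvPolynomial (Fin r) κ} (h : p.totalDegree ≤ Δ) :
    CxP Δ (Polynomial.C p : PP κ r) := by
  refine ⟨by simp, fun i => ?_⟩
  rw [Polynomial.coeff_C]
  split_ifs
  · exact h
  · simp

theorem C6_cxP_xp {r Δ : ℕ} (h : 1 ≤ Δ) (l : Option (Option (Fin r))) : CxP Δ (xp κ r l) := by
  rcases l with _ | _ | k
  · exact C6_cxP_C (p := 1) (by simp)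
  · refine ⟨?_, fun i => ?_⟩
    · exact le_trans Polynomial.natDegree_X_le h
    · show (Polynomial.coeff (Polynomial.X : PP κ r) i).totalDegree ≤ Δ
      rw [Polynomial.coeff_X]
      split_ifs <;> simp
  · exact C6_cxP_C (by rw [MvPolynomial.totalDegree_X]; exact h)

end

end Pool.Agent.E6b

end

section
open scoped NNReal TensorProduct IntermediateField BigOperators Classical Topology
open Filter

namespace Pool.Agent.E6b

theorem C3_coeffs_sub {K : Type} [Field K] {r : ℕ} (p : PP K r) (i : ℕ) :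
    (p.coeff i).coeffs ⊆ cfs p := by
  by_cases h : p.coeff i = 0
  · rw [h, MvPolynomial.coeffs_zero]
    exact Finset.empty_subset _
  · exact Finset.subset_biUnion_of_mem (fun i => (p.coeff i).coeffs)
      (Polynomial.mem_support_iff.2 h)

end Pool.Agent.E6b

end

section
open scoped NNReal TensorProduct IntermediateField BigOperators Classical Topology
open Filter

namespace Pool.Agent.E6b

section Size
variable {σ : Type} {p : ℕ} {v : AbsoluteValue Qb ℝ}

theorem C2_th_mul (p : ℕ) (a b : ℝ) : th p (a * b) = th p a * th p b := by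
  unfold th
  split_ifs <;> simp

end Size

end Pool.Agent.E6b

end

section
open scoped NNReal TensorProduct IntermediateField BigOperators Classical Topology
open Filter

namespace Pool.Agent.E6b

theorem C2_th_bound (p : ℕ) {e E N n₁ n₂ : ℕ} (he : e ≤ E) {W N₁ N₂ : ℝ} (hW : 0 ≤ W)
    (h₁ : 1 ≤ N₁) (h₂ : 1 ≤ N₂) :
    th p e.factorial * (th p N * (W * (th p 2 ^ E *
      ((th p 2 * N₁) ^ n₁ * (th p 2 * N₂) ^ n₂)))) ^ e ≤
    th p (2 ^ (E.factorial + E * E + E * n₁ + E * n₂) * ((N : ℝ) + 1) ^ E) *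
      (W ^ e * N₁ ^ (E * n₁) * N₂ ^ (E * n₂)) := by
  have hθ := C2_one_le_th2 p
  have hN : 1 ≤ th p ((N : ℝ) + 1) :=
    H2_one_le_th p (le_add_of_nonneg_left (Nat.cast_nonneg N))
  have hN0 : 0 ≤ th p (N : ℝ) := C2_th_nonneg p (Nat.cast_nonneg N)
  have hNN : th p (N : ℝ) ≤ th p ((N : ℝ) + 1) := H2_th_mono p (by linarith)
  have a1 : th p e.factorial ≤ th p 2 ^ E.factorial := C2_th_le p (Nat.factorial_le he)
  set Y := th p 2 ^ E * ((th p 2 * N₁) ^ n₁ * (th p 2 * N₂) ^ n₂) with hY
  have hY1 : 1 ≤ Y := one_le_mul_of_one_le_of_one_le (one_le_pow₀ hθ)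
    (one_le_mul_of_one_le_of_one_le (one_le_pow₀ (one_le_mul_of_one_le_of_one_le hθ h₁))
      (one_le_pow₀ (one_le_mul_of_one_le_of_one_le hθ h₂)))
  have a2 : th p (N : ℝ) ^ e ≤ th p ((N : ℝ) + 1) ^ E :=
    (pow_le_pow_left₀ hN0 hNN e).trans (pow_le_pow_right₀ hN he)
  have a3 : Y ^ e ≤ Y ^ E := pow_le_pow_right₀ hY1 he
  rw [C2_th_mul, C2_th_pow, C2_th_pow]
  calc th p e.factorial * (th p N * (W * Y)) ^ e
      = th p e.factorial * (th p N ^ e * (W ^ e * Y ^ e)) := by rw [mul_pow, mul_pow]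
    _ ≤ th p 2 ^ E.factorial * (th p ((N : ℝ) + 1) ^ E * (W ^ e * Y ^ E)) := by gcongr
    _ = _ := by rw [hY]; ring

end Pool.Agent.E6b

end

section
open scoped NNReal TensorProduct IntermediateField BigOperators Classical Topology
open Filter

namespace Pool.Agent.E6b
open MvPowerSeries

section aux
variable {B K L : Type} [CommRing B] [IsDomain B] [Field K] [Algebra B K] [IsFractionRing B K]
  [Field L] [Algebra K L] [Algebra B L] [IsScalarTower B K L]

/-- the valuation ring of an order function -/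
def C4_O0 (K : Type) [Field K] [Algebra B K] [IsFractionRing B K] (wo : B → ℕ∞)
    (hmul : ∀ a b, wo (a * b) = wo a + wo b) (hadd : ∀ a b, min (wo a) (wo b) ≤ wo (a + b))
    (hneg : ∀ a, wo (-a) = wo a) (htop : ∀ a, wo a = ⊤ ↔ a = 0) : ValuationSubring K where
  carrier := {x | ∃ a b : B, b ≠ 0 ∧ x * algebraMap B K b = algebraMap B K a ∧ wo b ≤ wo a}
  mul_mem' := by
    rintro x y ⟨a, b, hb, h1, h2⟩ ⟨a', b', hb', h1', h2'⟩
    refine ⟨a * a', b * b', mul_ne_zero hb hb', ?_, ?_⟩
    · rw [map_mul, map_mul, ← h1, ← h1']; ring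
    · rw [hmul, hmul]; exact add_le_add h2 h2'
  one_mem' := ⟨1, 1, one_ne_zero, one_mul _, le_rfl⟩
  add_mem' := by
    rintro x y ⟨a, b, hb, h1, h2⟩ ⟨a', b', hb', h1', h2'⟩
    refine ⟨a * b' + a' * b, b * b', mul_ne_zero hb hb', ?_, le_trans ?_ (hadd _ _)⟩
    · rw [map_add, map_mul, map_mul, map_mul, ← h1, ← h1']; ring
    · rw [hmul, hmul, hmul, le_min_iff]
      exact ⟨add_le_add h2 le_rfl, by rw [add_comm]; exact add_le_add h2' le_rfl⟩
  zero_mem' := ⟨0, 1, one_ne_zero, by simp, by rw [(htop 0).2 rfl]; exact le_top⟩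
  neg_mem' := by
    rintro x ⟨a, b, hb, h1, h2⟩
    exact ⟨-a, b, hb, by rw [map_neg, ← h1, neg_mul], by rw [hneg]; exact h2⟩
  mem_or_inv_mem' := by
    intro x
    obtain ⟨a, b, hb, rfl⟩ := IsFractionRing.div_surjective (A := B) x
    have hb0 : b ≠ 0 := nonZeroDivisors.ne_zero hb
    have hb1 : algebraMap B K b ≠ 0 := by
      simpa using hb0
    rcases le_or_gt (wo b) (wo a) with h | h
    · exact Or.inl ⟨a, b, hb0, div_mul_cancel₀ _ hb1, h⟩
    · have ha0 : a ≠ 0 := fun e => h.ne_top ((htop a).2 e)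
      have ha1 : algebraMap B K a ≠ 0 := by
        simpa using ha0
      exact Or.inr ⟨b, a, ha0, by rw [inv_div]; exact div_mul_cancel₀ _ ha1, h.le⟩

theorem C4_exists_O (K : Type) [Field K] [Algebra B K] [IsFractionRing B K] (L : Type) [Field L]
    [Algebra K L] [Algebra B L] [IsScalarTower B K L] (wo : B → ℕ∞)
    (hmul : ∀ a b, wo (a * b) = wo a + wo b) (hadd : ∀ a b, min (wo a) (wo b) ≤ wo (a + b))
    (hneg : ∀ a, wo (-a) = wo a) (htop : ∀ a, wo a = ⊤ ↔ a = 0) :
    ∃ O : ValuationSubring L, ∀ (y : L) (a b : B), b ≠ 0 →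
      y * algebraMap B L b = algebraMap B L a →
      (y ∈ O ↔ wo b ≤ wo a) ∧ (O.valuation y < 1 ↔ wo b < wo a) := by
  obtain ⟨O, hO⟩ := exists_vs_lift L (C4_O0 K wo hmul hadd hneg htop)
  have hinj : ∀ b : B, b ≠ 0 → algebraMap B K b ≠ 0 := fun b hb => by simpa using hb
  have hinj' : ∀ b : B, b ≠ 0 → algebraMap B L b ≠ 0 := fun b hb => by
    rw [IsScalarTower.algebraMap_apply B K L]
    exact (map_ne_zero _).2 (hinj b hb)
  have key : ∀ (y : L) (a b : B), b ≠ 0 → y * algebraMap B L b = algebraMap B L a →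
      (y ∈ O ↔ wo b ≤ wo a) := by
    intro y a b hb h
    have hy : y = algebraMap K L (algebraMap B K a / algebraMap B K b) := by
      rw [map_div₀, ← IsScalarTower.algebraMap_apply, ← IsScalarTower.algebraMap_apply,
        eq_div_iff (hinj' b hb), h]
    rw [hy, ← ValuationSubring.mem_comap, hO]
    constructor
    · rintro ⟨a', b', hb', h1, h2⟩
      have h3 : a * b' = a' * b := by
        apply IsFractionRing.injective B K
        rw [map_mul, map_mul, ← h1]
        field_simp [hinj b hb]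
      have h4 : wo b + wo b' ≤ wo a + wo b' := by
        rw [← hmul a, h3, hmul, add_comm]
        exact add_le_add h2 le_rfl
      exact (WithTop.add_le_add_iff_right fun e => hb' ((htop b').1 e)).1 h4
    · intro h2
      exact ⟨a, b, hb, div_mul_cancel₀ _ (hinj b hb), h2⟩
  refine ⟨O, fun y a b hb h => ⟨key y a b hb h, ?_⟩⟩
  by_cases ha : a = 0
  · have hy : y = 0 := by
      rw [ha, map_zero] at h
      exact (mul_eq_zero.1 h).resolve_right (hinj' b hb)
    rw [hy, map_zero, ha, (htop 0).2 rfl]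
    exact ⟨fun _ => lt_top_iff_ne_top.2 fun e => hb ((htop b).1 e), fun _ => zero_lt_one⟩
  · have hy : y ≠ 0 := by
      rintro rfl
      rw [zero_mul] at h
      exact hinj' a ha h.symm
    have h1 := key y⁻¹ b a ha (by rw [← h, inv_mul_cancel_left₀ hy])
    have h0 : O.valuation y ≠ 0 := by simpa using hy
    rw [← O.valuation_le_one_iff, map_inv₀, inv_le_one₀ (zero_lt_iff.mpr h0)] at h1
    rw [← not_le, ← not_le, h1]

end aux

end Pool.Agent.E6b

end
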