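import Pool.Agent.E6c.A06
import Pool.Agent.E6c.A09
import Pool.Agent.E6c.A10
import Pool.Agent.E6c.A11

section
open scoped NNReal TensorProduct IntermediateField BigOperators Classical Topology
open Filter

namespace Pool.Agent.E6b
variable {κ F : Type} [Field κ] [IsAlgClosed κ] [CharZero κ] [Field F] [Algebra κ F] [IsFF κ F]
  (o : Place κ F)

theorem isIntegral_wN (a : AA o) : IsIntegral (Algebra.adjoin κ {wN o}) a := by
  have h := Osm_ind o ((Submodule.span (Algebra.adjoin κ {wN o})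
    (Set.range fun i : Fin (MM o) => eb o i)).restrictScalars κ)
    (fun i => Submodule.subset_span ⟨i, rfl⟩) fun a ha => by
      rw [mul_comm]
      exact Submodule.smul_mem _ (⟨wN o, Algebra.subset_adjoin rfl⟩ : Algebra.adjoin κ {wN o}) ha
  rw [Submodule.restrictScalars_eq_top_iff] at h
  have : Module.Finite (Algebra.adjoin κ {wN o}) (AA o) :=
    ⟨h ▸ Submodule.fg_span (Set.finite_range _)⟩
  exact Algebra.IsIntegral.isIntegral a

end Pool.Agent.E6b

end

section
open scoped NNReal TensorProduct IntermediateField BigOperators Classical Topology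
open Filter

namespace Pool.Agent.E6b
variable {κ F : Type} [Field κ] [IsAlgClosed κ] [CharZero κ] [Field F] [Algebra κ F] [IsFF κ F]
  (o : Place κ F) (Ω : Type) [Field Ω] [Algebra κ Ω]

/-- the valuation at infinity on the coordinate ring -/
noncomputable def O1a_v : Valuation (AO o Ω) (WithZero (Multiplicative ℤ)) where
  toFun f := if f = 0 then 0 else WithZero.exp (O1a_dg o Ω f : ℤ)
  map_zero' := if_pos rfl
  map_one' := by
    have h := O1a_dg_const o Ω (c := 1) one_ne_zero
    rw [map_one] at h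
    rw [if_neg one_ne_zero, h]
    rfl
  map_mul' f g := by
    by_cases hf : f = 0
    · simp [hf]
    by_cases hg : g = 0
    · simp [hg]
    obtain ⟨i, hi⟩ := O1a_top o Ω hf
    obtain ⟨j, hj⟩ := O1a_top o Ω hg
    obtain ⟨k, hk, h⟩ := O1a_mul_top o Ω hi hj
    rw [if_neg hf, if_neg hg, if_neg (mul_ne_zero hf hg), O1a_dg_top o Ω h, O1a_dg_top o Ω hi,
      O1a_dg_top o Ω hj, hk, Nat.cast_add, WithZero.exp_add]
  map_add_le_max' f g := by
    by_cases hf : f = 0
    · simp [hf]
    by_cases hg : g = 0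
    · simp [hg]
    by_cases h : f + g = 0
    · simp [h]
    have h1 : O1a_dg o Ω (f + g) ≤ max (O1a_dg o Ω f) (O1a_dg o Ω g) := by
      unfold O1a_dg
      rw [map_add]
      exact (Finset.sup_mono Finsupp.support_add).trans (Finset.sup_union).le
    simp only [if_neg hf, if_neg hg, if_neg h, le_max_iff, WithZero.exp_le_exp, Nat.cast_le] at h1 ⊢
    exact h1

theorem O1a_v_apply {f : AO o Ω} (hf : f ≠ 0) :
    O1a_v o Ω f = WithZero.exp (O1a_dg o Ω f : ℤ) := if_neg hf

noncomputable instance instFieldFO : Field (FO o Ω) :=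
  inferInstanceAs (Field (FractionRing (AO o Ω)))

/-- algebra structures on the function field of the base change -/
@[reducible] noncomputable def algFO (S : Type) [CommSemiring S] [Algebra S (AO o Ω)] :
    Algebra S (FO o Ω) :=
  inferInstanceAs (Algebra S (FractionRing (AO o Ω)))

noncomputable instance instAlgAOFO : Algebra (AO o Ω) (FO o Ω) := algFO o Ω (AO o Ω)

instance instFracFO : IsFractionRing (AO o Ω) (FO o Ω) :=
  inferInstanceAs (IsFractionRing (AO o Ω) (FractionRing (AO o Ω)))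

noncomputable instance instAlgBaseFO : Algebra κ (FO o Ω) := algFO o Ω κ

noncomputable instance instAlgFO : Algebra Ω (FO o Ω) := algFO o Ω Ω

instance instTowerFO₁ : IsScalarTower Ω (AO o Ω) (FO o Ω) :=
  IsScalarTower.of_algebraMap_eq fun _ => rfl

instance instTowerFO₂ : IsScalarTower κ (AO o Ω) (FO o Ω) :=
  IsScalarTower.of_algebraMap_eq fun _ => rfl

instance instTowerFO₃ : IsScalarTower κ Ω (FO o Ω) :=
  IsScalarTower.of_algebraMap_eq fun _ => rfl

instance instFaithfulAOFO : FaithfulSMul (AO o Ω) (FO o Ω) :=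
  (faithfulSMul_iff_algebraMap_injective (AO o Ω) (FO o Ω)).2 (IsFractionRing.injective _ _)

/-- the valuation at infinity -/
noncomputable def O1a_w : Valuation (FO o Ω) (WithZero (Multiplicative ℤ)) :=
  (O1a_v o Ω).extendToLocalization (S := nonZeroDivisors (AO o Ω)) (fun f hf => by
    show ¬ (O1a_v o Ω f = 0)
    rw [O1a_v_apply o Ω (nonZeroDivisors.ne_zero hf)]
    exact WithZero.exp_ne_zero) (FO o Ω)

theorem O1a_w_top {f : AO o Ω} {i : ℕ} (h : O1a_Top ((ebO o Ω).repr f) i) :
    O1a_w o Ω (algebraMap _ (FO o Ω) f) = WithZero.exp (pn o i : ℤ) := by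
  rw [O1a_w, Valuation.extendToLocalization_apply_map_apply, O1a_v_apply o Ω (O1a_ne_of_top o Ω h),
    O1a_dg_top o Ω h]

theorem O1a_w_eb (i : ℕ) :
    O1a_w o Ω (algebraMap _ (FO o Ω) (ebO o Ω i)) = WithZero.exp (pn o i : ℤ) :=
  O1a_w_top o Ω (by simpa only [one_smul] using O1a_top_smul o Ω (c := 1) one_ne_zero i)

theorem O1a_w_const (c : Ω) : algebraMap Ω (FO o Ω) c ∈ (O1a_w o Ω).valuationSubring := by
  by_cases hc : c = 0
  · rw [hc, map_zero]
    exact zero_mem _
  rw [Valuation.mem_valuationSubring_iff, IsScalarTower.algebraMap_apply Ω (AO o Ω) (FO o Ω), O1a_w,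
    Valuation.extendToLocalization_apply_map_apply, O1a_v_apply o Ω
      ((map_ne_zero_iff _ (algebraMap Ω (AO o Ω)).injective).2 hc),
    O1a_dg_const o Ω hc]
  exact le_rfl

theorem O1a_w_notMem : algebraMap _ (FO o Ω) (ebO o Ω (genus κ F + 1)) ∉
    (O1a_w o Ω).valuationSubring := by
  rw [Valuation.mem_valuationSubring_iff, O1a_w_eb, (ebSpec o).large _ (Nat.le_succ _),
    ← WithZero.exp_zero, WithZero.exp_le_exp]
  omega

instance instIsFFFO : IsFF Ω (FO o Ω) := by
  obtain ⟨t, ht⟩ : ∃ t, t = algebraMap _ (FO o Ω) (ebO o Ω (genus κ F + 1)) := ⟨_, rfl⟩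
  refine ⟨t, fun h => O1a_w_notMem o Ω ?_, ?_⟩
  · rw [← ht]
    exact F0_mem_of_integral _ (O1a_w_const o Ω) h.isIntegral
  · let ψ : AA o →ₐ[κ] FO o Ω :=
      (IsScalarTower.toAlgHom κ (AO o Ω) (FO o Ω)).comp Algebra.TensorProduct.includeRight
    have h1 : ∀ a ∈ Algebra.adjoin κ {wN o}, ψ a ∈ Ω⟮t⟯ := by
      intro a ha
      induction ha using Algebra.adjoin_induction with
      | mem x hx =>
        rw [Set.mem_singleton_iff.1 hx]
        have : ψ (wN o) = t := by rw [ht, O1a_ebO]; rfl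
        rw [this]
        exact IntermediateField.mem_adjoin_simple_self Ω t
      | algebraMap r =>
        rw [ψ.commutes, IsScalarTower.algebraMap_apply κ Ω (FO o Ω)]
        exact IntermediateField.algebraMap_mem _ _
      | add x y _ _ hx hy => rw [map_add]; exact add_mem hx hy
      | mul x y _ _ hx hy => rw [map_mul]; exact mul_mem hx hy
    have h2 : ∀ a : AA o, IsIntegral Ω⟮t⟯ (ψ a) := fun a =>
      (isIntegral_wN o a).map_of_comp_eq
        ((ψ.toRingHom.comp (Algebra.adjoin κ {wN o}).val.toRingHom).codRestrict Ω⟮t⟯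
          fun x => h1 x x.2) ψ.toRingHom (RingHom.ext fun _ => rfl)
    have h3 : ∀ f : AO o Ω, IsIntegral Ω⟮t⟯ (algebraMap _ (FO o Ω) f) := by
      intro f
      induction f using TensorProduct.induction_on with
      | zero => rw [map_zero]; exact isIntegral_zero
      | add x y hx hy => rw [map_add]; exact hx.add hy
      | tmul c a =>
        have h4 : (c ⊗ₜ[κ] a : AO o Ω) = algebraMap Ω (AO o Ω) c * (1 ⊗ₜ[κ] a) := by
          simp
        rw [h4, map_mul, ← IsScalarTower.algebraMap_apply,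
          IsScalarTower.algebraMap_apply Ω Ω⟮t⟯ (FO o Ω)]
        exact isIntegral_algebraMap.mul (h2 a)
    have h4 : Algebra.IsAlgebraic Ω⟮t⟯ (FO o Ω) := ⟨fun x => by
      obtain ⟨a, b, -, rfl⟩ := IsFractionRing.div_surjective (A := AO o Ω) x
      rw [div_eq_mul_inv]
      exact (h3 a).isAlgebraic.mul (h3 b).isAlgebraic.inv⟩
    have h5 : Algebra.EssFiniteType (AO o Ω) (FO o Ω) :=
      Algebra.EssFiniteType.of_isLocalization _ (nonZeroDivisors (AO o Ω))
    have h6 := Algebra.EssFiniteType.comp Ω (AO o Ω) (FO o Ω)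
    have h7 := Algebra.EssFiniteType.of_comp Ω Ω⟮t⟯ (FO o Ω)
    exact Algebra.finite_of_essFiniteType_of_isAlgebraic

theorem O1a_closed [IsAlgClosed Ω] : IsIntegrallyClosed (AO o Ω) := by
  have hN : IsNoetherianRing (AO o Ω) := Algebra.FiniteType.isNoetherianRing Ω _
  refine IsIntegrallyClosed.of_localization_maximal fun m _ hm => ?_
  let := Ideal.Quotient.field m
  have : Module.Finite Ω (AO o Ω ⧸ m) := finite_of_finite_type_of_isJacobsonRing _ _
  let e : Ω ≃ₐ[Ω] (AO o Ω ⧸ m) :=
    AlgEquiv.ofBijective (Algebra.ofId _ _) IsAlgClosed.algebraMap_bijective_of_isIntegral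
  have hχ : ∀ f, (e.symm.toAlgHom.comp (Ideal.Quotient.mkₐ Ω m)) f = 0 ↔ f ∈ m := fun f => by
    rw [← Ideal.Quotient.eq_zero_iff_mem]
    exact map_eq_zero_iff _ e.symm.injective
  obtain ⟨s, π, hs, hπ, h⟩ := O1a_loc o Ω (e.symm.toAlgHom.comp (Ideal.Quotient.mkₐ Ω m))
  have hp : (IsLocalRing.maximalIdeal (Localization.AtPrime m)).IsPrincipal := by
    refine ⟨algebraMap _ _ π, ?_⟩
    rw [← Localization.AtPrime.map_eq_maximalIdeal]
    refine le_antisymm (Ideal.map_le_iff_le_comap.2 fun f hf => ?_) ?_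
    · obtain ⟨a, ha⟩ := Ideal.mem_span_singleton'.1 (h f ((hχ f).2 hf))
      have hu : IsUnit (algebraMap (AO o Ω) (Localization.AtPrime m) s) :=
        IsLocalization.map_units _ (⟨s, fun c => hs ((hχ s).2 c)⟩ : m.primeCompl)
      rw [Ideal.mem_comap, ← Ideal.unit_mul_mem_iff_mem _ hu, ← map_mul, ← ha, map_mul]
      exact Ideal.mul_mem_left _ _ (Ideal.mem_span_singleton_self _)
    · rw [Submodule.span_le, Set.singleton_subset_iff]
      exact Ideal.mem_map_of_mem _ ((hχ π).1 hπ)
  have h1 : IsPrincipalIdealRing (Localization.AtPrime m) :=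
    ((tfae_of_isNoetherianRing_of_isLocalRing_of_isDomain (Localization.AtPrime m)).out 4 0).1 hp
  infer_instance

instance instIsIntegrallyClosedAO : IsIntegrallyClosed (AO o Ω) := by
  have hc := O1a_closed o (AlgebraicClosure Ω)
  let j : Ω →ₐ[κ] AlgebraicClosure Ω := IsScalarTower.toAlgHom κ Ω _
  let φ : AO o Ω →ₐ[κ] AO o (AlgebraicClosure Ω) :=
    Algebra.TensorProduct.map j (AlgHom.id κ (AA o))
  obtain ⟨r, hr⟩ := (Algebra.linearMap Ω (AlgebraicClosure Ω)).exists_leftInverse_of_injective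
    (LinearMap.ker_eq_bot.2 (algebraMap Ω (AlgebraicClosure Ω)).injective)
  have hr1 : r 1 = 1 := by simpa using LinearMap.congr_fun hr 1
  let R : AO o (AlgebraicClosure Ω) →ₗ[κ] AO o Ω := (r.restrictScalars κ).rTensor (AA o)
  have hR : ∀ b c, R (φ b * c) = b * R c := by
    intro b c
    induction b using TensorProduct.induction_on with
    | zero => simp
    | add x y hx hy => rw [map_add, add_mul, map_add, hx, hy, add_mul]
    | tmul x a =>
      induction c using TensorProduct.induction_on with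
      | zero => simp
      | add z y hz hy => rw [mul_add, map_add, hz, hy, map_add, mul_add]
      | tmul z a' =>
        have h1 : r (algebraMap Ω (AlgebraicClosure Ω) x * z) = x * r z := by
          rw [← Algebra.smul_def, map_smul, smul_eq_mul]
        simp [R, φ, j, h1]
  have hφ : ∀ b, R (φ b) = b := fun b => by
    have h1 := hR b 1
    rw [mul_one] at h1
    have hR1 : R 1 = 1 := by
      rw [Algebra.TensorProduct.one_def, Algebra.TensorProduct.one_def]
      simp only [R, LinearMap.rTensor_tmul, LinearMap.restrictScalars_apply, hr1]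
    rw [h1, hR1, mul_one]
  have hinj : Function.Injective φ := Function.LeftInverse.injective hφ
  refine (isIntegrallyClosed_iff (FO o Ω)).2 fun {x} hx => ?_
  let ψ : FO o Ω →+* FO o (AlgebraicClosure Ω) := IsFractionRing.map (j := φ.toRingHom) hinj
  have hψ : ∀ a, ψ (algebraMap _ _ a) = algebraMap _ _ (φ a) := fun a =>
    IsLocalization.map_eq _ a
  obtain ⟨c, hc'⟩ := IsIntegrallyClosed.algebraMap_eq_of_integral
    (hx.map_of_comp_eq φ.toRingHom ψ (RingHom.ext fun a => (hψ a).symm))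
  obtain ⟨a, b, hb, rfl⟩ := IsFractionRing.div_surjective (A := AO o Ω) x
  have hb0 : algebraMap _ (FO o Ω) b ≠ 0 := IsFractionRing.to_map_ne_zero_of_mem_nonZeroDivisors hb
  have h1 : φ b * c = φ a := by
    apply IsFractionRing.injective _ (FO o (AlgebraicClosure Ω))
    rw [map_mul, hc', ← hψ, ← hψ, ← map_mul, mul_div_cancel₀ _ hb0]
  refine ⟨R c, ?_⟩
  rw [eq_div_iff hb0, ← map_mul, mul_comm, ← hR, h1, hφ]

/-- there is a place at infinity -/
theorem exists_oo [IsAlgClosed Ω] [CharZero Ω] : ∃ P : Place Ω (FO o Ω), ∀ (f : AO o Ω) (i : ℕ),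
    (ebO o Ω).repr f i ≠ 0 → (∀ j, i < j → (ebO o Ω).repr f j = 0) →
      P.ord (algebraMap _ (FO o Ω) f) = - (pn o i : ℤ) := by
  let P : Place Ω (FO o Ω) := ⟨(O1a_w o Ω).valuationSubring, O1a_w_const o Ω, fun h =>
    O1a_w_notMem o Ω (by rw [h]; exact ValuationSubring.mem_top _)⟩
  have hs : OrdSpec P fun x => - WithZero.log (O1a_w o Ω x) := by
    refine ⟨by simp, fun f g hf hg => ?_, fun f hf => ?_, ?_⟩
    · rw [map_mul, WithZero.log_mul ((Valuation.ne_zero_iff _).2 hf)
        ((Valuation.ne_zero_iff _).2 hg), neg_add]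
    · show O1a_w o Ω f ≤ 1 ↔ _
      rw [neg_nonneg, WithZero.log_le_iff_le_exp ((Valuation.ne_zero_iff _).2 hf),
        WithZero.exp_zero]
    · have h0 : ∀ i, algebraMap _ (FO o Ω) (ebO o Ω i) ≠ 0 := fun i => by
        simpa using (ebO o Ω).ne_zero i
      refine ⟨algebraMap _ _ (ebO o Ω (genus κ F)) / algebraMap _ _ (ebO o Ω (genus κ F + 1)),
        div_ne_zero (h0 _) (h0 _), ?_⟩
      rw [map_div₀, O1a_w_eb, O1a_w_eb, ← WithZero.exp_sub, WithZero.log_exp,
        (ebSpec o).large _ le_rfl, (ebSpec o).large _ (Nat.le_succ _)]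
      omega
  refine ⟨P, fun f i h1 h2 => ?_⟩
  rw [P.ordSpec.unique hs]
  show - WithZero.log (O1a_w o Ω _) = _
  rw [O1a_w_top o Ω ⟨h1, h2⟩, WithZero.log_exp]

end Pool.Agent.E6b

end

section
open scoped NNReal TensorProduct IntermediateField BigOperators Classical Topology
open Filter

namespace Pool.Agent.E6b

section
variable {κ F : Type} [Field κ] [IsAlgClosed κ] [CharZero κ] [Field F] [Algebra κ F] [IsFF κ F]
  (o : Place κ F) (Ω : Type) [Field Ω] [IsAlgClosed Ω] [CharZero Ω] [Algebra κ Ω]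

/-- the image of `AA o` in `FO o Ω` -/
noncomputable def iF (Ω : Type) [Field Ω] [Algebra κ Ω] : AA o →ₐ[κ] FO o Ω :=
  (IsScalarTower.toAlgHom κ (AO o Ω) (FO o Ω)).comp Algebra.TensorProduct.includeRight

/-- places and divisors of the base change -/
abbrev PO : Type := Place Ω (FO o Ω)

abbrev DO : Type := Dv Ω (FO o Ω)

/-- the place at infinity -/
noncomputable def oo : PO o Ω := (exists_oo o Ω).choose

end

section
variable {κ F : Type} [Field κ] [IsAlgClosed κ] [CharZero κ] [Field F] [Algebra κ F] [IsFF κ F]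

/-- (semilinear) base change -/
structure BC (o : Place κ F) (Ω Ω' : Type) [Field Ω] [Algebra κ Ω] [Field Ω'] [Algebra κ Ω'] where
  τ : Ω →+* Ω'
  φ : FO o Ω →+* FO o Ω'
  map_c : ∀ a, φ (algebraMap Ω (FO o Ω) a) = algebraMap Ω' (FO o Ω') (τ a)
  map_eb : ∀ i, φ (iF o Ω (eb o i)) = iF o Ω' (eb o i)

end

end Pool.Agent.E6b

end

section
open scoped NNReal TensorProduct IntermediateField BigOperators Classical Topology
open Filter

namespace Pool.Agent.E6b
variable {κ F : Type} [Field κ] [IsAlgClosed κ] [CharZero κ] [Field F] [Algebra κ F] [IsFF κ F]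
  {o : Place κ F} {Ω : Type} [Field Ω] [IsAlgClosed Ω] [CharZero Ω] [Algebra κ Ω]

theorem O1_iF (a : AA o) : algebraMap _ (FO o Ω) (1 ⊗ₜ[κ] a : AO o Ω) = iF o Ω a := rfl

theorem algebraMap_ebO (i : ℕ) : algebraMap _ (FO o Ω) (ebO o Ω i) = iF o Ω (eb o i) := by
  rw [ebO, Algebra.TensorProduct.basis_apply]
  rfl

theorem algebraMap_tmul (c : Ω) (a : AA o) :
    algebraMap _ (FO o Ω) (c ⊗ₜ[κ] a : AO o Ω) = algebraMap Ω (FO o Ω) c * iF o Ω a := by
  rw [IsScalarTower.algebraMap_apply Ω (AO o Ω) (FO o Ω), ← O1_iF, ← map_mul]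
  simp

theorem O1_ord (a : AA o) : (oo o Ω).ord (iF o Ω a) = o.ord (a : F) := by
  by_cases ha : a = 0
  · simp [ha, Place.ord_zero]
  obtain ⟨i, h1, h2⟩ := O1_max (eb o) ha
  have h3 : ∀ j, (ebO o Ω).repr (1 ⊗ₜ a) j = algebraMap κ Ω ((eb o).repr a j) := fun j => by
    simp [ebO]
  rw [← O1_iF]
  refine ((exists_oo o Ω).choose_spec _ i (by simpa [h3] using h1)
    fun j hj => by rw [h3, h2 j hj, map_zero]).trans ?_
  have h4 : (a : F) = ∑ j ∈ ((eb o).repr a).support, (eb o).repr a j • (eb o j : F) := by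
    conv_lhs => rw [← (eb o).linearCombination_repr a]
    simp [Finsupp.linearCombination_apply, Finsupp.sum]
  have h5 := (F1_sum_ne_zero o _ (fun j => (eb o).repr a j • (eb o j : F))
    (Finsupp.mem_support_iff.2 h1) (smul_ne_zero h1 (by simpa using (eb o).ne_zero i))
    fun j hj hji => Or.inr (by
      have hj' := Finsupp.mem_support_iff.1 hj
      have := (ebSpec o).mono (lt_of_le_of_ne (not_lt.1 fun h => hj' (h2 j h)) hji)
      rw [o.ord_smul h1, o.ord_smul hj', (ebSpec o).ord, (ebSpec o).ord]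
      omega)).2
  rw [← h4, o.ord_smul h1, (ebSpec o).ord] at h5
  exact h5.symm

variable (o Ω) in
/-- the image of the coordinate ring -/
noncomputable abbrev O1_B : Subalgebra Ω (FO o Ω) :=
  (IsScalarTower.toAlgHom Ω (AO o Ω) (FO o Ω)).range

variable (o Ω) in
/-- the coordinate ring and its image -/
noncomputable abbrev O1_e : AO o Ω ≃ₐ[Ω] O1_B o Ω :=
  AlgEquiv.ofInjective _ (IsFractionRing.injective (AO o Ω) (FO o Ω))

theorem O1_range {f : FO o Ω} (h : ∀ P : PO o Ω, iF o Ω (wN o) ∈ P.O → f ∈ P.O) :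
    f ∈ (algebraMap (AO o Ω) (FO o Ω)).range := by
  have h1 := isIntegral_of_forall_mem (O1_B o Ω) fun P hP => h P (hP _ ⟨1 ⊗ₜ wN o, rfl⟩)
  refine IsIntegrallyClosed.isIntegral_iff.1
    (h1.map_of_comp_eq (O1_e o Ω).symm.toRingEquiv.toRingHom (RingHom.id _) ?_)
  ext x
  obtain ⟨x, rfl⟩ := (O1_e o Ω).surjective x
  simp

end Pool.Agent.E6b

end

section
open scoped NNReal TensorProduct IntermediateField BigOperators Classical Topology
open Filter

namespace Pool.Agent.E6b
variable {κ F : Type} [Field κ] [IsAlgClosed κ] [CharZero κ] [Field F] [Algebra κ F] [IsFF κ F]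
  {o : Place κ F} {Ω : Type} [Field Ω] [IsAlgClosed Ω] [CharZero Ω] [Algebra κ Ω] (O : VS κ Ω)

theorem L1_alg (c : Ω) (a : AO o Ω) : algebraMap _ (FO o Ω) (c • a) =
    algebraMap Ω (FO o Ω) c * algebraMap _ (FO o Ω) a :=
  (map_smul (IsScalarTower.toAlgHom Ω (AO o Ω) (FO o Ω)) c a).trans (Algebra.smul_def _ _)

end Pool.Agent.E6b

end

section
open scoped NNReal TensorProduct IntermediateField BigOperators Classical Topology
open Filter

namespace Pool.Agent.E6b

theorem NoMap.mono {κ E F' : Type} [Field κ] [Field E] [Algebra κ E] [Field F'] [Algebra κ F']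
    {B B' : ℕ} (h : NoMap κ E F' B') (hB : B ≤ B') : NoMap κ E F' B := fun φ => hB.trans_lt (h φ)

end Pool.Agent.E6b

end
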