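import Pool.Agent.E6c.A09
import Pool.Agent.E6c.A12
import Pool.Agent.E6c.A13

section
open scoped NNReal TensorProduct IntermediateField BigOperators Classical Topology
open Filter

namespace Pool.Agent.E6b

namespace WP
variable {κ : Type} [Field κ] (W : WP κ) (a : ℕ)

def f {R : Type} [CommRing R] [Algebra κ R] (x : R) : R :=
  x ^ 3 + algebraMap κ R W.A * x ^ 2 + algebraMap κ R W.B

def Rel {R : Type} [Field R] [Algebra κ R] (t x : R) : Prop :=
  x ^ (2 * a) * W.f x = ((t - algebraMap κ R W.τ)⁻¹ - algebraMap κ R W.c) ^ 2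

def y {R : Type} [Field R] [Algebra κ R] (t x : R) : R :=
  ((t - algebraMap κ R W.τ)⁻¹ - algebraMap κ R W.c) / x ^ a

/-- the cubic is separable -/
def Ns : Prop := W.B * (4 * W.A ^ 3 + 27 * W.B) ≠ 0

/-- a set containing the branch points -/
def Br : Set (Option κ) :=
  {e | e = some W.τ ∨ ∃ x₀ y₀ : κ, y₀ ^ 2 = W.f x₀ ∧
    x₀ * (2 * a * W.f x₀ + x₀ * (3 * x₀ ^ 2 + 2 * W.A * x₀)) = 0 ∧
    e = if x₀ ^ a * y₀ + W.c = 0 then none else some (W.τ + (x₀ ^ a * y₀ + W.c)⁻¹)}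

end WP

/-- five covers inside one field -/
structure TD (κ L : Type) [Field κ] [Field L] [Algebra κ L] (a : ℕ) where
  W : Fin 5 → WP κ
  t : L
  x : Fin 5 → L
  ha : 1 ≤ a
  nc : t ∉ (algebraMap κ L).range
  ns : ∀ s, (W s).Ns
  br : ∀ s s', s ≠ s' → Disjoint ((W s).Br a) ((W s').Br a)
  rel : ∀ s, (W s).Rel a t (x s)

namespace TD
variable {κ L : Type} [Field κ] [Field L] [Algebra κ L] {a : ℕ} (D : TD κ L a)

noncomputable def F (J : Finset (Fin 5)) : IntermediateField κ L :=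
  IntermediateField.adjoin κ (insert D.t (D.x '' J))

theorem t_mem (J : Finset (Fin 5)) : D.t ∈ D.F J :=
  IntermediateField.subset_adjoin _ _ (Set.mem_insert _ _)

theorem x_mem {J : Finset (Fin 5)} {s : Fin 5} (h : s ∈ J) : D.x s ∈ D.F J :=
  IntermediateField.subset_adjoin _ _ (Set.mem_insert_of_mem _ ⟨s, h, rfl⟩)

noncomputable def tF (J : Finset (Fin 5)) : D.F J := ⟨D.t, D.t_mem J⟩

noncomputable def xF {J : Finset (Fin 5)} {s : Fin 5} (h : s ∈ J) : D.F J := ⟨D.x s, D.x_mem h⟩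

end TD

/-- arithmetic data: a quintic field with group `S₅` and a suitable prime -/
structure AR (a : ℕ) where
  θ : Fin 5 → Qb
  perm : (Qb ≃ₐ[ℚ] Qb) →* Equiv.Perm (Fin 5)
  p : ℕ
  k : ℤ
  cb : ℤ
  inj : Function.Injective θ
  int : ∀ s, IsIntegral ℤ (θ s)
  act : ∀ σ s, σ (θ s) = θ (perm σ s)
  surj : Function.Surjective perm
  prime : p.Prime
  big : 2 * a + 3 < p
  sep : ∀ v, IsPl p v → ∀ i j, i ≠ j → v (θ i - θ j) = 1
  ram : ∀ s s', s ≠ s' → ∃ v, IsPl p v ∧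
    v ((θ s ^ 2 + k * θ s) - (θ s' ^ 2 + k * θ s')) = (p : ℝ)⁻¹ ∧
    ∀ i j, i ≠ j → ¬ (i = s ∧ j = s') → ¬ (i = s' ∧ j = s) →
      v ((θ i ^ 2 + k * θ i) - (θ j ^ 2 + k * θ j)) = 1
  unr : ∀ v, IsPl p v → ∀ i j, v ((θ i ^ 2 + k * θ i) - (θ j ^ 2 + k * θ j)) = 1 →
    v (((θ i ^ 2 + k * θ i) - (θ j ^ 2 + k * θ j))⁻¹ - cb) = 1 ∧
    v ((2 * a + 3) ^ (2 * a + 3) * (((θ i ^ 2 + k * θ i) - (θ j ^ 2 + k * θ j))⁻¹ - cb) ^ 6 -
      (2 * a) ^ (2 * a) * 27) = 1

namespace AR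
variable {a : ℕ} (Λ : AR a)

noncomputable def pv (u : Fin 5 → ℤ) (s : Fin 5) : Qb := ∑ i : Fin 5, (u i : Qb) * Λ.θ s ^ (i : ℕ)

/-- the five conjugate covers for the integer parameters `m`, `c` -/
noncomputable def W (m c : Fin 5 → ℤ) (s : Fin 5) : WP Qb where
  A := 4 * Λ.p * Λ.pv m s
  B := Λ.pv m s ^ 2
  c := Λ.pv c s
  τ := Λ.θ s ^ 2 + Λ.k * Λ.θ s

/-- congruence conditions on the parameters -/
def Adm (m c : Fin 5 → ℤ) : Prop :=
  (∀ i, (Λ.p : ℤ) ∣ m i - if i = 0 then 1 else 0) ∧ ∀ i, (Λ.p : ℤ) ∣ c i - if i = 0 then Λ.cb else 0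

end AR

end Pool.Agent.E6b

end

section
open scoped NNReal TensorProduct IntermediateField BigOperators Classical Topology
open Filter

namespace Pool.Agent.E6b
variable {κ E : Type} [Field κ] [IsAlgClosed κ] [CharZero κ] [Field E] [Algebra κ E]

/-- one cover -/
structure WC (W : WP κ) (a : ℕ) (t x : E) : Prop where
  ha : 1 ≤ a
  ns : W.Ns
  nc : t ∉ (algebraMap κ E).range
  gen : IntermediateField.adjoin κ {t, x} = ⊤
  rel : W.Rel a t x

omit [IsAlgClosed κ] [CharZero κ] in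
theorem X2a_f_map (W : WP κ) (x₀ : κ) : W.f (algebraMap κ E x₀) = algebraMap κ E (W.f x₀) := by
  simp [WP.f]

theorem X2a_ev_pow [IsFF κ E] (P : Place κ E) {f : E} (hf : f ∈ P.O) (n : ℕ) :
    P.ev (f ^ n) = P.ev f ^ n := by
  induction n with
  | zero => simpa using P.ev_algebraMap 1
  | succ n ih => rw [pow_succ, pow_succ, P.ev_mul (pow_mem hf n) hf, ih]

theorem X2a_ev_neg [IsFF κ E] (P : Place κ E) {f : E} (hf : f ∈ P.O) : P.ev (-f) = - P.ev f := by
  have h := P.ev_sub P.O.zero_mem hf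
  rwa [zero_sub, F1a_ev_zero, zero_sub] at h

theorem X2a_ev_f [IsFF κ E] (W : WP κ) (P : Place κ E) {x : E} (hx : x ∈ P.O) :
    W.f x ∈ P.O ∧ P.ev (W.f x) = W.f (P.ev x) := by
  have h1 := pow_mem hx 3
  have h2 := mul_mem (P.const W.A) (pow_mem hx 2)
  refine ⟨add_mem (add_mem h1 h2) (P.const _), ?_⟩
  rw [WP.f, P.ev_add (add_mem h1 h2) (P.const _), P.ev_add h1 h2,
    P.ev_mul (P.const _) (pow_mem hx 2), X2a_ev_pow P hx, X2a_ev_pow P hx, P.ev_algebraMap,
    P.ev_algebraMap]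
  simp [WP.f]

theorem X2a_ord_f [IsFF κ E] (W : WP κ) (P : Place κ E) {x : E} (hx : P.ord x < 0) :
    P.ord (W.f x) = 3 * P.ord x := by
  have hd : (Polynomial.X ^ 3 + Polynomial.C W.A * Polynomial.X ^ 2 + Polynomial.C W.B :
      Polynomial κ).natDegree = 3 := by compute_degree!
  have h0 : (Polynomial.X ^ 3 + Polynomial.C W.A * Polynomial.X ^ 2 + Polynomial.C W.B :
      Polynomial κ) ≠ 0 := by
    intro h
    rw [h] at hd
    simp at hd
  have h := (F2_ord_aeval P hx h0).2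
  rw [hd] at h
  simpa [WP.f] using h

theorem X2a_rk [IsFF κ E] {g : E} (hg : g ∉ (algebraMap κ E).range) (c : Option κ)
    {o : Place κ E} (ho : 0 < o.ord (lc g c)) (h : ∀ P, P ≠ o → P.ord (lc g c) ≤ 0) :
    (rk κ g : ℤ) = o.ord (lc g c) := by
  have h1 := sum_ord_lc hg c
  have h2 : (finite_tv hg c).toFinset = {o} := by
    ext P
    rw [Set.Finite.mem_toFinset, Finset.mem_singleton]
    change tv g P = c ↔ _
    rw [tv_eq_iff hg]
    constructor
    · intro hP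
      by_contra hne
      exact absurd (h P hne) (not_le.2 hP)
    · rintro rfl
      exact ho
  rw [h2, Finset.sum_singleton] at h1
  exact h1.symm
variable {W : WP κ} {a : ℕ} {t x : E} (h : WC W a t x)
include h

namespace WC

theorem x_notMem : x ∉ (algebraMap κ E).range := by
  rintro ⟨x₀, rfl⟩
  obtain ⟨r, hr⟩ := IsAlgClosed.exists_pow_nat_eq (x₀ ^ (2 * a) * W.f x₀) (n := 2) two_pos
  have h1 := h.rel
  rw [WP.Rel, X2a_f_map, ← map_pow, ← map_mul, ← hr, map_pow] at h1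
  have key : ∀ s : κ, (t - algebraMap κ E W.τ)⁻¹ = algebraMap κ E s → False := fun s hs =>
    h.nc ⟨W.τ + s⁻¹, by rw [map_add, map_inv₀, ← hs, inv_inv, add_sub_cancel]⟩
  rcases sq_eq_sq_iff_eq_or_eq_neg.1 h1 with h2 | h2
  · exact key (W.c + r) (by rw [map_add, h2, add_sub_cancel])
  · exact key (W.c - r) (by rw [map_sub, h2]; ring)

theorem X2a_x_ne : x ≠ 0 := fun h0 => h.x_notMem ⟨0, by rw [h0, map_zero]⟩

theorem y_sq : W.y a t x ^ 2 = W.f x := by
  have h1 := h.rel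
  have h2 := h.X2a_x_ne
  rw [WP.Rel] at h1
  rw [WP.y, div_pow, ← h1, ← pow_mul, mul_comm a 2, mul_div_cancel_left₀ _ (pow_ne_zero _ h2)]

theorem X2a_u : x ^ a * W.y a t x + algebraMap κ E W.c = (t - algebraMap κ E W.τ)⁻¹ := by
  rw [WP.y, mul_div_cancel₀ _ (pow_ne_zero _ h.X2a_x_ne), sub_add_cancel]

theorem t_eq : t = algebraMap κ E W.τ + (x ^ a * W.y a t x + algebraMap κ E W.c)⁻¹ := by
  rw [h.X2a_u, inv_inv, add_sub_cancel]

theorem X2a_top : κ⟮x⟯⟮W.y a t x⟯ = ⊤ := by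
  have hx : x ∈ κ⟮x⟯⟮W.y a t x⟯ :=
    IntermediateField.algebraMap_mem κ⟮x⟯⟮W.y a t x⟯
      ⟨x, IntermediateField.mem_adjoin_simple_self κ x⟩
  have hy : W.y a t x ∈ κ⟮x⟯⟮W.y a t x⟯ := IntermediateField.mem_adjoin_simple_self _ _
  have hc : ∀ c : κ, algebraMap κ E c ∈ κ⟮x⟯⟮W.y a t x⟯ := fun c =>
    IntermediateField.algebraMap_mem κ⟮x⟯⟮W.y a t x⟯ (algebraMap κ κ⟮x⟯ c)
  have ht : t ∈ κ⟮x⟯⟮W.y a t x⟯ := by
    have := add_mem (hc W.τ) (inv_mem (add_mem (mul_mem (pow_mem hx a) hy) (hc W.c)))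
    rwa [← h.t_eq] at this
  have h1 : IntermediateField.adjoin κ {t, x} ≤ (κ⟮x⟯⟮W.y a t x⟯).restrictScalars κ := by
    rw [IntermediateField.adjoin_le_iff]
    rintro z (rfl | rfl)
    · exact ht
    · exact hx
  rw [h.gen] at h1
  exact top_unique fun z _ => h1 (IntermediateField.mem_top (x := z))

theorem X2a_poly : ∃ q : Polynomial κ⟮x⟯, q.Monic ∧ q.natDegree = 2 ∧
    Polynomial.aeval (W.y a t x) q = 0 ∧ Polynomial.aeval (- W.y a t x) q = 0 := by
  have hx := IntermediateField.mem_adjoin_simple_self κ x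
  have hf : W.f x ∈ κ⟮x⟯ := add_mem (add_mem (pow_mem hx 3)
    (mul_mem (IntermediateField.algebraMap_mem _ _) (pow_mem hx 2)))
    (IntermediateField.algebraMap_mem _ _)
  refine ⟨Polynomial.X ^ 2 - Polynomial.C ⟨W.f x, hf⟩, Polynomial.monic_X_pow_sub_C _ two_ne_zero,
    Polynomial.natDegree_X_pow_sub_C, ?_, ?_⟩
  · rw [map_sub, map_pow, Polynomial.aeval_X, Polynomial.aeval_C, h.y_sq]
    exact sub_self _
  · rw [map_sub, map_pow, Polynomial.aeval_X, Polynomial.aeval_C, neg_sq, h.y_sq]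
    exact sub_self _

theorem X2a_int : IsIntegral κ⟮x⟯ (W.y a t x) := by
  obtain ⟨q, hq, -, h1, -⟩ := h.X2a_poly
  exact ⟨q, hq, h1⟩

theorem X2a_deg : rk κ x = (minpoly κ⟮x⟯ (W.y a t x)).natDegree := by
  rw [← IntermediateField.adjoin.finrank h.X2a_int, h.X2a_top, IntermediateField.finrank_top']
  rfl

theorem X2a_rk_le : rk κ x ≤ 2 := by
  obtain ⟨q, hq, h2, h1, -⟩ := h.X2a_poly
  rw [h.X2a_deg, ← h2]
  exact Polynomial.natDegree_le_of_dvd (minpoly.dvd _ _ h1) hq.ne_zero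
variable [IsFF κ E]

theorem X2a_pole {P : Place κ E} (hP : P.ord x < 0) : 2 * P.ord (W.y a t x) = 3 * P.ord x := by
  have h1 := P.ord_pow (W.y a t x) 2
  rw [h.y_sq, X2a_ord_f W P hP] at h1
  exact_mod_cast h1.symm

theorem X2a_y_mem {P : Place κ E} (hP : x ∈ P.O) : W.y a t x ∈ P.O := by
  have h1 := P.ord_pow (W.y a t x) 2
  have h2 := P.mem_iff.1 (X2a_ev_f W P hP).1
  rw [h.y_sq] at h1
  rw [P.mem_iff]
  push_cast at h1
  omega

theorem X2a_inf : ∃ o : Place κ E, o.ord x = -2 ∧ o.ord (W.y a t x) = -3 ∧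
    ∀ P : Place κ E, P ≠ o → x ∈ P.O := by
  obtain ⟨o, ho⟩ := exists_pole h.x_notMem
  have hi : x⁻¹ ∉ (algebraMap κ E).range := by
    rintro ⟨c, hc⟩
    exact h.x_notMem ⟨c⁻¹, by rw [map_inv₀, hc, inv_inv]⟩
  have hr : Module.finrank κ⟮x⁻¹⟯ E ≤ 2 := by
    have e : κ⟮x⁻¹⟯ = κ⟮x⟯ := by
      refine le_antisymm (IntermediateField.adjoin_simple_le_iff.2
        (inv_mem (IntermediateField.mem_adjoin_simple_self κ x)))
        (IntermediateField.adjoin_simple_le_iff.2 ?_)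
      have := inv_mem (IntermediateField.mem_adjoin_simple_self κ x⁻¹)
      rwa [inv_inv] at this
    rw [e]
    exact h.X2a_rk_le
  have h1 := h.X2a_pole ho
  have h2 := F1_sum_ord_le hi {o} (fun P hP => by
    rw [Finset.mem_singleton.1 hP, Place.ord_inv]; omega)
  rw [Finset.sum_singleton, Place.ord_inv] at h2
  refine ⟨o, by omega, by omega, fun P hne => ?_⟩
  by_contra hP
  rw [P.mem_iff, not_le] at hP
  have h3 := h.X2a_pole hP
  have h4 := F1_sum_ord_le hi {P, o} (fun Q hQ => by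
    rcases Finset.mem_insert.1 hQ with rfl | hQ
    · rw [Place.ord_inv]; omega
    · rw [Finset.mem_singleton.1 hQ, Place.ord_inv]; omega)
  rw [Finset.sum_pair hne, Place.ord_inv, Place.ord_inv] at h4
  omega

theorem rk_x : rk κ x = 2 := by
  obtain ⟨o, h1, -, h3⟩ := h.X2a_inf
  have e : ∀ P : Place κ E, P.ord (lc x (none : Option κ)) = - P.ord x := fun P => P.ord_inv x
  have := X2a_rk h.x_notMem none (o := o) (by rw [e]; omega) (fun P hP => by
    have := P.mem_iff.1 (h3 P hP)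
    rw [e]; omega)
  rw [e] at this
  omega

theorem rk_y : rk κ (W.y a t x) = 3 := by
  obtain ⟨o, -, h2, h3⟩ := h.X2a_inf
  have hy : W.y a t x ∉ (algebraMap κ E).range := by
    rintro ⟨c, hc⟩
    rw [← hc, o.ord_algebraMap] at h2
    omega
  have e : ∀ P : Place κ E, P.ord (lc (W.y a t x) (none : Option κ)) = - P.ord (W.y a t x) :=
    fun P => P.ord_inv _
  have := X2a_rk hy none (o := o) (by rw [e]; omega) (fun P hP => by
    have := P.mem_iff.1 (h.X2a_y_mem (h3 P hP))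
    rw [e]; omega)
  rw [e] at this
  omega

theorem X2a_ord_t (P : Place κ E) : P.ord (t - algebraMap κ E W.τ) =
    - P.ord (x ^ a * W.y a t x + algebraMap κ E W.c) := by
  rw [h.X2a_u, P.ord_inv, neg_neg]

theorem X2a_inf' : ∃ o : Place κ E, o.ord (t - algebraMap κ E W.τ) = 2 * a + 3 ∧
    ∀ P : Place κ E, P ≠ o → x ∈ P.O ∧ W.y a t x ∈ P.O ∧
      P.ord (t - algebraMap κ E W.τ) ≤ 0 := by
  obtain ⟨o, h1, h2, h3⟩ := h.X2a_inf
  have hy : W.y a t x ≠ 0 := F1a_ne_zero_of_ord o (by omega)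
  have hxa : x ^ a ≠ 0 := pow_ne_zero _ h.X2a_x_ne
  have h4 : o.ord (x ^ a * W.y a t x) = -(2 * a + 3) := by
    rw [o.ord_mul hxa hy, o.ord_pow, h1, h2]
    ring
  have h5 := (o.ord_add_eq (g := algebraMap κ E W.c) (mul_ne_zero hxa hy)
    (Or.inr (by rw [h4, o.ord_algebraMap]; omega))).2
  refine ⟨o, by rw [h.X2a_ord_t, h5, h4, neg_neg], fun P hP => ?_⟩
  have h6 := h3 P hP
  have h7 := h.X2a_y_mem h6
  refine ⟨h6, h7, ?_⟩
  have h8 := P.mem_iff.1 (add_mem (mul_mem (pow_mem h6 a) h7) (P.const W.c))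
  rw [h.X2a_ord_t]
  omega

theorem X2a_invol : ∃ σ : E →ₐ[κ] E, σ x = x ∧ σ (W.y a t x) = - W.y a t x := by
  obtain ⟨q, hq, h2, h1, h3⟩ := h.X2a_poly
  have hm := minpoly.monic h.X2a_int
  have he : q = minpoly κ⟮x⟯ (W.y a t x) :=
    Polynomial.eq_of_monic_of_dvd_of_natDegree_le hm hq (minpoly.dvd _ _ h1)
      (by rw [← h.X2a_deg, h.rk_x, h2])
  have hr : - W.y a t x ∈ (minpoly κ⟮x⟯ (W.y a t x)).aroots E := by
    rw [Polynomial.mem_aroots, ← he]
    exact ⟨hq.ne_zero, h3⟩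
  let φ := (IntermediateField.algHomAdjoinIntegralEquiv κ⟮x⟯ (K := E) h.X2a_int).symm ⟨_, hr⟩
  have hφ : φ (IntermediateField.AdjoinSimple.gen κ⟮x⟯ (W.y a t x)) = - W.y a t x :=
    IntermediateField.algHomAdjoinIntegralEquiv_symm_apply_gen κ⟮x⟯ h.X2a_int ⟨_, hr⟩
  let e : κ⟮x⟯⟮W.y a t x⟯ ≃ₐ[κ⟮x⟯] E :=
    (IntermediateField.equivOfEq h.X2a_top).trans IntermediateField.topEquiv
  have he2 : e.symm (W.y a t x) = IntermediateField.AdjoinSimple.gen κ⟮x⟯ (W.y a t x) := by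
    rw [AlgEquiv.symm_apply_eq]
    rfl
  refine ⟨(φ.comp (e.symm : E →ₐ[κ⟮x⟯] κ⟮x⟯⟮W.y a t x⟯)).restrictScalars κ, ?_, ?_⟩
  · exact (φ.comp (e.symm : E →ₐ[κ⟮x⟯] κ⟮x⟯⟮W.y a t x⟯)).commutes
      ⟨x, IntermediateField.mem_adjoin_simple_self κ x⟩
  · change φ (e.symm (W.y a t x)) = _
    rw [he2, hφ]

theorem X2a_ev_sq {P : Place κ E} (hP : x ∈ P.O) : P.ev (W.y a t x) ^ 2 = W.f (P.ev x) := by
  rw [← X2a_ev_pow P (h.X2a_y_mem hP), h.y_sq, (X2a_ev_f W P hP).2]

theorem ev_rel {P : Place κ E} (hP : x ∈ P.O) : W.y a t x ∈ P.O ∧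
    P.ev (W.y a t x) ^ 2 = W.f (P.ev x) ∧
    tv t P = if P.ev x ^ a * P.ev (W.y a t x) + W.c = 0 then none
      else some (W.τ + (P.ev x ^ a * P.ev (W.y a t x) + W.c)⁻¹) := by
  have hy := h.X2a_y_mem hP
  refine ⟨hy, h.X2a_ev_sq hP, ?_⟩
  have m1 := mul_mem (pow_mem hP a) hy
  have m2 := add_mem m1 (P.const W.c)
  have h1 : P.ev (x ^ a * W.y a t x + algebraMap κ E W.c) =
      P.ev x ^ a * P.ev (W.y a t x) + W.c := by
    rw [P.ev_add m1 (P.const _), P.ev_mul (pow_mem hP a) hy, X2a_ev_pow P hP, P.ev_algebraMap]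
  rw [← h1]
  split_ifs with h0
  · have h2 : x ^ a * W.y a t x + algebraMap κ E W.c ≠ 0 := by
      rw [h.X2a_u]
      exact inv_ne_zero (sub_ne_zero.2 fun e => h.nc ⟨_, e.symm⟩)
    have h3 := ((P.ev_eq_zero_iff m2).1 h0).resolve_left h2
    have h4 := h.X2a_ord_t P
    rw [tv, if_neg]
    intro ht
    have := P.mem_iff.1 (sub_mem ht (P.const W.τ))
    omega
  · have h2 := P.ev_div P.O.one_mem m2 h0
    have e1 : P.ev 1 = 1 := by simpa using P.ev_algebraMap 1
    rw [e1, one_div, one_div] at h2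
    have h3 := add_mem (P.const W.τ) h2.1
    have h4 := P.ev_add (P.const W.τ) h2.1
    rw [← h.t_eq] at h3 h4
    rw [tv, if_pos h3, h4, h2.2, P.ev_algebraMap]

end WC

end Pool.Agent.E6b

end

section
open scoped NNReal TensorProduct IntermediateField BigOperators Classical Topology
open Filter

namespace Pool.Agent.E6b

section
variable {κ E : Type} [Field κ] [IsAlgClosed κ] [CharZero κ] [Field E] [Algebra κ E] [IsFF κ E]

theorem X2_ev_aeval (P : Place κ E) {z : E} (hz : z ∈ P.O) (p : Polynomial κ) :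
    P.ev (Polynomial.aeval z p) = p.eval (P.ev z) := by
  induction p using Polynomial.induction_on with
  | C c => simp [P.ev_algebraMap]
  | add p q hp hq =>
    rw [map_add, P.ev_add (F1_aeval_mem P hz p) (F1_aeval_mem P hz q), hp, hq, Polynomial.eval_add]
  | monomial n c hn =>
    rw [pow_succ, ← mul_assoc, map_mul, Polynomial.aeval_X,
      P.ev_mul (F1_aeval_mem P hz _) hz, hn, Polynomial.eval_mul (q := Polynomial.X),
      Polynomial.eval_X]

end

end Pool.Agent.E6b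

end

section
open scoped NNReal TensorProduct IntermediateField BigOperators Classical Topology
open Filter

namespace Pool.Agent.E6b

section
open Polynomial

theorem X3_poly {κ F K : Type} [Field κ] [Field F] [Algebra κ F] [Field K] [Algebra K F]
    (W : WP κ) (a : ℕ) {t x : F} (hκ : ∀ c : κ, ∃ k : K, algebraMap K F k = algebraMap κ F c)
    (ht : ∃ k : K, algebraMap K F k = t) (rel : W.Rel a t x) :
    IsIntegral K x ∧ (minpoly K x).natDegree ≤ 2 * a + 3 := by
  obtain ⟨A, hA⟩ := hκ W.A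
  obtain ⟨B, hB⟩ := hκ W.B
  obtain ⟨c, hc⟩ := hκ W.c
  obtain ⟨τ, hτ⟩ := hκ W.τ
  obtain ⟨T, hT⟩ := ht
  set p : K[X] := X ^ (2 * a + 3) + (C A * X ^ (2 * a + 2) + C B * X ^ (2 * a) -
    C (((T - τ)⁻¹ - c) ^ 2)) with hp
  have hlt : (C A * X ^ (2 * a + 2) + C B * X ^ (2 * a) - C (((T - τ)⁻¹ - c) ^ 2) : K[X]).degree <
      ((2 * a + 3 : ℕ) : WithBot ℕ) := by
    have h1 : (C A * X ^ (2 * a + 2) + C B * X ^ (2 * a) -
        C (((T - τ)⁻¹ - c) ^ 2) : K[X]).natDegree ≤ 2 * a + 2 := by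
      refine (natDegree_sub_le _ _).trans (max_le ((natDegree_add_le _ _).trans (max_le ?_ ?_)) ?_)
      · exact natDegree_C_mul_X_pow_le _ _
      · exact (natDegree_C_mul_X_pow_le _ _).trans (by omega)
      · rw [natDegree_C]; omega
    exact lt_of_le_of_lt (degree_le_of_natDegree_le h1) (by exact_mod_cast Nat.lt_succ_self _)
  have hm : p.Monic := monic_X_pow_add hlt
  have hd : p.natDegree = 2 * a + 3 := by
    rw [hp, natDegree_add_eq_left_of_degree_lt (by rwa [degree_X_pow]), natDegree_X_pow]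
  have h0 : aeval x p = 0 := by
    simp only [hp, map_add, map_sub, map_mul, map_pow, aeval_X, aeval_C, map_inv₀, hA, hB, hc, hτ,
      hT]
    unfold WP.Rel WP.f at rel
    linear_combination rel
  refine ⟨⟨p, hm, h0⟩, ?_⟩
  rw [← hd]
  exact natDegree_le_natDegree (minpoly.min K x hm h0)

end

end Pool.Agent.E6b

end

section
open scoped NNReal TensorProduct IntermediateField BigOperators Classical Topology
open Filter

namespace Pool.Agent.E6b
variable {κ F : Type} [Field κ] [IsAlgClosed κ] [CharZero κ] [Field F] [Algebra κ F] [IsFF κ F]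

/-- finitely many unramified fibres of `wN` -/
structure PD (o : Place κ F) where
  c : Fin (5 * genus κ F + 1) → κ
  q : Fin (5 * genus κ F + 1) → Fin (NN o) → Pt o κ
  c_inj : Function.Injective c
  q_inj : ∀ i, Function.Injective (q i)
  q_wN : ∀ i l, q i l (wN o) = c i

end Pool.Agent.E6b

end

section
open scoped NNReal TensorProduct IntermediateField BigOperators Classical Topology
open Filter

namespace Pool.Agent.E6b
variable {κ F : Type} [Field κ] [IsAlgClosed κ] [CharZero κ] [Field F] [Algebra κ F] [IsFF κ F]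
  {o : Place κ F} {Ω Ω' : Type} [Field Ω] [IsAlgClosed Ω] [CharZero Ω] [Algebra κ Ω]
  [Field Ω'] [IsAlgClosed Ω'] [CharZero Ω'] [Algebra κ Ω'] {ι ι' ι'' : Type} [Fintype ι]
  [Fintype ι'] [Fintype ι'']

theorem P3_cube {Γ : Type} [CommGroupWithZero Γ]
    {X Y Z Qx Qy Qz Exy Exz Eyz v vx vy vz vxy vxz vyz : Γ}
    {p q r h : ℤ} (hX : X ≠ 0) (hY : Y ≠ 0) (hZ : Z ≠ 0)
    (h1 : v * ((X * Y * Z) ^ (p + q + r + h)) ^ 2 = Qx * Qy * Exy ^ 2 * Qz * (Exz * Eyz) ^ 2)
    (h2 : vx * (X ^ (p + h)) ^ 2 = Qx) (h3 : vy * (Y ^ (q + h)) ^ 2 = Qy)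
    (h4 : vz * (Z ^ (r + h)) ^ 2 = Qz)
    (h5 : vxy * ((X * Y) ^ (p + q + h)) ^ 2 = Qx * Qy * Exy ^ 2)
    (h6 : vxz * ((X * Z) ^ (p + r + h)) ^ 2 = Qx * Qz * Exz ^ 2)
    (h7 : vyz * ((Y * Z) ^ (q + r + h)) ^ 2 = Qy * Qz * Eyz ^ 2) :
    v * vx * vy * vz = vxy * vxz * vyz := by
  rw [← eq_div_iff (by positivity)] at h1 h2 h3 h4 h5 h6 h7
  rw [h1, h2, h3, h4, h5, h6, h7]
  simp only [mul_zpow, zpow_add₀ hX, zpow_add₀ hY, zpow_add₀ hZ]
  field_simp

end Pool.Agent.E6b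

end

section
open scoped NNReal TensorProduct IntermediateField BigOperators Classical Topology
open Filter

namespace Pool.Agent.E6b
open MvPowerSeries

theorem TB1_th_nonneg (p : ℕ) {c : ℝ} (hc : 0 ≤ c) : 0 ≤ th p c := by
  unfold th
  split_ifs
  · exact hc
  · norm_num

theorem TB1_th_pow (p : ℕ) (c : ℝ) (n : ℕ) : th p (c ^ n) = th p c ^ n := by
  unfold th
  split_ifs <;> simp

theorem TB1_th_mul (p : ℕ) (a b : ℝ) : th p (a * b) = th p a * th p b := by
  unfold th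
  split_ifs <;> simp

theorem TB1_th_one (p : ℕ) : th p 1 = 1 := by
  unfold th
  split_ifs <;> simp

/-- weighted triangle inequality at a place -/
theorem TB1_sum {p : ℕ} {v : AbsoluteValue Qb ℝ} (hv : IsPl p v) {ι : Type*} (s : Finset ι)
    (f : ι → Qb) (w : ι → ℝ) {M c : ℝ} (hM : 0 ≤ M) (hf : ∀ i ∈ s, v (f i) ≤ M * th p (w i))
    (hw : ∑ i ∈ s, w i ≤ c) : v (∑ i ∈ s, f i) ≤ M * th p c := by
  by_cases hp : p = 0
  · subst hp
    simp only [th, if_true] at hf ⊢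
    calc v (∑ i ∈ s, f i) ≤ ∑ i ∈ s, v (f i) := v.sum_le s f
      _ ≤ ∑ i ∈ s, M * w i := Finset.sum_le_sum hf
      _ = M * ∑ i ∈ s, w i := by rw [Finset.mul_sum]
      _ ≤ M * c := mul_le_mul_of_nonneg_left hw hM
  · simp only [th, if_neg hp, mul_one] at hf ⊢
    have h := hv.sum_le s f hM hf
    simpa [th, hp] using h
variable {σ : Type} [Fintype σ]

theorem TB1_anti {x : ℝ} (hx : 0 ≤ x) (m : σ →₀ ℕ) :
    ∑ a ∈ Finset.HasAntidiagonal.antidiagonal m, x ^ a.1.degree ≤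
      ∏ j, ∑ i ∈ Finset.range (m j + 1), x ^ i := by
  rw [Finset.prod_univ_sum]
  have hinj : Set.InjOn (fun a : (σ →₀ ℕ) × (σ →₀ ℕ) => (a.1 : σ → ℕ))
      (Finset.HasAntidiagonal.antidiagonal m : Set ((σ →₀ ℕ) × (σ →₀ ℕ))) := by
    intro a ha b hb hab
    have ha' : a.1 + a.2 = m := by simpa using ha
    have hb' : b.1 + b.2 = m := by simpa using hb
    have h1 : a.1 = b.1 := DFunLike.coe_injective hab
    refine Prod.ext h1 ?_
    have : a.1 + a.2 = a.1 + b.2 := by rw [ha', h1, hb']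
    exact add_left_cancel this
  calc ∑ a ∈ Finset.HasAntidiagonal.antidiagonal m, x ^ a.1.degree
      = ∑ a ∈ Finset.HasAntidiagonal.antidiagonal m, ∏ j, x ^ (a.1 : σ → ℕ) j := by
        refine Finset.sum_congr rfl fun a _ => ?_
        rw [Finsupp.degree_eq_sum, Finset.prod_pow_eq_pow_sum]
    _ = ∑ y ∈ (Finset.HasAntidiagonal.antidiagonal m).image (fun a : (σ →₀ ℕ) × (σ →₀ ℕ) => (a.1 : σ → ℕ)),
          ∏ j, x ^ y j := by
        rw [Finset.sum_image hinj]
    _ ≤ ∑ y ∈ Fintype.piFinset fun j => Finset.range (m j + 1), ∏ j, x ^ y j := by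
        refine Finset.sum_le_sum_of_subset_of_nonneg ?_ fun y _ _ =>
          Finset.prod_nonneg fun j _ => pow_nonneg hx _
        intro y hy
        obtain ⟨a, ha, rfl⟩ := Finset.mem_image.1 hy
        have ha' : a.1 + a.2 = m := by simpa using ha
        rw [Fintype.mem_piFinset]
        intro j
        have : a.1 j + a.2 j = m j := by rw [← ha']; rfl
        rw [Finset.mem_range]
        omega

theorem TB1_anti_one (m : σ →₀ ℕ) :
    ∑ _a ∈ Finset.HasAntidiagonal.antidiagonal m, (1 : ℝ) ≤ 2 ^ m.degree := by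
  have h := TB1_anti (σ := σ) zero_le_one m
  simp only [one_pow] at h
  refine h.trans ?_
  rw [Finsupp.degree_eq_sum, ← Finset.prod_pow_eq_pow_sum]
  refine Finset.prod_le_prod (fun j _ => by positivity) fun j _ => ?_
  have : m j + 1 ≤ 2 ^ m j := Nat.lt_two_pow_self
  simp only [Finset.sum_const, Finset.card_range, nsmul_eq_mul, mul_one]
  exact_mod_cast this

theorem TB1_geom {x : ℝ} (hx : 0 ≤ x) (hx1 : x < 1) (n : ℕ) :
    ∑ i ∈ Finset.range n, x ^ i ≤ (1 - x)⁻¹ := by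
  rw [← tsum_geometric_of_lt_one hx hx1]
  exact (summable_geometric_of_lt_one hx hx1).sum_le_tsum _ fun i _ => pow_nonneg hx i

theorem TB1_anti_geom {x : ℝ} (hx : 0 ≤ x) (hx1 : x < 1) (m : σ →₀ ℕ) :
    ∑ a ∈ Finset.HasAntidiagonal.antidiagonal m, x ^ a.1.degree ≤ (1 - x)⁻¹ ^ Fintype.card σ := by
  refine (TB1_anti hx m).trans ?_
  rw [← Finset.card_univ, ← Finset.prod_const]
  exact Finset.prod_le_prod (fun j _ => Finset.sum_nonneg fun i _ => pow_nonneg hx i)
    fun j _ => TB1_geom hx hx1 _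

theorem TB1_anti_half (m : σ →₀ ℕ) :
    ∑ a ∈ Finset.HasAntidiagonal.antidiagonal m, (2⁻¹ : ℝ) ^ a.1.degree ≤ 2 ^ Fintype.card σ := by
  have h := TB1_anti_geom (σ := σ) (x := 2⁻¹) (by norm_num) (by norm_num) m
  norm_num at h ⊢
  exact h

theorem TB1_anti_small (m : σ →₀ ℕ) :
    ∑ a ∈ (Finset.HasAntidiagonal.antidiagonal m).erase (0, m),
      ((2⁻¹ : ℝ) ^ (Fintype.card σ + 1)) ^ a.1.degree ≤ 1 := by
  set n := Fintype.card σ with hn
  set x : ℝ := (2⁻¹ : ℝ) ^ (n + 1) with hx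
  have hx0 : 0 ≤ x := by positivity
  have hnx : (n : ℝ) * x ≤ 2⁻¹ := by
    have h1 : (n : ℝ) ≤ 2 ^ n := by exact_mod_cast Nat.lt_two_pow_self.le
    have h2 : (2 : ℝ) ^ n * x = 2⁻¹ := by
      rw [hx, pow_succ, ← mul_assoc, ← mul_pow]
      norm_num
    calc (n : ℝ) * x ≤ 2 ^ n * x := mul_le_mul_of_nonneg_right h1 hx0
      _ = 2⁻¹ := h2
  have hx1 : x < 1 := pow_lt_one₀ (by norm_num) (by norm_num) (Nat.succ_ne_zero n)
  have h := TB1_anti_geom (σ := σ) hx0 hx1 m
  have hmem : ((0 : σ →₀ ℕ), m) ∈ Finset.HasAntidiagonal.antidiagonal m := by simp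
  rw [← Finset.add_sum_erase _ _ hmem] at h
  simp only [map_zero, pow_zero] at h
  have hb : 1 + (n : ℝ) * (-x) ≤ (1 + -x) ^ n := one_add_mul_le_pow (by linarith) n
  have hb2 : (2⁻¹ : ℝ) ≤ (1 - x) ^ n := by
    rw [sub_eq_add_neg]
    linarith
  have hb3 : (1 - x)⁻¹ ^ n ≤ 2 := by
    rw [inv_pow]
    calc ((1 - x) ^ n)⁻¹ ≤ (2⁻¹ : ℝ)⁻¹ := inv_anti₀ (by norm_num) hb2
      _ = 2 := by norm_num
  rw [← hn] at h
  linarith

omit [Fintype σ] in
theorem TB1_deg_add {m : σ →₀ ℕ} {a : (σ →₀ ℕ) × (σ →₀ ℕ)} (ha : a ∈ Finset.HasAntidiagonal.antidiagonal m) :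
    a.1.degree + a.2.degree = m.degree := by
  have ha' : a.1 + a.2 = m := by simpa using ha
  rw [← ha', map_add]

end Pool.Agent.E6b

end

section
open scoped NNReal TensorProduct IntermediateField BigOperators Classical Topology
open Filter

namespace Pool.Agent.E6b
open MvPowerSeries
variable {σ : Type} [Fintype σ] {S : Finset Qb} {k : ℕ} {f g : MvPowerSeries σ Qb}

theorem SB.mono (h : SB S k f) (h1 : 1 ∈ S) {S' : Finset Qb} (hS : S ⊆ S') {k' : ℕ}
    (hk : k ≤ k') : SB S' k' f := by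
  intro p v hv m
  have hN : nrm v S ≤ nrm v S' := nrm_le v (nrm_nonneg v S') fun a ha => le_nrm v (hS ha)
  have hB : th p 2 * nrm v S ≤ th p 2 * nrm v S' :=
    mul_le_mul_of_nonneg_left hN (zero_le_one.trans (TB1_th_one_le p))
  have h0 := TB1_one_le p v h1
  calc v (coeff m f) ≤ (th p 2 * nrm v S) ^ (k * (m.degree + 1)) := h p v hv m
    _ ≤ (th p 2 * nrm v S') ^ (k * (m.degree + 1)) :=
        pow_le_pow_left₀ (zero_le_one.trans h0) hB _
    _ ≤ (th p 2 * nrm v S') ^ (k' * (m.degree + 1)) :=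
        pow_le_pow_right₀ (h0.trans hB) (Nat.mul_le_mul_right _ hk)

theorem TB1_add_le {p : ℕ} {v : AbsoluteValue Qb ℝ} (hv : IsPl p v) {a b : Qb} {M : ℝ}
    (ha : v a ≤ M) (hb : v b ≤ M) : v (a + b) ≤ th p 2 * M := by
  by_cases hp : p = 0
  · subst hp
    simp only [th, if_true]
    have := v.add_le a b
    linarith
  · simp only [th, if_neg hp, one_mul]
    exact (hv.nonarch hp a b).trans (max_le ha hb)

theorem SB.add (h1 : 1 ∈ S) (hf : SB S k f) (hg : SB S k g) : SB S (k + 1) (f + g) := by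
  intro p v hv m
  have h0 := TB1_one_le p v h1
  rw [map_add]
  calc v (coeff m f + coeff m g) ≤ th p 2 * (th p 2 * nrm v S) ^ (k * (m.degree + 1)) :=
        TB1_add_le hv (hf p v hv m) (hg p v hv m)
    _ ≤ (th p 2 * nrm v S) * (th p 2 * nrm v S) ^ (k * (m.degree + 1)) :=
        mul_le_mul_of_nonneg_right (TB1_th_le p v h1) (pow_nonneg (zero_le_one.trans h0) _)
    _ = (th p 2 * nrm v S) ^ (k * (m.degree + 1) + 1) := by ring
    _ ≤ (th p 2 * nrm v S) ^ ((k + 1) * (m.degree + 1)) :=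
        pow_le_pow_right₀ h0 (by nlinarith)

theorem TB1_mul_le {p : ℕ} {v : AbsoluteValue Qb ℝ} (hv : IsPl p v) {A B C : ℝ} (hA : 0 ≤ A)
    (hB : 0 ≤ B) (hC : 0 ≤ C) (hf : ∀ m : σ →₀ ℕ, v (coeff m f) ≤ A * C ^ m.degree)
    (hg : ∀ m : σ →₀ ℕ, v (coeff m g) ≤ B * C ^ m.degree) (m : σ →₀ ℕ) :
    v (coeff m (f * g)) ≤ A * B * (th p 2 * C) ^ m.degree := by
  rw [coeff_mul]
  have h := TB1_sum hv (Finset.HasAntidiagonal.antidiagonal m)
    (fun a => coeff a.1 f * coeff a.2 g) (fun _ => 1) (M := A * B * C ^ m.degree)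
    (c := 2 ^ m.degree) (by positivity) ?_ (TB1_anti_one m)
  · refine h.trans (le_of_eq ?_)
    rw [TB1_th_pow, mul_pow]
    ring
  · intro a ha
    rw [TB1_th_one, mul_one, map_mul, ← TB1_deg_add ha, pow_add]
    calc v (coeff a.1 f) * v (coeff a.2 g) ≤ (A * C ^ a.1.degree) * (B * C ^ a.2.degree) :=
          mul_le_mul (hf _) (hg _) (v.nonneg _) (by positivity)
      _ = A * B * (C ^ a.1.degree * C ^ a.2.degree) := by ring

theorem SB.mul (h1 : 1 ∈ S) (hf : SB S k f) (hg : SB S k g) :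
    SB S (2 * k + Fintype.card σ + 1) (f * g) := by
  intro p v hv m
  have h0 := TB1_one_le p v h1
  have ht := TB1_th_le p v h1
  have ht0 : 0 ≤ th p 2 := zero_le_one.trans (TB1_th_one_le p)
  have hf' : ∀ m : σ →₀ ℕ, v (coeff m f) ≤
      (th p 2 * nrm v S) ^ k * ((th p 2 * nrm v S) ^ k) ^ m.degree := fun m => by
    refine (hf p v hv m).trans (le_of_eq ?_)
    rw [← pow_mul, ← pow_add]
    congr 1
    ring
  have hg' : ∀ m : σ →₀ ℕ, v (coeff m g) ≤
      (th p 2 * nrm v S) ^ k * ((th p 2 * nrm v S) ^ k) ^ m.degree := fun m => by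
    refine (hg p v hv m).trans (le_of_eq ?_)
    rw [← pow_mul, ← pow_add]
    congr 1
    ring
  generalize th p 2 * nrm v S = B at *
  have hB : 0 ≤ B := zero_le_one.trans h0
  refine (TB1_mul_le hv (by positivity) (by positivity) (by positivity) hf' hg' m).trans ?_
  calc B ^ k * B ^ k * (th p 2 * B ^ k) ^ m.degree ≤ B ^ k * B ^ k * (B * B ^ k) ^ m.degree := by
        gcongr
    _ = B ^ (k + k + (1 + k) * m.degree) := by
        rw [pow_add, pow_add, pow_mul, pow_add, pow_one]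
    _ ≤ B ^ ((2 * k + Fintype.card σ + 1) * (m.degree + 1)) :=
        pow_le_pow_right₀ h0 (by nlinarith [Nat.zero_le (Fintype.card σ * m.degree)])

omit [Fintype σ] in
theorem TB1_inv_rec (h : f * g = 1) {m : σ →₀ ℕ} (hm : m ≠ 0) :
    coeff m g = ∑ a ∈ (Finset.HasAntidiagonal.antidiagonal m).erase (0, m),
      -(constantCoeff g * (coeff a.1 f * coeff a.2 g)) := by
  have h0 : constantCoeff f * constantCoeff g = 1 := by
    rw [← map_mul, h, map_one]
  have h2 : coeff m (f * g) = 0 := by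
    rw [h, coeff_one, if_neg hm]
  have hmem : ((0 : σ →₀ ℕ), m) ∈ Finset.HasAntidiagonal.antidiagonal m := by simp
  rw [coeff_mul, ← Finset.add_sum_erase _ _ hmem] at h2
  simp only [coeff_zero_eq_constantCoeff] at h2
  rw [Finset.sum_neg_distrib, ← Finset.mul_sum]
  linear_combination constantCoeff g * h2 - coeff m g * h0

theorem exists_SB_inv (σ : Type) [Fintype σ] (k : ℕ) : ∃ k' : ℕ, ∀ (S : Finset Qb)
    (f g : MvPowerSeries σ Qb), 1 ∈ S → SB S k f → f * g = 1 → constantCoeff g ∈ S →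
    SB S k' g := by
  refine ⟨2 * k + 1 + (Fintype.card σ + 1), fun S f g h1 hf hfg hg0 p v hv => ?_⟩
  have h0 := TB1_one_le p v h1
  have ht := TB1_th_le p v h1
  have ht1 := TB1_th_one_le p
  have hg0' : v (constantCoeff g) ≤ th p 2 * nrm v S := (le_nrm v hg0).trans (TB1_nrm_le p v S)
  have hf' := hf p v hv
  set c := Fintype.card σ + 1 with hc
  generalize th p 2 * nrm v S = B at *
  have hB : 0 ≤ B := zero_le_one.trans h0
  have key : ∀ (d : ℕ) (m : σ →₀ ℕ), m.degree = d →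
      v (coeff m g) ≤ B * (B ^ (2 * k + 1 + c)) ^ d := by
    intro d
    induction d using Nat.strong_induction_on with
    | _ d ih =>
    intro m hmd
    by_cases hm : m = 0
    · subst hm
      rw [map_zero] at hmd
      subst hmd
      simpa using hg0'
    rw [TB1_inv_rec hfg hm]
    have h := TB1_sum hv ((Finset.HasAntidiagonal.antidiagonal m).erase (0, m))
      (fun a => -(constantCoeff g * (coeff a.1 f * coeff a.2 g)))
      (fun a => ((2⁻¹ : ℝ) ^ c) ^ a.1.degree) (M := B * (B ^ (2 * k + 1 + c)) ^ d)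
      (c := 1) (by positivity) ?_ (TB1_anti_small m)
    · rwa [TB1_th_one, mul_one] at h
    intro a ha
    obtain ⟨ha1, ha2⟩ := Finset.mem_erase.1 ha
    have hdeg := TB1_deg_add ha2
    have ha0 : a.1 ≠ 0 := by
      intro h
      apply ha1
      have ha' : a.1 + a.2 = m := by simpa using ha2
      rw [h, zero_add] at ha'
      exact Prod.ext h ha'
    have hd1 : 1 ≤ a.1.degree := by
      rw [Nat.one_le_iff_ne_zero]
      intro h
      exact ha0 ((Finsupp.degree_eq_zero_iff _).1 h)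
    have hi := ih a.2.degree (by omega) a.2 rfl
    have hth : th p (((2⁻¹ : ℝ) ^ c) ^ a.1.degree) * th p 2 ^ (c * a.1.degree) = 1 := by
      rw [← TB1_th_pow, ← TB1_th_mul, ← pow_mul, ← mul_pow]
      norm_num [TB1_th_one]
    have hth0 : 0 ≤ th p (((2⁻¹ : ℝ) ^ c) ^ a.1.degree) := TB1_th_nonneg p (by positivity)
    have e1 : B * B ^ (k * (a.1.degree + 1)) * th p 2 ^ (c * a.1.degree) ≤
        (B ^ (2 * k + 1 + c)) ^ a.1.degree := by
      calc B * B ^ (k * (a.1.degree + 1)) * th p 2 ^ (c * a.1.degree)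
          ≤ B * B ^ (k * (a.1.degree + 1)) * B ^ (c * a.1.degree) := by gcongr
        _ = B ^ (1 + k * (a.1.degree + 1) + c * a.1.degree) := by
            rw [pow_add, pow_add, pow_one]
        _ ≤ B ^ ((2 * k + 1 + c) * a.1.degree) := pow_le_pow_right₀ h0 (by nlinarith)
        _ = (B ^ (2 * k + 1 + c)) ^ a.1.degree := pow_mul _ _ _
    rw [AbsoluteValue.map_neg, map_mul, map_mul, ← hmd, ← hdeg, pow_add]
    calc v (constantCoeff g) * (v (coeff a.1 f) * v (coeff a.2 g))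
        ≤ B * (B ^ (k * (a.1.degree + 1)) * (B * (B ^ (2 * k + 1 + c)) ^ a.2.degree)) := by
          refine mul_le_mul hg0' (mul_le_mul (hf' _) hi (v.nonneg _) (by positivity))
            (mul_nonneg (v.nonneg _) (v.nonneg _)) hB
      _ = B * (B ^ (2 * k + 1 + c)) ^ a.2.degree * th p (((2⁻¹ : ℝ) ^ c) ^ a.1.degree) *
            (B * B ^ (k * (a.1.degree + 1)) * th p 2 ^ (c * a.1.degree)) := by
          linear_combination
            (-(B * (B ^ (k * (a.1.degree + 1)) * (B * (B ^ (2 * k + 1 + c)) ^ a.2.degree)))) * hth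
      _ ≤ B * (B ^ (2 * k + 1 + c)) ^ a.2.degree * th p (((2⁻¹ : ℝ) ^ c) ^ a.1.degree) *
            (B ^ (2 * k + 1 + c)) ^ a.1.degree :=
          mul_le_mul_of_nonneg_left e1 (by positivity)
      _ = B * ((B ^ (2 * k + 1 + c)) ^ a.1.degree * (B ^ (2 * k + 1 + c)) ^ a.2.degree) *
            th p (((2⁻¹ : ℝ) ^ c) ^ a.1.degree) := by ring
  intro m
  refine (key _ m rfl).trans ?_
  rw [← pow_mul, ← pow_succ']
  exact pow_le_pow_right₀ h0 (by nlinarith)

theorem TB1_monom (σ τ : Type) [Fintype σ] [Fintype τ] (k Δ : ℕ) : ∃ k' : ℕ,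
    ∀ (S : Finset Qb) (x : τ → MvPowerSeries σ Qb), 1 ∈ S → (∀ i, SB S k (x i)) →
    ∀ d : τ →₀ ℕ, d.degree ≤ Δ → SB S k' (d.prod fun i n => x i ^ n) := by
  induction Δ with
  | zero =>
    refine ⟨1, fun S x h1 _ d hd => ?_⟩
    have : d = 0 := (Finsupp.degree_eq_zero_iff _).1 (Nat.le_zero.1 hd)
    subst this
    simpa using SB.C (σ := σ) h1 h1
  | succ Δ ih =>
    obtain ⟨k', hk'⟩ := ih
    refine ⟨2 * (k' + k) + Fintype.card σ + 1, fun S x h1 hx d hd => ?_⟩
    by_cases hd0 : d.degree ≤ Δ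
    · exact (hk' S x h1 hx d hd0).mono h1 subset_rfl (by omega)
    have hne : d ≠ 0 := by
      rintro rfl
      simp at hd0
    obtain ⟨i, hi⟩ := Finsupp.ne_iff.1 hne
    have hi' : d i ≠ 0 := by simpa using hi
    have hle : Finsupp.single i 1 ≤ d := by
      rw [Finsupp.single_le_iff]
      omega
    obtain ⟨d', rfl⟩ := exists_add_of_le hle
    rw [map_add, Finsupp.degree_single] at hd
    rw [Finsupp.prod_add_index' (by simp) (by simp [pow_add]), Finsupp.prod_single_index (by simp),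
      pow_one]
    exact SB.mul h1 ((hx i).mono h1 subset_rfl (by omega))
      ((hk' S x h1 hx d' (by omega)).mono h1 subset_rfl (by omega))

theorem exists_SB_aeval (σ τ : Type) [Fintype σ] [Fintype τ] (k Δ : ℕ) : ∃ k' : ℕ,
    ∀ (S : Finset Qb) (x : τ → MvPowerSeries σ Qb) (P : MvPolynomial τ Qb), 1 ∈ S →
    (∀ i, SB S k (x i)) → P.totalDegree ≤ Δ → P.coeffs ⊆ S →
    SB S k' (MvPolynomial.aeval x P) := by
  obtain ⟨k', hk'⟩ := TB1_monom σ τ k Δ
  set K := (Finsupp.finite_of_degree_le (σ := τ) Δ).toFinset.card with hK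
  refine ⟨K + 1 + k', fun S x P h1 hx hP hS p v hv m => ?_⟩
  have hdeg : ∀ d ∈ P.support, d.degree ≤ Δ := fun d hd =>
    (MvPolynomial.le_totalDegree hd).trans hP
  have hcard : P.support.card ≤ K := by
    refine Finset.card_le_card fun d hd => ?_
    rw [Set.Finite.mem_toFinset]
    exact hdeg d hd
  have h0 := TB1_one_le p v h1
  have ht := TB1_th_le p v h1
  have ht1 := TB1_th_one_le p
  have hterm : ∀ d ∈ P.support, v (coeff m (algebraMap Qb (MvPowerSeries σ Qb) (P.coeff d) *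
      d.prod fun i n => x i ^ n)) ≤
      (th p 2 * nrm v S) * (th p 2 * nrm v S) ^ (k' * (m.degree + 1)) * th p 1 := by
    intro d hd
    have hc : P.coeff d ∈ S := hS (MvPolynomial.coeff_mem_coeffs d (MvPolynomial.mem_support_iff.1 hd))
    rw [TB1_th_one, mul_one, ← MvPowerSeries.c_eq_algebraMap, coeff_C_mul, map_mul]
    exact mul_le_mul ((le_nrm v hc).trans (TB1_nrm_le p v S)) (hk' S x h1 hx d (hdeg d hd) p v hv m)
      (v.nonneg _) (zero_le_one.trans h0)
  have hsum : ∑ _d ∈ P.support, (1 : ℝ) ≤ 2 ^ K := by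
    simp only [Finset.sum_const, nsmul_eq_mul, mul_one]
    exact_mod_cast hcard.trans Nat.lt_two_pow_self.le
  generalize th p 2 * nrm v S = B at *
  have hB : 0 ≤ B := zero_le_one.trans h0
  rw [MvPolynomial.aeval_def, MvPolynomial.eval₂_eq, map_sum]
  refine (TB1_sum hv P.support _ (fun _ => 1) (by positivity) hterm hsum).trans ?_
  rw [TB1_th_pow]
  calc B * B ^ (k' * (m.degree + 1)) * th p 2 ^ K ≤ B * B ^ (k' * (m.degree + 1)) * B ^ K := by
        gcongr
    _ = B ^ (1 + k' * (m.degree + 1) + K) := by rw [pow_add, pow_add, pow_one]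
    _ ≤ B ^ ((K + 1 + k') * (m.degree + 1)) :=
        pow_le_pow_right₀ h0 (by nlinarith [Nat.zero_le (K * m.degree)])

/-- a long product of series whose constant terms are `≤ 1` at the given place -/
theorem coeff_prod_le (h1 : 1 ∈ S) {ι : Type} (s : Finset ι) (W : ι → MvPowerSeries σ Qb)
    (hW : ∀ i ∈ s, SB S k (W i)) {p : ℕ} {v : AbsoluteValue Qb ℝ} (hv : IsPl p v)
    (h0 : ∀ i ∈ s, v (constantCoeff (W i)) ≤ 1) (m : σ →₀ ℕ) :
    v (coeff m (∏ i ∈ s, W i)) ≤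
      th p 2 ^ (Fintype.card σ * s.card + m.degree) *
        (th p 2 * nrm v S) ^ (2 * k * m.degree) := by
  have hB1 := TB1_one_le p v h1
  have ht1 := TB1_th_one_le p
  have hW' : ∀ i ∈ s, ∀ a : σ →₀ ℕ, v (coeff a (W i)) ≤ (th p 2 * nrm v S) ^ (2 * k * a.degree) := by
    intro i hi a
    by_cases ha : a = 0
    · subst ha
      simpa using h0 i hi
    · have hd1 : 1 ≤ a.degree := by
        rw [Nat.one_le_iff_ne_zero]
        intro h
        exact ha ((Finsupp.degree_eq_zero_iff _).1 h)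
      exact (hW i hi p v hv a).trans (pow_le_pow_right₀ hB1 (by nlinarith))
  clear hW h0
  generalize th p 2 * nrm v S = B at *
  have hB : 0 ≤ B := zero_le_one.trans hB1
  have ht0 : 0 ≤ th p 2 := zero_le_one.trans ht1
  induction s using Finset.induction_on generalizing m with
  | empty =>
    rw [Finset.prod_empty, coeff_one]
    split_ifs
    · rw [map_one]
      exact one_le_mul_of_one_le_of_one_le (one_le_pow₀ ht1) (one_le_pow₀ hB1)
    · rw [map_zero]
      positivity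
  | insert i s hi ih =>
    have ih' := fun m' => ih m' fun j hj => hW' j (Finset.mem_insert_of_mem hj)
    rw [Finset.prod_insert hi, coeff_mul, Finset.card_insert_of_notMem hi]
    have h := TB1_sum hv (Finset.HasAntidiagonal.antidiagonal m)
      (fun a => coeff a.1 (W i) * coeff a.2 (∏ j ∈ s, W j)) (fun a => (2⁻¹ : ℝ) ^ a.1.degree)
      (M := th p 2 ^ (Fintype.card σ * s.card + m.degree) * B ^ (2 * k * m.degree))
      (c := 2 ^ Fintype.card σ) (by positivity) ?_ (TB1_anti_half m)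
    · refine h.trans (le_of_eq ?_)
      rw [TB1_th_pow]
      ring
    intro a ha
    have hth : th p ((2⁻¹ : ℝ) ^ a.1.degree) * th p 2 ^ a.1.degree = 1 := by
      rw [← TB1_th_pow, ← TB1_th_mul, ← mul_pow]
      norm_num [TB1_th_one]
    rw [map_mul, ← TB1_deg_add ha]
    calc v (coeff a.1 (W i)) * v (coeff a.2 (∏ j ∈ s, W j))
        ≤ B ^ (2 * k * a.1.degree) *
            (th p 2 ^ (Fintype.card σ * s.card + a.2.degree) * B ^ (2 * k * a.2.degree)) :=
          mul_le_mul (hW' i (Finset.mem_insert_self i s) _) (ih' _) (v.nonneg _) (by positivity)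
      _ = th p 2 ^ (Fintype.card σ * s.card + (a.1.degree + a.2.degree)) *
            B ^ (2 * k * (a.1.degree + a.2.degree)) * th p ((2⁻¹ : ℝ) ^ a.1.degree) := by
          linear_combination (-(B ^ (2 * k * a.1.degree) *
            (th p 2 ^ (Fintype.card σ * s.card + a.2.degree) * B ^ (2 * k * a.2.degree)))) * hth

end Pool.Agent.E6b

end

section
open scoped NNReal TensorProduct IntermediateField BigOperators Classical Topology
open Filter

namespace Pool.Agent.E6b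
open MvPowerSeries

section Iter
variable {σ : Type} {K : Type} [CommRing K]

/-- the coefficients of degree less than `n` vanish -/
def TB2_Z (n : ℕ) (f : MvPowerSeries σ K) : Prop := ∀ m : σ →₀ ℕ, m.degree < n → coeff m f = 0

theorem TB2_Z.mul {a b : ℕ} {f g : MvPowerSeries σ K} (hf : TB2_Z a f) (hg : TB2_Z b g) :
    TB2_Z (a + b) (f * g) := fun m hm => by
  rw [coeff_mul]
  refine Finset.sum_eq_zero fun x hx => ?_
  rw [← Finset.HasAntidiagonal.mem_antidiagonal.1 hx, map_add] at hm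
  by_cases h : x.1.degree < a
  · rw [hf _ h, zero_mul]
  · rw [hg _ (by omega), mul_zero]

theorem TB2_Z.add {a : ℕ} {f g : MvPowerSeries σ K} (hf : TB2_Z a f) (hg : TB2_Z a g) :
    TB2_Z a (f + g) := fun m hm => by rw [map_add, hf m hm, hg m hm, add_zero]

theorem TB2_Z_one {f : MvPowerSeries σ K} : TB2_Z 1 f ↔ constantCoeff f = 0 := by
  refine ⟨fun h => h 0 (by simp), fun h m hm => ?_⟩
  obtain rfl : m = 0 := (Finsupp.degree_eq_zero_iff m).1 (by omega)
  exact h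

/-- the map that is iterated -/
noncomputable def TB2_Phi (B₀ : MvPowerSeries σ K) (B : ℕ → MvPowerSeries σ K) (e : ℕ)
    (Y : MvPowerSeries σ K) : MvPowerSeries σ K :=
  B₀ + ∑ j ∈ Finset.range e, B j * Y ^ (j + 1 + 1)
variable {B₀ : MvPowerSeries σ K} {B : ℕ → MvPowerSeries σ K} {e : ℕ}

theorem TB2_Phi_zero (h0 : constantCoeff B₀ = 0) {Y : MvPowerSeries σ K}
    (hY : constantCoeff Y = 0) : constantCoeff (TB2_Phi B₀ B e Y) = 0 := by
  simp [TB2_Phi, h0, hY]

theorem TB2_Phi_sub {Y Z : MvPowerSeries σ K} (hY : constantCoeff Y = 0)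
    (hZ : constantCoeff Z = 0) {n : ℕ} (h : TB2_Z n (Y - Z)) :
    TB2_Z (n + 1) (TB2_Phi B₀ B e Y - TB2_Phi B₀ B e Z) := by
  choose R hR using fun j : ℕ => sub_dvd_pow_sub_pow Y Z (j + 1)
  have : TB2_Phi B₀ B e Y - TB2_Phi B₀ B e Z =
      (Y - Z) * ∑ j ∈ Finset.range e, B j * (Y * R j + Z ^ (j + 1)) := by
    rw [TB2_Phi, TB2_Phi, add_sub_add_left_eq_sub, ← Finset.sum_sub_distrib, Finset.mul_sum]
    refine Finset.sum_congr rfl fun j _ => ?_
    linear_combination B j * Y * hR j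
  rw [this]
  exact h.mul (TB2_Z_one.2 (by simp [hY, hZ]))

theorem TB2_fix (h0 : constantCoeff B₀ = 0) (B : ℕ → MvPowerSeries σ K) (e : ℕ) :
    ∃ Y : MvPowerSeries σ K, constantCoeff Y = 0 ∧ TB2_Phi B₀ B e Y = Y ∧
      ∀ m, ∃ n, coeff m Y = coeff m ((TB2_Phi B₀ B e)^[n] 0) := by
  set Φ := TB2_Phi B₀ B e with hΦ
  have c0 : ∀ n, constantCoeff (Φ^[n] 0) = 0 := fun n => by
    induction n with
    | zero => simp
    | succ n ih => rw [Function.iterate_succ_apply']; exact TB2_Phi_zero h0 ih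
  have c1 : ∀ n d, TB2_Z n (Φ^[n + d] 0 - Φ^[n] 0) := fun n d => by
    induction n with
    | zero => exact fun m hm => absurd hm (Nat.not_lt_zero _)
    | succ n ih =>
      rw [Nat.add_right_comm, Function.iterate_succ_apply', Function.iterate_succ_apply']
      exact TB2_Phi_sub (c0 _) (c0 _) ih
  let Y : MvPowerSeries σ K := fun m => coeff m (Φ^[m.degree + 1] 0)
  have hY : ∀ m, coeff m Y = coeff m (Φ^[m.degree + 1] 0) := fun _ => rfl
  have c2 : ∀ n, TB2_Z n (Y - Φ^[n] 0) := fun n m hm => by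
    obtain ⟨d, rfl⟩ := Nat.exists_eq_add_of_le (Nat.succ_le_of_lt hm)
    have := c1 (m.degree + 1) d m (Nat.lt_succ_self _)
    rw [map_sub, sub_eq_zero] at this ⊢
    exact (hY m).trans this.symm
  have c3 : constantCoeff Y = 0 := (hY 0).trans (c0 (Finsupp.degree (0 : σ →₀ ℕ) + 1))
  refine ⟨Y, c3, MvPowerSeries.ext fun m => ?_, fun m => ⟨_, hY m⟩⟩
  have := TB2_Phi_sub (B₀ := B₀) (B := B) (e := e) c3 (c0 m.degree) (c2 _) m (Nat.lt_succ_self _)
  rw [map_sub, sub_eq_zero] at this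
  rw [this, hY, Function.iterate_succ_apply']

end Iter

section Norm
variable {σ : Type} [Fintype σ]

theorem TB2_geom (T : Finset (σ →₀ ℕ)) :
    ∑ m ∈ T, (2⁻¹ : ℝ) ^ m.degree ≤ 2 ^ Fintype.card σ := by
  set n := T.sup fun m => m.degree
  have h1 : ∑ m ∈ T, (2⁻¹ : ℝ) ^ m.degree =
      ∑ x ∈ T.image (fun m : σ →₀ ℕ => (m : σ → ℕ)), ∏ i, (2⁻¹ : ℝ) ^ x i := by
    rw [Finset.sum_image fun _ _ _ _ h => DFunLike.coe_injective h]
    simp only [Finsupp.degree_eq_sum, Finset.prod_pow_eq_pow_sum]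
  have h2 : T.image (fun m : σ →₀ ℕ => (m : σ → ℕ)) ⊆
      Fintype.piFinset fun _ => Finset.range (n + 1) := fun x hx => by
    obtain ⟨m, hm, rfl⟩ := Finset.mem_image.1 hx
    exact Fintype.mem_piFinset.2 fun i => Finset.mem_range.2 (Nat.lt_succ_of_le
      ((Finsupp.le_degree i m).trans (Finset.le_sup (f := fun m : σ →₀ ℕ => m.degree) hm)))
  rw [h1]
  refine (Finset.sum_le_sum_of_subset_of_nonneg h2 fun _ _ _ => by positivity).trans ?_
  rw [← Finset.prod_univ_sum (fun _ : σ => Finset.range (n + 1)) fun _ j => (2⁻¹ : ℝ) ^ j,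
    Finset.prod_const, Finset.card_univ]
  refine pow_le_pow_left₀ (by positivity) ?_ _
  simpa using sum_geometric_two_le (n + 1)

/-- the properties of a weighted norm -/
structure TB2_Nm (v : AbsoluteValue Qb ℝ) (θ ρ : ℝ) (Bd : MvPowerSeries σ Qb → ℝ → Prop) :
    Prop where
  mono : ∀ f A A', Bd f A → A ≤ A' → Bd f A'
  add : ∀ f g A, Bd f A → Bd g A → Bd (f + g) (θ * A)
  mul : ∀ f g A A', Bd f A → Bd g A' → Bd (f * g) (A * A')
  out : ∀ f A, Bd f A → ∀ m : σ →₀ ℕ, v (coeff m f) * ρ ^ m.degree ≤ A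
  int : ∀ f c, 0 ≤ c → (∀ m : σ →₀ ℕ, v (coeff m f) * ρ ^ m.degree ≤ c * θ⁻¹ ^ m.degree) →
    Bd f (c * θ ^ Fintype.card σ)

theorem TB2_arch (v : AbsoluteValue Qb ℝ) {ρ : ℝ} (hρ : 0 < ρ) : TB2_Nm (σ := σ) v 2 ρ
    fun f A => ∀ T : Finset (σ →₀ ℕ), ∑ m ∈ T, v (coeff m f) * ρ ^ m.degree ≤ A where
  mono := fun f A A' h e T => (h T).trans e
  add := fun f g A hf hg T => by
    rw [two_mul]
    refine le_trans ?_ (add_le_add (hf T) (hg T))
    rw [← Finset.sum_add_distrib]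
    refine Finset.sum_le_sum fun m _ => ?_
    rw [← add_mul, map_add]
    exact mul_le_mul_of_nonneg_right (v.add_le _ _) (by positivity)
  mul := fun f g A A' hf hg T => by
    set U := T.biUnion fun m => Finset.HasAntidiagonal.antidiagonal m with hU
    have h0 : 0 ≤ A := by simpa using hf ∅
    refine le_trans ?_ (mul_le_mul (hf (U.image Prod.fst)) (hg (U.image Prod.snd))
      (Finset.sum_nonneg fun _ _ => by positivity) h0)
    rw [Finset.sum_mul_sum, ← Finset.sum_product']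
    refine le_trans ?_ (Finset.sum_le_sum_of_subset_of_nonneg (s := U)
      (fun x hx => Finset.mem_product.2
        ⟨Finset.mem_image_of_mem _ hx, Finset.mem_image_of_mem _ hx⟩) fun _ _ _ => by positivity)
    rw [hU, Finset.sum_biUnion fun a _ b _ hab => Finset.disjoint_left.2 fun x h1 h2 =>
      hab ((Finset.HasAntidiagonal.mem_antidiagonal.1 h1).symm.trans
        (Finset.HasAntidiagonal.mem_antidiagonal.1 h2))]
    refine Finset.sum_le_sum fun m _ => ?_
    rw [coeff_mul]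
    refine (mul_le_mul_of_nonneg_right (v.sum_le _ _) (by positivity)).trans (le_of_eq ?_)
    rw [Finset.sum_mul]
    refine Finset.sum_congr rfl fun x hx => ?_
    rw [← Finset.HasAntidiagonal.mem_antidiagonal.1 hx, map_add, map_mul]
    ring
  out := fun f A h m => by simpa using h {m}
  int := fun f c hc h T => by
    refine (Finset.sum_le_sum fun m _ => h m).trans ?_
    rw [← Finset.mul_sum]
    exact mul_le_mul_of_nonneg_left (TB2_geom T) hc

theorem TB2_non {p : ℕ} {v : AbsoluteValue Qb ℝ} (hv : IsPl p v) (hp : p ≠ 0) {ρ : ℝ}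
    (hρ : 0 < ρ) : TB2_Nm (σ := σ) v 1 ρ
      fun f A => ∀ m : σ →₀ ℕ, v (coeff m f) * ρ ^ m.degree ≤ A where
  mono := fun f A A' h e m => (h m).trans e
  add := fun f g A hf hg m => by
    rw [one_mul, map_add]
    refine (mul_le_mul_of_nonneg_right (hv.nonarch hp _ _) (by positivity)).trans ?_
    rcases max_choice (v (coeff m f)) (v (coeff m g)) with h | h <;> rw [h]
    exacts [hf m, hg m]
  mul := fun f g A A' hf hg m => by
    have h0 : 0 ≤ A := le_trans (by positivity) (hf 0)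
    have h1 : 0 ≤ A' := le_trans (by positivity) (hg 0)
    rw [coeff_mul, ← le_div_iff₀ (by positivity)]
    refine (hv.sum_le _ _ (M := A * A' / ρ ^ m.degree) (by positivity) fun x hx => ?_).trans
      (by rw [th, if_neg hp, one_mul])
    rw [le_div_iff₀ (by positivity), ← Finset.HasAntidiagonal.mem_antidiagonal.1 hx, map_add,
      map_mul, pow_add, mul_mul_mul_comm]
    exact mul_le_mul (hf _) (hg _) (by positivity) h0
  out := fun f A h => h
  int := fun f c _ h m => by simpa using h m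

theorem TB2_bound {v : AbsoluteValue Qb ℝ} {θ c : ℝ} (hθ : 1 ≤ θ) (hc : 1 ≤ c) (e : ℕ)
    {Bd : MvPowerSeries σ Qb → ℝ → Prop}
    (H : TB2_Nm v θ ((c * θ ^ (Fintype.card σ + e)) ^ 2 * c * θ)⁻¹ Bd)
    {B₀ : MvPowerSeries σ Qb} {B : ℕ → MvPowerSeries σ Qb} (h0 : constantCoeff B₀ = 0)
    (h1 : ∀ m : σ →₀ ℕ, v (coeff m B₀) ≤ c ^ (m.degree + 1))
    (h2 : ∀ j (m : σ →₀ ℕ), v (coeff m (B j)) ≤ c ^ (m.degree + 1)) (n : ℕ) (m : σ →₀ ℕ) :
    v (coeff m ((TB2_Phi B₀ B e)^[n] 0)) ≤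
      ((c * θ ^ (Fintype.card σ + e)) ^ 2 * c * θ) ^ m.degree := by
  set D := c * θ ^ (Fintype.card σ + e) with hD
  have hD1 : 1 ≤ D := one_le_mul_of_one_le_of_one_le hc (one_le_pow₀ hθ)
  have hε : D⁻¹ ≤ 1 := inv_le_one_of_one_le₀ hD1
  have hε2 : D⁻¹ ^ 2 ≤ 1 := pow_le_one₀ (by positivity) hε
  have key : ∀ (f : MvPowerSeries σ Qb) (m : σ →₀ ℕ), v (coeff m f) ≤ c ^ (m.degree + 1) →
      v (coeff m f) * (D ^ 2 * c * θ)⁻¹ ^ m.degree ≤
        c * (D⁻¹ ^ 2) ^ m.degree * θ⁻¹ ^ m.degree := fun f m h => by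
    refine (mul_le_mul_of_nonneg_right h (by positivity)).trans (le_of_eq ?_)
    rw [pow_succ', mul_assoc, mul_assoc c (_ ^ _), ← mul_pow, ← mul_pow]
    congr 2
    field_simp
  have b0 : Bd B₀ (c * D⁻¹ ^ 2 * θ ^ Fintype.card σ) := H.int _ _ (by positivity) fun m => by
    by_cases hm : m = 0
    · subst hm
      rw [coeff_zero_eq_constantCoeff_apply, h0, map_zero, zero_mul]
      positivity
    · refine (key _ m (h1 m)).trans (mul_le_mul_of_nonneg_right (mul_le_mul_of_nonneg_left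
        (pow_le_of_le_one (by positivity) hε2 ?_) (by positivity)) (by positivity))
      exact fun h => hm ((Finsupp.degree_eq_zero_iff m).1 h)
  have b1 : ∀ j, Bd (B j) (c * θ ^ Fintype.card σ) := fun j => H.int _ _ (by positivity) fun m =>
    (key _ m (h2 j m)).trans (mul_le_mul_of_nonneg_right
      (mul_le_of_le_one_right (by positivity) (pow_le_one₀ (by positivity) hε2)) (by positivity))
  have step : ∀ Y, Bd Y D⁻¹ → Bd (TB2_Phi B₀ B e Y) D⁻¹ := fun Y hY => by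
    have t1 : ∀ j i, Bd (B j * Y ^ i) (c * θ ^ Fintype.card σ * D⁻¹ ^ i) := fun j i => by
      induction i with
      | zero => simpa using b1 j
      | succ i ih =>
        rw [pow_succ, pow_succ, ← mul_assoc, ← mul_assoc]
        exact H.mul _ _ _ _ ih hY
    have t2 : ∀ i, Bd (TB2_Phi B₀ B i Y) (θ ^ i * (c * D⁻¹ ^ 2 * θ ^ Fintype.card σ)) := fun i => by
      induction i with
      | zero => simpa [TB2_Phi] using b0
      | succ i ih =>
        rw [TB2_Phi, Finset.sum_range_succ, ← add_assoc, pow_succ' θ, mul_assoc θ]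
        refine H.add _ _ _ ih (H.mono _ _ _ (t1 _ _) ?_)
        refine le_trans ?_ (le_mul_of_one_le_left (by positivity) (one_le_pow₀ hθ))
        rw [mul_right_comm]
        exact mul_le_mul_of_nonneg_right (mul_le_mul_of_nonneg_left
          (pow_le_pow_of_le_one (by positivity) hε (by omega)) (by positivity)) (by positivity)
    refine H.mono _ _ _ (t2 e) (le_of_eq ?_)
    rw [hD]
    field_simp
    ring
  have all : Bd ((TB2_Phi B₀ B e)^[n] 0) D⁻¹ := by
    induction n with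
    | zero =>
      refine H.mono _ _ _ (H.int _ 0 le_rfl fun m => by simp) ?_
      rw [zero_mul]
      positivity
    | succ n ih => rw [Function.iterate_succ_apply']; exact step _ ih
  have := (H.out _ _ all m).trans hε
  rwa [inv_pow, mul_inv_le_iff₀ (by positivity), one_mul] at this

omit [Fintype σ] in
theorem TB2_neg {S : Finset Qb} {k : ℕ} {f : MvPowerSeries σ Qb} (h : SB S k f) : SB S k (-f) :=
  fun p v hv m => by rw [map_neg, v.map_neg]; exact h p v hv m

theorem TB2_taylor (σ : Type) [Fintype σ] (k e : ℕ) : ∃ k' : ℕ,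
    ∀ (S : Finset Qb) (M : Polynomial (MvPowerSeries σ Qb)) (x₀ : Qb), 1 ∈ S →
      M.natDegree ≤ e → (∀ i, SB S k (M.coeff i)) → x₀ ∈ S →
      ∀ i, SB S k' ((Polynomial.taylor (C x₀) M).coeff i) := by
  induction e with
  | zero =>
    refine ⟨k, fun S M x₀ _ hM h _ i => ?_⟩
    rw [Polynomial.eq_C_of_natDegree_le_zero hM, Polynomial.taylor_C,
      ← Polynomial.eq_C_of_natDegree_le_zero hM]
    exact h i
  | succ e ih =>
    obtain ⟨k', ih⟩ := ih
    refine ⟨2 * (k + k' + 1) + Fintype.card σ + 1 + 1, fun S M x₀ h1 hM h hx i => ?_⟩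
    have h2 := ih S M.divX x₀ h1 (by
      rw [Polynomial.natDegree_divX_eq_natDegree_tsub_one]; omega)
      (fun i => by rw [Polynomial.coeff_divX]; exact h _) hx
    have h3 : ∀ j, SB S (2 * (k + k' + 1) + Fintype.card σ + 1)
        ((Polynomial.taylor (C x₀) M.divX).coeff j * C x₀) := fun j =>
      SB.mul h1 ((h2 j).mono h1 subset_rfl (by omega)) ((SB.C h1 hx).mono h1 subset_rfl (by omega))
    rw [← M.divX_mul_X_add, map_add, Polynomial.taylor_mul, Polynomial.taylor_X,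
      Polynomial.taylor_C, mul_add _ Polynomial.X]
    rcases i with _ | i
    · simp only [Polynomial.coeff_add, Polynomial.mul_coeff_zero,
        Polynomial.coeff_X_zero, mul_zero, zero_add, Polynomial.coeff_C_zero]
      exact SB.add h1 (h3 0) ((h 0).mono h1 subset_rfl (by omega))
    · simp only [Polynomial.coeff_add, Polynomial.coeff_mul_C, Polynomial.coeff_mul_X,
        Polynomial.coeff_C_succ, add_zero]
      exact SB.add h1 ((h2 i).mono h1 subset_rfl (by omega)) (h3 _)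

end Norm

/-- implicit function theorem with bounds -/
theorem exists_implicit (σ : Type) [Fintype σ] (k e : ℕ) : ∃ k' : ℕ,
    ∀ (S : Finset Qb) (M : Polynomial (MvPowerSeries σ Qb)) (x₀ : Qb), 1 ∈ S →
      M.natDegree ≤ e → (∀ i, SB S k (M.coeff i)) → x₀ ∈ S →
      (M.map (constantCoeff : MvPowerSeries σ Qb →+* Qb)).eval x₀ = 0 →
      (M.map (constantCoeff : MvPowerSeries σ Qb →+* Qb)).derivative.eval x₀ ≠ 0 →
      ((M.map (constantCoeff : MvPowerSeries σ Qb →+* Qb)).derivative.eval x₀)⁻¹ ∈ S →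
      ∃ W : MvPowerSeries σ Qb, constantCoeff W = x₀ ∧ M.eval W = 0 ∧ SB S k' W := by
  obtain ⟨k₁, H₁⟩ := TB2_taylor σ k e
  obtain ⟨k₂, H₂⟩ := exists_SB_inv σ k₁
  set k₃ := 2 * (k₁ + k₂) + Fintype.card σ + 1 with hk₃
  refine ⟨3 * k₃ + 2 * (Fintype.card σ + e) + 1 + 1, fun S M x₀ h1 hM h hx e0 e1 e2 => ?_⟩
  have hT := H₁ S M x₀ h1 hM h hx
  set T := Polynomial.taylor (C x₀) M with hTd
  have hc : ∀ N : Polynomial (MvPowerSeries σ Qb), constantCoeff (N.eval (C x₀)) =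
      (N.map (constantCoeff : MvPowerSeries σ Qb →+* Qb)).eval x₀ := fun N => by
    rw [Polynomial.eval_map, ← Polynomial.eval₂_at_apply, constantCoeff_C]
  have c0 : constantCoeff (T.coeff 0) = 0 := by rw [hTd, Polynomial.taylor_coeff_zero, hc, e0]
  have c1 : constantCoeff (T.coeff 1) =
      (M.map (constantCoeff : MvPowerSeries σ Qb →+* Qb)).derivative.eval x₀ := by
    rw [hTd, Polynomial.taylor_coeff_one, hc, Polynomial.derivative_map]
  have hG := MvPowerSeries.mul_inv_cancel (T.coeff 1) (by rwa [c1])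
  have hGS := H₂ S _ _ h1 (hT 1) hG (by rwa [constantCoeff_inv, c1])
  set G := (T.coeff 1)⁻¹ with hGd
  have hB : ∀ j, SB S k₃ (-(G * T.coeff j)) := fun j => TB2_neg
    (SB.mul h1 (hGS.mono h1 subset_rfl (by omega)) ((hT j).mono h1 subset_rfl (by omega)))
  have b0 : constantCoeff (-(G * T.coeff 0)) = 0 := by rw [map_neg, map_mul, c0, mul_zero, neg_zero]
  obtain ⟨Y, y0, y1, y2⟩ := TB2_fix b0 (fun j => -(G * T.coeff (j + 1 + 1))) e
  refine ⟨C x₀ + Y, by rw [map_add, y0, constantCoeff_C, add_zero], ?_,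
    SB.add h1 ((SB.C h1 hx).mono h1 subset_rfl (by omega)) fun p v hv m => ?_⟩
  · rw [add_comm, ← Polynomial.taylor_eval, ← hTd, Polynomial.eval_eq_sum_range'
      (n := e + 1 + 1) (by rw [hTd, Polynomial.natDegree_taylor]; omega), Finset.sum_range_succ',
      Finset.sum_range_succ']
    simp only [TB2_Phi, neg_mul, Finset.sum_neg_distrib, mul_assoc, ← Finset.mul_sum] at y1
    simp only [zero_add, pow_one, pow_zero, mul_one]
    linear_combination -(T.coeff 1) * y1 -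
      (T.coeff 0 + ∑ j ∈ Finset.range e, T.coeff (j + 1 + 1) * Y ^ (j + 1 + 1)) * hG
  · have hθ : 1 ≤ th p 2 := by unfold th; split_ifs <;> norm_num
    have hn : 1 ≤ nrm v S := by simpa using le_nrm v h1
    set N := th p 2 * nrm v S with hN
    have hθN : th p 2 ≤ N := le_mul_of_one_le_right (by positivity) hn
    have hN1 : 1 ≤ N := hθ.trans hθN
    have hρ : 0 < ((N ^ k₃ * th p 2 ^ (Fintype.card σ + e)) ^ 2 * N ^ k₃ * th p 2)⁻¹ := by
      positivity
    obtain ⟨Bd, H⟩ : ∃ Bd, TB2_Nm (σ := σ) v (th p 2)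
        ((N ^ k₃ * th p 2 ^ (Fintype.card σ + e)) ^ 2 * N ^ k₃ * th p 2)⁻¹ Bd := by
      generalize ((N ^ k₃ * th p 2 ^ (Fintype.card σ + e)) ^ 2 * N ^ k₃ * th p 2)⁻¹ = ρ at hρ
      by_cases hp : p = 0
      · rw [th, if_pos hp]
        exact ⟨_, TB2_arch v hρ⟩
      · rw [th, if_neg hp]
        exact ⟨_, TB2_non hv hp hρ⟩
    obtain ⟨n, hn'⟩ := y2 m
    rw [hn']
    refine (TB2_bound hθ (one_le_pow₀ hN1) e H b0 (fun m => ?_) (fun j m => ?_) n m).trans ?_
    · rw [← pow_mul]; exact hB 0 p v hv m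
    · rw [← pow_mul]; exact hB _ p v hv m
    · refine le_trans ?_ (pow_le_pow_right₀ hN1 (Nat.mul_le_mul_left _ (Nat.le_succ _)))
      rw [pow_mul]
      refine pow_le_pow_left₀ (by positivity) ?_ _
      calc (N ^ k₃ * th p 2 ^ (Fintype.card σ + e)) ^ 2 * N ^ k₃ * th p 2
          ≤ (N ^ k₃ * N ^ (Fintype.card σ + e)) ^ 2 * N ^ k₃ * N := by gcongr
        _ = _ := by ring

end Pool.Agent.E6b

end

section
open scoped NNReal TensorProduct IntermediateField BigOperators Classical Topology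
open Filter

namespace Pool.Agent.E6b
open MvPolynomial
variable {σ : Type} [Fintype σ] {F G : MvPolynomial σ Qb} {p : σ → Qb} {d : σ → ℕ} {ϑ : ℝ}

theorem IdxGe.sum {ι : Type} (s : Finset ι) (c : ι → Qb) (H : ι → MvPolynomial σ Qb)
    (h : ∀ i ∈ s, IdxGe (H i) p d ϑ) : IdxGe (∑ i ∈ s, c i • H i) p d ϑ := by
  intro m hm
  have h1 : shf p (∑ i ∈ s, c i • H i) = ∑ i ∈ s, c i • shf p (H i) := by
    unfold shf
    simp only [map_sum, map_smul]
  rw [mem_support_iff, h1, coeff_sum] at hm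
  obtain ⟨i, hi, h2⟩ := Finset.exists_ne_zero_of_sum_ne_zero hm
  rw [coeff_smul, smul_eq_mul] at h2
  exact h i hi m (mem_support_iff.2 (right_ne_zero_of_mul h2))

end Pool.Agent.E6b

end

section
open scoped NNReal TensorProduct IntermediateField BigOperators Classical Topology
open Filter

namespace Pool.Agent.E6b

/-- a hypersurface model of a variety, with rational functions `P l / q` -/
structure Mdl (K : Type) [Field K] (r : ℕ) (ι : Type) where
  m : PP K r
  q : MvPolynomial (Fin r) K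
  P : ι → PP K r
  P' : PP K r
  monic : m.Monic
  irr : Irreducible m
  sep : m ∣ P' * Polynomial.derivative m - Polynomial.C q
  q_ne : q ≠ 0

end Pool.Agent.E6b

end

section
open scoped NNReal TensorProduct IntermediateField BigOperators Classical Topology
open Filter

namespace Pool.Agent.E6b
variable (U : Ultrafilter ℕ)

section Aux
variable {L : Type} [Field L] {r : ℕ}

theorem M2_uniq {p q : PP (UP U L) r} {ps : ℕ → PP L r} (h : LimP U p ps) (h' : LimP U q ps) :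
    p = q :=
  Polynomial.ext fun i => MvPolynomial.ext _ _ fun μ => (h i μ).trans (h' i μ).symm

theorem M2_cfs_C {q : MvPolynomial (Fin r) L} {a : L} (h : a ∈ q.coeffs) :
    a ∈ cfs (Polynomial.C q : PP L r) := by
  refine Finset.mem_biUnion.2 ⟨0, Polynomial.mem_support_iff.2 ?_, ?_⟩ <;> rw [Polynomial.coeff_C_zero]
  · rintro rfl
    simp at h
  · exact h

end Aux

end Pool.Agent.E6b

end

section
open scoped NNReal TensorProduct IntermediateField BigOperators Classical Topology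
open Filter

namespace Pool.Agent.E6b
variable {a : ℕ} (Λ : AR a)

theorem X5a_int (m : Fin 5 → ℤ) (s : Fin 5) : IsIntegral ℤ (Λ.pv m s) :=
  IsIntegral.sum _ fun i _ => (isIntegral_algebraMap (x := m i)).mul ((Λ.int s).pow _)

theorem AR.τ_injective : Function.Injective fun s => Λ.θ s ^ 2 + Λ.k * Λ.θ s := by
  intro s s' e
  by_contra h
  obtain ⟨v, -, h1, -⟩ := Λ.ram s s' h
  rw [sub_eq_zero.2 e, map_zero] at h1
  exact inv_ne_zero (Nat.cast_ne_zero.2 Λ.prime.ne_zero) h1.symm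

end Pool.Agent.E6b

end

section
open scoped BigOperators Classical
open Function Polynomial Polynomial.Gal Ideal

namespace Pool.Agent.E6b

/-- The quintic `X ^ 5 - 4 X + 2` (argument of the Mathlib archive file on Abel-Ruffini). -/
noncomputable def X6a_Phi (R : Type) [CommRing R] : R[X] :=
  X ^ 5 - C ((4 : ℕ) : R) * X + C ((2 : ℕ) : R)

section
variable {R : Type} [CommRing R]

theorem X6a_map {S : Type} [CommRing S] (f : R →+* S) : (X6a_Phi R).map f = X6a_Phi S := by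
  simp only [X6a_Phi, Polynomial.map_add, Polynomial.map_sub, Polynomial.map_mul,
    Polynomial.map_pow, map_X, map_C, map_natCast f]

theorem X6a_coeff_zero : (X6a_Phi R).coeff 0 = ((2 : ℕ) : R) := by
  simp [X6a_Phi, coeff_X_pow, -map_natCast]

theorem X6a_coeff_five : (X6a_Phi R).coeff 5 = 1 := by
  simp [X6a_Phi, -map_natCast]
variable [Nontrivial R]

theorem X6a_degree : (X6a_Phi R).degree = ((5 : ℕ) : WithBot ℕ) := by
  suffices degree (X ^ 5 - C ((4 : ℕ) : R) * X) = ((5 : ℕ) : WithBot ℕ) by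
    rwa [X6a_Phi, degree_add_eq_left_of_degree_lt]
    convert! (degree_C_le (R := R)).trans_lt (WithBot.coe_lt_coe.mpr (show 0 < 5 by simp))
  rw [degree_sub_eq_left_of_degree_lt] <;> rw [degree_X_pow]
  exact (degree_C_mul_X_le ((4 : ℕ) : R)).trans_lt
    (WithBot.coe_lt_coe.mpr (show 1 < 5 by simp))

theorem X6a_natDegree : (X6a_Phi R).natDegree = 5 :=
  natDegree_eq_of_degree_eq_some X6a_degree

theorem X6a_monic : (X6a_Phi R).Monic := by
  rw [Monic, Polynomial.leadingCoeff, X6a_natDegree, X6a_coeff_five]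

end

theorem X6a_irreducible : Irreducible (X6a_Phi ℚ) := by
  have hp : (2 : ℕ).Prime := Nat.prime_two
  rw [← X6a_map (Int.castRingHom ℚ), ← IsPrimitive.Int.irreducible_iff_irreducible_map_cast]
  on_goal 1 =>
    apply irreducible_of_eisenstein_criterion (P := span {((2 : ℕ) : ℤ)})
    · rwa [span_singleton_prime (Int.natCast_ne_zero.mpr hp.ne_zero), Int.prime_iff_natAbs_prime]
    · rw [X6a_monic.leadingCoeff, mem_span_singleton]
      exact mod_cast mt Nat.dvd_one.mp hp.ne_one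
    · intro n hn
      rw [mem_span_singleton]
      rw [X6a_degree] at hn; norm_cast at hn
      interval_cases n <;>
      simp +decide only [X6a_Phi, coeff_X_pow, coeff_C, Int.natCast_dvd_natCast.mpr,
        if_true, coeff_C_mul, if_false, coeff_add, zero_add, mul_zero,
        coeff_sub, add_zero, zero_sub, dvd_neg, neg_zero, coeff_X]
    · simp only [X6a_degree, ← WithBot.coe_zero]
      decide
    · rw [X6a_coeff_zero, span_singleton_pow, mem_span_singleton]
      decide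
  all_goals exact Monic.isPrimitive X6a_monic

attribute [local simp] map_ofNat in
theorem X6a_real_le : Fintype.card ((X6a_Phi ℚ).rootSet ℝ) ≤ 3 := by
  rw [← X6a_map (algebraMap ℤ ℚ), X6a_Phi, ← one_mul (X ^ 5), ← C_1]
  apply (card_rootSet_le_derivative _).trans
    (Nat.succ_le_succ ((card_rootSet_le_derivative _).trans (Nat.succ_le_succ _)))
  suffices (Polynomial.rootSet (C (20 : ℚ) * X ^ 3) ℝ).Subsingleton by
    norm_num [Fintype.card_le_one_iff_subsingleton, ← mul_assoc] at *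
    exact this
  rw [rootSet_C_mul_X_pow] <;>
  norm_num

theorem X6a_real_aux :
    ∃ x y : ℝ, x ≠ y ∧ aeval x (X6a_Phi ℚ) = 0 ∧ aeval y (X6a_Phi ℚ) = 0 := by
  let f : ℝ → ℝ := fun x : ℝ => aeval x (X6a_Phi ℚ)
  have hf : f = fun x : ℝ => x ^ 5 - 4 * x + 2 := by
    funext x
    simp only [f, X6a_Phi, map_add, map_sub, map_mul, map_pow, aeval_X, map_natCast]
    norm_num
  have hc : ∀ s : Set ℝ, ContinuousOn f s := fun s => (X6a_Phi ℚ).continuousOn_aeval
  have hf0 : 0 ≤ f 0 := by simp [hf]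
  have hf1 : f 1 < 0 := by simp only [hf]; norm_num
  have hfa : 0 ≤ f 2 := by simp only [hf]; norm_num
  obtain ⟨x, ⟨-, hx1⟩, hx2⟩ :=
    intermediate_value_Ico' zero_le_one (hc _) (Set.mem_Ioc.mpr ⟨hf1, hf0⟩)
  obtain ⟨y, ⟨hy1, -⟩, hy2⟩ :=
    intermediate_value_Ioc one_le_two (hc _) (Set.mem_Ioc.mpr ⟨hf1, hfa⟩)
  exact ⟨x, y, (hx1.trans hy1).ne, hx2, hy2⟩

theorem X6a_real_ge : 2 ≤ Fintype.card ((X6a_Phi ℚ).rootSet ℝ) := by
  have q_ne_zero : X6a_Phi ℚ ≠ 0 := X6a_monic.ne_zero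
  obtain ⟨x, y, hxy, hx, hy⟩ := X6a_real_aux
  have key : ↑({x, y} : Finset ℝ) ⊆ (X6a_Phi ℚ).rootSet ℝ := by
    simp [Set.insert_subset, mem_rootSet_of_ne q_ne_zero, hx, hy]
  convert! Fintype.card_le_of_embedding (Set.embeddingOfSubset _ _ key)
  simp only [Finset.coe_sort_coe, Fintype.card_coe, Finset.card_singleton,
    Finset.card_insert_of_notMem (mt Finset.mem_singleton.mp hxy)]

theorem X6a_card_roots (E : Type) [Field E] [Algebra ℚ E] [IsAlgClosed E] :
    Fintype.card ((X6a_Phi ℚ).rootSet E) = 5 :=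
  (card_rootSet_eq_natDegree X6a_irreducible.separable (IsAlgClosed.splits _)).trans X6a_natDegree

attribute [local instance] splits_ℚ_ℂ in
theorem X6a_card_gal : Nat.card (X6a_Phi ℚ).Gal = Nat.factorial 5 := by
  have h : Bijective (galActionHom (X6a_Phi ℚ) ℂ) := by
    apply galActionHom_bijective_of_prime_degree' X6a_irreducible
    · simp only [X6a_natDegree]; decide
    · rw [X6a_card_roots ℂ, Nat.succ_le_succ_iff]
      exact X6a_real_le.trans (Nat.le_succ 3)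
    · simp_rw [X6a_card_roots ℂ, Nat.succ_le_succ_iff]
      exact X6a_real_ge
  rw [Nat.card_eq_of_bijective _ h, Nat.card_eq_fintype_card, Fintype.card_perm, X6a_card_roots]

theorem X6a_quintic : ∃ (θ : Fin 5 → Qb) (perm : (Qb ≃ₐ[ℚ] Qb) →* Equiv.Perm (Fin 5)),
    Function.Injective θ ∧ (∀ s, IsIntegral ℤ (θ s)) ∧ (∀ σ s, σ (θ s) = θ (perm σ s)) ∧
      Function.Surjective perm := by
  have := H3_isGalois
  have hsp : Fact (((X6a_Phi ℚ).map (algebraMap ℚ Qb)).Splits) := ⟨IsAlgClosed.splits _⟩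
  have hc := X6a_card_roots Qb
  let e : (X6a_Phi ℚ).rootSet Qb ≃ Fin 5 := Fintype.equivFinOfCardEq hc
  have hb : Bijective (galActionHom (X6a_Phi ℚ) Qb) := by
    refine (galActionHom_injective _ _).bijective_of_nat_card_le ?_
    rw [X6a_card_gal, Nat.card_eq_fintype_card, Fintype.card_perm, hc]
  refine ⟨fun s => (e.symm s : Qb), (e.permCongrHom.toMonoidHom.comp
    (galActionHom (X6a_Phi ℚ) Qb)).comp (restrict (X6a_Phi ℚ) Qb), ?_, ?_, ?_, ?_⟩
  · exact Subtype.val_injective.comp e.symm.injective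
  · intro s
    refine ⟨X6a_Phi ℤ, X6a_monic, ?_⟩
    have h1 := (mem_rootSet.1 (e.symm s).2).2
    have h2 : ∀ y : Qb, aeval y (X6a_Phi ℚ) = aeval y (X6a_Phi ℤ) := fun y => by
      rw [← X6a_map (algebraMap ℤ ℚ), aeval_map_algebraMap]
    exact (h2 _).symm.trans h1
  · intro σ s
    rw [← galActionHom_restrict (X6a_Phi ℚ) Qb σ (e.symm s)]
    simp [Equiv.permCongr_apply]
  · exact (e.permCongrHom.surjective.comp hb.2).comp (restrict_surjective _ _)

end Pool.Agent.E6b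

end

section
open scoped NNReal TensorProduct IntermediateField BigOperators Classical Topology
open Filter

namespace Pool.Agent.E6b

/-- the roots of `X ^ 5 - 4 X + 2` -/
theorem exists_quintic : ∃ (θ : Fin 5 → Qb) (perm : (Qb ≃ₐ[ℚ] Qb) →* Equiv.Perm (Fin 5)),
    Function.Injective θ ∧ (∀ s, IsIntegral ℤ (θ s)) ∧ (∀ σ s, σ (θ s) = θ (perm σ s)) ∧
      Function.Surjective perm := X6a_quintic

/-- Schur: a non-constant integral polynomial has roots modulo infinitely many primes -/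
theorem exists_prime_dvd_eval (g : Polynomial ℤ) (hg : 0 < g.natDegree) (N : ℕ) :
    ∃ (p : ℕ) (k : ℤ), p.Prime ∧ N < p ∧ (p : ℤ) ∣ g.eval k := by
  by_cases hc : g.eval 0 = 0
  · obtain ⟨p, h1, h2⟩ := Nat.exists_infinite_primes (N + 1)
    exact ⟨p, 0, h2, h1, by rw [hc]; exact dvd_zero _⟩
  set c := g.eval 0 with hcdef
  have hF : ((N.factorial : ℕ) : ℤ) ≠ 0 := Int.natCast_ne_zero.2 N.factorial_ne_zero
  have hne : ∀ d : ℤ, g - Polynomial.C d ≠ 0 := fun d h => by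
    rw [sub_eq_zero.1 h, Polynomial.natDegree_C] at hg
    exact lt_irrefl _ hg
  obtain ⟨z, hz⟩ : ∃ z : ℤ, ¬ ((g - Polynomial.C c) * (g - Polynomial.C (-c))).IsRoot
      (c * N.factorial * z) := by
    by_contra hall
    push Not at hall
    refine mul_ne_zero (hne c) (hne (-c)) (Polynomial.eq_zero_of_infinite_isRoot _ ?_)
    refine Set.infinite_of_injective_forall_mem (f := fun z : ℤ => c * N.factorial * z) ?_ hall
    exact mul_right_injective₀ (mul_ne_zero hc hF)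
  obtain ⟨q, hq⟩ := Polynomial.sub_dvd_eval_sub (c * N.factorial * z) 0 g
  have he : g.eval (c * N.factorial * z) = c * (1 + N.factorial * (z * q)) := by
    rw [← hcdef] at hq
    linear_combination hq
  have hm : (1 + N.factorial * (z * q) : ℤ).natAbs ≠ 1 := by
    intro h
    apply hz
    simp only [Polynomial.IsRoot, Polynomial.eval_mul, Polynomial.eval_sub, Polynomial.eval_C, he]
    rcases Int.natAbs_eq_iff.1 h with h | h <;> rw [h] <;> simp
  obtain ⟨p, hp, hpm⟩ := Nat.exists_prime_and_dvd hm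
  have hpm' : (p : ℤ) ∣ 1 + N.factorial * (z * q) := Int.natCast_dvd.2 hpm
  refine ⟨p, c * N.factorial * z, hp, ?_, by rw [he]; exact hpm'.mul_left _⟩
  by_contra hle
  have h1 : (p : ℤ) ∣ N.factorial * (z * q) :=
    (Int.natCast_dvd_natCast.2 ((Nat.Prime.dvd_factorial hp).2 (not_lt.1 hle))).mul_right _
  have h2 : (p : ℤ) ∣ 1 := (Int.dvd_add_left h1).1 hpm'
  exact hp.one_lt.ne' (by exact_mod_cast Int.eq_one_of_dvd_one (by positivity) h2)

section
variable {v : AbsoluteValue Qb ℝ}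

theorem X6a_prod_lt (s : Multiset Qb) (h : v s.prod < 1) : ∃ a ∈ s, v a < 1 := by
  by_contra hall
  push Not at hall
  refine absurd h (not_lt.2 (Multiset.prod_induction (fun x => 1 ≤ v x) s ?_ (by simp) hall))
  intro a b ha hb
  rw [map_mul]
  exact one_le_mul_of_one_le_of_one_le ha hb

theorem X6a_prod_one (s : Multiset Qb) (h : ∀ a ∈ s, v a = 1) : v s.prod = 1 := by
  rw [map_multiset_prod]
  refine Multiset.prod_eq_one ?_
  intro x hx
  obtain ⟨a, ha, rfl⟩ := Multiset.mem_map.1 hx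
  exact h a ha

theorem X6a_inv_lt {p : ℕ} (hp : p.Prime) : (p : ℝ)⁻¹ < 1 :=
  inv_lt_one_of_one_lt₀ (by exact_mod_cast hp.one_lt)

/-- a simple root modulo `p` gives a value of exact order one -/
theorem X6a_simple {p : ℕ} (hp : p.Prime) (hv : IsPl p v) (R : Multiset Qb) (hR : R.Nodup)
    (hsep : ∀ r ∈ R, ∀ r' ∈ R, r ≠ r' → v (r - r') = 1) (k0 m : ℤ)
    (hg : (R.map fun r => (k0 : Qb) - r).prod = (p : Qb) * m) :
    ∃ k : ℤ, ∃ r ∈ R, v (k - r) = (p : ℝ)⁻¹ := by
  have hna := hv.nonarch hp.ne_zero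
  have hpv := (H1a_prime hv hp.ne_zero).2
  have h1 : v (R.map fun r => (k0 : Qb) - r).prod ≤ (p : ℝ)⁻¹ := by
    rw [hg, map_mul, hpv]
    exact mul_le_of_le_one_right (by positivity) (H1a_int_le_one hv hp.ne_zero m)
  obtain ⟨a, ha, ha1⟩ := X6a_prod_lt _ (h1.trans_lt (X6a_inv_lt hp))
  obtain ⟨r, hr, rfl⟩ := Multiset.mem_map.1 ha
  have h2 : v ((R.erase r).map fun r => (k0 : Qb) - r).prod = 1 := by
    refine X6a_prod_one _ fun a ha => ?_
    obtain ⟨r', hr', rfl⟩ := Multiset.mem_map.1 ha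
    obtain ⟨h3, h4⟩ := (hR.mem_erase_iff).1 hr'
    have h5 := hsep r hr r' h4 h3.symm
    have h6 : (k0 : Qb) - r' = (k0 - r) + (r - r') := by ring
    rw [h6, X6a_add_lt hna (h5 ▸ ha1), h5]
  rw [← Multiset.prod_map_erase hr, map_mul, h2, mul_one] at h1
  rcases h1.eq_or_lt with h | h
  · exact ⟨k0, r, hr, h⟩
  · refine ⟨k0 + p, r, hr, ?_⟩
    have h6 : ((k0 + p : ℤ) : Qb) - r = (k0 - r) + p := by push_cast; ring
    rw [h6, X6a_add_lt hna (hpv ▸ h), hpv]

/-- few elements leave a residue class free -/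
theorem X6a_free {p : ℕ} (hp : p.Prime) (hv : IsPl p v) (Y : Finset Qb) (hY : Y.card < p) :
    ∃ cb : ℤ, ∀ y ∈ Y, 1 ≤ v (y - cb) := by
  by_contra hall
  push Not at hall
  choose f hf1 hf2 using hall
  obtain ⟨i, hi, j, hj, hij, he⟩ := Finset.exists_ne_map_eq_of_card_lt_of_maps_to
    (s := Finset.range p) (t := Y) (f := fun n : ℕ => f n) (by simpa using hY)
    (fun n _ => hf1 n)
  have h1 : v (((i : ℤ) - j : ℤ) : Qb) = 1 := by
    refine H1a_coprime hv hp.ne_zero fun hd => hij ?_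
    have hi' := Finset.mem_range.1 hi
    have hj' := Finset.mem_range.1 hj
    have := Int.eq_zero_of_abs_lt_dvd hd (by rw [abs_lt]; constructor <;> omega)
    omega
  have h2 := X6a_sub_le (hv.nonarch hp.ne_zero) (f j - ((j : ℤ) : Qb)) (f i - ((i : ℤ) : Qb))
  have h3 : (f j - ((j : ℤ) : Qb)) - (f i - ((i : ℤ) : Qb)) = (((i : ℤ) - j : ℤ) : Qb) := by
    rw [he]; push_cast; ring
  rw [h3, h1] at h2
  exact absurd h2 (not_le.2 (max_lt (hf2 _) (hf2 _)))

/-- the residue class avoiding the critical values -/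
theorem X6a_cb {p : ℕ} (hp : p.Prime) (hv : IsPl p v) (hp2 : 175 < p) (z : Fin 5 → Fin 5 → Qb)
    (n : Qb) (c : ℤ) (hn : v n = 1) :
    ∃ cb : ℤ, ∀ i j, v (z i j) = 1 →
      v (z i j - cb) = 1 ∧ v (n * (z i j - cb) ^ 6 - c) = 1 := by
  have hna := hv.nonarch hp.ne_zero
  have hn0 : n ≠ 0 := fun h => by simp [h] at hn
  let P : Polynomial Qb := Polynomial.X ^ 6 - Polynomial.C ((c : Qb) / n)
  have hPm : P.Monic := Polynomial.monic_X_pow_sub_C _ (by norm_num)
  have hPc : P.roots.toFinset.card ≤ 6 :=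
    (Multiset.toFinset_card_le _).trans ((Polynomial.card_roots' P).trans
      (le_of_eq Polynomial.natDegree_X_pow_sub_C))
  let T : Finset Qb := insert 0 P.roots.toFinset
  have hT : T.card ≤ 7 := (Finset.card_insert_le _ _).trans (by omega)
  obtain ⟨cb, hcb⟩ := X6a_free hp hv
    (((Finset.univ : Finset (Fin 5 × Fin 5)) ×ˢ T).image fun x => z x.1.1 x.1.2 - x.2) (by
      refine Finset.card_image_le.trans_lt ?_
      rw [Finset.card_product, Finset.card_univ, Fintype.card_prod, Fintype.card_fin]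
      omega)
  refine ⟨cb, fun i j hz => ?_⟩
  have key : ∀ r ∈ T, 1 ≤ v (z i j - r - cb) := fun r hr =>
    hcb _ (Finset.mem_image.2 ⟨((i, j), r), by simp [hr], rfl⟩)
  have h1 : v (z i j - cb) ≤ 1 :=
    (X6a_sub_le hna _ _).trans (max_le hz.le (H1a_int_le_one hv hp.ne_zero cb))
  have h2 : v (z i j - cb) = 1 := le_antisymm h1 (by simpa using key 0 (by simp [T]))
  refine ⟨h2, le_antisymm ?_ ?_⟩
  · refine (X6a_sub_le hna _ _).trans (max_le ?_ (H1a_int_le_one hv hp.ne_zero c))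
    rw [map_mul, map_pow, hn, h2]
    simp
  · by_contra hlt
    have h3 : n * (z i j - cb) ^ 6 - c = n * (P.roots.map fun r => (z i j - cb) - r).prod := by
      rw [← (IsAlgClosed.splits P).eval_eq_prod_roots_of_monic hPm]
      simp only [P, Polynomial.eval_sub, Polynomial.eval_pow, Polynomial.eval_X,
        Polynomial.eval_C]
      field_simp
    rw [h3, map_mul, hn, one_mul] at hlt
    obtain ⟨a, ha, ha1⟩ := X6a_prod_lt _ (not_le.1 hlt)
    obtain ⟨r, hr, rfl⟩ := Multiset.mem_map.1 ha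
    have h4 := key r (by simp only [T, Finset.mem_insert, Multiset.mem_toFinset]; exact Or.inr hr)
    rw [sub_right_comm] at h4
    exact absurd ha1 (not_lt.2 h4)

end

theorem X6a_unif {ι : Type} [Fintype ι] (a : ι → Qb) :
    ∃ N : ℕ, ∀ p v, IsPl p v → N ≤ p → ∀ i, a i ≠ 0 → v (a i) = 1 := by
  have h : ∀ i, ∃ N : ℕ, ∀ p v, IsPl p v → N ≤ p → a i ≠ 0 → v (a i) = 1 := fun i => by
    by_cases h0 : a i = 0
    · exact ⟨0, fun _ _ _ _ h => absurd h0 h⟩
    · obtain ⟨N, hN⟩ := eventually_eq_one h0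
      exact ⟨N, fun p v h1 h2 _ => hN p v h1 h2⟩
  choose N hN using h
  exact ⟨Finset.univ.sup N, fun p v h1 h2 i =>
    hN i p v h1 ((Finset.le_sup (Finset.mem_univ i)).trans h2)⟩

theorem X6a_two (s s' i j : Fin 5) (h : s ≠ s') (h' : i ≠ j) :
    ∃ π : Equiv.Perm (Fin 5), π s = i ∧ π s' = j := by
  have h1 : Equiv.swap s i s' ≠ i := fun e => by
    rw [Equiv.swap_apply_eq_iff, Equiv.swap_apply_right] at e
    exact h e.symm
  refine ⟨Equiv.swap (Equiv.swap s i s') j * Equiv.swap s i, ?_, ?_⟩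
  · rw [Equiv.Perm.mul_apply, Equiv.swap_apply_left, Equiv.swap_apply_of_ne_of_ne h1.symm h']
  · rw [Equiv.Perm.mul_apply, Equiv.swap_apply_left]

theorem X6a_distinct {θ : Fin 5 → Qb} {perm : (Qb ≃ₐ[ℚ] Qb) →* Equiv.Perm (Fin 5)}
    (inj : Function.Injective θ) (act : ∀ σ s, σ (θ s) = θ (perm σ s))
    (surj : Function.Surjective perm) {i j k l : Fin 5} (hij : i ≠ j) (hkl : k ≠ l)
    (h : θ i + θ j = θ k + θ l) : (i = k ∧ j = l) ∨ (i = l ∧ j = k) := by
  by_cases h1 : j = k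
  · subst h1
    exact Or.inr ⟨inj (by linear_combination h), rfl⟩
  by_cases h2 : j = l
  · subst h2
    exact Or.inl ⟨inj (by linear_combination h), rfl⟩
  by_cases h3 : i = k
  · subst h3
    exact absurd (inj (by linear_combination h)) h2
  obtain ⟨σ, hσ⟩ := surj (Equiv.swap j k)
  have h5 := congrArg σ h
  rw [map_add, map_add, act, act, act, act, hσ, Equiv.swap_apply_left, Equiv.swap_apply_right,
    Equiv.swap_apply_of_ne_of_ne hij h3,
    Equiv.swap_apply_of_ne_of_ne (Ne.symm h2) hkl.symm] at h5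
  exact absurd (inj (by linear_combination (h - h5) / 2)) h1

theorem exists_AR (a : ℕ) : Nonempty (AR a) := by
  obtain ⟨θ, perm, inj, int, act, surj⟩ := exists_quintic
  have hgal := H3_isGalois
  have hα : IsIntegral ℤ (-(θ 0 + θ 1)) := ((int 0).add (int 1)).neg
  have hαQ : IsIntegral ℚ (-(θ 0 + θ 1)) := hα.tower_top
  obtain ⟨N1, hN1⟩ := X6a_unif fun x : Fin 5 × Fin 5 => θ x.1 - θ x.2
  obtain ⟨N2, hN2⟩ := X6a_unif fun x : (Fin 5 × Fin 5) × Fin 5 × Fin 5 =>
    (θ x.1.1 + θ x.1.2) - (θ x.2.1 + θ x.2.2)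
  obtain ⟨p, k0, hp, hpN, m, hm⟩ := exists_prime_dvd_eval (minpoly ℤ (-(θ 0 + θ 1)))
    (minpoly.natDegree_pos hα) (N1 + N2 + (2 * a + 3) + 175)
  obtain ⟨v0, hv0⟩ := exists_isPl (Or.inr hp)
  have hna := hv0.nonarch hp.ne_zero
  have sep : ∀ v, IsPl p v → ∀ i j, i ≠ j → v (θ i - θ j) = 1 := fun v hv i j hij =>
    hN1 p v hv (by omega) (i, j) (sub_ne_zero.2 (inj.ne hij))
  have sep2 : ∀ i j k l, θ i + θ j ≠ θ k + θ l → v0 ((θ i + θ j) - (θ k + θ l)) = 1 :=
    fun i j k l h => hN2 p v0 hv0 (by omega) ((i, j), k, l) (sub_ne_zero.2 h)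
  have hroot : ∀ r ∈ (minpoly ℚ (-(θ 0 + θ 1))).aroots Qb, ∃ i j, i ≠ j ∧ r = -(θ i + θ j) := by
    intro r hr
    obtain ⟨σ, hσ⟩ := minpoly.exists_algEquiv_of_root' hαQ.isAlgebraic
      (Polynomial.mem_aroots.1 hr).2
    refine ⟨perm σ 0, perm σ 1, (perm σ).injective.ne (by decide), ?_⟩
    rw [← hσ, map_neg, map_add, act, act]
  obtain ⟨k, r, hr, hk⟩ := X6a_simple hp hv0 ((minpoly ℚ (-(θ 0 + θ 1))).aroots Qb)
    (Polynomial.nodup_roots ((Polynomial.separable_map _).2 (minpoly.irreducible hαQ).separable))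
    (fun r hr r' hr' hne => by
      obtain ⟨i, j, -, rfl⟩ := hroot r hr
      obtain ⟨k, l, -, rfl⟩ := hroot r' hr'
      have h1 : -(θ i + θ j) - -(θ k + θ l) = (θ k + θ l) - (θ i + θ j) := by ring
      rw [h1]
      exact sep2 _ _ _ _ fun e => hne (by rw [e])) k0 m (by
      rw [← (IsAlgClosed.splits _).aeval_eq_prod_aroots_of_monic (minpoly.monic hαQ),
        minpoly.isIntegrallyClosed_eq_field_fractions' ℚ hα, Polynomial.aeval_map_algebraMap,
        ← eq_intCast (algebraMap ℤ Qb) k0, Polynomial.aeval_algebraMap_apply,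
        Polynomial.coe_aeval_eq_eval, hm]
      simp)
  obtain ⟨i0, j0, hij0, rfl⟩ := hroot r hr
  have fac : ∀ i j, (θ i ^ 2 + k * θ i) - (θ j ^ 2 + k * θ j) =
      (θ i - θ j) * (k - -(θ i + θ j)) := fun i j => by ring
  have r1 : v0 ((θ i0 ^ 2 + k * θ i0) - (θ j0 ^ 2 + k * θ j0)) = (p : ℝ)⁻¹ := by
    rw [fac, map_mul, sep v0 hv0 _ _ hij0, hk, one_mul]
  have r2 : ∀ i j, i ≠ j → ¬ (i = i0 ∧ j = j0) → ¬ (i = j0 ∧ j = i0) →
      v0 ((θ i ^ 2 + k * θ i) - (θ j ^ 2 + k * θ j)) = 1 := fun i j hij h1 h2 => by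
    have h3 := sep2 i j i0 j0 fun e =>
      (X6a_distinct inj act surj hij hij0 e).elim h1 h2
    have h4 : (k : Qb) - -(θ i + θ j) = (k - -(θ i0 + θ j0)) + ((θ i + θ j) - (θ i0 + θ j0)) := by
      ring
    rw [fac, map_mul, sep v0 hv0 _ _ hij, one_mul, h4,
      X6a_add_lt hna (by rw [hk, h3]; exact X6a_inv_lt hp), h3]
  have mv : ∀ (σ : Qb ≃ₐ[ℚ] Qb) i j, σ ((θ i ^ 2 + k * θ i) - (θ j ^ 2 + k * θ j)) =
      (θ (perm σ i) ^ 2 + k * θ (perm σ i)) - (θ (perm σ j) ^ 2 + k * θ (perm σ j)) :=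
    fun σ i j => by simp only [map_sub, map_add, map_mul, map_pow, map_intCast, act]
  have hn : v0 ((2 * a + 3) ^ (2 * a + 3)) = 1 := by
    have h1 := H1a_coprime hv0 hp.ne_zero (m := ((2 * a + 3 : ℕ) : ℤ)) fun hd => by
      have := Nat.le_of_dvd (by omega) (Int.natCast_dvd_natCast.1 hd)
      omega
    push_cast at h1
    rw [map_pow, h1, one_pow]
  obtain ⟨cb, hcb⟩ := X6a_cb hp hv0 (by omega)
    (fun i j => ((θ i ^ 2 + k * θ i) - (θ j ^ 2 + k * θ j))⁻¹) _ ((2 * a) ^ (2 * a) * 27) hn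
  refine ⟨⟨θ, perm, p, k, cb, inj, int, act, surj, hp, by omega, sep, ?_, ?_⟩⟩
  · intro s s' hs
    obtain ⟨π, h1, h2⟩ := X6a_two s s' i0 j0 hs hij0
    obtain ⟨σ, rfl⟩ := surj π
    refine ⟨_, hv0.comp σ, ?_, fun i j hij h3 h4 => ?_⟩
    · change v0 (σ _) = _
      rw [mv, h1, h2, r1]
    · change v0 (σ _) = _
      rw [mv]
      refine r2 _ _ ((perm σ).injective.ne hij) (fun e => h3 ?_) (fun e => h4 ?_)
      · exact ⟨(perm σ).injective (e.1.trans h1.symm), (perm σ).injective (e.2.trans h2.symm)⟩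
      · exact ⟨(perm σ).injective (e.1.trans h2.symm), (perm σ).injective (e.2.trans h1.symm)⟩
  · intro v hv i j h
    obtain ⟨σ, hσ⟩ := IsPl.exists_conj hv0 hv
    rw [hσ, mv] at h
    have h1 := hcb (perm σ i) (perm σ j) (by rw [map_inv₀, h, inv_one])
    push_cast at h1
    rw [hσ, hσ]
    simpa only [map_sub, map_add, map_mul, map_pow, map_inv₀, map_intCast, map_natCast,
      map_ofNat, act] using h1

end Pool.Agent.E6b

end

section
open scoped NNReal TensorProduct IntermediateField BigOperators Classical Topology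
open Filter

namespace Pool.Agent.E6b
variable {L : Type} [Field L] [Algebra Qb L] {a : ℕ} (D : TD Qb L a)

theorem X3b_inc_t {J J' : Finset (Fin 5)} (h : D.F J ≤ D.F J') :
    IntermediateField.inclusion h (D.tF J) = D.tF J' :=
  Subtype.ext (IntermediateField.coe_inclusion h _)

end Pool.Agent.E6b

end

section
open scoped NNReal TensorProduct IntermediateField BigOperators Classical Topology
open Filter

namespace Pool.Agent.E6b
variable {a : ℕ} (Λ : AR a)

theorem X6_adjoin {S : Set Qb} (hS : S.Finite) : ∃ K : IntermediateField ℚ Qb,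
    FiniteDimensional ℚ K ∧ ∀ σ : Qb ≃ₐ[ℚ] Qb, (∀ z ∈ K, σ z = z) ↔ ∀ z ∈ S, σ z = z := by
  have := hS.to_subtype
  have := H1a_isAlgebraic
  refine ⟨IntermediateField.adjoin ℚ S, IntermediateField.finiteDimensional_adjoin fun x _ =>
    (Algebra.IsAlgebraic.isAlgebraic x).isIntegral, fun σ =>
    ⟨fun h z hz => h z (IntermediateField.subset_adjoin _ _ hz), fun h z hz => ?_⟩⟩
  induction hz using IntermediateField.adjoin_induction with
  | mem x hx => exact h x hx
  | algebraMap x => exact σ.commutes x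
  | add x y _ _ hx hy => rw [map_add, hx, hy]
  | inv x _ hx => rw [map_inv₀, hx]
  | mul x y _ _ hx hy => rw [map_mul, hx, hy]

theorem AR.perm_open : ∃ K : IntermediateField ℚ Qb, FiniteDimensional ℚ K ∧
    ∀ σ : Qb ≃ₐ[ℚ] Qb, (∀ z ∈ K, σ z = z) → Λ.perm σ = 1 := by
  obtain ⟨K, h1, h2⟩ := X6_adjoin (Set.finite_range Λ.θ)
  refine ⟨K, h1, fun σ hσ => Equiv.ext fun s => Λ.inj ?_⟩
  rw [← Λ.act]
  exact (h2 σ).1 hσ _ ⟨s, rfl⟩

/-- the field `k'` -/
theorem AR.exists_K : ∃ K : IntermediateField ℚ Qb, FiniteDimensional ℚ K ∧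
    ∀ σ : Qb ≃ₐ[ℚ] Qb, (∀ z ∈ K, σ z = z) ↔ ∀ s : Fin 5, ((Λ.perm σ s : ℕ) < 2 ↔ (s : ℕ) < 2) := by
  obtain ⟨K, h1, h2⟩ := X6_adjoin (Set.toFinite {Λ.θ 0 + Λ.θ 1, Λ.θ 0 * Λ.θ 1})
  refine ⟨K, h1, fun σ => (h2 σ).trans ?_⟩
  simp only [Set.mem_insert_iff, Set.mem_singleton_iff, forall_eq_or_imp, forall_eq, map_add,
    map_mul, Λ.act]
  have hi : ∀ s s', (Λ.perm σ s : ℕ) = Λ.perm σ s' → (s : ℕ) = s' := fun s s' h =>
    congrArg Fin.val ((Λ.perm σ).injective (Fin.ext h))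
  have h01 := hi 0 1
  constructor
  · rintro ⟨e1, e2⟩ s
    have key : ∀ u : Fin 5, (Λ.θ u - Λ.θ 0) * (Λ.θ u - Λ.θ 1) = 0 → (u : ℕ) < 2 := fun u h => by
      rcases mul_eq_zero.1 h with h | h
      · rw [Λ.inj (sub_eq_zero.1 h)]
        decide
      · rw [Λ.inj (sub_eq_zero.1 h)]
        decide
    have k0 := key (Λ.perm σ 0) (by linear_combination (- Λ.θ (Λ.perm σ 0)) * -e1 - e2)
    have k1 := key (Λ.perm σ 1) (by linear_combination (- Λ.θ (Λ.perm σ 1)) * -e1 - e2)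
    have h0 := hi s 0
    have h1 := hi s 1
    simp only [Fin.val_zero, Fin.val_one] at h0 h1 h01
    refine ⟨fun h => by omega, fun h => ?_⟩
    obtain rfl | rfl : s = 0 ∨ s = 1 := by omega
    exacts [k0, k1]
  · intro h
    have k0 := (h 0).2 (by decide)
    have k1 := (h 1).2 (by decide)
    simp only [Fin.val_zero, Fin.val_one] at h01
    obtain ⟨e0, e1⟩ | ⟨e0, e1⟩ : Λ.perm σ 0 = 0 ∧ Λ.perm σ 1 = 1 ∨
        Λ.perm σ 0 = 1 ∧ Λ.perm σ 1 = 0 := by omega
    · rw [e0, e1]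
      exact ⟨rfl, rfl⟩
    · rw [e0, e1]
      exact ⟨add_comm _ _, mul_comm _ _⟩

end Pool.Agent.E6b

end

section
open scoped NNReal TensorProduct IntermediateField BigOperators Classical Topology
open Filter

namespace Pool.Agent.E6b

lemma X7a_core {R κ : Type} [CommRing R] [IsDomain R] [Field κ] (ρ : R →+* κ) {a : ℕ}
    (ha : 1 ≤ a) {A B z z₀ x₀ x₁ : R} (hA : ρ A = 0) (hB : ρ B = 1) (hz : ρ z₀ = ρ z)
    (hz0 : ρ z ≠ 0) (hx : ρ x₁ = ρ x₀)
    (h0 : x₀ ^ (2 * a) * (x₀ ^ 3 + A * x₀ ^ 2 + B) = z₀ ^ 2)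
    (h1 : x₁ ^ (2 * a) * (x₁ ^ 3 + A * x₁ ^ 2 + B) = z₀ ^ 2) (hne : x₁ ≠ x₀) :
    ρ ((2 * a + 3) ^ (2 * a + 3) * z ^ 6 - (2 * a) ^ (2 * a) * 27) = 0 := by
  obtain ⟨m, hm⟩ : ∃ m, 2 * a = m + 1 := ⟨2 * a - 1, by omega⟩
  have hm' : (2 * a : κ) = m + 1 := by exact_mod_cast congrArg (Nat.cast : ℕ → κ) hm
  obtain ⟨k, hk⟩ := Polynomial.binomExpansion
    (Polynomial.X ^ (m + 4) + Polynomial.C A * Polynomial.X ^ (m + 3) +
      Polynomial.C B * Polynomial.X ^ (m + 1) : Polynomial R) x₀ (x₁ - x₀)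
  simp only [add_sub_cancel, Polynomial.eval_add, Polynomial.eval_mul, Polynomial.eval_pow,
    Polynomial.eval_X, Polynomial.eval_C, Polynomial.derivative_C_mul, Polynomial.derivative_X_pow_succ,
    Polynomial.eval_natCast, map_add, map_natCast, map_one, Polynomial.eval_one] at hk
  rw [hm] at h0 h1
  have e1 : (x₁ - x₀) * ((((m + 4 : ℕ) : R) * x₀ ^ (m + 3) + A * (((m + 3 : ℕ) : R) * x₀ ^ (m + 2)) +
      B * (((m : R) + 1) * x₀ ^ m)) + k * (x₁ - x₀)) = 0 := by
    push_cast at hk ⊢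
    linear_combination h1 - h0 - hk
  have e2 := congrArg ρ ((mul_eq_zero.1 e1).resolve_left (sub_ne_zero.2 hne))
  have e3 := congrArg ρ h0
  simp only [map_add, map_mul, map_pow, map_sub, map_natCast, map_one, map_zero, hA, hB, hz, hx,
    sub_self, mul_zero, zero_mul, add_zero, one_mul] at e2 e3
  simp only [map_add, map_mul, map_pow, map_sub, map_natCast, map_ofNat]
  generalize ρ x₀ = u at e2 e3
  generalize ρ z = w at e3 hz0 ⊢
  have hu : u ≠ 0 := by
    rintro rfl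
    rw [zero_pow (Nat.succ_ne_zero m), zero_mul] at e3
    exact hz0 (pow_eq_zero_iff two_ne_zero |>.1 e3.symm)
  have e4 : (2 * a + 3 : κ) * u ^ 3 = -(2 * a) := by
    apply mul_left_cancel₀ (pow_ne_zero m hu)
    rw [hm']
    push_cast at e2
    linear_combination e2
  have e5 : (2 * a + 3 : κ) * (u ^ 3 + 1) = 3 := by linear_combination e4
  have e6 : ((2 * a + 3 : κ) * u ^ 3) ^ (2 * a) = (2 * a) ^ (2 * a) := by
    rw [e4, Even.neg_pow (even_two_mul a)]
  rw [← hm] at e3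
  have e7 : w ^ 6 = (u ^ (2 * a) * (u ^ 3 + 1)) ^ 3 := by rw [e3]; ring
  have e8 : (27 : κ) = ((2 * a + 3 : κ) * (u ^ 3 + 1)) ^ 3 := by rw [e5]; norm_num
  rw [← e6, e7, e8, mul_pow, mul_pow, mul_pow, ← pow_mul u 3, ← pow_mul u _ 3, mul_comm 3 (2 * a)]
  ring

lemma X7a_res {v : AbsoluteValue Qb ℝ} (hv : IsNonarchimedean v) (x : H1c.BValA_ring hv) :
    IsLocalRing.residue _ x = 0 ↔ v x < 1 := by
  rw [IsLocalRing.residue_eq_zero_iff, IsLocalRing.mem_maximalIdeal, mem_nonunits_iff]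
  constructor
  · intro h
    by_contra h'
    have h1 : v x = 1 := le_antisymm x.2 (not_lt.1 h')
    have h2 : (x : Qb) ≠ 0 := fun e => by
      rw [e, map_zero] at h1
      exact zero_ne_one h1
    refine h (IsUnit.of_mul_eq_one ⟨(x : Qb)⁻¹, ?_⟩ (Subtype.ext (mul_inv_cancel₀ h2)))
    change v (x : Qb)⁻¹ ≤ 1
    rw [map_inv₀, h1, inv_one]
  · intro h hu
    obtain ⟨y, hy⟩ := hu.exists_right_inv
    have h1 : v x * v y = 1 := by
      rw [← map_mul, ← map_one v]
      exact congrArg (fun t : H1c.BValA_ring hv => v t) hy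
    have h2 : v y ≤ 1 := y.2
    have := mul_le_of_le_one_right (v.nonneg x) h2
    linarith

lemma X7a_root {v : AbsoluteValue Qb ℝ} (hv : IsNonarchimedean v) (n : ℕ)
    (A B z : H1c.BValA_ring hv) {x : Qb}
    (h : x ^ n * (x ^ 3 + (A : Qb) * x ^ 2 + B) = (z : Qb) ^ 2) : v x ≤ 1 := by
  have h1 : IsIntegral (H1c.BValA_ring hv) x := by
    refine ⟨Polynomial.X ^ (n + 3) + (Polynomial.C A * Polynomial.X ^ (n + 2) +
      Polynomial.C B * Polynomial.X ^ n - Polynomial.C (z ^ 2)), ?_, ?_⟩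
    · refine Polynomial.monic_X_pow_add ?_
      compute_degree!
      constructor
      · exact WithBot.coe_lt_coe.2 (by omega : n + 2 < n + 3)
      · exact WithBot.coe_lt_coe.2 (by omega : n < n + 3)
    · simp only [Polynomial.eval₂_add, Polynomial.eval₂_sub, Polynomial.eval₂_mul,
        Polynomial.eval₂_C, Polynomial.eval₂_X_pow]
      change x ^ (n + 3) + ((A : Qb) * x ^ (n + 2) + B * x ^ n - (z : Qb) ^ 2) = 0
      linear_combination h
  obtain ⟨y, rfl⟩ := IsIntegrallyClosed.isIntegral_iff.1 h1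
  exact y.2

lemma X7a_lt {v : AbsoluteValue Qb ℝ} (hv : IsNonarchimedean v) {x y : Qb} (hx : v x < 1)
    (hy : v y < 1) : v (x + y) < 1 := (hv x y).trans_lt (max_lt hx hy)

lemma X7a_le {v : AbsoluteValue Qb ℝ} (hv : IsNonarchimedean v) {x y : Qb} (hx : v x ≤ 1)
    (hy : v y ≤ 1) : v (x + y) ≤ 1 := (hv x y).trans (max_le hx hy)
variable {a : ℕ} (Λ : AR a)

lemma X7a_pv {u : Fin 5 → ℤ} {b : ℤ} (h : ∀ i, (Λ.p : ℤ) ∣ u i - if i = 0 then b else 0)
    {v : AbsoluteValue Qb ℝ} (hv : IsPl Λ.p v) (s : Fin 5) : v (Λ.pv u s - b) < 1 := by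
  obtain ⟨-, v1, -, v3⟩ := H1c_spec hv Λ.prime.ne_zero
  choose k hk using h
  have hk' : ∀ i, (u i : Qb) = (if i = 0 then (b : Qb) else 0) + Λ.p * k i := fun i => by
    have := congrArg (Int.cast : ℤ → Qb) (hk i)
    push_cast at this
    linear_combination this
  have e : Λ.pv u s - b = Λ.p * Λ.pv k s := by
    simp only [AR.pv, hk', Fin.sum_univ_five]
    simp
    ring
  have hi : IsIntegral ℤ (Λ.pv k s) :=
    IsIntegral.sum _ fun i _ => (isIntegral_algebraMap (x := k i)).mul ((Λ.int s).pow _)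
  rw [e, map_mul]
  exact (mul_le_of_le_one_right (v.nonneg _) (H1c.v_int v1 hi)).trans_lt v3

/-- away from the ramified pair the fibre polynomial has roots distinct modulo `v` -/
theorem AR.fixed_of_inertia {m c : Fin 5 → ℤ} (h : Λ.Adm m c) (ha : 1 ≤ a)
    {v : AbsoluteValue Qb ℝ} (hv : IsPl Λ.p v) {i j : Fin 5}
    (hij : v ((Λ.W m c i).τ - (Λ.W m c j).τ) = 1) {t₀ x₀ : Qb} (ht : v (t₀ - (Λ.W m c i).τ) < 1)
    (hx : (Λ.W m c j).Rel a t₀ x₀) (σ : Qb ≃ₐ[ℚ] Qb) (hσ : ∀ z, v z ≤ 1 → v (σ z - z) < 1)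
    (hx' : (Λ.W m c j).Rel a t₀ (σ x₀)) :
    σ x₀ = x₀ ∧ x₀ ≠ 0 := by
  obtain ⟨-, v1, -, v3⟩ := H1c_spec hv Λ.prime.ne_zero
  obtain ⟨u1, u2⟩ := Λ.unr v hv i j hij
  have p1 := X7a_pv Λ h.1 hv j
  have p2 := X7a_pv Λ h.2 hv j
  simp only [WP.Rel, WP.f, Algebra.algebraMap_self, RingHom.id_apply] at hx hx'
  change v (t₀ - (Λ.θ i ^ 2 + Λ.k * Λ.θ i)) < 1 at ht
  change v ((Λ.θ i ^ 2 + Λ.k * Λ.θ i) - (Λ.θ j ^ 2 + Λ.k * Λ.θ j)) = 1 at hij
  change _ * (_ + 4 * Λ.p * Λ.pv m j * _ + Λ.pv m j ^ 2) =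
    ((t₀ - (Λ.θ j ^ 2 + Λ.k * Λ.θ j))⁻¹ - Λ.pv c j) ^ 2 at hx hx'
  generalize Λ.θ i ^ 2 + Λ.k * Λ.θ i = τ at *
  generalize Λ.θ j ^ 2 + Λ.k * Λ.θ j = τ' at *
  generalize Λ.pv m j = M at *
  generalize Λ.pv c j = C at *
  rw [Int.cast_one] at p1
  have q1 : v (t₀ - τ') = 1 := by
    refine le_antisymm ?_ (not_lt.1 fun h' => ?_)
    · have := X7a_le v1 ht.le hij.le
      rwa [sub_add_sub_cancel] at this
    · rw [v.map_sub] at ht
      have := X7a_lt v1 ht h'
      rw [sub_add_sub_cancel] at this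
      exact this.ne hij
  have n1 : t₀ - τ' ≠ 0 := fun e => by
    rw [e, map_zero] at q1
    exact zero_ne_one q1
  have n2 : τ - τ' ≠ 0 := fun e => by
    rw [e, map_zero] at hij
    exact zero_ne_one hij
  have q2 : v (((t₀ - τ')⁻¹ - C) - ((τ - τ')⁻¹ - Λ.cb)) < 1 := by
    have e : ((t₀ - τ')⁻¹ - C) - ((τ - τ')⁻¹ - Λ.cb) =
        (τ - t₀) * (t₀ - τ')⁻¹ * (τ - τ')⁻¹ + (Λ.cb - C) := by
      field_simp
      ring
    rw [e]
    refine X7a_lt v1 ?_ (by rwa [v.map_sub])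
    rw [map_mul, map_mul, map_inv₀, map_inv₀, q1, hij, inv_one, mul_one, mul_one, v.map_sub]
    exact ht
  have q3 : v ((t₀ - τ')⁻¹ - C) ≤ 1 := by
    have := X7a_le v1 q2.le u1.le
    rwa [sub_add_cancel] at this
  have q4 : v M ≤ 1 := by
    have := X7a_le v1 p1.le (map_one v).le
    rwa [sub_add_cancel] at this
  have q5 : v (4 * Λ.p * M) < 1 := by
    have h4 : v 4 ≤ 1 := by
      simpa using H1c.v_int v1 (isIntegral_algebraMap (R := ℤ) (A := Qb) (x := 4))
    rw [map_mul, map_mul]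
    exact (mul_le_of_le_one_right (mul_nonneg (v.nonneg _) (v.nonneg _)) q4).trans_lt
      ((mul_le_of_le_one_left (v.nonneg _) h4).trans_lt v3)
  let A : H1c.BValA_ring v1 := ⟨_, q5.le⟩
  let M' : H1c.BValA_ring v1 := ⟨_, q4⟩
  let z : H1c.BValA_ring v1 := ⟨_, u1.le⟩
  let z₀ : H1c.BValA_ring v1 := ⟨_, q3⟩
  have r0 : v x₀ ≤ 1 := X7a_root v1 (2 * a) A (M' ^ 2) z₀ hx
  have r1 : v (σ x₀) ≤ 1 := X7a_root v1 (2 * a) A (M' ^ 2) z₀ hx'
  let y₀ : H1c.BValA_ring v1 := ⟨_, r0⟩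
  let y₁ : H1c.BValA_ring v1 := ⟨_, r1⟩
  have s1 : IsLocalRing.residue _ z₀ = IsLocalRing.residue _ z := by
    rw [← sub_eq_zero, ← map_sub]
    exact (X7a_res v1 _).2 q2
  have s2 : IsLocalRing.residue _ z ≠ 0 := fun e => ((X7a_res v1 _).1 e).ne u1
  refine ⟨by_contra fun hne => ?_, ?_⟩
  · have s3 : IsLocalRing.residue _ M' = 1 := by
      rw [← sub_eq_zero, ← map_one (IsLocalRing.residue _), ← map_sub]
      exact (X7a_res v1 _).2 p1
    have s4 : IsLocalRing.residue _ y₁ = IsLocalRing.residue _ y₀ := by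
      rw [← sub_eq_zero, ← map_sub]
      exact (X7a_res v1 _).2 (hσ _ r0)
    have := (X7a_res v1 _).1 (X7a_core (IsLocalRing.residue _) ha (A := A) (B := M' ^ 2)
      ((X7a_res v1 _).2 q5) (by rw [map_pow, s3, one_pow]) s1 s2 s4 (Subtype.ext hx)
      (Subtype.ext hx') fun e => hne (congrArg Subtype.val e))
    exact this.ne u2
  · rintro rfl
    rw [zero_pow (by omega), zero_mul] at hx
    have e : z₀ = 0 := Subtype.ext (pow_eq_zero_iff two_ne_zero |>.1 hx.symm)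
    rw [e, map_zero] at s1
    exact s2 s1.symm

end Pool.Agent.E6b

end

section
open scoped NNReal TensorProduct IntermediateField BigOperators Classical Topology
open Filter

namespace Pool.Agent.E6b
open MvPowerSeries

section aux

theorem C4_shf_neg {σ : Type} (p : σ → Qb) (F : MvPolynomial σ Qb) :
    shf (-p) (shf p F) = F := by
  unfold shf
  induction F using MvPolynomial.induction_on with
  | C a => simp
  | add P Q hP hQ => simp only [map_add, hP, hQ]
  | mul_X P i hP => simp only [map_mul, hP]; simp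

theorem C4_shf_eq_zero {σ : Type} {p : σ → Qb} {F : MvPolynomial σ Qb} (h : shf p F = 0) :
    F = 0 := by
  rw [← C4_shf_neg p F, h]
  exact map_zero _

theorem C4_aeval {σ : Type} (p : σ → Qb) (F : MvPolynomial σ Qb) :
    MvPolynomial.aeval (fun k => (C (p k) + X k : MvPowerSeries σ Qb)) F =
      (shf p F : MvPowerSeries σ Qb) := by
  unfold shf
  induction F using MvPolynomial.induction_on with
  | C a => simp [MvPowerSeries.algebraMap_apply]
  | add P Q hP hQ => simp only [map_add, hP, hQ, MvPolynomial.coe_add]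
  | mul_X P i hP =>
    simp only [map_mul, hP, MvPolynomial.coe_mul, MvPolynomial.aeval_X, MvPolynomial.coe_add,
      MvPolynomial.coe_X, MvPolynomial.coe_C]
    ring
variable {B K L : Type} [CommRing B] [IsDomain B] [Field K] [Algebra B K] [IsFractionRing B K]
  [Field L] [Algebra K L] [Algebra B L] [IsScalarTower B K L]

theorem C4_weight {σ : Type} [Fintype σ] (dd : σ → ℕ) (hd : ∀ k, 0 < dd k) :
    ∃ w : σ → ℕ, (∀ k, 0 < w k) ∧ ∀ m : σ →₀ ℕ,
      ∑ k, (m k : ℝ) / dd k = (Finsupp.weight w m : ℕ) / ∏ i, (dd i : ℝ) := by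
  refine ⟨fun k => ∏ i ∈ Finset.univ.erase k, dd i, fun k => Finset.prod_pos fun i _ => hd i,
    fun m => ?_⟩
  rw [Finsupp.weight_apply, Finsupp.sum_fintype _ _ (by simp)]
  push_cast
  rw [Finset.sum_div]
  refine Finset.sum_congr rfl fun k _ => ?_
  have h1 : (dd k : ℝ) ≠ 0 := by exact_mod_cast (hd k).ne'
  have h2 : ∏ i ∈ Finset.univ.erase k, (dd i : ℝ) ≠ 0 :=
    Finset.prod_ne_zero_iff.2 fun i _ => by exact_mod_cast (hd i).ne'
  rw [← Finset.mul_prod_erase _ (fun i => (dd i : ℝ)) (Finset.mem_univ k), smul_eq_mul]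
  push_cast
  field_simp

end aux

end Pool.Agent.E6b

end
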