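import Pool.Agent.E6c.A12
import Pool.Agent.E6c.A13
import Pool.Agent.E6c.A14

section
open scoped NNReal TensorProduct IntermediateField BigOperators Classical Topology
open Filter

namespace Pool.Agent.E6b
variable {κ F : Type} [Field κ] [IsAlgClosed κ] [CharZero κ] [Field F] [Algebra κ F] [IsFF κ F]
  (o : Place κ F) (Ω : Type) [Field Ω] [Algebra κ Ω]

instance instFaithfulFO : FaithfulSMul Ω (FO o Ω) :=
  (faithfulSMul_iff_algebraMap_injective Ω (FO o Ω)).2 (algebraMap Ω (FO o Ω)).injective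

instance instTorsionFreeFO : Module.IsTorsionFree Ω (FO o Ω) := inferInstance

instance instCharZeroFO [CharZero Ω] : CharZero (FO o Ω) :=
  charZero_of_injective_algebraMap (algebraMap Ω (FO o Ω)).injective

end Pool.Agent.E6b

end

section
open scoped NNReal TensorProduct IntermediateField BigOperators Classical Topology
open Filter

namespace Pool.Agent.E6b

section
variable {κ F : Type} [Field κ] [IsAlgClosed κ] [CharZero κ] [Field F] [Algebra κ F] [IsFF κ F]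
  (o : Place κ F) (Ω : Type) [Field Ω] [IsAlgClosed Ω] [CharZero Ω] [Algebra κ Ω]

/-- the embedding of `F` -/
noncomputable def jF (Ω : Type) [Field Ω] [Algebra κ Ω] : F → FO o Ω := fun f =>
  if h : ∃ x : FO o Ω, ∃ a s : AA o, s ≠ 0 ∧ f * s = a ∧ x * iF o Ω s = iF o Ω a then h.choose
  else 0
variable {o Ω}

/-- the place of a point -/
noncomputable def plc (y : Pt o Ω) : PO o Ω :=
  if h : ∃ P : PO o Ω, ∀ f : AO o Ω,
    algebraMap _ (FO o Ω) f ∈ P.O ∧ P.ev (algebraMap _ (FO o Ω) f) = evA y f then h.choose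
  else oo o Ω

end

section
variable {κ F : Type} [Field κ] [IsAlgClosed κ] [CharZero κ] [Field F] [Algebra κ F] [IsFF κ F]
variable {o : Place κ F} {Ω Ω' Ω'' : Type} [Field Ω] [IsAlgClosed Ω] [CharZero Ω] [Algebra κ Ω]
  [Field Ω'] [IsAlgClosed Ω'] [CharZero Ω'] [Algebra κ Ω']
  [Field Ω''] [IsAlgClosed Ω''] [CharZero Ω''] [Algebra κ Ω'']

noncomputable def BC.comp (β' : BC o Ω' Ω'') (β : BC o Ω Ω') : BC o Ω Ω'' where
  τ := β'.τ.comp β.τ
  φ := β'.φ.comp β.φ
  map_c := fun a => by simp [β.map_c, β'.map_c]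
  map_eb := fun i => by simp [β.map_eb, β'.map_eb]

/-- image of a place -/
noncomputable def BC.plc (β : BC o Ω Ω') (P : PO o Ω) : PO o Ω' :=
  if h : ∃ P' : PO o Ω', ∀ f, P'.ord (β.φ f) = P.ord f ∧ P'.ev (β.φ f) = β.τ (P.ev f) then h.choose
  else oo o Ω'

/-- image of a divisor -/
noncomputable def BC.dv (β : BC o Ω Ω') : DO o Ω →+ DO o Ω' := Finsupp.mapDomain.addMonoidHom β.plc

end

end Pool.Agent.E6b

end

section
open scoped NNReal TensorProduct IntermediateField BigOperators Classical Topology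
open Filter

namespace Pool.Agent.E6b
variable {κ F : Type} [Field κ] [IsAlgClosed κ] [CharZero κ] [Field F] [Algebra κ F] [IsFF κ F]
  {o : Place κ F} {Ω : Type} [Field Ω] [IsAlgClosed Ω] [CharZero Ω] [Algebra κ Ω]

theorem iF_injective : Function.Injective (iF o Ω) :=
  (IsFractionRing.injective (AO o Ω) (FO o Ω)).comp
    (Algebra.TensorProduct.includeRight_injective (algebraMap κ Ω).injective)

theorem O1_ord_w : (oo o Ω).ord (iF o Ω (wN o)) = - (NN o : ℤ) := (O1_ord _).trans (ord_wN o)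

theorem O1_w_notMem : iF o Ω (wN o) ∉ (oo o Ω).O := by
  rw [Place.mem_iff, O1_ord_w, NN]
  omega

theorem O1_mem {P : PO o Ω} (h : iF o Ω (wN o) ∈ P.O) (f : AO o Ω) :
    algebraMap _ (FO o Ω) f ∈ P.O := by
  have h1 : ∀ x ∈ Algebra.adjoin κ {wN o}, iF o Ω x ∈ P.O := fun x hx => by
    induction hx using Algebra.adjoin_induction with
    | mem x hx => exact Set.mem_singleton_iff.1 hx ▸ h
    | algebraMap c =>
      rw [AlgHom.commutes, IsScalarTower.algebraMap_apply κ Ω]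
      exact P.const _
    | add x y _ _ hx hy => exact map_add (iF o Ω) x y ▸ add_mem hx hy
    | mul x y _ _ hx hy => exact map_mul (iF o Ω) x y ▸ mul_mem hx hy
  induction f using TensorProduct.induction_on with
  | zero => simp
  | add a b ha hb => exact map_add (algebraMap _ (FO o Ω)) a b ▸ add_mem ha hb
  | tmul c a =>
    rw [algebraMap_tmul]
    refine mul_mem (P.const c) (F0_mem_of_integral (A := P.O) P.O (fun a => a.2) ?_)
    exact (isIntegral_wN o a).map_of_comp_eq (((iF o Ω).toRingHom.comp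
      (Algebra.adjoin κ {wN o}).val.toRingHom).codRestrict P.O fun x => h1 x x.2)
      (iF o Ω).toRingHom rfl

theorem O1_le {n : ℤ} {a : AO o Ω} : (a = 0 ∨ -n ≤ (oo o Ω).ord (algebraMap _ (FO o Ω) a)) ↔
    ∀ i, (ebO o Ω).repr a i ≠ 0 → (pn o i : ℤ) ≤ n := by
  by_cases ha : a = 0
  · simp [ha]
  obtain ⟨i, h1, h2⟩ := O1_max (ebO o Ω) ha
  rw [(exists_oo o Ω).choose_spec a i h1 h2 |> (show (oo o Ω).ord _ = _ from ·), or_iff_right ha,
    neg_le_neg_iff]
  refine ⟨fun h j hj => le_trans ?_ h, fun h => h i h1⟩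
  exact_mod_cast (ebSpec o).mono.monotone (not_lt.1 fun h => hj (h2 j h))

theorem O1_sub {m : ℕ} {a : AO o Ω} (h : ∀ i, (ebO o Ω).repr a i ≠ 0 → i < m) :
    algebraMap _ (FO o Ω) a ∈ Submodule.span Ω (Set.range fun i : Fin m => iF o Ω (eb o i)) := by
  rw [← (ebO o Ω).linearCombination_repr a, Finsupp.linearCombination_apply, Finsupp.sum, map_sum]
  refine sum_mem fun i hi => ?_
  refine (map_smul (IsScalarTower.toAlgHom Ω (AO o Ω) (FO o Ω)) _ _).symm ▸ ?_
  exact Submodule.smul_mem _ _ (Submodule.subset_span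
    ⟨⟨i, h i (Finsupp.mem_support_iff.1 hi)⟩, (algebraMap_ebO i).symm⟩)

theorem O1_key {P : PO o Ω} (hP : P ≠ oo o Ω) : iF o Ω (wN o) ∈ P.O := by
  by_contra h
  set D := dinf Ω (iF o Ω (wN o)) with hD
  set m := genus Ω (FO o Ω) + 1 with hm
  have h1 : (NN o : ℤ) • pd (oo o Ω) + pd P ≤ D := fun Q => by
    rw [hD, dinf_apply]
    by_cases h1 : Q = oo o Ω
    · simp [h1, hP, F1_pd_apply, O1_ord_w]
    by_cases h2 : Q = P
    · rw [Place.mem_iff] at h
      simp only [h2, Finsupp.add_apply, Finsupp.smul_apply, F1_pd_apply, if_neg hP.symm, if_true,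
        smul_zero]
      omega
    · simp [F1_pd_apply, Ne.symm h1, Ne.symm h2]
  have h2 := deg_mono h1
  have h3 := riemann (m • D)
  have h4 : ell (m • D) ≤ m * NN o + 1 := by
    have := FiniteDimensional.span_of_finite Ω
      (Set.finite_range fun i : Fin (m * NN o + 1) => iF o Ω (eb o i))
    refine le_trans (Submodule.finrank_mono (t := Submodule.span Ω
      (Set.range fun i : Fin (m * NN o + 1) => iF o Ω (eb o i))) fun f hf => ?_)
      ((finrank_range_le_card _).trans (Fintype.card_fin _).le)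
    rcases mem_LL.1 hf with rfl | hf
    · exact zero_mem _
    obtain ⟨a, rfl⟩ := O1_range (f := f) fun Q hQ => Q.mem_iff.2 (by
      simpa [hD, dinf_apply, Q.mem_iff.1 hQ] using hf Q)
    refine O1_sub fun i hi => ?_
    have h5 := (O1_le (n := m * NN o)).1 (Or.inr (by
      simpa [hD, dinf_apply, O1_ord_w] using hf (oo o Ω))) i hi
    have h6 := (ebSpec o).mono.le_apply (x := i)
    omega
  rw [deg_add, deg_zsmul, deg_pd, deg_pd] at h2
  rw [deg_nsmul] at h3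
  have h5 : (m : ℤ) * (NN o * 1 + 1) ≤ m * deg D := mul_le_mul_of_nonneg_left h2 (by positivity)
  zify at h4
  have h6 : (m : ℤ) = genus Ω (FO o Ω) + 1 := by exact_mod_cast hm
  linarith

theorem O1_iff {f : FO o Ω} :
    f ∈ (algebraMap (AO o Ω) (FO o Ω)).range ↔ ∀ P : PO o Ω, P ≠ oo o Ω → f ∈ P.O :=
  ⟨fun ⟨a, ha⟩ _ hP => ha ▸ O1_mem (O1_key hP) a,
    fun h => O1_range fun P hP => h P fun e => O1_w_notMem (e ▸ hP)⟩

theorem O1_div {P : PO o Ω} (hP : P ≠ oo o Ω) {f : FO o Ω} (hf : f ∈ P.O) :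
    ∃ a s : AO o Ω, P.ev (algebraMap _ (FO o Ω) s) ≠ 0 ∧
      f * algebraMap _ (FO o Ω) s = algebraMap _ (FO o Ω) a := by
  obtain ⟨a, s, h1, h2⟩ := exists_div_AA (oo o Ω) hP hf
  obtain ⟨a', ha⟩ := O1_iff.2 a.2
  obtain ⟨s', hs⟩ := O1_iff.2 s.2
  exact ⟨a', s', hs ▸ h1, by rw [ha, hs, h2]⟩

theorem O1_uniq {P Q : PO o Ω} (hP : P ≠ oo o Ω) (hQ : Q ≠ oo o Ω)
    (h : ∀ a : AA o, P.ev (iF o Ω a) = Q.ev (iF o Ω a)) : P = Q := by
  have hp := O1_mem (O1_key hP)
  have hq := O1_mem (O1_key hQ)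
  have h1 : ∀ f : AO o Ω, P.ev (algebraMap _ (FO o Ω) f) = Q.ev (algebraMap _ (FO o Ω) f) := by
    intro f
    induction f using TensorProduct.induction_on with
    | zero => rw [map_zero, F1a_ev_zero, F1a_ev_zero]
    | add a b ha hb => rw [map_add, P.ev_add (hp a) (hp b), Q.ev_add (hq a) (hq b), ha, hb]
    | tmul c a =>
      rw [algebraMap_tmul, ← O1_iF, P.ev_mul (P.const c) (hp _), Q.ev_mul (Q.const c) (hq _),
        P.ev_algebraMap, Q.ev_algebraMap, O1_iF, h]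
  refine Place.eq_of_le fun f hf => ?_
  obtain ⟨a, s, h2, h3⟩ := O1_div hP hf
  rw [eq_div_of_mul_eq (fun h => h2 (by rw [h, F1a_ev_zero])) h3]
  exact (Q.ev_div (hq a) (hq s) (h1 s ▸ h2)).1

variable (o Ω) in
/-- the embedding of the function field -/
noncomputable def O1_j : F →ₐ[κ] FO o Ω := IsFractionRing.liftAlgHom (iF_injective (o := o))

theorem O1_phi (a : AA o) : O1_j o Ω (a : F) = iF o Ω a :=
  IsFractionRing.lift_algebraMap (iF_injective (o := o)) a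

theorem O1_jF (f : F) : O1_j o Ω f = jF o Ω f := by
  have h0 : ∀ a s : AA o, f * s = a → O1_j o Ω f * iF o Ω s = iF o Ω a := fun a s h => by
    rw [← O1_phi, ← O1_phi, ← map_mul, h]
  have h : ∃ x : FO o Ω, ∃ a s : AA o, s ≠ 0 ∧ f * s = a ∧ x * iF o Ω s = iF o Ω a := by
    obtain ⟨a, s, hs, e⟩ := IsFractionRing.div_surjective (AA o) f
    have hs' := nonZeroDivisors.ne_zero hs
    have e' : f * s = a := e ▸ div_mul_cancel₀ (a : F) (by simpa using hs')
    exact ⟨_, a, s, hs', e', h0 a s e'⟩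
  rw [jF, dif_pos h]
  obtain ⟨a, s, h1, h2, h3⟩ := h.choose_spec
  exact mul_right_cancel₀ ((map_ne_zero_iff _ iF_injective).2 h1) ((h0 a s h2).trans h3.symm)

theorem iF_wN_notMem : iF o Ω (wN o) ∉ (algebraMap Ω (FO o Ω)).range := by
  rintro ⟨c, hc⟩
  have h := O1_ord_w (o := o) (Ω := Ω)
  rw [← hc, Place.ord_algebraMap, NN] at h
  omega

theorem oo_ord {f : AO o Ω} {i : ℕ} (hi : (ebO o Ω).repr f i ≠ 0)
    (h : ∀ j, i < j → (ebO o Ω).repr f j = 0) :
    (oo o Ω).ord (algebraMap _ (FO o Ω) f) = - (pn o i : ℤ) :=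
  (exists_oo o Ω).choose_spec f i hi h

theorem plc_spec (y : Pt o Ω) (f : AO o Ω) : algebraMap _ (FO o Ω) f ∈ (plc y).O ∧
    (plc y).ev (algebraMap _ (FO o Ω) f) = evA y f := by
  have h : ∃ P : PO o Ω, ∀ f : AO o Ω,
      algebraMap _ (FO o Ω) f ∈ P.O ∧ P.ev (algebraMap _ (FO o Ω) f) = evA y f := by
    obtain ⟨P, hP⟩ := exists_place_of_algHom (O1_B o Ω) ⟨_, ⟨1 ⊗ₜ wN o, rfl⟩, iF_wN_notMem⟩
      ((evA y).comp (O1_e o Ω).symm.toAlgHom)
    exact ⟨P, fun f => by simpa using hP (O1_e o Ω f)⟩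
  rw [plc, dif_pos h]
  exact h.choose_spec f

theorem plc_iF (y : Pt o Ω) (a : AA o) : iF o Ω a ∈ (plc y).O ∧ (plc y).ev (iF o Ω a) = y a := by
  simpa [O1_iF, evA_tmul] using plc_spec y (1 ⊗ₜ a)

theorem plc_ne_oo (y : Pt o Ω) : plc y ≠ oo o Ω := fun h =>
  O1_w_notMem (h ▸ (plc_iF y (wN o)).1)

theorem plc_injective : Function.Injective (plc : Pt o Ω → PO o Ω) := fun y y' h =>
  AlgHom.ext fun a => by rw [← (plc_iF y a).2, h, (plc_iF y' a).2]

theorem eq_oo_or_plc (P : PO o Ω) : P = oo o Ω ∨ ∃ y, plc y = P := by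
  refine or_iff_not_imp_left.2 fun hP => ?_
  have h : ∀ a, iF o Ω a ∈ P.O := fun a => O1_mem (O1_key hP) (1 ⊗ₜ a)
  have hc : ∀ c : κ, P.ev (iF o Ω (algebraMap κ _ c)) = algebraMap κ Ω c := fun c => by
    rw [AlgHom.commutes, IsScalarTower.algebraMap_apply κ Ω, P.ev_algebraMap]
  let y : Pt o Ω :=
    { toFun := fun a => P.ev (iF o Ω a)
      map_one' := by simpa using hc 1
      map_mul' := fun a b => by rw [map_mul, P.ev_mul (h a) (h b)]
      map_zero' := by simpa using hc 0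
      map_add' := fun a b => by rw [map_add, P.ev_add (h a) (h b)]
      commutes' := hc }
  exact ⟨y, O1_uniq (plc_ne_oo y) hP fun a => (plc_iF y a).2⟩

theorem mem_range_iff {f : FO o Ω} :
    f ∈ (algebraMap (AO o Ω) (FO o Ω)).range ↔ ∀ P : PO o Ω, P ≠ oo o Ω → f ∈ P.O := O1_iff

theorem exists_div_plc (y : Pt o Ω) {f : FO o Ω} (hf : f ∈ (plc y).O) :
    ∃ a s : AO o Ω, evA y s ≠ 0 ∧ f * algebraMap _ (FO o Ω) s = algebraMap _ (FO o Ω) a := by
  obtain ⟨a, s, h1, h2⟩ := O1_div (plc_ne_oo y) hf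
  exact ⟨a, s, (plc_spec y s).2 ▸ h1, h2⟩

end Pool.Agent.E6b

end

section
open scoped NNReal TensorProduct IntermediateField BigOperators Classical Topology
open Filter

namespace Pool.Agent.E6b
variable {κ F : Type} [Field κ] [IsAlgClosed κ] [CharZero κ] [Field F] [Algebra κ F] [IsFF κ F]
  {o : Place κ F} {Ω Ω' : Type} [Field Ω] [Algebra κ Ω] [Field Ω'] [Algebra κ Ω']

/-- the coordinates are mapped by `τ` -/
noncomputable def O2_map (o : Place κ F) (τ : Ω →+* Ω') : AO o Ω →+ AO o Ω' :=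
  ((ebO o Ω').repr.symm.toLinearMap.toAddMonoidHom.comp
    (Finsupp.mapRange.addMonoidHom τ.toAddMonoidHom)).comp
      (ebO o Ω).repr.toLinearMap.toAddMonoidHom

theorem O2_map_repr (τ : Ω →+* Ω') (a : AO o Ω) (i : ℕ) :
    (ebO o Ω').repr (O2_map o τ a) i = τ ((ebO o Ω).repr a i) := by
  simp [O2_map]

theorem O2_map_smul (τ : Ω →+* Ω') (c : Ω) (a : AO o Ω) :
    O2_map o τ (c • a) = τ c • O2_map o τ a :=
  O2_ext fun i => by simp [O2_map_repr]

theorem O2_map_eb (τ : Ω →+* Ω') (i : ℕ) : O2_map o τ (ebO o Ω i) = ebO o Ω' i :=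
  O2_ext fun j => by
    rw [O2_map_repr, Module.Basis.repr_self, Module.Basis.repr_self, Finsupp.single_apply,
      Finsupp.single_apply]
    split_ifs <;> simp

theorem O2_map_one (τ : Ω →+* Ω') : O2_map o τ 1 = 1 := by
  rw [← O2_ebO_zero, O2_map_eb, O2_ebO_zero]

theorem O2_alg_inj : Function.Injective (algebraMap (AO o Ω) (FO o Ω)) :=
  IsFractionRing.injective _ _

theorem O2_alg_smul (c : Ω) (a : AO o Ω) :
    algebraMap _ (FO o Ω) (c • a) = algebraMap Ω (FO o Ω) c * algebraMap _ (FO o Ω) a := by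
  rw [O2_smul_def, map_mul, ← IsScalarTower.algebraMap_apply]

theorem O2_iF (a : AA o) : iF o Ω a = algebraMap (AO o Ω) (FO o Ω) (1 ⊗ₜ[κ] a) := rfl

theorem O2_pt_of_lin (X : AO o Ω →ₗ[Ω] Ω) (h1 : X 1 = 1) (hmul : ∀ a b, X (a * b) = X a * X b) :
    ∃ y : Pt o Ω, ∀ a, evA y a = X a := by
  let Y : AO o Ω →ₐ[Ω] Ω := AlgHom.ofLinearMap X h1 hmul
  refine ⟨(Y.restrictScalars κ).comp Algebra.TensorProduct.includeRight, fun a => ?_⟩
  have h : (evA ((Y.restrictScalars κ).comp Algebra.TensorProduct.includeRight)).toLinearMap = X := by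
    refine (ebO o Ω).ext fun i => ?_
    rw [O2_ebO, AlgHom.toLinearMap_apply, evA, Algebra.TensorProduct.lift_tmul, map_one, one_mul]
    rfl
  exact LinearMap.congr_fun h a

namespace BC
variable (β : BC o Ω Ω')

theorem O2_phi (a : AO o Ω) :
    β.φ (algebraMap _ (FO o Ω) a) = algebraMap _ (FO o Ω') (O2_map o β.τ a) := by
  refine O2_ind (ebO o Ω)
    (Q := fun a => β.φ (algebraMap _ (FO o Ω) a) = algebraMap _ (FO o Ω') (O2_map o β.τ a))
    (by simp) (fun x y hx hy => by simp only [map_add, hx, hy]) (fun c i => ?_) a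
  show β.φ (algebraMap _ (FO o Ω) (c • ebO o Ω i)) =
    algebraMap _ (FO o Ω') (O2_map o β.τ (c • ebO o Ω i))
  rw [O2_map_smul, O2_map_eb, O2_alg_smul, O2_alg_smul, map_mul, β.map_c, O2_ebO, O2_ebO, ← O2_iF,
    ← O2_iF, β.map_eb]

theorem O2_mul (a a' : AO o Ω) : O2_map o β.τ (a * a') = O2_map o β.τ a * O2_map o β.τ a' :=
  O2_alg_inj (by
    rw [map_mul (algebraMap _ (FO o Ω')), ← β.O2_phi, ← β.O2_phi, ← β.O2_phi, map_mul, map_mul])

theorem O2_exists_pt (y : Pt o Ω) :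
    ∃ y' : Pt o Ω', ∀ a, evA y' (O2_map o β.τ a) = β.τ (evA y a) := by
  let Y : AO o Ω' →ₗ[Ω'] Ω' := (ebO o Ω').constr Ω' fun i => β.τ (y (eb o i))
  have hY : ∀ i, Y (ebO o Ω' i) = β.τ (y (eb o i)) := fun i => (ebO o Ω').constr_basis _ _ i
  have h1 : ∀ a, Y (O2_map o β.τ a) = β.τ (evA y a) := fun a =>
    O2_ind (ebO o Ω) (Q := fun a => Y (O2_map o β.τ a) = β.τ (evA y a)) (by simp)
      (fun x y hx hy => by simp only [map_add, hx, hy])
      (fun c i => by
        show Y (O2_map o β.τ (c • ebO o Ω i)) = β.τ (evA y (c • ebO o Ω i))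
        rw [O2_map_smul, O2_map_eb, map_smul, map_smul, hY, O2_evA_ebO, smul_eq_mul, smul_eq_mul,
          map_mul]) a
  obtain ⟨y', hy'⟩ := O2_pt_of_lin Y (by rw [← O2_map_one β.τ, h1, map_one, map_one])
    (O2_mul_of_basis Y.toAddMonoidHom id (fun _ _ => rfl) (fun c a => Y.map_smul c a) fun i j => by
      show Y _ = Y _ * Y _
      rw [← O2_map_eb β.τ, ← O2_map_eb β.τ, ← β.O2_mul, h1, h1, h1, map_mul, map_mul])
  exact ⟨y', fun a => by rw [hy', h1]⟩

end BC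

end Pool.Agent.E6b

end

section
open scoped NNReal TensorProduct IntermediateField BigOperators Classical Topology
open Filter

namespace Pool.Agent.E6b
variable {κ F : Type} [Field κ] [IsAlgClosed κ] [CharZero κ] [Field F] [Algebra κ F] [IsFF κ F]
  {o : Place κ F} {Ω Ω' : Type} [Field Ω] [IsAlgClosed Ω] [CharZero Ω] [Algebra κ Ω]
  [Field Ω'] [IsAlgClosed Ω'] [CharZero Ω'] [Algebra κ Ω']

namespace BC
variable (β : BC o Ω Ω')

theorem O2_ev {P : PO o Ω} {P' : PO o Ω'} (h : ∀ f, P'.ord (β.φ f) = P.ord f) (f : FO o Ω) :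
    P'.ev (β.φ f) = β.τ (P.ev f) := by
  by_cases hf : f ∈ P.O
  · refine P'.ev_eq ?_
    rw [← β.map_c, ← map_sub, h]
    exact (P.ev_spec hf).imp (fun h1 => congrArg β.φ h1) id
  · rw [O2_ev_notMem P hf, map_zero, O2_ev_notMem]
    rwa [P'.mem_iff, h, ← P.mem_iff]

omit [IsAlgClosed Ω] [CharZero Ω] in
theorem O2_frac {P' : PO o Ω'} {v : FO o Ω → ℤ} (h0 : v 0 = 0)
    (hv : ∀ f g, f ≠ 0 → g ≠ 0 → v (f / g) = v f - v g)
    (h : ∀ a : AO o Ω, P'.ord (β.φ (algebraMap _ _ a)) = v (algebraMap _ _ a)) (f : FO o Ω) :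
    P'.ord (β.φ f) = v f := by
  by_cases hf : f = 0
  · rw [hf, map_zero, P'.ord_zero, h0]
  obtain ⟨a, s, hs, rfl⟩ := IsFractionRing.div_surjective (AO o Ω) f
  have ha0 := (div_ne_zero_iff.1 hf).1
  have hs0 := (div_ne_zero_iff.1 hf).2
  rw [map_div₀, P'.ord_div ((map_ne_zero β.φ).2 ha0) ((map_ne_zero β.φ).2 hs0), h, h,
    hv _ _ ha0 hs0]

theorem O2_oo (a : AO o Ω) :
    (oo o Ω').ord (β.φ (algebraMap _ _ a)) = (oo o Ω).ord (algebraMap _ _ a) := by
  by_cases ha : a = 0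
  · rw [ha, map_zero, map_zero, Place.ord_zero, Place.ord_zero]
  have h1 : ((ebO o Ω).repr a).support.Nonempty :=
    Finsupp.support_nonempty_iff.2 fun h => ha ((ebO o Ω).repr.map_eq_zero_iff.1 h)
  have h2 := Finsupp.mem_support_iff.1 (Finset.max'_mem _ h1)
  have h3 : ∀ j, ((ebO o Ω).repr a).support.max' h1 < j → (ebO o Ω).repr a j = 0 := fun j hj =>
    by_contra fun h => absurd (Finset.le_max' _ _ (Finsupp.mem_support_iff.2 h)) (not_le.2 hj)
  rw [β.O2_phi, oo_ord h2 h3, oo_ord (i := ((ebO o Ω).repr a).support.max' h1)]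
  · rw [O2_map_repr]; exact (map_ne_zero β.τ).2 h2
  · intro j hj; rw [O2_map_repr, h3 j hj, map_zero]

theorem O2_mem {y : Pt o Ω} {y' : Pt o Ω'} (h : ∀ a, evA y' (O2_map o β.τ a) = β.τ (evA y a))
    {f : FO o Ω} (hf : f ∈ (E6b.plc y).O) :
    β.φ f ∈ (E6b.plc y').O ∧ (E6b.plc y').ev (β.φ f) = β.τ ((E6b.plc y).ev f) := by
  obtain ⟨a, s, hs, hfs⟩ := exists_div_plc y hf
  have h1 := plc_spec y' (O2_map o β.τ a)
  have h2 := plc_spec y' (O2_map o β.τ s)
  have h3 := plc_spec y a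
  have h4 := plc_spec y s
  have hs0 : algebraMap _ (FO o Ω) s ≠ 0 := fun h0 => hs (by rw [← h4.2, h0, F1a_ev_zero])
  have h5 : (E6b.plc y').ev (algebraMap _ (FO o Ω') (O2_map o β.τ s)) ≠ 0 := by
    rw [h2.2, h]; exact (map_ne_zero β.τ).2 hs
  have h6 := (E6b.plc y').ev_div h1.1 h2.1 h5
  have h7 := (E6b.plc y).ev_div h3.1 h4.1 (by rw [h4.2]; exact hs)
  rw [eq_div_of_mul_eq hs0 hfs, map_div₀, β.O2_phi, β.O2_phi]
  refine ⟨h6.1, ?_⟩
  rw [h6.2, h7.2, h1.2, h2.2, h3.2, h4.2, h, h, map_div₀]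

theorem O2_le {y : Pt o Ω} {y' : Pt o Ω'} (h : ∀ a, evA y' (O2_map o β.τ a) = β.τ (evA y a))
    {f : FO o Ω} (hf : f ∈ (E6b.plc y).O) : (E6b.plc y).ord f ≤ (E6b.plc y').ord (β.φ f) := by
  by_cases hf0 : f = 0
  · rw [hf0, map_zero, Place.ord_zero, Place.ord_zero]
  obtain ⟨π, hπ0, hπ⟩ := (E6b.plc y).exists_ord_eq 1
  have hπm : π ∈ (E6b.plc y).O := (E6b.plc y).mem_iff.2 (by rw [hπ]; norm_num)
  have h1 := β.O2_mem h hπm
  rw [((E6b.plc y).ev_eq_zero_iff hπm).2 (Or.inr (by rw [hπ]; norm_num)), map_zero] at h1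
  have h2 := (((E6b.plc y').ev_eq_zero_iff h1.1).1 h1.2).resolve_left ((map_ne_zero β.φ).2 hπ0)
  have hn := (E6b.plc y).mem_iff.1 hf
  have h3 : f / π ^ (E6b.plc y).ord f ∈ (E6b.plc y).O := by
    rw [Place.mem_iff, Place.ord_div _ hf0 (zpow_ne_zero _ hπ0), Place.ord_zpow, hπ, mul_one,
      sub_self]
  have h4 := (E6b.plc y').mem_iff.1 (β.O2_mem h h3).1
  rw [map_div₀, map_zpow₀, Place.ord_div _ ((map_ne_zero β.φ).2 hf0)
    (zpow_ne_zero _ ((map_ne_zero β.φ).2 hπ0)), Place.ord_zpow] at h4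
  nlinarith

theorem O2_exists_g : ∃ g : PO o Ω → PO o Ω', g (oo o Ω) = oo o Ω' ∧
    (∀ y, ∃ y', g (E6b.plc y) = E6b.plc y' ∧ ∀ i, y' (eb o i) = β.τ (y (eb o i))) ∧
    (∀ P f, (g P).ord (β.φ f) = P.ord f) ∧ ∀ P' ∉ Set.range g, ∀ f, P'.ord (β.φ f) = 0 := by
  choose Y hY using β.O2_exists_pt
  have hYe : ∀ y i, Y y (eb o i) = β.τ (y (eb o i)) := fun y i => by
    rw [← O2_evA_ebO, ← O2_evA_ebO, ← hY, O2_map_eb]
  obtain ⟨g, hoo, hplc⟩ : ∃ g : PO o Ω → PO o Ω', g (oo o Ω) = oo o Ω' ∧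
      ∀ y, g (E6b.plc y) = E6b.plc (Y y) := by
    refine ⟨fun P => if h : ∃ y, E6b.plc y = P then E6b.plc (Y h.choose) else oo o Ω', ?_,
      fun y => ?_⟩
    · exact dif_neg fun ⟨y, hy⟩ => plc_ne_oo y hy
    · have h : ∃ y', E6b.plc y' = E6b.plc y := ⟨y, rfl⟩
      exact (dif_pos h).trans (by rw [E6b.plc_injective h.choose_spec])
  have hinj : Function.Injective g := by
    intro P Q hPQ
    rcases eq_oo_or_plc P with rfl | ⟨y, rfl⟩ <;> rcases eq_oo_or_plc Q with rfl | ⟨z, rfl⟩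
    · rfl
    · rw [hoo, hplc] at hPQ; exact absurd hPQ.symm (plc_ne_oo _)
    · rw [hoo, hplc] at hPQ; exact absurd hPQ (plc_ne_oo _)
    · rw [hplc, hplc] at hPQ
      have h1 := E6b.plc_injective hPQ
      refine congrArg _ (pt_ext o (funext fun i => β.τ.injective ?_))
      rw [cd, cd, ← hYe, ← hYe, h1]
  have hmain : ∀ a : AO o Ω, (E6b.dv Ω (algebraMap _ (FO o Ω) a)).mapDomain g =
      E6b.dv Ω' (β.φ (algebraMap _ (FO o Ω) a)) := by
    intro a
    refine eq_of_le_of_deg_le (fun P' => ?_) ?_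
    · rw [E6b.dv_apply]
      by_cases hP : P' ∈ Set.range g
      · obtain ⟨P, rfl⟩ := hP
        rw [Finsupp.mapDomain_apply hinj, E6b.dv_apply]
        rcases eq_oo_or_plc P with rfl | ⟨y, rfl⟩
        · rw [hoo, β.O2_oo]
        · rw [hplc]
          exact β.O2_le (hY y) (plc_spec y a).1
      · rw [Finsupp.mapDomain_of_notMem_range _ _ hP, ← Place.mem_iff, β.O2_phi]
        exact mem_range_iff.1 ⟨_, rfl⟩ P' fun h => hP ⟨_, hoo.trans h.symm⟩
    · rw [E6b.deg_dv, deg, O2_deg_map]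
      exact (E6b.deg_dv _).ge
  refine ⟨g, hoo, fun y => ⟨Y y, hplc y, hYe y⟩, fun P f => ?_, fun P' hP f => ?_⟩
  · refine β.O2_frac P.ord_zero (fun f g hf hg => P.ord_div hf hg) (fun a => ?_) f
    rw [← E6b.dv_apply, ← hmain, Finsupp.mapDomain_apply hinj, E6b.dv_apply]
  · refine β.O2_frac (v := fun _ => 0) rfl (fun _ _ _ _ => rfl) (fun a => ?_) f
    rw [← E6b.dv_apply, ← hmain, Finsupp.mapDomain_of_notMem_range _ _ hP]

end BC

end Pool.Agent.E6b

end

section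
open scoped NNReal TensorProduct IntermediateField BigOperators Classical Topology
open Filter

namespace Pool.Agent.E6b
variable {κ F : Type} [Field κ] [IsAlgClosed κ] [CharZero κ] [Field F] [Algebra κ F] [IsFF κ F]
  {o : Place κ F} {Ω : Type} [Field Ω] [IsAlgClosed Ω] [CharZero Ω] [Algebra κ Ω] (O : VS κ Ω)

theorem exists_gv (o : Place κ F) : ∃ w : Valuation (FO o Ω) O.1.ValueGroup,
    ∀ f : AO o Ω, w (algebraMap _ (FO o Ω) f) = gvA O f :=
  ⟨(L1_v o O).extendToLocalization (S := nonZeroDivisors (AO o Ω))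
    (fun _ hf => L1_ne O (nonZeroDivisors.ne_zero hf)) (FO o Ω),
    fun f => Valuation.extendToLocalization_apply_map_apply _ _ _ f⟩

/-- Gauss valuation -/
noncomputable def gv (o : Place κ F) : Valuation (FO o Ω) O.1.ValueGroup := (exists_gv O o).choose

theorem gv_AO (f : AO o Ω) : gv O o (algebraMap _ (FO o Ω) f) = gvA O f :=
  (exists_gv O o).choose_spec f

theorem L1_rep {f : FO o Ω} (hf : gv O o f ≤ 1) : ∃ a b : AO o Ω, gvA O a ≤ 1 ∧ gvA O b = 1 ∧
    f = algebraMap _ _ a / algebraMap _ _ b := by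
  obtain ⟨a, b, hb, rfl⟩ := IsFractionRing.div_surjective (AO o Ω) f
  obtain ⟨c, b, h1, rfl⟩ := L1_norm O (nonZeroDivisors.ne_zero hb)
  have e : algebraMap _ (FO o Ω) a / algebraMap _ (FO o Ω) (c • b) =
      algebraMap _ (FO o Ω) (c⁻¹ • a) / algebraMap _ (FO o Ω) b := by
    rw [L1_alg, L1_alg, map_inv₀, div_mul_eq_div_div, div_eq_inv_mul (algebraMap _ _ a)]
  rw [e, map_div₀, gv_AO, gv_AO, h1, div_one] at hf
  exact ⟨_, b, hf, h1, e⟩

theorem exists_gr (o : Place κ F) : ∃ r : FO o Ω → FO o (RF O),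
    (∀ f g, gv O o f ≤ 1 → gv O o g ≤ 1 → r (f + g) = r f + r g ∧ r (f * g) = r f * r g) ∧
    (∀ f, gv O o f ≤ 1 → (r f = 0 ↔ gv O o f < 1)) ∧
    ∀ a : AO o Ω, gvA O a ≤ 1 →
      r (algebraMap _ (FO o Ω) a) = algebraMap _ (FO o (RF O)) (redA O a) := by
  have hne : ∀ {b : AO o Ω}, gvA O b = 1 → algebraMap _ (FO o Ω) b ≠ 0 ∧
      algebraMap _ (FO o (RF O)) (redA O b) ≠ 0 := fun {b} hb =>
    ⟨fun h => by simpa [h, hb] using gv_AO O b,
      (map_ne_zero_iff _ (IsFractionRing.injective _ _)).2 ((L1_red1 O hb.le).2 hb)⟩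
  have H : ∀ f : FO o Ω, ∃ y : FO o (RF O), ∀ a b : AO o Ω, gvA O a ≤ 1 → gvA O b = 1 →
      f = algebraMap _ _ a / algebraMap _ _ b →
        y = algebraMap _ _ (redA O a) / algebraMap _ _ (redA O b) := fun f => by
    by_cases h : gv O o f ≤ 1
    · obtain ⟨a, b, ha, hb, rfl⟩ := L1_rep O h
      refine ⟨algebraMap _ _ (redA O a) / algebraMap _ _ (redA O b), fun a' b' ha' hb' e => ?_⟩
      rw [div_eq_div_iff (hne hb).1 (hne hb').1, ← map_mul, ← map_mul,
        (IsFractionRing.injective _ _).eq_iff] at e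
      rw [div_eq_div_iff (hne hb).2 (hne hb').2, ← map_mul, ← map_mul, ← (L1_mul O ha hb'.le).2,
        ← (L1_mul O ha' hb.le).2, e]
    · exact ⟨0, fun a b ha hb e => absurd (by rwa [e, map_div₀, gv_AO, gv_AO, hb, div_one]) h⟩
  choose r hr using H
  refine ⟨r, fun f g hf hg => ?_, fun f hf => ?_, fun a ha => ?_⟩
  · obtain ⟨a, b, ha, hb, rfl⟩ := L1_rep O hf
    obtain ⟨c, d, hc, hd, rfl⟩ := L1_rep O hg
    obtain ⟨p1, p2⟩ := L1_mul O ha hd.le
    obtain ⟨q1, q2⟩ := L1_mul O hb.le hc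
    rw [hr _ a b ha hb rfl, hr _ c d hc hd rfl,
      hr _ (a * d + b * c) (b * d) (L1_add O p1 q1).1 (L1_mul1 O hb hd)
        (by rw [div_add_div _ _ (hne hb).1 (hne hd).1, map_add, map_mul, map_mul, map_mul]),
      hr _ (a * c) (b * d) (L1_mul O ha hc).1 (L1_mul1 O hb hd)
        (by rw [div_mul_div_comm, map_mul, map_mul]),
      (L1_add O p1 q1).2, p2, q2, (L1_mul O ha hc).2, (L1_mul O hb.le hd.le).2,
      div_add_div _ _ (hne hb).2 (hne hd).2, div_mul_div_comm]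
    simp only [map_add, map_mul, and_self]
  · obtain ⟨a, b, ha, hb, rfl⟩ := L1_rep O hf
    rw [hr _ a b ha hb rfl, div_eq_zero_iff, or_iff_left (hne hb).2,
      map_eq_zero_iff _ (IsFractionRing.injective _ _), L1_red0 O ha, map_div₀, gv_AO, gv_AO, hb,
      div_one]
  · rw [hr _ a 1 ha (L1_one O).1 (by simp), (L1_one O).2, map_one, div_one]

/-- residue for the Gauss valuation -/
noncomputable def gr (f : FO o Ω) : FO o (RF O) := (exists_gr O o).choose f

theorem gr_add {f g : FO o Ω} (hf : gv O o f ≤ 1) (hg : gv O o g ≤ 1) :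
    gr O (f + g) = gr O f + gr O g := ((exists_gr O o).choose_spec.1 f g hf hg).1

theorem gr_mul {f g : FO o Ω} (hf : gv O o f ≤ 1) (hg : gv O o g ≤ 1) :
    gr O (f * g) = gr O f * gr O g := ((exists_gr O o).choose_spec.1 f g hf hg).2

theorem gr_eq_zero_iff {f : FO o Ω} (hf : gv O o f ≤ 1) : gr O f = 0 ↔ gv O o f < 1 :=
  (exists_gr O o).choose_spec.2.1 f hf

theorem gr_AO {a : AO o Ω} (ha : gvA O a ≤ 1) :
    gr O (algebraMap _ (FO o Ω) a) = algebraMap _ (FO o (RF O)) (redA O a) :=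
  (exists_gr O o).choose_spec.2.2 a ha

theorem gr_zero : gr O (0 : FO o Ω) = 0 :=
  (gr_eq_zero_iff O (by simp)).2 (by simp)

end Pool.Agent.E6b

end

section
open scoped NNReal TensorProduct IntermediateField BigOperators Classical Topology
open Filter

namespace Pool.Agent.E6b

section
variable {κ F : Type} [Field κ] [IsAlgClosed κ] [CharZero κ] [Field F] [Algebra κ F] [IsFF κ F]
  {o : Place κ F} {Ω : Type} [Field Ω] [IsAlgClosed Ω] [CharZero Ω] [Algebra κ Ω] (O : VS κ Ω)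

/-- reduction of places -/
noncomputable def red (P : PO o Ω) : PO o (RF O) :=
  if h : ∃ y, Intg O y ∧ plc y = P then plc (redp O h.choose h.choose_spec.1) else oo o (RF O)

/-- distance of two places -/
noncomputable def ds (P Q : PO o Ω) : O.1.ValueGroup :=
  if red O P ≠ red O Q then 1
  else if red O P = oo o (RF O) then
    O.1.valuation (P.ev (jF o Ω (zo o)) - Q.ev (jF o Ω (zo o)))
  else vs O.1 fun i : Fin (MM o) => P.ev (iF o Ω (eb o i)) - Q.ev (iF o Ω (eb o i))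

/-- a local ring of the constant model at a place of the special fibre -/
structure Chart (p : PO o (RF O)) where
  R : Subring (FO o Ω)
  t : FO o Ω
  t_mem : t ∈ R
  const : ∀ c ∈ O.1, algebraMap Ω (FO o Ω) c ∈ R
  fin : p ≠ oo o (RF O) → ∀ a : AA o, iF o Ω a ∈ R
  inf : p = oo o (RF O) → t = jF o Ω (zo o) ∧ ∀ f ∈ o.O, jF o Ω f ∈ R
  gv_le : ∀ f ∈ R, gv O o f ≤ 1 ∧ gr O f ∈ p.O
  ev : ∀ P, red O P = p → ∀ f ∈ R, f ∈ P.O ∧ P.ev f ∈ O.1 ∧ rs O (P.ev f) = p.ev (gr O f)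
  div : ∀ P, red O P = p → ∀ f ∈ R, P.ev f = 0 →
    ∃ f' ∈ R, f = (t - algebraMap Ω (FO o Ω) (P.ev t)) * f'
  ord : ∀ P, red O P = p → P.ord (t - algebraMap Ω (FO o Ω) (P.ev t)) = 1
  ord_red : p.ord (gr O t - algebraMap (RF O) (FO o (RF O)) (p.ev (gr O t))) = 1
  ds_eq : ∀ P Q, red O P = p → red O Q = p → ds O P Q = O.1.valuation (P.ev t - Q.ev t)

end

end Pool.Agent.E6b

end

section
open scoped NNReal TensorProduct IntermediateField BigOperators Classical Topology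
open Filter

namespace Pool.Agent.E6b

section General
variable {K L : Type} [Field K] [IsAlgClosed K] [CharZero K] [Field L] [Algebra K L] [IsFF K L]

theorem L2_ev_one (P : Place K L) : P.ev 1 = 1 := by simpa using P.ev_algebraMap 1

end General

end Pool.Agent.E6b

end
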