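import Pool.Agent.E6c.A13
import Pool.Agent.E6c.A14

section
open scoped NNReal TensorProduct IntermediateField BigOperators Classical Topology
open Filter

namespace Pool.Agent.E6b
variable {κ F : Type} [Field κ] [IsAlgClosed κ] [CharZero κ] [Field F] [Algebra κ F] [IsFF κ F]

theorem LinEq.sub {D E D' E' : Dv κ F} (h : LinEq D E) (h' : LinEq D' E') :
    LinEq (D - D') (E - E') := by
  rw [sub_eq_add_neg, sub_eq_add_neg]
  exact h.add h'.neg

end Pool.Agent.E6b

end

section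
open scoped NNReal TensorProduct IntermediateField BigOperators Classical Topology
open Filter

namespace Pool.Agent.E6b
variable {κ F : Type} [Field κ] [IsAlgClosed κ] [CharZero κ] [Field F] [Algebra κ F] [IsFF κ F]

theorem exists_eff_of_ell_pos {D : Dv κ F} (h : 0 < ell D) : ∃ E, 0 ≤ E ∧ LinEq D E := by
  obtain ⟨f, hf, hf0⟩ := F2_exists_ne h
  exact ⟨D + dv κ f, (mem_LL_iff hf0).1 hf, f, hf0, rfl⟩

theorem one_le_ell {D : Dv κ F} (h : 0 ≤ D) : 1 ≤ ell D := by
  have h1 := ell_mono h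
  rwa [ell_zero] at h1

theorem eq_of_ell_eq_one {D E : Dv κ F} (hD : 0 ≤ D) (hE : 0 ≤ E) (h : LinEq D E)
    (h1 : ell D = 1) : D = E := by
  obtain ⟨f, hf, rfl⟩ := h
  have h2 : f ∈ (algebraMap κ F).range := by
    by_contra h2
    have h3 := (two_le_ell_iff hD).2 ⟨f, (mem_LL_iff hf).2 hE, h2⟩
    omega
  obtain ⟨c, rfl⟩ := h2
  rw [dv_algebraMap, add_zero]

theorem linEq_zero_of_ell_pos {D : Dv κ F} (h0 : deg D = 0) (h : 0 < ell D) : LinEq D 0 := by
  obtain ⟨E, hE, hDE⟩ := exists_eff_of_ell_pos h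
  have h1 : 0 = E := eq_of_le_of_deg_le hE (by rw [← hDE.deg, h0, deg_zero])
  rw [h1]
  exact hDE

end Pool.Agent.E6b

end

section
open scoped NNReal TensorProduct IntermediateField BigOperators Classical Topology
open Filter

namespace Pool.Agent.E6b
variable {κ F : Type} [Field κ] [IsAlgClosed κ] [CharZero κ] [Field F] [Algebra κ F] [IsFF κ F]

theorem exists_eff {D : Dv κ F} (h : (genus κ F : ℤ) ≤ deg D) : ∃ E, 0 ≤ E ∧ LinEq D E := by
  have := riemann D
  exact exists_eff_of_ell_pos (by omega)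

/-- genus one: every class of degree one contains exactly one place -/
theorem exists_pd_of_genus_one (hg : genus κ F = 1) {D : Dv κ F} (h : deg D = 1) :
    ∃ P, LinEq D (pd P) := by
  obtain ⟨E, hE, hl⟩ := exists_eff (D := D) (by omega)
  obtain ⟨P, hP⟩ := exists_eq_sum_pd hE (n := 1) (by rw [← hl.deg, h]; rfl)
  refine ⟨P 0, ?_⟩
  rwa [hP, Fin.sum_univ_one] at hl

theorem ell_genus_one (hg : genus κ F = 1) {D : Dv κ F} (h : 0 < deg D) : (ell D : ℤ) = deg D := by
  have := rr_large (D := D) (by omega)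
  omega

end Pool.Agent.E6b

end

section
open scoped NNReal TensorProduct IntermediateField BigOperators Classical Topology
open Filter

namespace Pool.Agent.E6b
variable {κ F F' F'' : Type} [Field κ] [IsAlgClosed κ] [CharZero κ] [Field F] [Algebra κ F]
  [IsFF κ F] [Field F'] [Algebra κ F'] [IsFF κ F'] [Field F''] [Algebra κ F''] [IsFF κ F'']
  (φ : FHom κ F F')

namespace FHom

theorem deg_pull (D : Dv κ F) : E6b.deg (φ.pull D) = φ.deg * E6b.deg D := by
  induction D using Finsupp.induction_linear with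
  | zero => rw [pull_zero, deg_zero, deg_zero, mul_zero]
  | add D E hD hE => rw [pull_add, deg_add, deg_add, hD, hE, mul_add]
  | single P n =>
    have : (Finsupp.single P n : Dv κ F) = n • pd P := by
      rw [pd, Finsupp.smul_single, smul_eq_mul, mul_one]
    rw [this, pull_zsmul, deg_zsmul, deg_zsmul, F4_deg_pd, deg_pd, mul_one, mul_comm]

theorem res_comp (ψ : FHom κ F' F'') (R : Place κ F'') : (ψ.comp φ).res R = φ.res (ψ.res R) := rfl

theorem e_comp (ψ : FHom κ F' F'') (R : Place κ F'') :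
    (ψ.comp φ).e R = ψ.e R * φ.e (ψ.res R) := by
  obtain ⟨π, -, h1⟩ := (φ.res (ψ.res R)).exists_ord_eq 1
  have h := (ψ.comp φ).F4_e_eq R h1
  change _ = R.ord (ψ.f (φ.f π)) at h
  rw [ord_map, ← φ.F4_e_eq _ h1] at h
  exact_mod_cast h

theorem pull_comp (ψ : FHom κ F' F'') (D : Dv κ F) : (ψ.comp φ).pull D = ψ.pull (φ.pull D) := by
  ext R
  rw [pull_apply, pull_apply, pull_apply, e_comp, res_comp, Nat.cast_mul, mul_assoc]

theorem deg_eq_one_iff : φ.deg = 1 ↔ Function.Surjective φ.f := by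
  rw [FHom.deg, Algebra.finrank_eq_one_iff_bijective_algebraMap]
  refine ⟨fun h y => ?_, fun h => ⟨Subtype.val_injective, fun y => ⟨⟨y, h y⟩, rfl⟩⟩⟩
  obtain ⟨x, rfl⟩ := h.2 y
  exact x.2

theorem res_bij (h : Function.Surjective φ.f) : Function.Bijective φ.res :=
  ⟨fun R _ e => Finset.card_le_one.1 ((φ.card_fib_le (φ.res R)).trans_eq (φ.deg_eq_one_iff.2 h))
    _ (φ.mem_fib.2 rfl) _ (φ.mem_fib.2 e.symm), φ.res_surj⟩

theorem e_eq_one (h : Function.Surjective φ.f) (R : Place κ F') : φ.e R = 1 := by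
  refine le_antisymm ?_ (φ.e_pos R)
  rw [← φ.deg_eq_one_iff.2 h, ← φ.sum_e (φ.res R)]
  exact Finset.single_le_sum (fun _ _ => Nat.zero_le _) (φ.mem_fib.2 rfl)

theorem F4_pull_mapDomain (h : Function.Surjective φ.f) (E : Dv κ F') :
    φ.pull (E.mapDomain φ.res) = E := by
  ext R
  rw [pull_apply, φ.e_eq_one h, Finsupp.mapDomain_apply (φ.res_bij h).1, Nat.cast_one, one_mul]

theorem pull_pd (h : Function.Surjective φ.f) (R : Place κ F') :
    φ.pull (pd (φ.res R)) = pd R := by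
  rw [← φ.F4_pull_mapDomain h (pd R), pd, pd, Finsupp.mapDomain_single]

end FHom

end Pool.Agent.E6b

end

section
open scoped NNReal TensorProduct IntermediateField BigOperators Classical Topology
open Filter

namespace Pool.Agent.E6b
variable {F : Type} [Field F] [Algebra Qb F] [IsFF Qb F] (A : GAct F)

namespace GAct

theorem ord_sm (σ : Qb ≃ₐ[ℚ] Qb) (P : Place Qb F) (f : F) :
    (A.sm σ P).ord (A.act σ f) = P.ord f := by
  have h := (A.fh σ).ord_map (A.sm σ P) f
  rwa [res_sm, (A.fh σ).e_eq_one (A.fh_surj σ), Nat.cast_one, one_mul] at h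

theorem pull_pd (σ : Qb ≃ₐ[ℚ] Qb) (P : Place Qb F) :
    (A.fh σ).pull (pd P) = pd (A.sm σ P) := by
  have h := (A.fh σ).pull_pd (A.fh_surj σ) (A.sm σ P)
  rwa [res_sm] at h

theorem pull_apply (σ : Qb ≃ₐ[ℚ] Qb) (D : Dv Qb F) (P : Place Qb F) :
    (A.fh σ).pull D (A.sm σ P) = D P := by
  rw [FHom.pull_apply, res_sm, (A.fh σ).e_eq_one (A.fh_surj σ), Nat.cast_one, one_mul]

theorem pull_ind (σ : Qb ≃ₐ[ℚ] Qb) (S : Finset (Place Qb F)) :
    (A.fh σ).pull (ind S) = ind (S.image (A.sm σ)) := by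
  rw [ind, ind, FHom.pull_sum, Finset.sum_image (A.sm_injective σ).injOn]
  exact Finset.sum_congr rfl fun P _ => A.pull_pd σ P

theorem deg_pull (σ : Qb ≃ₐ[ℚ] Qb) (D : Dv Qb F) : deg ((A.fh σ).pull D) = deg D := by
  rw [FHom.deg_pull, (A.fh σ).deg_eq_one_iff.2 (A.fh_surj σ), Nat.cast_one, one_mul]

/-- stabilisers of places are open -/
theorem exists_fix (P : Place Qb F) : ∃ L : IntermediateField ℚ Qb, FiniteDimensional ℚ L ∧
    ∀ σ : Qb ≃ₐ[ℚ] Qb, (∀ x ∈ L, σ x = x) → A.sm σ P = P := by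
  have h0 : (0 : Dv Qb F) ≤ (genus Qb F + 1) • pd P := nsmul_nonneg (F2_pd_nonneg P) _
  have h1 := riemann ((genus Qb F + 1) • pd P)
  rw [deg_nsmul, deg_pd] at h1
  obtain ⟨f, hf, hc⟩ := (two_le_ell_iff h0).1 (by push_cast at h1; omega)
  have h2 : ∀ Q : Place Qb F, Q.ord f < 0 → Q = P := by
    intro Q hQ
    by_contra hne
    rcases mem_LL.1 hf with rfl | h
    · simp [Place.ord_zero] at hQ
    · have := h Q
      rw [Finsupp.smul_apply, F2_pd_apply, if_neg (Ne.symm hne), smul_zero] at this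
      omega
  obtain ⟨Q, hQ⟩ := exists_pole hc
  obtain rfl := h2 Q hQ
  obtain ⟨L, hL, h⟩ := A.opn f
  refine ⟨L, hL, fun σ hσ => h2 _ ?_⟩
  rw [← h σ hσ, ord_sm]
  exact hQ

theorem finite_orb (K : IntermediateField ℚ Qb) (P : Place Qb F) : (A.orb K P).Finite := by
  obtain ⟨L, hL, h⟩ := A.exists_fix P
  let r : (Qb ≃ₐ[ℚ] Qb) → (L →ₐ[ℚ] Qb) := fun σ => (σ : Qb →ₐ[ℚ] Qb).comp L.val
  refine (Set.finite_range fun a => A.sm (Function.invFun r a) P).subset ?_
  rintro _ ⟨σ, -, rfl⟩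
  refine ⟨r σ, ?_⟩
  have h1 : r (Function.invFun r (r σ)) = r σ := Function.invFun_eq ⟨σ, rfl⟩
  set τ := Function.invFun r (r σ)
  have h2 := h (σ⁻¹ * τ) fun x hx => by
    have e : τ x = σ x := DFunLike.congr_fun h1 ⟨x, hx⟩
    rw [AlgEquiv.mul_apply, e, ← AlgEquiv.mul_apply, inv_mul_cancel, AlgEquiv.one_apply]
  change A.sm τ P = _
  conv_rhs => rw [← h2, ← sm_mul, mul_inv_cancel_left]

theorem stab_orb (K : IntermediateField ℚ Qb) (P : Place Qb F) :
    A.Stab K (A.finite_orb K P).toFinset := by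
  intro σ hσ Q hQ
  rw [Set.Finite.mem_toFinset] at hQ ⊢
  rw [← A.orb_eq_of_mem hQ]
  exact ⟨σ, hσ, rfl⟩

end GAct

end Pool.Agent.E6b

end

section
open scoped NNReal TensorProduct IntermediateField BigOperators Classical Topology
open Filter

namespace Pool.Agent.E6b

section
variable {κ F F' E : Type} [Field κ] [IsAlgClosed κ] [CharZero κ] [Field F] [Algebra κ F] [IsFF κ F]
  [Field F'] [Algebra κ F'] [IsFF κ F'] [Field E] [Algebra κ E] [IsFF κ E]

/-- `F' ⊗ L(N)` -/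
noncomputable def LT (F' : Type) [Field F'] [Algebra κ F'] (N : Dv κ E) :
    Submodule F' (F' ⊗[κ] E) := (LL N).baseChange F'

/-- `L(M) ⊗ L(N)` -/
noncomputable def LT2 (M : Dv κ F') (N : Dv κ E) : Submodule κ (F' ⊗[κ] E) :=
  Submodule.map₂ (TensorProduct.mk κ F' E) (LL M) (LL N)

/-- divisor of zeros of a section -/
noncomputable def Sq.Z (S : Sq κ F' E F) (M : Dv κ F') (N : Dv κ E) (G : F' ⊗[κ] E) : Dv κ F :=
  S.q'.pull M + S.q.pull N + dv κ (S.rho G)

end

namespace Tw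
variable {κ L : Type} [Field κ] [IsAlgClosed κ] [CharZero κ] [Field L] [Algebra κ L] {n₀ B : ℕ}
  (T : Tw κ L n₀ B)

/-- pull-back from the `s`-th curve -/
noncomputable def pl (J : Finset (Fin 5)) (s : Fin 5) (N : Dv κ (T.F {s})) : Dv κ (T.F J) :=
  if h : s ∈ J then (T.pi (Finset.singleton_subset_iff.2 h)).pull N else 0

/-- `Z` is equivalent to a sum of pull-backs of divisors of degrees `n s` -/
def Ty (J : Finset (Fin 5)) (Z : Dv κ (T.F J)) (n : Fin 5 → ℤ) : Prop :=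
  ∃ N : ∀ s, Dv κ (T.F {s}), (∀ s, deg (N s) = n s) ∧ (∀ s, s ∉ J → n s = 0) ∧
    LinEq Z (∑ s, T.pl J s (N s))

/-- projection to the `s`-th curve -/
noncomputable def pr (s : Fin 5) (R : Place κ T.FU) : Place κ (T.F {s}) :=
  (T.pi (Finset.subset_univ {s})).res R

/-- `R` and `R'` differ at most in the coordinate `s` -/
def Ln (s : Fin 5) (R R' : Place κ T.FU) : Prop :=
  (T.pi (Finset.subset_univ (Finset.univ.erase s))).res R =
    (T.pi (Finset.subset_univ (Finset.univ.erase s))).res R'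

/-- no cover is ramified at the image of `R` -/
def Ur (R : Place κ T.FU) : Prop := ∀ s, Unr (T.tJ {s}) (tv (T.tJ Finset.univ) R)

end Tw

/-- the Galois group over `K` has the orbits `{0,1}` and `{2,3,4}` -/
def TwG.Orb23 {L : Type} [Field L] [Algebra Qb L] {n₀ B : ℕ} {T : Tw Qb L n₀ B} (G : TwG T)
    (K : IntermediateField ℚ Qb) : Prop :=
  (∀ σ : Qb ≃ₐ[ℚ] Qb, (∀ x ∈ K, σ x = x) → ∀ s : Fin 5, ((G.perm σ s : ℕ) < 2 ↔ (s : ℕ) < 2)) ∧
    ∀ s s' : Fin 5, ((s : ℕ) < 2 ↔ (s' : ℕ) < 2) →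
      ∃ σ : Qb ≃ₐ[ℚ] Qb, (∀ x ∈ K, σ x = x) ∧ G.perm σ s = s'

end Pool.Agent.E6b

end

section
open scoped NNReal TensorProduct IntermediateField BigOperators Classical Topology
open Filter

namespace Pool.Agent.E6b
variable {κ E F : Type} [Field κ] [IsAlgClosed κ] [CharZero κ] [Field E] [Algebra κ E] [IsFF κ E]
  [Field F] [Algebra κ F] [IsFF κ F]

omit [IsAlgClosed κ] [CharZero κ] [IsFF κ E] [IsFF κ F] in
theorem map_lc (φ : E →ₐ[κ] F) (t : E) (c : Option κ) : φ (lc t c) = lc (φ t) c := by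
  cases c with
  | none => exact map_inv₀ φ t
  | some c => rw [lc, lc, map_sub, φ.commutes]

theorem deg_dinf_rk {t : E} (ht : t ∉ (algebraMap κ E).range) : deg (dinf κ t) = rk κ t := deg_dinf ht

theorem unr_iff_card {t : E} (ht : t ∉ (algebraMap κ E).range) (c : Option κ) :
    Unr t c ↔ (finite_tv ht c).toFinset.card = rk κ t := by
  have h1 := sum_ord_lc ht c
  have h2 : ∀ P, P ∈ (finite_tv ht c).toFinset ↔ 0 < P.ord (lc t c) := fun P =>
    (Set.Finite.mem_toFinset _).trans (tv_eq_iff ht)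
  have h3 : ∑ P ∈ (finite_tv ht c).toFinset, (P.ord (lc t c) - 1) =
      rk κ t - (finite_tv ht c).toFinset.card := by
    rw [Finset.sum_sub_distrib, h1, Finset.sum_const, nsmul_eq_mul, mul_one]
  have h4 := Finset.sum_eq_zero_iff_of_nonneg (s := (finite_tv ht c).toFinset)
    (f := fun P => P.ord (lc t c) - 1) fun P hP => by
      have := (h2 P).1 hP
      omega
  rw [h3] at h4
  constructor
  · intro h
    have := h4.2 fun P hP => by rw [h P ((h2 P).1 hP), sub_self]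
    omega
  · intro h P hP
    have := h4.1 (by rw [h, sub_self]) P ((h2 P).2 hP)
    omega

theorem K2_update {K V ι : Type} [Field K] [AddCommGroup V] [Module K V] [Fintype ι]
    [DecidableEq ι] {b : ι → V} (hb : LinearIndependent K b) {r : ι → K} {i : ι} (hr : r i ≠ 0) :
    LinearIndependent K (Function.update b i (∑ j, r j • b j)) := by
  rw [Fintype.linearIndependent_iff] at hb ⊢
  intro g hg
  have h1 : ∑ j, (g i * r j + Function.update g i 0 j) • b j = 0 := by
    rw [← hg, ← Finset.add_sum_erase _ (fun j => g j • _) (Finset.mem_univ i),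
      Function.update_self, Finset.smul_sum]
    simp only [add_smul, Finset.sum_add_distrib, mul_smul]
    congr 1
    rw [← Finset.add_sum_erase _ _ (Finset.mem_univ i), Function.update_self, zero_smul, zero_add]
    refine Finset.sum_congr rfl fun j hj => ?_
    rw [Function.update_of_ne (Finset.ne_of_mem_erase hj),
      Function.update_of_ne (Finset.ne_of_mem_erase hj)]
  have h2 := hb _ h1
  have h3 : g i = 0 := by
    have := h2 i
    rw [Function.update_self, add_zero] at this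
    exact (mul_eq_zero.1 this).resolve_right hr
  intro j
  rcases eq_or_ne j i with rfl | hj
  · exact h3
  · have := h2 j
    rwa [h3, zero_mul, zero_add, Function.update_of_ne hj] at this

theorem K2_start {t : E} (ht : t ∉ (algebraMap κ E).range) (N : Dv κ E) :
    ∃ (b : Fin (rk κ t) → E) (m : ℕ), LinearIndependent κ⟮t⟯ b ∧
      ∀ i, b i ∈ LL (N + m • dinf κ t) := by
  obtain ⟨y, C, hy, -, h⟩ := F2_exists_basis ht
  obtain ⟨m, hm⟩ : ∃ m : ℕ, genus κ E + deg C - deg N ≤ m := ⟨_, Int.self_le_toNat _⟩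
  have h1 := riemann (N + m • dinf κ t - C)
  rw [deg_sub, deg_add, deg_nsmul, deg_dinf_rk ht] at h1
  have h2 : (1 : ℤ) ≤ rk κ t := by exact_mod_cast rk_pos ht
  obtain ⟨f, hf, hf0⟩ := F2_exists_ne (D := N + m • dinf κ t - C) (by
    have h3 : (m : ℤ) ≤ m * rk κ t := le_mul_of_one_le_right (Int.natCast_nonneg m) h2
    omega)
  refine ⟨fun i => f * y i, m, hy.map' (LinearMap.mulLeft κ⟮t⟯ f)
    (LinearMap.ker_eq_bot.2 (mul_right_injective₀ hf0)), fun i => ?_⟩
  have := mul_mem_LL hf (h i)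
  rwa [sub_add_cancel] at this

/-- existence of reduced bases -/
theorem exists_RB {t : E} (ht : t ∉ (algebraMap κ E).range) (N : Dv κ E) : Nonempty (RB t N) :=
  by
  have hn := rk_pos ht
  have ht0 : t ≠ 0 := fun h => ht ⟨0, by rw [h, map_zero]⟩
  obtain ⟨z, ⟨b, a, hb, hm, rfl⟩, hz⟩ := Int.exists_greatest_of_bdd
    (P := fun z => ∃ (b : Fin (rk κ t) → E) (a : Fin (rk κ t) → ℤ), LinearIndependent κ⟮t⟯ b ∧
      (∀ i, b i ∈ LL (N - a i • dinf κ t)) ∧ ∑ i, a i = z)
    ⟨∑ _i : Fin (rk κ t), |deg N|, by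
      rintro _ ⟨b, a, hb, hm, rfl⟩
      refine Finset.sum_le_sum fun i _ => ?_
      by_contra hc
      have h1 : deg (N - a i • dinf κ t) < 0 := by
        rw [deg_sub, deg_zsmul, deg_dinf_rk ht]
        have h2 := le_abs_self (deg N)
        have h3 := abs_nonneg (deg N)
        have h4 : (1 : ℤ) ≤ rk κ t := by exact_mod_cast hn
        nlinarith
      have h2 := hm i
      rw [LL_eq_bot h1, Submodule.mem_bot] at h2
      exact hb.ne_zero i h2⟩
    (by
      obtain ⟨b, m, hb, hm⟩ := K2_start ht N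
      exact ⟨_, b, fun _ => -m, hb, fun i => by simpa using hm i, rfl⟩)
  refine ⟨⟨b, a, hb, fun i P => ?_, fun c γ h => ?_⟩⟩
  · have h1 := (mem_LL.1 (hm i)).resolve_left (hb.ne_zero i) P
    rw [Finsupp.sub_apply, Finsupp.smul_apply, dinf_apply, smul_eq_mul] at h1
    split_ifs with h
    · rw [P.mem_iff] at h
      rwa [max_eq_right (by omega), mul_zero, sub_zero] at h1
    · rw [P.mem_iff] at h
      rw [max_eq_left (by omega)] at h1
      rw [P.ord_mul (zpow_ne_zero _ ht0) (hb.ne_zero i), P.ord_zpow]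
      linarith
  · by_contra hγ
    obtain ⟨i, hi, hmin⟩ := Finset.exists_min_image (Finset.univ.filter fun j => γ j ≠ 0) a
      (by
        obtain ⟨j, hj⟩ := Function.ne_iff.1 hγ
        exact ⟨j, Finset.mem_filter.2 ⟨Finset.mem_univ _, hj⟩⟩)
    have hi' : γ i ≠ 0 := (Finset.mem_filter.1 hi).2
    obtain ⟨r, hr, hw⟩ := K2_better ht hm hi'
      (fun j hj => hmin j (Finset.mem_filter.2 ⟨Finset.mem_univ _, hj⟩)) c h
    have h1 := hz _ ⟨Function.update b i (∑ j, r j • b j), Function.update a i (a i + 1),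
      K2_update hb hr, fun j => by
        rcases eq_or_ne j i with rfl | hj
        · rwa [Function.update_self, Function.update_self]
        · rw [Function.update_of_ne hj, Function.update_of_ne hj]
          exact hm j, rfl⟩
    rw [Finset.sum_update_of_mem (Finset.mem_univ i), Finset.sdiff_singleton_eq_erase,
      ← Finset.add_sum_erase _ a (Finset.mem_univ i)] at h1
    omega

theorem K2_poly {t : E} (ht : t ∉ (algebraMap κ E).range) {N : Dv κ E}
    (hN : deg N < rk κ t) {ι : Type} (u : ι → E) (hu : ∀ i, u i ∈ LL N)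
    (hi : LinearIndependent κ u) (s : Finset ι) (d : ℕ) : ∀ p : ι → Polynomial κ,
    (∀ i ∈ s, (p i).degree < d) → ∑ i ∈ s, Polynomial.aeval t (p i) * u i = 0 →
    ∀ i ∈ s, p i = 0 := by
  have ht0 : t ≠ 0 := fun h => ht ⟨0, by rw [h, map_zero]⟩
  induction d with
  | zero => exact fun p hp _ i his => by simpa using hp i his
  | succ d ih =>
    intro p hp h
    have h1 : ∑ i ∈ s, (p i).coeff 0 • u i =
        - (t * ∑ i ∈ s, Polynomial.aeval t (p i).divX * u i) := by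
      rw [eq_neg_iff_add_eq_zero, ← h, Finset.mul_sum, ← Finset.sum_add_distrib]
      refine Finset.sum_congr rfl fun i _ => ?_
      conv_rhs => rw [← Polynomial.X_mul_divX_add (p i)]
      rw [map_add, map_mul, Polynomial.aeval_X, Polynomial.aeval_C, Algebra.smul_def]
      ring
    have h2 : ∑ i ∈ s, (p i).coeff 0 • u i ∈ LL N :=
      Submodule.sum_mem _ fun i _ => Submodule.smul_mem _ _ (hu i)
    have h3 : ∑ i ∈ s, Polynomial.aeval t (p i).divX * u i = 0 := by
      by_contra h0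
      refine h0 ((Submodule.mem_bot κ).1 ?_)
      rw [← LL_eq_bot (D := N - dinf κ t) (by rw [deg_sub, deg_dinf_rk ht]; omega)]
      refine mem_LL.2 (Or.inr fun P => ?_)
      rw [Finsupp.sub_apply, dinf_apply]
      by_cases hP : 0 ≤ P.ord t
      · rw [max_eq_right (by omega), sub_zero]
        refine (P.le_ord_sum s _ fun i _ => ?_).resolve_left h0
        have h4 := (F3ge.mono (F3ge_self P (Polynomial.aeval t (p i).divX))
          (P.mem_iff.1 (F1_aeval_mem P (P.mem_iff.2 hP) _))).mul (F3_mem_LL.1 (hu i) P)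
        rwa [zero_add] at h4
      · rw [h1] at h2
        have h4 := (mem_LL.1 h2).resolve_left (neg_ne_zero.2 (mul_ne_zero ht0 h0)) P
        rw [P.ord_neg, P.ord_mul ht0 h0] at h4
        omega
    rw [h3, mul_zero, neg_zero] at h1
    have h4 := linearIndependent_iff'.1 hi s _ h1
    have h5 := ih (fun i => (p i).divX) (fun i his => by
      by_cases h0 : p i = 0
      · rw [h0, Polynomial.divX_zero, Polynomial.degree_zero]
        exact WithBot.bot_lt_coe d
      · have h6 := hp i his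
        rw [Polynomial.degree_eq_natDegree h0, Nat.cast_lt, Nat.lt_succ_iff] at h6
        exact (Polynomial.degree_divX_lt h0).trans_le (Polynomial.degree_le_of_natDegree_le h6))
      h3
    intro i his
    rw [← Polynomial.X_mul_divX_add (p i), h5 i his, h4 i his, mul_zero, map_zero, add_zero]

open scoped IntermediateField.algebraAdjoinAdjoin in
/-- sections of a divisor of small degree are independent over `κ(t)` -/
theorem linearIndependent_of_deg_lt {t : E} (ht : t ∉ (algebraMap κ E).range) {N : Dv κ E}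
    (hN : deg N < rk κ t) {ι : Type} (u : ι → E) (hu : ∀ i, u i ∈ LL N)
    (hi : LinearIndependent κ u) : LinearIndependent κ⟮t⟯ u := by
  rw [← LinearIndependent.iff_fractionRing (Algebra.adjoin κ {t}), linearIndependent_iff']
  intro s g hg i his
  have h1 : ∀ i, ∃ p : Polynomial κ, Polynomial.aeval t p = g i := fun i =>
    (Algebra.adjoin_singleton_eq_range_aeval κ t).le (g i).2
  choose p hp using h1
  have h2 := K2_poly ht hN u hu hi s (s.sup (fun i => (p i).natDegree) + 1) p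
    (fun i hi => (Polynomial.degree_le_natDegree.trans_lt (by
      exact_mod_cast Nat.lt_succ_of_le (Finset.le_sup (f := fun i => (p i).natDegree) hi))))
    (by
      rw [← hg]
      exact Finset.sum_congr rfl fun i _ => by rw [hp]; rfl) i his
  exact Subtype.ext (by rw [← hp, h2, map_zero]; rfl)

end Pool.Agent.E6b

end

section
open scoped NNReal TensorProduct IntermediateField BigOperators Classical Topology
open Filter

namespace Pool.Agent.E6b
variable {κ F F' E : Type} [Field κ] [IsAlgClosed κ] [CharZero κ] [Field F] [Algebra κ F] [IsFF κ F]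
  [Field F'] [Algebra κ F'] [IsFF κ F'] [Field E] [Algebra κ E] [IsFF κ E] (S : Sq κ F' E F)

namespace Sq

theorem nc' : S.t' ∉ (algebraMap κ F').range := by
  rintro ⟨c, hc⟩
  refine S.nc ⟨c, S.p.toRingHom.injective ?_⟩
  change S.p (algebraMap κ E c) = S.p S.t
  rw [← S.comm, ← hc, AlgHom.commutes, AlgHom.commutes]

theorem deg_q : S.q.deg = rk κ S.t' := by
  have h1 := (rk_map S.q S.nc).2
  have h2 := (rk_map S.q' S.nc').2
  have h3 : S.q'.f S.t' = S.q.f S.t := S.comm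
  rw [h3, h1, S.deg_q', mul_comm] at h2
  exact Nat.eq_of_mul_eq_mul_left (rk_pos S.nc) h2

/-- linear disjointness -/
theorem eq_zero_of_indep {ι : Type} [Fintype ι] {b : ι → E} (hb : LinearIndependent κ⟮S.t⟯ b)
    {c : ι → F'} (h : ∑ i, S.p' (c i) * S.p (b i) = 0) : c = 0 := by
  funext i
  have h1 := Fintype.linearIndependent_iff.1 (S.K1_indep hb)
    (fun i => (⟨S.p' (c i), c i, rfl⟩ : S.q'.f.fieldRange)) h i
  have h2 : S.p' (c i) = 0 := congrArg Subtype.val h1
  exact (map_eq_zero S.p').1 h2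

theorem exists_coord {b : Fin (rk κ S.t) → E} (hb : LinearIndependent κ⟮S.t⟯ b) (x : F) :
    ∃ c : Fin (rk κ S.t) → F', x = ∑ i, S.p' (c i) * S.p (b i) := by
  have := finiteDimensional_of_transcendental (transcendental_of_notMem S.nc)
  exact S.K1_span (hb.span_eq_top_of_card_eq_finrank' (Fintype.card_fin _)) x

/-- the square with the two sides exchanged -/
def K1_swap : Sq κ E F' F where
  p' := S.p
  p := S.p'
  t' := S.t
  t := S.t'
  comm := S.comm.symm
  nc := S.nc'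
  deg' := S.deg_q
  gen := by rw [Set.union_comm]; exact S.gen
  unr := fun c => (S.unr c).symm

theorem K1_count {Q : Place κ F'} (h : Unr S.t (tv S.t' Q)) :
    (S.q'.fib Q).card = rk κ S.t ∧ (∀ R ∈ S.q'.fib Q, S.q'.e R = 1) ∧
      Set.InjOn S.q.res (S.q'.fib Q) := by
  have hc := (unr_iff_card S.nc _).1 h
  have him : (S.q'.fib Q).image S.q.res = (finite_tv S.nc (tv S.t' Q)).toFinset := by
    ext P
    simp only [Finset.mem_image, Set.Finite.mem_toFinset, Set.mem_ofPred_eq, FHom.mem_fib]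
    constructor
    · rintro ⟨R, hR, rfl⟩
      rw [← S.tv_res_eq, hR]
    · intro hP
      exact S.exists_place hP.symm
  have h1 : rk κ S.t ≤ (S.q'.fib Q).card := by
    rw [← hc, ← him]
    exact Finset.card_image_le
  have h2 := S.q'.card_fib_le Q
  rw [S.deg_q'] at h2
  have h3 := le_antisymm h2 h1
  refine ⟨h3, ?_, ?_⟩
  · have hs := S.q'.sum_e Q
    rw [S.deg_q', ← h3, Finset.card_eq_sum_ones] at hs
    intro R hR
    exact ((Finset.sum_eq_sum_iff_of_le (fun R _ => S.q'.e_pos R)).1 hs.symm R hR).symm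
  · rw [← Finset.card_image_iff, him, hc, h3]

theorem e'_eq_one {R : Place κ F} (h : Unr S.t (tv S.t (S.q.res R))) : S.q'.e R = 1 := by
  rw [← S.tv_res_eq] at h
  exact (S.K1_count h).2.1 R (S.q'.mem_fib.2 rfl)

theorem e_eq_one {R : Place κ F} (h : Unr S.t' (tv S.t' (S.q'.res R))) : S.q.e R = 1 :=
  S.K1_swap.e'_eq_one h

theorem K1_ext {R R' : Place κ F} (hu : Unr S.t (tv S.t' (S.q'.res R)))
    (h' : S.q'.res R = S.q'.res R') (h : S.q.res R = S.q.res R') : R = R' :=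
  (S.K1_count hu).2.2 (Finset.mem_coe.2 (S.q'.mem_fib.2 rfl))
    (Finset.mem_coe.2 (S.q'.mem_fib.2 h'.symm)) h

theorem place_ext {R R' : Place κ F} (h' : S.q'.res R = S.q'.res R') (h : S.q.res R = S.q.res R') :
    R = R' := by
  rcases S.unr (tv S.t (S.q.res R)) with hu | hu
  · rw [← S.tv_res_eq] at hu
    exact S.K1_ext hu h' h
  · exact S.K1_swap.K1_ext hu h h'

theorem unr_top {c : Option κ} (h : Unr S.t c) (h' : Unr S.t' c) : Unr (S.p S.t) c := by
  intro R hR
  have h1 : tv (S.p S.t) R = c := (tv_eq_iff (rk_map S.q S.nc).1).2 hR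
  have h2 : tv S.t (S.q.res R) = c := (S.K1_tv R).symm.trans h1
  have h3 : S.q.e R = 1 := S.e_eq_one (by rw [← S.K1_tv', h1]; exact h')
  have h4 := S.q.ord_map R (lc S.t c)
  rw [h _ ((tv_eq_iff S.nc).1 h2), h3] at h4
  rw [← map_lc]
  exact h4

theorem card_fib' {Q : Place κ F'} (h : Unr S.t (tv S.t' Q)) : (S.q'.fib Q).card = rk κ S.t :=
  (S.K1_count h).1

end Sq

end Pool.Agent.E6b

end

section
open scoped NNReal TensorProduct IntermediateField BigOperators Classical Topology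
open Filter

namespace Pool.Agent.E6b
variable {κ F F' E : Type} [Field κ] [IsAlgClosed κ] [CharZero κ] [Field F] [Algebra κ F] [IsFF κ F]
  [Field F'] [Algebra κ F'] [IsFF κ F'] [Field E] [Algebra κ E] [IsFF κ E]

theorem K3_smul_one_tmul (c : F') (u : E) : c • ((1 : F') ⊗ₜ[κ] u) = c ⊗ₜ[κ] u := by
  rw [TensorProduct.smul_tmul', smul_eq_mul, mul_one]

theorem K3_tmul_mem_LT2 {M : Dv κ F'} {N : Dv κ E} {c : F'} {u : E} (hc : c ∈ LL M)
    (hu : u ∈ LL N) : c ⊗ₜ[κ] u ∈ LT2 M N :=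
  Submodule.apply_mem_map₂ (TensorProduct.mk κ F' E) hc hu

theorem K3_LT_eq {N : Dv κ E} {ι : Type} {u : ι → E}
    (hu : Submodule.span κ (Set.range u) = LL N) :
    LT F' N = Submodule.span F' (Set.range fun i => (1 : F') ⊗ₜ[κ] u i) := by
  rw [LT, ← hu, Submodule.baseChange_span, ← Set.range_comp]
  rfl

theorem mem_LT_iff {N : Dv κ E} {ι : Type} [Fintype ι] {u : ι → E}
    (hu : Submodule.span κ (Set.range u) = LL N) {G : F' ⊗[κ] E} :
    G ∈ LT F' N ↔ ∃ c : ι → F', G = ∑ i, c i ⊗ₜ[κ] u i := by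
  rw [K3_LT_eq hu, Submodule.mem_span_range_iff_exists_fun]
  simp only [K3_smul_one_tmul]
  exact ⟨fun ⟨c, hc⟩ => ⟨c, hc.symm⟩, fun ⟨c, hc⟩ => ⟨c, hc.symm⟩⟩

theorem mem_LT2_iff {M : Dv κ F'} {N : Dv κ E} {ι : Type} [Fintype ι] {u : ι → E}
    (hu : Submodule.span κ (Set.range u) = LL N) {G : F' ⊗[κ] E} :
    G ∈ LT2 M N ↔ ∃ c : ι → F', (∀ i, c i ∈ LL M) ∧ G = ∑ i, c i ⊗ₜ[κ] u i := by
  constructor
  · intro h
    rw [LT2, Submodule.map₂_eq_span_image2] at h
    induction h using Submodule.span_induction with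
    | mem x hx =>
      obtain ⟨m, hm, n, hn, rfl⟩ := hx
      have hn' : n ∈ Submodule.span κ (Set.range u) := by rw [hu]; exact hn
      obtain ⟨a, rfl⟩ := (Submodule.mem_span_range_iff_exists_fun κ).1 hn'
      refine ⟨fun i => a i • m, fun i => Submodule.smul_mem _ _ hm, ?_⟩
      simp only [TensorProduct.mk_apply, TensorProduct.tmul_sum, TensorProduct.tmul_smul,
        TensorProduct.smul_tmul']
    | zero => exact ⟨0, fun i => Submodule.zero_mem _, by simp⟩
    | add x y _ _ hx hy =>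
      obtain ⟨c, hc, rfl⟩ := hx
      obtain ⟨d, hd, rfl⟩ := hy
      refine ⟨c + d, fun i => Submodule.add_mem _ (hc i) (hd i), ?_⟩
      simp only [Pi.add_apply, TensorProduct.add_tmul, Finset.sum_add_distrib]
    | smul a x _ hx =>
      obtain ⟨c, hc, rfl⟩ := hx
      refine ⟨a • c, fun i => Submodule.smul_mem _ _ (hc i), ?_⟩
      simp only [Pi.smul_apply, Finset.smul_sum, TensorProduct.smul_tmul']
  · rintro ⟨c, hc, rfl⟩
    refine Submodule.sum_mem _ fun i _ => K3_tmul_mem_LT2 (hc i) ?_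
    rw [← hu]
    exact Submodule.subset_span ⟨i, rfl⟩

theorem eq_zero_of_sum_tmul {ι : Type} [Fintype ι] {u : ι → E} (hu : LinearIndependent κ u)
    {c : ι → F'} (h : ∑ i, c i ⊗ₜ[κ] u i = 0) : c = 0 := by
  have h1 : LinearIndependent F' fun i => (1 : F') ⊗ₜ[κ] u i :=
    Module.Flat.linearIndependent_one_tmul hu
  funext i
  refine Fintype.linearIndependent_iff.1 h1 c ?_ i
  simpa only [K3_smul_one_tmul] using h

theorem exists_basis_LL (N : Dv κ E) : ∃ u : Fin (ell N) → E, LinearIndependent κ u ∧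
    Submodule.span κ (Set.range u) = LL N := by
  let b := Module.finBasis κ (LL N)
  unfold ell
  refine ⟨fun i => (b i : E), b.linearIndependent.map' (LL N).subtype (Submodule.ker_subtype _), ?_⟩
  have h : (Set.range fun i => (b i : E)) = (LL N).subtype '' Set.range b := by
    rw [← Set.range_comp]; rfl
  rw [h, ← Submodule.map_span, b.span_eq, Submodule.map_top, Submodule.range_subtype]

theorem K3_basis_mem {N : Dv κ E} {ι : Type} {u : ι → E}
    (hu : Submodule.span κ (Set.range u) = LL N) (i : ι) : u i ∈ LL N := by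
  rw [← hu]
  exact Submodule.subset_span ⟨i, rfl⟩

theorem LT2_le_LT {M : Dv κ F'} {N : Dv κ E} {G : F' ⊗[κ] E} (h : G ∈ LT2 M N) : G ∈ LT F' N := by
  obtain ⟨u, -, hu⟩ := exists_basis_LL N
  obtain ⟨c, -, hc⟩ := (mem_LT2_iff hu).1 h
  exact (mem_LT_iff hu).2 ⟨c, hc⟩

theorem LT2_mono {M M' : Dv κ F'} {N N' : Dv κ E} (h : M ≤ M') (h' : N ≤ N') :
    LT2 M N ≤ LT2 M' N' := Submodule.map₂_le_map₂ (LL_mono h) (LL_mono h')

theorem mul_mem_LT2 {M M' : Dv κ F'} {N N' : Dv κ E} {G G' : F' ⊗[κ] E} (h : G ∈ LT2 M N)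
    (h' : G' ∈ LT2 M' N') : G * G' ∈ LT2 (M + M') (N + N') := by
  obtain ⟨u, -, hu⟩ := exists_basis_LL N
  obtain ⟨u', -, hu'⟩ := exists_basis_LL N'
  obtain ⟨c, hc, rfl⟩ := (mem_LT2_iff hu).1 h
  obtain ⟨c', hc', rfl⟩ := (mem_LT2_iff hu').1 h'
  rw [Finset.sum_mul_sum]
  refine Submodule.sum_mem _ fun i _ => Submodule.sum_mem _ fun j _ => ?_
  rw [Algebra.TensorProduct.tmul_mul_tmul]
  exact K3_tmul_mem_LT2 (mul_mem_LL (hc i) (hc' j))
    (mul_mem_LL (K3_basis_mem hu i) (K3_basis_mem hu' j))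

theorem smul_mem_LT2 {M M' : Dv κ F'} {N : Dv κ E} {G : F' ⊗[κ] E} {c : F'} (hc : c ∈ LL M')
    (h : G ∈ LT2 M N) : c • G ∈ LT2 (M' + M) N := by
  obtain ⟨u, -, hu⟩ := exists_basis_LL N
  obtain ⟨d, hd, rfl⟩ := (mem_LT2_iff hu).1 h
  rw [Finset.smul_sum]
  refine Submodule.sum_mem _ fun i _ => ?_
  rw [TensorProduct.smul_tmul', smul_eq_mul]
  exact K3_tmul_mem_LT2 (mul_mem_LL hc (hd i)) (K3_basis_mem hu i)
variable (S : Sq κ F' E F)

namespace Sq

theorem K3_q'f (c : F') : S.q'.f c = S.p' c := rfl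

theorem K3_qf (u : E) : S.q.f u = S.p u := rfl

theorem K3_ord' (R : Place κ F) (c : F') :
    R.ord (S.p' c) = S.q'.e R * (S.q'.res R).ord c := S.q'.ord_map R c

theorem K3_ord (R : Place κ F) (u : E) :
    R.ord (S.p u) = S.q.e R * (S.q.res R).ord u := S.q.ord_map R u

theorem rho_mem_LL {M : Dv κ F'} {N : Dv κ E} {G : F' ⊗[κ] E} (h : G ∈ LT2 M N) :
    S.rho G ∈ LL (S.q'.pull M + S.q.pull N) := by
  obtain ⟨u, -, hu⟩ := exists_basis_LL N
  obtain ⟨c, hc, rfl⟩ := (mem_LT2_iff hu).1 h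
  rw [map_sum]
  refine Submodule.sum_mem _ fun i _ => ?_
  rw [S.rho_tmul]
  exact mul_mem_LL (S.q'.map_mem_LL.2 (hc i)) (S.q.map_mem_LL.2 (K3_basis_mem hu i))

theorem deg_Z (M : Dv κ F') (N : Dv κ E) (G : F' ⊗[κ] E) :
    deg (S.Z M N G) = rk κ S.t * deg M + rk κ S.t' * deg N := by
  rw [Sq.Z, deg_add, deg_add, deg_dv, FHom.deg_pull, FHom.deg_pull, S.deg_q', S.deg_q, add_zero]

theorem rho_ne_zero {N : Dv κ E} (hN : deg N < rk κ S.t) {G : F' ⊗[κ] E} (h : G ∈ LT F' N)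
    (h0 : G ≠ 0) : S.rho G ≠ 0 := by
  obtain ⟨u, hi, hu⟩ := exists_basis_LL N
  obtain ⟨c, rfl⟩ := (mem_LT_iff hu).1 h
  intro h1
  rw [map_sum] at h1
  simp only [S.rho_tmul] at h1
  have h2 := S.eq_zero_of_indep
    (linearIndependent_of_deg_lt S.nc hN u (K3_basis_mem hu) hi) h1
  exact h0 (by simp [h2])

theorem K3_mem_iff (R : Place κ F) : S.t' ∈ (S.q'.res R).O ↔ S.t ∈ (S.q.res R).O := by
  rw [← S.q'.map_mem_iff, ← S.q.map_mem_iff, K3_q'f, K3_qf, S.comm]

/-- the residues of a combination with a zero of higher order than expected vanish -/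
theorem K3_sat {N : Dv κ E} (b : RB S.t N) (Q : Place κ F') (γ : Fin (rk κ S.t) → κ)
    (h : ∀ R : Place κ F, S.q'.res R = Q →
      S.p (∑ i, γ i • (if S.t' ∈ Q.O then b.b i else S.t ^ b.a i * b.b i)) = 0 ∨
      S.q'.e R - S.q.pull N R ≤
        R.ord (S.p (∑ i, γ i • (if S.t' ∈ Q.O then b.b i else S.t ^ b.a i * b.b i)))) :
    γ = 0 := by
  have hβ : ∀ i, (if tv S.t' Q = none then S.t ^ b.a i * b.b i else b.b i) =
      (if S.t' ∈ Q.O then b.b i else S.t ^ b.a i * b.b i) := by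
    intro i
    by_cases hQ : S.t' ∈ Q.O <;> simp [tv, hQ]
  refine b.sat (tv S.t' Q) γ ?_
  simp only [hβ]
  set y := ∑ i, γ i • (if S.t' ∈ Q.O then b.b i else S.t ^ b.a i * b.b i) with hy
  by_cases hy0 : y = 0
  · exact Or.inl hy0
  refine Or.inr fun P hP => ?_
  obtain ⟨R, hRQ, hRP⟩ := S.exists_place hP.symm
  have hpy : S.p y ≠ 0 := by simpa using hy0
  have h1 := (h R hRQ).resolve_left hpy
  rw [S.K3_ord, FHom.pull_apply, hRP] at h1
  rw [P.ord_div hy0 (lc_ne_zero S.nc _)]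
  have he := S.q.F4_e_pos R
  have he' := S.q'.F4_e_pos R
  rcases S.unr (tv S.t' Q) with hu | hu
  · have h2 : P.ord (lc S.t (tv S.t' Q)) = 1 := hu P ((tv_eq_iff S.nc).1 hP)
    have h3 : 0 < (S.q.e R : ℤ) * (P.ord y + N P) := by linarith
    have h4 : 0 < P.ord y + N P := (mul_pos_iff_of_pos_left he).1 h3
    omega
  · have h2 : Q.ord (lc S.t' (tv S.t' Q)) = 1 := hu Q ((tv_eq_iff S.nc').1 rfl)
    have h3 : S.q.e R = 1 := S.e_eq_one (by rw [hRQ]; exact hu)
    have h4 := S.K3_ord R (lc S.t (tv S.t' Q))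
    rw [map_lc, ← S.comm, ← map_lc, S.K3_ord', hRQ, h2, hRP, h3] at h4
    rw [h3] at h1
    push_cast at h1 h4
    linarith

/-- local freeness after base change -/
theorem tn {N : Dv κ E} (b : RB S.t N) (Q : Place κ F') (c : Fin (rk κ S.t) → F') (k : ℤ)
    (h : ∑ i, S.p' (c i) * S.p (if S.t' ∈ Q.O then b.b i else S.t ^ b.a i * b.b i) = 0 ∨
      ∀ R : Place κ F, S.q'.res R = Q → - S.q.pull N R + k * S.q'.e R ≤
        R.ord (∑ i, S.p' (c i) * S.p (if S.t' ∈ Q.O then b.b i else S.t ^ b.a i * b.b i))) :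
    ∀ i, c i = 0 ∨ k ≤ Q.ord (c i) := by
  by_contra hcon
  simp only [not_forall, not_or, not_le] at hcon
  obtain ⟨j, hj0, hjk⟩ := hcon
  obtain ⟨i₀, hi₀, hmin⟩ := Finset.exists_min_image (Finset.univ.filter fun i => c i ≠ 0)
    (fun i => Q.ord (c i)) ⟨j, by simpa using hj0⟩
  have h0 : c i₀ ≠ 0 := by simpa using hi₀
  have hk : Q.ord (c i₀) < k := lt_of_le_of_lt (hmin j (by simpa using hj0)) hjk
  have hd : ∀ i, c i / c i₀ ∈ Q.O := by
    intro i
    by_cases hi : c i = 0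
    · rw [hi, zero_div]; exact Q.O.zero_mem
    · rw [Q.mem_iff, Q.ord_div hi h0]
      have := hmin i (by simpa using hi)
      omega
  have hγ := S.K3_sat b Q (fun i => Q.ev (c i / c i₀)) ?_
  · have h1 := congrFun hγ i₀
    simp only [div_self h0, Pi.zero_apply] at h1
    have h2 := Q.ev_algebraMap 1
    rw [map_one, h1] at h2
    exact zero_ne_one h2
  intro R hR
  set β : Fin (rk κ S.t) → E := fun i => if S.t' ∈ Q.O then b.b i else S.t ^ b.a i * b.b i with hβ
  have hp0 : S.p' (c i₀) ≠ 0 := by simpa using h0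
  have hid : S.p (∑ i, Q.ev (c i / c i₀) • β i) = (∑ i, S.p' (c i) * S.p (β i)) / S.p' (c i₀) +
      ∑ i, - (S.p' (c i / c i₀ - algebraMap κ F' (Q.ev (c i / c i₀))) * S.p (β i)) := by
    rw [Finset.sum_div, ← Finset.sum_add_distrib, map_sum]
    refine Finset.sum_congr rfl fun i _ => ?_
    rw [map_smul, map_sub, map_div₀, AlgHom.commutes, Algebra.smul_def]
    ring
  have he := S.q.F4_e_pos R
  have he' := S.q'.F4_e_pos R
  change S.p (∑ i, Q.ev (c i / c i₀) • β i) = 0 ∨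
    _ ≤ R.ord (S.p (∑ i, Q.ev (c i / c i₀) • β i))
  rw [hid]
  refine F1a_le_ord_add R ?_ (R.le_ord_sum _ _ fun i _ => ?_)
  · by_cases hx : ∑ i, S.p' (c i) * S.p (β i) = 0
    · exact Or.inl (by rw [hx, zero_div])
    · right
      have h1 := (h.resolve_left hx) R hR
      rw [R.ord_div hx hp0, S.K3_ord', hR]
      have h2 : (S.q'.e R : ℤ) * (Q.ord (c i₀) + 1) ≤ S.q'.e R * k :=
        mul_le_mul_of_nonneg_left (by omega) he'.le
      change _ ≤ R.ord (∑ i, S.p' (c i) * S.p (β i)) at h1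
      linarith
  · rcases Q.ev_spec (hd i) with h1 | h1
    · exact Or.inl (by rw [← h1, sub_self, map_zero, zero_mul, neg_zero])
    by_cases hb : β i = 0
    · exact Or.inl (by rw [hb, map_zero, mul_zero, neg_zero])
    right
    have h2 := F1a_ne_zero_of_ord Q h1.ne'
    rw [R.ord_neg, R.ord_mul ((map_ne_zero S.p').2 h2) ((map_ne_zero S.p).2 hb), S.K3_ord', S.K3_ord, hR,
      FHom.pull_apply]
    have h3 : - N (S.q.res R) ≤ (S.q.res R).ord (β i) := by
      have h4 := b.mem i (S.q.res R)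
      have h5 := S.K3_mem_iff R
      rw [hR] at h5
      simpa only [hβ, h5] using h4
    have h6 := mul_le_mul_of_nonneg_left h3 he.le
    have h7 : (S.q'.e R : ℤ) * 1 ≤ S.q'.e R *
        Q.ord (c i / c i₀ - algebraMap κ F' (Q.ev (c i / c i₀))) :=
      mul_le_mul_of_nonneg_left (by omega) he'.le
    linarith

theorem K3_ne_zero {t : E} (ht : t ∉ (algebraMap κ E).range) : t ≠ 0 := by
  rintro rfl
  exact ht (zero_mem _)

theorem K3_b_mem {t : E} (ht : t ∉ (algebraMap κ E).range) {N : Dv κ E} (b : RB t N)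
    (i : Fin (rk κ t)) : b.b i ∈ LL (N - b.a i • dinf κ t) := by
  refine Or.inr fun P => ?_
  have h := b.mem i P
  rw [Finsupp.sub_apply, Finsupp.smul_apply, dinf_apply, smul_eq_mul]
  by_cases hP : t ∈ P.O
  · rw [if_pos hP] at h
    rw [max_eq_right (by have := P.mem_iff.1 hP; omega)]
    linarith
  · rw [if_neg hP, P.ord_mul (zpow_ne_zero _ (K3_ne_zero ht)) (b.indep.ne_zero i), P.ord_zpow] at h
    rw [max_eq_left (by have := mt P.mem_iff.2 hP; omega)]
    linarith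

theorem K3_c_mem {M : Dv κ F'} {N : Dv κ E} (b : RB S.t N) {c : Fin (rk κ S.t) → F'}
    (hx : ∑ i, S.p' (c i) * S.p (b.b i) ∈ LL (S.q'.pull M + S.q.pull N)) (i : Fin (rk κ S.t)) :
    c i ∈ LL (M + b.a i • dinf κ S.t') := by
  by_cases hc : c i = 0
  · exact Or.inl hc
  refine Or.inr fun Q => ?_
  have ht := K3_ne_zero S.nc
  have ht' := K3_ne_zero S.nc'
  have hs : ∑ j, S.p' (if S.t' ∈ Q.O then c j else c j * S.t' ^ (- b.a j)) *
      S.p (if S.t' ∈ Q.O then b.b j else S.t ^ b.a j * b.b j) =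
      ∑ j, S.p' (c j) * S.p (b.b j) := by
    refine Finset.sum_congr rfl fun j _ => ?_
    by_cases hQ : S.t' ∈ Q.O
    · rw [if_pos hQ, if_pos hQ]
    · rw [if_neg hQ, if_neg hQ, map_mul, map_mul, map_zpow₀, map_zpow₀, S.comm, zpow_neg]
      have : S.p S.t ^ b.a j ≠ 0 := zpow_ne_zero _ ((map_ne_zero S.p).2 ht)
      field_simp
  have h := S.tn b Q (fun j => if S.t' ∈ Q.O then c j else c j * S.t' ^ (- b.a j)) (- M Q) ?_ i
  · rw [Finsupp.add_apply, Finsupp.smul_apply, dinf_apply, smul_eq_mul]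
    by_cases hQ : S.t' ∈ Q.O
    · simp only [if_pos hQ] at h
      rw [max_eq_right (by have := Q.mem_iff.1 hQ; omega)]
      have := h.resolve_left hc
      linarith
    · simp only [if_neg hQ] at h
      have h1 := h.resolve_left (mul_ne_zero hc (zpow_ne_zero _ ht'))
      rw [Q.ord_mul hc (zpow_ne_zero _ ht'), Q.ord_zpow] at h1
      rw [max_eq_left (by have := mt Q.mem_iff.2 hQ; omega)]
      linarith
  · rw [hs]
    refine hx.imp id fun h R hR => ?_
    have h1 := h R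
    rw [Finsupp.add_apply, S.q'.pull_apply, hR] at h1
    linarith

/-- sections on the fibre product -/
theorem hf {M : Dv κ F'} {N : Dv κ E} (hM : ell (M - dinf κ S.t') = 0) (hN : deg N < rk κ S.t)
    {x : F} (hx : x ∈ LL (S.q'.pull M + S.q.pull N)) : ∃ G ∈ LT2 M N, S.rho G = x := by
  obtain ⟨b⟩ := exists_RB S.nc N
  obtain ⟨c, rfl⟩ := S.exists_coord b.indep x
  refine ⟨∑ i, c i ⊗ₜ[κ] b.b i, Submodule.sum_mem _ fun i _ => ?_, ?_⟩
  · have hb := K3_b_mem S.nc b i
    have hc := S.K3_c_mem b hx i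
    rcases lt_trichotomy (b.a i) 0 with ha | ha | ha
    · have hle : M + b.a i • dinf κ S.t' ≤ M - dinf κ S.t' := by
        intro Q
        rw [Finsupp.add_apply, Finsupp.sub_apply, Finsupp.smul_apply, dinf_apply, smul_eq_mul]
        have h1 : 0 ≤ max (- Q.ord S.t') 0 := le_max_right _ _
        nlinarith
      have h2 := LL_mono hle hc
      rw [ell_eq_zero_iff.1 hM, Submodule.mem_bot] at h2
      rw [h2, TensorProduct.zero_tmul]
      exact Submodule.zero_mem _
    · rw [ha, zero_smul, sub_zero] at hb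
      rw [ha, zero_smul, add_zero] at hc
      exact K3_tmul_mem_LT2 hc hb
    · exfalso
      have h1 : deg (N - b.a i • dinf κ S.t) < 0 := by
        rw [deg_sub, deg_zsmul, deg_dinf_rk S.nc]
        have h2 : (0 : ℤ) ≤ rk κ S.t := Int.natCast_nonneg _
        nlinarith
      rw [LL_eq_bot h1, Submodule.mem_bot] at hb
      exact b.indep.ne_zero i hb
  · rw [map_sum]
    simp only [S.rho_tmul]

theorem ell_hf {M : Dv κ F'} {N : Dv κ E} (hM : ell (M - dinf κ S.t') = 0) (hN : deg N < rk κ S.t) :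
    ell (S.q'.pull M + S.q.pull N) = ell M * ell N := by
  let ψ : LL M ⊗[κ] LL N →ₗ[κ] F := S.rho.toLinearMap ∘ₗ TensorProduct.mapIncl (LL M) (LL N)
  have hr : LinearMap.range (TensorProduct.mapIncl (LL M) (LL N)) = LT2 M N :=
    TensorProduct.range_mapIncl _ _
  have hinj : Function.Injective ψ := by
    rw [injective_iff_map_eq_zero]
    intro z hz
    have h1 : TensorProduct.mapIncl (LL M) (LL N) z ∈ LT2 M N := hr ▸ LinearMap.mem_range_self _ z
    have h2 : TensorProduct.mapIncl (LL M) (LL N) z = 0 := by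
      by_contra h3
      exact S.rho_ne_zero hN (LT2_le_LT h1) h3 hz
    exact (injective_iff_map_eq_zero _).1
      (Module.Flat.tensorProduct_mapIncl_injective_of_right (LL M) (LL N)) z h2
  have hrange : LinearMap.range ψ = LL (S.q'.pull M + S.q.pull N) := by
    rw [LinearMap.range_comp, hr]
    refine le_antisymm ?_ fun x hx => ?_
    · rintro _ ⟨G, hG, rfl⟩
      exact S.rho_mem_LL hG
    · obtain ⟨G, hG, rfl⟩ := S.hf hM hN hx
      exact ⟨G, hG, rfl⟩
  rw [ell, ← hrange, LinearMap.finrank_range_of_inj hinj, Module.finrank_tensorProduct]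
  rfl

end Sq

end Pool.Agent.E6b

end

section
open scoped NNReal TensorProduct IntermediateField BigOperators Classical Topology
open Filter

namespace Pool.Agent.E6b

/-- a set of tuples with many points on every line is large -/
theorem K8a_heavy {X ι : Type} [DecidableEq ι] {Y : ι → Type} (p : ∀ s, X → Y s)
    (hp : ∀ x y, (∀ s, p s x = p s y) → x = y) (D : Finset X) (n : ℕ)
    (Ln : ι → X → X → Prop) (hL : ∀ s x y, Ln s x y → ∀ s', s' ≠ s → p s' x = p s' y)
    (h : ∀ x ∈ D, ∀ s, n ≤ 2 * (D.filter (Ln s x)).card)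
    (J : Finset ι) : ∀ x ∈ D,
      n ^ J.card ≤ 2 ^ J.card * (D.filter fun y => ∀ s', s' ∉ J → p s' x = p s' y).card := by
  induction J using Finset.induction_on with
  | empty =>
    intro x hx
    simp only [Finset.card_empty, pow_zero, one_mul]
    exact Finset.card_pos.2 ⟨x, Finset.mem_filter.2 ⟨hx, fun _ _ => rfl⟩⟩
  | insert s J hs ih =>
    intro x hx
    set Λ := D.filter (Ln s x) with hΛ
    have h1 : ∑ y ∈ Λ, (D.filter fun z => ∀ s', s' ∉ J → p s' y = p s' z).card ≤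
        (D.filter fun z => ∀ s', s' ∉ insert s J → p s' x = p s' z).card := by
      rw [← Finset.card_biUnion]
      · refine Finset.card_le_card (Finset.biUnion_subset.2 fun y hy z hz => ?_)
        rw [Finset.mem_filter] at hz ⊢
        refine ⟨hz.1, fun s' hs' => ?_⟩
        rw [Finset.mem_insert, not_or] at hs'
        exact (hL _ _ _ (Finset.mem_filter.1 hy).2 s' hs'.1).trans (hz.2 s' hs'.2)
      · intro y hy y' hy' hne
        refine Finset.disjoint_left.2 fun z hz hz' => hne (hp _ _ fun s' => ?_)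
        by_cases e : s' = s
        · subst e
          exact ((Finset.mem_filter.1 hz).2 s' hs).trans ((Finset.mem_filter.1 hz').2 s' hs).symm
        · exact (hL _ _ _ (Finset.mem_filter.1 (Finset.mem_coe.1 hy)).2 s' e).symm.trans
            (hL _ _ _ (Finset.mem_filter.1 (Finset.mem_coe.1 hy')).2 s' e)
    have h2 : Λ.card * n ^ J.card ≤
        2 ^ J.card * ∑ y ∈ Λ, (D.filter fun z => ∀ s', s' ∉ J → p s' y = p s' z).card := by
      rw [Finset.mul_sum, ← smul_eq_mul, ← Finset.sum_const]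
      exact Finset.sum_le_sum fun y hy => ih y (Finset.mem_filter.1 hy).1
    rw [Finset.card_insert_of_notMem hs]
    calc n ^ (J.card + 1) = n * n ^ J.card := pow_succ' _ _
      _ ≤ 2 * Λ.card * n ^ J.card := Nat.mul_le_mul_right _ (h x hx s)
      _ ≤ 2 * (2 ^ J.card * _) := by
        rw [mul_assoc]
        exact Nat.mul_le_mul_left _ (h2.trans (Nat.mul_le_mul_left _ h1))
      _ = _ := by rw [pow_succ', mul_assoc]

theorem K8a_gen {κ L : Type} [Field κ] [Field L] [Algebra κ L] {A A' K : IntermediateField κ L}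
    (h : A ≤ K) (h' : A' ≤ K) (e : K = A ⊔ A') :
    IntermediateField.adjoin κ (Set.range (IntermediateField.inclusion h) ∪
      Set.range (IntermediateField.inclusion h')) = ⊤ := by
  have key : ∀ {A : IntermediateField κ L} (h : A ≤ K),
      Subtype.val '' Set.range (IntermediateField.inclusion h) = (A : Set L) := by
    intro A h
    ext x
    constructor
    · rintro ⟨_, ⟨y, rfl⟩, rfl⟩
      exact y.2
    · intro hx
      exact ⟨_, ⟨⟨x, hx⟩, rfl⟩, rfl⟩
  refine IntermediateField.lift_injective K ?_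
  rw [IntermediateField.lift_adjoin, IntermediateField.lift_top, Set.image_union, key, key,
    ← IntermediateField.sup_def, e]

section
variable {κ E : Type} [Field κ] [IsAlgClosed κ] [CharZero κ] [Field E] [Algebra κ E] [IsFF κ E]

theorem K8a_unr {t : E} (ht : t ∉ (algebraMap κ E).range) (h : rk κ t = 1) (c : Option κ) :
    Unr t c := by
  intro P hP
  have h1 := sum_ord_lc ht c
  have h2 : P.ord (lc t c) ≤ ∑ Q ∈ (finite_tv ht c).toFinset, Q.ord (lc t c) :=
    Finset.single_le_sum (f := fun Q : Place κ E => Q.ord (lc t c))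
      (fun Q hQ => ((tv_eq_iff ht).1 ((finite_tv ht c).mem_toFinset.1 hQ)).le)
      ((finite_tv ht c).mem_toFinset.2 ((tv_eq_iff ht).2 hP))
  rw [h1, h] at h2
  omega

theorem K8a_ext {t : E} (ht : t ∉ (algebraMap κ E).range) (h : rk κ t = 1) {P Q : Place κ E}
    (e : tv t P = tv t Q) : P = Q := by
  have h1 := (unr_iff_card ht (tv t Q)).1 (K8a_unr ht h _)
  exact Finset.card_le_one.1 (h1.trans h).le P ((finite_tv ht _).mem_toFinset.2 e) Q
    ((finite_tv ht _).mem_toFinset.2 rfl)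

end
variable {κ L : Type} [Field κ] [IsAlgClosed κ] [CharZero κ] [Field L] [Algebra κ L] {n₀ B : ℕ}
  (T : Tw κ L n₀ B)

namespace Tw

theorem nc_tJ (J : Finset (Fin 5)) : T.tJ J ∉ (algebraMap κ (T.F J)).range :=
  fun ⟨c, hc⟩ => T.nc ⟨c, congrArg Subtype.val hc⟩

theorem rk_tJ (J : Finset (Fin 5)) : rk κ (T.tJ J) = n₀ ^ J.card := T.rk_eq J

theorem n₀_pos (T : Tw κ L n₀ B) : 0 < n₀ := by
  have h := rk_pos (T.nc_tJ {0})
  rwa [T.rk_tJ, Finset.card_singleton, pow_one] at h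

theorem pi_tJ {J J' : Finset (Fin 5)} (h : J ⊆ J') : (T.pi h).f (T.tJ J) = T.tJ J' := rfl

theorem deg_pi {J J' : Finset (Fin 5)} (h : J ⊆ J') : (T.pi h).deg = n₀ ^ (J'.card - J.card) := by
  have h1 := (rk_map (T.pi h) (T.nc_tJ J)).2
  rw [pi_tJ, T.rk_tJ, T.rk_tJ, ← pow_sub_mul_pow n₀ (Finset.card_le_card h)] at h1
  exact (Nat.eq_of_mul_eq_mul_right (pow_pos T.n₀_pos _) h1).symm

theorem res_pi_pi {J J' J'' : Finset (Fin 5)} (h : J ⊆ J') (h' : J' ⊆ J'') (R : Place κ (T.F J'')) :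
    (T.pi h).res ((T.pi h').res R) = (T.pi (h.trans h')).res R := rfl

theorem pull_pi_pi {J J' J'' : Finset (Fin 5)} (h : J ⊆ J') (h' : J' ⊆ J'') (D : Dv κ (T.F J)) :
    (T.pi h').pull ((T.pi h).pull D) = (T.pi (h.trans h')).pull D :=
  ((T.pi h).pull_comp (T.pi h') D).symm.trans (congrFun (FHom.pull_congr _ rfl) D)

theorem tv_pi {J J' : Finset (Fin 5)} (h : J ⊆ J') (R : Place κ (T.F J')) :
    tv (T.tJ J) ((T.pi h).res R) = tv (T.tJ J') R :=
  ((tv_res (T.pi h) (T.tJ J) R).trans (Option.map_id' ..)).symm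

/-- the square, given the condition on the branch points -/
noncomputable def K8a_sq {J : Finset (Fin 5)} {s : Fin 5} (h : s ∈ J)
    (hu : ∀ c : Option κ, Unr (T.tJ {s}) c ∨ Unr (T.tJ (J.erase s)) c) :
    Sq κ (T.F (J.erase s)) (T.F {s}) (T.F J) where
  p' := IntermediateField.inclusion (T.mono (Finset.erase_subset s J))
  p := IntermediateField.inclusion (T.mono (Finset.singleton_subset_iff.2 h))
  t' := T.tJ _
  t := T.tJ _
  comm := rfl
  nc := T.nc_tJ _
  deg' := by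
    have h1 := Finset.card_erase_add_one h
    refine (T.deg_pi (Finset.erase_subset s J)).trans ?_
    rw [T.rk_tJ, Finset.card_singleton]
    congr 1
    omega
  gen := K8a_gen _ _ (by
    rw [← T.sup, Finset.union_comm, ← Finset.insert_eq, Finset.insert_erase h])
  unr := hu

theorem K8a_or {J : Finset (Fin 5)} {s : Fin 5}
    (ih : ∀ c : Option κ, (∀ s' ∈ J.erase s, Unr (T.tJ {s'}) c) → Unr (T.tJ (J.erase s)) c)
    (c : Option κ) : Unr (T.tJ {s}) c ∨ Unr (T.tJ (J.erase s)) c := by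
  by_cases h : Unr (T.tJ {s}) c
  · exact Or.inl h
  · exact Or.inr (ih c fun s' hs' =>
      (T.unr s s' (Finset.ne_of_mem_erase hs').symm c).resolve_left h)

theorem K8a_ind {P : Finset (Fin 5) → Prop} (h0 : P ∅)
    (h1 : ∀ J s, s ∈ J → P (J.erase s) → P J) (J : Finset (Fin 5)) : P J := by
  induction J using Finset.strongInduction with
  | H J ih =>
    rcases J.eq_empty_or_nonempty with rfl | ⟨s, hs⟩
    · exact h0
    · exact h1 J s hs (ih _ (Finset.erase_ssubset hs))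

theorem unr_J (J : Finset (Fin 5)) {c : Option κ} (h : ∀ s ∈ J, Unr (T.tJ {s}) c) :
    Unr (T.tJ J) c := by
  induction J using K8a_ind generalizing c with
  | h0 => exact K8a_unr (T.nc_tJ ∅) (T.rk_tJ ∅) c
  | h1 J s hs ih =>
    exact (T.K8a_sq hs (T.K8a_or fun _ => ih)).unr_top (h s hs)
      (ih fun s' hs' => h s' (Finset.mem_of_mem_erase hs'))

/-- the square -/
noncomputable def K8a_S {J : Finset (Fin 5)} {s : Fin 5} (h : s ∈ J) :
    Sq κ (T.F (J.erase s)) (T.F {s}) (T.F J) := T.K8a_sq h (T.K8a_or fun _ => T.unr_J _)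

/-- the square adding the cover `s` -/
theorem exists_sq {J : Finset (Fin 5)} {s : Fin 5} (h : s ∈ J) :
    ∃ S : Sq κ (T.F (J.erase s)) (T.F {s}) (T.F J), S.q' = T.pi (Finset.erase_subset s J) ∧
      S.q = T.pi (Finset.singleton_subset_iff.2 h) ∧ S.t' = T.tJ _ ∧ S.t = T.tJ _ :=
  ⟨T.K8a_S h, rfl, rfl, rfl, rfl⟩

theorem place_ext (J : Finset (Fin 5)) {R R' : Place κ (T.F J)}
    (h0 : tv (T.tJ J) R = tv (T.tJ J) R')
    (h : ∀ s (hs : s ∈ J), (T.pi (Finset.singleton_subset_iff.2 hs)).res R =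
      (T.pi (Finset.singleton_subset_iff.2 hs)).res R') : R = R' := by
  induction J using K8a_ind with
  | h0 => exact K8a_ext (T.nc_tJ ∅) (T.rk_tJ ∅) h0
  | h1 J s hs ih =>
    refine (T.K8a_S hs).place_ext (ih ?_ fun s' hs' => h s' (Finset.mem_of_mem_erase hs')) (h s hs)
    exact (T.tv_pi (Finset.erase_subset s J) R).trans
      (h0.trans (T.tv_pi (Finset.erase_subset s J) R').symm)

theorem K8a_tv_pr (s : Fin 5) (R : Place κ T.FU) :
    tv (T.tJ {s}) (T.pr s R) = tv (T.tJ Finset.univ) R := T.tv_pi _ R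

theorem pr_ext {R R' : Place κ T.FU} (h : ∀ s, T.pr s R = T.pr s R') : R = R' :=
  T.place_ext _ (by rw [← T.K8a_tv_pr 0, ← T.K8a_tv_pr 0, h]) fun s _ => h s

theorem ln_iff {s : Fin 5} {R R' : Place κ T.FU} :
    T.Ln s R R' ↔ ∀ s', s' ≠ s → T.pr s' R = T.pr s' R' := by
  constructor
  · intro h s' hs'
    have hm : ({s'} : Finset (Fin 5)) ⊆ Finset.univ.erase s :=
      Finset.singleton_subset_iff.2 (Finset.mem_erase.2 ⟨hs', Finset.mem_univ s'⟩)
    unfold Ln at h
    unfold pr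
    rw [← T.res_pi_pi hm (Finset.subset_univ _) R, ← T.res_pi_pi hm (Finset.subset_univ _) R', h]
  · intro h
    obtain ⟨s', hs'⟩ := exists_ne s
    refine T.place_ext _ ?_ fun s'' hs'' => h s'' (Finset.ne_of_mem_erase hs'')
    rw [T.tv_pi, T.tv_pi, ← T.K8a_tv_pr s', ← T.K8a_tv_pr s', h s' hs']

theorem Ln.tv_eq {s : Fin 5} {R R' : Place κ T.FU} (h : T.Ln s R R') :
    tv (T.tJ Finset.univ) R = tv (T.tJ Finset.univ) R' :=
  (T.tv_pi _ R).symm.trans ((congrArg _ h).trans (T.tv_pi _ R'))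

theorem exists_line (s : Fin 5) {R : Place κ T.FU} (h : T.Ur R) :
    ∃ Λ : Finset (Place κ T.FU), Λ.card = n₀ ∧ ∀ R', R' ∈ Λ ↔ T.Ln s R R' := by
  refine ⟨(T.K8a_S (Finset.mem_univ s)).q'.fib ((T.pi (Finset.subset_univ _)).res R), ?_,
    fun R' => (FHom.mem_fib _).trans eq_comm⟩
  refine ((T.K8a_S (Finset.mem_univ s)).card_fib' ?_).trans
    ((T.rk_tJ {s}).trans (by rw [Finset.card_singleton, pow_one]))
  have h1 := h s
  rw [← T.tv_pi (Finset.subset_univ (Finset.univ.erase s))] at h1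
  exact h1

/-- a set which is heavy in all directions is large -/
theorem heavy (D : Finset (Place κ T.FU)) (hD : D.Nonempty)
    (h : ∀ R ∈ D, ∀ s, n₀ ≤ 2 * (D.filter (T.Ln s R)).card) : n₀ ^ 5 ≤ 32 * D.card := by
  obtain ⟨R, hR⟩ := hD
  have h1 := K8a_heavy T.pr (fun _ _ => T.pr_ext) D n₀ T.Ln (fun _ _ _ => T.ln_iff.1) h
    Finset.univ R hR
  simpa using h1

theorem pl_pos_iff (s : Fin 5) (P : Place κ (T.F {s})) (R : Place κ T.FU) :
    0 < T.pl Finset.univ s (pd P) R ↔ T.pr s R = P := by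
  rw [pl, dif_pos (Finset.mem_univ s), FHom.pull_apply, mul_pos_iff_of_pos_left (FHom.F4_e_pos _ R),
    F1_pd_apply]
  split_ifs with e
  · exact iff_of_true one_pos e.symm
  · exact iff_of_false (lt_irrefl _) fun e' => e e'.symm

theorem pl_nonneg (J : Finset (Fin 5)) (s : Fin 5) {N : Dv κ (T.F {s})} (h : 0 ≤ N) :
    0 ≤ T.pl J s N := by
  unfold pl
  split_ifs with e
  · rw [← (T.pi (Finset.singleton_subset_iff.2 e)).pull_zero]
    exact (FHom.pull_le_iff _).2 h
  · exact le_rfl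

theorem deg_pl {J : Finset (Fin 5)} {s : Fin 5} (h : s ∈ J) (N : Dv κ (T.F {s})) :
    deg (T.pl J s N) = (n₀ : ℤ) ^ (J.card - 1) * deg N := by
  rw [pl, dif_pos h, FHom.deg_pull, T.deg_pi, Finset.card_singleton, Nat.cast_pow]

theorem card_pr_le (s : Fin 5) (P : Place κ (T.F {s})) (D : Finset (Place κ T.FU)) :
    (D.filter fun R => T.pr s R = P).card ≤ n₀ ^ 4 :=
  (Finset.card_le_card fun _ hR => (FHom.mem_fib _).2 (Finset.mem_filter.1 hR).2).trans
    (((T.pi (Finset.subset_univ {s})).card_fib_le P).trans_eq (T.deg_pi _))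

theorem card_pr_pr_le {s s' : Fin 5} (h : s ≠ s') (P : Place κ (T.F {s})) (P' : Place κ (T.F {s'}))
    (D : Finset (Place κ T.FU)) :
    (D.filter fun R => T.pr s R = P ∧ T.pr s' R = P').card ≤ n₀ ^ 3 := by
  rcases (D.filter fun R => T.pr s R = P ∧ T.pr s' R = P').eq_empty_or_nonempty with e | ⟨R₀, h0⟩
  · rw [e]
    exact Nat.zero_le _
  obtain ⟨h1, h2⟩ := (Finset.mem_filter.1 h0).2
  refine (Finset.card_le_card fun R hR => (FHom.mem_fib _).2 ?_).trans
    (((T.pi (Finset.subset_univ {s, s'})).card_fib_le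
      ((T.pi (Finset.subset_univ {s, s'})).res R₀)).trans_eq ?_)
  · obtain ⟨h3, h4⟩ := (Finset.mem_filter.1 hR).2
    refine T.place_ext _ ?_ fun r hr => ?_
    · rw [T.tv_pi, T.tv_pi, ← T.K8a_tv_pr s, ← T.K8a_tv_pr s, h1, h3]
    · rcases Finset.mem_insert.1 hr with rfl | hr'
      · exact h3.trans h1.symm
      · obtain rfl := Finset.mem_singleton.1 hr'
        exact h4.trans h2.symm
  · rw [T.deg_pi, Finset.card_pair h]
    rfl

theorem Ty.deg_eq {J : Finset (Fin 5)} {Z : Dv κ (T.F J)} {n : Fin 5 → ℤ} (h : T.Ty J Z n) :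
    deg Z = (n₀ : ℤ) ^ (J.card - 1) * ∑ s, n s := by
  obtain ⟨N, h1, h2, h3⟩ := h
  rw [h3.deg, deg_sum, Finset.mul_sum]
  refine Finset.sum_congr rfl fun s _ => ?_
  by_cases e : s ∈ J
  · rw [T.deg_pl e, h1]
  · rw [pl, dif_neg e, deg_zero, h2 s e, mul_zero]

theorem Ty.sub {J : Finset (Fin 5)} {Z Z' : Dv κ (T.F J)} {n n' : Fin 5 → ℤ} (h : T.Ty J Z n)
    (h' : T.Ty J Z' n') : T.Ty J (Z - Z') (n - n') := by
  obtain ⟨N, h1, h2, h3⟩ := h
  obtain ⟨N', h1', h2', h3'⟩ := h'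
  refine ⟨fun s => N s - N' s, fun s => by rw [deg_sub, h1, h1', Pi.sub_apply],
    fun s hs => by rw [Pi.sub_apply, h2 s hs, h2' s hs, sub_zero], ?_⟩
  have e : ∀ s, T.pl J s (N s - N' s) = T.pl J s (N s) - T.pl J s (N' s) := fun s => by
    unfold pl
    split_ifs
    · exact FHom.pull_sub ..
    · exact (sub_zero _).symm
  simp only [e, Finset.sum_sub_distrib]
  exact h3.sub h3'

theorem K8a_key {J : Finset (Fin 5)} {s : Fin 5} (hs : s ∈ J) (N : ∀ s, Dv κ (T.F {s})) :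
    (T.pi (Finset.erase_subset s J)).pull (∑ s', T.pl (J.erase s) s' (N s')) +
      (T.pi (Finset.singleton_subset_iff.2 hs)).pull (N s) = ∑ s', T.pl J s' (N s') := by
  rw [FHom.pull_sum, ← Finset.add_sum_erase _ _ (Finset.mem_univ s),
    ← Finset.add_sum_erase _ (fun s' => T.pl J s' (N s')) (Finset.mem_univ s), pl,
    dif_neg (Finset.notMem_erase s J), FHom.pull_zero, zero_add, add_comm, pl, dif_pos hs]
  congr 1
  refine Finset.sum_congr rfl fun s' hs' => ?_
  by_cases e : s' ∈ J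
  · rw [pl, pl, dif_pos e, dif_pos (Finset.mem_erase.2 ⟨Finset.ne_of_mem_erase hs', e⟩),
      T.pull_pi_pi]
  · rw [pl, pl, dif_neg e, dif_neg fun e' => e (Finset.mem_of_mem_erase e'), FHom.pull_zero]

theorem K8a_upd (J : Finset (Fin 5)) (s : Fin 5) (N : ∀ s, Dv κ (T.F {s})) (X : Dv κ (T.F {s})) :
    ∑ s', T.pl (J.erase s) s' (Function.update N s X s') = ∑ s', T.pl (J.erase s) s' (N s') := by
  refine Finset.sum_congr rfl fun s' _ => ?_
  by_cases e : s' = s
  · subst e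
    rw [pl, pl, dif_neg (Finset.notMem_erase s' J), dif_neg (Finset.notMem_erase s' J)]
  · rw [Function.update_of_ne e]

theorem K8a_deg_upd {N : ∀ s, Dv κ (T.F {s})} {n : Fin 5 → ℤ} (h : ∀ s, deg (N s) = n s)
    (s : Fin 5) (X : Dv κ (T.F {s})) (s' : Fin 5) :
    deg (Function.update N s X s') = Function.update n s (deg X) s' := by
  by_cases e : s' = s
  · subst e
    rw [Function.update_self, Function.update_self]
  · rw [Function.update_of_ne e, Function.update_of_ne e, h]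

/-- splitting off the cover `s` -/
theorem Ty.split {J : Finset (Fin 5)} {s : Fin 5} (hs : s ∈ J) {Z : Dv κ (T.F J)} {n : Fin 5 → ℤ}
    (h : T.Ty J Z n) : ∃ (M : Dv κ (T.F (J.erase s))) (N : Dv κ (T.F {s})),
      T.Ty (J.erase s) M (Function.update n s 0) ∧ deg N = n s ∧
        LinEq Z ((T.pi (Finset.erase_subset s J)).pull M +
          (T.pi (Finset.singleton_subset_iff.2 hs)).pull N) := by
  obtain ⟨N, h1, h2, h3⟩ := h
  refine ⟨∑ s', T.pl (J.erase s) s' (N s'), N s,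
    ⟨Function.update N s 0, T.K8a_deg_upd h1 s 0, fun s' hs' => ?_, ?_⟩, h1 s, ?_⟩
  · by_cases e : s' = s
    · subst e
      exact Function.update_self ..
    · rw [Function.update_of_ne e]
      exact h2 s' fun e' => hs' (Finset.mem_erase.2 ⟨e, e'⟩)
  · rw [T.K8a_upd]
    exact LinEq.refl _
  · rwa [T.K8a_key hs]

theorem Ty.join {J : Finset (Fin 5)} {s : Fin 5} (hs : s ∈ J) {M : Dv κ (T.F (J.erase s))}
    {n : Fin 5 → ℤ} (h : T.Ty (J.erase s) M n) (N : Dv κ (T.F {s})) :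
    T.Ty J ((T.pi (Finset.erase_subset s J)).pull M +
      (T.pi (Finset.singleton_subset_iff.2 hs)).pull N) (Function.update n s (deg N)) := by
  obtain ⟨N₀, h1, h2, h3⟩ := h
  refine ⟨Function.update N₀ s N, T.K8a_deg_upd h1 s N, fun s' hs' => ?_, ?_⟩
  · rw [Function.update_of_ne fun e : s' = s => hs' (e ▸ hs)]
    exact h2 s' fun e => hs' (Finset.mem_of_mem_erase e)
  · rw [← T.K8a_key hs, T.K8a_upd, Function.update_self]
    exact (FHom.linEq_pull _ h3).add (LinEq.refl _)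

end Tw

end Pool.Agent.E6b

end

section
open scoped NNReal TensorProduct IntermediateField BigOperators Classical Topology
open Filter

namespace Pool.Agent.E6b

section
variable {κ F : Type} [Field κ] [IsAlgClosed κ] [CharZero κ] [Field F] [Algebra κ F] [IsFF κ F]
  (o : Place κ F) (Ω : Type) [Field Ω] [IsAlgClosed Ω] [CharZero Ω] [Algebra κ Ω]
variable {o Ω}
variable (o Ω)

/-- divisors equivalent to a multiple of the place at infinity -/
def prin : AddSubgroup (DO o Ω) where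
  carrier := {D | ∃ k : ℤ, LinEq D (k • pd (oo o Ω))}
  zero_mem' := ⟨0, by simpa using LinEq.refl 0⟩
  add_mem' := by
    rintro a b ⟨k, hk⟩ ⟨l, hl⟩
    exact ⟨k + l, by rw [add_smul]; exact hk.add hl⟩
  neg_mem' := by
    rintro a ⟨k, hk⟩
    exact ⟨-k, by rw [neg_smul]; exact hk.neg⟩

/-- the group of divisor classes of degree zero -/
abbrev Cl : Type := DO o Ω ⧸ prin o Ω

/-- class of a divisor -/
noncomputable def clD : DO o Ω →+ Cl o Ω := QuotientAddGroup.mk' (prin o Ω)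
variable {o Ω}

/-- dimension of the class of degree `m` attached to `w` -/
noncomputable def ellC (m : ℤ) (w : Cl o Ω) : ℕ :=
  ell (w.out + (m - deg w.out) • pd (oo o Ω))

/-- `w` is outside the theta divisor -/
def Th (w : Cl o Ω) : Prop := ellC ((genus κ F : ℤ) - 1) (-w) = 0

end

section
variable {κ F : Type} [Field κ] [IsAlgClosed κ] [CharZero κ] [Field F] [Algebra κ F] [IsFF κ F]
variable {o : Place κ F} {Ω Ω' Ω'' : Type} [Field Ω] [IsAlgClosed Ω] [CharZero Ω] [Algebra κ Ω]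
  [Field Ω'] [IsAlgClosed Ω'] [CharZero Ω'] [Algebra κ Ω']
  [Field Ω''] [IsAlgClosed Ω''] [CharZero Ω''] [Algebra κ Ω'']

noncomputable def BC.refl (o : Place κ F) (Ω : Type) [Field Ω] [Algebra κ Ω] : BC o Ω Ω where
  τ := RingHom.id Ω
  φ := RingHom.id _
  map_c := fun _ => rfl
  map_eb := fun _ => rfl

end

end Pool.Agent.E6b

end

section
open scoped NNReal TensorProduct IntermediateField BigOperators Classical Topology
open Filter

namespace Pool.Agent.E6b
variable {κ F : Type} [Field κ] [IsAlgClosed κ] [CharZero κ] [Field F] [Algebra κ F] [IsFF κ F]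
  {o : Place κ F} {Ω : Type} [Field Ω] [IsAlgClosed Ω] [CharZero Ω] [Algebra κ Ω]
  {ι ι' : Type} [Fintype ι] [Fintype ι']

theorem clD_surj (w : Cl o Ω) : ∃ D, clD o Ω D = w := QuotientAddGroup.mk'_surjective _ w

theorem clD_eq_iff {D E : DO o Ω} :
    clD o Ω D = clD o Ω E ↔ ∃ k : ℤ, LinEq D (E + k • pd (oo o Ω)) := by
  rw [clD, QuotientAddGroup.mk'_apply, QuotientAddGroup.mk'_apply, QuotientAddGroup.eq]
  constructor
  · rintro ⟨k, f, hf, h⟩
    refine ⟨-k, f⁻¹, inv_ne_zero hf, ?_⟩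
    rw [neg_smul, h, dv_inv]; abel
  · rintro ⟨k, f, hf, h⟩
    refine ⟨-k, f⁻¹, inv_ne_zero hf, ?_⟩
    rw [neg_smul, dv_inv, eq_sub_of_add_eq' h]; abel

theorem clD_eq_iff' {D E : DO o Ω} :
    clD o Ω D = clD o Ω E ↔ LinEq D (E + (deg D - deg E) • pd (oo o Ω)) := by
  rw [clD_eq_iff]
  refine ⟨?_, fun h => ⟨_, h⟩⟩
  rintro ⟨k, h⟩
  have := h.deg
  rw [deg_add, deg_zsmul, deg_pd] at this
  rwa [show deg D - deg E = k by omega]

theorem clD_eq_iff_of_deg {D E : DO o Ω} (h : deg D = deg E) :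
    clD o Ω D = clD o Ω E ↔ LinEq D E := by
  rw [clD_eq_iff', h, sub_self, zero_smul, add_zero]

theorem clD_oo : clD o Ω (pd (oo o Ω)) = 0 := by
  rw [← map_zero (clD o Ω), clD_eq_iff]
  exact ⟨1, by simpa using LinEq.refl _⟩

theorem LinEq.clD {D E : DO o Ω} (h : LinEq D E) : clD o Ω D = clD o Ω E :=
  (clD_eq_iff_of_deg h.deg).2 h

theorem O3_clD_add (D : DO o Ω) (k : ℤ) : clD o Ω (D + k • pd (oo o Ω)) = clD o Ω D := by
  rw [map_add, map_zsmul, clD_oo, smul_zero, add_zero]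

theorem ellC_clD (m : ℤ) (D : DO o Ω) :
    ellC m (clD o Ω D) = ell (D + (m - deg D) • pd (oo o Ω)) := by
  have h : clD o Ω (clD o Ω D).out = clD o Ω D := QuotientAddGroup.out_eq' _
  refine LinEq.ell ((clD_eq_iff_of_deg ?_).1 ?_)
  · simp only [deg_add, deg_zsmul, deg_pd]; ring
  · rw [O3_clD_add, O3_clD_add, h]

theorem th_clD (D : DO o Ω) :
    Th (clD o Ω D) ↔ ell ((deg D + genus κ F - 1) • pd (oo o Ω) - D) = 0 := by
  rw [Th, ← map_neg, ellC_clD, deg_neg, neg_add_eq_sub,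
    show (genus κ F : ℤ) - 1 - -deg D = deg D + genus κ F - 1 by ring]

end Pool.Agent.E6b

end

section
open scoped NNReal TensorProduct IntermediateField BigOperators Classical Topology
open Filter

namespace Pool.Agent.E6b
variable {κ F : Type} [Field κ] [IsAlgClosed κ] [CharZero κ] [Field F] [Algebra κ F] [IsFF κ F]
  {o : Place κ F} {Ω Ω' : Type} [Field Ω] [IsAlgClosed Ω] [CharZero Ω] [Algebra κ Ω]
  [Field Ω'] [IsAlgClosed Ω'] [CharZero Ω'] [Algebra κ Ω'] {ι ι' : Type} [Fintype ι] [Fintype ι']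

theorem Prp.refl {ι K : Type*} [Field K] (x : ι → K) : Prp x x :=
  ⟨1, one_ne_zero, fun _ => (one_mul _).symm⟩

theorem P1_th {w : Cl o Ω} {D : DO o Ω} (hD : deg D = genus κ F - 1) (h : clD o Ω D = -w)
    (h0 : ell D = 0) : Th w := by
  unfold Th
  rw [← h, ellC_clD, hD, sub_self, zero_smul, add_zero, h0]

end Pool.Agent.E6b

end

section
open scoped NNReal TensorProduct IntermediateField BigOperators Classical Topology
open Filter

namespace Pool.Agent.E6b
variable {κ F : Type} [Field κ] [IsAlgClosed κ] [CharZero κ] [Field F] [Algebra κ F] [IsFF κ F]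
  {o : Place κ F} {Ω : Type} [Field Ω] [IsAlgClosed Ω] [CharZero Ω] [Algebra κ Ω]
  {ι ι' : Type} [Fintype ι] [Fintype ι']

/-- exchange of the last two blocks -/
def P2e (α β γ : Type) : (α ⊕ β) ⊕ γ ≃ (α ⊕ γ) ⊕ β :=
  (Equiv.sumAssoc _ _ _).trans
    (((Equiv.refl α).sumCongr (Equiv.sumComm _ _)).trans (Equiv.sumAssoc _ _ _).symm)

end Pool.Agent.E6b

end

section
open scoped BigOperators Classical Pointwise

namespace Pool.Agent.E6b

/-- few points lie on lines which are more than half covered by `X` -/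
theorem K9a_bad {P : Type} (Ln : P → P → Prop) (hs : ∀ a b, Ln a b → Ln b a)
    (ht : ∀ a b c, Ln a b → Ln b c → Ln a c) {n : ℕ} (hn : 0 < n) (D X : Finset P)
    (hl : ∀ a ∈ D, ∃ Λ : Finset P, Λ.card = n ∧ ∀ b, b ∈ Λ ↔ Ln a b) :
    (D.filter fun a => n < 2 * (X.filter (Ln a)).card).card ≤ 2 * X.card := by
  set Bd := D.filter fun a => n < 2 * (X.filter (Ln a)).card with hBd
  have h1 : ∑ a ∈ Bd, (X.filter (Ln a)).card = ∑ x ∈ X, (Bd.filter fun a => Ln a x).card := by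
    simp only [Finset.card_filter]
    exact Finset.sum_comm
  have h2 : ∑ x ∈ X, (Bd.filter fun a => Ln a x).card ≤ X.card * n := by
    rw [← smul_eq_mul]
    refine Finset.sum_le_card_nsmul _ _ _ fun x _ => ?_
    rcases (Bd.filter fun a => Ln a x).eq_empty_or_nonempty with e | ⟨a, ha⟩
    · rw [e]; exact Nat.zero_le _
    · obtain ⟨ha1, ha2⟩ := Finset.mem_filter.1 ha
      obtain ⟨Λ, hΛ, hΛm⟩ := hl a (Finset.mem_filter.1 ha1).1
      rw [← hΛ]
      refine Finset.card_le_card fun b hb => (hΛm b).2 ?_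
      exact ht _ _ _ ha2 (hs _ _ (Finset.mem_filter.1 hb).2)
  have h3 : Bd.card * n ≤ 2 * ∑ a ∈ Bd, (X.filter (Ln a)).card := by
    rw [Finset.mul_sum, ← smul_eq_mul]
    exact Finset.card_nsmul_le_sum _ _ _ fun a ha => (Finset.mem_filter.1 ha).2.le
  refine Nat.le_of_mul_le_mul_right (c := n) ?_ hn
  calc Bd.card * n ≤ 2 * (X.card * n) := by omega
    _ = _ := by ring

end Pool.Agent.E6b

end

section
open scoped NNReal TensorProduct IntermediateField BigOperators Classical Topology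
open Filter

namespace Pool.Agent.E6b
variable {L : Type} [Field L] [Algebra Qb L] {n₀ B : ℕ} {T : Tw Qb L n₀ B} (G : TwG T)

namespace TwG

theorem K9a_psi (σ : Qb ≃ₐ[ℚ] Qb) (s : Fin 5) :
    ∃ ψ : FHom Qb (T.F {s}) (T.F {G.perm σ s}), Function.Surjective ψ.f ∧
      ((G.A.fh σ).comp (T.pi (Finset.subset_univ {s}))).f =
        ((T.pi (Finset.subset_univ {G.perm σ s})).comp ψ).f ∧
      (∀ R, ψ.res (T.pr (G.perm σ s) (G.A.sm σ R)) = T.pr s R) ∧
      ∀ c : Option Qb, ψ.f (lc (T.tJ {s}) c) = lc (T.tJ {G.perm σ s}) (c.map σ) := by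
  obtain ⟨ψ, h1, h2⟩ := G.eqv σ s
  have hinj := (T.pi (Finset.subset_univ {G.perm σ s})).f.injective
  have ht : ψ.f (T.tJ {s}) = T.tJ {G.perm σ s} := by
    apply hinj
    rw [← h2, T.pi_tJ, T.pi_tJ, G.fix]
  have hc : ∀ c : Qb, ψ.f (algebraMap Qb _ c) = algebraMap Qb _ (σ c) := by
    intro c
    apply hinj
    rw [← h2, FHom.comm, FHom.comm]
    exact G.A.comm σ c
  refine ⟨ψ, h1, RingHom.ext h2, fun R => ?_, ?_⟩
  · ext x
    change (T.pi (Finset.subset_univ {G.perm σ s})).f (ψ.f x) ∈ (G.A.sm σ R).O ↔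
      (T.pi (Finset.subset_univ {s})).f x ∈ R.O
    rw [← h2, GAct.mem_sm]
  · rintro (_ | c)
    · change ψ.f (T.tJ {s})⁻¹ = (T.tJ {G.perm σ s})⁻¹
      rw [map_inv₀, ht]
    · change ψ.f (T.tJ {s} - algebraMap Qb _ c) = T.tJ {G.perm σ s} - algebraMap Qb _ (σ c)
      rw [map_sub, ht, hc]

theorem tv_sm (σ : Qb ≃ₐ[ℚ] Qb) (R : Place Qb T.FU) :
    tv (T.tJ Finset.univ) (G.A.sm σ R) = (tv (T.tJ Finset.univ) R).map σ := by
  have h1 := G.A.mem_sm σ R (T.tJ Finset.univ)
  have h2 := G.A.ev_sm σ R (T.tJ Finset.univ)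
  rw [G.fix] at h1 h2
  unfold tv
  by_cases h : T.tJ Finset.univ ∈ R.O
  · rw [if_pos h, if_pos (h1.2 h), h2]
    rfl
  · rw [if_neg h, if_neg fun e => h (h1.1 e)]
    rfl

theorem pr_sm_iff (σ : Qb ≃ₐ[ℚ] Qb) (s : Fin 5) (R R' : Place Qb T.FU) :
    T.pr (G.perm σ s) (G.A.sm σ R) = T.pr (G.perm σ s) (G.A.sm σ R') ↔ T.pr s R = T.pr s R' := by
  obtain ⟨ψ, h1, -, h3, -⟩ := G.K9a_psi σ s
  rw [← h3 R, ← h3 R']
  exact (ψ.res_bij h1).injective.eq_iff.symm

theorem ln_sm_iff (σ : Qb ≃ₐ[ℚ] Qb) (s : Fin 5) (R R' : Place Qb T.FU) :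
    T.Ln (G.perm σ s) (G.A.sm σ R) (G.A.sm σ R') ↔ T.Ln s R R' := by
  rw [T.ln_iff, T.ln_iff]
  constructor
  · intro h s' hs'
    exact (G.pr_sm_iff σ s' R R').1 (h _ fun e => hs' ((G.perm σ).injective e))
  · intro h s' hs'
    obtain ⟨s'', rfl⟩ := (G.perm σ).surjective s'
    exact (G.pr_sm_iff σ s'' R R').2 (h s'' fun e => hs' (congrArg _ e))

theorem ur_sm (σ : Qb ≃ₐ[ℚ] Qb) {R : Place Qb T.FU} (h : T.Ur R) : T.Ur (G.A.sm σ R) := by
  intro s'
  obtain ⟨s, rfl⟩ := (G.perm σ).surjective s'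
  obtain ⟨ψ, h1, -, -, h4⟩ := G.K9a_psi σ s
  intro P hP
  rw [G.tv_sm, ← h4, ψ.ord_map, ψ.e_eq_one h1, Nat.cast_one, one_mul] at hP ⊢
  exact h s _ hP

theorem ty_act (σ : Qb ≃ₐ[ℚ] Qb) {Z : Dv Qb T.FU} {n : Fin 5 → ℤ} (h : T.Ty Finset.univ Z n) :
    T.Ty Finset.univ ((G.A.fh σ).pull Z) fun s => n ((G.perm σ)⁻¹ s) := by
  obtain ⟨N, hN, -, hZ⟩ := h
  choose ψ h1 h2 h3 h4 using G.K9a_psi σ
  refine ⟨Equiv.piCongrLeft (fun s' => Dv Qb (T.F {s'})) (G.perm σ) fun s => (ψ s).pull (N s),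
    fun s' => ?_, fun s hs => absurd (Finset.mem_univ s) hs, ?_⟩
  · obtain ⟨s, rfl⟩ := (G.perm σ).surjective s'
    rw [Equiv.piCongrLeft_apply_apply, FHom.deg_pull, (ψ s).deg_eq_one_iff.2 (h1 s), hN]
    simp
  · have e := (G.A.fh σ).linEq_pull hZ
    rw [FHom.pull_sum] at e
    rw [← Equiv.sum_comp (G.perm σ)]
    refine (Finset.sum_congr rfl fun s _ => ?_ :
      ∑ s, (G.A.fh σ).pull (T.pl Finset.univ s (N s)) = _) ▸ e
    rw [Equiv.piCongrLeft_apply_apply]
    unfold Tw.pl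
    rw [dif_pos (Finset.mem_univ _), dif_pos (Finset.mem_univ _), ← FHom.pull_comp,
      ← FHom.pull_comp, FHom.pull_congr _ (h2 s)]

/-- vertical points of an orbit are few -/
theorem overlap_le (K : IntermediateField ℚ Qb) (R₀ : Place Qb T.FU) (hR : T.Ur R₀)
    (hD : 32 * (G.A.finite_orb K R₀).toFinset.card < n₀ ^ 5) (S X : Finset (Place Qb T.FU))
    (hS : S ⊆ (G.A.finite_orb K R₀).toFinset) (Sm : Fin 5 → Finset (Place Qb T.FU))
    (h : ∀ s, ∀ R ∈ S, R ∉ Sm s → ∀ R', T.Ln s R R' → R' ∈ G.A.orb K R₀ ∨ R' ∈ X) :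
    S.card ≤ ∑ s, (Sm s).card + 10 * X.card := by
  by_contra hc
  set D := (G.A.finite_orb K R₀).toFinset with hDdef
  have hmem : ∀ R, R ∈ D ↔ R ∈ G.A.orb K R₀ := fun R => Set.Finite.mem_toFinset _
  have hur : ∀ R ∈ D, T.Ur R := fun R hRD => by
    obtain ⟨σ, -, rfl⟩ := (hmem R).1 hRD
    exact G.ur_sm σ hR
  have hbad : ∀ s, (D.filter fun R => n₀ < 2 * (X.filter (T.Ln s R)).card).card ≤ 2 * X.card :=
    fun s => K9a_bad (T.Ln s) (fun _ _ e => Eq.symm e) (fun _ _ _ e e' => Eq.trans e e')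
      T.n₀_pos D X fun R hRD => T.exists_line s (hur R hRD)
  obtain ⟨R, hRS, hRn⟩ : ∃ R ∈ S, R ∉ Finset.univ.biUnion fun s =>
      Sm s ∪ D.filter fun R => n₀ < 2 * (X.filter (T.Ln s R)).card := by
    refine Finset.exists_mem_notMem_of_card_lt_card (lt_of_le_of_lt ?_ (not_le.1 hc))
    refine Finset.card_biUnion_le.trans ?_
    refine (Finset.sum_le_sum fun s _ => (Finset.card_union_le _ _).trans
      (Nat.add_le_add_left (hbad s) _)).trans (le_of_eq ?_)
    rw [Finset.sum_add_distrib, Finset.sum_const, Finset.card_univ, Fintype.card_fin, smul_eq_mul]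
    ring
  have hRD := hS hRS
  have hheavy : ∀ s, n₀ ≤ 2 * (D.filter (T.Ln s R)).card := by
    intro s
    have hn : R ∉ Sm s ∪ D.filter fun R => n₀ < 2 * (X.filter (T.Ln s R)).card :=
      fun e => hRn (Finset.mem_biUnion.2 ⟨s, Finset.mem_univ _, e⟩)
    rw [Finset.mem_union, not_or, Finset.mem_filter] at hn
    have h2 : 2 * (X.filter (T.Ln s R)).card ≤ n₀ := not_lt.1 fun e => hn.2 ⟨hRD, e⟩
    obtain ⟨Λ, hΛ, hΛm⟩ := T.exists_line s (hur R hRD)
    have h3 : Λ ⊆ D.filter (T.Ln s R) ∪ X.filter (T.Ln s R) := by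
      intro R' hR'
      have hl := (hΛm R').1 hR'
      rcases h s R hRS hn.1 R' hl with e | e
      · exact Finset.mem_union_left _ (Finset.mem_filter.2 ⟨(hmem R').2 e, hl⟩)
      · exact Finset.mem_union_right _ (Finset.mem_filter.2 ⟨e, hl⟩)
    have h4 := (Finset.card_le_card h3).trans (Finset.card_union_le _ _)
    omega
  have key := T.heavy D ⟨R, hRD⟩ fun R' hR' s' => by
    have hR'' : R' ∈ G.A.orb K R := by
      rw [G.A.orb_eq_of_mem ((hmem R).1 hRD)]
      exact (hmem R').1 hR'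
    obtain ⟨σ, hσ, rfl⟩ := hR''
    obtain ⟨s, rfl⟩ := (G.perm σ).surjective s'
    refine (hheavy s).trans (Nat.mul_le_mul_left 2 ?_)
    refine Finset.card_le_card_of_injOn (G.A.sm σ) (fun Q hQ => ?_)
      (G.A.sm_injective σ).injOn
    rw [Finset.mem_coe, Finset.mem_filter] at hQ ⊢
    exact ⟨G.A.stab_orb K R₀ σ hσ Q hQ.1, (G.ln_sm_iff σ s R Q).2 hQ.2⟩
  omega

end TwG

end Pool.Agent.E6b

end

section
open scoped NNReal TensorProduct IntermediateField BigOperators Classical Topology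
open Filter

namespace Pool.Agent.E6b

section
variable {κ F : Type} [Field κ] [IsAlgClosed κ] [CharZero κ] [Field F] [Algebra κ F] [IsFF κ F]

theorem K6_LL_inf (A B : Dv κ F) : LL (A ⊓ B) = LL A ⊓ LL B := by
  refine le_antisymm (le_inf (LL_mono inf_le_left) (LL_mono inf_le_right)) fun f hf => ?_
  by_cases h0 : f = 0
  · exact mem_LL.2 (Or.inl h0)
  refine mem_LL.2 (Or.inr fun P => ?_)
  have h1 := (mem_LL.1 hf.1).resolve_left h0 P
  have h2 := (mem_LL.1 hf.2).resolve_left h0 P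
  rw [Finsupp.inf_apply]
  omega

theorem K6_deg_sup (A B : Dv κ F) : deg (A ⊔ B) + deg (A ⊓ B) = deg A + deg B := by
  rw [← deg_add, ← deg_add, add_comm, inf_add_sup]

theorem K6_LL_sup (hg : genus κ F = 1) {A B : Dv κ F} (h : 0 < deg (A ⊓ B)) :
    LL (A ⊔ B) = LL A ⊔ LL B := by
  refine (Submodule.eq_of_le_of_finrank_eq
    (sup_le (LL_mono le_sup_left) (LL_mono le_sup_right)) ?_).symm
  have h1 := Submodule.finrank_sup_add_finrank_inf_eq (LL A) (LL B)
  rw [← K6_LL_inf] at h1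
  have hA : deg (A ⊓ B) ≤ deg A := deg_mono inf_le_left
  have hB : deg (A ⊓ B) ≤ deg B := deg_mono inf_le_right
  have hC : deg A ≤ deg (A ⊔ B) := deg_mono le_sup_left
  have e1 := ell_genus_one hg h
  have e2 := ell_genus_one hg (D := A) (by omega)
  have e3 := ell_genus_one hg (D := B) (by omega)
  have e4 := ell_genus_one hg (D := A ⊔ B) (by omega)
  have e5 := K6_deg_sup A B
  unfold ell at e1 e2 e3 e4
  omega

theorem K6_one_mem {M : Dv κ F} (h : 0 ≤ M) : (1 : F) ∈ LL M :=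
  (mem_LL_iff one_ne_zero).2 (by simpa [F1_dv_one] using h)

theorem K6_dinf_nonneg (f : F) : 0 ≤ dinf κ f := fun Q => by
  rw [dinf_apply]; exact le_max_right _ _

theorem K6_span_one : Submodule.span κ (Set.range ![(1 : F)]) = LL (0 : Dv κ F) := by
  refine Submodule.eq_of_le_of_finrank_eq (Submodule.span_le.2 ?_) ?_
  · rintro _ ⟨i, rfl⟩
    simpa using K6_one_mem (le_refl (0 : Dv κ F))
  · have h := ell_zero (κ := κ) (F := F)
    unfold ell at h
    rw [h, Matrix.range_cons, Matrix.range_empty, Set.union_empty,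
      finrank_span_singleton one_ne_zero]

end

section
variable {κ F' E : Type} [Field κ] [IsAlgClosed κ] [CharZero κ] [Field F'] [Algebra κ F']
  [IsFF κ F'] [Field E] [Algebra κ E] [IsFF κ E]

theorem K6_tmul_mem {M : Dv κ F'} {N : Dv κ E} {c : F'} {u : E} (hc : c ∈ LL M) (hu : u ∈ LL N) :
    c ⊗ₜ[κ] u ∈ LT2 M N := Submodule.apply_mem_map₂ _ hc hu

theorem K6_const {M : Dv κ F'} {G : F' ⊗[κ] E} (h : G ∈ LT2 M (0 : Dv κ E)) :
    ∃ c ∈ LL M, G = c ⊗ₜ[κ] 1 := by
  obtain ⟨c, hc, rfl⟩ := (mem_LT2_iff K6_span_one).1 h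
  exact ⟨c 0, hc 0, by simp⟩

theorem K6_bound (G : F' ⊗[κ] E) : ∃ (M : Dv κ F') (N : Dv κ E), 0 ≤ M ∧ G ∈ LT2 M N := by
  induction G using TensorProduct.induction_on with
  | zero => exact ⟨0, 0, le_rfl, zero_mem _⟩
  | tmul c u => exact ⟨_, _, K6_dinf_nonneg c, K6_tmul_mem (mem_LL_dinf c) (mem_LL_dinf u)⟩
  | add x y hx hy =>
    obtain ⟨M, N, hM, h⟩ := hx
    obtain ⟨M', N', -, h'⟩ := hy
    exact ⟨M ⊔ M', N ⊔ N', hM.trans le_sup_left,
      add_mem (LT2_mono le_sup_left le_sup_left h) (LT2_mono le_sup_right le_sup_right h')⟩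

end

end Pool.Agent.E6b

end

section
open scoped NNReal TensorProduct IntermediateField BigOperators Classical Topology
open Filter

namespace Pool.Agent.E6b

namespace Tw

section
variable {κ L : Type} [Field κ] [IsAlgClosed κ] [CharZero κ] [Field L] [Algebra κ L] {n₀ B : ℕ}
  (T : Tw κ L n₀ B)

theorem K8_rk_single (s : Fin 5) : rk κ (T.tJ {s}) = n₀ := by
  rw [T.rk_tJ, Finset.card_singleton, pow_one]

theorem K8_deg_dinf (J : Finset (Fin 5)) : deg (dinf κ (T.tJ J)) = (n₀ : ℤ) ^ J.card := by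
  rw [deg_dinf_rk (T.nc_tJ J), T.rk_tJ]
  push_cast
  rfl

theorem K8_ell_zero {F : Type} [Field F] [Algebra κ F] [IsFF κ F] {D : Dv κ F} (h : deg D < 0) :
    ell D = 0 := ell_eq_zero_iff.2 (LL_eq_bot h)

/-- the product formula on the square adding the cover `s` -/
theorem K8_ell_sq {J : Finset (Fin 5)} {s : Fin 5} (hs : s ∈ J) (M : Dv κ (T.F (J.erase s)))
    (N : Dv κ (T.F {s})) (hM : deg M < (n₀ : ℤ) ^ (J.erase s).card) (hN : deg N < n₀) :
    ell ((T.pi (Finset.erase_subset s J)).pull M +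
      (T.pi (Finset.singleton_subset_iff.2 hs)).pull N) = ell M * ell N := by
  obtain ⟨S, hq', hq, ht', ht⟩ := T.exists_sq hs
  have h1 : ell (M - dinf κ S.t') = 0 := by
    apply K8_ell_zero
    rw [deg_sub, ht', T.K8_deg_dinf]
    omega
  have h2 : deg N < rk κ S.t := by
    rw [ht, T.K8_rk_single]
    exact hN
  have h3 := S.ell_hf h1 h2
  rwa [hq', hq] at h3

theorem K8_sum_pl {J : Finset (Fin 5)} {s : Fin 5} (hs : s ∈ J) (N : ∀ s, Dv κ (T.F {s})) :
    ∑ s', T.pl J s' (N s') =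
      (T.pi (Finset.erase_subset s J)).pull (∑ s', T.pl (J.erase s) s' (N s')) +
        (T.pi (Finset.singleton_subset_iff.2 hs)).pull (N s) := by
  rw [FHom.pull_sum, ← Finset.add_sum_erase _ _ (Finset.mem_univ s),
    ← Finset.add_sum_erase _ (fun s' => (T.pi (Finset.erase_subset s J)).pull
      (T.pl (J.erase s) s' (N s'))) (Finset.mem_univ s)]
  have h1 : T.pl (J.erase s) s (N s) = 0 := by
    unfold pl
    rw [dif_neg (Finset.notMem_erase s J)]
  have h2 : T.pl J s (N s) = (T.pi (Finset.singleton_subset_iff.2 hs)).pull (N s) := by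
    unfold pl
    rw [dif_pos hs]
  rw [h1, h2, FHom.pull_zero, zero_add, add_comm]
  congr 1
  refine Finset.sum_congr rfl fun s' hs' => ?_
  have hne : s' ≠ s := Finset.ne_of_mem_erase hs'
  by_cases hJ : s' ∈ J
  · have hJ' : s' ∈ J.erase s := Finset.mem_erase.2 ⟨hne, hJ⟩
    unfold pl
    rw [dif_pos hJ, dif_pos hJ', T.pull_pi_pi]
  · have hJ' : s' ∉ J.erase s := fun h => hJ (Finset.mem_of_mem_erase h)
    unfold pl
    rw [dif_neg hJ, dif_neg hJ', FHom.pull_zero]

theorem K8_deg_sum_pl (h5 : 5 < n₀) (J : Finset (Fin 5)) (N : ∀ s, Dv κ (T.F {s}))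
    (hN : ∀ s, deg (N s) ≤ 1) : deg (∑ s, T.pl J s (N s)) < (n₀ : ℤ) ^ J.card := by
  have hn0 : (5 : ℤ) < n₀ := by exact_mod_cast h5
  rcases J.eq_empty_or_nonempty with rfl | hJ
  · have h1 : ∀ s, T.pl ∅ s (N s) = 0 := fun s => by
      unfold pl
      rw [dif_neg (Finset.notMem_empty s)]
    rw [Finset.sum_congr rfl fun s _ => h1 s, Finset.sum_const_zero, deg_zero]
    simp
  · have hc : J.card = (J.card - 1) + 1 := by
      have := hJ.card_pos
      omega
    have hp : (0 : ℤ) < (n₀ : ℤ) ^ (J.card - 1) := by positivity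
    have h1 : ∀ s, deg (T.pl J s (N s)) ≤ (n₀ : ℤ) ^ (J.card - 1) := fun s => by
      by_cases hs : s ∈ J
      · rw [T.deg_pl hs]
        have := mul_le_mul_of_nonneg_left (hN s) hp.le
        rwa [mul_one] at this
      · unfold pl
        rw [dif_neg hs, deg_zero]
        exact hp.le
    have h2 := Finset.sum_le_sum fun s (_ : s ∈ (Finset.univ : Finset (Fin 5))) => h1 s
    rw [Finset.sum_const, Finset.card_univ, Fintype.card_fin] at h2
    rw [deg_sum]
    have h3 : (n₀ : ℤ) ^ J.card = (n₀ : ℤ) ^ (J.card - 1) * n₀ := by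
      rw [← pow_succ, ← hc]
    rw [h3]
    have h4 : (5 : ℕ) • (n₀ : ℤ) ^ (J.card - 1) = (n₀ : ℤ) ^ (J.card - 1) * 5 := by
      rw [nsmul_eq_mul]
      push_cast
      ring
    rw [h4] at h2
    exact h2.trans_lt (mul_lt_mul_of_pos_left hn0 hp)

theorem K8_ell_prod (h5 : 5 < n₀) (N : ∀ s, Dv κ (T.F {s})) (hN : ∀ s, deg (N s) ≤ 1) (k : ℕ) :
    ∀ J : Finset (Fin 5), J.card = k → ell (∑ s, T.pl J s (N s)) = ∏ s ∈ J, ell (N s) := by
  induction k with
  | zero =>
    intro J hJ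
    obtain rfl := Finset.card_eq_zero.1 hJ
    have h1 : ∀ s, T.pl ∅ s (N s) = 0 := fun s => by
      unfold pl
      rw [dif_neg (Finset.notMem_empty s)]
    rw [Finset.sum_congr rfl fun s _ => h1 s, Finset.sum_const_zero, ell_zero, Finset.prod_empty]
  | succ k ih =>
    intro J hJ
    obtain ⟨s, hs⟩ : J.Nonempty := Finset.card_pos.1 (by omega)
    have hc : (J.erase s).card = k := by
      rw [Finset.card_erase_of_mem hs]
      omega
    have hn0 : (5 : ℤ) < n₀ := by exact_mod_cast h5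
    have h1 := hN s
    rw [T.K8_sum_pl hs, T.K8_ell_sq hs _ _ (T.K8_deg_sum_pl h5 _ N hN) (by omega), ih _ hc,
      Finset.prod_erase_mul _ _ hs]

theorem K8_linEq_pl (J : Finset (Fin 5)) (s : Fin 5) {N N' : Dv κ (T.F {s})} (h : LinEq N N') :
    LinEq (T.pl J s N) (T.pl J s N') := by
  unfold pl
  by_cases hs : s ∈ J
  · rw [dif_pos hs, dif_pos hs]
    exact FHom.linEq_pull _ h
  · rw [dif_neg hs, dif_neg hs]
    exact LinEq.refl _

theorem K8_pl_zsmul (J : Finset (Fin 5)) (s : Fin 5) (m : ℤ) (N : Dv κ (T.F {s})) :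
    T.pl J s (m • N) = m • T.pl J s N := by
  unfold pl
  by_cases hs : s ∈ J
  · rw [dif_pos hs, dif_pos hs, FHom.pull_zsmul]
  · rw [dif_neg hs, dif_neg hs, smul_zero]

theorem K8_pd_nonneg {F : Type} [Field F] [Algebra κ F] (P : Place κ F) : 0 ≤ pd P := by
  intro Q
  rw [F1_pd_apply]
  split_ifs <;> simp

theorem ty_rigid (h5 : 5 < n₀) {Z : Dv κ T.FU} {n : Fin 5 → ℤ} (h : T.Ty Finset.univ Z n)
    (hZ : 0 ≤ Z) (hn : ∀ s, n s = 0 ∨ n s = 1) :
    ∃ P : ∀ s, Place κ (T.F {s}), Z = ∑ s, n s • T.pl Finset.univ s (pd (P s)) := by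
  obtain ⟨N, hN, -, hlin⟩ := h
  have hN1 : ∀ s, deg (N s) ≤ 1 := fun s => by
    have := hN s
    have := hn s
    omega
  have hprod := T.K8_ell_prod h5 N hN1 _ Finset.univ rfl
  rw [← hlin.ell] at hprod
  have hZ1 := one_le_ell hZ
  have hpos : ∀ s, 0 < ell (N s) := fun s => by
    by_contra h0
    have h1 : ell (N s) = 0 := by omega
    rw [Finset.prod_eq_zero (Finset.mem_univ s) h1] at hprod
    omega
  have key : ∀ s, ∃ P : Place κ (T.F {s}), LinEq (N s) (n s • pd P) ∧ ell (N s) = 1 := fun s => by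
    rcases hn s with h0 | h1
    · obtain ⟨P⟩ : Nonempty (Place κ (T.F {s})) := inferInstance
      have h2 := linEq_zero_of_ell_pos (by rw [hN, h0]) (hpos s)
      refine ⟨P, by rw [h0, zero_smul]; exact h2, by rw [h2.ell, ell_zero]⟩
    · obtain ⟨P, hP⟩ := exists_pd_of_genus_one (T.g1 s) (D := N s) (by rw [hN, h1])
      have h2 := ell_genus_one (T.g1 s) (D := N s) (by rw [hN, h1]; exact one_pos)
      rw [hN, h1] at h2
      refine ⟨P, by rw [h1, one_smul]; exact hP, by exact_mod_cast h2⟩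
  choose P hP hP1 using key
  refine ⟨P, eq_of_ell_eq_one hZ ?_ ?_ ?_⟩
  · refine Finset.sum_nonneg fun s _ => ?_
    have h1 := T.pl_nonneg Finset.univ s (K8_pd_nonneg (P s))
    rcases hn s with h0 | h0
    · rw [h0, zero_smul]
    · rw [h0, one_smul]
      exact h1
  · refine hlin.trans (LinEq.sum _ fun s _ => ?_)
    rw [← T.K8_pl_zsmul]
    exact T.K8_linEq_pl _ s (hP s)
  · rw [hprod]
    exact Finset.prod_eq_one fun s _ => hP1 s

end

end Tw

end Pool.Agent.E6b

end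

section
open scoped NNReal TensorProduct IntermediateField BigOperators Classical Topology
open Filter

namespace Pool.Agent.E6b

section
variable {κ F : Type} [Field κ] [Field F] [Algebra κ F]

theorem K9b_ind_nonneg (S : Finset (Place κ F)) : 0 ≤ ind S := fun R => by
  rw [ind_apply, Finsupp.zero_apply]
  split_ifs <;> omega

end

section
variable {L : Type} [Field L] [Algebra Qb L] {n₀ B : ℕ} {T : Tw Qb L n₀ B} (G : TwG T)

theorem K9b_deg {Z : Dv Qb T.FU} {n : Fin 5 → ℤ} (h : T.Ty Finset.univ Z n) :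
    deg Z = n₀ * (n₀ : ℤ) ^ 3 * ∑ s, n s := by
  rw [Tw.Ty.deg_eq T h, Finset.card_univ, Fintype.card_fin]
  ring

theorem K9b_pull_nonneg (h : Qb ≃ₐ[ℚ] Qb) {Z : Dv Qb T.FU} (hZ : 0 ≤ Z) :
    0 ≤ (G.A.fh h).pull Z := by
  rw [← (G.A.fh h).pull_zero]
  exact (G.A.fh h).pull_le_iff.2 hZ

theorem K9b_sum (π : Equiv.Perm (Fin 5)) (n : Fin 5 → ℤ) : ∑ s, n (π s) = ∑ s, n s :=
  Equiv.sum_comp π n

/-- a typed subset of least type is almost equal to or almost disjoint from its translates -/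
theorem K9b_dich (K : IntermediateField ℚ Qb) (R₀ : Place Qb T.FU) (hR : T.Ur R₀)
    (hD : 32 * (G.A.finite_orb K R₀).toFinset.card < n₀ ^ 5) (c₀ c : ℕ)
    (dl : ∀ (Z₁ Z₂ : Dv Qb T.FU) (m₁ m₂ : Fin 5 → ℤ), 0 ≤ Z₁ → 0 ≤ Z₂ → 0 ≤ m₁ → 0 ≤ m₂ →
      ∑ s, m₁ s ≤ (5 : ℕ) → ∑ s, m₂ s ≤ (5 : ℕ) → T.Ty Finset.univ Z₁ m₁ →
      T.Ty Finset.univ Z₂ m₂ →
      (∃ (Z Bd : Dv Qb T.FU) (n : Fin 5 → ℤ), 0 ≤ Z ∧ Z ≤ Z₁ ∧ Z ≤ Z₂ ∧ 0 ≤ Bd ∧
        deg Bd ≤ c * (n₀ : ℤ) ^ 3 ∧ 0 ≤ n ∧ 1 ≤ ∑ s, n s ∧ T.Ty Finset.univ (Z + Bd) n) ∨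
      ∀ s, ∃ Sm : Finset (Place Qb T.FU), Sm.card ≤ c * n₀ ^ 3 ∧ ∀ R, 0 < Z₁ R → 0 < Z₂ R →
        R ∉ Sm → ∀ R', T.Ln s R R' → 0 < Z₁ R')
    (S : Finset (Place Qb T.FU)) (Bd : Dv Qb T.FU) (n : Fin 5 → ℤ)
    (hS : S ⊆ (G.A.finite_orb K R₀).toFinset) (hB : 0 ≤ Bd) (hd : deg Bd ≤ c₀ * (n₀ : ℤ) ^ 3)
    (hn : 0 ≤ n) (h5 : ∑ s, n s ≤ 5) (hty : T.Ty Finset.univ (ind S + Bd) n)
    (ih : ∀ (S' : Finset (Place Qb T.FU)) (Bd' : Dv Qb T.FU) (n' : Fin 5 → ℤ),
      S' ⊆ (G.A.finite_orb K R₀).toFinset → 0 ≤ Bd' →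
      deg Bd' ≤ (2 * c₀ + c : ℕ) * (n₀ : ℤ) ^ 3 → 0 ≤ n' → 1 ≤ ∑ s, n' s →
      T.Ty Finset.univ (ind S' + Bd') n' → ∑ s, n s ≤ ∑ s, n' s)
    (h : Qb ≃ₐ[ℚ] Qb) :
    (S ∩ S.image (G.A.sm h)).card ≤ (10 * c₀ + 5 * c) * n₀ ^ 3 ∨
      S.card ≤ (S ∩ S.image (G.A.sm h)).card + (10 * c₀ + 5 * c) * n₀ ^ 3 := by
  have hZ : 0 ≤ ind S + Bd := add_nonneg (K9b_ind_nonneg S) hB
  have hB' := K9b_pull_nonneg G h hB
  have hq : (0 : ℤ) ≤ (n₀ : ℤ) ^ 3 := by positivity
  have e : (G.A.fh h).pull (ind S + Bd) = ind (S.image (G.A.sm h)) + (G.A.fh h).pull Bd := by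
    rw [FHom.pull_add, GAct.pull_ind]
  rcases dl _ _ n (fun s => n ((G.perm h)⁻¹ s)) hZ (K9b_pull_nonneg G h hZ) hn (fun s => hn _) h5
    ((K9b_sum (G.perm h)⁻¹ n).trans_le h5) hty (G.ty_act h hty) with
    ⟨Z, Bd', n', z0, z1, z2, b0, b1, n0, n1, ty⟩ | h2
  · right
    rw [e] at z2
    set S' := (S ∩ S.image (G.A.sm h)).filter fun R => 0 < Z R with hS'
    have k0 : 0 ≤ Z - ind S' := fun R => by
      have := z0 R
      rw [Finsupp.sub_apply, ind_apply, Finsupp.zero_apply] at *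
      split_ifs with hh
      · have := (Finset.mem_filter.1 hh).2
        omega
      · omega
    have k1 : Z - ind S' ≤ Bd + (G.A.fh h).pull Bd := fun R => by
      have a1 := z1 R
      have a2 := z2 R
      have a3 : 0 ≤ Bd R := hB R
      have a4 : 0 ≤ (G.A.fh h).pull Bd R := hB' R
      rw [Finsupp.add_apply, ind_apply] at a1 a2
      rw [Finsupp.sub_apply, ind_apply, Finsupp.add_apply]
      by_cases b1 : R ∈ S <;> by_cases b2 : R ∈ S.image (G.A.sm h) <;> by_cases b3 : 0 < Z R <;>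
        simp only [hS', Finset.mem_filter, Finset.mem_inter, b1, b2, b3, if_true, if_false,
          and_self, and_false, and_true] at a1 a2 ⊢ <;> omega
    have k2 := deg_mono k1
    rw [deg_add, GAct.deg_pull] at k2
    have k3 : T.Ty Finset.univ (ind S' + (Z - ind S' + Bd')) n' := by
      rwa [← add_assoc, add_sub_cancel]
    have k4 : deg (Z - ind S' + Bd') ≤ (2 * c₀ + c : ℕ) * (n₀ : ℤ) ^ 3 := by
      rw [deg_add]
      push_cast
      linarith
    have k5 := ih S' _ n' ((Finset.filter_subset _ _).trans (Finset.inter_subset_left.trans hS))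
      (add_nonneg k0 b0) k4 n0 n1 k3
    have k6 := K9b_deg k3
    have k7 := K9b_deg hty
    rw [deg_add, deg_ind] at k6 k7
    have k8 := F1_deg_nonneg hB
    have k9 : (S'.card : ℤ) ≤ (S ∩ S.image (G.A.sm h)).card :=
      Int.ofNat_le.2 (Finset.card_filter_le _ _)
    have k10 : n₀ * (n₀ : ℤ) ^ 3 * ∑ s, n s ≤ n₀ * (n₀ : ℤ) ^ 3 * ∑ s, n' s :=
      mul_le_mul_of_nonneg_left k5 (by positivity)
    have k11 : (0 : ℤ) ≤ c₀ * (n₀ : ℤ) ^ 3 := by positivity
    have k12 : (0 : ℤ) ≤ c * (n₀ : ℤ) ^ 3 := by positivity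
    zify
    push_cast at k4
    linarith
  · left
    choose Sm s1 s2 using h2
    have k1 := G.overlap_le K R₀ hR hD (S ∩ S.image (G.A.sm h)) Bd.support
      (Finset.inter_subset_left.trans hS) Sm fun s R hRS hRm R' hl => by
        obtain ⟨a1, a2⟩ := Finset.mem_inter.1 hRS
        have a3 : 0 ≤ Bd R := hB R
        have a4 : 0 ≤ (G.A.fh h).pull Bd R := hB' R
        have a5 := s2 s R (by rw [Finsupp.add_apply, ind_apply, if_pos a1]; omega)
          (by rw [e, Finsupp.add_apply, ind_apply, if_pos a2]; omega) hRm R' hl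
        rw [Finsupp.add_apply, ind_apply] at a5
        by_cases b : R' ∈ S
        · exact Or.inl ((Set.Finite.mem_toFinset _).1 (hS b))
        · rw [if_neg b] at a5
          exact Or.inr (Finsupp.mem_support_iff.2 (by omega))
    have k2 : ∑ s, (Sm s).card ≤ ∑ _s : Fin 5, c * n₀ ^ 3 := Finset.sum_le_sum fun s _ => s1 s
    rw [Finset.sum_const, Finset.card_univ, Fintype.card_fin, smul_eq_mul] at k2
    have k3 : Bd.support.card ≤ c₀ * n₀ ^ 3 := by
      have := (card_support_le_deg hB).trans hd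
      exact_mod_cast this
    nlinarith

/-- the whole orbit is not a sum of five fibres -/
theorem K9b_five (K : IntermediateField ℚ Qb) (hK : G.Orb23 K) (R₀ : Place Qb T.FU) (c₀ : ℕ)
    (hN : 2 * c₀ + 6 ≤ n₀) (hD : (G.A.finite_orb K R₀).toFinset.card ≤ 5 * n₀ ^ 4)
    {S : Finset (Place Qb T.FU)} {Bd : Dv Qb T.FU} (hS : S ⊆ (G.A.finite_orb K R₀).toFinset)
    (hB : 0 ≤ Bd) (hd : deg Bd ≤ c₀ * (n₀ : ℤ) ^ 3)
    (hty : T.Ty Finset.univ (ind S + Bd) fun _ => 1) : False := by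
  set D := (G.A.finite_orb K R₀).toFinset with hDd
  obtain ⟨P, hP⟩ := T.ty_rigid (by omega) hty (add_nonneg (K9b_ind_nonneg S) hB)
    fun _ => Or.inr rfl
  simp only [one_smul] at hP
  have hq : 0 < n₀ ^ 3 := pow_pos T.n₀_pos 3
  have he : n₀ ^ 4 = n₀ * n₀ ^ 3 := by ring
  have hl : (2 * c₀ + 6) * n₀ ^ 3 ≤ n₀ ^ 4 := by
    rw [he]
    exact Nat.mul_le_mul_right _ hN
  have hp : ∀ s, 0 ≤ T.pl Finset.univ s (pd (P s)) := fun s =>
    T.pl_nonneg _ s (Finsupp.single_nonneg.2 zero_le_one)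
  have k0 : 5 * n₀ ^ 4 ≤ S.card + c₀ * n₀ ^ 3 := by
    have := K9b_deg hty
    rw [deg_add, deg_ind] at this
    simp only [Finset.sum_const, Finset.card_univ, Fintype.card_fin] at this
    zify
    simp only [nsmul_eq_mul, Nat.cast_ofNat, mul_one] at this
    nlinarith
  have k1 : ∀ s, n₀ ^ 4 ≤ (S.filter fun R => T.pr s R = P s).card + c₀ * n₀ ^ 3 := by
    intro s
    have a1 : T.pl Finset.univ s (pd (P s)) ≤ ind S + Bd := by
      rw [hP]
      exact Finset.single_le_sum (fun s _ => hp s) (Finset.mem_univ s)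
    have a2 : T.pl Finset.univ s (pd (P s)) ≤ ind (S.filter fun R => T.pr s R = P s) + Bd := by
      intro R
      have b1 := a1 R
      have b2 : 0 ≤ Bd R := hB R
      have b3 := T.pl_pos_iff s (P s) R
      rw [Finsupp.add_apply, ind_apply] at b1 ⊢
      by_cases b4 : T.pr s R = P s
      · simpa only [Finset.mem_filter, b4, and_true] using b1
      · have := mt b3.1 b4
        split_ifs <;> omega
    have a3 := deg_mono a2
    rw [T.deg_pl (Finset.mem_univ s), deg_pd, deg_add, deg_ind, Finset.card_univ,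
      Fintype.card_fin] at a3
    zify
    norm_num at a3
    linarith
  have k2 : ∀ R ∈ S, ∃ s, T.pr s R = P s := by
    intro R hR
    by_contra hc
    have b2 : 0 ≤ Bd R := hB R
    have b1 := DFunLike.congr_fun hP R
    rw [Finsupp.add_apply, ind_apply, if_pos hR, Finsupp.finsetSum_apply] at b1
    have b3 : ∑ s, T.pl Finset.univ s (pd (P s)) R ≤ 0 := Finset.sum_nonpos fun s _ =>
      not_lt.1 fun h => hc ⟨s, (T.pl_pos_iff s (P s) R).1 h⟩
    omega
  have k3 : ∀ h : Qb ≃ₐ[ℚ] Qb, (∀ x ∈ K, h x = x) → ∀ s R, T.pr s R = P s →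
      T.pr (G.perm h s) (G.A.sm h R) = P (G.perm h s) := by
    intro h hh s R hR
    by_contra hc
    have a1 : (S.filter fun R => T.pr s R = P s).image (G.A.sm h) ⊆ (D \ S) ∪
        (Finset.univ.erase (G.perm h s)).biUnion fun s' => D.filter fun R' =>
          T.pr (G.perm h s) R' = T.pr (G.perm h s) (G.A.sm h R) ∧ T.pr s' R' = P s' := by
      intro R' hR'
      obtain ⟨R₁, h1, rfl⟩ := Finset.mem_image.1 hR'
      obtain ⟨h1, h2⟩ := Finset.mem_filter.1 h1
      have h3 : G.A.sm h R₁ ∈ D := G.A.stab_orb K R₀ h hh R₁ (hS h1)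
      have h4 := (G.pr_sm_iff h s R₁ R).2 (h2.trans hR.symm)
      by_cases h5 : G.A.sm h R₁ ∈ S
      · obtain ⟨s', h6⟩ := k2 _ h5
        refine Finset.mem_union_right _ (Finset.mem_biUnion.2 ⟨s', Finset.mem_erase.2
          ⟨?_, Finset.mem_univ _⟩, Finset.mem_filter.2 ⟨h3, h4, h6⟩⟩)
        rintro rfl
        exact hc (h4.symm.trans h6)
      · exact Finset.mem_union_left _ (Finset.mem_sdiff.2 ⟨h3, h5⟩)
    have a2 := (Finset.card_le_card a1).trans (Finset.card_union_le _ _)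
    rw [Finset.card_image_of_injective _ (G.A.sm_injective h)] at a2
    have a3 := Finset.card_biUnion_le_card_mul (Finset.univ.erase (G.perm h s))
      (fun s' => D.filter fun R' =>
          T.pr (G.perm h s) R' = T.pr (G.perm h s) (G.A.sm h R) ∧ T.pr s' R' = P s') (n₀ ^ 3)
      fun s' hs' => T.card_pr_pr_le (Finset.mem_erase.1 hs').1.symm _ _ D
    rw [Finset.card_erase_of_mem (Finset.mem_univ _), Finset.card_univ, Fintype.card_fin] at a3
    have a4 := Finset.card_sdiff_add_card_eq_card hS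
    have a5 := k1 s
    nlinarith
  obtain ⟨R₁, hR₁⟩ : (S.filter fun R => T.pr 0 R = P 0).Nonempty := by
    rw [← Finset.card_pos]
    have := k1 0
    nlinarith
  obtain ⟨h1, h2⟩ := Finset.mem_filter.1 hR₁
  have k4 : D ⊆ (D.filter fun R => T.pr 0 R = P 0) ∪ D.filter fun R => T.pr 1 R = P 1 := by
    intro R hR
    have a1 := (Set.Finite.mem_toFinset _).1 hR
    rw [← G.A.orb_eq_of_mem ((Set.Finite.mem_toFinset _).1 (hS h1))] at a1
    obtain ⟨h, hh, rfl⟩ := a1
    have a2 := k3 h hh 0 R₁ h2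
    have a3 := (hK.1 h hh 0).2 (by decide)
    have a4 : ∀ s : Fin 5, (s : ℕ) < 2 → s = 0 ∨ s = 1 := by decide
    rcases a4 _ a3 with a5 | a5 <;> rw [a5] at a2
    · exact Finset.mem_union_left _ (Finset.mem_filter.2 ⟨hR, a2⟩)
    · exact Finset.mem_union_right _ (Finset.mem_filter.2 ⟨hR, a2⟩)
  have k5 := (Finset.card_le_card k4).trans (Finset.card_union_le _ _)
  have k6 := T.card_pr_le 0 (P 0) D
  have k7 := T.card_pr_le 1 (P 1) D
  have k8 := Finset.card_le_card hS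
  nlinarith

end

end Pool.Agent.E6b

end

section
open scoped NNReal TensorProduct IntermediateField BigOperators Classical Topology
open Filter

namespace Pool.Agent.E6b
variable {κ F : Type} [Field κ] [IsAlgClosed κ] [CharZero κ] [Field F] [Algebra κ F] [IsFF κ F]
  {o : Place κ F} {Ω : Type} [Field Ω] [IsAlgClosed Ω] [CharZero Ω] [Algebra κ Ω]

theorem P5_th {D : DO o Ω} (h : deg D = (genus κ F : ℤ) - 1) :
    Th (- clD o Ω D) ↔ ell D = 0 := by
  unfold Th
  rw [neg_neg, ellC_clD, h, sub_self, zero_smul, add_zero]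

theorem P5_exists_deg (w : Cl o Ω) (n : ℤ) : ∃ E : DO o Ω, deg E = n ∧ clD o Ω E = w := by
  obtain ⟨D, rfl⟩ := clD_surj w
  refine ⟨D + (n - deg D) • pd (oo o Ω), ?_, ?_⟩
  · rw [deg_add, deg_zsmul, deg_pd]
    ring
  · rw [map_add, map_zsmul, clD_oo, smul_zero, add_zero]

end Pool.Agent.E6b

end
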