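import Pool.Agent.E6c.A12
import Pool.Agent.E6c.A14

section
open scoped NNReal TensorProduct IntermediateField BigOperators Classical Topology
open Filter

namespace Pool.Agent.E6b
variable {κ F : Type} [Field κ] [IsAlgClosed κ] [CharZero κ] [Field F] [Algebra κ F] [IsFF κ F]

theorem ell_add_le (D : Dv κ F) {E : Dv κ F} (h : 0 ≤ E) : (ell (D + E) : ℤ) ≤ ell D + deg E :=
  F2_ell_add_le D h

end Pool.Agent.E6b

end

section
open scoped NNReal TensorProduct IntermediateField BigOperators Classical Topology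
open Filter

namespace Pool.Agent.E6b
variable {κ F : Type} [Field κ] [IsAlgClosed κ] [CharZero κ] [Field F] [Algebra κ F] [IsFF κ F]
  (o : Place κ F)

/-- a point is either constant or generic -/
theorem pt_const_or_inj {Ω : Type} [Field Ω] [Algebra κ Ω] (y : Pt o Ω) :
    (∃ p : Pt o κ, ∀ a, y a = algebraMap κ Ω (p a)) ∨ Function.Injective y := by
  rw [injective_iff_map_eq_zero, or_iff_not_imp_right]
  intro h
  push Not at h
  obtain ⟨a, ha, h0⟩ := h
  obtain ⟨⟨r, hr⟩, h1, h2⟩ := (Submodule.ne_bot_iff _).1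
    (Ideal.comap_ne_bot_of_integral_mem (I := RingHom.ker y) h0 ha (isIntegral_wN o a))
  rw [Algebra.adjoin_singleton_eq_range_aeval] at hr
  obtain ⟨p, rfl⟩ := hr
  have h3 : IsIntegral κ (y (wN o)) := by
    refine IsAlgebraic.isIntegral ⟨p, ?_, ?_⟩
    · rintro rfl
      exact h2 (Subtype.ext (map_zero _))
    · rw [Polynomial.aeval_algHom_apply]
      exact h1
  have h4 : Algebra.adjoin κ {wN o} ≤ (integralClosure κ Ω).comap y :=
    Algebra.adjoin_le (Set.singleton_subset_iff.2 h3)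
  have h5 : ∀ b, y b ∈ integralClosure κ Ω := fun b =>
    isIntegral_trans (A := integralClosure κ Ω) _ ((isIntegral_wN o b).map_of_comp_eq
      ((y.comp (Subalgebra.val _)).codRestrict _ fun x => h4 x.2).toRingHom y.toRingHom rfl)
  obtain ⟨q, hq⟩ := Osm_pt (y.codRestrict _ h5)
  exact ⟨q, fun b => congrArg Subtype.val (hq b)⟩

/-- smoothness at `o` -/
theorem exists_smooth_inf (z : o.OA) (hz : o.ord (z : F) = 1) (f : o.OA) :
    ∃ u w : o.OA ⊗[κ] o.OA, o.evH (Algebra.TensorProduct.lmul' κ u) ≠ 0 ∧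
      u * dlt f = w * dlt z := by
  obtain ⟨o', ho⟩ := exists_ne o
  let ι : AA o' →ₐ[κ] o.OA := Subalgebra.inclusion fun a ha => ha o ho.symm
  have hι : ∀ a, ι a ∈ Algebra.adjoin κ (insert f (ι '' Set.range fun i : Fin (MM o') => eb o' i)) :=
    fun a => Algebra.adjoin_mono (Set.subset_insert _ _) (by
      rw [← AlgHom.map_adjoin, adjoin_eb]
      exact ⟨a, trivial, rfl⟩)
  obtain ⟨u, hu, h⟩ := Osm_loc o.evH (((Set.finite_range _).image ι).insert f) (t := z)
    ((o.ev_eq_zero_iff z.2).2 (Or.inr (by omega))) fun a _ => by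
      obtain ⟨s, m, h3, h4⟩ := Osm_div o' ho.symm hz a.2
      exact ⟨ι s, hι s, ι m, hι m, h3, Subtype.ext h4⟩
  obtain ⟨w, hw⟩ := h f (Algebra.subset_adjoin (Set.mem_insert _ _))
  exact ⟨u, w, by rw [hu]; exact one_ne_zero, hw⟩

end Pool.Agent.E6b

end

section
open scoped NNReal TensorProduct IntermediateField BigOperators Classical Topology
open Filter

namespace Pool.Agent.E6b
variable {κ F : Type} [Field κ] [IsAlgClosed κ] [CharZero κ] [Field F] [Algebra κ F] [IsFF κ F]
  {o : Place κ F} {Ω : Type} [Field Ω] [IsAlgClosed Ω] [CharZero Ω] [Algebra κ Ω]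

omit [IsAlgClosed κ] [CharZero κ] [IsFF κ F] in
theorem O1_ev {P : Place κ F} {f : F} (h : f ∉ P.O) : P.ev f = 0 :=
  dif_neg fun ⟨c, hc⟩ => h (by
    simpa using add_mem ((P.O.valuation_le_one_iff _).1 hc.le) (P.const c))

theorem oo_ord_iF (a : AA o) : (oo o Ω).ord (iF o Ω a) = o.ord (a : F) := O1_ord a

end Pool.Agent.E6b

end

section
open scoped NNReal TensorProduct IntermediateField BigOperators Classical Topology
open Filter

namespace Pool.Agent.E6b
variable {κ F : Type} [Field κ] [IsAlgClosed κ] [CharZero κ] [Field F] [Algebra κ F] [IsFF κ F]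
  {o : Place κ F} {Ω Ω' : Type} [Field Ω] [IsAlgClosed Ω] [CharZero Ω] [Algebra κ Ω]
  [Field Ω'] [IsAlgClosed Ω'] [CharZero Ω'] [Algebra κ Ω']

theorem O2_place_eq {P Q : Place κ F} (h : ∀ f, P.ord f = Q.ord f) : P = Q :=
  Place.eq_of_le fun f hf => Q.mem_iff.2 (h f ▸ P.mem_iff.1 hf)

end Pool.Agent.E6b

end

section
open scoped NNReal TensorProduct IntermediateField BigOperators Classical Topology
open Filter

namespace Pool.Agent.E6b
variable {κ F : Type} [Field κ] [IsAlgClosed κ] [CharZero κ] [Field F] [Algebra κ F] [IsFF κ F]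
  {o : Place κ F} {Ω : Type} [Field Ω] [IsAlgClosed Ω] [CharZero Ω] [Algebra κ Ω]
  {A : Type} [CommRing A] [Algebra κ A]
variable (O : VS κ Ω)

omit [IsAlgClosed κ] [CharZero κ] [IsAlgClosed Ω] [CharZero Ω] in
theorem L2_rs_zero : rs O 0 = 0 := by simpa using rs_algebraMap O 0

omit [IsAlgClosed κ] [CharZero κ] [IsAlgClosed Ω] [CharZero Ω] in
theorem L2_rs_one : rs O 1 = 1 := by simpa using rs_algebraMap O 1

omit [IsAlgClosed κ] [CharZero κ] [IsAlgClosed Ω] [CharZero Ω] in
theorem L2_rs_neg {x : Ω} (hx : x ∈ O.1) : rs O (-x) = - rs O x := by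
  have h := rs_add O hx (O.1.neg_mem _ hx)
  rw [add_neg_cancel, L2_rs_zero] at h
  exact (neg_eq_of_add_eq_zero_right h.symm).symm

omit [IsAlgClosed κ] [CharZero κ] [IsAlgClosed Ω] [CharZero Ω] in
theorem L2_rs_inv {x : Ω} (hx : x ∈ O.1) (h : rs O x ≠ 0) :
    x ≠ 0 ∧ x⁻¹ ∈ O.1 ∧ rs O x⁻¹ = (rs O x)⁻¹ := by
  have h0 : x ≠ 0 := fun hh => h (by rw [hh, L2_rs_zero])
  have h1 : O.1.valuation x = 1 := le_antisymm ((O.1.valuation_le_one_iff _).2 hx)
    (not_lt.1 fun hh => h ((rs_eq_zero_iff O hx).2 hh))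
  have h2 : x⁻¹ ∈ O.1 := (O.1.valuation_le_one_iff _).1 (by rw [map_inv₀, h1, inv_one])
  refine ⟨h0, h2, eq_inv_of_mul_eq_one_right ?_⟩
  rw [← rs_mul O hx h2, mul_inv_cancel₀ h0, L2_rs_one]

end Pool.Agent.E6b

end

section
open scoped NNReal TensorProduct IntermediateField BigOperators Classical Topology
open Filter

namespace Pool.Agent.E6b
variable {κ F : Type} [Field κ] [IsAlgClosed κ] [CharZero κ] [Field F] [Algebra κ F] [IsFF κ F]
  {o : Place κ F} {Ω : Type} [Field Ω] [IsAlgClosed Ω] [CharZero Ω] [Algebra κ Ω] (O : VS κ Ω)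

omit [IsAlgClosed κ] [CharZero κ] [IsAlgClosed Ω] [CharZero Ω] in
theorem L3_rs_sub {x y : Ω} (hx : x ∈ O.1) (hy : y ∈ O.1) : rs O (x - y) = rs O x - rs O y := by
  have h := rs_add O (sub_mem hx hy) hy
  rw [sub_add_cancel] at h
  rw [h, add_sub_cancel_right]
variable {O}

theorem L3_smul (c : Ω) (a : AO o Ω) :
    algebraMap _ (FO o Ω) (c • a) = algebraMap Ω (FO o Ω) c * algebraMap _ (FO o Ω) a := by
  have e : c • a = algebraMap Ω (AO o Ω) c * a := Algebra.smul_def c a
  rw [e, map_mul, ← IsScalarTower.algebraMap_apply]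

end Pool.Agent.E6b

end

section
open scoped NNReal TensorProduct IntermediateField BigOperators Classical Topology
open Filter

namespace Pool.Agent.E6b
variable {κ F : Type} [Field κ] [IsAlgClosed κ] [CharZero κ] [Field F] [Algebra κ F] [IsFF κ F]
  {o : Place κ F} {Ω : Type} [Field Ω] [IsAlgClosed Ω] [CharZero Ω] [Algebra κ Ω] (O : VS κ Ω)

theorem L3_pd_nonneg (P : PO o Ω) : 0 ≤ pd P := fun Q => by
  rw [F1_pd_apply]; split_ifs <;> simp

/-- the local factor at infinity -/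
noncomputable def L3_u (p : PO o (RF O)) : F := if p = oo o (RF O) then zo o else 1

theorem L3_u_ne (p : PO o (RF O)) : L3_u O p ≠ 0 := by
  unfold L3_u; split_ifs
  · exact L3_zo_ne
  · exact one_ne_zero

end Pool.Agent.E6b

end

section
open scoped NNReal TensorProduct IntermediateField BigOperators Classical Topology
open Filter

namespace Pool.Agent.E6b

theorem L5_lin {K V : Type} [Field K] [AddCommGroup V] [Module K V] {U W : Submodule K V}
    (hUW : U ≤ W) {n : ℕ} (g : Fin (n + 1) → V) (i₀ : Fin (n + 1)) (r : Fin n → K)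
    (hg' : ∀ j, g (i₀.succAbove j) - r j • g i₀ ∈ W) (hg : g i₀ ∉ W) :
    (∀ c : Fin n → K, ∑ j, c j • (g (i₀.succAbove j) - r j • g i₀) ∈ U → c = 0) ↔
      ∀ c : Fin (n + 1) → K, ∑ i, c i • g i ∈ U → c = 0 := by
  have key : ∀ c : Fin (n + 1) → K, ∑ i, c i • g i =
      (c i₀ + ∑ j, c (i₀.succAbove j) * r j) • g i₀ +
        ∑ j, c (i₀.succAbove j) • (g (i₀.succAbove j) - r j • g i₀) := by
    intro c
    rw [Fin.sum_univ_succAbove _ i₀, add_smul, Finset.sum_smul, add_assoc,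
      ← Finset.sum_add_distrib]
    congr 1
    refine Finset.sum_congr rfl fun j _ => ?_
    rw [smul_sub, mul_smul]
    abel
  constructor
  · intro h c hc
    rw [key] at hc
    have ht : c i₀ + ∑ j, c (i₀.succAbove j) * r j = 0 := by
      by_contra ht
      apply hg
      have h1 := W.sub_mem (hUW hc) (W.sum_mem fun j (_ : j ∈ Finset.univ) =>
        W.smul_mem (c (i₀.succAbove j)) (hg' j))
      rw [add_sub_cancel_right] at h1
      exact (W.smul_mem_iff ht).1 h1
    rw [ht, zero_smul, zero_add] at hc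
    have h2 : ∀ j, c (i₀.succAbove j) = 0 := fun j => congrFun (h _ hc) j
    simp only [h2, zero_mul, Finset.sum_const_zero, add_zero] at ht
    funext i
    rcases Fin.eq_self_or_eq_succAbove i₀ i with rfl | ⟨j, rfl⟩
    · exact ht
    · exact h2 j
  · intro h c hc
    have h1 := h (i₀.insertNth (-∑ j, c j * r j) c) (by
      rw [key]
      simpa only [Fin.insertNth_apply_same, Fin.insertNth_apply_succAbove, neg_add_cancel,
        zero_smul, zero_add] using hc)
    funext j
    have h2 := congrFun h1 (i₀.succAbove j)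
    rwa [Fin.insertNth_apply_succAbove] at h2

theorem L5_ord {Γ : Type} [LinearOrderedCommGroupWithZero Γ] {y x q π : Γ} (hy : y ≤ 1)
    (hx : x ^ 2 ≤ q) (hq : q ≠ 0) (hπ : π ≠ 0) :
    (y * x * π) ^ 2 ≤ q * π ^ 2 ∧ ((y * x * π) ^ 2 = q * π ^ 2 ↔ y = 1 ∧ x ^ 2 = q) := by
  have h1 : y ^ 2 ≤ 1 := pow_le_one₀ zero_le hy
  rw [mul_pow, mul_pow]
  refine ⟨mul_le_mul_left ((mul_le_mul' h1 hx).trans_eq (one_mul q)) _, ?_⟩
  rw [mul_left_inj' (pow_ne_zero 2 hπ)]
  refine ⟨fun h => ?_, fun h => by rw [h.1, h.2, one_pow, one_mul]⟩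
  have h2 : y = 1 := by
    by_contra h3
    have h4 : y ^ 2 < 1 := pow_lt_one₀ zero_le (lt_of_le_of_ne hy h3) two_ne_zero
    have h5 : y ^ 2 * x ^ 2 ≤ y ^ 2 * q := mul_le_mul_right hx _
    have h6 : y ^ 2 * q < 1 * q := mul_lt_mul_of_pos_right h4 (zero_lt_iff.2 hq)
    rw [one_mul] at h6
    exact absurd h (h5.trans_lt h6).ne
  rw [h2, one_pow, one_mul] at h
  exact ⟨h2, h⟩

theorem L5_detstep {K : Type} [Field K] {n : ℕ} (M : Matrix (Fin (n + 1)) (Fin (n + 1)) K)
    (i₀ : Fin (n + 1)) (c : Fin (n + 1) → K) (hc : ∀ i, M 0 i = c i * M 0 i₀) :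
    M.det = (-1) ^ (i₀ : ℕ) * M 0 i₀ * (Matrix.of fun a j : Fin n =>
      M a.succ (i₀.succAbove j) - c (i₀.succAbove j) * M a.succ i₀).det := by
  let c' : Fin (n + 1) → K := fun i => if i = i₀ then 0 else c i
  let B : Matrix (Fin (n + 1)) (Fin (n + 1)) K := Matrix.of fun i a => M a i - c' i * M a i₀
  have h0 : c' i₀ = 0 := if_pos rfl
  have h1 : M.transpose.det = B.det := Matrix.det_eq_of_forall_row_eq_smul_add_const c' i₀ h0
    fun i a => by simp [B, h0]
  rw [← Matrix.det_transpose, h1, Matrix.det_succ_column_zero, Finset.sum_eq_single i₀]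
  · rw [← Matrix.det_transpose]
    congr 2
    · simp [B, h0]
    · ext a j
      simp [B, c']
  · intro i _ hi
    have : B i 0 = 0 := by simp [B, c', hi, hc i]
    rw [this, mul_zero, zero_mul]
  · simp

section
variable {κ F : Type} [Field κ] [IsAlgClosed κ] [CharZero κ] [Field F] [Algebra κ F] [IsFF κ F]

omit [IsAlgClosed κ] [CharZero κ] [IsFF κ F] in
theorem L5_pd_nonneg (P : Place κ F) : 0 ≤ pd P := fun Q => by
  rw [F1_pd_apply]
  split_ifs <;> simp

omit [IsAlgClosed κ] [CharZero κ] [IsFF κ F] in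
theorem L5_sum_nonneg {ι : Type} [Fintype ι] (z : ι → Place κ F) : 0 ≤ ∑ a, pd (z a) :=
  Finset.sum_nonneg fun a _ => L5_pd_nonneg (z a)

theorem L5_dep {E G : Dv κ F} (hG : 0 ≤ G) {n : ℕ} (hn : deg G = n) (g : Fin (n + 1) → F)
    (hg : ∀ i, g i ∈ LL E) : ¬ ∀ c : Fin (n + 1) → κ, ∑ i, c i • g i ∈ LL (E - G) → c = 0 := by
  intro h
  have hle : LL (E - G) ≤ LL E := LL_mono (sub_le_self E hG)
  let U : Submodule κ (LL E) := (LL (E - G)).comap (LL E).subtype
  have h1 : LinearIndependent κ fun i => U.mkQ ⟨g i, hg i⟩ := by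
    refine Fintype.linearIndependent_iff.2 fun c hc => congrFun (h c ?_)
    have h2 : U.mkQ (∑ i, c i • (⟨g i, hg i⟩ : LL E)) = 0 := by
      rw [map_sum]
      simpa only [map_smul] using hc
    rw [Submodule.mkQ_apply, Submodule.Quotient.mk_eq_zero] at h2
    simpa [U] using h2
  have h2 := h1.fintype_card_le_finrank
  have h3 := Submodule.finrank_quotient_add_finrank U
  have h4 : Module.finrank κ U = ell (E - G) :=
    (Submodule.comapSubtypeEquivOfLe hle).finrank_eq
  have h5 := ell_add_le (E - G) hG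
  rw [sub_add_cancel, hn] at h5
  have h6 : Module.finrank κ (LL E) = ell E := rfl
  rw [Fintype.card_fin] at h2
  omega

end

end Pool.Agent.E6b

end

section
open scoped NNReal TensorProduct IntermediateField BigOperators Classical Topology
open Filter

namespace Pool.Agent.E6b
variable {κ F : Type} [Field κ] [IsAlgClosed κ] [CharZero κ] [Field F] [Algebra κ F] [IsFF κ F]
  {o : Place κ F} {Ω : Type} [Field Ω] [IsAlgClosed Ω] [CharZero Ω] [Algebra κ Ω]
  {ι ι' : Type} [Fintype ι] [Fintype ι']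

omit [IsAlgClosed Ω] [CharZero Ω] in
theorem P2_unit_ne (ε : ℤˣ) : ((ε : ℤ) : Ω) ≠ 0 := by
  rcases Int.units_eq_one_or ε with rfl | rfl <;> simp

end Pool.Agent.E6b

end
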