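import Pool.Agent.E6c.A16
import Pool.Agent.E6c.A18

section
open scoped NNReal TensorProduct IntermediateField BigOperators Classical Topology
open Filter

namespace Pool.Agent.E6b
variable {κ F : Type} [Field κ] [IsAlgClosed κ] [CharZero κ] [Field F] [Algebra κ F] [IsFF κ F]

theorem dv_div {f g : F} (hf : f ≠ 0) (hg : g ≠ 0) : dv κ (f / g) = dv κ f - dv κ g := by
  ext P
  rw [Finsupp.sub_apply, dv_apply, dv_apply, dv_apply, P.ord_div hf hg]

end Pool.Agent.E6b

end

section
open scoped NNReal TensorProduct IntermediateField BigOperators Classical Topology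
open Filter

namespace Pool.Agent.E6b
variable {κ F : Type} [Field κ] [IsAlgClosed κ] [CharZero κ] [Field F] [Algebra κ F] [IsFF κ F]

/-- base points -/
theorem card_base_le {D : Dv κ F} (h : 0 < ell D) (S : Finset (Place κ F))
    (hS : ∀ P ∈ S, ell (D - pd P) = ell D) : (S.card : ℤ) ≤ deg D := by
  obtain ⟨f, hf, hf0⟩ := F2_exists_ne h
  have h1 : ind S ≤ D + dv κ f := by
    intro P
    have h2 := (mem_LL.1 hf).resolve_left hf0 P
    rw [ind_apply, Finsupp.add_apply, dv_apply]
    split_ifs with hP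
    · have h3 : P.ord f ≠ - D P := fun h3 =>
        ((ell_sub_pd_lt_iff D P).2 ⟨f, hf, hf0, h3⟩).ne (hS P hP)
      omega
    · omega
  have h2 := deg_mono h1
  rwa [deg_ind, deg_add, deg_dv, add_zero] at h2

end Pool.Agent.E6b

end

section
open scoped NNReal TensorProduct IntermediateField BigOperators Classical Topology
open Filter

namespace Pool.Agent.E6b
variable {κ F : Type} [Field κ] [IsAlgClosed κ] [CharZero κ] [Field F] [Algebra κ F] [IsFF κ F]

theorem card_h1_le {D : Dv κ F} (h : deg D + 1 - genus κ F < ell D) (S : Finset (Place κ F))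
    (hS : ∀ P ∈ S, ell D < ell (D + pd P)) : (S.card : ℤ) ≤ 2 * genus κ F - 2 - deg D := by
  obtain ⟨W, hW⟩ := exists_canonical (κ := κ) (F := F)
  have h1 := (canonical_deg hW).1
  have h2 := hW D
  have h3 := card_base_le (D := W - D) (by omega) S (by
    intro P hP
    have a1 := hW (D + pd P)
    have a2 := hS P hP
    have a3 := ell_add_pd_le D P
    rw [deg_add, deg_pd, ← sub_sub] at a1
    omega)
  rw [deg_sub] at h3
  omega

/-- a divisor of degree `g - 1` without sections -/
theorem exists_ell_zero : ∃ D : Dv κ F, deg D = genus κ F - 1 ∧ ell D = 0 := by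
  have key : ∀ n : ℕ, ∀ D : Dv κ F, ell D = n → (ell D : ℤ) = deg D + 1 - genus κ F →
      ∃ D : Dv κ F, deg D = genus κ F - 1 ∧ ell D = 0 := by
    intro n
    induction n with
    | zero => exact fun D h1 h2 => ⟨D, by omega, h1⟩
    | succ n ih =>
      intro D h1 h2
      have : ∃ P, ell (D - pd P) ≠ ell D := by
        by_contra hc
        push Not at hc
        obtain ⟨S, hS⟩ := Infinite.exists_subset_card_eq (Place κ F) ((deg D).toNat + 1)
        have := card_base_le (D := D) (by omega) S fun P _ => hc P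
        omega
      obtain ⟨P, hP⟩ := this
      have a1 := ell_add_pd_le (D - pd P) P
      rw [sub_add_cancel] at a1
      have a2 := ell_mono (sub_le_self D (F3_pd_nonneg P))
      refine ih (D - pd P) (by omega) ?_
      rw [deg_sub, deg_pd]
      omega
  obtain ⟨D, hD⟩ := exists_ell_eq (κ := κ) (F := F)
  exact key _ D rfl hD

end Pool.Agent.E6b

end

section
open scoped NNReal TensorProduct IntermediateField BigOperators Classical Topology
open Filter

namespace Pool.Agent.E6b
variable {κ F F' F'' : Type} [Field κ] [IsAlgClosed κ] [CharZero κ] [Field F] [Algebra κ F]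
  [IsFF κ F] [Field F'] [Algebra κ F'] [IsFF κ F'] [Field F''] [Algebra κ F''] [IsFF κ F'']
  (φ : FHom κ F F')

namespace FHom

theorem deg_mapDomain (E : Dv κ F') : E6b.deg (E.mapDomain φ.res : Dv κ F) = E6b.deg E :=
  Finsupp.sum_mapDomain_index (fun _ => rfl) fun _ _ _ => rfl

end FHom

end Pool.Agent.E6b

end

section
open scoped NNReal TensorProduct IntermediateField BigOperators Classical Topology
open Filter

namespace Pool.Agent.E6b
variable {κ F : Type} [Field κ] [IsAlgClosed κ] [CharZero κ] [Field F] [Algebra κ F] [IsFF κ F]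
  {o : Place κ F} {Ω : Type} [Field Ω] [IsAlgClosed Ω] [CharZero Ω] [Algebra κ Ω]

/-- an element of `AO` is determined by its values on an infinite set of points -/
theorem AO_eq_zero {f : AO o Ω} {S : Set (Pt o Ω)} (hS : S.Infinite) (h : ∀ y ∈ S, evA y f = 0) :
    f = 0 := by
  by_contra hf
  refine hS (((F1_finite_zeros (κ := Ω) (algebraMap _ (FO o Ω) f)).preimage
    plc_injective.injOn).subset fun y hy => ?_)
  exact (((plc y).ev_eq_zero_iff (plc_spec y f).1).1 ((plc_spec y f).2.trans (h y hy))).resolve_left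
    (by simpa using hf)

theorem finite_pt_wN (c : Ω) : {y : Pt o Ω | y (wN o) = c}.Finite := by
  by_contra h
  have h1 := AO_eq_zero (f := 1 ⊗ₜ wN o - algebraMap Ω _ c) h fun y hy => by
    rw [map_sub, evA_tmul, AlgHom.commutes, one_mul, hy]
    exact sub_self c
  refine iF_wN_notMem (o := o) (Ω := Ω) ⟨c, ?_⟩
  rw [← O1_iF, sub_eq_zero.1 h1, ← IsScalarTower.algebraMap_apply]

end Pool.Agent.E6b

end

section
open scoped NNReal TensorProduct IntermediateField BigOperators Classical Topology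
open Filter

namespace Pool.Agent.E6b
variable {κ F : Type} [Field κ] [IsAlgClosed κ] [CharZero κ] [Field F] [Algebra κ F] [IsFF κ F]
  {o : Place κ F} {Ω Ω' : Type} [Field Ω] [Algebra κ Ω] [Field Ω'] [Algebra κ Ω']

theorem O2_indep (τ : Ω →+* Ω') {ι : Type} [Fintype ι] {a : ι → AO o Ω}
    (h : LinearIndependent Ω a) : LinearIndependent Ω' fun i => O2_map o τ (a i) := by
  rw [Fintype.linearIndependent_iff] at h ⊢
  intro c hc i
  let _ : Algebra Ω Ω' := τ.toAlgebra
  rw [← Module.forall_dual_apply_eq_zero_iff Ω]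
  intro l
  refine h (fun i => l (c i)) (O2_ext fun k => ?_) i
  have h1 := congrArg (fun x => l ((ebO o Ω').repr x k)) hc
  simp only [map_sum, map_smul, Finsupp.finsetSum_apply, Finsupp.smul_apply, O2_map_repr,
    map_zero, Finsupp.zero_apply] at h1 ⊢
  rw [← h1]
  refine Finset.sum_congr rfl fun j _ => ?_
  rw [smul_eq_mul, smul_eq_mul, mul_comm (c j), mul_comm, ← smul_eq_mul, ← map_smul]
  rfl

namespace BC
variable (β : BC o Ω Ω')

theorem O2_indep_phi {ι : Type} [Fintype ι] {f : ι → FO o Ω} (h : LinearIndependent Ω f) :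
    LinearIndependent Ω' fun i => β.φ (f i) := by
  obtain ⟨s, hs⟩ := IsLocalization.exist_integer_multiples_of_finite
    (nonZeroDivisors (AO o Ω)) f
  choose a ha using hs
  have hs0 : algebraMap _ (FO o Ω) (s : AO o Ω) ≠ 0 :=
    (map_ne_zero_iff _ O2_alg_inj).2 (nonZeroDivisors.ne_zero s.2)
  have h1 : LinearIndependent Ω a := by
    rw [Fintype.linearIndependent_iff] at h ⊢
    intro c hc
    refine h c (mul_left_cancel₀ hs0 ?_)
    have h2 := congrArg (algebraMap _ (FO o Ω)) hc
    rw [map_sum, map_zero] at h2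
    rw [mul_zero, Finset.mul_sum, ← h2]
    refine Finset.sum_congr rfl fun i _ => ?_
    rw [O2_alg_smul, ha, Algebra.smul_def, Algebra.smul_def, mul_left_comm]
  have h3 := O2_indep β.τ h1
  rw [Fintype.linearIndependent_iff] at h3 ⊢
  intro c hc
  refine h3 c (O2_alg_inj ?_)
  have h2 := congrArg (β.φ (algebraMap _ (FO o Ω) (s : AO o Ω)) * ·) hc
  simp only [mul_zero, Finset.mul_sum] at h2
  rw [map_zero, map_sum, ← h2]
  refine Finset.sum_congr rfl fun i _ => ?_
  rw [O2_alg_smul, ← β.O2_phi, ha, Algebra.smul_def, Algebra.smul_def, map_mul, mul_left_comm]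

end BC

end Pool.Agent.E6b

end

section
open scoped NNReal TensorProduct IntermediateField BigOperators Classical Topology
open Filter

namespace Pool.Agent.E6b
variable {κ F : Type} [Field κ] [IsAlgClosed κ] [CharZero κ] [Field F] [Algebra κ F] [IsFF κ F]
  {o : Place κ F} {Ω Ω' : Type} [Field Ω] [IsAlgClosed Ω] [CharZero Ω] [Algebra κ Ω]
  [Field Ω'] [IsAlgClosed Ω'] [CharZero Ω'] [Algebra κ Ω']

namespace BC
variable (β : BC o Ω Ω')

theorem O2_unique {P : PO o Ω} {P' P'' : PO o Ω'} (h' : ∀ f, P'.ord (β.φ f) = P.ord f)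
    (h'' : ∀ f, P''.ord (β.φ f) = P.ord f) : P' = P'' := by
  obtain ⟨g, -, -, h1, h2⟩ := β.O2_exists_g
  have h : ∀ R : PO o Ω', (∀ f, R.ord (β.φ f) = P.ord f) → R = g P := by
    intro R hR
    by_cases hr : R ∈ Set.range g
    · obtain ⟨Q, rfl⟩ := hr
      exact congrArg g (O2_place_eq fun f => by rw [← h1, hR])
    · obtain ⟨π, -, hπ⟩ := P.exists_ord_eq 1
      have h3 := h2 R hr π
      rw [hR, hπ] at h3
      exact absurd h3 one_ne_zero
  rw [h P' h', h P'' h'']

end BC

end Pool.Agent.E6b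

end

section
open scoped NNReal TensorProduct IntermediateField BigOperators Classical Topology
open Filter
set_option linter.unusedSectionVars false

namespace Pool.Agent.E6b
variable {κ F : Type} [Field κ] [IsAlgClosed κ] [CharZero κ] [Field F] [Algebra κ F] [IsFF κ F]
  {o : Place κ F} {Ω Ω' Ω'' : Type} [Field Ω] [IsAlgClosed Ω] [CharZero Ω] [Algebra κ Ω]
  [Field Ω'] [IsAlgClosed Ω'] [CharZero Ω'] [Algebra κ Ω']
  [Field Ω''] [IsAlgClosed Ω''] [CharZero Ω''] [Algebra κ Ω'']

namespace BC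
variable (β : BC o Ω Ω')

theorem O2_dv_zero (D : DO o Ω) {P : PO o Ω'} (hP : P ∉ Set.range β.plc) : β.dv D P = 0 :=
  Finsupp.mapDomain_of_notMem_range D P hP

theorem dv_pd (P : PO o Ω) : β.dv (pd P) = pd (β.plc P) :=
  Finsupp.mapDomain_single

end BC

end Pool.Agent.E6b

end

section
open scoped NNReal TensorProduct IntermediateField BigOperators Classical Topology
open Filter

namespace Pool.Agent.E6b
variable {κ F : Type} [Field κ] [IsAlgClosed κ] [CharZero κ] [Field F] [Algebra κ F] [IsFF κ F]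
  {o : Place κ F} {Ω : Type} [Field Ω] [IsAlgClosed Ω] [CharZero Ω] [Algebra κ Ω]
  {ι ι' : Type} [Fintype ι] [Fintype ι']

theorem O3_ne (c : Ω) : iF o Ω (wN o) - algebraMap Ω (FO o Ω) c ≠ 0 := fun h =>
  iF_wN_notMem ⟨c, (sub_eq_zero.1 h).symm⟩

theorem O3_mem (c : Ω) (y : Pt o Ω) : iF o Ω (wN o) - algebraMap Ω (FO o Ω) c ∈ (plc y).O :=
  sub_mem (plc_iF y _).1 ((plc y).const c)

theorem O3_ord_pos (c : Ω) (y : Pt o Ω) :
    0 < (plc y).ord (iF o Ω (wN o) - algebraMap Ω (FO o Ω) c) ↔ y (wN o) = c := by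
  have h := (plc y).ev_eq_zero_iff (O3_mem c y)
  rw [Place.ev_sub _ (plc_iF y _).1 ((plc y).const c), (plc_iF y _).2, Place.ev_algebraMap,
    sub_eq_zero] at h
  rw [h]
  exact ⟨Or.inr, fun h => h.resolve_left (O3_ne c)⟩

theorem O3_ord_oo (c : Ω) :
    (oo o Ω).ord (iF o Ω (wN o) - algebraMap Ω (FO o Ω) c) = - (NN o : ℤ) := by
  have h1 : (oo o Ω).ord (iF o Ω (wN o)) = - (NN o : ℤ) := by rw [oo_ord_iF, ord_wN]
  have h2 : iF o Ω (wN o) ≠ 0 := by simpa using O3_ne (o := o) (0 : Ω)
  rw [sub_eq_add_neg, ((oo o Ω).ord_add_eq h2 (Or.inr ?_)).2, h1]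
  rw [Place.ord_neg, Place.ord_algebraMap, h1, NN]
  omega

end Pool.Agent.E6b

end

section
open scoped NNReal TensorProduct IntermediateField BigOperators Classical Topology
open Filter

namespace Pool.Agent.E6b

/-- the relative algebraic closure of a subfield of an algebraically closed field -/
theorem exists_acl {κ Ω : Type} [Field κ] [Field Ω] [IsAlgClosed Ω] [Algebra κ Ω] (S : Set Ω) :
    ∃ K : IntermediateField κ Ω, IsAlgClosed K ∧
      ∀ x, x ∈ K ↔ IsAlgebraic (IntermediateField.adjoin κ S) x :=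
  ⟨(algebraicClosure (IntermediateField.adjoin κ S) Ω).restrictScalars κ,
    IsAlgClosure.isAlgClosed (K := algebraicClosure (IntermediateField.adjoin κ S) Ω)
      (IntermediateField.adjoin κ S), fun _ => mem_algebraicClosure_iff⟩

end Pool.Agent.E6b

end

section
open scoped NNReal TensorProduct IntermediateField BigOperators Classical Topology
open Filter

namespace Pool.Agent.E6b

section
variable {κ F : Type} [Field κ] [IsAlgClosed κ] [CharZero κ] [Field F] [Algebra κ F] [IsFF κ F]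
  {o : Place κ F} {Ω : Type} [Field Ω] [IsAlgClosed Ω] [CharZero Ω] [Algebra κ Ω] (O : VS κ Ω)

/-- product of the mutual distances (each pair twice) -/
noncomputable def dsq {ι : Type} [Fintype ι] (z : ι → PO o Ω) : O.1.ValueGroup :=
  ∏ a, ∏ b ∈ Finset.univ.erase a, ds O (z a) (z b)

end

end Pool.Agent.E6b

end

section
open scoped NNReal TensorProduct IntermediateField BigOperators Classical Topology
open Filter

namespace Pool.Agent.E6b
variable {κ F : Type} [Field κ] [IsAlgClosed κ] [CharZero κ] [Field F] [Algebra κ F] [IsFF κ F]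
  {o : Place κ F} {Ω : Type} [Field Ω] [IsAlgClosed Ω] [CharZero Ω] [Algebra κ Ω] (O : VS κ Ω)
variable {O}

theorem L3_top {a : AO o Ω} (ha : a ≠ 0) :
    ∃ n : ℕ, (oo o Ω).ord (algebraMap _ (FO o Ω) a) = -(n : ℤ) ∧
      ∀ j, (ebO o Ω).repr a j ≠ 0 → pn o j ≤ n := by
  have hne : ((ebO o Ω).repr a).support.Nonempty := by
    rw [Finsupp.support_nonempty_iff]
    exact fun h => ha ((ebO o Ω).repr.map_eq_zero_iff.1 h)
  refine ⟨pn o (((ebO o Ω).repr a).support.max' hne), oo_ord ?_ fun j hj => ?_, fun j hj => ?_⟩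
  · exact Finsupp.mem_support_iff.1 (Finset.max'_mem _ hne)
  · by_contra h
    exact absurd (Finset.le_max' _ j (Finsupp.mem_support_iff.2 h)) (not_le.2 hj)
  · exact (ebSpec o).mono.monotone (Finset.le_max' _ j (Finsupp.mem_support_iff.2 hj))

end Pool.Agent.E6b

end

section
open scoped NNReal TensorProduct IntermediateField BigOperators Classical Topology
open Filter

namespace Pool.Agent.E6b
variable {κ F : Type} [Field κ] [IsAlgClosed κ] [CharZero κ] [Field F] [Algebra κ F] [IsFF κ F]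
  {o : Place κ F} {Ω : Type} [Field Ω] [IsAlgClosed Ω] [CharZero Ω] [Algebra κ Ω] (O : VS κ Ω)

theorem L3_eff {D : DO o Ω} (h : 0 ≤ D) : ∃ (n : ℕ) (z : Fin n → PO o Ω), D = ∑ i, pd (z i) := by
  obtain ⟨n, hn⟩ := Int.eq_ofNat_of_zero_le (F1_deg_nonneg h)
  exact ⟨n, exists_eq_sum_pd h hn⟩

theorem L3_div (f : FO o Ω) : ∃ a b : AO o Ω, b ≠ 0 ∧
    f * algebraMap _ (FO o Ω) b = algebraMap _ (FO o Ω) a := by
  obtain ⟨a, b, hb, rfl⟩ := IsFractionRing.div_surjective (A := AO o Ω) f
  have b0 := nonZeroDivisors.ne_zero hb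
  exact ⟨a, b, b0, div_mul_cancel₀ _
    ((map_ne_zero_iff _ (IsFractionRing.injective (AO o Ω) (FO o Ω))).2 b0)⟩

end Pool.Agent.E6b

end

section
open scoped NNReal TensorProduct IntermediateField BigOperators Classical Topology
open Filter

namespace Pool.Agent.E6b

section
variable {κ F : Type} [Field κ] [IsAlgClosed κ] [CharZero κ] [Field F] [Algebra κ F] [IsFF κ F]

theorem L5_mem {D : Dv κ F} {P : Place κ F} (hP : D P = 0) {g : F} (hg : g ∈ LL D) : g ∈ P.O := by
  rcases mem_LL.1 hg with rfl | h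
  · exact P.O.zero_mem
  · have := h P
    rw [hP, neg_zero] at this
    exact P.mem_iff.2 this

theorem L5_mem_sub {ι : Type} [Fintype ι] {D : Dv κ F} {z : ι → Place κ F}
    (hz : Function.Injective z) (hD : ∀ a, D (z a) = 0) {g : F} (hg : g ∈ LL D) :
    g ∈ LL (D - ∑ a, pd (z a)) ↔ ∀ a, (z a).ev g = 0 := by
  have h1 : ∀ b, (D - ∑ a, pd (z a)) (z b) = -1 := fun b => by
    rw [Finsupp.sub_apply, Finsupp.finsetSum_apply, hD, Finset.sum_eq_single b]
    · simp [F1_pd_apply]
    · intro a _ ha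
      rw [F1_pd_apply, if_neg fun h => ha (hz h)]
    · simp
  by_cases h0 : g = 0
  · subst h0
    exact ⟨fun _ a => F1a_ev_zero _, fun _ => Submodule.zero_mem _⟩
  constructor
  · intro h a
    have := (mem_LL.1 h).resolve_left h0 (z a)
    rw [h1] at this
    exact ((z a).ev_eq_zero_iff (L5_mem (hD a) hg)).2 (Or.inr (by omega))
  · intro h
    refine mem_LL.2 (Or.inr fun P => ?_)
    by_cases hP : ∃ a, z a = P
    · obtain ⟨a, rfl⟩ := hP
      have := (((z a).ev_eq_zero_iff (L5_mem (hD a) hg)).1 (h a)).resolve_left h0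
      rw [h1]
      omega
    · rw [Finsupp.sub_apply, Finsupp.finsetSum_apply, Finset.sum_eq_zero fun a _ => by
        rw [F1_pd_apply, if_neg fun h => hP ⟨a, h⟩], sub_zero]
      exact (mem_LL.1 hg).resolve_left h0 P

theorem L5_mem_pd {D : Dv κ F} {P : Place κ F} (hD : D P = 0) {g : F} (hg : g ∈ LL D)
    (h : P.ev g = 0) : g ∈ LL (D - pd P) := by
  have := (L5_mem_sub (z := fun _ : Unit => P) (fun _ _ _ => rfl) (fun _ => hD) hg).2 fun _ => h
  simpa using this

end
variable {κ F : Type} [Field κ] [IsAlgClosed κ] [CharZero κ] [Field F] [Algebra κ F] [IsFF κ F]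
  {o : Place κ F} {Ω : Type} [Field Ω] [IsAlgClosed Ω] [CharZero Ω] [Algebra κ Ω] (O : VS κ Ω)
  {ι ι' : Type} [Fintype ι] [Fintype ι']

theorem L5_dsq' (z : ι → PO o Ω) (h : ι → ι → O.1.ValueGroup) (h1 : ∀ a, h a a = 1)
    (h2 : ∀ a b, b ≠ a → h a b = ds O (z a) (z b)) : dsq O z = ∏ a, ∏ b, h a b := by
  refine Finset.prod_congr rfl fun a _ => ?_
  rw [← Finset.mul_prod_erase Finset.univ (h a) (Finset.mem_univ a), h1, one_mul]
  exact Finset.prod_congr rfl fun b hb => (h2 a b (Finset.ne_of_mem_erase hb)).symm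

theorem L5_dsq [∀ a b : ι, Decidable (a = b)] (z : ι → PO o Ω) :
    dsq O z = ∏ a, ∏ b, if b = a then 1 else ds O (z a) (z b) :=
  L5_dsq' O z _ (fun _ => if_pos rfl) fun _ _ h => if_neg h

theorem L5_dsq_equiv (z : ι → PO o Ω) (e : ι' ≃ ι) : dsq O (fun a => z (e a)) = dsq O z := by
  rw [L5_dsq, L5_dsq, ← e.prod_comp]
  refine Finset.prod_congr rfl fun a _ => ?_
  rw [← e.prod_comp]
  refine Finset.prod_congr rfl fun b _ => ?_
  simp only [e.apply_eq_iff_eq]

end Pool.Agent.E6b

end

section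
open scoped NNReal TensorProduct IntermediateField BigOperators Classical Topology
open Filter

namespace Pool.Agent.E6b
variable {κ F : Type} [Field κ] [IsAlgClosed κ] [CharZero κ] [Field F] [Algebra κ F] [IsFF κ F]
  {o : Place κ F} {Ω : Type} [Field Ω] [IsAlgClosed Ω] [CharZero Ω] [Algebra κ Ω] (O : VS κ Ω)
  {ι ι' : Type} [Fintype ι] [Fintype ι']

theorem L5_oo (n : ℤ) (y : Pt o Ω) : (n • pd (oo o Ω)) (plc y) = 0 := by
  rw [Finsupp.smul_apply, F1_pd_apply, if_neg (plc_ne_oo y).symm, smul_zero]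

theorem L5_Det (z : ι → Pt o Ω) : (Matrix.of fun a i =>
    (plc (z a)).ev (iF o Ω (eb o (Fintype.equivFin ι i)))).det = Det z := by
  unfold Det
  congr 2
  funext a i
  exact (plc_iF (z a) _).2

end Pool.Agent.E6b

end

section
open scoped NNReal TensorProduct IntermediateField BigOperators Classical Topology
open Filter

namespace Pool.Agent.E6b
variable {κ F : Type} [Field κ] [IsAlgClosed κ] [CharZero κ] [Field F] [Algebra κ F] [IsFF κ F]

omit [IsAlgClosed κ] [CharZero κ] [IsFF κ F] in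
theorem P1_deg_sum {α : Type} (p : α → Place κ F) (A : Finset α) :
    deg (∑ i ∈ A, pd (p i)) = A.card := by
  rw [deg_sum]
  simp [deg_pd]

omit [IsAlgClosed κ] [CharZero κ] [IsFF κ F] in
theorem P1_pd_nonneg (P : Place κ F) : 0 ≤ pd P := by
  intro Q
  rw [F1_pd_apply]
  split_ifs <;> simp

theorem P1_step {g : ℕ} (hg : genus κ F = g) (p : Fin (5 * g + 1) → Place κ F)
    (hp : Function.Injective p) (D : Dv κ F) (hD : deg D = g - 1) (A : Finset (Fin (5 * g + 1)))
    (hA : A.card = g) (r : ℕ) (hr : r ≤ g) :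
    ∃ B : Finset (Fin (5 * g + 1)), Disjoint A B ∧ B.card = r ∧
      ell (D + ∑ i ∈ A, pd (p i) - ∑ i ∈ B, pd (p i)) + r ≤ g ∧
      ell (D - ∑ i ∈ A, pd (p i) + ∑ i ∈ B, pd (p i)) = 0 := by
  induction r with
  | zero =>
    refine ⟨∅, Finset.disjoint_empty_right _, rfl, ?_, ?_⟩
    · have h1 : deg (D + ∑ i ∈ A, pd (p i)) = 2 * g - 1 := by
        rw [deg_add, P1_deg_sum, hD, hA]
        ring
      have h2 := rr_large (D := D + ∑ i ∈ A, pd (p i)) (by rw [h1, hg])
      rw [Finset.sum_empty, sub_zero]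
      rw [h1, hg] at h2
      omega
    · rw [Finset.sum_empty, add_zero, ell_eq_zero_iff]
      refine LL_eq_bot ?_
      rw [deg_sub, P1_deg_sum, hD, hA]
      omega
  | succ r ih =>
    obtain ⟨B, hAB, hB, h1, h2⟩ := ih (by omega)
    set E₁ := D + ∑ i ∈ A, pd (p i) - ∑ i ∈ B, pd (p i) with hE₁
    set E₂ := D - ∑ i ∈ A, pd (p i) + ∑ i ∈ B, pd (p i) with hE₂
    have d1 : deg E₁ = 2 * g - 1 - r := by
      rw [hE₁, deg_sub, deg_add, P1_deg_sum, P1_deg_sum, hD, hA, hB]
      ring
    have d2 : deg E₂ = r - 1 := by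
      rw [hE₂, deg_add, deg_sub, P1_deg_sum, P1_deg_sum, hD, hA, hB]
      ring
    have r1 := riemann E₁
    rw [d1, hg] at r1
    let S₁ : Finset (Fin (5 * g + 1)) := Finset.univ.filter fun i => ell (E₁ - pd (p i)) = ell E₁
    let S₂ : Finset (Fin (5 * g + 1)) := Finset.univ.filter fun i => ell E₂ < ell (E₂ + pd (p i))
    have c1 := card_base_le (D := E₁) (by omega) (S₁.image p) (by
      intro P hP
      obtain ⟨i, hi, rfl⟩ := Finset.mem_image.1 hP
      exact (Finset.mem_filter.1 hi).2)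
    have c2 := card_h1_le (D := E₂) (by rw [d2, hg, h2]; omega) (S₂.image p) (by
      intro P hP
      obtain ⟨i, hi, rfl⟩ := Finset.mem_image.1 hP
      exact (Finset.mem_filter.1 hi).2)
    rw [Finset.card_image_of_injective _ hp, d1] at c1
    rw [Finset.card_image_of_injective _ hp, d2, hg] at c2
    have c3 : (A ∪ B ∪ S₁ ∪ S₂).card < (Finset.univ : Finset (Fin (5 * g + 1))).card := by
      have a1 := Finset.card_union_le (A ∪ B ∪ S₁) S₂
      have a2 := Finset.card_union_le (A ∪ B) S₁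
      have a3 := Finset.card_union_le A B
      rw [Finset.card_univ, Fintype.card_fin]
      omega
    obtain ⟨i, -, hi⟩ := Finset.exists_mem_notMem_of_card_lt_card c3
    simp only [Finset.mem_union, not_or, S₁, S₂, Finset.mem_filter, Finset.mem_univ, true_and,
      not_lt] at hi
    obtain ⟨⟨⟨iA, iB⟩, i1⟩, i2⟩ := hi
    refine ⟨insert i B, Finset.disjoint_insert_right.2 ⟨iA, hAB⟩,
      by rw [Finset.card_insert_of_notMem iB, hB], ?_, ?_⟩
    · have e1 : D + ∑ i ∈ A, pd (p i) - ∑ i ∈ insert i B, pd (p i) = E₁ - pd (p i) := by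
        rw [Finset.sum_insert iB, hE₁]
        abel
      have e2 : ell (E₁ - pd (p i)) ≤ ell E₁ := ell_mono (sub_le_self _ (P1_pd_nonneg _))
      rw [e1]
      omega
    · have e1 : D - ∑ i ∈ A, pd (p i) + ∑ i ∈ insert i B, pd (p i) = E₂ + pd (p i) := by
        rw [Finset.sum_insert iB, hE₂]
        abel
      rw [e1]
      omega

theorem P1_exists_emb {g : ℕ} (hg : genus κ F = g) (p : Fin (5 * g + 1) → Place κ F)
    (hp : Function.Injective p) (D : Dv κ F) (hD : deg D = g - 1) :
    ∃ j : (Fin g ⊕ Fin g) ↪ Fin (5 * g + 1),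
      ell (D + ∑ s, pd (p (j (.inl s))) - ∑ s, pd (p (j (.inr s)))) = 0 ∧
      ell (D - ∑ s, pd (p (j (.inl s))) + ∑ s, pd (p (j (.inr s)))) = 0 := by
  obtain ⟨A, -, hA⟩ := Finset.exists_subset_card_eq (s := (Finset.univ : Finset (Fin (5 * g + 1))))
    (n := g) (by rw [Finset.card_univ, Fintype.card_fin]; omega)
  obtain ⟨B, hAB, hB, h1, h2⟩ := P1_step hg p hp D hD A hA g le_rfl
  have key : ∀ (C : Finset (Fin (5 * g + 1))) (hC : C.card = g),
      ∑ s, pd (p (C.orderEmbOfFin hC s)) = ∑ i ∈ C, pd (p i) := by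
    intro C hC
    rw [← Finset.sum_coe_sort C]
    exact Equiv.sum_comp (C.orderIsoOfFin hC).toEquiv fun i => pd (p i)
  refine ⟨⟨Sum.elim (A.orderEmbOfFin hA) (B.orderEmbOfFin hB),
    (A.orderEmbOfFin hA).injective.sumElim (B.orderEmbOfFin hB).injective fun a b h => ?_⟩, ?_, ?_⟩
  · exact Finset.disjoint_left.1 hAB (A.orderEmbOfFin_mem hA a) (h ▸ B.orderEmbOfFin_mem hB b)
  · simp only [Function.Embedding.coeFn_mk, Sum.elim_inl, Sum.elim_inr, key]
    omega
  · simp only [Function.Embedding.coeFn_mk, Sum.elim_inl, Sum.elim_inr, key]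
    exact h2

end Pool.Agent.E6b

end

section
open scoped NNReal TensorProduct IntermediateField BigOperators Classical Topology
open Filter

namespace Pool.Agent.E6b
variable {κ F : Type} [Field κ] [IsAlgClosed κ] [CharZero κ] [Field F] [Algebra κ F] [IsFF κ F]
  {o : Place κ F} {Ω Ω' : Type} [Field Ω] [IsAlgClosed Ω] [CharZero Ω] [Algebra κ Ω]
  [Field Ω'] [IsAlgClosed Ω'] [CharZero Ω'] [Algebra κ Ω'] {ι ι' : Type} [Fintype ι] [Fintype ι']

theorem Prp.segre {ι ι' K : Type*} [Field K] {x y : ι → K} {x' y' : ι' → K} (h : Prp x y)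
    (h' : Prp x' y') : Prp (fun p : ι × ι' => x p.1 * x' p.2) fun p => y p.1 * y' p.2 := by
  obtain ⟨μ, h0, h⟩ := h
  obtain ⟨μ', h0', h'⟩ := h'
  refine ⟨μ * μ', mul_ne_zero h0 h0', fun p => ?_⟩
  simp only [h, h']
  ring

section
omit [IsAlgClosed κ] [CharZero κ] [IsAlgClosed Ω] [CharZero Ω]

theorem P1_rs_sub (O : VS κ Ω) {x y : Ω} (hx : x ∈ O.1) (hy : y ∈ O.1) :
    rs O (x - y) = rs O x - rs O y := by
  rw [eq_sub_iff_add_eq, ← rs_add O (sub_mem hx hy) hy, sub_add_cancel]

theorem P1_rs_prod (O : VS κ Ω) {α : Type} (s : Finset α) {x : α → Ω} (hx : ∀ a, x a ∈ O.1) :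
    rs O (∏ a ∈ s, x a) = ∏ a ∈ s, rs O (x a) := by
  induction s using Finset.induction_on with
  | empty => simpa using rs_algebraMap O 1
  | insert a s ha ih =>
    rw [Finset.prod_insert ha, Finset.prod_insert ha,
      rs_mul O (hx a) (prod_mem fun a _ => hx a), ih]

theorem P1_rs_div (O : VS κ Ω) {x y : Ω} (hx : x ∈ O.1) (hy : y ∈ O.1) (h : rs O y ≠ 0) :
    x / y ∈ O.1 ∧ rs O (x / y) = rs O x / rs O y := by
  have h1 : O.1.valuation y = 1 :=
    le_antisymm ((O.1.valuation_le_one_iff y).2 hy)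
      (not_lt.1 fun h2 => h ((rs_eq_zero_iff O hy).2 h2))
  have h0 : y ≠ 0 := by
    rintro rfl
    simp at h1
  have h2 : x / y ∈ O.1 := by
    rw [← O.1.valuation_le_one_iff, map_div₀, h1, div_one]
    exact (O.1.valuation_le_one_iff x).2 hx
  refine ⟨h2, ?_⟩
  rw [eq_div_iff h, ← rs_mul O h2 hy, div_mul_cancel₀ _ h0]

end

end Pool.Agent.E6b

end

section
open scoped NNReal TensorProduct IntermediateField BigOperators Classical Topology
open Filter

namespace Pool.Agent.E6b
variable {κ F : Type} [Field κ] [IsAlgClosed κ] [CharZero κ] [Field F] [Algebra κ F] [IsFF κ F]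
  {o : Place κ F} {Ω : Type} [Field Ω] [IsAlgClosed Ω] [CharZero Ω] [Algebra κ Ω]
  {ι ι' : Type} [Fintype ι] [Fintype ι']

theorem P2_pd_oo (p : Pt o Ω) : pd (oo o Ω) (plc p) = 0 := by
  rw [F1_pd_apply, if_neg (plc_ne_oo p).symm]

end Pool.Agent.E6b

end

section
open scoped NNReal TensorProduct IntermediateField BigOperators Classical Topology
open Filter

namespace Pool.Agent.E6b
variable {κ F : Type} [Field κ] [IsAlgClosed κ] [CharZero κ] [Field F] [Algebra κ F] [IsFF κ F]
  {o : Place κ F} {Ω Ω' : Type} [Field Ω] [IsAlgClosed Ω] [CharZero Ω] [Algebra κ Ω]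
  [Field Ω'] [IsAlgClosed Ω'] [CharZero Ω'] [Algebra κ Ω'] {ι ι' ι'' : Type} [Fintype ι]
  [Fintype ι'] [Fintype ι'']

theorem P3_par {Γ : Type} [CommGroupWithZero Γ] {a b a' b' p p' m m' z g0 g1 g2 : Γ}
    (hz : z ≠ 0) (h1' : g1 ≠ 0) (h2' : g2 ≠ 0)
    (h0 : z * z * z * z = g0 * (z * z * z)) (h1 : a * a * b * b' = g1 * (p * m * z))
    (h2 : a' * a' * b' * b = g2 * (p' * m' * z)) :
    p * p' * (m * m') = (g1 * g2 * g0 * g0)⁻¹ * (a * a' * (b * b')) ^ 2 := by
  have h3 : z = g0 := by
    rw [mul_comm g0] at h0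
    exact mul_left_cancel₀ (by positivity) h0
  subst h3
  have h4 : (a * a' * (b * b')) ^ 2 = (a * a * b * b') * (a' * a' * b' * b) := by
    rw [sq]; ac_rfl
  rw [h4, h1, h2]
  field_simp

end Pool.Agent.E6b

end

section
open scoped NNReal TensorProduct IntermediateField BigOperators Classical Topology
open Filter

namespace Pool.Agent.E6b

theorem NT_bilin {G M : Type} [AddCommGroup G] [AddCommGroup M]
    (hM : ∀ x : M, 2 • x = 0 → x = 0) (q : G → M)
    (h : ∀ a b, q (a + b) + q (a - b) = 2 • q a + 2 • q b) :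
    ∃ β : G →+ G →+ M, (∀ a b, β a b = q (a + b) - q a - q b) ∧ ∀ a, β a a = 2 • q a := by
  have h0 : q 0 = 0 := by
    apply hM
    have := h 0 0
    rw [add_zero, sub_zero] at this
    linear_combination (norm := abel1) -this
  have h3 : ∀ a b c, q (a + b + c) - q (a + b) - q c =
      (q (a + c) - q a - q c) + (q (b + c) - q b - q c) := by
    intro a b c
    rw [← sub_eq_zero]
    apply hM
    have e1 := h (a + b) c
    have e2 := h a (b - c)
    have e3 := h (a + c) b
    have e4 := h b c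
    rw [show a + (b - c) = a + b - c by abel, show a - (b - c) = a + c - b by abel] at e2
    rw [show a + c + b = a + b + c by abel] at e3
    linear_combination (norm := abel1) e1 + e3 - e2 - e4 - e4
  refine ⟨AddMonoidHom.mk' (fun a => AddMonoidHom.mk' (fun b => q (a + b) - q a - q b)
    fun b c => ?_) fun a b => ?_, fun a b => rfl, fun a => ?_⟩
  · have := h3 b c a
    rw [add_comm (b + c) a, add_comm b a, add_comm c a] at this
    linear_combination (norm := abel1) this
  · ext c
    exact h3 a b c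
  · have := h a a
    rw [sub_self, h0] at this
    change q (a + a) - q a - q a = _
    linear_combination (norm := abel1) this

theorem NT_lim {G : Type} [AddCommGroup G] (q : G → ℝ) (hq : ∀ a, 0 ≤ q a) {C : ℝ}
    (h : ∀ a b, |q (a + b) + q (a - b) - 2 * q a - 2 * q b| ≤ C) (a : G) :
    ∃ x : ℝ, Tendsto (fun n : ℕ => q (2 ^ n • a) / 4 ^ n) atTop (𝓝 x) ∧ |q a - x| ≤ C := by
  have h0 : 2 * q 0 ≤ C := by
    have := h 0 0
    rw [add_zero, sub_zero, abs_le] at this
    linarith [this.1]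
  have hu : ∀ n : ℕ, dist (q (2 ^ n • a) / 4 ^ n) (q (2 ^ (n + 1) • a) / 4 ^ (n + 1)) ≤
      3 * C / 8 * (1 / 4) ^ n := by
    intro n
    have h1 := h (2 ^ n • a) (2 ^ n • a)
    rw [sub_self, ← two_nsmul, ← mul_nsmul', ← pow_succ', abs_le] at h1
    have h2 : |4 * q (2 ^ n • a) - q (2 ^ (n + 1) • a)| ≤ 3 * C / 2 := by
      rw [abs_le]
      constructor <;> linarith [h1.1, h1.2, hq 0]
    have e : q (2 ^ n • a) / 4 ^ n - q (2 ^ (n + 1) • a) / 4 ^ (n + 1) =
        (4 * q (2 ^ n • a) - q (2 ^ (n + 1) • a)) * (1 / 4 * (1 / 4) ^ n) := by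
      rw [one_div, inv_pow]
      field_simp
      ring
    rw [Real.dist_eq, e, abs_mul, abs_of_pos (by positivity : (0 : ℝ) < 1 / 4 * (1 / 4) ^ n)]
    calc _ ≤ 3 * C / 2 * (1 / 4 * (1 / 4) ^ n) := by gcongr
      _ = _ := by ring
  have hr : (1 / 4 : ℝ) < 1 := by norm_num
  obtain ⟨x, hx⟩ := cauchySeq_tendsto_of_complete (cauchySeq_of_le_geometric _ _ hr hu)
  refine ⟨x, hx, ?_⟩
  have := dist_le_of_le_geometric_of_tendsto₀ _ _ hr hu hx
  simp only [pow_zero, one_smul, div_one, Real.dist_eq] at this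
  have e : 3 * C / 8 / (1 - 1 / 4) = C / 2 := by ring
  linarith [hq 0]

/-- Tate's limit. -/
theorem exists_tate {G : Type} [AddCommGroup G] (q : G → ℝ) (hq : ∀ a, 0 ≤ q a) {C : ℝ}
    (h : ∀ a b, |q (a + b) + q (a - b) - 2 * q a - 2 * q b| ≤ C) :
    ∃ B : G →+ G →+ ℝ, (∀ a b, B a b = B b a) ∧ (∀ a, 0 ≤ B a a) ∧
      ∀ a, |q a - B a a| ≤ C := by
  choose r hr hrC using NT_lim q hq h
  have hpar : ∀ a b, r (a + b) + r (a - b) = 2 • r a + 2 • r b := by
    intro a b
    have h1 := (((hr (a + b)).add (hr (a - b))).sub ((hr a).const_mul 2)).sub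
      ((hr b).const_mul 2)
    have h2 : Tendsto (fun n : ℕ => C / 4 ^ n) atTop (𝓝 0) :=
      tendsto_const_nhds.div_atTop (tendsto_pow_atTop_atTop_of_one_lt (by norm_num))
    have h3 := tendsto_nhds_unique h1 (squeeze_zero_norm (fun n => by
      have e : q (2 ^ n • (a + b)) / 4 ^ n + q (2 ^ n • (a - b)) / 4 ^ n -
          2 * (q (2 ^ n • a) / 4 ^ n) - 2 * (q (2 ^ n • b) / 4 ^ n) =
          (q (2 ^ n • a + 2 ^ n • b) + q (2 ^ n • a - 2 ^ n • b) - 2 * q (2 ^ n • a) -
            2 * q (2 ^ n • b)) / 4 ^ n := by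
        rw [smul_add, smul_sub]
        ring
      rw [e, Real.norm_eq_abs, abs_div, abs_of_pos (by positivity : (0 : ℝ) < 4 ^ n)]
      gcongr
      exact h _ _) h2)
    simp only [nsmul_eq_mul, Nat.cast_ofNat]
    linarith
  obtain ⟨β, hβ, hβ2⟩ := NT_bilin (fun x hx => by simpa using hx) r hpar
  have hd : ∀ a, ((1 / 2 : ℝ) • β) a a = r a := by
    intro a
    simp only [AddMonoidHom.smul_apply, hβ2, nsmul_eq_mul, smul_eq_mul, Nat.cast_ofNat]
    ring
  refine ⟨(1 / 2 : ℝ) • β, fun a b => ?_, fun a => ?_, fun a => by rw [hd]; exact hrC a⟩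
  · simp only [AddMonoidHom.smul_apply, hβ, add_comm a b]
    ring
  · rw [hd]
    exact ge_of_tendsto' (hr a) fun n => div_nonneg (hq _) (by positivity)

/-- a function to a torsion free group satisfying the parallelogram law is quadratic. -/
theorem quad_of_par {G M : Type} [AddCommGroup G] [AddCommGroup M]
    (hM : ∀ x : M, 2 • x = 0 → x = 0) (q : G → M)
    (h : ∀ a b, q (a + b) + q (a - b) = 2 • q a + 2 • q b) (a b : G) (s t : ℤ) :
    q (s • a + t • b) = (s ^ 2) • q a + (t ^ 2) • q b + (s * t) • (q (a + b) - q a - q b) := by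
  obtain ⟨β, hβ, hβ2⟩ := NT_bilin hM q h
  have h1 : ∀ (x y : G) (s t : ℤ), β (s • x) (t • y) = (s * t) • β x y := by
    intro x y s t
    rw [map_zsmul, map_zsmul, AddMonoidHom.zsmul_apply, smul_smul, mul_comm]
  have h2 : ∀ (x : G) (s : ℤ), q (s • x) = (s ^ 2) • q x := by
    intro x s
    rw [← sub_eq_zero]
    apply hM
    rw [smul_sub, ← hβ2, h1, hβ2, smul_comm, sq, sub_self]
  rw [← hβ, ← h1, hβ, h2, h2]
  abel

end Pool.Agent.E6b

end

section
open scoped NNReal TensorProduct IntermediateField BigOperators Classical Topology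
open Filter

namespace Pool.Agent.E6b
variable {κ F F' E : Type} [Field κ] [IsAlgClosed κ] [CharZero κ] [Field F] [Algebra κ F] [IsFF κ F]
  [Field F'] [Algebra κ F'] [IsFF κ F'] [Field E] [Algebra κ E] [IsFF κ E]

/-- degree of a root -/
theorem deg_dinf_root_le {M : Dv κ F'} {d : ℕ} (π : Fin d → F') (hπ : ∀ k, π k ∈ LL M) (h0 : π ≠ 0)
    {c : F'} (hc : ∑ k, π k * c ^ (k : ℕ) = 0) : deg (dinf κ c) ≤ deg M := by
  obtain ⟨k₁, hk₁⟩ := Function.ne_iff.1 h0
  obtain ⟨k₀, hk₀, hmax⟩ := (Finset.univ.filter fun k => π k ≠ 0).exists_max_image id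
    ⟨k₁, Finset.mem_filter.2 ⟨Finset.mem_univ _, hk₁⟩⟩
  have hk : π k₀ ≠ 0 := (Finset.mem_filter.1 hk₀).2
  have h1 : dinf κ c ≤ M + dv κ (π k₀) := by
    intro P
    have h2 := (mem_LL.1 (hπ k₀)).resolve_left hk P
    rw [dinf_apply, Finsupp.add_apply, dv_apply]
    refine max_le ?_ (by omega)
    by_contra hlt
    have hc0 : c ≠ 0 := F1a_ne_zero_of_ord P (by omega)
    refine (F1_sum_ne_zero P Finset.univ (fun k : Fin d => π k * c ^ (k : ℕ)) (Finset.mem_univ k₀)
      (mul_ne_zero hk (pow_ne_zero _ hc0)) fun k _ hne => ?_).1 hc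
    by_cases hz : π k = 0
    · exact Or.inl (by rw [hz, zero_mul])
    · have h3 := (mem_LL.1 (hπ k)).resolve_left hz P
      have h4 : (k : ℕ) < k₀ :=
        lt_of_le_of_ne (hmax k (Finset.mem_filter.2 ⟨Finset.mem_univ _, hz⟩))
          fun e => hne (Fin.ext e)
      have h5 : ((k : ℕ) : ℤ) + 1 ≤ (k₀ : ℕ) := by exact_mod_cast h4
      right
      rw [P.ord_mul hk (pow_ne_zero _ hc0), P.ord_mul hz (pow_ne_zero _ hc0), P.ord_pow, P.ord_pow]
      nlinarith
  have h2 := deg_mono h1
  rwa [deg_add, deg_dv, add_zero] at h2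

end Pool.Agent.E6b

end

section
open scoped NNReal TensorProduct IntermediateField BigOperators Classical Topology
open Filter

namespace Pool.Agent.E6b

section
variable {κ F : Type} [Field κ] [IsAlgClosed κ] [CharZero κ] [Field F] [Algebra κ F] [IsFF κ F]

theorem K6_pd_nonneg (P : Place κ F) : 0 ≤ pd P := fun Q => by
  rw [F1_pd_apply]; split_ifs <;> simp

end

end Pool.Agent.E6b

end

section
open scoped NNReal TensorProduct IntermediateField BigOperators Classical Topology
open Filter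

namespace Pool.Agent.E6b

section
variable {κ F' E : Type} [Field κ] [IsAlgClosed κ] [CharZero κ] [Field F'] [Algebra κ F']
  [IsFF κ F'] [Field E] [Algebra κ E] [IsFF κ E]
  {o : Place κ E} {Ω : Type} [Field Ω] [IsAlgClosed Ω] [CharZero Ω] [Algebra κ Ω]
  [Algebra F' Ω] [IsScalarTower κ F' Ω]

theorem K6_AA_mem (a : AA o) {k : ℤ} (h : - k ≤ o.ord (a : E)) : (a : E) ∈ LL (k • pd o) := by
  refine mem_LL.2 (Or.inr fun P => ?_)
  simp only [Finsupp.smul_apply, F1_pd_apply, smul_eq_mul]
  split_ifs with hP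
  · subst hP; simpa using h
  · simpa using P.mem_iff.1 (a.2 P (Ne.symm hP))

end

end Pool.Agent.E6b

end

section
open scoped NNReal TensorProduct IntermediateField BigOperators Classical Topology
open Filter

namespace Pool.Agent.E6b

section
variable {κ F F' E : Type} [Field κ] [IsAlgClosed κ] [CharZero κ] [Field F] [Algebra κ F] [IsFF κ F]
  [Field F'] [Algebra κ F'] [IsFF κ F'] [Field E] [Algebra κ E] [IsFF κ E]

theorem K7_dinf_nonneg (f : F) : 0 ≤ dinf κ f := fun P => by
  rw [dinf_apply]; exact le_max_right _ _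

end

end Pool.Agent.E6b

end

section
open scoped NNReal TensorProduct IntermediateField BigOperators Classical Topology
open Filter

namespace Pool.Agent.E6b

namespace Tw

section
variable {κ L : Type} [Field κ] [IsAlgClosed κ] [CharZero κ] [Field L] [Algebra κ L] {n₀ B : ℕ}
  (T : Tw κ L n₀ B)

theorem K8_card_erase (s : Fin 5) : (Finset.univ.erase s : Finset (Fin 5)).card = 4 := by
  rw [Finset.card_erase_of_mem (Finset.mem_univ s), Finset.card_univ, Fintype.card_fin]

theorem K8_sum_update_le (n : Fin 5 → ℤ) (s : Fin 5) :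
    ∑ s', Function.update n s 0 s' ≤ ∑ s', |n s'| := by
  refine Finset.sum_le_sum fun s' _ => ?_
  by_cases h : s' = s
  · subst h
    rw [Function.update_self]
    exact abs_nonneg _
  · rw [Function.update_of_ne h]
    exact le_abs_self _

end

end Tw

end Pool.Agent.E6b

end

section
open scoped NNReal TensorProduct IntermediateField BigOperators Classical Topology
open Filter

namespace Pool.Agent.E6b

theorem P5_segre_ne_zero {Ω ι ι' : Type} [Field Ω] {x : ι → Ω} {x' : ι' → Ω} (hx : x ≠ 0)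
    (hx' : x' ≠ 0) : (fun p : ι × ι' => x p.1 * x' p.2) ≠ 0 := by
  obtain ⟨i, hi⟩ := Function.ne_iff.mp hx
  obtain ⟨j, hj⟩ := Function.ne_iff.mp hx'
  exact Function.ne_iff.mpr ⟨(i, j), mul_ne_zero hi hj⟩

end Pool.Agent.E6b

end

section
open scoped NNReal TensorProduct IntermediateField BigOperators Classical Topology
open Filter

namespace Pool.Agent.E6b
variable {κ F : Type} [Field κ] [IsAlgClosed κ] [CharZero κ] [Field F] [Algebra κ F] [IsFF κ F]
  {o : Place κ F} {Ω : Type} [Field Ω] [IsAlgClosed Ω] [CharZero Ω] [Algebra κ Ω]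

theorem P5_base_finite {D : DO o Ω} (h : 0 < ell D) :
    {P : PO o Ω | ell (D - pd P) = ell D}.Finite := by
  by_contra hinf
  obtain ⟨S, hS, hc⟩ := Set.Infinite.exists_subset_card_eq hinf ((deg D).toNat + 1)
  have h1 := card_base_le h S fun P hP => hS hP
  rw [hc] at h1
  have h2 := Int.self_le_toNat (deg D)
  push_cast at h1
  omega

end Pool.Agent.E6b

end

section
open scoped NNReal TensorProduct IntermediateField BigOperators Classical Topology
open Filter

namespace Pool.Agent.E6b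

theorem C5_rs_div {κ Ω : Type} [Field κ] [Field Ω] [Algebra κ Ω] (O : VS κ Ω) {x y : Ω}
    (hx : x ∈ O.1) (hy : y ∈ O.1) (h : rs O y ≠ 0) :
    x / y ∈ O.1 ∧ rs O (x / y) = rs O x / rs O y := by
  have h1 : O.1.valuation y = 1 :=
    le_antisymm ((O.1.valuation_le_one_iff y).2 hy)
      (not_lt.1 fun h' => h ((rs_eq_zero_iff O hy).2 h'))
  have h0 : y ≠ 0 := fun e => by simp [e] at h1
  have h2 : x / y ∈ O.1 := by
    rw [V1_div_mem O.1 x h0, h1]
    exact (O.1.valuation_le_one_iff x).2 hx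
  refine ⟨h2, ?_⟩
  rw [eq_div_iff h, ← rs_mul O h2 hy, div_mul_cancel₀ _ h0]

end Pool.Agent.E6b

end

section
open scoped NNReal TensorProduct IntermediateField BigOperators Classical Topology
open Filter

namespace Pool.Agent.E6b

section
variable {κ Ω : Type} [Field κ] [Field Ω] [Algebra κ Ω]

theorem C6_span_pow {J : Type} (a : J → Ω) (A : ℕ) :
    Submodule.span κ (Set.range a) ^ A ≤
      Submodule.span κ (Set.range fun μ : Fin A → J => ∏ i, a (μ i)) := by
  rw [Submodule.span_pow]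
  refine Submodule.span_mono ?_
  intro x hx
  obtain ⟨f, rfl⟩ := Set.mem_pow.mp hx
  choose μ hμ using fun i => (f i).2
  refine ⟨μ, ?_⟩
  rw [List.prod_ofFn]
  exact Finset.prod_congr rfl fun i _ => hμ i

theorem C6_span_mul {A B : Type} (a : A → Ω) (b : B → Ω) :
    Submodule.span κ (Set.range a) * Submodule.span κ (Set.range b) ≤
      Submodule.span κ (Set.range fun p : A × B => a p.1 * b p.2) := by
  rw [Submodule.span_mul_span]
  refine Submodule.span_mono ?_
  rintro _ ⟨_, ⟨i, rfl⟩, _, ⟨j, rfl⟩, rfl⟩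
  exact ⟨(i, j), rfl⟩

end

end Pool.Agent.E6b

end

section
open scoped NNReal TensorProduct IntermediateField BigOperators Classical Topology
open Filter

namespace Pool.Agent.E6b
variable {F : Type} [Field F] [Algebra Qb F] [IsFF Qb F] {o : Place Qb F} {d : ℕ}

theorem C6_ne {J K L : Type} [Field K] [Field L] [Algebra K L] {y : J → L} {x : J → K}
    (hy : y ≠ 0) (h : Prp y fun j => algebraMap K L (x j)) : x ≠ 0 := by
  rintro rfl
  obtain ⟨μ, -, hμ⟩ := h
  exact hy (funext fun j => by simp [hμ j])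

end Pool.Agent.E6b

end

section
open scoped NNReal TensorProduct IntermediateField BigOperators Classical Topology
open Filter

namespace Pool.Agent.E6b

theorem C7_rs_pow {κ Ω : Type} [Field κ] [Field Ω] [Algebra κ Ω] (O : VS κ Ω) {x : Ω}
    (hx : x ∈ O.1) (n : ℕ) : rs O (x ^ n) = rs O x ^ n := by
  induction n with
  | zero => simpa using rs_algebraMap O 1
  | succ n ih => rw [pow_succ, rs_mul O (pow_mem hx n) hx, ih, pow_succ]

end Pool.Agent.E6b

end

section
open scoped NNReal TensorProduct IntermediateField BigOperators Classical Topology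
open Filter

namespace Pool.Agent.E6b

section Block

theorem C2_shift {R R' A : Type} [CommRing R] [CommRing R'] [CommRing A] [Algebra R' A]
    (ψ : R → R') (ε : Polynomial R →+* A)
    (hC : ∀ q, ε (Polynomial.C q) = algebraMap R' A (ψ q)) {m : Polynomial R} (hm : m.Monic)
    (h0 : ε m = 0) (j : Fin m.natDegree) : ∃ g : Fin m.natDegree → R',
      (∀ k, g k = 0 ∨ g k = 1 ∨ ∃ i, g k = -ψ (m.coeff i)) ∧
      ε Polynomial.X * ε Polynomial.X ^ (j : ℕ) = ∑ k, g k • ε Polynomial.X ^ (k : ℕ) := by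
  by_cases hj : (j : ℕ) + 1 < m.natDegree
  · refine ⟨fun k => if k = ⟨j + 1, hj⟩ then 1 else 0, fun k => ?_, ?_⟩
    · by_cases hk : k = ⟨j + 1, hj⟩ <;> simp [hk]
    · simp [pow_succ']
  · have hj' : (j : ℕ) + 1 = m.natDegree := by have := j.2; omega
    refine ⟨fun k => -ψ (m.coeff k), fun k => Or.inr (Or.inr ⟨k, rfl⟩), ?_⟩
    rw [← pow_succ', hj']
    have e := congrArg ε hm.as_sum
    rw [h0, map_add, map_pow, map_sum, Finset.sum_range] at e
    simp only [map_mul, map_pow, hC] at e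
    simp only [Algebra.smul_def, map_neg, neg_mul, Finset.sum_neg_distrib]
    exact eq_neg_of_add_eq_zero_left e.symm

end Block

end Pool.Agent.E6b

end

section
open scoped NNReal TensorProduct IntermediateField BigOperators Classical Topology
open Filter

namespace Pool.Agent.E6b
variable {F : Type} [Field F] [Algebra Qb F] [IsFF Qb F] (o : Place Qb F) (d : ℕ)

theorem C8_rs_pow {κ Ω : Type} [Field κ] [Field Ω] [Algebra κ Ω] (O : VS κ Ω) {x : Ω}
    (hx : x ∈ O.1) (n : ℕ) : rs O (x ^ n) = rs O x ^ n := by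
  induction n with
  | zero => simpa using rs_algebraMap O 1
  | succ n ih => rw [pow_succ, rs_mul O (pow_mem hx n) hx, ih, pow_succ]

end Pool.Agent.E6b

end
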