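import Pool.Agent.E6c.A16

section
open scoped NNReal TensorProduct IntermediateField BigOperators Classical Topology
open Filter

namespace Pool.Agent.E6b
open Polynomial

/-- an element with at most `d` conjugates over `K`. -/
theorem natDegree_minpoly_le (K : IntermediateField ℚ Qb) [FiniteDimensional ℚ K] {a : Qb}
    (s : Finset Qb) (h : ∀ σ : Qb ≃ₐ[ℚ] Qb, (∀ x ∈ K, σ x = x) → σ a ∈ s) :
    (minpoly ℚ a).natDegree ≤ s.card * Module.finrank ℚ K := by
  have := H3_isGalois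
  have : IsGalois K Qb := IsGalois.tower_top_of_isGalois ℚ K Qb
  have halg : IsAlgebraic K a := Algebra.IsAlgebraic.isAlgebraic a
  have hint : IsIntegral K a := halg.isIntegral
  have hsep : (minpoly K a).Separable := Algebra.IsSeparable.isSeparable K a
  have hcard : (minpoly K a).natDegree ≤ s.card := by
    rw [← card_rootSet_eq_natDegree (K := Qb) hsep (IsAlgClosed.splits _)]
    have hsub : (minpoly K a).rootSet Qb ⊆ (s : Set Qb) := by
      intro r hr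
      have hr' := (mem_rootSet.mp hr).2
      obtain ⟨σ, hσ⟩ := minpoly.exists_algEquiv_of_root' halg hr'
      rw [← hσ]
      exact h (σ.restrictScalars ℚ) (fun x hx => σ.commutes ⟨x, hx⟩)
    rw [← Set.toFinset_card]
    exact Finset.card_le_card (fun x hx => hsub (Set.mem_toFinset.mp hx))
  have : FiniteDimensional K K⟮a⟯ := IntermediateField.adjoin.finiteDimensional hint
  have : FiniteDimensional ℚ K⟮a⟯ := Module.Finite.trans K K⟮a⟯
  have h1' := minpoly.natDegree_le (A := ℚ) (IntermediateField.AdjoinSimple.gen K a)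
  have h2 : minpoly ℚ (IntermediateField.AdjoinSimple.gen K a) = minpoly ℚ a := by
    rw [← minpoly.algebraMap_eq (A := ℚ) (algebraMap K⟮a⟯ Qb).injective,
      IntermediateField.AdjoinSimple.algebraMap_gen]
  rw [h2, ← Module.finrank_mul_finrank ℚ K K⟮a⟯, IntermediateField.adjoin.finrank hint] at h1'
  refine h1'.trans ?_
  rw [mul_comm]
  exact Nat.mul_le_mul_right _ hcard

end Pool.Agent.E6b

end

section
open scoped NNReal TensorProduct IntermediateField BigOperators Classical Topology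
open Filter

namespace Pool.Agent.E6b
variable {κ F : Type} [Field κ] [IsAlgClosed κ] [CharZero κ] [Field F] [Algebra κ F] [IsFF κ F]
  {o : Place κ F} {Ω : Type} [Field Ω] [IsAlgClosed Ω] [CharZero Ω] [Algebra κ Ω] (O : VS κ Ω)

theorem gr_sum {ι : Type*} (s : Finset ι) {f : ι → FO o Ω} (hf : ∀ i ∈ s, gv O o (f i) ≤ 1) :
    gr O (∑ i ∈ s, f i) = ∑ i ∈ s, gr O (f i) := by
  induction s using Finset.induction_on with
  | empty => simpa using gr_zero O
  | insert a s ha ih =>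
    have h := fun i hi => hf i (Finset.mem_insert_of_mem hi)
    rw [Finset.sum_insert ha, Finset.sum_insert ha,
      gr_add O (hf a (Finset.mem_insert_self _ _)) (Valuation.map_sum_le _ h), ih h]

end Pool.Agent.E6b

end

section
open scoped NNReal TensorProduct IntermediateField BigOperators Classical Topology
open Filter

namespace Pool.Agent.E6b

section
variable {κ F : Type} [Field κ] [IsAlgClosed κ] [CharZero κ] [Field F] [Algebra κ F] [IsFF κ F]
  {o : Place κ F} {Ω : Type} [Field Ω] [IsAlgClosed Ω] [CharZero Ω] [Algebra κ Ω] (O : VS κ Ω)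

/-- a subfield of the valuation ring maps to the residue field -/
noncomputable def resH {K : Type} [Field K] [Algebra κ K] (τ : K →ₐ[κ] Ω) (h : ∀ c, τ c ∈ O.1) :
    K →ₐ[κ] RF O where
  toFun a := rs O (τ a)
  map_one' := by simpa using rs_algebraMap O 1
  map_mul' a b := by rw [map_mul]; exact rs_mul O (h a) (h b)
  map_zero' := by simpa using rs_algebraMap O 0
  map_add' a b := by rw [map_add]; exact rs_add O (h a) (h b)
  commutes' c := by rw [AlgHom.commutes]; exact rs_algebraMap O c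

end

end Pool.Agent.E6b

end

section
open scoped NNReal TensorProduct IntermediateField BigOperators Classical Topology
open Filter

namespace Pool.Agent.E6b
variable {κ F : Type} [Field κ] [IsAlgClosed κ] [CharZero κ] [Field F] [Algebra κ F] [IsFF κ F]
  {o : Place κ F} {Ω : Type} [Field Ω] [IsAlgClosed Ω] [CharZero Ω] [Algebra κ Ω] (O : VS κ Ω)

theorem L4_gv_eq_one {f : FO o Ω} (h : gv O o f ≤ 1) (h0 : gr O f ≠ 0) : gv O o f = 1 :=
  h.antisymm (not_lt.1 fun h1 => h0 ((gr_eq_zero_iff O h).2 h1))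

section
variable {K : Type} [Field K] [IsAlgClosed K] [CharZero K] [Algebra κ K] (τ : K →ₐ[κ] Ω)

theorem intg_comp (h : ∀ c, τ c ∈ O.1) (y : Pt o K) : Intg O (τ.comp y) := fun a => h (y a)

theorem redp_comp (h : ∀ c, τ c ∈ O.1) (y : Pt o K) :
    redp O (τ.comp y) (intg_comp O τ h y) = (resH O τ h).comp y := rfl

end

end Pool.Agent.E6b

end

section
open scoped NNReal TensorProduct IntermediateField BigOperators Classical Topology
open Filter

namespace Pool.Agent.E6b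
variable {κ F : Type} [Field κ] [IsAlgClosed κ] [CharZero κ] [Field F] [Algebra κ F] [IsFF κ F]
  {o : Place κ F} {Ω Ω' : Type} [Field Ω] [IsAlgClosed Ω] [CharZero Ω] [Algebra κ Ω]
  [Field Ω'] [IsAlgClosed Ω'] [CharZero Ω'] [Algebra κ Ω'] {ι ι' : Type} [Fintype ι] [Fintype ι']

theorem Prp.of_map {ι K K' : Type*} [Field K] [Field K'] {x y : ι → K} (τ : K →+* K')
    (h : Prp (fun i => τ (x i)) fun i => τ (y i)) : Prp x y := by
  obtain ⟨μ, h0, h⟩ := h
  by_cases hy : ∃ i, y i ≠ 0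
  · obtain ⟨i₀, hi⟩ := hy
    have h1 : τ (x i₀ / y i₀) = μ := by
      rw [map_div₀, div_eq_iff ((map_ne_zero τ).2 hi)]
      exact h i₀
    refine ⟨x i₀ / y i₀, fun h2 => h0 (by rw [← h1, h2, map_zero]), fun i => τ.injective ?_⟩
    rw [map_mul, h1]
    exact h i
  · refine ⟨1, one_ne_zero, fun i => τ.injective ?_⟩
    have h1 : y i = 0 := by_contra fun h2 => hy ⟨i, h2⟩
    have h2 : τ (x i) = μ * τ (y i) := h i
    rw [h2, h1, map_zero, mul_zero, mul_zero, map_zero]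

end Pool.Agent.E6b

end

section
open scoped NNReal TensorProduct IntermediateField BigOperators Classical Topology
open Filter

namespace Pool.Agent.E6b

theorem psd_cs {G : Type} [AddCommGroup G] (B : G →+ G →+ ℝ) (hs : ∀ a b, B a b = B b a)
    (hp : ∀ a, 0 ≤ B a a) (a b : G) : B a b ^ 2 ≤ B a a * B b b := by
  have h1 : ∀ r : ℚ, 0 ≤ B a a * ((r : ℝ) * r) + 2 * B a b * r + B b b := by
    intro r
    have h2 := hp (r.num • a + (r.den : ℤ) • b)
    simp only [map_add, map_zsmul, AddMonoidHom.add_apply, AddMonoidHom.zsmul_apply, zsmul_eq_mul,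
      hs b a, Int.cast_natCast] at h2
    have hd : (0 : ℝ) < r.den := by exact_mod_cast r.den_pos
    have e : (r.num : ℝ) = r * r.den := by exact_mod_cast (Rat.mul_den_eq_num r).symm
    rw [e] at h2
    refine le_of_mul_le_mul_left (a := (r.den : ℝ) * r.den) ?_ (by positivity)
    linarith
  have h2 : ∀ x : ℝ, 0 ≤ B a a * (x * x) + 2 * B a b * x + B b b := fun x =>
    Rat.denseRange_cast.induction_on x (isClosed_le continuous_const (by fun_prop)) h1
  have h3 := discrim_le_zero h2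
  unfold discrim at h3
  linarith

theorem NT_inv {G : Type} [AddCommGroup G] (B : G →+ G →+ ℝ) (hs : ∀ a b, B a b = B b a)
    (S : Finset G) : ∃ P : (S → ℝ) →ₗ[ℝ] (S → ℝ), ∀ a ∈ AddSubgroup.closure (S : Set G),
      ∀ b ∈ AddSubgroup.closure (S : Set G),
        B a b = (fun i : S => B i a) ⬝ᵥ P fun i : S => B i b := by
  set M : Matrix S S ℝ := Matrix.of fun i j => B i j with hM
  obtain ⟨σ, hσ⟩ := M.mulVecLin.rangeRestrict.exists_rightInverse_of_surjective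
    (LinearMap.range_rangeRestrict _)
  obtain ⟨P, hP⟩ := σ.exists_extend
  have h1 : ∀ x, M.mulVec (P (M.mulVec x)) = M.mulVec x := by
    intro x
    have e1 := LinearMap.congr_fun hP ⟨M.mulVec x, x, rfl⟩
    have e2 := congrArg Subtype.val (LinearMap.congr_fun hσ ⟨M.mulVec x, x, rfl⟩)
    simp only [LinearMap.comp_apply, Submodule.subtype_apply] at e1
    rw [e1]
    exact e2
  have h2 : ∀ k : S → ℤ, (fun i : S => B i (∑ j : S, k j • (j : G))) =
      M.mulVec fun j => (k j : ℝ) := by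
    intro k
    funext i
    simp [hM, Matrix.mulVec, dotProduct, mul_comm]
  refine ⟨P, fun a ha b hb => ?_⟩
  obtain ⟨k, rfl⟩ := AddSubgroup.mem_closure_iff_of_fintype.1 ha
  obtain ⟨l, rfl⟩ := AddSubgroup.mem_closure_iff_of_fintype.1 hb
  have hT : M.transpose = M := by
    ext i j
    exact hs _ _
  have h3 : ∀ x y : S → ℝ, M.mulVec x ⬝ᵥ y = x ⬝ᵥ M.mulVec y := by
    intro x y
    rw [Matrix.dotProduct_mulVec, ← Matrix.mulVec_transpose, hT]
  erw [h2, h2]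
  rw [h3, h1, ← h2]
  simp [dotProduct, Finset.mul_sum]
  exact Finset.sum_comm

/-- directions in a finitely generated group accumulate -/
theorem exists_close {G : Type} [AddCommGroup G] (B : G →+ G →+ ℝ) (hs : ∀ a b, B a b = B b a)
    (hp : ∀ a, 0 ≤ B a a) (Γ : AddSubgroup G) (hΓ : Γ.FG) (U : Ultrafilter ℕ) (a : ℕ → G)
    (ha : ∀ n, a n ∈ Γ) (H : ℕ → ℝ) (hH : ∀ n, 0 < H n) {c : ℝ}
    (hc : ∀ n, B (a n) (a n) ≤ c * H n) {ε : ℝ} (hε : 0 < ε) :
    ∃ T ∈ U, ∀ m ∈ T, ∀ n ∈ T,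
      B (a m) (a m) / H m - 2 * B (a m) (a n) / Real.sqrt (H m * H n) + B (a n) (a n) / H n ≤ ε := by
  obtain ⟨S, rfl⟩ := hΓ
  obtain ⟨P, hP⟩ := NT_inv B hs S
  set y : ℕ → S → ℝ := fun n => (Real.sqrt (H n))⁻¹ • fun i : S => B i (a n) with hy
  have hsq : ∀ n, 0 < Real.sqrt (H n) := fun n => Real.sqrt_pos.2 (hH n)
  have h1 : ∀ m n, y m ⬝ᵥ P (y n) = B (a m) (a n) / Real.sqrt (H m * H n) := by
    intro m n
    rw [hy, map_smul, smul_dotProduct, dotProduct_smul, ← hP _ (ha m) _ (ha n),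
      Real.sqrt_mul (hH m).le, smul_eq_mul, smul_eq_mul]
    field_simp
  have hK : IsCompact (Set.pi Set.univ fun i : S =>
      Set.Icc (-Real.sqrt (B i i * c)) (Real.sqrt (B i i * c))) :=
    isCompact_univ_pi fun i => isCompact_Icc
  obtain ⟨z, -, hz⟩ := hK.ultrafilter_le_nhds' (U.map y) (by
    rw [Ultrafilter.mem_map]
    refine univ_mem' fun n i _ => abs_le.1 (Real.abs_le_sqrt ?_)
    have e : y n i ^ 2 = B i (a n) ^ 2 / H n := by
      rw [hy]
      simp only [Pi.smul_apply, smul_eq_mul, mul_pow, inv_pow, Real.sq_sqrt (hH n).le]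
      ring
    rw [e, div_le_iff₀ (hH n), mul_assoc]
    exact (psd_cs B hs hp _ _).trans (mul_le_mul_of_nonneg_left (hc n) (hp _)))
  have hz' : Tendsto y U (𝓝 z) := hz
  have hPc : Continuous P := P.continuous_of_finiteDimensional
  have hψ : Continuous fun w : (S → ℝ) × (S → ℝ) =>
      w.1 ⬝ᵥ P w.1 - 2 * (w.1 ⬝ᵥ P w.2) + w.2 ⬝ᵥ P w.2 := by fun_prop
  have h2 := (hψ.tendsto (z, z)).comp ((hz'.prodMap hz').mono_right nhds_prod_eq.ge)
  have h3 := h2.eventually (gt_mem_nhds (a := ε) (by linarith))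
  obtain ⟨T, hT, hT'⟩ := eventually_prod_self_iff'.1 h3
  refine ⟨T, hT, fun m hm n hn => ?_⟩
  have h4 := hT' m hm n hn
  simp only [Function.comp, Prod.map, h1, Real.sqrt_mul_self (hH _).le] at h4
  rw [mul_div_assoc]
  exact h4.le

end Pool.Agent.E6b

end

section
open scoped NNReal TensorProduct IntermediateField BigOperators Classical Topology
open Filter

namespace Pool.Agent.E6b

section
variable {κ Ω : Type} [Field κ] [Field Ω] [Algebra κ Ω]

theorem C6_gen_comp {A T : Type} [Finite A] [Finite T] {a : A → Ω} (ha : a ≠ 0) {f : T → A}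
    (hf : Function.Surjective f) : VLe (gen κ a) (gen κ (a ∘ f)) := by
  have hne : a ∘ f ≠ 0 := by
    intro h0
    apply ha
    funext i
    obtain ⟨t, rfl⟩ := hf i
    exact congrFun h0 t
  refine gen_vle_of_mem ha fun i => ?_
  obtain ⟨t, rfl⟩ := hf i
  exact mem_TT_gen hne t

end

end Pool.Agent.E6b

end

section
open scoped NNReal TensorProduct IntermediateField BigOperators Classical Topology
open Filter

namespace Pool.Agent.E6b

/-- the final inequality -/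
theorem C8_real {t E S H₁ H₂ σ₁ σ₂ q₁ q₂ q Nm hu c m₁ m₂ ϑ C₀ C₁ k₁ k₂ r₁ r₂ : ℝ} (ht : 0 < t)
    (hE : 1 ≤ E) (hS : 1 ≤ S) (hH₁ : 1 ≤ H₁) (hH₂ : 1 ≤ H₂) (hσ₁ : 0 ≤ σ₁) (hσ₂ : 0 ≤ σ₂)
    (hq₁ : 0 ≤ q₁) (hq₂ : 0 ≤ q₂) (hc : 0 ≤ c) (hϑ : 0 < ϑ) (hC₀ : 0 ≤ C₀) (hC₁ : 0 ≤ C₁)
    (hk₁ : 0 ≤ k₁) (hk₂ : 0 ≤ k₂) (hr₁ : 0 ≤ r₁) (hr₂ : 0 ≤ r₂)
    (par : 2 * S * q₁ + 2 * q₂ - Nm - C₀ * (2 * S + 3) ≤ q)
    (main : t * E * q + t * S * hu ≤ t + (r₁ * (2 * (t * E) * S + c + c) + m₁ + k₁ * m₁ +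
        (r₂ * (2 * (t * E) + c + c) + m₂) + k₂ * m₂) + C₁ * t * (S * H₁ + H₂) +
      (2 * (t * E) * S + c) * q₁ + c * σ₁ + k₁ * m₁ * (k₁ * (H₁ + σ₁)) +
      (2 * (t * E) + c) * q₂ + c * σ₂ + k₂ * m₂ * (k₂ * (H₂ + σ₂)))
    (hct : c * (q₁ + q₂ + σ₁ + σ₂ + 1) ≤ t) (hm₁ : m₁ ≤ ϑ * (t * E * S)) (hm₂ : m₂ ≤ ϑ * (t * E)) :
    S * hu ≤ E * Nm + (3 * E * C₀ + 2 + C₁ + 4 * E * (r₁ + r₂) +
        E * (k₁ ^ 2 + k₂ ^ 2 + k₁ + k₂ + 1)) * (1 + ϑ) * (S * H₁ + H₂) +
      (3 * E * C₀ + 2 + C₁ + 4 * E * (r₁ + r₂) + E * (k₁ ^ 2 + k₂ ^ 2 + k₁ + k₂ + 1)) * ϑ *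
        (S * σ₁ + σ₂) := by
  obtain ⟨γ, rfl⟩ : ∃ γ, c = t * γ := ⟨c / t, by field_simp⟩
  obtain ⟨μ₁, rfl⟩ : ∃ μ, m₁ = t * μ := ⟨m₁ / t, by field_simp⟩
  obtain ⟨μ₂, rfl⟩ : ∃ μ, m₂ = t * μ := ⟨m₂ / t, by field_simp⟩
  have a0 : E * q + S * hu ≤ 1 + (r₁ * (2 * E * S + 2 * γ) + μ₁ + k₁ * μ₁ +
        (r₂ * (2 * E + 2 * γ) + μ₂) + k₂ * μ₂) + C₁ * (S * H₁ + H₂) +
      (2 * E * S + γ) * q₁ + γ * σ₁ + k₁ ^ 2 * (μ₁ * (H₁ + σ₁)) +
      (2 * E + γ) * q₂ + γ * σ₂ + k₂ ^ 2 * (μ₂ * (H₂ + σ₂)) :=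
    le_of_mul_le_mul_left (by linarith) ht
  have a1 : γ * (q₁ + q₂ + σ₁ + σ₂ + 1) ≤ 1 := le_of_mul_le_mul_left (by linarith) ht
  have a2 : μ₁ ≤ ϑ * (E * S) := le_of_mul_le_mul_left (by linarith) ht
  have a3 : μ₂ ≤ ϑ * E := le_of_mul_le_mul_left (by linarith) ht
  have a4 : 0 ≤ γ := le_of_mul_le_mul_left (by linarith) ht
  have hE0 : 0 ≤ E := by linarith
  have hS0 : 0 ≤ S := by linarith
  have a5 : γ ≤ 1 := by
    have := mul_nonneg a4 (show 0 ≤ q₁ + q₂ + σ₁ + σ₂ by linarith)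
    linarith
  obtain ⟨P, hP⟩ : ∃ P, P = S * H₁ + H₂ := ⟨_, rfl⟩
  obtain ⟨R, hR⟩ : ∃ R, R = S * σ₁ + σ₂ := ⟨_, rfl⟩
  have b0 : S ≤ S * H₁ := le_mul_of_one_le_right hS0 hH₁
  have b1 : S + 1 ≤ P := by linarith
  have b2 : 0 ≤ S * σ₁ := mul_nonneg hS0 hσ₁
  have hP0 : 0 ≤ P := by linarith
  have hR0 : 0 ≤ R := by linarith
  have b3 : P ≤ E * P := le_mul_of_one_le_left hP0 hE
  have b4 : E * S ≤ E * P := mul_le_mul_of_nonneg_left (by linarith) hE0
  have b5 : E * 1 ≤ E * P := mul_le_mul_of_nonneg_left (by linarith) hE0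
  have p0 := mul_le_mul_of_nonneg_left par hE0
  have p1 : E * C₀ * (2 * S + 3) ≤ E * C₀ * (3 * P) :=
    mul_le_mul_of_nonneg_left (by linarith) (mul_nonneg hE0 hC₀)
  have p4 : r₁ * (2 * E * S + 2 * γ) ≤ r₁ * (4 * (E * P)) :=
    mul_le_mul_of_nonneg_left (by linarith) hr₁
  have p4' : r₂ * (2 * E + 2 * γ) ≤ r₂ * (4 * (E * P)) :=
    mul_le_mul_of_nonneg_left (by linarith) hr₂
  have hϑE : 0 ≤ ϑ * E := mul_nonneg hϑ.le hE0
  have p5 : k₁ ^ 2 * (μ₁ * (H₁ + σ₁)) ≤ k₁ ^ 2 * (ϑ * E * (P + R)) := by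
    refine mul_le_mul_of_nonneg_left ?_ (sq_nonneg _)
    have h1 := mul_le_mul_of_nonneg_right a2 (show 0 ≤ H₁ + σ₁ by linarith)
    have h2 := mul_le_mul_of_nonneg_left (show S * (H₁ + σ₁) ≤ P + R by linarith) hϑE
    linarith
  have p6 : k₂ ^ 2 * (μ₂ * (H₂ + σ₂)) ≤ k₂ ^ 2 * (ϑ * E * (P + R)) := by
    refine mul_le_mul_of_nonneg_left ?_ (sq_nonneg _)
    have h1 := mul_le_mul_of_nonneg_right a3 (show 0 ≤ H₂ + σ₂ by linarith)
    have h2 := mul_le_mul_of_nonneg_left (show H₂ + σ₂ ≤ P + R by linarith) hϑE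
    linarith
  have p7 : ϑ * E * (S + 1) ≤ ϑ * E * P := mul_le_mul_of_nonneg_left b1 hϑE
  have p8 : 0 ≤ ϑ * E * S := mul_nonneg hϑE hS0
  have p9 : k₁ * μ₁ ≤ k₁ * (ϑ * E * P) := mul_le_mul_of_nonneg_left (by linarith) hk₁
  have p10 : k₂ * μ₂ ≤ k₂ * (ϑ * E * P) := mul_le_mul_of_nonneg_left (by linarith) hk₂
  have z1 : 0 ≤ E * (k₁ ^ 2 + k₂ ^ 2 + k₁ + k₂ + 1) * P := by positivity
  have z2 : 0 ≤ (3 * E * C₀ + 2 + C₁ + 4 * E * (r₁ + r₂)) * ϑ * (P + R) := by positivity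
  have z3 : 0 ≤ E * (k₁ + k₂ + 1) * ϑ * R := by positivity
  rw [← hP] at a0
  rw [← hP, ← hR]
  linarith

end Pool.Agent.E6b

end

section
open scoped NNReal TensorProduct IntermediateField BigOperators Classical Topology
open Filter

namespace Pool.Agent.E6b

theorem C9_small {a k : ℝ} (ha : 0 ≤ a) (hk : 0 < k) :
    ∃ δ : ℝ, 0 < δ ∧ ∀ ε, 0 ≤ ε → ε ≤ δ → a * ε ≤ k := by
  refine ⟨k / (a + 1), by positivity, fun ε h0 h => ?_⟩
  rw [le_div_iff₀ (by positivity)] at h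
  linarith

end Pool.Agent.E6b

end

section
open scoped NNReal TensorProduct IntermediateField BigOperators Classical Topology
open Filter

namespace Pool.Agent.E6b
variable {F : Type} [Field F] [Algebra Qb F] [IsFF Qb F] (A : GAct F)

theorem TV_field (o : Place Qb F) (K : IntermediateField ℚ Qb) [FiniteDimensional ℚ K] :
    ∃ K' : IntermediateField ℚ Qb, K ≤ K' ∧ FiniteDimensional ℚ K' ∧
      ∀ σ : Qb ≃ₐ[ℚ] Qb, (∀ x ∈ K', σ x = x) → ∀ i, A.act σ (eb o i) = eb o i := by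
  choose L hL h using A.opn
  have := fun i : Fin (MM o) => hL (eb o i)
  refine ⟨K ⊔ ⨆ i : Fin (MM o), L (eb o i), le_sup_left, inferInstance, fun σ hσ i => ?_⟩
  have h0 : ∀ i, i < MM o → A.act σ (eb o i) = eb o i := fun i hi =>
    h _ σ fun x hx => hσ x ((le_sup_right : _ ≤ K ⊔ ⨆ i : Fin (MM o), L (eb o i))
      (le_iSup (fun i : Fin (MM o) => L (eb o i)) ⟨i, hi⟩ hx))
  induction i using Nat.strong_induction_on with
  | _ i ih =>
    by_cases hi : i < MM o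
    · exact h0 i hi
    · unfold MM at hi h0
      obtain ⟨j, rfl⟩ : ∃ j, i = j + (2 * genus Qb F + 1) := ⟨i - (2 * genus Qb F + 1), by omega⟩
      rw [(ebSpec o).per j (by omega), Subalgebra.coe_mul, map_mul, ih j (by omega),
        h0 _ (by omega)]

end Pool.Agent.E6b

end
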