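import Pool.Agent.E6c.A16
import Pool.Agent.E6c.A18

section
open scoped NNReal TensorProduct IntermediateField BigOperators Classical Topology
open Filter

namespace Pool.Agent.E6b
variable {κ F : Type} [Field κ] [IsAlgClosed κ] [CharZero κ] [Field F] [Algebra κ F] [IsFF κ F]
  {o : Place κ F} {Ω : Type} [Field Ω] [IsAlgClosed Ω] [CharZero Ω] [Algebra κ Ω]

theorem eq_oo_iff {P : PO o Ω} : P = oo o Ω ↔ iF o Ω (wN o) ∉ P.O :=
  ⟨fun h => h ▸ O1_w_notMem, fun h => by_contra fun h' => h (O1_key h')⟩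

theorem jF_coe (a : AA o) : jF o Ω (a : F) = iF o Ω a := by
  rw [← O1_jF, O1_phi]

theorem exists_jF_hom : ∃ φ : F →ₐ[κ] FO o Ω, ∀ f, φ f = jF o Ω f := ⟨O1_j o Ω, O1_jF⟩

theorem oo_jF (f : F) : (oo o Ω).ord (jF o Ω f) = o.ord f ∧
    (oo o Ω).ev (jF o Ω f) = algebraMap κ Ω (o.ev f) := by
  have h : ∀ f : F, (oo o Ω).ord (O1_j o Ω f) = o.ord f := fun f => by
    obtain ⟨a, s, hs, rfl⟩ := IsFractionRing.div_surjective (AA o) f
    have hs' := nonZeroDivisors.ne_zero hs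
    by_cases ha : a = 0
    · simp [ha, Place.ord_zero]
    change (oo o Ω).ord (O1_j o Ω (a / s : F)) = o.ord (a / s : F)
    rw [map_div₀, O1_phi, O1_phi, Place.ord_div _ ((map_ne_zero_iff _ iF_injective).2 ha)
      ((map_ne_zero_iff _ iF_injective).2 hs'), o.ord_div (by simpa using ha) (by simpa using hs'),
      oo_ord_iF, oo_ord_iF]
  rw [← O1_jF]
  refine ⟨h f, ?_⟩
  by_cases hf : f ∈ o.O
  · refine Place.ev_eq _ ?_
    rw [← IsScalarTower.algebraMap_apply, ← (O1_j o Ω).commutes, ← map_sub, h]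
    exact (o.ev_spec hf).imp_left (congrArg _)
  · rw [O1_ev hf, O1_ev (by rwa [Place.mem_iff, h, ← Place.mem_iff]), map_zero]

end Pool.Agent.E6b

end

section
open scoped NNReal TensorProduct IntermediateField BigOperators Classical Topology
open Filter

namespace Pool.Agent.E6b
variable {κ F : Type} [Field κ] [IsAlgClosed κ] [CharZero κ] [Field F] [Algebra κ F] [IsFF κ F]
  {o : Place κ F} {Ω Ω' : Type} [Field Ω] [IsAlgClosed Ω] [CharZero Ω] [Algebra κ Ω]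
  [Field Ω'] [IsAlgClosed Ω'] [CharZero Ω'] [Algebra κ Ω']

namespace BC
variable (β : BC o Ω Ω')

theorem O2_ord (P : PO o Ω) (f : FO o Ω) :
    (β.plc P).ord (β.φ f) = P.ord f ∧ (β.plc P).ev (β.φ f) = β.τ (P.ev f) := by
  obtain ⟨g, -, -, h1, -⟩ := β.O2_exists_g
  have h : ∃ P' : PO o Ω', ∀ f, P'.ord (β.φ f) = P.ord f ∧ P'.ev (β.φ f) = β.τ (P.ev f) :=
    ⟨g P, fun f => ⟨h1 P f, β.O2_ev (h1 P) f⟩⟩
  rw [BC.plc, dif_pos h]
  exact h.choose_spec f

end BC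

end Pool.Agent.E6b

end

section
open scoped NNReal TensorProduct IntermediateField BigOperators Classical Topology
open Filter
set_option linter.unusedSectionVars false

namespace Pool.Agent.E6b
variable {κ F : Type} [Field κ] [IsAlgClosed κ] [CharZero κ] [Field F] [Algebra κ F] [IsFF κ F]
  {o : Place κ F} {Ω Ω' Ω'' : Type} [Field Ω] [IsAlgClosed Ω] [CharZero Ω] [Algebra κ Ω]
  [Field Ω'] [IsAlgClosed Ω'] [CharZero Ω'] [Algebra κ Ω']
  [Field Ω''] [IsAlgClosed Ω''] [CharZero Ω''] [Algebra κ Ω'']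

namespace BC
variable (β : BC o Ω Ω')

theorem ord_plc (P : PO o Ω) (f : FO o Ω) : (β.plc P).ord (β.φ f) = P.ord f :=
  (β.O2_ord P f).1

theorem plc_injective : Function.Injective β.plc := fun P Q h =>
  O2_place_eq fun f => by rw [← β.ord_plc, h, β.ord_plc]

theorem dv_apply (D : DO o Ω) (P : PO o Ω) : β.dv D (β.plc P) = D P :=
  Finsupp.mapDomain_apply β.plc_injective D P

end BC

end Pool.Agent.E6b

end

section
open scoped NNReal TensorProduct IntermediateField BigOperators Classical Topology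
open Filter

namespace Pool.Agent.E6b
variable {κ F : Type} [Field κ] [IsAlgClosed κ] [CharZero κ] [Field F] [Algebra κ F] [IsFF κ F]
  {o : Place κ F} {Ω : Type} [Field Ω] [IsAlgClosed Ω] [CharZero Ω] [Algebra κ Ω] (O : VS κ Ω)

theorem gv_algebraMap (c : Ω) : gv O o (algebraMap Ω (FO o Ω) c) = O.1.valuation c := by
  rw [IsScalarTower.algebraMap_apply Ω (AO o Ω), gv_AO, Algebra.algebraMap_eq_smul_one, L1_smul,
    (L1_one O).1, mul_one]

theorem gv_smul (c : Ω) (f : FO o Ω) : gv O o (c • f) = O.1.valuation c * gv O o f := by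
  rw [Algebra.smul_def, map_mul, gv_algebraMap]

theorem gv_iF_le (a : AA o) : gv O o (iF o Ω a) ≤ 1 :=
  (gv_AO O _).trans_le (L1_ir O (1 ⊗ₜ[κ] a)).1

theorem L1_gr_iF (a : AA o) : gr O (iF o Ω a) = iF o (RF O) a :=
  (gr_AO O (L1_ir O (1 ⊗ₜ[κ] a)).1).trans (congrArg _ (L1_ir O (1 ⊗ₜ[κ] a)).2)

theorem gv_iF {a : AA o} (ha : a ≠ 0) : gv O o (iF o Ω a) = 1 :=
  le_antisymm (gv_iF_le O a) (not_lt.1 fun h => ha (iF_injective (Ω := RF O) (by
    rw [← L1_gr_iF O a, (gr_eq_zero_iff O (gv_iF_le O a)).2 h, map_zero])))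

theorem L1_jF (Ω : Type) [Field Ω] [IsAlgClosed Ω] [CharZero Ω] [Algebra κ Ω] (a b : AA o) :
    jF o Ω (algebraMap _ F a / algebraMap _ F b) = iF o Ω a / iF o Ω b := by
  obtain ⟨φ, hφ⟩ := exists_jF_hom (o := o) (Ω := Ω)
  rw [← hφ, map_div₀, hφ, hφ, ← jF_coe, ← jF_coe]
  rfl

theorem gv_jF {f : F} (hf : f ≠ 0) : gv O o (jF o Ω f) = 1 := by
  obtain ⟨a, b, hb, rfl⟩ := IsFractionRing.div_surjective (AA o) f
  rw [L1_jF, map_div₀, gv_iF O (nonZeroDivisors.ne_zero hb), gv_iF O fun h => hf (by simp [h]),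
    div_one]

theorem gr_one : gr O (1 : FO o Ω) = 1 := by
  simpa [(L1_one O).2] using gr_AO (o := o) O (L1_one O).1.le

theorem gr_neg {f : FO o Ω} (hf : gv O o f ≤ 1) : gr O (-f) = - gr O f := by
  have := gr_add O hf ((Valuation.map_neg _ f).trans_le hf)
  rw [add_neg_cancel, gr_zero] at this
  exact eq_neg_of_add_eq_zero_right this.symm

theorem gr_sub {f g : FO o Ω} (hf : gv O o f ≤ 1) (hg : gv O o g ≤ 1) :
    gr O (f - g) = gr O f - gr O g := by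
  rw [sub_eq_add_neg, gr_add O hf ((Valuation.map_neg _ g).trans_le hg), gr_neg O hg,
    sub_eq_add_neg]

theorem gr_div {f g : FO o Ω} (hf : gv O o f ≤ 1) (hg : gv O o g = 1) :
    gr O (f / g) = gr O f / gr O g := by
  have h0 : g ≠ 0 := fun h => by simp [h] at hg
  rw [eq_div_iff fun h => ((gr_eq_zero_iff O hg.le).1 h).ne hg,
    ← gr_mul O (by rwa [map_div₀, hg, div_one]) hg.le, div_mul_cancel₀ _ h0]

theorem gr_pow {f : FO o Ω} (hf : gv O o f ≤ 1) (n : ℕ) : gr O (f ^ n) = gr O f ^ n := by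
  induction n with
  | zero => rw [pow_zero, pow_zero, gr_one]
  | succ n ih =>
    rw [pow_succ, pow_succ, gr_mul O (by rw [map_pow]; exact pow_le_one' hf n) hf, ih]

theorem gr_prod {ι : Type*} (s : Finset ι) {f : ι → FO o Ω} (hf : ∀ i ∈ s, gv O o (f i) ≤ 1) :
    gr O (∏ i ∈ s, f i) = ∏ i ∈ s, gr O (f i) := by
  induction s using Finset.induction_on with
  | empty => simpa using gr_one O
  | insert a s ha ih =>
    have h := fun i hi => hf i (Finset.mem_insert_of_mem hi)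
    rw [Finset.prod_insert ha, Finset.prod_insert ha, gr_mul O (hf a (Finset.mem_insert_self _ _))
      (by rw [map_prod]; exact Finset.prod_le_one' h), ih h]

theorem gr_algebraMap {c : Ω} (hc : c ∈ O.1) :
    gr O (algebraMap Ω (FO o Ω) c) = algebraMap (RF O) (FO o (RF O)) (rs O c) := by
  rw [V1_rs O hc]
  exact (gr_AO O (L1_ir O (⟨c, hc⟩ ⊗ₜ[κ] 1)).1).trans (congrArg _ (L1_ir O (⟨c, hc⟩ ⊗ₜ[κ] 1)).2)

theorem gr_iF (a : AA o) : gr O (iF o Ω a) = iF o (RF O) a := L1_gr_iF O a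

theorem gr_jF (f : F) : gr O (jF o Ω f) = jF o (RF O) f := by
  obtain ⟨a, b, hb, rfl⟩ := IsFractionRing.div_surjective (AA o) f
  rw [L1_jF, L1_jF, gr_div O (gv_iF_le O a) (gv_iF O (nonZeroDivisors.ne_zero hb)), gr_iF, gr_iF]

theorem exists_smul_gv_eq_one {f : FO o Ω} (hf : f ≠ 0) : ∃ c : Ω, c ≠ 0 ∧ gv O o (c • f) = 1 := by
  obtain ⟨c, hc⟩ := O.1.valuation_surjective (gv O o f)
  have h0 : gv O o f ≠ 0 := by simpa using hf
  exact ⟨c⁻¹, inv_ne_zero fun h => h0 (by rw [← hc, h, map_zero]),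
    by rw [gv_smul, map_inv₀, hc, inv_mul_cancel₀ h0]⟩

end Pool.Agent.E6b

end

section
open scoped NNReal TensorProduct IntermediateField BigOperators Classical Topology
open Filter

namespace Pool.Agent.E6b

section
variable {κ F : Type} [Field κ] [IsAlgClosed κ] [CharZero κ] [Field F] [Algebra κ F] [IsFF κ F]
  {o : Place κ F} {Ω : Type} [Field Ω] [IsAlgClosed Ω] [CharZero Ω] [Algebra κ Ω] (O : VS κ Ω)

/-- distance to a divisor -/
noncomputable def dsD (P : PO o Ω) (D : DO o Ω) : O.1.ValueGroup := D.prod fun Q n => ds O P Q ^ n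

/-- reduction of divisors -/
noncomputable def redD (o : Place κ F) : DO o Ω →+ DO o (RF O) :=
  Finsupp.mapDomain.addMonoidHom (red O)

end

end Pool.Agent.E6b

end

section
open scoped NNReal TensorProduct IntermediateField BigOperators Classical Topology
open Filter

namespace Pool.Agent.E6b

section General
variable {K L : Type} [Field K] [IsAlgClosed K] [CharZero K] [Field L] [Algebra K L] [IsFF K L]

theorem L2_ev_neg (P : Place K L) {f : L} (hf : f ∈ P.O) : P.ev (-f) = - P.ev f := by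
  have h := P.ev_sub P.O.zero_mem hf
  rwa [zero_sub, F1a_ev_zero, zero_sub] at h

theorem L2_ev_inv (P : Place K L) {g : L} (hg : g ∈ P.O) (h : P.ev g ≠ 0) :
    g⁻¹ ∈ P.O ∧ P.ev g⁻¹ = (P.ev g)⁻¹ := by
  have h1 := P.ev_div P.O.one_mem hg h
  rwa [L2_ev_one, one_div, one_div] at h1

/-- functions `f` of `R` with `f - f(P)` divisible by `T` in `R` -/
def L2_M (P : Place K L) (R : Subring L)
    (hR : ∀ f ∈ R, f ∈ P.O ∧ algebraMap K L (P.ev f) ∈ R) (T : L) : Subring L where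
  carrier := {f | f ∈ R ∧ ∃ f' ∈ R, f - algebraMap K L (P.ev f) = T * f'}
  mul_mem' := by
    rintro f g ⟨hf, f', hf', e⟩ ⟨hg, g', hg', e'⟩
    refine ⟨R.mul_mem hf hg, f' * g + algebraMap K L (P.ev f) * g',
      R.add_mem (R.mul_mem hf' hg) (R.mul_mem (hR f hf).2 hg'), ?_⟩
    rw [P.ev_mul (hR f hf).1 (hR g hg).1, map_mul]
    linear_combination g * e + algebraMap K L (P.ev f) * e'
  one_mem' := ⟨R.one_mem, 0, R.zero_mem, by rw [L2_ev_one, map_one, sub_self, mul_zero]⟩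
  add_mem' := by
    rintro f g ⟨hf, f', hf', e⟩ ⟨hg, g', hg', e'⟩
    refine ⟨R.add_mem hf hg, f' + g', R.add_mem hf' hg', ?_⟩
    rw [P.ev_add (hR f hf).1 (hR g hg).1, map_add]
    linear_combination e + e'
  zero_mem' := ⟨R.zero_mem, 0, R.zero_mem, by rw [F1a_ev_zero, map_zero, sub_self, mul_zero]⟩
  neg_mem' := by
    rintro f ⟨hf, f', hf', e⟩
    refine ⟨R.neg_mem hf, -f', R.neg_mem hf', ?_⟩
    rw [L2_ev_neg P (hR f hf).1, map_neg]
    linear_combination -e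

theorem L2_M_const {P : Place K L} {R : Subring L}
    {hR : ∀ f ∈ R, f ∈ P.O ∧ algebraMap K L (P.ev f) ∈ R} {T : L} {c : K}
    (hc : algebraMap K L c ∈ R) : algebraMap K L c ∈ L2_M P R hR T :=
  ⟨hc, 0, R.zero_mem, by rw [P.ev_algebraMap, sub_self, mul_zero]⟩

theorem L2_M_inv {P : Place K L} {R : Subring L}
    {hR : ∀ f ∈ R, f ∈ P.O ∧ algebraMap K L (P.ev f) ∈ R} {T g : L} (hg : g ∈ L2_M P R hR T)
    (h0 : P.ev g ≠ 0) (hi : g⁻¹ ∈ R) : g⁻¹ ∈ L2_M P R hR T := by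
  obtain ⟨hg, g', hg', e⟩ := hg
  have hg0 : g ≠ 0 := fun h => h0 (by rw [h, F1a_ev_zero])
  have hc : algebraMap K L (P.ev g) ≠ 0 := by simpa using h0
  refine ⟨hi, -(g' * g⁻¹ * algebraMap K L (P.ev g⁻¹)),
    R.neg_mem (R.mul_mem (R.mul_mem hg' hi) (hR _ hi).2), ?_⟩
  rw [(L2_ev_inv P (hR g hg).1 h0).2, map_inv₀]
  field_simp
  linear_combination -e
variable {κ A : Type} [Field κ] [Algebra κ K] [Algebra κ L] [IsScalarTower κ K L] [CommRing A]
  [Algebra κ A]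

/-- evaluation at a place -/
noncomputable def L2_evH (P : Place K L) (φ : A →ₐ[κ] L) (h : ∀ a, φ a ∈ P.O) : A →ₐ[κ] L where
  toFun a := algebraMap K L (P.ev (φ a))
  map_one' := by rw [map_one, L2_ev_one, map_one]
  map_mul' a b := by rw [map_mul, P.ev_mul (h a) (h b), map_mul]
  map_zero' := by rw [map_zero, F1a_ev_zero, map_zero]
  map_add' a b := by rw [map_add, P.ev_add (h a) (h b), map_add]
  commutes' c := by
    rw [AlgHom.commutes, IsScalarTower.algebraMap_apply κ K L, P.ev_algebraMap]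

theorem L2_theta (P : Place K L) (φ : A →ₐ[κ] L) {R : Subring L}
    (hR : ∀ f ∈ R, f ∈ P.O ∧ algebraMap K L (P.ev f) ∈ R) (h : ∀ a, φ a ∈ R) :
    ∃ Θ : A ⊗[κ] A →ₐ[κ] L, (∀ u, Θ u ∈ R ∧
      P.ev (Θ u) = P.ev (φ (Algebra.TensorProduct.lmul' κ u))) ∧
      ∀ a, Θ (dlt a) = φ a - algebraMap K L (P.ev (φ a)) := by
  have h' : ∀ a, φ a ∈ P.O := fun a => (hR _ (h a)).1
  refine ⟨Algebra.TensorProduct.lift φ (L2_evH P φ h') fun _ _ => Commute.all _ _, fun u => ?_,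
    fun a => ?_⟩
  · induction u using TensorProduct.induction_on with
    | zero => exact ⟨by rw [map_zero]; exact R.zero_mem, by rw [map_zero, map_zero, map_zero]⟩
    | tmul a b =>
      rw [Algebra.TensorProduct.lift_tmul, Algebra.TensorProduct.lmul'_apply_tmul, map_mul]
      refine ⟨R.mul_mem (h a) (hR _ (h b)).2, ?_⟩
      change P.ev (φ a * algebraMap K L (P.ev (φ b))) = _
      rw [P.ev_mul (h' a) (P.const _), P.ev_algebraMap, P.ev_mul (h' a) (h' b)]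
    | add u v hu hv =>
      rw [map_add, map_add, map_add]
      refine ⟨R.add_mem hu.1 hv.1, ?_⟩
      rw [P.ev_add (hR _ hu.1).1 (hR _ hv.1).1, P.ev_add (h' _) (h' _), hu.2, hv.2]
  · rw [dlt, map_sub, Algebra.TensorProduct.lift_tmul, Algebra.TensorProduct.lift_tmul, map_one,
      map_one, mul_one, one_mul]
    rfl

theorem L2_M_phi (P : Place K L) (φ : A →ₐ[κ] L) {R : Subring L}
    (hR : ∀ f ∈ R, f ∈ P.O ∧ algebraMap K L (P.ev f) ∈ R) (h : ∀ a, φ a ∈ R) {τ a : A}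
    {u w : A ⊗[κ] A} (e : u * dlt a = w * dlt τ)
    (h0 : P.ev (φ (Algebra.TensorProduct.lmul' κ u)) ≠ 0)
    (hi : ∀ g ∈ R, P.ev g = P.ev (φ (Algebra.TensorProduct.lmul' κ u)) → g⁻¹ ∈ R) :
    φ a ∈ L2_M P R hR (φ τ - algebraMap K L (P.ev (φ τ))) := by
  obtain ⟨Θ, h1, h2⟩ := L2_theta P φ hR h
  have e' := congrArg Θ e
  rw [map_mul, map_mul, h2, h2] at e'
  have hu0 : Θ u ≠ 0 := fun hh => h0 (by rw [← (h1 u).2, hh, F1a_ev_zero])
  refine ⟨h a, Θ w * (Θ u)⁻¹, R.mul_mem (h1 w).1 (hi _ (h1 u).1 (h1 u).2), ?_⟩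
  field_simp
  linear_combination e'

theorem L2_ord_of_M (P : Place K L) {t : L} (ht : t ∈ P.O)
    (h : ∀ f ∈ P.O, ∃ f' ∈ P.O,
      f - algebraMap K L (P.ev f) = (t - algebraMap K L (P.ev t)) * f') :
    P.ord (t - algebraMap K L (P.ev t)) = 1 := by
  obtain ⟨π, hπ0, hπ⟩ := P.exists_ord_eq 1
  have hm : π ∈ P.O := P.mem_iff.2 (by omega)
  obtain ⟨f', hf', e⟩ := h π hm
  rw [(P.ev_eq_zero_iff hm).2 (Or.inr (by omega)), map_zero, sub_zero] at e
  have h1 : t - algebraMap K L (P.ev t) ≠ 0 := fun hh => hπ0 (by rw [e, hh, zero_mul])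
  have h2 : f' ≠ 0 := fun hh => hπ0 (by rw [e, hh, mul_zero])
  have h3 := P.ord_mul h1 h2
  have h4 := P.mem_iff.1 hf'
  have h5 := (P.ev_spec ht).resolve_left fun hh => h1 (sub_eq_zero.2 hh)
  rw [← e] at h3
  omega

end General
variable {κ F : Type} [Field κ] [IsAlgClosed κ] [CharZero κ] [Field F] [Algebra κ F] [IsFF κ F]
  {o : Place κ F} {Ω : Type} [Field Ω] [IsAlgClosed Ω] [CharZero Ω] [Algebra κ Ω]
  {A : Type} [CommRing A] [Algebra κ A]

theorem L2_ord (y : Pt o Ω) (φ : A →ₐ[κ] FO o Ω) (τ : A) (h1 : ∀ a, φ a ∈ (plc y).O)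
    (h2 : ∀ a, ∃ u w : A ⊗[κ] A, (plc y).ev (φ (Algebra.TensorProduct.lmul' κ u)) ≠ 0 ∧
      u * dlt a = w * dlt τ)
    (h3 : ∀ a : AA o, ∃ b c : A, (plc y).ev (φ c) ≠ 0 ∧ iF o Ω a = φ b * (φ c)⁻¹) :
    (plc y).ord (φ τ - algebraMap Ω (FO o Ω) ((plc y).ev (φ τ))) = 1 := by
  have hR : ∀ f ∈ (plc y).O.toSubring, f ∈ (plc y).O ∧
      algebraMap Ω (FO o Ω) ((plc y).ev f) ∈ (plc y).O.toSubring := fun f hf =>
    ⟨hf, (plc y).const _⟩
  let M := L2_M (plc y) _ hR (φ τ - algebraMap Ω (FO o Ω) ((plc y).ev (φ τ)))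
  have m0 : ∀ g ∈ M, (plc y).ev g ≠ 0 → g⁻¹ ∈ M := fun g hg h0 =>
    L2_M_inv hg h0 (L2_ev_inv _ hg.1 h0).1
  have m1 : ∀ a, φ a ∈ M := fun a => by
    obtain ⟨u, w, h0, e⟩ := h2 a
    exact L2_M_phi (plc y) φ hR h1 e h0 fun g hg hg' => (L2_ev_inv _ hg (hg' ▸ h0)).1
  have m2 : ∀ a : AO o Ω, algebraMap _ (FO o Ω) a ∈ M := fun a => by
    induction a using TensorProduct.induction_on with
    | zero => rw [map_zero]; exact M.zero_mem
    | tmul c a =>
      obtain ⟨b, c', h0, e⟩ := h3 a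
      rw [algebraMap_tmul, e]
      exact M.mul_mem (L2_M_const ((plc y).const c)) (M.mul_mem (m1 b) (m0 _ (m1 c') h0))
    | add a b ha hb => rw [map_add]; exact M.add_mem ha hb
  refine L2_ord_of_M _ (h1 τ) fun f hf => ?_
  obtain ⟨a, s, hs, e⟩ := exists_div_plc y hf
  rw [← (plc_spec y s).2] at hs
  have hs0 : algebraMap _ (FO o Ω) s ≠ 0 := fun hh => hs (by rw [hh, F1a_ev_zero])
  have hM : f ∈ M := by
    rw [(eq_mul_inv_iff_mul_eq₀ hs0).2 e]
    exact M.mul_mem (m2 a) (m0 _ (m2 s) hs)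
  exact hM.2
variable (O : VS κ Ω)

/-- functions with good reduction at `p` -/
def L2_S (p : PO o (RF O)) : Subring (FO o Ω) where
  carrier := {f | (gv O o f ≤ 1 ∧ gr O f ∈ p.O) ∧
    ∀ P, red O P = p → f ∈ P.O ∧ P.ev f ∈ O.1 ∧ rs O (P.ev f) = p.ev (gr O f)}
  mul_mem' := by
    rintro f g ⟨⟨f1, f2⟩, f3⟩ ⟨⟨g1, g2⟩, g3⟩
    rw [Set.mem_ofPred_eq, gr_mul O f1 g1, map_mul]
    refine ⟨⟨mul_le_one' f1 g1, p.O.mul_mem _ _ f2 g2⟩, fun P hP => ?_⟩
    obtain ⟨a1, a2, a3⟩ := f3 P hP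
    obtain ⟨b1, b2, b3⟩ := g3 P hP
    rw [P.ev_mul a1 b1, rs_mul O a2 b2, p.ev_mul f2 g2, a3, b3]
    exact ⟨P.O.mul_mem _ _ a1 b1, O.1.mul_mem _ _ a2 b2, rfl⟩
  one_mem' := by
    rw [Set.mem_ofPred_eq, gr_one, map_one]
    refine ⟨⟨le_rfl, p.O.one_mem⟩, fun P _ => ?_⟩
    rw [L2_ev_one, L2_ev_one, L2_rs_one]
    exact ⟨P.O.one_mem, O.1.one_mem, rfl⟩
  add_mem' := by
    rintro f g ⟨⟨f1, f2⟩, f3⟩ ⟨⟨g1, g2⟩, g3⟩
    rw [Set.mem_ofPred_eq, gr_add O f1 g1]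
    refine ⟨⟨(gv O o).map_add_le f1 g1, p.O.add_mem _ _ f2 g2⟩, fun P hP => ?_⟩
    obtain ⟨a1, a2, a3⟩ := f3 P hP
    obtain ⟨b1, b2, b3⟩ := g3 P hP
    rw [P.ev_add a1 b1, rs_add O a2 b2, p.ev_add f2 g2, a3, b3]
    exact ⟨P.O.add_mem _ _ a1 b1, O.1.add_mem _ _ a2 b2, rfl⟩
  zero_mem' := by
    rw [Set.mem_ofPred_eq, gr_zero, map_zero]
    refine ⟨⟨zero_le_one, p.O.zero_mem⟩, fun P _ => ?_⟩
    rw [F1a_ev_zero, F1a_ev_zero, L2_rs_zero]
    exact ⟨P.O.zero_mem, O.1.zero_mem, rfl⟩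
  neg_mem' := by
    rintro f ⟨⟨f1, f2⟩, f3⟩
    rw [Set.mem_ofPred_eq, gr_neg O f1, Valuation.map_neg]
    refine ⟨⟨f1, p.O.neg_mem _ f2⟩, fun P hP => ?_⟩
    obtain ⟨a1, a2, a3⟩ := f3 P hP
    rw [L2_ev_neg P a1, L2_rs_neg O a2, L2_ev_neg p f2, a3]
    exact ⟨P.O.neg_mem _ a1, O.1.neg_mem _ a2, rfl⟩

theorem L2_S_const (p : PO o (RF O)) {c : Ω} (hc : c ∈ O.1) :
    algebraMap Ω (FO o Ω) c ∈ L2_S O p := by
  refine ⟨⟨?_, ?_⟩, fun P _ => ?_⟩
  · rw [gv_algebraMap]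
    exact (O.1.valuation_le_one_iff _).2 hc
  · rw [gr_algebraMap O hc]
    exact p.const _
  · rw [gr_algebraMap O hc, P.ev_algebraMap, p.ev_algebraMap]
    exact ⟨P.const _, hc, rfl⟩

theorem L2_S_inv (p : PO o (RF O)) {g : FO o Ω} (hg : g ∈ L2_S O p) (h0 : p.ev (gr O g) ≠ 0) :
    g⁻¹ ∈ L2_S O p := by
  obtain ⟨⟨g1, g2⟩, g3⟩ := hg
  have h1 : gv O o g = 1 := le_antisymm g1 (not_lt.1 fun hh => h0 (by
    rw [(gr_eq_zero_iff O g1).2 hh, F1a_ev_zero]))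
  have h2 : gr O g⁻¹ = (gr O g)⁻¹ := by
    have h := gr_div O (f := 1) (by rw [map_one]) h1
    rwa [gr_one, one_div, one_div] at h
  obtain ⟨h3, h4⟩ := L2_ev_inv p g2 h0
  refine ⟨⟨by rw [map_inv₀, h1, inv_one], by rw [h2]; exact h3⟩, fun P hP => ?_⟩
  obtain ⟨a1, a2, a3⟩ := g3 P hP
  obtain ⟨b1, b2, b3⟩ := L2_rs_inv O a2 (by rw [a3]; exact h0)
  obtain ⟨c1, c2⟩ := L2_ev_inv P a1 b1
  rw [c2, b3, h2, h4, a3]
  exact ⟨c1, b2, rfl⟩

theorem L2_chart (p : PO o (RF O)) (φ : A →ₐ[κ] FO o Ω) (τ : A) (h1 : ∀ a, φ a ∈ L2_S O p)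
    (h2 : ∀ a, ∃ u w : A ⊗[κ] A, p.ev (gr O (φ (Algebra.TensorProduct.lmul' κ u))) ≠ 0 ∧
      u * dlt a = w * dlt τ) :
    ∃ R : Subring (FO o Ω), (∀ c ∈ O.1, algebraMap Ω (FO o Ω) c ∈ R) ∧ (∀ a, φ a ∈ R) ∧
      R ≤ L2_S O p ∧ ∀ P, red O P = p → ∀ f ∈ R, ∃ f' ∈ R,
        f - algebraMap Ω (FO o Ω) (P.ev f) = (φ τ - algebraMap Ω (FO o Ω) (P.ev (φ τ))) * f' := by
  let C : Set (Subring (FO o Ω)) := {R | (∀ c ∈ O.1, algebraMap Ω (FO o Ω) c ∈ R) ∧
    (∀ a, φ a ∈ R) ∧ ∀ g ∈ R, p.ev (gr O g) ≠ 0 → g⁻¹ ∈ R}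
  have r1 : ∀ c ∈ O.1, algebraMap Ω (FO o Ω) c ∈ sInf C := fun c hc =>
    Subring.mem_sInf.2 fun R hR => hR.1 c hc
  have r2 : ∀ a, φ a ∈ sInf C := fun a => Subring.mem_sInf.2 fun R hR => hR.2.1 a
  have r3 : ∀ g ∈ sInf C, p.ev (gr O g) ≠ 0 → g⁻¹ ∈ sInf C := fun g hg h0 =>
    Subring.mem_sInf.2 fun R hR => hR.2.2 g (Subring.mem_sInf.1 hg R hR) h0
  have r4 : sInf C ≤ L2_S O p :=
    sInf_le ⟨fun c hc => L2_S_const O p hc, h1, fun g hg h0 => L2_S_inv O p hg h0⟩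
  refine ⟨sInf C, r1, r2, r4, fun P hP f hf => ?_⟩
  have hR : ∀ f ∈ sInf C, f ∈ P.O ∧ algebraMap Ω (FO o Ω) (P.ev f) ∈ sInf C := fun f hf =>
    ⟨((r4 hf).2 P hP).1, r1 _ ((r4 hf).2 P hP).2.1⟩
  have hne : ∀ g ∈ sInf C, p.ev (gr O g) ≠ 0 → P.ev g ≠ 0 := fun g hg h0 hh =>
    h0 (by rw [← ((r4 hg).2 P hP).2.2, hh, L2_rs_zero])
  have r5 : sInf C ≤ L2_M P _ hR (φ τ - algebraMap Ω (FO o Ω) (P.ev (φ τ))) := by
    refine sInf_le ⟨fun c hc => L2_M_const (r1 c hc), fun a => ?_,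
      fun g hg h0 => L2_M_inv hg (hne g hg.1 h0) (r3 g hg.1 h0)⟩
    obtain ⟨u, w, h0, e⟩ := h2 a
    refine L2_M_phi P φ hR r2 e (hne _ (r2 _) h0) fun g hg hg' => r3 g hg ?_
    rw [← ((r4 hg).2 P hP).2.2, hg', ((r4 (r2 _)).2 P hP).2.2]
    exact h0
  exact (r5 hf).2

end Pool.Agent.E6b

end

section
open scoped NNReal TensorProduct IntermediateField BigOperators Classical Topology
open Filter

namespace Pool.Agent.E6b
variable {κ F : Type} [Field κ] [IsAlgClosed κ] [CharZero κ] [Field F] [Algebra κ F] [IsFF κ F]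
  {o : Place κ F} {Ω : Type} [Field Ω] [IsAlgClosed Ω] [CharZero Ω] [Algebra κ Ω] (O : VS κ Ω)

theorem red_oo : red O (oo o Ω) = oo o (RF O) := by
  rw [red, dif_neg]
  rintro ⟨y, -, hy⟩
  exact plc_ne_oo y hy

theorem red_plc {y : Pt o Ω} (h : Intg O y) : red O (plc y) = plc (redp O y h) := by
  have h' : ∃ y', Intg O y' ∧ plc y' = plc y := ⟨y, h, rfl⟩
  have key : ∀ (y' : Pt o Ω) (h1 : Intg O y'), y' = y → redp O y' h1 = redp O y h := by
    rintro _ _ rfl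
    rfl
  rw [red, dif_pos h', key _ _ (plc_injective h'.choose_spec.2)]

theorem red_plc_of_not {y : Pt o Ω} (h : ¬ Intg O y) : red O (plc y) = oo o (RF O) := by
  rw [red, dif_neg]
  rintro ⟨y', h1, hy⟩
  exact h (plc_injective hy ▸ h1)

/-- a generic point extends to the function field -/
theorem L2_gen {y : Pt o Ω} (hy : Function.Injective y) : ∃ z : F →ₐ[κ] Ω,
    (∀ a : AA o, z a = y a) ∧ ∀ f, jF o Ω f ∈ (plc y).O ∧ (plc y).ev (jF o Ω f) = z f := by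
  let z : F →ₐ[κ] Ω := IsFractionRing.liftAlgHom (g := y) hy
  have hz : ∀ a : AA o, z a = y a := fun a => IsFractionRing.lift_algebraMap (g := y.toRingHom) hy a
  obtain ⟨φ, hφ⟩ := exists_jF_hom (o := o) (Ω := Ω)
  refine ⟨z, hz, fun f => ?_⟩
  obtain ⟨a, s, hs, rfl⟩ := IsFractionRing.div_surjective (AA o) f
  have hs0 : y s ≠ 0 := fun hh =>
    nonZeroDivisors.ne_zero hs (hy (by rw [hh, map_zero]))
  have e : jF o Ω ((a : F) / (s : F)) = iF o Ω a / iF o Ω s := by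
    rw [← hφ, map_div₀, hφ, hφ, jF_coe, jF_coe]
  have h := (plc y).ev_div (plc_iF y a).1 (plc_iF y s).1 (by rw [(plc_iF y s).2]; exact hs0)
  change jF o Ω ((a : F) / (s : F)) ∈ _ ∧ (plc y).ev (jF o Ω ((a : F) / (s : F))) =
    z ((a : F) / (s : F))
  rw [e, map_div₀, hz, hz, h.2, (plc_iF y a).2, (plc_iF y s).2]
  exact ⟨h.1, rfl⟩

theorem L2_not_intg {y : Pt o Ω} (h : ¬ Intg O y) : ∃ z : F →ₐ[κ] Ω,
    (∀ f, jF o Ω f ∈ (plc y).O ∧ (plc y).ev (jF o Ω f) = z f) ∧ ∀ f, f ∈ o.O ↔ z f ∈ O.1 := by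
  have hy : Function.Injective y := (pt_const_or_inj o y).resolve_left fun ⟨p, hp⟩ =>
    h fun a => by rw [hp]; exact O.2 _
  obtain ⟨z, h1, h2⟩ := L2_gen hy
  obtain ⟨a, ha⟩ := not_forall.1 h
  rw [← h1] at ha
  let Q : Place κ F := ⟨O.1.comap z.toRingHom, fun c => by
    change z _ ∈ O.1
    rw [AlgHom.commutes]
    exact O.2 c, fun hh => ha (by
      have : (a : F) ∈ O.1.comap z.toRingHom := by rw [hh]; trivial
      exact this)⟩
  have hQ : Q = o := by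
    by_contra hne
    exact ha (a.2 Q hne)
  exact ⟨z, h2, fun f => by rw [← hQ]; rfl⟩

theorem L2_red_oo {P : PO o Ω} (hP : red O P = oo o (RF O)) :
    P = oo o Ω ∨ ∃ y, plc y = P ∧ ¬ Intg O y := by
  rcases eq_oo_or_plc P with h | ⟨y, rfl⟩
  · exact Or.inl h
  · exact Or.inr ⟨y, rfl, fun h => plc_ne_oo _ ((red_plc O h).symm.trans hP)⟩

theorem L2_red_fin {P : PO o Ω} {yb : Pt o (RF O)} (hP : red O P = plc yb) :
    ∃ (y : Pt o Ω) (h : Intg O y), plc y = P ∧ redp O y h = yb := by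
  rcases eq_oo_or_plc P with rfl | ⟨y, rfl⟩
  · exact absurd ((red_oo O).symm.trans hP).symm (plc_ne_oo yb)
  · by_cases h : Intg O y
    · exact ⟨y, h, rfl, plc_injective ((red_plc O h).symm.trans hP)⟩
    · exact absurd ((red_plc_of_not O h).symm.trans hP).symm (plc_ne_oo yb)

/-- functions regular at `o` at a place reducing to infinity -/
theorem ev_jF_of_red_oo {P : PO o Ω} (hP : red O P = oo o (RF O)) {f : F} (hf : f ∈ o.O) :
    jF o Ω f ∈ P.O ∧ P.ev (jF o Ω f) ∈ O.1 ∧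
      rs O (P.ev (jF o Ω f)) = algebraMap κ (RF O) (o.ev f) := by
  rcases L2_red_oo O hP with rfl | ⟨y, rfl, hy⟩
  · rw [(oo_jF f).2, rs_algebraMap, Place.mem_iff, (oo_jF f).1]
    exact ⟨o.mem_iff.1 hf, O.2 _, rfl⟩
  · obtain ⟨z, h1, h2⟩ := L2_not_intg O hy
    rw [(h1 f).2]
    refine ⟨(h1 f).1, (h2 f).1 hf, ?_⟩
    have h3 : f - algebraMap κ F (o.ev f) ∈ o.O := o.O.toSubring.sub_mem hf (o.const _)
    have h4 : rs O (z (f - algebraMap κ F (o.ev f))) = 0 := by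
      by_contra h0
      obtain ⟨a1, a2, -⟩ := L2_rs_inv O ((h2 _).1 h3) h0
      rw [← map_inv₀, ← h2, o.mem_iff, o.ord_inv] at a2
      rcases o.ev_spec hf with h | h
      · exact a1 (by rw [sub_eq_zero.2 h, map_zero])
      · omega
    have h5 := rs_add O ((h2 _).1 h3) (O.2 (o.ev f))
    rwa [h4, zero_add, rs_algebraMap, map_sub, AlgHom.commutes, sub_add_cancel] at h5

theorem L2_div_one (y : Pt o Ω) (a : AA o) :
    ∃ b c : AA o, (plc y).ev (iF o Ω c) ≠ 0 ∧ iF o Ω a = iF o Ω b * (iF o Ω c)⁻¹ :=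
  ⟨a, 1, by rw [map_one, L2_ev_one]; exact one_ne_zero, by rw [map_one, inv_one, mul_one]⟩

theorem exists_chart_fin (y : Pt o (RF O)) : Nonempty (Chart O (plc y)) := by
  obtain ⟨n, τ, v, u, hv, hu⟩ := exists_smooth o
  obtain ⟨i, hi⟩ : ∃ i, y (Algebra.TensorProduct.lmul' κ (u i)) ≠ 0 := by
    by_contra hn
    have h := congrArg y hv
    rw [map_sum, map_one, Finset.sum_eq_zero fun i _ => by
      rw [map_mul, not_not.1 (not_exists.1 hn i), mul_zero]] at h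
    exact zero_ne_one h
  have h1 : ∀ a, iF o Ω a ∈ L2_S O (plc y) := fun a => by
    refine ⟨⟨gv_iF_le O a, by rw [gr_iF]; exact (plc_iF y a).1⟩, fun P hP => ?_⟩
    obtain ⟨y', h', rfl, rfl⟩ := L2_red_fin O hP
    rw [gr_iF, (plc_iF _ a).2, (plc_iF _ a).2]
    exact ⟨(plc_iF _ a).1, h' a, rfl⟩
  obtain ⟨R, r1, r2, r3, r4⟩ := L2_chart O (plc y) (iF o Ω) (τ i) h1 fun a => by
    obtain ⟨w, hw⟩ := hu i a
    exact ⟨u i, w, by rw [gr_iF, (plc_iF y _).2]; exact hi, hw⟩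
  refine ⟨{ R := R
            t := iF o Ω (τ i)
            t_mem := r2 _
            const := r1
            fin := fun _ => r2
            inf := fun h => absurd h (plc_ne_oo y)
            gv_le := fun f hf => (r3 hf).1
            ev := fun P hP f hf => (r3 hf).2 P hP
            div := fun P hP f hf h0 => ?_
            ord := fun P hP => ?_
            ord_red := ?_
            ds_eq := fun P Q hP hQ => ?_ }⟩
  · obtain ⟨f', hf', e⟩ := r4 P hP f hf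
    exact ⟨f', hf', by rwa [h0, map_zero, sub_zero] at e⟩
  · obtain ⟨y', h', rfl, rfl⟩ := L2_red_fin O hP
    refine L2_ord y' (iF o Ω) (τ i) (fun a => (plc_iF y' a).1) (fun a => ?_) (L2_div_one y')
    obtain ⟨w, hw⟩ := hu i a
    refine ⟨u i, w, ?_, hw⟩
    rw [(plc_iF y' _).2]
    exact fun hh => hi (by rw [redp_apply, hh, L2_rs_zero])
  · rw [gr_iF]
    refine L2_ord y (iF o (RF O)) (τ i) (fun a => (plc_iF y a).1) (fun a => ?_) (L2_div_one y)
    obtain ⟨w, hw⟩ := hu i a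
    exact ⟨u i, w, by rw [(plc_iF y _).2]; exact hi, hw⟩
  · rw [ds, if_neg (not_not.2 (hP.trans hQ.symm)), if_neg (by rw [hP]; exact plc_ne_oo y)]
    apply le_antisymm
    · refine vs_le _ fun k => ?_
      obtain ⟨f', hf', e⟩ := r4 Q hQ _ (r2 (eb o k))
      obtain ⟨a1, a2, -⟩ := (r3 hf').2 P hP
      have a3 := fun a => ((h1 a).2 P hP).1
      have e' := congrArg P.ev e
      rw [P.ev_sub (a3 _) (P.const _), P.ev_mul (P.O.toSubring.sub_mem (a3 _) (P.const _)) a1,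
        P.ev_sub (a3 _) (P.const _), P.ev_algebraMap, P.ev_algebraMap] at e'
      rw [e', map_mul]
      exact mul_le_of_le_one_right' ((O.1.valuation_le_one_iff _).2 a2)
    · obtain ⟨y1, h1', rfl, -⟩ := L2_red_fin O hP
      obtain ⟨y2, h2', rfl, -⟩ := L2_red_fin O hQ
      simp only [fun a => (plc_iF y1 a).2, fun a => (plc_iF y2 a).2]
      exact L2_val_sub O h1' h2' _

theorem exists_chart_inf : Nonempty (Chart O (oo o (RF O))) := by
  obtain ⟨φ0, hφ0⟩ := exists_jF_hom (o := o) (Ω := Ω)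
  let φ : o.OA →ₐ[κ] FO o Ω := φ0.comp o.OA.val
  have hφ : ∀ a : o.OA, φ a = jF o Ω a := fun a => hφ0 a
  have hz : zo o ∈ o.O := o.mem_iff.2 (by rw [ord_zo]; exact zero_le_one)
  have hz0 : o.ev (zo o) = 0 := (o.ev_eq_zero_iff hz).2 (Or.inr (by rw [ord_zo]; exact one_pos))
  let z : o.OA := ⟨zo o, hz⟩
  have h1 : ∀ a, φ a ∈ L2_S O (oo o (RF O)) := fun a => by
    rw [hφ]
    refine ⟨⟨?_, ?_⟩, fun P hP => ?_⟩
    · by_cases ha : (a : F) = 0
      · rw [ha, ← hφ0, map_zero, map_zero]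
        exact zero_le_one
      · exact (gv_jF O ha).le
    · rw [gr_jF, Place.mem_iff, (oo_jF _).1]
      exact o.mem_iff.1 a.2
    · rw [gr_jF, (oo_jF _).2]
      exact ev_jF_of_red_oo O hP a.2
  have h2 : ∀ a, ∃ u w : o.OA ⊗[κ] o.OA,
      algebraMap κ (RF O) (o.ev (Algebra.TensorProduct.lmul' κ u : o.OA)) ≠ 0 ∧
      u * dlt a = w * dlt z := fun a => by
    obtain ⟨u, w, h0, e⟩ := exists_smooth_inf o z (ord_zo o) a
    exact ⟨u, w, (map_ne_zero _).2 h0, e⟩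
  obtain ⟨R, r1, r2, r3, r4⟩ := L2_chart O (oo o (RF O)) φ z h1 fun a => by
    obtain ⟨u, w, h0, e⟩ := h2 a
    exact ⟨u, w, by rw [hφ, gr_jF, (oo_jF _).2]; exact h0, e⟩
  refine ⟨{ R := R
            t := φ z
            t_mem := r2 _
            const := r1
            fin := fun h => absurd rfl h
            inf := fun _ => ⟨hφ z, fun f hf => hφ ⟨f, hf⟩ ▸ r2 ⟨f, hf⟩⟩
            gv_le := fun f hf => (r3 hf).1
            ev := fun P hP f hf => (r3 hf).2 P hP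
            div := fun P hP f hf h0 => ?_
            ord := fun P hP => ?_
            ord_red := ?_
            ds_eq := fun P Q hP hQ => ?_ }⟩
  · obtain ⟨f', hf', e⟩ := r4 P hP f hf
    exact ⟨f', hf', by rwa [h0, map_zero, sub_zero] at e⟩
  · rcases L2_red_oo O hP with rfl | ⟨y, rfl, hy⟩
    · rw [hφ, (oo_jF _).2, hz0, map_zero, map_zero, sub_zero, (oo_jF _).1, ord_zo]
    · obtain ⟨x, x1, -⟩ := L2_not_intg O hy
      refine L2_ord y φ z (fun a => ((h1 a).2 _ hP).1) (fun a => ?_) fun a => ?_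
      · obtain ⟨u, w, h0, e⟩ := h2 a
        refine ⟨u, w, fun hh => h0 ?_, e⟩
        rw [← (ev_jF_of_red_oo O hP (Algebra.TensorProduct.lmul' κ u).2).2.2, ← hφ, hh, L2_rs_zero]
      · rw [← jF_coe, ← hφ0]
        by_cases ha : (a : F) ∈ o.O
        · exact ⟨⟨a, ha⟩, 1, by rw [map_one, L2_ev_one]; exact one_ne_zero, by
            rw [map_one, inv_one, mul_one]; rfl⟩
        · have ha0 : (a : F) ≠ 0 := fun hh => ha (hh ▸ o.O.zero_mem)
          refine ⟨1, ⟨(a : F)⁻¹, (o.O.mem_or_inv_mem _).resolve_left ha⟩, ?_, ?_⟩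
          · rw [hφ, (x1 _).2]
            exact (map_ne_zero _).2 (inv_ne_zero ha0)
          · rw [map_one, one_mul]
            change φ0 a = (φ0 (a : F)⁻¹)⁻¹
            rw [map_inv₀, inv_inv]
  · rw [hφ, gr_jF, (oo_jF _).2, hz0, map_zero, map_zero, sub_zero, (oo_jF _).1, ord_zo]
  · rw [ds, if_neg (not_not.2 (hP.trans hQ.symm)), if_pos hP, hφ]

theorem exists_chart (p : PO o (RF O)) : Nonempty (Chart O p) := by
  rcases eq_oo_or_plc p with rfl | ⟨y, rfl⟩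
  · exact exists_chart_inf O
  · exact exists_chart_fin O y

end Pool.Agent.E6b

end

section
open scoped NNReal TensorProduct IntermediateField BigOperators Classical Topology
open Filter

namespace Pool.Agent.E6b
variable {κ F : Type} [Field κ] [IsAlgClosed κ] [CharZero κ] [Field F] [Algebra κ F] [IsFF κ F]
  {o : Place κ F} {Ω : Type} [Field Ω] [IsAlgClosed Ω] [CharZero Ω] [Algebra κ Ω] (O : VS κ Ω)

theorem L3_jF_mul (f g : F) : jF o Ω (f * g) = jF o Ω f * jF o Ω g := by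
  obtain ⟨φ, hφ⟩ := exists_jF_hom (o := o) (Ω := Ω)
  rw [← hφ, ← hφ, ← hφ, map_mul]

theorem L3_jF_pow (f : F) (n : ℕ) : jF o Ω (f ^ n) = jF o Ω f ^ n := by
  obtain ⟨φ, hφ⟩ := exists_jF_hom (o := o) (Ω := Ω)
  rw [← hφ, ← hφ, map_pow]

theorem L3_jF_inv (f : F) : jF o Ω f⁻¹ = (jF o Ω f)⁻¹ := by
  obtain ⟨φ, hφ⟩ := exists_jF_hom (o := o) (Ω := Ω)
  rw [← hφ, ← hφ, map_inv₀]

theorem L3_ev_pow (P : Place κ F) {f : F} (hf : f ∈ P.O) (n : ℕ) : P.ev (f ^ n) = P.ev f ^ n := by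
  induction n with
  | zero => simpa using P.ev_algebraMap 1
  | succ n ih => rw [pow_succ, P.ev_mul (pow_mem hf n) hf, ih, pow_succ]

theorem L3_ev_prod (P : Place κ F) {ι : Type} (s : Finset ι) (f : ι → F) (hf : ∀ i ∈ s, f i ∈ P.O) :
    P.ev (∏ i ∈ s, f i) = ∏ i ∈ s, P.ev (f i) := by
  induction s using Finset.induction_on with
  | empty => simpa using P.ev_algebraMap 1
  | insert a s ha ih =>
    have h1 : ∀ i ∈ s, f i ∈ P.O := fun i hi => hf i (Finset.mem_insert_of_mem hi)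
    rw [Finset.prod_insert ha, Finset.prod_insert ha,
      P.ev_mul (hf a (Finset.mem_insert_self _ _)) (prod_mem h1), ih h1]

theorem L3_ev_zo : (oo o Ω).ev (jF o Ω (zo o)) = 0 := by
  have h : o.ev (zo o) = 0 :=
    (o.ev_eq_zero_iff (o.mem_iff.2 (by rw [ord_zo]; exact zero_le_one))).2
      (Or.inr (by rw [ord_zo]; exact zero_lt_one))
  rw [(oo_jF _).2, h, map_zero]

theorem L3_sep {p : PO o (RF O)} (C : Chart O p) {P Q : PO o Ω} (hP : red O P = p)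
    (hQ : red O Q = p) (h : ∀ f ∈ C.R, P.ev f = Q.ev f) : P = Q := by
  by_cases hp : p = oo o (RF O)
  · have hR := (C.inf hp).2
    have hN : (1 : ℤ) ≤ NN o := by unfold NN; omega
    have hw : ((wN o : F)⁻¹) ∈ o.O := o.mem_iff.2 (by rw [o.ord_inv, ord_wN]; omega)
    have hu : jF o Ω (wN o : F)⁻¹ = (iF o Ω (wN o))⁻¹ := by rw [L3_jF_inv, jF_coe]
    have hu' := hR _ hw
    rw [hu] at hu'
    have w0 : iF o Ω (wN o) ≠ 0 := fun e => iF_wN_notMem (o := o) (Ω := Ω) ⟨0, by rw [e, map_zero]⟩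
    have key : ∀ S : PO o Ω, red O S = p → (S = oo o Ω ↔ S.ev (iF o Ω (wN o))⁻¹ = 0) := by
      intro S hS
      rw [eq_oo_iff, S.ev_eq_zero_iff (C.ev S hS _ hu').1, S.mem_iff, S.ord_inv]
      constructor
      · intro h1; right; omega
      · rintro (h1 | h1)
        · exact absurd (inv_eq_zero.1 h1) w0
        · omega
    have e := h _ hu'
    rcases eq_oo_or_plc P with hP' | ⟨y, rfl⟩
    · rw [hP', eq_comm, key Q hQ, ← e, ← key P hP]; exact hP'
    rcases eq_oo_or_plc Q with hQ' | ⟨y', rfl⟩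
    · rw [hQ', key _ hP, e, ← key Q hQ]; exact hQ'
    congr 1
    ext a
    obtain ⟨k, hk⟩ : ∃ k : ℕ, -o.ord (a : F) ≤ k := ⟨(-o.ord (a : F)).toNat, Int.self_le_toNat _⟩
    have hm : (a : F) * ((wN o : F)⁻¹) ^ k ∈ o.O := by
      by_cases a0 : (a : F) = 0
      · rw [a0, zero_mul]; exact zero_mem _
      · rw [o.mem_iff, o.ord_mul a0 (pow_ne_zero _ (inv_ne_zero L3_wN_ne)), o.ord_pow, o.ord_inv,
          ord_wN, neg_neg]
        nlinarith [Int.natCast_nonneg k]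
    have e2 := h _ (hR _ hm)
    rw [L3_jF_mul, L3_jF_pow, hu, jF_coe,
      Place.ev_mul _ (plc_iF y a).1 (pow_mem (C.ev _ hP _ hu').1 k),
      Place.ev_mul _ (plc_iF y' a).1 (pow_mem (C.ev _ hQ _ hu').1 k),
      L3_ev_pow _ (C.ev _ hP _ hu').1, L3_ev_pow _ (C.ev _ hQ _ hu').1, (plc_iF y a).2,
      (plc_iF y' a).2, e] at e2
    exact mul_right_cancel₀ (pow_ne_zero _ fun h0 => plc_ne_oo y' ((key _ hQ).2 h0)) e2
  · have hR := C.fin hp
    have key : ∀ S : PO o Ω, red O S = p → ∃ y, plc y = S := fun S hS =>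
      (eq_oo_or_plc S).resolve_left fun e => hp (by rw [← hS, e, red_oo])
    obtain ⟨y, rfl⟩ := key P hP
    obtain ⟨y', rfl⟩ := key Q hQ
    congr 1
    ext a
    rw [← (plc_iF y a).2, ← (plc_iF y' a).2]
    exact h _ (hR a)
variable {O}

theorem L3_tmem {p : PO o (RF O)} (C : Chart O p) {P : PO o Ω} (hP : red O P = p) :
    C.t - algebraMap Ω (FO o Ω) (P.ev C.t) ∈ C.R :=
  sub_mem C.t_mem (C.const _ (C.ev P hP _ C.t_mem).2.1)

theorem L3_tev {p : PO o (RF O)} (C : Chart O p) (P : PO o Ω) {Q : PO o Ω} (hQ : red O Q = p) :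
    Q.ev (C.t - algebraMap Ω (FO o Ω) (P.ev C.t)) = Q.ev C.t - P.ev C.t := by
  rw [Q.ev_sub (C.ev Q hQ _ C.t_mem).1 (Q.const _), Q.ev_algebraMap]

theorem L3_tne {p : PO o (RF O)} (C : Chart O p) {P : PO o Ω} (hP : red O P = p) :
    C.t - algebraMap Ω (FO o Ω) (P.ev C.t) ≠ 0 := fun h => by
  have := C.ord P hP
  rw [h, Place.ord_zero] at this
  exact zero_ne_one this

theorem L3_inj {p : PO o (RF O)} (C : Chart O p) {P Q : PO o Ω} (hP : red O P = p)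
    (hQ : red O Q = p) (h : P.ev C.t = Q.ev C.t) : P = Q := by
  refine L3_sep O C hP hQ fun f hf => ?_
  have h1 := C.ev P hP f hf
  have h2 := C.ev Q hQ f hf
  obtain ⟨f', hf', e⟩ := C.div P hP (f - algebraMap Ω (FO o Ω) (P.ev f))
    (sub_mem hf (C.const _ h1.2.1)) (by rw [P.ev_sub h1.1 (P.const _), P.ev_algebraMap, sub_self])
  have e2 := congrArg Q.ev e
  rw [Q.ev_sub h2.1 (Q.const _), Q.ev_algebraMap,
    Q.ev_mul (C.ev Q hQ _ (L3_tmem C hP)).1 (C.ev Q hQ _ hf').1, L3_tev C P hQ, h, sub_self,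
    zero_mul] at e2
  exact (sub_eq_zero.1 e2).symm

theorem L3_tord {p : PO o (RF O)} (C : Chart O p) {P Q : PO o Ω} (hP : red O P = p)
    (hQ : red O Q = p) : Q.ord (C.t - algebraMap Ω (FO o Ω) (P.ev C.t)) = pd P Q := by
  rw [F1_pd_apply]
  split_ifs with h
  · rw [← h]; exact C.ord P hP
  · have h1 := (C.ev Q hQ _ (L3_tmem C hP)).1
    have h2 := Q.mem_iff.1 h1
    by_contra h3
    have h4 := (Q.ev_eq_zero_iff h1).2 (Or.inr (by omega))
    rw [L3_tev C P hQ] at h4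
    exact h (L3_inj C hP hQ (sub_eq_zero.1 h4).symm)

theorem L3_fac {p : PO o (RF O)} (C : Chart O p) {ι : Type} (P : ι → PO o Ω) (s : Finset ι) :
    (∀ i ∈ s, red O (P i) = p) → ∀ g ∈ C.R, g ≠ 0 →
      (∀ Q, red O Q = p → (∑ i ∈ s, pd (P i)) Q ≤ Q.ord g) →
      ∃ g' ∈ C.R, g = (∏ i ∈ s, (C.t - algebraMap Ω (FO o Ω) ((P i).ev C.t))) * g' := by
  induction s using Finset.induction_on with
  | empty => exact fun _ g hg _ _ => ⟨g, hg, by rw [Finset.prod_empty, one_mul]⟩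
  | insert a s ha ih =>
    intro hs g hg g0 hZ
    have hPa := hs a (Finset.mem_insert_self _ _)
    have hnn : ∀ Q, 0 ≤ (∑ i ∈ s, pd (P i)) Q := fun Q => by
      rw [Finsupp.finsetSum_apply]
      exact Finset.sum_nonneg fun i _ => by rw [F1_pd_apply]; split_ifs <;> omega
    have h1 := hZ _ hPa
    rw [Finset.sum_insert ha, Finsupp.add_apply, F1_pd_apply, if_pos rfl] at h1
    have h2 := hnn (P a)
    obtain ⟨g1, hg1, e⟩ := C.div _ hPa g hg
      (((P a).ev_eq_zero_iff (C.ev _ hPa g hg).1).2 (Or.inr (by omega)))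
    have g10 : g1 ≠ 0 := fun h0 => g0 (by rw [e, h0, mul_zero])
    obtain ⟨g', hg', e'⟩ := ih (fun i hi => hs i (Finset.mem_insert_of_mem hi)) g1 hg1 g10
      fun Q hQ => by
        have h3 := hZ Q hQ
        rw [Finset.sum_insert ha, Finsupp.add_apply, e, Q.ord_mul (L3_tne C hPa) g10,
          L3_tord C hPa hQ] at h3
        omega
    exact ⟨g', hg', by rw [Finset.prod_insert ha, mul_assoc, ← e', ← e]⟩

theorem L3_tgr {p : PO o (RF O)} (C : Chart O p) {P : PO o Ω} (hP : red O P = p) :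
    gr O (C.t - algebraMap Ω (FO o Ω) (P.ev C.t)) =
      gr O C.t - algebraMap (RF O) (FO o (RF O)) (p.ev (gr O C.t)) := by
  have h := C.ev P hP _ C.t_mem
  rw [gr_sub O (C.gv_le _ C.t_mem).1 (C.gv_le _ (C.const _ h.2.1)).1, gr_algebraMap O h.2.1, h.2.2]

theorem L3_ord_gr {p : PO o (RF O)} (C : Chart O p) {ι : Type} (P : ι → PO o Ω) (s : Finset ι)
    (hs : ∀ i ∈ s, red O (P i) = p) {g' : FO o Ω} (hg' : g' ∈ C.R)
    (h0 : gr O ((∏ i ∈ s, (C.t - algebraMap Ω (FO o Ω) ((P i).ev C.t))) * g') ≠ 0) :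
    gr O g' ≠ 0 ∧ p.ord (gr O ((∏ i ∈ s, (C.t - algebraMap Ω (FO o Ω) ((P i).ev C.t))) * g')) =
      s.card + p.ord (gr O g') := by
  have h1 : ∀ i ∈ s, gv O o (C.t - algebraMap Ω (FO o Ω) ((P i).ev C.t)) ≤ 1 :=
    fun i hi => (C.gv_le _ (L3_tmem C (hs i hi))).1
  have h2 := (C.gv_le _ (prod_mem fun i hi => L3_tmem C (hs i hi) :
    (∏ i ∈ s, (C.t - algebraMap Ω (FO o Ω) ((P i).ev C.t))) ∈ C.R)).1
  rw [gr_mul O h2 (C.gv_le _ hg').1, gr_prod O s h1,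
    Finset.prod_congr rfl fun i hi => L3_tgr C (hs i hi), Finset.prod_const] at h0 ⊢
  refine ⟨right_ne_zero_of_mul h0, ?_⟩
  rw [p.ord_mul (left_ne_zero_of_mul h0) (right_ne_zero_of_mul h0), p.ord_pow, C.ord_red, mul_one]

theorem L3_mem {p : PO o (RF O)} (C : Chart O p) {a : AO o Ω} (ha : gvA O a ≤ 1) {u : FO o Ω}
    (hu : ∀ j, (ebO o Ω).repr a j ≠ 0 → iF o Ω (eb o j) * u ∈ C.R) :
    algebraMap _ (FO o Ω) a * u ∈ C.R := by
  have e := (ebO o Ω).linearCombination_repr a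
  rw [Finsupp.linearCombination_apply, Finsupp.sum] at e
  rw [← e, map_sum, Finset.sum_mul]
  refine sum_mem fun j hj => ?_
  rw [L3_smul, algebraMap_ebO, mul_assoc]
  exact mul_mem (C.const _ ((O.1.valuation_le_one_iff _).1 ((gvA_le_iff O).1 ha j)))
    (hu j (Finsupp.mem_support_iff.1 hj))

end Pool.Agent.E6b

end

section
open scoped NNReal TensorProduct IntermediateField BigOperators Classical Topology
open Filter

namespace Pool.Agent.E6b
variable {κ F : Type} [Field κ] [IsAlgClosed κ] [CharZero κ] [Field F] [Algebra κ F] [IsFF κ F]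
  {o : Place κ F} {Ω : Type} [Field Ω] [IsAlgClosed Ω] [CharZero Ω] [Algebra κ Ω] (O : VS κ Ω)

theorem L3_ds_of_ne {P Q : PO o Ω} (h : red O P ≠ red O Q) : ds O P Q = 1 := by
  unfold ds; rw [if_pos h]

theorem L3_ds_lt {P Q : PO o Ω} (h : red O P = red O Q) : ds O P Q < 1 := by
  obtain ⟨C⟩ := exists_chart O (red O P)
  have h1 := C.ev P rfl _ C.t_mem
  have h2 := C.ev Q h.symm _ C.t_mem
  rw [C.ds_eq P Q rfl h.symm, ← rs_eq_zero_iff O (sub_mem h1.2.1 h2.2.1),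
    L3_rs_sub O h1.2.1 h2.2.1, h1.2.2, h2.2.2, sub_self]

theorem ds_lt_one_iff {P Q : PO o Ω} : ds O P Q < 1 ↔ red O P = red O Q :=
  ⟨fun h => by_contra fun h' => h.ne (L3_ds_of_ne O h'), L3_ds_lt O⟩

theorem ds_eq_zero_iff {P Q : PO o Ω} : ds O P Q = 0 ↔ P = Q := by
  obtain ⟨C⟩ := exists_chart O (red O P)
  constructor
  · intro h
    have h1 : red O P = red O Q := (ds_lt_one_iff O).1 (by rw [h]; exact zero_lt_one)
    rw [C.ds_eq P Q rfl h1.symm, map_eq_zero] at h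
    exact L3_inj C rfl h1.symm (sub_eq_zero.1 h)
  · rintro rfl
    rw [C.ds_eq P P rfl rfl, sub_self, map_zero]

theorem L3_dsD (P : PO o Ω) (D : DO o Ω) {s : Finset (PO o Ω)} (hs : D.support ⊆ s) :
    dsD O P D = ∏ Q ∈ s, ds O P Q ^ D Q :=
  Finsupp.prod_of_support_subset D hs _ fun _ _ => zpow_zero _

theorem dsD_zero (P : PO o Ω) : dsD O P 0 = 1 := Finsupp.prod_zero_index

theorem dsD_pd (P Q : PO o Ω) : dsD O P (pd Q) = ds O P Q := by
  unfold dsD pd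
  rw [Finsupp.prod_single_index (zpow_zero _), zpow_one]

theorem dsD_ne_zero {P : PO o Ω} {D : DO o Ω} (h : D P = 0) : dsD O P D ≠ 0 := by
  refine Finset.prod_ne_zero_iff.2 fun Q hQ => zpow_ne_zero _ fun h0 => ?_
  rw [← (ds_eq_zero_iff O).1 h0] at hQ
  exact Finsupp.mem_support_iff.1 hQ h

theorem dsD_add_of_nonneg (P : PO o Ω) {D E : DO o Ω} (hD : 0 ≤ D) (hE : 0 ≤ E) :
    dsD O P (D + E) = dsD O P D * dsD O P E := by
  rw [L3_dsD O P (D + E) Finsupp.support_add, L3_dsD O P D Finset.subset_union_left,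
    L3_dsD O P E Finset.subset_union_right, ← Finset.prod_mul_distrib]
  refine Finset.prod_congr rfl fun Q _ => ?_
  obtain ⟨a, ha⟩ := Int.eq_ofNat_of_zero_le (hD Q)
  obtain ⟨b, hb⟩ := Int.eq_ofNat_of_zero_le (hE Q)
  rw [Finsupp.add_apply, ha, hb, ← Nat.cast_add, zpow_natCast, zpow_natCast, zpow_natCast, pow_add]

theorem L3_dsD_sum (P : PO o Ω) {ι : Type} (s : Finset ι) (z : ι → PO o Ω) :
    dsD O P (∑ a ∈ s, pd (z a)) = ∏ a ∈ s, ds O P (z a) := by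
  induction s using Finset.induction_on with
  | empty => rw [Finset.sum_empty, Finset.prod_empty, dsD_zero]
  | insert a s ha ih =>
    rw [Finset.sum_insert ha, Finset.prod_insert ha, dsD_add_of_nonneg O P (L3_pd_nonneg _)
      (Finset.sum_nonneg fun i _ => L3_pd_nonneg _), ih, dsD_pd]

theorem L3_redD_pd (P : PO o Ω) : redD O o (pd P) = pd (red O P) := Finsupp.mapDomain_single

theorem L3_redD_sum {ι : Type} [Fintype ι] (z : ι → PO o Ω) (p : PO o (RF O)) :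
    redD O o (∑ i, pd (z i)) p = (Finset.univ.filter fun i => red O (z i) = p).card := by
  rw [map_sum, Finsupp.finsetSum_apply, Finset.card_filter, Nat.cast_sum]
  refine Finset.sum_congr rfl fun i _ => ?_
  rw [L3_redD_pd, F1_pd_apply]
  split_ifs <;> simp

theorem redD_pd (P : PO o Ω) : redD O o (pd P) = pd (red O P) := L3_redD_pd O P

theorem deg_redD (D : DO o Ω) : deg (redD O o D) = deg D := by
  induction D using Finsupp.induction_linear with
  | zero => rw [map_zero, deg_zero, deg_zero]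
  | add f g hf hg => rw [map_add, deg_add, deg_add, hf, hg]
  | single a b =>
    have : redD O o (Finsupp.single a b) = Finsupp.single (red O a) b := Finsupp.mapDomain_single
    rw [this, deg_single, deg_single]

theorem L3_jF_one : jF o Ω 1 = 1 := by simpa using L3_jF_pow (o := o) (Ω := Ω) 1 0

theorem L3_u_ord {p : PO o (RF O)} (C : Chart O p) {Q : PO o Ω} (hQ : red O Q = p) :
    Q.ord (jF o Ω (L3_u O p)) = pd (oo o Ω) Q := by
  unfold L3_u
  split_ifs with h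
  · have := L3_tord C (P := oo o Ω) (by rw [h, red_oo]) hQ
    rwa [(C.inf h).1, L3_ev_zo, map_zero, sub_zero] at this
  · rw [L3_jF_one, Q.ord_one, F1_pd_apply, if_neg]
    rintro rfl
    exact h (by rw [← hQ, red_oo])

theorem L3_u_ord' (p : PO o (RF O)) : p.ord (jF o (RF O) (L3_u O p)) = pd (oo o (RF O)) p := by
  unfold L3_u
  rw [F1_pd_apply]
  by_cases h : p = oo o (RF O)
  · rw [if_pos h, if_pos h.symm, h, (oo_jF _).1, ord_zo]
  · rw [if_neg h, if_neg (Ne.symm h), L3_jF_one, p.ord_one]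

theorem L3_gmem {a : AO o Ω} (haA : gvA O a ≤ 1) {n : ℕ}
    (hpn : ∀ j, (ebO o Ω).repr a j ≠ 0 → pn o j ≤ n) {p : PO o (RF O)} (C : Chart O p) :
    algebraMap _ (FO o Ω) a * jF o Ω (L3_u O p) ^ n ∈ C.R := by
  refine L3_mem C haA fun j hj => ?_
  unfold L3_u
  split_ifs with h
  · rw [← jF_coe, ← L3_jF_pow, ← L3_jF_mul]
    refine (C.inf h).2 _ (o.mem_iff.2 ?_)
    have e0 : (eb o j : F) ≠ 0 := fun e => (eb o).ne_zero j (Subtype.ext e)
    rw [o.ord_mul e0 (pow_ne_zero _ L3_zo_ne), o.ord_pow, ord_zo, (ebSpec o).ord]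
    have := hpn j hj
    omega
  · rw [L3_jF_one, one_pow, mul_one]; exact C.fin h _

theorem L3_ne {f : FO o Ω} (hf : gv O o f = 1) : f ≠ 0 := by
  rintro rfl
  rw [map_zero] at hf
  exact zero_ne_one hf

theorem L3_gr_ne {f : FO o Ω} (hf : gv O o f = 1) : gr O f ≠ 0 :=
  fun h => ((gr_eq_zero_iff O hf.le).1 h).ne hf

theorem L3_loc {f : FO o Ω} (ha : gv O o f = 1) {n m : ℕ} {z : Fin m → PO o Ω}
    (hz : dv Ω f + (n : ℤ) • pd (oo o Ω) = ∑ i, pd (z i)) {p : PO o (RF O)} (C : Chart O p)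
    (hg : f * jF o Ω (L3_u O p) ^ n ∈ C.R) : ∃ g' ∈ C.R,
      f * jF o Ω (L3_u O p) ^ n = (∏ i ∈ Finset.univ.filter fun i => red O (z i) = p,
        (C.t - algebraMap Ω (FO o Ω) ((z i).ev C.t))) * g' ∧ gr O g' ≠ 0 ∧
      (dv (RF O) (gr O f) + (n : ℤ) • pd (oo o (RF O))) p =
        redD O o (∑ i, pd (z i)) p + p.ord (gr O g') := by
  have f0 := L3_ne O ha
  have grf := L3_gr_ne O ha
  have hu : gv O o (jF o Ω (L3_u O p)) = 1 := gv_jF O (L3_u_ne O p)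
  have u0 := L3_ne O hu
  have hs : ∀ i ∈ Finset.univ.filter fun i => red O (z i) = p, red O (z i) = p :=
    fun i hi => (Finset.mem_filter.1 hi).2
  obtain ⟨g', hg', e⟩ := L3_fac C z _ hs _ hg (mul_ne_zero f0 (pow_ne_zero _ u0)) fun Q hQ => by
    rw [Q.ord_mul f0 (pow_ne_zero _ u0), Q.ord_pow, L3_u_ord O C hQ, ← dv_apply, ← smul_eq_mul,
      ← Finsupp.smul_apply, ← Finsupp.add_apply, hz]
    exact Finset.sum_le_sum_of_subset_of_nonneg (Finset.filter_subset _ _)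
      (fun i _ _ => L3_pd_nonneg (z i)) Q
  have hu' : jF o (RF O) (L3_u O p) ≠ 0 := by
    rw [← gr_jF O]; exact L3_gr_ne O hu
  have e1 : gr O (f * jF o Ω (L3_u O p) ^ n) = gr O f * jF o (RF O) (L3_u O p) ^ n := by
    rw [gr_mul O ha.le (by rw [map_pow, hu, one_pow]), gr_pow O hu.le, gr_jF]
  obtain ⟨h1, h2⟩ := L3_ord_gr C z _ hs hg'
    (by rw [← e, e1]; exact mul_ne_zero grf (pow_ne_zero _ hu'))
  refine ⟨g', hg', e, h1, ?_⟩
  rw [← e, e1, p.ord_mul grf (pow_ne_zero _ hu'), p.ord_pow, L3_u_ord'] at h2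
  rw [L3_redD_sum, ← h2, Finsupp.add_apply, Finsupp.smul_apply, dv_apply, smul_eq_mul]

theorem L3_fin {m : ℕ} (z : Fin m → PO o Ω) {P : PO o Ω} (C : Chart O (red O P)) {g' : FO o Ω}
    (hg' : g' ∈ C.R) (h1 : gr O g' ≠ 0) (h2 : (red O P).ord (gr O g') = 0) :
    O.1.valuation (P.ev ((∏ i ∈ Finset.univ.filter fun i => red O (z i) = red O P,
        (C.t - algebraMap Ω (FO o Ω) ((z i).ev C.t))) * g')) = dsD O P (∑ i, pd (z i)) := by
  have h3 := C.ev P rfl _ hg'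
  have h4 : O.1.valuation (P.ev g') = 1 := by
    refine le_antisymm ((O.1.valuation_le_one_iff _).2 h3.2.1) (not_lt.1 fun h => ?_)
    rw [← rs_eq_zero_iff O h3.2.1, h3.2.2, Place.ev_eq_zero_iff _ (C.gv_le _ hg').2] at h
    rcases h with h | h
    · exact h1 h
    · omega
  have h5 : ∀ i ∈ Finset.univ.filter fun i => red O (z i) = red O P,
      C.t - algebraMap Ω (FO o Ω) ((z i).ev C.t) ∈ P.O :=
    fun i hi => (C.ev P rfl _ (L3_tmem C (Finset.mem_filter.1 hi).2)).1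
  rw [P.ev_mul (prod_mem h5) h3.1, L3_ev_prod P _ _ h5, map_mul, h4, mul_one, map_prod,
    L3_dsD_sum, Finset.prod_filter]
  refine Finset.prod_congr rfl fun i _ => ?_
  by_cases h : red O (z i) = red O P
  · rw [if_pos h, L3_tev C _ rfl]
    exact (C.ds_eq P _ rfl h).symm
  · rw [if_neg h]
    exact (L3_ds_of_ne O (Ne.symm h)).symm

theorem L3_frac {f : FO o Ω} (hf : gv O o f = 1) {a b : AO o Ω} (hb : b ≠ 0)
    (h : f * algebraMap _ (FO o Ω) b = algebraMap _ (FO o Ω) a) :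
    ∃ a' b' : AO o Ω, gv O o (algebraMap _ (FO o Ω) a') = 1 ∧ gv O o (algebraMap _ (FO o Ω) b') = 1 ∧
      f * algebraMap _ (FO o Ω) b' = algebraMap _ (FO o Ω) a' ∧
      ∀ P : PO o Ω, P.ord (algebraMap _ (FO o Ω) b') = P.ord (algebraMap _ (FO o Ω) b) := by
  have b0 : algebraMap _ (FO o Ω) b ≠ 0 :=
    (map_ne_zero_iff _ (IsFractionRing.injective (AO o Ω) (FO o Ω))).2 hb
  obtain ⟨c, c0, hc⟩ := exists_smul_gv_eq_one O b0
  have e : ∀ x : AO o Ω, algebraMap _ (FO o Ω) (c • x) = c • algebraMap _ (FO o Ω) x := fun x => by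
    rw [L3_smul]; exact (Algebra.smul_def c _).symm
  have e2 : f * algebraMap _ (FO o Ω) (c • b) = algebraMap _ (FO o Ω) (c • a) := by
    rw [L3_smul, L3_smul, ← h]; ring
  refine ⟨c • a, c • b, ?_, by rw [e, hc], e2, fun P => by rw [e, P.ord_smul c0]⟩
  rw [← e2, map_mul, hf, e, hc, one_mul]

end Pool.Agent.E6b

end
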