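import Pool.Agent.E6c.A15

section
open scoped NNReal TensorProduct IntermediateField BigOperators Classical Topology
open Filter

namespace Pool.Agent.E6b

theorem IsPl.natCast_le {p : ℕ} {v : AbsoluteValue Qb ℝ} (h : IsPl p v) (n : ℕ) :
    v (n : Qb) ≤ th p n := by
  unfold th
  split_ifs with hp
  · subst hp
    have := h.eq_abs (n : ℚ)
    simp only [Rat.cast_natCast, Nat.abs_cast] at this
    exact this.le
  · exact IsNonarchimedean.apply_natCast_le_one (h.nonarch hp)

theorem H1a_bound_int {a : Qb} (ha : IsIntegral ℤ a) : ∃ C : ℝ, ∀ p v, IsPl p v → v a ≤ C := by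
  obtain ⟨P, hP, hPa⟩ := id ha
  refine ⟨max 1 (P.natDegree * ∑ i ∈ Finset.range P.natDegree, |(P.coeff i : ℝ)|), ?_⟩
  intro p v h
  rcases eq_or_ne p 0 with rfl | hp
  · have := H1a_root_le h hP (a := a) hPa
      (B := ∑ i ∈ Finset.range P.natDegree, |(P.coeff i : ℝ)|)
      (Finset.sum_nonneg fun i _ => abs_nonneg _) (by
        intro i hi
        have e := h.eq_abs ((P.coeff i : ℤ) : ℚ)
        simp only [Rat.cast_intCast] at e
        rw [e]
        exact Finset.single_le_sum (f := fun i => |(P.coeff i : ℝ)|)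
          (fun i _ => abs_nonneg _) (Finset.mem_range.mpr hi))
    simpa [th] using this
  · exact (h.le_one_of_isIntegral hp ha).trans (le_max_left _ _)

/-- every algebraic number is bounded at all places, and a unit at almost all. -/
theorem exists_bound (a : Qb) : ∃ C : ℝ, ∀ p v, IsPl p v → v a ≤ C := by
  obtain ⟨N, hN, hi⟩ := H1a_exists_mul a
  obtain ⟨C, hC⟩ := H1a_bound_int hi
  refine ⟨N * C, fun p v h => ?_⟩
  have h1 := hC p v h
  rw [map_mul] at h1
  have h2 := H1a_nat_lower h hN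
  have h3 := v.nonneg a
  have h4 : (0 : ℝ) ≤ N := Nat.cast_nonneg N
  calc v a = 1 * v a := (one_mul _).symm
    _ ≤ (N * v (N : Qb)) * v a := mul_le_mul_of_nonneg_right h2 h3
    _ = N * (v (N : Qb) * v a) := mul_assoc _ _ _
    _ ≤ N * C := mul_le_mul_of_nonneg_left h1 h4

theorem IsPl.rootOfUnity {p : ℕ} {v : AbsoluteValue Qb ℝ} (h : IsPl p v) {a : Qb} {n : ℕ}
    (hn : 0 < n) (ha : a ^ n = 1) : v a = 1 := by
  have _ := h
  have h1 : v a ^ n = 1 := by rw [← map_pow, ha, map_one]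
  exact (pow_eq_one_iff_of_nonneg (v.nonneg a) hn.ne').mp h1

end Pool.Agent.E6b

end

section
open scoped NNReal TensorProduct IntermediateField BigOperators Classical Topology
open Filter

namespace Pool.Agent.E6b

/-- version with finitely many bad primes -/
theorem ht_le_of_local_bad (N : ℕ) {C : ℝ} (hC : 1 ≤ C) {s t : Finset Qb} (hs : ∃ a ∈ s, a ≠ 0)
    (ht0 : ∃ a ∈ t, a ≠ 0)
    (h : ∀ p v, IsPl p v → nrm v s ≤ (if p < N then C else 1) * nrm v t) :
    ht s ≤ N * Real.log C + ht t := by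
  have hl := Real.log_nonneg hC
  let cst : ℕ →₀ ℝ := Finsupp.onFinset (Finset.range N) (fun p => if p < N then Real.log C else 0)
    fun p hp => by
      by_contra hn
      exact hp (if_neg fun h' => hn (Finset.mem_range.2 h'))
  have hcst : ∀ p, cst p = if p < N then Real.log C else 0 := fun p => rfl
  have key := H2_gen (r := Unit) hs (fun _ => t) (fun _ => ht0) (fun _ => 1) cst
    (fun p _ => by rw [hcst]; split_ifs <;> simp [hl]) (fun p v hv => by
      have e : Real.exp (cst p) = if p < N then C else 1 := by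
        rw [hcst]
        split_ifs
        · exact Real.exp_log (by linarith)
        · exact Real.exp_zero
      rw [e]
      simpa using h p v hv)
  have e : (cst.sum fun _ x => x) = N * Real.log C := by
    rw [Finsupp.sum_of_support_subset cst Finsupp.support_onFinset_subset _ fun _ _ => rfl,
      Finset.sum_congr rfl fun p hp => (hcst p).trans (if_pos (Finset.mem_range.1 hp))]
    simp
  rw [e] at key
  simpa using key

theorem H2_lin0 {r : Type} [Fintype r] (s : r → Finset Qb) (c : r → ℝ)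
    (hs : ∀ i, ∃ a ∈ s i, a ≠ 0)
    (h : ∀ p v, IsPl p v → ∑ i, c i * Real.log (nrm v (s i)) = 0) : ∑ i, c i * ht (s i) = 0 := by
  have h1 := htSpec.lg s c 0 hs (fun _ _ => le_rfl) fun p v hv => (h p v hv).le
  have h2 := htSpec.lg s (fun i => -c i) 0 hs (fun _ _ => le_rfl) fun p v hv => by
    simp only [neg_mul, Finset.sum_neg_distrib, h p v hv]
    simp
  simp only [neg_mul, Finset.sum_neg_distrib, Finsupp.sum_zero_index] at h1 h2
  linarith

theorem H2_one_le (v : AbsoluteValue Qb ℝ) (a : Qb) : 1 ≤ nrm v {1, a} := by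
  have := le_nrm v (s := {1, a}) (a := 1) (by simp)
  rwa [map_one] at this

theorem H2_le_pair (v : AbsoluteValue Qb ℝ) (a : Qb) : v a ≤ nrm v {1, a} := le_nrm v (by simp)

theorem H2_pair_le (v : AbsoluteValue Qb ℝ) {a : Qb} {M : ℝ} (h1 : 1 ≤ M) (h : v a ≤ M) :
    nrm v {1, a} ≤ M := by
  refine nrm_le v (by linarith) fun b hb => ?_
  rcases Finset.mem_insert.1 hb with rfl | hb
  · rwa [map_one]
  · rwa [Finset.mem_singleton.1 hb]

theorem H2_pair_ne (a : Qb) : ∃ b ∈ ({1, a} : Finset Qb), b ≠ 0 := ⟨1, by simp, one_ne_zero⟩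

theorem H2_one_le_prod (v : AbsoluteValue Qb ℝ) {ι : Type*} (I : Finset ι) (f : ι → Qb) :
    1 ≤ ∏ i ∈ I, nrm v {1, f i} := Finset.one_le_prod fun i _ => H2_one_le v (f i)

theorem H2_le_prod (v : AbsoluteValue Qb ℝ) {ι : Type*} {I : Finset ι} (f : ι → Qb) {i : ι}
    (hi : i ∈ I) : v (f i) ≤ ∏ j ∈ I, nrm v {1, f j} := by
  rw [← Finset.mul_prod_erase I (fun j => nrm v {1, f j}) hi]
  exact (H2_le_pair v _).trans (le_mul_of_one_le_right (nrm_nonneg _ _) (H2_one_le_prod v _ f))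

theorem H2_ins {ι : Type*} (I : Finset ι) (f : ι → Qb) :
    ht (insert 1 (I.image f)) ≤ ∑ i ∈ I, h1 (f i) := by
  have key := H2_prod I (s := insert 1 (I.image f)) ⟨1, by simp, one_ne_zero⟩ (fun i => {1, f i})
    (fun i _ => H2_pair_ne _) one_pos fun p v _ => by
      rw [H2_th_one, one_mul]
      refine nrm_le v (zero_le_one.trans (H2_one_le_prod v I f)) fun a ha => ?_
      rcases Finset.mem_insert.1 ha with rfl | ha
      · rw [map_one]
        exact H2_one_le_prod v I f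
      · obtain ⟨i, hi, rfl⟩ := Finset.mem_image.1 ha
        exact H2_le_prod v f hi
  rwa [Real.log_one, zero_add] at key

theorem ht_insert_one_le (s : Finset Qb) : ht (insert 1 s) ≤ ∑ a ∈ s, h1 a := by
  have key := H2_ins s id
  rwa [Finset.image_id] at key

theorem le_nv {ι : Type*} [Fintype ι] (v : AbsoluteValue Qb ℝ) (x : ι → Qb) (i : ι) :
    v (x i) ≤ nv v x := le_nrm v (Finset.mem_image_of_mem x (Finset.mem_univ i))

theorem exists_nv_eq {ι : Type*} [Fintype ι] [Nonempty ι] (v : AbsoluteValue Qb ℝ) (x : ι → Qb) :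
    ∃ i, v (x i) = nv v x := by
  obtain ⟨a, ha, h⟩ := exists_nrm_eq v (Finset.univ_nonempty.image x)
  obtain ⟨i, -, rfl⟩ := Finset.mem_image.1 ha
  exact ⟨i, h⟩

theorem hv_segre {ι ι' : Type*} [Fintype ι] [Fintype ι'] {x : ι → Qb} {y : ι' → Qb} (hx : x ≠ 0)
    (hy : y ≠ 0) : hv (fun p : ι × ι' => x p.1 * y p.2) = hv x + hv y := by
  obtain ⟨i, hi⟩ := Function.ne_iff.1 hx
  obtain ⟨j, hj⟩ := Function.ne_iff.1 hy
  have : Nonempty ι := ⟨i⟩
  have : Nonempty ι' := ⟨j⟩
  have hz : (fun p : ι × ι' => x p.1 * y p.2) ≠ 0 :=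
    Function.ne_iff.2 ⟨(i, j), mul_ne_zero hi hj⟩
  have key := H2_lin0 (r := Fin 3) ![Finset.univ.image fun p : ι × ι' => x p.1 * y p.2,
    Finset.univ.image x, Finset.univ.image y] ![1, -1, -1]
    (fun k => by
      fin_cases k
      · exact H2_vec_ne hz
      · exact H2_vec_ne hx
      · exact H2_vec_ne hy) fun p v _ => by
      have e : nv v (fun p : ι × ι' => x p.1 * y p.2) = nv v x * nv v y := by
        refine le_antisymm (nv_le v (mul_nonneg (nrm_nonneg _ _) (nrm_nonneg _ _)) fun q => ?_) ?_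
        · rw [map_mul]
          exact mul_le_mul (le_nv v x _) (le_nv v y _) (v.nonneg _) (nrm_nonneg _ _)
        · obtain ⟨a, ha⟩ := exists_nv_eq v x
          obtain ⟨b, hb⟩ := exists_nv_eq v y
          rw [← ha, ← hb, ← map_mul]
          exact le_nv v (fun p : ι × ι' => x p.1 * y p.2) (a, b)
      unfold nv at e
      simp only [Fin.sum_univ_three, Matrix.cons_val_zero, Matrix.cons_val_one, Matrix.cons_val]
      rw [e, Real.log_mul (nrm_pos v (H2_vec_ne hx)).ne' (nrm_pos v (H2_vec_ne hy)).ne']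
      ring
  simp only [Fin.sum_univ_three, Matrix.cons_val_zero, Matrix.cons_val_one,
    Matrix.cons_val] at key
  unfold hv
  linarith

theorem H2_ht_pow (s : Finset Qb) (n : ℕ) : ht (s.image (· ^ n)) = n * ht s := by
  by_cases hs : ∃ a ∈ s, a ≠ 0
  · obtain ⟨a, ha, h0⟩ := hs
    have key := H2_lin0 (r := Fin 2) ![s.image (· ^ n), s] ![1, -n]
      (fun k => by
        fin_cases k
        · exact ⟨a ^ n, Finset.mem_image_of_mem _ ha, pow_ne_zero _ h0⟩
        · exact ⟨a, ha, h0⟩) fun p v _ => by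
        have e : nrm v (s.image (· ^ n)) = nrm v s ^ n := by
          refine le_antisymm (nrm_le v (pow_nonneg (nrm_nonneg _ _) _) fun b hb => ?_) ?_
          · obtain ⟨b, hb', rfl⟩ := Finset.mem_image.1 hb
            rw [map_pow]
            exact pow_le_pow_left₀ (v.nonneg _) (le_nrm v hb') _
          · obtain ⟨b, hb, h⟩ := exists_nrm_eq v ⟨a, ha⟩
            rw [← h, ← map_pow]
            exact le_nrm v (Finset.mem_image_of_mem _ hb)
        simp only [Fin.sum_univ_two, Matrix.cons_val_zero, Matrix.cons_val_one]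
        rw [e, Real.log_pow]
        ring
    simp only [Fin.sum_univ_two, Matrix.cons_val_zero, Matrix.cons_val_one] at key
    linarith
  · push Not at hs
    rw [htSpec.zero s hs, mul_zero]
    rcases Nat.eq_zero_or_pos n with rfl | hn
    · refine le_antisymm ?_ (ht_nonneg _)
      rw [← htSpec.single 1 one_ne_zero]
      refine ht_mono fun b hb => ?_
      obtain ⟨b, -, rfl⟩ := Finset.mem_image.1 hb
      simp
    · refine htSpec.zero _ fun b hb => ?_
      obtain ⟨b, hb', rfl⟩ := Finset.mem_image.1 hb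
      rw [hs b hb', zero_pow hn.ne']

theorem hv_pow {ι : Type*} [Fintype ι] (x : ι → Qb) (n : ℕ) :
    hv (fun i => x i ^ n) = n * hv x := by
  unfold hv
  rw [← H2_ht_pow, Finset.image_image]
  rfl

theorem hv_le_sum {ι : Type*} [Fintype ι] (x : ι → Qb) : hv x ≤ ∑ i, h1 (x i) :=
  (ht_mono (Finset.subset_insert _ _)).trans (H2_ins Finset.univ x)

theorem H2_sum {ι : Type*} (s : Finset ι) (f : ι → Qb) {c : ℝ} (h1c : 1 ≤ c)
    (hc : (s.card : ℝ) ≤ c) : h1 (∑ i ∈ s, f i) ≤ ∑ i ∈ s, h1 (f i) + Real.log c := by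
  have key := H2_prod s (H2_pair_ne (∑ i ∈ s, f i)) (fun i => {1, f i})
    (fun i _ => H2_pair_ne _) (c := c) (by linarith) fun p v hv => by
      have hM := H2_one_le_prod v s f
      refine H2_pair_le v (one_le_mul_of_one_le_of_one_le (H2_one_le_th p h1c) hM) ?_
      exact (hv.sum_le s f (by linarith) fun i hi => H2_le_prod v f hi).trans
        (mul_le_mul_of_nonneg_right (H2_th_mono p hc) (by linarith))
  rw [add_comm]
  exact key

theorem h1_prod_le {ι : Type*} (s : Finset ι) (f : ι → Qb) :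
    h1 (∏ i ∈ s, f i) ≤ ∑ i ∈ s, h1 (f i) := by
  have key := H2_prod s (H2_pair_ne (∏ i ∈ s, f i)) (fun i => {1, f i})
    (fun i _ => H2_pair_ne _) one_pos fun p v _ => by
      rw [H2_th_one, one_mul]
      refine H2_pair_le v (H2_one_le_prod v s f) ?_
      rw [map_prod]
      exact Finset.prod_le_prod (fun i _ => v.nonneg _) fun i _ => H2_le_pair v _
  rwa [Real.log_one, zero_add] at key

theorem h1_mul_le (a b : Qb) : h1 (a * b) ≤ h1 a + h1 b := by
  simpa using h1_prod_le (Finset.univ : Finset (Fin 2)) ![a, b]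

theorem h1_add_le (a b : Qb) : h1 (a + b) ≤ h1 a + h1 b + Real.log 2 := by
  simpa using H2_sum (Finset.univ : Finset (Fin 2)) ![a, b] (c := 2) (by norm_num) (by simp)

theorem H2_h1_le {a b : Qb} (h : ∀ p v, IsPl p v → v a ≤ v b) : h1 a ≤ h1 b :=
  H2_le fun p v hv => H2_pair_le v (H2_one_le v b) ((h p v hv).trans (H2_le_pair v b))

theorem h1_neg (a : Qb) : h1 (-a) = h1 a :=
  le_antisymm (H2_h1_le fun _ v _ => (v.map_neg a).le) (H2_h1_le fun _ v _ => (v.map_neg a).ge)

theorem h1_inv (a : Qb) : h1 a⁻¹ = h1 a := by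
  by_cases ha : a = 0
  · rw [ha, inv_zero]
  · unfold h1
    rw [← ht_smul ha, Finset.image_insert, Finset.image_singleton, mul_one, mul_inv_cancel₀ ha,
      Finset.pair_comm]

theorem h1_pow (a : Qb) (n : ℕ) : h1 (a ^ n) = n * h1 a := by
  unfold h1
  rw [← H2_ht_pow, Finset.image_insert, Finset.image_singleton, one_pow]

theorem h1_gal (σ : Qb ≃ₐ[ℚ] Qb) (a : Qb) : h1 (σ a) = h1 a := by
  unfold h1
  rw [← htSpec.gal σ {1, a}, Finset.image_insert, Finset.image_singleton, map_one]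

theorem H2_h1_one : h1 1 = 0 := by
  unfold h1
  rw [Finset.pair_eq_singleton]
  exact htSpec.single 1 one_ne_zero

theorem h1_rootOfUnity {a : Qb} {n : ℕ} (hn : 0 < n) (ha : a ^ n = 1) : h1 a = 0 := by
  have key := h1_pow a n
  rw [ha, H2_h1_one] at key
  exact (mul_eq_zero.1 key.symm).resolve_left (by exact_mod_cast hn.ne')

theorem h1_natCast_le (n : ℕ) : h1 (n : Qb) ≤ Real.log (n + 1) := by
  have h0 : (1 : ℝ) ≤ n + 1 := le_add_of_nonneg_left (Nat.cast_nonneg _)
  have key := ht_le_of_local1 (H2_pair_ne (n : Qb)) (H2_pair_ne 1) 0 (c := n + 1) (by linarith)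
    fun p v hv => by
      rw [pow_zero, mul_one]
      exact H2_pair_le v (H2_one_le_th p h0)
        ((hv.natCast_le n).trans (H2_th_mono p (le_add_of_nonneg_right zero_le_one)))
  rwa [Nat.cast_zero, zero_mul, add_zero] at key

end Pool.Agent.E6b

end

section
open scoped NNReal TensorProduct IntermediateField BigOperators Classical Topology
open Filter

namespace Pool.Agent.E6b
open Polynomial

theorem H3_h1_zero : h1 (0 : Qb) ≤ 0 := by
  have := h1_natCast_le 0
  simpa using this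

theorem H3_h1_one : h1 (1 : Qb) ≤ 0 := by
  have := h1_pow (1 : Qb) 0
  simp only [pow_zero, Nat.cast_zero, zero_mul] at this
  exact this.le

/-- coprime integers: the logarithm of the larger one is at most the height of the pair. -/
theorem H3_log_le_ht {a b : ℤ} (hab : IsCoprime a b) {M : ℝ} (hM : 0 < M)
    (h : M ≤ |(a : ℝ)| ∨ M ≤ |(b : ℝ)|) :
    Real.log M ≤ ht {(a : Qb), (b : Qb)} := by
  have hne : ∃ x ∈ ({(a : Qb), (b : Qb)} : Finset Qb), x ≠ 0 := by
    rcases h with h | h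
    · refine ⟨a, by simp, ?_⟩
      intro h0
      have : a = 0 := by exact_mod_cast h0
      subst this
      simp at h
      linarith
    · refine ⟨b, by simp, ?_⟩
      intro h0
      have : b = 0 := by exact_mod_cast h0
      subst this
      simp at h
      linarith
  have key := ht_le_of_local1 (s := {(1 : Qb)}) (t := {(a : Qb), (b : Qb)})
    ⟨1, by simp, one_ne_zero⟩ hne 1 (c := M⁻¹) (inv_pos.mpr hM) ?_
  · rw [htSpec.single 1 one_ne_zero, Real.log_inv] at key
    simp only [Nat.cast_one, one_mul] at key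
    linarith
  · intro p v hv
    have ha : v (a : Qb) ≤ nrm v {(a : Qb), (b : Qb)} := le_nrm v (by simp)
    have hb : v (b : Qb) ≤ nrm v {(a : Qb), (b : Qb)} := le_nrm v (by simp)
    have h0 := nrm_nonneg v {(a : Qb), (b : Qb)}
    rw [pow_one]
    by_cases hp : p = 0
    · subst hp
      have e1 : v (a : Qb) = |(a : ℝ)| := by
        have := hv.eq_abs (a : ℚ)
        simpa using this
      have e2 : v (b : Qb) = |(b : ℝ)| := by
        have := hv.eq_abs (b : ℚ)
        simpa using this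
      have hM' : M ≤ nrm v {(a : Qb), (b : Qb)} := by
        rcases h with h | h
        · exact h.trans (e1 ▸ ha)
        · exact h.trans (e2 ▸ hb)
      refine nrm_le v (mul_nonneg (by simp [th, hM.le]) h0) ?_
      intro x hx
      rw [Finset.mem_singleton] at hx
      subst hx
      simp only [th, if_true, map_one]
      rw [← div_eq_inv_mul, le_div_iff₀ hM]
      linarith
    · refine nrm_le v (mul_nonneg (by simp [th, hp]) h0) ?_
      intro x hx
      rw [Finset.mem_singleton] at hx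
      subst hx
      simp only [th, if_neg hp, one_mul]
      obtain ⟨c, d, hcd⟩ := hab
      have e : (1 : Qb) = (c : Qb) * a + (d : Qb) * b := by
        have := congrArg (fun z : ℤ => (z : Qb)) hcd
        simpa using this.symm
      have hc : v (c : Qb) ≤ 1 :=
        hv.le_one_of_isIntegral hp (by simpa using isIntegral_algebraMap (R := ℤ) (A := Qb) (x := c))
      have hd : v (d : Qb) ≤ 1 :=
        hv.le_one_of_isIntegral hp (by simpa using isIntegral_algebraMap (R := ℤ) (A := Qb) (x := d))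
      rw [e]
      refine (hv.nonarch hp _ _).trans (max_le ?_ ?_)
      · rw [map_mul]
        calc v c * v a ≤ 1 * v a := mul_le_mul_of_nonneg_right hc (v.nonneg _)
          _ ≤ _ := by rw [one_mul]; exact ha
      · rw [map_mul]
        calc v d * v b ≤ 1 * v b := mul_le_mul_of_nonneg_right hd (v.nonneg _)
          _ ≤ _ := by rw [one_mul]; exact hb

theorem H3_h1_rat (q : ℚ) : h1 (q : Qb) = ht {((q.den : ℤ) : Qb), (q.num : Qb)} := by
  have hd : ((q.den : ℤ) : Qb) ≠ 0 := by exact_mod_cast q.den_nz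
  have := ht_smul hd {1, (q : Qb)}
  rw [h1, ← this]
  congr 1
  rw [Finset.image_insert, Finset.image_singleton, mul_one]
  congr 2
  have h2 : (q.den : ℚ) * q = q.num := Rat.den_mul_eq_num q
  have := congrArg (fun z : ℚ => (z : Qb)) h2
  simp only [Rat.cast_mul, Rat.cast_natCast, Rat.cast_intCast] at this
  rw [Int.cast_natCast]
  exact this

/-- Northcott over `ℚ`. -/
theorem H3_northcott_rat (B : ℝ) : {q : ℚ | h1 (q : Qb) ≤ B}.Finite := by
  obtain ⟨N, hN⟩ := exists_nat_ge (Real.exp B)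
  have hfin : ((fun z : ℤ × ℤ => (z.1 : ℚ) / (z.2 : ℚ)) ''
      (Set.Icc (-(N : ℤ)) N ×ˢ Set.Icc (-(N : ℤ)) N)).Finite :=
    ((Set.finite_Icc _ _).prod (Set.finite_Icc _ _)).image _
  refine hfin.subset ?_
  intro q hq
  change h1 (q : Qb) ≤ B at hq
  rw [H3_h1_rat] at hq
  have hcop : IsCoprime (q.den : ℤ) q.num := by
    rw [Int.isCoprime_iff_gcd_eq_one]
    have := q.reduced
    rw [Int.gcd, Int.natAbs_natCast, Nat.gcd_comm]
    exact this
  have bound : ∀ z : ℤ, z = q.den ∨ z = q.num → z ∈ Set.Icc (-(N : ℤ)) N := by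
    intro z hz
    rw [Set.mem_Icc, ← abs_le]
    by_cases h0 : z = 0
    · subst h0; simp
    · have hpos : (0 : ℝ) < |(z : ℝ)| := abs_pos.mpr (by exact_mod_cast h0)
      have h2 := H3_log_le_ht hcop hpos (by
        rcases hz with hz | hz
        · left; rw [hz]
        · right; rw [hz])
      have h3 : |(z : ℝ)| ≤ Real.exp B := by
        rw [← Real.log_le_iff_le_exp hpos]
        exact h2.trans hq
      have h4 : |(z : ℝ)| ≤ (N : ℝ) := h3.trans hN
      exact_mod_cast h4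
  refine ⟨(q.num, (q.den : ℤ)), ⟨bound _ (Or.inr rfl), bound _ (Or.inl rfl)⟩, ?_⟩
  simpa using Rat.num_div_den q

/-- coefficients of a split monic polynomial with roots of bounded height. -/
theorem H3_coeff_bound (B : ℝ) (d : ℕ) : ∃ E : ℝ, 0 ≤ E ∧ ∀ s : Multiset Qb, Multiset.card s ≤ d →
    (∀ a ∈ s, h1 a ≤ B) → ∀ n, h1 ((s.map (fun r => (X - C r : Qb[X]))).prod.coeff n) ≤ E := by
  have base : ∀ n, h1 ((1 : Qb[X]).coeff n) ≤ 0 := by
    intro n
    rw [coeff_one]
    split_ifs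
    · exact H3_h1_one
    · exact H3_h1_zero
  induction d with
  | zero =>
    refine ⟨0, le_rfl, ?_⟩
    intro s hs _ n
    have : s = 0 := Multiset.card_eq_zero.mp (Nat.le_zero.mp hs)
    subst this
    simpa using base n
  | succ d ih =>
    obtain ⟨E, hE, ih⟩ := ih
    have hl : 0 ≤ Real.log 2 := Real.log_nonneg (by norm_num)
    refine ⟨E + (|B| + E) + Real.log 2, by positivity, ?_⟩
    intro s hs hB n
    rcases Multiset.empty_or_exists_mem s with rfl | ⟨a, ha⟩
    · have := base n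
      simp only [Multiset.map_zero, Multiset.prod_zero]
      have h2 : 0 ≤ E + (|B| + E) + Real.log 2 := by positivity
      linarith
    · obtain ⟨t, rfl⟩ := Multiset.exists_cons_of_mem ha
      rw [Multiset.card_cons] at hs
      have ht' := ih t (by omega) (fun x hx => hB x (Multiset.mem_cons_of_mem hx))
      have haB : h1 a ≤ |B| := (hB a ha).trans (le_abs_self B)
      rw [Multiset.map_cons, Multiset.prod_cons]
      set P := (t.map (fun r => (X - C r : Qb[X]))).prod
      have e : ((X - C a) * P).coeff n = (X * P).coeff n + (-(a * P.coeff n)) := by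
        rw [sub_mul, coeff_sub, coeff_C_mul, sub_eq_add_neg]
      have h2 : h1 ((X * P).coeff n) ≤ E := by
        cases n with
        | zero => rw [coeff_X_mul_zero]; exact H3_h1_zero.trans hE
        | succ n => rw [coeff_X_mul]; exact ht' n
      have h3 : h1 (-(a * P.coeff n)) ≤ |B| + E := by
        rw [h1_neg]
        exact (h1_mul_le _ _).trans (add_le_add haB (ht' n))
      rw [e]
      refine (h1_add_le _ _).trans ?_
      linarith

/-- Northcott -/
theorem northcott (B : ℝ) (d : ℕ) :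
    {a : Qb | h1 a ≤ B ∧ (minpoly ℚ a).natDegree ≤ d}.Finite := by
  have := H3_isGalois
  obtain ⟨E, -, hE⟩ := H3_coeff_bound B d
  refine (Polynomial.bUnion_roots_finite (algebraMap ℚ Qb) d (H3_northcott_rat E)).subset ?_
  rintro a ⟨haB, had⟩
  have halg : IsAlgebraic ℚ a := Algebra.IsAlgebraic.isAlgebraic a
  have hint : IsIntegral ℚ a := halg.isIntegral
  have hm : ((minpoly ℚ a).map (algebraMap ℚ Qb)).Monic := (minpoly.monic hint).map _
  have hs : ((minpoly ℚ a).map (algebraMap ℚ Qb)).Splits := IsAlgClosed.splits _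
  simp only [Set.mem_iUnion]
  refine ⟨minpoly ℚ a, ⟨had, ?_⟩, ?_⟩
  · intro i
    have h2 := hE ((minpoly ℚ a).map (algebraMap ℚ Qb)).roots ?_ ?_ i
    · rw [← hs.eq_prod_roots_of_monic hm, coeff_map] at h2
      simpa using h2
    · refine (card_roots' _).trans ?_
      rw [natDegree_map]
      exact had
    · intro r hr
      rw [mem_roots hm.ne_zero, IsRoot.def, eval_map_algebraMap] at hr
      obtain ⟨σ, hσ⟩ := minpoly.exists_algEquiv_of_root' halg hr
      rw [← hσ, h1_gal]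
      exact haB
  · rw [Finset.mem_coe, Multiset.mem_toFinset, mem_roots hm.ne_zero, IsRoot.def,
      eval_map_algebraMap]
    exact minpoly.aeval ℚ a

theorem northcott_field (K : IntermediateField ℚ Qb) [FiniteDimensional ℚ K] (B : ℝ) :
    {a : Qb | a ∈ K ∧ h1 a ≤ B}.Finite := by
  refine (northcott B (Module.finrank ℚ K)).subset ?_
  rintro a ⟨haK, haB⟩
  refine ⟨haB, ?_⟩
  have h := minpoly.natDegree_le (A := ℚ) (⟨a, haK⟩ : K)
  rwa [← minpoly.algebraMap_eq (A := ℚ) (algebraMap K Qb).injective] at h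

end Pool.Agent.E6b

end

section
open scoped NNReal TensorProduct IntermediateField BigOperators Classical Topology
open Filter

namespace Pool.Agent.E6b
variable (U : Ultrafilter ℕ) {κ L : Type} [Field κ] [Field L] [Algebra κ L]

/-- a function with values in a finite set is constant along an ultrafilter -/
theorem exists_eventually_eq {α : Type*} {s : Set α} (hs : s.Finite) {f : ℕ → α}
    (hf : ∀ᶠ n in (U : Filter ℕ), f n ∈ s) : ∃ a ∈ s, ∀ᶠ n in (U : Filter ℕ), f n = a := by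
  refine (Ultrafilter.eventually_exists_mem_iff (P := fun a n => f n = a) hs).1 ?_
  exact hf.mono fun n hn => ⟨f n, hn, rfl⟩

end Pool.Agent.E6b

end

section
open scoped NNReal TensorProduct IntermediateField BigOperators Classical Topology
open Filter

namespace Pool.Agent.E6b

theorem U2_const (U : Ultrafilter ℕ) (c : Qb) :
    gm U (fun _ => c) = algebraMap Qb (UP U Qb) c := gm_const (κ := Qb) U c

/-- subalgebra of the ultrapower cut out by a property of sequences -/
theorem U2_sub (U : Ultrafilter ℕ) (P : (ℕ → Qb) → Prop)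
    (hc : ∀ x y, (∀ᶠ n in (U : Filter ℕ), x n = y n) → P x → P y)
    (hadd : ∀ x y, P x → P y → P fun n => x n + y n)
    (hmul : ∀ x y, P x → P y → P fun n => x n * y n)
    (hcst : ∀ c, P fun _ => c) :
    ∃ S : Subalgebra Qb (UP U Qb), ∀ x, gm U x ∈ S ↔ P x := by
  refine ⟨{ carrier := {z | ∃ x, gm U x = z ∧ P x}
            mul_mem' := ?_
            add_mem' := ?_
            algebraMap_mem' := fun c => ⟨_, U2_const U c, hcst c⟩ }, fun x => ⟨?_, fun h => ⟨x, rfl, h⟩⟩⟩
  · rintro _ _ ⟨x, rfl, hx⟩ ⟨y, rfl, hy⟩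
    exact ⟨_, gm_mul U x y, hmul x y hx hy⟩
  · rintro _ _ ⟨x, rfl, hx⟩ ⟨y, rfl, hy⟩
    exact ⟨_, gm_add U x y, hadd x y hx hy⟩
  · rintro ⟨y, hy, hP⟩
    exact hc y x ((gm_eq_iff U y x).1 hy) hP

theorem U2_vs (U : Ultrafilter ℕ) (P : (ℕ → Qb) → Prop)
    (hc : ∀ x y, (∀ᶠ n in (U : Filter ℕ), x n = y n) → P x → P y)
    (hadd : ∀ x y, P x → P y → P fun n => x n + y n)
    (hmul : ∀ x y, P x → P y → P fun n => x n * y n)
    (hcst : ∀ c, P fun _ => c)
    (hinv : ∀ x, P x ∨ P fun n => (x n)⁻¹) :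
    ∃ O : VS Qb (UP U Qb), ∀ x, gm U x ∈ O.1 ↔ P x := by
  obtain ⟨S, hS⟩ := U2_sub U P hc hadd hmul hcst
  refine ⟨⟨⟨S.toSubring, fun z => ?_⟩, fun c => S.algebraMap_mem c⟩, hS⟩
  obtain ⟨x, rfl⟩ := gm_surj U z
  rcases hinv x with h | h
  · exact Or.inl ((hS x).2 h)
  · right
    rw [← gm_inv]
    exact (hS _).2 h

/-- the valuation ring attached to places of residue characteristic tending to infinity -/
theorem exists_vs_one (U : Ultrafilter ℕ) (p : ℕ → ℕ) (v : ℕ → AbsoluteValue Qb ℝ)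
    (hv : ∀ n, IsPl (p n) (v n)) (hp : Tendsto p (U : Filter ℕ) atTop) :
    ∃ O : VS Qb (UP U Qb),
      (∀ x : ℕ → Qb, gm U x ∈ O.1 ↔ ∀ᶠ n in (U : Filter ℕ), v n (x n) ≤ 1) ∧
      ∀ x : ℕ → Qb, O.1.valuation (gm U x) < 1 ↔ ∀ᶠ n in (U : Filter ℕ), v n (x n) < 1 := by
  obtain ⟨O, hO⟩ := U2_vs U (fun x => ∀ᶠ n in (U : Filter ℕ), v n (x n) ≤ 1)
    (fun x y h hx => by
      filter_upwards [h, hx] with n h1 h2
      rwa [← h1])
    (fun x y hx hy => by
      filter_upwards [hx, hy, hp.eventually_ge_atTop 1] with n h1 h2 h3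
      exact ((hv n).nonarch (by omega) _ _).trans (max_le h1 h2))
    (fun x y hx hy => by
      filter_upwards [hx, hy] with n h1 h2
      rw [map_mul]
      exact mul_le_one₀ h1 ((v n).nonneg _) h2)
    (fun c => by
      by_cases hc : c = 0
      · exact Eventually.of_forall fun n => by rw [hc, map_zero]; exact zero_le_one
      · obtain ⟨N, hN⟩ := eventually_eq_one hc
        filter_upwards [hp.eventually_ge_atTop N] with n h
        exact (hN _ _ (hv n) h).le)
    (fun x => by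
      rw [← Ultrafilter.eventually_or]
      refine Eventually.of_forall fun n => ?_
      rcases le_total (v n (x n)) 1 with h | h
      · exact Or.inl h
      · right
        rw [map_inv₀]
        exact inv_le_one_of_one_le₀ h)
  refine ⟨O, hO, fun x => ?_⟩
  rw [← ValuationSubring.mem_nonunits_iff, ValuationSubring.mem_nonunits_iff_or, ← gm_inv, hO,
    gm_eq_zero_iff, ← Ultrafilter.eventually_not, ← Ultrafilter.eventually_or]
  refine eventually_congr (Eventually.of_forall fun n => ?_)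
  rw [map_inv₀, not_le]
  constructor
  · rintro (h | h)
    · rw [h, map_zero]; exact zero_lt_one
    · exact (one_lt_inv_iff₀.1 h).2
  · intro h
    by_cases h0 : x n = 0
    · exact Or.inl h0
    · exact Or.inr (one_lt_inv_iff₀.2 ⟨(v n).pos h0, h⟩)

/-- the valuation ring of the bounded sequences -/
theorem U2_vs_bdd (U : Ultrafilter ℕ) (p : ℕ → ℕ) (v : ℕ → AbsoluteValue Qb ℝ)
    (hv : ∀ n, IsPl (p n) (v n)) :
    ∃ O : VS Qb (UP U Qb),
      ∀ x : ℕ → Qb, gm U x ∈ O.1 ↔ ∃ C : ℝ, ∀ᶠ n in (U : Filter ℕ), v n (x n) ≤ C :=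
  U2_vs U (fun x => ∃ C : ℝ, ∀ᶠ n in (U : Filter ℕ), v n (x n) ≤ C)
    (fun x y h ⟨C, hx⟩ => ⟨C, by
      filter_upwards [h, hx] with n h1 h2
      rwa [← h1]⟩)
    (fun x y ⟨C, hx⟩ ⟨C', hy⟩ => ⟨C + C', by
      filter_upwards [hx, hy] with n h1 h2
      exact ((v n).add_le _ _).trans (add_le_add h1 h2)⟩)
    (fun x y ⟨C, hx⟩ ⟨C', hy⟩ => ⟨C * C', by
      filter_upwards [hx, hy] with n h1 h2
      rw [map_mul]
      exact mul_le_mul h1 h2 ((v n).nonneg _) (((v n).nonneg _).trans h1)⟩)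
    (fun c => by
      obtain ⟨C, hC⟩ := exists_bound c
      exact ⟨C, Eventually.of_forall fun n => hC _ _ (hv n)⟩)
    (fun x => by
      have : (∀ᶠ n in (U : Filter ℕ), v n (x n) ≤ 1) ∨ ∀ᶠ n in (U : Filter ℕ), v n (x n)⁻¹ ≤ 1 := by
        rw [← Ultrafilter.eventually_or]
        refine Eventually.of_forall fun n => ?_
        rcases le_total (v n (x n)) 1 with h | h
        · exact Or.inl h
        · right
          rw [map_inv₀]
          exact inv_le_one_of_one_le₀ h
      exact this.imp (fun h => ⟨1, h⟩) fun h => ⟨1, h⟩)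

theorem U2_key {ι ι' : Type} [Fintype ι] [Fintype ι'] (U : Ultrafilter ℕ) (a : ℕ → ι → Qb)
    (b : ℕ → ι' → Qb) (ha : a 0 ≠ 0) (hb : b 0 ≠ 0) (v : ℕ → AbsoluteValue Qb ℝ)
    (O : ValuationSubring (UP U Qb))
    (h : vs O (fun i => gm U fun n => a n i) ≤ vs O fun j => gm U fun n => b n j) :
    ∃ z : ℕ → Qb, gm U z ∈ O ∧
      ∀ᶠ n in (U : Filter ℕ), nv (v n) (a n) ≤ v n (z n) * nv (v n) (b n) := by
  obtain ⟨i0, -⟩ := Function.ne_iff.1 ha
  obtain ⟨j0, -⟩ := Function.ne_iff.1 hb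
  have : Nonempty ι := ⟨i0⟩
  choose i hi using fun n => exists_nv_eq (v n) (a n)
  obtain ⟨k, -, hk⟩ := exists_eventually_eq U (s := Set.univ) Set.finite_univ (f := i)
    (Eventually.of_forall fun n => Set.mem_univ _)
  obtain ⟨j, -, hj⟩ := Finset.exists_mem_eq_sup (Finset.univ : Finset ι') ⟨j0, Finset.mem_univ _⟩
    fun j => O.valuation (gm U fun n => b n j)
  have h1 : O.valuation (gm U fun n => a n k) ≤ O.valuation (gm U fun n => b n j) := by
    refine le_trans ?_ (h.trans (le_of_eq hj))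
    exact Finset.le_sup (f := fun i => O.valuation (gm U fun n => a n i)) (Finset.mem_univ k)
  obtain ⟨c, hc⟩ := (O.valuation_le_iff _ _).1 h1
  obtain ⟨z, hz⟩ := gm_surj U (c : UP U Qb)
  refine ⟨z, hz ▸ c.2, ?_⟩
  rw [← hz, ← gm_mul, gm_eq_iff] at hc
  filter_upwards [hk, hc] with n h2 h3
  rw [← hi n, h2, ← h3, map_mul]
  exact mul_le_mul_of_nonneg_left (le_nv _ _ _) ((v n).nonneg _)

/-- the field of the elements whose height lies in a given growth class -/
theorem U2_field (U : Ultrafilter ℕ) (B : (ℕ → ℝ) → Prop)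
    (hm : ∀ f g, (∀ n, 0 ≤ f n) → (∀ᶠ n in (U : Filter ℕ), f n ≤ g n) → B g → B f)
    (hadd : ∀ f g, B f → B g → B fun n => f n + g n) (hcst : ∀ c, B fun _ => c) :
    ∃ F : IntermediateField Qb (UP U Qb), IsAlgClosed F ∧
      ∀ x : ℕ → Qb, gm U x ∈ F ↔ B fun n => h1 (x n) := by
  obtain ⟨S, hS⟩ := U2_sub U (fun x => B fun n => h1 (x n))
    (fun x y h hx => hm _ _ (fun n => h1_nonneg _) (h.mono fun n e => by rw [e]) hx)
    (fun x y hx hy => hm _ _ (fun n => h1_nonneg _) (Eventually.of_forall fun n => h1_add_le _ _)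
      (hadd _ _ (hadd _ _ hx hy) (hcst _)))
    (fun x y hx hy => hm _ _ (fun n => h1_nonneg _) (Eventually.of_forall fun n => h1_mul_le _ _)
      (hadd _ _ hx hy))
    (fun c => hcst _)
  have hsum : ∀ (I : Finset ℕ) (f : ℕ → ℕ → ℝ), (∀ i ∈ I, B (f i)) → B fun n => ∑ i ∈ I, f i n := by
    intro I f
    induction I using Finset.induction_on with
    | empty => exact fun _ => by simpa using hcst 0
    | insert i I hi ih =>
      intro hf
      simp only [Finset.sum_insert hi]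
      exact hadd _ _ (hf i (Finset.mem_insert_self _ _))
        (ih fun j hj => hf j (Finset.mem_insert_of_mem hj))
  let F : IntermediateField Qb (UP U Qb) := S.toIntermediateField fun z hz => by
    obtain ⟨x, rfl⟩ := gm_surj U z
    rw [← gm_inv, hS]
    simpa only [h1_inv] using (hS x).1 hz
  have hF : ∀ x : ℕ → Qb, gm U x ∈ F ↔ B fun n => h1 (x n) := hS
  refine ⟨F, IsAlgClosed.of_exists_root _ fun q hq hirr => ?_, hF⟩
  obtain ⟨z, hz⟩ := IsAlgClosed.exists_aeval_eq_zero (UP U Qb) q hirr.degree_pos.ne'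
  obtain ⟨x, rfl⟩ := gm_surj U z
  choose y hy using fun i : ℕ => gm_surj U ((q.coeff i : F) : UP U Qb)
  have hyB : ∀ i, B fun n => h1 (y i n) := fun i => (hF _).1 (hy i ▸ (q.coeff i).2)
  have e1 : ∀ᶠ n in (U : Filter ℕ), y q.natDegree n ≠ 0 := by
    rw [Ultrafilter.eventually_not, ← gm_eq_zero_iff, hy, hq.coeff_natDegree]
    simp
  have e2 : ∀ᶠ n in (U : Filter ℕ), ∑ i ∈ Finset.range (q.natDegree + 1), y i n * x n ^ i = 0 := by
    rw [← gm_eq_zero_iff, gm_sum, ← hz, Polynomial.aeval_eq_sum_range]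
    refine Finset.sum_congr rfl fun i _ => ?_
    rw [gm_mul, gm_pow, hy, Algebra.smul_def]
    rfl
  have hx : gm U x ∈ F := by
    rw [hF]
    refine hm _ _ (fun n => h1_nonneg _) ?_
      (hadd _ _ (hsum (Finset.range (q.natDegree + 1)) _ fun i _ => hyB i) (hcst (Real.log 2)))
    filter_upwards [e1, e2] with n h1n h2n
    let P : Polynomial Qb := ∑ i ∈ Finset.range (q.natDegree + 1), Polynomial.monomial i (y i n)
    have hc : ∀ i, P.coeff i = if i ∈ Finset.range (q.natDegree + 1) then y i n else 0 := by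
      intro i
      simp only [P, Polynomial.finsetSum_coeff, Polynomial.coeff_monomial]
      rw [Finset.sum_ite_eq' ]
    have hP : P ≠ 0 := fun h0 => h1n (by
      have := hc q.natDegree
      rw [h0, Polynomial.coeff_zero, if_pos (Finset.self_mem_range_succ _)] at this
      exact this.symm)
    have hr : P.IsRoot (x n) := by
      rw [Polynomial.IsRoot, Polynomial.eval_finsetSum]
      simpa only [Polynomial.eval_monomial] using h2n
    refine (h1_root_le hP hr).trans (add_le_add_left ((ht_mono fun c hc' => ?_).trans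
      (H2_ins (Finset.range (q.natDegree + 1)) fun i => y i n)) _)
    obtain ⟨i, hi, rfl⟩ := Polynomial.mem_coeffs_iff.1 hc'
    rw [Polynomial.mem_support_iff] at hi
    rw [hc] at hi ⊢
    split_ifs at hi ⊢ with h3
    · exact Finset.mem_insert_of_mem (Finset.mem_image_of_mem _ h3)
    · exact absurd rfl hi
  refine ⟨⟨_, hx⟩, (algebraMap F (UP U Qb)).injective ?_⟩
  rw [map_zero, ← hz, ← Polynomial.aeval_algebraMap_apply_eq_algebraMap_eval]
  rfl

/-- the field of elements of height `o(H)` -/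
theorem exists_small (U : Ultrafilter ℕ) (H : ℕ → ℝ) (hH : Tendsto H (U : Filter ℕ) atTop) :
    ∃ F : IntermediateField Qb (UP U Qb), IsAlgClosed F ∧
      ∀ x : ℕ → Qb, gm U x ∈ F ↔ Tendsto (fun n => h1 (x n) / H n) (U : Filter ℕ) (𝓝 0) :=
  U2_field U (fun f => Tendsto (fun n => f n / H n) (U : Filter ℕ) (𝓝 0))
    (fun f g h0 hle hg => by
      refine squeeze_zero' ?_ ?_ hg
      · filter_upwards [hH.eventually_ge_atTop 0] with n h
        exact div_nonneg (h0 n) h
      · filter_upwards [hH.eventually_ge_atTop 0, hle] with n h h'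
        exact div_le_div_of_nonneg_right h' h)
    (fun f g hf hg => by simpa only [add_div, add_zero] using hf.add hg)
    (fun c => hH.const_div_atTop c)

/-- the field of elements of height `O(H)` -/
theorem exists_fin (U : Ultrafilter ℕ) (H : ℕ → ℝ) (hH : Tendsto H (U : Filter ℕ) atTop) :
    ∃ F : IntermediateField Qb (UP U Qb), IsAlgClosed F ∧
      ∀ x : ℕ → Qb, gm U x ∈ F ↔ ∃ c : ℝ, ∀ᶠ n in (U : Filter ℕ), h1 (x n) ≤ c * H n :=
  U2_field U (fun f => ∃ c : ℝ, ∀ᶠ n in (U : Filter ℕ), f n ≤ c * H n)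
    (fun f g _ hle ⟨c, hg⟩ => ⟨c, by
      filter_upwards [hle, hg] with n h h'
      exact h.trans h'⟩)
    (fun f g ⟨c, hf⟩ ⟨c', hg⟩ => ⟨c + c', by
      filter_upwards [hf, hg] with n h h'
      rw [add_mul]
      exact add_le_add h h'⟩)
    (fun c => ⟨1, by
      filter_upwards [hH.eventually_ge_atTop c] with n h
      rwa [one_mul]⟩)

end Pool.Agent.E6b

end

section
open scoped NNReal TensorProduct IntermediateField BigOperators Classical Topology
open Filter

namespace Pool.Agent.E6b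

theorem U3_bd {ι ι' : Type} [Fintype ι] [Fintype ι'] (a : ι → Qb) {b : ι' → Qb} (hb : b ≠ 0) :
    ∃ M : ℕ, ∀ p v, IsPl p v → nv v a ≤ M * nv v b := by
  obtain ⟨j, hj⟩ := Function.ne_iff.1 hb
  choose C hC using fun i => exists_bound (a i / b j)
  refine ⟨Finset.univ.sup fun i => ⌈C i⌉₊, fun p v hv => nv_le v
    (mul_nonneg (Nat.cast_nonneg _) (nrm_nonneg _ _)) fun i => ?_⟩
  have h1 : (⌈C i⌉₊ : ℝ) ≤ ((Finset.univ.sup fun i => ⌈C i⌉₊ : ℕ) : ℝ) :=
    Nat.cast_le.2 (Finset.le_sup (f := fun i => ⌈C i⌉₊) (Finset.mem_univ i))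
  rw [← div_mul_cancel₀ (a i) hj, map_mul]
  exact mul_le_mul ((hC i p v hv).trans ((Nat.le_ceil _).trans h1)) (le_nv v b j) (v.nonneg _)
    (Nat.cast_nonneg _)

theorem U3_lg {ι ι' : Type} [Fintype ι] [Fintype ι'] (a : ι → Qb) {b : ι' → Qb} (hb : b ≠ 0) :
    ∃ M : ℕ, ∀ p v, IsPl p v → M ≤ p → nv v a ≤ nv v b := by
  obtain ⟨j, hj⟩ := Function.ne_iff.1 hb
  choose N hN using fun i => H1a_eventually_le_one (a i / b j)
  refine ⟨Finset.univ.sup N, fun p v hv hp => nv_le v (nrm_nonneg _ _) fun i => ?_⟩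
  rw [← div_mul_cancel₀ (a i) hj, map_mul]
  exact (mul_le_of_le_one_left (v.nonneg _)
    (hN i p v hv ((Finset.le_sup (Finset.mem_univ i)).trans hp))).trans (le_nv v b j)

theorem U3_best {ι ι' : Type} [Fintype ι] [Fintype ι'] {a : ι → Qb} {b : ι' → Qb} (ha : a ≠ 0)
    (hb : b ≠ 0) : ∃ p v, IsPl p v ∧ ∀ C : ℕ, (∃ q w, IsPl q w ∧ C * nv w b < nv w a) →
      C * nv v b < nv v a := by
  obtain ⟨M, hM⟩ := U3_bd a hb
  obtain ⟨v0, hv0⟩ := exists_isPl (p := 0) (Or.inl rfl)
  obtain ⟨p, v, hv, hlt⟩ := Nat.findGreatest_spec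
    (P := fun C : ℕ => ∃ q w, IsPl q w ∧ C * nv w b < nv w a) (Nat.zero_le M)
    ⟨0, v0, hv0, by
      rw [Nat.cast_zero, zero_mul]
      exact nrm_pos v0 (H2_vec_ne ha)⟩
  refine ⟨p, v, hv, fun C hC => lt_of_le_of_lt (mul_le_mul_of_nonneg_right (Nat.cast_le.2 ?_)
    (nrm_nonneg _ _)) hlt⟩
  refine Nat.le_findGreatest ?_ hC
  obtain ⟨q, w, hw, h1⟩ := hC
  exact Nat.cast_le.1 (lt_of_mul_lt_mul_right (h1.trans_le (hM q w hw)) (nrm_nonneg _ _)).le

theorem U3_last {ι ι' : Type} [Fintype ι] [Fintype ι'] (a : ι → Qb) {b : ι' → Qb} (hb : b ≠ 0) :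
    ∃ p v, IsPl p v ∧ ∀ q w, IsPl q w → nv w b < nv w a → q ≤ p ∧ nv v b < nv v a := by
  obtain ⟨M, hM⟩ := U3_lg a hb
  have hle : ∀ q w, IsPl q w → nv w b < nv w a → q ≤ M := fun q w hw h1 => by
    by_contra hn
    exact absurd (hM q w hw (not_le.1 hn).le) (not_le.2 h1)
  by_cases hex : ∃ q w, IsPl q w ∧ nv w b < nv w a
  · obtain ⟨q0, w0, hw0, h0⟩ := hex
    obtain ⟨v, hv, hlt⟩ := Nat.findGreatest_spec
      (P := fun q : ℕ => ∃ w, IsPl q w ∧ nv w b < nv w a) (hle q0 w0 hw0 h0) ⟨w0, hw0, h0⟩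
    exact ⟨_, v, hv, fun q w hw h1 => ⟨Nat.le_findGreatest (hle q w hw h1) ⟨w, hw, h1⟩, hlt⟩⟩
  · obtain ⟨v0, hv0⟩ := exists_isPl (p := 0) (Or.inl rfl)
    exact ⟨0, v0, hv0, fun q w hw h1 => absurd ⟨q, w, hw, h1⟩ hex⟩

theorem U3_core (U : Ultrafilter ℕ) {ι ι' : Type} [Fintype ι] [Fintype ι'] (a : ℕ → ι → Qb)
    (b : ℕ → ι' → Qb) (ha : ∀ n, a n ≠ 0) (hb : ∀ n, b n ≠ 0)
    (h : ∀ O : VS Qb (UP U Qb), vs O.1 (fun i => gm U fun n => a n i) ≤
      vs O.1 fun j => gm U fun n => b n j) :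
    ∃ C : ℝ, ∀ᶠ n in (U : Filter ℕ), hv (a n) ≤ hv (b n) + C := by
  have h1 : ∃ C : ℕ, ∀ᶠ n in (U : Filter ℕ), ∀ p v, IsPl p v → nv v (a n) ≤ C * nv v (b n) := by
    by_contra hn
    choose p v hv hbest using fun n => U3_best (ha n) (hb n)
    obtain ⟨O, hO⟩ := U2_vs_bdd U p v hv
    obtain ⟨z, hz, hle⟩ := U2_key U a b (ha _) (hb _) v O.1 (h O)
    obtain ⟨C, hC⟩ := (hO z).1 hz
    have h3 := Ultrafilter.eventually_not.2 fun h4 => hn ⟨⌈C⌉₊, h4⟩
    obtain ⟨n, h4, h5, h6⟩ := (hle.and (hC.and h3)).exists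
    push Not at h6
    exact absurd (hbest n _ h6) (not_lt.2 (h4.trans
      (mul_le_mul_of_nonneg_right (h5.trans (Nat.le_ceil C)) (nrm_nonneg _ _))))
  have h2 : ∃ N : ℕ, ∀ᶠ n in (U : Filter ℕ), ∀ p v, IsPl p v → N ≤ p →
      nv v (a n) ≤ nv v (b n) := by
    by_contra hn
    choose p v hv hlast using fun n => U3_last (a n) (hb n)
    have h3 : ∀ N : ℕ, ∀ᶠ n in (U : Filter ℕ), N ≤ p n ∧ nv (v n) (b n) < nv (v n) (a n) := by
      intro N
      filter_upwards [Ultrafilter.eventually_not.2 fun h4 => hn ⟨N, h4⟩] with n h5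
      push Not at h5
      obtain ⟨q, w, hw, h6, h7⟩ := h5
      exact ⟨h6.trans (hlast n q w hw h7).1, (hlast n q w hw h7).2⟩
    have hp : Tendsto p (U : Filter ℕ) atTop :=
      tendsto_atTop.2 fun N => (h3 N).mono fun n h4 => h4.1
    obtain ⟨O, hO, -⟩ := exists_vs_one U p v hv hp
    obtain ⟨z, hz, hle⟩ := U2_key U a b (ha _) (hb _) v O.1 (h O)
    obtain ⟨n, h4, h5, h6⟩ := (hle.and (((hO z).1 hz).and (h3 0))).exists
    exact absurd h6.2 (not_lt.2 (h4.trans (mul_le_of_le_one_left (nrm_nonneg _ _) h5)))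
  obtain ⟨C, hC⟩ := h1
  obtain ⟨N, hN⟩ := h2
  refine ⟨N * Real.log (C + 1), ?_⟩
  filter_upwards [hC, hN] with n hC hN
  rw [add_comm]
  refine ht_le_of_local_bad N (le_add_of_nonneg_left (Nat.cast_nonneg C)) (H2_vec_ne (ha n))
    (H2_vec_ne (hb n)) fun p v hv => ?_
  split_ifs with hp
  · exact (hC p v hv).trans (mul_le_mul_of_nonneg_right (by linarith) (nrm_nonneg _ _))
  · rw [one_mul]
    exact hN p v hv (not_lt.1 hp)

theorem U3_vs {Ω ι : Type} [Field Ω] [Fintype ι] [Nonempty ι] (O : ValuationSubring Ω) (γ : Ω)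
    (y : ι → Ω) : O.valuation γ * vs O y ≤ vs O fun j => γ * y j := by
  obtain ⟨j, -, hj⟩ := Finset.exists_mem_eq_sup (Finset.univ : Finset ι) Finset.univ_nonempty
    fun j => O.valuation (y j)
  rw [vs, hj, ← map_mul]
  exact Finset.le_sup (f := fun j => O.valuation (γ * y j)) (Finset.mem_univ j)

/-- Transfer along one ultrafilter. -/
theorem transferU (U : Ultrafilter ℕ) {ι ι' : Type} [Fintype ι] [Fintype ι'] (a : ℕ → ι → Qb)
    (b : ℕ → ι' → Qb) (ha : ∀ n, a n ≠ 0) (hb : ∀ n, b n ≠ 0) (γ : UP U Qb) (hγ : γ ≠ 0)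
    (h : ∀ O : VS Qb (UP U Qb), vs O.1 (fun i => gm U fun n => a n i) ≤
      O.1.valuation γ * vs O.1 fun j => gm U fun n => b n j) :
    ∃ C : ℝ, ∀ᶠ n in (U : Filter ℕ), hv (a n) ≤ hv (b n) + C := by
  obtain ⟨g0, rfl⟩ := gm_surj U γ
  let g : ℕ → Qb := fun n => if g0 n = 0 then 1 else g0 n
  have hg : ∀ n, g n ≠ 0 := fun n => by
    simp only [g]
    split_ifs with h0
    · exact one_ne_zero
    · exact h0
  have e : gm U g0 = gm U g := by
    rw [gm_eq_iff]
    filter_upwards [Ultrafilter.eventually_not.2 fun h0 => hγ ((gm_eq_zero_iff U g0).2 h0)]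
      with n h0
    exact (if_neg h0).symm
  obtain ⟨j0, -⟩ := Function.ne_iff.1 (hb 0)
  have : Nonempty ι' := ⟨j0⟩
  obtain ⟨C, hC⟩ := U3_core U a (fun n j => g n * b n j) ha
    (fun n h0 => hb n (funext fun j => (mul_eq_zero.1 (congrFun h0 j)).resolve_left (hg n)))
    fun O => (h O).trans (by
      rw [e]
      exact U3_vs O.1 _ _)
  refine ⟨C, hC.mono fun n h1 => ?_⟩
  rwa [hv_congr (x := fun j => g n * b n j) (y := b n) ⟨g n, hg n, fun _ => rfl⟩] at h1

end Pool.Agent.E6b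

end

section
open scoped NNReal TensorProduct IntermediateField BigOperators Classical Topology
open Filter

namespace Pool.Agent.E6b

/-- the vector `A` is (up to a scalar) the ultralimit of the nonzero vectors `a n` -/
def P4_T (U : Ultrafilter ℕ) {ι : Type} (a : ℕ → ι → Qb) (A : ι → UP U Qb) : Prop :=
  (∀ n, a n ≠ 0) ∧ Prp A fun i => gm U fun n => a n i

theorem P4_segre_ne {ι ι' K : Type} [Field K] {x : ι → K} {y : ι' → K} (hx : x ≠ 0)
    (hy : y ≠ 0) : (fun p : ι × ι' => x p.1 * y p.2) ≠ 0 := by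
  obtain ⟨i, hi⟩ := Function.ne_iff.1 hx
  obtain ⟨j, hj⟩ := Function.ne_iff.1 hy
  exact Function.ne_iff.2 ⟨(i, j), mul_ne_zero hi hj⟩

theorem P4_T_segre {U : Ultrafilter ℕ} {ι ι' : Type} {a : ℕ → ι → Qb} {A : ι → UP U Qb}
    {b : ℕ → ι' → Qb} {B : ι' → UP U Qb} (ha : P4_T U a A) (hb : P4_T U b B) :
    P4_T U (fun n (p : ι × ι') => a n p.1 * b n p.2) fun p => A p.1 * B p.2 := by
  refine ⟨fun n => P4_segre_ne (ha.1 n) (hb.1 n), ?_⟩
  obtain ⟨μ, hμ, h⟩ := ha.2
  obtain ⟨ν, hν, h'⟩ := hb.2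
  refine ⟨μ * ν, mul_ne_zero hμ hν, fun p => ?_⟩
  show A p.1 * B p.2 = μ * ν * gm U fun n => a n p.1 * b n p.2
  rw [h, h', gm_mul U (fun n => a n p.1) fun n => b n p.2]
  ring

theorem P4_T_le {U : Ultrafilter ℕ} {ι ι' : Type} [Fintype ι] [Fintype ι'] {a : ℕ → ι → Qb}
    {A : ι → UP U Qb} {b : ℕ → ι' → Qb} {B : ι' → UP U Qb} (ha : P4_T U a A) (hb : P4_T U b B)
    {γ : UP U Qb} (hγ : γ ≠ 0)
    (h : ∀ O : VS Qb (UP U Qb), vs O.1 A ≤ O.1.valuation γ * vs O.1 B) :
    ∃ C : ℝ, ∀ᶠ n in (U : Filter ℕ), hv (a n) ≤ hv (b n) + C := by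
  obtain ⟨μ, hμ, h1⟩ := ha.2
  obtain ⟨ν, hν, h2⟩ := hb.2
  refine transferU U a b ha.1 hb.1 (μ⁻¹ * γ * ν)
    (mul_ne_zero (mul_ne_zero (inv_ne_zero hμ) hγ) hν) fun O => ?_
  have h3 := h O
  rw [funext h1, funext h2, vs_smul, vs_smul] at h3
  have h4 : 0 < O.1.valuation μ := zero_lt_iff.2 ((Valuation.ne_zero_iff _).2 hμ)
  rw [map_mul, map_mul, map_inv₀, mul_assoc, mul_assoc, le_inv_mul_iff₀ h4]
  exact h3

theorem P4_T_abs {U : Ultrafilter ℕ} {ι ι' : Type} [Fintype ι] [Fintype ι'] {a : ℕ → ι → Qb}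
    {A : ι → UP U Qb} {b : ℕ → ι' → Qb} {B : ι' → UP U Qb} (ha : P4_T U a A) (hb : P4_T U b B)
    {γ : UP U Qb} (hγ : γ ≠ 0)
    (h : ∀ O : VS Qb (UP U Qb), vs O.1 A = O.1.valuation γ * vs O.1 B) :
    ∃ C : ℝ, ∀ᶠ n in (U : Filter ℕ), |hv (a n) - hv (b n)| ≤ C := by
  obtain ⟨C, hC⟩ := P4_T_le ha hb hγ fun O => (h O).le
  obtain ⟨C', hC'⟩ := P4_T_le hb ha (inv_ne_zero hγ) fun O => by
    rw [h O, map_inv₀, inv_mul_cancel_left₀ ((Valuation.ne_zero_iff _).2 hγ)]
  refine ⟨max C C', ?_⟩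
  filter_upwards [hC, hC'] with n h1 h2
  have h3 := le_max_left C C'
  have h4 := le_max_right C C'
  rw [abs_le]
  constructor <;> linarith

end Pool.Agent.E6b

end

section
open scoped NNReal TensorProduct IntermediateField BigOperators Classical Topology
open Filter

namespace Pool.Agent.E6b

/-- divided derivative -/
noncomputable def ddv {σ : Type} (j : σ) (e : ℕ) (F : MvPolynomial σ Qb) : MvPolynomial σ Qb :=
  ((e.factorial : Qb)⁻¹) • (MvPolynomial.pderiv j)^[e] F

end Pool.Agent.E6b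

end

section
open scoped NNReal TensorProduct IntermediateField BigOperators Classical Topology
open Filter

namespace Pool.Agent.E6b
open MvPolynomial

section aux
variable {σ : Type} {F G : MvPolynomial σ Qb} {p : σ → Qb}

theorem PT1_shf_mul (p : σ → Qb) (F G : MvPolynomial σ Qb) :
    shf p (F * G) = shf p F * shf p G := map_mul _ _ _

theorem PT1_coeff_zero (p : σ → Qb) (G : MvPolynomial σ Qb) : coeff 0 (shf p G) = eval p G := by
  change constantCoeff (shf p G) = eval p G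
  unfold shf
  induction G using MvPolynomial.induction_on with
  | C a => simp
  | add P Q hP hQ => simp only [map_add, hP, hQ]
  | mul_X P i hP => simp only [map_mul, hP]; simp

theorem PT1_pderiv_shf (p : σ → Qb) (j : σ) (F : MvPolynomial σ Qb) :
    shf p (pderiv j F) = pderiv j (shf p F) := by
  unfold shf
  induction F using MvPolynomial.induction_on with
  | C a => simp
  | add P Q hP hQ => simp only [map_add, hP, hQ]
  | mul_X P i hP =>
    simp only [pderiv_mul, map_add, map_mul, hP, aeval_X, pderiv_C, add_zero, pderiv_X]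
    by_cases h : i = j
    · subst h
      simp
    · simp [Pi.single_eq_of_ne h]

theorem PT1_ddv_shf (p : σ → Qb) (j : σ) (e : ℕ) (F : MvPolynomial σ Qb) :
    shf p (ddv j e F) = ddv j e (shf p F) := by
  have h : ∀ F : MvPolynomial σ Qb, shf p ((pderiv j)^[e] F) = (pderiv j)^[e] (shf p F) := by
    induction e with
    | zero => exact fun _ => rfl
    | succ e ih =>
      intro F
      rw [Function.iterate_succ_apply, Function.iterate_succ_apply, ih, PT1_pderiv_shf]
  unfold ddv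
  rw [← h]
  exact map_smul _ _ _

theorem PT1_coeff_iter (j : σ) (e : ℕ) (F : MvPolynomial σ Qb) (m : σ →₀ ℕ) :
    coeff m ((pderiv j)^[e] F) =
      coeff (m + Finsupp.single j e) F * ((m j + 1).ascFactorial e : ℕ) := by
  induction e generalizing F with
  | zero => simp
  | succ e ih =>
    rw [Function.iterate_succ_apply, ih, coeff_pderiv, Nat.ascFactorial_succ, Finsupp.single_add,
      add_assoc m]
    simp only [Finsupp.add_apply, Finsupp.single_eq_same]
    push_cast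
    ring

theorem PT1_coeff_ddv (j : σ) (e : ℕ) (F : MvPolynomial σ Qb) (m : σ →₀ ℕ) :
    coeff m (ddv j e F) = ((m j + e).choose e : ℕ) * coeff (m + Finsupp.single j e) F := by
  have h : (e.factorial : Qb) ≠ 0 := by exact_mod_cast e.factorial_ne_zero
  unfold ddv
  rw [coeff_smul, PT1_coeff_iter, Nat.ascFactorial_eq_factorial_mul_choose, smul_eq_mul]
  push_cast
  field_simp

theorem PT1_supp_ddv {j : σ} {e : ℕ} {m : σ →₀ ℕ} (h : m ∈ (ddv j e F).support) :
    m + Finsupp.single j e ∈ F.support := by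
  rw [mem_support_iff] at h ⊢
  rw [PT1_coeff_ddv] at h
  exact right_ne_zero_of_mul h

theorem PT1_not_dvd_pderiv {q : MvPolynomial σ Qb} {j : σ} (hj : j ∈ q.vars) :
    ¬ q ∣ pderiv j q := by
  obtain ⟨m, hm, hjm⟩ := (mem_vars_iff_mem_support j).1 hj
  have hm1 : 1 ≤ m j := Nat.pos_of_ne_zero (Finsupp.mem_support_iff.1 hjm)
  have h0 : pderiv j q ≠ 0 := by
    intro h
    have h1 := coeff_pderiv (i := j) q (m - Finsupp.single j 1)
    rw [h, coeff_zero, tsub_add_cancel_of_le (Finsupp.single_le_iff.2 hm1)] at h1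
    exact mul_ne_zero (mem_support_iff.1 hm) (Nat.cast_add_one_ne_zero _) h1.symm
  have h1 : (pderiv j q).degreeOf j < q.degreeOf j := by
    rw [degreeOf_lt_iff (lt_of_lt_of_le hm1 (monomial_le_degreeOf j hm))]
    intro m' hm'
    rw [mem_support_iff, coeff_pderiv] at hm'
    have h2 := monomial_le_degreeOf j (mem_support_iff.2 (left_ne_zero_of_mul hm'))
    simp only [Finsupp.add_apply, Finsupp.single_eq_same] at h2
    omega
  rintro ⟨r, hr⟩
  rw [hr] at h0
  rw [hr, degreeOf_mul_eq (left_ne_zero_of_mul h0) (right_ne_zero_of_mul h0)] at h1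
  omega

theorem PT1_iter (q G : MvPolynomial σ Qb) (j : σ) (k r : ℕ) :
    ∃ c : ℕ, c ≠ 0 ∧ ∃ R, (pderiv j)^[k] (q ^ (r + k) * G) =
      q ^ r * (c * (pderiv j q ^ k * G) + q * R) := by
  induction k generalizing r with
  | zero => exact ⟨1, one_ne_zero, 0, by simp⟩
  | succ k ih =>
    obtain ⟨c, hc, R, h⟩ := ih (r + 1)
    refine ⟨(r + 1) * c, by positivity,
      ((r : MvPolynomial σ Qb) + 1) * pderiv j q * R +
        pderiv j ((c : MvPolynomial σ Qb) * (pderiv j q ^ k * G) + q * R), ?_⟩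
    rw [Function.iterate_succ_apply', show r + (k + 1) = r + 1 + k by ring, h, pderiv_mul,
      pderiv_pow, Nat.add_sub_cancel]
    push_cast
    ring

theorem PT1_dvd {q S H : MvPolynomial σ Qb} {t t' : ℕ} (ht : t ≠ t')
    (h : q ∣ (t : Qb) • H + S) (h' : q ∣ (t' : Qb) • H + S) : q ∣ H ∧ q ∣ S := by
  have h1 : ((t : Qb) - t') ≠ 0 := sub_ne_zero.2 (by exact_mod_cast ht)
  have h2 : q ∣ ((t : Qb) - t') • H := by
    have := dvd_sub h h'
    rwa [add_sub_add_right_eq_sub, ← sub_smul] at this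
  have h3 : q ∣ H := by
    have := h2.mul_left (C ((t : Qb) - t')⁻¹)
    rwa [← smul_eq_C_mul, smul_smul, inv_mul_cancel₀ h1, one_smul] at this
  refine ⟨h3, (dvd_add_right ?_).1 h⟩
  rw [smul_eq_C_mul]
  exact h3.mul_left _

end aux
variable {σ : Type} [Fintype σ] {F G : MvPolynomial σ Qb} {p : σ → Qb} {d : σ → ℕ} {ϑ : ℝ}

theorem PT1_wt_add (d : σ → ℕ) (a b : σ →₀ ℕ) : ∑ j, ((a + b) j : ℝ) / d j =
    ∑ j, (a j : ℝ) / d j + ∑ j, (b j : ℝ) / d j := by
  simp only [Finsupp.add_apply, Nat.cast_add, add_div, Finset.sum_add_distrib]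

theorem IdxGe.mono (h : IdxGe F p d ϑ) {ϑ' : ℝ} (h' : ϑ' ≤ ϑ) : IdxGe F p d ϑ' :=
  fun m hm => h'.trans (h m hm)

theorem IdxGe.of_mul (hd : ∀ j, 0 < d j) (h : IdxGe (F * G) p d ϑ) (hG : eval p G ≠ 0) :
    IdxGe F p d ϑ := by
  intro m hm
  obtain ⟨m₀, h0, hmin⟩ := (shf p F).support.exists_min_image
    (fun m : σ →₀ ℕ => ∑ j, (m j : ℝ) / d j) ⟨m, hm⟩
  refine (h m₀ ?_).trans (hmin m hm)
  rw [mem_support_iff, PT1_shf_mul, coeff_mul, Finset.sum_eq_single (m₀, 0)]
  · rw [PT1_coeff_zero]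
    exact mul_ne_zero (mem_support_iff.1 h0) hG
  · rintro ⟨a, b⟩ hab hne
    rw [Finset.HasAntidiagonal.mem_antidiagonal] at hab
    dsimp only at hab ⊢
    have hb : b ≠ 0 := by
      rintro rfl
      exact hne (by rw [← hab, add_zero])
    obtain ⟨i, hi⟩ := Finsupp.ne_iff.1 hb
    have h1 : 0 < ∑ j, (b j : ℝ) / d j :=
      Finset.sum_pos' (fun j _ => by positivity) ⟨i, Finset.mem_univ i,
        div_pos (by exact_mod_cast Nat.pos_of_ne_zero hi) (by exact_mod_cast hd i)⟩
    refine mul_eq_zero_of_left ?_ _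
    by_contra ha
    have h2 := hmin a (mem_support_iff.2 ha)
    rw [← hab, PT1_wt_add] at h2
    linarith
  · intro hn
    exact absurd (Finset.HasAntidiagonal.mem_antidiagonal.2 (add_zero m₀)) hn

theorem IdxGe.eval_eq_zero (h : IdxGe F p d ϑ) (hϑ : 0 < ϑ) : eval p F = 0 := by
  by_contra h0
  have h1 := h 0 (by rwa [mem_support_iff, PT1_coeff_zero])
  simp at h1
  linarith

theorem IdxGe.ddv (h : IdxGe F p d ϑ) (j : σ) (e : ℕ) :
    IdxGe (ddv j e F) p d (ϑ - (e : ℝ) / d j) := by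
  intro m hm
  rw [PT1_ddv_shf] at hm
  have h1 := h _ (PT1_supp_ddv hm)
  have h2 : ∑ i, ((Finsupp.single j e : σ →₀ ℕ) i : ℝ) / d i = (e : ℝ) / d j := by
    rw [Finset.sum_eq_single j]
    · rw [Finsupp.single_eq_same]
    · intro i _ hi
      rw [Finsupp.single_eq_of_ne hi, Nat.cast_zero, zero_div]
    · intro hn
      exact absurd (Finset.mem_univ j) hn
  rw [PT1_wt_add, h2] at h1
  linarith

omit [Fintype σ] in
theorem degreeOf_ddv_le (i j : σ) (e : ℕ) : (ddv j e F).degreeOf i ≤ F.degreeOf i := by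
  rw [degreeOf_le_iff]
  intro m hm
  have h := monomial_le_degreeOf i (PT1_supp_ddv hm)
  rw [Finsupp.add_apply] at h
  omega

omit [Fintype σ] in
theorem nrm_ddv_le {q : ℕ} {v : AbsoluteValue Qb ℝ} (hv : IsPl q v) (j : σ) (e : ℕ) :
    nrm v (ddv j e F).coeffs ≤ th q (2 ^ F.degreeOf j) * nrm v F.coeffs := by
  have h0 : 0 ≤ th q (2 ^ F.degreeOf j) := by
    unfold th
    split_ifs <;> positivity
  refine nrm_le v (mul_nonneg h0 (nrm_nonneg _ _)) fun a ha => ?_
  obtain ⟨m, hm, rfl⟩ := mem_coeffs_iff.1 ha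
  have h1 := PT1_supp_ddv hm
  have h2 := monomial_le_degreeOf j h1
  rw [Finsupp.add_apply, Finsupp.single_eq_same] at h2
  rw [PT1_coeff_ddv, map_mul]
  refine mul_le_mul ((hv.natCast_le _).trans ?_)
    (le_nrm v (coeff_mem_coeffs _ (mem_support_iff.1 h1))) (v.nonneg _) h0
  unfold th
  split_ifs
  · exact_mod_cast (Nat.choose_le_two_pow _ _).trans (Nat.pow_le_pow_right two_pos h2)
  · exact le_rfl

omit [Fintype σ] in
theorem not_dvd_ddv {q : MvPolynomial σ Qb} (hq : Irreducible q) {j : σ} (hj : j ∈ q.vars)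
    {e : ℕ} (h1 : q ^ e ∣ F) (h2 : ¬ q ^ (e + 1) ∣ F) : ¬ q ∣ ddv j e F := by
  obtain ⟨G, rfl⟩ := h1
  have hG : ¬ q ∣ G := fun h => h2 (by rw [pow_succ]; exact mul_dvd_mul_left _ h)
  have hp : Prime q := hq.prime
  obtain ⟨c, hc, R, h⟩ := PT1_iter q G j e 0
  rw [zero_add, pow_zero, one_mul] at h
  intro h3
  have h4 : (e.factorial : Qb) ≠ 0 := by exact_mod_cast e.factorial_ne_zero
  have h5 := h3.mul_left (C (e.factorial : Qb))
  unfold ddv at h5
  rw [← smul_eq_C_mul, smul_smul, mul_inv_cancel₀ h4, one_smul, h,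
    dvd_add_left (dvd_mul_right q R)] at h5
  have h6 : IsUnit (c : MvPolynomial σ Qb) := by
    rw [← map_natCast (C : Qb →+* MvPolynomial σ Qb) c]
    exact (IsUnit.mk0 _ (by exact_mod_cast hc)).map C
  rcases hp.dvd_or_dvd (h6.dvd_mul_left.1 h5) with h7 | h7
  · exact PT1_not_dvd_pderiv hj (hp.dvd_of_dvd_pow h7)
  · exact hG h7

omit [Fintype σ] in
/-- a small integral combination avoiding finitely many irreducible factors -/
theorem exists_comb {ι : Type} [Fintype ι] (q H : ι → MvPolynomial σ Qb)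
    (h : ∀ i, ¬ q i ∣ H i) :
    ∃ c : ι → ℕ, (∀ i, c i ≤ Fintype.card ι) ∧ ∀ i, ¬ q i ∣ ∑ k, (c k : Qb) • H k := by
  have key : ∀ s : Finset ι, ∃ c : ι → ℕ, (∀ i, c i ≤ Fintype.card ι) ∧
      ∀ i ∈ s, ¬ q i ∣ ∑ k ∈ s, (c k : Qb) • H k := by
    intro s
    induction s using Finset.induction_on with
    | empty => exact ⟨fun _ => 0, fun _ => Nat.zero_le _, fun i hi => absurd hi (by simp)⟩
    | insert a s ha ih =>
      obtain ⟨c, hc, hs⟩ := ih
      have h1 : ∃ t ≤ Fintype.card ι, ∀ i ∈ insert a s,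
          ¬ q i ∣ (t : Qb) • H a + ∑ k ∈ s, (c k : Qb) • H k := by
        by_contra hn
        push Not at hn
        have : Nonempty ι := ⟨a⟩
        choose! f hf1 hf2 using hn
        obtain ⟨t, ht, t', ht', hne, he⟩ := Finset.exists_ne_map_eq_of_card_lt_of_maps_to
          (s := Finset.range (Fintype.card ι + 1)) (t := Finset.univ) (f := f) (by simp)
          (fun _ _ => Finset.mem_univ _)
        rw [Finset.mem_range, Nat.lt_succ_iff] at ht ht'
        have h2 := PT1_dvd hne (hf2 t ht) (he ▸ hf2 t' ht')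
        rcases Finset.mem_insert.1 (hf1 t ht) with h3 | h3
        · rw [h3] at h2
          exact h a h2.1
        · exact hs _ h3 h2.2
      obtain ⟨t, ht, h2⟩ := h1
      refine ⟨Function.update c a t, fun i => ?_, fun i hi => ?_⟩
      · by_cases hi : i = a
        · rw [hi, Function.update_self]
          exact ht
        · rw [Function.update_of_ne hi]
          exact hc i
      · rw [Finset.sum_insert ha, Function.update_self, Finset.sum_congr rfl fun k hk => by
          rw [Function.update_of_ne (ne_of_mem_of_not_mem hk ha)]]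
        exact h2 i hi
  obtain ⟨c, hc, hs⟩ := key Finset.univ
  exact ⟨c, hc, fun i => hs i (Finset.mem_univ i)⟩

end Pool.Agent.E6b

end

section
open scoped NNReal TensorProduct IntermediateField BigOperators Classical Topology
open Filter

namespace Pool.Agent.E6b
open MvPolynomial

theorem PT3_coeffs_rename {σ τ : Type} {f : σ → τ} (hf : Function.Injective f)
    (F : MvPolynomial σ Qb) : (rename f F).coeffs = F.coeffs := by
  ext c
  rw [mem_coeffs_iff, mem_coeffs_iff, support_rename_of_injective hf]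
  constructor
  · rintro ⟨n, hn, rfl⟩
    obtain ⟨m, hm, rfl⟩ := Finset.mem_image.1 hn
    exact ⟨m, hm, coeff_rename_mapDomain f hf F m⟩
  · rintro ⟨m, hm, rfl⟩
    exact ⟨_, Finset.mem_image_of_mem _ hm, (coeff_rename_mapDomain f hf F m).symm⟩

theorem PT3_hp_rename {σ τ : Type} {f : σ → τ} (hf : Function.Injective f)
    (F : MvPolynomial σ Qb) : hp (rename f F) = hp F := by
  unfold hp
  rw [PT3_coeffs_rename hf]

theorem PT3_totalDegree_le_rename {σ τ : Type} {f : σ → τ} (hf : Function.Injective f)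
    (F : MvPolynomial σ Qb) : F.totalDegree ≤ (rename f F).totalDegree := by
  refine Finset.sup_le fun m hm => ?_
  have h1 : Finsupp.mapDomain f m ∈ (rename f F).support := by
    rw [support_rename_of_injective hf]
    exact Finset.mem_image_of_mem _ hm
  have h2 := le_totalDegree h1
  rwa [Finsupp.sum_mapDomain_index (fun _ => rfl) (fun _ _ _ => rfl)] at h2

theorem PT3_vars_nonempty {σ : Type} {q : MvPolynomial σ Qb} (hq : Irreducible q) :
    q.vars.Nonempty := by
  rw [Finset.nonempty_iff_ne_empty]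
  intro h
  rw [vars_eq_empty_iff_eq_C] at h
  by_cases h0 : q.coeff 0 = 0
  · rw [h0, map_zero] at h
    exact hq.ne_zero h
  · exact hq.not_isUnit (h ▸ (IsUnit.mk0 _ h0).map C)

theorem PT3_one_le_sum {σ : Type} [Fintype σ] {q : MvPolynomial σ Qb} (hq : Irreducible q) :
    1 ≤ ∑ j, q.degreeOf j := by
  obtain ⟨j, hj⟩ := PT3_vars_nonempty hq
  have h1 : 1 ≤ q.degreeOf j := Nat.one_le_iff_ne_zero.2 (mem_vars_iff_degreeOf_ne_zero.1 hj)
  exact h1.trans (Finset.single_le_sum (f := fun j => q.degreeOf j) (fun _ _ => Nat.zero_le _)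
    (Finset.mem_univ j))

theorem PT3_split {σ : Type} [Fintype σ] (p : σ → Qb) (F : MvPolynomial σ Qb) : F ≠ 0 →
    ∃ (F0 G0 : MvPolynomial σ Qb) (s : Finset (MvPolynomial σ Qb)), F = F0 * G0 ∧
      eval p G0 ≠ 0 ∧ (∀ q ∈ s, Irreducible q ∧ q ∣ F0 ∧ eval p q = 0) ∧
      (∀ q, Irreducible q → q ∣ F0 → ∃ q' ∈ s, q' ∣ q) ∧ s.card ≤ ∑ j, F0.degreeOf j := by
  induction F using WfDvdMonoid.induction_on_irreducible with
  | zero => exact fun h => absurd rfl h
  | unit u hu =>
    intro _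
    refine ⟨1, u, ∅, (one_mul u).symm, (hu.map (eval p)).ne_zero, by simp, ?_, by simp⟩
    intro q hq h1
    exact absurd (isUnit_of_dvd_one h1) hq.not_isUnit
  | mul a i ha hi ih =>
    intro _
    obtain ⟨F0, G0, s, rfl, hG, hs, hcov, hcard⟩ := ih ha
    have hF0 : F0 ≠ 0 := left_ne_zero_of_mul ha
    by_cases hp : eval p i = 0
    · refine ⟨i * F0, G0, insert i s, by ring, hG, ?_, ?_, ?_⟩
      · intro q hq
        rcases Finset.mem_insert.1 hq with rfl | hq
        · exact ⟨hi, dvd_mul_right _ _, hp⟩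
        · exact ⟨(hs q hq).1, (hs q hq).2.1.mul_left _, (hs q hq).2.2⟩
      · intro q hq hd
        rcases hq.prime.dvd_or_dvd hd with h | h
        · exact ⟨i, Finset.mem_insert_self _ _, (hq.associated_of_dvd hi h).symm.dvd⟩
        · obtain ⟨q', h1, h2⟩ := hcov q hq h
          exact ⟨q', Finset.mem_insert_of_mem h1, h2⟩
      · have h1 : ∑ j, (i * F0).degreeOf j = ∑ j, i.degreeOf j + ∑ j, F0.degreeOf j := by
          rw [← Finset.sum_add_distrib]
          exact Finset.sum_congr rfl fun j _ => degreeOf_mul_eq hi.ne_zero hF0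
        have h2 := PT3_one_le_sum hi
        have h3 := Finset.card_insert_le i s
        omega
    · refine ⟨F0, i * G0, s, by ring, ?_, hs, hcov, hcard⟩
      rw [map_mul]
      exact mul_ne_zero hp hG

theorem PT3_exists_mult {σ : Type} {q F : MvPolynomial σ Qb} (hq : Irreducible q) (hF : F ≠ 0) :
    ∃ e : ℕ, q ^ e ∣ F ∧ ¬ q ^ (e + 1) ∣ F := by
  obtain ⟨n, a, h1, rfl⟩ := WfDvdMonoid.max_power_factor hF hq
  refine ⟨n, dvd_mul_right _ _, fun h => h1 ?_⟩
  rwa [pow_succ, mul_dvd_mul_iff_left (pow_ne_zero _ hq.ne_zero)] at h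

theorem PT3_degreeOf_comb {σ ι : Type} [Fintype ι] (c : ι → Qb) (H : ι → MvPolynomial σ Qb)
    (j : σ) (D : ℕ) (h : ∀ k, (H k).degreeOf j ≤ D) : (∑ k, c k • H k).degreeOf j ≤ D := by
  refine (degreeOf_sum_le j _ _).trans (Finset.sup_le fun k _ => ?_)
  rw [smul_eq_C_mul]
  exact (degreeOf_C_mul_le _ _ _).trans (h k)

theorem PT3_coeff_le_nrm {σ : Type} (v : AbsoluteValue Qb ℝ) (F : MvPolynomial σ Qb)
    (m : σ →₀ ℕ) : v (F.coeff m) ≤ nrm v F.coeffs := by
  by_cases h : F.coeff m = 0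
  · rw [h, map_zero]
    exact nrm_nonneg _ _
  · exact le_nrm v (coeff_mem_coeffs m h)

theorem PT3_nrm_comb {σ ι : Type} [Fintype ι] (c : ι → ℕ) (H : ι → MvPolynomial σ Qb)
    (F : MvPolynomial σ Qb) (K : ℕ) (hK : Fintype.card ι ≤ K) (hc : ∀ k, c k ≤ K)
    {q : ℕ} {v : AbsoluteValue Qb ℝ} (hv : IsPl q v)
    (h : ∀ k, nrm v (H k).coeffs ≤ th q (2 ^ K) * nrm v F.coeffs) :
    nrm v (∑ k, (c k : Qb) • H k).coeffs ≤ th q (Real.exp (3 * K)) * nrm v F.coeffs := by
  have hF := nrm_nonneg v F.coeffs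
  have hth : ∀ x : ℝ, 0 ≤ x → 0 ≤ th q x := fun x hx => by
    unfold th; split_ifs
    · exact hx
    · exact zero_le_one
  have hthm : ∀ x y : ℝ, x ≤ y → th q x ≤ th q y := fun x y hxy => by
    unfold th; split_ifs
    · exact hxy
    · exact le_rfl
  refine nrm_le v (mul_nonneg (hth _ (Real.exp_pos _).le) hF) fun a ha => ?_
  obtain ⟨m, -, rfl⟩ := mem_coeffs_iff.1 ha
  rw [coeff_sum]
  have hM : 0 ≤ th q K * (th q (2 ^ K) * nrm v F.coeffs) :=
    mul_nonneg (hth _ (Nat.cast_nonneg _)) (mul_nonneg (hth _ (by positivity)) hF)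
  refine (hv.sum_le Finset.univ _ hM fun k _ => ?_).trans ?_
  · rw [coeff_smul, smul_eq_mul, map_mul]
    refine mul_le_mul ((hv.natCast_le _).trans (hthm _ _ (by exact_mod_cast hc k)))
      ((PT3_coeff_le_nrm v _ _).trans (h k)) (v.nonneg _) (hth _ (Nat.cast_nonneg _))
  · rw [← mul_assoc, ← mul_assoc]
    refine mul_le_mul_of_nonneg_right ?_ hF
    unfold th
    split_ifs
    · have h1 : (K : ℝ) ≤ Real.exp K := by linarith [Real.add_one_le_exp (K : ℝ)]
      have h2 : (2 : ℝ) ^ K ≤ Real.exp K := by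
        rw [← Real.exp_one_pow]
        exact pow_le_pow_left₀ (by norm_num) (by linarith [Real.add_one_le_exp (1 : ℝ)]) _
      have h3 : ((Finset.univ : Finset ι).card : ℝ) ≤ K := by exact_mod_cast hK
      have h4 : Real.exp (3 * K) = Real.exp K * Real.exp K * Real.exp K := by
        rw [← Real.exp_add, ← Real.exp_add]; ring_nf
      rw [h4]
      have h5 := (Real.exp_pos (K : ℝ)).le
      gcongr
      exact h3.trans h1
    · norm_num

theorem PT3_idx_rename {σ τ : Type} [Fintype σ] [Fintype τ] (e : σ ≃ τ) {F : MvPolynomial σ Qb}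
    {p : σ → Qb} {d : σ → ℕ} {ϑ : ℝ} (h : IdxGe F p d ϑ) :
    IdxGe (rename e F) (p ∘ e.symm) (d ∘ e.symm) ϑ := by
  have h1 : shf (p ∘ e.symm) (rename e F) = rename e (shf p F) := by
    unfold shf
    rw [aeval_rename, ← AlgHom.comp_apply, comp_aeval]
    congr 2
    funext j
    simp
  intro m hm
  rw [h1, support_rename_of_injective e.injective] at hm
  obtain ⟨m', hm', rfl⟩ := Finset.mem_image.1 hm
  refine (h m' hm').trans (le_of_eq ?_)
  rw [← e.sum_comp]
  refine Finset.sum_congr rfl fun j _ => ?_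
  rw [Finsupp.mapDomain_apply e.injective]
  simp

end Pool.Agent.E6b

end

section
open scoped NNReal TensorProduct IntermediateField BigOperators Classical Topology
open Filter

namespace Pool.Agent.E6b
open MvPolynomial

/-- a variable of largest weight -/
theorem PT3_exists_var {σ : Type} (blk : σ → Bool) {q : MvPolynomial σ Qb} (hq : Irreducible q) :
    ∃ j ∈ q.vars, blk j = true → ∀ i ∈ q.vars, blk i = true := by
  by_cases h : ∃ j ∈ q.vars, blk j = false
  · obtain ⟨j, hj, hb⟩ := h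
    exact ⟨j, hj, fun h' => absurd (hb ▸ h') (by simp)⟩
  · obtain ⟨j, hj⟩ := PT3_vars_nonempty hq
    refine ⟨j, hj, fun _ i hi => ?_⟩
    by_contra h'
    exact h ⟨i, hi, by simpa using h'⟩

/-- all factors have small multiplicity: eliminate a variable -/
theorem PT3_caseB {N : ℕ} (d : Fin (N + 1) → ℕ) (hd0 : ∀ j, 0 < d j) (a : ℕ) (ha : 0 < a)
    {τ : ℝ} (hτ : 0 < τ) (hτ1 : τ ≤ 1) {F : MvPolynomial (Fin (N + 1)) Qb} (hF : F ≠ 0)
    (hd : ∀ j, F.degreeOf j ≤ a * d j) {p : Fin (N + 1) → Qb} (hi : IdxGe F p d (2 * τ))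
    (s : Finset (MvPolynomial (Fin (N + 1)) Qb))
    (hcov : ∀ q, Irreducible q → q ∣ F → ∃ q' ∈ s, q' ∣ q) (hcard : s.card ≤ ∑ j, F.degreeOf j)
    (hs : ∀ q ∈ s, ∃ (j : Fin (N + 1)) (e : ℕ), ¬ q ∣ ddv j e F ∧ (e : ℝ) ≤ τ * d j) :
    ∃ R : MvPolynomial (Fin N) Qb, R ≠ 0 ∧
      (∀ j, R.degreeOf j ≤ 2 * a ^ 2 * (d 0 * d j.succ)) ∧
      IdxGe R (fun j => p j.succ) (fun j => d 0 * d j.succ) (τ ^ 2 / 2) ∧
      hp R ≤ 2 * a * d 0 * (hp F + 6 * (∑ j, a * d j : ℕ)) := by
  choose! jj ee h1 h2 using hs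
  obtain ⟨c, hc, hnd⟩ := exists_comb (ι := s) (fun k => k.1) (fun k => ddv (jj k.1) (ee k.1) F)
    fun k => h1 k.1 k.2
  set K : ℕ := ∑ j, a * d j with hK
  have hcK : Fintype.card s ≤ K := by
    rw [Fintype.card_coe]
    exact hcard.trans (Finset.sum_le_sum fun j _ => hd j)
  obtain ⟨R, hR0, hR1, hR2, hR3⟩ := exists_elim F (∑ k : s, (c k : Qb) • ddv (jj k.1) (ee k.1) F)
    hF (fun q hq hqF hqG => by
      obtain ⟨q', hq', hdv⟩ := hcov q hq hqF
      exact hnd ⟨q', hq'⟩ (hdv.trans hqG)) p d hd0 a ha hd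
    (fun j => PT3_degreeOf_comb _ _ j _ fun k => (degreeOf_ddv_le _ _ _).trans (hd j))
    τ hτ.le hτ1 (hi.mono (by linarith))
    (IdxGe.sum _ _ _ fun k _ => (hi.ddv (jj k.1) (ee k.1)).mono (by
      have h3 : (0 : ℝ) < d (jj k.1) := by exact_mod_cast hd0 _
      have h4 : (ee k.1 : ℝ) / d (jj k.1) ≤ τ := by
        rw [div_le_iff₀ h3]; exact h2 k.1 k.2
      linarith))
    (Real.exp (3 * K)) (Real.one_le_exp (by positivity))
    (fun q v hv => PT3_nrm_comb c _ F K hcK (fun k => (hc k).trans hcK) hv fun k => by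
      refine (nrm_ddv_le hv _ _).trans (mul_le_mul_of_nonneg_right ?_ (nrm_nonneg _ _))
      unfold th
      split_ifs
      · refine pow_le_pow_right₀ (by norm_num) ((hd _).trans ?_)
        exact Finset.single_le_sum (f := fun j => a * d j) (fun _ _ => Nat.zero_le _)
          (Finset.mem_univ _)
      · exact le_rfl)
  refine ⟨R, hR0, hR1, hR2, hR3.trans (le_of_eq ?_)⟩
  have h5 : (K : ℝ) = a * ∑ j, (d j : ℝ) := by
    rw [hK, Finset.mul_sum]; push_cast; rfl
  rw [Real.log_exp, h5]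
  ring

end Pool.Agent.E6b

end

section
open scoped NNReal TensorProduct IntermediateField BigOperators Classical Topology
open Filter

namespace Pool.Agent.E6b
open MvPolynomial

theorem PT3_core (N : ℕ) : ∀ (blk : Fin N → Bool) (a : ℕ) (ϑ : ℝ), 0 < a → 0 < ϑ → ϑ ≤ 1 →
    ∃ B ρ : ℕ, ∀ d₁ d₂ : ℕ, 0 < d₂ → d₂ ≤ d₁ → ρ * d₂ ≤ d₁ →
      ∀ (F : MvPolynomial (Fin N) Qb) (p : Fin N → Qb), F ≠ 0 →
      (∀ j, F.degreeOf j ≤ a * wt blk d₁ d₂ j) → IdxGe F p (wt blk d₁ d₂) ϑ →
      ∃ (b : Bool) (q : MvPolynomial (Fin N) Qb), q ≠ 0 ∧ (∀ j ∈ q.vars, blk j = b) ∧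
        q.totalDegree ≤ B ∧ eval p q = 0 ∧
        hp q * (if b then d₂ else d₁ : ℕ) ≤ B * (hp F + d₁) := by
  induction N with
  | zero =>
    intro blk a ϑ _ hϑ _
    refine ⟨0, 0, fun d₁ d₂ _ _ _ F p hF _ hi => absurd ?_ hF⟩
    have h := hi.eval_eq_zero hϑ
    rw [eq_C_of_isEmpty F, eval_C] at h
    rw [eq_C_of_isEmpty F, h, map_zero]
  | succ N ih =>
    intro blk a ϑ ha hϑ hϑ1
    obtain ⟨τ, rfl⟩ : ∃ τ, ϑ = 2 * τ := ⟨ϑ / 2, by ring⟩
    have hτ : 0 < τ := by linarith
    obtain ⟨B', ρ', hB⟩ := ih (fun j => blk j.succ) (2 * a ^ 2) (τ ^ 2 / 2) (by positivity)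
      (by positivity) (by nlinarith)
    obtain ⟨L, hL⟩ : ∃ L : ℕ, 1 ≤ τ * L := by
      obtain ⟨L, hL⟩ := exists_nat_ge (1 / τ)
      exact ⟨L, by rwa [div_le_iff₀' hτ] at hL⟩
    set C : ℕ := 2 * a + 16 * a * ((N + 1) * a) + 1 with hC
    refine ⟨(N + 1) * (a * L) + L * (1 + 2 * (N + 1) * a) + B' * C, ρ' + (a * L + 1),
      fun d₁ d₂ h0 h12 hρ F p hF hd hi => ?_⟩
    have hρ1 : ρ' * d₂ ≤ d₁ := (Nat.mul_le_mul_right _ (Nat.le_add_right _ _)).trans hρ
    have hρ2 : (a * L + 1) * d₂ ≤ d₁ := (Nat.mul_le_mul_right _ (Nat.le_add_left _ _)).trans hρ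
    have hw0 := PT3_wt_pos blk h0 h12
    have hFd : (0 : ℝ) ≤ hp F + d₁ := add_nonneg (PT3_hp_nonneg F) (Nat.cast_nonneg _)
    obtain ⟨F0, G0, s, hFG, hG, hs, hcov, hcard⟩ := PT3_split p F hF
    have hdv : F0 ∣ F := hFG ▸ dvd_mul_right F0 G0
    have hF0 : F0 ≠ 0 := ne_zero_of_dvd_ne_zero hF hdv
    have hd0 : ∀ j, F0.degreeOf j ≤ a * wt blk d₁ d₂ j := fun j => by
      have := PT3_degreeOf_pow_dvd hF (e := 1) (q := F0) (by rwa [pow_one]) j
      rw [one_mul] at this
      exact this.trans (hd j)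
    have hi0 : IdxGe F0 p (wt blk d₁ d₂) (2 * τ) := IdxGe.of_mul hw0 (hFG ▸ hi) hG
    by_cases hA : ∀ q ∈ s, ∃ (j : Fin (N + 1)) (e : ℕ), ¬ q ∣ ddv j e F0 ∧
        (e : ℝ) ≤ τ * wt blk d₁ d₂ j
    · obtain ⟨R, hR0, hR1, hR2, hR3⟩ := PT3_caseB (wt blk d₁ d₂) hw0 a ha hτ (by linarith) hF0 hd0
        hi0 s hcov hcard hA
      set D : ℕ := wt blk d₁ d₂ 0 with hD
      have hD0 : 0 < D := hw0 0
      have hwt : wt (fun j : Fin N => blk j.succ) (D * d₁) (D * d₂) =
          fun j => D * wt blk d₁ d₂ j.succ := by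
        funext j
        simp only [wt]
        split_ifs <;> rfl
      obtain ⟨b, q, hq0, hq1, hq2, hq3, hq4⟩ := hB (D * d₁) (D * d₂) (Nat.mul_pos hD0 h0)
        (Nat.mul_le_mul_left _ h12)
        (by rw [mul_left_comm]; exact Nat.mul_le_mul_left _ hρ1) R (fun j => p j.succ) hR0
        (by rw [hwt]; exact hR1) (by rw [hwt]; exact hR2)
      have hC1 : 1 ≤ C := Nat.le_add_left _ _
      refine ⟨b, rename Fin.succ q, ?_, ?_, ?_, ?_, ?_⟩
      · exact (map_ne_zero_iff _ (rename_injective _ (Fin.succ_injective N))).2 hq0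
      · intro j hj
        obtain ⟨i, hi, rfl⟩ := mem_vars_rename _ _ hj
        exact hq1 i hi
      · refine (totalDegree_rename_le _ _).trans (hq2.trans ?_)
        exact (Nat.le_mul_of_pos_right _ hC1).trans (Nat.le_add_left _ _)
      · rw [eval_rename]
        exact hq3
      · rw [PT3_hp_rename (Fin.succ_injective N)]
        have e1 : ((if b then D * d₂ else D * d₁ : ℕ) : ℝ) =
            D * (if b then d₂ else d₁ : ℕ) := by
          cases b <;> simp
        rw [e1] at hq4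
        have hDr : (0 : ℝ) < D := by exact_mod_cast hD0
        have h1 := PT3_hp_pow_dvd hF (e := 1) (q := F0) (by rwa [pow_one])
          (fun i => a * wt blk d₁ d₂ i) hd
        have h2 : ((∑ i, a * wt blk d₁ d₂ i : ℕ) : ℝ) ≤ ((N + 1) * a : ℕ) * d₁ := by
          exact_mod_cast PT3_sum_le blk a h12
        rw [← Nat.cast_sum, Nat.cast_one, one_mul] at h1
        set K : ℝ := ((∑ i, a * wt blk d₁ d₂ i : ℕ) : ℝ)
        set M : ℝ := (((N + 1) * a : ℕ) : ℝ) with hM
        have hM0 : 0 ≤ M := Nat.cast_nonneg _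
        have ha0 : (0 : ℝ) ≤ a := Nat.cast_nonneg _
        have hd1 : (0 : ℝ) ≤ d₁ := Nat.cast_nonneg _
        have hF1 := PT3_hp_nonneg F
        have hCr : (C : ℝ) = 2 * a + 16 * a * M + 1 := by
          rw [hC, hM]; push_cast; ring
        have h3 : hp R ≤ D * (2 * a * (hp F + 8 * (M * d₁))) := by
          refine hR3.trans ?_
          rw [mul_comm (2 * (a : ℝ)) D, mul_assoc]
          exact mul_le_mul_of_nonneg_left
            (mul_le_mul_of_nonneg_left (by linarith) (by positivity)) hDr.le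
        have h4 : hp R + (D * d₁ : ℕ) ≤ D * (C * (hp F + d₁)) := by
          have h5 : 2 * a * (hp F + 8 * (M * d₁)) + d₁ ≤ C * (hp F + d₁) := by
            rw [hCr]
            nlinarith [mul_nonneg (mul_nonneg ha0 hM0) hF1, mul_nonneg ha0 hd1]
          push_cast
          nlinarith
        have h6 : D * (hp q * (if b then d₂ else d₁ : ℕ)) ≤ D * (B' * C * (hp F + d₁)) := by
          calc D * (hp q * (if b then d₂ else d₁ : ℕ))
              = hp q * (D * (if b then d₂ else d₁ : ℕ)) := by ring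
            _ ≤ B' * (hp R + (D * d₁ : ℕ)) := hq4
            _ ≤ B' * (D * (C * (hp F + d₁))) :=
              mul_le_mul_of_nonneg_left h4 (Nat.cast_nonneg _)
            _ = _ := by ring
        refine (le_of_mul_le_mul_left h6 hDr).trans (mul_le_mul_of_nonneg_right ?_ hFd)
        exact_mod_cast Nat.le_add_left _ _
    · push Not at hA
      obtain ⟨q, hqs, hq⟩ := hA
      obtain ⟨hq1, hq2, hq3⟩ := hs q hqs
      obtain ⟨e, he1, he2⟩ := PT3_exists_mult hq1 hF0
      obtain ⟨j, hj1, hj2⟩ := PT3_exists_var blk hq1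
      obtain ⟨k1, k2, k3⟩ := PT3_caseA blk a hτ L hL h0 h12 hρ2 hF hd (he1.trans hdv) hj2
        (hq j e (not_dvd_ddv hq1 hj1 he1 he2)).le
      refine ⟨blk j, q, hq1.ne_zero, k1, ?_, hq3, ?_⟩
      · exact k2.trans ((Nat.le_add_right _ _).trans (Nat.le_add_right _ _))
      · refine k3.trans (mul_le_mul_of_nonneg_right ?_ hFd)
        exact_mod_cast (Nat.le_add_left _ _).trans (Nat.le_add_right _ _)

/-- weak product theorem, `Fin N` version -/
theorem prod_thm_fin (N : ℕ) : ∀ (blk : Fin N → Bool) (a : ℕ) (ϑ : ℝ), 0 < ϑ →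
    ∃ B ρ : ℕ, ∀ d₁ d₂ : ℕ, 0 < d₂ → d₂ ≤ d₁ → ρ * d₂ ≤ d₁ →
      ∀ (F : MvPolynomial (Fin N) Qb) (p : Fin N → Qb), F ≠ 0 →
      (∀ j, F.degreeOf j ≤ a * wt blk d₁ d₂ j) → IdxGe F p (wt blk d₁ d₂) ϑ →
      ∃ (b : Bool) (q : MvPolynomial (Fin N) Qb), q ≠ 0 ∧ (∀ j ∈ q.vars, blk j = b) ∧
        q.totalDegree ≤ B ∧ eval p q = 0 ∧
        hp q * (if b then d₂ else d₁ : ℕ) ≤ B * (hp F + d₁) := by
  intro blk a ϑ hϑ
  obtain ⟨B, ρ, h⟩ := PT3_core N blk (a + 1) (min ϑ 1) a.succ_pos (lt_min hϑ one_pos)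
    (min_le_right _ _)
  exact ⟨B, ρ, fun d₁ d₂ h0 h12 hρ F p hF hd hi => h d₁ d₂ h0 h12 hρ F p hF
    (fun j => (hd j).trans (Nat.mul_le_mul_right _ a.le_succ)) (hi.mono (min_le_left _ _))⟩

/-- weak product theorem for two blocks of variables -/
theorem prod_thm (r₁ r₂ a : ℕ) {ϑ : ℝ} (hϑ : 0 < ϑ) :
    ∃ B ρ : ℕ, ∀ d₁ d₂ : ℕ, 0 < d₂ → d₂ ≤ d₁ → ρ * d₂ ≤ d₁ →
      ∀ (F : MvPolynomial (Fin r₁ ⊕ Fin r₂) Qb) (p₁ : Fin r₁ → Qb) (p₂ : Fin r₂ → Qb), F ≠ 0 →
      (∀ j, F.degreeOf (.inl j) ≤ a * d₁) → (∀ j, F.degreeOf (.inr j) ≤ a * d₂) →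
      IdxGe F (Sum.elim p₁ p₂) (Sum.elim (fun _ => d₁) fun _ => d₂) ϑ →
      (∃ q : MvPolynomial (Fin r₁) Qb, q ≠ 0 ∧ q.totalDegree ≤ B ∧ eval p₁ q = 0 ∧
        hp q * d₁ ≤ B * (hp F + d₁)) ∨
      (∃ q : MvPolynomial (Fin r₂) Qb, q ≠ 0 ∧ q.totalDegree ≤ B ∧ eval p₂ q = 0 ∧
        hp q * d₂ ≤ B * (hp F + d₁)) := by
  set e : Fin r₁ ⊕ Fin r₂ ≃ Fin (r₁ + r₂) := finSumFinEquiv with he
  obtain ⟨B, ρ, h⟩ := prod_thm_fin (r₁ + r₂) (fun j => (e.symm j).isRight) a ϑ hϑ
  refine ⟨B, ρ, fun d₁ d₂ h0 h12 hρ F p₁ p₂ hF hd1 hd2 hi => ?_⟩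
  have hwt : wt (fun j => (e.symm j).isRight) d₁ d₂ =
      (Sum.elim (fun _ => d₁) fun _ => d₂) ∘ e.symm := by
    funext j
    obtain ⟨i, rfl⟩ := e.surjective j
    cases i <;> simp [wt]
  obtain ⟨b, q, hq0, hq1, hq2, hq3, hq4⟩ := h d₁ d₂ h0 h12 hρ (rename e F)
    (Sum.elim p₁ p₂ ∘ e.symm) ((map_ne_zero_iff _ (rename_injective _ e.injective)).2 hF)
    (fun j => by
      obtain ⟨i, rfl⟩ := e.surjective j
      rw [degreeOf_rename_of_injective e.injective, hwt]
      cases i with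
      | inl i => simpa using hd1 i
      | inr i => simpa using hd2 i) (by rw [hwt]; exact PT3_idx_rename e hi)
  rw [PT3_hp_rename e.injective] at hq4
  cases b with
  | false =>
    have hinj : Function.Injective (e ∘ Sum.inl) := e.injective.comp Sum.inl_injective
    obtain ⟨q', rfl⟩ := exists_rename_eq_of_vars_subset_range q _ hinj fun j hj => by
      obtain ⟨i, rfl⟩ := e.surjective j
      have := hq1 _ hj
      cases i with
      | inl i => exact ⟨i, rfl⟩
      | inr i => simp at this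
    refine Or.inl ⟨q', fun h0 => hq0 (by rw [h0, map_zero]),
      (PT3_totalDegree_le_rename hinj q').trans hq2, ?_, ?_⟩
    · rw [eval_rename] at hq3
      convert hq3 using 3
      funext i
      simp
    · rw [PT3_hp_rename hinj] at hq4
      simpa using hq4
  | true =>
    have hinj : Function.Injective (e ∘ Sum.inr) := e.injective.comp Sum.inr_injective
    obtain ⟨q', rfl⟩ := exists_rename_eq_of_vars_subset_range q _ hinj fun j hj => by
      obtain ⟨i, rfl⟩ := e.surjective j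
      have := hq1 _ hj
      cases i with
      | inl i => simp at this
      | inr i => exact ⟨i, rfl⟩
    refine Or.inr ⟨q', fun h0 => hq0 (by rw [h0, map_zero]),
      (PT3_totalDegree_le_rename hinj q').trans hq2, ?_, ?_⟩
    · rw [eval_rename] at hq3
      convert hq3 using 3
      funext i
      simp
    · rw [PT3_hp_rename hinj] at hq4
      simpa using hq4

end Pool.Agent.E6b

end

section
open scoped NNReal TensorProduct IntermediateField BigOperators Classical Topology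
open Filter

namespace Pool.Agent.E6b
open MvPowerSeries

theorem C3_hv_mul {ι : Type} [Fintype ι] (x y : ι → Qb) :
    hv (fun i => x i * y i) ≤ hv x + hv y := by
  by_cases h : x = 0 ∨ y = 0
  · have e : hv (fun i => x i * y i) = 0 := htSpec.zero _ fun a ha => by
      obtain ⟨i, -, rfl⟩ := Finset.mem_image.1 ha
      rcases h with h | h <;> simp [h]
    rw [e]
    exact add_nonneg (hv_nonneg x) (hv_nonneg y)
  · rw [not_or] at h
    rw [← hv_segre h.1 h.2]
    exact hv_comp_le (fun p : ι × ι => x p.1 * y p.2) fun i => (i, i)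

theorem C3_hv_prod {ι κ : Type} [Fintype ι] [Fintype κ] (y : κ → Qb) (n : ℕ)
    (μ : ι → Fin n → κ) : hv (fun i => ∏ a, y (μ i a)) ≤ n * hv y := by
  induction n with
  | zero =>
    rw [Nat.cast_zero, zero_mul, ← htSpec.single 1 one_ne_zero]
    refine ht_mono fun a ha => ?_
    obtain ⟨i, -, rfl⟩ := Finset.mem_image.1 ha
    simp
  | succ n ih =>
    simp only [Fin.prod_univ_succ]
    have a1 := C3_hv_mul (fun i => y (μ i 0)) fun i => ∏ a : Fin n, y (μ i a.succ)
    have a2 := ih fun i a => μ i a.succ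
    have a3 : hv (fun i => y (μ i 0)) ≤ hv y := hv_comp_le y fun i => μ i 0
    push_cast
    linarith

end Pool.Agent.E6b

end

section
open scoped BigOperators Classical

namespace Pool.Agent.E6b

theorem Sieg_frame {κ : Type} [Fintype κ] (U : Submodule ℝ (κ → ℝ)) :
    ∃ (ρ : ℕ) (b : Fin ρ → κ → ℝ), Module.finrank ℝ U + ρ = Fintype.card κ ∧
      (∀ l i, |b l i| ≤ 1) ∧ ∀ z : κ → ℝ, z - ∑ l, (∑ i, b l i * z i) • b l ∈ U := by
  let e : EuclideanSpace ℝ κ ≃ₗ[ℝ] (κ → ℝ) := WithLp.linearEquiv 2 ℝ (κ → ℝ)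
  let U' : Submodule ℝ (EuclideanSpace ℝ κ) := U.map e.symm.toLinearMap
  let B := stdOrthonormalBasis ℝ U'ᗮ
  refine ⟨Module.finrank ℝ U'ᗮ, fun l => e (B l : EuclideanSpace ℝ κ), ?_, ?_, ?_⟩
  · have h1 := Submodule.finrank_add_finrank_orthogonal U'
    have h2 : Module.finrank ℝ U' = Module.finrank ℝ U := LinearEquiv.finrank_map_eq e.symm U
    rw [h2] at h1
    simpa using h1
  · intro l i
    have h1 : ‖(B l : EuclideanSpace ℝ κ)‖ = 1 := B.orthonormal.1 l
    have h2 := PiLp.norm_apply_le (B l : EuclideanSpace ℝ κ) i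
    rw [h1] at h2
    simpa [e] using h2
  · intro z
    have h1 := Submodule.sub_starProjection_mem_orthogonal (K := U'ᗮ) (e.symm z)
    rw [Submodule.orthogonal_orthogonal, B.starProjection_eq_sum_rankOne] at h1
    obtain ⟨u, hu, hu'⟩ := h1
    have h3 : u = e (e.symm z - (∑ i, InnerProductSpace.rankOne ℝ (B i : EuclideanSpace ℝ κ)
        (B i : EuclideanSpace ℝ κ)) (e.symm z)) := by
      rw [← hu']; simp
    suffices h4 : z - ∑ l, (∑ i, e (B l : EuclideanSpace ℝ κ) i * z i) •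
        e (B l : EuclideanSpace ℝ κ) = u by rw [h4]; exact hu
    rw [h3, map_sub, LinearEquiv.apply_symm_apply, sum_apply, map_sum]
    congr 1
    refine Finset.sum_congr rfl fun l _ => ?_
    rw [InnerProductSpace.rankOne_apply, map_smul]
    congr 1
    simp [e, PiLp.inner_apply, mul_comm]

theorem Sieg_pigeon {κ : Type} [Fintype κ] (U : Submodule ℝ (κ → ℝ)) {d T : ℕ} {η A : ℝ}
    (hd : d ≤ Module.finrank ℝ U) (hη : 0 < η) (hA1 : 1 ≤ A) (hM : 0 < Fintype.card κ)
    (hA : 2 * (Fintype.card κ : ℝ) ^ 2 / η ≤ A)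
    (hT : A ^ Fintype.card κ < ((T : ℝ) + 1) ^ d) :
    ∃ x : κ → ℤ, x ≠ 0 ∧ (∀ i, |x i| ≤ T) ∧ ∃ u ∈ U, ∀ i, |(x i : ℝ) - u i| ≤ η := by
  obtain ⟨ρ, b, hρ, hb, hU⟩ := Sieg_frame U
  set M := Fintype.card κ with hMdef
  have hM' : (0 : ℝ) < M := by exact_mod_cast hM
  set δ := η / M with hδ
  have hδ0 : 0 < δ := by positivity
  let K : ℕ := ⌊A * T⌋₊ + 1
  let f : (κ → Fin (T + 1)) → Fin ρ → ℕ := fun y l =>
    ⌊(∑ i, b l i * ((y i : ℕ) : ℝ) + M * T) / δ⌋₊
  have hbd : ∀ (y : κ → Fin (T + 1)) l, |∑ i, b l i * ((y i : ℕ) : ℝ)| ≤ M * T := by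
    intro y l
    calc _ ≤ ∑ i, |b l i * ((y i : ℕ) : ℝ)| := Finset.abs_sum_le_sum_abs _ _
      _ ≤ ∑ _i : κ, (T : ℝ) := by
        refine Finset.sum_le_sum fun i _ => ?_
        rw [abs_mul, Nat.abs_cast]
        have h1 : ((y i : ℕ) : ℝ) ≤ T := by exact_mod_cast Nat.lt_succ_iff.mp (y i).2
        calc _ ≤ 1 * ((y i : ℕ) : ℝ) := by gcongr; exact hb l i
          _ ≤ T := by linarith
      _ = M * T := by simp [hMdef]
  have hmaps : ∀ y ∈ (Finset.univ : Finset (κ → Fin (T + 1))),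
      f y ∈ Fintype.piFinset fun _ : Fin ρ => Finset.range K := by
    intro y _
    rw [Fintype.mem_piFinset]
    intro l
    rw [Finset.mem_range, Nat.lt_succ_iff]
    refine Nat.floor_le_floor ?_
    have h1 := (abs_le.mp (hbd y l)).2
    rw [div_le_iff₀ hδ0]
    have h2 : 2 * (M : ℝ) ≤ A * δ := by
      rw [div_le_iff₀ hη] at hA
      rw [hδ, mul_div_assoc', le_div_iff₀ hM']
      nlinarith
    have h3 : (0 : ℝ) ≤ T := Nat.cast_nonneg _
    nlinarith
  have hcard : (Fintype.piFinset fun _ : Fin ρ => Finset.range K).card <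
      (Finset.univ : Finset (κ → Fin (T + 1))).card := by
    rw [Fintype.card_piFinset]
    simp only [Finset.card_range, Finset.prod_const, Finset.card_univ, Fintype.card_fin,
      Fintype.card_fun]
    have hK : (K : ℝ) ≤ A * (T + 1) := by
      have : (⌊A * T⌋₊ : ℝ) ≤ A * T := Nat.floor_le (by positivity)
      simp only [K]
      push_cast
      linarith
    have hT1 : (1 : ℝ) ≤ T + 1 := by have : (0 : ℝ) ≤ T := Nat.cast_nonneg _; linarith
    have h1 : (K : ℝ) ^ ρ < ((T : ℝ) + 1) ^ M := by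
      calc (K : ℝ) ^ ρ ≤ (A * (T + 1)) ^ ρ := by gcongr
        _ = A ^ ρ * (T + 1) ^ ρ := mul_pow _ _ _
        _ ≤ A ^ M * (T + 1) ^ ρ := by
          gcongr
          omega
        _ < (T + 1) ^ d * (T + 1) ^ ρ := by gcongr
        _ = (T + 1) ^ (d + ρ) := (pow_add _ _ _).symm
        _ ≤ (T + 1) ^ M := by
          gcongr
          omega
    exact_mod_cast h1
  obtain ⟨y, -, y', -, hne, hf⟩ := Finset.exists_ne_map_eq_of_card_lt_of_maps_to hcard hmaps
  let z : κ → ℝ := fun i => ((y i : ℕ) : ℝ) - ((y' i : ℕ) : ℝ)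
  have hz : ∀ l, |∑ i, b l i * z i| ≤ δ := by
    intro l
    have h1 : f y l = f y' l := congrFun hf l
    simp only [f] at h1
    have ha := (abs_le.mp (hbd y l)).1
    have ha' := (abs_le.mp (hbd y' l)).1
    set s := ∑ i, b l i * ((y i : ℕ) : ℝ)
    set s' := ∑ i, b l i * ((y' i : ℕ) : ℝ)
    have e1 : ∑ i, b l i * z i = s - s' := by
      simp only [z, s, s', mul_sub, Finset.sum_sub_distrib]
    have p1 : 0 ≤ (s + M * T) / δ := div_nonneg (by linarith) hδ0.le
    have p2 : 0 ≤ (s' + M * T) / δ := div_nonneg (by linarith) hδ0.le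
    have q1 := Nat.floor_le p1
    have q2 := Nat.floor_le p2
    have r1 := Nat.lt_floor_add_one ((s + M * T) / δ)
    have r2 := Nat.lt_floor_add_one ((s' + M * T) / δ)
    rw [h1] at q1 r1
    have t1 : (s - s') / δ = (s + M * T) / δ - (s' + M * T) / δ := by ring
    have t2 : |(s - s') / δ| ≤ 1 := by rw [t1, abs_le]; constructor <;> linarith
    rw [abs_div, abs_of_pos hδ0, div_le_one hδ0] at t2
    rwa [e1]
  refine ⟨fun i => ((y i : ℕ) : ℤ) - ((y' i : ℕ) : ℤ), ?_, ?_, _, hU z, ?_⟩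
  · intro h
    apply hne
    funext i
    have := congrFun h i
    simp only [Pi.zero_apply] at this
    exact Fin.ext (by omega)
  · intro i
    have h1 := (y i).2
    have h2 := (y' i).2
    simp only [abs_le]
    constructor <;> omega
  · intro i
    have e1 : (((((y i : ℕ) : ℤ) - ((y' i : ℕ) : ℤ) : ℤ) : ℝ)) = z i := by simp [z]
    rw [e1]
    simp only [Pi.sub_apply, Finset.sum_apply, Pi.smul_apply, smul_eq_mul, sub_sub_cancel]
    have hρM : (ρ : ℝ) ≤ M := by exact_mod_cast (by omega : ρ ≤ M)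
    calc _ ≤ ∑ l, |(∑ j, b l j * z j) * b l i| := Finset.abs_sum_le_sum_abs _ _
      _ ≤ ∑ _l : Fin ρ, δ := by
        refine Finset.sum_le_sum fun l _ => ?_
        rw [abs_mul]
        calc _ ≤ δ * 1 := mul_le_mul (hz l) (hb l i) (abs_nonneg _) hδ0.le
          _ = δ := mul_one _
      _ = ρ * δ := by simp
      _ ≤ M * δ := by gcongr
      _ = η := by rw [hδ]; field_simp

end Pool.Agent.E6b

end

section
open scoped NNReal TensorProduct IntermediateField BigOperators Classical Topology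
open Filter

namespace Pool.Agent.E6b

theorem Sieg_rank (L : IntermediateField ℚ Qb) {ι : Type} [Fintype ι] (W : Submodule Qb (ι → Qb))
    (hW : ∀ σ : Qb ≃ₐ[ℚ] Qb, (∀ a ∈ L, σ a = a) → ∀ w ∈ W, (fun i => σ (w i)) ∈ W) :
    Module.finrank Qb W ≤ Module.finrank L (Sieg_WL L W) := by
  let b := Module.finBasis L (Sieg_WL L W)
  let v : Fin (Module.finrank L (Sieg_WL L W)) → ι → Qb := fun m i => ((b m).1 i : Qb)
  have h1 : W ≤ Submodule.span Qb (Set.range v) := by
    refine (Sieg_desc L W hW).trans (Submodule.span_le.mpr ?_)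
    rintro u ⟨hu, huL⟩
    let u' : Sieg_WL L W := ⟨fun i => ⟨u i, huL i⟩, hu⟩
    have h2 : u = ∑ m, ((b.repr u' m : L) : Qb) • v m := by
      funext i
      have h3 := congrArg (fun t : Sieg_WL L W => ((t.1 i : L) : Qb)) (b.sum_repr u')
      simp only [Submodule.coe_sum, Submodule.coe_smul, Finset.sum_apply, Pi.smul_apply,
        smul_eq_mul, IntermediateField.coe_sum, MulMemClass.coe_mul] at h3
      simp only [Finset.sum_apply, Pi.smul_apply, smul_eq_mul, v]
      exact h3.symm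
    rw [SetLike.mem_coe, h2]
    exact Submodule.sum_mem _ fun m _ => Submodule.smul_mem _ _ (Submodule.subset_span ⟨m, rfl⟩)
  refine (Submodule.finrank_mono h1).trans ?_
  simpa [Set.finrank] using finrank_range_le_card (R := Qb) v

theorem Sieg_stab (L : IntermediateField ℚ Qb) {ι : Type} [Fintype ι] (R : Set (ι → Qb))
    (hR : ∀ r ∈ R, ∀ σ : Qb ≃ₐ[ℚ] Qb, (∀ a ∈ L, σ a = a) → ∃ r' ∈ R, Prp r' fun i => σ (r i))
    (σ : Qb ≃ₐ[ℚ] Qb) (hσ : ∀ a ∈ L, σ a = a) (w : ι → Qb) (hw : w ∈ kerR R) :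
    (fun i => σ (w i)) ∈ kerR R := by
  intro r hr
  obtain ⟨r', hr', μ, hμ, e⟩ := hR r hr σ.symm (fun a ha => by
    rw [AlgEquiv.symm_apply_eq, hσ a ha])
  have h1 := hw r' hr'
  simp only [e, mul_assoc, ← Finset.mul_sum, mul_eq_zero, hμ, false_or] at h1
  have h2 := congrArg σ h1
  simpa using h2

theorem Sieg_th {p : ℕ} {v : AbsoluteValue Qb ℝ} (hv : IsPl p v) (hp : p ≠ 0) {κ : Type}
    [Fintype κ] (f : κ → Qb) {M : ℝ} (hM : 0 ≤ M) (hf : ∀ i, v (f i) ≤ M) :
    v (∑ i, f i) ≤ M := by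
  have := hv.sum_le Finset.univ f hM fun i _ => hf i
  simpa [th, hp] using this

theorem Sieg_arch {v : AbsoluteValue Qb ℝ} (hv : IsPl 0 v) :
    ∃ e : Qb →+* ℂ, ∀ x, v x = ‖e x‖ := by
  rcases hv with ⟨-, h⟩ | ⟨h, -⟩
  · exact h
  · exact absurd h Nat.not_prime_zero

theorem Sieg_single (v : AbsoluteValue Qb ℝ) (a : Qb) : nrm v {a} = v a := by
  obtain ⟨b, hb, e⟩ := exists_nrm_eq v (s := {a}) (by simp)
  rw [Finset.mem_singleton] at hb
  rw [← e, hb]

/-- Absolute Siegel lemma. -/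
theorem siegel_abs (L : IntermediateField ℚ Qb) [FiniteDimensional ℚ L] :
    ∃ c : ℝ, 0 ≤ c ∧ ∀ (ι : Type) [Fintype ι] (R : Set (ι → Qb)) (β : ℝ) (k : ℕ), 0 ≤ β → 0 < k →
      (∀ r ∈ R, hv r ≤ β) →
      (∀ r ∈ R, ∀ σ : Qb ≃ₐ[ℚ] Qb, (∀ a ∈ L, σ a = a) → ∃ r' ∈ R, Prp r' fun i => σ (r i)) →
      k ≤ Module.finrank Qb (kerR R) →
      ∃ w ∈ kerR R, w ≠ 0 ∧ hv w ≤
        (Fintype.card ι : ℝ) / k * (β + c + 3 * Real.log (Fintype.card ι)) + c := by
  obtain ⟨s, θ, hθ⟩ := FiniteDimensional.exists_is_basis_integral ℤ ℚ L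
  have hθ' : ∀ j, IsIntegral ℤ ((θ j : L) : Qb) := fun j =>
    (hθ j).map (L.val.restrictScalars ℤ)
  obtain ⟨C, hC1, hC⟩ : ∃ C : ℝ, 1 ≤ C ∧ ∀ j p v, IsPl p v → v ((θ j : L) : Qb) ≤ C := by
    choose c hc using fun j => exists_bound ((θ j : L) : Qb)
    refine ⟨1 + ∑ j, |c j|, le_add_of_nonneg_right (by positivity), fun j p v hv => ?_⟩
    have h1 : |c j| ≤ ∑ j, |c j| :=
      Finset.single_le_sum (f := fun j => |c j|) (fun _ _ => abs_nonneg _) (Finset.mem_univ j)
    linarith [hc j p v hv, le_abs_self (c j)]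
  set g := Fintype.card s with hg
  have hg0 : 0 < g := by
    rw [hg, ← Module.finrank_eq_card_basis θ]
    exact Module.finrank_pos
  have hg1 : (1 : ℝ) ≤ g := by exact_mod_cast hg0
  have hgC : 1 ≤ (g : ℝ) * C := one_le_mul_of_one_le_of_one_le hg1 hC1
  have hgC' : (g : ℝ) * C ≤ 4 * g ^ 3 * C := by
    have : (g : ℝ) ≤ 4 * g ^ 3 := by nlinarith [one_le_pow₀ (n := 2) hg1]
    gcongr
  refine ⟨Real.log (4 * g ^ 3 * C), Real.log_nonneg (hgC.trans hgC'), ?_⟩
  intro ι _ R β k hβ hk hh hR hkr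
  set N := Fintype.card ι with hN
  have hkN : k ≤ N := by
    refine hkr.trans ((Submodule.finrank_le _).trans ?_)
    simp [hN]
  have hN1 : (1 : ℝ) ≤ N := by exact_mod_cast (by omega : 1 ≤ N)
  have hk0 : (0 : ℝ) < k := by exact_mod_cast hk
  obtain ⟨U, hU1, hU2⟩ := Sieg_U L θ R
  have hd : g * k ≤ Module.finrank ℝ U :=
    (Nat.mul_le_mul_left _ (hkr.trans (Sieg_rank L _ (Sieg_stab L R hR)))).trans hU1
  have hM : Fintype.card (ι × s) = N * g := by simp [hN, hg]
  set η : ℝ := Real.exp (-β) / (2 * (N * g) * C) with hη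
  have hη0 : 0 < η := by positivity
  set A : ℝ := 4 * g ^ 3 * C * N ^ 3 * Real.exp β with hA
  have hA1 : 1 ≤ A := by
    refine one_le_mul_of_one_le_of_one_le (one_le_mul_of_one_le_of_one_le (hgC.trans hgC')
      (one_le_pow₀ hN1)) (Real.one_le_exp hβ)
  have hA0 : 0 < A := by linarith
  set X : ℝ := A ^ ((N : ℝ) / k) with hX
  have hX1 : 1 ≤ X := Real.one_le_rpow hA1 (by positivity)
  obtain ⟨x, hx0, hxT, u, hu, hxu⟩ := Sieg_pigeon U (T := ⌊X⌋₊) (A := A) hd hη0 hA1
    (by rw [hM]; exact Nat.mul_pos (by omega) hg0)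
    (by
      rw [hM, hη, hA, Real.exp_neg]
      push_cast
      field_simp
      norm_num)
    (by
      rw [hM]
      have h1 : A ^ (N * g) = X ^ (g * k) := by
        rw [hX, ← Real.rpow_natCast, ← Real.rpow_natCast, ← Real.rpow_mul hA0.le]
        congr 1
        push_cast
        field_simp
      rw [h1]
      exact pow_lt_pow_left₀ (Nat.lt_floor_add_one X) (by linarith) (by positivity))
  let w : ι → Qb := fun i => ∑ j, (x (i, j) : Qb) * ((θ j : L) : Qb)
  have hwint : ∀ i, IsIntegral ℤ (w i) := fun i =>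
    IsIntegral.sum _ fun j _ => (isIntegral_intCast _).mul (hθ' j)
  have hw0 : w ≠ 0 := by
    intro h
    apply hx0
    funext ⟨i, j⟩
    have h1 : ∑ j, ((x (i, j) : ℚ)) • θ j = 0 := by
      apply Subtype.val_injective
      have := congrFun h i
      simpa [w, Rat.smul_def] using this
    have h2 := Fintype.linearIndependent_iff.mp θ.linearIndependent _ h1 j
    simpa using h2
  refine ⟨w, ?_, hw0, ?_⟩
  · intro r hr
    by_contra ha
    have hr0 : r ≠ 0 := by
      rintro rfl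
      simp at ha
    have hc : 0 < (N * g : ℝ) * C * η := by positivity
    have h1 := ht_le_of_local1 (s := {∑ i, r i * w i}) (t := Finset.univ.image r)
      ⟨_, Finset.mem_singleton_self _, ha⟩ (H2_vec_ne hr0) 1 hc (by
        intro p v hv
        rw [Sieg_single, pow_one]
        have hnv : 0 ≤ nv v r := nrm_nonneg _ _
        change _ ≤ _ * nv v r
        by_cases hp : p = 0
        · subst hp
          obtain ⟨e, he⟩ := Sieg_arch hv
          have h2 := hU2 u hu r hr e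
          have h3 : e (∑ i, r i * w i) =
              ∑ q : ι × s, e (r q.1 * (θ q.2 : Qb)) * (((x q : ℝ) - u q : ℝ) : ℂ) := by
            simp only [Complex.ofReal_sub, mul_sub, Finset.sum_sub_distrib, h2, sub_zero]
            rw [Fintype.sum_prod_type, map_sum]
            refine Finset.sum_congr rfl fun i _ => ?_
            simp only [w, Finset.mul_sum, map_sum]
            refine Finset.sum_congr rfl fun j _ => ?_
            simp [mul_comm, mul_left_comm]
          rw [he, h3]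
          calc _ ≤ ∑ q : ι × s, ‖e (r q.1 * (θ q.2 : Qb)) * (((x q : ℝ) - u q : ℝ) : ℂ)‖ :=
                norm_sum_le _ _
            _ ≤ ∑ _q : ι × s, nv v r * C * η := by
                refine Finset.sum_le_sum fun q _ => ?_
                rw [norm_mul, ← he, map_mul, Complex.norm_real, Real.norm_eq_abs]
                have h4 := le_nv v r q.1
                have h5 := hC q.2 0 v hv
                have h6 := hxu q
                have h7 := v.nonneg (θ q.2 : Qb)
                gcongr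
            _ = _ := by
                simp only [Finset.sum_const, Finset.card_univ, hM, nsmul_eq_mul, th, if_true]
                push_cast
                ring
        · simp only [th, hp, if_false, one_mul]
          refine Sieg_th hv hp _ hnv fun i => ?_
          rw [map_mul]
          calc _ ≤ nv v r * 1 :=
                mul_le_mul (le_nv v r i) (hv.le_one_of_isIntegral hp (hwint i)) (v.nonneg _) hnv
            _ = _ := mul_one _)
    rw [htSpec.single _ ha] at h1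
    have h2 : (N * g : ℝ) * C * η = Real.exp (-β) / 2 := by
      rw [hη]; field_simp
    have h3 := hh r hr
    rw [h2, Real.log_div (Real.exp_pos _).ne' two_ne_zero, Real.log_exp] at h1
    have h4 : 0 < Real.log 2 := Real.log_pos one_lt_two
    simp only [hv] at h3
    push_cast at h1
    linarith
  · have hc : 0 < (g : ℝ) * C * X := by positivity
    have h1 := ht_le_of_local1 (s := Finset.univ.image w) (t := {1}) (H2_vec_ne hw0)
      ⟨1, Finset.mem_singleton_self _, one_ne_zero⟩ 1 hc (by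
        intro p v hv
        rw [Sieg_single, map_one, one_pow, mul_one]
        by_cases hp : p = 0
        · subst hp
          simp only [th, if_true]
          refine nv_le v hc.le fun i => ?_
          have h2 := hv.sum_le Finset.univ (fun j => (x (i, j) : Qb) * ((θ j : L) : Qb))
            (M := X * C) (by positivity) (fun j _ => by
              rw [map_mul]
              have h3 : v (x (i, j) : Qb) ≤ X := by
                have h4 := hv.eq_abs (x (i, j) : ℚ)
                simp only [Rat.cast_intCast] at h4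
                rw [h4]
                have h5 : |(x (i, j) : ℝ)| ≤ (⌊X⌋₊ : ℝ) := by exact_mod_cast hxT (i, j)
                exact h5.trans (Nat.floor_le (by linarith))
              exact mul_le_mul h3 (hC j 0 v hv) (v.nonneg _) (by linarith))
          simp only [th, if_true, Finset.card_univ] at h2
          calc _ ≤ _ := h2
            _ = _ := by rw [← hg]; ring
        · simp only [th, hp, if_false]
          exact nv_le v zero_le_one fun i => hv.le_one_of_isIntegral hp (hwint i))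
    have hlA : Real.log A = β + Real.log (4 * g ^ 3 * C) + 3 * Real.log N := by
      rw [hA, Real.log_mul (by positivity) (by positivity), Real.log_exp,
        Real.log_mul (by positivity) (by positivity), Real.log_pow]
      push_cast
      ring
    rw [htSpec.single _ one_ne_zero, mul_zero, add_zero,
      Real.log_mul (by positivity) (by positivity), hX, Real.log_rpow hA0, hlA] at h1
    have h2 : Real.log (g * C) ≤ Real.log (4 * g ^ 3 * C) := Real.log_le_log (by positivity) hgC'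
    simp only [hv]
    linarith

end Pool.Agent.E6b

end

section
open scoped NNReal TensorProduct IntermediateField BigOperators Classical Topology
open Filter

namespace Pool.Agent.E6b

/-- the linear condition attached to a pair of indices -/
noncomputable def C7row {X : Type} {N : ℕ} (β : Fin N → Qb) (ρ : X → Qb) (x x' : X) :
    X × Fin N → Qb := fun p =>
  (if p.1 = x then β p.2 * ρ x' else 0) - (if p.1 = x' then β p.2 * ρ x else 0)

theorem C7row_sum {X : Type} [Fintype X] {N : ℕ} (β : Fin N → Qb) (ρ : X → Qb) (x x' : X)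
    (w : X × Fin N → Qb) : ∑ p, C7row β ρ x x' p * w p =
      (∑ i, w (x, i) * β i) * ρ x' - (∑ i, w (x', i) * β i) * ρ x := by
  have h : ∀ (y : X) (c : Qb),
      ∑ p : X × Fin N, (if p.1 = y then β p.2 * c else 0) * w p = (∑ i, w (y, i) * β i) * c := by
    intro y c
    rw [Fintype.sum_prod_type, Finset.sum_eq_single y, Finset.sum_mul]
    · exact Finset.sum_congr rfl fun i _ => by rw [if_pos rfl]; ring
    · intro z _ hz
      exact Finset.sum_eq_zero fun i _ => by rw [if_neg hz, zero_mul]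
    · intro hy
      exact absurd (Finset.mem_univ y) hy
  simp only [C7row, sub_mul, Finset.sum_sub_distrib, h]

theorem C7_hv_zero {ι : Type} [Fintype ι] {x : ι → Qb} (h : ∀ i, x i = 0) : hv x = 0 :=
  htSpec.zero _ fun a ha => by
    obtain ⟨i, -, rfl⟩ := Finset.mem_image.1 ha
    exact h i

theorem C7_segre_le {ι ι' : Type} [Fintype ι] [Fintype ι'] (x : ι → Qb) (y : ι' → Qb) :
    hv (fun p : ι × ι' => x p.1 * y p.2) ≤ hv x + hv y := by
  by_cases hx : x = 0
  · rw [C7_hv_zero fun p => by simp [hx]]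
    exact add_nonneg (hv_nonneg x) (hv_nonneg y)
  by_cases hy : y = 0
  · rw [C7_hv_zero fun p => by simp [hy]]
    exact add_nonneg (hv_nonneg x) (hv_nonneg y)
  exact (hv_segre hx hy).le

theorem C7row_hv {X : Type} [Fintype X] {N : ℕ} (β : Fin N → Qb) (ρ : X → Qb) (x x' : X) :
    hv (C7row β ρ x x') ≤ hv β + hv ρ := by
  refine le_trans (C7_hv_le fun p v _ i => ?_) (C7_segre_le β ρ)
  have h0 : v 0 ≤ nv v fun p : Fin N × X => β p.1 * ρ p.2 := by
    rw [map_zero]; exact nrm_nonneg v _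
  rw [C7row]
  by_cases h1 : i.1 = x
  · by_cases h2 : i.1 = x'
    · rw [if_pos h1, if_pos h2, ← h1, ← h2, sub_self]
      exact h0
    · rw [if_pos h1, if_neg h2, sub_zero]
      exact le_nv v (fun p : Fin N × X => β p.1 * ρ p.2) (i.2, x')
  · by_cases h2 : i.1 = x'
    · rw [if_neg h1, if_pos h2, zero_sub, AbsoluteValue.map_neg]
      exact le_nv v (fun p : Fin N × X => β p.1 * ρ p.2) (i.2, x)
    · rw [if_neg h1, if_neg h2, sub_zero]
      exact h0

theorem C7row_gal {X : Type} {N : ℕ} {β β' : Fin N → Qb} {ρ ρ' : X → Qb} (σ : Qb ≃ₐ[ℚ] Qb)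
    (hβ : ∀ i, β' i = σ (β i)) (hρ : Prp ρ' fun x => σ (ρ x)) (x x' : X) :
    Prp (C7row β' ρ' x x') fun p => σ (C7row β ρ x x' p) := by
  obtain ⟨μ, hμ, h⟩ := hρ
  refine ⟨μ, hμ, fun p => ?_⟩
  simp only [C7row, hβ, h, map_sub, apply_ite σ, map_mul, map_zero]
  split_ifs <;> ring

/-- the twisted power of a vector -/
noncomputable def C7rho {J : Type} (ψ : J → Qb) (ζ : Qb) (a b : ℕ) (x : J × Bool) : Qb :=
  ψ x.1 ^ a * ζ ^ (if x.2 then b else 0)

theorem C7rho_hv {J : Type} [Fintype J] (ψ : J → Qb) {ζ : Qb} (hζ : ∃ n : ℕ, 0 < n ∧ ζ ^ n = 1)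
    (a b : ℕ) : hv (C7rho ψ ζ a b) ≤ a * hv ψ := by
  obtain ⟨n, hn, h⟩ := hζ
  rw [← hv_pow]
  refine C7_hv_le fun p v hp x => ?_
  rw [C7rho, map_mul, map_pow v ζ, hp.rootOfUnity hn h, one_pow, mul_one]
  exact le_nv v (fun j => ψ j ^ a) x.1

theorem C7rho_gal {J : Type} {ψ ψ' : J → Qb} (σ : Qb ≃ₐ[ℚ] Qb) (h : Prp ψ' fun j => σ (ψ j))
    (ζ : Qb) (a b : ℕ) : Prp (C7rho ψ' (σ ζ) a b) fun x => σ (C7rho ψ ζ a b x) := by
  obtain ⟨μ, hμ, h⟩ := h
  refine ⟨μ ^ a, pow_ne_zero _ hμ, fun x => ?_⟩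
  simp only [C7rho, h, map_mul, map_pow, mul_pow, mul_assoc]

end Pool.Agent.E6b

end

section
open scoped NNReal TensorProduct IntermediateField BigOperators Classical Topology
open Filter

namespace Pool.Agent.E6b

/-- the local height estimate -/
theorem C8_loc {α : Type} [Fintype α] {N : ℕ} (w : α × Fin N → Qb) (f₁ f₂ : Fin N → Qb)
    {P₁ X₁ S₁ P₂ X₂ S₂ : Finset Qb} (hP₁ : ∃ a ∈ P₁, a ≠ 0) (hX₁ : ∃ a ∈ X₁, a ≠ 0)
    (hS₁ : ∃ a ∈ S₁, a ≠ 0) (hP₂ : ∃ a ∈ P₂, a ≠ 0) (hX₂ : ∃ a ∈ X₂, a ≠ 0)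
    (hS₂ : ∃ a ∈ S₂, a ≠ 0) {A₁ A₂ c e₁ e₂ g₁ g₂ : ℕ}
    (h₁ : ∀ p v, IsPl p v → ∀ i, v (f₁ i) ≤
      nrm v P₁ ^ A₁ * nrm v X₁ ^ c * th p 2 ^ e₁ * (th p 2 * nrm v S₁) ^ g₁)
    (h₂ : ∀ p v, IsPl p v → ∀ i, v (f₂ i) ≤
      nrm v P₂ ^ A₂ * nrm v X₂ ^ c * th p 2 ^ e₂ * (th p 2 * nrm v S₂) ^ g₂)
    {y : α → Qb} (hy : ∀ x, y x = ∑ i, w (x, i) * (f₁ i * f₂ i)) (h0 : y ≠ 0) :
    hv y ≤ Real.log (N + 1) + (e₁ + g₁ + e₂ + g₂) + hv w + A₁ * ht P₁ + c * ht X₁ + g₁ * ht S₁ +
      A₂ * ht P₂ + c * ht X₂ + g₂ * ht S₂ := by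
  have hw : w ≠ 0 := by
    rintro rfl
    exact h0 (funext fun x => by simp [hy])
  have key := ht_le_of_local (r := Fin 7) (H2_vec_ne h0)
    ![Finset.univ.image w, P₁, X₁, S₁, P₂, X₂, S₂]
    (by
      intro i
      fin_cases i
      exacts [H2_vec_ne hw, hP₁, hX₁, hS₁, hP₂, hX₂, hS₂])
    (fun i => ((![1, A₁, c, g₁, A₂, c, g₂] : Fin 7 → ℕ) i : ℝ))
    (c := (N + 1) * 2 ^ (e₁ + g₁ + e₂ + g₂)) (by positivity) fun p v hp => by
      have t0 : 0 ≤ th p 2 := zero_le_one.trans (H2_one_le_th p one_le_two)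
      have t1 : th p ((N + 1) * 2 ^ (e₁ + g₁ + e₂ + g₂)) =
          th p (N + 1) * th p 2 ^ (e₁ + g₁ + e₂ + g₂) := by
        unfold th
        split_ifs <;> simp
      have t2 : th p ((Finset.univ : Finset (Fin N)).card) ≤ th p (N + 1) :=
        H2_th_mono p (by simp)
      have t3 : 0 ≤ th p (N + 1) :=
        zero_le_one.trans (H2_one_le_th p (by linarith [Nat.cast_nonneg (α := ℝ) N]))
      have n0 := nrm_nonneg v (Finset.univ.image w)
      have n1 := nrm_nonneg v P₁
      have n2 := nrm_nonneg v X₁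
      have n3 := nrm_nonneg v S₁
      have n4 := nrm_nonneg v P₂
      have n5 := nrm_nonneg v X₂
      have n6 := nrm_nonneg v S₂
      simp only [Real.rpow_natCast, Fin.prod_univ_seven, t1]
      simp only [Matrix.cons_val]
      refine nv_le v (by positivity) fun x => ?_
      rw [hy]
      refine (hp.sum_le _ _ (M := nrm v (Finset.univ.image w) *
        ((nrm v P₁ ^ A₁ * nrm v X₁ ^ c * th p 2 ^ e₁ * (th p 2 * nrm v S₁) ^ g₁) *
          (nrm v P₂ ^ A₂ * nrm v X₂ ^ c * th p 2 ^ e₂ * (th p 2 * nrm v S₂) ^ g₂)))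
        (by positivity) fun i _ => ?_).trans
        ((mul_le_mul_of_nonneg_right t2 (by positivity)).trans (le_of_eq (by ring)))
      rw [map_mul, map_mul]
      exact mul_le_mul (le_nv v w _) (mul_le_mul (h₁ p v hp i) (h₂ p v hp i) (v.nonneg _)
        (by positivity)) (by positivity) n0
  rw [Real.log_mul (by positivity) (by positivity), Real.log_pow, Fin.sum_univ_seven] at key
  simp only [Matrix.cons_val, Nat.cast_one, one_mul] at key
  have l2 : Real.log 2 ≤ 1 := by linarith [Real.log_two_lt_d9]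
  have l3 := mul_le_of_le_one_right (Nat.cast_nonneg (α := ℝ) (e₁ + g₁ + e₂ + g₂)) l2
  push_cast at key l3
  unfold hv
  linarith

theorem C8_hv_bool (u : Qb) (b : ℕ) : hv (fun ε : Bool => u ^ (if ε then b else 0)) = b * h1 u := by
  have e : (fun ε : Bool => u ^ (if ε then b else 0)) = fun ε : Bool => (if ε then u else 1) ^ b :=
    funext fun ε => by cases ε <;> simp
  rw [e, hv_pow, hv, h1]
  congr 2
  ext x
  simp [eq_comm, or_comm]

end Pool.Agent.E6b

end
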