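import Pool.Agent.E6c.A16
import Pool.Agent.E6c.A17

section
open scoped NNReal TensorProduct IntermediateField BigOperators Classical Topology
open Filter

namespace Pool.Agent.E6b

section
variable {κ F F' F'' : Type} [Field κ] [Field F] [Algebra κ F] [Field F'] [Algebra κ F']
  [Field F''] [Algebra κ F'']

/-- trace along a homomorphism -/
noncomputable def FHom.tr (φ : FHom κ F F') (x : F') : F :=
  letI := φ.f.toAlgebra
  Algebra.trace F F' x

end

end Pool.Agent.E6b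

end

section
open scoped NNReal TensorProduct IntermediateField BigOperators Classical Topology
open Filter

namespace Pool.Agent.E6b
variable {κ F F' F'' : Type} [Field κ] [IsAlgClosed κ] [CharZero κ] [Field F] [Algebra κ F]
  [IsFF κ F] [Field F'] [Algebra κ F'] [IsFF κ F'] [Field F''] [Algebra κ F''] [IsFF κ F'']
  (φ : FHom κ F F')

namespace FHom

theorem tr_add (x y : F') : φ.tr (x + y) = φ.tr x + φ.tr y := by
  let _ := φ.f.toAlgebra
  exact map_add (Algebra.trace F F') x y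

theorem tr_mul (a : F) (x : F') : φ.tr (φ.f a * x) = a * φ.tr x := by
  let _ := φ.f.toAlgebra
  exact map_smul (Algebra.trace F F') a x

theorem tr_map (a : F) : φ.tr (φ.f a) = φ.deg * a := by
  let _ := φ.f.toAlgebra
  have h : Module.finrank F F' = φ.deg :=
    Algebra.finrank_eq_of_equiv_equiv φ.f.rangeRestrictFieldEquiv (RingEquiv.refl F') rfl
  rw [← h, ← nsmul_eq_mul]
  exact Algebra.trace_algebraMap (R := F) (S := F') a

theorem tr_mem (P : Place κ F) {x : F'} (h : ∀ R, φ.res R = P → x ∈ R.O) : φ.tr x ∈ P.O := by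
  let _ := φ.f.toAlgebra
  let _ : Algebra P.O F' := (φ.f.comp P.O.subtype).toAlgebra
  have : IsScalarTower P.O F F' := IsScalarTower.of_algebraMap_eq fun _ => rfl
  have := φ.finite
  have : FiniteDimensional F F' :=
    Module.Finite.of_equiv_equiv φ.f.rangeRestrictFieldEquiv.symm (RingEquiv.refl F') (by
      ext y
      exact φ.f.rangeRestrictFieldEquiv_apply_symm_apply y)
  let B : Subalgebra κ F' :=
    { P.O.toSubring.map φ.f with
      algebraMap_mem' := fun c =>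
        ⟨_, P.const (φ.c.symm c), by rw [φ.comm, RingEquiv.apply_symm_apply]⟩ }
  have h1 : IsIntegral B x := isIntegral_of_forall_mem B fun R hR =>
    h R (Place.eq_of_le (P := P) (Q := φ.res R) fun y hy => hR (φ.f y) ⟨y, hy, rfl⟩).symm
  let e : P.O ≃+* B := P.O.toSubring.equivMapOfInjective φ.f φ.f.injective
  have h2 : IsIntegral P.O x := (e.isIntegral_iff rfl x).2 h1
  obtain ⟨y, hy⟩ := IsIntegrallyClosed.isIntegral_iff.1 (Algebra.isIntegral_trace (L := F) h2)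
  exact (show φ.tr x = y from hy.symm) ▸ y.2

end FHom

end Pool.Agent.E6b

end

section
open scoped NNReal TensorProduct IntermediateField BigOperators Classical Topology
open Filter

namespace Pool.Agent.E6b

section
variable {κ F F' E : Type} [Field κ] [IsAlgClosed κ] [CharZero κ] [Field F] [Algebra κ F] [IsFF κ F]
  [Field F'] [Algebra κ F'] [IsFF κ F'] [Field E] [Algebra κ E] [IsFF κ E]

/-- coprime sections -/
def Cop (G₁ G₂ : F' ⊗[κ] E) (N₁ N₂ : Dv κ E) : Prop :=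
  ∀ N : Dv κ E, deg N₁ + deg N₂ + 1 ≤ deg N → ∀ u ∈ LL N,
    ∃ A₁ ∈ LT F' (N - N₁), ∃ A₂ ∈ LT F' (N - N₂), A₁ * G₁ + A₂ * G₂ = 1 ⊗ₜ[κ] u

end

end Pool.Agent.E6b

end

section
open scoped NNReal TensorProduct IntermediateField BigOperators Classical Topology
open Filter

namespace Pool.Agent.E6b
variable {κ F F' E : Type} [Field κ] [IsAlgClosed κ] [CharZero κ] [Field F] [Algebra κ F] [IsFF κ F]
  [Field F'] [Algebra κ F'] [IsFF κ F'] [Field E] [Algebra κ E] [IsFF κ E] (S : Sq κ F' E F)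

namespace Sq

theorem rho_smul (c : F') (G : F' ⊗[κ] E) : S.rho (c • G) = S.p' c * S.rho G := by
  induction G using TensorProduct.induction_on with
  | zero => rw [smul_zero, map_zero, mul_zero]
  | tmul a u => rw [TensorProduct.smul_tmul', rho_tmul, rho_tmul, smul_eq_mul, map_mul, mul_assoc]
  | add x y hx hy => rw [smul_add, map_add, map_add, hx, hy, mul_add]

theorem e_one (R : Place κ F) : S.q'.e R = 1 ∨ S.q.e R = 1 := by
  rcases S.unr (tv S.t (S.q.res R)) with h | h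
  · exact Or.inl (S.e'_eq_one h)
  · rw [← S.tv_res_eq] at h
    exact Or.inr (S.e_eq_one h)

end Sq

end Pool.Agent.E6b

end

section
open scoped NNReal TensorProduct IntermediateField BigOperators Classical Topology
open Filter

namespace Pool.Agent.E6b
variable {κ F F' E : Type} [Field κ] [IsAlgClosed κ] [CharZero κ] [Field F] [Algebra κ F] [IsFF κ F]
  [Field F'] [Algebra κ F'] [IsFF κ F'] [Field E] [Algebra κ E] [IsFF κ E]

theorem deg_nonneg_of_mem_LT {N : Dv κ E} {G : F' ⊗[κ] E} (h : G ∈ LT F' N) (h0 : G ≠ 0) :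
    0 ≤ deg N := by
  by_contra hN
  rw [LT, LL_eq_bot (not_le.1 hN), Submodule.baseChange_bot] at h
  exact h0 h
variable (S : Sq κ F' E F)

namespace Sq

theorem Z_nonneg {M : Dv κ F'} {N : Dv κ E} {G : F' ⊗[κ] E} (h : G ∈ LT2 M N) (h0 : S.rho G ≠ 0) :
    0 ≤ S.Z M N G := (mem_LL_iff h0).1 (S.rho_mem_LL h)

end Sq

end Pool.Agent.E6b

end

section
open scoped NNReal TensorProduct IntermediateField BigOperators Classical Topology
open Filter

namespace Pool.Agent.E6b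

section
variable {κ F : Type} [Field κ] [IsAlgClosed κ] [CharZero κ] [Field F] [Algebra κ F] [IsFF κ F]
  (o : Place κ F) (Ω : Type) [Field Ω] [IsAlgClosed Ω] [CharZero Ω] [Algebra κ Ω]
variable {o Ω}
variable (o Ω)
variable {o Ω}

/-- class of a point -/
noncomputable def cl (y : Pt o Ω) : Cl o Ω := clD o Ω (pd (plc y))

end

end Pool.Agent.E6b

end

section
open scoped NNReal TensorProduct IntermediateField BigOperators Classical Topology
open Filter

namespace Pool.Agent.E6b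

/-- a derivation as a homomorphism to the dual numbers -/
noncomputable def Rig_hom {κ Ω L : Type} [Field κ] [Field Ω] [Field L] [Algebra κ Ω] [Algebra κ L]
    [Algebra Ω L] [IsScalarTower κ Ω L] (δ : Derivation κ Ω Ω) : Ω →ₐ[κ] TrivSqZeroExt L L where
  toFun c := TrivSqZeroExt.inl (algebraMap Ω L c) + TrivSqZeroExt.inr (algebraMap Ω L (δ c))
  map_one' := by ext <;> simp
  map_mul' a b := by ext <;> simp [mul_comm, -DualNumber.inr_eq_smul_eps]
  map_zero' := by ext <;> simp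
  map_add' a b := by ext <;> simp [-DualNumber.inr_eq_smul_eps]
  commutes' c := by
    ext <;> simp [TrivSqZeroExt.algebraMap_eq_inl', ← IsScalarTower.algebraMap_apply]

theorem Rig_of_hom {κ L : Type} [Field κ] [Field L] [Algebra κ L] (Ψ : L →ₐ[κ] TrivSqZeroExt L L)
    (h : ∀ f, (Ψ f).fst = f) : ∃ d : Derivation κ L L, ∀ f, d f = (Ψ f).snd :=
  ⟨Derivation.mk' (((TrivSqZeroExt.sndHom L L).restrictScalars κ).comp Ψ.toLinearMap)
    fun a b => by simp [h, mul_comm], fun _ => rfl⟩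

section
variable {κ F : Type} [Field κ] [IsAlgClosed κ] [CharZero κ] [Field F] [Algebra κ F] [IsFF κ F]
  {κ₀ : Type} [Field κ₀] [Algebra κ₀ F] (d : Derivation κ₀ F F) (P : Place κ F)

omit [IsAlgClosed κ] [CharZero κ] [IsFF κ F] in
theorem Rig_log_mul {f g : F} (hf : f ≠ 0) (hg : g ≠ 0) :
    d (f * g) / (f * g) = d f / f + d g / g := by
  rw [d.leibniz, smul_eq_mul, smul_eq_mul]
  field_simp
  ring

omit [IsAlgClosed κ] [CharZero κ] [IsFF κ F] in
theorem Rig_log_zpow {f : F} (hf : f ≠ 0) (n : ℤ) : d (f ^ n) / f ^ n = n * (d f / f) := by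
  rw [d.leibniz_zpow, smul_eq_mul, zsmul_eq_mul, zpow_sub_one₀ hf]
  have := zpow_ne_zero n hf
  field_simp

theorem Rig_unit (hP : ∀ f ∈ P.O, d f ∈ P.O) {f : F} (h0 : P.ord f = 0) : d f / f ∈ P.O := by
  rw [div_eq_mul_inv]
  exact mul_mem (hP f (P.mem_iff.2 h0.ge)) (P.mem_iff.2 (by rw [P.ord_inv]; omega))

theorem Rig_split (hP : ∀ f ∈ P.O, d f ∈ P.O) {π f : F} (hπ : π ≠ 0) (h1 : P.ord π = 1)
    (hf : f ≠ 0) : ∃ u ∈ P.O, d f / f = algebraMap κ F (P.ord f) * (d π / π) + u := by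
  have hz := zpow_ne_zero (P.ord f) hπ
  have hu : f / π ^ P.ord f ≠ 0 := div_ne_zero hf hz
  refine ⟨_, Rig_unit d P hP (f := f / π ^ P.ord f) ?_, ?_⟩
  · rw [P.ord_div hf hz, P.ord_zpow, h1]; ring
  · rw [map_intCast, ← Rig_log_zpow d hπ, ← Rig_log_mul d hz hu, mul_div_cancel₀ _ hz]

theorem Rig_ev_mul (hP : ∀ f ∈ P.O, d f ∈ P.O) {π h : F} (h1 : P.ord π = 1) (hh : h ∈ P.O) :
    P.ev (d (π * h)) = P.ev h * P.ev (d π) := by
  have hπ : π ∈ P.O := P.mem_iff.2 (by omega)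
  rw [d.leibniz, smul_eq_mul, smul_eq_mul,
    P.ev_add (mul_mem hπ (hP _ hh)) (mul_mem hh (hP _ hπ)), P.ev_mul hπ (hP _ hh),
    P.ev_mul hh (hP _ hπ), (P.ev_eq_zero_iff hπ).2 (Or.inr (by omega)), zero_mul, zero_add]

theorem Rig_mem_div {f s a : F} (hf : f ∈ P.O) (hs : s ∈ P.O) (h0 : P.ev s ≠ 0) (e : f * s = a)
    (ha : d a ∈ P.O) (hd : d s ∈ P.O) : d f ∈ P.O := by
  have s1 : s ≠ 0 := fun h => h0 (by rw [h, F1a_ev_zero])
  have e3 : d f = (d a - f * d s) / s := by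
    rw [eq_div_iff s1, ← e, d.leibniz, smul_eq_mul, smul_eq_mul]; ring
  rw [e3]
  exact (P.ev_div (sub_mem ha (mul_mem hf hd)) hs h0).1

omit [IsAlgClosed κ] [CharZero κ] [IsFF κ F] in
theorem Rig_log_div {a s : F} (hs : s ≠ 0) (ha : d a / a ∈ P.O) (hd : d s / s ∈ P.O) :
    d (a / s) / (a / s) ∈ P.O := by
  by_cases hf : a / s = 0
  · rw [hf, div_zero]; exact zero_mem _
  have e := Rig_log_mul d hf hs
  rw [div_mul_cancel₀ _ hs] at e
  rw [eq_sub_of_add_eq e.symm]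
  exact sub_mem ha hd

omit [IsAlgClosed κ] [CharZero κ] [IsFF κ F] in
theorem Rig_of_log (h : ∀ f, d f / f ∈ P.O) {f : F} (hf : f ∈ P.O) : d f ∈ P.O := by
  by_cases h0 : f = 0
  · rw [h0, map_zero]; exact zero_mem _
  · rw [← div_mul_cancel₀ (d f) h0]; exact mul_mem (h f) hf

theorem Rig_div_mem {f g : F} (h : g = 0 ∨ f = 0 ∨ P.ord g ≤ P.ord f) : f / g ∈ P.O := by
  by_cases hg : g = 0
  · rw [hg, div_zero]; exact zero_mem _
  by_cases hf : f = 0
  · rw [hf, zero_div]; exact zero_mem _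
  have := (h.resolve_left hg).resolve_left hf
  rw [Place.mem_iff, Place.ord_div _ hf hg]
  omega

theorem Rig_case1 (hP : ∀ f ∈ P.O, d f ∈ P.O)
    (h : ∀ f ∈ P.O, ∃ a s, s ∈ P.O ∧ P.ev s ≠ 0 ∧ f * s = a ∧ (P.ev a = 0 → P.ev (d a) = 0))
    {f : F} (hf : f ≠ 0) : d f / f ∈ P.O := by
  obtain ⟨π, hπ, h1⟩ := P.exists_ord_eq 1
  have hπO : π ∈ P.O := P.mem_iff.2 (by omega)
  obtain ⟨u, hu, e⟩ := Rig_split d P hP hπ h1 hf
  obtain ⟨a, s, hs, s0, rfl, h2⟩ := h π hπO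
  have e3 := h2 (by
    rw [P.ev_mul hπO hs, (P.ev_eq_zero_iff hπO).2 (Or.inr (by omega)), zero_mul])
  rw [Rig_ev_mul d P hP h1 hs] at e3
  have e4 := (P.ev_eq_zero_iff (hP _ hπO)).1 ((mul_eq_zero.1 e3).resolve_left s0)
  rw [e]
  exact add_mem (mul_mem (P.const _) (Rig_div_mem P (Or.inr (e4.imp_right fun h => by omega)))) hu

theorem Rig_case2 (hP : ∀ f ∈ P.O, d f ∈ P.O) {x : F} (hx : x ∈ P.O) (dx : d x = 0) {c : κ}
    (hc : d (algebraMap κ F (P.ev x)) = algebraMap κ F c) (c0 : c ≠ 0) {f : F} (hf : f ≠ 0)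
    (hn : P.ord f ≠ 0) : P.ord (d f / f) = -1 := by
  obtain ⟨π, hπ, h1⟩ := P.exists_ord_eq 1
  have hπO : π ∈ P.O := P.mem_iff.2 (by omega)
  obtain ⟨u, hu, e⟩ := Rig_split d P hP hπ h1 hf
  obtain ⟨g, hg⟩ : ∃ g, g = algebraMap κ F (P.ev x) - x := ⟨_, rfl⟩
  have dg : d g = algebraMap κ F c := by rw [hg, map_sub, dx, hc, sub_zero]
  have g0 : g ≠ 0 := fun h => by
    rw [h, map_zero, eq_comm, map_eq_zero] at dg
    exact c0 dg
  have gO : g ∈ P.O := hg ▸ sub_mem (P.const _) hx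
  have g1 : P.ev g = 0 := by rw [hg, P.ev_sub (P.const _) hx, Place.ev_algebraMap, sub_self]
  have g2 := ((P.ev_eq_zero_iff gO).1 g1).resolve_left g0
  have e2 := Rig_ev_mul d P hP h1 (h := g / π) (Rig_div_mem P (Or.inr (Or.inr (by omega))))
  rw [mul_div_cancel₀ _ hπ, dg, Place.ev_algebraMap] at e2
  have e3 : P.ev (d π) ≠ 0 := fun h => c0 (by rw [e2, h, mul_zero])
  rw [Ne, P.ev_eq_zero_iff (hP _ hπO), not_or] at e3
  have e4 := P.mem_iff.1 (hP _ hπO)
  have n0 : algebraMap κ F (P.ord f) ≠ 0 := by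
    rw [Ne, map_eq_zero, Int.cast_eq_zero]; exact hn
  have q0 := div_ne_zero e3.1 hπ
  have e5 : P.ord (algebraMap κ F (P.ord f) * (d π / π)) = -1 := by
    rw [Place.ord_mul _ n0 q0, Place.ord_algebraMap, Place.ord_div _ e3.1 hπ]
    omega
  have := P.mem_iff.1 hu
  rw [e, (P.ord_add_eq (mul_ne_zero n0 q0) (Or.inr (by omega))).2, e5]

end
variable {κ F : Type} [Field κ] [IsAlgClosed κ] [CharZero κ] [Field F] [Algebra κ F] [IsFF κ F]
  {o : Place κ F} {Ω : Type} [Field Ω] [IsAlgClosed Ω] [CharZero Ω] [Algebra κ Ω]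

theorem Rig_exists (δ : Derivation κ Ω Ω) : ∃ d : Derivation κ (FO o Ω) (FO o Ω),
    (∀ c, d (algebraMap Ω (FO o Ω) c) = algebraMap Ω (FO o Ω) (δ c)) ∧
      ∀ a, d (iF o Ω a) = 0 := by
  let Φ : AO o Ω →ₐ[κ] TrivSqZeroExt (FO o Ω) (FO o Ω) :=
    Algebra.TensorProduct.lift (Rig_hom δ)
      ((TrivSqZeroExt.inlAlgHom κ (FO o Ω) (FO o Ω)).comp (iF o Ω)) fun _ _ => Commute.all _ _
  have hΦ : ∀ c a, Φ (c ⊗ₜ[κ] a) = Rig_hom δ c * TrivSqZeroExt.inl (iF o Ω a) := fun _ _ => rfl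
  have h1 : ∀ f, (Φ f).fst = algebraMap _ (FO o Ω) f := by
    intro f
    induction f using TensorProduct.induction_on with
    | zero => simp
    | tmul c a => rw [hΦ, algebraMap_tmul]; simp [Rig_hom]
    | add a b ha hb => rw [map_add, map_add, TrivSqZeroExt.fst_add, ha, hb]
  have hu : ∀ s : nonZeroDivisors (AO o Ω), IsUnit (Φ s) := fun s => by
    rw [TrivSqZeroExt.isUnit_iff_isUnit_fst, h1]
    exact IsLocalization.map_units _ s
  let Ψ : FO o Ω →ₐ[κ] TrivSqZeroExt (FO o Ω) (FO o Ω) := IsLocalization.liftAlgHom hu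
  have hΨ : ∀ f, Ψ (algebraMap _ (FO o Ω) f) = Φ f := fun f => IsLocalization.lift_eq hu f
  have h2 : ∀ f, (Ψ f).fst = f := by
    intro f
    obtain ⟨a, s, hs, rfl⟩ := IsFractionRing.div_surjective (A := AO o Ω) f
    have := map_div₀ ((TrivSqZeroExt.fstHom κ (FO o Ω) (FO o Ω)).comp Ψ)
      (algebraMap _ (FO o Ω) a) (algebraMap _ (FO o Ω) s)
    refine this.trans ?_
    change (Ψ _).fst / (Ψ _).fst = _
    rw [hΨ, hΨ, h1, h1]
  obtain ⟨d, hd⟩ := Rig_of_hom Ψ h2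
  refine ⟨d, fun c => ?_, fun a => ?_⟩
  · have : algebraMap Ω (FO o Ω) c = algebraMap _ (FO o Ω) (c ⊗ₜ[κ] (1 : AA o) : AO o Ω) := by
      rw [algebraMap_tmul, map_one, mul_one]
    rw [hd, this, hΨ, hΦ]
    simp [Rig_hom, -DualNumber.inr_eq_smul_eps]
  · have : iF o Ω a = algebraMap _ (FO o Ω) ((1 : Ω) ⊗ₜ[κ] a : AO o Ω) := by
      rw [algebraMap_tmul, map_one, one_mul]
    rw [hd, this, hΨ, hΦ]
    simp

theorem Rig_top {f : AO o Ω} (hf : f ≠ 0) : ∃ i, (ebO o Ω).repr f i ≠ 0 ∧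
    (∀ j, (ebO o Ω).repr f j ≠ 0 → j ≤ i) ∧
    (oo o Ω).ord (algebraMap _ (FO o Ω) f) = - (pn o i : ℤ) := by
  have hn : ((ebO o Ω).repr f).support.Nonempty :=
    Finsupp.support_nonempty_iff.2 (by simpa using hf)
  have h1 := Finsupp.mem_support_iff.1 (Finset.max'_mem _ hn)
  have h2 : ∀ j, (ebO o Ω).repr f j ≠ 0 → j ≤ ((ebO o Ω).repr f).support.max' hn :=
    fun j hj => Finset.le_max' _ _ (Finsupp.mem_support_iff.2 hj)
  exact ⟨_, h1, h2, oo_ord h1 fun j hj => by_contra fun h => absurd (h2 j h) (not_le.2 hj)⟩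

/-- a derivation of the constants extends to the function field, trivially on `AA o` -/
theorem exists_derF (δ : Derivation κ Ω Ω) : ∃ d : Derivation κ (FO o Ω) (FO o Ω),
    (∀ c, d (algebraMap Ω (FO o Ω) c) = algebraMap Ω (FO o Ω) (δ c)) ∧ (∀ a, d (iF o Ω a) = 0) ∧
    (∀ (P : PO o Ω) (f : FO o Ω), f ∈ P.O → d f ∈ P.O) ∧
    (∀ f : FO o Ω, d f / f ∈ (oo o Ω).O) ∧
    ∀ (y : Pt o Ω) (f : FO o Ω), f ≠ 0 →
      ((∀ a, δ (y a) = 0) → d f / f ∈ (plc y).O) ∧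
      ((plc y).ord f = 0 → d f / f ∈ (plc y).O) ∧
      ((∃ a, δ (y a) ≠ 0) → (plc y).ord f ≠ 0 → (plc y).ord (d f / f) = -1) := by
  obtain ⟨d, hc, ha⟩ := Rig_exists (o := o) δ
  have hD : ∀ f : AO o Ω, d (algebraMap _ (FO o Ω) f) = algebraMap _ (FO o Ω) (Rig_D δ f) := by
    intro f
    induction f using TensorProduct.induction_on with
    | zero => simp
    | tmul c a =>
      rw [Rig_D_tmul, algebraMap_tmul, algebraMap_tmul, d.leibniz, hc, ha, smul_zero, zero_add,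
        smul_eq_mul, mul_comm]
    | add a b h1 h2 =>
      rw [RingHom.map_add, d.map_add, h1, h2, LinearMap.map_add, RingHom.map_add]
  have hA : ∀ f : AO o Ω,
      d (algebraMap _ (FO o Ω) f) / algebraMap _ (FO o Ω) f ∈ (oo o Ω).O := by
    intro f
    rw [hD]
    refine Rig_div_mem _ ?_
    by_cases hf : f = 0
    · exact Or.inl (hf ▸ RingHom.map_zero _)
    by_cases h0 : Rig_D δ f = 0
    · exact Or.inr (Or.inl (h0 ▸ RingHom.map_zero _))
    obtain ⟨i, -, hi, oi⟩ := Rig_top hf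
    obtain ⟨j, hj, -, oj⟩ := Rig_top h0
    have hji : j ≤ i := hi j fun h => hj (by rw [Rig_D_repr, h, δ.map_zero])
    have := (ebSpec o).mono.monotone hji
    refine Or.inr (Or.inr ?_)
    rw [oi, oj]
    omega
  have hoo : ∀ f : FO o Ω, d f / f ∈ (oo o Ω).O := by
    intro f
    obtain ⟨a, s, hs, rfl⟩ := IsFractionRing.div_surjective (A := AO o Ω) f
    exact Rig_log_div d _ (IsFractionRing.to_map_ne_zero_of_mem_nonZeroDivisors hs) (hA a) (hA s)
  have hO : ∀ (P : PO o Ω) (f : FO o Ω), f ∈ P.O → d f ∈ P.O := by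
    intro P f hf
    rcases eq_oo_or_plc P with rfl | ⟨y, rfl⟩
    · exact Rig_of_log d _ hoo hf
    · obtain ⟨a, s, hs, e⟩ := exists_div_plc y hf
      exact Rig_mem_div d _ hf (plc_spec y s).1 ((plc_spec y s).2.symm ▸ hs) e
        (hD a ▸ (plc_spec y _).1) (hD s ▸ (plc_spec y _).1)
  refine ⟨d, hc, ha, hO, hoo, fun y f hf => ⟨fun hy => ?_, Rig_unit d _ (hO _),
    fun ⟨a, hy⟩ hn => ?_⟩⟩
  · refine Rig_case1 d _ (hO _) (fun g hg => ?_) hf
    obtain ⟨a, s, hs, e⟩ := exists_div_plc y hg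
    refine ⟨_, _, (plc_spec y s).1, (plc_spec y s).2.symm ▸ hs, e, fun h => ?_⟩
    rw [(plc_spec y _).2] at h
    rw [hD, (plc_spec y _).2, Rig_D_ev δ hy, h, δ.map_zero]
  · exact Rig_case2 d _ (hO _) (plc_iF y a).1 (ha a) ((plc_iF y a).2.symm ▸ hc (y a)) hy hf hn

end Pool.Agent.E6b

end

section
open scoped NNReal TensorProduct IntermediateField BigOperators Classical Topology
open Filter

namespace Pool.Agent.E6b

section
variable {κ F F' : Type} [Field κ] [IsAlgClosed κ] [CharZero κ] [Field F] [Algebra κ F] [IsFF κ F]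
  [Field F'] [Algebra κ F'] [IsFF κ F']

theorem X4a_int (φ : FHom κ F F') (P : Place κ F) {x : F'} (h : ∀ R, φ.res R = P → x ∈ R.O) :
    (φ.f.comp P.O.subtype).IsIntegralElem x := by
  let _ : Algebra P.O F' := (φ.f.comp P.O.subtype).toAlgebra
  let B : Subalgebra κ F' :=
    { P.O.toSubring.map φ.f with
      algebraMap_mem' := fun c =>
        ⟨_, P.const (φ.c.symm c), by rw [φ.comm, RingEquiv.apply_symm_apply]⟩ }
  have h1 : IsIntegral B x := isIntegral_of_forall_mem B fun R hR =>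
    h R (Place.eq_of_le (P := P) (Q := φ.res R) fun y hy => hR (φ.f y) ⟨y, hy, rfl⟩).symm
  let e : P.O ≃+* B := P.O.toSubring.equivMapOfInjective φ.f φ.f.injective
  exact (e.isIntegral_iff rfl x).2 h1

theorem X4a_nil {O K L : Type} [CommRing O] [IsDomain O] [IsIntegrallyClosed O] [Field K]
    [CharZero K] [Field L] [Algebra O K] [IsFractionRing O K] [Algebra K L] [Algebra O L]
    [IsScalarTower O K L] [FiniteDimensional K L] {π : O} (hπ : algebraMap O K π ≠ 0) {x y : L}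
    (hx : IsIntegral O x) (hy : IsIntegral O y) {n : ℕ} (e : x ^ n = y * algebraMap O L π) :
    ∃ (m : ℕ) (z : O), Algebra.trace K L x ^ m = algebraMap O K z * algebraMap O K π := by
  let E := AlgebraicClosure K
  let I : Ideal (integralClosure O E) := Ideal.span {algebraMap O _ π}
  have h1 : ∀ σ : L →ₐ[K] E, (⟨σ x, hx.map (σ.restrictScalars O)⟩ : integralClosure O E) ∈
      I.radical := fun σ => ⟨n, Ideal.mem_span_singleton'.2
        ⟨⟨σ y, hy.map (σ.restrictScalars O)⟩, Subtype.ext (by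
          have := congrArg (σ.restrictScalars O) e
          rw [map_pow, map_mul, AlgHom.commutes] at this
          exact this.symm)⟩⟩
  obtain ⟨m, hm⟩ := I.radical.sum_mem fun σ (_ : σ ∈ Finset.univ) => h1 σ
  obtain ⟨c, hc⟩ := Ideal.mem_span_singleton'.1 hm
  have h2 := congrArg (integralClosure O E).val hc
  rw [map_mul, map_pow, map_sum, AlgHom.commutes] at h2
  have h3 : (c : E) * algebraMap O E π = algebraMap K E (Algebra.trace K L x) ^ m := by
    rw [trace_eq_sum_embeddings E]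
    exact h2
  have h4 : (c : E) = algebraMap K E (Algebra.trace K L x ^ m / algebraMap O K π) := by
    rw [map_div₀, map_pow, ← h3, IsScalarTower.algebraMap_apply O K E,
      mul_div_cancel_right₀ _ ((map_ne_zero _).2 hπ)]
  have h5 : IsIntegral O (c : E) := c.2
  rw [h4, isIntegral_algebraMap_iff (algebraMap K E).injective] at h5
  obtain ⟨z, hz⟩ := IsIntegrallyClosed.isIntegral_iff.1 h5
  exact ⟨m, z, by rw [hz, div_mul_cancel₀ _ hπ]⟩

/-- the trace of a function vanishing at all places above `P` vanishes at `P` -/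
theorem FHom.tr_ord_pos (φ : FHom κ F F') (P : Place κ F) {x : F'}
    (h : ∀ R, φ.res R = P → x = 0 ∨ 0 < R.ord x) : φ.tr x = 0 ∨ 0 < P.ord (φ.tr x) := by
  let _ := φ.f.toAlgebra
  let _ : Algebra P.O F' := (φ.f.comp P.O.subtype).toAlgebra
  have : IsScalarTower P.O F F' := IsScalarTower.of_algebraMap_eq fun _ => rfl
  have := φ.finite
  have : FiniteDimensional F F' :=
    Module.Finite.of_equiv_equiv φ.f.rangeRestrictFieldEquiv.symm (RingEquiv.refl F') (by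
      ext y
      exact φ.f.rangeRestrictFieldEquiv_apply_symm_apply y)
  have : CharZero F := charZero_of_injective_algebraMap (algebraMap κ F).injective
  obtain ⟨π, hπ, h1⟩ := P.exists_ord_eq 1
  have hm : π ∈ P.O := P.mem_iff.2 (by omega)
  have hπ' : φ.f π ≠ 0 := (map_ne_zero _).2 hπ
  have hx : IsIntegral P.O x := X4a_int φ P fun R hR => by
    rcases h R hR with e | e
    · exact e ▸ zero_mem _
    · exact R.mem_iff.2 e.le
  have hy : IsIntegral P.O (x ^ φ.deg / φ.f π) := X4a_int φ P fun R hR => by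
    refine Rig_div_mem R (Or.inr ?_)
    refine (h R hR).imp (fun e => by rw [e, zero_pow φ.deg_pos.ne']) fun e => ?_
    have h2 : φ.e R ≤ φ.deg := φ.sum_e P ▸
      Finset.single_le_sum (f := φ.e) (fun _ _ => Nat.zero_le _) (φ.mem_fib.2 hR)
    rw [φ.ord_map, hR, h1, R.ord_pow]
    exact mul_le_mul (Int.ofNat_le.2 h2) e zero_le_one (Int.natCast_nonneg _)
  obtain ⟨m, z, hz⟩ := X4a_nil (K := F) (π := (⟨π, hm⟩ : P.O)) hπ hx hy
    (div_mul_cancel₀ _ hπ').symm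
  have h3 : P.O.valuation (φ.tr x ^ m) < 1 := by
    have h4 := F1a_val_mul_lt P (P.valuation_lt_one_iff.2 (Or.inr (by omega : 0 < P.ord π))) z.2
    rw [mul_comm] at h4
    exact (congrArg P.O.valuation hz).trans_lt h4
  rw [map_pow] at h3
  exact P.valuation_lt_one_iff.1 (lt_of_not_ge fun e => not_le.2 h3 (one_le_pow₀ e))

theorem X4a_one {T : F} (hT : T ∉ (algebraMap κ F).range) (h : κ⟮T⟯ = ⊤)
    (S : Finset (Place κ F)) (hS : ∀ P ∈ S, 0 < P.ord T) : ∑ P ∈ S, P.ord T ≤ 1 := by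
  have := F1_sum_ord_le hT S hS
  rwa [h, IntermediateField.finrank_top, Nat.cast_one] at this

theorem X4a_lin {T g : F} (hT : T ∉ (algebraMap κ F).range) (h : κ⟮T⟯ = ⊤)
    (h1 : ∀ P : Place κ F, T ∈ P.O → g ∈ P.O)
    (h2 : ∀ P : Place κ F, T ∉ P.O → g / T ^ 2 = 0 ∨ 0 < P.ord (g / T ^ 2)) :
    ∃ c0 c1 : κ, g = algebraMap κ F c0 + algebraMap κ F c1 * T := by
  have T0 : T ≠ 0 := fun e => hT ⟨0, by rw [map_zero, e]⟩
  have hT' : T⁻¹ ∉ (algebraMap κ F).range := fun ⟨c, hc⟩ =>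
    hT ⟨c⁻¹, by rw [map_inv₀, hc, inv_inv]⟩
  have h' : κ⟮T⁻¹⟯ = ⊤ := top_le_iff.1 (h ▸ IntermediateField.adjoin_simple_le_iff.2
    (by simpa using inv_mem (IntermediateField.mem_adjoin_simple_self κ T⁻¹)))
  obtain ⟨P0, hP0⟩ := exists_place_ev hT 0
  rw [map_zero, sub_zero] at hP0
  obtain ⟨c, hc⟩ := mem_range_of_forall_mem (κ := κ)
    (f := (g - algebraMap κ F (P0.ev g)) / T) fun P => by
      rcases lt_trichotomy (P.ord T) 0 with e | e | e
      · have h3 := X4a_one hT' h' {P} (by simpa [P.ord_inv] using e)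
        rw [Finset.sum_singleton, P.ord_inv] at h3
        rw [sub_div]
        refine sub_mem (Rig_div_mem P (Or.inr ?_))
          (Rig_div_mem P (Or.inr (Or.inr (by rw [P.ord_algebraMap]; omega))))
        by_cases g0 : g = 0
        · exact Or.inl g0
        · have h4 := (h2 P fun h5 => absurd (P.mem_iff.1 h5) (by omega)).resolve_left
            (div_ne_zero g0 (pow_ne_zero 2 T0))
          rw [P.ord_div g0 (pow_ne_zero 2 T0), P.ord_pow] at h4
          exact Or.inr (by omega)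
      · exact Rig_div_mem P (Or.inr (Or.inr (e.le.trans (P.mem_iff.1
          (sub_mem (h1 P (P.mem_iff.2 e.ge)) (P.const _))))))
      · obtain rfl : P = P0 := by
          by_contra h3
          have h4 := X4a_one hT h {P, P0} (by simp [e, hP0])
          rw [Finset.sum_pair h3] at h4
          omega
        have h3 := X4a_one hT h {P} (by simpa using e)
        rw [Finset.sum_singleton] at h3
        exact Rig_div_mem P (Or.inr ((P.ev_spec (h1 P (P.mem_iff.2 e.le))).imp sub_eq_zero.2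
          fun h4 => by omega))
  exact ⟨P0.ev g, c, by rw [hc, div_mul_cancel₀ _ T0, add_sub_cancel]⟩

theorem X4a_three {A B a b c : κ} (hns : B * (4 * A ^ 3 + 27 * B) ≠ 0)
    (h : ∀ e : κ, e ^ 3 + A * e ^ 2 + B = 0 → a * e ^ 2 + b * e + c = 0) :
    a = 0 ∧ b = 0 ∧ c = 0 := by
  let Q : Cubic κ := ⟨1, A, 0, B⟩
  have ha : Q.a ≠ 0 := one_ne_zero
  obtain ⟨x, y, z, h3⟩ := (Cubic.splits_iff_roots_eq_three (φ := RingHom.id κ) ha).1
    (IsAlgClosed.splits _)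
  obtain ⟨hxy, hxz, hyz⟩ := (Cubic.discr_ne_zero_iff_roots_ne ha h3).1 fun e => hns (by
    have e' : A ^ 2 * 0 ^ 2 - 4 * 1 * 0 ^ 3 - 4 * A ^ 3 * B - 27 * 1 ^ 2 * B ^ 2 +
      18 * 1 * A * 0 * B = 0 := e
    linear_combination -e')
  have hr : ∀ e ∈ ({x, y, z} : Multiset κ), a * e ^ 2 + b * e + c = 0 := fun e he => h e (by
    have e' : 1 * e ^ 3 + A * e ^ 2 + 0 * e + B = 0 :=
      (Cubic.mem_roots_iff (Cubic.ne_zero_of_a_ne_zero ha) e).1 (h3 ▸ he :)
    linear_combination e')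
  have hx := hr x (by simp)
  have hy := hr y (by simp)
  have hz := hr z (by simp)
  have h1 : a * (x + y) + b = 0 :=
    mul_left_cancel₀ (sub_ne_zero.2 hxy) (by linear_combination hx - hy)
  have h2 : a * (x + z) + b = 0 :=
    mul_left_cancel₀ (sub_ne_zero.2 hxz) (by linear_combination hx - hz)
  have h4 : a = 0 := mul_left_cancel₀ (sub_ne_zero.2 hyz) (by linear_combination h1 - h2)
  have h5 : b = 0 := by linear_combination h1 - (x + y) * h4
  exact ⟨h4, h5, by linear_combination hx - x ^ 2 * h4 - x * h5⟩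

section
variable {κ₀ : Type} [Field κ₀] [Algebra κ₀ F] (d : Derivation κ₀ F F) (P : Place κ F)
  (hP : ∀ f ∈ P.O, d f ∈ P.O) {A B : κ} {X Y : F}
  (h : Y ^ 2 = X ^ 3 + algebraMap κ F A * X ^ 2 + algebraMap κ F B)
include hP

theorem X4a_log {π f : F} (hπ : π ≠ 0) (h1 : P.ord π = 1) (hf : f ≠ 0) :
    π * (d f / f) ∈ P.O := by
  obtain ⟨u, hu, e⟩ := Rig_split d P hP hπ h1 hf
  have hm : π ∈ P.O := P.mem_iff.2 (by omega)
  rw [e, mul_add, mul_left_comm, mul_div_cancel₀ _ hπ]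
  exact add_mem (mul_mem (P.const _) (hP _ hm)) (mul_mem hm hu)
include h

theorem X4a_pole (hA : A ≠ 0) (hX : X ∉ P.O) : d X / X ^ 2 = 0 ∨ 0 < P.ord (d X / X ^ 2) := by
  have h0 : P.ord X < 0 := not_le.1 (mt P.mem_iff.2 hX)
  have X0 : X ≠ 0 := fun e => hX (e ▸ zero_mem _)
  have h1 := F1a_le_ord_add P (n := 2 * P.ord X) (f := algebraMap κ F A * X ^ 2)
    (g := algebraMap κ F B) (Or.inr (by
      rw [P.ord_mul ((map_ne_zero _).2 hA) (pow_ne_zero 2 X0), P.ord_algebraMap, P.ord_pow]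
      omega)) (Or.inr (by rw [P.ord_algebraMap]; omega))
  have h2 := (P.ord_add_eq (pow_ne_zero 3 X0)
    (h1.imp_right fun e => by rw [P.ord_pow]; omega)).2
  rw [← add_assoc, ← h, P.ord_pow, P.ord_pow] at h2
  obtain ⟨π, hπ, h3⟩ := P.exists_ord_eq 1
  have h4 : P.O.valuation (π * X)⁻¹ < 1 :=
    P.valuation_lt_one_iff.2 (Or.inr (by rw [P.ord_inv, P.ord_mul hπ X0]; omega))
  have h5 := F1a_val_mul_lt P h4 (X4a_log d P hP hπ h3 X0)
  rw [show (π * X)⁻¹ * (π * (d X / X)) = d X / X ^ 2 by field_simp] at h5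
  exact P.valuation_lt_one_iff.1 h5

theorem X4a_root {e : κ} (he : e ^ 3 + A * e ^ 2 + B = 0)
    (hX : 0 < P.ord (X - algebraMap κ F e)) : Y * d Y = 0 ∨ 0 < P.ord (Y * d Y) := by
  have hc := P.const e
  have h1 : X ∈ P.O := by simpa using add_mem (P.mem_iff.2 hX.le) hc
  have h2 : Y ^ 2 = (X - algebraMap κ F e) * (X * X + X * algebraMap κ F e +
      algebraMap κ F e * algebraMap κ F e + algebraMap κ F A * (X + algebraMap κ F e)) := by
    have := congrArg (algebraMap κ F) he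
    simp only [map_add, map_mul, map_pow, map_zero] at this
    linear_combination h + this
  have h3 := F1a_val_mul_lt P (P.valuation_lt_one_iff.2 (Or.inr hX))
    (add_mem (add_mem (add_mem (mul_mem h1 h1) (mul_mem h1 hc)) (mul_mem hc hc))
      (mul_mem (P.const A) (add_mem h1 hc)))
  rw [← h2, map_pow] at h3
  have h4 : P.O.valuation Y < 1 := lt_of_not_ge fun e => not_le.2 h3 (one_le_pow₀ e)
  exact P.valuation_lt_one_iff.1
    (F1a_val_mul_lt P h4 (hP _ ((P.O.valuation_le_one_iff Y).1 h4.le)))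

end

theorem X4a_ev (P : Place κ F) {t : F} (ht : t ∈ P.O) (p : Polynomial κ) :
    P.ev (Polynomial.aeval t p) = p.eval (P.ev t) := by
  have h1 := Polynomial.aeval_algHom_apply P.evH (⟨t, ht⟩ : P.OA) p
  have h2 := Polynomial.aeval_algHom_apply P.OA.val (⟨t, ht⟩ : P.OA) p
  rw [← Polynomial.coe_aeval_eq_eval]
  exact (congrArg P.ev h2).trans h1.symm

theorem X4a_main {κ₀ : Type} [Field κ₀] [Algebra κ₀ F'] (d : Derivation κ₀ F' F')
    (hP : ∀ (R : Place κ F') (f : F'), f ∈ R.O → d f ∈ R.O) {A B a b : κ}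
    (ha : d (algebraMap κ F' A) = algebraMap κ F' a)
    (hb : d (algebraMap κ F' B) = algebraMap κ F' b) (hA : A ≠ 0)
    (hns : B * (4 * A ^ 3 + 27 * B) ≠ 0) (ψ : F →ₐ[κ] F') {T : F}
    (hT : T ∉ (algebraMap κ F).range) (htop : κ⟮T⟯ = ⊤) {Y : F'}
    (h : Y ^ 2 = ψ T ^ 3 + algebraMap κ F' A * ψ T ^ 2 + algebraMap κ F' B) :
    3 * B * a = A * b := by
  let φ := FHom.ofAlgHom ψ
  have hφ : ∀ x, φ.f x = ψ x := fun _ => rfl
  obtain ⟨c0, c1, hξ⟩ := X4a_lin (g := φ.tr (d (ψ T))) hT htop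
    (fun P hm => φ.tr_mem P fun R hR => hP R _ ((φ.map_mem_iff R T).2 (hR ▸ hm)))
    fun P hm => by
      have h1 := φ.tr_ord_pos P (x := φ.f (T ^ 2)⁻¹ * d (ψ T)) fun R hR => by
        rw [hφ, map_inv₀, map_pow, inv_mul_eq_div]
        exact X4a_pole d R (hP R) h hA fun e => hm (hR ▸ (φ.map_mem_iff R T).1 e)
      rwa [φ.tr_mul, inv_mul_eq_div] at h1
  have e1 : φ.f 2 * (Y * d Y) = φ.f (3 * T ^ 2 + 2 * algebraMap κ F A * T) * d (ψ T) +
      φ.f (algebraMap κ F a * T ^ 2 + algebraMap κ F b) := by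
    have h1 := congrArg d h
    simp only [map_add, Derivation.leibniz, Derivation.leibniz_pow, ha, hb, smul_eq_mul,
      nsmul_eq_mul] at h1
    simp only [hφ, map_add, map_mul, map_pow, map_ofNat, AlgHom.commutes]
    norm_num at h1
    linear_combination h1
  have e2 := congrArg φ.tr e1
  rw [φ.tr_add, φ.tr_mul, φ.tr_mul, φ.tr_map, hξ] at e2
  obtain ⟨h1, h2, h3⟩ := X4a_three (a := 3 * c0 - A * c1 + φ.deg * a) (b := 2 * A * c0)
    (c := φ.deg * b - 3 * c1 * B) hns fun e he => by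
      obtain ⟨P, hPe⟩ := exists_place_ev hT e
      have h1 : T ∈ P.O := by simpa using add_mem (P.mem_iff.2 hPe.le) (P.const e)
      have h2 := φ.tr_ord_pos P (x := Y * d Y) fun R hR => X4a_root d R (hP R) h he (by
        rw [← ψ.commutes, ← map_sub, ← hφ, φ.ord_map, hR]
        exact mul_pos (φ.F4_e_pos R) hPe)
      have h3 : φ.tr (Y * d Y) ∈ P.O := h2.elim (fun e => e ▸ zero_mem _) fun e => P.mem_iff.2 e.le
      have h4 := X4a_ev P h1 (Polynomial.C 2⁻¹ * ((Polynomial.C 3 * Polynomial.X ^ 2 +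
        Polynomial.C (2 * A) * Polynomial.X) * (Polynomial.C c0 + Polynomial.C c1 * Polynomial.X) +
        Polynomial.C (φ.deg : κ) * (Polynomial.C a * Polynomial.X ^ 2 + Polynomial.C b)))
      have : CharZero F := charZero_of_injective_algebraMap (algebraMap κ F).injective
      simp only [map_add, map_mul, map_pow, Polynomial.aeval_C, Polynomial.aeval_X, map_ofNat,
        map_natCast, map_inv₀, Polynomial.eval_add, Polynomial.eval_mul, Polynomial.eval_pow,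
        Polynomial.eval_C, Polynomial.eval_X, Polynomial.eval_ofNat, Polynomial.eval_natCast] at h4
      rw [← e2, inv_mul_cancel_left₀ two_ne_zero, (P.ev_eq_zero_iff h3).2 h2,
        P.ev_eq (Or.inr hPe)] at h4
      linear_combination -2 * h4 - 3 * c1 * he
  have h4 : c0 = 0 := (mul_eq_zero.1 h2).resolve_left (mul_ne_zero two_ne_zero hA)
  refine mul_left_cancel₀ (Nat.cast_ne_zero.2 φ.deg_pos.ne' : (φ.deg : κ) ≠ 0) ?_
  linear_combination 3 * B * h1 - A * h3 - 9 * B * h4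

/-- a constant curve has no map to a non isotrivial elliptic curve -/
theorem nomap_FO (o : Place κ F) {Ω : Type} [Field Ω] [IsAlgClosed Ω] [CharZero Ω] [Algebra κ Ω]
    (δ : Derivation κ Ω Ω) {A B : Ω} (hA : A ≠ 0) (hns : B * (4 * A ^ 3 + 27 * B) ≠ 0)
    (hδ : 3 * B * δ A ≠ A * δ B) {X Y : FO o Ω}
    (h : Y ^ 2 = X ^ 3 + algebraMap Ω _ A * X ^ 2 + algebraMap Ω _ B) :
    X ∈ (algebraMap Ω (FO o Ω)).range := by
  by_contra hX
  obtain ⟨d, h1, -, h2, -⟩ := exists_derF (o := o) δ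
  have hi : Function.Injective (Polynomial.aeval X : Polynomial Ω →ₐ[Ω] FO o Ω) :=
    transcendental_iff_injective.1 (transcendental_of_notMem hX)
  let ψ : RatFunc Ω →ₐ[Ω] FO o Ω := IsFractionRing.liftAlgHom hi
  have hψ : ψ RatFunc.X = X :=
    (IsFractionRing.lift_algebraMap (K := RatFunc Ω) hi Polynomial.X).trans (Polynomial.aeval_X X)
  refine hδ (X4a_main d h2 (h1 A) (h1 B) hA hns ψ (T := RatFunc.X) (Y := Y) ?_ RatFunc.adjoin_X
    (by rwa [hψ]))
  rintro ⟨c, hc⟩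
  exact hX ⟨c, by rw [← hψ, ← hc, ψ.commutes]⟩

end

end Pool.Agent.E6b

end

section
open scoped NNReal TensorProduct IntermediateField BigOperators Classical Topology
open Filter

namespace Pool.Agent.E6b

section
variable {κ F' E : Type} [Field κ] [Field F'] [Algebra κ F'] [Field E] [Algebra κ E]

/-- contraction with a functional -/
noncomputable def K4_ctr (F' : Type) [Field F'] [Algebra κ F'] (φ : E →ₗ[κ] κ) :
    F' ⊗[κ] E →ₗ[κ] F' := (TensorProduct.rid κ F').toLinearMap ∘ₗ φ.lTensor F'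

theorem K4_ctr_tmul (φ : E →ₗ[κ] κ) (c : F') (u : E) : K4_ctr F' φ (c ⊗ₜ[κ] u) = φ u • c := by
  simp [K4_ctr]

theorem K4_coeff {ι : Type} [Fintype ι] {u : ι → E} (hu : LinearIndependent κ u) (i : ι) :
    ∃ φ : E →ₗ[κ] κ, ∀ c : ι → F', K4_ctr F' φ (∑ j, c j ⊗ₜ[κ] u j) = c i := by
  obtain ⟨φ, hφ⟩ := LinearMap.exists_extend (Finsupp.lapply i ∘ₗ hu.repr)
  have h : ∀ j, φ (u j) = if j = i then 1 else 0 := fun j => by
    have h1 := LinearMap.congr_fun hφ ⟨u j, Submodule.subset_span ⟨j, rfl⟩⟩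
    rw [LinearMap.comp_apply, LinearMap.comp_apply, hu.repr_eq_single j _ rfl] at h1
    simpa [Finsupp.single_apply] using h1
  exact ⟨φ, fun c => by simp [map_sum, K4_ctr_tmul, h]⟩

theorem K4_indep {ι ι' : Type} [Fintype ι] [Fintype ι'] {u : ι → E} (hu : LinearIndependent κ u)
    {u' : ι' → E} {c : ι → F'} {c' : ι' → F'} (h : ∑ j, c j ⊗ₜ[κ] u j = ∑ j, c' j ⊗ₜ[κ] u' j)
    {W : Submodule κ F'} (hW : ∀ j, c' j ∈ W) (i : ι) : c i ∈ W := by
  obtain ⟨φ, hφ⟩ := K4_coeff (F' := F') hu i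
  rw [← hφ c, h, map_sum]
  exact W.sum_mem fun j _ => by rw [K4_ctr_tmul]; exact W.smul_mem _ (hW j)

end
variable {κ F F' E : Type} [Field κ] [IsAlgClosed κ] [CharZero κ] [Field F] [Algebra κ F] [IsFF κ F]
  [Field F'] [Algebra κ F'] [IsFF κ F'] [Field E] [Algebra κ E] [IsFF κ E]

omit [IsFF κ E] in
theorem K4_inc_tmul (Q : Place κ F') (c : Q.OA) (u : E) :
    K4_inc Q (c ⊗ₜ[κ] u) = (c : F') ⊗ₜ[κ] u := rfl

omit [IsFF κ E] in
theorem K4_Prim.spec {Q : Place κ F'} {k : ℤ} {ι : Type} [Fintype ι] {u : ι → E} {c : ι → F'}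
    (hu : LinearIndependent κ u) (hc : ∀ i, c i ≠ 0) (h : K4_Prim Q k (∑ i, c i ⊗ₜ[κ] u i)) :
    (∀ i, - k ≤ Q.ord (c i)) ∧ ∃ i, Q.ord (c i) = - k := by
  obtain ⟨a, a0, a1, G₀, h1, h2⟩ := h
  rw [K4_smul_sum] at h1
  have h3 : ∀ i, a * c i ∈ Q.OA := fun i => by
    obtain ⟨φ, hφ⟩ := K4_coeff (F' := F') hu i
    rw [← hφ fun j => a * c j, ← h1]
    clear h1 h2
    induction G₀ using TensorProduct.induction_on with
    | zero => rw [map_zero, map_zero]; exact zero_mem _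
    | add x y hx hy => rw [map_add, map_add]; exact add_mem hx hy
    | tmul x y => rw [K4_inc_tmul, K4_ctr_tmul]; exact Q.OA.smul_mem x.2 _
  have h4 : ∀ i, Q.ord (a * c i) = k + Q.ord (c i) := fun i => by rw [Q.ord_mul a0 (hc i), a1]
  have h5 : ∀ i, 0 ≤ k + Q.ord (c i) := fun i => h4 i ▸ Q.mem_iff.1 (h3 i)
  refine ⟨fun i => by have := h5 i; omega, ?_⟩
  have h6 : G₀ = ∑ j, (⟨_, h3 j⟩ : Q.OA) ⊗ₜ[κ] u j := K4_inc_inj Q (by rw [h1, map_sum]; rfl)
  by_contra h7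
  refine h2 ?_
  rw [h6, map_sum]
  refine Finset.sum_eq_zero fun j _ => ?_
  rw [K4_red_tmul, (Q.ev_eq_zero_iff (h3 j)).2 (Or.inr ?_), zero_smul]
  have h8 := h5 j
  have h9 : Q.ord (c j) ≠ - k := fun e => h7 ⟨j, e⟩
  rw [h4]
  omega

theorem BPF.sup {M M' : Dv κ F'} (h : BPF M) (h' : BPF M') : BPF (M ⊔ M') := by
  intro P
  rcases le_total (M P) (M' P) with c | c
  · obtain ⟨f, f0, f1, f2⟩ := h' P
    refine ⟨f, f0, fun Q => le_trans ?_ (f1 Q), ?_⟩
    · rw [Finsupp.sup_apply]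
      exact neg_le_neg le_sup_right
    · rw [Finsupp.sup_apply, sup_eq_right.2 c, f2]
  · obtain ⟨f, f0, f1, f2⟩ := h P
    refine ⟨f, f0, fun Q => le_trans ?_ (f1 Q), ?_⟩
    · rw [Finsupp.sup_apply]
      exact neg_le_neg le_sup_left
    · rw [Finsupp.sup_apply, sup_eq_left.2 c, f2]

theorem BPF.deg_nonneg {M : Dv κ F'} (h : BPF M) : 0 ≤ deg M := by
  obtain ⟨P⟩ : Nonempty (Place κ F') := inferInstance
  obtain ⟨f, f0, f1, -⟩ := h P
  by_contra hc
  have h1 : f ∈ LL M := mem_LL.2 (Or.inr f1)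
  rw [LL_eq_bot (not_le.1 hc), Submodule.mem_bot] at h1
  exact f0 h1

theorem K4_mem_iff {ι : Type} [Fintype ι] {u : ι → E} {c : ι → F'} (hu : LinearIndependent κ u)
    (M : Dv κ F') (N : Dv κ E) : ∑ i, c i ⊗ₜ[κ] u i ∈ LT2 M N ↔
      ∑ i, c i ⊗ₜ[κ] u i ∈ LT F' N ∧ ∀ i, c i ∈ LL M := by
  obtain ⟨v, hv, hv'⟩ := exists_basis_LL N
  constructor
  · intro h
    obtain ⟨c', h1, h2⟩ := (mem_LT2_iff hv').1 h
    exact ⟨LT2_le_LT h, K4_indep hu h2 h1⟩
  · rintro ⟨h, h1⟩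
    obtain ⟨c', h2⟩ := (mem_LT_iff hv').1 h
    exact (mem_LT2_iff hv').2 ⟨c', K4_indep hv h2.symm h1, h2⟩

theorem exists_cont (G : F' ⊗[κ] E) : ∃ C : Dv κ F', G ≠ 0 → BPF C ∧
    ∀ (M : Dv κ F') (N : Dv κ E), G ∈ LT2 M N ↔ G ∈ LT F' N ∧ C ≤ M := by
  by_cases h : G = 0
  · exact ⟨0, fun h' => absurd h h'⟩
  obtain ⟨ι, _, u, c, hu, hc, rfl⟩ := K4_rep G
  have hne := Finset.nonempty_of_sum_ne_zero h
  refine ⟨Finset.univ.sup' hne fun i => - dv κ (c i), fun _ => ⟨?_, fun M N => ?_⟩⟩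
  · refine Finset.sup'_induction hne _ (p := BPF) (fun _ h1 _ h2 => h1.sup h2) fun i _ P => ?_
    exact ⟨c i, hc i, fun Q => by simp [dv_apply], by simp [dv_apply]⟩
  · rw [K4_mem_iff hu, Finset.sup'_le_iff]
    refine and_congr_right fun _ => forall_congr' fun i => ?_
    rw [mem_LL_iff (hc i), neg_le_iff_add_nonneg]
    simp

/-- the smallest divisor bounding the coefficients -/
noncomputable def cont (G : F' ⊗[κ] E) : Dv κ F' := (exists_cont G).choose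

theorem bpf_cont {G : F' ⊗[κ] E} (h : G ≠ 0) : BPF (cont G) := ((exists_cont G).choose_spec h).1

theorem mem_LT2_iff_cont {G : F' ⊗[κ] E} (h : G ≠ 0) (M : Dv κ F') (N : Dv κ E) :
    G ∈ LT2 M N ↔ G ∈ LT F' N ∧ cont G ≤ M := ((exists_cont G).choose_spec h).2 M N

theorem K4_cont_le {ι : Type} [Fintype ι] {u : ι → E} {c : ι → F'} (hu : LinearIndependent κ u)
    (h : ∑ i, c i ⊗ₜ[κ] u i ≠ 0) (M : Dv κ F') :
    cont (∑ i, c i ⊗ₜ[κ] u i) ≤ M ↔ ∀ i, c i ∈ LL M := by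
  have h1 : ∑ i, c i ⊗ₜ[κ] u i ∈ LT F' (Finset.univ.sup' (Finset.nonempty_of_sum_ne_zero h)
      fun i => dinf κ (u i)) :=
    Submodule.sum_mem _ fun i hi => Submodule.tmul_mem_baseChange_of_mem _
      (LL_mono (Finset.le_sup' (fun i => dinf κ (u i)) hi) (mem_LL_dinf (u i)))
  exact ⟨fun h2 => ((K4_mem_iff hu M _).1 ((mem_LT2_iff_cont h M _).2 ⟨h1, h2⟩)).2,
    fun h2 => ((mem_LT2_iff_cont h M _).1 ((K4_mem_iff hu M _).2 ⟨h1, h2⟩)).2⟩

theorem K4_Prim.cont_eq {Q : Place κ F'} {k : ℤ} {G : F' ⊗[κ] E} (h : K4_Prim Q k G) :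
    cont G Q = k := by
  have h0 := h.ne_zero
  obtain ⟨ι, _, u, c, hu, hc, rfl⟩ := K4_rep G
  obtain ⟨h1, i, hi⟩ := h.spec hu hc
  have h2 := fun j => (mem_LL.1 ((K4_cont_le hu h0 _).1 le_rfl j)).resolve_left (hc j)
  refine le_antisymm ?_ (by have := h2 i Q; omega)
  have h3 := (K4_cont_le hu h0 ((cont (∑ i, c i ⊗ₜ[κ] u i)).update Q k)).2
    (fun j => mem_LL.2 (Or.inr fun P => by
      by_cases hP : P = Q
      · rw [hP, Finsupp.coe_update, Function.update_self]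
        exact h1 j
      · rw [Finsupp.coe_update, Function.update_of_ne hP]
        exact h2 j P)) Q
  rwa [Finsupp.coe_update, Function.update_self] at h3

/-- Gauss lemma -/
theorem cont_mul {G H : F' ⊗[κ] E} (hG : G ≠ 0) (hH : H ≠ 0) : cont (G * H) = cont G + cont H := by
  ext Q
  obtain ⟨k, hk⟩ := K4_exists_prim Q hG
  obtain ⟨l, hl⟩ := K4_exists_prim Q hH
  rw [Finsupp.add_apply, (hk.mul hl).cont_eq, hk.cont_eq, hl.cont_eq]

omit [IsAlgClosed κ] [CharZero κ] [IsFF κ E] in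
theorem K4_le_deg {D : Dv κ E} (h : 0 ≤ D) (P : Place κ E) : D P ≤ deg D := by
  rw [← deg_single P (D P)]
  refine deg_mono fun Q => ?_
  rw [Finsupp.single_apply]
  split_ifs with c
  · rw [c]
  · exact h Q

/-- zeros of a section in a fibre -/
theorem Sq.fib_bound (S : Sq κ F' E F) {M : Dv κ F'} {N : Dv κ E} {G : F' ⊗[κ] E}
    (h : G ∈ LT2 M N) (h0 : S.rho G ≠ 0) {α : ℕ} (hN : deg N ≤ α) (Q : Place κ F') :
    G ∈ LT2 (M - pd Q) N ∨
      (((S.q'.fib Q).filter fun R => 0 < S.Z M N G R).card ≤ α ∧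
        ∀ R ∈ S.q'.fib Q, α < S.q'.e R → S.Z M N G R ≤ α) := by
  obtain ⟨u, hu, hu'⟩ := exists_basis_LL N
  obtain ⟨c, hc, rfl⟩ := (mem_LT2_iff hu').1 h
  obtain ⟨π, π0, hπ⟩ := Q.exists_ord_eq (M Q)
  have u1 : ∀ i, u i ∈ LL N := fun i => hu' ▸ Submodule.subset_span ⟨i, rfl⟩
  have c1 : ∀ i, π * c i ∈ Q.O := fun i => by
    by_cases c0 : c i = 0
    · rw [c0, mul_zero]
      exact zero_mem _
    · have := (mem_LL.1 (hc i)).resolve_left c0 Q
      rw [Q.mem_iff, Q.ord_mul π0 c0]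
      omega
  obtain ⟨g, hg⟩ : ∃ g, g = ∑ i, Q.ev (π * c i) • u i := ⟨_, rfl⟩
  by_cases g0 : g = 0
  · refine Or.inl ((mem_LT2_iff hu').2 ⟨c, fun i => ?_, rfl⟩)
    by_cases c0 : c i = 0
    · exact mem_LL.2 (Or.inl c0)
    refine mem_LL.2 (Or.inr fun P => ?_)
    have h1 := (mem_LL.1 (hc i)).resolve_left c0 P
    rw [Finsupp.sub_apply, F1_pd_apply]
    split_ifs with hP
    · have h2 := ((Q.ev_eq_zero_iff (c1 i)).1 (Fintype.linearIndependent_iff.1 hu _
        (hg.symm.trans g0) i)).resolve_left (mul_ne_zero π0 c0)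
      rw [Q.ord_mul π0 c0] at h2
      subst hP
      omega
    · omega
  have g1 : 0 ≤ N + dv κ g :=
    (mem_LL_iff g0).1 (hg ▸ Submodule.sum_mem _ fun i _ => Submodule.smul_mem _ _ (u1 i))
  have g2 : deg (N + dv κ g) ≤ α := by rwa [deg_add, deg_dv, add_zero]
  have key : ∀ R, S.q'.res R = Q → S.q.e R * (N + dv κ g) (S.q.res R) < S.q'.e R →
      S.Z M N (∑ i, c i ⊗ₜ[κ] u i) R = S.q.e R * (N + dv κ g) (S.q.res R) := by
    intro R hR hlt
    have e1 : S.p' π * S.rho (∑ i, c i ⊗ₜ[κ] u i) = S.p g +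
        ∑ i, S.p' (π * c i - algebraMap κ F' (Q.ev (π * c i))) * S.p (u i) := by
      rw [hg, map_sum, map_sum, Finset.mul_sum, ← Finset.sum_add_distrib]
      refine Finset.sum_congr rfl fun i _ => ?_
      rw [S.rho_tmul, map_smul, map_sub, map_mul, AlgHom.commutes, Algebra.smul_def]
      ring
    have o' : ∀ x, R.ord (S.p' x) = S.q'.e R * Q.ord x := fun x => hR ▸ S.q'.ord_map R x
    have o : ∀ x, R.ord (S.p x) = S.q.e R * (S.q.res R).ord x := fun x => S.q.ord_map R x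
    have e2 := R.le_ord_sum Finset.univ
      (fun i => S.p' (π * c i - algebraMap κ F' (Q.ev (π * c i))) * S.p (u i))
      (n := S.q'.e R - S.q.e R * N (S.q.res R)) fun i _ => by
        rcases Q.ev_spec (c1 i) with h1 | h1
        · exact Or.inl (by rw [sub_eq_zero.2 h1, map_zero, zero_mul])
        have h2 := (mem_LL.1 (u1 i)).resolve_left (hu.ne_zero i) (S.q.res R)
        have h3 := mul_le_mul_of_nonneg_left h2 (S.q.F4_e_pos R).le
        have h4 := mul_le_mul_of_nonneg_left (Int.add_one_le_of_lt h1) (S.q'.F4_e_pos R).le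
        right
        rw [R.ord_mul ((map_ne_zero _).2 (F1a_ne_zero_of_ord Q h1.ne'))
          ((map_ne_zero _).2 (hu.ne_zero i)), o', o]
        linarith
    rw [Finsupp.add_apply, dv_apply] at hlt ⊢
    have e3 := (R.ord_add_eq ((map_ne_zero S.p).2 g0) (e2.imp_right fun h1 =>
      lt_of_lt_of_le (by rw [o]; linarith) h1)).2
    rw [← e1, R.ord_mul ((map_ne_zero _).2 π0) h0, o', o, hπ] at e3
    rw [Sq.Z, Finsupp.add_apply, Finsupp.add_apply, FHom.pull_apply, FHom.pull_apply, dv_apply, hR]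
    linarith
  refine Or.inr ⟨?_, fun R hR hα => ?_⟩
  · have h1 : ((S.q'.fib Q).filter fun R => 0 < S.Z M N (∑ i, c i ⊗ₜ[κ] u i) R).card ≤
        (N + dv κ g).support.card := by
      refine Finset.card_le_card_of_injOn S.q.res (fun R hR => ?_) fun R hR R' hR' e => ?_
      · obtain ⟨h2, h3⟩ := Finset.mem_filter.1 (Finset.mem_coe.1 hR)
        refine Finset.mem_coe.2 (Finsupp.mem_support_iff.2 fun h4 => ?_)
        rw [key R (S.q'.mem_fib.1 h2) (by rw [h4, mul_zero]; exact S.q'.F4_e_pos R), h4,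
          mul_zero] at h3
        exact lt_irrefl _ h3
      · exact S.place_ext ((S.q'.mem_fib.1 (Finset.mem_filter.1 (Finset.mem_coe.1 hR)).1).trans
          (S.q'.mem_fib.1 (Finset.mem_filter.1 (Finset.mem_coe.1 hR')).1).symm) e
    have h2 := card_support_le_deg g1
    omega
  · have h1 := (K4_le_deg g1 (S.q.res R)).trans g2
    have h2 : S.q.e R * (N + dv κ g) (S.q.res R) ≤ α := by
      rcases S.e_one R with h3 | h3
      · have h4 : (0 : ℤ) ≤ (N + dv κ g) (S.q.res R) := g1 _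
        have h5 : (N + dv κ g) (S.q.res R) = 0 := by omega
        rw [h5, mul_zero]
        exact Nat.cast_nonneg α
      · rwa [h3, Nat.cast_one, one_mul]
    rw [key R (S.q'.mem_fib.1 hR) (by omega)]
    exact h2

theorem Sq.Z_pos (S : Sq κ F' E F) {M : Dv κ F'} {N : Dv κ E} {G : F' ⊗[κ] E} {Q : Place κ F'}
    (h : G ∈ LT2 (M - pd Q) N) (h0 : S.rho G ≠ 0) {R : Place κ F} (hR : S.q'.res R = Q) :
    0 < S.Z M N G R := by
  have h1 : (0 : ℤ) ≤ S.Z (M - pd Q) N G R := S.Z_nonneg h h0 R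
  have h2 := S.q'.F4_e_pos R
  rw [Sq.Z, Finsupp.add_apply, Finsupp.add_apply, FHom.pull_apply, hR] at h1 ⊢
  rw [Finsupp.sub_apply, F1_pd_apply, if_pos rfl] at h1
  linarith

end Pool.Agent.E6b

end

section
open scoped NNReal TensorProduct IntermediateField BigOperators Classical Topology
open Filter

namespace Pool.Agent.E6b
variable {κ F F' E : Type} [Field κ] [IsAlgClosed κ] [CharZero κ] [Field F] [Algebra κ F] [IsFF κ F]
  [Field F'] [Algebra κ F'] [IsFF κ F'] [Field E] [Algebra κ E] [IsFF κ E]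

theorem K5_tmul_mem {M : Dv κ F'} {N : Dv κ E} {c : F'} {u : E} (hc : c ∈ LL M) (hu : u ∈ LL N) :
    c ⊗ₜ[κ] u ∈ LT2 M N := Submodule.apply_mem_map₂ (TensorProduct.mk κ F' E) hc hu

omit [IsAlgClosed κ] [CharZero κ] [IsFF κ F'] [IsFF κ E] in
theorem K5_smul_tmul (a c : F') (u : E) : a • (c ⊗ₜ[κ] u) = (a * c) ⊗ₜ[κ] u := rfl

theorem K5_term (S : Sq κ F' E F) {M T : Dv κ F'} {N N' : Dv κ E} {G : F' ⊗[κ] E}
    (h : S.rho G ≠ 0) {w : F'} (hw : w ∈ LL (0 + T - M)) {x : E} (hx : x ∈ LL (N - N'))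
    {Z : Dv κ F} (hZ : Z ≤ S.Z M N' G) :
    S.rho (w • ((1 : F') ⊗ₜ[κ] x * G)) ∈ LL (S.q'.pull T + S.q.pull N - Z) := by
  have h1 : S.p' w ∈ LL (S.q'.pull (0 + T - M)) := S.q'.map_mem_LL.2 hw
  have h2 : S.p x ∈ LL (S.q.pull (N - N')) := S.q.map_mem_LL.2 hx
  have h3 : S.rho G ∈ LL (- dv κ (S.rho G)) := (mem_LL_iff h).2 (by simp)
  rw [S.rho_smul, map_mul, S.rho_tmul, map_one, one_mul]
  refine LL_mono ?_ (mul_mem_LL h1 (mul_mem_LL h2 h3))
  rw [zero_add, FHom.pull_sub, FHom.pull_sub]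
  refine le_trans (le_of_eq ?_) (sub_le_sub_left hZ _)
  rw [Sq.Z]
  abel

/-- common zeros of coprime sections lie over the zeros of a resultant -/
theorem Sq.base_bound (S : Sq κ F' E F) (hg : genus κ E = 1) {M₁ M₂ : Dv κ F'} {N₁ N₂ : Dv κ E}
    {G₁ G₂ : F' ⊗[κ] E} (h₁ : G₁ ∈ LT2 M₁ N₁) (h₂ : G₂ ∈ LT2 M₂ N₂) (h₁' : S.rho G₁ ≠ 0)
    (h₂' : S.rho G₂ ≠ 0) (hc : Cop G₁ G₂ N₁ N₂) {α b : ℕ} (hN₁ : deg N₁ ≤ α) (hN₂ : deg N₂ ≤ α)
    (hM₁ : deg M₁ ≤ b) (hM₂ : deg M₂ ≤ b) :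
    ∃ W : Dv κ F', 0 ≤ W ∧ deg W ≤ (2 * α + 2) * b ∧
      S.Z M₁ N₁ G₁ ⊓ S.Z M₂ N₂ G₂ ≤ S.q'.pull W := by
  have d₁ := deg_nonneg_of_mem_LT (LT2_le_LT h₁) fun h => h₁' (by rw [h, map_zero])
  have d₂ := deg_nonneg_of_mem_LT (LT2_le_LT h₂) fun h => h₂' (by rw [h, map_zero])
  obtain ⟨P₀⟩ : Nonempty (Place κ E) := inferInstance
  obtain ⟨N, hN⟩ : ∃ N : Dv κ E, deg N = deg N₁ + deg N₂ + 2 :=
    ⟨N₁ + N₂ + 2 • pd P₀, by rw [deg_add, deg_add, deg_nsmul, deg_pd]; simp⟩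
  have hl := ell_genus_one hg (D := N) (by omega)
  have hb : BPF N := bpf_of_large (by rw [hg]; push_cast; omega)
  obtain ⟨u, hu, hu'⟩ := exists_basis_LL N
  obtain ⟨x₁, -, hx₁⟩ := exists_basis_LL (N - N₁)
  obtain ⟨x₂, -, hx₂⟩ := exists_basis_LL (N - N₂)
  have m₁ : ∀ a, x₁ a ∈ LL (N - N₁) := fun a => hx₁ ▸ Submodule.subset_span ⟨a, rfl⟩
  have m₂ : ∀ a, x₂ a ∈ LL (N - N₂) := fun a => hx₂ ▸ Submodule.subset_span ⟨a, rfl⟩
  let g : Fin (ell (N - N₁)) ⊕ Fin (ell (N - N₂)) → F' ⊗[κ] E :=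
    Sum.elim (fun a => (1 : F') ⊗ₜ[κ] x₁ a * G₁) fun a => (1 : F') ⊗ₜ[κ] x₂ a * G₂
  let D : Fin (ell (N - N₁)) ⊕ Fin (ell (N - N₂)) → Dv κ F' := Sum.elim (fun _ => M₁) fun _ => M₂
  have hgm : ∀ j, g j ∈ LT2 (D j) N := by
    rintro (a | a)
    · simpa [g, D] using mul_mem_LT2 (K5_tmul_mem K5_one_mem (m₁ a)) h₁
    · simpa [g, D] using mul_mem_LT2 (K5_tmul_mem K5_one_mem (m₂ a)) h₂
  choose v hv hv' using fun j => (mem_LT2_iff hu').1 (hgm j)
  have hlin : ∀ z : Fin (ell (N - N₁)) ⊕ Fin (ell (N - N₂)) → F',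
      ∑ j, z j • g j = ∑ i, (∑ j, z j • v j) i ⊗ₜ[κ] u i := fun z => by
    simp only [Finset.sum_apply, Pi.smul_apply, smul_eq_mul, TensorProduct.sum_tmul]
    rw [Finset.sum_comm]
    refine Finset.sum_congr rfl fun j _ => ?_
    rw [hv' j, Finset.smul_sum]
    rfl
  obtain ⟨T, -, hT, δ, hδ, hδT, h⟩ := K5_cramer v D hv
  refine ⟨T + dv κ δ, (mem_LL_iff hδ).1 hδT, ?_, fun R => ?_⟩
  · have h3 := hT b (by rintro (a | a) <;> assumption)
    rw [Fintype.card_fin, hl] at h3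
    rw [deg_add, deg_dv, add_zero]
    refine h3.trans (mul_le_mul_of_nonneg_right (by omega) (by positivity))
  · obtain ⟨u₀, h0, hu₀, hu₀'⟩ := hb (S.q.res R)
    have hm : u₀ ∈ LL N := mem_LL.2 (Or.inr hu₀)
    obtain ⟨y, hy, hy'⟩ := (mem_LT2_iff hu').1 (K5_tmul_mem (F' := F') K5_one_mem hm)
    obtain ⟨A₁, hA₁, A₂, hA₂, hA⟩ := hc N (by omega) u₀ hm
    obtain ⟨c₁, rfl⟩ := (mem_LT_iff hx₁).1 hA₁
    obtain ⟨c₂, rfl⟩ := (mem_LT_iff hx₂).1 hA₂
    have h3 : ∑ j, Sum.elim c₁ c₂ j • g j = (1 : F') ⊗ₜ[κ] u₀ := by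
      rw [← hA, Fintype.sum_sum_type, Finset.sum_mul, Finset.sum_mul]
      simp only [g, Sum.elim_inl, Sum.elim_inr, ← smul_mul_assoc, K5_smul_tmul, mul_one]
    have h4 : y = ∑ j, Sum.elim c₁ c₂ j • v j := by
      refine sub_eq_zero.1 (eq_zero_of_sum_tmul hu ?_)
      simp only [Pi.sub_apply, TensorProduct.sub_tmul, Finset.sum_sub_distrib]
      rw [← hy', ← hlin, h3, sub_self]
    obtain ⟨w, hw, hw'⟩ := h y (h4 ▸ Submodule.sum_mem _ fun j _ =>
      Submodule.smul_mem _ _ (Submodule.subset_span ⟨j, rfl⟩)) 0 hy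
    have h5 : ∑ j, w j • g j = δ ⊗ₜ[κ] u₀ := by
      rw [hlin, hw, ← mul_one δ, ← K5_smul_tmul, hy', Finset.smul_sum, mul_one]
      rfl
    have h6 : S.rho (δ ⊗ₜ[κ] u₀) ∈
        LL (S.q'.pull T + S.q.pull N - S.Z M₁ N₁ G₁ ⊓ S.Z M₂ N₂ G₂) := by
      rw [← h5, map_sum]
      refine Submodule.sum_mem _ ?_
      rintro (a | a) -
      · exact K5_term S h₁' (hw' (Sum.inl a)) (m₁ a) inf_le_left
      · exact K5_term S h₂' (hw' (Sum.inr a)) (m₂ a) inf_le_right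
    have n₁ : S.p' δ ≠ 0 := (map_ne_zero _).2 hδ
    have n₂ : S.p u₀ ≠ 0 := (map_ne_zero _).2 h0
    rw [S.rho_tmul] at h6
    have h7 := (mem_LL.1 h6).resolve_left (mul_ne_zero n₁ n₂) R
    have e₁ : R.ord (S.p' δ) = _ := S.q'.ord_map R δ
    have e₂ : R.ord (S.p u₀) = _ := S.q.ord_map R u₀
    rw [R.ord_mul n₁ n₂, e₁, e₂, hu₀', Finsupp.sub_apply, Finsupp.add_apply, FHom.pull_apply,
      FHom.pull_apply] at h7
    rw [FHom.pull_apply, Finsupp.add_apply, dv_apply]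
    linarith

end Pool.Agent.E6b

end

section
open scoped NNReal TensorProduct IntermediateField BigOperators Classical Topology
open Filter

namespace Pool.Agent.E6b

section
variable {κ F F' E : Type} [Field κ] [IsAlgClosed κ] [CharZero κ] [Field F] [Algebra κ F] [IsFF κ F]
  [Field F'] [Algebra κ F'] [IsFF κ F'] [Field E] [Algebra κ E] [IsFF κ E]

theorem K7_linEq_dv (D : Dv κ F) {f : F} (hf : f ≠ 0) : LinEq (D + dv κ f) D :=
  LinEq.symm ⟨f, hf, rfl⟩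

theorem K7_deg_le (φ : FHom κ F' F) {Bd : Dv κ F} {W : Dv κ F'} (hB : 0 ≤ Bd) (hW : 0 ≤ W) {α : ℕ}
    (hc : ∀ Q, ((φ.fib Q).filter fun R => 0 < Bd R).card ≤ α)
    (hle : ∀ R, Bd R ≤ α * W (φ.res R)) : deg Bd ≤ (α : ℤ) ^ 2 * deg W := by
  have hpos : ∀ R ∈ Bd.support, 0 < Bd R := fun R hR =>
    lt_of_le_of_ne (hB R) (Ne.symm (Finsupp.mem_support_iff.1 hR))
  have hmap : ∀ R ∈ Bd.support, φ.res R ∈ W.support := by
    intro R hR
    rw [Finsupp.mem_support_iff]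
    intro h0
    have h1 := hle R
    rw [h0, mul_zero] at h1
    exact absurd (hpos R hR) (not_lt.2 h1)
  unfold deg Finsupp.sum
  rw [← Finset.sum_fiberwise_of_maps_to hmap, Finset.mul_sum]
  refine Finset.sum_le_sum fun Q _ => ?_
  have h1 : ∑ R ∈ Bd.support.filter (fun R => φ.res R = Q), Bd R ≤
      (Bd.support.filter (fun R => φ.res R = Q)).card • ((α : ℤ) * W Q) := by
    refine Finset.sum_le_card_nsmul _ _ _ fun R hR => ?_
    have h2 := hle R
    rwa [(Finset.mem_filter.1 hR).2] at h2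
  have h2 : (Bd.support.filter (fun R => φ.res R = Q)).card ≤ α := by
    refine le_trans (Finset.card_le_card fun R hR => ?_) (hc Q)
    rw [Finset.mem_filter] at hR ⊢
    exact ⟨φ.mem_fib.2 hR.2, hpos R hR.1⟩
  have h3 : (0 : ℤ) ≤ α * W Q := mul_nonneg (Int.natCast_nonneg _) (hW Q)
  have h4 : ((Bd.support.filter (fun R => φ.res R = Q)).card : ℤ) ≤ α := by exact_mod_cast h2
  rw [nsmul_eq_mul] at h1
  calc _ ≤ _ := h1
    _ ≤ (α : ℤ) * (α * W Q) := mul_le_mul_of_nonneg_right h4 h3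
    _ = _ := by ring

/-- the common zeros of two coprime sections with common content -/
theorem K7_bd (S : Sq κ F' E F) (hg : genus κ E = 1) {N : Dv κ E} {G₁ G₂ : F' ⊗[κ] E}
    (h₁ : G₁ ∈ LT F' N) (h₂ : G₂ ∈ LT F' N) (h₁' : S.rho G₁ ≠ 0) (h₂' : S.rho G₂ ≠ 0)
    (hc : Cop G₁ G₂ N N) {α : ℕ} (hN : deg N ≤ α) :
    deg (S.Z (cont G₁ ⊔ cont G₂) N G₁ ⊓ S.Z (cont G₁ ⊔ cont G₂) N G₂) ≤
      (α : ℤ) ^ 2 * ((2 * α + 2) * deg (cont G₁ ⊔ cont G₂)) := by
  have g₁ : G₁ ≠ 0 := fun h => h₁' (by rw [h, map_zero])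
  have g₂ : G₂ ≠ 0 := fun h => h₂' (by rw [h, map_zero])
  set M := cont G₁ ⊔ cont G₂ with hM
  have m₁ : G₁ ∈ LT2 M N := (mem_LT2_iff_cont g₁ M N).2 ⟨h₁, le_sup_left⟩
  have m₂ : G₂ ∈ LT2 M N := (mem_LT2_iff_cont g₂ M N).2 ⟨h₂, le_sup_right⟩
  have hM0 : 0 ≤ deg M := ((bpf_cont g₁).sup (bpf_cont g₂)).deg_nonneg
  have hb : deg M ≤ ((deg M).toNat : ℤ) := Int.self_le_toNat _
  obtain ⟨W, hW0, hWd, hW⟩ := S.base_bound hg m₁ m₂ h₁' h₂' hc hN hN hb hb
  rw [Int.toNat_of_nonneg hM0] at hWd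
  have z₁ := S.Z_nonneg m₁ h₁'
  have z₂ := S.Z_nonneg m₂ h₂'
  have key : ∀ Q : Place κ F', ∃ Z : Dv κ F, S.Z M N G₁ ⊓ S.Z M N G₂ ≤ Z ∧
      ((S.q'.fib Q).filter fun R => 0 < Z R).card ≤ α ∧
        ∀ R ∈ S.q'.fib Q, α < S.q'.e R → Z R ≤ α := by
    intro Q
    rcases S.fib_bound m₁ h₁' hN Q with a₁ | a₁
    · rcases S.fib_bound m₂ h₂' hN Q with a₂ | a₂
      · exfalso
        have b₁ := ((mem_LT2_iff_cont g₁ _ _).1 a₁).2
        have b₂ := ((mem_LT2_iff_cont g₂ _ _).1 a₂).2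
        have b : M ≤ M - pd Q := sup_le b₁ b₂
        have b' := deg_mono b
        rw [deg_sub, deg_pd] at b'
        omega
      · exact ⟨_, inf_le_right, a₂⟩
    · exact ⟨_, inf_le_left, a₁⟩
  refine le_trans (K7_deg_le S.q' (le_inf z₁ z₂) hW0 (α := α) (fun Q => ?_) (fun R => ?_))
    (mul_le_mul_of_nonneg_left hWd (sq_nonneg _))
  · obtain ⟨Z, hZ, hcard, -⟩ := key Q
    refine le_trans (Finset.card_le_card fun R hR => ?_) hcard
    rw [Finset.mem_filter] at hR ⊢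
    exact ⟨hR.1, hR.2.trans_le (hZ R)⟩
  · obtain ⟨Z, hZ, -, he⟩ := key (S.q'.res R)
    have h1 := hW R
    rw [S.q'.pull_apply] at h1
    have h2 : (0 : ℤ) ≤ W (S.q'.res R) := hW0 _
    by_cases h3 : α < S.q'.e R
    · have h4 := (hZ R).trans (he R (S.q'.mem_fib.2 rfl) h3)
      rcases h2.eq_or_lt with h5 | h5
      · rw [← h5, mul_zero] at h1 ⊢
        exact h1
      · exact h4.trans (le_mul_of_one_le_right (Int.natCast_nonneg _) h5)
    · have h4 : (S.q'.e R : ℤ) ≤ α := by exact_mod_cast not_lt.1 h3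
      exact h1.trans (mul_le_mul_of_nonneg_right h4 h2)

theorem K7_Z_le (S : Sq κ F' E F) {M : Dv κ F'} {N N₀ : Dv κ E} {h G : F' ⊗[κ] E}
    (hm : h * G ∈ LT2 M N) (hG : G ∈ LT F' (N - N₀)) (h0 : S.rho (h * G) ≠ 0) :
    S.Z (cont h) N₀ h ≤ S.Z M N (h * G) := by
  rw [map_mul] at h0
  have r₁ : S.rho h ≠ 0 := left_ne_zero_of_mul h0
  have r₂ : S.rho G ≠ 0 := right_ne_zero_of_mul h0
  have g₁ : h ≠ 0 := fun e => r₁ (by rw [e, map_zero])
  have g₂ : G ≠ 0 := fun e => r₂ (by rw [e, map_zero])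
  have c := ((mem_LT2_iff_cont (mul_ne_zero g₁ g₂) M N).1 hm).2
  rw [cont_mul g₁ g₂] at c
  have m : G ∈ LT2 (M - cont h) (N - N₀) :=
    (mem_LT2_iff_cont g₂ _ _).2 ⟨hG, le_sub_iff_add_le'.2 c⟩
  have z := S.Z_nonneg m r₂
  have e : S.Z M N (h * G) = S.Z (cont h) N₀ h + S.Z (M - cont h) (N - N₀) G := by
    unfold Sq.Z
    rw [map_mul, dv_mul r₁ r₂, FHom.pull_sub, FHom.pull_sub]
    abel
  rw [e]
  exact le_add_of_nonneg_right z

end

end Pool.Agent.E6b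

end
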