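import Pool.Agent.E6b.SurfDefs
import Pool.Agent.E6c.A17

section
open scoped NNReal TensorProduct IntermediateField BigOperators Classical Topology
open Filter

namespace Pool.Agent.E6b
variable {κ F : Type} [Field κ] [IsAlgClosed κ] [CharZero κ] [Field F] [Algebra κ F] [IsFF κ F]

theorem Place.ev_aeval (P : Place κ F) {σ : Type*} (x : σ → F) (hx : ∀ i, x i ∈ P.O)
    (Q : MvPolynomial σ κ) : MvPolynomial.aeval x Q ∈ P.O ∧
      P.ev (MvPolynomial.aeval x Q) = MvPolynomial.eval (fun i => P.ev (x i)) Q := by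
  induction Q using MvPolynomial.induction_on with
  | C c =>
    rw [MvPolynomial.aeval_C, MvPolynomial.eval_C]
    exact ⟨P.const c, P.ev_algebraMap c⟩
  | add p q hp hq =>
    rw [map_add, map_add]
    exact ⟨add_mem hp.1 hq.1, by rw [P.ev_add hp.1 hq.1, hp.2, hq.2]⟩
  | mul_X p i hp =>
    rw [map_mul, map_mul, MvPolynomial.aeval_X, MvPolynomial.eval_X]
    exact ⟨mul_mem hp.1 (hx i), by rw [P.ev_mul hp.1 (hx i), hp.2]⟩

end Pool.Agent.E6b

end

section
open scoped NNReal TensorProduct IntermediateField BigOperators Classical Topology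
open Filter

namespace Pool.Agent.E6b

section
variable {F : Type} [Field F] [Algebra Qb F] [IsFF Qb F]

/-- an invariant basis of `L(m H)`, `H` the divisor of poles of `t`, for large `m` -/
structure Emb (A : GAct F) (t : F) where
  m : ℕ
  N : ℕ
  f : Fin (N + 1) → F
  m_pos : 0 < m
  fix : ∀ σ a, A.act σ (f a) = f a
  indep : LinearIndependent Qb f
  span : Submodule.span Qb (Set.range f) = LL (m • dinf Qb t)
  fin : ∀ g : F, (∀ P : Place Qb F, t ∈ P.O → g ∈ P.O) → g ∈ Algebra.adjoin Qb (Set.range f)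
  inf : ∀ g : F, (∀ P : Place Qb F, t⁻¹ ∈ P.O → g ∈ P.O) →
    g ∈ Algebra.adjoin Qb (Set.range fun a => f a / t ^ m)
variable {A : GAct F} {t : F} (E : Emb A t)

/-- coordinates of the Segre embedding -/
def Emb.ix (i : Fin (2 * E.N + 1 + 1)) : Fin (E.N + 1) × Fin 2 :=
  finProdFinEquiv.symm (Fin.cast (by ring) i)

/-- the parametrisation `X (a, ε) ↦ f a * U ε` -/
noncomputable def Emb.psi : MvPolynomial (Fin (2 * E.N + 1 + 1)) Qb →ₐ[Qb] MvPolynomial (Fin 2) F :=
  MvPolynomial.aeval fun i => MvPolynomial.C (E.f (E.ix i).1) * MvPolynomial.X (E.ix i).2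

/-- the ideal over the rationals -/
noncomputable def Emb.I : Ideal (MvPolynomial (Fin (2 * E.N + 1 + 1)) ℚ) :=
  (RingHom.ker E.psi).comap (MvPolynomial.map (algebraMap ℚ Qb))

/-- normalised basis at a place -/
noncomputable def Emb.nf (R : Place Qb F) (a : Fin (E.N + 1)) : F :=
  if t ∈ R.O then E.f a else E.f a / t ^ E.m

/-- homogeneous coordinates of the point `(R, μ)` -/
noncomputable def Emb.pt (R : Place Qb F) (μ : Fin 2 → Qb) (i : Fin (2 * E.N + 1 + 1)) : Qb :=
  R.ev (E.nf R (E.ix i).1) * μ (E.ix i).2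

end

end Pool.Agent.E6b

end

section
open scoped NNReal TensorProduct IntermediateField BigOperators Classical Topology
open Filter

namespace Pool.Agent.E6b
variable {F : Type} [Field F] [Algebra Qb F] [IsFF Qb F] (A : GAct F)

omit [IsFF Qb F] in
theorem S1a_act_smul (σ : Qb ≃ₐ[ℚ] Qb) (c : Qb) (g : F) :
    A.act σ (c • g) = σ c • A.act σ g := by
  rw [Algebra.smul_def, map_mul, A.comm, Algebra.smul_def]

theorem S1a_lift (K : IntermediateField ℚ Qb) (φ : K →ₐ[ℚ] Qb) :
    ∃ σ : Qb ≃ₐ[ℚ] Qb, ∀ x : K, σ x = φ x := by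
  have := H3_isGalois
  refine ⟨AlgEquiv.ofBijective (φ.liftNormal Qb) (AlgHom.normal_bijective ℚ Qb Qb _), fun x => ?_⟩
  exact φ.liftNormal_commutes Qb x

omit [IsFF Qb F] in
theorem S1a_mem_span (V : Submodule Qb F) (hV : ∀ σ, ∀ g ∈ V, A.act σ g ∈ V) {g : F}
    (hg : g ∈ V) : g ∈ Submodule.span Qb {f | f ∈ V ∧ ∀ σ, A.act σ f = f} := by
  obtain ⟨K, hK, hfix⟩ := A.opn g
  choose s hs using S1a_lift K
  have hcongr : ∀ σ τ : Qb ≃ₐ[ℚ] Qb, (∀ x : K, σ x = τ x) → A.act σ g = A.act τ g := by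
    intro σ τ h
    have h1 : A.act (τ⁻¹ * σ) g = g := hfix _ fun x hx => by
      rw [AlgEquiv.mul_apply, h ⟨x, hx⟩, ← AlgEquiv.mul_apply, inv_mul_cancel, AlgEquiv.one_apply]
    have h2 : A.act σ g = A.act τ (A.act (τ⁻¹ * σ) g) := by
      rw [← RingAut.mul_apply, ← map_mul, mul_inv_cancel_left]
    rw [h2, h1]
  have hT : ∀ b : K, ∑ φ : K →ₐ[ℚ] Qb, φ b • A.act (s φ) g ∈
      {f | f ∈ V ∧ ∀ σ, A.act σ f = f} := by
    intro b
    refine ⟨V.sum_mem fun φ _ => V.smul_mem _ (hV _ _ hg), fun τ => ?_⟩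
    rw [map_sum]
    refine Fintype.sum_bijective (fun φ : K →ₐ[ℚ] Qb => τ.toAlgHom.comp φ) ?_ _ _ fun φ => ?_
    · refine Finite.injective_iff_bijective.1 fun φ ψ h => AlgHom.ext fun x => ?_
      exact τ.injective (DFunLike.congr_fun h x)
    · rw [S1a_act_smul, ← RingAut.mul_apply, ← map_mul]
      congr 1
      refine hcongr _ _ fun x => ?_
      rw [AlgEquiv.mul_apply, hs, hs]
      rfl
  by_contra hne
  obtain ⟨lam, h1, h2⟩ := Submodule.exists_dual_map_eq_bot_of_notMem hne inferInstance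
  have h3 : ∑ φ : K →ₐ[ℚ] Qb, lam (A.act (s φ) g) • φ.toLinearMap = 0 := by
    ext b
    have h4 : lam (∑ φ : K →ₐ[ℚ] Qb, φ b • A.act (s φ) g) = 0 := by
      rw [← Submodule.mem_bot Qb, ← h2]
      exact Submodule.mem_map_of_mem (Submodule.subset_span (hT b))
    rw [map_sum] at h4
    rw [LinearMap.sum_apply, LinearMap.zero_apply, ← h4]
    refine Finset.sum_congr rfl fun φ _ => ?_
    rw [map_smul, LinearMap.smul_apply, smul_eq_mul, smul_eq_mul, mul_comm]
    rfl
  have h5 := Fintype.linearIndependent_iff.1 (linearIndependent_algHom_toLinearMap ℚ K Qb) _ h3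
    K.val
  rw [hfix (s K.val) fun x hx => hs K.val ⟨x, hx⟩] at h5
  exact h1 h5

omit [IsFF Qb F] in
/-- Galois descent for a stable finite dimensional subspace -/
theorem GAct.exists_fixed_basis (V : Submodule Qb F) [Module.Finite Qb V]
    (hV : ∀ σ, ∀ g ∈ V, A.act σ g ∈ V) : ∃ f : Fin (Module.finrank Qb V) → F,
      (∀ σ a, A.act σ (f a) = f a) ∧ LinearIndependent Qb f ∧
        Submodule.span Qb (Set.range f) = V := by
  have h : Submodule.span Qb {f | f ∈ V ∧ ∀ σ, A.act σ f = f} = V :=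
    le_antisymm (Submodule.span_le.2 fun f hf => hf.1) fun g hg => S1a_mem_span A V hV hg
  generalize hS : {f | f ∈ V ∧ ∀ σ, A.act σ f = f} = S at h
  have hS' : ∀ f ∈ S, ∀ σ, A.act σ f = f := fun f hf => by
    rw [← hS] at hf
    exact hf.2
  clear hS hV
  subst h
  obtain ⟨f, h1, h2, h3⟩ := Submodule.exists_fun_fin_finrank_span_eq Qb S
  exact ⟨f, fun σ a => hS' _ (h1 a) σ, h3, h2⟩

omit [IsFF Qb F] in
/-- invariant elements independent over the rationals are independent over `Qb` -/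
theorem GAct.linearIndependent_of_fixed {ι : Type} (g : ι → F) (hg : ∀ σ i, A.act σ (g i) = g i)
    (h : ∀ (s : Finset ι) (c : ι → ℚ), ∑ i ∈ s, (c i : Qb) • g i = 0 → ∀ i ∈ s, c i = 0) :
    LinearIndependent Qb g := by
  rw [linearIndependent_iff']
  intro s
  induction s using Finset.induction_on with
  | empty => intro c _ i hi; simp at hi
  | insert a s ha ih =>
    intro c hc
    have ha0 : c a = 0 := by
      by_contra h0
      have h1 : ∑ i ∈ insert a s, (c i / c a) • g i = 0 := by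
        have : ∑ i ∈ insert a s, (c i / c a) • g i = (c a)⁻¹ • ∑ i ∈ insert a s, c i • g i := by
          rw [Finset.smul_sum]
          refine Finset.sum_congr rfl fun i _ => ?_
          rw [smul_smul, div_eq_inv_mul]
        rw [this, hc, smul_zero]
      have h2 : ∀ i, ∃ q : ℚ, i ∈ insert a s → (q : Qb) = c i / c a := fun i => by
        by_cases hi : i ∈ insert a s
        · have : c i / c a ∈ (⊥ : IntermediateField ℚ Qb) := by
            refine mem_of_fixed _ fun σ _ => ?_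
            rcases Finset.mem_insert.1 hi with rfl | hi
            · rw [div_self h0, map_one]
            · have h3 : ∑ i ∈ insert a s, σ (c i / c a) • g i = 0 := by
                have := congrArg (A.act σ) h1
                rw [map_sum, map_zero] at this
                rw [← this]
                exact Finset.sum_congr rfl fun i _ => by rw [S1a_act_smul, hg]
              rw [Finset.sum_insert ha, div_self h0] at h1 h3
              rw [map_one] at h3
              have h4 : ∑ i ∈ s, (σ (c i / c a) - c i / c a) • g i = 0 := by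
                simp only [sub_smul, Finset.sum_sub_distrib]
                rw [sub_eq_zero]
                exact add_left_cancel (h3.trans h1.symm)
              exact sub_eq_zero.1 (ih _ h4 i hi)
          obtain ⟨q, hq⟩ := IntermediateField.mem_bot.1 this
          exact ⟨q, fun _ => hq⟩
        · exact ⟨0, fun h' => absurd h' hi⟩
      choose q hq using h2
      have h5 := h (insert a s) q (by
        rw [← h1]
        exact Finset.sum_congr rfl fun i hi => by rw [hq i hi]) a (Finset.mem_insert_self a s)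
      have h6 := hq a (Finset.mem_insert_self a s)
      rw [h5, div_self h0] at h6
      simp at h6
    rw [Finset.sum_insert ha, ha0, zero_smul, zero_add] at hc
    intro i hi
    rcases Finset.mem_insert.1 hi with rfl | hi
    · exact ha0
    · exact ih c hc i hi

theorem S1a_sup {t : F} (ht : t ∉ (algebraMap Qb F).range) {m : ℕ}
    (hm : 2 * genus Qb F + 1 ≤ m) :
    LL (m • dinf Qb t) ⊔ LL (m • dinf Qb t - dv Qb t) = LL ((m + 1) • dinf Qb t) := by
  have hn : (1 : ℤ) ≤ rk Qb t := by exact_mod_cast rk_pos ht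
  have hm' : 2 * (genus Qb F : ℤ) + 1 ≤ m := by exact_mod_cast hm
  have hg : (0 : ℤ) ≤ genus Qb F := by positivity
  have h1 : LL (m • dinf Qb t) ⊓ LL (m • dinf Qb t - dv Qb t) ≤
      LL (m • dinf Qb t - dv Qb t - dinf Qb t) := by
    rintro f ⟨f1, f2⟩
    by_cases h0 : f = 0
    · exact mem_LL.2 (Or.inl h0)
    refine mem_LL.2 (Or.inr fun P => ?_)
    have g1 := (mem_LL.1 f1).resolve_left h0 P
    have g2 := (mem_LL.1 f2).resolve_left h0 P
    simp only [Finsupp.sub_apply, dv_apply] at g2 ⊢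
    rw [dinf_apply t P]
    omega
  have h2 := Submodule.finrank_sup_add_finrank_inf_eq (LL (m • dinf Qb t))
    (LL (m • dinf Qb t - dv Qb t))
  have h3 := Submodule.finrank_mono h1
  have d1 : deg (m • dinf Qb t) = m * rk Qb t := by rw [deg_nsmul, deg_dinf_rk ht]
  have d2 : deg (m • dinf Qb t - dv Qb t) = m * rk Qb t := by rw [deg_sub, d1, deg_dv, sub_zero]
  have d3 : deg (m • dinf Qb t - dv Qb t - dinf Qb t) = m * rk Qb t - rk Qb t := by
    rw [deg_sub, d2, deg_dinf_rk ht]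
  have d4 : deg ((m + 1) • dinf Qb t) = m * rk Qb t + rk Qb t := by
    rw [succ_nsmul, deg_add, d1, deg_dinf_rk ht]
  have e1 := rr_large (D := m • dinf Qb t) (by rw [d1]; nlinarith)
  have e2 := rr_large (D := m • dinf Qb t - dv Qb t) (by rw [d2]; nlinarith)
  have e3 := rr_large (D := m • dinf Qb t - dv Qb t - dinf Qb t) (by rw [d3]; nlinarith)
  have e4 := rr_large (D := (m + 1) • dinf Qb t) (by rw [d4]; nlinarith)
  rw [d1] at e1
  rw [d2] at e2
  rw [d3] at e3
  rw [d4] at e4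
  unfold ell at e1 e2 e3 e4
  refine Submodule.eq_of_le_of_finrank_le (sup_le (LL_mono ?_) (LL_mono ?_)) (by omega)
  · exact nsmul_le_nsmul_left (F2_dinf_nonneg t) m.le_succ
  · intro P
    rw [succ_nsmul, Finsupp.sub_apply, Finsupp.add_apply, dv_apply, dinf_apply t P]
    omega

theorem S1a_exists_mem {t g : F} (h : ∀ P : Place Qb F, t ∈ P.O → g ∈ P.O) :
    ∃ n : ℕ, g ∈ LL (n • dinf Qb t) := by
  refine ⟨(dinf Qb g).support.sup fun P => (dinf Qb g P).toNat,
    mem_LL.2 (Or.inr fun P => ?_)⟩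
  generalize hn : ((dinf Qb g).support.sup fun P => (dinf Qb g P).toNat) = n
  rw [Finsupp.smul_apply, nsmul_eq_mul, dinf_apply]
  by_cases hP : t ∈ P.O
  · have h1 := P.mem_iff.1 (h P hP)
    have h2 : (0 : ℤ) ≤ n * max (-P.ord t) 0 := by positivity
    omega
  · have h1 : 1 ≤ max (-P.ord t) 0 := by
      rw [P.mem_iff] at hP
      omega
    have h2 : (dinf Qb g P).toNat ≤ n := by
      by_cases h0 : P ∈ (dinf Qb g).support
      · rw [← hn]
        exact Finset.le_sup (f := fun P => (dinf Qb g P).toNat) h0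
      · rw [Finsupp.notMem_support_iff.1 h0]
        simp
    rw [dinf_apply] at h2
    have h3 : (n : ℤ) * 1 ≤ n * max (-P.ord t) 0 :=
      mul_le_mul_of_nonneg_left h1 (by positivity)
    omega

theorem exists_adjoin_LL {t : F} (ht : t ∉ (algebraMap Qb F).range) : ∃ m₀ : ℕ, ∀ m, m₀ ≤ m →
    ∀ g : F, (∀ P : Place Qb F, t ∈ P.O → g ∈ P.O) →
      g ∈ Algebra.adjoin Qb (LL (m • dinf Qb t) : Set F) := by
  refine ⟨2 * genus Qb F + 1, fun m hm g hg => ?_⟩
  have ht0 : t ≠ 0 := fun h => ht ⟨0, by rw [h, map_zero]⟩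
  have htm : t ∈ Algebra.adjoin Qb (LL (m • dinf Qb t) : Set F) := by
    refine Algebra.subset_adjoin (LL_mono ?_ (mem_LL_dinf t))
    simpa using nsmul_le_nsmul_left (F2_dinf_nonneg (κ := Qb) t) (show 1 ≤ m by omega)
  have h1 : ∀ n : ℕ, ∀ f ∈ LL ((m + n) • dinf Qb t),
      f ∈ Algebra.adjoin Qb (LL (m • dinf Qb t) : Set F) := fun n => by
    induction n with
    | zero => exact fun f hf => Algebra.subset_adjoin hf
    | succ n ih =>
      intro f hf
      rw [← add_assoc, ← S1a_sup ht (by omega)] at hf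
      obtain ⟨x, hx, y, hy, rfl⟩ := Submodule.mem_sup.1 hf
      refine add_mem (ih x hx) ?_
      have h2 : t⁻¹ ∈ LL (dv Qb t) := mem_LL.2 (Or.inr fun P => by rw [dv_apply, P.ord_inv])
      have h3 := mul_mem_LL hy h2
      rw [sub_add_cancel] at h3
      have h4 := mul_mem htm (ih _ h3)
      rwa [mul_left_comm, mul_inv_cancel₀ ht0, mul_one] at h4
  obtain ⟨n, hn⟩ := S1a_exists_mem hg
  exact h1 n g (LL_mono (nsmul_le_nsmul_left (F2_dinf_nonneg t) (by omega)) hn)

theorem exists_emb {t : F} (ht : t ∉ (algebraMap Qb F).range) (hA : ∀ σ, A.act σ t = t) :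
    Nonempty (Emb A t) := by
  have ht0 : t ≠ 0 := fun h => ht ⟨0, by rw [h, map_zero]⟩
  have ht' : t⁻¹ ∉ (algebraMap Qb F).range := by
    rintro ⟨c, hc⟩
    exact ht ⟨c⁻¹, by rw [map_inv₀, hc, inv_inv]⟩
  obtain ⟨m₀, h0⟩ := exists_adjoin_LL ht
  obtain ⟨m₁, h1⟩ := exists_adjoin_LL ht'
  obtain ⟨m, hm⟩ : ∃ m, m = m₀ + m₁ + 1 := ⟨_, rfl⟩
  have hV : ∀ σ, ∀ g ∈ LL (m • dinf Qb t), A.act σ g ∈ LL (m • dinf Qb t) := fun σ g hg => by
    have h2 := ((A.fh σ).map_mem_LL).2 hg
    rw [FHom.pull_nsmul, FHom.pull_dinf] at h2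
    have h3 : (A.fh σ).f t = t := hA σ
    rwa [h3] at h2
  have hpos : 1 ≤ ell (m • dinf Qb t) := one_le_ell (nsmul_nonneg (F2_dinf_nonneg t) m)
  obtain ⟨N, hN⟩ : ∃ N, Module.finrank Qb (LL (m • dinf Qb t)) = N + 1 :=
    ⟨ell (m • dinf Qb t) - 1, by unfold ell at hpos ⊢; omega⟩
  have hb := A.exists_fixed_basis (LL (m • dinf Qb t)) hV
  rw [hN] at hb
  obtain ⟨f, hf1, hf2, hf3⟩ := hb
  refine ⟨⟨m, N, f, by omega, hf1, hf2, hf3, fun g hg => ?_, fun g hg => ?_⟩⟩
  · have := h0 m (by omega) g hg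
    rwa [← hf3, Algebra.adjoin_span] at this
  · refine Algebra.adjoin_le (fun y hy => ?_) (h1 m (by omega) g hg)
    have h2 : y * t ^ m ∈ LL (m • dinf Qb t) := by
      have h3 : t ^ m ∈ LL (-(m • dv Qb t)) := mem_LL.2 (Or.inr fun P => by
        rw [Finsupp.neg_apply, neg_neg, Finsupp.smul_apply, nsmul_eq_mul, dv_apply, P.ord_pow])
      refine LL_mono (le_of_eq ?_) (mul_mem_LL hy h3)
      rw [← smul_neg, ← smul_add]
      congr 1
      ext P
      rw [Finsupp.add_apply, Finsupp.neg_apply, dinf_apply, dinf_apply, dv_apply, P.ord_inv]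
      omega
    rw [← hf3] at h2
    obtain ⟨c, hc⟩ := (Submodule.mem_span_range_iff_exists_fun Qb).1 h2
    have h4 : y = ∑ a, c a • (f a / t ^ m) := by
      simp only [← smul_div_assoc, ← Finset.sum_div, hc]
      rw [mul_div_cancel_right₀ _ (pow_ne_zero m ht0)]
    rw [h4]
    exact sum_mem fun a _ => Subalgebra.smul_mem _
      (Algebra.subset_adjoin (Set.mem_range_self (f := fun a => f a / t ^ m) a)) _

end Pool.Agent.E6b

end

section
open scoped NNReal TensorProduct IntermediateField BigOperators Classical Topology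
open Filter

namespace Pool.Agent.E6b
variable {F : Type} [Field F] [Algebra Qb F] [IsFF Qb F] {A : GAct F} {t : F} (E : Emb A t)

omit [IsFF Qb F] in
/-- a relation with rationally independent constants between invariant elements is trivial -/
theorem S1_indep (A : GAct F) {ι : Type} (s : Finset ι) (β : ι → Qb)
    (hβ : ∀ c : ι → ℚ, ∑ i ∈ s, (c i : Qb) * β i = 0 → ∀ i ∈ s, c i = 0) (h : ι → F)
    (hh : ∀ σ i, A.act σ (h i) = h i) (h0 : ∑ i ∈ s, β i • h i = 0) : ∀ i ∈ s, h i = 0 := by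
  have : CharZero F := charZero_of_injective_algebraMap (algebraMap Qb F).injective
  have hq : ∀ (q : ℚ) (x : F), (q : Qb) • x = q • x := fun q x => by
    rw [Algebra.smul_def, map_ratCast, Rat.smul_def]
  have : Module.Finite ℚ (Submodule.span ℚ (h '' (s : Set ι))) :=
    Module.Finite.span_of_finite ℚ (s.finite_toSet.image h)
  obtain ⟨e, he1, he2, he3⟩ := Submodule.exists_fun_fin_finrank_span_eq ℚ (h '' (s : Set ι))
  have hfix : ∀ σ j, A.act σ (e j) = e j := fun σ j => by
    obtain ⟨i, -, hi⟩ := he1 j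
    rw [← hi, hh]
  have hind : LinearIndependent Qb e := by
    refine A.linearIndependent_of_fixed e hfix fun s' c hc => ?_
    refine linearIndependent_iff'.1 he3 s' c ?_
    rw [← hc]
    exact Finset.sum_congr rfl fun j _ => (hq _ _).symm
  have hc : ∀ i, ∃ c : _ → ℚ, i ∈ s → ∑ j, c j • e j = h i := fun i => by
    by_cases hi : i ∈ s
    · have : h i ∈ Submodule.span ℚ (Set.range e) := by
        rw [he2]
        exact Submodule.subset_span ⟨i, hi, rfl⟩
      obtain ⟨c, hc⟩ := (Submodule.mem_span_range_iff_exists_fun ℚ).1 this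
      exact ⟨c, fun _ => hc⟩
    · exact ⟨0, fun h' => absurd h' hi⟩
  choose c hc using hc
  have h1 : ∑ j, (∑ i ∈ s, (c i j : Qb) * β i) • e j = 0 := by
    rw [← h0]
    simp only [Finset.sum_smul]
    rw [Finset.sum_comm]
    refine Finset.sum_congr rfl fun i hi => ?_
    rw [← hc i hi, Finset.smul_sum]
    refine Finset.sum_congr rfl fun j _ => ?_
    rw [mul_comm, mul_smul, hq]
  have h2 := Fintype.linearIndependent_iff.1 hind _ h1
  intro i hi
  rw [← hc i hi]
  refine Finset.sum_eq_zero fun j _ => ?_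
  rw [hβ (fun i => c i j) (h2 j) i hi, zero_smul]

theorem Emb.ix_bij : Function.Bijective E.ix :=
  finProdFinEquiv.symm.bijective.comp (finCongr (by ring)).bijective

theorem S1_psi_C (c : Qb) :
    E.psi (MvPolynomial.C c) = MvPolynomial.C (algebraMap Qb F c) := by
  unfold Emb.psi
  rw [MvPolynomial.aeval_C]
  rfl

theorem S1_psi_X (i : Fin (2 * E.N + 1 + 1)) :
    E.psi (MvPolynomial.X i) = MvPolynomial.C (E.f (E.ix i).1) * MvPolynomial.X (E.ix i).2 := by
  unfold Emb.psi
  rw [MvPolynomial.aeval_X]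

theorem S1_fixed (σ : Qb ≃ₐ[ℚ] Qb) (g : MvPolynomial (Fin (2 * E.N + 1 + 1)) ℚ) :
    MvPolynomial.map (A.act σ).toRingHom (E.psi (MvPolynomial.map (algebraMap ℚ Qb) g)) =
      E.psi (MvPolynomial.map (algebraMap ℚ Qb) g) := by
  induction g using MvPolynomial.induction_on with
  | C q =>
    rw [MvPolynomial.map_C, S1_psi_C, MvPolynomial.map_C]
    congr 1
    have := A.comm σ (algebraMap ℚ Qb q)
    rw [AlgEquiv.commutes] at this
    exact this
  | add p q hp hq => rw [map_add, map_add, map_add, hp, hq]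
  | mul_X p i hp =>
    rw [map_mul, map_mul, map_mul, hp, MvPolynomial.map_X, S1_psi_X, map_mul, MvPolynomial.map_C,
      MvPolynomial.map_X]
    congr 3
    exact E.fix σ _

theorem S1_coeff_fixed (σ : Qb ≃ₐ[ℚ] Qb) (g : MvPolynomial (Fin (2 * E.N + 1 + 1)) ℚ)
    (u : Fin 2 →₀ ℕ) :
    A.act σ (MvPolynomial.coeff u (E.psi (MvPolynomial.map (algebraMap ℚ Qb) g))) =
      MvPolynomial.coeff u (E.psi (MvPolynomial.map (algebraMap ℚ Qb) g)) := by
  have := congrArg (MvPolynomial.coeff u) (S1_fixed E σ g)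
  rw [MvPolynomial.coeff_map] at this
  exact this

/-- decomposition of a polynomial along a rational basis of the coefficient field -/
theorem S1_decomp {K : Type} [Field K] [Algebra ℚ K] {τ ι : Type} (b : Module.Basis ι ℚ K)
    (g : MvPolynomial τ K) : ∃ (s : Finset ι) (G : ι → MvPolynomial τ ℚ),
      g = ∑ i ∈ s, MvPolynomial.C (b i) * MvPolynomial.map (algebraMap ℚ K) (G i) := by
  refine ⟨g.support.biUnion fun m => (b.repr (g.coeff m)).support,
    fun i => ∑ m ∈ g.support, MvPolynomial.monomial m (b.repr (g.coeff m) i), ?_⟩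
  simp only [map_sum, Finset.mul_sum, MvPolynomial.map_monomial, MvPolynomial.C_mul_monomial]
  rw [Finset.sum_comm]
  conv_lhs => rw [g.as_sum]
  refine Finset.sum_congr rfl fun m hm => ?_
  rw [← map_sum]
  congr 1
  conv_lhs => rw [← b.linearCombination_repr (g.coeff m)]
  rw [Finsupp.linearCombination_apply, Finsupp.sum_of_support_subset _
    (Finset.subset_biUnion_of_mem (fun m => (b.repr (g.coeff m)).support) hm)
    (fun i a => a • b i) (fun i _ => zero_smul _ _)]
  refine Finset.sum_congr rfl fun i _ => ?_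
  rw [Algebra.smul_def, mul_comm]

/-- the extension of the ideal to a subfield of `Qb` -/
theorem Emb.map_I {K : Type} [Field K] [Algebra ℚ K] (ι : K →+* Qb) :
    E.I.map (MvPolynomial.map (algebraMap ℚ K)) =
      (RingHom.ker E.psi).comap (MvPolynomial.map ι) := by
  have hι : ι.comp (algebraMap ℚ K) = algebraMap ℚ Qb := Subsingleton.elim _ _
  apply le_antisymm
  · rw [Ideal.map_le_iff_le_comap]
    intro g hg
    rw [Ideal.mem_comap, Ideal.mem_comap, MvPolynomial.map_map, hι]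
    exact hg
  · intro g hg
    rw [Ideal.mem_comap, RingHom.mem_ker] at hg
    let b := Module.Basis.ofVectorSpace ℚ K
    obtain ⟨s, G, hG⟩ := S1_decomp b g
    have hβ : ∀ c : _ → ℚ, ∑ i ∈ s, (c i : Qb) * ι (b i) = 0 → ∀ i ∈ s, c i = 0 := by
      intro c hc
      refine linearIndependent_iff'.1 b.linearIndependent s c (ι.injective ?_)
      rw [map_zero, ← hc, map_sum]
      refine Finset.sum_congr rfl fun i _ => ?_
      rw [Algebra.smul_def, map_mul]
      congr 1
      exact (DFunLike.congr_fun hι (c i)).trans (eq_ratCast _ _)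
    have h1 : ∑ i ∈ s, MvPolynomial.C (algebraMap Qb F (ι (b i))) *
        E.psi (MvPolynomial.map (algebraMap ℚ Qb) (G i)) = 0 := by
      rw [← hg, hG, map_sum, map_sum]
      refine Finset.sum_congr rfl fun i _ => ?_
      rw [map_mul, map_mul, MvPolynomial.map_C, S1_psi_C, MvPolynomial.map_map, hι]
    have h2 : ∀ i ∈ s, G i ∈ E.I := by
      intro i hi
      unfold Emb.I
      rw [Ideal.mem_comap, RingHom.mem_ker]
      ext u
      rw [MvPolynomial.coeff_zero]
      refine S1_indep A s (fun i => ι (b i)) hβ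
        (fun i => MvPolynomial.coeff u (E.psi (MvPolynomial.map (algebraMap ℚ Qb) (G i))))
        (fun σ i => S1_coeff_fixed E σ _ u) ?_ i hi
      have := congrArg (MvPolynomial.coeff u) h1
      rw [MvPolynomial.coeff_sum, MvPolynomial.coeff_zero] at this
      rw [← this]
      refine Finset.sum_congr rfl fun i _ => ?_
      rw [MvPolynomial.coeff_C_mul, Algebra.smul_def]
    rw [hG]
    exact Ideal.sum_mem _ fun i hi => Ideal.mul_mem_left _ _ (Ideal.mem_map_of_mem _ (h2 i hi))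

theorem Emb.map_I_Qb : E.I.map (MvPolynomial.map (algebraMap ℚ Qb)) = RingHom.ker E.psi := by
  have := E.map_I (RingHom.id Qb)
  rw [this]
  ext g
  rw [Ideal.mem_comap, MvPolynomial.map_id]

theorem S1_psi_hom {p : MvPolynomial (Fin (2 * E.N + 1 + 1)) Qb} {m : ℕ} (hp : p.IsHomogeneous m) :
    (E.psi p).IsHomogeneous m := by
  have := hp.aeval (fun i => MvPolynomial.C (E.f (E.ix i).1) * MvPolynomial.X (E.ix i).2)
    (n := 1) (fun i => (MvPolynomial.isHomogeneous_X _ _).C_mul _)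
  rw [one_mul] at this
  exact this

theorem S1_psi_comp (p : MvPolynomial (Fin (2 * E.N + 1 + 1)) ℚ) (m : ℕ) :
    E.psi (MvPolynomial.map (algebraMap ℚ Qb) (MvPolynomial.homogeneousComponent m p)) =
      MvPolynomial.homogeneousComponent m (E.psi (MvPolynomial.map (algebraMap ℚ Qb) p)) := by
  induction p using MvPolynomial.induction_on' with
  | monomial u a =>
    have h1 : (MvPolynomial.monomial u a).IsHomogeneous u.degree :=
      MvPolynomial.isHomogeneous_monomial a rfl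
    have h2 := S1_psi_hom E (h1.map (algebraMap ℚ Qb))
    rw [MvPolynomial.homogeneousComponent_of_mem h1, MvPolynomial.homogeneousComponent_of_mem h2]
    split_ifs
    · rfl
    · rw [map_zero, map_zero]
  | add p q hp hq => simp only [map_add, hp, hq]

theorem Emb.homogeneous : ∀ f ∈ E.I, ∀ m : ℕ, MvPolynomial.homogeneousComponent m f ∈ E.I := by
  intro f hf m
  unfold Emb.I at hf ⊢
  rw [Ideal.mem_comap, RingHom.mem_ker] at hf ⊢
  rw [S1_psi_comp, hf, map_zero]

theorem Emb.geomPrime : (E.I.map (MvPolynomial.map (algebraMap ℚ Qb))).IsPrime := by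
  rw [E.map_I_Qb]
  exact RingHom.ker_isPrime _

/-- invariant sections are rational combinations of the basis -/
theorem Emb.exists_rat {g : F} (hg : g ∈ LL (E.m • dinf Qb t)) (h : ∀ σ, A.act σ g = g) :
    ∃ c : Fin (E.N + 1) → ℚ, g = ∑ a, (c a : Qb) • E.f a := by
  rw [← E.span] at hg
  obtain ⟨c, hc⟩ := (Submodule.mem_span_range_iff_exists_fun Qb).1 hg
  have h1 : ∀ a, ∃ q : ℚ, (q : Qb) = c a := fun a => by
    have : c a ∈ (⊥ : IntermediateField ℚ Qb) := by
      refine mem_of_fixed _ fun σ _ => ?_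
      have h2 : ∑ a, (σ (c a) - c a) • E.f a = 0 := by
        simp only [sub_smul, Finset.sum_sub_distrib]
        rw [sub_eq_zero, hc, ← h σ, ← hc, map_sum]
        exact Finset.sum_congr rfl fun a _ => by rw [S1a_act_smul, E.fix]
      exact sub_eq_zero.1 (Fintype.linearIndependent_iff.1 E.indep _ h2 a)
    obtain ⟨q, hq⟩ := IntermediateField.mem_bot.1 this
    exact ⟨q, hq⟩
  choose q hq using h1
  exact ⟨q, by rw [← hc]; exact Finset.sum_congr rfl fun a _ => by rw [hq]⟩

end Pool.Agent.E6b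

end

section
open scoped NNReal TensorProduct IntermediateField BigOperators Classical Topology
open Filter

namespace Pool.Agent.E6b
variable {F : Type} [Field F] [Algebra Qb F] [IsFF Qb F] {A : GAct F} {t : F} (E : Emb A t)
  (ht : t ∉ (algebraMap Qb F).range)

/-- normalising factor of the chart containing `R` -/
noncomputable def S2a_w (t : F) (n : ℕ) (R : Place Qb F) : F := if t ∈ R.O then 1 else (t ^ n)⁻¹

theorem S2a_nf (R : Place Qb F) (a : Fin (E.N + 1)) : E.nf R a = E.f a * S2a_w t E.m R := by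
  unfold Emb.nf S2a_w
  split_ifs
  · rw [mul_one]
  · rw [div_eq_mul_inv]

theorem S2a_f_mem (a : Fin (E.N + 1)) : E.f a ∈ LL (E.m • dinf Qb t) := by
  rw [← E.span]
  exact Submodule.subset_span ⟨a, rfl⟩

theorem S2a_H (t : F) (n : ℕ) (P : Place Qb F) :
    (n • dinf Qb t) P = n * max (- P.ord t) 0 := by
  rw [Finsupp.smul_apply, dinf_apply, nsmul_eq_mul]

theorem S2a_pow_mem (t : F) {k n : ℕ} (h : k ≤ n) : t ^ k ∈ LL (n • dinf Qb t) := by
  refine Or.inr fun P => ?_
  rw [S2a_H, P.ord_pow]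
  have h1 : (k : ℤ) ≤ n := by exact_mod_cast h
  have h2 : (0 : ℤ) ≤ k := Int.natCast_nonneg k
  rcases le_total (- P.ord t) 0 with h3 | h3
  · rw [max_eq_right h3]; nlinarith
  · rw [max_eq_left h3]; nlinarith

theorem S2a_fin {n : ℕ} {g : F} (hg : g ∈ LL (n • dinf Qb t)) {P : Place Qb F} (hP : t ∈ P.O) :
    g ∈ P.O := by
  rcases hg with rfl | hg
  · exact zero_mem _
  have h1 := hg P
  rw [S2a_H, max_eq_right (by have := P.mem_iff.1 hP; omega)] at h1
  rw [P.mem_iff]
  simpa using h1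

theorem S2a_ev_one (R : Place Qb F) : R.ev 1 = 1 := by
  simpa using R.ev_algebraMap 1

theorem S2a_aeval (R : Place Qb F) {ι : Type} {x : ι → F} (hx : ∀ i, x i ∈ R.O) {b : F}
    (hb : b ∈ Algebra.adjoin Qb (Set.range x)) : b ∈ R.O := by
  rw [Algebra.adjoin_range_eq_range_aeval] at hb
  obtain ⟨Q, rfl⟩ := hb
  exact (R.ev_aeval x hx Q).1

theorem S2a_ev_congr {R R' : Place Qb F} {ι : Type} {x : ι → F} (hx : ∀ i, x i ∈ R.O)
    (hx' : ∀ i, x i ∈ R'.O) (h : ∀ i, R.ev (x i) = R'.ev (x i)) {b : F}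
    (hb : b ∈ Algebra.adjoin Qb (Set.range x)) : R.ev b = R'.ev b := by
  rw [Algebra.adjoin_range_eq_range_aeval] at hb
  obtain ⟨Q, rfl⟩ := hb
  refine (R.ev_aeval x hx Q).2.trans (Eq.trans ?_ (R'.ev_aeval x hx' Q).2.symm)
  rw [funext h]

theorem S2a_psi (μ : Fin 2 → F) (g : MvPolynomial (Fin (2 * E.N + 1 + 1)) Qb) :
    MvPolynomial.eval μ (E.psi g) =
      MvPolynomial.aeval (fun i => E.f (E.ix i).1 * μ (E.ix i).2) g := by
  induction g using MvPolynomial.induction_on with
  | C c =>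
    simp [Emb.psi, MvPolynomial.algebraMap_apply]
  | add p q hp hq => rw [map_add, map_add, map_add, hp, hq]
  | mul_X p i hp =>
    rw [map_mul, map_mul, map_mul, hp]
    simp [Emb.psi]

/-- homogenisation evaluated along a ring homomorphism -/
theorem S2a_hom {B K : Type} [CommRing B] [CommRing K] (j : ℚ →+* B) (φ : B →+* K) (L L' : B)
    (τ : K) (h : φ L' = φ L * τ) (q : Polynomial ℚ) :
    φ (∑ k ∈ Finset.range (q.natDegree + 1), j (q.coeff k) * L' ^ k * L ^ (q.natDegree - k)) =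
      φ L ^ q.natDegree * q.eval₂ (φ.comp j) τ := by
  rw [Polynomial.eval₂_eq_sum_range, map_sum, Finset.mul_sum]
  refine Finset.sum_congr rfl fun k hk => ?_
  have hk' : k ≤ q.natDegree := Nat.lt_succ_iff.1 (Finset.mem_range.1 hk)
  obtain ⟨l, hl⟩ := Nat.exists_eq_add_of_le hk'
  rw [hl, Nat.add_sub_cancel_left, map_mul, map_mul, map_pow, map_pow, h, RingHom.comp_apply]
  ring
include ht

omit [IsFF Qb F] in
theorem S2a_ne : t ≠ 0 := fun h => ht ⟨0, by rw [map_zero, h]⟩

theorem S2a_inf {n : ℕ} {g : F} (hg : g ∈ LL (n • dinf Qb t)) {P : Place Qb F} (hP : t⁻¹ ∈ P.O) :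
    g / t ^ n ∈ P.O := by
  by_cases h0 : g = 0
  · rw [h0, zero_div]; exact zero_mem _
  have h1 := hg.resolve_left h0 P
  have h2 := P.mem_iff.1 hP
  rw [P.ord_inv] at h2
  rw [S2a_H, max_eq_left h2] at h1
  rw [P.mem_iff, P.ord_div h0 (pow_ne_zero _ (S2a_ne ht)), P.ord_pow]
  linarith

omit [IsFF Qb F] ht in
theorem S2a_inv {P : Place Qb F} (hP : t ∉ P.O) : t⁻¹ ∈ P.O := (P.O.mem_or_inv_mem t).resolve_left hP

theorem S2a_mem {n : ℕ} {g : F} (hg : g ∈ LL (n • dinf Qb t)) (R : Place Qb F) :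
    g * S2a_w t n R ∈ R.O := by
  unfold S2a_w
  split_ifs with h
  · rw [mul_one]; exact S2a_fin hg h
  · rw [← div_eq_mul_inv]; exact S2a_inf ht hg (S2a_inv h)

omit ht in
theorem S2a_ev_w {n : ℕ} (hn : 0 < n) {R : Place Qb F} (h : t ∉ R.O) :
    R.ev (S2a_w t n R) = 0 := by
  unfold S2a_w
  rw [if_neg h, ← inv_pow, R.ev_eq_zero_iff (pow_mem (S2a_inv h) n), R.ord_pow, R.ord_inv]
  right
  have h1 : R.ord t < 0 := by rw [R.mem_iff] at h; omega
  have h2 : (0 : ℤ) < n := by exact_mod_cast hn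
  nlinarith

namespace Emb

theorem nf_mem (R : Place Qb F) (a : Fin (E.N + 1)) : E.nf R a ∈ R.O := by
  rw [S2a_nf]
  exact S2a_mem ht (S2a_f_mem E a) R

theorem S2a_lin (R : Place Qb F) (c : Fin (E.N + 1) → Qb) :
    ∑ a, c a * R.ev (E.nf R a) = R.ev ((∑ a, c a • E.f a) * S2a_w t E.m R) := by
  have h : ∀ a, c a • E.nf R a ∈ R.O := fun a => by
    rw [Algebra.smul_def]; exact mul_mem (R.const _) (E.nf_mem ht R a)
  rw [Finset.sum_mul]
  simp only [smul_mul_assoc, ← S2a_nf]
  rw [R.ev_sum _ _ fun a _ => h a]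
  exact Finset.sum_congr rfl fun a _ => (R.ev_smul _ (E.nf_mem ht R a)).symm

omit ht in
theorem S2a_span {u : F} (hu : u ∈ LL (E.m • dinf Qb t)) :
    ∃ c : Fin (E.N + 1) → Qb, ∑ a, c a • E.f a = u := by
  rwa [← E.span, Submodule.mem_span_range_iff_exists_fun] at hu

theorem S2a_one (R : Place Qb F) : ∃ c : Fin (E.N + 1) → Qb,
    (∑ a, c a • E.f a) * S2a_w t E.m R = 1 := by
  unfold S2a_w
  split_ifs
  · obtain ⟨c, hc⟩ := E.S2a_span (S2a_pow_mem t (Nat.zero_le _))
    exact ⟨c, by rw [hc, pow_zero, mul_one]⟩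
  · obtain ⟨c, hc⟩ := E.S2a_span (S2a_pow_mem t le_rfl)
    exact ⟨c, by rw [hc, mul_inv_cancel₀ (pow_ne_zero _ (S2a_ne ht))]⟩

theorem exists_nf_ne_zero (R : Place Qb F) : ∃ a, R.ev (E.nf R a) ≠ 0 := by
  by_contra h
  push Not at h
  obtain ⟨c, hc⟩ := E.S2a_one ht R
  have h1 := E.S2a_lin ht R c
  rw [hc, S2a_ev_one] at h1
  simp [h] at h1

theorem pt_ne_zero (R : Place Qb F) {μ : Fin 2 → Qb} (hμ : μ ≠ 0) : E.pt R μ ≠ 0 := by
  obtain ⟨a, ha⟩ := E.exists_nf_ne_zero ht R
  obtain ⟨ε, hε⟩ := Function.ne_iff.1 hμ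
  obtain ⟨i, hi⟩ := E.ix_bij.2 (a, ε)
  refine Function.ne_iff.2 ⟨i, ?_⟩
  unfold Emb.pt
  rw [hi]
  exact mul_ne_zero ha hε

theorem S2a_eval (R : Place Qb F) (μ : Fin 2 → Qb)
    (g : MvPolynomial (Fin (2 * E.N + 1 + 1)) Qb) :
    MvPolynomial.eval (fun ε => S2a_w t E.m R * algebraMap Qb F (μ ε)) (E.psi g) ∈ R.O ∧
    R.ev (MvPolynomial.eval (fun ε => S2a_w t E.m R * algebraMap Qb F (μ ε)) (E.psi g)) =
      MvPolynomial.eval (E.pt R μ) g := by
  rw [S2a_psi]
  simp only [← mul_assoc, ← S2a_nf]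
  have h := R.ev_aeval (fun i => E.nf R (E.ix i).1 * algebraMap Qb F (μ (E.ix i).2))
    (fun i => mul_mem (E.nf_mem ht R _) (R.const _)) g
  refine ⟨h.1, h.2.trans ?_⟩
  congr 2
  funext i
  rw [R.ev_mul (E.nf_mem ht R _) (R.const _), R.ev_algebraMap]
  rfl

theorem eval_pt (R : Place Qb F) (μ : Fin 2 → Qb) {g : MvPolynomial (Fin (2 * E.N + 1 + 1)) Qb}
    (hg : E.psi g = 0) : MvPolynomial.eval (E.pt R μ) g = 0 := by
  rw [← (E.S2a_eval ht R μ g).2, hg, map_zero, F1a_ev_zero]

theorem S2a_div (R : Place Qb F) {g : F} (hg : g ∈ R.O) :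
    ∃ b ∈ Algebra.adjoin Qb (Set.range (E.nf R)), ∃ s ∈ Algebra.adjoin Qb (Set.range (E.nf R)),
      R.ev s ≠ 0 ∧ g * s = b := by
  have hd : 1 ≤ deg (dinf Qb t) := by
    rw [deg_dinf ht]
    have := finiteDimensional_of_transcendental (transcendental_of_notMem ht)
    exact_mod_cast Module.finrank_pos
  obtain ⟨n, hn⟩ : ∃ n : ℕ, 2 * (genus Qb F : ℤ) ≤ deg (n • dinf Qb t - dinf Qb g) := by
    refine ⟨(2 * (genus Qb F : ℤ) + deg (dinf Qb g)).toNat, ?_⟩
    rw [deg_sub, deg_nsmul]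
    have h1 := Int.self_le_toNat (2 * (genus Qb F : ℤ) + deg (dinf Qb g))
    have h2 := Int.natCast_nonneg (2 * (genus Qb F : ℤ) + deg (dinf Qb g)).toNat
    nlinarith
  obtain ⟨s, hs0, hs, hsR⟩ := bpf_of_large hn R
  have hs1 : s ∈ LL (n • dinf Qb t - dinf Qb g) := Or.inr hs
  have hs2 : s ∈ LL (n • dinf Qb t) := by
    refine LL_mono (fun P => ?_) hs1
    rw [Finsupp.sub_apply, dinf_apply]
    omega
  have hs3 : g * s ∈ LL (n • dinf Qb t) := by
    have h := mul_mem_LL (mem_LL_dinf g) hs1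
    rwa [add_sub_cancel] at h
  have hgR := R.mem_iff.1 hg
  rw [Finsupp.sub_apply, S2a_H, dinf_apply, max_eq_right (a := - R.ord g) (by omega)] at hsR
  by_cases h : t ∈ R.O
  · have e : E.nf R = E.f := funext fun a => if_pos h
    rw [e]
    refine ⟨g * s, E.fin _ fun P hP => S2a_fin hs3 hP, s, E.fin _ fun P hP => S2a_fin hs2 hP,
      ?_, rfl⟩
    rw [Ne, R.ev_eq_zero_iff (S2a_fin hs2 h), hsR,
      max_eq_right (by have := R.mem_iff.1 h; omega)]
    simp [hs0]
  · have e : E.nf R = fun a => E.f a / t ^ E.m := funext fun a => if_neg h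
    rw [e]
    refine ⟨g * s / t ^ n, E.inf _ fun P hP => S2a_inf ht hs3 hP, s / t ^ n,
      E.inf _ fun P hP => S2a_inf ht hs2 hP, ?_, (mul_div_assoc _ _ _).symm⟩
    have h0 := pow_ne_zero n (S2a_ne ht)
    rw [Ne, R.ev_eq_zero_iff (S2a_inf ht hs2 (S2a_inv h)), R.ord_div hs0 h0, hsR, R.ord_pow,
      max_eq_left (by rw [R.mem_iff] at h; omega)]
    simp [hs0, S2a_ne ht]

theorem pt_inj {R R' : Place Qb F} {μ μ' : Fin 2 → Qb} (hμ : μ ≠ 0)
    (h : Prp (E.pt R μ) (E.pt R' μ')) : R = R' ∧ Prp μ μ' := by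
  obtain ⟨c, hc, h⟩ := h
  have h1 : ∀ a ε, R.ev (E.nf R a) * μ ε = c * (R'.ev (E.nf R' a) * μ' ε) := fun a ε => by
    obtain ⟨i, hi⟩ := E.ix_bij.2 (a, ε)
    have h2 := h i
    unfold Emb.pt at h2
    rwa [hi] at h2
  obtain ⟨ε, hε⟩ := Function.ne_iff.1 hμ
  have hε' : μ ε ≠ 0 := hε
  obtain ⟨k, hk⟩ : ∃ k, ∀ a, R.ev (E.nf R a) = k * R'.ev (E.nf R' a) :=
    ⟨c * μ' ε / μ ε, fun a => by field_simp; linear_combination h1 a ε⟩
  obtain ⟨a₀, ha₀⟩ := E.exists_nf_ne_zero ht R
  have hk0 : k ≠ 0 := fun e => ha₀ (by rw [hk, e, zero_mul])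
  have h2 : ∀ u ∈ LL (E.m • dinf Qb t),
      R.ev (u * S2a_w t E.m R) = k * R'.ev (u * S2a_w t E.m R') := fun u hu => by
    obtain ⟨c, rfl⟩ := E.S2a_span hu
    rw [← E.S2a_lin ht, ← E.S2a_lin ht, Finset.mul_sum]
    exact Finset.sum_congr rfl fun a _ => by rw [hk]; ring
  have h3 := h2 _ (S2a_pow_mem t (Nat.zero_le _))
  have h4 := h2 _ (S2a_pow_mem t le_rfl)
  rw [pow_zero, one_mul, one_mul] at h3
  have h5 : E.nf R' = E.nf R ∧ k = 1 := by
    by_cases e : t ∈ R.O <;> by_cases e' : t ∈ R'.O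
    · refine ⟨funext fun a => (if_pos e').trans (if_pos e).symm, ?_⟩
      simpa [S2a_w, e, e', S2a_ev_one, eq_comm] using h3
    · rw [S2a_ev_w E.m_pos e'] at h3
      simp [S2a_w, e, S2a_ev_one] at h3
    · rw [S2a_ev_w E.m_pos e] at h3
      simp [S2a_w, e', S2a_ev_one, hk0.symm] at h3
    · refine ⟨funext fun a => (if_neg e').trans (if_neg e).symm, ?_⟩
      have h0 := pow_ne_zero E.m (S2a_ne ht)
      simp only [S2a_w, if_neg e, if_neg e', mul_inv_cancel₀ h0, S2a_ev_one, mul_one] at h4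
      exact h4.symm
  have hm : ∀ a, E.nf R a ∈ R'.O := fun a => h5.1 ▸ E.nf_mem ht R' a
  have h6 : R = R' := by
    refine Place.eq_of_le fun g hg => ?_
    obtain ⟨b, hb, s, hs, hs0, e⟩ := E.S2a_div ht R hg
    rw [S2a_ev_congr (E.nf_mem ht R) hm (fun a => by rw [hk, h5.1, h5.2, one_mul]) hs] at hs0
    have h7 := (R'.ev_div (S2a_aeval R' hm hb) (S2a_aeval R' hm hs) hs0).1
    have h8 : s ≠ 0 := fun e0 => hs0 (by rw [e0, F1a_ev_zero])
    rwa [← e, mul_div_cancel_right₀ _ h8] at h7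
  subst h6
  exact ⟨rfl, c, hc, fun ε => mul_left_cancel₀ ha₀ (by linear_combination h1 a₀ ε)⟩

theorem gal_pt (hA : ∀ σ, A.act σ t = t) (σ : Qb ≃ₐ[ℚ] Qb) (R : Place Qb F) (μ : Fin 2 → Qb)
    (i : Fin (2 * E.N + 1 + 1)) : σ (E.pt R μ i) = E.pt (A.sm σ R) (fun ε => σ (μ ε)) i := by
  have h1 : t ∈ (A.sm σ R).O ↔ t ∈ R.O := by
    have h := A.mem_sm σ R t
    rwa [hA] at h
  have h2 : ∀ a, E.nf (A.sm σ R) a = A.act σ (E.nf R a) := fun a => by
    unfold Emb.nf
    by_cases e : t ∈ R.O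
    · rw [if_pos e, if_pos (h1.2 e), E.fix]
    · rw [if_neg e, if_neg (mt h1.1 e), map_div₀, map_pow, hA, E.fix]
  unfold Emb.pt
  rw [map_mul, h2, A.ev_sm]

/-- the local ring at a place is a localisation of the chart -/
theorem exists_div (R : Place Qb F) {g : F} (hg : g ∈ R.O) :
    ∃ b ∈ Algebra.adjoin Qb (Set.range (E.nf R)), ∃ s ∈ Algebra.adjoin Qb (Set.range (E.nf R)),
      R.ev s ≠ 0 ∧ g * s = b := E.S2a_div ht R hg

theorem exists_one (R : Place Qb F) : ∃ c : Fin (E.N + 1) → Qb, ∑ a, c a • E.nf R a = 1 := by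
  obtain ⟨c, hc⟩ := E.S2a_one ht R
  refine ⟨c, ?_⟩
  rw [← hc, Finset.sum_mul]
  simp only [smul_mul_assoc, S2a_nf]

/-- a form vanishing at `(R, μ)` for infinitely many `R` and all rational `μ` vanishes -/
theorem psi_eq_zero {S : Set (Place Qb F)} (hS : S.Infinite)
    {g : MvPolynomial (Fin (2 * E.N + 1 + 1)) Qb}
    (h : ∀ R ∈ S, ∀ μ : Fin 2 → ℚ, μ ≠ 0 →
      MvPolynomial.eval (E.pt R fun ε => (μ ε : Qb)) g = 0) : E.psi g = 0 := by
  have hinj : Function.Injective fun q : ℚ => algebraMap Qb F (q : Qb) :=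
    (algebraMap Qb F).injective.comp Rat.cast_injective
  refine MvPolynomial.funext_set
    (fun _ => (fun q : ℚ => algebraMap Qb F (q : Qb)) '' ({0} : Set ℚ)ᶜ)
    (fun _ => (Set.finite_singleton _).infinite_compl.image hinj.injOn) fun x hx => ?_
  choose μ hμ hx' using fun ε => hx ε (Set.mem_univ _)
  have hμ0 : μ ≠ 0 := fun e => hμ 0 (congrFun e 0)
  rw [map_zero]
  by_contra h0
  refine hS (((F1_finite_zeros (κ := Qb) t⁻¹).union
    (F1_finite_zeros (κ := Qb) (MvPolynomial.eval x (E.psi g)))).subset fun R hR => ?_)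
  by_cases e : t ∈ R.O
  · right
    have h1 := E.S2a_eval ht R (fun ε => (μ ε : Qb)) g
    have h2 : (fun ε => S2a_w t E.m R * algebraMap Qb F (μ ε : Qb)) = x :=
      funext fun ε => by rw [S2a_w, if_pos e, one_mul]; exact hx' ε
    rw [h2, h R hR μ hμ0] at h1
    exact ((R.ev_eq_zero_iff h1.1).1 h1.2).resolve_left h0
  · left
    rw [R.mem_iff] at e
    change 0 < R.ord t⁻¹
    rw [R.ord_inv]
    omega

theorem S2a_form {u : F} (hu : u ∈ LL (E.m • dinf Qb t)) (h : ∀ σ, A.act σ u = u) :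
    ∃ L : MvPolynomial (Fin (2 * E.N + 1 + 1)) ℚ, L.IsHomogeneous 1 ∧
      E.psi (MvPolynomial.map (algebraMap ℚ Qb) L) = MvPolynomial.X 0 * MvPolynomial.C u ∧
      ∀ R μ, MvPolynomial.aeval (E.pt R μ) L = μ 0 * R.ev (u * S2a_w t E.m R) := by
  obtain ⟨c, rfl⟩ := E.exists_rat hu h
  choose i hi using fun a => E.ix_bij.2 (a, 0)
  refine ⟨∑ a, MvPolynomial.C (c a) * MvPolynomial.X (i a), ?_, ?_, fun R μ => ?_⟩
  · exact MvPolynomial.IsHomogeneous.sum _ _ _ fun a _ => MvPolynomial.isHomogeneous_C_mul_X _ _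
  · rw [map_sum, map_sum, map_sum, Finset.mul_sum]
    refine Finset.sum_congr rfl fun a _ => ?_
    simp only [Emb.psi, map_mul, MvPolynomial.map_C, MvPolynomial.map_X, MvPolynomial.aeval_C,
      MvPolynomial.aeval_X, hi, Algebra.smul_def, MvPolynomial.algebraMap_apply, eq_ratCast]
    ring
  · rw [← E.S2a_lin ht, map_sum, Finset.mul_sum]
    refine Finset.sum_congr rfl fun a _ => ?_
    simp only [Emb.pt, map_mul, MvPolynomial.aeval_C, MvPolynomial.aeval_X, hi, eq_ratCast]
    ring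

/-- a rational form vanishing above finitely many places, but not identically -/
theorem exists_form (hA : ∀ σ, A.act σ t = t) {S : Set (Place Qb F)} (hS : S.Finite) :
    ∃ (m : ℕ) (g : MvPolynomial (Fin (2 * E.N + 1 + 1)) ℚ), g.IsHomogeneous m ∧ g ∉ E.I ∧
      ∀ R ∈ S, ∀ μ, MvPolynomial.aeval (E.pt R μ) g = 0 := by
  obtain ⟨L, hL, hL1, hL2⟩ := E.S2a_form ht (S2a_pow_mem t (Nat.zero_le _))
    (fun σ => by rw [map_pow, hA])
  obtain ⟨L', hL', hL1', hL2'⟩ := E.S2a_form ht (S2a_pow_mem t E.m_pos)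
    (fun σ => by rw [map_pow, hA])
  rw [pow_zero, map_one, mul_one] at hL1
  rw [pow_one] at hL1' hL2'
  rw [pow_zero] at hL2
  obtain ⟨q, hq0, hq⟩ : ∃ q : Polynomial ℚ, q ≠ 0 ∧ ∀ R ∈ S, Polynomial.aeval (R.ev t) q = 0 := by
    refine ⟨∏ R ∈ hS.toFinset, minpoly ℚ (R.ev t), Finset.prod_ne_zero_iff.2 fun R _ =>
      minpoly.ne_zero (H3_isAlgebraic.isAlgebraic _).isIntegral, fun R hR => ?_⟩
    rw [map_prod]
    exact Finset.prod_eq_zero (hS.mem_toFinset.2 hR) (minpoly.aeval _ _)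
  refine ⟨1 + q.natDegree, L * ∑ k ∈ Finset.range (q.natDegree + 1),
    MvPolynomial.C (q.coeff k) * L' ^ k * L ^ (q.natDegree - k), hL.mul ?_, ?_, fun R hR μ => ?_⟩
  · refine MvPolynomial.IsHomogeneous.sum _ _ _ fun k hk => ?_
    have hk' : k ≤ q.natDegree := Nat.lt_succ_iff.1 (Finset.mem_range.1 hk)
    have h := ((MvPolynomial.isHomogeneous_C _ (q.coeff k)).mul (hL'.pow k)).mul
      (hL.pow (q.natDegree - k))
    rwa [show 0 + 1 * k + 1 * (q.natDegree - k) = q.natDegree by omega] at h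
  · intro hI
    rw [Emb.I, Ideal.mem_comap, RingHom.mem_ker] at hI
    have h := S2a_hom MvPolynomial.C
      (E.psi.toRingHom.comp (MvPolynomial.map (algebraMap ℚ Qb))) L L' (MvPolynomial.C t)
      (hL1'.trans (congrArg (· * MvPolynomial.C t) hL1.symm)) q
    have e : (E.psi.toRingHom.comp (MvPolynomial.map (algebraMap ℚ Qb))).comp MvPolynomial.C =
        (MvPolynomial.C : F →+* MvPolynomial (Fin 2) F).comp
          ((algebraMap Qb F).comp (algebraMap ℚ Qb)) := RingHom.ext_rat _ _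
    rw [e, ← Polynomial.hom_eval₂, ← Polynomial.eval₂_map, ← Polynomial.aeval_def] at h
    rw [map_mul, map_mul, hL1] at hI
    have h' := hI.symm.trans (congrArg (MvPolynomial.X 0 * ·) h)
    have h1 : (E.psi.toRingHom.comp (MvPolynomial.map (algebraMap ℚ Qb))) L = MvPolynomial.X 0 :=
      hL1
    rw [h1] at h'
    refine mul_ne_zero (MvPolynomial.X_ne_zero _) (mul_ne_zero
      (pow_ne_zero _ (MvPolynomial.X_ne_zero _)) ?_) h'.symm
    rw [Ne, MvPolynomial.C_eq_zero]
    exact fun e0 => transcendental_of_notMem ht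
      ⟨_, (Polynomial.map_ne_zero_iff (algebraMap ℚ Qb).injective).2 hq0, e0⟩
  · rw [map_mul]
    by_cases e : t ∈ R.O
    · have h := S2a_hom MvPolynomial.C (MvPolynomial.aeval (E.pt R μ)).toRingHom L L' (R.ev t)
        (by
          refine (hL2' R μ).trans (Eq.trans ?_ (congrArg (· * R.ev t) (hL2 R μ).symm))
          simp [S2a_w, e, S2a_ev_one]) q
      rw [RingHom.ext_rat (RingHom.comp _ _) (algebraMap ℚ Qb), ← Polynomial.aeval_def, hq R hR,
        mul_zero] at h
      exact mul_eq_zero_of_right _ h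
    · rw [hL2, one_mul, S2a_ev_w E.m_pos e, mul_zero, zero_mul]

end Emb

end Pool.Agent.E6b

end

section
open scoped NNReal TensorProduct IntermediateField BigOperators Classical Topology
open Filter

namespace Pool.Agent.E6b
variable {F : Type} [Field F] [Algebra Qb F] [IsFF Qb F] {A : GAct F} {t : F} (E : Emb A t)
  (ht : t ∉ (algebraMap Qb F).range)
include ht

namespace Emb

omit ht in
/-- homogenisation -/
theorem S2_hom (x : Fin (2 * E.N + 1 + 1) → Qb) (j : Fin (E.N + 1) → Fin (2 * E.N + 1 + 1))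
    (ε : Fin 2) (hj : ∀ a, E.ix (j a) = (a, ε)) (a₀ : Fin (E.N + 1)) (hx : x (j a₀) ≠ 0)
    (r : MvPolynomial (Fin (E.N + 1)) Qb) : ∃ (d : ℕ) (r' : MvPolynomial _ Qb),
      E.psi r' = E.psi (MvPolynomial.X (j a₀)) ^ d *
        MvPolynomial.C (MvPolynomial.aeval (fun a => E.f a / E.f a₀) r) ∧
      MvPolynomial.eval x r' = x (j a₀) ^ d * MvPolynomial.aeval (fun a => x (j a) / x (j a₀)) r := by
  induction r using MvPolynomial.induction_on with
  | C c => exact ⟨0, MvPolynomial.C c, by simp [psi], by simp⟩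
  | add p q hp hq =>
    obtain ⟨d, p', p1, p2⟩ := hp
    obtain ⟨e, q', q1, q2⟩ := hq
    refine ⟨d + e, p' * MvPolynomial.X (j a₀) ^ e + q' * MvPolynomial.X (j a₀) ^ d, ?_, ?_⟩
    · simp only [map_add, map_mul, map_pow, p1, q1]
      ring
    · simp only [map_add, map_mul, map_pow, p2, q2, MvPolynomial.eval_X]
      ring
  | mul_X p a hp =>
    obtain ⟨d, p', p1, p2⟩ := hp
    have h : ∀ b, E.psi (MvPolynomial.X (j b)) = MvPolynomial.C (E.f b) * MvPolynomial.X ε :=
      fun b => by rw [psi, MvPolynomial.aeval_X, hj]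
    refine ⟨d + 1, p' * MvPolynomial.X (j a), ?_, ?_⟩
    · have h1 : (MvPolynomial.C (E.f a) : MvPolynomial (Fin 2) F) =
          MvPolynomial.C (E.f a₀) * MvPolynomial.C (E.f a / E.f a₀) := by
        rw [← map_mul, mul_div_cancel₀ _ (E.indep.ne_zero a₀)]
      rw [map_mul, p1, map_mul, MvPolynomial.aeval_X, map_mul, pow_succ, h a, h1, h a₀]
      ring
    · rw [map_mul, p2, map_mul, MvPolynomial.aeval_X, MvPolynomial.eval_X]
      field_simp
      ring

theorem S2_nc (a₀ : Fin (E.N + 1)) :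
    ∃ b ∈ (MvPolynomial.aeval (R := Qb) fun a => E.f a / E.f a₀).range,
      b ∉ (algebraMap Qb F).range := by
  by_contra hc
  push Not at hc
  have h1 : ∀ y ∈ LL (E.m • dinf Qb t), y / E.f a₀ ∈ (algebraMap Qb F).range := fun y hy => by
    refine hc _ ?_
    rw [← E.span] at hy
    induction hy using Submodule.span_induction with
    | mem z hz =>
      obtain ⟨a, rfl⟩ := hz
      exact ⟨MvPolynomial.X a, MvPolynomial.aeval_X _ _⟩
    | zero => rw [zero_div]; exact zero_mem _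
    | add z w _ _ hz hw => rw [add_div]; exact add_mem hz hw
    | smul c z _ hz => rw [smul_div_assoc]; exact Subalgebra.smul_mem _ hz c
  have h2 : 0 ≤ dinf Qb t := fun P => by rw [dinf_apply]; exact le_max_right _ _
  obtain ⟨c, hc1⟩ := h1 1 ((mem_LL_iff one_ne_zero).2 (by
    rw [F1_dv_one, add_zero]; exact nsmul_nonneg h2 _))
  obtain ⟨c', hc2⟩ := h1 t (LL_mono (by
    simpa using nsmul_le_nsmul_left h2 (Nat.succ_le_of_lt E.m_pos)) (mem_LL_dinf t))
  refine ht ⟨c' / c, ?_⟩
  have h3 := E.indep.ne_zero a₀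
  rw [map_div₀, hc1, hc2]
  field_simp

/-- every point of the cone comes from a place -/
theorem exists_pt {x : Fin (2 * E.N + 1 + 1) → Qb} (hx : x ≠ 0)
    (h : ∀ g, E.psi g = 0 → MvPolynomial.eval x g = 0) :
    ∃ (R : Place Qb F) (μ : Fin 2 → Qb), μ ≠ 0 ∧ x = E.pt R μ := by
  let e := Equiv.ofBijective _ E.ix_bij
  have he : ∀ p, E.ix (e.symm p) = p := e.apply_symm_apply
  obtain ⟨i₀, hi₀⟩ := Function.ne_iff.1 hx
  obtain ⟨⟨a₀, ε⟩, rfl⟩ := e.symm.surjective i₀
  replace hi₀ : x (e.symm (a₀, ε)) ≠ 0 := hi₀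
  have h1 : ∀ a η, x (e.symm (a, η)) * x (e.symm (a₀, ε)) =
      x (e.symm (a, ε)) * x (e.symm (a₀, η)) := fun a η => by
    have h2 := h (MvPolynomial.X (e.symm (a, η)) * MvPolynomial.X (e.symm (a₀, ε)) -
      MvPolynomial.X (e.symm (a, ε)) * MvPolynomial.X (e.symm (a₀, η))) (by
        simp only [psi, map_sub, map_mul, MvPolynomial.aeval_X, he]
        ring)
    simpa [sub_eq_zero] using h2
  let θ : MvPolynomial (Fin (E.N + 1)) Qb →ₐ[Qb] F := MvPolynomial.aeval fun a => E.f a / E.f a₀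
  let χ : θ.range →ₐ[Qb] Qb := AlgHom.liftOfSurjective θ.rangeRestrict θ.rangeRestrict_surjective
    (MvPolynomial.aeval fun a => x (e.symm (a, ε)) / x (e.symm (a₀, ε))) fun r hr => by
      obtain ⟨d, r', r1, r2⟩ := E.S2_hom x (fun a => e.symm (a, ε)) ε (fun a => he _) a₀ hi₀ r
      have r3 : θ r = 0 := congrArg Subtype.val hr
      rw [show MvPolynomial.aeval (fun a => E.f a / E.f a₀) r = 0 from r3, map_zero,
        mul_zero] at r1
      exact (mul_eq_zero.1 (r2.symm.trans (h r' r1))).resolve_left (pow_ne_zero _ hi₀)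
  obtain ⟨R, hR⟩ := exists_place_of_algHom θ.range (E.S2_nc ht a₀) χ
  have h2 : ∀ a, R.ev (E.nf R a) =
      x (e.symm (a, ε)) / x (e.symm (a₀, ε)) * R.ev (E.nf R a₀) := fun a => by
    obtain ⟨h3, h4⟩ := hR (θ.rangeRestrict (MvPolynomial.X a))
    have h5 : (θ.rangeRestrict (MvPolynomial.X a) : F) = E.f a / E.f a₀ := MvPolynomial.aeval_X _ _
    have h6 : E.nf R a = E.f a / E.f a₀ * E.nf R a₀ := by
      have := E.indep.ne_zero a₀
      unfold nf
      split_ifs <;> field_simp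
    rw [h5] at h3 h4
    rw [h6, R.ev_mul h3 (E.nf_mem ht R a₀), h4]
    congr 1
    exact (AlgHom.liftOfSurjective_apply _ _ _ _ _).trans (MvPolynomial.aeval_X _ _)
  have h3 : R.ev (E.nf R a₀) ≠ 0 := fun c => by
    obtain ⟨a, ha⟩ := E.exists_nf_ne_zero ht R
    exact ha (by rw [h2, c, mul_zero])
  refine ⟨R, fun η => x (e.symm (a₀, η)) / R.ev (E.nf R a₀),
    Function.ne_iff.2 ⟨ε, div_ne_zero hi₀ h3⟩, funext fun i => ?_⟩
  obtain ⟨⟨a, η⟩, rfl⟩ := e.symm.surjective i
  rw [pt, he, h2 a]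
  field_simp
  exact h1 a η

end Emb

end Pool.Agent.E6b

end

section
open MvPolynomial TrivSqZeroExt

namespace Pool.Agent.E6b
variable {k : Type} [Field k]

theorem S3_dual {I : Type} [Fintype I] (x v : I → k) (g : MvPolynomial I k) :
    (aeval (fun i => (inl (x i) + inr (v i) : DualNumber k)) g).fst = aeval x g ∧
    (aeval (fun i => (inl (x i) + inr (v i) : DualNumber k)) g).snd =
      ∑ i, aeval x (pderiv i g) * v i := by
  classical
  induction g using MvPolynomial.induction_on with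
  | C a => simp [algebraMap_eq_inl]
  | add p q hp hq =>
    simp only [map_add, fst_add, snd_add, hp, hq, add_mul, Finset.sum_add_distrib, and_self]
  | mul_X p j hp =>
    refine ⟨by simp only [map_mul, aeval_X, fst_mul, hp, fst_add, fst_inl, fst_inr, add_zero], ?_⟩
    simp only [map_mul, aeval_X, DualNumber.snd_mul, hp.1, hp.2, pderiv_mul, map_add, add_mul,
      Finset.sum_add_distrib, pderiv_X, fst_add, snd_add, fst_inl, fst_inr, snd_inl, snd_inr,
      add_zero, zero_add, Finset.sum_mul]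
    rw [add_comm]
    congr 1
    · exact Finset.sum_congr rfl fun i _ => by ring
    · rw [Finset.sum_eq_single j (fun i _ h => by simp [h.symm]) (by simp)]
      simp
variable {O ι I : Type} [CommRing O] [Algebra k O] [Fintype ι]

variable (k) in
/-- the parametrisation -/
noncomputable def S3_psi (ix : I → ι × Fin 2) (n : ι → O) :
    MvPolynomial I k →ₐ[k] MvPolynomial (Fin 2) O :=
  aeval fun i => C (n (ix i).1) * X (ix i).2

/-- rescaling the second component -/
def S3_sc (s : k) : DualNumber k →ₐ[k] DualNumber k := TrivSqZeroExt.map (s • LinearMap.id)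

omit [Fintype ι] in
theorem S3_ge (ix : I → ι × Fin 2) (n : ι → O) (j : O →ₐ[k] DualNumber k) (μ ν : Fin 2 → k)
    (s : k) {g : MvPolynomial I k} (hg : S3_psi k ix n g = 0) :
    aeval (fun i => (inl ((j (n (ix i).1)).fst * μ (ix i).2) +
      inr ((j (n (ix i).1)).fst * ν (ix i).2 + s * (j (n (ix i).1)).snd * μ (ix i).2) :
        DualNumber k)) g = 0 := by
  let Ψ : MvPolynomial (Fin 2) O →ₐ[k] DualNumber k :=
    aevalTower ((S3_sc s).comp j) fun e => inl (μ e) + inr (ν e)
  have h := congrArg Ψ hg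
  rw [map_zero, ← AlgHom.comp_apply] at h
  rw [← h]
  congr 1
  ext i : 1
  simp only [aeval_X, AlgHom.comp_apply, S3_psi, map_mul, Ψ, aevalTower_C, aevalTower_X]
  ext <;> simp [S3_sc]

theorem S3_le (ix : I ≃ ι × Fin 2) (n : ι → O) {c : ι → k} (hc : ∑ a, c a • n a = 1)
    (φ : ι → k) (hφ : ∑ a, c a * φ a = 1) {μ : Fin 2 → k} (hμ : μ ≠ 0) (v : I → k)
    (hv : ∀ g, S3_psi k ix n g = 0 → aeval (fun i => (inl (φ (ix i).1 * μ (ix i).2) +
      inr (v i) : DualNumber k)) g = 0) :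
    ∃ (ν : Fin 2 → k) (z : ι → DualNumber k), (∀ a, (z a).fst = φ a) ∧
      (∀ i, v i = φ (ix i).1 * ν (ix i).2 + (z (ix i).1).snd * μ (ix i).2) ∧
      ∀ r : MvPolynomial ι k, aeval n r = 0 → aeval z r = 0 := by
  obtain ⟨e₀, he₀⟩ := Function.ne_iff.1 hμ
  set Φ : MvPolynomial I k →ₐ[k] DualNumber k :=
    aeval fun i => (inl (φ (ix i).1 * μ (ix i).2) + inr (v i) : DualNumber k) with hΦ
  let Y : ι → Fin 2 → MvPolynomial I k := fun a e => X (ix.symm (a, e))
  let L : Fin 2 → MvPolynomial I k := fun e => ∑ a, c a • Y a e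
  have hY : ∀ a e, S3_psi k ix n (Y a e) = C (n a) * X e := fun a e => by simp [Y, S3_psi]
  have hL : ∀ e, S3_psi k ix n (L e) = X e := fun e => by
    simp only [L, map_sum, map_smul, hY]
    conv_rhs => rw [← one_mul (X e), ← C_1, ← hc, map_sum, Finset.sum_mul]
    exact Finset.sum_congr rfl fun a _ => by
      rw [← smul_mul_assoc, Algebra.smul_def, Algebra.smul_def, map_mul,
        MvPolynomial.algebraMap_apply]
  have hY' : ∀ a e, (Φ (Y a e)).fst = φ a * μ e := fun a e => by simp [Y, hΦ]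
  have hL' : ∀ e, (Φ (L e)).fst = μ e := fun e => by
    simp only [L, map_sum, map_smul, fst_sum, fst_smul, hY', smul_eq_mul, ← mul_assoc]
    rw [← Finset.sum_mul, hφ, one_mul]
  obtain ⟨u, hu⟩ : IsUnit (Φ (L e₀)) :=
    isUnit_iff_isUnit_fst.2 (by rw [hL']; exact IsUnit.mk0 _ he₀)
  have hz : ∀ a e, Φ (Y a e) = Φ (Y a e₀) * ↑u⁻¹ * Φ (L e) := fun a e => by
    have h := hv (Y a e * L e₀ - Y a e₀ * L e) (by
      rw [map_sub, map_mul, map_mul, hY, hY, hL, hL]
      ring)
    rw [map_sub, map_mul, map_mul, sub_eq_zero, ← hu] at h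
    rw [mul_right_comm, ← h, Units.mul_inv_cancel_right]
  have hf : ∀ a, (Φ (Y a e₀) * ↑u⁻¹).fst = φ a := fun a => by
    have h := congrArg fst (hz a e₀)
    rw [fst_mul, hL', hY'] at h
    exact (mul_right_cancel₀ he₀ h).symm
  refine ⟨fun e => (Φ (L e)).snd, fun a => Φ (Y a e₀) * ↑u⁻¹, hf, fun i => ?_, fun r hr => ?_⟩
  · have h := congrArg snd (hz (ix i).1 (ix i).2)
    rw [DualNumber.snd_mul, hf, hL'] at h
    simpa [Y, hΦ] using h
  · obtain ⟨M, g, h1, h2⟩ : ∃ (M : ℕ) (g : MvPolynomial I k),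
        S3_psi k ix n g = X e₀ ^ M * C (aeval n r) ∧
        Φ g = u ^ M * aeval (fun a => Φ (Y a e₀) * ↑u⁻¹) r := by
      clear hr
      induction r using MvPolynomial.induction_on with
      | C a => exact ⟨0, C a, by simp [MvPolynomial.algebraMap_apply], by simp⟩
      | add p q hp hq =>
        obtain ⟨M, g, h1, h2⟩ := hp
        obtain ⟨M', g', h1', h2'⟩ := hq
        refine ⟨M + M', L e₀ ^ M' * g + L e₀ ^ M * g', ?_, ?_⟩
        · simp only [map_add, map_mul, map_pow, hL, h1, h1']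
          ring
        · simp only [map_add, map_mul, map_pow, ← hu, h2, h2']
          ring
      | mul_X p a hp =>
        obtain ⟨M, g, h1, h2⟩ := hp
        refine ⟨M + 1, g * Y a e₀, ?_, ?_⟩
        · simp only [map_mul, hY, h1, aeval_X]
          ring
        · rw [map_mul, map_mul, h2, aeval_X (fun a => Φ (Y a e₀) * ↑u⁻¹) a]
          conv_lhs => rw [hz a e₀, ← hu]
          ring
    rw [hr, map_zero, mul_zero] at h1
    rw [hv g h1] at h2
    exact ((u.isUnit.pow M).mul_right_eq_zero).1 h2.symm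

theorem S3_abs (ix : I ≃ ι × Fin 2) (n : ι → O) (j : O →ₐ[k] DualNumber k) (π : O)
    (hπ : (j π).fst = 0) (hπ' : (j π).snd = 1)
    (hdiv : ∀ g : O, ∃ h, g = algebraMap k O (j g).fst + π * h)
    (hloc : ∀ g : O, ∃ b s : MvPolynomial ι k, (j (aeval n s)).fst ≠ 0 ∧ g * aeval n s = aeval n b)
    {c : ι → k} (hc : ∑ a, c a • n a = 1) {μ : Fin 2 → k} (hμ : μ ≠ 0)
    (T : Submodule k (I → k)) (hT : ∀ v, v ∈ T ↔ ∀ g, S3_psi k ix n g = 0 →
      aeval (fun i => (inl ((j (n (ix i).1)).fst * μ (ix i).2) + inr (v i) : DualNumber k)) g = 0) :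
    Module.finrank k T = 3 := by
  let Λ : ((Fin 2 → k) × k) →ₗ[k] I → k :=
    { toFun := fun p i => (j (n (ix i).1)).fst * p.1 (ix i).2 +
        p.2 * (j (n (ix i).1)).snd * μ (ix i).2
      map_add' := fun p q => by ext i; simp only [Prod.fst_add, Prod.snd_add, Pi.add_apply]; ring
      map_smul' := fun a p => by
        ext i
        simp only [Prod.smul_fst, Prod.smul_snd, Pi.smul_apply, smul_eq_mul, RingHom.id_apply]
        ring }
  have hj : ∑ a, c a • j (n a) = 1 := by simp only [← map_smul, ← map_sum, hc, map_one]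
  have h1 : ∑ a, c a * (j (n a)).fst = 1 := by simpa [fst_sum] using congrArg fst hj
  have h2 : ∑ a, c a * (j (n a)).snd = 0 := by simpa [snd_sum] using congrArg snd hj
  have hjn : ∀ r : MvPolynomial ι k, j (aeval n r) = aeval (fun a => j (n a)) r := fun r => by
    rw [← AlgHom.comp_apply, comp_aeval]
  have hfst : ∀ (z : ι → DualNumber k) (r : MvPolynomial ι k),
      (aeval z r).fst = aeval (fun a => (z a).fst) r := fun z r =>
    DFunLike.congr_fun (comp_aeval z (fstHom k k k)) r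
  obtain ⟨b, s, hs, hb⟩ := hloc π
  have hinj : Function.Injective Λ := by
    rw [injective_iff_map_eq_zero]
    rintro ⟨ν, l⟩ h
    have h3 : ∀ a e, (j (n a)).fst * ν e + l * (j (n a)).snd * μ e = 0 := fun a e => by
      simpa [Λ] using congrFun h (ix.symm (a, e))
    have h4 : ν = 0 := funext fun e => by
      have h5 : ∑ a, c a * ((j (n a)).fst * ν e + l * (j (n a)).snd * μ e) =
          (∑ a, c a * (j (n a)).fst) * ν e + l * (∑ a, c a * (j (n a)).snd) * μ e := by
        simp only [Finset.sum_mul, Finset.mul_sum, ← Finset.sum_add_distrib]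
        exact Finset.sum_congr rfl fun a _ => by ring
      simpa [h1, h2, h3] using h5.symm
    obtain ⟨e₀, he₀⟩ := Function.ne_iff.1 hμ
    refine Prod.ext h4 (by_contra fun hl => hs ?_)
    have h5 : (fun a => j (n a)) = fun a => inlAlgHom k k k (j (n a)).fst := funext fun a => by
      have h6 := h3 a e₀
      simp only [h4, Pi.zero_apply, mul_zero, zero_add] at h6
      ext
      · simp
      · simpa using ((mul_eq_zero.1 ((mul_eq_zero.1 h6).resolve_right he₀)).resolve_left hl)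
    have h6 := congrArg (fun x => (j x).snd) hb
    simp only [map_mul, DualNumber.snd_mul, hπ, hπ', zero_mul, one_mul, zero_add] at h6
    rw [h6, hjn, h5, ← comp_aeval]
    simp
  have hr : T = LinearMap.range Λ := by
    refine le_antisymm (fun v hv => ?_) ?_
    · obtain ⟨ν, z, hz, hv', hr⟩ := S3_le ix n hc _ h1 hμ v ((hT v).1 hv)
      have hev : ∀ r : MvPolynomial ι k, (aeval z r).fst = (j (aeval n r)).fst := fun r => by
        rw [hjn, hfst, hfst]
        simp only [hz]
      refine ⟨(ν, (aeval z b).snd / (j (aeval n s)).fst), funext fun i => ?_⟩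
      rw [hv']
      change (_ : k) + (_ : k) * (_ : k) * (_ : k) = _
      congr 2
      generalize (ix i).1 = a
      obtain ⟨h, hh⟩ := hdiv (n a)
      obtain ⟨b', s', hs', hb'⟩ := hloc h
      have h3 := hr ((X a - C (j (n a)).fst) * s * s' - b * b') (by
        simp only [map_sub, map_mul, aeval_X, aeval_C, ← hb, ← hb']
        rw [sub_eq_iff_eq_add'.2 hh]
        ring)
      have h4 : (aeval z b).fst = 0 := by rw [hev, ← hb, map_mul, fst_mul, hπ, zero_mul]
      have h5 : (j (n a)).snd = (j h).fst := by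
        conv_lhs => rw [hh]
        simp [hπ, hπ', algebraMap_eq_inl]
      have h6 := congrArg snd h3
      simp only [map_sub, map_mul, aeval_X, aeval_C, snd_sub, DualNumber.snd_mul, fst_mul, fst_sub,
        hz, h4, algebraMap_eq_inl, fst_inl, snd_inl, sub_self, zero_mul, zero_add, sub_zero,
        snd_zero, hev, ← hb'] at h6
      rw [h5, div_mul_eq_mul_div, div_eq_iff hs]
      refine mul_right_cancel₀ hs' ?_
      linear_combination -h6
    · rintro _ ⟨⟨ν, l⟩, rfl⟩
      exact (hT _).2 fun g hg => S3_ge ix n j μ ν l hg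
  rw [hr, LinearMap.finrank_range_of_inj hinj]
  simp

end Pool.Agent.E6b

end

section
open scoped NNReal TensorProduct IntermediateField BigOperators Classical Topology
open Filter

namespace Pool.Agent.E6b

section
open TrivSqZeroExt MvPolynomial
variable {κ F : Type} [Field κ] [IsAlgClosed κ] [CharZero κ] [Field F] [Algebra κ F] [IsFF κ F]

theorem S3_jet (R : Place κ F) : ∃ (j : R.OA →ₐ[κ] DualNumber κ) (π : R.OA),
    (j π).fst = 0 ∧ (j π).snd = 1 ∧ (∀ g : R.OA, (j g).fst = R.ev g) ∧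
      ∀ g : R.OA, ∃ h, g = algebraMap κ R.OA (j g).fst + π * h := by
  obtain ⟨π, h0, h1⟩ := R.exists_ord_eq 1
  have hq : ∀ g : R.OA, ∃ h : R.OA, (g : F) = algebraMap κ F (R.ev g) + π * h := fun g => by
    refine ⟨⟨(g - algebraMap κ F (R.ev g)) / π, ?_⟩, by simp [mul_div_cancel₀ _ h0]⟩
    change _ ∈ R.O
    by_cases h : (g : F) - algebraMap κ F (R.ev g) = 0
    · rw [h, zero_div]
      exact zero_mem _
    · have h2 := (R.ev_spec (f := g) g.2).resolve_left fun h' => h (sub_eq_zero.2 h')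
      rw [R.mem_iff, R.ord_div h h0]
      omega
  choose q hq using hq
  let p : R.OA := ⟨π, R.mem_iff.2 (by omega)⟩
  have hp : R.evH p = 0 := (R.ev_eq_zero_iff p.2).2 (Or.inr (by change 0 < R.ord π; omega))
  have hq' : ∀ g, g = algebraMap κ R.OA (R.evH g) + p * q g := fun g => Subtype.ext (hq g)
  have hu : ∀ g h, g = algebraMap κ R.OA (R.evH g) + p * h → q g = h := fun g h e =>
    mul_left_cancel₀ (fun h' => h0 (congrArg Subtype.val h'))
      (add_left_cancel ((hq' g).symm.trans e))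
  have hc : ∀ c, q (algebraMap κ R.OA c) = 0 := fun c => hu _ _ (by simp)
  have hm : ∀ g h, q (g * h) = g * q h + algebraMap κ R.OA (R.evH h) * q g := fun g h =>
    hu _ _ (by
      rw [map_mul, map_mul]
      linear_combination g * hq' h + algebraMap κ R.OA (R.evH h) * hq' g)
  have ha : ∀ g h, q (g + h) = q g + q h := fun g h =>
    hu _ _ (by
      rw [map_add, map_add]
      linear_combination hq' g + hq' h)
  refine ⟨{ toFun := fun g => inl (R.evH g) + inr (R.evH (q g))
            map_one' := ?_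
            map_mul' := fun g h => ?_
            map_zero' := ?_
            map_add' := fun g h => ?_
            commutes' := fun c => ?_ }, p, by simpa using hp, ?_, fun g => by simp [Place.evH],
    fun g => ⟨q g, by simpa using hq' g⟩⟩
  · have := hc 1
    rw [map_one] at this
    simp [this]
  · ext <;> simp [hm, mul_comm]
  · have := hc 0
    rw [map_zero] at this
    simp [this]
  · ext <;> simp [ha]
  · rw [hc]
    simp [algebraMap_eq_inl]
  · simp [hu p 1 (by simp [hp])]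

omit [IsAlgClosed κ] [CharZero κ] [IsFF κ F] in
theorem S3_scale {ι I : Type} (ix : I → ι × Fin 2) {f f' : ι → F} {u : F}
    (h : ∀ a, f' a = f a * u) {g : MvPolynomial I κ} (hg : S3_psi κ ix f g = 0) :
    S3_psi κ ix f' g = 0 := by
  have e : S3_psi κ ix f' = ((aeval fun e => C u * X e : MvPolynomial (Fin 2) F →ₐ[F]
      MvPolynomial (Fin 2) F).restrictScalars κ).comp (S3_psi κ ix f) := by
    ext i : 1
    simp [S3_psi, h, mul_assoc]
  rw [e, AlgHom.comp_apply, hg, map_zero]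

omit [IsAlgClosed κ] [CharZero κ] [IsFF κ F] in
theorem S3_sub {ι I : Type} (ix : I → ι × Fin 2) {O : Subalgebra κ F} (n : ι → O)
    (g : MvPolynomial I κ) : S3_psi κ ix n g = 0 ↔ S3_psi κ ix (fun a => (n a : F)) g = 0 := by
  have e : S3_psi κ ix (fun a => (n a : F)) = (mapAlgHom O.val).comp (S3_psi κ ix n) := by
    ext i : 1
    simp [S3_psi]
  rw [e, AlgHom.comp_apply]
  exact (map_eq_zero_iff (mapAlgHom O.val)
    (map_injective (O.val : O →+* F) Subtype.val_injective)).symm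

end
variable {F : Type} [Field F] [Algebra Qb F] [IsFF Qb F] {A : GAct F} {t : F} (E : Emb A t)
  (ht : t ∉ (algebraMap Qb F).range)
include ht

theorem S3_ker (R : Place Qb F) (g : MvPolynomial (Fin (2 * E.N + 1 + 1)) Qb) :
    S3_psi Qb E.ix (E.nf R) g = 0 ↔ E.psi g = 0 := by
  have h0 : t ^ E.m ≠ 0 := pow_ne_zero _ fun h => ht (h ▸ zero_mem _)
  change _ ↔ S3_psi Qb E.ix E.f g = 0
  by_cases h : t ∈ R.O
  · rw [show E.nf R = E.f from funext fun a => if_pos h]
  · have e : ∀ a, E.nf R a = E.f a * (t ^ E.m)⁻¹ := fun a => (if_neg h).trans (div_eq_mul_inv _ _)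
    exact ⟨S3_scale _ (u := t ^ E.m) fun a => by rw [e, inv_mul_cancel_right₀ h0], S3_scale _ e⟩

theorem Emb.finrank_tangent (R : Place Qb F) {μ : Fin 2 → Qb} (hμ : μ ≠ 0) :
    Module.finrank Qb (coneTangent E.I (E.pt R μ)) = 3 := by
  obtain ⟨j, π, h1, h2, h3, h4⟩ := S3_jet R
  obtain ⟨c, hc⟩ := E.exists_one ht R
  let n : Fin (E.N + 1) → R.OA := fun a => ⟨E.nf R a, E.nf_mem ht R a⟩
  have hn : ∀ r : MvPolynomial (Fin (E.N + 1)) Qb,
      ((MvPolynomial.aeval n r : R.OA) : F) = MvPolynomial.aeval (E.nf R) r := fun r =>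
    DFunLike.congr_fun (MvPolynomial.comp_aeval n R.OA.val) r
  refine S3_abs (Equiv.ofBijective _ E.ix_bij) n j π h1 h2 h4 (fun g => ?_) (c := c)
    (Subtype.ext (by simpa [n] using hc)) hμ _ fun v => ?_
  · obtain ⟨b, hb, s, hs, h5, h6⟩ := E.exists_div ht R (g := g) g.2
    rw [Algebra.adjoin_range_eq_range_aeval] at hb hs
    obtain ⟨b, rfl⟩ := hb
    obtain ⟨s, rfl⟩ := hs
    exact ⟨b, s, by rwa [h3, hn], Subtype.ext (by rwa [Subalgebra.coe_mul, hn, hn])⟩
  · simp only [h3, Equiv.coe_ofBijective, S3_sub]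
    change (∀ f ∈ E.I, ∑ i, MvPolynomial.aeval (E.pt R μ) (MvPolynomial.pderiv i f) * v i = 0) ↔
      ∀ g, S3_psi Qb E.ix (E.nf R) g = 0 → g ∈ RingHom.ker (MvPolynomial.aeval (R := Qb)
        fun i => (TrivSqZeroExt.inl (E.pt R μ i) + TrivSqZeroExt.inr (v i) : DualNumber Qb))
    simp only [S3_ker E ht]
    change _ ↔ RingHom.ker E.psi ≤ _
    rw [← E.map_I_Qb, Ideal.map_le_iff_le_comap]
    refine forall₂_congr fun f hf => ?_
    have h5 := S3_dual (E.pt R μ) v (MvPolynomial.map (algebraMap ℚ Qb) f)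
    rw [Ideal.mem_comap, RingHom.mem_ker, TrivSqZeroExt.ext_iff, h5.1, h5.2,
      MvPolynomial.aeval_eq_eval, E.eval_pt ht R μ hf]
    simp only [MvPolynomial.pderiv_map, ← MvPolynomial.aeval_eq_eval,
      MvPolynomial.aeval_map_algebraMap, TrivSqZeroExt.fst_zero, TrivSqZeroExt.snd_zero, true_and]

end Pool.Agent.E6b

end

section
open scoped NNReal TensorProduct IntermediateField BigOperators Classical Topology
open Filter

namespace Pool.Agent.E6b

/-- Krull dimension is invariant under injective integral maps -/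
theorem S4_dim_integral (R S : Type) [CommRing R] [CommRing S] [Algebra R S]
    [Algebra.IsIntegral R S] [FaithfulSMul R S] : ringKrullDim S = ringKrullDim R := by
  refine le_antisymm (Order.krullDim_le_of_strictMono (PrimeSpectrum.comap (algebraMap R S))
    fun P Q h => Ideal.IsIntegral.comap_lt_comap (R := R) (I := P.asIdeal) (J := Q.asIdeal) h) ?_
  refine iSup_le fun l => ?_
  obtain ⟨⟨P, h1, h2⟩⟩ := Ideal.nonempty_primesOver (S := S) l.head.asIdeal
  obtain ⟨L, hL, -⟩ := Ideal.exists_ltSeries_of_hasGoingUp l P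
  rw [← hL]
  exact Order.LTSeries.length_le_krullDim L

/-- Krull dimension of a finitely generated domain over a field -/
theorem ringKrullDim_eq_of_indep {k B : Type} [Field k] [CommRing B] [IsDomain B] [Algebra k B]
    [Algebra.FiniteType k B] {r : ℕ} (u : Fin r → B) (hu : IsTranscendenceBasis k u) :
    ringKrullDim B = r := by
  obtain ⟨s, g, h1, h2⟩ := exists_integral_inj_algHom_of_fg k B
  let : Algebra (MvPolynomial (Fin s) k) B := g.toRingHom.toAlgebra
  have : IsScalarTower k (MvPolynomial (Fin s) k) B :=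
    IsScalarTower.of_algebraMap_eq fun a => (g.commutes a).symm
  have : Algebra.IsIntegral (MvPolynomial (Fin s) k) B := ⟨h2⟩
  have : FaithfulSMul (MvPolynomial (Fin s) k) B := (faithfulSMul_iff_algebraMap_injective _ _).2 h1
  have h3 := ((IsTranscendenceBasis.mvPolynomial (Fin s) k).algebraMap_comp (A := B)).cardinalMk_eq hu
  have h4 : s = r := by simpa using h3
  rw [S4_dim_integral (MvPolynomial (Fin s) k) B, MvPolynomial.ringKrullDim_of_isNoetherianRing,
    ringKrullDim_eq_zero_of_field, zero_add, Nat.card_eq_fintype_card, Fintype.card_fin, h4]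

theorem S4_indep {k F : Type} [Field k] [Field F] [Algebra k F] {t : F}
    (ht : IsTranscendenceBasis k fun _ : Unit => t) :
    Algebra.trdeg k (MvPolynomial (Fin 2) F) = 3 ∧
      AlgebraicIndependent k fun o : Option (Fin 2) =>
        (o.elim (MvPolynomial.C t * MvPolynomial.X 0) MvPolynomial.X : MvPolynomial (Fin 2) F) := by
  have h1 := ht.sumElim_comp (IsTranscendenceBasis.mvPolynomial (Fin 2) F)
  refine ⟨?_, ?_⟩
  · rw [← h1.cardinalMk_eq_trdeg]
    simp only [Cardinal.mk_fintype, Fintype.card_sum, Fintype.card_fin, Fintype.card_unique]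
    rfl
  · have h2 := h1.1.comp (Equiv.sumComm Unit (Fin 2)) (Equiv.injective _)
    have h3 : (Sum.elim MvPolynomial.X (algebraMap F (MvPolynomial (Fin 2) F) ∘ fun _ : Unit => t) ∘
        Equiv.sumComm Unit (Fin 2)) =
        Sum.elim (fun _ : Unit => MvPolynomial.C t) MvPolynomial.X := by
      funext x
      rcases x with x | x <;> rfl
    rw [h3, AlgebraicIndependent.sumElim_iff] at h2
    refine AlgebraicIndependent.option_iff.2 ⟨h2.1, fun h => h2.2.transcendental () ?_⟩
    refine IsAlgebraic.of_mul (y := MvPolynomial.X 0)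
      (mem_nonZeroDivisors_of_ne_zero (MvPolynomial.X_ne_zero 0)) ?_ (by rwa [mul_comm])
    exact isAlgebraic_algebraMap (⟨MvPolynomial.X 0, Algebra.subset_adjoin ⟨0, rfl⟩⟩ :
      Algebra.adjoin k (Set.range (MvPolynomial.X : Fin 2 → MvPolynomial (Fin 2) F)))
variable {F : Type} [Field F] [Algebra Qb F] [IsFF Qb F] {A : GAct F} {t : F} (E : Emb A t)

theorem S4_basis [Algebra ℚ F] [IsScalarTower ℚ Qb F] (ht : t ∉ (algebraMap Qb F).range) :
    IsTranscendenceBasis ℚ fun _ : Unit => t := by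
  have h1 := transcendental_of_notMem ht
  have h2 := finiteDimensional_of_transcendental h1
  have h3 : Algebra.IsAlgebraic ℚ Qb := AlgebraicClosure.isAlgebraic ℚ
  rw [Algebra.IsAlgebraic.isTranscendenceBasis_iff ℚ Qb,
    isTranscendenceBasis_iff_algebraicIndependent_isAlgebraic, algebraicIndependent_unique_type_iff,
    Set.range_const, ← IntermediateField.isAlgebraic_adjoin_iff_top]
  exact ⟨h1, inferInstance⟩

theorem Emb.dim (ht : t ∉ (algebraMap Qb F).range) (hA : ∀ σ, A.act σ t = t) :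
    ringKrullDim (MvPolynomial (Fin (2 * E.N + 1 + 1)) ℚ ⧸ E.I) = 3 := by
  have : CharZero F := charZero_of_injective_algebraMap (algebraMap Qb F).injective
  obtain ⟨h1, h2⟩ := S4_indep (S4_basis ht)
  let φ : MvPolynomial (Fin (2 * E.N + 1 + 1)) ℚ →ₐ[ℚ] MvPolynomial (Fin 2) F :=
    MvPolynomial.aeval fun i => MvPolynomial.C (E.f (E.ix i).1) * MvPolynomial.X (E.ix i).2
  have hφ : ∀ g, g ∈ E.I ↔ φ g = 0 := fun g => by
    rw [Emb.I, Ideal.mem_comap, RingHom.mem_ker, Emb.psi, MvPolynomial.aeval_map_algebraMap]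
  let ψ := Ideal.Quotient.liftₐ E.I φ fun g hg => (hφ g).1 hg
  have hψ : Function.Injective ψ :=
    RingHom.lift_injective_of_ker_le_ideal E.I (f := φ.toRingHom) (fun g hg => (hφ g).1 hg)
      fun g hg => (hφ g).2 hg
  have := hψ.isDomain ψ
  have h3 : ∀ g ∈ LL (E.m • dinf Qb t), (∀ σ, A.act σ g = g) → ∀ ε : Fin 2,
      MvPolynomial.C g * MvPolynomial.X ε ∈ φ.range := fun g hg h ε => by
    obtain ⟨c, rfl⟩ := E.exists_rat hg h
    rw [map_sum, Finset.sum_mul]
    refine Subalgebra.sum_mem _ fun a _ => ?_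
    obtain ⟨i, hi⟩ := E.ix_bij.2 (a, ε)
    refine ⟨c a • MvPolynomial.X i, ?_⟩
    show φ _ = _
    rw [map_smul, MvPolynomial.aeval_X, hi, Rat.cast_smul_eq_qsmul, ← smul_mul_assoc,
      map_rat_smul (MvPolynomial.C : F →+* MvPolynomial (Fin 2) F)]
  have h4 : ∀ o : Option (Fin 2), ∃ b, ψ b =
      (o.elim (MvPolynomial.C t * MvPolynomial.X 0) MvPolynomial.X : MvPolynomial (Fin 2) F) := by
    rintro (_ | ε)
    · obtain ⟨p, hp⟩ := h3 t (by simpa using F2_pow_mem t (show 1 ≤ E.m from E.m_pos)) hA 0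
      exact ⟨Ideal.Quotient.mk _ p, hp⟩
    · obtain ⟨p, hp⟩ := h3 1 (by simpa using F2_pow_mem t (Nat.zero_le E.m))
        (fun σ => map_one _) ε
      rw [map_one, one_mul] at hp
      exact ⟨Ideal.Quotient.mk _ p, hp⟩
  choose u hu using h4
  have h5 : AlgebraicIndependent ℚ u := AlgebraicIndependent.of_comp ψ (by
    rw [show ψ ∘ u = _ from funext hu]
    exact h2)
  refine ringKrullDim_eq_of_indep (k := ℚ) (r := 3) (u ∘ finSuccEquiv 2)
    ((h5.comp _ (Equiv.injective _)).isTranscendenceBasis_of_trdeg_le_of_finite ?_)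
  refine (trdeg_le_of_injective ψ hψ).trans ?_
  rw [h1]
  simp

end Pool.Agent.E6b

end

section
open scoped NNReal TensorProduct IntermediateField BigOperators Classical Topology
open Filter

namespace Pool.Agent.E6b

theorem S5_finrank {K L : Type} [Field K] [Field L] [Algebra K L] [IsGalois K L] {ι : Type}
    {x : ι → L} (hx : x ≠ 0) (U : Subgroup (L ≃ₐ[K] L))
    (hU : ∀ σ, σ ∈ U ↔ Prp (fun i => σ (x i)) x) :
    Module.finrank K (IntermediateField.adjoin K {r : L | ∃ i j, r = x i / x j}) = U.index := by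
  rw [IntermediateField.finrank_eq_fixingSubgroup_index]
  congr 1
  obtain ⟨i₀, hi₀⟩ : ∃ i, x i ≠ 0 := Function.ne_iff.mp hx
  ext σ
  rw [hU, IntermediateField.mem_fixingSubgroup_iff]
  constructor
  · intro h
    have hσ : σ (x i₀) ≠ 0 := by simpa using hi₀
    refine ⟨σ (x i₀) / x i₀, div_ne_zero hσ hi₀, fun i => ?_⟩
    have h1 := h (x i / x i₀) (IntermediateField.subset_adjoin _ _ ⟨i, i₀, rfl⟩)
    rw [map_div₀, div_eq_div_iff hσ hi₀] at h1
    field_simp
    linear_combination h1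
  · rintro ⟨c, hc, h⟩ y hy
    have hle : IntermediateField.adjoin K {r : L | ∃ i j, r = x i / x j} ≤
        IntermediateField.fixedField (Subgroup.zpowers σ) := by
      rw [IntermediateField.adjoin_le_iff]
      rintro _ ⟨i, j, rfl⟩
      have h1 : σ (x i / x j) = x i / x j := by
        have hi : σ (x i) = c * x i := h i
        have hj : σ (x j) = c * x j := h j
        rw [map_div₀, hi, hj, mul_div_mul_left _ _ hc]
      have h2 : Subgroup.zpowers σ ≤ MulAction.stabilizer (L ≃ₐ[K] L) (x i / x j) := by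
        rw [Subgroup.zpowers_le]
        exact h1
      rw [SetLike.mem_coe, IntermediateField.mem_fixedField_iff]
      intro τ hτ
      exact h2 hτ
    exact (IntermediateField.mem_fixedField_iff _ _).mp (hle hy) σ (Subgroup.mem_zpowers σ)

theorem S5_aeval {L : Type} [Field L] [Algebra ℚ L] (e : L →+* Qb) {ι : Type} (x : ι → L)
    (f : MvPolynomial ι ℚ) : e (MvPolynomial.aeval x f) =
      MvPolynomial.eval (fun i => e (x i)) (MvPolynomial.map (algebraMap ℚ Qb) f) := by
  rw [MvPolynomial.aeval_def, MvPolynomial.eval_map, MvPolynomial.eval₂_comp_left,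
    Subsingleton.elim (e.comp (algebraMap ℚ L)) (algebraMap ℚ Qb)]
  rfl

/-- transport of automorphisms -/
noncomputable def S5_rho {K L : Type} [Field K] [Field L] [Algebra K L] (e : L ≃+* Qb) :
    (L ≃ₐ[K] L) →* (Qb ≃ₐ[ℚ] Qb) where
  toFun σ := AlgEquiv.ofRingEquiv (f := (e.symm.trans σ.toRingEquiv).trans e) fun q => by
    simp only [eq_ratCast, map_ratCast]
  map_one' := by
    ext y
    simp
  map_mul' σ τ := by
    ext y
    simp

theorem S5_rho_apply {K L : Type} [Field K] [Field L] [Algebra K L] (e : L ≃+* Qb)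
    (σ : L ≃ₐ[K] L) (y : L) : S5_rho e σ (e y) = e (σ y) := by
  simp [S5_rho]

theorem S5_rho_surj {K L : Type} [Field K] [Field L] [Algebra K L] (e : L ≃+* Qb)
    (τ : Qb ≃ₐ[ℚ] Qb) (h : ∀ k : K, τ (e (algebraMap K L k)) = e (algebraMap K L k)) :
    ∃ σ : L ≃ₐ[K] L, S5_rho e σ = τ := by
  refine ⟨AlgEquiv.ofRingEquiv (f := (e.trans τ.toRingEquiv).trans e.symm) fun k => ?_, ?_⟩
  · simp [h k]
  · ext y
    simp [S5_rho]

theorem S5_card {F : Type} [Field F] [Algebra Qb F] [IsFF Qb F] (A : GAct F) {G : Type} [Group G]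
    (ρ : G →* (Qb ≃ₐ[ℚ] Qb)) (K : IntermediateField ℚ Qb)
    (hρ : ∀ τ : Qb ≃ₐ[ℚ] Qb, (∀ y ∈ K, τ y = y) ↔ ∃ g, ρ g = τ) (R : Place Qb F)
    (U : Subgroup G) (hU : ∀ g, g ∈ U ↔ A.sm (ρ g) R = R) :
    (A.finite_orb K R).toFinset.card = U.index := by
  let _ : MulAction G (Place Qb F) :=
    { smul := fun g P => A.sm (ρ g) P
      one_smul := fun P => by
        change A.sm (ρ 1) P = P
        rw [map_one, A.sm_one]
      mul_smul := fun g h P => by
        change A.sm (ρ (g * h)) P = A.sm (ρ g) (A.sm (ρ h) P)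
        rw [map_mul, A.sm_mul] }
  have h1 : U = MulAction.stabilizer G R := by
    ext g
    rw [hU]
    rfl
  have h2 : A.orb K R = MulAction.orbit G R := by
    ext Q
    constructor
    · rintro ⟨τ, hτ, rfl⟩
      obtain ⟨g, rfl⟩ := (hρ τ).mp hτ
      exact ⟨g, rfl⟩
    · rintro ⟨g, rfl⟩
      exact ⟨ρ g, (hρ _).mpr ⟨g, rfl⟩, rfl⟩
  rw [h1, MulAction.index_stabilizer, ← h2, Set.ncard_eq_toFinset_card _ (A.finite_orb K R)]
variable {F : Type} [Field F] [Algebra Qb F] [IsFF Qb F] (A : GAct F)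
variable {A} {t : F} (E : Emb A t) (ht : t ∉ (algebraMap Qb F).range) (hA : ∀ σ, A.act σ t = t)

/-- the surface `C × P¹` -/
noncomputable def Emb.surf : NiceSurface ℚ where
  n := 2 * E.N + 1
  I := E.I
  homogeneous := E.homogeneous
  geomPrime := E.geomPrime
  dim := E.dim ht hA
  smooth := by
    intro x hx h
    obtain ⟨R, μ, hμ, rfl⟩ := E.exists_pt ht hx fun g hg => by
      have hg' : g ∈ E.I.map (MvPolynomial.map (algebraMap ℚ Qb)) := by
        rw [E.map_I_Qb]; exact hg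
      refine Submodule.span_induction (p := fun g _ => MvPolynomial.eval x g = 0) ?_ ?_ ?_ ?_ hg'
      · rintro _ ⟨f, hf, rfl⟩
        rw [MvPolynomial.eval_map]
        exact h f hf
      · simp
      · intro a b _ _ ha hb; simp [ha, hb]
      · intro a b _ hb; simp [hb]
    exact E.finrank_tangent ht R hμ

include ht hA in
theorem Emb.S5_core {K L : Type} [Field K] [Field L] [Algebra K L] [IsGalois K L] (e : L ≃+* Qb)
    (K' : IntermediateField ℚ Qb) (hK : ∀ y, y ∈ K' ↔ ∃ k, e (algebraMap K L k) = y)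
    {x : Fin (2 * E.N + 1 + 1) → L} {R : Place Qb F} {μ : Fin 2 → Qb} (hμ : μ ≠ 0)
    (hx : ∀ i, e (x i) = E.pt R μ i) :
    (A.finite_orb K' R).toFinset.card ∣
      Module.finrank K (IntermediateField.adjoin K {r : L | ∃ i j, r = x i / x j}) ∧
    ((∀ (σ : Qb ≃ₐ[ℚ] Qb) ε, σ (μ ε) = μ ε) →
      Module.finrank K (IntermediateField.adjoin K {r : L | ∃ i j, r = x i / x j}) =
        (A.finite_orb K' R).toFinset.card) := by
  have hx0 : x ≠ 0 := by
    intro h0
    refine E.pt_ne_zero ht R hμ (funext fun i => ?_)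
    rw [← hx i, h0]
    simp
  let U : Subgroup (L ≃ₐ[K] L) :=
    { carrier := {σ | Prp (fun i => σ (x i)) x}
      one_mem' := ⟨1, one_ne_zero, fun i => by simp⟩
      mul_mem' := by
        rintro σ τ ⟨c, hc, h⟩ ⟨c', hc', h'⟩
        refine ⟨σ c' * c, mul_ne_zero (by simpa using hc') hc, fun i => ?_⟩
        have h1 : σ (x i) = c * x i := h i
        have h2 : τ (x i) = c' * x i := h' i
        change σ (τ (x i)) = _
        rw [h2, map_mul, h1, mul_assoc]
      inv_mem' := by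
        rintro σ ⟨c, hc, h⟩
        refine ⟨(σ⁻¹ c)⁻¹, inv_ne_zero (by simpa using hc), fun i => ?_⟩
        have h1 : σ (x i) = c * x i := h i
        have h2 : σ⁻¹ (σ (x i)) = x i := σ.symm_apply_apply _
        have h3 : σ⁻¹ c ≠ 0 := by simpa using hc
        rw [h1, map_mul] at h2
        change σ⁻¹ (x i) = _
        rw [eq_inv_mul_iff_mul_eq₀ h3, h2] }
  let V : Subgroup (L ≃ₐ[K] L) :=
    { carrier := {σ | A.sm (S5_rho e σ) R = R}
      one_mem' := by
        change A.sm (S5_rho e 1) R = R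
        rw [map_one, A.sm_one]
      mul_mem' := by
        intro σ τ h h'
        change A.sm (S5_rho e (σ * τ)) R = R
        rw [map_mul, A.sm_mul, show A.sm (S5_rho e τ) R = R from h']
        exact h
      inv_mem' := by
        intro σ h
        change A.sm (S5_rho e σ⁻¹) R = R
        have h' : A.sm (S5_rho e σ) R = R := h
        conv_lhs => rw [← h']
        rw [← A.sm_mul, ← map_mul, inv_mul_cancel, map_one, A.sm_one] }
  have hU := S5_finrank hx0 U fun _ => Iff.rfl
  have hV : (A.finite_orb K' R).toFinset.card = V.index := by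
    refine S5_card A (S5_rho e) K' (fun τ => ⟨fun h => ?_, ?_⟩) R V fun _ => Iff.rfl
    · exact S5_rho_surj e τ fun k => h _ ((hK _).mpr ⟨k, rfl⟩)
    · rintro ⟨σ, rfl⟩ y hy
      obtain ⟨k, rfl⟩ := (hK y).mp hy
      rw [S5_rho_apply, σ.commutes]
  have hg : ∀ (σ : L ≃ₐ[K] L) i, e (σ (x i)) =
      E.pt (A.sm (S5_rho e σ) R) (fun ε => S5_rho e σ (μ ε)) i := by
    intro σ i
    rw [← S5_rho_apply, hx, E.gal_pt ht hA]
  have hUV : U ≤ V := by
    rintro σ ⟨c, hc, h⟩
    have hμ' : (fun ε => S5_rho e σ (μ ε)) ≠ 0 := by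
      intro h0
      refine hμ (funext fun ε => ?_)
      have := congrFun h0 ε
      simpa using this
    refine (E.pt_inj ht hμ' (μ' := μ) ⟨e c, by simpa using hc, fun i => ?_⟩).1
    have h1 : σ (x i) = c * x i := h i
    rw [← hg, h1, map_mul, hx]
  rw [hU, hV]
  refine ⟨Subgroup.index_dvd_of_le hUV, fun hfix => ?_⟩
  rw [le_antisymm hUV ?_]
  intro σ hσ
  refine ⟨1, one_ne_zero, fun i => e.injective ?_⟩
  have hσ' : A.sm (S5_rho e σ) R = R := hσ
  rw [one_mul, hg, hσ', hx]
  simp only [hfix]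

include ht in
theorem Emb.S5_exists_pt {y : Fin (2 * E.N + 1 + 1) → Qb} (hy : y ≠ 0)
    (h : ∀ f ∈ E.I, MvPolynomial.eval y (MvPolynomial.map (algebraMap ℚ Qb) f) = 0) :
    ∃ (R : Place Qb F) (μ : Fin 2 → Qb), μ ≠ 0 ∧ y = E.pt R μ := by
  refine E.exists_pt ht hy fun g hg => ?_
  have hg' : g ∈ E.I.map (MvPolynomial.map (algebraMap ℚ Qb)) := by
    rw [E.map_I_Qb]; exact hg
  refine Submodule.span_induction (p := fun g _ => MvPolynomial.eval y g = 0) ?_ ?_ ?_ ?_ hg'
  · rintro _ ⟨f, hf, rfl⟩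
    exact h f hf
  · simp
  · intro a b _ _ ha hb; simp [ha, hb]
  · intro a b _ hb; simp [hb]

theorem Emb.S5_mem {K : Type} [Field K] [Algebra ℚ K] (e : AlgebraicClosure K ≃+* Qb)
    (K' : IntermediateField ℚ Qb)
    (hK : ∀ y, y ∈ K' ↔ ∃ k, e (algebraMap K (AlgebraicClosure K) k) = y)
    {x : Fin (2 * E.N + 1 + 1) → AlgebraicClosure K} {R : Place Qb F} {μ : Fin 2 → Qb} (hμ : μ ≠ 0)
    (hx : ∀ i, e (x i) = E.pt R μ i) (hfix : ∀ (σ : Qb ≃ₐ[ℚ] Qb) ε, σ (μ ε) = μ ε) :
    x ∈ (E.surf ht hA).degreePoints K (A.finite_orb K' R).toFinset.card := by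
  have : CharZero K := algebraRat.charZero K
  refine ⟨?_, fun f hf => e.injective ?_, (E.S5_core ht hA e K' hK hμ hx).2 hfix⟩
  · intro h0
    refine E.pt_ne_zero ht R hμ (funext fun i => ?_)
    rw [← hx i, show x i = 0 from congrFun h0 i]
    simp
  · refine (@S5_aeval _ _ (_) (e : AlgebraicClosure K →+* Qb) _ x f).trans ?_
    rw [map_zero]
    have h1 : (fun i => (e : AlgebraicClosure K →+* Qb) (x i)) = E.pt R μ := funext hx
    rw [h1]
    exact E.eval_pt ht R μ hf

theorem Emb.S5_of_mem {K : Type} [Field K] [Algebra ℚ K] (e : AlgebraicClosure K ≃+* Qb)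
    (K' : IntermediateField ℚ Qb)
    (hK : ∀ y, y ∈ K' ↔ ∃ k, e (algebraMap K (AlgebraicClosure K) k) = y) {d : ℕ}
    {x : Fin (2 * E.N + 1 + 1) → AlgebraicClosure K} (hx : x ∈ (E.surf ht hA).degreePoints K d) :
    ∃ (R : Place Qb F) (μ : Fin 2 → Qb), (fun i => e (x i)) = E.pt R μ ∧
      (A.finite_orb K' R).toFinset.card ∣ d := by
  have : CharZero K := algebraRat.charZero K
  obtain ⟨hx0, hxI, hxd⟩ := hx
  have hy : (fun i => e (x i)) ≠ 0 := by
    intro h0
    refine hx0 (funext fun i => e.injective ?_)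
    exact (congrFun h0 i).trans (map_zero e).symm
  obtain ⟨R, μ, hμ, hR⟩ := E.S5_exists_pt ht hy fun f hf =>
    (@S5_aeval _ _ (_) (e : AlgebraicClosure K →+* Qb) _ x f).symm.trans
      ((congrArg (e : AlgebraicClosure K →+* Qb) (hxI f hf)).trans (map_zero _))
  refine ⟨R, μ, hR, ?_⟩
  rw [← hxd]
  exact (E.S5_core ht hA e K' hK hμ fun i => congrFun hR i).1

theorem Emb.mem_delta {d : ℕ} (hd : 1 ≤ d)
    (h : {R : Place Qb F | (A.finite_orb ⊥ R).toFinset.card = d}.Infinite) :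
    d ∈ (E.surf ht hA).delta ℚ := by
  refine ⟨hd, fun m g _ hg => ?_⟩
  have hI : g ∈ E.I := by
    change E.psi (MvPolynomial.map (algebraMap ℚ Qb) g) = 0
    refine E.psi_eq_zero ht h fun R hR μ hμ => ?_
    have hμ' : (fun ε => (μ ε : Qb)) ≠ 0 := by
      intro h0
      refine hμ (funext fun ε => ?_)
      have := congrFun h0 ε
      simpa using this
    have hmem := E.S5_mem ht hA (K := ℚ) (RingEquiv.refl Qb) ⊥ (fun y => by
        rw [IntermediateField.mem_bot]
        simp only [Set.mem_range, eq_ratCast, RingEquiv.refl_apply])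
      (x := E.pt R fun ε => (μ ε : Qb)) (R := R) hμ' (fun _ => rfl) fun σ ε => map_ratCast σ _
    rw [show (A.finite_orb ⊥ R).toFinset.card = d from hR] at hmem
    exact (@S5_aeval Qb _ (_) (RingHom.id Qb) _ _ g).symm.trans (hg _ hmem)
  have h1 := Ideal.mem_map_of_mem (I := (E.surf ht hA).I) (MvPolynomial.map (algebraMap ℚ ℚ)) hI
  rwa [show MvPolynomial.map (algebraMap ℚ ℚ) g = g by
    rw [Subsingleton.elim (algebraMap ℚ ℚ) (RingHom.id ℚ), MvPolynomial.map_id]] at h1

theorem Emb.notMem_delta (K : IntermediateField ℚ Qb) {d : ℕ}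
    (h : {R : Place Qb F | (A.finite_orb K R).toFinset.card ∣ d}.Finite) :
    d ∉ (E.surf ht hA).delta K := by
  rintro ⟨-, hd⟩
  obtain ⟨m, g, hg, hgI, hv⟩ := E.exists_form ht hA h
  have := H3_isGalois
  have : IsAlgClosure K Qb := ⟨inferInstance, inferInstance⟩
  let e : AlgebraicClosure K ≃ₐ[K] Qb := IsAlgClosure.equiv K (AlgebraicClosure K) Qb
  have hK : ∀ y, y ∈ K ↔ ∃ k, e.toRingEquiv (algebraMap K (AlgebraicClosure K) k) = y := by
    intro y
    refine ⟨fun hy => ⟨⟨y, hy⟩, e.commutes _⟩, ?_⟩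
    rintro ⟨k, rfl⟩
    have h1 : e.toRingEquiv (algebraMap K _ k) = k := e.commutes k
    rw [h1]
    exact k.2
  have h1 := hd m (MvPolynomial.map (algebraMap ℚ K) g) (hg.map _) fun x hx => by
    obtain ⟨R, μ, hR, hRS⟩ := E.S5_of_mem ht hA e.toRingEquiv K hK hx
    have h3 := (S5_aeval (RingHom.id Qb) _ g).symm.trans (hv R hRS μ)
    apply e.toRingEquiv.injective
    rw [map_zero, MvPolynomial.aeval_map_algebraMap]
    refine (@S5_aeval _ _ (_) (e.toRingEquiv : AlgebraicClosure K →+* Qb) _ x g).trans ?_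
    rw [← h3, ← hR]
    rfl
  have h2 : MvPolynomial.map (algebraMap ℚ K) g ∈ E.I.map (MvPolynomial.map (algebraMap ℚ K)) := h1
  rw [E.map_I (K.val : K →+* Qb), Ideal.mem_comap, MvPolynomial.map_map,
    Subsingleton.elim ((K.val : K →+* Qb).comp (algebraMap ℚ K)) (algebraMap ℚ Qb)] at h2
  exact hgI h2

end Pool.Agent.E6b

end
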