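import Pool.Agent.E6c.A15
import Pool.Agent.E6c.A16
import Pool.Agent.E6c.A17

section
open scoped NNReal TensorProduct IntermediateField BigOperators Classical Topology
open Filter

namespace Pool.Agent.E6b
variable {κ F : Type} [Field κ] [IsAlgClosed κ] [CharZero κ] [Field F] [Algebra κ F] [IsFF κ F]

theorem genus_le {t : F} (ht : t ∉ (algebraMap κ F).range) {ι : Type} [Fintype ι] (y : ι → F)
    (hy : LinearIndependent κ⟮t⟯ y) (hc : Fintype.card ι = Module.finrank κ⟮t⟯ F) (c : ℕ)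
    (h : ∀ i, y i ∈ LL (c • dinf κ t)) : genus κ F ≤ Fintype.card ι * c := by
  obtain ⟨D, hD⟩ := exists_ell_eq (κ := κ) (F := F)
  have h1 := F2_bound ht y hy hc _ h D
  rw [deg_nsmul, deg_dinf ht, ← hc] at h1
  have h2 : (genus κ F : ℤ) ≤ (Fintype.card ι : ℤ) * c := by linarith
  exact_mod_cast h2

end Pool.Agent.E6b

end

section
open scoped NNReal TensorProduct IntermediateField BigOperators Classical Topology
open Filter

namespace Pool.Agent.E6b
variable {κ F F' F'' : Type} [Field κ] [IsAlgClosed κ] [CharZero κ] [Field F] [Algebra κ F]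
  [IsFF κ F] [Field F'] [Algebra κ F'] [IsFF κ F'] [Field F''] [Algebra κ F''] [IsFF κ F'']
  (φ : FHom κ F F')

namespace FHom

theorem ell_pull (h : Function.Surjective φ.f) (D : Dv κ F) : ell (φ.pull D) = ell D := by
  let j : LL D →+ LL (φ.pull D) :=
    AddMonoidHom.mk' (fun x => ⟨φ.f x, φ.map_mem_LL.2 x.2⟩) fun x y => Subtype.ext (map_add φ.f _ _)
  have hj : Function.Bijective j := by
    refine ⟨fun x y e => Subtype.ext (φ.f.injective (congrArg Subtype.val e)), ?_⟩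
    rintro ⟨y, hy⟩
    obtain ⟨x, rfl⟩ := h y
    exact ⟨⟨x, φ.map_mem_LL.1 hy⟩, rfl⟩
  refine (congrArg Cardinal.toNat (rank_eq_of_equiv_equiv φ.c (AddEquiv.ofBijective j hj)
    φ.c.bijective fun r m => Subtype.ext ?_)).symm
  change φ.f (r • (m : F)) = φ.c r • φ.f m
  rw [Algebra.smul_def, Algebra.smul_def, map_mul, φ.comm]

theorem genus_eq (h : Function.Surjective φ.f) : genus κ F' = genus κ F := by
  have h1 : ∀ D, E6b.deg (φ.pull D) = E6b.deg D := fun D => by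
    rw [deg_pull, φ.deg_eq_one_iff.2 h, Nat.cast_one, one_mul]
  unfold genus
  congr 1
  ext n
  constructor
  · rintro ⟨E, hE⟩
    refine ⟨E.mapDomain φ.res, ?_⟩
    rw [← h1, ← φ.ell_pull h, φ.F4_pull_mapDomain h]
    exact hE
  · rintro ⟨D, hD⟩
    exact ⟨φ.pull D, by rw [h1, φ.ell_pull h]; exact hD⟩

end FHom

end Pool.Agent.E6b

end

section
open scoped NNReal TensorProduct IntermediateField BigOperators Classical Topology
open Filter

namespace Pool.Agent.E6b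
variable {F : Type} [Field F] [Algebra Qb F] [IsFF Qb F] (A : GAct F)

namespace GAct

/-- the base locus of a stable divisor is stable -/
theorem base_stab {K : IntermediateField ℚ Qb} {S : Finset (Place Qb F)} (h : A.Stab K S) :
    A.Stab K (S.filter fun P => ell (ind S - pd P) = ell (ind S)) := by
  intro σ hσ P hP
  rw [Finset.mem_filter] at hP ⊢
  refine ⟨h σ hσ P hP.1, ?_⟩
  rw [← hP.2, ← (A.fh σ).ell_pull (A.fh_surj σ) (ind S - pd P), FHom.pull_sub, pull_ind,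
    Stab.image_eq A h hσ, pull_pd]

theorem G1_bpf (S : Finset (Place Qb F)) :
    LL (ind S) ≤ LL (ind (S.filter fun P => ¬ ell (ind S - pd P) = ell (ind S))) ∧
      BPF (ind (S.filter fun P => ¬ ell (ind S - pd P) = ell (ind S))) := by
  have h1 : LL (ind S) ≤ LL (ind (S.filter fun P => ¬ ell (ind S - pd P) = ell (ind S))) := by
    intro f hf
    refine mem_LL.2 ((mem_LL.1 hf).imp_right fun h P => ?_)
    have h2 := h P
    rw [ind_apply] at h2 ⊢
    by_cases hP : P ∈ S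
    · by_cases hb : ell (ind S - pd P) = ell (ind S)
      · rw [if_neg (by simp [hb])]
        rw [if_pos hP] at h2
        by_cases h0 : f = 0
        · simp [h0, Place.ord_zero]
        · have h3 := mt (ell_sub_pd_lt_iff (ind S) P).2 hb.not_lt
          have h4 : P.ord f ≠ - ind S P := fun e => h3 ⟨f, hf, h0, e⟩
          rw [ind_apply, if_pos hP] at h4
          omega
      · rw [if_pos hP] at h2
        rwa [if_pos (Finset.mem_filter.2 ⟨hP, hb⟩)]
    · rw [if_neg hP] at h2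
      rwa [if_neg fun h => hP (Finset.mem_filter.1 h).1]
  refine ⟨h1, fun P => ?_⟩
  by_cases hP : P ∈ S.filter fun P => ¬ ell (ind S - pd P) = ell (ind S)
  · obtain ⟨h2, h3⟩ := Finset.mem_filter.1 hP
    obtain ⟨f, hf, h0, e⟩ := (ell_sub_pd_lt_iff (ind S) P).1
      (lt_of_le_of_ne (ell_mono (F2_sub_pd_le _ P)) h3)
    refine ⟨f, h0, (mem_LL.1 (h1 hf)).resolve_left h0, ?_⟩
    rw [e, ind_apply, ind_apply, if_pos hP, if_pos h2]
  · refine ⟨1, one_ne_zero, fun Q => ?_, ?_⟩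
    · rw [Place.ord_one, ind_apply]
      split_ifs <;> omega
    · rw [Place.ord_one, ind_apply, if_neg hP, neg_zero]

/-- the moving part of the sum of two orbits -/
theorem bpf_of_two_le {K : IntermediateField ℚ Qb} {P Q : Place Qb F}
    (hd : Disjoint (A.finite_orb K P).toFinset (A.finite_orb K Q).toFinset)
    (h : 2 ≤ ell (ind (A.finite_orb K P).toFinset + ind (A.finite_orb K Q).toFinset)) :
    BPF (ind (A.finite_orb K P).toFinset) ∨ BPF (ind (A.finite_orb K Q).toFinset) ∨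
      BPF (ind (A.finite_orb K P).toFinset + ind (A.finite_orb K Q).toFinset) := by
  have e : ind (A.finite_orb K P).toFinset + ind (A.finite_orb K Q).toFinset =
      ind ((A.finite_orb K P).toFinset ∪ (A.finite_orb K Q).toFinset) :=
    (Finset.sum_union hd).symm
  rw [e] at h ⊢
  set S := (A.finite_orb K P).toFinset ∪ (A.finite_orb K Q).toFinset with hS
  have hst : A.Stab K S := fun σ hσ R hR => Finset.mem_union.2
    ((Finset.mem_union.1 hR).imp (A.stab_orb K P σ hσ R) (A.stab_orb K Q σ hσ R))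
  obtain ⟨h1, h2⟩ := G1_bpf S
  set U := S.filter fun P => ¬ ell (ind S - pd P) = ell (ind S) with hU
  have hUS : ∀ R ∈ U, R ∈ A.orb K P ∨ R ∈ A.orb K Q := fun R hR => by
    simpa [hS] using (Finset.mem_filter.1 hR).1
  have hUo : ∀ R ∈ U, ∀ R' ∈ A.orb K R, R' ∈ U := by
    rintro R hR _ ⟨σ, hσ, rfl⟩
    obtain ⟨h3, h4⟩ := Finset.mem_filter.1 hR
    refine Finset.mem_filter.2 ⟨hst σ hσ R h3, fun h5 => h4 ?_⟩
    have := A.base_stab hst σ⁻¹ (G1_fix_inv hσ) _ (Finset.mem_filter.2 ⟨hst σ hσ R h3, h5⟩)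
    rw [G1_inv] at this
    exact (Finset.mem_filter.1 this).2
  have hin : ∀ X, (∃ R ∈ U, R ∈ A.orb K X) → (A.finite_orb K X).toFinset ⊆ U := by
    rintro X ⟨R, hR, hX⟩ R' hR'
    rw [Set.Finite.mem_toFinset, ← A.orb_eq_of_mem hX] at hR'
    exact hUo R hR R' hR'
  by_cases a : ∃ R ∈ U, R ∈ A.orb K P <;> by_cases b : ∃ R ∈ U, R ∈ A.orb K Q
  · refine Or.inr (Or.inr ?_)
    rwa [← Finset.Subset.antisymm (Finset.filter_subset _ _ : U ⊆ S)
      (Finset.union_subset (hin P a) (hin Q b))]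
  · refine Or.inl ?_
    rwa [Finset.Subset.antisymm (hin P a) fun R hR =>
      (Set.Finite.mem_toFinset _).2 ((hUS R hR).resolve_right fun h => b ⟨R, hR, h⟩)]
  · refine Or.inr (Or.inl ?_)
    rwa [Finset.Subset.antisymm (hin Q b) fun R hR =>
      (Set.Finite.mem_toFinset _).2 ((hUS R hR).resolve_left fun h => a ⟨R, hR, h⟩)]
  · have h3 : U = ∅ := Finset.eq_empty_of_forall_notMem fun R hR =>
      (hUS R hR).elim (fun h => a ⟨R, hR, h⟩) fun h => b ⟨R, hR, h⟩
    have h4 : ell (ind S) ≤ ell (ind U) := Submodule.finrank_mono h1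
    rw [h3, ind, ind, Finset.sum_empty, ell_zero] at h4
    exact absurd (h.trans h4) (by omega)

end GAct

end Pool.Agent.E6b

end

section
open scoped NNReal TensorProduct IntermediateField BigOperators Classical Topology
open Filter

namespace Pool.Agent.E6b
variable {κ E F : Type} [Field κ] [IsAlgClosed κ] [CharZero κ] [Field E] [Algebra κ E] [IsFF κ E]
  [Field F] [Algebra κ F] [IsFF κ F]

theorem K2_sup (hg : genus κ E = 1) {t : E} (ht : t ∉ (algebraMap κ E).range) {m : ℕ}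
    (hm : 2 ≤ m) : LL (m • dinf κ t) ⊔ LL (m • dinf κ t - dv κ t) = LL ((m + 1) • dinf κ t) := by
  have hn : (0 : ℤ) < rk κ t := by exact_mod_cast rk_pos ht
  have hm' : (2 : ℤ) ≤ m := by exact_mod_cast hm
  have h1 : LL (m • dinf κ t) ⊓ LL (m • dinf κ t - dv κ t) ≤
      LL (m • dinf κ t - dv κ t - dinf κ t) := by
    rintro f ⟨f1, f2⟩
    by_cases h0 : f = 0
    · exact mem_LL.2 (Or.inl h0)
    refine mem_LL.2 (Or.inr fun P => ?_)
    have g1 := (mem_LL.1 f1).resolve_left h0 P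
    have g2 := (mem_LL.1 f2).resolve_left h0 P
    simp only [Finsupp.sub_apply, dv_apply] at g2 ⊢
    rw [dinf_apply t P]
    omega
  have h2 := Submodule.finrank_sup_add_finrank_inf_eq (LL (m • dinf κ t))
    (LL (m • dinf κ t - dv κ t))
  have h3 := Submodule.finrank_mono h1
  have d1 : deg (m • dinf κ t) = m * rk κ t := by rw [deg_nsmul, deg_dinf_rk ht]
  have d2 : deg (m • dinf κ t - dv κ t) = m * rk κ t := by rw [deg_sub, d1, deg_dv, sub_zero]
  have d3 : deg (m • dinf κ t - dv κ t - dinf κ t) = m * rk κ t - rk κ t := by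
    rw [deg_sub, d2, deg_dinf_rk ht]
  have d4 : deg ((m + 1) • dinf κ t) = m * rk κ t + rk κ t := by
    rw [succ_nsmul, deg_add, d1, deg_dinf_rk ht]
  have e1 := ell_genus_one hg (D := m • dinf κ t) (by rw [d1]; nlinarith)
  have e2 := ell_genus_one hg (D := m • dinf κ t - dv κ t) (by rw [d2]; nlinarith)
  have e3 := ell_genus_one hg (D := m • dinf κ t - dv κ t - dinf κ t) (by rw [d3]; nlinarith)
  have e4 := ell_genus_one hg (D := (m + 1) • dinf κ t) (by rw [d4]; nlinarith)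
  rw [d1] at e1
  rw [d2] at e2
  rw [d3] at e3
  rw [d4] at e4
  unfold ell at e1 e2 e3 e4
  refine Submodule.eq_of_le_of_finrank_le (sup_le (LL_mono ?_) (LL_mono ?_)) (by omega)
  · exact nsmul_le_nsmul_left (F2_dinf_nonneg t) m.le_succ
  · intro P
    rw [succ_nsmul, Finsupp.sub_apply, Finsupp.add_apply, dv_apply, dinf_apply t P]
    omega

/-- in genus one `L(2 H)` spans the function field -/
theorem exists_basis_genus_one (hg : genus κ E = 1) {t : E} (ht : t ∉ (algebraMap κ E).range) :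
    ∃ y : Fin (rk κ t) → E, LinearIndependent κ⟮t⟯ y ∧ ∀ i, y i ∈ LL (2 • dinf κ t) := by
  have := finiteDimensional_of_transcendental (transcendental_of_notMem ht)
  have ht0 : t ≠ 0 := fun h => ht ⟨0, by rw [h, map_zero]⟩
  set W := Submodule.span κ⟮t⟯ (LL (2 • dinf κ t) : Set E) with hW
  have h1 : ∀ m : ℕ, ∀ f ∈ LL ((m + 2) • dinf κ t), f ∈ W := fun m => by
    induction m with
    | zero => exact fun f hf => Submodule.subset_span hf
    | succ m ih =>
      intro f hf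
      rw [show m + 1 + 2 = m + 2 + 1 from rfl, ← K2_sup hg ht (by omega)] at hf
      obtain ⟨x, hx, y, hy, rfl⟩ := Submodule.mem_sup.1 hf
      refine W.add_mem (ih x hx) ?_
      have h2 : t⁻¹ ∈ LL (dv κ t) := mem_LL.2 (Or.inr fun P => by rw [dv_apply, P.ord_inv])
      have h3 := mul_mem_LL hy h2
      rw [sub_add_cancel] at h3
      have h4 := W.smul_mem (IntermediateField.AdjoinSimple.gen κ t) (ih _ h3)
      have h5 : IntermediateField.AdjoinSimple.gen κ t • (y * t⁻¹) = y := by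
        change t * (y * t⁻¹) = y
        rw [mul_left_comm, mul_inv_cancel₀ ht0, mul_one]
      rwa [h5] at h4
  obtain ⟨b, m, hb, hm⟩ := K2_start ht 0
  have h2 : W = ⊤ := by
    rw [eq_top_iff, ← hb.span_eq_top_of_card_eq_finrank' (Fintype.card_fin _), Submodule.span_le]
    rintro _ ⟨i, rfl⟩
    refine h1 m _ (LL_mono ?_ (hm i))
    rw [zero_add]
    exact nsmul_le_nsmul_left (F2_dinf_nonneg t) (by omega)
  obtain ⟨f, f1, -, f2⟩ := Submodule.exists_fun_fin_finrank_span_eq κ⟮t⟯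
    (LL (2 • dinf κ t) : Set E)
  have h3 : rk κ t = Module.finrank κ⟮t⟯ W := by rw [h2, finrank_top, rk]
  exact ⟨f ∘ Fin.cast h3, f2.comp _ (Fin.cast_injective h3), fun i => f1 _⟩

end Pool.Agent.E6b

end

section
open scoped NNReal TensorProduct IntermediateField BigOperators Classical Topology
open Filter

namespace Pool.Agent.E6b

namespace TD
variable {κ L : Type} [Field κ] [Field L] [Algebra κ L] {a : ℕ} (D : TD κ L a)

/-- no maps of small degree -/
def NM (B : ℕ) : Prop := ∀ s J, s ∉ J → NoMap κ (D.F {s}) (D.F J) B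

end TD

end Pool.Agent.E6b

end

section
open scoped NNReal TensorProduct IntermediateField BigOperators Classical Topology
open Filter

namespace Pool.Agent.E6b
variable {κ E : Type} [Field κ] [IsAlgClosed κ] [CharZero κ] [Field E] [Algebra κ E]
variable {W : WP κ} {a : ℕ} {t x : E} (h : WC W a t x)
include h

namespace WC
variable [IsFF κ E]

theorem rk_t : rk κ t = 2 * a + 3 := by
  obtain ⟨o, h1, h2⟩ := h.X2a_inf'
  have e : lc t (some W.τ) = t - algebraMap κ E W.τ := rfl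
  have := X2a_rk h.nc (some W.τ) (o := o) (by rw [e, h1]; omega) (fun P hP => (h2 P hP).2.2)
  rw [e, h1] at this
  exact_mod_cast this

/-- the place at infinity -/
theorem exists_inf : ∃ o : Place κ E, o.ord (t - algebraMap κ E W.τ) = 2 * a + 3 ∧
    ∀ P : Place κ E, P ≠ o → x ∈ P.O ∧ W.y a t x ∈ P.O ∧ tv t P ≠ some W.τ := by
  obtain ⟨o, h1, h2⟩ := h.X2a_inf'
  refine ⟨o, h1, fun P hP => ⟨(h2 P hP).1, (h2 P hP).2.1, fun e => ?_⟩⟩
  exact absurd ((tv_eq_iff h.nc).1 e) (not_lt.2 (h2 P hP).2.2)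

theorem exists_place {x₀ y₀ : κ} (h0 : y₀ ^ 2 = W.f x₀) : ∃ P : Place κ E,
    x ∈ P.O ∧ W.y a t x ∈ P.O ∧ P.ev x = x₀ ∧ P.ev (W.y a t x) = y₀ := by
  obtain ⟨P, hP⟩ := exists_place_ev h.x_notMem x₀
  have h1 : x ∈ P.O := by
    have := add_mem (P.mem_iff.2 hP.le) (P.const x₀)
    rwa [sub_add_cancel] at this
  have h2 : P.ev x = x₀ := P.ev_eq (Or.inr hP)
  have h3 := h.X2a_ev_sq h1
  rw [h2, ← h0] at h3
  rcases sq_eq_sq_iff_eq_or_eq_neg.1 h3 with h4 | h4
  · exact ⟨P, h1, h.X2a_y_mem h1, h2, h4⟩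
  · obtain ⟨σ, hx, hy⟩ := h.X2a_invol
    have h5 : x ∈ ((FHom.ofAlgHom σ).res P).O := by
      refine ((FHom.ofAlgHom σ).map_mem_iff P x).1 ?_
      change σ x ∈ P.O
      rwa [hx]
    have h6 : ∀ f : E, P.ev (σ f) = ((FHom.ofAlgHom σ).res P).ev f := fun f =>
      (FHom.ofAlgHom σ).ev_map P f
    refine ⟨_, h5, h.X2a_y_mem h5, ?_, ?_⟩
    · rw [← h6, hx, h2]
    · rw [← h6, hy, X2a_ev_neg P (h.X2a_y_mem h1), h4, neg_neg]

theorem X2a_pos {P : Place κ E} (hP : x ∈ P.O) : 0 < P.ord (x - algebraMap κ E (P.ev x)) :=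
  (P.ev_spec hP).resolve_left fun e => h.x_notMem ⟨_, e.symm⟩

theorem X2a_sum_le (x₀ : κ) (S : Finset (Place κ E))
    (hS : ∀ P ∈ S, 0 < P.ord (x - algebraMap κ E x₀)) :
    ∑ P ∈ S, P.ord (x - algebraMap κ E x₀) ≤ 2 := by
  have h1 := sum_ord_lc h.x_notMem (some x₀)
  rw [h.rk_x] at h1
  refine le_trans (Finset.sum_le_sum_of_subset_of_nonneg (fun P hP => ?_) fun P hP _ => ?_) h1.le
  · exact (Set.Finite.mem_toFinset _).2 ((tv_eq_iff h.x_notMem).2 (hS P hP))
  · exact ((tv_eq_iff h.x_notMem).1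
      ((finite_tv h.x_notMem (some x₀)).mem_toFinset.1 hP)).le

theorem X2a_two {P : Place κ E} (hP : x ∈ P.O) (hy : P.ev (W.y a t x) = 0) :
    2 ≤ P.ord (x - algebraMap κ E (P.ev x)) := by
  have h1 := h.X2a_ev_sq hP
  have h2 := h.X2a_pos hP
  generalize hx₀ : P.ev x = x₀ at h1 h2 ⊢
  rw [hy] at h1
  have h3 : x₀ ^ 3 + W.A * x₀ ^ 2 + W.B = 0 := by simpa [WP.f] using h1.symm
  have h4 : x₀ * (3 * x₀ + 2 * W.A) ≠ 0 := by
    intro e
    apply h.ns
    rcases mul_eq_zero.1 e with e | e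
    · have : W.B = 0 := by rw [e] at h3; simpa using h3
      rw [this, zero_mul]
    · have : 4 * W.A ^ 3 + 27 * W.B = 0 := by
        linear_combination 27 * h3 - (9 * x₀ ^ 2 + 3 * W.A * x₀ - 2 * W.A ^ 2) * e
      rw [this, mul_zero]
  have m1 := mul_mem hP (add_mem hP (P.const (x₀ + W.A)))
  have h5 : P.ev (x * (x + algebraMap κ E (x₀ + W.A)) + algebraMap κ E (x₀ * (x₀ + W.A))) ≠ 0 := by
    rw [P.ev_add m1 (P.const _), P.ev_mul hP (add_mem hP (P.const _)), P.ev_add hP (P.const _),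
      P.ev_algebraMap, P.ev_algebraMap, hx₀]
    intro e
    exact h4 (by linear_combination e)
  have m2 := add_mem m1 (P.const (x₀ * (x₀ + W.A)))
  have h6 : W.y a t x ^ 2 = (x - algebraMap κ E x₀) *
      (x * (x + algebraMap κ E (x₀ + W.A)) + algebraMap κ E (x₀ * (x₀ + W.A))) := by
    have e := congrArg (algebraMap κ E) h3
    rw [h.y_sq, WP.f]
    simp only [map_add, map_mul, map_pow, map_zero] at e ⊢
    linear_combination e
  rw [Ne, P.ev_eq_zero_iff m2, not_or] at h5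
  have h7 := P.mem_iff.1 m2
  have h8 := P.ord_mul (F1a_ne_zero_of_ord P h2.ne') h5.1
  have h9 := P.ord_pow (W.y a t x) 2
  rw [h6, h8] at h9
  have h10 := h5.2
  have key : ∀ n₁ n₂ n₃ : ℤ, 0 < n₁ → 0 ≤ n₂ → ¬ 0 < n₂ → n₁ + n₂ = (2 : ℕ) * n₃ → 2 ≤ n₁ := by
    intro n₁ n₂ n₃ a b c d
    push_cast at d
    omega
  exact key _ _ _ h2 h7 h10 h9

theorem place_ext {P Q : Place κ E} (hP : x ∈ P.O) (hQ : x ∈ Q.O) (hx : P.ev x = Q.ev x)
    (hy : P.ev (W.y a t x) = Q.ev (W.y a t x)) : P = Q := by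
  by_contra hne
  have h1 := h.X2a_pos hP
  have h2 := h.X2a_pos hQ
  rw [← hx] at h2
  by_cases h0 : P.ev (W.y a t x) = 0
  · have h3 := h.X2a_two hP h0
    have h4 := h.X2a_sum_le (P.ev x) {P, Q} (fun R hR => by
      rcases Finset.mem_insert.1 hR with rfl | hR
      · exact h1
      · rw [Finset.mem_singleton.1 hR]; exact h2)
    rw [Finset.sum_pair hne] at h4
    omega
  · obtain ⟨R, r1, -, r3, r4⟩ := h.exists_place (x₀ := P.ev x) (y₀ := - P.ev (W.y a t x))
      (by rw [neg_sq, h.X2a_ev_sq hP])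
    have h3 := h.X2a_pos r1
    rw [r3] at h3
    have hRP : R ≠ P := by
      rintro rfl
      exact h0 (by linear_combination r4 / 2)
    have hRQ : R ≠ Q := by
      rintro rfl
      exact h0 (by linear_combination (r4 + hy) / 2)
    have h4 := h.X2a_sum_le (P.ev x) {R, P, Q} (fun S hS => by
      rcases Finset.mem_insert.1 hS with rfl | hS
      · exact h3
      rcases Finset.mem_insert.1 hS with rfl | hS
      · exact h1
      · rw [Finset.mem_singleton.1 hS]; exact h2)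
    rw [Finset.sum_insert (by simp [hRP, hRQ]), Finset.sum_pair hne] at h4
    omega

end WC

end Pool.Agent.E6b

end

section
open scoped NNReal TensorProduct IntermediateField BigOperators Classical Topology
open Filter

namespace Pool.Agent.E6b

section
variable {κ E : Type} [Field κ] [IsAlgClosed κ] [CharZero κ] [Field E] [Algebra κ E] [IsFF κ E]

theorem X2_ord_eq_zero (P : Place κ E) {z : E} (hz : z ∈ P.O) (h0 : P.ev z ≠ 0) :
    z ≠ 0 ∧ P.ord z = 0 := by
  have h1 := (P.ev_eq_zero_iff hz).not.1 h0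
  have h2 := P.mem_iff.1 hz
  push Not at h1
  exact ⟨h1.1, by omega⟩

theorem X2_mem_LL {o : Place κ E} {f : E} {n : ℕ} (h1 : ∀ P : Place κ E, P ≠ o → f ∈ P.O)
    (h2 : - (n : ℤ) ≤ o.ord f) : f ∈ LL (n • pd o) := by
  refine mem_LL.2 (Or.inr fun P => ?_)
  rw [Finsupp.smul_apply, F1_pd_apply]
  split_ifs with hP
  · subst hP
    simpa using h2
  · simpa using P.mem_iff.1 (h1 P (Ne.symm hP))

/-- functions with poles at `o` only are polynomials in a function with a simple pole -/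
theorem X2_poly {o : Place κ E} {z : E} (hz : ∀ P : Place κ E, P ≠ o → z ∈ P.O)
    (hzo : o.ord z = -1) (n : ℕ) : ∀ f : E, (∀ P : Place κ E, P ≠ o → f ∈ P.O) →
    - (n : ℤ) ≤ o.ord f → ∃ p : Polynomial κ, f = Polynomial.aeval z p := by
  have hz0 : z ≠ 0 := F1a_ne_zero_of_ord o (by omega)
  induction n with
  | zero =>
    intro f h1 h2
    obtain ⟨c, hc⟩ := mem_range_of_forall_mem (κ := κ) (f := f) fun P => by
      by_cases hP : P = o
      · subst hP
        exact P.mem_iff.2 (by simpa using h2)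
      · exact h1 P hP
    exact ⟨Polynomial.C c, by simp [hc]⟩
  | succ n ih =>
    intro f h1 h2
    by_cases hf : f = 0
    · exact ⟨0, by simp [hf]⟩
    have hp0 : z ^ (n + 1) ≠ 0 := pow_ne_zero _ hz0
    have hpo : o.ord (z ^ (n + 1)) = - ((n : ℤ) + 1) := by
      rw [o.ord_pow, hzo]; push_cast; ring
    have hg : f / z ^ (n + 1) ∈ o.O := by
      rw [o.mem_iff, o.ord_div hf hp0, hpo]; push_cast at h2; omega
    set c := o.ev (f / z ^ (n + 1)) with hc
    have e : f - algebraMap κ E c * z ^ (n + 1) =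
        (f / z ^ (n + 1) - algebraMap κ E c) * z ^ (n + 1) := by
      field_simp
    obtain ⟨p, hp⟩ := ih (f - algebraMap κ E c * z ^ (n + 1))
      (fun P hP => sub_mem (h1 P hP) (mul_mem (P.const c) (pow_mem (hz P hP) _))) (by
        rw [e]
        rcases o.ev_spec hg with h3 | h3
        · rw [← hc] at h3
          rw [h3, sub_self, zero_mul, o.ord_zero]; omega
        · rw [← hc] at h3
          rw [o.ord_mul (F1a_ne_zero_of_ord o (by omega)) hp0, hpo]; omega)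
    refine ⟨p + Polynomial.C c * Polynomial.X ^ (n + 1), ?_⟩
    rw [map_add, ← hp]
    simp

omit [IsAlgClosed κ] in
/-- a separable cubic has no polynomial parametrisation -/
theorem X2_no_param {A B : κ} (hs : B * (4 * A ^ 3 + 27 * B) ≠ 0) {q r : Polynomial κ}
    (hq : 0 < q.natDegree)
    (e : r ^ 2 = q ^ 3 + Polynomial.C A * q ^ 2 + Polynomial.C B) : False := by
  have hq0 : q ≠ 0 := by rintro rfl; simp at hq
  have hd := congrArg Polynomial.derivative e
  simp only [Polynomial.derivative_pow, Polynomial.derivative_add, Polynomial.derivative_mul,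
    Polynomial.derivative_C, zero_mul, zero_add, add_zero, Nat.cast_ofNat, map_ofNat] at hd
  norm_num at hd
  have hdv : r ∣ Polynomial.C (B * (4 * A ^ 3 + 27 * B)) * Polynomial.derivative q := by
    refine ⟨(4 * Polynomial.C A ^ 3 + 27 * Polynomial.C B + 6 * Polynomial.C A ^ 2 * q) * r *
      Polynomial.derivative q + (-3 * Polynomial.C A * Polynomial.C B -
        (2 * Polynomial.C A ^ 3 + 9 * Polynomial.C B) * q - 2 * Polynomial.C A ^ 2 * q ^ 2) * 2 *
        Polynomial.derivative r, ?_⟩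
    simp only [map_mul, map_add, map_pow, map_ofNat]
    linear_combination (-(4 * Polynomial.C A ^ 3 + 27 * Polynomial.C B +
      6 * Polynomial.C A ^ 2 * q) * Polynomial.derivative q) * e -
      (-3 * Polynomial.C A * Polynomial.C B -
        (2 * Polynomial.C A ^ 3 + 9 * Polynomial.C B) * q - 2 * Polynomial.C A ^ 2 * q ^ 2) * hd
  have hq' : Polynomial.derivative q ≠ 0 := fun h0 => by
    have := Polynomial.derivative_eq_zero.1 h0
    omega
  have h1 := Polynomial.natDegree_le_of_dvd hdv (mul_ne_zero (Polynomial.C_ne_zero.2 hs) hq')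
  rw [Polynomial.natDegree_C_mul hs] at h1
  have h2 := Polynomial.natDegree_derivative_lt hq.ne'
  have h3 : (q ^ 3 + Polynomial.C A * q ^ 2 + Polynomial.C B).natDegree = 3 * q.natDegree := by
    rw [add_assoc, Polynomial.natDegree_add_eq_left_of_natDegree_lt, Polynomial.natDegree_pow]
    rw [Polynomial.natDegree_add_C, Polynomial.natDegree_pow]
    refine lt_of_le_of_lt (Polynomial.natDegree_C_mul_le _ _) ?_
    rw [Polynomial.natDegree_pow]
    omega
  rw [← e, Polynomial.natDegree_pow] at h3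
  omega

end
variable {κ E : Type} [Field κ] [IsAlgClosed κ] [CharZero κ] [Field E] [Algebra κ E] [IsFF κ E]
  {W : WP κ} {a : ℕ} {t x : E} (h : WC W a t x)
include h

namespace WC

theorem X2_ord_inf {o : Place κ E} (ho : ∀ P : Place κ E, P ≠ o → x ∈ P.O) :
    o.ord x = -2 ∧ o.ord (W.y a t x) = -3 := by
  have h1 := deg_dinf_rk h.x_notMem
  rw [h.rk_x] at h1
  have h2 : dinf κ x = Finsupp.single o (max (- o.ord x) 0) := by
    ext P
    rw [dinf_apply, Finsupp.single_apply]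
    split_ifs with hP
    · rw [hP]
    · have := P.mem_iff.1 (ho P (Ne.symm hP))
      omega
  rw [h2, deg_single] at h1
  have hx : o.ord x = -2 := by omega
  have hx0 : x ≠ 0 := F1a_ne_zero_of_ord o (by omega)
  refine ⟨hx, ?_⟩
  have h3 := congrArg o.ord h.y_sq
  have h4 := o.ord_add_eq (f := x ^ 3) (g := algebraMap κ E W.A * x ^ 2) (pow_ne_zero _ hx0) (by
    by_cases hA : W.A = 0
    · left; simp [hA]
    · right
      rw [o.ord_mul (by simpa using hA) (pow_ne_zero _ hx0), o.ord_algebraMap, o.ord_pow,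
        o.ord_pow, hx]
      norm_num)
  have h5 := o.ord_add_eq (g := algebraMap κ E W.B) h4.1 (by
    right
    rw [h4.2, o.ord_algebraMap, o.ord_pow, hx]
    norm_num)
  rw [WP.f, h5.2, h4.2, o.ord_pow, o.ord_pow, hx] at h3
  push_cast at h3
  omega

theorem genus_eq : genus κ E = 1 := by
  obtain ⟨o, -, ho⟩ := h.exists_inf
  obtain ⟨hx, hy⟩ := h.X2_ord_inf fun P hP => (ho P hP).1
  have hx0 : x ≠ 0 := F1a_ne_zero_of_ord o (by omega)
  have hy0 : W.y a t x ≠ 0 := F1a_ne_zero_of_ord o (by omega)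
  have hpd : (0 : Dv κ E) ≤ pd o := fun P => by
    rw [F1_pd_apply]; split_ifs <;> simp
  have key : ∀ n : ℕ, n + 1 ≤ ell ((n + 1) • pd o) := by
    intro n
    induction n with
    | zero => exact one_le_ell (nsmul_nonneg hpd _)
    | succ n ih =>
      have e : (n + 1 + 1) • pd o - pd o = (n + 1) • pd o := by
        rw [succ_nsmul (pd o) (n + 1), add_sub_cancel_right]
      have hlt := (ell_sub_pd_lt_iff ((n + 1 + 1) • pd o) o).2 (by
        have e2 : ((n + 1 + 1) • pd o) o = (n : ℤ) + 2 := by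
          rw [Finsupp.smul_apply, F1_pd_apply, if_pos rfl]; simp; ring
        rw [e2]
        rcases Nat.even_or_odd' n with ⟨i, hi | hi⟩
        · have h3 : o.ord (x ^ (i + 1)) = - ((n : ℤ) + 2) := by
            rw [o.ord_pow, hx, hi]; push_cast; ring
          exact ⟨x ^ (i + 1), X2_mem_LL (fun P hP => pow_mem (ho P hP).1 _)
            (by rw [h3]; push_cast; omega), pow_ne_zero _ hx0, h3⟩
        · have h3 : o.ord (x ^ i * W.y a t x) = - ((n : ℤ) + 2) := by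
            rw [o.ord_mul (pow_ne_zero _ hx0) hy0, o.ord_pow, hx, hy, hi]; push_cast; ring
          exact ⟨x ^ i * W.y a t x, X2_mem_LL
            (fun P hP => mul_mem (pow_mem (ho P hP).1 _) (ho P hP).2.1)
            (by rw [h3]; push_cast; omega), mul_ne_zero (pow_ne_zero _ hx0) hy0, h3⟩)
      rw [e] at hlt
      omega
  have hle : genus κ E ≤ 1 := by
    have h1 := key (2 * genus κ E)
    have h2 := rr_large (D := (2 * genus κ E + 1) • pd o) (by
      rw [deg_nsmul, deg_pd]; push_cast; omega)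
    rw [deg_nsmul, deg_pd] at h2
    push_cast at h2
    omega
  by_contra hne
  have hg : genus κ E = 0 := by omega
  have h2 := rr_large (D := pd o) (by rw [deg_pd, hg]; norm_num)
  rw [deg_pd, hg] at h2
  obtain ⟨z, hz, hzc⟩ := (two_le_ell_iff hpd).1 (by omega)
  have hz0 : z ≠ 0 := fun h0 => hzc ⟨0, by simp [h0]⟩
  have hz1 := (mem_LL.1 hz).resolve_left hz0
  have hz2 : ∀ P : Place κ E, P ≠ o → z ∈ P.O := fun P hP => by
    have := hz1 P
    rw [F1_pd_apply, if_neg (Ne.symm hP)] at this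
    exact P.mem_iff.2 (by simpa using this)
  have hz3 : o.ord z = -1 := by
    have h3 := hz1 o
    rw [F1_pd_apply, if_pos rfl] at h3
    by_contra h4
    refine hzc (mem_range_of_forall_mem fun P => ?_)
    by_cases hP : P = o
    · subst hP
      exact P.mem_iff.2 (by omega)
    · exact hz2 P hP
  obtain ⟨q, hq⟩ := X2_poly hz2 hz3 2 x (fun P hP => (ho P hP).1) (by rw [hx]; norm_num)
  obtain ⟨r, hr⟩ := X2_poly hz2 hz3 3 (W.y a t x) (fun P hP => (ho P hP).2.1)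
    (by rw [hy]; norm_num)
  have hinj := transcendental_iff_injective.1 (transcendental_of_notMem hzc)
  refine X2_no_param (q := q) (r := r) h.ns ?_ (hinj ?_)
  · refine Nat.pos_of_ne_zero fun h0 => h.x_notMem ⟨q.coeff 0, ?_⟩
    rw [hq, Polynomial.eq_C_of_natDegree_eq_zero h0]
    simp
  · have h3 := h.y_sq
    rw [hr, WP.f] at h3
    rw [map_pow, h3, hq]
    simp

theorem X2_ord_w {c : Option κ} {P : Place κ E} (hP : x ∈ P.O) (hc : tv t P = c) :
    x ^ a * W.y a t x - algebraMap κ E (P.ev x ^ a * P.ev (W.y a t x)) ≠ 0 ∧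
    P.ord (x ^ a * W.y a t x - algebraMap κ E (P.ev x ^ a * P.ev (W.y a t x))) =
      P.ord (lc t c) := by
  obtain ⟨hy, -, htv⟩ := h.ev_rel hP
  have ht := h.t_eq
  have hu : x ^ a * W.y a t x + algebraMap κ E W.c ∈ P.O :=
    add_mem (mul_mem (pow_mem hP _) hy) (P.const _)
  have hev : P.ev (x ^ a * W.y a t x + algebraMap κ E W.c) =
      P.ev x ^ a * P.ev (W.y a t x) + W.c := by
    rw [P.ev_add (mul_mem (pow_mem hP _) hy) (P.const _), P.ev_mul (pow_mem hP _) hy,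
      P.ev_algebraMap]
    have := X2_ev_aeval P hP (Polynomial.X ^ a)
    simp only [map_pow, Polynomial.aeval_X, Polynomial.eval_pow, Polynomial.eval_X] at this
    rw [this]
  have e0 : x ^ a * W.y a t x - algebraMap κ E (P.ev x ^ a * P.ev (W.y a t x)) =
      (x ^ a * W.y a t x + algebraMap κ E W.c) -
        algebraMap κ E (P.ev x ^ a * P.ev (W.y a t x) + W.c) := by
    rw [map_add]; ring
  rw [e0]
  generalize x ^ a * W.y a t x + algebraMap κ E W.c = u at ht hu hev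
  rw [← hev] at htv ⊢
  have hne : u - algebraMap κ E (P.ev u) ≠ 0 := fun h0 => h.nc ⟨W.τ + (P.ev u)⁻¹, by
    rw [ht, map_add, map_inv₀, ← sub_eq_zero.1 h0]⟩
  refine ⟨hne, ?_⟩
  rw [← hc, htv]
  split_ifs with h0
  · rw [h0, map_zero, sub_zero] at hne ⊢
    have h1 : algebraMap κ E W.τ * u + 1 ∈ P.O := add_mem (mul_mem (P.const _) hu) (one_mem _)
    have h2 := X2_ord_eq_zero P h1 (by
      rw [P.ev_add (mul_mem (P.const _) hu) (one_mem _), P.ev_mul (P.const _) hu, h0,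
        ← map_one (algebraMap κ E), P.ev_algebraMap 1]
      simp)
    have h3 : t⁻¹ = u / (algebraMap κ E W.τ * u + 1) := by
      rw [ht]
      have := h2.1
      field_simp
    rw [lc, h3, P.ord_div hne h2.1, h2.2, sub_zero]
  · have h2 := X2_ord_eq_zero P hu h0
    have h4 : algebraMap κ E (P.ev u) ≠ 0 := by simpa using h0
    have h3 : t - algebraMap κ E (W.τ + (P.ev u)⁻¹) =
        - (u - algebraMap κ E (P.ev u)) / (u * algebraMap κ E (P.ev u)) := by
      rw [ht, map_add, map_inv₀]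
      have := h2.1
      field_simp
      ring
    rw [lc, h3, P.ord_div (neg_ne_zero.2 hne) (mul_ne_zero h2.1 h4), P.ord_neg,
      P.ord_mul h2.1 h4, h2.2, P.ord_algebraMap]
    ring

theorem mem_br {c : Option κ} (hc : ¬ Unr t c) : c ∈ W.Br a := by
  unfold Unr at hc
  push Not at hc
  obtain ⟨P, hP1, hP2⟩ := hc
  have htv := (tv_eq_iff h.nc).2 hP1
  by_cases hP : x ∈ P.O
  swap
  · obtain ⟨o, ho1, ho⟩ := h.exists_inf
    have hPo : P = o := by
      by_contra hne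
      exact hP (ho P hne).1
    left
    rw [← htv, hPo]
    refine (tv_eq_iff h.nc).2 ?_
    rw [lc, ho1]
    positivity
  obtain ⟨hy, hrel, htv'⟩ := h.ev_rel hP
  obtain ⟨hw0, hw⟩ := h.X2_ord_w hP htv
  refine Or.inr ⟨P.ev x, P.ev (W.y a t x), hrel, ?_, htv.symm.trans htv'⟩
  by_contra hne
  obtain ⟨hx0, hK⟩ := mul_ne_zero_iff.1 hne
  obtain ⟨b, hb⟩ : ∃ b, 2 * a = b + 1 := ⟨2 * a - 1, by have := h.ha; omega⟩
  have hb' : (2 * a : κ) = b + 1 := by exact_mod_cast hb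
  obtain ⟨H, hH⟩ := Polynomial.X_sub_C_dvd_sub_C_eval (a := P.ev x)
    (p := Polynomial.X ^ (b + 1) * (Polynomial.X ^ 3 + Polynomial.C W.A * Polynomial.X ^ 2 +
      Polynomial.C W.B))
  have hH0 : H.eval (P.ev x) ≠ 0 := by
    have hd := congrArg (fun p => Polynomial.eval (P.ev x) (Polynomial.derivative p)) hH
    simp only [Polynomial.derivative_sub, Polynomial.derivative_mul, Polynomial.derivative_add,
      Polynomial.derivative_C, Polynomial.derivative_X_pow, Polynomial.derivative_X,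
      Polynomial.eval_add, Polynomial.eval_mul, Polynomial.eval_sub, Polynomial.eval_pow,
      Polynomial.eval_C, Polynomial.eval_X, Polynomial.eval_zero, Polynomial.eval_one,
      sub_self, zero_mul, add_zero, sub_zero, one_mul, zero_add, Nat.add_sub_cancel] at hd
    rw [← hd]
    intro h0
    refine mul_ne_zero (pow_ne_zero b hx0) hK ?_
    rw [hb', WP.f]
    simp only [Algebra.algebraMap_self, RingHom.id_apply]
    push_cast at h0
    linear_combination h0
  have hHo := X2_ord_eq_zero P (F1_aeval_mem P hP H) (by rw [X2_ev_aeval P hP]; exact hH0)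
  have hs0 : x - algebraMap κ E (P.ev x) ≠ 0 := lc_ne_zero h.x_notMem (some (P.ev x))
  have e : (x - algebraMap κ E (P.ev x)) * Polynomial.aeval x H =
      (x ^ a * W.y a t x - algebraMap κ E (P.ev x ^ a * P.ev (W.y a t x))) *
      (x ^ a * W.y a t x + algebraMap κ E (P.ev x ^ a * P.ev (W.y a t x))) := by
    have h1 := congrArg (Polynomial.aeval x) hH
    have h2 := h.y_sq
    have h3 := congrArg (algebraMap κ E) hrel
    simp only [WP.f, Algebra.algebraMap_self, RingHom.id_apply, map_add, map_mul, map_pow] at h2 h3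
    simp only [← hb, map_sub, map_mul, map_add, map_pow, Polynomial.aeval_X, Polynomial.aeval_C,
      Polynomial.eval_add, Polynomial.eval_mul, Polynomial.eval_pow,
      Polynomial.eval_C, Polynomial.eval_X] at h1
    rw [← h1, map_mul, map_pow]
    linear_combination (- x ^ (2 * a)) * h2 + (algebraMap κ E (P.ev x)) ^ (2 * a) * h3
  have hw1 : x ^ a * W.y a t x + algebraMap κ E (P.ev x ^ a * P.ev (W.y a t x)) ≠ 0 := fun h0 => by
    rw [h0, mul_zero] at e
    exact mul_ne_zero hs0 hHo.1 e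
  have e2 := congrArg P.ord e
  rw [P.ord_mul hs0 hHo.1, P.ord_mul hw0 hw1, hHo.2, hw] at e2
  have hsum := sum_ord_lc h.x_notMem (some (P.ev x))
  rw [h.rk_x] at hsum
  have hpos : ∀ Q ∈ (finite_tv h.x_notMem (some (P.ev x))).toFinset,
      0 < Q.ord (lc x (some (P.ev x))) := fun Q hQ =>
    (tv_eq_iff h.x_notMem).1 (((finite_tv h.x_notMem (some (P.ev x))).mem_toFinset).1 hQ)
  have hPm : P ∈ (finite_tv h.x_notMem (some (P.ev x))).toFinset :=
    (Set.Finite.mem_toFinset _).2 (if_pos hP)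
  by_cases hy0 : P.ev (W.y a t x) = 0
  · have h1 := Finset.single_le_sum (fun Q hQ => (hpos Q hQ).le) hPm
    rw [hsum, lc] at h1
    rw [hy0, mul_zero, map_zero, sub_zero] at hw
    rw [hy0, mul_zero, map_zero, add_zero, add_zero, hw] at e2
    push_cast at h1
    omega
  · obtain ⟨Q, hQ1, hQ2, hQ3, hQ4⟩ := h.exists_place (x₀ := P.ev x) (y₀ := - P.ev (W.y a t x))
      (by rw [neg_sq, hrel])
    have hQP : P ≠ Q := by
      rintro rfl
      exact hy0 (by linear_combination (1 / 2 : κ) * hQ4)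
    have hQm : Q ∈ (finite_tv h.x_notMem (some (P.ev x))).toFinset :=
      (Set.Finite.mem_toFinset _).2 (by
        show tv x Q = _
        rw [tv, if_pos hQ1, hQ3])
    have h1 := Finset.add_le_sum (fun Q hQ => (hpos Q hQ).le) hPm hQm hQP
    have h2 := hpos Q hQm
    have h3 : 0 ≤ P.ord (x ^ a * W.y a t x + algebraMap κ E (P.ev x ^ a * P.ev (W.y a t x))) :=
      P.mem_iff.1 (add_mem (mul_mem (pow_mem hP _) hy) (P.const _))
    rw [hsum] at h1
    simp only [lc] at h1 h2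
    push_cast at h1
    omega

end WC

end Pool.Agent.E6b

end

section
open scoped NNReal TensorProduct IntermediateField BigOperators Classical Topology
open Filter

namespace Pool.Agent.E6b
variable {κ F F' E : Type} [Field κ] [IsAlgClosed κ] [CharZero κ] [Field F] [Algebra κ F] [IsFF κ F]
  [Field F'] [Algebra κ F'] [IsFF κ F'] [Field E] [Algebra κ E] [IsFF κ E] (S : Sq κ F' E F)

namespace Sq

theorem linearIndependent_mul {ι ι' : Type} [Fintype ι] [Fintype ι'] {b : ι → E}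
    (hb : LinearIndependent κ⟮S.t⟯ b) {b' : ι' → F'} (hb' : LinearIndependent κ⟮S.t'⟯ b') :
    LinearIndependent κ⟮S.p S.t⟯ fun x : ι' × ι => S.p' (b' x.1) * S.p (b x.2) := by
  rw [Fintype.linearIndependent_iff]
  intro g hg
  choose z hz hz' using fun x => S.K1_ex' (g x).2
  have h1 : ∑ i, S.p' (∑ i', z (i', i) * b' i') * S.p (b i) = 0 := by
    rw [← hg, Fintype.sum_prod_type_right]
    refine Finset.sum_congr rfl fun i _ => ?_
    rw [map_sum, Finset.sum_mul]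
    refine Finset.sum_congr rfl fun i' _ => ?_
    rw [map_mul, hz', IntermediateField.smul_def, smul_eq_mul, mul_assoc]
  have h2 := S.eq_zero_of_indep hb h1
  rintro ⟨i', i⟩
  have h3 := Fintype.linearIndependent_iff.1 hb' (fun i' => ⟨z (i', i), hz _⟩) (congrFun h2 i) i'
  have h4 : z (i', i) = 0 := congrArg Subtype.val h3
  apply Subtype.ext
  rw [← hz', h4, map_zero]
  rfl

end Sq

end Pool.Agent.E6b

end

section
open scoped NNReal TensorProduct IntermediateField BigOperators Classical Topology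
open Filter

namespace Pool.Agent.E6b
variable {κ L : Type} [Field κ] [IsAlgClosed κ] [CharZero κ] [Field L] [Algebra κ L] {n₀ B : ℕ}
  (T : Tw κ L n₀ B)

namespace Tw

theorem K8a_basis (J : Finset (Fin 5)) : ∃ (ι : Type) (_ : Fintype ι) (y : ι → T.F J),
    Fintype.card ι = n₀ ^ J.card ∧ LinearIndependent κ⟮T.tJ J⟯ y ∧
      ∀ i, y i ∈ LL ((2 * J.card) • dinf κ (T.tJ J)) := by
  induction J using K8a_ind with
  | h0 =>
    refine ⟨Unit, inferInstance, fun _ => 1, by simp,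
      linearIndependent_unique_iff.2 one_ne_zero, fun _ => ?_⟩
    rw [mem_LL_iff one_ne_zero, F1_dv_one]
    simp
  | h1 J s hs ih =>
    obtain ⟨ι, _, y, h1, h2, h3⟩ := ih
    obtain ⟨b, h4, h5⟩ := exists_basis_genus_one (T.g1 s) (T.nc_tJ {s})
    have h6 := Finset.card_erase_add_one hs
    refine ⟨ι × Fin (rk κ (T.tJ {s})), inferInstance, _, ?_,
      (T.K8a_S hs).linearIndependent_mul h4 h2, fun i => ?_⟩
    · rw [Fintype.card_prod, Fintype.card_fin, h1, T.rk_tJ, Finset.card_singleton, ← pow_add, h6]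
    · have h7 := mul_mem_LL ((T.pi (Finset.erase_subset s J)).map_mem_LL.2 (h3 i.1))
        ((T.pi (Finset.singleton_subset_iff.2 hs)).map_mem_LL.2 (h5 i.2))
      rw [FHom.pull_nsmul, FHom.pull_nsmul, FHom.pull_dinf, FHom.pull_dinf, pi_tJ, pi_tJ,
        ← add_nsmul, ← mul_add_one, h6] at h7
      exact h7

theorem genus_le' (J : Finset (Fin 5)) : genus κ (T.F J) ≤ n₀ ^ J.card * 10 := by
  obtain ⟨ι, _, y, h1, h2, h3⟩ := T.K8a_basis J
  have h4 := genus_le (T.nc_tJ J) y h2 (h1.trans (T.rk_tJ J).symm) _ h3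
  have h5 : J.card ≤ 5 := by simpa using Finset.card_le_univ J
  rw [h1] at h4
  exact h4.trans (Nat.mul_le_mul_left _ (by omega))

theorem K8a_ex (P : ∀ s, Place κ (T.F {s})) {c : Option κ} (h : ∀ s, tv (T.tJ {s}) (P s) = c)
    (J : Finset (Fin 5)) : ∃ R : Place κ (T.F J), tv (T.tJ J) R = c ∧
      ∀ s (hs : s ∈ J), (T.pi (Finset.singleton_subset_iff.2 hs)).res R = P s := by
  induction J using K8a_ind with
  | h0 =>
    exact ⟨(T.pi (Finset.empty_subset {0})).res (P 0), (T.tv_pi _ _).trans (h 0),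
      fun s hs => absurd hs (Finset.notMem_empty s)⟩
  | h1 J s hs ih =>
    obtain ⟨Q, h1, h2⟩ := ih
    obtain ⟨R, h3, h4⟩ := (T.K8a_S hs).exists_place (Q := Q) (P := P s) (h1.trans (h s).symm)
    refine ⟨R, (T.tv_pi (Finset.erase_subset s J) R).symm.trans ((congrArg _ h3).trans h1),
      fun s' hs' => ?_⟩
    by_cases e : s' = s
    · subst e
      exact h4
    · rw [← h2 s' (Finset.mem_erase.2 ⟨e, hs'⟩), ← h3]
      rfl

theorem exists_pr (P : ∀ s, Place κ (T.F {s})) {c : Option κ} (h : ∀ s, tv (T.tJ {s}) (P s) = c) :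
    ∃ R : Place κ T.FU, ∀ s, T.pr s R = P s :=
  (T.K8a_ex P h Finset.univ).imp fun _ hR s => hR.2 s (Finset.mem_univ s)

theorem finite_not_ur : {R : Place κ T.FU | ¬ T.Ur R}.Finite := by
  refine (Set.finite_iUnion fun s : Fin 5 => (finite_not_unr (T.nc_tJ {s})).biUnion
    fun c _ => finite_tv (T.nc_tJ Finset.univ) c).subset fun R hR => ?_
  obtain ⟨s, hs⟩ := not_forall.1 hR
  exact Set.mem_iUnion.2 ⟨s, Set.mem_biUnion hs rfl⟩

end Tw

end Pool.Agent.E6b

end

section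
open scoped NNReal TensorProduct IntermediateField BigOperators Classical Topology
open Filter

namespace Pool.Agent.E6b

theorem X3_finrank {F K : Type} [Field F] [Field K] [Algebra K F] {x : F} (hx : IsIntegral K x)
    (h : K⟮x⟯ = ⊤) : Module.finrank K F = (minpoly K x).natDegree := by
  rw [← IntermediateField.adjoin.finrank hx, h, IntermediateField.finrank_top']

section
variable {κ F : Type} [Field κ] [IsAlgClosed κ] [CharZero κ] [Field F] [Algebra κ F] [IsFF κ F]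

theorem X3_dinf_zero : dinf κ (0 : F) = 0 := by
  ext P
  rw [dinf_apply, (F0_spec P).zero]
  simp

theorem X3_dinf_nonneg (f : F) : 0 ≤ dinf κ f := fun P => by
  rw [dinf_apply]
  exact le_max_right _ _

theorem X3_dinf_le {f : F} {N : Dv κ F} (h : f ∈ LL N) (hN : 0 ≤ N) : dinf κ f ≤ N := by
  rcases mem_LL.1 h with rfl | h
  · rw [X3_dinf_zero]; exact hN
  · intro P
    rw [dinf_apply]
    exact max_le (by linarith [h P]) (hN P)

theorem X3_one_mem : (1 : F) ∈ LL (0 : Dv κ F) := by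
  rw [mem_LL_iff one_ne_zero, F1_dv_one]
  simp

theorem X3_pow_mem (f : F) (n : ℕ) : f ^ n ∈ LL (n • dinf κ f) := by
  induction n with
  | zero => rw [pow_zero, zero_nsmul]; exact X3_one_mem
  | succ n ih => rw [pow_succ, succ_nsmul]; exact mul_mem_LL ih (mem_LL_dinf f)

theorem X3_prod_mem {ι : Type} (s : Finset ι) (f : ι → F) (N : ι → Dv κ F)
    (h : ∀ i ∈ s, f i ∈ LL (N i)) : ∏ i ∈ s, f i ∈ LL (∑ i ∈ s, N i) := by
  induction s using Finset.induction_on with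
  | empty => rw [Finset.prod_empty, Finset.sum_empty]; exact X3_one_mem
  | insert i s hi ih =>
    rw [Finset.prod_insert hi, Finset.sum_insert hi]
    exact mul_mem_LL (h i (Finset.mem_insert_self _ _))
      (ih fun j hj => h j (Finset.mem_insert_of_mem hj))

end

theorem X3_deg_gen {κ F F' : Type} [Field κ] [Field F] [Algebra κ F] [Field F'] [Algebra κ F']
    (W : WP κ) (a : ℕ) (p : F' →ₐ[κ] F) {t' : F'} {x : F} (rel : W.Rel a (p t') x)
    (gen : ∀ M : Subfield F, (∀ c : κ, algebraMap κ F c ∈ M) → (∀ y, p y ∈ M) → x ∈ M →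
      ∀ y, y ∈ M) : (FHom.ofAlgHom p).deg ≤ 2 * a + 3 := by
  set φ := FHom.ofAlgHom p with hφ
  have h1 := X3_poly (K := φ.f.fieldRange) W a
    (fun c => ⟨⟨_, ⟨algebraMap κ _ c, rfl⟩⟩, p.commutes c⟩) ⟨⟨_, ⟨t', rfl⟩⟩, rfl⟩ rel
  have h3 : ∀ y, p y ∈ φ.f.fieldRange⟮x⟯.toSubfield := fun y =>
    IntermediateField.algebraMap_mem _ (⟨_, ⟨y, rfl⟩⟩ : φ.f.fieldRange)
  have h2 : φ.f.fieldRange⟮x⟯ = ⊤ := by
    refine eq_top_iff.2 fun y _ => ?_
    refine gen φ.f.fieldRange⟮x⟯.toSubfield (fun c => ?_) h3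
      (IntermediateField.mem_adjoin_simple_self _ _) y
    rw [← p.commutes c]
    exact h3 _
  exact (X3_finrank h1.1 h2).trans_le h1.2

theorem X3_le_gen {κ F F' E : Type} [Field κ] [IsAlgClosed κ] [CharZero κ] [Field F] [Algebra κ F]
    [IsFF κ F] [Field F'] [Algebra κ F'] [IsFF κ F'] [Field E] [Algebra κ E] [IsFF κ E]
    (p' : F' →ₐ[κ] F) (p : E →ₐ[κ] F) {t' : F'} {t : E} (comm : p' t' = p t) {τ : κ} {n : ℕ}
    (hn : 0 < n) {o : Place κ E} (ho : o.ord (t - algebraMap κ E τ) = n) (hu : Unr t' (some τ)) :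
    n ≤ (FHom.ofAlgHom p').deg := by
  set φ := FHom.ofAlgHom p' with hφ
  set ψ := FHom.ofAlgHom p with hψ
  obtain ⟨R, rfl⟩ := ψ.res_surj o
  have h1 := ψ.ord_map R (t - algebraMap κ _ τ)
  have h2 := φ.ord_map R (lc t' (some τ))
  have e : φ.f (lc t' (some τ)) = ψ.f (t - algebraMap κ _ τ) :=
    (map_lc p' t' _).trans ((congrArg (fun z => lc z (some τ)) comm).trans
      (map_lc p t (some τ)).symm)
  rw [e, h1, ho] at h2
  have h3 := ψ.F4_e_pos R
  have h4 := φ.F4_e_pos R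
  have h5 : 0 < (φ.res R).ord (lc t' (some τ)) := by
    by_contra hc
    have h6 := mul_nonpos_of_nonneg_of_nonpos h4.le (not_lt.1 hc)
    have h7 : (0 : ℤ) < ψ.e R * n := by positivity
    omega
  rw [hu _ h5, mul_one] at h2
  have h8 : φ.e R ≤ φ.deg := by
    rw [← φ.sum_e (φ.res R)]
    exact Finset.single_le_sum (f := φ.e) (fun _ _ => Nat.zero_le _) (φ.mem_fib.2 rfl)
  have h9 : (n : ℤ) ≤ φ.e R := by nlinarith
  exact (Int.ofNat_le.1 h9).trans h8

theorem X3_mul {κ F F' E : Type} [Field κ] [IsAlgClosed κ] [CharZero κ] [Field F] [Algebra κ F]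
    [IsFF κ F] [Field F'] [Algebra κ F'] [IsFF κ F'] [Field E] [Algebra κ E] [IsFF κ E]
    (S : Sq κ F' E F) {t' : F'} {t : E} {T : F} {p' : F' →ₐ[κ] F} {p : E →ₐ[κ] F}
    (h' : S.t' = t') (h : S.t = t) (hp' : S.p' = p') (hp : S.p = p) (hT : p t = T)
    {ι ι' : Type} [Fintype ι] [Fintype ι'] {b : ι → E}
    (hb : LinearIndependent κ⟮t⟯ b) {b' : ι' → F'} (hb' : LinearIndependent κ⟮t'⟯ b')
    {ι'' : Type} {v : ι'' → F} (f : ι'' → ι' × ι) (hf : Function.Injective f)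
    (hv : ∀ i, v i = p' (b' (f i).1) * p (b (f i).2)) : LinearIndependent κ⟮T⟯ v := by
  subst h' h hp' hp hT
  rw [funext hv]
  exact (S.linearIndependent_mul hb hb').comp f hf
variable {κ L : Type} [Field κ] [IsAlgClosed κ] [CharZero κ] [Field L] [Algebra κ L] {a : ℕ}
  (D : TD κ L a)

namespace TD

omit [IsAlgClosed κ] [CharZero κ] in
theorem X3_top (J : Finset (Fin 5)) (M : Subfield (D.F J))
    (hκ : ∀ c : κ, algebraMap κ (D.F J) c ∈ M) (ht : D.tF J ∈ M)
    (hx : ∀ s (h : s ∈ J), D.xF h ∈ M) (y : D.F J) : y ∈ M := by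
  have h1 : M.toIntermediateField hκ = ⊤ := by
    refine IntermediateField.lift_injective (D.F J) ?_
    rw [IntermediateField.lift_top]
    refine le_antisymm (IntermediateField.lift_le _) ?_
    refine IntermediateField.adjoin_le_iff.2 ?_
    rintro z (rfl | ⟨s, hs, rfl⟩)
    · exact (IntermediateField.mem_lift (D.tF J)).2 ht
    · exact (IntermediateField.mem_lift (D.xF hs)).2 (hx s hs)
  have h2 : y ∈ M.toIntermediateField hκ := by rw [h1]; exact IntermediateField.mem_top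
  exact h2

omit [IsAlgClosed κ] [CharZero κ] in
theorem X3_rel {J : Finset (Fin 5)} {s : Fin 5} (h : s ∈ J) : (D.W s).Rel a (D.tF J) (D.xF h) := by
  have h1 := D.rel s
  unfold WP.Rel WP.f at h1 ⊢
  apply (D.F J).val.toRingHom.injective
  simp only [map_mul, map_pow, map_add, map_sub, map_inv₀]
  exact h1

omit [IsAlgClosed κ] [CharZero κ] in
theorem X3_nc (J : Finset (Fin 5)) : D.tF J ∉ (algebraMap κ (D.F J)).range :=
  fun ⟨c, hc⟩ => D.nc ⟨c, congrArg Subtype.val hc⟩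

theorem wc (s : Fin 5) : WC (D.W s) a (D.tF {s}) (D.xF (Finset.mem_singleton_self s)) where
  ha := D.ha
  ns := D.ns s
  nc := D.X3_nc _
  gen := by
    refine eq_top_iff.2 fun y _ => ?_
    refine D.X3_top {s} (IntermediateField.adjoin κ
      {D.tF {s}, D.xF (Finset.mem_singleton_self s)}).toSubfield (fun c => ?_) ?_ ?_ y
    · exact IntermediateField.algebraMap_mem _ c
    · exact IntermediateField.subset_adjoin κ _ (Set.mem_insert _ _)
    · intro s' hs'
      obtain rfl := Finset.mem_singleton.1 hs'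
      exact IntermediateField.subset_adjoin κ _ (Set.mem_insert_of_mem _ rfl)
  rel := D.X3_rel _

theorem nc_tF (J : Finset (Fin 5)) : D.tF J ∉ (algebraMap κ (D.F J)).range := D.X3_nc J

omit [IsAlgClosed κ] [CharZero κ] in
theorem X3_int {J : Finset (Fin 5)} {s : Fin 5} (h : s ∈ J) :
    IsIntegral κ⟮D.tF J⟯ (D.xF h) ∧ (minpoly κ⟮D.tF J⟯ (D.xF h)).natDegree ≤ 2 * a + 3 :=
  X3_poly (D.W s) a (fun c => ⟨algebraMap κ _ c, rfl⟩)
    ⟨⟨_, IntermediateField.mem_adjoin_simple_self κ _⟩, rfl⟩ (D.X3_rel h)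

omit [IsAlgClosed κ] [CharZero κ] in
theorem X3_gen (J : Finset (Fin 5)) :
    IntermediateField.adjoin κ⟮D.tF J⟯ (Set.range fun s : J => D.xF s.2) = ⊤ := by
  refine eq_top_iff.2 fun y _ => ?_
  refine D.X3_top J (IntermediateField.adjoin κ⟮D.tF J⟯
    (Set.range fun s : J => D.xF s.2)).toSubfield (fun c => ?_) ?_ ?_ y
  · exact IntermediateField.algebraMap_mem _ (algebraMap κ κ⟮D.tF J⟯ c)
  · exact IntermediateField.algebraMap_mem _
      (⟨_, IntermediateField.mem_adjoin_simple_self κ (D.tF J)⟩ : κ⟮D.tF J⟯)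
  · intro s hs
    exact IntermediateField.subset_adjoin _ _ ⟨⟨s, hs⟩, rfl⟩

instance ff (J : Finset (Fin 5)) : IsFF κ (D.F J) := by
  refine ⟨D.tF J, F0_transcendental (D.nc_tF J), ?_⟩
  have h1 : FiniteDimensional κ⟮D.tF J⟯
      (IntermediateField.adjoin κ⟮D.tF J⟯ (Set.range fun s : J => D.xF s.2)) :=
    IntermediateField.finiteDimensional_adjoin (by
      rintro _ ⟨s, rfl⟩
      exact (D.X3_int s.2).1)
  rw [D.X3_gen J] at h1
  exact IntermediateField.topEquiv.toLinearEquiv.finiteDimensional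

theorem mono {J J' : Finset (Fin 5)} (h : J ⊆ J') : D.F J ≤ D.F J' :=
  IntermediateField.adjoin.mono _ _ _
    (Set.insert_subset_insert (Set.image_mono (Finset.coe_subset.2 h)))

theorem sup (J J' : Finset (Fin 5)) : D.F (J ∪ J') = D.F J ⊔ D.F J' := by
  unfold F
  rw [← IntermediateField.adjoin_union, Finset.coe_union, Set.image_union, Set.insert_union,
    Set.union_insert, Set.insert_idem]

theorem unr (s s' : Fin 5) (h : s ≠ s') (c : Option κ) :
    Unr (D.tF {s}) c ∨ Unr (D.tF {s'}) c := by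
  by_contra hc
  rw [not_or] at hc
  exact Set.disjoint_left.1 (D.br s s' h) ((D.wc s).mem_br hc.1) ((D.wc s').mem_br hc.2)

theorem X3_deg_le {J : Finset (Fin 5)} {s : Fin 5} (h : s ∈ J) :
    (incl (D.mono (Finset.erase_subset s J))).deg ≤ 2 * a + 3 := by
  refine X3_deg_gen (D.W s) a (IntermediateField.inclusion (D.mono (Finset.erase_subset s J)))
    (t' := D.tF _) (D.X3_rel h) fun M h1 h2 h3 => D.X3_top J M h1 (h2 (D.tF _)) fun s' hs' => ?_
  by_cases e : s' = s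
  · subst e
    exact h3
  · exact h2 (D.xF (Finset.mem_erase.2 ⟨e, hs'⟩))

theorem X3_le_deg {J : Finset (Fin 5)} {s : Fin 5} (h : s ∈ J)
    (ih : ∀ c : Option κ, (∀ s' ∈ J.erase s, Unr (D.tF {s'}) c) → Unr (D.tF (J.erase s)) c) :
    2 * a + 3 ≤ (incl (D.mono (Finset.erase_subset s J))).deg := by
  obtain ⟨o, ho, -⟩ := (D.wc s).exists_inf
  have hu : Unr (D.tF (J.erase s)) (some (D.W s).τ) := by
    refine ih _ fun s' hs' => ?_
    by_contra hc
    exact Set.disjoint_left.1 (D.br s' s (Finset.ne_of_mem_erase hs')) ((D.wc s').mem_br hc)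
      (Or.inl rfl)
  exact X3_le_gen (IntermediateField.inclusion (D.mono (Finset.erase_subset s J)))
    (IntermediateField.inclusion (D.mono (Finset.singleton_subset_iff.2 h))) (t' := D.tF _)
    (t := D.tF _) rfl (n := 2 * a + 3) (by omega) (ho.trans (by push_cast; rfl)) hu

/-- the square adding the cover `s` -/
noncomputable def X3_sq {J : Finset (Fin 5)} {s : Fin 5} (h : s ∈ J)
    (ih : ∀ c : Option κ, (∀ s' ∈ J.erase s, Unr (D.tF {s'}) c) → Unr (D.tF (J.erase s)) c) :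
    Sq κ (D.F (J.erase s)) (D.F {s}) (D.F J) where
  p' := IntermediateField.inclusion (D.mono (Finset.erase_subset s J))
  p := IntermediateField.inclusion (D.mono (Finset.singleton_subset_iff.2 h))
  t' := D.tF _
  t := D.tF _
  comm := rfl
  nc := D.nc_tF _
  deg' := (le_antisymm (D.X3_deg_le h) (D.X3_le_deg h ih)).trans (D.wc s).rk_t.symm
  gen := K8a_gen _ _ (by
    rw [← D.sup, Finset.union_comm, ← Finset.insert_eq, Finset.insert_erase h])
  unr := fun c => by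
    by_cases hc : Unr (D.tF {s}) c
    · exact Or.inl hc
    · exact Or.inr (ih c fun s' hs' =>
        (D.unr s s' (Finset.ne_of_mem_erase hs').symm c).resolve_left hc)

theorem X3_key (J : Finset (Fin 5)) : rk κ (D.tF J) = (2 * a + 3) ^ J.card ∧
    ∀ c : Option κ, (∀ s ∈ J, Unr (D.tF {s}) c) → Unr (D.tF J) c := by
  induction J using Tw.K8a_ind with
  | h0 =>
    have h1 : rk κ (D.tF ∅) = 1 := by
      have h2 : κ⟮D.tF ∅⟯ = ⊤ := by
        refine eq_top_iff.2 fun y _ => ?_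
        exact D.X3_top ∅ κ⟮D.tF ∅⟯.toSubfield (fun c => IntermediateField.algebraMap_mem _ c)
          (IntermediateField.mem_adjoin_simple_self κ _)
          (fun s hs => absurd hs (Finset.notMem_empty s)) y
      unfold rk
      rw [h2]
      exact IntermediateField.finrank_top
    exact ⟨h1, fun c _ => K8a_unr (D.nc_tF ∅) h1 c⟩
  | h1 J s hs ih =>
    refine ⟨?_, fun c h => (D.X3_sq hs ih.2).unr_top (h s hs)
      (ih.2 c fun s' hs' => h s' (Finset.mem_of_mem_erase hs'))⟩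
    have h1 := (rk_map (incl (D.mono (Finset.erase_subset s J))) (D.nc_tF _)).2
    rw [le_antisymm (D.X3_deg_le hs) (D.X3_le_deg hs ih.2), ih.1, ← pow_succ',
      Finset.card_erase_add_one hs] at h1
    exact h1

theorem rk_eq (J : Finset (Fin 5)) : rk κ (D.tF J) = (2 * a + 3) ^ J.card := (D.X3_key J).1

theorem X3_pow (s : Fin 5) : LinearIndependent κ⟮D.tF {s}⟯
    fun i : Fin (2 * a + 3) => D.xF (Finset.mem_singleton_self s) ^ (i : ℕ) := by
  have h1 : κ⟮D.tF {s}⟯⟮D.xF (Finset.mem_singleton_self s)⟯ = ⊤ := by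
    rw [← D.X3_gen {s}]
    congr 1
    ext y
    constructor
    · rintro rfl
      exact ⟨⟨s, Finset.mem_singleton_self s⟩, rfl⟩
    · rintro ⟨⟨s', hs'⟩, rfl⟩
      obtain rfl := Finset.mem_singleton.1 hs'
      rfl
  have h2 := X3_finrank (D.X3_int (Finset.mem_singleton_self s)).1 h1
  have h3 : 2 * a + 3 = (minpoly κ⟮D.tF {s}⟯ (D.xF (Finset.mem_singleton_self s))).natDegree :=
    (D.wc s).rk_t.symm.trans h2
  exact (linearIndependent_pow (K := κ⟮D.tF {s}⟯) (D.xF (Finset.mem_singleton_self s))).comp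
    (Fin.cast h3) (Fin.cast_injective h3)

omit [IsAlgClosed κ] [CharZero κ] in
theorem X3_coe_pow {J : Finset (Fin 5)} {s : Fin 5} (h : s ∈ J) (n : ℕ) :
    ((D.xF h ^ n : D.F J) : L) = D.x s ^ n := SubmonoidClass.coe_pow _ _

omit [IsAlgClosed κ] [CharZero κ] in
theorem X3_coe_prod (J : Finset (Fin 5)) (ν : Fin 5 → ℕ) :
    ((∏ s : J, D.xF s.2 ^ ν s.1 : D.F J) : L) = ∏ s ∈ J, D.x s ^ ν s := by
  rw [← Finset.prod_coe_sort J fun s => D.x s ^ ν s, SubmonoidClass.coe_finsetProd]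
  exact Finset.prod_congr rfl fun s _ => D.X3_coe_pow s.2 _

omit [IsAlgClosed κ] [CharZero κ] in
theorem X3_split {J : Finset (Fin 5)} {s : Fin 5} (hs : s ∈ J) (h₁ : D.F (J.erase s) ≤ D.F J)
    (h₂ : D.F {s} ≤ D.F J) (μ : J → ℕ) :
    ∏ s' : J, D.xF s'.2 ^ μ s' = IntermediateField.inclusion h₁
      (∏ s' : J.erase s, D.xF s'.2 ^ μ ⟨s'.1, Finset.mem_of_mem_erase s'.2⟩) *
      IntermediateField.inclusion h₂ (D.xF (Finset.mem_singleton_self s) ^ μ ⟨s, hs⟩) := by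
  obtain ⟨ν, hν⟩ : ∃ ν : Fin 5 → ℕ, ∀ s' (h : s' ∈ J), μ ⟨s', h⟩ = ν s' :=
    ⟨fun s' => if h : s' ∈ J then μ ⟨s', h⟩ else 0, fun s' h => by simp only [dif_pos h]⟩
  have e : ∀ s' : J, μ s' = ν s'.1 := fun s' => hν s'.1 s'.2
  simp only [e]
  apply Subtype.ext
  rw [MulMemClass.coe_mul, IntermediateField.coe_inclusion, IntermediateField.coe_inclusion,
    X3_coe_prod, X3_coe_prod, X3_coe_pow, Finset.prod_erase_mul J _ hs]

/-- the monomials in the `x s` form a basis over `κ(t)` -/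
theorem indep_mon (J : Finset (Fin 5)) : LinearIndependent κ⟮D.tF J⟯
    fun μ : J → Fin (2 * a + 3) => ∏ s : J, D.xF s.2 ^ (μ s : ℕ) := by
  induction J using Tw.K8a_ind with
  | h0 =>
    have : IsEmpty (∅ : Finset (Fin 5)) := ⟨fun s => Finset.notMem_empty _ s.2⟩
    refine LinearIndependent.of_subsingleton (fun _ => 0) ?_
    rw [Fintype.prod_empty]
    exact one_ne_zero
  | h1 J s hs ih =>
    refine X3_mul (D.X3_sq hs (D.X3_key _).2) (t' := D.tF _) (t := D.tF _) (T := D.tF J)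
      (p' := IntermediateField.inclusion (D.mono (Finset.erase_subset s J)))
      (p := IntermediateField.inclusion (D.mono (Finset.singleton_subset_iff.2 hs)))
      rfl rfl rfl rfl rfl (D.X3_pow s) ih (fun μ : J → Fin (2 * a + 3) =>
      (fun s' : J.erase s => μ ⟨s'.1, Finset.mem_of_mem_erase s'.2⟩, μ ⟨s, hs⟩)) ?_
      fun μ => D.X3_split hs _ _ fun s' => (μ s' : ℕ)
    intro μ ν e
    funext ⟨s', hs'⟩
    by_cases e' : s' = s
    · subst e'
      exact congrArg Prod.snd e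
    · exact congrFun (congrArg Prod.fst e) ⟨s', Finset.mem_erase.2 ⟨e', hs'⟩⟩

theorem deg_mon_le (J : Finset (Fin 5)) (μ : J → Fin (2 * a + 3)) :
    deg (dinf κ (∏ s : J, D.xF s.2 ^ (μ s : ℕ))) ≤ 10 * (2 * a + 3) ^ 5 := by
  have h1 := X3_prod_mem (κ := κ) Finset.univ (fun s : J => D.xF s.2 ^ (μ s : ℕ))
    (fun s => (μ s : ℕ) • dinf κ (D.xF s.2)) fun s _ => X3_pow_mem _ _
  have h2 := deg_mono (X3_dinf_le h1
    (Finset.sum_nonneg fun s _ => nsmul_nonneg (X3_dinf_nonneg _) _))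
  have h5 : J.card ≤ 5 := by simpa using Finset.card_le_univ J
  have h3 : ∀ s : J, deg ((μ s : ℕ) • dinf κ (D.xF s.2)) ≤ 2 * (2 * (a : ℤ) + 3) ^ 5 := by
    intro s
    obtain ⟨ψ, hx, ht⟩ : ∃ ψ : FHom κ (D.F {s.1}) (D.F J),
        ψ.f (D.xF (Finset.mem_singleton_self s.1)) = D.xF s.2 ∧ ψ.f (D.tF {s.1}) = D.tF J :=
      ⟨incl (D.mono (Finset.singleton_subset_iff.2 s.2)), rfl, rfl⟩
    have e1 : dinf κ (D.xF s.2) = ψ.pull (dinf κ (D.xF (Finset.mem_singleton_self s.1))) := by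
      rw [ψ.pull_dinf, hx]
    have e2 := (rk_map ψ (D.nc_tF {s.1})).2
    have e3 : rk κ (ψ.f (D.tF {s.1})) = (2 * a + 3) ^ J.card := by rw [ht, D.rk_eq]
    rw [e3, (D.wc s.1).rk_t] at e2
    have e4 : (2 * a + 3) ^ J.card ≤ (2 * a + 3) ^ 5 := Nat.pow_le_pow_right (by omega) h5
    have e5 : (μ s : ℕ) * ψ.deg ≤ (2 * a + 3) ^ 5 := by
      refine le_trans ?_ (e2 ▸ e4)
      rw [mul_comm]
      exact Nat.mul_le_mul_left _ (μ s).2.le
    rw [deg_nsmul, e1, ψ.deg_pull, deg_dinf_rk (D.wc s.1).x_notMem, (D.wc s.1).rk_x]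
    have e6 : (((μ s : ℕ) * ψ.deg : ℕ) : ℤ) ≤ (((2 * a + 3) ^ 5 : ℕ) : ℤ) := Int.ofNat_le.2 e5
    push_cast at e6 ⊢
    linarith
  rw [deg_sum] at h2
  refine h2.trans ((Finset.sum_le_sum fun s _ => h3 s).trans ?_)
  rw [Finset.sum_const, Finset.card_univ, Fintype.card_coe, nsmul_eq_mul]
  have h6 : (J.card : ℤ) ≤ 5 := by exact_mod_cast h5
  have h7 : (0 : ℤ) ≤ (2 * (a : ℤ) + 3) ^ 5 := by positivity
  nlinarith

/-- the tower -/
noncomputable def tw {B : ℕ} (h : D.NM B) : Tw κ L (2 * a + 3) B where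
  F := D.F
  t := D.t
  mem := D.t_mem
  nc := D.nc
  ff := D.ff
  mono := D.mono
  sup := D.sup
  rk_eq := D.rk_eq
  g1 := fun s => (D.wc s).genus_eq
  unr := D.unr
  nomap := h

end TD

end Pool.Agent.E6b

end

section
open scoped NNReal TensorProduct IntermediateField BigOperators Classical Topology
open Filter

namespace Pool.Agent.E6b

theorem X3b_pow {R A : Type} [CommRing R] [CommRing A] [Algebra R A] (a : ℕ) (z : A) (α β γ : R)
    (h : z ^ (2 * a) * (z ^ 3 + algebraMap R A α * z ^ 2 + algebraMap R A β) = algebraMap R A γ)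
    (k : ℕ) : z ^ k ∈ Submodule.span R (Set.range fun j : Fin (2 * a + 3) => z ^ (j : ℕ)) := by
  induction k using Nat.strong_induction_on with
  | _ k ih =>
    by_cases hk : k < 2 * a + 3
    · exact Submodule.subset_span ⟨⟨k, hk⟩, rfl⟩
    · obtain ⟨m, rfl⟩ : ∃ m, k = m + (2 * a + 3) := ⟨k - (2 * a + 3), by omega⟩
      have e : z ^ (m + (2 * a + 3)) =
          γ • z ^ m - α • z ^ (m + (2 * a + 2)) - β • z ^ (m + 2 * a) := by
        simp only [Algebra.smul_def]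
        rw [← h]
        ring
      rw [e]
      exact sub_mem (sub_mem (Submodule.smul_mem _ _ (ih _ (by omega)))
        (Submodule.smul_mem _ _ (ih _ (by omega)))) (Submodule.smul_mem _ _ (ih _ (by omega)))

theorem X3b_span {R A ι : Type} [CommRing R] [CommRing A] [Algebra R A] [Fintype ι] (n : ℕ)
    (z : ι → A)
    (h : ∀ s k, z s ^ k ∈ Submodule.span R (Set.range fun j : Fin n => z s ^ (j : ℕ)))
    (P : MvPolynomial ι R) : MvPolynomial.aeval z P ∈
      Submodule.span R (Set.range fun μ : ι → Fin n => ∏ s, z s ^ (μ s : ℕ)) := by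
  induction P using MvPolynomial.induction_on' with
  | monomial u c =>
    rw [MvPolynomial.aeval_monomial, ← Algebra.smul_def, Finsupp.prod_fintype _ _ (by simp)]
    refine Submodule.smul_mem _ _ ?_
    choose w hw using fun s => (Submodule.mem_span_range_iff_exists_fun R).1 (h s (u s))
    simp only [← hw]
    rw [Fintype.prod_sum]
    refine Submodule.sum_mem _ fun μ _ => ?_
    rw [Finset.prod_smul]
    exact Submodule.smul_mem _ _ (Submodule.subset_span ⟨μ, rfl⟩)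
  | add p q hp hq =>
    rw [map_add]
    exact add_mem hp hq

theorem X3b_ext {R E E' ι : Type} [Field R] [CommRing E] [CommRing E'] [Algebra R E] [Fintype ι]
    (a : ℕ) (x : ι → E) (α β γ : ι → R)
    (hx : ∀ s, x s ^ (2 * a) * (x s ^ 3 + algebraMap R E (α s) * x s ^ 2 + algebraMap R E (β s)) =
      algebraMap R E (γ s))
    (hli : LinearIndependent R fun μ : ι → Fin (2 * a + 3) => ∏ s, x s ^ (μ s : ℕ))
    (hc : Module.finrank R E = (2 * a + 3) ^ Fintype.card ι) (φ : R →+* E') (y : ι → E')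
    (hy : ∀ s, y s ^ (2 * a) * (y s ^ 3 + φ (α s) * y s ^ 2 + φ (β s)) = φ (γ s)) :
    ∃ ψ : E →+* E', (∀ r, ψ (algebraMap R E r) = φ r) ∧ ∀ s, ψ (x s) = y s := by
  letI : Algebra R E' := φ.toAlgebra
  have hsp := hli.span_eq_top_of_card_eq_finrank (by rw [hc]; simp)
  have hsurj : Function.Surjective
      ((MvPolynomial.aeval x : MvPolynomial ι R →ₐ[R] E) : MvPolynomial ι R →+* E) := by
    intro e
    have he : e ∈ Submodule.span R
      (Set.range fun μ : ι → Fin (2 * a + 3) => ∏ s, x s ^ (μ s : ℕ)) := hsp ▸ Submodule.mem_top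
    obtain ⟨w, rfl⟩ := (Submodule.mem_span_range_iff_exists_fun R).1 he
    refine ⟨∑ μ, w μ • ∏ s, MvPolynomial.X s ^ (μ s : ℕ), ?_⟩
    simp
  have hker : RingHom.ker
      ((MvPolynomial.aeval x : MvPolynomial ι R →ₐ[R] E) : MvPolynomial ι R →+* E) ≤ RingHom.ker
      ((MvPolynomial.aeval y : MvPolynomial ι R →ₐ[R] E') : MvPolynomial ι R →+* E') := by
    intro P hP
    rw [RingHom.mem_ker] at hP ⊢
    have hz := X3b_span (R := R) (2 * a + 3) (fun s => ((x s, y s) : E × E'))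
      (fun s k => X3b_pow a _ (α s) (β s) (γ s) (Prod.ext (hx s) (hy s)) k) P
    obtain ⟨w, hw⟩ := (Submodule.mem_span_range_iff_exists_fun R).1 hz
    have h1 := congrArg (AlgHom.fst R E E') hw
    have h2 := congrArg (AlgHom.snd R E E') hw
    rw [MvPolynomial.comp_aeval_apply] at h1 h2
    simp only [map_sum, map_smul, map_prod, map_pow, AlgHom.fst_apply, AlgHom.snd_apply] at h1 h2
    have h0 : ∀ μ, w μ = 0 := Fintype.linearIndependent_iff.1 hli w (h1.trans hP)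
    change MvPolynomial.aeval y P = 0
    rw [← h2]
    simp [h0]
  refine ⟨RingHom.liftOfSurjective _ hsurj ⟨_, hker⟩, fun r => ?_, fun s => ?_⟩
  · have := RingHom.liftOfSurjective_comp_apply _ hsurj ⟨_, hker⟩ (MvPolynomial.C r)
    simpa [RingHom.algebraMap_toAlgebra] using this
  · have := RingHom.liftOfSurjective_comp_apply _ hsurj ⟨_, hker⟩ (MvPolynomial.X s)
    simpa using this

theorem X3b_base {κ E : Type} [Field κ] [Field E] [Algebra κ E] {t : E} (ht : Transcendental κ t)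
    (σ : κ →+* κ) : ∃ φ : κ⟮t⟯ →+* E,
      (∀ c, φ (algebraMap κ κ⟮t⟯ c) = algebraMap κ E (σ c)) ∧
        φ (IntermediateField.AdjoinSimple.gen κ t) = t := by
  let f : Polynomial κ →+* E :=
    ((Polynomial.aeval t : Polynomial κ →ₐ[κ] E) : Polynomial κ →+* E).comp
      (Polynomial.mapRingHom σ)
  have hf : Function.Injective f :=
    (transcendental_iff_injective.1 ht).comp (Polynomial.map_injective σ σ.injective)
  refine ⟨(RatFunc.liftRingHom f
    (nonZeroDivisors_le_comap_nonZeroDivisors_of_injective _ hf)).comp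
      ((RatFunc.algEquivOfTranscendental t ht).symm : κ⟮t⟯ →+* RatFunc κ), fun c => ?_, ?_⟩
  · rw [RingHom.comp_apply]
    change RatFunc.liftRingHom f _ ((RatFunc.algEquivOfTranscendental t ht).symm _) = _
    rw [AlgEquiv.commutes, RatFunc.algebraMap_eq_C, RatFunc.liftRingHom_C]
    simp [f]
  · rw [RingHom.comp_apply]
    change RatFunc.liftRingHom f _ ((RatFunc.algEquivOfTranscendental t ht).symm _) = _
    rw [RatFunc.algEquivOfTranscendental_symm_gen, RatFunc.liftRingHom_X]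
    simp [f]

theorem X3b_alg : Algebra.IsAlgebraic ℚ Qb := by
  convert AlgebraicClosure.isAlgebraic ℚ
  · rfl
  · exact Subsingleton.elim _ _
variable {L : Type} [Field L] [Algebra Qb L] {a : ℕ} (D : TD Qb L a)

theorem X3b_ind (J : Finset (Fin 5)) {p : D.F J → Prop} (h0 : ∀ c, p (algebraMap Qb (D.F J) c))
    (ht : p (D.tF J)) (hx : ∀ s (h : s ∈ J), p (D.xF h)) (hadd : ∀ u v, p u → p v → p (u + v))
    (hinv : ∀ u, p u → p u⁻¹) (hmul : ∀ u v, p u → p v → p (u * v)) (z : D.F J) : p z := by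
  obtain ⟨z, hz⟩ := z
  induction hz using IntermediateField.adjoin_induction with
  | mem u hu =>
    rcases hu with rfl | ⟨s, hs, rfl⟩
    · exact ht
    · exact hx s hs
  | algebraMap c => exact h0 c
  | add u v hu hv h1 h2 => exact hadd ⟨u, hu⟩ ⟨v, hv⟩ h1 h2
  | inv u hu h1 => exact hinv ⟨u, hu⟩ h1
  | mul u v hu hv h1 h2 => exact hmul ⟨u, hu⟩ ⟨v, hv⟩ h1 h2

theorem X3b_rel {J : Finset (Fin 5)} {s : Fin 5} (h : s ∈ J) :
    D.xF h ^ (2 * a) * (D.xF h ^ 3 + algebraMap Qb (D.F J) (D.W s).A * D.xF h ^ 2 +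
      algebraMap Qb (D.F J) (D.W s).B) =
      ((D.tF J - algebraMap Qb (D.F J) (D.W s).τ)⁻¹ - algebraMap Qb (D.F J) (D.W s).c) ^ 2 := by
  apply Subtype.ext
  exact D.rel s

theorem X3b_ex (π : Fin 5 → Fin 5) (σ : Qb →+* Qb)
    (hW : ∀ s, σ (D.W s).A = (D.W (π s)).A ∧ σ (D.W s).B = (D.W (π s)).B ∧
      σ (D.W s).c = (D.W (π s)).c ∧ σ (D.W s).τ = (D.W (π s)).τ) :
    ∃ ψ : D.F Finset.univ →+* D.F Finset.univ,
      (∀ c, ψ (algebraMap Qb _ c) = algebraMap Qb _ (σ c)) ∧ ψ (D.tF _) = D.tF _ ∧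
        ∀ s, ψ (D.xF (Finset.mem_univ s)) = D.xF (Finset.mem_univ (π s)) := by
  obtain ⟨φ, h1, h2⟩ := X3b_base (F0_transcendental (D.nc_tF Finset.univ)) σ
  obtain ⟨ψ, h3, h4⟩ := X3b_ext (R := Qb⟮D.tF Finset.univ⟯) (E := D.F Finset.univ)
    (ι := (Finset.univ : Finset (Fin 5))) a (fun s => D.xF s.2)
    (fun s => algebraMap Qb _ (D.W s).A) (fun s => algebraMap Qb _ (D.W s).B)
    (fun s => ((IntermediateField.AdjoinSimple.gen Qb (D.tF Finset.univ) -
      algebraMap Qb _ (D.W s).τ)⁻¹ - algebraMap Qb _ (D.W s).c) ^ 2)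
    (fun s => by
      simp only [map_pow, map_sub, map_inv₀, IntermediateField.AdjoinSimple.algebraMap_gen,
        ← IsScalarTower.algebraMap_apply]
      exact X3b_rel D s.2)
    (D.indep_mon Finset.univ) (by rw [Fintype.card_coe]; exact D.rk_eq Finset.univ) φ
    (fun s => D.xF (Finset.mem_univ (π s)))
    (fun s => by
      simp only [map_pow, map_sub, map_inv₀, h1, h2, (hW s).1, (hW s).2.1, (hW s).2.2.1,
        (hW s).2.2.2]
      exact X3b_rel D (Finset.mem_univ (π s)))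
  refine ⟨ψ, fun c => ?_, ?_, fun s => h4 ⟨s, Finset.mem_univ s⟩⟩
  · rw [IsScalarTower.algebraMap_apply Qb Qb⟮D.tF Finset.univ⟯, h3, h1]
  · exact (h3 (IntermediateField.AdjoinSimple.gen Qb (D.tF Finset.univ))).trans h2

theorem X3b_uniq {E : Type} [Field E] {J : Finset (Fin 5)} {f g : D.F J →+* E}
    (h0 : ∀ c, f (algebraMap Qb _ c) = g (algebraMap Qb _ c)) (ht : f (D.tF J) = g (D.tF J))
    (hx : ∀ s (h : s ∈ J), f (D.xF h) = g (D.xF h)) : f = g :=
  RingHom.ext fun z => X3b_ind D J (p := fun z => f z = g z) h0 ht hx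
    (fun u v h1 h2 => by rw [map_add, map_add, h1, h2])
    (fun u h1 => by rw [map_inv₀, map_inv₀, h1])
    (fun u v h1 h2 => by rw [map_mul, map_mul, h1, h2]) z

theorem X3b_res {κ L : Type} [Field κ] [Field L] [Algebra κ L] {K K' U : IntermediateField κ L}
    (h : K ≤ U) (h' : K' ≤ U) (ψ : U →+* U)
    (hg : ∀ z : K, (ψ (IntermediateField.inclusion h z) : L) ∈ K') :
    ∃ f : K →+* K', ∀ z, IntermediateField.inclusion h' (f z) =
      ψ (IntermediateField.inclusion h z) :=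
  ⟨(((U.val : U →+* L).comp ψ).comp (IntermediateField.inclusion h : K →+* U)).codRestrict K' hg,
    fun _ => Subtype.ext rfl⟩

theorem X3b_inc_x {J J' : Finset (Fin 5)} (h : D.F J ≤ D.F J') {s : Fin 5} (h1 : s ∈ J)
    (h2 : s ∈ J') : IntermediateField.inclusion h (D.xF h1) = D.xF h2 :=
  Subtype.ext (IntermediateField.coe_inclusion h _)

theorem X3b_eqv (σ : Qb ≃+* Qb) (ψ : D.F Finset.univ →+* D.F Finset.univ)
    (h0 : ∀ c, ψ (algebraMap Qb _ c) = algebraMap Qb _ (σ c)) (ht : ψ (D.tF _) = D.tF _)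
    {s s' : Fin 5} (hx : ψ (D.xF (Finset.mem_univ s)) = D.xF (Finset.mem_univ s')) :
    ∃ χ : FHom Qb (D.F {s}) (D.F {s'}), Function.Surjective χ.f ∧
      ∀ z, ψ (IntermediateField.inclusion (D.mono (Finset.subset_univ {s})) z) =
        IntermediateField.inclusion (D.mono (Finset.subset_univ {s'})) (χ.f z) := by
  have i1 := D.mono (Finset.subset_univ {s})
  have i2 := D.mono (Finset.subset_univ {s'})
  have hg : ∀ z : D.F {s}, (ψ (IntermediateField.inclusion i1 z) : L) ∈ D.F {s'} := by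
    refine X3b_ind D {s} (fun c => ?_) ?_ (fun r hr => ?_) (fun u v h1 h2 => ?_) (fun u h1 => ?_)
      (fun u v h1 h2 => ?_)
    · rw [AlgHom.commutes, h0]
      exact IntermediateField.algebraMap_mem _ _
    · rw [X3b_inc_t, ht]
      exact D.t_mem _
    · obtain rfl := Finset.mem_singleton.1 hr
      rw [X3b_inc_x D i1 hr (Finset.mem_univ _), hx]
      exact D.x_mem (Finset.mem_singleton_self s')
    · rw [map_add, map_add, IntermediateField.coe_add]
      exact add_mem h1 h2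
    · rw [map_inv₀, map_inv₀, IntermediateField.coe_inv]
      exact inv_mem h1
    · rw [map_mul, map_mul, IntermediateField.coe_mul]
      exact mul_mem h1 h2
  obtain ⟨f, hf⟩ := X3b_res i1 i2 ψ hg
  have inj := IntermediateField.inclusion_injective i2
  have f0 : ∀ c, f (algebraMap Qb _ c) = algebraMap Qb _ (σ c) := fun c =>
    inj (by rw [hf, AlgHom.commutes, AlgHom.commutes, h0])
  have ft : f (D.tF _) = D.tF _ := inj (by rw [hf, X3b_inc_t, X3b_inc_t, ht])
  have fx : f (D.xF (Finset.mem_singleton_self s)) = D.xF (Finset.mem_singleton_self s') :=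
    inj (by rw [hf, X3b_inc_x D i1 _ (Finset.mem_univ _), X3b_inc_x D i2 _ (Finset.mem_univ _), hx])
  refine ⟨⟨f, σ, f0⟩, ?_, fun z => (hf z).symm⟩
  refine X3b_ind D {s'} (p := fun w => ∃ z, f z = w) (fun c => ?_) ⟨_, ft⟩
    (fun r hr => ?_) ?_ ?_ ?_
  · exact ⟨algebraMap Qb _ (σ.symm c), by rw [f0, RingEquiv.apply_symm_apply]⟩
  · obtain rfl := Finset.mem_singleton.1 hr
    exact ⟨_, fx⟩
  · rintro _ _ ⟨u, rfl⟩ ⟨v, rfl⟩
    exact ⟨u + v, map_add _ _ _⟩
  · rintro _ ⟨u, rfl⟩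
    exact ⟨u⁻¹, map_inv₀ _ _⟩
  · rintro _ _ ⟨u, rfl⟩ ⟨v, rfl⟩
    exact ⟨u * v, map_mul _ _ _⟩

theorem X3b_act (perm : (Qb ≃ₐ[ℚ] Qb) →* Equiv.Perm (Fin 5))
    (hW : ∀ σ s, σ (D.W s).A = (D.W (perm σ s)).A ∧ σ (D.W s).B = (D.W (perm σ s)).B ∧
      σ (D.W s).c = (D.W (perm σ s)).c ∧ σ (D.W s).τ = (D.W (perm σ s)).τ) :
    ∃ A : (Qb ≃ₐ[ℚ] Qb) →* (D.F Finset.univ ≃+* D.F Finset.univ),
      (∀ σ c, A σ (algebraMap Qb _ c) = algebraMap Qb _ (σ c)) ∧ (∀ σ, A σ (D.tF _) = D.tF _) ∧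
        ∀ σ s, A σ (D.xF (Finset.mem_univ s)) = D.xF (Finset.mem_univ (perm σ s)) := by
  choose ψ h0 ht hx using fun σ : Qb ≃ₐ[ℚ] Qb => X3b_ex D (perm σ) (σ : Qb →+* Qb) (hW σ)
  have hm : ∀ σ τ, ψ (σ * τ) = (ψ σ).comp (ψ τ) := fun σ τ =>
    X3b_uniq D (fun c => by rw [RingHom.comp_apply, h0, h0, h0]; rfl)
      (by rw [RingHom.comp_apply, ht, ht, ht])
      (fun s _ => by rw [RingHom.comp_apply, hx, hx, hx, map_mul]; rfl)
  have h1 : ψ 1 = RingHom.id _ :=
    X3b_uniq D (fun c => by rw [h0]; rfl) (by rw [ht]; rfl)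
      (fun s _ => by rw [hx, map_one]; rfl)
  refine ⟨MonoidHom.mk' (fun σ => RingEquiv.ofRingHom (ψ σ) (ψ σ⁻¹)
    (by rw [← hm, mul_inv_cancel, h1]) (by rw [← hm, inv_mul_cancel, h1])) fun σ τ => ?_,
    h0, ht, hx⟩
  exact RingEquiv.ext fun z => RingHom.congr_fun (hm σ τ) z

/-- the Galois action on the top field -/
theorem TD.exists_twG {B : ℕ} (h : D.NM B) (perm : (Qb ≃ₐ[ℚ] Qb) →* Equiv.Perm (Fin 5))
    (hW : ∀ σ s, σ (D.W s).A = (D.W (perm σ s)).A ∧ σ (D.W s).B = (D.W (perm σ s)).B ∧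
      σ (D.W s).c = (D.W (perm σ s)).c ∧ σ (D.W s).τ = (D.W (perm σ s)).τ)
    (hopen : ∃ K : IntermediateField ℚ Qb, FiniteDimensional ℚ K ∧
      ∀ σ : Qb ≃ₐ[ℚ] Qb, (∀ z ∈ K, σ z = z) → perm σ = 1) :
    ∃ G : TwG (D.tw h), G.perm = perm ∧ ∀ σ s,
      G.A.act σ (D.xF (Finset.mem_univ s)) = D.xF (Finset.mem_univ (perm σ s)) := by
  obtain ⟨A, h0, ht, hx⟩ := X3b_act D perm hW
  have hopn : ∀ f : D.F Finset.univ, ∃ K : IntermediateField ℚ Qb, FiniteDimensional ℚ K ∧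
      ∀ σ : Qb ≃ₐ[ℚ] Qb, (∀ x ∈ K, σ x = x) → A σ f = f := by
    refine X3b_ind D Finset.univ (fun c => ?_) ?_ (fun s _ => ?_) ?_ ?_ ?_
    · refine ⟨ℚ⟮c⟯, IntermediateField.adjoin.finiteDimensional
        (X3b_alg.isAlgebraic c).isIntegral, fun σ hσ => ?_⟩
      rw [h0, hσ c (IntermediateField.mem_adjoin_simple_self ℚ c)]
    · exact ⟨⊥, inferInstance, fun σ _ => ht σ⟩
    · obtain ⟨K, hK, h1⟩ := hopen
      refine ⟨K, hK, fun σ hσ => ?_⟩
      rw [hx, h1 σ hσ]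
      rfl
    · rintro u v ⟨K, hK, h1⟩ ⟨K', hK', h2⟩
      refine ⟨K ⊔ K', inferInstance, fun σ hσ => ?_⟩
      rw [map_add, h1 σ fun x hx => hσ x (le_sup_left (a := K) (b := K') hx),
        h2 σ fun x hx => hσ x (le_sup_right (a := K) (b := K') hx)]
    · rintro u ⟨K, hK, h1⟩
      exact ⟨K, hK, fun σ hσ => by rw [map_inv₀, h1 σ hσ]⟩
    · rintro u v ⟨K, hK, h1⟩ ⟨K', hK', h2⟩
      refine ⟨K ⊔ K', inferInstance, fun σ hσ => ?_⟩
      rw [map_mul, h1 σ fun x hx => hσ x (le_sup_left (a := K) (b := K') hx),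
        h2 σ fun x hx => hσ x (le_sup_right (a := K) (b := K') hx)]
  exact ⟨⟨⟨A, h0, hopn⟩, perm, ht, fun σ s =>
    X3b_eqv D σ.toRingEquiv (A σ : D.F Finset.univ →+* D.F Finset.univ) (h0 σ) (ht σ) (hx σ s)⟩,
    rfl, hx⟩

end Pool.Agent.E6b

end

section
open scoped NNReal TensorProduct IntermediateField BigOperators Classical Topology
open Filter

namespace Pool.Agent.E6b
variable {a : ℕ} (Λ : AR a)

theorem AR.X6_pv (u : Fin 5 → ℤ) (σ : Qb ≃ₐ[ℚ] Qb) (s : Fin 5) :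
    σ (Λ.pv u s) = Λ.pv u (Λ.perm σ s) := by
  simp only [AR.pv, map_sum, map_mul, map_pow, map_intCast, Λ.act]

theorem AR.act_W (m c : Fin 5 → ℤ) (σ : Qb ≃ₐ[ℚ] Qb) (s : Fin 5) :
    σ (Λ.W m c s).A = (Λ.W m c (Λ.perm σ s)).A ∧ σ (Λ.W m c s).B = (Λ.W m c (Λ.perm σ s)).B ∧
      σ (Λ.W m c s).c = (Λ.W m c (Λ.perm σ s)).c ∧ σ (Λ.W m c s).τ = (Λ.W m c (Λ.perm σ s)).τ := by
  simp only [AR.W, map_mul, map_pow, map_add, map_ofNat, map_natCast, map_intCast, Λ.X6_pv,
    Λ.act, and_self]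

theorem X6_val {p : ℕ} (hp : p ≠ 0) {v : AbsoluteValue Qb ℝ} (hv : IsPl p v)
    {σ : Qb ≃ₐ[ℚ] Qb} (hσ : H1c.Inr v σ) (z : Qb) : v (σ z) = v z := by
  have hna := hv.nonarch hp
  refine H1c_eq hv (hv.comp σ) hp (fun b hb => ?_) z
  have h1 := hσ b (hv.le_one_of_isIntegral hp hb)
  change v (σ b) < 1 ↔ _
  constructor
  · intro h
    have h2 := hna (σ b) (-(σ b - b))
    rw [map_neg_eq_map, ← sub_eq_add_neg, sub_sub_cancel] at h2
    exact h2.trans_lt (max_lt h h1)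
  · intro h
    have h2 := hna (σ b - b) b
    rw [sub_add_cancel] at h2
    exact h2.trans_lt (max_lt h1 h)

/-- inertia moves an element whose valuation has a large denominator -/
theorem exists_inertia_orbit {p : ℕ} (hp : p ≠ 0) {v : AbsoluteValue Qb ℝ} (hv : IsPl p v) {x : Qb}
    {n : ℕ} (hn : Odd n) (hx : v x ^ n = (p : ℝ) ^ 2) :
    ∃ σ : Fin n → (Qb ≃ₐ[ℚ] Qb), (∀ i z, v z ≤ 1 → v (σ i z - z) < 1) ∧
      Function.Injective fun i => σ i x := by
  obtain ⟨hpr, hna, hvp, hlt⟩ := H1c_spec hv hp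
  have := H1a_isAlgebraic
  have hfin : {y | ∃ σ : Qb ≃ₐ[ℚ] Qb, H1c.Inr v σ ∧ σ x = y}.Finite := by
    refine ((minpoly ℚ x).rootSet_finite Qb).subset ?_
    rintro _ ⟨σ, -, rfl⟩
    rw [Polynomial.mem_rootSet, Polynomial.aeval_algHom_apply, minpoly.aeval, map_zero]
    exact ⟨minpoly.ne_zero (Algebra.IsAlgebraic.isAlgebraic x).isIntegral, rfl⟩
  have hS : ∀ y, y ∈ hfin.toFinset ↔ ∃ σ : Qb ≃ₐ[ℚ] Qb, H1c.Inr v σ ∧ σ x = y := fun y =>
    hfin.mem_toFinset
  generalize hfin.toFinset = S at hS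
  have h1 : ∀ τ : Qb ≃ₐ[ℚ] Qb, H1c.Inr v τ → S.image τ = S := fun τ hτ => by
    refine Finset.eq_of_subset_of_card_le (Finset.image_subset_iff.2 fun y hy => ?_)
      (Finset.card_image_of_injective S τ.injective).ge
    obtain ⟨σ, hσ, rfl⟩ := (hS y).1 hy
    refine (hS _).2 ⟨τ * σ, fun z hz => ?_, rfl⟩
    have h2 := hna (τ (σ z) - σ z) (σ z - z)
    rw [sub_add_sub_cancel] at h2
    exact h2.trans_lt (max_lt (hτ _ ((X6_val hp hv hσ z).trans_le hz)) (hσ z hz))
  obtain ⟨q, hq, h2⟩ := H1c.ram_a ⊥ hna hpr hlt (y := ∏ y ∈ S, y) fun τ _ hτ => by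
    conv_rhs => rw [← h1 τ hτ]
    rw [map_prod, Finset.prod_image fun a _ b _ h => τ.injective h]
  obtain ⟨r, rfl⟩ := IntermediateField.mem_bot.1 hq
  have h3 : v (∏ y ∈ S, y) = v x ^ S.card := by
    rw [map_prod, ← Finset.prod_const]
    refine Finset.prod_congr rfl fun y hy => ?_
    obtain ⟨σ, hσ, rfl⟩ := (hS y).1 hy
    exact X6_val hp hv hσ x
  have hp1 : (1 : ℝ) < p := by exact_mod_cast hpr.one_lt
  have h4 : v (algebraMap ℚ Qb r) ^ n = (p : ℝ) ^ (2 * S.card) := by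
    rw [h2, h3, ← pow_mul, mul_comm, pow_mul, hx, ← pow_mul]
  have hr : r ≠ 0 := by
    rintro rfl
    rw [map_zero, map_zero, zero_pow hn.pos.ne'] at h4
    exact (pow_pos (zero_lt_one.trans hp1) _).ne h4
  rw [eq_ratCast, hv.eq_padicNorm hp, padicNorm.eq_zpow_of_nonzero hr] at h4
  push_cast at h4
  rw [← zpow_natCast, ← zpow_mul, ← zpow_natCast] at h4
  have h5 := zpow_right_injective₀ (zero_lt_one.trans hp1) hp1.ne' h4
  have h6 : n ∣ 2 * S.card := Int.natCast_dvd_natCast.1 (Dvd.intro_left _ h5)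
  have h7 : n ≤ S.card := Nat.le_of_dvd
    (Finset.card_pos.2 ⟨x, (hS x).2 ⟨1, fun z _ => by simp, rfl⟩⟩)
    ((Nat.coprime_two_right.2 hn).dvd_of_dvd_mul_left h6)
  choose σ s1 s2 using fun i : Fin n => (hS _).1 (S.equivFin.symm (Fin.castLE h7 i)).2
  refine ⟨σ, s1, fun i j h => ?_⟩
  simp only [s2] at h
  exact Fin.castLE_injective h7 (S.equivFin.symm.injective (Subtype.ext h))

/-- doubling of points -/
noncomputable def X6_dbl (A : Qb) (z : Qb × Qb) : Qb × Qb :=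
  (((3 * z.1 ^ 2 + 2 * A * z.1) / (2 * z.2)) ^ 2 - A - 2 * z.1,
    -(z.2 + (3 * z.1 ^ 2 + 2 * A * z.1) / (2 * z.2) *
      (((3 * z.1 ^ 2 + 2 * A * z.1) / (2 * z.2)) ^ 2 - A - 3 * z.1)))

theorem X6_step {v : AbsoluteValue Qb ℝ} (hv : IsNonarchimedean v) {A B : Qb} (hA : v A ≤ 1)
    (hB : v B ≤ 1) {z : Qb × Qb} (h : z.2 ^ 2 = z.1 ^ 3 + A * z.1 ^ 2 + B) (h1 : 1 < v z.1) :
    (X6_dbl A z).2 ^ 2 = (X6_dbl A z).1 ^ 3 + A * (X6_dbl A z).1 ^ 2 + B ∧
      v (X6_dbl A z).1 * v 4 = v z.1 := by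
  obtain ⟨x, y⟩ := z
  simp only [X6_dbl] at h h1 ⊢
  have h0 : 0 < v x := zero_lt_one.trans h1
  have h2 : v (y ^ 2) = v x ^ 3 := by
    rw [h, add_assoc, hv.add_eq_left_of_lt, map_pow]
    refine (hv _ _).trans_lt (max_lt ?_ ?_)
    · rw [map_mul, map_pow, map_pow]
      exact (mul_le_of_le_one_left (by positivity) hA).trans_lt (pow_lt_pow_right₀ h1 (by omega))
    · rw [map_pow]
      exact hB.trans_lt (one_lt_pow₀ h1 (by omega))
  have hy : y ≠ 0 := by
    rintro rfl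
    rw [zero_pow two_ne_zero, map_zero] at h2
    exact (pow_pos h0 3).ne h2
  obtain ⟨l, hl⟩ : ∃ l, l = (3 * x ^ 2 + 2 * A * x) / (2 * y) := ⟨_, rfl⟩
  rw [← hl]
  have h3 : l * (2 * y) = 3 * x ^ 2 + 2 * A * x := by
    rw [hl, div_mul_cancel₀ _ (mul_ne_zero two_ne_zero hy)]
  refine ⟨by linear_combination h + (l ^ 2 - A - 3 * x) * h3, ?_⟩
  have h4 : (l ^ 2 - A - 2 * x) * 4 * y ^ 2 = x ^ 4 + -(4 * B * (2 * x + A)) := by
    linear_combination (l * (2 * y) + (3 * x ^ 2 + 2 * A * x)) * h3 - 4 * (A + 2 * x) * h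
  have h5 : v (x ^ 4 + -(4 * B * (2 * x + A))) = v x ^ 4 := by
    rw [hv.add_eq_left_of_lt, map_pow]
    have k4 : v 4 ≤ 1 := hv.apply_natCast_le_one (n := 4)
    have k2 : v 2 ≤ 1 := hv.apply_natCast_le_one (n := 2)
    have k : v (2 * x + A) ≤ v x := (hv _ _).trans (max_le (by
      rw [map_mul]
      exact mul_le_of_le_one_left h0.le k2) (hA.trans h1.le))
    rw [map_neg_eq_map, map_mul, map_mul, map_pow]
    refine (mul_le_of_le_one_left (v.nonneg _) (mul_le_one₀ k4 (v.nonneg _) hB)).trans_lt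
      (k.trans_lt ?_)
    exact lt_self_pow₀ h1 (by omega)
  rw [← h4, map_mul, map_mul, h2, pow_succ' (v x) 3] at h5
  exact mul_right_cancel₀ (pow_pos h0 3).ne' h5

/-- infinitely many points in the kernel of reduction, compatible with conjugation -/
theorem AR.exists_points (m : Fin 5 → ℤ) (c : Fin 5 → ℤ) : ∃ x y : ℕ → Fin 5 → Qb,
    (∀ j s, y j s ^ 2 = (Λ.W m c s).f (x j s)) ∧
    (∀ j s (σ : Qb ≃ₐ[ℚ] Qb), σ (x j s) = x j (Λ.perm σ s) ∧ σ (y j s) = y j (Λ.perm σ s)) ∧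
    (∀ s, Function.Injective fun j => x j s) ∧
    ∀ j s v, IsPl Λ.p v → v (x j s) = (Λ.p : ℝ) ^ 2 := by
  have hp := Λ.prime
  have hp3 : 3 < Λ.p := by
    have := Λ.big
    omega
  have hp0 : (Λ.p : Qb) ≠ 0 := Nat.cast_ne_zero.2 hp.ne_zero
  have hμ : ∀ s, IsIntegral ℤ (Λ.pv m s) := fun s =>
    IsIntegral.sum _ fun i _ => (isIntegral_algebraMap (x := m i)).mul ((Λ.int s).pow _)
  have hA : ∀ s, IsIntegral ℤ (Λ.W m c s).A := fun s =>
    ((isIntegral_algebraMap (x := (4 : ℤ))).mul (isIntegral_algebraMap (x := (Λ.p : ℤ)))).mul (hμ s)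
  have hB : ∀ s, IsIntegral ℤ (Λ.W m c s).B := fun s => (hμ s).pow 2
  let z : ℕ → Fin 5 → Qb × Qb := fun j s =>
    (X6_dbl (Λ.W m c s).A)^[j] ((2 * Λ.p : Qb)⁻¹ ^ 2, (2 * Λ.p : Qb)⁻¹ ^ 3 + Λ.pv m s)
  have hz : ∀ j s, z (j + 1) s = X6_dbl (Λ.W m c s).A (z j s) := fun j s =>
    Function.iterate_succ_apply' _ _ _
  have h0 : ∀ s, (z 0 s).2 ^ 2 = (z 0 s).1 ^ 3 + (Λ.W m c s).A * (z 0 s).1 ^ 2 + (Λ.W m c s).B :=
    fun s => by
      simp only [z, Function.iterate_zero, id, AR.W]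
      field_simp
      ring
  have key : ∀ q v, IsPl q v → q ≠ 0 → ∀ s, 1 < v (z 0 s).1 → ∀ j,
      (z j s).2 ^ 2 = (z j s).1 ^ 3 + (Λ.W m c s).A * (z j s).1 ^ 2 + (Λ.W m c s).B ∧
        1 < v (z j s).1 ∧ v (z j s).1 * v 4 ^ j = v (z 0 s).1 := by
    intro q v hv hq s h1 j
    induction j with
    | zero => exact ⟨h0 s, h1, by rw [pow_zero, mul_one]⟩
    | succ j ih =>
      obtain ⟨k1, k2⟩ := X6_step (hv.nonarch hq) (hv.le_one_of_isIntegral hq (hA s))
        (hv.le_one_of_isIntegral hq (hB s)) ih.1 ih.2.1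
      rw [hz]
      refine ⟨k1, ?_, by rw [pow_succ', ← mul_assoc, k2, ih.2.2]⟩
      have h4 : v 4 ≤ 1 := (hv.nonarch hq).apply_natCast_le_one (n := 4)
      have h5 := ih.2.1
      rw [← k2] at h5
      exact h5.trans_le (mul_le_of_le_one_right (v.nonneg _) h4)
  obtain ⟨w, hw⟩ := exists_isPl (Or.inr Nat.prime_two)
  have w2 : w 2 = 2⁻¹ := by simpa using (H1a_prime hw two_ne_zero).2
  have w4 : w 4 = 4⁻¹ := by
    rw [show (4 : Qb) = 2 * 2 by norm_num, map_mul, w2]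
    norm_num
  have wp : w Λ.p = 1 := by
    have := H1a_coprime hw two_ne_zero (m := Λ.p) (by
      rw [Int.natCast_dvd_natCast, Nat.prime_dvd_prime_iff_eq Nat.prime_two hp]
      omega)
    simpa using this
  have w0 : ∀ s, w (z 0 s).1 = 4 := fun s => by
    simp only [z, Function.iterate_zero, id, map_pow, map_inv₀, map_mul, w2, wp]
    norm_num
  have kw := fun s => key 2 w hw two_ne_zero s (by rw [w0]; norm_num)
  refine ⟨fun j s => (z j s).1, fun j s => (z j s).2, fun j s => (kw s j).1, fun j s σ => ?_,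
    fun s i j h => ?_, fun j s v hv => ?_⟩
  · induction j with
    | zero =>
      simp only [z, Function.iterate_zero, id, map_pow, map_inv₀, map_mul, map_add, map_ofNat,
        map_natCast, Λ.X6_pv, and_self]
    | succ j ih =>
      simp only [hz, X6_dbl, map_pow, map_div₀, map_mul, map_add, map_sub, map_neg, map_ofNat,
        ih.1, ih.2, (Λ.act_W m c σ s).1, and_self]
  · have h1 := (kw s i).2.2
    have h2 := (kw s j).2.2
    have h3 := (kw s j).2.1
    simp only at h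
    rw [h, ← h2, w4] at h1
    exact pow_right_injective₀ (by norm_num) (by norm_num)
      (mul_left_cancel₀ (zero_lt_one.trans h3).ne' h1)
  · have v2 : v 2 = 1 := by
      have := H1a_coprime hv hp.ne_zero (m := 2) fun h => by
        have := Int.le_of_dvd two_pos h
        omega
      simpa using this
    have v4 : v 4 = 1 := by rw [show (4 : Qb) = 2 * 2 by norm_num, map_mul, v2, mul_one]
    have v0 : v (z 0 s).1 = (Λ.p : ℝ) ^ 2 := by
      simp only [z, Function.iterate_zero, id, map_pow, map_inv₀, map_mul, v2,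
        (H1a_prime hv hp.ne_zero).2, one_mul, inv_inv]
    have h1 := (key _ v hv hp.ne_zero s (by
      rw [v0]
      exact one_lt_pow₀ (by exact_mod_cast hp.one_lt) two_ne_zero) j).2.2
    rwa [v4, one_pow, mul_one, v0] at h1

end Pool.Agent.E6b

end

section
open scoped NNReal TensorProduct IntermediateField BigOperators Classical Topology
open Filter

namespace Pool.Agent.E6b

section
variable {κ E : Type} [Field κ] [IsAlgClosed κ] [CharZero κ] [Field E] [Algebra κ E] [IsFF κ E]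
  {W : WP κ} {a : ℕ} {t x : E}

theorem X7_mem (h : WC W a t x) {P : Place κ E} {t₀ : κ} (h1 : tv t P = some t₀)
    (h2 : t₀ ≠ W.τ) : x ∈ P.O := by
  obtain ⟨o, ho, hP⟩ := h.exists_inf
  refine (hP P ?_).1
  rintro rfl
  have h3 : tv t P = some W.τ := (tv_eq_iff h.nc).2 (by
    show 0 < P.ord (t - algebraMap κ E W.τ)
    rw [ho]
    positivity)
  exact h2 (Option.some.inj (h1.symm.trans h3))

theorem X7_ev (h : WC W a t x) {P : Place κ E} {t₀ : κ} (h1 : tv t P = some t₀)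
    (h2 : t₀ ≠ W.τ) : P.ev x ^ a * P.ev (W.y a t x) = (t₀ - W.τ)⁻¹ - W.c ∧
      W.Rel a t₀ (P.ev x) := by
  obtain ⟨-, h3, h4⟩ := h.ev_rel (X7_mem h h1 h2)
  rw [h1] at h4
  split_ifs at h4 with h5
  have h6 : P.ev x ^ a * P.ev (W.y a t x) = (t₀ - W.τ)⁻¹ - W.c := by
    rw [Option.some.inj h4, add_sub_cancel_left, inv_inv, add_sub_cancel_right]
  refine ⟨h6, ?_⟩
  show P.ev x ^ (2 * a) * W.f (P.ev x) = ((t₀ - W.τ)⁻¹ - W.c) ^ 2
  rw [← h6, ← h3]
  ring

theorem X7_ext (h : WC W a t x) {P Q : Place κ E} {t₀ : κ} (hP : tv t P = some t₀)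
    (hQ : tv t Q = some t₀) (h2 : t₀ ≠ W.τ) (hx : P.ev x = Q.ev x) (h0 : P.ev x ≠ 0) : P = Q := by
  refine h.place_ext (X7_mem h hP h2) (X7_mem h hQ h2) hx ?_
  have h3 := (X7_ev h hP h2).1
  have h4 := (X7_ev h hQ h2).1
  rw [← hx, ← h3] at h4
  exact (mul_left_cancel₀ (pow_ne_zero a h0) h4).symm

theorem X7_ex (h : WC W a t x) {x₀ y₀ : κ} (h0 : y₀ ^ 2 = W.f x₀) (h1 : x₀ ^ a * y₀ + W.c ≠ 0) :
    ∃ P : Place κ E, tv t P = some (W.τ + (x₀ ^ a * y₀ + W.c)⁻¹) ∧ P.ev x = x₀ := by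
  obtain ⟨P, h2, -, h3, h4⟩ := h.exists_place h0
  refine ⟨P, ?_, h3⟩
  rw [(h.ev_rel h2).2.2, h3, h4, if_neg h1]

end

section
variable {v : AbsoluteValue Qb ℝ}

theorem X7_add (hv : IsNonarchimedean v) {x y : Qb} (h : v y < v x) : v (x + y) = v x :=
  IsNonarchimedean.add_eq_left_of_lt hv h

theorem X7_sub (hv : IsNonarchimedean v) {x y : Qb} (h : v y < v x) : v (x - y) = v x := by
  rw [sub_eq_add_neg]
  exact X7_add hv (by rwa [v.map_neg])

theorem X7_f (hv : IsNonarchimedean v) {W : WP Qb} (hA : v W.A ≤ 1) (hB : v W.B ≤ 1) {x : Qb}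
    (hx : 1 < v x) : v (W.f x) = v x ^ 3 := by
  have h1 : v (W.A * x ^ 2) < v (x ^ 3) := by
    rw [map_mul, map_pow, map_pow]
    calc v W.A * v x ^ 2 ≤ 1 * v x ^ 2 := by gcongr
      _ < v x * v x ^ 2 := by gcongr
      _ = v x ^ 3 := by ring
  have h2 := X7_add hv h1
  have h3 : v W.B < v (x ^ 3 + W.A * x ^ 2) := by
    rw [h2, map_pow]
    exact hB.trans_lt (one_lt_pow₀ hx (by norm_num))
  show v (x ^ 3 + W.A * x ^ 2 + W.B) = _
  rw [X7_add hv h3, h2, map_pow]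

theorem X7_f_le (hv : IsNonarchimedean v) {W : WP Qb} (hA : v W.A ≤ 1) (hB : v W.B ≤ 1) {x : Qb}
    (hx : v x ≤ 1) : v (W.f x) ≤ 1 := by
  have h0 := v.nonneg x
  show v (x ^ 3 + W.A * x ^ 2 + W.B) ≤ _
  refine (hv _ _).trans (max_le ((hv _ _).trans (max_le ?_ ?_)) hB)
  · rw [map_pow]
    exact pow_le_one₀ h0 hx
  · rw [map_mul, map_pow]
    exact mul_le_one₀ hA (by positivity) (pow_le_one₀ h0 hx)

end
variable {a : ℕ} (Λ : AR a)

theorem AR.X7_pv {v : AbsoluteValue Qb ℝ} (hv : IsPl Λ.p v) (u : Fin 5 → ℤ) (s : Fin 5) :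
    v (Λ.pv u s) ≤ 1 := by
  refine hv.le_one_of_isIntegral Λ.prime.ne_zero (IsIntegral.sum _ fun i _ => ?_)
  exact (isIntegral_algebraMap (R := ℤ) (A := Qb) (x := u i)).mul ((Λ.int s).pow _)

theorem AR.X7_par {v : AbsoluteValue Qb ℝ} (hv : IsPl Λ.p v) (m c : Fin 5 → ℤ) (s : Fin 5) :
    v (Λ.W m c s).A ≤ 1 ∧ v (Λ.W m c s).B ≤ 1 ∧ v (Λ.W m c s).c ≤ 1 := by
  have h1 := Λ.X7_pv hv m s
  have h0 := v.nonneg (Λ.pv m s)
  refine ⟨?_, ?_, Λ.X7_pv hv c s⟩
  · show v (4 * (Λ.p : Qb) * Λ.pv m s) ≤ 1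
    have h2 := H1a_int_le_one hv Λ.prime.ne_zero (4 * Λ.p)
    push_cast at h2
    rw [map_mul]
    exact mul_le_one₀ h2 h0 h1
  · show v (Λ.pv m s ^ 2) ≤ 1
    rw [map_pow]
    exact pow_le_one₀ h0 h1

theorem AR.X7_one_lt : (1 : ℝ) < Λ.p := by exact_mod_cast Λ.prime.one_lt

/-- the valuation of the fibre coordinate near the ramified point -/
theorem AR.X7_val {v : AbsoluteValue Qb ℝ} (hv : IsPl Λ.p v) {m c : Fin 5 → ℤ} {s : Fin 5}
    {t₀ x₀ : Qb} (ht : v (t₀ - (Λ.W m c s).τ) = (Λ.p : ℝ)⁻¹) (hx : (Λ.W m c s).Rel a t₀ x₀) :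
    v x₀ ^ (2 * a + 3) = (Λ.p : ℝ) ^ 2 := by
  have hn := hv.nonarch Λ.prime.ne_zero
  obtain ⟨hA, hB, hc⟩ := Λ.X7_par hv m c s
  have hp := Λ.X7_one_lt
  have h1 : v (t₀ - (Λ.W m c s).τ)⁻¹ = Λ.p := by rw [map_inv₀, ht, inv_inv]
  have h2 : v ((t₀ - (Λ.W m c s).τ)⁻¹ - (Λ.W m c s).c) = Λ.p := by
    rw [X7_sub hn (by rw [h1]; exact hc.trans_lt hp), h1]
  have h3 : v x₀ ^ (2 * a) * v ((Λ.W m c s).f x₀) = (Λ.p : ℝ) ^ 2 := by
    have h4 : x₀ ^ (2 * a) * (Λ.W m c s).f x₀ =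
      ((t₀ - (Λ.W m c s).τ)⁻¹ - (Λ.W m c s).c) ^ 2 := hx
    rw [← map_pow, ← map_mul, h4, map_pow, h2]
  by_cases h5 : 1 < v x₀
  · rw [X7_f hn hA hB h5] at h3
    rw [← h3, pow_add]
  · have h6 := X7_f_le hn hA hB (not_lt.1 h5)
    have h7 : v x₀ ^ (2 * a) * v ((Λ.W m c s).f x₀) ≤ 1 :=
      mul_le_one₀ (pow_le_one₀ (v.nonneg _) (not_lt.1 h5)) (v.nonneg _) h6
    have h8 : (1 : ℝ) < (Λ.p : ℝ) ^ 2 := one_lt_pow₀ hp (by norm_num)
    linarith

/-- inertia acts trivially on the five covers -/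
theorem AR.X7_perm {v : AbsoluteValue Qb ℝ} (hv : IsPl Λ.p v) {σ : Qb ≃ₐ[ℚ] Qb}
    (hσ : ∀ z, v z ≤ 1 → v (σ z - z) < 1) (s : Fin 5) : Λ.perm σ s = s := by
  by_contra h
  have h1 := hσ _ (hv.le_one_of_isIntegral Λ.prime.ne_zero (Λ.int s))
  rw [Λ.act, Λ.sep v hv _ _ h] at h1
  exact lt_irrefl _ h1

theorem AR.X7_small : ((Λ.p : ℝ) ^ (2 * a + 3))⁻¹ < (Λ.p : ℝ)⁻¹ := by
  have hp := Λ.X7_one_lt
  refine inv_strictAnti₀ (by linarith) ?_
  calc (Λ.p : ℝ) = (Λ.p : ℝ) ^ 1 := (pow_one _).symm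
    _ < _ := pow_lt_pow_right₀ hp (by omega)

/-- the points and their images on the line -/
theorem AR.X7_points (m c : Fin 5 → ℤ) : ∃ x t : ℕ → Fin 5 → Qb,
    (∀ j s, ∃ y, y ^ 2 = (Λ.W m c s).f (x j s) ∧ x j s ^ a * y + (Λ.W m c s).c ≠ 0 ∧
      t j s = (Λ.W m c s).τ + (x j s ^ a * y + (Λ.W m c s).c)⁻¹) ∧
    (∀ j s (σ : Qb ≃ₐ[ℚ] Qb), σ (x j s) = x j (Λ.perm σ s) ∧ σ (t j s) = t j (Λ.perm σ s)) ∧
    (∀ s, Function.Injective fun j => x j s) ∧ (∀ j s, x j s ≠ 0) ∧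
    ∀ j s v, IsPl Λ.p v → v (t j s - (Λ.W m c s).τ) = ((Λ.p : ℝ) ^ (2 * a + 3))⁻¹ := by
  obtain ⟨x, y, h1, h2, h3, h4⟩ := Λ.exists_points m c
  have hp := Λ.X7_one_lt
  have key : ∀ j s v, IsPl Λ.p v →
      v (x j s ^ a * y j s + (Λ.W m c s).c) = (Λ.p : ℝ) ^ (2 * a + 3) := by
    intro j s v hv
    have hn := hv.nonarch Λ.prime.ne_zero
    obtain ⟨hA, hB, hc⟩ := Λ.X7_par hv m c s
    have h5 := h4 j s v hv
    have h6 : v (y j s) ^ 2 = ((Λ.p : ℝ) ^ 3) ^ 2 := by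
      rw [← map_pow, h1, X7_f hn hA hB (by rw [h5]; exact one_lt_pow₀ hp (by norm_num)), h5]
      ring
    have h7 : v (y j s) = (Λ.p : ℝ) ^ 3 :=
      (pow_left_inj₀ (v.nonneg _) (by positivity) (by norm_num)).1 h6
    have h8 : v (x j s ^ a * y j s) = (Λ.p : ℝ) ^ (2 * a + 3) := by
      rw [map_mul, map_pow, h5, h7]
      ring
    rw [X7_add hn (by rw [h8]; exact hc.trans_lt (one_lt_pow₀ hp (by omega))), h8]
  obtain ⟨v₀, hv₀⟩ := exists_isPl (Or.inr Λ.prime)
  refine ⟨x, fun j s => (Λ.W m c s).τ + (x j s ^ a * y j s + (Λ.W m c s).c)⁻¹,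
    fun j s => ⟨y j s, h1 j s, fun e => ?_, rfl⟩, fun j s σ => ⟨(h2 j s σ).1, ?_⟩, h3,
    fun j s e => ?_, fun j s v hv => ?_⟩
  · have h5 := key j s v₀ hv₀
    rw [e, map_zero] at h5
    exact absurd h5 (by positivity)
  · obtain ⟨-, -, e1, e2⟩ := Λ.act_W m c σ s
    simp only [map_add, map_inv₀, map_mul, map_pow, (h2 j s σ).1, (h2 j s σ).2, e1, e2]
  · have h5 := h4 j s v₀ hv₀
    rw [e, map_zero] at h5
    exact absurd h5 (by positivity)
  · rw [add_sub_cancel_left, map_inv₀, key j s v hv]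

/-- distance to the other branch points -/
theorem AR.X7_ram (m c : Fin 5 → ℤ) {s s' : Fin 5} (h : s ≠ s') {t₀ : Qb}
    (ht : ∀ v, IsPl Λ.p v → v (t₀ - (Λ.W m c s).τ) = ((Λ.p : ℝ) ^ (2 * a + 3))⁻¹) :
    ∃ v, IsPl Λ.p v ∧ v (t₀ - (Λ.W m c s').τ) = (Λ.p : ℝ)⁻¹ ∧
      ∀ j, j ≠ s → j ≠ s' → v ((Λ.W m c s).τ - (Λ.W m c j).τ) = 1 := by
  obtain ⟨v, hv, h1, h2⟩ := Λ.ram s s' h
  refine ⟨v, hv, ?_, fun j hj hj' => h2 s j hj.symm (fun e => hj' e.2) fun e => h e.1⟩
  have h3 : v ((Λ.W m c s).τ - (Λ.W m c s').τ) = (Λ.p : ℝ)⁻¹ := h1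
  have e : t₀ - (Λ.W m c s').τ =
      ((Λ.W m c s).τ - (Λ.W m c s').τ) + (t₀ - (Λ.W m c s).τ) := by ring
  rw [e, X7_add (hv.nonarch Λ.prime.ne_zero) (by rw [h3, ht v hv]; exact Λ.X7_small), h3]

theorem AR.X7_ne (m c : Fin 5 → ℤ) {s : Fin 5} {t₀ : Qb}
    (ht : ∀ v, IsPl Λ.p v → v (t₀ - (Λ.W m c s).τ) = ((Λ.p : ℝ) ^ (2 * a + 3))⁻¹) (s' : Fin 5) :
    t₀ ≠ (Λ.W m c s').τ := by
  intro e
  have hp := Λ.X7_one_lt
  by_cases h : s = s'
  · obtain ⟨v₀, hv₀⟩ := exists_isPl (Or.inr Λ.prime)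
    have h1 := ht v₀ hv₀
    rw [h, e, sub_self, map_zero] at h1
    exact absurd h1 (by positivity)
  · obtain ⟨v, -, h1, -⟩ := Λ.X7_ram m c h ht
    rw [e, sub_self, map_zero] at h1
    exact absurd h1 (by positivity)

end Pool.Agent.E6b

end

section
open scoped NNReal TensorProduct IntermediateField BigOperators Classical Topology
open Filter

namespace Pool.Agent.E6b

section
variable {κ L : Type} [Field κ] [IsAlgClosed κ] [CharZero κ] [Field L] [Algebra κ L] {n₀ B : ℕ}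
  (T : Tw κ L n₀ B)

/-- the coordinates of a place of the top field -/
noncomputable def Tw.X7_xi (x : ∀ s, T.F {s}) (s : Fin 5) (R : Place κ T.FU) : κ :=
  (T.pr s R).ev (x s)

theorem Tw.X7_xi_eq (x : ∀ s, T.F {s}) (s : Fin 5) (R : Place κ T.FU) :
    R.ev ((T.pi (Finset.subset_univ {s})).f (x s)) = T.X7_xi x s R :=
  (T.pi (Finset.subset_univ {s})).ev_map R (x s)

theorem Tw.X7_tv {s : Fin 5} {R R' : Place κ T.FU} (h : T.pr s R = T.pr s R') :
    tv (T.tJ Finset.univ) R = tv (T.tJ Finset.univ) R' := by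
  rw [← T.K8a_tv_pr s, ← T.K8a_tv_pr s, h]

theorem Tw.X7_ur {R R' : Place κ T.FU} (h : T.Ur R)
    (e : tv (T.tJ Finset.univ) R = tv (T.tJ Finset.univ) R') : T.Ur R' := fun s => e ▸ h s

theorem Tw.X7_card (s : Fin 5) {R : Place κ T.FU} (h : T.Ur R) :
    ((T.pi (Finset.subset_univ {s})).fib (T.pr s R)).card = n₀ ^ 4 := by
  have h1 := (T.pi (Finset.subset_univ {s})).sum_e (T.pr s R)
  rw [T.deg_pi, Finset.sum_congr rfl (g := fun _ => 1)] at h1
  · simpa using h1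
  · intro R' hR'
    have h2 : T.pr s R' = T.pr s R := (FHom.mem_fib _).1 hR'
    have h3 := T.unr_J Finset.univ (fun s _ => h s) R'
      ((tv_eq_iff (T.nc_tJ _)).1 (T.X7_tv h2))
    have h4 := (T.pi (Finset.subset_univ {s})).ord_map R'
      (lc (T.tJ {s}) (tv (T.tJ Finset.univ) R))
    have h5 : (T.pi (Finset.subset_univ {s})).f (lc (T.tJ {s}) (tv (T.tJ Finset.univ) R)) =
        lc (T.tJ Finset.univ) (tv (T.tJ Finset.univ) R) :=
      map_lc (IntermediateField.inclusion (T.mono (Finset.subset_univ {s}))) _ _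
    rw [h5, h3] at h4
    exact_mod_cast Int.eq_one_of_mul_eq_one_right (Int.natCast_nonneg _) h4.symm

end

theorem X7_orb {F : Type} [Field F] [Algebra Qb F] [IsFF Qb F] (A : GAct F) (σ : Qb ≃ₐ[ℚ] Qb)
    (R : Place Qb F) : A.sm σ R ∈ A.orb ⊥ R := by
  refine ⟨σ, fun x hx => ?_, rfl⟩
  obtain ⟨q, rfl⟩ := IntermediateField.mem_bot.1 hx
  exact σ.commutes q
variable {a : ℕ} (Λ : AR a)

section
variable {L : Type} [Field L] [Algebra Qb L] {B : ℕ} {T : Tw Qb L (2 * a + 3) B} {G : TwG T}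
  {m c : Fin 5 → ℤ} {x : ∀ s, T.F {s}} {x₀ t₀ : Fin 5 → Qb}
  (hw : ∀ s, WC (Λ.W m c s) a (T.tJ {s}) (x s))
  (hg : ∀ σ s R, T.X7_xi x (Λ.perm σ s) (G.A.sm σ R) = σ (T.X7_xi x s R))
  (hq : ∀ s (σ : Qb ≃ₐ[ℚ] Qb), σ (x₀ s) = x₀ (Λ.perm σ s) ∧ σ (t₀ s) = t₀ (Λ.perm σ s))
  (h0 : ∀ s, x₀ s ≠ 0)
  (hv : ∀ s v, IsPl Λ.p v → v (t₀ s - (Λ.W m c s).τ) = ((Λ.p : ℝ) ^ (2 * a + 3))⁻¹)

include hw hv in
theorem AR.X7_rel {s : Fin 5} {R : Place Qb T.FU} (h : tv (T.tJ Finset.univ) R = some (t₀ s))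
    (r : Fin 5) : (Λ.W m c r).Rel a (t₀ s) (T.X7_xi x r R) :=
  (X7_ev (hw r) ((T.K8a_tv_pr r R).trans h) (Λ.X7_ne m c (hv s) r)).2

include hw hv in
theorem AR.X7_pr {s : Fin 5} {R R' : Place Qb T.FU} (h : tv (T.tJ Finset.univ) R = some (t₀ s))
    (h' : tv (T.tJ Finset.univ) R' = some (t₀ s)) {r : Fin 5}
    (e : T.X7_xi x r R = T.X7_xi x r R') (e0 : T.X7_xi x r R ≠ 0) : T.pr r R = T.pr r R' :=
  X7_ext (hw r) ((T.K8a_tv_pr r R).trans h) ((T.K8a_tv_pr r R').trans h')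
    (Λ.X7_ne m c (hv s) r) e e0

include hw hg hq h0 hv in
/-- lines through a point of the fibre lie in its orbit -/
theorem AR.X7_line (hA : Λ.Adm m c) {s s' : Fin 5} (hs : s ≠ s') {R R' : Place Qb T.FU}
    (h1 : tv (T.tJ Finset.univ) R = some (t₀ s)) (h2 : T.X7_xi x s R = x₀ s) (hu : T.Ur R)
    (hl : T.Ln s' R R') : R' ∈ G.A.orb ⊥ R := by
  obtain ⟨v, hv1, hv2, hv3⟩ := Λ.X7_ram m c hs (hv s)
  obtain ⟨σ, hσ, hinj⟩ := exists_inertia_orbit Λ.prime.ne_zero hv1 (n := 2 * a + 3)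
    ⟨a + 1, by ring⟩ (Λ.X7_val hv1 hv2 (Λ.X7_rel hw hv h1 s'))
  have hp := fun i => Λ.X7_perm hv1 (hσ i)
  have e1 : ∀ i, tv (T.tJ Finset.univ) (G.A.sm (σ i) R) = some (t₀ s) := fun i => by
    rw [G.tv_sm, h1, Option.map_some, (hq s (σ i)).2, hp]
  have e2 : ∀ i r, T.X7_xi x r (G.A.sm (σ i) R) = σ i (T.X7_xi x r R) := fun i r => by
    rw [← hg, hp]
  have e3 : ∀ i, T.Ln s' R (G.A.sm (σ i) R) := fun i => by
    refine T.ln_iff.2 fun r hr => ?_
    by_cases e : r = s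
    · subst e
      refine Λ.X7_pr hw hv h1 (e1 i) ?_ (by rw [h2]; exact h0 r)
      rw [e2, h2, (hq r (σ i)).1, hp]
    · have h3 := Λ.fixed_of_inertia hA (hw s).ha hv1 (hv3 r e hr) (t₀ := t₀ s)
        (by
          rw [hv s v hv1]
          exact Λ.X7_small.trans (inv_lt_one_of_one_lt₀ Λ.X7_one_lt))
        (Λ.X7_rel hw hv h1 r) (σ i) (hσ i) (by rw [← e2]; exact Λ.X7_rel hw hv (e1 i) r)
      exact Λ.X7_pr hw hv h1 (e1 i) (by rw [e2, h3.1]) h3.2
  obtain ⟨S, hS1, hS2⟩ := T.exists_line s' hu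
  have e4 : Finset.univ.image (fun i => G.A.sm (σ i) R) = S := by
    refine Finset.eq_of_subset_of_card_le
      (Finset.image_subset_iff.2 fun i _ => (hS2 _).2 (e3 i)) ?_
    rw [hS1, Finset.card_image_of_injective, Finset.card_univ, Fintype.card_fin]
    intro i i' e
    apply hinj
    show σ i _ = σ i' _
    rw [← e2, ← e2]
    exact congrArg _ e
  have e5 := (hS2 _).2 hl
  rw [← e4] at e5
  obtain ⟨i, -, rfl⟩ := Finset.mem_image.1 e5
  exact X7_orb _ _ _

include hw hg hq h0 hv in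
/-- the whole fibre lies in the orbit -/
theorem AR.X7_fib (hA : Λ.Adm m c) (s : Fin 5) {R' : Place Qb T.FU}
    (h1' : tv (T.tJ Finset.univ) R' = some (t₀ s)) (h2' : T.X7_xi x s R' = x₀ s)
    (J : Finset (Fin 5)) : ∀ R : Place Qb T.FU, tv (T.tJ Finset.univ) R = some (t₀ s) →
      T.X7_xi x s R = x₀ s → T.Ur R → (∀ r, r ∉ J → T.pr r R = T.pr r R') →
      R' ∈ G.A.orb ⊥ R := by
  induction J using Finset.induction_on with
  | empty =>
    intro R _ _ _ h
    rw [T.pr_ext fun r => h r (Finset.notMem_empty r)]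
    exact G.A.mem_orb_self _ _
  | insert s' J _ ih =>
    intro R h1 h2 hu h
    by_cases e : s = s'
    · subst e
      refine ih R h1 h2 hu fun r hr => ?_
      by_cases e' : r = s
      · subst e'
        exact Λ.X7_pr hw hv h1 h1' (h2.trans h2'.symm) (by rw [h2]; exact h0 r)
      · exact h r fun hr' => hr ((Finset.mem_insert.1 hr').resolve_left e')
    · obtain ⟨R'', h3⟩ := T.exists_pr (Function.update (fun r => T.pr r R) s' (T.pr s' R'))
        (c := some (t₀ s)) fun r => by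
          by_cases e' : r = s'
          · subst e'
            rw [Function.update_self, T.K8a_tv_pr, h1']
          · rw [Function.update_of_ne e', T.K8a_tv_pr, h1]
      have h4 : ∀ r, r ≠ s' → T.pr r R = T.pr r R'' := fun r hr => by
        rw [h3, Function.update_of_ne hr]
      have h5 := T.X7_tv (h4 s e)
      rw [← G.A.orb_eq_of_mem (Λ.X7_line hw hg hq h0 hv hA e h1 h2 hu (T.ln_iff.2 h4))]
      refine ih R'' (h5.symm.trans h1) ?_ (T.X7_ur hu h5) fun r hr => ?_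
      · rw [← h2, Tw.X7_xi, Tw.X7_xi, h4 s e]
      · by_cases e' : r = s'
        · subst e'
          rw [h3, Function.update_self]
        · rw [← h4 r e']
          exact h r fun hr' => hr ((Finset.mem_insert.1 hr').resolve_left e')

include hw hg hq h0 hv in
theorem AR.X7_count (hA : Λ.Adm m c) {R : Place Qb T.FU}
    (h1 : tv (T.tJ Finset.univ) R = some (t₀ 0)) (h2 : T.X7_xi x 0 R = x₀ 0) (hu : T.Ur R) :
    (G.A.finite_orb ⊥ R).toFinset.card = 5 * (2 * a + 3) ^ 4 := by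
  have e0 : ∀ σ, tv (T.tJ Finset.univ) (G.A.sm σ R) = some (t₀ (Λ.perm σ 0)) ∧
      T.X7_xi x (Λ.perm σ 0) (G.A.sm σ R) = x₀ (Λ.perm σ 0) := fun σ =>
    ⟨by rw [G.tv_sm, h1, Option.map_some, (hq 0 σ).2], by rw [hg, h2, (hq 0 σ).1]⟩
  have e1 : ∀ s, ∃ σ, Λ.perm σ 0 = s := fun s => by
    obtain ⟨σ, hσ⟩ := Λ.surj (Equiv.swap 0 s)
    exact ⟨σ, by rw [hσ, Equiv.swap_apply_left]⟩
  choose σ hσ using e1
  have e2 : ∀ s, tv (T.tJ Finset.univ) (G.A.sm (σ s) R) = some (t₀ s) ∧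
      T.X7_xi x s (G.A.sm (σ s) R) = x₀ s := fun s => by
    have h3 := e0 (σ s)
    rwa [hσ] at h3
  have e3 : (G.A.finite_orb ⊥ R).toFinset = Finset.univ.biUnion fun s =>
      (T.pi (Finset.subset_univ {s})).fib (T.pr s (G.A.sm (σ s) R)) := by
    ext R'
    rw [Set.Finite.mem_toFinset, Finset.mem_biUnion]
    constructor
    · rintro ⟨ρ, -, rfl⟩
      refine ⟨Λ.perm ρ 0, Finset.mem_univ _, (FHom.mem_fib _).2 ?_⟩
      exact Λ.X7_pr hw hv (e0 ρ).1 (e2 _).1 ((e0 ρ).2.trans (e2 _).2.symm)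
        (by rw [(e0 ρ).2]; exact h0 _)
    · rintro ⟨s, -, h3⟩
      have h4 : T.pr s R' = T.pr s (G.A.sm (σ s) R) := (FHom.mem_fib _).1 h3
      rw [← G.A.orb_eq_of_mem (X7_orb G.A (σ s) R)]
      refine Λ.X7_fib hw hg hq h0 hv hA s ((T.X7_tv h4).trans (e2 s).1) ?_ Finset.univ _
        (e2 s).1 (e2 s).2 (G.ur_sm _ hu) fun r hr => absurd (Finset.mem_univ r) hr
      rw [← (e2 s).2, Tw.X7_xi, Tw.X7_xi, h4]
  rw [e3, Finset.card_biUnion, Finset.sum_congr rfl fun s _ => T.X7_card s (G.ur_sm _ hu)]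
  · simp
  · intro s _ s' _ hs
    refine Finset.disjoint_left.2 fun R' h3 h4 => ?_
    have h5 := (T.X7_tv ((FHom.mem_fib _).1 h3)).trans (e2 s).1
    have h6 := (T.X7_tv ((FHom.mem_fib _).1 h4)).trans (e2 s').1
    have h7 : t₀ s = t₀ s' := Option.some.inj (h5.symm.trans h6)
    obtain ⟨v, hv1, hv2, -⟩ := Λ.X7_ram m c hs (hv s)
    rw [h7, hv s' v hv1] at hv2
    exact Λ.X7_small.ne hv2

include hw hg in
theorem AR.X7_main (hA : Λ.Adm m c) :
    {R : Place Qb T.FU | (G.A.finite_orb ⊥ R).toFinset.card = 5 * (2 * a + 3) ^ 4}.Infinite := by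
  obtain ⟨x₀, t₀, h1, h2, h3, h4, h5⟩ := Λ.X7_points m c
  have e : ∀ j, ∃ R : Place Qb T.FU,
      tv (T.tJ Finset.univ) R = some (t₀ j 0) ∧ T.X7_xi x 0 R = x₀ j 0 := fun j => by
    obtain ⟨y, e1, e2, e3⟩ := h1 j 0
    obtain ⟨P, e4, e5⟩ := X7_ex (hw 0) e1 e2
    obtain ⟨R, rfl⟩ := (T.pi (Finset.subset_univ {0})).res_surj P
    exact ⟨R, by rw [← T.K8a_tv_pr 0, e3]; exact e4, e5⟩
  choose R hR1 hR2 using e
  have hinj : Function.Injective R := fun j j' e => h3 0 (by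
    show x₀ j 0 = x₀ j' 0
    rw [← hR2, ← hR2, e])
  refine ((Set.infinite_range_of_injective hinj).sdiff T.finite_not_ur).mono ?_
  rintro _ ⟨⟨j, rfl⟩, hu⟩
  exact Λ.X7_count hw hg (h2 j) (h4 j) (h5 j) hA (hR1 j) (hR2 j) (not_not.1 hu)

end

/-- infinitely many points of degree `5 n₀ ^ 4` over the rationals -/
theorem AR.infinite_orb {L : Type} [Field L] [Algebra Qb L] {m c : Fin 5 → ℤ} (h : Λ.Adm m c)
    (D : TD Qb L a) (hD : D.W = Λ.W m c) {B : ℕ} (hB : D.NM B) (G : TwG (D.tw hB))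
    (hG : G.perm = Λ.perm) (hx : ∀ σ s,
      G.A.act σ (D.xF (Finset.mem_univ s)) = D.xF (Finset.mem_univ (Λ.perm σ s))) :
    {R : Place Qb (D.tw hB).FU |
      (G.A.finite_orb ⊥ R).toFinset.card = 5 * (2 * a + 3) ^ 4}.Infinite := by
  have _ := hG
  refine Λ.X7_main (T := D.tw hB) (x := fun s => D.xF (Finset.mem_singleton_self s))
    (fun s => ?_) (fun σ s R => ?_) h
  · rw [← hD]
    exact D.wc s
  · rw [← Tw.X7_xi_eq, ← Tw.X7_xi_eq, ← G.A.ev_sm]
    exact congrArg _ (hx σ s).symm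

end Pool.Agent.E6b

end

section
open scoped NNReal TensorProduct IntermediateField BigOperators Classical Topology
open Filter

namespace Pool.Agent.E6b

section
variable {L : Type} [Field L] [Algebra Qb L] {n₀ B : ℕ} {T : Tw Qb L n₀ B} (G : TwG T)
  (K : IntermediateField ℚ Qb)

/-- the orbit as a finite set -/
noncomputable abbrev K9_D (R : Place Qb T.FU) : Finset (Place Qb T.FU) :=
  (G.A.finite_orb K R).toFinset

/-- the values of `t` on the two orbits are different -/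
def K9_far (R R' : Place Qb T.FU) : Prop :=
  ∀ Q ∈ K9_D G K R, ∀ Q' ∈ K9_D G K R', tv (T.tJ Finset.univ) Q ≠ tv (T.tJ Finset.univ) Q'

theorem K9_far.disj {R R' : Place Qb T.FU} (h : K9_far G K R R') :
    Disjoint (K9_D G K R) (K9_D G K R') :=
  Finset.disjoint_left.2 fun Q h1 h2 => h Q h1 Q h2 rfl

theorem K9_fin (R : Place Qb T.FU) : {R' | ¬ K9_far G K R R'}.Finite := by
  refine ((G.A.finite_orb K R).biUnion fun Q _ =>
    (finite_tv (T.nc_tJ Finset.univ) (tv (T.tJ Finset.univ) Q)).biUnion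
      fun Q' _ => G.A.finite_orb K Q').subset fun R' hR' => ?_
  simp only [K9_far, Set.mem_ofPred_eq, not_forall, not_not, Set.Finite.mem_toFinset] at hR'
  obtain ⟨Q, hQ, Q', hQ', h⟩ := hR'
  refine Set.mem_biUnion hQ (Set.mem_biUnion (x := Q') h.symm ?_)
  rw [G.A.orb_eq_of_mem hQ']
  exact G.A.mem_orb_self K R'

theorem K9_pos (R : Place Qb T.FU) : 0 < (K9_D G K R).card :=
  Finset.card_pos.2 ⟨R, (Set.Finite.mem_toFinset _).2 (G.A.mem_orb_self K R)⟩

theorem K9_seq {N : ℕ} (hN : N ≠ 0) (h : {R : Place Qb T.FU | (K9_D G K R).card ∣ N}.Infinite) :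
    ∃ (d : ℕ) (f : ℕ → Place Qb T.FU), d ∣ N ∧ (∀ n, (K9_D G K (f n)).card = d ∧ T.Ur (f n)) ∧
      ∀ m n, m ≠ n → K9_far G K (f m) (f n) := by
  obtain ⟨d, hd, hi⟩ : ∃ d, d ∣ N ∧ {R : Place Qb T.FU | (K9_D G K R).card = d}.Infinite := by
    by_contra hc
    push Not at hc
    refine h ((N.divisors.finite_toSet.biUnion fun d hd =>
      hc d (Nat.dvd_of_mem_divisors hd)).subset fun R hR => ?_)
    exact Set.mem_biUnion (Nat.mem_divisors.2 ⟨hR, hN⟩) rfl
  obtain ⟨f, h1, h2⟩ := exists_seq_of_forall_finset_exists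
    (fun R => (K9_D G K R).card = d ∧ T.Ur R) (K9_far G K) fun s _ => by
      obtain ⟨y, h3, h4⟩ := (hi.sdiff (T.finite_not_ur.union
        (s.finite_toSet.biUnion fun x _ => K9_fin G K x))).nonempty
      exact ⟨y, ⟨h3, by_contra fun e => h4 (Or.inl e)⟩,
        fun x hx => by_contra fun e => h4 (Or.inr (Set.mem_biUnion hx e))⟩
  refine ⟨d, f, hd, h1, fun m n hmn => ?_⟩
  rcases lt_or_gt_of_ne hmn with h | h
  · exact h2 m n h
  · exact fun Q hQ Q' hQ' e => h2 n m h Q' hQ' Q hQ e.symm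

end

end Pool.Agent.E6b

end
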