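import Pool.Agent.E6c.A16
import Pool.Agent.E6c.A17

section
open scoped NNReal TensorProduct IntermediateField BigOperators Classical Topology
open Filter

namespace Pool.Agent.E6b

section
variable {κ F : Type} [Field κ] [IsAlgClosed κ] [CharZero κ] [Field F] [Algebra κ F] [IsFF κ F]
  (o : Place κ F) (Ω : Type) [Field Ω] [IsAlgClosed Ω] [CharZero Ω] [Algebra κ Ω]
variable {o Ω}
variable (o Ω)
variable {o Ω}

/-- divisor of a family of points -/
noncomputable def dz {ι : Type} [Fintype ι] (z : ι → Pt o Ω) : DO o Ω := ∑ a, pd (plc (z a))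

/-- class of a family of points -/
noncomputable def clz {ι : Type} [Fintype ι] (z : ι → Pt o Ω) : Cl o Ω := clD o Ω (dz z)

end

end Pool.Agent.E6b

end

section
open scoped NNReal TensorProduct IntermediateField BigOperators Classical Topology
open Filter

namespace Pool.Agent.E6b
variable {κ F : Type} [Field κ] [IsAlgClosed κ] [CharZero κ] [Field F] [Algebra κ F] [IsFF κ F]
  {o : Place κ F} {Ω : Type} [Field Ω] [IsAlgClosed Ω] [CharZero Ω] [Algebra κ Ω]

theorem O1_li : LinearIndependent Ω fun i : ℕ => iF o Ω (eb o i) := by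
  simpa [Function.comp_def, algebraMap_ebO] using (ebO o Ω).linearIndependent.map'
    (IsScalarTower.toAlgHom Ω (AO o Ω) (FO o Ω)).toLinearMap
    (LinearMap.ker_eq_bot.2 (IsFractionRing.injective (AO o Ω) (FO o Ω)))

theorem mem_LL_oo {n : ℤ} {f : FO o Ω} : f ∈ LL (n • pd (oo o Ω)) ↔
    ∃ a : AO o Ω, algebraMap _ (FO o Ω) a = f ∧ ∀ i, (ebO o Ω).repr a i ≠ 0 → (pn o i : ℤ) ≤ n := by
  rw [mem_LL]
  constructor
  · rintro (rfl | h)
    · exact ⟨0, map_zero _, by simp⟩
    obtain ⟨a, rfl⟩ := (mem_range_iff (f := f)).2 fun P hP => P.mem_iff.2 (by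
      simpa [F1_pd_apply, Ne.symm hP] using h P)
    exact ⟨a, rfl, O1_le.1 (Or.inr (by simpa [F1_pd_apply] using h (oo o Ω)))⟩
  · rintro ⟨a, rfl, h⟩
    refine (O1_le.2 h).imp (fun h => by rw [h, map_zero]) fun h P => ?_
    by_cases hP : P = oo o Ω
    · simpa [F1_pd_apply, hP] using h
    · simpa [F1_pd_apply, Ne.symm hP] using P.mem_iff.1 (O1_mem (O1_key hP) a)

theorem O1_span {m : ℕ} (hm : genus κ F ≤ m) :
    LL (((m : ℤ) + genus κ F - 1) • pd (oo o Ω)) =
      Submodule.span Ω (Set.range fun i : Fin m => iF o Ω (eb o i)) := by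
  have h : ∀ i, (pn o i : ℤ) ≤ m + genus κ F - 1 ↔ i < m := fun i => by
    rw [← (ebSpec o).mono.lt_iff_lt, (ebSpec o).large m hm]
    omega
  refine le_antisymm (fun f hf => ?_) (Submodule.span_le.2 ?_)
  · obtain ⟨a, rfl, ha⟩ := mem_LL_oo.1 hf
    exact O1_sub fun i hi => (h i).1 (ha i hi)
  · rintro _ ⟨i, rfl⟩
    refine mem_LL_oo.2 ⟨_, algebraMap_ebO i, fun j hj => (h j).2 ?_⟩
    rw [Module.Basis.repr_self, Finsupp.single_apply_ne_zero] at hj
    exact hj.1 ▸ i.2

theorem genus_FO : genus Ω (FO o Ω) = genus κ F := by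
  obtain ⟨c, hc⟩ := exists_rr_large (κ := Ω) (F := FO o Ω)
  have h := hc ((((c.toNat + 1 + genus κ F : ℕ) : ℤ) + genus κ F - 1) • pd (oo o Ω))
    (by rw [deg_zsmul, deg_pd]; omega)
  have h' : LinearIndependent Ω fun i : Fin (c.toNat + 1 + genus κ F) => iF o Ω (eb o i) :=
    O1_li.comp _ Fin.val_injective
  rw [ell, O1_span (by omega), finrank_span_eq_card h', deg_zsmul, deg_pd, Fintype.card_fin] at h
  omega

/-- for `m ≥ g` the functions `eb 0, .., eb (m-1)` span `L((m + g - 1) oo)` -/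
theorem LL_oo_eq_span {m : ℕ} (hm : genus κ F ≤ m) :
    LL (((m : ℤ) + genus κ F - 1) • pd (oo o Ω)) =
      Submodule.span Ω (Set.range fun i : Fin m => iF o Ω (eb o i)) := O1_span hm

theorem linearIndependent_iF_eb : LinearIndependent Ω fun i : ℕ => iF o Ω (eb o i) := O1_li

end Pool.Agent.E6b

end

section
open scoped NNReal TensorProduct IntermediateField BigOperators Classical Topology
open Filter
set_option linter.unusedSectionVars false

namespace Pool.Agent.E6b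
variable {κ F : Type} [Field κ] [IsAlgClosed κ] [CharZero κ] [Field F] [Algebra κ F] [IsFF κ F]
  {o : Place κ F} {Ω Ω' Ω'' : Type} [Field Ω] [IsAlgClosed Ω] [CharZero Ω] [Algebra κ Ω]
  [Field Ω'] [IsAlgClosed Ω'] [CharZero Ω'] [Algebra κ Ω']
  [Field Ω''] [IsAlgClosed Ω''] [CharZero Ω''] [Algebra κ Ω'']

namespace BC
variable (β : BC o Ω Ω')

theorem deg_dv (D : DO o Ω) : deg (β.dv D) = deg D :=
  O2_deg_map β.plc D

end BC

end Pool.Agent.E6b

end

section
open scoped NNReal TensorProduct IntermediateField BigOperators Classical Topology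
open Filter

namespace Pool.Agent.E6b
variable {κ F : Type} [Field κ] [IsAlgClosed κ] [CharZero κ] [Field F] [Algebra κ F] [IsFF κ F]
  {o : Place κ F} {Ω : Type} [Field Ω] [IsAlgClosed Ω] [CharZero Ω] [Algebra κ Ω]
  {ι ι' : Type} [Fintype ι] [Fintype ι']

theorem clD_dv (f : FO o Ω) : clD o Ω (dv Ω f) = 0 := by
  by_cases hf : f = 0
  · have := dv_algebraMap (F := FO o Ω) (0 : Ω)
    rw [map_zero] at this
    rw [hf, this, map_zero]
  · rw [← map_zero (clD o Ω), eq_comm, clD_eq_iff]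
    exact ⟨0, f, hf, by simp⟩

theorem deg_dz (z : ι → Pt o Ω) : deg (dz z) = Fintype.card ι := by
  simp [dz, deg_sum, deg_pd]

theorem O3_pd_nonneg (P : PO o Ω) : 0 ≤ pd P := fun Q => by
  rw [F1_pd_apply]; split_ifs <;> simp

theorem dz_nonneg (z : ι → Pt o Ω) : 0 ≤ dz z := Finset.sum_nonneg fun _ _ => O3_pd_nonneg _

theorem dz_oo (z : ι → Pt o Ω) : dz z (oo o Ω) = 0 := by
  rw [dz, Finsupp.finsetSum_apply]
  exact Finset.sum_eq_zero fun a _ => by rw [F1_pd_apply, if_neg (plc_ne_oo _)]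

theorem dz_elim (z : ι → Pt o Ω) (z' : ι' → Pt o Ω) : dz (Sum.elim z z') = dz z + dz z' := by
  simp [dz, Fintype.sum_sum_type]

theorem dz_comp_equiv (z : ι → Pt o Ω) (e : ι' ≃ ι) : dz (z ∘ e) = dz z :=
  e.sum_comp fun a => pd (plc (z a))

theorem clz_elim (z : ι → Pt o Ω) (z' : ι' → Pt o Ω) : clz (Sum.elim z z') = clz z + clz z' := by
  rw [clz, dz_elim, map_add]; rfl

/-- an effective divisor away from infinity is the divisor of a family of points -/
theorem exists_dz {D : DO o Ω} (h : 0 ≤ D) (h0 : D (oo o Ω) = 0) (hd : deg D = Fintype.card ι) :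
    ∃ z : ι → Pt o Ω, dz z = D := by
  obtain ⟨P, hP⟩ := exists_eq_sum_pd h hd
  have hne : ∀ i, ∃ y, plc y = P i := fun i => by
    refine (eq_oo_or_plc (P i)).resolve_left fun hi => ?_
    have h1 : pd (P i) ≤ D := by
      rw [hP]
      exact Finset.single_le_sum (f := fun i => pd (P i)) (fun j _ => O3_pd_nonneg _)
        (Finset.mem_univ i)
    have h2 := h1 (oo o Ω)
    rw [h0, F1_pd_apply, if_pos hi] at h2
    omega
  choose y hy using hne
  refine ⟨y ∘ Fintype.equivFin ι, ?_⟩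
  rw [dz_comp_equiv, hP, dz]
  exact Finset.sum_congr rfl fun i _ => by rw [hy]

theorem exists_eff_rep (w : Cl o Ω) :
    ∃ D : DO o Ω, 0 ≤ D ∧ deg D = genus κ F ∧ clD o Ω D = w := by
  obtain ⟨D, rfl⟩ := clD_surj w
  have hd : deg (D + ((genus κ F : ℤ) - deg D) • pd (oo o Ω)) = genus κ F := by
    rw [deg_add, deg_zsmul, deg_pd]; ring
  obtain ⟨E, hE, hl⟩ := exists_eff (D := D + ((genus κ F : ℤ) - deg D) • pd (oo o Ω))
    (by rw [hd, genus_FO])
  exact ⟨E, hE, by rw [← hl.deg, hd], by rw [← hl.clD, O3_clD_add]⟩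

theorem O3_apply_plc (z : ι → Pt o Ω) (n : ℤ) (y : Pt o Ω) :
    (dz z - n • pd (oo o Ω)) (plc y) = dz z (plc y) := by
  rw [Finsupp.sub_apply, Finsupp.smul_apply, F1_pd_apply, if_neg (plc_ne_oo _).symm, smul_zero,
    sub_zero]

theorem subsingleton_Cl (hg : genus κ F = 0) : Subsingleton (Cl o Ω) := by
  refine subsingleton_of_forall_eq 0 fun w => ?_
  obtain ⟨D, h1, h2, rfl⟩ := exists_eff_rep w
  rw [← eq_of_le_of_deg_le h1 (by rw [h2, hg, deg_zero]; simp), map_zero]

end Pool.Agent.E6b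

end

section
open scoped NNReal TensorProduct IntermediateField BigOperators Classical Topology
open Filter

namespace Pool.Agent.E6b
variable {κ F : Type} [Field κ] [IsAlgClosed κ] [CharZero κ] [Field F] [Algebra κ F] [IsFF κ F]
  {o : Place κ F} {Ω : Type} [Field Ω] [IsAlgClosed Ω] [CharZero Ω] [Algebra κ Ω] (O : VS κ Ω)
  {ι ι' : Type} [Fintype ι] [Fintype ι']

theorem L5_span (ι : Type) [Fintype ι] (hι : genus κ F ≤ Fintype.card ι) (i : ι) :
    iF o Ω (eb o (Fintype.equivFin ι i)) ∈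
      LL (((Fintype.card ι : ℤ) + genus κ F - 1) • pd (oo o Ω)) := by
  rw [LL_oo_eq_span hι]
  exact Submodule.subset_span ⟨Fintype.equivFin ι i, rfl⟩

theorem L5_th (hι : genus κ F ≤ Fintype.card ι) {G : DO o Ω} (hG : 0 ≤ G)
    (hd : deg G = Fintype.card ι) :
    (∀ c : ι → Ω, ∑ i, c i • iF o Ω (eb o (Fintype.equivFin ι i)) ∈
      LL (((Fintype.card ι : ℤ) + genus κ F - 1) • pd (oo o Ω) - G) → c = 0) ↔
      Th (clD o Ω G) := by
  rw [th_clD, hd, ell_eq_zero_iff, Submodule.eq_bot_iff]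
  constructor
  · intro h f hf
    have h1 := LL_mono (sub_le_self (((Fintype.card ι : ℤ) + genus κ F - 1) • pd (oo o Ω)) hG) hf
    rw [LL_oo_eq_span hι, Submodule.mem_span_range_iff_exists_fun] at h1
    obtain ⟨c, rfl⟩ := h1
    rw [← (Fintype.equivFin ι).sum_comp] at hf ⊢
    have h2 := h (fun i => c (Fintype.equivFin ι i)) hf
    exact Finset.sum_eq_zero fun i _ => by rw [congrFun h2 i, Pi.zero_apply, zero_smul]
  · intro h c hc
    have h1 : LinearIndependent Ω fun i : ι => iF o Ω (eb o (Fintype.equivFin ι i)) :=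
      (linearIndependent_iF_eb (o := o) (Ω := Ω)).comp (fun i : ι => (Fintype.equivFin ι i : ℕ))
        (Fin.val_injective.comp (Fintype.equivFin ι).injective)
    exact funext (Fintype.linearIndependent_iff.1 h1 c (h _ hc))

end Pool.Agent.E6b

end

section
open scoped NNReal TensorProduct IntermediateField BigOperators Classical Topology
open Filter

namespace Pool.Agent.E6b
variable {κ F : Type} [Field κ] [IsAlgClosed κ] [CharZero κ] [Field F] [Algebra κ F] [IsFF κ F]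
  {o : Place κ F} (U : Ultrafilter ℕ) {L : Type} [Field L] [IsAlgClosed L] [CharZero L]
  [Algebra κ L] {ι : Type} [Fintype ι]

theorem O4_elim {ι' : Type} [Fintype ι'] (z : ℕ → ι → Pt o L) (z' : ℕ → ι' → Pt o L) :
    (clz fun a => ptU U fun n => Sum.elim (z n) (z' n) a) =
      (clz fun a => ptU U fun n => z n a) + clz fun a => ptU U fun n => z' n a := by
  rw [← clz_elim]
  congr 1
  funext a
  cases a <;> rfl

end Pool.Agent.E6b

end

section
open scoped NNReal TensorProduct IntermediateField BigOperators Classical Topology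
open Filter

namespace Pool.Agent.E6b
variable {κ F : Type} [Field κ] [IsAlgClosed κ] [CharZero κ] [Field F] [Algebra κ F] [IsFF κ F]
  {o : Place κ F} {Ω : Type} [Field Ω] [IsAlgClosed Ω] [CharZero Ω] [Algebra κ Ω]
  {ι ι' : Type} [Fintype ι] [Fintype ι']

theorem P2V_iff {r : ℕ} (hr : genus κ F ≤ r) (a : AO o Ω) :
    P2V r a ↔ algebraMap _ (FO o Ω) a ∈ LL (((r : ℤ) + genus κ F - 1) • pd (oo o Ω)) := by
  rw [mem_LL_oo]
  constructor
  · intro h
    refine ⟨a, rfl, fun i hi => ?_⟩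
    have h1 : i < r := not_le.1 fun e => hi (h i e)
    have h2 := (ebSpec o).mono h1
    rw [(ebSpec o).large r hr] at h2
    omega
  · rintro ⟨a', e, h⟩ i hi
    obtain rfl := IsFractionRing.injective (AO o Ω) (FO o Ω) e
    by_contra h1
    have h2 := h i h1
    rw [(ebSpec o).large i (hr.trans hi)] at h2
    omega

theorem P2V_mul {y : ι' → Pt o Ω} {f : AO o Ω} (hf : f ≠ 0)
    (hd : dv Ω (algebraMap _ (FO o Ω) f) = dz y - (Fintype.card ι' : ℤ) • pd (oo o Ω))
    {n i : ℕ} (hn : genus κ F ≤ n) (h : i < n) : P2V (Fintype.card ι' + n) (f * ebO o Ω i) := by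
  have h1 : algebraMap _ (FO o Ω) f ∈ LL ((Fintype.card ι' : ℤ) • pd (oo o Ω)) := by
    rw [mem_LL_iff ((map_ne_zero_iff _ (IsFractionRing.injective _ _)).2 hf), hd,
      add_sub_cancel]
    exact dz_nonneg y
  have h2 := mul_mem_LL h1 ((P2V_iff hn _).1 (P2V_eb h))
  rw [P2V_iff (by omega), map_mul]
  rw [← add_smul] at h2
  convert h2 using 3
  push_cast
  ring

end Pool.Agent.E6b

end

section
open scoped NNReal TensorProduct IntermediateField BigOperators Classical Topology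
open Filter

namespace Pool.Agent.E6b

section
variable {κ F : Type} [Field κ] [IsAlgClosed κ] [CharZero κ] [Field F] [Algebra κ F] [IsFF κ F]

/-- the ideal generated by two sections -/
theorem K6_surj (hg : genus κ F = 1) {g₁ g₂ x : F} (h₁ : g₁ ≠ 0) (h₂ : g₂ ≠ 0) {N₁ N₂ D : Dv κ F}
    (hD : deg N₁ + deg N₂ < deg D + deg ((N₁ + dv κ g₁) ⊓ (N₂ + dv κ g₂)))
    (hx : x ∈ LL (D - (N₁ + dv κ g₁) ⊓ (N₂ + dv κ g₂))) :
    ∃ a₁ ∈ LL (D - N₁), ∃ a₂ ∈ LL (D - N₂), x = a₁ * g₁ + a₂ * g₂ := by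
  have e1 : D - (N₁ + dv κ g₁) ⊓ (N₂ + dv κ g₂) = (D - (N₁ + dv κ g₁)) ⊔ (D - (N₂ + dv κ g₂)) := by
    ext P
    simp only [Finsupp.sub_apply, Finsupp.inf_apply, Finsupp.sup_apply]
    omega
  have e2 := K6_deg_sup (D - (N₁ + dv κ g₁)) (D - (N₂ + dv κ g₂))
  rw [← e1] at e2
  simp only [deg_sub, deg_add, deg_dv] at e2
  rw [e1, K6_LL_sup hg (by omega)] at hx
  obtain ⟨x₁, hx₁, x₂, hx₂, rfl⟩ := Submodule.mem_sup.1 hx
  have key : ∀ {g y : F} {N : Dv κ F}, g ≠ 0 → y ∈ LL (D - (N + dv κ g)) → y / g ∈ LL (D - N) := by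
    intro g y N hg0 hy
    have h := mul_mem_LL hy ((mem_LL_iff (D := dv κ g) (inv_ne_zero hg0)).2 (by simp [dv_inv]))
    rw [div_eq_mul_inv]
    convert h using 2
    abel
  exact ⟨_, key h₁ hx₁, _, key h₂ hx₂, by rw [div_mul_cancel₀ _ h₁, div_mul_cancel₀ _ h₂]⟩

end

section
variable {κ F' E : Type} [Field κ] [IsAlgClosed κ] [CharZero κ] [Field F'] [Algebra κ F']
  [IsFF κ F'] [Field E] [Algebra κ E] [IsFF κ E]

/-- a section can be scaled to have an effective divisor of coefficients -/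
theorem K6_scale {M : Dv κ F'} {N : Dv κ E} {G : F' ⊗[κ] E} (h : G ∈ LT2 M N) (h0 : G ≠ 0) :
    ∃ (c : F') (M' : Dv κ F'), c ≠ 0 ∧ 0 ≤ M' ∧ deg M' = deg M ∧ c • G ∈ LT2 M' N := by
  obtain ⟨u, -, hu⟩ := exists_basis_LL N
  obtain ⟨c, hc, e⟩ := (mem_LT2_iff hu).1 h
  obtain ⟨i, hi⟩ : ∃ i, c i ≠ 0 := by
    by_contra h1
    push Not at h1
    exact h0 (by simp [e, h1])
  refine ⟨(c i)⁻¹, dv κ (c i) + M, inv_ne_zero hi, ?_, by rw [deg_add, deg_dv, zero_add],
    smul_mem_LT2 ((mem_LL_iff (inv_ne_zero hi)).2 (by simp [dv_inv])) h⟩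
  rw [add_comm]
  exact (mem_LL_iff hi).1 (hc i)

end

end Pool.Agent.E6b

end
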