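import Pool.Agent.E6c.A15
import Pool.Agent.E6c.A16
import Pool.Agent.E6c.A17

section
open scoped NNReal TensorProduct IntermediateField BigOperators Classical Topology
open Filter

namespace Pool.Agent.E6b
variable {κ F : Type} [Field κ] [IsAlgClosed κ] [CharZero κ] [Field F] [Algebra κ F] [IsFF κ F]
  {o : Place κ F} {Ω : Type} [Field Ω] [IsAlgClosed Ω] [CharZero Ω] [Algebra κ Ω]

theorem exists_pt_wN (c : Ω) : ∃ y : Pt o Ω, y (wN o) = c := by
  obtain ⟨P, hP⟩ := exists_place_ev (iF_wN_notMem (o := o) (Ω := Ω)) c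
  rcases eq_oo_or_plc P with rfl | ⟨y, rfl⟩
  · refine (O1_w_notMem (o := o) (Ω := Ω) ?_).elim
    simpa using add_mem ((oo o Ω).mem_iff.2 hP.le) ((oo o Ω).const c)
  · exact ⟨y, (plc_iF y _).2.symm.trans (Place.ev_eq _ (Or.inr hP))⟩

instance instInfinitePt : Infinite (Pt o Ω) :=
  Infinite.of_surjective (fun y : Pt o Ω => y (wN o)) exists_pt_wN

end Pool.Agent.E6b

end

section
open scoped NNReal TensorProduct IntermediateField BigOperators Classical Topology
open Filter
set_option linter.unusedSectionVars false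

namespace Pool.Agent.E6b
variable {κ F : Type} [Field κ] [IsAlgClosed κ] [CharZero κ] [Field F] [Algebra κ F] [IsFF κ F]
  {o : Place κ F} {Ω Ω' Ω'' : Type} [Field Ω] [IsAlgClosed Ω] [CharZero Ω] [Algebra κ Ω]
  [Field Ω'] [IsAlgClosed Ω'] [CharZero Ω'] [Algebra κ Ω']
  [Field Ω''] [IsAlgClosed Ω''] [CharZero Ω''] [Algebra κ Ω'']

namespace BC
variable (β : BC o Ω Ω')

/-- image of a point -/
noncomputable def pt (y : Pt o Ω) : Pt o Ω' :=
  if h : ∃ y', E6b.plc y' = β.plc (E6b.plc y) then h.choose else Classical.arbitrary _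

end BC

end Pool.Agent.E6b

end

section
open scoped NNReal TensorProduct IntermediateField BigOperators Classical Topology
open Filter

namespace Pool.Agent.E6b
variable {κ F : Type} [Field κ] [IsAlgClosed κ] [CharZero κ] [Field F] [Algebra κ F] [IsFF κ F]
  {o : Place κ F} (U : Ultrafilter ℕ) {L : Type} [Field L] [IsAlgClosed L] [CharZero L]
  [Algebra κ L] {ι : Type} [Fintype ι]

theorem ptU_surj (y : Pt o (UP U L)) : ∃ y' : ℕ → Pt o L, ptU U y' = y := by
  choose x hx using fun i : Fin (MM o) => gm_surj U (y (eb o i))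
  obtain ⟨s, hs⟩ := IsNoetherian.noetherian (R := MvPolynomial (Fin (MM o)) κ) (RingHom.ker
    (MvPolynomial.aeval (R := κ) fun i : Fin (MM o) => eb o i))
  have h1 : ∀ᶠ n in (U : Filter ℕ), ∀ Q ∈ s, MvPolynomial.aeval (fun i => x i n) Q = 0 := by
    refine (Filter.eventually_all_finset s).2 fun Q hQ => (gm_eq_zero_iff U _).1 ?_
    have h2 : MvPolynomial.aeval (fun i : Fin (MM o) => eb o i) Q = 0 := by
      rw [← RingHom.mem_ker, ← hs]
      exact Submodule.subset_span hQ
    have h3 := MvPolynomial.comp_aeval_apply (f := fun i : Fin (MM o) => eb o i) y Q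
    rw [gm_aeval, funext hx, ← h3, h2, map_zero]
  have h2 : ∀ n, ∃ y' : Pt o L, (∀ Q ∈ s, MvPolynomial.aeval (fun i => x i n) Q = 0) →
      cd y' = fun i => x i n := by
    intro n
    by_cases h : ∀ Q ∈ s, MvPolynomial.aeval (fun i => x i n) Q = 0
    · have h3 : Submodule.span (MvPolynomial (Fin (MM o)) κ)
          (s : Set (MvPolynomial (Fin (MM o)) κ)) ≤
          RingHom.ker (MvPolynomial.aeval (R := κ) fun i => x i n) :=
        Submodule.span_le.2 fun Q hQ => h Q hQ
      rw [hs] at h3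
      obtain ⟨y', hy'⟩ := exists_pt_of_rel o (fun i => x i n) fun Q hQ => h3 hQ
      exact ⟨y', fun _ => hy'⟩
    · exact ⟨Classical.arbitrary _, fun h' => absurd h' h⟩
  choose y' hy' using h2
  refine ⟨y', pt_ext o (funext fun i => Eq.trans ?_ (hx i))⟩
  exact (gm_eq_iff U _ _).2 (h1.mono fun n hn => congrFun (hy' n hn) i)

end Pool.Agent.E6b

end

section
open scoped NNReal TensorProduct IntermediateField BigOperators Classical Topology
open Filter

namespace Pool.Agent.E6b
variable {κ F : Type} [Field κ] [IsAlgClosed κ] [CharZero κ] [Field F] [Algebra κ F] [IsFF κ F]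
  {o : Place κ F} {Ω Ω' : Type} [Field Ω] [IsAlgClosed Ω] [CharZero Ω] [Algebra κ Ω]
  [Field Ω'] [IsAlgClosed Ω'] [CharZero Ω'] [Algebra κ Ω'] {ι ι' : Type} [Fintype ι] [Fintype ι']

theorem Prp.map {ι K K' : Type*} [Field K] [Field K'] {x y : ι → K} (h : Prp x y) (τ : K →+* K') :
    Prp (fun i => τ (x i)) fun i => τ (y i) := by
  obtain ⟨μ, h0, h⟩ := h
  exact ⟨τ μ, (map_ne_zero τ).2 h0, fun i => by simp only [h, map_mul]⟩

end Pool.Agent.E6b

end

section
open scoped NNReal TensorProduct IntermediateField BigOperators Classical Topology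
open Filter

namespace Pool.Agent.E6b

/-- evaluation at `(u, ξ)` -/
noncomputable def ev2 {K R : Type} [Field K] [CommRing R] [Algebra K R] {r : ℕ} (u : Fin r → R)
    (ξ : R) : PP K r →ₐ[K] R :=
  Polynomial.eval₂AlgHom (MvPolynomial.aeval u) ξ fun _ => Commute.all _ _

namespace Mdl
variable {K : Type} [Field K] {r : ℕ} {ι : Type} (M : Mdl K r ι)

/-- points of the model -/
def IsPt {R : Type} [CommRing R] [Algebra K R] (u : Fin r → R) (ξ : R) : Prop :=
  ev2 u ξ M.m = 0 ∧ MvPolynomial.aeval u M.q ≠ 0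

noncomputable def val {R : Type} [Field R] [Algebra K R] (u : Fin r → R) (ξ : R) (l : ι) : R :=
  ev2 u ξ (M.P l) / MvPolynomial.aeval u M.q

def Cx (Δ : ℕ) : Prop :=
  CxP Δ M.m ∧ M.q.totalDegree ≤ Δ ∧ (∀ l, CxP Δ (M.P l)) ∧ CxP Δ M.P'

/-- all coefficients of the model, and `1` -/
noncomputable def S [Fintype ι] : Finset K :=
  insert 1 (cfs M.m ∪ M.q.coeffs ∪ cfs M.P' ∪ Finset.univ.biUnion fun l => cfs (M.P l))

end Mdl

section Two
variable {r₁ r₂ : ℕ} {ι : Type} (M₁ : Mdl Qb r₁ ι) (M₂ : Mdl Qb r₂ ι)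

abbrev R0 (r₁ r₂ : ℕ) : Type := MvPolynomial (Fin r₁ ⊕ Fin r₂) Qb

noncomputable def tm1 : Polynomial (R0 r₁ r₂) :=
  M₁.m.map (MvPolynomial.rename Sum.inl).toRingHom

end Two

section
variable {F : Type} [Field F] [Algebra Qb F] [IsFF Qb F]
variable {o : Place Qb F} {d r : ℕ}

/-- the coordinates of `z` are the values of the model -/
def Mdl.Crd (M : Mdl Qb r (IX o d)) {Ω : Type} [Field Ω] [Algebra Qb Ω] (u : Fin r → Ω) (ξ : Ω)
    (z : Fin d → Pt o Ω) : Prop := ∀ a (i : Fin (MM o)), z a (eb o i) = M.val u ξ (.inl (a, i))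

end

end Pool.Agent.E6b

end

section
open scoped NNReal TensorProduct IntermediateField BigOperators Classical Topology
open Filter

namespace Pool.Agent.E6b
variable (U : Ultrafilter ℕ)

section Aux
variable {L : Type} [Field L] {r : ℕ}

/-- polynomials whose coefficients are sequences -/
abbrev M2P (L : Type) [Field L] (r : ℕ) : Type := Polynomial (MvPolynomial (Fin r) (ℕ → L))

/-- the limit -/
noncomputable def M2lim : M2P L r →+* PP (UP U L) r :=
  Polynomial.mapRingHom (MvPolynomial.map (U1_hom U))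

/-- the components -/
noncomputable def M2cmp (n : ℕ) : M2P L r →+* PP L r :=
  Polynomial.mapRingHom (MvPolynomial.map (Pi.evalRingHom (fun _ : ℕ => L) n))

theorem M2lim_coeff (p : M2P L r) (i μ) :
    ((M2lim U p).coeff i).coeff μ = gm U ((p.coeff i).coeff μ) := by
  rw [M2lim, Polynomial.coe_mapRingHom, Polynomial.coeff_map, MvPolynomial.coeff_map]
  rfl

theorem M2cmp_coeff (n : ℕ) (p : M2P L r) (i μ) :
    ((M2cmp n p).coeff i).coeff μ = (p.coeff i).coeff μ n := by
  rw [M2cmp, Polynomial.coe_mapRingHom, Polynomial.coeff_map, MvPolynomial.coeff_map]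
  rfl

theorem M2_limP (p : M2P L r) : LimP U (M2lim U p) fun n => M2cmp n p := fun i μ => by
  simp only [M2lim_coeff, M2cmp_coeff]

theorem M2_surj0 : Function.Surjective
    (MvPolynomial.map (U1_hom U) : MvPolynomial (Fin r) (ℕ → L) → _) :=
  MvPolynomial.map_surjective _ (gm_surj U)

theorem M2_surj : Function.Surjective (M2lim U : M2P L r → _) :=
  Polynomial.map_surjective _ (M2_surj0 U)

theorem M2_lift {Δ : ℕ} (ps : ℕ → PP L r) (h : ∀ n, CxP Δ (ps n)) :
    ∃ p : M2P L r, ∀ n, M2cmp n p = ps n := by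
  refine ⟨∑ i ∈ Finset.range (Δ + 1), Polynomial.monomial i
    (∑ μ ∈ (U1_fin (σ := Fin r) Δ).toFinset,
      MvPolynomial.monomial μ fun n => ((ps n).coeff i).coeff μ), fun n => ?_⟩
  refine Polynomial.ext fun i => MvPolynomial.ext _ _ fun μ => ?_
  rw [M2cmp_coeff, Polynomial.finsetSum_coeff]
  simp only [Polynomial.coeff_monomial]
  rw [Finset.sum_ite_eq']
  split_ifs with hi
  · rw [U1_coeff_sum]
    split_ifs with hμ
    · rfl
    · exact (U1_coeff_zero ((h n).2 i) fun e => hμ ((Set.Finite.mem_toFinset _).2 e)).symm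
  · rw [Polynomial.coeff_eq_zero_of_natDegree_lt
      (lt_of_le_of_lt (h n).1 (by rw [Finset.mem_range] at hi; omega))]
    rfl

theorem M2_cx (p : M2P L r) : ∃ Δ, ∀ n, CxP Δ (M2cmp n p) := by
  refine ⟨p.natDegree + p.support.sup fun i => (p.coeff i).totalDegree, fun n =>
    ⟨Polynomial.natDegree_map_le.trans (Nat.le_add_right _ _), fun i => ?_⟩⟩
  rw [M2cmp, Polynomial.coe_mapRingHom, Polynomial.coeff_map]
  refine le_trans (b := (p.coeff i).totalDegree)
    (Finset.sup_mono (MvPolynomial.support_map_subset _ _)) ?_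
  by_cases hi : i ∈ p.support
  · exact (Finset.le_sup (f := fun i => (p.coeff i).totalDegree) hi).trans (Nat.le_add_left _ _)
  · rw [Polynomial.notMem_support_iff.1 hi, MvPolynomial.totalDegree_zero]
    exact Nat.zero_le _

end Aux

/-- the map of ultrapowers induced by an embedding -/
theorem exists_upMap {L L' : Type} [Field L] [Field L'] [Algebra L L'] :
    ∃ φ : UP U L →ₐ[L] UP U L', ∀ x : ℕ → L, φ (gm U x) = gm U fun n => algebraMap L L' (x n) :=
  ⟨{ toFun := Filter.Germ.map (algebraMap L L')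
     map_one' := congrArg (gm U) (funext fun _ => map_one (algebraMap L L'))
     map_zero' := congrArg (gm U) (funext fun _ => map_zero (algebraMap L L'))
     map_mul' := fun x y => Filter.Germ.inductionOn₂ x y fun f g =>
       congrArg (gm U) (funext fun n => map_mul (algebraMap L L') (f n) (g n))
     map_add' := fun x y => Filter.Germ.inductionOn₂ x y fun f g =>
       congrArg (gm U) (funext fun n => map_add (algebraMap L L') (f n) (g n))
     commutes' := fun _ => rfl }, fun _ => rfl⟩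

end Pool.Agent.E6b

end

section

namespace Pool.Agent.E6b
open Polynomial

theorem C1_dom {A L : Type} [CommRing A] [Field L] {r : ℕ} {f : A[X]} (hf : f.Monic)
    (φ : A →+* MvPolynomial (Fin r) L) (hφ : Function.Injective φ) (h : Irreducible (f.map φ)) :
    IsDomain (AdjoinRoot f) := by
  have hp : Prime (f.map φ) := h.prime
  have := hφ.isDomain
  refine AdjoinRoot.isDomain_of_prime ⟨hf.ne_zero, fun e => hp.not_isUnit (e.map (mapRingHom φ)),
    fun a b hab => ?_⟩
  rw [← map_dvd_map φ hφ hf, Polynomial.map_mul] at hab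
  rw [← map_dvd_map φ hφ hf, ← map_dvd_map φ hφ hf]
  exact hp.dvd_or_dvd hab

theorem C1_dvd_norm {R S : Type} [CommRing R] [CommRing S] [Algebra R S] [Module.Free R S]
    [Module.Finite R S] (x : S) : x ∣ algebraMap R S (Algebra.norm R x) := by
  have h1 : aeval x (Algebra.lmul R S x).charpoly = 0 := by
    apply Algebra.lmul_injective (R := R)
    rw [← aeval_algHom_apply, LinearMap.aeval_self_charpoly, map_zero]
  have h2 : x ∣ algebraMap R S ((Algebra.lmul R S x).charpoly.coeff 0) := by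
    rw [← (Algebra.lmul R S x).charpoly.X_mul_divX_add, map_add, map_mul, aeval_X, aeval_C] at h1
    exact ⟨-aeval x (Algebra.lmul R S x).charpoly.divX, by linear_combination h1⟩
  rw [Algebra.norm_apply]
  change x ∣ algebraMap R S (LinearMap.det (Algebra.lmul R S x))
  rw [LinearMap.det_eq_sign_charpoly_coeff, map_mul]
  exact h2.mul_left _
variable {r₁ r₂ : ℕ} {ι : Type} (M₁ : Mdl Qb r₁ ι) (M₂ : Mdl Qb r₂ ι)

theorem C1_monic1 : (tm1 (r₂ := r₂) M₁).Monic := M₁.monic.map _

end Pool.Agent.E6b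

end

section
open scoped NNReal TensorProduct IntermediateField BigOperators Classical Topology
open Filter

namespace Pool.Agent.E6b
open MvPowerSeries

theorem C3_SB_one {σ : Type} [Fintype σ] {S : Finset Qb} (h1 : 1 ∈ S) :
    SB S 1 (1 : MvPowerSeries σ Qb) := by
  have := SB.C (σ := σ) h1 h1
  rwa [map_one] at this

end Pool.Agent.E6b

end

section
open scoped NNReal TensorProduct IntermediateField BigOperators Classical Topology
open Filter

namespace Pool.Agent.E6b

theorem C2_ok_of {r D : ℕ} {S : Finset Qb} {q : PP Qb r} (h : CxP D q) (hS : cfs q ⊆ S) :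
    C2_Ok (D + 1) S q := by
  refine ⟨h.1.trans (Nat.le_succ _), fun i => ⟨(h.2 i).trans (Nat.le_succ _), ?_⟩⟩
  by_cases hi : i ∈ q.support
  · exact (Finset.subset_biUnion_of_mem (fun i => (q.coeff i).coeffs) hi).trans hS
  · rw [Polynomial.notMem_support_iff.1 hi, MvPolynomial.coeffs_zero]
    exact Finset.empty_subset _

end Pool.Agent.E6b

end

section
open scoped NNReal TensorProduct IntermediateField BigOperators Classical Topology
open Filter

namespace Pool.Agent.E6b

/-- the height of the two models -/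
theorem C9_mid {S H₁ H₂ ε a₁ a₂ : ℝ} (hS : 1 ≤ S) (hH : 1 ≤ H₁) (h2 : H₂ + 1 ≤ S * (H₁ + 1))
    (hε : 0 ≤ ε) (ha₁ : a₁ ≤ ε * H₁) (ha₂ : a₂ ≤ ε * H₂) :
    S * (a₁ + 1) + (a₂ + 1) ≤ S * (3 * ε * H₁ + 2) := by
  have h3 : H₂ ≤ 2 * (S * H₁) := by nlinarith
  have h4 := mul_le_mul_of_nonneg_left h3 hε
  have h5 := mul_le_mul_of_nonneg_left ha₁ (by linarith : (0 : ℝ) ≤ S)
  linarith

end Pool.Agent.E6b

end

section
open scoped NNReal TensorProduct IntermediateField BigOperators Classical Topology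
open Filter

namespace Pool.Agent.E6b

theorem K9_ind_nonneg {κ F : Type} [Field κ] [Field F] [Algebra κ F] (S : Finset (Place κ F)) :
    0 ≤ ind S := fun P => by
  rw [ind_apply]
  split_ifs <;> simp

/-- the part of a common subdivisor outside the common orbit is small -/
theorem K9_part {κ F : Type} [Field κ] [Field F] [Algebra κ F] {D D₁ D₂ : Finset (Place κ F)}
    (h1 : Disjoint D D₁) (h2 : Disjoint D₁ D₂) {Z B₁ B₂ : Dv κ F} (hZ : 0 ≤ Z) (b1 : 0 ≤ B₁)
    (b2 : 0 ≤ B₂) (z1 : Z ≤ ind D + ind D₁ + B₁) (z2 : Z ≤ ind D + ind D₂ + B₂) :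
    ∃ S ⊆ D, 0 ≤ Z - ind S ∧ deg (Z - ind S) ≤ deg B₁ + deg B₂ := by
  refine ⟨D.filter fun P => 0 < Z P, Finset.filter_subset _ _, fun P => ?_, ?_⟩
  · have e0 : 0 ≤ Z P := hZ P
    simp only [Finsupp.coe_sub, Pi.sub_apply, ind_apply, Finset.mem_filter, Finsupp.coe_zero,
      Pi.zero_apply]
    split_ifs with h
    · omega
    · omega
  · rw [← deg_add]
    refine deg_mono fun P => ?_
    have e0 : 0 ≤ Z P := hZ P
    have e1 : 0 ≤ B₁ P := b1 P
    have e2 : 0 ≤ B₂ P := b2 P
    have e3 := z1 P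
    have e4 := z2 P
    have e5 : P ∈ D → P ∉ D₁ := fun h => Finset.disjoint_left.1 h1 h
    have e6 : P ∈ D₁ → P ∉ D₂ := fun h => Finset.disjoint_left.1 h2 h
    simp only [Finsupp.coe_sub, Finsupp.coe_add, Pi.sub_apply, Pi.add_apply, ind_apply,
      Finset.mem_filter] at e3 e4 ⊢
    by_cases p0 : P ∈ D <;> by_cases p1 : P ∈ D₁ <;> by_cases p2 : P ∈ D₂ <;>
      by_cases p3 : 0 < Z P <;> simp only [p0, p1, p2, p3, and_true, and_false, if_true, if_false,
        not_true, imp_false, true_imp_iff] at e3 e4 e5 e6 ⊢ <;> omega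

end Pool.Agent.E6b

end
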