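import Pool.Agent.E6c.A15
import Pool.Agent.E6c.A19
import Pool.Agent.E6c.A21
import Pool.Agent.E6c.A26

section
open scoped NNReal TensorProduct IntermediateField BigOperators Classical Topology
open Filter

namespace Pool.Agent.E6b

section
variable {κ F : Type} [Field κ] [IsAlgClosed κ] [CharZero κ] [Field F] [Algebra κ F] [IsFF κ F]
variable {o : Place κ F} {Ω Ω' Ω'' : Type} [Field Ω] [IsAlgClosed Ω] [CharZero Ω] [Algebra κ Ω]
  [Field Ω'] [IsAlgClosed Ω'] [CharZero Ω'] [Algebra κ Ω']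
  [Field Ω''] [IsAlgClosed Ω''] [CharZero Ω''] [Algebra κ Ω'']

/-- `τ` fixes the elements of `S` -/
def Fx (S : Set κ) (τ : Ω →+* Ω') : Prop := ∀ c ∈ S, τ (algebraMap κ Ω c) = algebraMap κ Ω' c

end

end Pool.Agent.E6b

end

section
open scoped NNReal TensorProduct IntermediateField BigOperators Classical Topology
open Filter

namespace Pool.Agent.E6b
variable {κ F : Type} [Field κ] [IsAlgClosed κ] [CharZero κ] [Field F] [Algebra κ F] [IsFF κ F]
  {o : Place κ F} {Ω : Type} [Field Ω] [IsAlgClosed Ω] [CharZero Ω] [Algebra κ Ω]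

/-- the embedding `jF` as a homomorphism of function fields (for `Ω = κ`) -/
noncomputable def jK (o : Place κ F) : FHom κ F (FO o κ) :=
  FHom.ofAlgHom (exists_jF_hom (o := o) (Ω := κ)).choose

theorem jK_f (f : F) : (jK o).f f = jF o κ f :=
  (exists_jF_hom (o := o) (Ω := κ)).choose_spec f

theorem jK_surj : Function.Surjective (jK o).f := by
  have h : ∀ a : AO o κ, algebraMap _ (FO o κ) a ∈ (jK o).f.fieldRange := fun a => by
    induction a using TensorProduct.induction_on with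
    | zero => simp
    | add a b ha hb => exact map_add (algebraMap _ (FO o κ)) a b ▸ add_mem ha hb
    | tmul c a =>
      rw [algebraMap_tmul]
      exact mul_mem ⟨_, (jK o).comm c⟩ ⟨a, by rw [jK_f, jF_coe]⟩
  intro x
  obtain ⟨a, s, -, rfl⟩ := IsFractionRing.div_surjective (AO o κ) x
  exact div_mem (h a) (h s)

theorem jK_res_oo : (jK o).res (oo o κ) = o := by
  ext f
  rw [← FHom.map_mem_iff, jK_f, Place.mem_iff, Place.mem_iff, (oo_jF f).1]

theorem jK_res_plc (y : Pt o κ) (a : AA o) : ((jK o).res (plc y)).ev (a : F) = y a := by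
  have h := (jK o).ev_map (plc y) a
  rw [jK_f, jF_coe, (plc_iF y a).2] at h
  exact h.symm

end Pool.Agent.E6b

end

section
open scoped NNReal TensorProduct IntermediateField BigOperators Classical Topology
open Filter

namespace Pool.Agent.E6b
variable {κ F : Type} [Field κ] [IsAlgClosed κ] [CharZero κ] [Field F] [Algebra κ F] [IsFF κ F]
  {o : Place κ F} {Ω Ω' : Type} [Field Ω] [Algebra κ Ω] [Field Ω'] [Algebra κ Ω']

theorem O2_map_inj (τ : Ω →+* Ω') : Function.Injective (O2_map o τ) := fun a a' h =>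
  O2_ext fun i => τ.injective (by rw [← O2_map_repr, ← O2_map_repr, h])

theorem O2_repr_one_tmul (a : AA o) (k : ℕ) :
    (ebO o Ω).repr (1 ⊗ₜ[κ] a) k = algebraMap κ Ω ((eb o).repr a k) := by
  rw [ebO, Algebra.TensorProduct.basis_repr_tmul, one_smul, Finsupp.mapRange_apply]

theorem O2_map_tmul (τ : Ω →+* Ω') {a a' : AA o}
    (h : ∀ k, τ (algebraMap κ Ω ((eb o).repr a k)) = algebraMap κ Ω' ((eb o).repr a' k)) :
    O2_map o τ (1 ⊗ₜ[κ] a) = 1 ⊗ₜ[κ] a' :=
  O2_ext fun k => by rw [O2_map_repr, O2_repr_one_tmul, O2_repr_one_tmul, h]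

theorem O2_map_mul (τ : Ω →+* Ω')
    (h : ∀ i j k, τ (algebraMap κ Ω ((eb o).repr (eb o i * eb o j) k)) =
      algebraMap κ Ω' ((eb o).repr (eb o i * eb o j) k)) (a a' : AO o Ω) :
    O2_map o τ (a * a') = O2_map o τ a * O2_map o τ a' := by
  refine O2_mul_of_basis (O2_map o τ) (fun c => algebraMap Ω' _ (τ c)) (fun c c' => by simp)
    (fun c a => by rw [O2_map_smul, O2_smul_def]) (fun i j => ?_) a a'
  rw [O2_map_eb, O2_map_eb, O2_ebO_mul, O2_ebO_mul, O2_map_tmul τ (h i j)]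

theorem O2_exists_bc (τ : Ω →+* Ω')
    (h : ∀ i j k, τ (algebraMap κ Ω ((eb o).repr (eb o i * eb o j) k)) =
      algebraMap κ Ω' ((eb o).repr (eb o i * eb o j) k)) : ∃ β : BC o Ω Ω', β.τ = τ := by
  let Φ : AO o Ω →+* AO o Ω' :=
    { O2_map o τ with map_one' := O2_map_one τ, map_mul' := O2_map_mul τ h }
  have hΦ : ∀ a, Φ a = O2_map o τ a := fun _ => rfl
  have hinj : Function.Injective ((algebraMap (AO o Ω') (FO o Ω')).comp Φ) :=
    O2_alg_inj.comp (O2_map_inj τ)
  refine ⟨⟨τ, IsFractionRing.lift hinj, fun c => ?_, fun i => ?_⟩, rfl⟩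
  · rw [IsScalarTower.algebraMap_apply Ω (AO o Ω) (FO o Ω), IsFractionRing.lift_algebraMap,
      RingHom.comp_apply, hΦ, Algebra.algebraMap_eq_smul_one c, O2_map_smul, O2_map_one,
      O2_alg_smul, map_one, mul_one]
  · rw [O2_iF, O2_iF, IsFractionRing.lift_algebraMap, RingHom.comp_apply, hΦ, ← O2_ebO, ← O2_ebO,
      O2_map_eb]

theorem O2_table_finset (o : Place κ F) : ∃ S : Finset κ, ∀ K : Subring κ, (∀ c ∈ S, c ∈ K) →
    ∀ i j k, (eb o).repr (eb o i * eb o j) k ∈ K := by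
  refine ⟨(Finset.range (MM o) ×ˢ Finset.range (MM o)).biUnion fun p =>
    ((eb o).repr (eb o p.1 * eb o p.2)).support.image ((eb o).repr (eb o p.1 * eb o p.2)),
    fun K hK => ?_⟩
  have h1 : ∀ i < MM o, ∀ j < MM o, ∀ k, (eb o).repr (eb o i * eb o j) k ∈ K := by
    intro i hi j hj k
    by_cases h0 : (eb o).repr (eb o i * eb o j) k = 0
    · rw [h0]; exact K.zero_mem
    · refine hK _ (Finset.mem_biUnion.2 ⟨(i, j), ?_, ?_⟩)
      · simp [hi, hj]
      · exact Finset.mem_image_of_mem _ (Finsupp.mem_support_iff.2 h0)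
  have h2 : ∀ l k, (eb o).repr (eb o l * wN o) k ∈ K := by
    intro l k
    by_cases hl : l < MM o
    · exact h1 l hl _ (by unfold MM; omega) k
    · rw [wN, ← (ebSpec o).per l (by unfold MM at hl; omega), Module.Basis.repr_self,
        Finsupp.single_apply]
      split_ifs
      · exact K.one_mem
      · exact K.zero_mem
  have h3 : ∀ a : AA o, (∀ k, (eb o).repr a k ∈ K) → ∀ k, (eb o).repr (a * wN o) k ∈ K := by
    intro a ha k
    rw [← (eb o).linearCombination_repr a, Finsupp.linearCombination_apply, Finsupp.sum,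
      Finset.sum_mul, map_sum, Finsupp.finsetSum_apply]
    refine K.sum_mem fun l _ => ?_
    rw [smul_mul_assoc, map_smul, Finsupp.smul_apply, smul_eq_mul]
    exact K.mul_mem (ha l) (h2 l k)
  have h4 : ∀ a : AA o, (∀ i < MM o, ∀ k, (eb o).repr (a * eb o i) k ∈ K) →
      ∀ i k, (eb o).repr (a * eb o i) k ∈ K := by
    intro a ha i
    induction i using Nat.strong_induction_on with
    | _ i ih =>
      by_cases hi : i < MM o
      · exact ha i hi
      · obtain ⟨l, rfl⟩ : ∃ l, i = l + (2 * genus κ F + 1) :=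
          ⟨i - (2 * genus κ F + 1), by unfold MM at hi; omega⟩
        rw [(ebSpec o).per l (by unfold MM at hi; omega), ← mul_assoc]
        exact h3 _ (ih l (by omega))
  intro i
  refine h4 _ fun j hj => ?_
  rw [mul_comm]
  exact h4 _ (fun i hi => h1 j hj i hi) i

namespace BC
variable (β : BC o Ω Ω')

theorem O2_phi_iF {a a' : AA o}
    (h : ∀ k, β.τ (algebraMap κ Ω ((eb o).repr a k)) = algebraMap κ Ω' ((eb o).repr a' k)) :
    β.φ (iF o Ω a) = iF o Ω' a' := by
  rw [O2_iF, O2_iF, β.O2_phi, O2_map_tmul β.τ h]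

theorem O2_exists_pt' (y' : Pt o Ω') (h : ∀ i : Fin (MM o), y' (eb o i) ∈ β.τ.range) :
    ∃ y : Pt o Ω, ∀ i, β.τ (y (eb o i)) = y' (eb o i) := by
  have h0 : ∀ i, y' (eb o i) ∈ β.τ.range := by
    intro i
    induction i using Nat.strong_induction_on with
    | _ i ih =>
      by_cases hi : i < MM o
      · exact h ⟨i, hi⟩
      · obtain ⟨l, rfl⟩ : ∃ l, i = l + (2 * genus κ F + 1) :=
          ⟨i - (2 * genus κ F + 1), by unfold MM at hi; omega⟩
        rw [(ebSpec o).per l (by unfold MM at hi; omega), map_mul]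
        exact mul_mem (ih l (by omega)) (h ⟨genus κ F + 1, by unfold MM; omega⟩)
  choose x hx using h0
  let X : AO o Ω →ₗ[Ω] Ω := (ebO o Ω).constr Ω x
  have hX : ∀ i, X (ebO o Ω i) = x i := fun i => (ebO o Ω).constr_basis _ _ i
  have h1 : ∀ a, β.τ (X a) = evA y' (O2_map o β.τ a) := fun a =>
    O2_ind (ebO o Ω) (Q := fun a => β.τ (X a) = evA y' (O2_map o β.τ a)) (by simp)
      (fun x y hx hy => by simp only [map_add, hx, hy])
      (fun c i => by
        show β.τ (X (c • ebO o Ω i)) = evA y' (O2_map o β.τ (c • ebO o Ω i))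
        rw [O2_map_smul, O2_map_eb, map_smul X, map_smul (evA y'), hX, O2_evA_ebO, smul_eq_mul,
          smul_eq_mul, map_mul, hx]) a
  obtain ⟨y, hy⟩ := O2_pt_of_lin X
    (β.τ.injective (by rw [h1, O2_map_one, map_one, map_one]))
    fun a b => β.τ.injective (by rw [map_mul β.τ, h1, h1, h1, β.O2_mul, map_mul])
  exact ⟨y, fun i => by rw [← O2_evA_ebO, hy, hX, hx]⟩

end BC

end Pool.Agent.E6b

end

section
open scoped NNReal TensorProduct IntermediateField BigOperators Classical Topology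
open Filter

namespace Pool.Agent.E6b
variable {κ F : Type} [Field κ] [IsAlgClosed κ] [CharZero κ] [Field F] [Algebra κ F] [IsFF κ F]
  {o : Place κ F} {Ω Ω' : Type} [Field Ω] [IsAlgClosed Ω] [CharZero Ω] [Algebra κ Ω]
  [Field Ω'] [IsAlgClosed Ω'] [CharZero Ω'] [Algebra κ Ω']

/-- a semilinear endomorphism fixing the basis acts on the coordinates -/
theorem O2_fhom (φ : FHom κ F F) (h : ∀ i, φ.f (eb o i) = eb o i) (a : AA o) :
    ∃ a' : AA o, (a' : F) = φ.f a ∧ ∀ k, φ.c ((eb o).repr a k) = (eb o).repr a' k := by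
  refine O2_ind (eb o)
    (Q := fun a => ∃ a' : AA o, (a' : F) = φ.f a ∧ ∀ k, φ.c ((eb o).repr a k) = (eb o).repr a' k)
    ⟨0, by simp, by simp⟩ ?_ (fun c i => ⟨φ.c c • eb o i, ?_, fun k => ?_⟩) a
  · rintro x y ⟨x', hx, hx'⟩ ⟨y', hy, hy'⟩
    exact ⟨x' + y', by simp [hx, hy], fun k => by simp [hx', hy']⟩
  · rw [Subalgebra.coe_smul, Subalgebra.coe_smul, Algebra.smul_def, Algebra.smul_def, map_mul,
      φ.comm, h]
  · rw [map_smul, map_smul, Finsupp.smul_apply, Finsupp.smul_apply, Module.Basis.repr_self,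
      Finsupp.single_apply]
    split_ifs <;> simp

end Pool.Agent.E6b

end

section
open scoped NNReal TensorProduct IntermediateField BigOperators Classical Topology
open Filter
set_option linter.unusedSectionVars false

namespace Pool.Agent.E6b
variable {κ F : Type} [Field κ] [IsAlgClosed κ] [CharZero κ] [Field F] [Algebra κ F] [IsFF κ F]
  {o : Place κ F} {Ω Ω' Ω'' : Type} [Field Ω] [IsAlgClosed Ω] [CharZero Ω] [Algebra κ Ω]
  [Field Ω'] [IsAlgClosed Ω'] [CharZero Ω'] [Algebra κ Ω']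
  [Field Ω''] [IsAlgClosed Ω''] [CharZero Ω''] [Algebra κ Ω'']

/-- a ring homomorphism which respects the multiplication table of `eb` gives a base change -/
theorem exists_bc_of_table (τ : Ω →+* Ω')
    (h : ∀ i j k, τ (algebraMap κ Ω ((eb o).repr (eb o i * eb o j) k)) =
      algebraMap κ Ω' ((eb o).repr (eb o i * eb o j) k)) : ∃ β : BC o Ω Ω', β.τ = τ :=
  O2_exists_bc τ h

/-- the curve is defined over a finitely generated field -/
theorem exists_bc_finset (o : Place κ F) : ∃ S : Finset κ, ∀ (Ω Ω' : Type) [Field Ω] [IsAlgClosed Ω]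
    [CharZero Ω] [Algebra κ Ω] [Field Ω'] [IsAlgClosed Ω'] [CharZero Ω'] [Algebra κ Ω']
    (τ : Ω →+* Ω'), Fx (S : Set κ) τ → ∃ β : BC o Ω Ω', β.τ = τ := by
  obtain ⟨S, hS⟩ := O2_table_finset o
  refine ⟨S, fun Ω Ω' _ _ _ _ _ _ _ _ τ hτ => O2_exists_bc τ ?_⟩
  exact hS (RingHom.eqLocus (τ.comp (algebraMap κ Ω)) (algebraMap κ Ω')) hτ

/-- linear base change -/
noncomputable def bc (o : Place κ F) (τ : Ω →ₐ[κ] Ω') : BC o Ω Ω' :=
  (exists_bc_of_table (o := o) (τ : Ω →+* Ω') fun _ _ _ => τ.commutes _).choose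

theorem bc_τ (τ : Ω →ₐ[κ] Ω') : (bc o τ).τ = (τ : Ω →+* Ω') :=
  (exists_bc_of_table (o := o) (τ : Ω →+* Ω') fun _ _ _ => τ.commutes _).choose_spec

theorem bc_iF (τ : Ω →ₐ[κ] Ω') (a : AA o) : (bc o τ).φ (iF o Ω a) = iF o Ω' a :=
  (bc o τ).O2_phi_iF fun k => by
    rw [bc_τ]
    exact τ.commutes _

theorem O2_jF_div (a s : AA o) :
    jF o Ω (algebraMap (AA o) F a / algebraMap (AA o) F s) = iF o Ω a / iF o Ω s := by
  obtain ⟨ψ, hψ⟩ := exists_jF_hom (o := o) (Ω := Ω)
  rw [← hψ, map_div₀, hψ, hψ]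
  exact congrArg₂ _ (jF_coe a) (jF_coe s)

theorem bc_jF (τ : Ω →ₐ[κ] Ω') (f : F) : (bc o τ).φ (jF o Ω f) = jF o Ω' f := by
  obtain ⟨a, s, -, rfl⟩ := IsFractionRing.div_surjective (AA o) f
  rw [O2_jF_div, O2_jF_div, map_div₀, bc_iF, bc_iF]

/-- a semilinear automorphism of `F` fixing the basis is a base change -/
theorem exists_bc_of_fhom (φ : FHom κ F F) (h : ∀ i, φ.f (eb o i) = eb o i) :
    ∃ β : BC o κ κ, (∀ x, β.τ x = φ.c x) ∧ (∀ f, β.φ ((jK o).f f) = (jK o).f (φ.f f)) ∧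
      ∀ P : PO o κ, φ.res ((jK o).res (β.plc P)) = (jK o).res P := by
  obtain ⟨β, hβ⟩ := O2_exists_bc (o := o) (Ω := κ) (Ω' := κ) (φ.c : κ →+* κ) fun i j k => by
    obtain ⟨a', h1, h2⟩ := O2_fhom φ h (eb o i * eb o j)
    have h3 : a' = eb o i * eb o j := Subtype.ext (by
      rw [h1, Subalgebra.coe_mul, map_mul, h, h])
    rw [h3] at h2
    exact h2 k
  have h1 : ∀ a : AA o, β.φ ((jK o).f a) = (jK o).f (φ.f a) := fun a => by
    obtain ⟨a', h1, h2⟩ := O2_fhom φ h a
    rw [← h1, jK_f, jK_f, jF_coe, jF_coe]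
    exact β.O2_phi_iF fun k => by rw [hβ]; exact h2 k
  have h2 : ∀ f, β.φ ((jK o).f f) = (jK o).f (φ.f f) := fun f => by
    obtain ⟨a, s, -, rfl⟩ := IsFractionRing.div_surjective (AA o) f
    rw [map_div₀, map_div₀, map_div₀, map_div₀]
    exact congrArg₂ _ (h1 a) (h1 s)
  refine ⟨β, fun x => by rw [hβ]; rfl, h2, fun P => Place.ext (ValuationSubring.ext _ _ fun f => ?_)⟩
  rw [← φ.map_mem_iff, ← (jK o).map_mem_iff, ← (jK o).map_mem_iff, ← h2, Place.mem_iff,
    Place.mem_iff, β.ord_plc]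

end Pool.Agent.E6b

end

section
open scoped NNReal TensorProduct IntermediateField BigOperators Classical Topology
open Filter

namespace Pool.Agent.E6b
variable {κ F : Type} [Field κ] [IsAlgClosed κ] [CharZero κ] [Field F] [Algebra κ F] [IsFF κ F]
  {o : Place κ F} {Ω : Type} [Field Ω] [IsAlgClosed Ω] [CharZero Ω] [Algebra κ Ω]
  {ι ι' : Type} [Fintype ι] [Fintype ι']

theorem exists_dv_of_clz_eq_zero {z : ι → Pt o Ω} (h : clz z = 0) : ∃ f : AO o Ω, f ≠ 0 ∧
    dv Ω (algebraMap _ (FO o Ω) f) = dz z - (Fintype.card ι : ℤ) • pd (oo o Ω) := by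
  have h1 : LinEq ((Fintype.card ι : ℤ) • pd (oo o Ω)) (dz z) := by
    refine (clD_eq_iff_of_deg ?_).1 ?_
    · rw [deg_zsmul, deg_pd, deg_dz, mul_one]
    · rw [map_zsmul, clD_oo, smul_zero]; exact h.symm
  obtain ⟨t, ht, h2⟩ := h1
  have h3 := eq_sub_of_add_eq' h2.symm
  obtain ⟨f, rfl⟩ : t ∈ (algebraMap (AO o Ω) (FO o Ω)).range := by
    refine mem_range_iff.2 fun P hP => ?_
    obtain ⟨y, rfl⟩ := (eq_oo_or_plc P).resolve_left hP
    rw [Place.mem_iff, ← dv_apply, h3, O3_apply_plc]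
    exact dz_nonneg z _
  exact ⟨f, fun h0 => ht (by rw [h0, map_zero]), h3⟩

end Pool.Agent.E6b

end

section
open scoped NNReal TensorProduct IntermediateField BigOperators Classical Topology
open Filter

namespace Pool.Agent.E6b
variable {κ F : Type} [Field κ] [IsAlgClosed κ] [CharZero κ] [Field F] [Algebra κ F] [IsFF κ F]
  {o : Place κ F} {Ω : Type} [Field Ω] [IsAlgClosed Ω] [CharZero Ω] [Algebra κ Ω] (O : VS κ Ω)

theorem L1_li {R M ι : Type} [Ring R] [AddCommGroup M] [Module R M] {v w : ι → M}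
    (h : LinearIndependent R v) (e : ∀ i, v i = w i) : LinearIndependent R w :=
  funext e ▸ h

theorem L1_basis (n : ℕ) (V : Type) [AddCommGroup V] [Module Ω V] [Module.Finite Ω V]
    (ψ : V →ₗ[Ω] AO o Ω) (hψ : Function.Injective ψ) (hn : n ≤ Module.finrank Ω V) :
    ∃ b : Fin n → V, (∀ i, gvA O (ψ (b i)) ≤ 1) ∧
      LinearIndependent (RF O) fun i => redA O (ψ (b i)) := by
  induction n generalizing V with
  | zero => exact ⟨Fin.elim0, fun i => i.elim0, linearIndependent_empty_type⟩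
  | succ n ih =>
    have : Nontrivial V := (Module.finrank_pos_iff (R := Ω)).1 (by omega)
    obtain ⟨v, hv⟩ := exists_ne (0 : V)
    have hv' := (map_ne_zero_iff _ hψ).2 hv
    obtain ⟨c, g, h1, e⟩ := L1_norm O hv'
    have hc : c ≠ 0 := fun h => hv' (by rw [e, h, zero_smul])
    have e' : ψ (c⁻¹ • v) = g := by rw [map_smul, e, inv_smul_smul₀ hc]
    obtain ⟨j, hj⟩ : ∃ j, (ebO o (RF O)).repr (redA O g) j ≠ 0 := by
      by_contra! h
      exact (L1_red1 O h1.le).2 h1 ((ebO o (RF O)).ext_elem fun i => by simp [h])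
    have h2 := ((ebO o Ω).coord j ∘ₗ ψ).finrank_range_add_finrank_ker
    have h3 := (LinearMap.range ((ebO o Ω).coord j ∘ₗ ψ)).finrank_le
    rw [Module.finrank_self] at h3
    obtain ⟨b, h4, h5⟩ := ih (LinearMap.ker ((ebO o Ω).coord j ∘ₗ ψ)) (ψ ∘ₗ Submodule.subtype _)
      (hψ.comp Subtype.val_injective) (by omega)
    refine ⟨Fin.cons (c⁻¹ • v) fun i => b i, Fin.cases (e' ▸ h1.le) h4, ?_⟩
    have h6 : Submodule.span (RF O) (Set.range fun i => redA O (ψ (b i))) ≤
        LinearMap.ker ((ebO o (RF O)).coord j) := Submodule.span_le.2 (by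
      rintro _ ⟨i, rfl⟩
      refine (repr_redA O _ j).trans ((congrArg (rs O) (b i).2).trans ?_)
      simpa using rs_algebraMap O 0)
    have h7 := linearIndependent_finCons.2 ⟨h5, fun h => hj (h6 h)⟩
    exact L1_li h7 (Fin.cases (congrArg (redA O) e'.symm) fun _ => rfl)

/-- a finite dimensional subspace has a basis with independent residues -/
theorem exists_gbasis (V : Submodule Ω (FO o Ω)) [Module.Finite Ω V] :
    ∃ b : Fin (Module.finrank Ω V) → FO o Ω, (∀ i, b i ∈ V ∧ gv O o (b i) = 1) ∧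
      LinearIndependent (RF O) fun i => gr O (b i) := by
  let e := Module.finBasis Ω V
  obtain ⟨s, hs⟩ := IsLocalization.exist_integer_multiples_of_finite (nonZeroDivisors (AO o Ω))
    fun i => (e i : FO o Ω)
  choose a ha using hs
  obtain ⟨c, hc, ht⟩ := exists_smul_gv_eq_one O ((map_ne_zero_iff _
    (IsFractionRing.injective (AO o Ω) (FO o Ω))).2 (nonZeroDivisors.ne_zero s.2))
  set t := c • algebraMap (AO o Ω) (FO o Ω) s with ht'
  have h0 : t ≠ 0 := fun h => by simp [h] at ht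
  have hψ : ∀ v : V, algebraMap _ (FO o Ω) (e.constr Ω (fun i => c • a i) v) = t * v := by
    have : (IsScalarTower.toAlgHom Ω (AO o Ω) (FO o Ω)).toLinearMap ∘ₗ
        e.constr Ω (fun i => c • a i) = LinearMap.mulLeft Ω t ∘ₗ V.subtype := e.ext fun i => by
      change algebraMap _ (FO o Ω) (e.constr Ω (fun i => c • a i) (e i)) = t * e i
      rw [e.constr_basis, L1_alg, ha, ht', Algebra.smul_def c, Algebra.smul_def, mul_assoc]
    exact LinearMap.congr_fun this
  obtain ⟨b, h1, h2⟩ := L1_basis O _ V (e.constr Ω fun i => c • a i) (fun v w h =>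
    Subtype.ext (mul_left_cancel₀ h0 (by rw [← hψ, ← hψ, h]))) le_rfl
  have h3 : ∀ i, gv O o (b i) ≤ 1 := fun i => by
    have := (gv_AO O _).trans_le (h1 i)
    rwa [hψ, map_mul, ht, one_mul] at this
  have h4 : LinearIndependent (RF O) fun i => gr O (b i : FO o Ω) := by
    refine .of_comp (LinearMap.mulLeft (RF O) (gr O t)) ?_
    have h5 := h2.map' (IsScalarTower.toAlgHom (RF O) _ (FO o (RF O))).toLinearMap
      (LinearMap.ker_eq_bot.2 (IsFractionRing.injective _ _))
    refine L1_li h5 fun i => ?_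
    exact (gr_AO O (h1 i)).symm.trans ((congrArg _ (hψ _)).trans (gr_mul O ht.le (h3 i)))
  exact ⟨fun i => b i, fun i => ⟨(b i).2, le_antisymm (h3 i) (not_lt.1 fun h =>
    h4.ne_zero i ((gr_eq_zero_iff O (h3 i)).2 h))⟩, h4⟩

end Pool.Agent.E6b

end

section
open scoped NNReal TensorProduct IntermediateField BigOperators Classical Topology
open Filter

namespace Pool.Agent.E6b
variable {κ F : Type} [Field κ] [IsAlgClosed κ] [CharZero κ] [Field F] [Algebra κ F] [IsFF κ F]
  {o : Place κ F} {Ω : Type} [Field Ω] [IsAlgClosed Ω] [CharZero Ω] [Algebra κ Ω] (O : VS κ Ω)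

theorem dsD_dz (P : PO o Ω) {ι : Type} [Fintype ι] (z : ι → Pt o Ω) :
    dsD O P (dz z) = ∏ a, ds O P (plc (z a)) := L3_dsD_sum O P _ _

end Pool.Agent.E6b

end

section
open scoped NNReal TensorProduct IntermediateField BigOperators Classical Topology
open Filter

namespace Pool.Agent.E6b
variable {κ F : Type} [Field κ] [IsAlgClosed κ] [CharZero κ] [Field F] [Algebra κ F] [IsFF κ F]
  {o : Place κ F} {Ω : Type} [Field Ω] [IsAlgClosed Ω] [CharZero Ω] [Algebra κ Ω] (O : VS κ Ω)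
  {ι ι' : Type} [Fintype ι] [Fintype ι']

theorem Det_ne_zero_iff (z : ι → Pt o Ω) (hz : Function.Injective z)
    (hι : genus κ F ≤ Fintype.card ι) : Det z ≠ 0 ↔ Th (clz z) := by
  rw [clz, ← L5_th hι (dz_nonneg z) (deg_dz z), ← L5_Det, Ne, ← Matrix.exists_mulVec_eq_zero_iff]
  have key : ∀ c : ι → Ω, ∑ i, c i • iF o Ω (eb o (Fintype.equivFin ι i)) ∈
      LL (((Fintype.card ι : ℤ) + genus κ F - 1) • pd (oo o Ω) - dz z) ↔
      (Matrix.of fun a i => (plc (z a)).ev (iF o Ω (eb o (Fintype.equivFin ι i)))).mulVec c = 0 := by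
    intro c
    have hm : ∀ a i, c i • iF o Ω (eb o (Fintype.equivFin ι i)) ∈ (plc (z a)).O := fun a i =>
      L5_mem (L5_oo _ _) (Submodule.smul_mem _ _ (L5_span ι hι i))
    rw [dz, L5_mem_sub (z := fun a => plc (z a)) (plc_injective.comp hz) (fun a => L5_oo _ _)
      (Submodule.sum_mem _ fun i _ => Submodule.smul_mem _ _ (L5_span ι hι i)), funext_iff]
    refine forall_congr' fun a => ?_
    rw [Place.ev_sum _ _ _ fun i _ => hm a i]
    simp only [Matrix.mulVec, dotProduct, Matrix.of_apply, Pi.zero_apply]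
    rw [Finset.sum_congr rfl fun i _ => (Place.ev_smul _ (c i) (plc_iF (z a) _).1).trans
      (mul_comm _ _)]
  simp only [key]
  exact ⟨fun h c hc => by_contra fun h0 => h ⟨c, h0, hc⟩, fun h ⟨c, h0, hc⟩ => h0 (h c hc)⟩

end Pool.Agent.E6b

end

section
open scoped NNReal TensorProduct IntermediateField BigOperators Classical Topology
open Filter

namespace Pool.Agent.E6b
variable {κ F : Type} [Field κ] [IsAlgClosed κ] [CharZero κ] [Field F] [Algebra κ F] [IsFF κ F]
  {o : Place κ F} {Ω Ω' : Type} [Field Ω] [IsAlgClosed Ω] [CharZero Ω] [Algebra κ Ω]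
  [Field Ω'] [IsAlgClosed Ω'] [CharZero Ω'] [Algebra κ Ω'] {ι ι' ι'' : Type} [Fintype ι]
  [Fintype ι'] [Fintype ι'']

theorem P3_ds_ne (O : VS κ Ω) (y : Pt o Ω) : ds O (plc y) (oo o Ω) ≠ 0 := fun h =>
  plc_ne_oo y ((ds_eq_zero_iff O).1 h)

theorem P3_dsD_sum (O : VS κ Ω) (P : PO o Ω) {σ : Type} (s : Finset σ) {D : σ → DO o Ω}
    (hD : ∀ i, 0 ≤ D i) : dsD O P (∑ i ∈ s, D i) = ∏ i ∈ s, dsD O P (D i) := by
  induction s using Finset.induction_on with
  | empty => simpa using dsD_zero O P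
  | insert a s ha ih =>
    rw [Finset.sum_insert ha, Finset.prod_insert ha,
      dsD_add_of_nonneg O P (hD a) (Finset.sum_nonneg fun i _ => hD i), ih]

end Pool.Agent.E6b

end

section
open scoped NNReal TensorProduct IntermediateField BigOperators Classical Topology
open Filter

namespace Pool.Agent.E6b
variable {κ F F' E : Type} [Field κ] [IsAlgClosed κ] [CharZero κ] [Field F] [Algebra κ F] [IsFF κ F]
  [Field F'] [Algebra κ F'] [IsFF κ F'] [Field E] [Algebra κ E] [IsFF κ E]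

/-- bounded solutions of a linear system -/
theorem ker_bounded {m n : Type} [Fintype m] [Fintype n] (A : Matrix m n F') {M : Dv κ F'}
    (hM : 0 ≤ M) (hA : ∀ i j, A i j ∈ LL M) {Ω : Type} [Field Ω] [Algebra F' Ω] (v : n → Ω)
    (hv : ∀ i, ∑ j, algebraMap F' Ω (A i j) * v j = 0) {j₀ : n} (h0 : v j₀ ≠ 0) :
    ∃ w : n → F', (∀ i, ∑ j, A i j * w j = 0) ∧ w j₀ ≠ 0 ∧
      ∀ j, w j ∈ LL (Fintype.card m • M) := by
  obtain ⟨φ, hφ⟩ := not_forall.1 (mt (Module.forall_dual_apply_eq_zero_iff F' (v j₀)).1 h0)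
  have h1 : ∀ i, ∑ j, A i j * φ (v j) = 0 := fun i => by
    have h := congrArg φ (hv i)
    rw [map_sum, map_zero] at h
    simpa only [← Algebra.smul_def, map_smul, smul_eq_mul] using h
  let c : n → m → F' := fun j i => if j = j₀ then 0 else A i j
  have hs : ∀ (i : m) (z : n → F'), ∑ j, A i j * z j = A i j₀ * z j₀ + ∑ j, z j * c j i := by
    intro i z
    rw [← Finset.add_sum_erase _ _ (Finset.mem_univ j₀),
      ← Finset.add_sum_erase _ (fun j => z j * c j i) (Finset.mem_univ j₀)]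
    simp only [c, if_pos, mul_zero, zero_add]
    congr 1
    exact Finset.sum_congr rfl fun j hj => by rw [if_neg (Finset.ne_of_mem_erase hj), mul_comm]
  obtain ⟨T, hT, -, δ, hδ, hδT, h⟩ := K5_cramer c (fun _ => M) fun j i => by
    simp only [c]
    split_ifs
    · exact Submodule.zero_mem _
    · exact hA i j
  have hT' := LL_mono (hT M hM fun _ => le_rfl)
  have hy : (fun i => A i j₀) ∈ Submodule.span F' (Set.range c) := by
    have e : (fun i => A i j₀) = ∑ j, (-(φ (v j₀))⁻¹ * φ (v j)) • c j := by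
      ext i
      have h2 := (hs i fun j => φ (v j)).symm.trans (h1 i)
      simp only [Finset.sum_apply, Pi.smul_apply, smul_eq_mul, mul_assoc, ← Finset.mul_sum]
      rw [eq_neg_of_add_eq_zero_right h2]
      field_simp
    rw [e]
    exact Submodule.sum_mem _ fun j _ => Submodule.smul_mem _ _ (Submodule.subset_span ⟨j, rfl⟩)
  obtain ⟨w, hw, hw'⟩ := h _ hy M fun i => hA i j₀
  refine ⟨Function.update w j₀ (-δ), fun i => ?_, by simpa using hδ, fun j => hT' ?_⟩
  · have h2 := congrFun hw i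
    simp only [Finset.sum_apply, Pi.smul_apply, smul_eq_mul] at h2
    have h3 : ∑ j, Function.update w j₀ (-δ) j * c j i = ∑ j, w j * c j i :=
      Finset.sum_congr rfl fun j _ => by
        by_cases hj : j = j₀
        · simp [c, hj]
        · rw [Function.update_of_ne hj]
    rw [hs, h3, h2, Function.update_self]
    ring
  · by_cases hj : j = j₀
    · rw [hj, Function.update_self]
      exact Submodule.neg_mem _ hδT
    · rw [Function.update_of_ne hj]
      simpa using hw' j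

end Pool.Agent.E6b

end

section
open scoped NNReal TensorProduct IntermediateField BigOperators Classical Topology
open Filter

namespace Pool.Agent.E6b

section
variable {κ F' E : Type} [Field κ] [IsAlgClosed κ] [CharZero κ] [Field F'] [Algebra κ F']
  [IsFF κ F'] [Field E] [Algebra κ E] [IsFF κ E]
variable (o : Place κ E) (Ω : Type) [Field Ω] [IsAlgClosed Ω] [CharZero Ω] [Algebra κ Ω]

/-- base change of divisors -/
noncomputable def K6_hat : Dv κ E →+ DO o Ω :=
  (bc o (Algebra.ofId κ Ω)).dv.comp (jK o).F4_pullHom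
variable {o Ω}

theorem K6_hat_apply (N : Dv κ E) :
    K6_hat o Ω N = (bc o (Algebra.ofId κ Ω)).dv ((jK o).pull N) := rfl

theorem K6_hat_pd (Q : PO o κ) :
    K6_hat o Ω (pd ((jK o).res Q)) = pd ((bc o (Algebra.ofId κ Ω)).plc Q) := by
  rw [K6_hat_apply, FHom.pull_pd _ jK_surj, BC.dv_pd]

theorem K6_deg_hat (N : Dv κ E) : deg (K6_hat o Ω N) = deg N := by
  rw [K6_hat_apply, BC.deg_dv, FHom.deg_pull, (FHom.deg_eq_one_iff _).2 jK_surj]
  simp

theorem K6_phi (u : E) : (bc o (Algebra.ofId κ Ω)).φ ((jK o).f u) = O1_j o Ω u := by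
  rw [jK_f, bc_jF, O1_jF]

theorem K6_hat_zero {P : PO o Ω} (hP : P ∉ Set.range (bc o (Algebra.ofId κ Ω)).plc)
    (N : Dv κ E) : K6_hat o Ω N P = 0 := BC.O2_dv_zero _ _ hP

theorem K6_indep {ι : Type} [Fintype ι] {u : ι → E} (hu : LinearIndependent κ u) :
    LinearIndependent Ω fun i => O1_j o Ω (u i) := by
  have h1 : LinearIndependent κ fun i => O1_j o κ (u i) :=
    hu.map' (O1_j o κ).toLinearMap (LinearMap.ker_eq_bot.2 (O1_j o κ).injective)
  have h2 := (bc o (Algebra.ofId κ Ω)).O2_indep_phi h1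
  simpa only [O1_jF, bc_jF] using h2
variable [Algebra F' Ω] [IsScalarTower κ F' Ω]

variable (o Ω F') in
/-- the generic fibre -/
noncomputable def K6_th : F' ⊗[κ] E →ₐ[κ] FO o Ω :=
  Algebra.TensorProduct.lift
    ((IsScalarTower.toAlgHom κ Ω (FO o Ω)).comp (IsScalarTower.toAlgHom κ F' Ω)) (O1_j o Ω)
    fun _ _ => Commute.all _ _

theorem K6_th_tmul (c : F') (u : E) :
    K6_th F' o Ω (c ⊗ₜ[κ] u) = algebraMap F' Ω c • O1_j o Ω u := by
  rw [K6_th, Algebra.TensorProduct.lift_tmul, Algebra.smul_def]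
  rfl

theorem K6_th_smul (c : F') (G : F' ⊗[κ] E) :
    K6_th F' o Ω (c • G) = algebraMap F' Ω c • K6_th F' o Ω G := by
  have h : c • G = (c ⊗ₜ[κ] 1) * G := by
    rw [Algebra.smul_def]; rfl
  rw [h, map_mul, K6_th_tmul, map_one, smul_mul_assoc, one_mul]

theorem K6_th_ne {G : F' ⊗[κ] E} (h : G ≠ 0) : K6_th F' o Ω G ≠ 0 := by
  obtain ⟨ι, _, u, c, hu, hc, rfl⟩ := K4_rep G
  intro h0
  simp only [map_sum, K6_th_tmul] at h0
  have h1 := Fintype.linearIndependent_iff.1 (K6_indep (o := o) (Ω := Ω) hu) _ h0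
  exact h (Finset.sum_eq_zero fun i _ => absurd ((map_eq_zero _).1 (h1 i)) (hc i))

theorem K6_dv_smul {c : F'} (hc : c ≠ 0) (G : F' ⊗[κ] E) :
    dv Ω (K6_th F' o Ω (c • G)) = dv Ω (K6_th F' o Ω G) := by
  ext P
  rw [dv_apply, dv_apply, K6_th_smul, P.ord_smul ((map_ne_zero _).2 hc)]

/-- bounded rational solutions -/
theorem K6_ker {M : Dv κ F'} {N : Dv κ E} (hM : 0 ≤ M) {n : Type} [Fintype n]
    (T : n → F' ⊗[κ] E) (hT : ∀ j, T j ∈ LT2 M N) (v : n → Ω)
    (hv : ∑ j, v j • K6_th F' o Ω (T j) = 0) {j₀ : n} (h0 : v j₀ ≠ 0) :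
    ∃ w : n → F', ∑ j, w j • T j = 0 ∧ w j₀ ≠ 0 ∧ ∀ j, w j ∈ LL (ell N • M) := by
  obtain ⟨u, hi, hu⟩ := exists_basis_LL N
  choose c hc hc' using fun j => (mem_LT2_iff hu).1 (hT j)
  have h1 : ∑ i, (∑ j, algebraMap F' Ω (c j i) * v j) • O1_j o Ω (u i) = 0 := by
    rw [← hv]
    simp only [hc', map_sum, K6_th_tmul, Finset.sum_smul, Finset.smul_sum, smul_smul]
    rw [Finset.sum_comm]
    simp only [mul_comm]
  obtain ⟨w, hw, hw0, hw1⟩ := ker_bounded (Matrix.of fun i j => c j i) hM (fun i j => hc j i) v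
    (Fintype.linearIndependent_iff.1 (K6_indep (o := o) (Ω := Ω) hi) _ h1) h0
  refine ⟨w, ?_, hw0, by simpa using hw1⟩
  simp only [hc', K4_smul_sum]
  rw [Finset.sum_comm]
  refine Finset.sum_eq_zero fun i _ => ?_
  have h2 := hw i
  simp only [Matrix.of_apply] at h2
  rw [← TensorProduct.sum_tmul]
  simp only [mul_comm (w _), h2, TensorProduct.zero_tmul]

end

end Pool.Agent.E6b

end

section
open scoped NNReal TensorProduct IntermediateField BigOperators Classical Topology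
open Filter

namespace Pool.Agent.E6b

section
variable {κ F' E : Type} [Field κ] [IsAlgClosed κ] [CharZero κ] [Field F'] [Algebra κ F']
  [IsFF κ F'] [Field E] [Algebra κ E] [IsFF κ E]
  {o : Place κ E} {Ω : Type} [Field Ω] [IsAlgClosed Ω] [CharZero Ω] [Algebra κ Ω]
  [Algebra F' Ω] [IsScalarTower κ F' Ω]

variable (o Ω) in
/-- divisor of zeros on the generic fibre -/
noncomputable def K6_Z (N : Dv κ E) (G : F' ⊗[κ] E) : DO o Ω :=
  K6_hat o Ω N + dv Ω (K6_th F' o Ω G)

theorem K6_deg_Z (N : Dv κ E) (G : F' ⊗[κ] E) : deg (K6_Z o Ω N G) = deg N := by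
  rw [K6_Z, deg_add, deg_dv, add_zero, K6_deg_hat]

end

end Pool.Agent.E6b

end

section
open scoped NNReal TensorProduct IntermediateField BigOperators Classical Topology
open Filter

namespace Pool.Agent.E6b
variable {F : Type} [Field F] [Algebra Qb F] [IsFF Qb F] (A : GAct F)

theorem TV_pt {o P : Place Qb F} (h : P ≠ o) : ∃ y : Pt o Qb, (jK o).res (plc y) = P := by
  obtain ⟨R, rfl⟩ := (jK o).res_surj P
  rcases eq_oo_or_plc R with rfl | ⟨y, rfl⟩
  · exact absurd jK_res_oo h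
  · exact ⟨y, rfl⟩

end Pool.Agent.E6b

end
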