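import Pool.Agent.E6c.A19
import Pool.Agent.E6c.A21
import Pool.Agent.E6c.A26
import Pool.Agent.E6c.A27

section
open scoped NNReal TensorProduct IntermediateField BigOperators Classical Topology
open Filter

namespace Pool.Agent.E6b
variable {κ F : Type} [Field κ] [IsAlgClosed κ] [CharZero κ] [Field F] [Algebra κ F] [IsFF κ F]
  {o : Place κ F} {Ω Ω' : Type} [Field Ω] [IsAlgClosed Ω] [CharZero Ω] [Algebra κ Ω]
  [Field Ω'] [IsAlgClosed Ω'] [CharZero Ω'] [Algebra κ Ω']

namespace BC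
variable (β : BC o Ω Ω')

theorem O2_spec : β.plc (oo o Ω) = oo o Ω' ∧
    (∀ y, ∃ y', E6b.plc y' = β.plc (E6b.plc y) ∧ ∀ i, y' (eb o i) = β.τ (y (eb o i))) ∧
    ∀ P' ∉ Set.range β.plc, ∀ f, P'.ord (β.φ f) = 0 := by
  obtain ⟨g, h0, h3, h1, h2⟩ := β.O2_exists_g
  have h : β.plc = g := funext fun P => β.O2_unique (fun f => (β.O2_ord P f).1) (h1 P)
  rw [h]
  exact ⟨h0, fun y => (h3 y).imp fun _ h => ⟨h.1.symm, h.2⟩, h2⟩

end BC

end Pool.Agent.E6b

end

section
open scoped NNReal TensorProduct IntermediateField BigOperators Classical Topology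
open Filter
set_option linter.unusedSectionVars false

namespace Pool.Agent.E6b
variable {κ F : Type} [Field κ] [IsAlgClosed κ] [CharZero κ] [Field F] [Algebra κ F] [IsFF κ F]
  {o : Place κ F} {Ω Ω' Ω'' : Type} [Field Ω] [IsAlgClosed Ω] [CharZero Ω] [Algebra κ Ω]
  [Field Ω'] [IsAlgClosed Ω'] [CharZero Ω'] [Algebra κ Ω']
  [Field Ω''] [IsAlgClosed Ω''] [CharZero Ω''] [Algebra κ Ω'']

namespace BC
variable (β : BC o Ω Ω')

theorem plc_oo : β.plc (oo o Ω) = oo o Ω' :=
  β.O2_spec.1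

theorem plc_plc (y : Pt o Ω) : β.plc (E6b.plc y) = E6b.plc (β.pt y) := by
  have h : ∃ y', E6b.plc y' = β.plc (E6b.plc y) := (β.O2_spec.2.1 y).imp fun _ h => h.1
  rw [pt, dif_pos h]
  exact h.choose_spec.symm

theorem pt_eb (y : Pt o Ω) (i : ℕ) : β.pt y (eb o i) = β.τ (y (eb o i)) := by
  obtain ⟨y', h1, h2⟩ := β.O2_spec.2.1 y
  rw [← h2, E6b.plc_injective (h1.trans (β.plc_plc y))]

theorem ord_eq_zero {P : PO o Ω'} (hP : P ∉ Set.range β.plc) (f : FO o Ω) : P.ord (β.φ f) = 0 :=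
  β.O2_spec.2.2 P hP f

theorem dv_dv (f : FO o Ω) : β.dv (E6b.dv Ω f) = E6b.dv Ω' (β.φ f) := by
  ext P
  by_cases hP : P ∈ Set.range β.plc
  · obtain ⟨Q, rfl⟩ := hP
    rw [β.dv_apply, E6b.dv_apply, E6b.dv_apply, β.ord_plc]
  · rw [β.O2_dv_zero _ hP, E6b.dv_apply, β.ord_eq_zero hP]

theorem dv_le_iff {D E : DO o Ω} : β.dv D ≤ β.dv E ↔ D ≤ E := by
  constructor
  · intro h P
    rw [← β.dv_apply D, ← β.dv_apply E]
    exact h _
  · intro h P
    by_cases hP : P ∈ Set.range β.plc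
    · obtain ⟨Q, rfl⟩ := hP
      rw [β.dv_apply, β.dv_apply]
      exact h Q
    · rw [β.O2_dv_zero _ hP, β.O2_dv_zero _ hP]

theorem map_mem_LL {D : DO o Ω} {f : FO o Ω} : β.φ f ∈ LL (β.dv D) ↔ f ∈ LL D := by
  by_cases hf : f = 0
  · rw [hf, map_zero]
    exact iff_of_true (zero_mem _) (zero_mem _)
  · rw [mem_LL_iff hf, mem_LL_iff ((map_ne_zero β.φ).2 hf), ← β.dv_dv, ← map_add,
      ← β.dv_le_iff, map_zero]

theorem O2_span_le (D : DO o Ω) :
    Submodule.span Ω' (β.φ '' (LL D : Set (FO o Ω))) ≤ LL (β.dv D) :=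
  Submodule.span_le.2 fun _ ⟨_, hf, h⟩ => h ▸ β.map_mem_LL.2 hf

theorem O2_le_span (D : DO o Ω) :
    ell D ≤ Module.finrank Ω' (Submodule.span Ω' (β.φ '' (LL D : Set (FO o Ω)))) := by
  have := Submodule.finiteDimensional_of_le (β.O2_span_le D)
  have h1 := β.O2_indep_phi ((Module.finBasis Ω (LL D)).linearIndependent.map' (LL D).subtype
    (Submodule.ker_subtype _))
  have h2 : LinearIndependent Ω' fun i =>
      (⟨β.φ (Module.finBasis Ω (LL D) i), Submodule.subset_span ⟨_, Subtype.property _, rfl⟩⟩ :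
        Submodule.span Ω' (β.φ '' (LL D : Set (FO o Ω)))) :=
    LinearIndependent.of_comp (Submodule.subtype _) h1
  have h3 := h2.fintype_card_le_finrank
  rwa [Fintype.card_fin] at h3

theorem O2_ell_le (D : DO o Ω) : ell (β.dv D) ≤ ell D := by
  have h : ∀ (n : ℕ) (D : DO o Ω), 2 * (genus κ F : ℤ) - 1 ≤ deg D + n → ell (β.dv D) ≤ ell D := by
    intro n
    induction n with
    | zero =>
      intro D hD
      have h1 := rr_large (D := D) (by rw [genus_FO]; simpa using hD)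
      have h2 := rr_large (D := β.dv D) (by rw [genus_FO, β.deg_dv]; simpa using hD)
      rw [genus_FO] at h1 h2
      rw [β.deg_dv] at h2
      omega
    | succ n ih =>
      intro D hD
      have h1 := ih (D + pd (oo o Ω)) (by rw [deg_add, deg_pd]; push_cast at hD; linarith)
      have h2 := ell_add_pd_le D (oo o Ω)
      have h3 : ell (β.dv D) ≤ ell (β.dv (D + pd (oo o Ω))) :=
        ell_mono (β.dv_le_iff.2 (le_add_of_nonneg_right (Finsupp.single_nonneg.2 zero_le_one)))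
      by_cases h4 : ell D < ell (D + pd (oo o Ω))
      · have h5 := (ell_sub_pd_lt_iff (D + pd (oo o Ω)) (oo o Ω)).1
          (by rwa [add_sub_cancel_right])
        obtain ⟨f, hf, hf0, hf1⟩ := h5
        have h6 := (ell_sub_pd_lt_iff (β.dv (D + pd (oo o Ω))) (β.plc (oo o Ω))).2
          ⟨β.φ f, β.map_mem_LL.2 hf, (map_ne_zero β.φ).2 hf0, by rw [β.ord_plc, β.dv_apply, hf1]⟩
        rw [← β.dv_pd, ← map_sub, add_sub_cancel_right] at h6
        omega
      · omega
  exact h (2 * (genus κ F : ℤ) - 1 - deg D).toNat D (by omega)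

theorem ell_dv (D : DO o Ω) : ell (β.dv D) = ell D :=
  le_antisymm (β.O2_ell_le D)
    ((β.O2_le_span D).trans (Submodule.finrank_mono (β.O2_span_le D)))

theorem linEq_dv_iff {D E : DO o Ω} : LinEq (β.dv D) (β.dv E) ↔ LinEq D E := by
  constructor
  · intro h
    have h1 := h.deg
    rw [β.deg_dv, β.deg_dv] at h1
    have h2 := (h.sub (LinEq.refl (β.dv E))).ell
    rw [sub_self, ell_zero, ← map_sub, β.ell_dv] at h2
    have h3 := linEq_zero_of_ell_pos (D := D - E) (by rw [deg_sub, h1, sub_self]) (by omega)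
    simpa using h3.add (LinEq.refl E)
  · rintro ⟨f, hf, rfl⟩
    exact ⟨β.φ f, (map_ne_zero β.φ).2 hf, by rw [map_add, β.dv_dv]⟩

end BC

end Pool.Agent.E6b

end

section
open scoped NNReal TensorProduct IntermediateField BigOperators Classical Topology
open Filter

namespace Pool.Agent.E6b
variable {κ F : Type} [Field κ] [IsAlgClosed κ] [CharZero κ] [Field F] [Algebra κ F] [IsFF κ F]
  {o : Place κ F} {Ω : Type} [Field Ω] [IsAlgClosed Ω] [CharZero Ω] [Algebra κ Ω]
  {ι ι' : Type} [Fintype ι] [Fintype ι']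

theorem dz_apply (z : ι → Pt o Ω) (y : Pt o Ω) :
    dz z (plc y) = (Finset.univ.filter fun a => z a = y).card := by
  rw [dz, Finsupp.finsetSum_apply, Finset.card_filter, Nat.cast_sum]
  refine Finset.sum_congr rfl fun a _ => ?_
  rw [F1_pd_apply]
  simp [plc_injective.eq_iff]

theorem dz_eq_ind {z : ι → Pt o Ω} (hz : Function.Injective z) :
    dz z = ind (Finset.univ.image fun a => plc (z a)) := by
  rw [ind, Finset.sum_image fun a _ b _ h => hz (plc_injective h), dz]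

theorem O3_pos_iff (z : ι → Pt o Ω) (y : Pt o Ω) : 0 < dz z (plc y) ↔ ∃ a, z a = y := by
  rw [dz_apply, Nat.cast_pos, Finset.card_pos, Finset.filter_nonempty_iff]
  simp

theorem injective_of_dz_le_one {z : ι → Pt o Ω} (h : ∀ P, dz z P ≤ 1) : Function.Injective z := by
  intro a b hab
  have h1 := h (plc (z b))
  rw [dz_apply, Nat.cast_le_one, Finset.card_le_one] at h1
  exact h1 a (by simpa using hab) b (by simp)

/-- moving lemma -/
theorem exists_rep (w : Cl o Ω) (ι : Type) [Fintype ι] (hι : 2 * genus κ F ≤ Fintype.card ι)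
    {T : Set (Pt o Ω)} (hT : T.Finite) :
    ∃ z : ι → Pt o Ω, Function.Injective z ∧ (∀ a, z a ∉ T) ∧ clz z = w := by
  obtain ⟨D, rfl⟩ := clD_surj w
  have hd : deg (D + ((Fintype.card ι : ℤ) - deg D) • pd (oo o Ω)) = Fintype.card ι := by
    rw [deg_add, deg_zsmul, deg_pd]; ring
  obtain ⟨S, hS, hl⟩ := (bpf_of_large (D := D + ((Fintype.card ι : ℤ) - deg D) • pd (oo o Ω))
    (by rw [hd, genus_FO]; exact_mod_cast hι)).exists_reduced
      (insert (oo o Ω) (hT.toFinset.image plc))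
  rw [Finset.disjoint_left] at hS
  obtain ⟨z, hz⟩ := exists_dz (ι := ι) (D := ind S) (Finset.sum_nonneg fun _ _ => O3_pd_nonneg _)
    (by rw [ind_apply, if_neg fun h => hS h (Finset.mem_insert_self _ _)]) (by rw [← hl.deg, hd])
  refine ⟨z, injective_of_dz_le_one fun P => ?_, fun a ha => ?_, ?_⟩
  · rw [hz, ind_apply]; split_ifs <;> simp
  · have h1 := (O3_pos_iff z (z a)).2 ⟨a, rfl⟩
    rw [hz, ind_apply, if_neg] at h1
    · exact lt_irrefl _ h1
    · exact fun h => hS h (Finset.mem_insert_of_mem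
        (Finset.mem_image_of_mem _ (hT.mem_toFinset.2 ha)))
  · rw [clz, hz, ← hl.clD, O3_clD_add]

theorem O3_dv_eq {z : ι → Pt o Ω} (hz : Function.Injective z) {t : FO o Ω}
    (h0 : 0 ≤ (Fintype.card ι : ℤ) • pd (oo o Ω) + dv Ω t) (h : ∀ a, 0 < (plc (z a)).ord t) :
    dv Ω t = dz z - (Fintype.card ι : ℤ) • pd (oo o Ω) := by
  rw [eq_sub_iff_add_eq', eq_comm]
  refine eq_of_le_of_deg_le (fun P => ?_) ?_
  · rw [dz_eq_ind hz, ind_apply]
    split_ifs with hP
    · obtain ⟨a, -, rfl⟩ := Finset.mem_image.1 hP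
      have := h a
      rw [Finsupp.add_apply, Finsupp.smul_apply, F1_pd_apply, if_neg (plc_ne_oo _).symm, dv_apply,
        smul_zero]
      omega
    · exact h0 P
  · rw [deg_add, deg_zsmul, deg_pd, deg_dv, deg_dz]; simp

theorem O3_eff (c : Ω) :
    0 ≤ (NN o : ℤ) • pd (oo o Ω) + dv Ω (iF o Ω (wN o) - algebraMap Ω (FO o Ω) c) ∧
    ((NN o : ℤ) • pd (oo o Ω) + dv Ω (iF o Ω (wN o) - algebraMap Ω (FO o Ω) c)) (oo o Ω) = 0 := by
  have h0 : ((NN o : ℤ) • pd (oo o Ω) + dv Ω (iF o Ω (wN o) - algebraMap Ω (FO o Ω) c))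
      (oo o Ω) = 0 := by
    rw [Finsupp.add_apply, Finsupp.smul_apply, F1_pd_apply, if_pos rfl, dv_apply, O3_ord_oo]
    simp
  refine ⟨fun P => ?_, h0⟩
  rcases eq_oo_or_plc P with rfl | ⟨y, rfl⟩
  · exact h0.ge
  · rw [Finsupp.add_apply, Finsupp.smul_apply, F1_pd_apply, if_neg (plc_ne_oo _).symm, dv_apply,
      smul_zero, zero_add]
    exact (plc y).mem_iff.1 (O3_mem c y)

/-- a fibre of `wN` -/
theorem exists_fibre (c : Ω) : ∃ z : Fin (NN o) → Pt o Ω,
    dv Ω (iF o Ω (wN o) - algebraMap Ω (FO o Ω) c) = dz z - (NN o : ℤ) • pd (oo o Ω) ∧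
      (∀ l, z l (wN o) = c) ∧ (∀ y : Pt o Ω, y (wN o) = c → ∃ l, z l = y) ∧ clz z = 0 := by
  obtain ⟨z, hz⟩ := exists_dz (ι := Fin (NN o)) (O3_eff (o := o) c).1 (O3_eff c).2
    (by rw [deg_add, deg_zsmul, deg_pd, deg_dv]; simp)
  have h1 := eq_sub_of_add_eq' hz.symm
  have h2 : ∀ y : Pt o Ω, y (wN o) = c ↔ ∃ l, z l = y := fun y => by
    rw [← O3_ord_pos, ← dv_apply, h1, O3_apply_plc, O3_pos_iff]
  refine ⟨z, h1, fun l => (h2 _).2 ⟨l, rfl⟩, fun y => (h2 y).1, ?_⟩
  rw [clz, hz, map_add, map_zsmul, clD_oo, clD_dv, smul_zero, add_zero]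

theorem dv_wN_sub {c : Ω} {z : Fin (NN o) → Pt o Ω} (hz : Function.Injective z)
    (h : ∀ l, z l (wN o) = c) :
    dv Ω (iF o Ω (wN o) - algebraMap Ω (FO o Ω) c) = dz z - (NN o : ℤ) • pd (oo o Ω) := by
  have := O3_dv_eq hz (t := iF o Ω (wN o) - algebraMap Ω (FO o Ω) c)
    (by rw [Fintype.card_fin]; exact (O3_eff c).1) fun l => (O3_ord_pos c _).2 (h l)
  rwa [Fintype.card_fin] at this

end Pool.Agent.E6b

end

section
open scoped NNReal TensorProduct IntermediateField BigOperators Classical Topology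
open Filter

namespace Pool.Agent.E6b
variable {κ F : Type} [Field κ] [IsAlgClosed κ] [CharZero κ] [Field F] [Algebra κ F] [IsFF κ F]

theorem exists_PD (o : Place κ F) : Nonempty (PD o) := by
  have hB := (finite_ram (iF_wN_notMem (o := o) (Ω := κ))).image
    fun P : PO o κ => P.ev (iF o κ (wN o))
  let e := hB.infinite_compl.natEmbedding
  let c : Fin (5 * genus κ F + 1) → κ := fun i => e i
  choose q hq hq' _ using fun i => exists_fibre (o := o) (c i)
  refine ⟨⟨c, q, fun i j h => Fin.ext (e.injective (Subtype.ext h)), fun i => ?_, hq'⟩⟩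
  refine injective_of_dz_le_one fun P => ?_
  by_cases hP : P = oo o κ
  · rw [hP, dz_oo]
    exact zero_le_one
  have h1 : P.ord (iF o κ (wN o) - algebraMap κ _ (c i)) = dz (q i) P := by
    rw [← dv_apply, hq, Finsupp.sub_apply, Finsupp.smul_apply, F1_pd_apply,
      if_neg (Ne.symm hP), smul_zero, sub_zero]
  rw [← h1]
  by_contra h2
  have h3 : P.ev (iF o κ (wN o)) = c i := P.ev_eq (Or.inr (by omega))
  refine (e i).2 ⟨P, ?_, h3⟩
  rw [Set.mem_ofPred_eq, h3]
  omega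

noncomputable def pdat (o : Place κ F) : PD o := Classical.choice (exists_PD o)
variable {o : Place κ F} {Ω : Type} [Field Ω] [IsAlgClosed Ω] [CharZero Ω] [Algebra κ Ω]

/-- injective families avoiding the chosen fibres -/
def Good {Ω : Type} [Field Ω] [Algebra κ Ω] {ι : Type} (z : ι → Pt o Ω) : Prop :=
  Function.Injective z ∧ ∀ a i, z a (wN o) ≠ algebraMap κ Ω ((pdat o).c i)

theorem exists_good_rep (w : Cl o Ω) (ι : Type) [Fintype ι] (hι : 2 * genus κ F ≤ Fintype.card ι)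
    {T : Set (Pt o Ω)} (hT : T.Finite) :
    ∃ z : ι → Pt o Ω, Good z ∧ (∀ a, z a ∉ T) ∧ clz z = w := by
  have hT' := hT.union (Set.finite_iUnion fun i =>
    finite_pt_wN (o := o) (algebraMap κ Ω ((pdat o).c i)))
  obtain ⟨z, h1, h2, h3⟩ := exists_rep w ι hι hT'
  exact ⟨z, ⟨h1, fun a i h => h2 a (Or.inr (Set.mem_iUnion.2 ⟨i, h⟩))⟩,
    fun a h => h2 a (Or.inl h), h3⟩

omit [IsAlgClosed Ω] [CharZero Ω] in
theorem Good.comp {ι ι' : Type} {z : ι → Pt o Ω} (h : Good z) {e : ι' → ι}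
    (he : Function.Injective e) : Good (z ∘ e) :=
  ⟨h.1.comp he, fun a i => h.2 (e a) i⟩

omit [IsAlgClosed Ω] [CharZero Ω] in
theorem Good.elim {ι ι' : Type} {z : ι → Pt o Ω} {z' : ι' → Pt o Ω} (h : Good z) (h' : Good z')
    (hd : ∀ a b, z a ≠ z' b) : Good (Sum.elim z z') := by
  refine ⟨h.1.sumElim h'.1 hd, ?_⟩
  rintro (a | a) i
  · exact h.2 a i
  · exact h'.2 a i

end Pool.Agent.E6b

end

section
open scoped NNReal TensorProduct IntermediateField BigOperators Classical Topology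
open Filter

namespace Pool.Agent.E6b
variable {κ F : Type} [Field κ] [IsAlgClosed κ] [CharZero κ] [Field F] [Algebra κ F] [IsFF κ F]
  {o : Place κ F} {Ω : Type} [Field Ω] [IsAlgClosed Ω] [CharZero Ω] [Algebra κ Ω] (O : VS κ Ω)

theorem gr_smul {c : Ω} (hc : c ∈ O.1) {f : FO o Ω} (hf : gv O o f ≤ 1) :
    gr O (c • f) = rs O c • gr O f := by
  rw [Algebra.smul_def, Algebra.smul_def, gr_mul O
    ((gv_algebraMap O c).trans_le ((O.1.valuation_le_one_iff c).2 hc)) hf, gr_algebraMap O hc]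

end Pool.Agent.E6b

end

section
open scoped NNReal TensorProduct IntermediateField BigOperators Classical Topology
open Filter

namespace Pool.Agent.E6b
variable {κ F : Type} [Field κ] [IsAlgClosed κ] [CharZero κ] [Field F] [Algebra κ F] [IsFF κ F]
  {o : Place κ F} {Ω : Type} [Field Ω] [IsAlgClosed Ω] [CharZero Ω] [Algebra κ Ω] (O : VS κ Ω)

theorem ds_comm (P Q : PO o Ω) : ds O P Q = ds O Q P := by
  by_cases h : red O P = red O Q
  · obtain ⟨C⟩ := exists_chart O (red O P)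
    rw [C.ds_eq P Q rfl h.symm, C.ds_eq Q P h.symm rfl, Valuation.map_sub_swap]
  · rw [L3_ds_of_ne O h, L3_ds_of_ne O (Ne.symm h)]

theorem ds_le_one (P Q : PO o Ω) : ds O P Q ≤ 1 := by
  by_cases h : red O P = red O Q
  · exact (L3_ds_lt O h).le
  · exact (L3_ds_of_ne O h).le

theorem ds_eq_one_iff {P Q : PO o Ω} : ds O P Q = 1 ↔ red O P ≠ red O Q :=
  ⟨fun h h' => (L3_ds_lt O h').ne h, L3_ds_of_ne O⟩

theorem dsD_zsmul_pd (P Q : PO o Ω) (n : ℤ) : dsD O P (n • pd Q) = ds O P Q ^ n := by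
  unfold dsD pd
  rw [Finsupp.smul_single, Finsupp.prod_single_index (zpow_zero _), smul_eq_mul, mul_one]

theorem dsD_add {P : PO o Ω} {D E : DO o Ω} (hD : D P = 0) (hE : E P = 0) :
    dsD O P (D + E) = dsD O P D * dsD O P E := by
  rw [L3_dsD O P (D + E) Finsupp.support_add, L3_dsD O P D Finset.subset_union_left,
    L3_dsD O P E Finset.subset_union_right, ← Finset.prod_mul_distrib]
  refine Finset.prod_congr rfl fun Q _ => ?_
  by_cases h : P = Q
  · subst h
    rw [Finsupp.add_apply, hD, hE, add_zero, zpow_zero, one_mul]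
  · exact zpow_add₀ (fun h0 => h ((ds_eq_zero_iff O).1 h0)) _ _

theorem dsD_le_one (P : PO o Ω) {D : DO o Ω} (h : 0 ≤ D) : dsD O P D ≤ 1 := by
  obtain ⟨n, z, rfl⟩ := L3_eff h
  rw [L3_dsD_sum]
  exact Finset.prod_le_one' fun i _ => ds_le_one O _ _

theorem dsD_eq_one_iff (P : PO o Ω) {D : DO o Ω} (h : 0 ≤ D) :
    dsD O P D = 1 ↔ redD O o D (red O P) = 0 := by
  obtain ⟨n, z, rfl⟩ := L3_eff h
  rw [L3_dsD_sum, L3_redD_sum, Finset.prod_eq_one_iff_of_le_one' fun i _ => ds_le_one O _ _,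
    Nat.cast_eq_zero, Finset.card_eq_zero, Finset.filter_eq_empty_iff]
  refine forall₂_congr fun i _ => ?_
  rw [ds_eq_one_iff, ne_comm]

theorem redD_mono {D E : DO o Ω} (h : D ≤ E) : redD O o D ≤ redD O o E :=
  Finsupp.mapDomain_mono h

theorem redD_dz {ι : Type} [Fintype ι] {z : ι → Pt o Ω} (h : ∀ a, Intg O (z a)) :
    redD O o (dz z) = dz fun a => redp O (z a) (h a) := by
  unfold dz
  rw [map_sum]
  exact Finset.sum_congr rfl fun a _ => by rw [redD_pd, red_plc O (h a)]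

theorem L3_u_ev (P : PO o Ω) : jF o Ω (L3_u O (red O P)) ∈ P.O ∧
    O.1.valuation (P.ev (jF o Ω (L3_u O (red O P)))) = ds O P (oo o Ω) := by
  obtain ⟨C⟩ := exists_chart O (red O P)
  refine ⟨P.mem_iff.2 (by rw [L3_u_ord O C rfl]; exact L3_pd_nonneg _ _), ?_⟩
  unfold L3_u
  split_ifs with h
  · rw [C.ds_eq P _ rfl (by rw [h, red_oo]), (C.inf h).1, L3_ev_zo, sub_zero]
  · rw [L3_ds_of_ne O (by rwa [red_oo]), L3_jF_one]
    have : P.ev 1 = 1 := by simpa using P.ev_algebraMap 1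
    rw [this, map_one]

theorem L3_key {a : AO o Ω} (ha : gv O o (algebraMap _ (FO o Ω) a) = 1) :
    ∃ n : ℕ, (oo o Ω).ord (algebraMap _ (FO o Ω) a) = -(n : ℤ) ∧
      dv (RF O) (gr O (algebraMap _ (FO o Ω) a)) = redD O o (dv Ω (algebraMap _ (FO o Ω) a)) ∧
      ∀ P : PO o Ω, algebraMap _ (FO o Ω) a * jF o Ω (L3_u O (red O P)) ^ n ∈ P.O ∧
        O.1.valuation (P.ev (algebraMap _ (FO o Ω) a * jF o Ω (L3_u O (red O P)) ^ n)) =
          dsD O P (dv Ω (algebraMap _ (FO o Ω) a) + (n : ℤ) • pd (oo o Ω)) := by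
  have a0 : a ≠ 0 := fun h => L3_ne O ha (by rw [h, map_zero])
  obtain ⟨n, hn, hpn⟩ := L3_top a0
  have haA : gvA O a ≤ 1 := by rw [← gv_AO]; exact ha.le
  have hint : ∀ P : PO o Ω, P ≠ oo o Ω → algebraMap _ (FO o Ω) a ∈ P.O := mem_range_iff.1 ⟨a, rfl⟩
  have hg := fun p (C : Chart O p) => L3_gmem O haA hpn C
  generalize algebraMap _ (FO o Ω) a = f at ha hn hint hg ⊢
  have hZ : 0 ≤ dv Ω f + (n : ℤ) • pd (oo o Ω) := fun P => by
    rw [Finsupp.add_apply, Finsupp.smul_apply, dv_apply, F1_pd_apply, smul_eq_mul]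
    split_ifs with h
    · rw [← h, hn]; simp
    · simpa using P.mem_iff.1 (hint P (Ne.symm h))
  obtain ⟨m, z, hz⟩ := L3_eff hZ
  have hle : redD O o (∑ i, pd (z i)) ≤
      dv (RF O) (gr O f) + (n : ℤ) • pd (oo o (RF O)) := fun p => by
    obtain ⟨C⟩ := exists_chart O p
    obtain ⟨g', hg', -, -, e⟩ := L3_loc O ha hz C (hg p C)
    rw [e]
    exact le_add_of_nonneg_right (p.mem_iff.1 (C.gv_le _ hg').2)
  have heq := eq_of_le_of_deg_le hle (by
    rw [deg_redD, ← hz, deg_add, deg_add, deg_dv, deg_dv, deg_zsmul, deg_zsmul, deg_pd, deg_pd])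
  refine ⟨n, hn, ?_, fun P => ?_⟩
  · rw [← hz, map_add, map_zsmul, redD_pd, red_oo] at heq
    exact (add_right_cancel heq).symm
  · obtain ⟨C⟩ := exists_chart O (red O P)
    obtain ⟨g', hg', e, h1, h2⟩ := L3_loc O ha hz C (hg _ C)
    rw [heq, left_eq_add] at h2
    refine ⟨(C.ev P rfl _ (hg _ C)).1, ?_⟩
    rw [e, hz]
    exact L3_fin O z C hg' h1 h2

/-- the divisor of the residue -/
theorem dv_gr {f : FO o Ω} (hf : gv O o f = 1) : dv (RF O) (gr O f) = redD O o (dv Ω f) := by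
  obtain ⟨a, b, hb, h⟩ := L3_div f
  obtain ⟨a', b', ha', hb', e, -⟩ := L3_frac O hf hb h
  obtain ⟨_, -, h1, -⟩ := L3_key O ha'
  obtain ⟨_, -, h2, -⟩ := L3_key O hb'
  rw [← e, gr_mul O hf.le hb'.le, dv_mul (L3_gr_ne O hf) (L3_gr_ne O hb'),
    dv_mul (L3_ne O hf) (L3_ne O hb'), map_add, h2] at h1
  exact add_right_cancel h1

theorem L3_val {f : FO o Ω} (hf : gv O o f = 1) {P : PO o Ω} (hP : P.ord f = 0) :
    O.1.valuation (P.ev f) = dsD O P (dv Ω f) := by
  have hfP : f ∈ P.O := P.mem_iff.2 hP.ge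
  obtain ⟨a, b, hb, h, hbP⟩ : ∃ a b : AO o Ω, b ≠ 0 ∧
      f * algebraMap _ (FO o Ω) b = algebraMap _ (FO o Ω) a ∧
      (P ≠ oo o Ω → P.ord (algebraMap _ (FO o Ω) b) = 0) := by
    rcases eq_oo_or_plc P with h | ⟨y, rfl⟩
    · obtain ⟨a, b, hb, h'⟩ := L3_div f
      exact ⟨a, b, hb, h', fun h'' => absurd h h''⟩
    · obtain ⟨a, b, hb, h'⟩ := exists_div_plc y hfP
      refine ⟨a, b, fun e => hb (by rw [e, map_zero]), h', fun _ => ?_⟩
      have h1 := plc_spec y b
      have h2 := (plc y).mem_iff.1 h1.1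
      by_contra h3
      exact hb (h1.2.symm.trans (((plc y).ev_eq_zero_iff h1.1).2 (Or.inr (by omega))))
  obtain ⟨a', b', ha', hb', e, hord⟩ := L3_frac O hf hb h
  obtain ⟨n, hn, -, h1⟩ := L3_key O ha'
  obtain ⟨m, hm, -, h2⟩ := L3_key O hb'
  obtain ⟨hA, h1⟩ := h1 P
  obtain ⟨hB, h2⟩ := h2 P
  obtain ⟨hu, h3⟩ := L3_u_ev O P
  rw [← hord] at hbP
  generalize algebraMap _ (FO o Ω) a' = A at *
  generalize algebraMap _ (FO o Ω) b' = B at *
  generalize jF o Ω (L3_u O (red O P)) = u at *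
  have eo : ∀ Q : PO o Ω, Q.ord A = Q.ord f + Q.ord B := fun Q => by
    rw [← e, Q.ord_mul (L3_ne O hf) (L3_ne O hb')]
  have ed : dv Ω A = dv Ω f + dv Ω B := by rw [← e, dv_mul (L3_ne O hf) (L3_ne O hb')]
  have hfz : dv Ω f P = 0 := by rw [dv_apply, hP]
  have hBz : (dv Ω B + (m : ℤ) • pd (oo o Ω)) P = 0 := by
    rw [Finsupp.add_apply, Finsupp.smul_apply, dv_apply, F1_pd_apply, smul_eq_mul]
    split_ifs with h'
    · rw [← h', hm]; simp
    · rw [hbP (Ne.symm h')]; simp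
  by_cases hoo : P = oo o Ω
  · have hnm : n = m := by
      have := eo P
      rw [hP, hoo, hn, hm] at this
      omega
    subst hnm
    rw [← e, mul_assoc, P.ev_mul hfP hB, map_mul, h2, e, ed, add_assoc, dsD_add O hfz hBz] at h1
    exact mul_right_cancel₀ (dsD_ne_zero O hBz) h1
  · have hk : ∀ k : ℕ, ((k : ℤ) • pd (oo o Ω)) P = 0 := fun k => by
      rw [Finsupp.smul_apply, F1_pd_apply, if_neg (Ne.symm hoo), smul_zero]
    have hBz' : dv Ω B P = 0 := by rw [dv_apply, hbP hoo]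
    have hAz : dv Ω A P = 0 := by rw [ed, Finsupp.add_apply, hfz, hBz', add_zero]
    have hBP : B ∈ P.O := P.mem_iff.2 (hbP hoo).ge
    have d0 : ds O P (oo o Ω) ≠ 0 := fun h0 => hoo ((ds_eq_zero_iff O).1 h0)
    rw [dsD_add O hBz' (hk m), dsD_zsmul_pd, zpow_natCast, P.ev_mul hBP (pow_mem hu m), map_mul,
      L3_ev_pow P hu, map_pow, h3] at h2
    rw [dsD_add O hAz (hk n), dsD_zsmul_pd, zpow_natCast, ed, ← e,
      P.ev_mul (mul_mem hfP hBP) (pow_mem hu n), map_mul, L3_ev_pow P hu, map_pow, h3,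
      P.ev_mul hfP hBP, map_mul, mul_right_cancel₀ (pow_ne_zero _ d0) h2,
      dsD_add O hfz hBz'] at h1
    exact mul_right_cancel₀ (dsD_ne_zero O hBz') (mul_right_cancel₀ (pow_ne_zero _ d0) h1)

/-- values of a function in terms of distances -/
theorem val_ev {f : FO o Ω} (hf : f ≠ 0) {P : PO o Ω} (hP : P.ord f = 0) :
    O.1.valuation (P.ev f) = gv O o f * dsD O P (dv Ω f) := by
  obtain ⟨c, c0, hc⟩ := exists_smul_gv_eq_one O hf
  have h := L3_val O hc (P := P) (by rw [P.ord_smul c0, hP])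
  have ed : dv Ω (c • f) = dv Ω f := by
    ext Q; rw [dv_apply, dv_apply, Q.ord_smul c0]
  rw [ed, P.ev_smul c (P.mem_iff.2 hP.ge), map_mul] at h
  rw [gv_smul] at hc
  rw [← h, ← mul_assoc, mul_comm (gv O o f), hc, one_mul]

theorem val_ev_mul {D : DO o Ω} {f : FO o Ω} (hf : f ∈ LL D) (hf0 : f ≠ 0) {P : PO o Ω}
    (hP : D P = 0) :
    O.1.valuation (P.ev f) * dsD O P D = gv O o f * dsD O P (D + dv Ω f) := by
  have h1 := (mem_LL.1 hf).resolve_left hf0 P
  rw [hP, neg_zero] at h1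
  rcases h1.eq_or_lt with h | h
  · rw [val_ev O hf0 h.symm, dsD_add O hP (by rw [dv_apply, h]), mul_assoc, mul_comm (dsD O P D)]
  · have h2 : (D + dv Ω f) P ≠ 0 := by rw [Finsupp.add_apply, hP, dv_apply]; omega
    have h3 : dsD O P (D + dv Ω f) = 0 :=
      Finset.prod_eq_zero (Finsupp.mem_support_iff.2 h2)
        (by beta_reduce; rw [(ds_eq_zero_iff O).2 rfl, zero_zpow _ h2])
    rw [(P.ev_eq_zero_iff (P.mem_iff.2 h1)).2 (Or.inr h), h3, map_zero, zero_mul, mul_zero]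

theorem gr_mem_LL {D : DO o Ω} {f : FO o Ω} (hf : f ∈ LL D) (h1 : gv O o f ≤ 1) :
    gr O f ∈ LL (redD O o D) := by
  by_cases h : gr O f = 0
  · rw [h]; exact zero_mem _
  · have h2 : gv O o f = 1 := le_antisymm h1 (not_lt.1 fun h' => h ((gr_eq_zero_iff O h1).2 h'))
    rw [mem_LL_iff h, dv_gr O h2, ← map_add, ← map_zero (redD O o)]
    exact redD_mono O ((mem_LL_iff (L3_ne O h2)).1 hf)

end Pool.Agent.E6b

end

section
open scoped NNReal TensorProduct IntermediateField BigOperators Classical Topology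
open Filter

namespace Pool.Agent.E6b
variable {κ F : Type} [Field κ] [IsAlgClosed κ] [CharZero κ] [Field F] [Algebra κ F] [IsFF κ F]
  {o : Place κ F} {Ω : Type} [Field Ω] [IsAlgClosed Ω] [CharZero Ω] [Algebra κ Ω] (O : VS κ Ω)

theorem linEq_redD {D E : DO o Ω} (h : LinEq D E) : LinEq (redD O o D) (redD O o E) := by
  obtain ⟨f, hf, rfl⟩ := h
  obtain ⟨c, hc, h1⟩ := exists_smul_gv_eq_one O hf
  refine ⟨gr O (c • f), fun h0 => ((gr_eq_zero_iff O h1.le).1 h0).ne h1, ?_⟩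
  rw [dv_gr O h1, map_add, Algebra.smul_def,
    dv_mul ((map_ne_zero (algebraMap Ω (FO o Ω))).2 hc) hf, dv_algebraMap, zero_add]

theorem prin_le_redD : prin o Ω ≤ (prin o (RF O)).comap (redD O o) := by
  rintro D ⟨k, hk⟩
  refine ⟨k, ?_⟩
  have h := linEq_redD O hk
  rwa [map_zsmul, redD_pd, red_oo] at h

/-- reduction of classes -/
noncomputable def redCl (o : Place κ F) : Cl o Ω →+ Cl o (RF O) :=
  QuotientAddGroup.map _ _ (redD O o) (prin_le_redD O)

theorem redCl_clD (D : DO o Ω) : redCl O o (clD o Ω D) = clD o (RF O) (redD O o D) := by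
  rfl

theorem redCl_clz {ι : Type} [Fintype ι] {z : ι → Pt o Ω} (h : ∀ a, Intg O (z a)) :
    redCl O o (clz z) = clz fun a => redp O (z a) (h a) := by
  rw [clz, redCl_clD, redD_dz O h, clz]

end Pool.Agent.E6b

end

section
open scoped NNReal TensorProduct IntermediateField BigOperators Classical Topology
open Filter

namespace Pool.Agent.E6b
variable {κ F : Type} [Field κ] [IsAlgClosed κ] [CharZero κ] [Field F] [Algebra κ F] [IsFF κ F]
  {o : Place κ F} {Ω : Type} [Field Ω] [IsAlgClosed Ω] [CharZero Ω] [Algebra κ Ω] (O : VS κ Ω)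
  {ι ι' : Type} [Fintype ι] [Fintype ι']

theorem L5_one {D : DO o Ω} {P : PO o Ω} (hP : D P = 0) {g : FO o Ω} (hg : g ∈ LL D)
    (h1 : gv O o g ≤ 1) : O.1.valuation (P.ev g) * dsD O P D ≤ 1 ∧
      (O.1.valuation (P.ev g) * dsD O P D = 1 ↔ gr O g ∉ LL (redD O o (D - pd P))) := by
  by_cases h0 : g = 0
  · subst h0
    rw [F1a_ev_zero, map_zero, zero_mul, gr_zero]
    exact ⟨zero_le, by simp⟩
  have hE := (mem_LL_iff h0).1 hg
  have h2 := dsD_le_one O P hE
  rw [val_ev_mul O hg h0 hP]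
  refine ⟨mul_le_one' h1 h2, ?_⟩
  rcases h1.eq_or_lt with h3 | h3
  · have h4 : gr O g ≠ 0 := fun h => ((gr_eq_zero_iff O h1).1 h).ne h3
    have h5 : redD O o (D - pd P) + dv (RF O) (gr O g) =
        redD O o (D + dv Ω g) - pd (red O P) := by
      rw [dv_gr O h3, map_sub, map_add, redD_pd]
      abel
    have h6 : 0 ≤ redD O o (D + dv Ω g) := by
      have := redD_mono O hE
      rwa [map_zero] at this
    rw [h3, one_mul, dsD_eq_one_iff O P hE, mem_LL_iff h4, h5]
    constructor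
    · intro h7 h8
      have := h8 (red O P)
      rw [Finsupp.sub_apply, h7, F1_pd_apply, if_pos rfl] at this
      simp at this
    · intro h7
      by_contra h8
      refine h7 fun Q => ?_
      have h9 := h6 Q
      rw [Finsupp.sub_apply, F1_pd_apply]
      simp only [Finsupp.coe_zero, Pi.zero_apply] at h9 ⊢
      split_ifs with hQ
      · subst hQ
        omega
      · omega
  · refine ⟨fun h => absurd h (lt_of_le_of_lt (mul_le_of_le_one_right' h2) h3).ne, fun h => ?_⟩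
    exact (h (mem_LL.2 (Or.inl ((gr_eq_zero_iff O h1).2 h3)))).elim

theorem L5_dsq_ne_zero {z : ι → PO o Ω} (hz : Function.Injective z) : dsq O z ≠ 0 :=
  Finset.prod_ne_zero_iff.2 fun _ _ => Finset.prod_ne_zero_iff.2 fun _ hb h =>
    Finset.ne_of_mem_erase hb (hz ((ds_eq_zero_iff O).1 h)).symm

theorem L5_dsq_succ {n : ℕ} (z : Fin (n + 1) → PO o Ω) :
    dsq O z = dsq O (fun a : Fin n => z a.succ) * (∏ a : Fin n, ds O (z a.succ) (z 0)) ^ 2 := by
  rw [L5_dsq, L5_dsq, Fin.prod_univ_succ, Fin.prod_univ_succ]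
  simp only [Fin.prod_univ_succ, if_true, Fin.succ_ne_zero, if_false, one_mul,
    (Fin.succ_ne_zero _).symm, Fin.succ_inj, Finset.prod_mul_distrib, ds_comm O (z 0)]
  rw [sq]
  ac_rfl

theorem L5_fin (n : ℕ) : ∀ (D : DO o Ω) (z : Fin n → PO o Ω) (_ : Function.Injective z)
    (_ : ∀ a, D (z a) = 0) (f : Fin n → FO o Ω) (_ : ∀ i, f i ∈ LL D ∧ gv O o (f i) ≤ 1),
    (O.1.valuation (Matrix.of fun a i => (z a).ev (f i)).det * ∏ a, dsD O (z a) D) ^ 2 ≤ dsq O z ∧
    ((O.1.valuation (Matrix.of fun a i => (z a).ev (f i)).det * ∏ a, dsD O (z a) D) ^ 2 = dsq O z ↔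
      ∀ c : Fin n → RF O, ∑ i, c i • gr O (f i) ∈ LL (redD O o (D - ∑ a, pd (z a))) → c = 0) := by
  induction n with
  | zero =>
    intro D z _ _ f _
    have h : dsq O z = 1 := by simp [dsq]
    rw [h]
    simp only [Matrix.det_fin_zero, map_one, Finset.univ_eq_empty, Finset.prod_empty, mul_one,
      one_pow, le_refl, true_and, true_iff]
    exact fun c _ => Subsingleton.elim _ _
  | succ n ih =>
    intro D z hz hD f hf
    obtain ⟨i₀, hi₀⟩ := Finite.exists_max fun i => O.1.valuation ((z 0).ev (f i))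
    set m : Fin (n + 1) → Ω := fun i => (z 0).ev (f i) with hm
    have hc : ∀ i, m i = m i / m i₀ * m i₀ := fun i => by
      by_cases h0 : m i₀ = 0
      · have h1 : O.1.valuation (m i) ≤ O.1.valuation (m i₀) := hi₀ i
        rw [h0, map_zero, le_zero_iff, map_eq_zero] at h1
        rw [h0, h1, mul_zero]
      · rw [div_mul_cancel₀ _ h0]
    have hcO : ∀ i, m i / m i₀ ∈ O.1 := fun i => by
      by_cases h0 : m i₀ = 0
      · rw [h0, div_zero]; exact O.1.zero_mem
      · exact (V1_div_mem O.1 _ h0).2 (hi₀ i)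
    have hne : ∀ a : Fin n, z 0 ≠ z a.succ := fun a h => Fin.succ_ne_zero a (hz h).symm
    have hpd : ∀ a : Fin n, pd (z 0) (z a.succ) = 0 := fun a => by
      rw [F1_pd_apply, if_neg (hne a)]
    have hD' : ∀ a : Fin n, (D - pd (z 0)) (z a.succ) = 0 := fun a => by
      rw [Finsupp.sub_apply, hD, hpd, sub_zero]
    have hs : ∀ i, gv O o ((m i / m i₀) • f i₀) ≤ 1 := fun i => by
      rw [gv_smul]
      exact mul_le_one' ((O.1.valuation_le_one_iff _).2 (hcO i)) (hf i₀).2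
    have hev : ∀ a i, (z a).ev (f i - (m i / m i₀) • f i₀) =
        (z a).ev (f i) - m i / m i₀ * (z a).ev (f i₀) := fun a i => by
      rw [(z a).ev_sub (L5_mem (hD a) (hf i).1) (L5_mem (hD a) ((LL D).smul_mem _ (hf i₀).1)),
        (z a).ev_smul _ (L5_mem (hD a) (hf i₀).1)]
    have hf' : ∀ i, f i - (m i / m i₀) • f i₀ ∈ LL (D - pd (z 0)) ∧
        gv O o (f i - (m i / m i₀) • f i₀) ≤ 1 := fun i =>
      ⟨L5_mem_pd (hD 0) ((LL D).sub_mem (hf i).1 ((LL D).smul_mem _ (hf i₀).1))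
        (by rw [hev]; exact sub_eq_zero.2 (hc i)),
        (Valuation.map_sub _ _ _).trans (max_le (hf i).2 (hs i))⟩
    have hz' : Function.Injective fun a : Fin n => z a.succ := hz.comp (Fin.succ_injective n)
    obtain ⟨i1, i2⟩ := ih (D - pd (z 0)) (fun a => z a.succ) hz' hD'
      (fun j => f (i₀.succAbove j) - (m (i₀.succAbove j) / m i₀) • f i₀) fun j => hf' _
    obtain ⟨y1, y2⟩ := L5_one O (hD 0) (hf i₀).1 (hf i₀).2
    have hπ : ∏ a : Fin n, ds O (z a.succ) (z 0) ≠ 0 :=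
      Finset.prod_ne_zero_iff.2 fun a _ h => hne a ((ds_eq_zero_iff O).1 h).symm
    obtain ⟨e1, e2⟩ := L5_ord y1 i1 (L5_dsq_ne_zero O hz') hπ
    have hX : O.1.valuation (Matrix.of fun a i => (z a).ev (f i)).det * ∏ a, dsD O (z a) D =
        O.1.valuation ((z 0).ev (f i₀)) * dsD O (z 0) D *
          (O.1.valuation (Matrix.of fun a j : Fin n => (z a.succ).ev
            (f (i₀.succAbove j) - (m (i₀.succAbove j) / m i₀) • f i₀)).det *
            ∏ a : Fin n, dsD O (z a.succ) (D - pd (z 0))) *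
          ∏ a : Fin n, ds O (z a.succ) (z 0) := by
      have h1 : ∀ a : Fin n, dsD O (z a.succ) D =
          dsD O (z a.succ) (D - pd (z 0)) * ds O (z a.succ) (z 0) := fun a => by
        rw [← dsD_pd, ← dsD_add O (hD' a) (hpd a), sub_add_cancel]
      rw [L5_detstep (Matrix.of fun a i => (z a).ev (f i)) i₀ (fun i => m i / m i₀) fun i => by
        rw [Matrix.of_apply, Matrix.of_apply]; exact hc i, Fin.prod_univ_succ]
      simp only [h1, hev, Finset.prod_mul_distrib, map_mul, map_pow, Valuation.map_neg, map_one,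
        one_pow, one_mul, Matrix.of_apply]
      ac_rfl
    have hE : D - ∑ a, pd (z a) = D - pd (z 0) - ∑ a : Fin n, pd (z a.succ) := by
      rw [Fin.sum_univ_succ, sub_sub]
    rw [hX, L5_dsq_succ, hE]
    refine ⟨e1, e2.trans ?_⟩
    have hgr : ∀ i, gr O (f i - (m i / m i₀) • f i₀) =
        gr O (f i) - rs O (m i / m i₀) • gr O (f i₀) := fun i => by
      rw [gr_sub O (hf i).2 (hs i), gr_smul O (hcO i) (hf i₀).2]
    have hW : ∀ i, gr O (f i) - rs O (m i / m i₀) • gr O (f i₀) ∈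
        LL (redD O o (D - pd (z 0))) := fun i => by
      rw [← hgr]
      exact gr_mem_LL O (hf' i).1 (hf' i).2
    rw [y2, i2]
    simp only [hgr]
    by_cases hy : gr O (f i₀) ∈ LL (redD O o (D - pd (z 0)))
    · refine ⟨fun h => absurd hy h.1, fun h => absurd h ?_⟩
      rw [map_sub _ (D - pd (z 0))]
      refine L5_dep ?_ ?_ _ fun i => ?_
      · have := redD_mono O (L5_sum_nonneg fun a : Fin n => z a.succ)
        rwa [map_zero] at this
      · rw [deg_redD, deg_sum]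
        simp [deg_pd]
      · have := Submodule.add_mem _ (hW i) (Submodule.smul_mem _ (rs O (m i / m i₀)) hy)
        rwa [sub_add_cancel] at this
    · rw [and_iff_right hy]
      have h1 : D - pd (z 0) - ∑ a : Fin n, pd (z a.succ) ≤ D - pd (z 0) :=
        sub_le_self _ (L5_sum_nonneg fun a : Fin n => z a.succ)
      have h2 := LL_mono (redD_mono O h1)
      exact L5_lin h2 (fun i => gr O (f i)) i₀ (fun j => rs O (m (i₀.succAbove j) / m i₀))
        (fun j => hW _) hy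

end Pool.Agent.E6b

end

section
open scoped NNReal TensorProduct IntermediateField BigOperators Classical Topology
open Filter

namespace Pool.Agent.E6b
variable {κ F : Type} [Field κ] [IsAlgClosed κ] [CharZero κ] [Field F] [Algebra κ F] [IsFF κ F]
  {o : Place κ F} {Ω : Type} [Field Ω] [IsAlgClosed Ω] [CharZero Ω] [Algebra κ Ω] (O : VS κ Ω)
  {ι ι' : Type} [Fintype ι] [Fintype ι']

/-- interpolation determinants -/
theorem val_det (D : DO o Ω) (z : ι → PO o Ω) (hz : Function.Injective z) (hD : ∀ a, D (z a) = 0)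
    (f : ι → FO o Ω) (hf : ∀ i, f i ∈ LL D ∧ gv O o (f i) ≤ 1) :
    (O.1.valuation (Matrix.of fun a i => (z a).ev (f i)).det * ∏ a, dsD O (z a) D) ^ 2 ≤ dsq O z ∧
    ((O.1.valuation (Matrix.of fun a i => (z a).ev (f i)).det * ∏ a, dsD O (z a) D) ^ 2 = dsq O z ↔
      ∀ c : ι → RF O, ∑ i, c i • gr O (f i) ∈ LL (redD O o (D - ∑ a, pd (z a))) → c = 0) := by
  let e := (Fintype.equivFin ι).symm
  have h := L5_fin O _ D (fun a => z (e a)) (hz.comp e.injective) (fun a => hD _)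
    (fun i => f (e i)) fun i => hf _
  have h1 : (Matrix.of fun a i => (z (e a)).ev (f (e i))).det =
      (Matrix.of fun a i => (z a).ev (f i)).det :=
    Matrix.det_submatrix_equiv_self e (Matrix.of fun a i => (z a).ev (f i))
  rw [h1, L5_dsq_equiv, e.prod_comp fun a => dsD O (z a) D, e.sum_comp fun a => pd (z a)] at h
  refine ⟨h.1, h.2.trans ⟨fun h2 c hc => ?_, fun h2 c hc => ?_⟩⟩
  · rw [← e.sum_comp fun i => c i • gr O (f i)] at hc
    have h3 := h2 (fun i => c (e i)) hc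
    funext i
    simpa using congrFun h3 (e.symm i)
  · have h3 := h2 (fun i => c (e.symm i)) (by
      rw [← e.sum_comp fun i => c (e.symm i) • gr O (f i)]
      simpa only [e.symm_apply_apply] using hc)
    funext i
    simpa using congrFun h3 (e i)

theorem val_Det (z : ι → Pt o Ω) (hz : Function.Injective z) (hι : genus κ F ≤ Fintype.card ι) :
    (O.1.valuation (Det z) *
      ∏ a, ds O (plc (z a)) (oo o Ω) ^ ((Fintype.card ι : ℤ) + genus κ F - 1)) ^ 2 ≤
        dsq O (fun a => plc (z a)) ∧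
    ((O.1.valuation (Det z) *
      ∏ a, ds O (plc (z a)) (oo o Ω) ^ ((Fintype.card ι : ℤ) + genus κ F - 1)) ^ 2 =
        dsq O (fun a => plc (z a)) ↔ Th (redCl O o (clz z))) := by
  have h := val_det O (((Fintype.card ι : ℤ) + genus κ F - 1) • pd (oo o Ω)) (fun a => plc (z a))
    (plc_injective.comp hz) (fun a => L5_oo _ _) (fun i => iF o Ω (eb o (Fintype.equivFin ι i)))
    fun i => ⟨L5_span ι hι i, gv_iF_le O _⟩
  simp only [L5_Det, dsD_zsmul_pd, gr_iF] at h
  refine ⟨h.1, h.2.trans ?_⟩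
  have h0 : 0 ≤ redD O o (dz z) := by
    have := redD_mono O (dz_nonneg z)
    rwa [map_zero] at this
  rw [map_sub, map_zsmul, redD_pd, red_oo, clz, redCl_clD]
  exact L5_th hι h0 ((deg_redD O _).trans (deg_dz z))

theorem dsq_elim (z : ι → PO o Ω) (z' : ι' → PO o Ω) :
    dsq O (Sum.elim z z') = dsq O z * dsq O z' * (∏ a, ∏ b, ds O (z a) (z' b)) ^ 2 := by
  rw [L5_dsq, L5_dsq, L5_dsq]
  simp only [Fintype.prod_sum_type, Sum.elim_inl, Sum.elim_inr, Sum.inl.injEq, Sum.inr.injEq,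
    reduceCtorEq, if_false, Finset.prod_mul_distrib]
  have h : ∏ a, ∏ b, ds O (z' a) (z b) = ∏ a, ∏ b, ds O (z a) (z' b) := by
    rw [Finset.prod_comm]
    exact Finset.prod_congr rfl fun _ _ => Finset.prod_congr rfl fun _ _ => ds_comm O _ _
  rw [h, sq]
  ac_rfl

theorem dsq_eq_one {z : ι → PO o Ω} (hz : Function.Injective fun a => red O (z a)) : dsq O z = 1 :=
  Finset.prod_eq_one fun _ _ => Finset.prod_eq_one fun _ hb =>
    (ds_eq_one_iff O).2 fun h => Finset.ne_of_mem_erase hb (hz h).symm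

end Pool.Agent.E6b

end

section
open scoped NNReal TensorProduct IntermediateField BigOperators Classical Topology
open Filter

namespace Pool.Agent.E6b

section
variable {κ F : Type} [Field κ] [IsAlgClosed κ] [CharZero κ] [Field F] [Algebra κ F] [IsFF κ F]
variable {o : Place κ F}

/-- constant points -/
noncomputable def cpt (Ω : Type) [Field Ω] [Algebra κ Ω] (p : Pt o κ) : Pt o Ω :=
  (Algebra.ofId κ Ω).comp p

/-- the auxiliary family `Q' + (fibre - Q)` -/
noncomputable def Pj (Ω : Type) [Field Ω] [Algebra κ Ω] (j : JJ o) :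
    Fin (genus κ F) × Fin (NN o) → Pt o Ω := fun x =>
  cpt Ω (if (x.2 : ℕ) = 0 then (pdat o).q (j (.inr x.1)) x.2 else (pdat o).q (j (.inl x.1)) x.2)

/-- theta vector of a family of points -/
noncomputable def rho {Ω : Type} [Field Ω] [Algebra κ Ω] {ι : Type} [Fintype ι] (z : ι → Pt o Ω)
    (j : JJ o) : Ω :=
  Det (Sum.elim z (Pj Ω j)) * Det (Sum.elim z (Pj Ω (sw j))) /
    ∏ a, ∏ s, (z a (wN o) - algebraMap κ Ω ((pdat o).c (j s)))
variable {Ω Ω' : Type} [Field Ω] [IsAlgClosed Ω] [CharZero Ω] [Algebra κ Ω]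
  [Field Ω'] [IsAlgClosed Ω'] [CharZero Ω'] [Algebra κ Ω']

/-- a good representative of a class -/
noncomputable def rep (w : Cl o Ω) : Fin (2 * genus κ F) → Pt o Ω :=
  (exists_good_rep w (Fin (2 * genus κ F)) (by simp) Set.finite_empty).choose

/-- theta vector of a class -/
noncomputable def Psi (w : Cl o Ω) : JJ o → Ω := rho (rep w)

/-- symmetric theta vector -/
noncomputable def Psym (w : Cl o Ω) : JJ o × JJ o → Ω := fun p => Psi w p.1 * Psi (-w) p.2

/-- base changes fixing the chosen fibres -/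
def BC.Ok (β : BC o Ω Ω') : Prop :=
  ∀ i l, β.pt (cpt Ω ((pdat o).q i l)) = cpt Ω' ((pdat o).q i l)

end

section
variable {F : Type} [Field F] [Algebra Qb F] [IsFF Qb F] {o : Place Qb F}

/-- naive height of a class -/
noncomputable def hq (w : Cl o Qb) : ℝ := hv (Psym w)

end

end Pool.Agent.E6b

end

section
open scoped NNReal TensorProduct IntermediateField BigOperators Classical Topology
open Filter

namespace Pool.Agent.E6b
variable {κ F : Type} [Field κ] [IsAlgClosed κ] [CharZero κ] [Field F] [Algebra κ F] [IsFF κ F]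
  {o : Place κ F} {Ω Ω' : Type} [Field Ω] [IsAlgClosed Ω] [CharZero Ω] [Algebra κ Ω]
  [Field Ω'] [IsAlgClosed Ω'] [CharZero Ω'] [Algebra κ Ω'] {ι ι' : Type} [Fintype ι] [Fintype ι']

omit [IsAlgClosed κ] [CharZero κ] [IsFF κ F] [IsAlgClosed Ω] [CharZero Ω] in
theorem P1_cpt_inj : Function.Injective (cpt Ω : Pt o κ → Pt o Ω) := fun _ _ h =>
  AlgHom.ext fun a => (algebraMap κ Ω).injective (DFunLike.congr_fun h a)

omit [IsAlgClosed Ω] [CharZero Ω] in
theorem P1_cpt_wN (i : Fin (5 * genus κ F + 1)) (l : Fin (NN o)) :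
    cpt Ω ((pdat o).q i l) (wN o) = algebraMap κ Ω ((pdat o).c i) :=
  congrArg (algebraMap κ Ω) ((pdat o).q_wN i l)

theorem P1_pt_wN (β : BC o Ω Ω') (y : Pt o Ω) : β.pt y (wN o) = β.τ (y (wN o)) := β.pt_eb y _

theorem BC.Ok.c {β : BC o Ω Ω'} (h : β.Ok) (i : Fin (5 * genus κ F + 1)) :
    β.τ (algebraMap κ Ω ((pdat o).c i)) = algebraMap κ Ω' ((pdat o).c i) := by
  rw [← P1_cpt_wN i (P1_l0 o), ← P1_pt_wN, h, P1_cpt_wN]

end Pool.Agent.E6b

end

section
open scoped NNReal TensorProduct IntermediateField BigOperators Classical Topology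
open Filter

namespace Pool.Agent.E6b
variable {κ F : Type} [Field κ] [IsAlgClosed κ] [CharZero κ] [Field F] [Algebra κ F] [IsFF κ F]
  {o : Place κ F} {Ω : Type} [Field Ω] [IsAlgClosed Ω] [CharZero Ω] [Algebra κ Ω]
  {ι ι' : Type} [Fintype ι] [Fintype ι']

theorem P2_ev_eq_zero_iff {f : AO o Ω} (hf : f ≠ 0) (p : Pt o Ω) :
    evA p f = 0 ↔ 0 < dv Ω (algebraMap _ (FO o Ω) f) (plc p) := by
  rw [← (plc_spec p f).2, Place.ev_eq_zero_iff _ (plc_spec p f).1, dv_apply,
    or_iff_right ((map_ne_zero_iff _ (IsFractionRing.injective _ _)).2 hf)]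

theorem P2_zero_iff {y : ι' → Pt o Ω} {f : AO o Ω} (hf : f ≠ 0)
    (hd : dv Ω (algebraMap _ (FO o Ω) f) = dz y - (Fintype.card ι' : ℤ) • pd (oo o Ω))
    (p : Pt o Ω) : evA p f = 0 ↔ ∃ b, y b = p := by
  rw [P2_ev_eq_zero_iff hf, hd, Finsupp.sub_apply, Finsupp.smul_apply, P2_pd_oo, smul_zero,
    sub_zero, dz_apply, Nat.cast_pos, Finset.card_pos]
  simp [Finset.Nonempty]

theorem P2_dual (y : ι' → Pt o Ω) (hy : Function.Injective y) :
    ∃ u : ι' → AO o Ω, (∀ l, P2V (Fintype.card ι' + genus κ F) (u l)) ∧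
      ∀ a l, evA (y a) (u l) = if a = l then 1 else 0 := by
  have h1 : ∀ a, dz y (plc (y a)) = 1 := by
    intro a
    have : (Finset.univ.filter fun b => y b = y a) = {a} := by
      ext b
      simp [hy.eq_iff]
    rw [dz_apply, this]
    rfl
  have key : ∀ l, ∃ u : AO o Ω, P2V (Fintype.card ι' + genus κ F) u ∧
      ∀ a, evA (y a) u = if a = l then 1 else 0 := by
    intro l
    have hb : BPF (((((Fintype.card ι' + genus κ F : ℕ) : ℤ) + genus κ F - 1) • pd (oo o Ω)) -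
        (dz y - pd (plc (y l)))) := by
      refine bpf_of_large ?_
      rw [deg_sub, deg_sub, deg_zsmul, deg_pd, deg_pd, deg_dz, genus_FO]
      push_cast
      omega
    obtain ⟨g, hg0, hg1, hg2⟩ := hb (plc (y l))
    have hle : 0 ≤ dz y - pd (plc (y l)) := by
      rw [sub_nonneg]
      exact Finset.single_le_sum (f := fun a => pd (plc (y a)))
        (fun a _ => Finsupp.single_nonneg.2 zero_le_one) (Finset.mem_univ l)
    have hg3 := LL_mono (sub_le_self _ hle) (mem_LL.2 (Or.inr hg1))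
    obtain ⟨u, rfl, -⟩ := mem_LL_oo.1 hg3
    have hu : u ≠ 0 := by
      rintro rfl
      exact hg0 (map_zero _)
    have hV := (P2V_iff (by omega) u).2 hg3
    have hl : evA (y l) u ≠ 0 := by
      rw [Ne, P2_ev_eq_zero_iff hu, dv_apply, hg2]
      rw [Finsupp.sub_apply, Finsupp.smul_apply, P2_pd_oo, Finsupp.sub_apply, h1, F1_pd_apply]
      simp
    refine ⟨(evA (y l) u)⁻¹ • u, fun i hi => by simp [hV i hi], fun a => ?_⟩
    rw [map_smul, smul_eq_mul]
    split_ifs with h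
    · rw [h, inv_mul_cancel₀ hl]
    · have h2 := hg1 (plc (y a))
      have h3 : plc (y l) ≠ plc (y a) := fun e => h (hy (plc_injective e)).symm
      rw [Finsupp.sub_apply, Finsupp.smul_apply, P2_pd_oo, Finsupp.sub_apply, h1, F1_pd_apply,
        if_neg h3, smul_zero] at h2
      rw [(P2_ev_eq_zero_iff hu (y a)).2 (by rw [dv_apply]; omega), mul_zero]
  choose u h2 h3 using key
  exact ⟨u, h2, fun a l => h3 l a⟩

omit [IsAlgClosed Ω] [CharZero Ω] in
theorem P2_det_sign {J : Type} [Fintype J] [hJ : DecidableEq J] {r : ℕ} (e : J ≃ Fin r) :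
    ∃ ε : ℤˣ, ∀ z : J → Pt o Ω,
      (Matrix.of fun a b => z a (eb o (e b))).det = ((ε : ℤ) : Ω) * Det z := by
  obtain rfl : hJ = fun a b => Classical.propDecidable (a = b) := Subsingleton.elim _ _
  obtain rfl : r = Fintype.card J := by simpa using (Fintype.card_congr e).symm
  refine ⟨Equiv.Perm.sign (e.trans (Fintype.equivFin J).symm), fun z => ?_⟩
  rw [Det, ← Matrix.det_permute']
  congr 1
  ext a b
  simp

theorem P2_main (ι ι' : Type) [Fintype ι] [Fintype ι'] (hι : genus κ F ≤ Fintype.card ι) :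
    ∃ ε : ℤˣ, ∀ (y : ι' → Pt o Ω) (f : AO o Ω), f ≠ 0 →
      dv Ω (algebraMap _ (FO o Ω) f) = dz y - (Fintype.card ι' : ℤ) • pd (oo o Ω) →
      ∀ u : ι' → AO o Ω, (∀ l, P2V (Fintype.card ι' + genus κ F) (u l)) →
        (∀ a l, evA (y a) (u l) = if a = l then 1 else 0) → ∀ x : ι → Pt o Ω,
        ((ε : ℤ) : Ω) * Det (Sum.elim x y) * P2T (P2U f u) (Fintype.card ι' + Fintype.card ι) =
          (∏ a, evA (x a) f) * Det x := by
  let e : ι ⊕ ι' ≃ Fin (Fintype.card ι' + Fintype.card ι) :=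
    (Equiv.sumComm _ _).trans
      (((Fintype.equivFin ι').sumCongr (Fintype.equivFin ι)).trans finSumFinEquiv)
  obtain ⟨ε, hε⟩ := P2_det_sign (o := o) (Ω := Ω) e
  refine ⟨ε, fun y f hf hd u hu hyu x => ?_⟩
  have e1 : ∀ b, P2U f u (e (.inl b)) = f * ebO o Ω (Fintype.equivFin ι b) := by
    intro b
    simp [P2U, e]
  have e2 : ∀ l, P2U f u (e (.inr l)) = u l := by
    intro l
    simp [P2U, e]
  have hV : ∀ b, P2V (Fintype.card ι' + Fintype.card ι) (P2U f u (e b)) := by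
    rintro (b | l)
    · rw [e1]
      exact P2V_mul hf hd hι (Fintype.equivFin ι b).2
    · rw [e2]
      exact fun i hi => hu l i (by omega)
  have h := P2_det_mul e (fun b => P2U f u (e b)) hV (Sum.elim x y)
  rw [hε] at h
  rw [P2T, ← Matrix.det_submatrix_equiv_self e]
  refine h.symm.trans ?_
  have hM : (Matrix.of fun a b => evA (Sum.elim x y a) (P2U f u (e b))) =
      Matrix.fromBlocks (Matrix.of fun a b => evA (x a) f * x a (eb o (Fintype.equivFin ι b)))
        (Matrix.of fun a l => evA (x a) (u l)) 0 1 := by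
    ext (a | a) (b | b)
    · simp [e1, evA_ebO]
    · simp [e2]
    · simp [e1, (P2_zero_iff hf hd (y a)).2 ⟨a, rfl⟩]
    · simp [e2, hyu, Matrix.one_apply]
  rw [hM, Matrix.det_fromBlocks_zero₂₁, Matrix.det_one, mul_one]
  exact Matrix.det_mul_column _ _

theorem P2_exists_x (ι : Type) [Fintype ι] {T : Set (Pt o Ω)} (hT : T.Finite) :
    ∃ x : ι → Pt o Ω, (∀ a, x a ∉ T) ∧ Det x ≠ 0 := by
  have key : ∀ r : ℕ, ∃ x : Fin r → Pt o Ω, (∀ a, x a ∉ T) ∧
      (Matrix.of fun a b : Fin r => x a (eb o b)).det ≠ 0 := by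
    intro r
    induction r with
    | zero => exact ⟨Fin.elim0, fun a => a.elim0, by simp⟩
    | succ r ih =>
      obtain ⟨x, hx, hd⟩ := ih
      let C : Fin (r + 1) → Ω := fun j =>
        (-1) ^ (j : ℕ) * (Matrix.of fun a b : Fin r => x a (eb o (j.succAbove b))).det
      have hs : (∑ j : Fin (r + 1), C j • ebO o Ω j) ≠ 0 := by
        intro e
        have h1 := Fintype.linearIndependent_iff.1
          ((ebO o Ω).linearIndependent.comp _ Fin.val_injective) C e (Fin.last r)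
        simp only [C, Fin.succAbove_last, Fin.val_castSucc] at h1
        exact mul_ne_zero (pow_ne_zero _ (neg_ne_zero.2 one_ne_zero)) hd h1
      obtain ⟨p, hp, hp'⟩ : ∃ p ∈ Tᶜ, evA p (∑ j : Fin (r + 1), C j • ebO o Ω j) ≠ 0 := by
        by_contra h
        push Not at h
        exact hs (AO_eq_zero hT.infinite_compl h)
      refine ⟨Fin.cons p x, fun a => Fin.cases hp hx a, ?_⟩
      convert hp' using 1
      rw [Matrix.det_succ_row_zero, map_sum]
      refine Finset.sum_congr rfl fun j _ => ?_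
      rw [map_smul, evA_ebO, smul_eq_mul, mul_right_comm]
      rfl
  obtain ⟨x, hx, hd⟩ := key (Fintype.card ι)
  refine ⟨fun a => x (Fintype.equivFin ι a), fun a => hx _, ?_⟩
  rw [← Matrix.det_submatrix_equiv_self (Fintype.equivFin ι)] at hd
  exact hd

end Pool.Agent.E6b

end

section
open scoped NNReal TensorProduct IntermediateField BigOperators Classical Topology
open Filter

namespace Pool.Agent.E6b
variable {κ F : Type} [Field κ] [IsAlgClosed κ] [CharZero κ] [Field F] [Algebra κ F] [IsFF κ F]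
  {o : Place κ F} {Ω : Type} [Field Ω] [IsAlgClosed Ω] [CharZero Ω] [Algebra κ Ω]
  {ι ι' : Type} [Fintype ι] [Fintype ι']

theorem P2_prod_ne {y : ι' → Pt o Ω} {f : AO o Ω} (hf : f ≠ 0)
    (hd : dv Ω (algebraMap _ (FO o Ω) f) = dz y - (Fintype.card ι' : ℤ) • pd (oo o Ω))
    {x : ι → Pt o Ω} (hx : ∀ a b, y b ≠ x a) : ∏ a, evA (x a) f ≠ 0 :=
  Finset.prod_ne_zero_iff.2 fun a _ e =>
    ((P2_zero_iff hf hd (x a)).1 e).elim fun b hb => hx a b hb

/-- adding the zeros of a function -/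
theorem exists_Det_move (y : ι' → Pt o Ω) (hy : Function.Injective y) (f : AO o Ω) (hf : f ≠ 0)
    (hd : dv Ω (algebraMap _ (FO o Ω) f) = dz y - (Fintype.card ι' : ℤ) • pd (oo o Ω))
    (ι : Type) [Fintype ι] (hι : genus κ F ≤ Fintype.card ι) :
    ∃ μ : Ω, μ ≠ 0 ∧ ∀ x : ι → Pt o Ω, Det (Sum.elim x y) = μ * (∏ a, evA (x a) f) * Det x := by
  obtain ⟨ε, hε⟩ := P2_main (o := o) (Ω := Ω) ι ι' hι
  obtain ⟨u, hu, hyu⟩ := P2_dual y hy
  have h := hε y f hf hd u hu hyu
  obtain ⟨x₀, hx₀, hD⟩ := P2_exists_x ι (Set.finite_range y)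
  have hτ : P2T (P2U f u) (Fintype.card ι' + Fintype.card ι) ≠ 0 := by
    intro e
    have h1 := h x₀
    rw [e, mul_zero] at h1
    exact mul_ne_zero (P2_prod_ne hf hd fun a b e => hx₀ a ⟨b, e⟩) hD h1.symm
  have hε0 := P2_unit_ne (Ω := Ω) ε
  refine ⟨_, inv_ne_zero (mul_ne_zero hε0 hτ), fun x => ?_⟩
  rw [mul_assoc, ← h x]
  field_simp

/-- the function `wN - c` -/
noncomputable def P2w (o : Place κ F) (c : Ω) : AO o Ω :=
  ebO o Ω (genus κ F + 1) - algebraMap Ω _ c

theorem P2w_map (c : Ω) : algebraMap _ (FO o Ω) (P2w o c) =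
    iF o Ω (wN o) - algebraMap Ω (FO o Ω) c := by
  rw [P2w, map_sub, algebraMap_ebO, ← IsScalarTower.algebraMap_apply]
  rfl

theorem P2w_ne (c : Ω) : P2w o c ≠ 0 := by
  intro e
  have h := P2w_map (o := o) c
  rw [e, map_zero, eq_comm, sub_eq_zero] at h
  exact iF_wN_notMem ⟨c, h.symm⟩

theorem P2w_ev (c : Ω) (p : Pt o Ω) : evA p (P2w o c) = p (wN o) - c := by
  rw [P2w, map_sub, evA_ebO, AlgHom.commutes]
  rfl

omit [IsAlgClosed Ω] [CharZero Ω] in
theorem P2w_mul (c : Ω) {n : ℕ} (hn : genus κ F ≤ n) :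
    P2w o c * ebO o Ω n = ebO o Ω (n + NN o) - c • ebO o Ω n := by
  rw [P2w, sub_mul, ← Algebra.smul_def]
  congr 1
  simp only [ebO, Algebra.TensorProduct.basis_apply, Algebra.TensorProduct.tmul_mul_tmul, one_mul]
  rw [NN, (ebSpec o).per n hn, mul_comm]

theorem P2T_w {c : Ω} {q : Fin (NN o) → Pt o Ω}
    (hd : dv Ω (algebraMap _ (FO o Ω) (P2w o c)) =
      dz q - (Fintype.card (Fin (NN o)) : ℤ) • pd (oo o Ω))
    {u : Fin (NN o) → AO o Ω} (hu : ∀ l, P2V (Fintype.card (Fin (NN o)) + genus κ F) (u l))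
    {n : ℕ} (hn : genus κ F ≤ n) : P2T (P2U (P2w o c) u) (Fintype.card (Fin (NN o)) + n) =
      P2T (P2U (P2w o c) u) (Fintype.card (Fin (NN o)) + genus κ F) := by
  induction n, hn using Nat.le_induction with
  | base => rfl
  | succ n hn ih =>
    rw [← ih, ← add_assoc]
    refine P2T_succ _ _ (fun j hj => ?_) ?_
    · rw [P2U]
      split_ifs with h
      · exact hu _ _ (by omega)
      · exact P2V_mul (P2w_ne c) hd hn (by omega) _ le_rfl
    · have h0 : 0 < NN o := Nat.succ_pos _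
      rw [P2U, dif_neg (by omega), Nat.add_sub_cancel_left, P2w_mul c hn, Fintype.card_fin,
        add_comm n, map_sub, map_smul, Module.Basis.repr_self, Module.Basis.repr_self,
        Finsupp.sub_apply, Finsupp.smul_apply, Finsupp.single_eq_same,
        Finsupp.single_eq_of_ne (by omega), smul_zero, sub_zero]

theorem P2e_elim {α β γ δ : Type} (x : α → δ) (y : β → δ) (z : γ → δ) :
    Sum.elim (Sum.elim x z) y ∘ P2e α β γ = Sum.elim (Sum.elim x y) z := by
  funext a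
  rcases a with (a | a) | a <;> rfl

end Pool.Agent.E6b

end

section
open scoped NNReal TensorProduct IntermediateField BigOperators Classical Topology
open Filter

namespace Pool.Agent.E6b
variable {κ F : Type} [Field κ] [IsAlgClosed κ] [CharZero κ] [Field F] [Algebra κ F] [IsFF κ F]
  {o : Place κ F} {Ω Ω' : Type} [Field Ω] [IsAlgClosed Ω] [CharZero Ω] [Algebra κ Ω]
  [Field Ω'] [IsAlgClosed Ω'] [CharZero Ω'] [Algebra κ Ω'] {ι ι' ι'' : Type} [Fintype ι]
  [Fintype ι'] [Fintype ι'']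

theorem P3_red_cpt (O : VS κ Ω) (p : Pt o κ) : red O (plc (cpt Ω p)) = plc (cpt (RF O) p) := by
  have h : Intg O (cpt Ω p) := fun a => O.2 (p a)
  rw [red_plc O h]
  congr 1
  ext a
  exact rs_algebraMap O (p a)

theorem P3_red_Pj (O : VS κ Ω) (j : JJ o) (x : Fin (genus κ F) × Fin (NN o)) :
    red O (plc (Pj Ω j x)) = plc (Pj (RF O) j x) := P3_red_cpt O _

theorem P3_ds_Pj (O : VS κ Ω) (j : JJ o) (x : Fin (genus κ F) × Fin (NN o)) :
    ds O (plc (Pj Ω j x)) (oo o Ω) = 1 := by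
  rw [ds_eq_one_iff, P3_red_Pj, red_oo]
  exact plc_ne_oo _

end Pool.Agent.E6b

end
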