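import Pool.Agent.E6c.A20
import Pool.Agent.E6c.A23
import Pool.Agent.E6c.A28
import Pool.Agent.E6c.A29

section
open scoped NNReal TensorProduct IntermediateField BigOperators Classical Topology
open Filter
set_option linter.unusedSectionVars false

namespace Pool.Agent.E6b
variable {κ F : Type} [Field κ] [IsAlgClosed κ] [CharZero κ] [Field F] [Algebra κ F] [IsFF κ F]
  {o : Place κ F} {Ω Ω' Ω'' : Type} [Field Ω] [IsAlgClosed Ω] [CharZero Ω] [Algebra κ Ω]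
  [Field Ω'] [IsAlgClosed Ω'] [CharZero Ω'] [Algebra κ Ω']
  [Field Ω''] [IsAlgClosed Ω''] [CharZero Ω''] [Algebra κ Ω'']

namespace BC
variable (β : BC o Ω Ω')

theorem pt_injective : Function.Injective β.pt := fun y z h =>
  E6b.plc_injective (β.plc_injective (by rw [β.plc_plc, β.plc_plc, h]))

theorem dv_dz {ι : Type} [Fintype ι] (z : ι → Pt o Ω) : β.dv (dz z) = dz fun a => β.pt (z a) := by
  rw [dz, dz, map_sum]
  exact Finset.sum_congr rfl fun a _ => by rw [β.dv_pd, β.plc_plc]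

theorem prin_le : prin o Ω ≤ (prin o Ω').comap β.dv := by
  rintro D ⟨k, hk⟩
  exact ⟨k, by rw [← β.plc_oo, ← β.dv_pd, ← map_zsmul]; exact β.linEq_dv_iff.2 hk⟩

/-- image of a class -/
noncomputable def cl : Cl o Ω →+ Cl o Ω' := QuotientAddGroup.map _ _ β.dv β.prin_le

theorem cl_clD (D : DO o Ω) : β.cl (clD o Ω D) = clD o Ω' (β.dv D) :=
  rfl

theorem cl_clz {ι : Type} [Fintype ι] (z : ι → Pt o Ω) : β.cl (clz z) = clz fun a => β.pt (z a) := by
  rw [clz, clz, β.cl_clD, β.dv_dz]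

end BC

theorem bc_pt (τ : Ω →ₐ[κ] Ω') (y : Pt o Ω) : (bc o τ).pt y = τ.comp y :=
  pt_ext o (funext fun i => by
    rw [cd, cd, BC.pt_eb, bc_τ]
    rfl)

end Pool.Agent.E6b

end

section
open scoped NNReal TensorProduct IntermediateField BigOperators Classical Topology
open Filter

namespace Pool.Agent.E6b
variable {κ F : Type} [Field κ] [IsAlgClosed κ] [CharZero κ] [Field F] [Algebra κ F] [IsFF κ F]
  {o : Place κ F} {Ω : Type} [Field Ω] [IsAlgClosed Ω] [CharZero Ω] [Algebra κ Ω]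
  {ι ι' : Type} [Fintype ι] [Fintype ι']

theorem clz_eq_sum (z : ι → Pt o Ω) : clz z = ∑ a, cl (z a) := by
  rw [clz, dz, map_sum]; rfl

end Pool.Agent.E6b

end

section
open scoped NNReal TensorProduct IntermediateField BigOperators Classical Topology
open Filter

namespace Pool.Agent.E6b
variable {κ F : Type} [Field κ] [IsAlgClosed κ] [CharZero κ] [Field F] [Algebra κ F] [IsFF κ F]
  {o : Place κ F} {Ω : Type} [Field Ω] [IsAlgClosed Ω] [CharZero Ω] [Algebra κ Ω] (O : VS κ Ω)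

theorem L4_basis (D : DO o Ω) : ∃ b : Fin (ell D) → FO o Ω, ∃ h : ∀ i, gr O (b i) ∈ LL (redD O o D),
    (∀ i, b i ∈ LL D ∧ gv O o (b i) = 1) ∧
      LinearIndependent (RF O) fun i => (⟨gr O (b i), h i⟩ : LL (redD O o D)) := by
  obtain ⟨b, hb, hi⟩ := exists_gbasis O (LL D)
  exact ⟨b, fun i => gr_mem_LL O (hb i).1 (hb i).2.le, hb,
    LinearIndependent.of_comp (LL (redD O o D)).subtype hi⟩

theorem L4_one_le {E : DO o Ω} (hE : 0 ≤ E) {P : PO o Ω} (hP : E P ≠ 0) :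
    1 ≤ redD O o E (red O P) := by
  have h1 : pd P ≤ E := fun Q => by
    have h2 : (0 : ℤ) ≤ E Q := hE Q
    rw [F1_pd_apply]
    split_ifs with h
    · subst h; omega
    · exact h2
  have h2 := redD_mono O h1 (red O P)
  rwa [redD_pd, F1_pd_apply, if_pos rfl] at h2

theorem L4_dz_ne {K : Type} [Field K] [IsAlgClosed K] [CharZero K] [Algebra κ K] {ι : Type}
    [Fintype ι] (z : ι → Pt o K) (a : ι) : dz z (plc (z a)) ≠ 0 := by
  rw [dz_apply, Nat.cast_ne_zero, Finset.card_ne_zero]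
  exact ⟨a, Finset.mem_filter.2 ⟨Finset.mem_univ a, rfl⟩⟩

theorem ell_le_red (D : DO o Ω) : ell D ≤ ell (redD O o D) := by
  obtain ⟨b, hm, -, hb⟩ := L4_basis O D
  have h := hb.fintype_card_le_finrank
  rwa [Fintype.card_fin] at h

theorem exists_lift_LL {D : DO o Ω} (h : ell (redD O o D) ≤ ell D) {f : FO o (RF O)}
    (hf : f ∈ LL (redD O o D)) : ∃ f' ∈ LL D, gv O o f' ≤ 1 ∧ gr O f' = f := by
  obtain ⟨b, hm, hb, hi⟩ := L4_basis O D
  have hs := hi.span_eq_top_of_card_eq_finrank'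
    (by rw [Fintype.card_fin]; exact (ell_le_red O D).antisymm h)
  have hf' : (⟨f, hf⟩ : LL (redD O o D)) ∈ Submodule.span (RF O)
      (Set.range fun i => (⟨gr O (b i), hm i⟩ : LL (redD O o D))) := by
    rw [hs]; trivial
  obtain ⟨c, hc⟩ := (Submodule.mem_span_range_iff_exists_fun _).1 hf'
  choose x hx hxc using fun i => rs_surj O (c i)
  have h1 : ∀ i, gv O o (x i • b i) ≤ 1 := fun i => by
    rw [gv_smul, (hb i).2, mul_one]
    exact (O.1.valuation_le_one_iff _).2 (hx i)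
  refine ⟨∑ i, x i • b i, Submodule.sum_mem _ fun i _ => Submodule.smul_mem _ _ (hb i).1,
    Valuation.map_sum_le _ fun i _ => h1 i, ?_⟩
  rw [gr_sum O _ fun i _ => h1 i]
  have h2 := congrArg Subtype.val hc
  rw [Submodule.coe_sum] at h2
  refine Eq.trans (Finset.sum_congr rfl fun i _ => ?_) h2
  rw [gr_smul O (hx i) (hb i).2.le, hxc]
  rfl

/-- a representative with good reduction -/
theorem exists_good_lift (w : Cl o Ω) (ι : Type) [Fintype ι] (hι : 2 * genus κ F ≤ Fintype.card ι)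
    {T : Set (Pt o (RF O))} (hT : T.Finite) :
    ∃ (z : ι → Pt o Ω) (h : ∀ a, Intg O (z a)), clz z = w ∧
      (Function.Injective fun a => redp O (z a) (h a)) ∧ ∀ a, redp O (z a) (h a) ∉ T := by
  obtain ⟨D₀, rfl⟩ := clD_surj w
  obtain ⟨D, hD, hdeg⟩ : ∃ D : DO o Ω, clD o Ω D = clD o Ω D₀ ∧ deg D = Fintype.card ι := by
    refine ⟨D₀ + ((Fintype.card ι : ℤ) - deg D₀) • pd (oo o Ω), ?_, ?_⟩
    · rw [map_add, map_zsmul, clD_oo, smul_zero, add_zero]
    · rw [deg_add, deg_zsmul, deg_pd, mul_one, add_sub_cancel]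
  have hι' : 2 * (genus κ F : ℤ) ≤ Fintype.card ι := by exact_mod_cast hι
  have hdeg' : deg (redD O o D) = Fintype.card ι := by rw [deg_redD, hdeg]
  have e1 := rr_large (D := D) (by rw [genus_FO, hdeg]; omega)
  have e2 := rr_large (D := redD O o D) (by rw [genus_FO, hdeg']; omega)
  rw [genus_FO, hdeg] at e1
  rw [genus_FO, hdeg', ← e1] at e2
  have hb : BPF (redD O o D) := bpf_of_large (by rw [genus_FO, hdeg']; exact hι')
  obtain ⟨S, hS, f, hf, hSf⟩ := hb.exists_reduced (insert (oo o (RF O)) (hT.toFinset.image plc))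
  have hS0 : (0 : DO o (RF O)) ≤ ind S := fun P => by
    rw [ind_apply]
    split_ifs
    · exact zero_le_one
    · exact le_rfl
  obtain ⟨f', hf', h1, rfl⟩ := exists_lift_LL O (Nat.cast_injective e2).le
    ((mem_LL_iff hf).2 (hSf ▸ hS0))
  have h2 := L4_gv_eq_one O h1 hf
  have h0 : f' ≠ 0 := fun h => by
    rw [h, map_zero] at h2
    exact zero_ne_one h2
  have hE := (mem_LL_iff h0).1 hf'
  have hred : redD O o (D + dv Ω f') = ind S := by rw [map_add, ← dv_gr O h2, hSf]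
  have hout : ∀ P ∈ insert (oo o (RF O)) (hT.toFinset.image plc), ind S P = 0 := fun P hP => by
    rw [ind_apply, if_neg (Finset.disjoint_right.1 hS hP)]
  have hinf : ∀ P : PO o Ω, red O P = oo o (RF O) → (D + dv Ω f') P = 0 := fun P hP => by
    by_contra hn
    have h3 := L4_one_le O hE hn
    rw [hred, hP, hout _ (Finset.mem_insert_self _ _)] at h3
    exact absurd h3 (by norm_num)
  obtain ⟨z, hz⟩ := exists_dz (ι := ι) hE (hinf _ (red_oo O))
    (by rw [deg_add, deg_dv, add_zero, hdeg])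
  have hint : ∀ a, Intg O (z a) := fun a => by
    by_contra hn
    exact L4_dz_ne z a (by rw [hz]; exact hinf _ (red_plc_of_not O hn))
  have hz' : (dz fun a => redp O (z a) (hint a)) = ind S := by rw [← redD_dz O hint, hz, hred]
  refine ⟨z, hint, ?_, injective_of_dz_le_one fun P => ?_, fun a ha => ?_⟩
  · rw [clz, hz, map_add, clD_dv, add_zero, hD]
  · rw [hz', ind_apply]
    split_ifs
    · exact le_rfl
    · exact zero_le_one
  · refine L4_dz_ne (fun a => redp O (z a) (hint a)) a ?_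
    rw [hz']
    exact hout _ (Finset.mem_insert_of_mem (Finset.mem_image_of_mem _ (hT.mem_toFinset.2 ha)))

end Pool.Agent.E6b

end

section
open scoped NNReal TensorProduct IntermediateField BigOperators Classical Topology
open Filter

namespace Pool.Agent.E6b
variable {κ F : Type} [Field κ] [IsAlgClosed κ] [CharZero κ] [Field F] [Algebra κ F] [IsFF κ F]
  {o : Place κ F} {Ω : Type} [Field Ω] [IsAlgClosed Ω] [CharZero Ω] [Algebra κ Ω] (O : VS κ Ω)
  {ι ι' : Type} [Fintype ι] [Fintype ι']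

theorem Det_bc {Ω' : Type} [Field Ω'] [IsAlgClosed Ω'] [CharZero Ω'] [Algebra κ Ω']
    (β : BC o Ω Ω') (z : ι → Pt o Ω) : Det (fun a => β.pt (z a)) = β.τ (Det z) := by
  unfold Det
  rw [RingHom.map_det]
  congr 1
  ext a b
  exact β.pt_eb _ _

end Pool.Agent.E6b

end

section
open scoped NNReal TensorProduct IntermediateField BigOperators Classical Topology
open Filter

namespace Pool.Agent.E6b
variable {κ F : Type} [Field κ] [IsAlgClosed κ] [CharZero κ] [Field F] [Algebra κ F] [IsFF κ F]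
  {o : Place κ F} (U : Ultrafilter ℕ) {L : Type} [Field L] [IsAlgClosed L] [CharZero L]
  [Algebra κ L] {ι : Type} [Fintype ι]

theorem O4_unit {Ω : Type} [Field Ω] [IsAlgClosed Ω] [CharZero Ω] [Algebra κ Ω] (y : Pt o Ω) :
    (clz fun _ : Unit => y) = cl y := by
  rw [clz_eq_sum, Fintype.sum_unique]

end Pool.Agent.E6b

end

section
open scoped NNReal TensorProduct IntermediateField BigOperators Classical Topology
open Filter

namespace Pool.Agent.E6b

section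
variable {κ F : Type} [Field κ] [IsAlgClosed κ] [CharZero κ] [Field F] [Algebra κ F] [IsFF κ F]
variable {o : Place κ F}
variable {Ω Ω' : Type} [Field Ω] [IsAlgClosed Ω] [CharZero Ω] [Algebra κ Ω]
  [Field Ω'] [IsAlgClosed Ω'] [CharZero Ω'] [Algebra κ Ω']

noncomputable def aj (Ω : Type) [Field Ω] [IsAlgClosed Ω] [CharZero Ω] [Algebra κ Ω] (j : JJ o) :
    Cl o Ω := clz (Pj Ω j)

theorem rep_good (w : Cl o Ω) : Good (rep w) :=
  (exists_good_rep w (Fin (2 * genus κ F)) (by simp) Set.finite_empty).choose_spec.1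

theorem clz_rep (w : Cl o Ω) : clz (rep w) = w :=
  (exists_good_rep w (Fin (2 * genus κ F)) (by simp) Set.finite_empty).choose_spec.2.2

/-- classes fixed by the Galois group over `K` -/
def RatC (K : Type) [Field K] [Algebra K Ω] [Algebra κ K] [IsScalarTower κ K Ω] (w : Cl o Ω) :
    Prop := ∀ σ : Ω ≃ₐ[K] Ω, (bc o ((σ : Ω →ₐ[K] Ω).restrictScalars κ)).cl w = w

end

end Pool.Agent.E6b

end

section
open scoped NNReal TensorProduct IntermediateField BigOperators Classical Topology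
open Filter

namespace Pool.Agent.E6b
variable {κ F : Type} [Field κ] [IsAlgClosed κ] [CharZero κ] [Field F] [Algebra κ F] [IsFF κ F]
  {o : Place κ F} {Ω Ω' : Type} [Field Ω] [IsAlgClosed Ω] [CharZero Ω] [Algebra κ Ω]
  [Field Ω'] [IsAlgClosed Ω'] [CharZero Ω'] [Algebra κ Ω'] {ι ι' : Type} [Fintype ι] [Fintype ι']

omit [IsAlgClosed Ω] [CharZero Ω] in
theorem P1_Pj (j : JJ o) (x : Fin (genus κ F) × Fin (NN o)) :
    Pj Ω j x = cpt Ω ((pdat o).q (P1_ix j x) x.2) := by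
  unfold Pj P1_ix
  split_ifs <;> rfl

theorem P1_q_inj {i i' : Fin (5 * genus κ F + 1)} {l l' : Fin (NN o)}
    (h : (pdat o).q i l = (pdat o).q i' l') : i = i' ∧ l = l' := by
  have h1 : i = i' := (pdat o).c_inj (by rw [← (pdat o).q_wN i l, h, (pdat o).q_wN])
  subst h1
  exact ⟨rfl, (pdat o).q_inj i h⟩

omit [IsAlgClosed Ω] [CharZero Ω] in
theorem Pj_injective (j : JJ o) : Function.Injective (Pj Ω j) := by
  rintro ⟨s, l⟩ ⟨s', l'⟩ h
  rw [P1_Pj, P1_Pj] at h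
  obtain ⟨h1, h2⟩ := P1_q_inj (P1_cpt_inj h)
  obtain rfl : l = l' := h2
  unfold P1_ix at h1
  split_ifs at h1
  · exact Prod.ext (Sum.inr_injective (j.injective h1)) rfl
  · exact Prod.ext (Sum.inl_injective (j.injective h1)) rfl

theorem dz_Pj_add (j : JJ o) : dz (Pj Ω j) + dz (Pj Ω (sw j)) =
    ∑ s, dz fun l => cpt Ω ((pdat o).q (j s) l) := by
  rw [Fintype.sum_sum_type, ← Finset.sum_add_distrib]
  unfold dz
  rw [← Finset.sum_add_distrib, Fintype.sum_prod_type]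
  refine Finset.sum_congr rfl fun s _ => ?_
  rw [← Finset.sum_add_distrib]
  refine Finset.sum_congr rfl fun l _ => ?_
  rw [P1_Pj, P1_Pj]
  unfold P1_ix
  split_ifs
  · exact add_comm _ _
  · rfl

theorem dv_wN_sub_c (i : Fin (5 * genus κ F + 1)) :
    dv Ω (iF o Ω (wN o) - algebraMap Ω (FO o Ω) (algebraMap κ Ω ((pdat o).c i))) =
      (dz fun l => cpt Ω ((pdat o).q i l)) - (NN o : ℤ) • pd (oo o Ω) :=
  dv_wN_sub (P1_cpt_inj.comp ((pdat o).q_inj i)) (P1_cpt_wN i)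

theorem P1_clz_fibre (i : Fin (5 * genus κ F + 1)) :
    clD o Ω (dz fun l => cpt Ω ((pdat o).q i l)) = 0 := by
  have h := clD_dv (iF o Ω (wN o) - algebraMap Ω (FO o Ω) (algebraMap κ Ω ((pdat o).c i)))
  rwa [dv_wN_sub_c, map_sub, map_zsmul, clD_oo, smul_zero, sub_zero] at h

theorem aj_sw (j : JJ o) : aj Ω (sw j) = - aj Ω j := by
  refine eq_neg_of_add_eq_zero_right ?_
  unfold aj clz
  rw [← map_add, dz_Pj_add, map_sum]
  exact Finset.sum_eq_zero fun s _ => P1_clz_fibre _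

omit [IsAlgClosed Ω] [CharZero Ω] [Fintype ι] in
theorem Good.injective_elim_Pj {z : ι → Pt o Ω} (h : Good z) (j : JJ o) :
    Function.Injective (Sum.elim z (Pj Ω j)) := by
  refine h.1.sumElim (Pj_injective j) fun a x e => h.2 a (P1_ix j x) ?_
  rw [e, P1_Pj, P1_cpt_wN]

theorem P1_aj (j : JJ o) : aj Ω j =
    ∑ s, cl (cpt Ω ((pdat o).q (j (.inr s)) (P1_l0 o))) -
      ∑ s, cl (cpt Ω ((pdat o).q (j (.inl s)) (P1_l0 o))) := by
  unfold aj
  rw [clz_eq_sum, Fintype.sum_prod_type, ← Finset.sum_sub_distrib]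
  refine Finset.sum_congr rfl fun s _ => ?_
  have h0 : ∑ l, cl (cpt Ω ((pdat o).q (j (.inl s)) l)) = 0 := by
    rw [← clz_eq_sum]
    exact P1_clz_fibre _
  rw [← Finset.add_sum_erase _ _ (Finset.mem_univ (P1_l0 o))] at h0 ⊢
  have h1 : ∑ l ∈ Finset.univ.erase (P1_l0 o), cl (Pj Ω j (s, l)) =
      ∑ l ∈ Finset.univ.erase (P1_l0 o), cl (cpt Ω ((pdat o).q (j (.inl s)) l)) := by
    refine Finset.sum_congr rfl fun l hl => ?_
    have h2 : (l : ℕ) ≠ 0 := fun h => (Finset.mem_erase.1 hl).1 (Fin.ext h)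
    rw [P1_Pj, P1_ix, if_neg h2]
  rw [h1, eq_neg_of_add_eq_zero_right h0, sub_eq_add_neg]
  rfl

theorem exists_j (w : Cl o Ω) : ∃ j : JJ o, Th (w + aj Ω j) ∧ Th (w - aj Ω j) := by
  obtain ⟨D, hD⟩ := clD_surj (-w)
  let D₀ : DO o Ω := D + ((genus κ F : ℤ) - 1 - deg D) • pd (oo o Ω)
  have d0 : deg D₀ = genus κ F - 1 := by
    rw [deg_add, deg_zsmul, deg_pd]
    ring
  have c0 : clD o Ω D₀ = -w := by
    rw [map_add, map_zsmul, clD_oo, smul_zero, add_zero, hD]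
  obtain ⟨j, h1, h2⟩ := P1_exists_emb (genus_FO (o := o) (Ω := Ω))
    (fun i => plc (cpt Ω ((pdat o).q i (P1_l0 o))))
    (fun i i' h => (P1_q_inj (P1_cpt_inj (plc_injective h))).1) D₀ d0
  refine ⟨j, P1_th ?_ ?_ h1, P1_th ?_ ?_ h2⟩
  · rw [deg_sub, deg_add, P1_deg_sum, P1_deg_sum, d0]
    ring
  · rw [map_sub, map_add, c0, map_sum, map_sum, P1_aj]
    unfold cl
    abel
  · rw [deg_add, deg_sub, P1_deg_sum, P1_deg_sum, d0]
    ring
  · rw [map_add, map_sub, c0, map_sum, map_sum, P1_aj]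
    unfold cl
    abel

theorem P1_det {z : ι → Pt o Ω} (h : Good z) (j : JJ o) :
    Det (Sum.elim z (Pj Ω j)) ≠ 0 ↔ Th (clz z + aj Ω j) := by
  rw [Det_ne_zero_iff _ (h.injective_elim_Pj j), clz_elim]
  · rfl
  · rw [Fintype.card_sum, Fintype.card_prod, Fintype.card_fin, Fintype.card_fin]
    exact le_add_left (Nat.le_mul_of_pos_right _ (Nat.succ_pos _))

theorem rho_ne_zero_iff {z : ι → Pt o Ω} (h : Good z) (j : JJ o) :
    rho z j ≠ 0 ↔ Th (clz z + aj Ω j) ∧ Th (clz z - aj Ω j) := by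
  have h0 : ∏ a, ∏ s, (z a (wN o) - algebraMap κ Ω ((pdat o).c (j s))) ≠ 0 :=
    Finset.prod_ne_zero_iff.2 fun a _ => Finset.prod_ne_zero_iff.2 fun s _ =>
      sub_ne_zero.2 (h.2 a _)
  unfold rho
  rw [div_ne_zero_iff, mul_ne_zero_iff, P1_det h, P1_det h, aj_sw, ← sub_eq_add_neg]
  exact and_iff_left h0

theorem rho_ne_zero {z : ι → Pt o Ω} (h : Good z) : rho z ≠ 0 := by
  obtain ⟨j, hj⟩ := exists_j (clz z)
  exact fun h0 => (rho_ne_zero_iff h j).2 hj (congrFun h0 j)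

omit [IsAlgClosed Ω] [CharZero Ω] in
theorem rho_comp_equiv (z : ι → Pt o Ω) (e : ι' ≃ ι) : rho (z ∘ e) = rho z := by
  funext j
  obtain ⟨ε, hε⟩ := exists_Det_comp_equiv (o := o)
    (e.sumCongr (Equiv.refl (Fin (genus κ F) × Fin (NN o))))
  have h1 : ∀ j : JJ o, Det (Sum.elim (z ∘ e) (Pj Ω j)) =
      ((ε : ℤ) : Ω) * Det (Sum.elim z (Pj Ω j)) := by
    intro j
    rw [← hε]
    congr 1
    funext x
    rcases x with x | x <;> rfl
  have h2 : ((ε : ℤ) : Ω) * ((ε : ℤ) : Ω) = 1 := by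
    rw [← Int.cast_mul, ← Units.val_mul, Int.units_mul_self, Units.val_one, Int.cast_one]
  unfold rho
  rw [h1, h1, mul_mul_mul_comm, h2, one_mul]
  congr 1
  exact Equiv.prod_comp e fun a => ∏ s, (z a (wN o) - algebraMap κ Ω ((pdat o).c (j s)))

theorem bc_ok (τ : Ω →ₐ[κ] Ω') : (bc o τ).Ok := by
  intro i l
  rw [bc_pt]
  exact AlgHom.ext fun a => τ.commutes _

theorem P1_pt_Pj {β : BC o Ω Ω'} (h : β.Ok) (j : JJ o) (x : Fin (genus κ F) × Fin (NN o)) :
    β.pt (Pj Ω j x) = Pj Ω' j x := by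
  rw [P1_Pj, P1_Pj, h]

theorem BC.Ok.cl_aj {β : BC o Ω Ω'} (h : β.Ok) (j : JJ o) : β.cl (aj Ω j) = aj Ω' j := by
  unfold aj
  rw [β.cl_clz]
  congr 1
  exact funext (P1_pt_Pj h j)

omit [Fintype ι] in
theorem BC.Ok.good {β : BC o Ω Ω'} (h : β.Ok) {z : ι → Pt o Ω} (hz : Good z) :
    Good fun a => β.pt (z a) := by
  refine ⟨β.pt_injective.comp hz.1, fun a i e => hz.2 a i (β.τ.injective ?_)⟩
  rw [h.c, ← P1_pt_wN]
  exact e

theorem BC.Ok.rho {β : BC o Ω Ω'} (h : β.Ok) (z : ι → Pt o Ω) (j : JJ o) :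
    rho (fun a => β.pt (z a)) j = β.τ (rho z j) := by
  have h1 : ∀ j : JJ o, Det (Sum.elim (fun a => β.pt (z a)) (Pj Ω' j)) =
      β.τ (Det (Sum.elim z (Pj Ω j))) := by
    intro j
    rw [← Det_bc]
    congr 1
    funext x
    rcases x with x | x
    · rfl
    · exact (P1_pt_Pj h j x).symm
  unfold E6b.rho
  simp only [h1, map_div₀, map_mul, map_prod, map_sub, h.c, P1_pt_wN]

omit [IsAlgClosed Ω] [CharZero Ω] in
theorem P1_intg (O : VS κ Ω) (j : JJ o) (x : Fin (genus κ F) × Fin (NN o)) :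
    Intg O (Pj Ω j x) := fun _ => O.2 _

omit [IsAlgClosed Ω] [CharZero Ω] in
theorem P1_redp (O : VS κ Ω) (j : JJ o) (x : Fin (genus κ F) × Fin (NN o)) :
    redp O (Pj Ω j x) (P1_intg O j x) = Pj (RF O) j x :=
  AlgHom.ext fun _ => rs_algebraMap O _

theorem redCl_aj (O : VS κ Ω) (j : JJ o) : redCl O o (aj Ω j) = aj (RF O) j := by
  unfold aj
  rw [redCl_clz O (P1_intg O j)]
  congr 1
  exact funext (P1_redp O j)

theorem rho_red (O : VS κ Ω) {z : ι → Pt o Ω} (h : ∀ a, Intg O (z a))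
    (hz : Good fun a => redp O (z a) (h a)) (j : JJ o) :
    Good z ∧ rho z j ∈ O.1 ∧ rs O (rho z j) = rho (fun a => redp O (z a) (h a)) j := by
  have h1 : ∀ j : JJ o, Det (Sum.elim z (Pj Ω j)) ∈ O.1 ∧ rs O (Det (Sum.elim z (Pj Ω j))) =
      Det (Sum.elim (fun a => redp O (z a) (h a)) (Pj (RF O) j)) := by
    intro j
    have h2 : ∀ x, Intg O (Sum.elim z (Pj Ω j) x) := by
      rintro (x | x)
      · exact h x
      · exact P1_intg O j x
    refine ⟨(Det_red O h2).1, (Det_red O h2).2.trans ?_⟩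
    congr 1
    funext x
    rcases x with x | x
    · rfl
    · exact P1_redp O j x
  have h2 : ∀ a i, z a (wN o) - algebraMap κ Ω ((pdat o).c i) ∈ O.1 := fun a i =>
    sub_mem (h a _) (O.2 _)
  have h3 : ∀ a i, rs O (z a (wN o) - algebraMap κ Ω ((pdat o).c i)) =
      redp O (z a) (h a) (wN o) - algebraMap κ (RF O) ((pdat o).c i) := by
    intro a i
    rw [P1_rs_sub O (h a _) (O.2 _), rs_algebraMap]
    rfl
  have h4 : rs O (∏ a, ∏ s, (z a (wN o) - algebraMap κ Ω ((pdat o).c (j s)))) =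
      ∏ a, ∏ s, (redp O (z a) (h a) (wN o) - algebraMap κ (RF O) ((pdat o).c (j s))) := by
    rw [P1_rs_prod O _ fun a => prod_mem fun s _ => h2 a _]
    refine Finset.prod_congr rfl fun a _ => ?_
    rw [P1_rs_prod O _ fun s => h2 a _]
    exact Finset.prod_congr rfl fun s _ => h3 a _
  have h5 := P1_rs_div O (mul_mem (h1 j).1 (h1 (sw j)).1)
    (prod_mem fun a _ => prod_mem fun s _ => h2 a (j s)) (by
      rw [h4]
      exact Finset.prod_ne_zero_iff.2 fun a _ => Finset.prod_ne_zero_iff.2 fun s _ =>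
        sub_ne_zero.2 (hz.2 a _))
  refine ⟨⟨fun a b e => hz.1 (AlgHom.ext fun x => ?_), fun a i e => hz.2 a i ?_⟩, h5.1, ?_⟩
  · exact congrArg (fun y : Pt o Ω => rs O (y x)) e
  · rw [← rs_algebraMap, ← e]
    rfl
  · unfold rho
    rw [h5.2, h4, rs_mul O (h1 j).1 (h1 (sw j)).1, (h1 j).2, (h1 (sw j)).2]

end Pool.Agent.E6b

end

section
open scoped NNReal TensorProduct IntermediateField BigOperators Classical Topology
open Filter

namespace Pool.Agent.E6b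
variable {κ F : Type} [Field κ] [IsAlgClosed κ] [CharZero κ] [Field F] [Algebra κ F] [IsFF κ F]
  {o : Place κ F} {Ω : Type} [Field Ω] [IsAlgClosed Ω] [CharZero Ω] [Algebra κ Ω]
  {ι ι' : Type} [Fintype ι] [Fintype ι']

/-- Weil reciprocity for `f` and `wN - c` -/
theorem exists_norm_fibre (y : ι' → Pt o Ω) (hy : Function.Injective y) (f : AO o Ω) (hf : f ≠ 0)
    (hd : dv Ω (algebraMap _ (FO o Ω) f) = dz y - (Fintype.card ι' : ℤ) • pd (oo o Ω)) :
    ∃ μ : Ω, μ ≠ 0 ∧ ∀ (c : Ω) (q : Fin (NN o) → Pt o Ω), Function.Injective q →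
      (∀ l, q l (wN o) = c) → ∏ l, evA (q l) f = μ * ∏ b, (y b (wN o) - c) := by
  have g1 : genus κ F ≤ Fintype.card (Fin (genus κ F)) := by simp
  have g2 : genus κ F ≤ Fintype.card (Fin (genus κ F) ⊕ ι') := by simp
  obtain ⟨ε₁, h₁⟩ := P2_main (o := o) (Ω := Ω) (Fin (genus κ F)) (Fin (NN o)) g1
  obtain ⟨ε₂, h₂⟩ := P2_main (o := o) (Ω := Ω) (Fin (genus κ F) ⊕ ι') (Fin (NN o)) g2
  obtain ⟨μ₃, n₃, h₃⟩ := exists_Det_move y hy f hf hd (Fin (genus κ F)) g1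
  obtain ⟨μ₄, n₄, h₄⟩ := exists_Det_move y hy f hf hd (Fin (genus κ F) ⊕ Fin (NN o)) (by simp)
  obtain ⟨ε₅, h₅⟩ := exists_Det_comp_equiv (o := o) (P2e (Fin (genus κ F)) ι' (Fin (NN o)))
  have n₁ := P2_unit_ne (Ω := Ω) ε₁
  have n₂ := P2_unit_ne (Ω := Ω) ε₂
  have n₅ := P2_unit_ne (Ω := Ω) ε₅
  refine ⟨_, div_ne_zero (mul_ne_zero n₁ n₃) (mul_ne_zero (mul_ne_zero n₂ n₅) n₄),
    fun c q hq hc => ?_⟩
  have hw : dv Ω (algebraMap _ (FO o Ω) (P2w o c)) =
      dz q - (Fintype.card (Fin (NN o)) : ℤ) • pd (oo o Ω) := by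
    rw [P2w_map, dv_wN_sub hq hc, Fintype.card_fin]
  obtain ⟨u, hu, hqu⟩ := P2_dual q hq
  obtain ⟨x, hx, hD⟩ := P2_exists_x (Fin (genus κ F))
    ((Set.finite_range y).union (Set.finite_range q))
  have e₁ := h₁ q _ (P2w_ne c) hw u hu hqu x
  have e₂ := h₂ q _ (P2w_ne c) hw u hu hqu (Sum.elim x y)
  have e₅ := h₅ Ω (Sum.elim (Sum.elim x q) y)
  rw [P2T_w hw hu g1] at e₁
  rw [P2e_elim, h₄, Fintype.prod_sum_type] at e₅
  rw [P2T_w hw hu g2, e₅, h₃, Fintype.prod_sum_type] at e₂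
  have m₁ := P2_prod_ne hf hd (x := x) fun a b e => hx a (Or.inl ⟨b, e⟩)
  have m₂ := P2_prod_ne (P2w_ne c) hw (x := x) fun a b e => hx a (Or.inr ⟨b, e⟩)
  simp only [Sum.elim_inl, Sum.elim_inr] at e₂
  simp only [← P2w_ev]
  rw [div_mul_eq_mul_div, eq_div_iff (mul_ne_zero (mul_ne_zero n₂ n₅) n₄)]
  refine mul_left_cancel₀ (mul_ne_zero (mul_ne_zero m₁ m₂) hD) ?_
  linear_combination ((ε₁ : ℤ) : Ω) * e₂ -
    ((ε₂ : ℤ) : Ω) * ((ε₅ : ℤ) : Ω) * μ₄ * (∏ a, evA (x a) f) * (∏ l, evA (q l) f) * e₁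

omit [IsAlgClosed Ω] [CharZero Ω] in
theorem P2_prod_Pj (φ : Pt o Ω → Ω) (j : JJ o) :
    (∏ a, φ (Pj Ω j a)) * ∏ a, φ (Pj Ω (sw j) a) = ∏ s, ∏ l, φ (cpt Ω ((pdat o).q (j s) l)) := by
  rw [← Finset.prod_mul_distrib, Fintype.prod_prod_type, Fintype.prod_sum_type,
    ← Finset.prod_mul_distrib]
  refine Finset.prod_congr rfl fun i _ => ?_
  rw [← Finset.prod_mul_distrib]
  refine Finset.prod_congr rfl fun l _ => ?_
  simp only [Pj]
  split_ifs
  · exact mul_comm _ _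
  · rfl

theorem rho_elim_prp {z : ι → Pt o Ω} {y : ι' → Pt o Ω} (h : Good (Sum.elim z y))
    (hy : clz y = 0) : Prp (rho (Sum.elim z y)) (rho z) := by
  obtain ⟨f, hf, hd⟩ := exists_dv_of_clz_eq_zero hy
  have hyi : Function.Injective y := h.1.comp Sum.inr_injective
  obtain ⟨μ, hμ, h₁⟩ := exists_Det_move y hyi f hf hd (ι ⊕ Fin (genus κ F) × Fin (NN o)) (by
    rw [Fintype.card_sum, Fintype.card_prod, Fintype.card_fin, Fintype.card_fin]
    exact (Nat.le_mul_of_pos_right _ (Nat.succ_pos _)).trans (Nat.le_add_left _ _))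
  obtain ⟨ν, hν, h₂⟩ := exists_norm_fibre y hyi f hf hd
  obtain ⟨ε, h₃⟩ := exists_Det_comp_equiv (o := o) (P2e ι ι' (Fin (genus κ F) × Fin (NN o)))
  have hz : ∏ a, evA (z a) f ≠ 0 :=
    P2_prod_ne hf hd fun a b e => Sum.inr_ne_inl (h.1 (a₁ := .inr b) (a₂ := .inl a) e)
  have hD : ∀ j : JJ o, Det (Sum.elim (Sum.elim z y) (Pj Ω j)) =
      ((ε : ℤ) : Ω) * μ * (∏ a, evA (z a) f) * (∏ a, evA (Pj Ω j a) f) *
        Det (Sum.elim z (Pj Ω j)) := by
    intro j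
    rw [← P2e_elim, h₃, h₁, Fintype.prod_sum_type]
    simp only [Sum.elim_inl, Sum.elim_inr]
    ring
  refine ⟨(((ε : ℤ) : Ω) * μ * ∏ a, evA (z a) f) ^ 2 *
    ∏ _s : Fin (genus κ F) ⊕ Fin (genus κ F), ν,
    mul_ne_zero (pow_ne_zero _ (mul_ne_zero (mul_ne_zero (P2_unit_ne ε) hμ) hz))
      (Finset.prod_ne_zero_iff.2 fun _ _ => hν), fun j => ?_⟩
  have h₄ := P2_prod_Pj (fun p : Pt o Ω => evA p f) j
  rw [Finset.prod_congr rfl fun s _ => h₂ (algebraMap κ Ω ((pdat o).c (j s)))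
    (fun l => cpt Ω ((pdat o).q (j s) l))
    (fun a b e => (pdat o).q_inj _ (AlgHom.ext fun t =>
      (algebraMap κ Ω).injective (DFunLike.congr_fun e t)))
    (fun l => congrArg (algebraMap κ Ω) ((pdat o).q_wN _ l)), Finset.prod_mul_distrib,
    Finset.prod_comm (s := Finset.univ) (t := Finset.univ)] at h₄
  have h₅ : ∏ b, ∏ s, (y b (wN o) - algebraMap κ Ω ((pdat o).c (j s))) ≠ 0 :=
    Finset.prod_ne_zero_iff.2 fun b _ => Finset.prod_ne_zero_iff.2 fun s _ =>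
      sub_ne_zero.2 (h.2 (.inr b) _)
  have h₆ : ∏ a, ∏ s, (z a (wN o) - algebraMap κ Ω ((pdat o).c (j s))) ≠ 0 :=
    Finset.prod_ne_zero_iff.2 fun a _ => Finset.prod_ne_zero_iff.2 fun s _ =>
      sub_ne_zero.2 (h.2 (.inl a) _)
  rw [rho, rho, hD, hD, Fintype.prod_sum_type (α₁ := ι)]
  simp only [Sum.elim_inl, Sum.elim_inr]
  rw [div_eq_iff (mul_ne_zero h₆ h₅), mul_assoc _ (_ / _), ← mul_assoc (_ / _),
    div_mul_cancel₀ _ h₆]
  linear_combination (((ε : ℤ) : Ω) * μ * ∏ a, evA (z a) f) ^ 2 * Det (Sum.elim z (Pj Ω j)) *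
    Det (Sum.elim z (Pj Ω (sw j))) * h₄

theorem P2_prp {z : ι → Pt o Ω} {z' : ι' → Pt o Ω} (h : Good z) (h' : Good z')
    (hc : clz z = clz z') (hd : ∀ a b, z a ≠ z' b) : Prp (rho z) (rho z') := by
  obtain ⟨y, hy, hT, hw⟩ := exists_good_rep (-clz z) (Fin (2 * genus κ F)) (by simp)
    ((Set.finite_range z).union (Set.finite_range z'))
  have y1 : ∀ a b, y a ≠ z b := fun a b e => hT a (Or.inl ⟨b, e.symm⟩)
  have y2 : ∀ a b, y a ≠ z' b := fun a b e => hT a (Or.inr ⟨b, e.symm⟩)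
  have p1 := rho_elim_prp (h.elim (hy.elim h' y2) (by
    rintro a (b | b)
    exacts [(y1 b a).symm, hd a b])) (by rw [clz_elim, hw, hc, neg_add_cancel])
  have p2 := rho_elim_prp (h'.elim (hy.elim h y1) (by
    rintro a (b | b)
    exacts [(y2 b a).symm, (hd b a).symm])) (by rw [clz_elim, hw, neg_add_cancel])
  let e : ι ⊕ (Fin (2 * genus κ F) ⊕ ι') ≃ ι' ⊕ (Fin (2 * genus κ F) ⊕ ι) :=
    (Equiv.sumComm _ _).trans (((Equiv.sumComm _ _).sumCongr (Equiv.refl ι)).trans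
      (Equiv.sumAssoc _ _ _))
  have e1 : Sum.elim z' (Sum.elim y z) ∘ e = Sum.elim z (Sum.elim y z') := by
    funext a
    rcases a with a | a | a <;> rfl
  rw [← e1, rho_comp_equiv] at p1
  exact p1.symm.trans p2

/-- the theta vector only depends on the class -/
theorem rho_prp {z : ι → Pt o Ω} {z' : ι' → Pt o Ω} (h : Good z) (h' : Good z')
    (hc : clz z = clz z') : Prp (rho z) (rho z') := by
  obtain ⟨y, hy, hT, hw⟩ := exists_good_rep (clz z) (Fin (2 * genus κ F)) (by simp)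
    ((Set.finite_range z).union (Set.finite_range z'))
  exact (P2_prp hy h hw fun a b e => hT a (Or.inl ⟨b, e.symm⟩)).symm.trans
    (P2_prp hy h' (hw.trans hc) fun a b e => hT a (Or.inr ⟨b, e.symm⟩))

end Pool.Agent.E6b

end

section
open scoped NNReal TensorProduct IntermediateField BigOperators Classical Topology
open Filter

namespace Pool.Agent.E6b
variable {κ F : Type} [Field κ] [IsAlgClosed κ] [CharZero κ] [Field F] [Algebra κ F] [IsFF κ F]
  {o : Place κ F} {Ω Ω' : Type} [Field Ω] [IsAlgClosed Ω] [CharZero Ω] [Algebra κ Ω]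
  [Field Ω'] [IsAlgClosed Ω'] [CharZero Ω'] [Algebra κ Ω'] {ι ι' ι'' : Type} [Fintype ι]
  [Fintype ι'] [Fintype ι'']

theorem rho_prp_Psi {z : ι → Pt o Ω} (h : Good z) : Prp (rho z) (Psi (clz z)) :=
  rho_prp h (rep_good _) (clz_rep _).symm

theorem Psi_ne_zero_iff (w : Cl o Ω) (j : JJ o) :
    Psi w j ≠ 0 ↔ Th (w + aj Ω j) ∧ Th (w - aj Ω j) := by
  have h := rho_ne_zero_iff (rep_good w) j
  rw [clz_rep] at h
  exact h

theorem Psi_ne_zero (w : Cl o Ω) : Psi w ≠ 0 := rho_ne_zero (rep_good w)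

theorem Psym_ne_zero (w : Cl o Ω) : Psym w ≠ 0 := by
  obtain ⟨i, hi⟩ := Function.ne_iff.1 (Psi_ne_zero w)
  obtain ⟨j, hj⟩ := Function.ne_iff.1 (Psi_ne_zero (-w))
  exact Function.ne_iff.2 ⟨(i, j), mul_ne_zero hi hj⟩

theorem BC.Ok.Psi {β : BC o Ω Ω'} (h : β.Ok) (w : Cl o Ω) :
    Prp (Psi (β.cl w)) fun j => β.τ (Psi w j) := by
  have h1 := rho_prp_Psi (h.good (rep_good w))
  rw [← β.cl_clz, clz_rep] at h1
  have h2 : E6b.rho (fun a => β.pt (rep w a)) = fun j => β.τ (E6b.Psi w j) :=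
    funext fun j => h.rho (rep w) j
  rw [h2] at h1
  exact h1.symm

theorem BC.Ok.Psym {β : BC o Ω Ω'} (h : β.Ok) (w : Cl o Ω) :
    Prp (Psym (β.cl w)) fun j => β.τ (Psym w j) := by
  have h1 := (h.Psi w).segre (h.Psi (-w))
  rw [map_neg] at h1
  have h2 : (fun j => β.τ (E6b.Psym w j)) =
      fun p : JJ o × JJ o => β.τ (E6b.Psi w p.1) * β.τ (E6b.Psi (-w) p.2) :=
    funext fun p => map_mul β.τ _ _
  rw [h2]
  exact h1

theorem P3_lift (O : VS κ Ω) (w : Cl o Ω) : ∃ u : JJ o → Ω, Prp u (Psi w) ∧ (∀ j, u j ∈ O.1) ∧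
    Prp (fun j => rs O (u j)) (Psi (redCl O o w)) := by
  have hT : {y : Pt o (RF O) | ∃ i, y (wN o) = algebraMap κ (RF O) ((pdat o).c i)}.Finite := by
    refine (Set.finite_iUnion fun i =>
      finite_pt_wN (o := o) (algebraMap κ (RF O) ((pdat o).c i))).subset ?_
    rintro y ⟨i, hi⟩
    exact Set.mem_iUnion.2 ⟨i, hi⟩
  obtain ⟨z, hz, hw, hi, hT'⟩ := exists_good_lift O w (Fin (2 * genus κ F)) (by simp) hT
  have hg : Good fun a => redp O (z a) (hz a) := ⟨hi, fun a i h => hT' a ⟨i, h⟩⟩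
  obtain ⟨j₀, -⟩ := exists_j w
  refine ⟨rho z, hw ▸ rho_prp_Psi (rho_red O hz hg j₀).1, fun j => (rho_red O hz hg j).2.1, ?_⟩
  have h2 : (fun j => rs O (rho z j)) = rho fun a => redp O (z a) (hz a) :=
    funext fun j => (rho_red O hz hg j).2.2
  rw [h2, ← hw, redCl_clz O hz]
  exact rho_prp_Psi hg

theorem Psi_red (O : VS κ Ω) (w : Cl o Ω) {x : JJ o → Ω} (hx : Prp x (Psi w)) (h1 : vs O.1 x = 1) :
    Prp (fun j => rs O (x j)) (Psi (redCl O o w)) := by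
  obtain ⟨u, h2, h3, h4⟩ := P3_lift O w
  exact P3_red_gen O (hx.trans h2.symm) h3 h4 (Psi_ne_zero _) h1

theorem Psym_red (O : VS κ Ω) (w : Cl o Ω) {x : JJ o × JJ o → Ω} (hx : Prp x (Psym w))
    (h1 : vs O.1 x = 1) : Prp (fun j => rs O (x j)) (Psym (redCl O o w)) := by
  obtain ⟨u, h2, h3, h4⟩ := P3_lift O w
  obtain ⟨u', h2', h3', h4'⟩ := P3_lift O (-w)
  rw [map_neg] at h4'
  refine P3_red_gen O (u := fun p : JJ o × JJ o => u p.1 * u' p.2) (hx.trans (h2.segre h2').symm)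
    (fun p => O.1.mul_mem _ _ (h3 _) (h3' _)) ?_ (Psym_ne_zero _) h1
  have h5 : (fun p : JJ o × JJ o => rs O (u p.1 * u' p.2)) =
      fun p : JJ o × JJ o => rs O (u p.1) * rs O (u' p.2) :=
    funext fun p => rs_mul O (h3 _) (h3' _)
  rw [h5]
  exact h4.segre h4'

theorem P3_dsq_Pj (O : VS κ Ω) (j : JJ o) : dsq O (fun x => plc (Pj Ω j x)) = 1 := by
  refine dsq_eq_one O fun x y h => ?_
  simp only [P3_red_Pj] at h
  exact Pj_injective j (plc_injective h)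

theorem P3_fib (O : VS κ Ω) (y : Pt o Ω) (i : Fin (5 * genus κ F + 1)) :
    dsD O (plc y) (dz fun l => cpt Ω ((pdat o).q i l)) =
      O.1.valuation (y (wN o) - algebraMap κ Ω ((pdat o).c i)) *
        ds O (plc y) (oo o Ω) ^ (NN o : ℤ) := by
  have hf : iF o Ω (wN o) - algebraMap Ω (FO o Ω) (algebraMap κ Ω ((pdat o).c i)) =
      iF o Ω (wN o - algebraMap κ (AA o) ((pdat o).c i)) := by
    rw [map_sub, AlgHom.commutes, ← IsScalarTower.algebraMap_apply]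
  have h0 : iF o Ω (wN o) - algebraMap Ω (FO o Ω) (algebraMap κ Ω ((pdat o).c i)) ≠ 0 := fun h =>
    iF_wN_notMem (o := o) (Ω := Ω) ⟨_, (sub_eq_zero.1 h).symm⟩
  have h0' : wN o - algebraMap κ (AA o) ((pdat o).c i) ≠ 0 := fun h => h0 (by rw [hf, h, map_zero])
  have hd : (NN o : ℤ) • pd (oo o Ω) +
      dv Ω (iF o Ω (wN o) - algebraMap Ω (FO o Ω) (algebraMap κ Ω ((pdat o).c i))) =
      dz fun l => cpt Ω ((pdat o).q i l) := by
    rw [dv_wN_sub_c]; abel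
  have hP : ((NN o : ℤ) • pd (oo o Ω)) (plc y) = 0 := by
    rw [Finsupp.smul_apply, F1_pd_apply, if_neg (plc_ne_oo y).symm, smul_zero]
  have h1 := val_ev_mul O ((mem_LL_iff h0).2 (hd ▸ dz_nonneg _)) h0 hP
  rw [hd, dsD_zsmul_pd, hf, gv_iF O h0', one_mul, (plc_iF y _).2, map_sub, AlgHom.commutes] at h1
  exact h1.symm

theorem P3_EE (O : VS κ Ω) (z : ι → Pt o Ω) (j : JJ o) :
    (∏ a, ∏ b, ds O (plc (z a)) (plc (Pj Ω j b))) *
        (∏ a, ∏ b, ds O (plc (z a)) (plc (Pj Ω (sw j) b))) =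
      O.1.valuation (∏ a, ∏ s, (z a (wN o) - algebraMap κ Ω ((pdat o).c (j s)))) *
        (∏ a, ds O (plc (z a)) (oo o Ω) ^ ((genus κ F : ℤ) * NN o)) ^ 2 := by
  rw [← Finset.prod_mul_distrib, map_prod, ← Finset.prod_pow, ← Finset.prod_mul_distrib]
  refine Finset.prod_congr rfl fun a _ => ?_
  rw [← dsD_dz, ← dsD_dz, ← dsD_add_of_nonneg O _ (dz_nonneg _) (dz_nonneg _), dz_Pj_add,
    P3_dsD_sum O _ _ fun _ => dz_nonneg _, map_prod]
  simp only [P3_fib]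
  rw [Finset.prod_mul_distrib, Finset.prod_const]
  congr 1
  rw [← zpow_natCast, ← zpow_natCast, ← zpow_mul, ← zpow_mul]
  congr 1
  simp only [Finset.card_univ, Fintype.card_sum, Fintype.card_fin]
  push_cast
  ring

theorem P3_det (O : VS κ Ω) {z : ι → Pt o Ω} (h : Good z) (j : JJ o) :
    (O.1.valuation (Det (Sum.elim z (Pj Ω j))) *
      ((∏ a, ds O (plc (z a)) (oo o Ω) ^ ((Fintype.card ι : ℤ) + genus κ F - 1)) *
        ∏ a, ds O (plc (z a)) (oo o Ω) ^ ((genus κ F : ℤ) * NN o))) ^ 2 ≤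
      dsq O (fun a => plc (z a)) * (∏ a, ∏ b, ds O (plc (z a)) (plc (Pj Ω j b))) ^ 2 ∧
    (Th (redCl O o (clz z) + aj (RF O) j) → (O.1.valuation (Det (Sum.elim z (Pj Ω j))) *
      ((∏ a, ds O (plc (z a)) (oo o Ω) ^ ((Fintype.card ι : ℤ) + genus κ F - 1)) *
        ∏ a, ds O (plc (z a)) (oo o Ω) ^ ((genus κ F : ℤ) * NN o))) ^ 2 =
      dsq O (fun a => plc (z a)) * (∏ a, ∏ b, ds O (plc (z a)) (plc (Pj Ω j b))) ^ 2) := by
  have hc : genus κ F ≤ Fintype.card (ι ⊕ Fin (genus κ F) × Fin (NN o)) := by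
    rw [Fintype.card_sum, Fintype.card_prod, Fintype.card_fin, Fintype.card_fin]
    exact le_add_left (Nat.le_mul_of_pos_right _ (Nat.succ_pos _))
  have h1 := val_Det O _ (h.injective_elim_Pj j) hc
  have h2 : (fun a => plc (Sum.elim z (Pj Ω j) a)) =
      Sum.elim (fun a => plc (z a)) fun b => plc (Pj Ω j b) := by
    funext a; cases a <;> rfl
  have h3 : (∏ a, ds O (plc (Sum.elim z (Pj Ω j) a)) (oo o Ω) ^
      ((Fintype.card (ι ⊕ Fin (genus κ F) × Fin (NN o)) : ℤ) + genus κ F - 1)) =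
      (∏ a, ds O (plc (z a)) (oo o Ω) ^ ((Fintype.card ι : ℤ) + genus κ F - 1)) *
        ∏ a, ds O (plc (z a)) (oo o Ω) ^ ((genus κ F : ℤ) * NN o) := by
    rw [Fintype.prod_sum_type]
    simp only [Sum.elim_inl, Sum.elim_inr, P3_ds_Pj, one_zpow, Finset.prod_const_one, mul_one]
    rw [← Finset.prod_mul_distrib]
    refine Finset.prod_congr rfl fun a _ => ?_
    rw [← zpow_add₀ (P3_ds_ne O _)]
    congr 1
    simp only [Fintype.card_sum, Fintype.card_prod, Fintype.card_fin]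
    push_cast
    ring
  rw [h3, h2, dsq_elim, P3_dsq_Pj, mul_one, clz_elim, map_add] at h1
  refine ⟨h1.1, fun h4 => h1.2.2 ?_⟩
  rw [← redCl_aj] at h4
  exact h4

/-- size of the theta vector -/
theorem vs_rho (O : VS κ Ω) {z : ι → Pt o Ω} (h : Good z) :
    vs O.1 (rho z) * (∏ a, ds O (plc (z a)) (oo o Ω) ^ ((Fintype.card ι : ℤ) + genus κ F - 1)) ^ 2 =
      dsq O fun a => plc (z a) := by
  have hB : (∏ a, ds O (plc (z a)) (oo o Ω) ^ ((genus κ F : ℤ) * NN o)) ≠ 0 :=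
    Finset.prod_ne_zero_iff.2 fun a _ => zpow_ne_zero _ (P3_ds_ne O _)
  have hW : ∀ j : JJ o,
      O.1.valuation (∏ a, ∏ s, (z a (wN o) - algebraMap κ Ω ((pdat o).c (j s)))) ≠ 0 := fun j =>
    (map_ne_zero _).2 (Finset.prod_ne_zero_iff.2 fun a _ => Finset.prod_ne_zero_iff.2 fun s _ =>
      sub_ne_zero.2 (h.2 a _))
  have hv : ∀ j : JJ o, O.1.valuation (rho z j) =
      O.1.valuation (Det (Sum.elim z (Pj Ω j))) * O.1.valuation (Det (Sum.elim z (Pj Ω (sw j)))) /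
        O.1.valuation (∏ a, ∏ s, (z a (wN o) - algebraMap κ Ω ((pdat o).c (j s)))) := fun j => by
    rw [rho, map_div₀, map_mul]
  obtain ⟨j₀, h1, h2⟩ := exists_j (redCl O o (clz z))
  rw [sub_eq_add_neg, ← aj_sw] at h2
  have : Nonempty (JJ o) := ⟨j₀⟩
  obtain ⟨j, hj⟩ := exists_vs_eq O.1 (rho z)
  refine le_antisymm ?_ ?_
  · rw [← hj, hv]
    exact (P3_alg' hB (hW j) (P3_EE O z j)).1 (P3_det O h j).1 (P3_det O h (sw j)).1
  · rw [← (P3_alg' hB (hW j₀) (P3_EE O z j₀)).2 ((P3_det O h j₀).2 h1) ((P3_det O h (sw j₀)).2 h2),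
      ← hv]
    exact mul_le_mul' (le_vs O.1 (rho z) j₀) le_rfl

theorem P3_vs_rho (O : VS κ Ω) {z : ι → Pt o Ω} (h : Good z) :
    vs O.1 (rho z) * ((∏ a, ds O (plc (z a)) (oo o Ω)) ^
      ((Fintype.card ι : ℤ) + ((genus κ F : ℤ) - 1))) ^ 2 = dsq O fun a => plc (z a) := by
  rw [← Finset.prod_zpow, ← add_sub_assoc]
  exact vs_rho O h

theorem P3_elim (O : VS κ Ω) (x : ι → Pt o Ω) (y : ι' → Pt o Ω) :
    (∏ a, ds O (plc (Sum.elim x y a)) (oo o Ω)) =
      (∏ a, ds O (plc (x a)) (oo o Ω)) * (∏ a, ds O (plc (y a)) (oo o Ω)) ∧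
    (dsq O fun a => plc (Sum.elim x y a)) = dsq O (fun a => plc (x a)) * dsq O (fun a => plc (y a)) *
      (∏ a, ∏ b, ds O (plc (x a)) (plc (y b))) ^ 2 := by
  refine ⟨Fintype.prod_sum_type _, ?_⟩
  have h2 : (fun a => plc (Sum.elim x y a)) =
      Sum.elim (fun a => plc (x a)) fun b => plc (y b) := by
    funext a; cases a <;> rfl
  rw [h2, dsq_elim]

omit [Fintype ι] [Fintype ι'] [Fintype ι''] in
theorem P3_good {x : ι → Pt o Ω} {y : ι' → Pt o Ω} {z : ι'' → Pt o Ω}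
    (h : Good (Sum.elim (Sum.elim x y) z)) : Good x ∧ Good y ∧ Good z ∧ Good (Sum.elim x y) ∧
      Good (Sum.elim x z) ∧ Good (Sum.elim y z) := by
  refine ⟨h.comp (e := Sum.inl ∘ Sum.inl) (Sum.inl_injective.comp Sum.inl_injective),
    h.comp (e := Sum.inl ∘ Sum.inr) (Sum.inl_injective.comp Sum.inr_injective),
    h.comp (e := Sum.inr) Sum.inr_injective, h.comp (e := Sum.inl) Sum.inl_injective, ?_, ?_⟩
  · have h1 := h.comp (e := Sum.map Sum.inl id)
      (Sum.map_injective.2 ⟨Sum.inl_injective, Function.injective_id⟩)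
    convert h1 using 1
    funext a; cases a <;> rfl
  · have h1 := h.comp (e := Sum.map Sum.inr id)
      (Sum.map_injective.2 ⟨Sum.inr_injective, Function.injective_id⟩)
    convert h1 using 1
    funext a; cases a <;> rfl

/-- theorem of the cube -/
theorem cube_rho (O : VS κ Ω) {x : ι → Pt o Ω} {y : ι' → Pt o Ω} {z : ι'' → Pt o Ω}
    (h : Good (Sum.elim (Sum.elim x y) z)) :
    vs O.1 (rho (Sum.elim (Sum.elim x y) z)) * vs O.1 (rho x) * vs O.1 (rho y) * vs O.1 (rho z) =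
      vs O.1 (rho (Sum.elim x y)) * vs O.1 (rho (Sum.elim x z)) * vs O.1 (rho (Sum.elim y z)) := by
  obtain ⟨hx, hy, hz, hxy, hxz, hyz⟩ := P3_good h
  have h1 := P3_vs_rho O h
  have h5 := P3_vs_rho O hxy
  have h6 := P3_vs_rho O hxz
  have h7 := P3_vs_rho O hyz
  rw [(P3_elim O _ _).1, (P3_elim O _ _).2, Fintype.card_sum, Nat.cast_add] at h1 h5 h6 h7
  rw [(P3_elim O _ _).1, (P3_elim O _ _).2, Fintype.card_sum, Nat.cast_add,
    Fintype.prod_sum_type] at h1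
  exact P3_cube (Finset.prod_ne_zero_iff.2 fun a _ => P3_ds_ne O _)
    (Finset.prod_ne_zero_iff.2 fun a _ => P3_ds_ne O _)
    (Finset.prod_ne_zero_iff.2 fun a _ => P3_ds_ne O _) h1 (P3_vs_rho O hx) (P3_vs_rho O hy)
    (P3_vs_rho O hz) h5 h6 h7

theorem exists_good_triple (a b c : Cl o Ω) :
    ∃ x y z : Fin (2 * genus κ F) → Pt o Ω, Good (Sum.elim (Sum.elim x y) z) ∧
      clz x = a ∧ clz y = b ∧ clz z = c := by
  obtain ⟨x, hx, -, ha⟩ := exists_good_rep a (Fin (2 * genus κ F)) (by simp) Set.finite_empty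
  obtain ⟨y, hy, hy', hb⟩ := exists_good_rep b (Fin (2 * genus κ F)) (by simp) (Set.finite_range x)
  obtain ⟨z, hz, hz', hc⟩ := exists_good_rep c (Fin (2 * genus κ F)) (by simp)
    (Set.finite_range (Sum.elim x y))
  exact ⟨x, y, z, (hx.elim hy fun a b h => hy' b ⟨a, h⟩).elim hz fun a b h => hz' b ⟨a, h⟩,
    ha, hb, hc⟩

theorem P3_vs_Psi {z : ι → Pt o Ω} (h : Good z) : ∃ μ : Ω, μ ≠ 0 ∧ ∀ O : VS κ Ω,
    vs O.1 (rho z) = O.1.valuation μ * vs O.1 (Psi (clz z)) := by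
  obtain ⟨μ, hμ, h1⟩ := rho_prp_Psi h
  refine ⟨μ, hμ, fun O => ?_⟩
  rw [← vs_smul]
  exact congrArg _ (funext h1)

theorem cube_val (a b c : Cl o Ω) : ∃ γ : Ω, γ ≠ 0 ∧ ∀ O : VS κ Ω,
    vs O.1 (Psi (a + b + c)) * vs O.1 (Psi a) * vs O.1 (Psi b) * vs O.1 (Psi c) =
      O.1.valuation γ * (vs O.1 (Psi (a + b)) * vs O.1 (Psi (a + c)) * vs O.1 (Psi (b + c))) := by
  obtain ⟨x, y, z, h, rfl, rfl, rfl⟩ := exists_good_triple a b c
  obtain ⟨hx, hy, hz, hxy, hxz, hyz⟩ := P3_good h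
  obtain ⟨m1, n1, h1⟩ := P3_vs_Psi h
  obtain ⟨m2, n2, h2⟩ := P3_vs_Psi hx
  obtain ⟨m3, n3, h3⟩ := P3_vs_Psi hy
  obtain ⟨m4, n4, h4⟩ := P3_vs_Psi hz
  obtain ⟨m5, n5, h5⟩ := P3_vs_Psi hxy
  obtain ⟨m6, n6, h6⟩ := P3_vs_Psi hxz
  obtain ⟨m7, n7, h7⟩ := P3_vs_Psi hyz
  refine ⟨m5 * m6 * m7 / (m1 * m2 * m3 * m4), by positivity, fun O => ?_⟩
  have h8 := cube_rho O h
  rw [h1, h2, h3, h4, h5, h6, h7] at h8
  simp only [clz_elim] at h8
  have h0 : O.1.valuation (m1 * m2 * m3 * m4) ≠ 0 := (map_ne_zero _).2 (by positivity)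
  rw [map_div₀, div_mul_eq_mul_div, eq_div_iff h0]
  simp only [map_mul]
  calc _ = _ := ?_
    _ = _ := h8
    _ = _ := ?_
  · ac_rfl
  · ac_rfl

/-- parallelogram law for valuations -/
theorem par_val (a b : Cl o Ω) : ∃ γ : Ω, γ ≠ 0 ∧ ∀ O : VS κ Ω,
    vs O.1 (Psym (a + b)) * vs O.1 (Psym (a - b)) =
      O.1.valuation γ * (vs O.1 (Psym a) * vs O.1 (Psym b)) ^ 2 := by
  obtain ⟨g0, n0, h0⟩ := cube_val (0 : Cl o Ω) 0 0
  obtain ⟨g1, n1, h1⟩ := cube_val a b (-b)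
  obtain ⟨g2, n2, h2⟩ := cube_val (-a) (-b) b
  refine ⟨(g1 * g2 * g0 * g0)⁻¹, by positivity, fun O => ?_⟩
  have hs : ∀ w : Cl o Ω, vs O.1 (Psym w) = vs O.1 (Psi w) * vs O.1 (Psi (-w)) := fun w =>
    vs_segre O.1 _ _
  have e0 := h0 O
  have e1 := h1 O
  have e2 := h2 O
  simp only [add_zero] at e0
  rw [add_neg_cancel_right, add_neg_cancel, ← sub_eq_add_neg] at e1
  rw [neg_add_cancel_right, neg_add_cancel, ← neg_add, show -a + b = -(a - b) by abel] at e2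
  simp only [hs, map_inv₀, map_mul]
  exact P3_par (vs_ne_zero _ (Psi_ne_zero _)) ((map_ne_zero _).2 n1) ((map_ne_zero _).2 n2)
    e0 e1 e2

end Pool.Agent.E6b

end

section
open scoped NNReal TensorProduct IntermediateField BigOperators Classical Topology
open Filter

namespace Pool.Agent.E6b

section
variable {F : Type} [Field F] [Algebra Qb F] [IsFF Qb F]
variable {o : Place Qb F} {d r : ℕ}

/-- geometric meaning of the model at its generic point -/
def Mdl.Real (M : Mdl Qb r (IX o d)) : Prop :=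
  ∀ (Ω : Type) [Field Ω] [IsAlgClosed Ω] [CharZero Ω] [Algebra Qb Ω] (u : Fin r → Ω) (ξ : Ω),
    AlgebraicIndependent Qb u → M.IsPt u ξ → ∃ z : Fin d → Pt o Ω, M.Crd u ξ z ∧
      Prp (Psym (clz z)) (fun j => M.val u ξ (.inr j)) ∧ (∃ j, M.val u ξ (.inr j) = 1) ∧
      ∀ k, ∃ (a : Fin d) (i : Fin (MM o)), u k = z a (eb o i)

/-- a model together with a special point -/
structure Lev (o : Place Qb F) (d r Δ : ℕ) where
  M : Mdl Qb r (IX o d)
  cx : M.Cx Δ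
  real : M.Real
  u : Fin r → Qb
  ξ : Qb
  pt : M.IsPt u ξ
  z : Fin d → Pt o Qb
  crd : M.Crd u ξ z

/-- height of the special point -/
noncomputable def Lev.hs {Δ : ℕ} (L : Lev o d r Δ) : ℝ := ∑ k, h1 (L.u k) + h1 L.ξ

end

end Pool.Agent.E6b

end

section
open scoped NNReal TensorProduct IntermediateField BigOperators Classical Topology
open Filter

namespace Pool.Agent.E6b

theorem M1_ev2 {K R : Type} [Field K] [CommRing R] [Algebra K R] {r : ℕ} (u : Fin r → R) (ξ : R)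
    (p : PP K r) :
    ev2 u ξ p = p.eval₂ (MvPolynomial.aeval u : MvPolynomial (Fin r) K →ₐ[K] R).toRingHom ξ := rfl

theorem map_ev2 {K R R' : Type} [Field K] [CommRing R] [Algebra K R] [CommRing R'] [Algebra K R']
    {r : ℕ} (φ : R →ₐ[K] R') (u : Fin r → R) (ξ : R) (p : PP K r) :
    φ (ev2 u ξ p) = ev2 (fun k => φ (u k)) (φ ξ) p := by
  rw [M1_ev2, M1_ev2]
  refine (Polynomial.hom_eval₂ p _ φ.toRingHom ξ).trans ?_
  congr 1
  rw [← MvPolynomial.comp_aeval]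
  rfl

end Pool.Agent.E6b

end

section

namespace Pool.Agent.E6b
open Polynomial

theorem C1_ev2 {K R : Type} [Field K] [CommRing R] [Algebra K R] {r : ℕ} (u : Fin r → R) (ξ : R)
    (p : PP K r) : ev2 u ξ p = p.eval₂ (MvPolynomial.aeval u : _ →ₐ[K] R).toRingHom ξ := rfl

end Pool.Agent.E6b

end

section
open scoped NNReal TensorProduct IntermediateField BigOperators Classical Topology
open Filter

namespace Pool.Agent.E6b
variable {κ F : Type} [Field κ] [IsAlgClosed κ] [CharZero κ] [Field F] [Algebra κ F] [IsFF κ F]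
  {o : Place κ F} {Ω : Type} [Field Ω] [IsAlgClosed Ω] [CharZero Ω] [Algebra κ Ω]

section
variable {K : Type} [Field K] [IsAlgClosed K] [CharZero K] [Algebra κ K] (τ : K →ₐ[κ] Ω)

omit [IsAlgClosed κ] [CharZero κ] [IsAlgClosed Ω] [CharZero Ω] [CharZero K] in
/-- a vector whose size is principal for all valuation rings containing `K` comes from `K` -/
theorem exists_prp_of_vs {ι : Type} [Fintype ι] {x : ι → Ω} (hx : x ≠ 0) {k : ℕ} (hk : 0 < k)
    {γ : Ω} (h : ∀ O : VS κ Ω, (∀ c, τ c ∈ O.1) → vs O.1 x ^ k = O.1.valuation γ) :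
    ∃ y : ι → K, Prp x fun i => τ (y i) := P5_exists_prp τ hx hk h

theorem P5_vs_bc (a : Cl o K) : ∃ μ : Ω, μ ≠ 0 ∧ ∀ O : ValuationSubring Ω, (∀ c, τ c ∈ O) →
    vs O (Psym ((bc o τ).cl a)) = O.valuation μ := by
  have h := (bc_ok (o := o) τ).Psym a
  rw [bc_τ] at h
  exact P5_vs_prp τ (Psym_ne_zero _) h

theorem P5_psi {w : Cl o Ω} {x : JJ o × JJ o → K} (h : Prp (Psym w) fun j => τ (x j))
    (a : Cl o K) : ∃ y : JJ o → K, Prp (Psi (w + (bc o τ).cl a)) fun j => τ (y j) := by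
  obtain ⟨γ, hγ, hp⟩ := par_val w ((bc o τ).cl a)
  obtain ⟨μ, hμ, h1⟩ := P5_vs_prp τ (Psym_ne_zero w) h
  obtain ⟨ν, hν, h2⟩ := P5_vs_bc τ a
  obtain ⟨y, hy⟩ := exists_prp_of_vs τ
    (P5_segre_ne_zero (Psym_ne_zero (w + (bc o τ).cl a)) (Psym_ne_zero (w - (bc o τ).cl a)))
    one_pos (γ := γ * (μ * ν) ^ 2) fun O hO => by
      rw [pow_one, vs_segre, hp O, h1 O.1 hO, h2 O.1 hO, map_mul, map_pow, map_mul]
  obtain ⟨y', hy'⟩ := P5_of_segre τ (Psym_ne_zero _) hy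
  exact P5_of_segre τ (Psi_ne_zero _) hy'

theorem P5_th_red {w : Cl o Ω} {y : JJ o → K} (h : Prp (Psi w) fun j => τ (y j)) {j : JJ o}
    (hj : Psi w j ≠ 0) (O : VS κ Ω) (hO : ∀ c, τ c ∈ O.1) : Th (redCl O o (w + aj Ω j)) := by
  have hy := P5_ne_zero_of_prp (map_zero τ) (Psi_ne_zero w) h
  have h1 := Psi_red O w h.symm (P5_vs_one τ O.1 hO hy)
  have hyj : y j ≠ 0 := by
    intro h0
    obtain ⟨μ, -, h⟩ := h
    have h2 : Psi w j = μ * τ (y j) := h j
    rw [h0, map_zero, mul_zero] at h2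
    exact hj h2
  have h3 : rs O (τ (y j)) ≠ 0 := by
    rw [Ne, rs_eq_zero_iff O (hO _), P5_val_one τ O.1 hO hyj]
    exact lt_irrefl _
  obtain ⟨μ, -, h1⟩ := h1
  have h4 : rs O (τ (y j)) = μ * Psi (redCl O o w) j := h1 j
  rw [h4] at h3
  rw [map_add, redCl_aj]
  exact ((Psi_ne_zero_iff _ j).mp (right_ne_zero_of_mul h3)).1

end

end Pool.Agent.E6b

end

section
open scoped NNReal TensorProduct IntermediateField BigOperators Classical Topology
open Filter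

namespace Pool.Agent.E6b

theorem C5_ev2_C {K R : Type} [Field K] [CommRing R] [Algebra K R] {r : ℕ} (u : Fin r → R) (ξ : R)
    (p : MvPolynomial (Fin r) K) : ev2 u ξ (Polynomial.C p) = MvPolynomial.aeval u p :=
  Polynomial.eval₂_C _ _

theorem C5_val {K B R ι : Type} [Field K] [CommRing B] [Algebra K B] [Field R] [Algebra K R]
    {r : ℕ} (M : Mdl K r ι) (φ : B →ₐ[K] R) (u : Fin r → B) (ξ : B) (l : ι) :
    M.val (fun k => φ (u k)) (φ ξ) l = φ (ev2 u ξ (M.P l)) / φ (ev2 u ξ (Polynomial.C M.q)) := by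
  rw [map_ev2, map_ev2, C5_ev2_C]
  rfl

theorem C5_val_red {K B Ω ι : Type} [Field K] [CommRing B] [Algebra K B] [Field Ω] [Algebra K Ω]
    {r : ℕ} (M : Mdl K r ι) (φ : B →ₐ[K] Ω) (χ : B →ₐ[K] K) (u : Fin r → B) (ξ : B) {O : VS K Ω}
    (hO : ∀ b, φ b ∈ O.1 ∧ rs O (φ b) = algebraMap K (RF O) (χ b))
    (hq : χ (ev2 u ξ (Polynomial.C M.q)) ≠ 0) (l : ι) :
    M.val (fun k => φ (u k)) (φ ξ) l ∈ O.1 ∧ rs O (M.val (fun k => φ (u k)) (φ ξ) l) =
      algebraMap K (RF O) (M.val (fun k => χ (u k)) (χ ξ) l) := by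
  have h := C5_rs_div O (hO (ev2 u ξ (M.P l))).1 (hO (ev2 u ξ (Polynomial.C M.q))).1 (by
    rw [(hO _).2]
    exact (map_ne_zero _).2 hq)
  rw [C5_val, C5_val, map_div₀, ← (hO _).2, ← (hO _).2]
  exact h

end Pool.Agent.E6b

end

section
open scoped NNReal TensorProduct IntermediateField BigOperators Classical Topology
open Filter

namespace Pool.Agent.E6b

theorem C2_ev2_X {R : Type} [CommRing R] [Algebra Qb R] {r : ℕ} (u : Fin r → R) (ξ : R) :
    ev2 u ξ (Polynomial.X : PP Qb r) = ξ := by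
  simp [ev2]

end Pool.Agent.E6b

end
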