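import Pool.Agent.E6c.A28
import Pool.Agent.E6c.A29

section
open scoped NNReal TensorProduct IntermediateField BigOperators Classical Topology
open Filter
set_option linter.unusedSectionVars false

namespace Pool.Agent.E6b
variable {κ F : Type} [Field κ] [IsAlgClosed κ] [CharZero κ] [Field F] [Algebra κ F] [IsFF κ F]
  {o : Place κ F} {Ω Ω' Ω'' : Type} [Field Ω] [IsAlgClosed Ω] [CharZero Ω] [Algebra κ Ω]
  [Field Ω'] [IsAlgClosed Ω'] [CharZero Ω'] [Algebra κ Ω']
  [Field Ω''] [IsAlgClosed Ω''] [CharZero Ω''] [Algebra κ Ω'']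

namespace BC
variable (β : BC o Ω Ω')

theorem mem_range_pt {y : Pt o Ω'} :
    y ∈ Set.range β.pt ↔ ∀ i : Fin (MM o), y (eb o i) ∈ β.τ.range := by
  constructor
  · rintro ⟨z, rfl⟩ i
    exact ⟨_, (β.pt_eb z i).symm⟩
  · intro h
    obtain ⟨z, hz⟩ := β.O2_exists_pt' y h
    exact ⟨z, pt_ext o (funext fun i => by rw [cd, cd, β.pt_eb, hz])⟩

end BC

end Pool.Agent.E6b

end

section
open scoped NNReal TensorProduct IntermediateField BigOperators Classical Topology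
open Filter

namespace Pool.Agent.E6b
variable {κ F : Type} [Field κ] [IsAlgClosed κ] [CharZero κ] [Field F] [Algebra κ F] [IsFF κ F]
  {o : Place κ F} {Ω : Type} [Field Ω] [IsAlgClosed Ω] [CharZero Ω] [Algebra κ Ω]
  {ι ι' : Type} [Fintype ι] [Fintype ι']

/-- an injective family has class zero iff it is the set of zeros of a function -/
theorem clz_eq_zero_iff {z : ι → Pt o Ω} (hz : Function.Injective z) :
    clz z = 0 ↔ ∃ f : AO o Ω, f ≠ 0 ∧ (∀ i, (ebO o Ω).repr f i ≠ 0 → pn o i ≤ Fintype.card ι) ∧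
      ∀ a, evA (z a) f = 0 := by
  have hinj := IsFractionRing.injective (AO o Ω) (FO o Ω)
  constructor
  · intro h
    obtain ⟨f, hf, h1⟩ := exists_dv_of_clz_eq_zero h
    have hf' : algebraMap _ (FO o Ω) f ≠ 0 := (map_ne_zero_iff _ hinj).2 hf
    refine ⟨f, hf, ?_, fun a => ?_⟩
    · obtain ⟨a, ha, h2⟩ := mem_LL_oo.1 ((mem_LL_iff (D := (Fintype.card ι : ℤ) • pd (oo o Ω))
        hf').2 (by rw [h1, add_sub_cancel]; exact dz_nonneg z))
      rw [hinj ha] at h2
      exact fun i hi => by exact_mod_cast h2 i hi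
    · rw [← (plc_spec (z a) f).2, Place.ev_eq_zero_iff _ (plc_spec (z a) f).1, ← dv_apply, h1,
        O3_apply_plc]
      exact Or.inr ((O3_pos_iff z _).2 ⟨a, rfl⟩)
  · rintro ⟨f, hf, h1, h2⟩
    have hf' : algebraMap _ (FO o Ω) f ≠ 0 := (map_ne_zero_iff _ hinj).2 hf
    have h3 := O3_dv_eq hz ((mem_LL_iff hf').1 (mem_LL_oo.2 ⟨f, rfl, fun i hi => by
      exact_mod_cast h1 i hi⟩)) fun a => by
        have := h2 a
        rw [← (plc_spec (z a) f).2, Place.ev_eq_zero_iff _ (plc_spec (z a) f).1] at this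
        exact this.resolve_left hf'
    have h4 := clD_dv (algebraMap _ (FO o Ω) f)
    rwa [h3, map_sub, map_zsmul, clD_oo, smul_zero, sub_zero] at h4

end Pool.Agent.E6b

end

section
open scoped NNReal TensorProduct IntermediateField BigOperators Classical Topology
open Filter

namespace Pool.Agent.E6b

/-- embeddings extend to algebraic extensions -/
theorem exists_extend {κ K K' Ω : Type} [Field κ] [Field K] [Field K'] [Field Ω] [IsAlgClosed Ω]
    [Algebra κ K] [Algebra κ K'] [Algebra κ Ω] [Algebra K K'] [IsScalarTower κ K K']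
    [Algebra.IsAlgebraic K K'] (τ : K →ₐ[κ] Ω) :
    ∃ τ' : K' →ₐ[κ] Ω, ∀ x, τ' (algebraMap K K' x) = τ x := by
  let _ : Algebra K Ω := τ.toRingHom.toAlgebra
  have : IsScalarTower κ K Ω := IsScalarTower.of_algebraMap_eq fun c => (τ.commutes c).symm
  let σ : K' →ₐ[K] Ω := IsAlgClosed.lift
  exact ⟨σ.restrictScalars κ, fun x => σ.commutes x⟩

end Pool.Agent.E6b

end

section
open scoped NNReal TensorProduct IntermediateField BigOperators Classical Topology
open Filter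

namespace Pool.Agent.E6b
variable {κ F : Type} [Field κ] [IsAlgClosed κ] [CharZero κ] [Field F] [Algebra κ F] [IsFF κ F]
  {o : Place κ F} {Ω : Type} [Field Ω] [IsAlgClosed Ω] [CharZero Ω] [Algebra κ Ω] (O : VS κ Ω)

theorem intg_iff {y : Pt o Ω} : Intg O y ↔ y (wN o) ∈ O.1 := by
  refine ⟨fun h => h _, fun h a => ?_⟩
  let _ : Algebra (Algebra.adjoin κ {wN o}) Ω :=
    (y.comp (Algebra.adjoin κ {wN o}).val).toRingHom.toAlgebra
  refine F1a_mem_of_integral O.1 (R := Algebra.adjoin κ {wN o}) (fun r => ?_)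
    ((isIntegral_wN o a).map_of_comp_eq (RingHom.id _) y.toRingHom rfl)
  obtain ⟨r, hr⟩ := r
  change y r ∈ O.1
  induction hr using Algebra.adjoin_induction with
  | mem x hx => rw [Set.mem_singleton_iff.1 hx]; exact h
  | algebraMap c => rw [AlgHom.commutes]; exact O.2 c
  | add a b _ _ ha hb => rw [map_add]; exact O.1.add_mem _ _ ha hb
  | mul a b _ _ ha hb => rw [map_mul]; exact O.1.mul_mem _ _ ha hb

end Pool.Agent.E6b

end

section
open scoped NNReal TensorProduct IntermediateField BigOperators Classical Topology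
open Filter

namespace Pool.Agent.E6b
variable {κ F : Type} [Field κ] [IsAlgClosed κ] [CharZero κ] [Field F] [Algebra κ F] [IsFF κ F]
  {o : Place κ F} (U : Ultrafilter ℕ) {L : Type} [Field L] [IsAlgClosed L] [CharZero L]
  [Algebra κ L] {ι : Type} [Fintype ι]

/-- the criterion for class zero in terms of coefficients -/
theorem O4_crit {Ω : Type} [Field Ω] [IsAlgClosed Ω] [CharZero Ω] [Algebra κ Ω] {z : ι → Pt o Ω}
    (hz : Function.Injective z) {s : Finset ℕ} (hs : ∀ i, i ∈ s ↔ pn o i ≤ Fintype.card ι) :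
    clz z = 0 ↔ ∃ c : ℕ → Ω, (¬ ∀ i ∈ s, c i = 0) ∧ ∀ a, ∑ i ∈ s, c i * z a (eb o i) = 0 := by
  have he : ∀ (c : ℕ → Ω) a, evA (z a) (∑ i ∈ s, c i • ebO o Ω i) =
      ∑ i ∈ s, c i * z a (eb o i) := fun c a => by
    simp only [map_sum, map_smul, evA_ebO, smul_eq_mul]
  have hr : ∀ (c : ℕ → Ω) j, (ebO o Ω).repr (∑ i ∈ s, c i • ebO o Ω i) j =
      if j ∈ s then c j else 0 := fun c j => by
    simp [Finsupp.single_apply]
  rw [clz_eq_zero_iff hz]
  constructor
  · rintro ⟨f, h0, h1, h2⟩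
    have hf : ∑ i ∈ s, (ebO o Ω).repr f i • ebO o Ω i = f := by
      refine (ebO o Ω).ext_elem fun j => ?_
      rw [hr]
      split_ifs with hj
      · rfl
      · by_contra h3
        exact hj ((hs j).2 (h1 j (Ne.symm h3)))
    refine ⟨(ebO o Ω).repr f, fun h => h0 ?_, fun a => by rw [← he, hf, h2]⟩
    rw [← hf]
    exact Finset.sum_eq_zero fun i hi => by rw [h i hi, zero_smul]
  · rintro ⟨c, h0, h1⟩
    refine ⟨∑ i ∈ s, c i • ebO o Ω i, fun h => h0 fun i hi => ?_, fun i hi => ?_,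
      fun a => by rw [he, h1]⟩
    · have h2 := hr c i
      rw [h, if_pos hi] at h2
      simpa using h2.symm
    · rw [hr] at hi
      by_contra h3
      exact hi (if_neg fun h4 => h3 ((hs i).1 h4))

theorem O4_los (z : ℕ → ι → Pt o L) (hz : ∀ᶠ n in (U : Filter ℕ), Function.Injective (z n)) :
    (clz fun a => ptU U fun n => z n a) = 0 ↔ ∀ᶠ n in (U : Filter ℕ), clz (z n) = 0 := by
  obtain ⟨s, hs⟩ : ∃ s : Finset ℕ, ∀ i, i ∈ s ↔ pn o i ≤ Fintype.card ι := by
    refine ⟨(Finset.range (Fintype.card ι + 1)).filter fun i => pn o i ≤ Fintype.card ι,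
      fun i => ?_⟩
    have h : i ≤ pn o i := (ebSpec o).mono.le_apply
    rw [Finset.mem_filter, Finset.mem_range]
    omega
  have he : ∀ (c : ℕ → ℕ → L) a, ∑ i ∈ s, gm U (c i) * (ptU U fun n => z n a) (eb o i) = 0 ↔
      ∀ᶠ n in (U : Filter ℕ), ∑ i ∈ s, c i n * z n a (eb o i) = 0 := fun c a => by
    rw [← gm_eq_zero_iff, gm_sum]
    rfl
  have h0 : ∀ c : ℕ → ℕ → L, (¬ ∀ i ∈ s, gm U (c i) = 0) ↔
      ∀ᶠ n in (U : Filter ℕ), ¬ ∀ i ∈ s, c i n = 0 := fun c => by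
    rw [Ultrafilter.eventually_not, Filter.eventually_all_finset]
    simp only [gm_eq_zero_iff]
  rw [O4_crit ((ptU_injective_iff U z).2 hz) hs]
  constructor
  · rintro ⟨c, h1, h2⟩
    choose c' hc' using fun i => gm_surj U (c i)
    simp only [← hc'] at h1 h2
    filter_upwards [hz, (h0 c').1 h1, Filter.eventually_all.2 fun a => (he c' a).1 (h2 a)]
      with n h3 h4 h5
    exact (O4_crit h3 hs).2 ⟨fun i => c' i n, h4, h5⟩
  · intro h
    have h1 : ∀ n, ∃ c : ℕ → L, Function.Injective (z n) → clz (z n) = 0 →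
        (¬ ∀ i ∈ s, c i = 0) ∧ ∀ a, ∑ i ∈ s, c i * z n a (eb o i) = 0 := by
      intro n
      by_cases h2 : Function.Injective (z n) ∧ clz (z n) = 0
      · obtain ⟨c, hc⟩ := (O4_crit h2.1 hs).1 h2.2
        exact ⟨c, fun _ _ => hc⟩
      · exact ⟨0, fun h3 h4 => absurd ⟨h3, h4⟩ h2⟩
    choose c hc using h1
    have h2 := (hz.and h).mono fun n hn => hc n hn.1 hn.2
    exact ⟨fun i => gm U fun n => c n i, (h0 fun i n => c n i).2 (h2.mono fun n hn => hn.1),
      fun a => (he (fun i n => c n i) a).2 (h2.mono fun n hn => hn.2 a)⟩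

theorem O4_inj {α β γ : Type} {z : α → γ} {z' : β → γ} (hz : Function.Injective z)
    (hz' : Function.Injective z') (h : ∀ b, z' b ∉ Set.range z) :
    Function.Injective (Sum.elim z z') :=
  hz.sumElim hz' fun a b hab => h b ⟨a, hab⟩

theorem O4_key {ι' : Type} [Fintype ι'] (z : ℕ → ι → Pt o L) (z' : ℕ → ι' → Pt o L)
    (hz : ∀ n, Function.Injective (z n)) (hz' : ∀ n, Function.Injective (z' n))
    (h : ∀ n, clz (z n) = clz (z' n)) :
    (clz fun a => ptU U fun n => z n a) = clz fun a => ptU U fun n => z' n a := by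
  choose s h1 h2 h3 using fun n => exists_rep (-clz (z n)) (Fin (2 * genus κ F)) (by simp)
    ((Set.finite_range (z n)).union (Set.finite_range (z' n)))
  have h4 := (O4_los U (fun n => Sum.elim (z n) (s n)) (Filter.Eventually.of_forall fun n =>
    O4_inj (hz n) (h1 n) fun b hb => h2 n b (Or.inl hb))).2
    (Filter.Eventually.of_forall fun n => by rw [clz_elim, h3, add_neg_cancel])
  have h5 := (O4_los U (fun n => Sum.elim (z' n) (s n)) (Filter.Eventually.of_forall fun n =>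
    O4_inj (hz' n) (h1 n) fun b hb => h2 n b (Or.inr hb))).2
    (Filter.Eventually.of_forall fun n => by rw [clz_elim, h3, h, add_neg_cancel])
  rw [O4_elim] at h4 h5
  exact add_right_cancel (h4.trans h5.symm)

end Pool.Agent.E6b

end

section
open scoped NNReal TensorProduct IntermediateField BigOperators Classical Topology
open Filter

namespace Pool.Agent.E6b

section
variable {κ F : Type} [Field κ] [IsAlgClosed κ] [CharZero κ] [Field F] [Algebra κ F] [IsFF κ F]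
  (o : Place κ F)

/-- the generic point -/
noncomputable def P4_y0 : Pt o (AlgebraicClosure F) :=
  (IsScalarTower.toAlgHom κ F (AlgebraicClosure F)).comp (AA o).val

theorem P4_alg : Algebra.IsAlgebraic
    (IntermediateField.adjoin κ (Set.range fun _ : Unit => P4_y0 o (wN o)))
    (AlgebraicClosure F) := by
  have hfin : FiniteDimensional κ⟮(wN o : F)⟯ F :=
    finiteDimensional_of_transcendental (transcendental_of_notMem (wN_notMem o))
  have halg : Algebra.IsAlgebraic κ⟮(wN o : F)⟯ (AlgebraicClosure F) :=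
    Algebra.IsAlgebraic.trans _ F _
  set K := IntermediateField.adjoin κ (Set.range fun _ : Unit => P4_y0 o (wN o)) with hK
  have hle : κ⟮(wN o : F)⟯ ≤ K.comap (IsScalarTower.toAlgHom κ F (AlgebraicClosure F)) := by
    rw [IntermediateField.adjoin_simple_le_iff]
    exact IntermediateField.subset_adjoin κ _ ⟨(), rfl⟩
  let f : κ⟮(wN o : F)⟯ →+* K :=
    ((algebraMap F (AlgebraicClosure F)).comp (algebraMap κ⟮(wN o : F)⟯ F)).codRestrict K
      fun x => hle x.2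
  refine ⟨fun x => ?_⟩
  exact (halg.isAlgebraic x).ringHom_of_comp_eq f (RingHom.id _) f.injective rfl

theorem P4_inj {Ω : Type} [Field Ω] [IsAlgClosed Ω] [Algebra κ Ω] (y : Pt o Ω)
    (hy : Function.Injective y) :
    ∃ τ : AlgebraicClosure F →ₐ[κ] Ω, τ.comp (P4_y0 o) = y := by
  obtain ⟨τ, hτ⟩ := exists_extend (K' := AlgebraicClosure F)
    (IsFractionRing.liftAlgHom (K := F) hy : F →ₐ[κ] Ω)
  refine ⟨τ, AlgHom.ext fun a => ?_⟩
  have h := hτ (algebraMap (AA o) F a)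
  rw [IsFractionRing.liftAlgHom_apply, IsFractionRing.lift_algebraMap] at h
  exact h

end

end Pool.Agent.E6b

end

section
open scoped NNReal TensorProduct IntermediateField BigOperators Classical Topology
open Filter

namespace Pool.Agent.E6b
variable {κ F : Type} [Field κ] [IsAlgClosed κ] [CharZero κ] [Field F] [Algebra κ F] [IsFF κ F]
  {o : Place κ F} {Ω : Type} [Field Ω] [IsAlgClosed Ω] [CharZero Ω] [Algebra κ Ω]

theorem P5_pd_nonneg (P : PO o Ω) : (0 : DO o Ω) ≤ pd P := by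
  intro Q
  unfold pd
  rw [Finsupp.single_apply]
  split_ifs <;> simp

theorem P5_drop {D : DO o Ω} {P : PO o Ω} (h : ell (D - pd P) ≠ ell D) :
    ell (D - pd P) + 1 = ell D := by
  have h1 := ell_add_pd_le (D - pd P) P
  rw [sub_add_cancel] at h1
  have h2 : ell (D - pd P) ≤ ell D := ell_mono (sub_le_self _ (P5_pd_nonneg P))
  omega

section
variable {K : Type} [Field K] [IsAlgClosed K] [CharZero K] [Algebra κ K] (τ : K →ₐ[κ] Ω)

theorem P5_step {D D' : DO o Ω} (h : 0 < ell D) (h' : 0 < ell D') : ∃ p : Pt o K,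
    ell (D - (bc o τ).dv (pd (plc p))) + 1 = ell D ∧
      ell (D' - (bc o τ).dv (pd (plc p))) + 1 = ell D' := by
  have hi : Function.Injective fun p : Pt o K => (bc o τ).plc (plc p) :=
    (bc o τ).plc_injective.comp plc_injective
  have hf := ((P5_base_finite h).union (P5_base_finite h')).preimage hi.injOn
  obtain ⟨p, hp⟩ := hf.exists_notMem
  rw [Set.mem_preimage, Set.mem_union, not_or] at hp
  refine ⟨p, ?_, ?_⟩
  · rw [BC.dv_pd]
    exact P5_drop hp.1
  · rw [BC.dv_pd]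
    exact P5_drop hp.2

theorem P5_steps (n : ℕ) : ∀ {D D' : DO o Ω}, ell D = n + 1 → ell D' = n + 1 →
    ∃ Q : DO o K, deg Q = n ∧ ell (D - (bc o τ).dv Q) = 1 ∧ ell (D' - (bc o τ).dv Q) = 1 := by
  induction n with
  | zero =>
    intro D D' h h'
    exact ⟨0, by simpa using deg_zero, by simpa using h, by simpa using h'⟩
  | succ n ih =>
    intro D D' h h'
    obtain ⟨p, hp, hp'⟩ := P5_step τ (D := D) (D' := D') (by omega) (by omega)
    obtain ⟨Q, hQ, h1, h2⟩ := ih (D := D - (bc o τ).dv (pd (plc p)))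
      (D' := D' - (bc o τ).dv (pd (plc p))) (by omega) (by omega)
    refine ⟨pd (plc p) + Q, ?_, ?_, ?_⟩
    · rw [deg_add, deg_pd, hQ]
      push_cast
      ring
    · rw [map_add, ← sub_sub]
      exact h1
    · rw [map_add, ← sub_sub]
      exact h2

end

end Pool.Agent.E6b

end

section
open scoped NNReal TensorProduct IntermediateField BigOperators Classical Topology
open Filter

namespace Pool.Agent.E6b

section
variable {κ Ω : Type} [Field κ] [Field Ω] [Algebra κ Ω]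

theorem C6_q1 {x a b p : VC κ Ω} (s t : ℕ)
    (h : QEq x (a ^ ((s : ℤ) ^ 2 - s * (-(t : ℤ))) * b ^ ((-(t : ℤ)) ^ 2 - s * (-(t : ℤ))) *
      p ^ ((s : ℤ) * (-(t : ℤ))))) :
    QEq (x * p ^ (s * t)) (a ^ (s ^ 2 + s * t) * b ^ (t ^ 2 + s * t)) := by
  have h1 := h.mul (QEq.refl (p ^ (s * t)))
  have e : a ^ ((s : ℤ) ^ 2 - s * (-(t : ℤ))) * b ^ ((-(t : ℤ)) ^ 2 - s * (-(t : ℤ))) *
      p ^ ((s : ℤ) * (-(t : ℤ))) * p ^ (s * t) = a ^ (s ^ 2 + s * t) * b ^ (t ^ 2 + s * t) := by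
    rw [← zpow_natCast p, ← zpow_natCast a, ← zpow_natCast b, mul_assoc, ← zpow_add]
    have e1 : (s : ℤ) * (-(t : ℤ)) + ((s * t : ℕ) : ℤ) = 0 := by push_cast; ring
    have e2 : (s : ℤ) ^ 2 - s * (-(t : ℤ)) = ((s ^ 2 + s * t : ℕ) : ℤ) := by push_cast; ring
    have e3 : (-(t : ℤ)) ^ 2 - s * (-(t : ℤ)) = ((t ^ 2 + s * t : ℕ) : ℤ) := by push_cast; ring
    rw [e1, e2, e3, zpow_zero, mul_one]
  rwa [e] at h1

theorem C6_q2 {x y a b p : VC κ Ω} (s t : ℕ)
    (h : QEq x (a ^ ((s : ℤ) ^ 2 - s * (-(t : ℤ))) * b ^ ((-(t : ℤ)) ^ 2 - s * (-(t : ℤ))) *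
      p ^ ((s : ℤ) * (-(t : ℤ)))))
    (h' : QEq y (a ^ ((s : ℤ) ^ 2 - s * (t : ℤ)) * b ^ ((t : ℤ) ^ 2 - s * (t : ℤ)) *
      p ^ ((s : ℤ) * (t : ℤ)))) :
    QEq (x * y) (a ^ (2 * s ^ 2) * b ^ (2 * t ^ 2)) := by
  have h1 := h.mul h'
  have e : a ^ ((s : ℤ) ^ 2 - s * (-(t : ℤ))) * b ^ ((-(t : ℤ)) ^ 2 - s * (-(t : ℤ))) *
      p ^ ((s : ℤ) * (-(t : ℤ))) * (a ^ ((s : ℤ) ^ 2 - s * (t : ℤ)) *
        b ^ ((t : ℤ) ^ 2 - s * (t : ℤ)) * p ^ ((s : ℤ) * (t : ℤ))) =
      a ^ (2 * s ^ 2) * b ^ (2 * t ^ 2) := by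
    rw [mul_mul_mul_comm, mul_mul_mul_comm (a ^ _), ← zpow_add, ← zpow_add, ← zpow_add,
      ← zpow_natCast a, ← zpow_natCast b]
    have e1 : (s : ℤ) * (-(t : ℤ)) + s * t = 0 := by ring
    have e2 : (s : ℤ) ^ 2 - s * (-(t : ℤ)) + ((s : ℤ) ^ 2 - s * (t : ℤ)) =
      ((2 * s ^ 2 : ℕ) : ℤ) := by push_cast; ring
    have e3 : (-(t : ℤ)) ^ 2 - s * (-(t : ℤ)) + ((t : ℤ) ^ 2 - s * (t : ℤ)) =
      ((2 * t ^ 2 : ℕ) : ℤ) := by push_cast; ring
    rw [e1, e2, e3, zpow_zero, mul_one]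
  rwa [e] at h1

theorem C6_qle_div {J : Type} [Finite J] {n : J → Ω} {q : Ω} (hq : q ≠ 0)
    (h0 : (fun j => n j / q) ≠ 0) {m : VC κ Ω} (h : ∀ j, n j ∈ TT m) :
    QLe (gen κ fun j => n j / q) m := by
  refine ⟨1, one_pos, (Units.mk0 q hq)⁻¹, ?_⟩
  rw [pow_one, pow_one]
  refine gen_vle_of_mem h0 fun j => ?_
  rw [mem_TT_cstC_mul]
  have : n j / q / (((Units.mk0 q hq)⁻¹ : Ωˣ) : Ω) = n j := by
    simp [hq]
  rw [this]
  exact h j

theorem C6_hb {x y a b B₁ B₂ : VC κ Ω} (s t c : ℕ)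
    (h : QEq (x * y) (a ^ (2 * s ^ 2) * b ^ (2 * t ^ 2))) (hy : QLe 1 y) (ha : QLe a (B₁ ^ c))
    (hb : QLe b (B₂ ^ c)) : QLe x (B₁ ^ (2 * c * s ^ 2) * B₂ ^ (2 * c * t ^ 2)) := by
  have h1 := (QEq.refl x).qle.mul hy
  rw [mul_one] at h1
  have h2 := (ha.pow (2 * s ^ 2)).mul (hb.pow (2 * t ^ 2))
  rw [← pow_mul, ← pow_mul] at h2
  have e1 : c * (2 * s ^ 2) = 2 * c * s ^ 2 := by ring
  have e2 : c * (2 * t ^ 2) = 2 * c * t ^ 2 := by ring
  rw [e1, e2] at h2
  exact (h1.trans h.qle).trans h2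

/-- sections times the complementary monomials -/
theorem C6_sec {J : Type} [Finite J] {x a b : VC κ Ω} {n : J → Ω} (hn : n ≠ 0) {k s : ℕ} {g : Ωˣ}
    (h : VLe ((x * gen κ n) ^ k) (cstC κ g * (a ^ (2 * s ^ 2) * b ^ (2 * 1 ^ 2)) ^ k)) (m e : ℕ)
    (t : Ω) {G : Ω} (hG : G ∈ TT (x ^ (k * m) * (pen κ t ^ e)⁻¹)) (j : J) (ε : Bool) :
    G * (n j ^ (k * m) * t ^ (if ε then e else 0)) / ((g ^ m : Ωˣ) : Ω) ∈
      TT (a ^ (2 * (k * m) * s ^ 2) * b ^ (2 * (k * m))) := by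
  have h1 : t ^ (if ε then e else 0) ∈ TT (pen κ t ^ e) := by
    cases ε
    · have := V6_pow_mem (mem_TT_gen (κ := κ) (V5_pen_ne t) 0) e
      simpa [pen] using this
    · have := V6_pow_mem (mem_TT_gen (κ := κ) (V5_pen_ne t) 1) e
      simpa [pen] using this
  have h2 := mul_mem_TT hG (mul_mem_TT (V6_pow_mem (mem_TT_gen (κ := κ) hn j) (k * m)) h1)
  have e1 : x ^ (k * m) * (pen κ t ^ e)⁻¹ * (gen κ n ^ (k * m) * pen κ t ^ e) =
      ((x * gen κ n) ^ k) ^ m := by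
    rw [mul_mul_mul_comm, inv_mul_cancel, mul_one, ← mul_pow, pow_mul]
  rw [e1] at h2
  have h3 := (h.pow m).TT_le h2
  have e2 : (cstC κ g * (a ^ (2 * s ^ 2) * b ^ (2 * 1 ^ 2)) ^ k) ^ m =
      cstC κ (g ^ m) * (a ^ (2 * (k * m) * s ^ 2) * b ^ (2 * (k * m))) := by
    rw [mul_pow, V7_cstC_pow, ← pow_mul, mul_pow, ← pow_mul, ← pow_mul]
    have f1 : 2 * s ^ 2 * (k * m) = 2 * (k * m) * s ^ 2 := by ring
    have f2 : 2 * 1 ^ 2 * (k * m) = 2 * (k * m) := by ring
    rw [f1, f2]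
  rw [e2, mem_TT_cstC_mul] at h3
  exact h3

theorem C6_map_mul (W : Submodule κ Ω) [Module.Finite κ W] {c : Ω} (hc : c ≠ 0) :
    ∃ W' : Submodule κ Ω, Module.Finite κ W' ∧ Module.finrank κ W' = Module.finrank κ W ∧
      ∀ g ∈ W', ∃ g₀ ∈ W, g = c * g₀ := by
  have hi : Function.Injective (LinearMap.mulLeft κ c) := fun x y h => mul_left_cancel₀ hc h
  refine ⟨W.map (LinearMap.mulLeft κ c), inferInstance,
    (Submodule.equivMapOfInjective _ hi W).finrank_eq.symm, ?_⟩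
  rintro _ ⟨g₀, hg, rfl⟩
  exact ⟨g₀, hg, rfl⟩

theorem C6_span_scale {A : Type} (f f' : A → Ω) (c : Ω) (h : ∀ i, c * f i = f' i) {x : Ω}
    (hx : x ∈ Submodule.span κ (Set.range f)) : c * x ∈ Submodule.span κ (Set.range f') := by
  induction hx using Submodule.span_induction with
  | mem x hx =>
    obtain ⟨i, rfl⟩ := hx
    exact Submodule.subset_span ⟨i, (h i).symm⟩
  | zero => simp
  | add x y _ _ hx hy => rw [mul_add]; exact Submodule.add_mem _ hx hy
  | smul a x _ hx => rw [mul_smul_comm]; exact Submodule.smul_mem _ _ hx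

end

end Pool.Agent.E6b

end

section
open scoped NNReal TensorProduct IntermediateField BigOperators Classical Topology
open Filter

namespace Pool.Agent.E6b

theorem C3_cfs_C {K : Type} [Field K] {r : ℕ} (c : MvPolynomial (Fin r) K) :
    cfs (Polynomial.C c) ⊆ c.coeffs := by
  refine Finset.biUnion_subset.2 fun i _ => ?_
  rw [Polynomial.coeff_C]
  split_ifs
  · exact Finset.Subset.refl _
  · rw [MvPolynomial.coeffs_zero]
    exact Finset.empty_subset _

theorem C3_cx_C {K : Type} [Field K] {r Δ : ℕ} {c : MvPolynomial (Fin r) K}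
    (h : c.totalDegree ≤ Δ) : CxP Δ (Polynomial.C c) := by
  refine ⟨by rw [Polynomial.natDegree_C]; exact Nat.zero_le _, fun i => ?_⟩
  rw [Polynomial.coeff_C]
  split_ifs
  · exact h
  · rw [MvPolynomial.totalDegree_zero]
    exact Nat.zero_le _

end Pool.Agent.E6b

end

section
open scoped NNReal TensorProduct IntermediateField BigOperators Classical Topology
open Filter

namespace Pool.Agent.E6b
variable {F : Type} [Field F] [Algebra Qb F] [IsFF Qb F] (o : Place Qb F)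

theorem MW1_le {v : AbsoluteValue Qb ℝ} (hv : IsNonarchimedean v) {τ : Qb →+* Qb}
    (h : ∀ x, v x ≤ 1 → v (τ x - x) < 1) {x : Qb} (hx : v x ≤ 1) : v (τ x) ≤ 1 := by
  have := hv (τ x - x) x
  rw [sub_add_cancel] at this
  exact this.trans (max_le (h x hx).le hx)

theorem MW1_le' {v : AbsoluteValue Qb ℝ} (hv : IsNonarchimedean v) {τ : Qb →+* Qb}
    (h : ∀ x, v x ≤ 1 → v (τ x - x) < 1) {x : Qb} (hx : v (τ x) ≤ 1) : v x ≤ 1 := by
  by_contra hc
  rw [not_le] at hc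
  have hx0 : x ≠ 0 := by
    rintro rfl
    rw [map_zero] at hc
    linarith
  have h1 : v x⁻¹ < 1 := by
    rw [map_inv₀]
    exact inv_lt_one_of_one_lt₀ hc
  have h2 := hv (τ x⁻¹ - x⁻¹) x⁻¹
  rw [sub_add_cancel] at h2
  have h3 : v (τ x⁻¹) < 1 := h2.trans_lt (max_lt (h _ h1.le) h1)
  rw [map_inv₀, map_inv₀] at h3
  have h4 : 0 < v (τ x) := v.pos ((map_ne_zero τ).2 hx0)
  have h5 := (inv_lt_one₀ h4).1 h3
  linarith

theorem MW1_rs {κ Ω : Type} [Field κ] [Field Ω] [Algebra κ Ω] (O : VS κ Ω) {a b : Ω}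
    (hb : b ∈ O.1) (h : O.1.valuation (a - b) < 1) : rs O a = rs O b := by
  have h1 : a - b ∈ O.1 := (O.1.valuation_le_one_iff _).1 h.le
  have h2 := rs_add O h1 hb
  rw [sub_add_cancel, (rs_eq_zero_iff O h1).2 h, zero_add] at h2
  exact h2

theorem MW1_red (U : Ultrafilter ℕ) (v : ℕ → AbsoluteValue Qb ℝ)
    (hv : ∀ n, IsNonarchimedean (v n)) (O : VS Qb (UP U Qb))
    (h1 : ∀ x : ℕ → Qb, gm U x ∈ O.1 ↔ ∀ᶠ n in (U : Filter ℕ), v n (x n) ≤ 1)
    (h2 : ∀ x : ℕ → Qb, O.1.valuation (gm U x) < 1 ↔ ∀ᶠ n in (U : Filter ℕ), v n (x n) < 1)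
    (β : ℕ → BC o Qb Qb) (hβ : ∀ n x, v n x ≤ 1 → v n ((β n).τ x - x) < 1) (y : ℕ → Pt o Qb) :
    red O (plc (ptU U fun n => (β n).pt (y n))) = red O (plc (ptU U y)) := by
  have hI : Intg O (ptU U fun n => (β n).pt (y n)) ↔ Intg O (ptU U y) := by
    rw [intg_iff, intg_iff, ptU_apply, ptU_apply, h1, h1]
    refine eventually_congr (Eventually.of_forall fun n => ?_)
    rw [wN, (β n).pt_eb]
    exact ⟨MW1_le' (hv n) (hβ n), MW1_le (hv n) (hβ n)⟩
  by_cases h : Intg O (ptU U y)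
  · rw [red_plc O h, red_plc O (hI.2 h)]
    congr 1
    apply pt_ext
    funext i
    simp only [cd, redp_apply]
    apply MW1_rs O (h _)
    rw [ptU_apply, ptU_apply, ← gm_sub, h2]
    filter_upwards [(h1 _).1 (h (eb o i))] with n hn
    rw [(β n).pt_eb]
    exact hβ n _ hn
  · rw [red_plc_of_not O h, red_plc_of_not O (mt hI.1 h)]

end Pool.Agent.E6b

end
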