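import Pool.Agent.E6c.A20
import Pool.Agent.E6c.A23
import Pool.Agent.E6c.A28
import Pool.Agent.E6c.A29

section
open scoped NNReal TensorProduct IntermediateField BigOperators Classical Topology
open Filter
set_option linter.unusedSectionVars false

namespace Pool.Agent.E6b
variable {κ F : Type} [Field κ] [IsAlgClosed κ] [CharZero κ] [Field F] [Algebra κ F] [IsFF κ F]
  {o : Place κ F} {Ω Ω' Ω'' : Type} [Field Ω] [IsAlgClosed Ω] [CharZero Ω] [Algebra κ Ω]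
  [Field Ω'] [IsAlgClosed Ω'] [CharZero Ω'] [Algebra κ Ω']
  [Field Ω''] [IsAlgClosed Ω''] [CharZero Ω''] [Algebra κ Ω'']

namespace BC
variable (β : BC o Ω Ω')

theorem LL_dv (D : DO o Ω) : LL (β.dv D) = Submodule.span Ω' (β.φ '' (LL D : Set (FO o Ω))) :=
  (Submodule.eq_of_le_of_finrank_le (β.O2_span_le D)
    ((β.O2_ell_le D).trans (β.O2_le_span D))).symm

end BC

end Pool.Agent.E6b

end

section
open scoped NNReal TensorProduct IntermediateField BigOperators Classical Topology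
open Filter

namespace Pool.Agent.E6b
variable {κ F : Type} [Field κ] [IsAlgClosed κ] [CharZero κ] [Field F] [Algebra κ F] [IsFF κ F]
  {o : Place κ F} {Ω : Type} [Field Ω] [IsAlgClosed Ω] [CharZero Ω] [Algebra κ Ω]
  {ι ι' : Type} [Fintype ι] [Fintype ι']

theorem O3_range {K : Type} [Field K] [IsAlgClosed K] [CharZero K] [Algebra κ K]
    (β : BC o K Ω) {y : Pt o Ω} (f : FO o K) (h : 0 < (plc y).ord (β.φ f)) :
    y ∈ Set.range β.pt := by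
  by_contra hy
  rw [β.ord_eq_zero ?_ f] at h
  · exact lt_irrefl _ h
  rintro ⟨P, hP⟩
  rcases eq_oo_or_plc P with rfl | ⟨y₀, rfl⟩
  · rw [β.plc_oo] at hP
    exact plc_ne_oo y hP.symm
  · rw [β.plc_plc] at hP
    exact hy ⟨y₀, plc_injective hP⟩

theorem mem_range_pt_of_wN {K : Type} [Field K] [IsAlgClosed K] [CharZero K] [Algebra κ K]
    (τ : K →ₐ[κ] Ω) {y : Pt o Ω} (hy : y (wN o) ∈ τ.range) : y ∈ Set.range (bc o τ).pt := by
  obtain ⟨c, hc⟩ := hy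
  refine O3_range (bc o τ) (iF o K (wN o) - algebraMap K (FO o K) c) ?_
  rw [map_sub, bc_iF, BC.map_c, bc_τ, O3_ord_pos]
  exact hc.symm

/-- a point which is not defined over an algebraically closed subfield is generic over it -/
theorem injective_of_notMem_range {K : Type} [Field K] [IsAlgClosed K] [CharZero K] [Algebra κ K]
    (τ : K →ₐ[κ] Ω) {y : Pt o Ω} (hy : y ∉ Set.range (bc o τ).pt) : y (wN o) ∉ τ.range ∧
    Function.Injective (Algebra.TensorProduct.lift τ y fun _ _ => Commute.all _ _) := by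
  refine ⟨fun h => hy (mem_range_pt_of_wN τ h), ?_⟩
  rw [injective_iff_map_eq_zero]
  intro f hf
  by_contra hf0
  have key : ∀ f : AO o K, ∃ f' : AO o Ω,
      (bc o τ).φ (algebraMap _ (FO o K) f) = algebraMap _ (FO o Ω) f' ∧
        evA y f' = (Algebra.TensorProduct.lift τ y fun _ _ => Commute.all _ _) f := fun f => by
    induction f using TensorProduct.induction_on with
    | zero => exact ⟨0, by simp, by simp⟩
    | tmul c a =>
      refine ⟨τ c ⊗ₜ[κ] a, ?_, by rw [evA_tmul, Algebra.TensorProduct.lift_tmul]⟩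
      rw [algebraMap_tmul, algebraMap_tmul, map_mul, bc_iF, BC.map_c, bc_τ]
      rfl
    | add f g hf hg =>
      obtain ⟨f', h1, h2⟩ := hf
      obtain ⟨g', h3, h4⟩ := hg
      exact ⟨f' + g', by rw [map_add, map_add, map_add, h1, h3], by rw [map_add, map_add, h2, h4]⟩
  obtain ⟨f', h1, h2⟩ := key f
  refine hy (O3_range (bc o τ) (algebraMap _ (FO o K) f) ?_)
  rw [hf, ← (plc_spec y f').2, Place.ev_eq_zero_iff _ (plc_spec y f').1, ← h1] at h2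
  refine h2.resolve_left ?_
  rw [map_eq_zero]
  exact (map_ne_zero_iff _ (IsFractionRing.injective (AO o K) (FO o K))).2 hf0

end Pool.Agent.E6b

end

section
open scoped NNReal TensorProduct IntermediateField BigOperators Classical Topology
open Filter

namespace Pool.Agent.E6b
variable {κ F : Type} [Field κ] [IsAlgClosed κ] [CharZero κ] [Field F] [Algebra κ F] [IsFF κ F]
  {o : Place κ F} {Ω : Type} [Field Ω] [IsAlgClosed Ω] [CharZero Ω] [Algebra κ Ω] (O : VS κ Ω)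

section
variable {K : Type} [Field K] [IsAlgClosed K] [CharZero K] [Algebra κ K] (τ : K →ₐ[κ] Ω)

/-- a point which is not defined over `K` specialises to every point over `K` -/
theorem exists_spec {y : Pt o Ω} (hy : y ∉ Set.range (bc o τ).pt) (p : Pt o K) :
    ∃ O : VS κ Ω, (∀ c, τ c ∈ O.1) ∧ red O (plc y) = red O (plc (τ.comp p)) := by
  obtain ⟨-, hinj⟩ := injective_of_notMem_range τ hy
  generalize hL : (Algebra.TensorProduct.lift τ y fun _ _ => Commute.all _ _) = L at hinj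
  have hL' : ∀ (c : K) (a : AA o), L (c ⊗ₜ[κ] a) = τ c * y a := fun c a => by
    rw [← hL, Algebra.TensorProduct.lift_tmul]
  obtain ⟨O, h1, h2⟩ := exists_vs_dom L.range
    (((evA p).restrictScalars κ).comp (AlgEquiv.ofInjective L hinj).symm.toAlgHom)
  have h3 : ∀ x, L x ∈ O.1 := fun x => h1 (AlgEquiv.ofInjective L hinj x)
  have h4 : ∀ x, evA p x = 0 → O.1.valuation (L x) < 1 := fun x hx => by
    refine (h2 (AlgEquiv.ofInjective L hinj x)).2 ?_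
    change evA p ((AlgEquiv.ofInjective L hinj).symm (AlgEquiv.ofInjective L hinj x)) = 0
    rw [AlgEquiv.symm_apply_apply, hx]
  have hτ : ∀ c, τ c ∈ O.1 := fun c => by
    have := h3 (c ⊗ₜ[κ] 1)
    rwa [hL', map_one, mul_one] at this
  have hy' : Intg O y := fun a => by
    have := h3 (1 ⊗ₜ[κ] a)
    rwa [hL', map_one, one_mul] at this
  refine ⟨O, hτ, ?_⟩
  rw [red_plc O hy', red_plc O (intg_comp O τ hτ p)]
  congr 1
  ext a
  change rs O (y a) = rs O (τ (p a))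
  have h5 := h4 (1 ⊗ₜ[κ] a - p a ⊗ₜ[κ] 1) (by
    rw [map_sub, evA_tmul, evA_tmul, map_one, one_mul, mul_one, sub_self])
  rw [map_sub, hL', hL', map_one, map_one, one_mul, mul_one] at h5
  have h6 : y a - τ (p a) ∈ O.1 := O.1.toSubring.sub_mem (hy' a) (hτ _)
  have h7 := rs_add O h6 (hτ (p a))
  rwa [sub_add_cancel, (rs_eq_zero_iff O h6).2 h5, zero_add] at h7

end

end Pool.Agent.E6b

end

section
open scoped NNReal TensorProduct IntermediateField BigOperators Classical Topology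
open Filter

namespace Pool.Agent.E6b

section
variable {κ F' E : Type} [Field κ] [IsAlgClosed κ] [CharZero κ] [Field F'] [Algebra κ F']
  [IsFF κ F'] [Field E] [Algebra κ E] [IsFF κ E]
variable (o : Place κ E) (Ω : Type) [Field Ω] [IsAlgClosed Ω] [CharZero Ω] [Algebra κ Ω]
variable {o Ω}

theorem K6_hat_oo : K6_hat o Ω (pd o) = pd (oo o Ω) := by
  have h := K6_hat_pd (Ω := Ω) (oo o κ)
  rwa [jK_res_oo, BC.plc_oo] at h

theorem K6_mem_hat {N : Dv κ E} {u : E} : O1_j o Ω u ∈ LL (K6_hat o Ω N) ↔ u ∈ LL N := by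
  rw [← K6_phi, K6_hat_apply, BC.map_mem_LL, FHom.map_mem_LL]

theorem K6_coord {N : Dv κ E} {ι : Type} [Fintype ι] {u : ι → E}
    (hu : Submodule.span κ (Set.range u) = LL N) {x : FO o Ω} (hx : x ∈ LL (K6_hat o Ω N)) :
    ∃ c : ι → Ω, x = ∑ i, c i • O1_j o Ω (u i) := by
  rw [K6_hat_apply, BC.LL_dv] at hx
  have h : Submodule.span Ω ((bc o (Algebra.ofId κ Ω)).φ '' (LL ((jK o).pull N) : Set (FO o κ))) ≤
      Submodule.span Ω (Set.range fun i => O1_j o Ω (u i)) := by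
    refine Submodule.span_le.2 ?_
    rintro _ ⟨z, hz, rfl⟩
    obtain ⟨z, rfl⟩ := jK_surj z
    have hz' : z ∈ LL N := (FHom.map_mem_LL _).1 hz
    rw [← hu] at hz'
    obtain ⟨c, rfl⟩ := (Submodule.mem_span_range_iff_exists_fun _).1 hz'
    rw [K6_phi, map_sum]
    refine sum_mem fun i _ => ?_
    rw [map_smul, ← IsScalarTower.algebraMap_smul Ω]
    exact Submodule.smul_mem _ _ (Submodule.subset_span ⟨i, rfl⟩)
  obtain ⟨c, hc⟩ := (Submodule.mem_span_range_iff_exists_fun _).1 (h hx)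
  exact ⟨c, hc.symm⟩
variable [Algebra F' Ω] [IsScalarTower κ F' Ω]

theorem K6_th_mem {N : Dv κ E} {G : F' ⊗[κ] E} (h : G ∈ LT F' N) :
    K6_th F' o Ω G ∈ LL (K6_hat o Ω N) := by
  obtain ⟨u, -, hu⟩ := exists_basis_LL N
  obtain ⟨c, rfl⟩ := (mem_LT_iff hu).1 h
  rw [map_sum]
  refine sum_mem fun i _ => ?_
  rw [K6_th_tmul]
  exact Submodule.smul_mem _ _ (K6_mem_hat.2 (hu ▸ Submodule.subset_span ⟨i, rfl⟩))

end

end Pool.Agent.E6b

end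

section
open scoped NNReal TensorProduct IntermediateField BigOperators Classical Topology
open Filter

namespace Pool.Agent.E6b

section
variable {κ F' E : Type} [Field κ] [IsAlgClosed κ] [CharZero κ] [Field F'] [Algebra κ F']
  [IsFF κ F'] [Field E] [Algebra κ E] [IsFF κ E]
  {o : Place κ E} {Ω : Type} [Field Ω] [IsAlgClosed Ω] [CharZero Ω] [Algebra κ Ω]
  [Algebra F' Ω] [IsScalarTower κ F' Ω]

theorem K6_kerS {M : Dv κ F'} {N : Dv κ E} (hM : 0 ≤ M) {S : Type} [Fintype S]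
    (H : S → F' ⊗[κ] E) (D N' : S → Dv κ E) (hH : ∀ s, H s ∈ LT2 M (N' s))
    (hD : ∀ s, D s + N' s ≤ N) (a : S → FO o Ω) (ha : ∀ s, a s ∈ LL (K6_hat o Ω (D s)))
    (hs : ∑ s, a s * K6_th F' o Ω (H s) = 0) {s₀ : S} (h0 : a s₀ ≠ 0) :
    ∃ A : S → F' ⊗[κ] E, (∀ s, A s ∈ LT2 (ell N • M) (D s)) ∧ A s₀ ≠ 0 ∧ ∑ s, A s * H s = 0 := by
  choose u hi hu using fun s => exists_basis_LL (D s)
  choose c hc using fun s => K6_coord (hu s) (ha s)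
  obtain ⟨i₀, hi₀⟩ : ∃ i, c s₀ i ≠ 0 := by
    by_contra h1
    push Not at h1
    exact h0 (by simp [hc s₀, h1])
  have hm : ∀ s i, u s i ∈ LL (D s) := fun s i => hu s ▸ Submodule.subset_span ⟨i, rfl⟩
  obtain ⟨w, hw, hw0, hw1⟩ := K6_ker (o := o) (Ω := Ω) (N := N) hM
    (n := Σ s, Fin (ell (D s))) (fun j => ((1 : F') ⊗ₜ[κ] u j.1 j.2) * H j.1)
    (fun j => LT2_mono (zero_add M).le (hD j.1)
      (mul_mem_LT2 (K6_tmul_mem (K6_one_mem le_rfl) (hm j.1 j.2)) (hH j.1)))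
    (fun j => c j.1 j.2) (by
      rw [← hs, Fintype.sum_sigma]
      refine Finset.sum_congr rfl fun s _ => ?_
      rw [hc s, Finset.sum_mul]
      refine Finset.sum_congr rfl fun i _ => ?_
      rw [map_mul, K6_th_tmul, map_one, one_smul, smul_mul_assoc]) (j₀ := ⟨s₀, i₀⟩) hi₀
  refine ⟨fun s => ∑ i, w ⟨s, i⟩ ⊗ₜ[κ] u s i,
    fun s => sum_mem fun i _ => K6_tmul_mem (hw1 _) (hm s i),
    fun h => hw0 (congrFun (eq_zero_of_sum_tmul (hi s₀) h) i₀), ?_⟩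
  rw [← hw, Fintype.sum_sigma]
  refine Finset.sum_congr rfl fun s _ => ?_
  rw [Finset.sum_mul]
  refine Finset.sum_congr rfl fun i _ => ?_
  rw [← smul_mul_assoc, TensorProduct.smul_tmul', smul_eq_mul, mul_one]

theorem K6_ker3 {M : Dv κ F'} (hM : 0 ≤ M) {N N₀ N₁ N₂ D₀ D₁ D₂ : Dv κ E} {H₀ H₁ H₂ : F' ⊗[κ] E}
    (h₀ : H₀ ∈ LT2 M N₀) (h₁ : H₁ ∈ LT2 M N₁) (h₂ : H₂ ∈ LT2 M N₂) (e₀ : D₀ + N₀ ≤ N)
    (e₁ : D₁ + N₁ ≤ N) (e₂ : D₂ + N₂ ≤ N) {a₀ a₁ a₂ : FO o Ω} (ha₀ : a₀ ∈ LL (K6_hat o Ω D₀))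
    (ha₁ : a₁ ∈ LL (K6_hat o Ω D₁)) (ha₂ : a₂ ∈ LL (K6_hat o Ω D₂))
    (hs : a₀ * K6_th F' o Ω H₀ + a₁ * K6_th F' o Ω H₁ + a₂ * K6_th F' o Ω H₂ = 0) (h0 : a₀ ≠ 0) :
    ∃ A₀ ∈ LT2 (ell N • M) D₀, ∃ A₁ ∈ LT2 (ell N • M) D₁, ∃ A₂ ∈ LT2 (ell N • M) D₂,
      A₀ ≠ 0 ∧ A₀ * H₀ + A₁ * H₁ + A₂ * H₂ = 0 := by
  obtain ⟨A, hA, hA0, hA1⟩ := K6_kerS (o := o) (Ω := Ω) (N := N) hM ![H₀, H₁, H₂] ![D₀, D₁, D₂]
    ![N₀, N₁, N₂] (fun s => by fin_cases s <;> assumption) (fun s => by fin_cases s <;> assumption)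
    ![a₀, a₁, a₂] (fun s => by fin_cases s <;> assumption)
    (by rw [Fin.sum_univ_three]; exact hs) (s₀ := 0) h0
  rw [Fin.sum_univ_three] at hA1
  exact ⟨A 0, hA 0, A 1, hA 1, A 2, hA 2, hA0, hA1⟩

/-- descent -/
theorem K6_desc {D₁ D₂ : Dv κ E} {G₀ G₁ G₂ : F' ⊗[κ] E} {a₁ a₂ : FO o Ω}
    (ha₁ : a₁ ∈ LL (K6_hat o Ω D₁)) (ha₂ : a₂ ∈ LL (K6_hat o Ω D₂))
    (hs : K6_th F' o Ω G₀ = a₁ * K6_th F' o Ω G₁ + a₂ * K6_th F' o Ω G₂) :
    ∃ A₁ ∈ LT F' D₁, ∃ A₂ ∈ LT F' D₂, A₁ * G₁ + A₂ * G₂ = G₀ := by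
  obtain ⟨M₀, N₀, hM, h₀⟩ := K6_bound G₀
  obtain ⟨M₁, N₁, -, h₁⟩ := K6_bound G₁
  obtain ⟨M₂, N₂, -, h₂⟩ := K6_bound G₂
  obtain ⟨A₀, hA₀, A₁, hA₁, A₂, hA₂, h0, h⟩ := K6_ker3 (o := o) (Ω := Ω) (M := M₀ ⊔ (M₁ ⊔ M₂))
    (hM.trans le_sup_left) (N := (0 + N₀) ⊔ ((D₁ + N₁) ⊔ (D₂ + N₂))) (D₀ := 0)
    (LT2_mono le_sup_left le_rfl h₀) (LT2_mono (le_sup_left.trans le_sup_right) le_rfl h₁)
    (LT2_mono (le_sup_right.trans le_sup_right) le_rfl h₂) le_sup_left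
    (le_sup_left.trans le_sup_right) (le_sup_right.trans le_sup_right)
    (a₀ := -1) (neg_mem (K6_one_mem (map_zero _).ge)) ha₁ ha₂ (by rw [hs]; ring) (by simp)
  obtain ⟨c, -, rfl⟩ := K6_const hA₀
  have hc : c ≠ 0 := fun h => h0 (by simp [h])
  refine ⟨(-c⁻¹) • A₁, Submodule.smul_mem _ _ (LT2_le_LT hA₁), (-c⁻¹) • A₂,
    Submodule.smul_mem _ _ (LT2_le_LT hA₂), ?_⟩
  have h1 : (c ⊗ₜ[κ] (1 : E)) * G₀ = c • G₀ := by rw [Algebra.smul_def]; rfl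
  rw [h1, add_assoc, add_eq_zero_iff_neg_eq] at h
  rw [smul_mul_assoc, smul_mul_assoc, ← smul_add, ← h, smul_neg, neg_smul, neg_neg, smul_smul,
    inv_mul_cancel₀ hc, one_smul]

theorem K6_desc1 {D : Dv κ E} {G H : F' ⊗[κ] E} (hH : H ≠ 0)
    (ha : K6_th F' o Ω G / K6_th F' o Ω H ∈ LL (K6_hat o Ω D)) : ∃ A ∈ LT F' D, G = H * A := by
  obtain ⟨A, hA, B, -, h⟩ := K6_desc (G₀ := G) (G₁ := H) (G₂ := 0) (D₂ := 0) ha (zero_mem _)
    (by rw [div_mul_cancel₀ _ (K6_th_ne hH), zero_mul, add_zero])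
  exact ⟨A, hA, by rw [← h, mul_zero, add_zero, mul_comm]⟩

theorem K6_Z_nonneg {N : Dv κ E} {G : F' ⊗[κ] E} (h : G ∈ LT F' N) (h0 : G ≠ 0) :
    0 ≤ K6_Z o Ω N G := (mem_LL_iff (K6_th_ne h0)).1 (K6_th_mem h)

theorem K6_cop (hg : genus κ E = 1) {N₁ N₂ : Dv κ E} {G₁ G₂ : F' ⊗[κ] E} (h₁ : G₁ ≠ 0)
    (h₂ : G₂ ≠ 0) (h : K6_Z o Ω N₁ G₁ ⊓ K6_Z o Ω N₂ G₂ = 0) : Cop G₁ G₂ N₁ N₂ := by
  intro N hN u hu
  unfold K6_Z at h
  obtain ⟨a₁, ha₁, a₂, ha₂, e⟩ := K6_surj (genus_FO.trans hg) (K6_th_ne (o := o) (Ω := Ω) h₁)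
    (K6_th_ne h₂) (N₁ := K6_hat o Ω N₁) (N₂ := K6_hat o Ω N₂) (D := K6_hat o Ω N)
    (x := O1_j o Ω u) (by rw [h, deg_zero]; simp only [K6_deg_hat]; omega)
    (by rw [h, sub_zero]; exact K6_mem_hat.2 hu)
  rw [← map_sub] at ha₁ ha₂
  exact K6_desc ha₁ ha₂ (by rw [K6_th_tmul, map_one, one_smul, e])

/-- the end of the proof, once the common divisor is known to have a constant class -/
theorem K6_fin (hg : genus κ E = 1) {N₀ N₁ N₂ : Dv κ E} {f G₁ G₂ : F' ⊗[κ] E}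
    (m₁ : G₁ ∈ LT F' N₁) (m₂ : G₂ ∈ LT F' N₂) (h₁ : G₁ ≠ 0) (h₂ : G₂ ≠ 0) (hf : f ≠ 0)
    (h : K6_Z o Ω N₀ f = K6_Z o Ω N₁ G₁ ⊓ K6_Z o Ω N₂ G₂) :
    ∃ G₁' G₂' : F' ⊗[κ] E, f ∈ LT F' N₀ ∧
      G₁' ∈ LT F' (N₁ - N₀) ∧ G₂' ∈ LT F' (N₂ - N₀) ∧ G₁ = f * G₁' ∧ G₂ = f * G₂' ∧
      Cop G₁' G₂' (N₁ - N₀) (N₂ - N₀) ∧ (deg N₀ = 0 → Cop G₁ G₂ N₁ N₂) := by
  have h0 : 0 ≤ K6_Z o Ω N₀ f := h ▸ le_inf (K6_Z_nonneg m₁ h₁) (K6_Z_nonneg m₂ h₂)
  have hf' := K6_th_ne (o := o) (Ω := Ω) hf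
  have key : ∀ {N : Dv κ E} {G : F' ⊗[κ] E}, G ≠ 0 → K6_Z o Ω N₀ f ≤ K6_Z o Ω N G →
      ∃ A ∈ LT F' (N - N₀), G = f * A ∧ A ≠ 0 ∧
        K6_Z o Ω (N - N₀) A = K6_Z o Ω N G - K6_Z o Ω N₀ f := by
    intro N G hG hle
    have hG' := K6_th_ne (o := o) (Ω := Ω) hG
    obtain ⟨A, hA, e⟩ := K6_desc1 (o := o) (Ω := Ω) (D := N - N₀) (G := G) hf (by
      rw [mem_LL_iff (div_ne_zero hG' hf'), dv_div hG' hf', map_sub]
      refine (sub_nonneg.2 hle).trans_eq ?_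
      unfold K6_Z
      abel)
    have hA0 : A ≠ 0 := fun h => hG (by rw [e, h, mul_zero])
    refine ⟨A, hA, e, hA0, ?_⟩
    unfold K6_Z
    rw [e, map_mul, dv_mul hf' (K6_th_ne hA0), map_sub]
    abel
  obtain ⟨A, hA, e, -⟩ : ∃ A ∈ LT F' N₀, f = 1 * A ∧ True := by
    obtain ⟨A, hA, e⟩ := K6_desc1 (o := o) (Ω := Ω) (D := N₀) (G := f) (H := 1) one_ne_zero
      (by rw [map_one, div_one]; exact (mem_LL_iff hf').2 h0)
    exact ⟨A, hA, e, trivial⟩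
  obtain ⟨A₁, hA₁, e₁, n₁, z₁⟩ := key h₁ (h.le.trans inf_le_left)
  obtain ⟨A₂, hA₂, e₂, n₂, z₂⟩ := key h₂ (h.le.trans inf_le_right)
  refine ⟨A₁, A₂, by rwa [e, one_mul], hA₁, hA₂, e₁, e₂, K6_cop (o := o) (Ω := Ω) hg n₁ n₂ ?_,
    fun hd => K6_cop (o := o) (Ω := Ω) hg h₁ h₂ ?_⟩
  · rw [z₁, z₂, ← inf_sub, ← h, sub_self]
  · rw [← h]
    exact (eq_of_le_of_deg_le h0 (by rw [K6_deg_Z, deg_zero, hd])).symm

/-- a rational section with bounded coefficients and exactly one extra zero -/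
theorem K6_step1 (hg : genus κ E = 1) {M : Dv κ F'} (hM : 0 ≤ M) {N₁ N₂ : Dv κ E}
    {G₁ G₂ : F' ⊗[κ] E} (m₁ : G₁ ∈ LT2 M N₁) (m₂ : G₂ ∈ LT2 M N₂) (h₁ : G₁ ≠ 0) (h₂ : G₂ ≠ 0)
    {α : ℕ} (d₁ : deg N₁ ≤ α) (d₂ : deg N₂ ≤ α) :
    ∃ (n : ℤ) (f : F' ⊗[κ] E) (y : PO o Ω), f ≠ 0 ∧ f ∈ LT2 ((2 * α + 1) • M) (n • pd o) ∧
      K6_Z o Ω (n • pd o) f = K6_Z o Ω N₁ G₁ ⊓ K6_Z o Ω N₂ G₂ + pd y := by
  obtain ⟨Γ, hΓ⟩ : ∃ Γ, Γ = K6_Z o Ω N₁ G₁ ⊓ K6_Z o Ω N₂ G₂ := ⟨_, rfl⟩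
  have h0 : 0 ≤ Γ := hΓ ▸ le_inf (K6_Z_nonneg (LT2_le_LT m₁) h₁) (K6_Z_nonneg (LT2_le_LT m₂) h₂)
  have hd0 : 0 ≤ deg Γ := F1_deg_nonneg h0
  have hd1 : deg Γ ≤ α := by
    have := deg_mono (hΓ.le.trans inf_le_left)
    rw [K6_deg_Z] at this
    omega
  have hj : 0 ≤ Γ (oo o Ω) := h0 _
  have hg' : genus Ω (FO o Ω) = 1 := genus_FO.trans hg
  have hat : ∀ n : ℤ, K6_hat o Ω (n • pd o) = n • pd (oo o Ω) := fun n => by
    rw [map_zsmul, K6_hat_oo]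
  have mono : ∀ {n m : ℤ}, n ≤ m → n • pd o ≤ m • pd o := fun h =>
    zsmul_le_zsmul_left (K6_pd_nonneg o) h
  have mono' : ∀ {n m : ℤ}, n ≤ m → n • pd (oo o Ω) ≤ m • pd (oo o Ω) := fun h =>
    zsmul_le_zsmul_left (K6_pd_nonneg _) h
  obtain ⟨x, hx, hx0⟩ : ∃ x ∈ LL ((deg Γ + 1) • pd (oo o Ω) - Γ), x ≠ 0 := by
    refine (Submodule.ne_bot_iff _).1 fun h => ?_
    have h1 := ell_genus_one hg' (D := (deg Γ + 1) • pd (oo o Ω) - Γ)
      (by rw [deg_sub, deg_zsmul, deg_pd]; omega)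
    rw [ell_eq_zero_iff.2 h, deg_sub, deg_zsmul, deg_pd] at h1
    omega
  obtain ⟨a₁, ha₁, a₂, ha₂, e⟩ := K6_surj hg' (K6_th_ne (o := o) (Ω := Ω) h₁)
    (K6_th_ne h₂) (N₁ := K6_hat o Ω N₁) (N₂ := K6_hat o Ω N₂)
    (D := K6_hat o Ω ((2 * α + 1 : ℤ) • pd o)) (x := x)
    (by
      change _ < _ + deg (K6_Z o Ω N₁ G₁ ⊓ K6_Z o Ω N₂ G₂)
      simp only [K6_deg_hat, ← hΓ, deg_zsmul, deg_pd]
      omega)
    (by
      change x ∈ LL (_ - K6_Z o Ω N₁ G₁ ⊓ K6_Z o Ω N₂ G₂)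
      rw [← hΓ, hat]
      exact LL_mono (sub_le_sub_right (mono' (by omega)) _) hx)
  rw [← map_sub] at ha₁ ha₂
  have hx' : x ∈ LL (K6_hat o Ω ((deg Γ + 1 - Γ (oo o Ω)) • pd o)) := by
    rw [hat]
    refine LL_mono (fun P => ?_) hx
    have := h0 P
    simp only [Finsupp.sub_apply, Finsupp.smul_apply, F1_pd_apply, Finsupp.coe_zero,
      Pi.zero_apply, smul_eq_mul] at this ⊢
    split_ifs with h
    · subst h; omega
    · omega
  obtain ⟨f, hf, A₁, hA₁, A₂, hA₂, f0, hs⟩ := K6_ker3 (o := o) (Ω := Ω) hM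
    (N := (2 * α + 1 : ℤ) • pd o) (H₀ := (1 : F') ⊗ₜ[κ] (1 : E)) (N₀ := 0)
    (K6_tmul_mem (K6_one_mem hM) (K6_one_mem le_rfl)) m₁ m₂
    (by rw [add_zero]; exact mono (by omega)) (sub_add_cancel _ _).le (sub_add_cancel _ _).le
    (neg_mem hx') ha₁ ha₂
    (by rw [K6_th_tmul, map_one, map_one, one_smul, e]; ring) (neg_ne_zero.2 hx0)
  have hl : ell ((2 * α + 1 : ℤ) • pd o) = 2 * α + 1 := by
    have := ell_genus_one hg (D := (2 * α + 1 : ℤ) • pd o) (by rw [deg_zsmul, deg_pd]; omega)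
    rw [deg_zsmul, deg_pd] at this
    omega
  rw [hl] at hf
  have hf' := K6_th_ne (o := o) (Ω := Ω) f0
  have k1 := K6_Z_nonneg (o := o) (Ω := Ω) (LT2_le_LT hf) f0
  have k2 : K6_th F' o Ω f ∈ LL ((2 * α + 1 : ℤ) • pd (oo o Ω) - Γ) := by
    have key : ∀ {N : Dv κ E} {A G : F' ⊗[κ] E}, A ∈ LT F' ((2 * α + 1 : ℤ) • pd o - N) → G ≠ 0 →
        Γ ≤ K6_Z o Ω N G → K6_th F' o Ω (A * G) ∈ LL ((2 * α + 1 : ℤ) • pd (oo o Ω) - Γ) := by
      intro N A G hA hG hle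
      have h2 : K6_th F' o Ω G ∈ LL (K6_hat o Ω N - Γ) := by
        rw [mem_LL_iff (K6_th_ne hG)]
        refine (sub_nonneg.2 hle).trans_eq ?_
        unfold K6_Z
        abel
      have h3 := mul_mem_LL (K6_th_mem (o := o) (Ω := Ω) hA) h2
      rw [map_sub, hat, sub_add_sub_cancel] at h3
      rwa [map_mul]
    have h4 : f = -(A₁ * G₁ + A₂ * G₂) := by
      rw [← Algebra.TensorProduct.one_def, mul_one, add_assoc] at hs
      exact eq_neg_of_add_eq_zero_left hs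
    rw [h4, map_neg, map_add]
    exact neg_mem (add_mem (key (LT2_le_LT hA₁) h₁ (hΓ.le.trans inf_le_left))
      (key (LT2_le_LT hA₂) h₂ (hΓ.le.trans inf_le_right)))
  rw [mem_LL_iff hf'] at k2
  have k3 : 0 ≤ K6_Z o Ω ((deg Γ + 1) • pd o) f - Γ := fun P => by
    have a1 := k1 P
    have a2 := k2 P
    simp only [K6_Z, hat, Finsupp.sub_apply, Finsupp.add_apply, Finsupp.smul_apply, F1_pd_apply,
      Finsupp.coe_zero, Pi.zero_apply, smul_eq_mul] at a1 a2 ⊢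
    split_ifs at a1 a2 ⊢ with h
    · subst h; omega
    · omega
  obtain ⟨y, hy⟩ := exists_eq_sum_pd k3 (n := 1)
    (by rw [deg_sub, K6_deg_Z, deg_zsmul, deg_pd]; omega)
  refine ⟨deg Γ + 1, f, y 0, f0, LT2_mono le_rfl (mono (by omega)) hf, ?_⟩
  rw [← hΓ, ← sub_eq_iff_eq_add', hy, Fin.sum_univ_one]

end

end Pool.Agent.E6b

end

section
open scoped NNReal TensorProduct IntermediateField BigOperators Classical Topology
open Filter

namespace Pool.Agent.E6b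

section
variable {κ F' E : Type} [Field κ] [IsAlgClosed κ] [CharZero κ] [Field F'] [Algebra κ F']
  [IsFF κ F'] [Field E] [Algebra κ E] [IsFF κ E]
  {o : Place κ E} {Ω : Type} [Field Ω] [IsAlgClosed Ω] [CharZero Ω] [Algebra κ Ω]
  [Algebra F' Ω] [IsScalarTower κ F' Ω]

/-- the coordinates of the extra zero are rational and bounded -/
theorem K6_step3 {M : Dv κ F'} (hM : 0 ≤ M) {N N₀ : Dv κ E} {G f : F' ⊗[κ] E} (hG : G ∈ LT2 M N)
    (hf : f ∈ LT2 M N₀) (G0 : G ≠ 0) (f0 : f ≠ 0) {y : Pt o Ω}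
    (hy : plc y ∉ Set.range (bc o (Algebra.ofId κ Ω)).plc) {Γ : DO o Ω}
    (h₁ : K6_Z o Ω N₀ f = Γ + pd (plc y)) (h₂ : Γ ≤ K6_Z o Ω N G)
    (h₃ : Γ (plc y) = K6_Z o Ω N G (plc y)) (a : AA o) {k : ℤ} (hk : 0 ≤ k)
    (ha : - k ≤ o.ord (a : E)) :
    ∃ w₀ ∈ LL (ell (k • pd o + N) • M), ∃ w₁ ∈ LL (ell (k • pd o + N) • M), w₀ ≠ 0 ∧
      algebraMap F' Ω w₀ * y a + algebraMap F' Ω w₁ = 0 := by
  have G0' := K6_th_ne (o := o) (Ω := Ω) G0
  have f0' := K6_th_ne (o := o) (Ω := Ω) f0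
  have hk' : 0 ≤ k • pd o := zsmul_nonneg (K6_pd_nonneg o) hk
  have hev : ∀ c d : Ω, c • iF o Ω a + algebraMap Ω _ d ∈ (plc y).O ∧
      (plc y).ev (c • iF o Ω a + algebraMap Ω _ d) = c * y a + d := fun c d => by
    have h1 : c • iF o Ω a ∈ (plc y).O := by
      rw [Algebra.smul_def]
      exact (plc y).O.mul_mem _ _ ((plc y).const c) (plc_iF y a).1
    exact ⟨(plc y).O.add_mem _ _ h1 ((plc y).const d), by
      rw [Place.ev_add _ h1 ((plc y).const d), Place.ev_smul _ _ (plc_iF y a).1, (plc_iF y a).2,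
        Place.ev_algebraMap]⟩
  have hc : ∀ d : Ω, algebraMap Ω (FO o Ω) d ∈ LL (K6_hat o Ω 0) := fun d => by
    rw [Algebra.algebraMap_eq_smul_one]
    exact Submodule.smul_mem _ _ (K6_one_mem (map_zero _).ge)
  obtain ⟨z, hz⟩ : ∃ z, z = (1 : Ω) • iF o Ω a + algebraMap Ω _ (- y a) := ⟨_, rfl⟩
  have z1 : z ∈ LL (K6_hat o Ω (k • pd o) - pd (plc y)) := by
    have h1 : z ∈ LL (K6_hat o Ω (k • pd o)) := by
      rw [hz, one_smul, ← O1_phi]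
      refine add_mem (K6_mem_hat.2 (K6_AA_mem a ha)) (LL_mono ?_ (hc _))
      rw [map_zero, map_zsmul, K6_hat_oo]
      exact zsmul_nonneg (K6_pd_nonneg _) hk
    by_cases z0 : z = 0
    · exact mem_LL.2 (Or.inl z0)
    have h2 := (((plc y).ev_eq_zero_iff (hz ▸ (hev 1 (- y a)).1)).1
      (by rw [hz, (hev _ _).2]; ring)).resolve_left z0
    refine mem_LL.2 (Or.inr fun P => ?_)
    have h3 := (mem_LL.1 h1).resolve_left z0 P
    rw [Finsupp.sub_apply, F1_pd_apply]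
    split_ifs with hP
    · subst hP
      rw [K6_hat_zero hy]
      omega
    · omega
  have z2 : z * (K6_th F' o Ω G / K6_th F' o Ω f) ∈ LL (K6_hat o Ω (k • pd o + N - N₀)) := by
    have h1 : K6_th F' o Ω G / K6_th F' o Ω f ∈
        LL (K6_hat o Ω N - K6_hat o Ω N₀ + pd (plc y)) := by
      rw [mem_LL_iff (div_ne_zero G0' f0'), dv_div G0' f0']
      refine (sub_nonneg.2 h₂).trans_eq ?_
      rw [← sub_eq_iff_eq_add] at h₁
      rw [← h₁]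
      unfold K6_Z
      abel
    convert mul_mem_LL z1 h1 using 2
    rw [map_sub, map_add]
    abel
  obtain ⟨A₀, hA₀, A₁, hA₁, A₂, hA₂, n0, hs⟩ := K6_ker3 (o := o) (Ω := Ω) hM
    (N := k • pd o + N) (H₀ := ((1 : F') ⊗ₜ[κ] (a : E)) * G) (N₀ := k • pd o + N) (D₀ := 0) (D₁ := 0)
    (LT2_mono (zero_add M).le le_rfl
      (mul_mem_LT2 (K6_tmul_mem (K6_one_mem le_rfl) (K6_AA_mem a ha)) hG)) hG hf
    (zero_add _).le (add_le_add_left hk' _) (sub_add_cancel _ _).le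
    (K6_one_mem (map_zero _).ge) (hc (- y a)) (neg_mem z2)
    (by
      rw [map_mul, K6_th_tmul, map_one, one_smul, O1_phi, neg_mul, mul_assoc,
        div_mul_cancel₀ _ f0', hz, one_smul]
      ring) one_ne_zero
  obtain ⟨w₀, hw₀, rfl⟩ := K6_const hA₀
  obtain ⟨w₁, hw₁, rfl⟩ := K6_const hA₁
  refine ⟨w₀, hw₀, w₁, hw₁, fun h => n0 (by simp [h]), ?_⟩
  rw [← (hev _ _).2, Place.ev_eq_zero_iff _ (hev _ _).1]
  have h4 : (algebraMap F' Ω w₀ • iF o Ω a + algebraMap Ω _ (algebraMap F' Ω w₁)) *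
      K6_th F' o Ω G = - (K6_th F' o Ω A₂ * K6_th F' o Ω f) := by
    have h5 := congrArg (K6_th F' o Ω) hs
    simp only [map_add, map_mul, K6_th_tmul, map_one, O1_phi, map_zero,
      Algebra.smul_def] at h5 ⊢
    linear_combination h5
  refine or_iff_not_imp_left.2 fun h6 => ?_
  have h7 : K6_th F' o Ω A₂ ≠ 0 := fun h => by
    rw [h, zero_mul, neg_zero] at h4
    exact mul_ne_zero h6 G0' h4
  have h8 := congrArg (plc y).ord h4
  rw [Place.ord_neg, Place.ord_mul _ h6 G0', Place.ord_mul _ h7 f0'] at h8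
  have h9 := (mem_LL.1 (K6_th_mem (o := o) (Ω := Ω) (LT2_le_LT hA₂))).resolve_left h7 (plc y)
  have h10 := DFunLike.congr_fun h₁ (plc y)
  simp only [K6_Z, Finsupp.add_apply, K6_hat_zero hy, dv_apply, F1_pd_apply, if_true] at h₃ h9 h10
  omega

/-- a non-constant extra zero gives a map of bounded degree -/
theorem K6_step4 (hg : genus κ E = 1) {M : Dv κ F'} (hM : 0 ≤ M) {N N₀ : Dv κ E}
    {G f : F' ⊗[κ] E} (hG : G ∈ LT2 M N) (hf : f ∈ LT2 M N₀) (G0 : G ≠ 0) (f0 : f ≠ 0) {y : Pt o Ω}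
    (hy : plc y ∉ Set.range (bc o (Algebra.ofId κ Ω)).plc) {Γ : DO o Ω}
    (h₁ : K6_Z o Ω N₀ f = Γ + pd (plc y)) (h₂ : Γ ≤ K6_Z o Ω N G)
    (h₃ : Γ (plc y) = K6_Z o Ω N G (plc y)) :
    ∃ φ : E →ₐ[κ] F', ((FHom.ofAlgHom φ).deg : ℤ) ≤ (deg N + 3) * deg M := by
  have hr : ∀ a : AA o, ∃ c : F', algebraMap F' Ω c = y a := fun a => by
    obtain ⟨w₀, -, w₁, -, h0, h⟩ := K6_step3 hM hG hf G0 f0 hy h₁ h₂ h₃ a (k := - o.ord (a : E))
      (neg_nonneg.2 (O0_ord_nonpos o a)) (neg_neg _).le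
    refine ⟨- w₁ / w₀, ?_⟩
    rw [map_div₀, map_neg, div_eq_iff ((map_ne_zero _).2 h0)]
    linear_combination - h
  choose c hc using hr
  have inj := (algebraMap F' Ω).injective
  let y₁ : AA o →ₐ[κ] F' :=
    { toFun := c
      map_one' := inj (by rw [hc, map_one, map_one])
      map_mul' := fun a b => inj (by rw [map_mul, hc, hc, hc, map_mul])
      map_zero' := inj (by rw [hc, map_zero, map_zero])
      map_add' := fun a b => inj (by rw [map_add, hc, hc, hc, map_add])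
      commutes' := fun a => inj (by rw [hc, y.commutes, ← IsScalarTower.algebraMap_apply]) }
  have hi := (injective_of_notMem_range (Algebra.ofId κ Ω) (y := y) (by
    rintro ⟨x, rfl⟩
    exact hy ⟨plc x, BC.plc_plc _ x⟩)).2
  have hi₁ : Function.Injective y₁ := (injective_iff_map_eq_zero _).2 fun a ha => by
    have h1 : y a = 0 := by rw [← hc, show c a = 0 from ha, map_zero]
    have h2 : (1 : κ) ⊗ₜ[κ] a = 0 := hi (by rw [Algebra.TensorProduct.lift_tmul, h1, mul_zero, map_zero])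
    simpa using congrArg (TensorProduct.lid κ (AA o)) h2
  have hw : o.ord (wN o : E) = -3 := by
    rw [← O1_ord (Ω := κ), O1_ord_w, NN, hg]
    norm_num
  have hw' : (wN o : E) ∉ (algebraMap κ E).range := by
    rintro ⟨x, hx⟩
    rw [← hx, Place.ord_algebraMap] at hw
    omega
  refine ⟨IsFractionRing.liftAlgHom hi₁, ?_⟩
  obtain ⟨r1, r2⟩ := rk_map (FHom.ofAlgHom (IsFractionRing.liftAlgHom (K := E) hi₁)) hw'
  have r3 : (FHom.ofAlgHom (IsFractionRing.liftAlgHom (K := E) hi₁)).f (wN o : E) = c (wN o) :=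
    IsFractionRing.lift_algebraMap hi₁ (wN o)
  rw [r3] at r1 r2
  obtain ⟨w₀, m₀, w₁, m₁, h0, h⟩ := K6_step3 hM hG hf G0 f0 hy h₁ h₂ h₃ (wN o) (k := 3)
    (by norm_num) hw.ge
  have r4 := deg_dinf_root_le ![w₁, w₀] (fun i => by fin_cases i <;> assumption)
    (fun h => h0 (congrFun h 1)) (c := c (wN o)) (inj (by
      rw [Fin.sum_univ_two, map_zero, ← h, ← hc]
      simp [add_comm]))
  have hN := deg_nonneg_of_mem_LT (LT2_le_LT hG) G0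
  rw [deg_dinf_rk r1, r2, deg_nsmul, ell_genus_one hg (by rw [deg_add, deg_zsmul, deg_pd]; omega),
    deg_add, deg_zsmul, deg_pd, mul_one, add_comm] at r4
  refine le_trans ?_ r4
  exact_mod_cast Nat.le_mul_of_pos_right _ (rk_pos hw')

theorem K6_core (hg : genus κ E = 1) {α b : ℕ} (hB : NoMap κ E F' ((α + 3) * ((2 * α + 1) * b)))
    {M : Dv κ F'} (hM : 0 ≤ M) (hb : deg M ≤ b) {N₁ N₂ : Dv κ E}
    {G₁ G₂ : F' ⊗[κ] E} (m₁ : G₁ ∈ LT2 M N₁) (m₂ : G₂ ∈ LT2 M N₂) (h₁ : G₁ ≠ 0) (h₂ : G₂ ≠ 0)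
    (d₁ : deg N₁ ≤ α) (d₂ : deg N₂ ≤ α) :
    ∃ (N₀ : Dv κ E) (f : F' ⊗[κ] E), f ≠ 0 ∧
      K6_Z o Ω N₀ f = K6_Z o Ω N₁ G₁ ⊓ K6_Z o Ω N₂ G₂ := by
  obtain ⟨n, f, y, f0, hf, h⟩ := K6_step1 (o := o) (Ω := Ω) hg hM m₁ m₂ h₁ h₂ d₁ d₂
  by_cases hy : y ∈ Set.range (bc o (Algebra.ofId κ Ω)).plc
  · obtain ⟨Q, rfl⟩ := hy
    refine ⟨n • pd o - pd ((jK o).res Q), f, f0, ?_⟩
    rw [← sub_eq_iff_eq_add] at h
    rw [← h, K6_Z, K6_Z, map_sub, K6_hat_pd]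
    abel
  exfalso
  obtain ⟨y, rfl⟩ := (eq_oo_or_plc y).resolve_left fun e => hy ⟨_, (BC.plc_oo _).trans e.symm⟩
  have hM' : 0 ≤ (2 * α + 1) • M := nsmul_nonneg hM _
  have hle : M ≤ (2 * α + 1) • M := by
    rw [succ_nsmul]
    exact le_add_of_nonneg_left (nsmul_nonneg hM _)
  have key : ∀ {N : Dv κ E} {G : F' ⊗[κ] E}, G ∈ LT2 M N → G ≠ 0 → deg N ≤ α →
      K6_Z o Ω N₁ G₁ ⊓ K6_Z o Ω N₂ G₂ ≤ K6_Z o Ω N G →
      (K6_Z o Ω N₁ G₁ ⊓ K6_Z o Ω N₂ G₂) (plc y) ≠ K6_Z o Ω N G (plc y) := by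
    intro N G hG G0 hN e1 e2
    obtain ⟨φ, hφ⟩ := K6_step4 hg hM' (LT2_mono hle le_rfl hG) hf G0 f0 hy h e1 e2
    have h3 : (((α + 3) * ((2 * α + 1) * b) : ℕ) : ℤ) < (FHom.ofAlgHom φ).deg := by
      exact_mod_cast hB φ
    rw [deg_nsmul] at hφ
    have h4 := F1_deg_nonneg hM
    have h5 : (deg N + 3) * (((2 * α + 1 : ℕ) : ℤ) * deg M) ≤ (α + 3) * ((2 * α + 1 : ℕ) * b) := by
      gcongr
    push_cast at h3 h5 hφ
    omega
  rcases le_total (K6_Z o Ω N₁ G₁ (plc y)) (K6_Z o Ω N₂ G₂ (plc y)) with e | e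
  · exact key m₁ h₁ d₁ inf_le_left (by rw [Finsupp.inf_apply, inf_eq_left.2 e])
  · exact key m₂ h₂ d₂ inf_le_right (by rw [Finsupp.inf_apply, inf_eq_right.2 e])

end

/-- the greatest common divisor of two sections has a constant class -/
theorem split (α b : ℕ) : ∃ B : ℕ, ∀ {κ F' E : Type} [Field κ] [IsAlgClosed κ] [CharZero κ]
    [Field F'] [Algebra κ F'] [IsFF κ F'] [Field E] [Algebra κ E] [IsFF κ E],
    genus κ E = 1 → NoMap κ E F' B → ∀ (M₁ M₂ : Dv κ F') (N₁ N₂ : Dv κ E) (G₁ G₂ : F' ⊗[κ] E),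
      deg M₁ ≤ b → deg M₂ ≤ b → deg N₁ ≤ α → deg N₂ ≤ α → G₁ ∈ LT2 M₁ N₁ → G₂ ∈ LT2 M₂ N₂ →
      G₁ ≠ 0 → G₂ ≠ 0 → ∃ (N₀ : Dv κ E) (h G₁' G₂' : F' ⊗[κ] E), h ∈ LT F' N₀ ∧
        G₁' ∈ LT F' (N₁ - N₀) ∧ G₂' ∈ LT F' (N₂ - N₀) ∧ G₁ = h * G₁' ∧ G₂ = h * G₂' ∧
        Cop G₁' G₂' (N₁ - N₀) (N₂ - N₀) ∧ (deg N₀ = 0 → Cop G₁ G₂ N₁ N₂) := by
  refine ⟨(α + 3) * ((2 * α + 1) * (2 * b)), ?_⟩
  intro κ F' E _ _ _ _ _ _ _ _ _ hg hB M₁ M₂ N₁ N₂ G₁ G₂ b₁ b₂ d₁ d₂ m₁ m₂ h₁ h₂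
  obtain ⟨o⟩ : Nonempty (Place κ E) := inferInstance
  have : CharZero (AlgebraicClosure F') :=
    charZero_of_injective_algebraMap (algebraMap κ (AlgebraicClosure F')).injective
  obtain ⟨c₁, M₁', n₁, p₁, e₁, k₁⟩ := K6_scale m₁ h₁
  obtain ⟨c₂, M₂', n₂, p₂, e₂, k₂⟩ := K6_scale m₂ h₂
  obtain ⟨N₀, f, f0, h⟩ := K6_core (o := o) (Ω := AlgebraicClosure F') hg hB (add_nonneg p₁ p₂)
    (by rw [deg_add]; push_cast; omega) (LT2_mono (le_add_of_nonneg_right p₂) le_rfl k₁)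
    (LT2_mono (le_add_of_nonneg_left p₁) le_rfl k₂) (smul_ne_zero n₁ h₁) (smul_ne_zero n₂ h₂) d₁ d₂
  refine ⟨N₀, f, K6_fin (o := o) (Ω := AlgebraicClosure F') hg (LT2_le_LT m₁) (LT2_le_LT m₂) h₁ h₂
    f0 ?_⟩
  rw [h]
  unfold K6_Z
  rw [K6_dv_smul n₁, K6_dv_smul n₂]

end Pool.Agent.E6b

end

section
open scoped NNReal TensorProduct IntermediateField BigOperators Classical Topology
open Filter

namespace Pool.Agent.E6b

/-- one step of the classification of pencils of low degree -/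
theorem cl_step (α b : ℕ) : ∃ B : ℕ, ∀ {κ F F' E : Type} [Field κ] [IsAlgClosed κ] [CharZero κ]
    [Field F] [Algebra κ F] [IsFF κ F] [Field F'] [Algebra κ F'] [IsFF κ F'] [Field E] [Algebra κ E]
    [IsFF κ E] (S : Sq κ F' E F), genus κ E = 1 → NoMap κ E F' B →
      genus κ F' + rk κ S.t' ≤ b → 2 * α ^ 2 * (2 * α + 2) + α < rk κ S.t →
      ∀ Λ : Dv κ F, BPF Λ → deg Λ < α * rk κ S.t' →
        ∃ (M : Dv κ F') (N : Dv κ E) (Bd : Dv κ F), BPF M ∧ 0 ≤ deg N ∧ 0 ≤ Bd ∧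
          LinEq (Λ + Bd) (S.q'.pull M + S.q.pull N) ∧ rk κ S.t * deg M ≤ 2 * deg Λ ∧
          rk κ S.t * deg Bd ≤ 2 * α ^ 2 * (2 * α + 2) * deg Λ := by
  obtain ⟨B, hB⟩ := split α b
  refine ⟨B, ?_⟩
  intro κ F F' E _ _ _ _ _ _ _ _ _ _ _ _ S hg hno hb hn Λ hΛ hd
  obtain ⟨φ, hφ, hΛφ⟩ := hΛ.exists_dinf
  obtain ⟨D₀, hD₀, hD₀'⟩ := exists_ell_zero (κ := κ) (F := F')
  obtain ⟨o⟩ : Nonempty (Place κ E) := inferInstance
  have hΛ0 := hΛ.deg_nonneg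
  have hα : 0 < α := by
    rcases Nat.eq_zero_or_pos α with h | h
    · rw [h] at hd
      simp only [Nat.cast_zero, zero_mul] at hd
      omega
    · exact h
  have hb' : (genus κ F' : ℤ) + rk κ S.t' ≤ b := by exact_mod_cast hb
  have hn' : 2 * (α : ℤ) ^ 2 * (2 * α + 2) + α < rk κ S.t := by exact_mod_cast hn
  have hc0 : 0 ≤ (α : ℤ) ^ 2 * (2 * α + 2) := by positivity
  set M' : Dv κ F' := D₀ + dinf κ S.t' with hM'
  set N : Dv κ E := α • pd o with hN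
  have dM' : deg M' = genus κ F' - 1 + rk κ S.t' := by
    rw [hM', deg_add, hD₀, deg_dinf_rk S.nc']
  have dN : deg N = α := by rw [hN, deg_nsmul, deg_pd, mul_one]
  have eM : ell (M' - dinf κ S.t') = 0 := by rw [hM', add_sub_cancel_right]; exact hD₀'
  have dN' : deg N < rk κ S.t := by rw [dN]; linarith
  have e1 := S.ell_hf eM dN'
  have e2 := riemann M'
  have e3 := ell_genus_one hg (D := N) (by rw [dN]; exact_mod_cast hα)
  set D := S.q'.pull M' + S.q.pull N with hD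
  have e4 := ell_add_le (D - dinf κ φ) (K7_dinf_nonneg φ)
  rw [sub_add_cancel, e1, ← hΛφ.deg] at e4
  have e5 : ell (D - dinf κ φ) ≠ 0 := by
    intro h
    rw [h] at e4
    push_cast at e4
    rw [e3, dN] at e4
    have h1 : (rk κ S.t' : ℤ) ≤ ell M' := by linarith
    have h2 : (rk κ S.t' : ℤ) * α ≤ ell M' * α :=
      mul_le_mul_of_nonneg_right h1 (Int.natCast_nonneg _)
    linarith
  obtain ⟨x, hx, hx0⟩ := Submodule.exists_mem_ne_zero_of_ne_bot (mt ell_eq_zero_iff.2 e5)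
  have hx1 : x ∈ LL D := LL_mono (sub_le_self _ (K7_dinf_nonneg φ)) hx
  have hx2 : φ * x ∈ LL D := by
    have := mul_mem_LL (mem_LL_dinf φ) hx
    rwa [add_sub_cancel] at this
  obtain ⟨G₁, m₁, r₁⟩ := S.hf eM dN' hx1
  obtain ⟨G₂, m₂, r₂⟩ := S.hf eM dN' hx2
  have g₁ : G₁ ≠ 0 := fun e => hx0 (by rw [← r₁, e, map_zero])
  have g₂ : G₂ ≠ 0 := fun e => mul_ne_zero hφ hx0 (by rw [← r₂, e, map_zero])
  have dMb : deg M' ≤ b := by linarith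
  obtain ⟨N₀, h, H₁, H₂, mh, k₁, k₂, q₁, q₂, hcop, -⟩ :=
    hB hg hno M' M' N N G₁ G₂ dMb dMb dN.le dN.le m₁ m₂ g₁ g₂
  rw [q₁, map_mul] at r₁
  rw [q₂, map_mul] at r₂
  have rh : S.rho h ≠ 0 := left_ne_zero_of_mul (r₁ ▸ hx0)
  have s₁ : S.rho H₁ ≠ 0 := right_ne_zero_of_mul (r₁ ▸ hx0)
  have s₂' : S.rho H₂ = φ * S.rho H₁ := by
    apply mul_left_cancel₀ rh
    rw [r₂, ← r₁]
    ring
  have s₂ : S.rho H₂ ≠ 0 := s₂' ▸ mul_ne_zero hφ s₁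
  have t₀ : h ≠ 0 := fun e => rh (by rw [e, map_zero])
  have t₁ : H₁ ≠ 0 := fun e => s₁ (by rw [e, map_zero])
  have t₂ : H₂ ≠ 0 := fun e => s₂ (by rw [e, map_zero])
  have d₀ := deg_nonneg_of_mem_LT mh t₀
  have d₁ := deg_nonneg_of_mem_LT k₁ t₁
  have d₂ : deg (N - N₀) ≤ α := by rw [deg_sub]; linarith
  have hbd := K7_bd S hg k₁ k₂ s₁ s₂ hcop d₂
  set M := cont H₁ ⊔ cont H₂ with hM
  have bM : BPF M := (bpf_cont t₁).sup (bpf_cont t₂)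
  have n₁ : H₁ ∈ LT2 M (N - N₀) := (mem_LT2_iff_cont t₁ _ _).2 ⟨k₁, le_sup_left⟩
  have n₂ : H₂ ∈ LT2 M (N - N₀) := (mem_LT2_iff_cont t₂ _ _).2 ⟨k₂, le_sup_right⟩
  have z₁ := S.Z_nonneg n₁ s₁
  have z₂ := S.Z_nonneg n₂ s₂
  have eZ : S.Z M (N - N₀) H₂ = S.Z M (N - N₀) H₁ + dv κ φ := by
    unfold Sq.Z
    rw [s₂', dv_mul hφ s₁]
    abel
  have eB : dinf κ φ + S.Z M (N - N₀) H₁ ⊓ S.Z M (N - N₀) H₂ = S.Z M (N - N₀) H₁ := by
    ext R
    rw [eZ, Finsupp.add_apply, Finsupp.inf_apply, Finsupp.add_apply, dinf_apply, dv_apply]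
    omega
  have dZ := S.deg_Z M (N - N₀) H₁
  rw [← eB, deg_add, ← hΛφ.deg] at dZ
  have dM0 := bM.deg_nonneg
  have p₁ : 0 ≤ (rk κ S.t' : ℤ) * deg (N - N₀) := mul_nonneg (Int.natCast_nonneg _) d₁
  have p₂ : 2 * ((α : ℤ) ^ 2 * (2 * α + 2)) * deg M ≤ rk κ S.t * deg M :=
    mul_le_mul_of_nonneg_right (by linarith [Int.natCast_nonneg α]) dM0
  have p₃ : (rk κ S.t : ℤ) * deg M ≤ 2 * deg Λ := by linarith
  refine ⟨M, N - N₀, S.Z M (N - N₀) H₁ ⊓ S.Z M (N - N₀) H₂, bM, d₁, le_inf z₁ z₂, ?_, p₃, ?_⟩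
  · refine (hΛφ.add (LinEq.refl _)).trans ?_
    rw [eB]
    exact K7_linEq_dv _ s₁
  · have p₄ := mul_le_mul_of_nonneg_left hbd (Int.natCast_nonneg (rk κ S.t))
    have p₅ := mul_le_mul_of_nonneg_left p₃ hc0
    linarith

end Pool.Agent.E6b

end

section
open scoped NNReal TensorProduct IntermediateField BigOperators Classical Topology
open Filter

namespace Pool.Agent.E6b

namespace Tw

section
variable {κ L : Type} [Field κ] [IsAlgClosed κ] [CharZero κ] [Field L] [Algebra κ L] {n₀ B : ℕ}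
  (T : Tw κ L n₀ B)

theorem ty_mono {Z Bd : Dv κ T.FU} {n : Fin 5 → ℤ} (h : T.Ty Finset.univ Z n) (hB : 0 ≤ Bd)
    (hl : 0 < ell (Z + Bd)) (hd : deg Bd + (∑ s, |n s|) * (n₀ : ℤ) ^ 3 < (n₀ : ℤ) ^ 4) (s : Fin 5) :
    0 ≤ n s := by
  by_contra hneg
  have hneg' : n s < 0 := not_le.1 hneg
  obtain ⟨M, N, hM, hN, hlin⟩ := Ty.split T (Finset.mem_univ s) h
  have hdM := Ty.deg_eq T hM
  rw [K8_card_erase] at hdM
  have hn0 : (0 : ℤ) < n₀ := by exact_mod_cast T.n₀_pos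
  have hs := K8_sum_update_le n s
  have hdM' : deg M ≤ (∑ s, |n s|) * (n₀ : ℤ) ^ 3 := by
    rw [hdM, mul_comm]
    exact mul_le_mul_of_nonneg_right hs (by positivity)
  have h1 := T.K8_ell_sq (Finset.mem_univ s)
    (M + Bd.mapDomain (T.pi (Finset.erase_subset s Finset.univ)).res) N (by
      rw [K8_card_erase, deg_add, FHom.deg_mapDomain]
      omega) (by omega)
  rw [K8_ell_zero (D := N) (by omega), mul_zero] at h1
  have h2 := (hlin.add (LinEq.refl Bd)).ell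
  have h3 : (T.pi (Finset.erase_subset s Finset.univ)).pull M +
      (T.pi (Finset.singleton_subset_iff.2 (Finset.mem_univ s))).pull N + Bd ≤
      (T.pi (Finset.erase_subset s Finset.univ)).pull
        (M + Bd.mapDomain (T.pi (Finset.erase_subset s Finset.univ)).res) +
      (T.pi (Finset.singleton_subset_iff.2 (Finset.mem_univ s))).pull N := by
    rw [FHom.pull_add, add_right_comm]
    exact add_le_add (add_le_add le_rfl (FHom.le_pull_mapDomain _ hB)) le_rfl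
  have h4 := ell_mono h3
  omega

end

end Tw

end Pool.Agent.E6b

end

section
open scoped NNReal TensorProduct IntermediateField BigOperators Classical Topology
open Filter

namespace Pool.Agent.E6b

section
variable {L : Type} [Field L] [Algebra Qb L] {n₀ B : ℕ} {T : Tw Qb L n₀ B} (G : TwG T)

/-- the type is invariant under the almost stabiliser -/
theorem K9b_inv {S : Finset (Place Qb T.FU)} {Bd : Dv Qb T.FU} {n : Fin 5 → ℤ} (hB : 0 ≤ Bd)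
    (hn : 0 ≤ n) (h5 : ∑ s, n s ≤ 5) (hty : T.Ty Finset.univ (ind S + Bd) n) (σ : ℕ)
    (hσ : σ + deg Bd + 10 * (n₀ : ℤ) ^ 3 < (n₀ : ℤ) ^ 4) (h : Qb ≃ₐ[ℚ] Qb)
    (hh : S.card ≤ (S ∩ S.image (G.A.sm h)).card + σ) (s : Fin 5) : n (G.perm h s) = n s := by
  have hB' := K9b_pull_nonneg G h hB
  have k0 := Tw.Ty.sub T (G.ty_act h hty) hty
  have k1 : 0 ≤ (G.A.fh h).pull (ind S + Bd) - (ind S + Bd) +
      (ind (S \ S.image (G.A.sm h)) + Bd) := fun R => by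
    have a4 : 0 ≤ (G.A.fh h).pull Bd R := hB' R
    rw [FHom.pull_add, GAct.pull_ind]
    simp only [Finsupp.add_apply, Finsupp.sub_apply, ind_apply, Finsupp.zero_apply,
      Finset.mem_sdiff]
    by_cases b1 : R ∈ S <;> by_cases b2 : R ∈ S.image (G.A.sm h) <;>
      simp only [b1, b2, if_true, if_false, not_true, not_false_iff, and_self, and_false,
        false_and] <;> omega
  have k2 := Finset.card_sdiff_add_card_inter S (S.image (G.A.sm h))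
  have k3 : ∑ s, |((fun s => n ((G.perm h)⁻¹ s)) - n) s| ≤ 10 := by
    have : ∑ s, |((fun s => n ((G.perm h)⁻¹ s)) - n) s| ≤ ∑ s, (n ((G.perm h)⁻¹ s) + n s) :=
      Finset.sum_le_sum fun s _ => by
        have a1 : 0 ≤ n ((G.perm h)⁻¹ s) := hn _
        have a2 : 0 ≤ n s := hn _
        rw [Pi.sub_apply, abs_le]
        constructor <;> linarith
    rw [Finset.sum_add_distrib, K9b_sum] at this
    linarith
  have k4 := T.ty_mono k0 (add_nonneg (K9b_ind_nonneg (S \ S.image (G.A.sm h))) hB)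
    (one_le_ell k1) (by
      rw [deg_add, deg_ind]
      have := mul_le_mul_of_nonneg_right k3 (by positivity : (0 : ℤ) ≤ (n₀ : ℤ) ^ 3)
      have : ((S \ S.image (G.A.sm h)).card : ℤ) ≤ σ := by omega
      linarith)
  have k5 : ∑ s, ((fun s => n ((G.perm h)⁻¹ s)) - n) s = 0 := by
    simp only [Pi.sub_apply]
    rw [Finset.sum_sub_distrib, K9b_sum, sub_self]
  have k6 := (Finset.sum_eq_zero_iff_of_nonneg fun s _ => k4 s).1 k5 (G.perm h s)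
    (Finset.mem_univ _)
  have k7 : (G.perm h)⁻¹ (G.perm h s) = s := (G.perm h).symm_apply_apply s
  simp only [Pi.sub_apply, k7] at k6
  omega

end

end Pool.Agent.E6b

end

section
open scoped NNReal TensorProduct IntermediateField BigOperators Classical Topology
open Filter

namespace Pool.Agent.E6b
variable {κ F : Type} [Field κ] [IsAlgClosed κ] [CharZero κ] [Field F] [Algebra κ F] [IsFF κ F]
  {o : Place κ F}

section
variable {Ω K : Type} [Field Ω] [IsAlgClosed Ω] [CharZero Ω] [Algebra κ Ω]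
  [Field K] [IsAlgClosed K] [CharZero K] [Algebra κ K] (τ : K →ₐ[κ] Ω)

theorem P6_mem_range_plc {P : PO o Ω} (h : P.ev (iF o Ω (wN o)) ∈ τ.range) :
    P ∈ Set.range (bc o τ).plc := by
  rcases eq_oo_or_plc P with rfl | ⟨y, rfl⟩
  · exact ⟨_, BC.plc_oo _⟩
  · rw [(plc_iF y _).2] at h
    obtain ⟨p, rfl⟩ := mem_range_pt_of_wN τ h
    exact ⟨_, BC.plc_plc _ _⟩

end

end Pool.Agent.E6b

end
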