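import Pool.Agent.E6c.A29

section
open scoped NNReal TensorProduct IntermediateField BigOperators Classical Topology
open Filter

namespace Pool.Agent.E6b

/-- monomials: `A` factors `P (inr j)` and `c` factors `xp` -/
abbrev Mon (J : Type) (r A c : ℕ) : Type := (Fin A → J) × (Fin c → Option (Option (Fin r)))

noncomputable def Mdl.mon {K : Type} [Field K] {r : ℕ} {I J : Type} (M : Mdl K r (I ⊕ J)) {A c : ℕ}
    (μ : Mon J r A c) : PP K r := (∏ i, M.P (.inr (μ.1 i))) * ∏ i, xp K r (μ.2 i)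

section Two
variable {r₁ r₂ : ℕ} {ι : Type} (M₁ : Mdl Qb r₁ ι) (M₂ : Mdl Qb r₂ ι)

noncomputable def tm2 : Polynomial (AdjoinRoot (tm1 (r₂ := r₂) M₁)) :=
  M₂.m.map ((AdjoinRoot.of _).comp (MvPolynomial.rename Sum.inr).toRingHom)

/-- coordinate ring of the product of two models -/
abbrev TB : Type := AdjoinRoot (tm2 M₁ M₂)

noncomputable def uB (k : Fin r₁ ⊕ Fin r₂) : TB M₁ M₂ :=
  algebraMap (R0 r₁ r₂) (TB M₁ M₂) (MvPolynomial.X k)

noncomputable def x1B : TB M₁ M₂ := AdjoinRoot.of _ (AdjoinRoot.root _)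

noncomputable def x2B : TB M₁ M₂ := AdjoinRoot.root _

noncomputable def e1B : PP Qb r₁ →ₐ[Qb] TB M₁ M₂ := ev2 (fun k => uB M₁ M₂ (.inl k)) (x1B M₁ M₂)

noncomputable def e2B : PP Qb r₂ →ₐ[Qb] TB M₁ M₂ := ev2 (fun k => uB M₁ M₂ (.inr k)) (x2B M₁ M₂)

/-- the norm down to the polynomial ring -/
noncomputable def nrB (b : TB M₁ M₂) : R0 r₁ r₂ := Algebra.norm (R0 r₁ r₂) b

/-- points of the product where the denominators do not vanish -/
def GdP (χ : TB M₁ M₂ →ₐ[Qb] Qb) : Prop :=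
  χ (e1B M₁ M₂ (Polynomial.C M₁.q)) ≠ 0 ∧ χ (e2B M₁ M₂ (Polynomial.C M₂.q)) ≠ 0

/-- points above torsion points of the torus -/
def Tors (χ : TB M₁ M₂ →ₐ[Qb] Qb) : Prop := ∀ k, ∃ n : ℕ, 0 < n ∧ χ (uB M₁ M₂ k) ^ n = 1

end Two

end Pool.Agent.E6b

end

section
open scoped NNReal TensorProduct IntermediateField BigOperators Classical Topology
open Filter

namespace Pool.Agent.E6b

theorem M1_point {K B : Type} [Field K] [IsAlgClosed K] [CommRing B] [Nontrivial B] [Algebra K B]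
    [Algebra.FiniteType K B] : Nonempty (B →ₐ[K] K) := by
  obtain ⟨I, hI⟩ := Ideal.exists_maximal B
  let _ := Ideal.Quotient.field I
  have : Module.Finite K (B ⧸ I) := finite_of_finite_type_of_isJacobsonRing K _
  exact ⟨(IsAlgClosed.lift : (B ⧸ I) →ₐ[K] K).comp (Ideal.Quotient.mkₐ K I)⟩

theorem M1_lift {K K' : Type} [Field K] [Field K'] [Algebra K K'] {r : ℕ} (B : Subalgebra K K')
    {f : PP K' r} (hf : f.Monic) (hB : (cfs f : Set K') ⊆ B) :
    ∃ f0 : Polynomial (MvPolynomial (Fin r) B),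
      f0.map (MvPolynomial.map B.val.toRingHom) = f ∧ f0.natDegree = f.natDegree ∧ f0.Monic := by
  refine Polynomial.lifts_and_natDegree_eq_and_monic ?_ hf
  rw [Polynomial.lifts_iff_coeff_lifts]
  intro n
  by_cases hn : f.coeff n = 0
  · exact ⟨0, by rw [hn, map_zero]⟩
  · refine MvPolynomial.mem_range_map_iff_coeffs_subset.2 fun c hc => ⟨⟨c, hB ?_⟩, rfl⟩
    exact Finset.mem_coe.2 (Finset.mem_biUnion.2 ⟨n, Polynomial.mem_support_iff.2 hn, hc⟩)

/-- irreducible over an algebraically closed field implies absolutely irreducible -/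
theorem irreducible_map {K K' : Type} [Field K] [IsAlgClosed K] [Field K'] {r : ℕ} (τ : K →+* K')
    {m : PP K r} (hm : m.Monic) (hi : Irreducible m) :
    Irreducible (m.map (MvPolynomial.map τ)) := by
  obtain ⟨h1, h2⟩ := hm.irreducible_iff_natDegree.1 hi
  refine (hm.map _).irreducible_iff_natDegree.2 ⟨fun h => h1 ?_, fun f g hf hg hfg => ?_⟩
  · rw [← hm.natDegree_eq_zero, ← hm.natDegree_map (MvPolynomial.map τ), h,
      Polynomial.natDegree_one]
  let _ : Algebra K K' := τ.toAlgebra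
  let B : Subalgebra K K' := Algebra.adjoin K ((cfs f ∪ cfs g : Finset K') : Set K')
  have : Algebra.FiniteType K B := Subalgebra.fg_iff_finiteType _ |>.1 ⟨_, rfl⟩
  obtain ⟨σ⟩ := M1_point (K := K) (B := B)
  obtain ⟨f0, ef, df, mf⟩ := M1_lift B hf fun c hc =>
    Algebra.subset_adjoin (Finset.mem_coe.2 (Finset.mem_union_left _ hc))
  obtain ⟨g0, eg, dg, mg⟩ := M1_lift B hg fun c hc =>
    Algebra.subset_adjoin (Finset.mem_coe.2 (Finset.mem_union_right _ hc))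
  have e0 : f0 * g0 = m.map (MvPolynomial.map (algebraMap K B)) := by
    refine Polynomial.map_injective (MvPolynomial.map B.val.toRingHom)
      (MvPolynomial.map_injective _ Subtype.val_injective) ?_
    rw [Polynomial.map_mul, ef, eg, hfg, Polynomial.map_map]
    congr 1
    refine RingHom.ext fun a => ?_
    rw [RingHom.comp_apply, MvPolynomial.map_map]
    rfl
  have e1 : f0.map (MvPolynomial.map σ.toRingHom) * g0.map (MvPolynomial.map σ.toRingHom) = m := by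
    rw [← Polynomial.map_mul, e0, Polynomial.map_map]
    have : (MvPolynomial.map (σ := Fin r) σ.toRingHom).comp (MvPolynomial.map (algebraMap K B)) =
        RingHom.id _ := by
      refine RingHom.ext fun a => ?_
      have e : σ.toRingHom.comp (algebraMap K B) = RingHom.id K := RingHom.ext fun c => σ.commutes c
      rw [RingHom.comp_apply, MvPolynomial.map_map, e, MvPolynomial.map_id]
      rfl
    rw [this, Polynomial.map_id]
  have := h2 _ _ (mf.map _) (mg.map _) e1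
  rwa [mf.natDegree_map, mg.natDegree_map, df, dg] at this

end Pool.Agent.E6b

end

section

namespace Pool.Agent.E6b
open Polynomial
variable {r₁ r₂ : ℕ} {ι : Type} (M₁ : Mdl Qb r₁ ι) (M₂ : Mdl Qb r₂ ι)

theorem C1_monic2 : (tm2 M₁ M₂).Monic := M₂.monic.map _

theorem C1_dom1 : IsDomain (AdjoinRoot (tm1 (r₂ := r₂) M₁)) := by
  let L := FractionRing (MvPolynomial (Fin r₂) Qb)
  refine C1_dom (C1_monic1 M₁)
    ((MvPolynomial.map (algebraMap (MvPolynomial (Fin r₂) Qb) L)).comp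
      (MvPolynomial.sumRingEquiv Qb (Fin r₁) (Fin r₂)).toRingHom)
    ((MvPolynomial.map_injective _ (IsFractionRing.injective _ _)).comp
      (MvPolynomial.sumRingEquiv Qb (Fin r₁) (Fin r₂)).injective) ?_
  rw [tm1, Polynomial.map_map]
  convert irreducible_map ((algebraMap (MvPolynomial (Fin r₂) Qb) L).comp MvPolynomial.C)
    M₁.monic M₁.irr using 2
  refine MvPolynomial.ringHom_ext (fun c => ?_) fun k => ?_ <;> simp

theorem C1_emb : ∃ φ : AdjoinRoot (tm1 (r₂ := r₂) M₁) →+* MvPolynomial (Fin r₂) (AdjoinRoot M₁.m),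
    Function.Injective φ ∧ φ.comp ((AdjoinRoot.of _).comp (MvPolynomial.rename Sum.inr).toRingHom) =
      MvPolynomial.map ((AdjoinRoot.of M₁.m).comp MvPolynomial.C) := by
  let g : AdjoinRoot M₁.m →+* AdjoinRoot (tm1 (r₂ := r₂) M₁) :=
    AdjoinRoot.lift ((AdjoinRoot.of _).comp (MvPolynomial.rename Sum.inl).toRingHom)
      (AdjoinRoot.root _) (by rw [← eval₂_map]; exact AdjoinRoot.eval₂_root _)
  let ψ : MvPolynomial (Fin r₂) (AdjoinRoot M₁.m) →+* AdjoinRoot (tm1 (r₂ := r₂) M₁) :=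
    MvPolynomial.eval₂Hom g fun k => AdjoinRoot.of _ (MvPolynomial.X (.inr k))
  let φ₀ : R0 r₁ r₂ →+* MvPolynomial (Fin r₂) (AdjoinRoot M₁.m) :=
    MvPolynomial.eval₂Hom (MvPolynomial.C.comp ((AdjoinRoot.of M₁.m).comp MvPolynomial.C))
      (Sum.elim (fun k => MvPolynomial.C (AdjoinRoot.of M₁.m (MvPolynomial.X k))) MvPolynomial.X)
  have h0 : φ₀.comp (MvPolynomial.rename Sum.inl).toRingHom =
      MvPolynomial.C.comp (AdjoinRoot.of M₁.m) := by
    refine MvPolynomial.ringHom_ext (fun c => ?_) fun k => ?_ <;> simp [φ₀]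
  let φ : AdjoinRoot (tm1 (r₂ := r₂) M₁) →+* MvPolynomial (Fin r₂) (AdjoinRoot M₁.m) :=
    AdjoinRoot.lift φ₀ (MvPolynomial.C (AdjoinRoot.root _)) (by
      rw [tm1, eval₂_map, h0, ← hom_eval₂, AdjoinRoot.eval₂_root, map_zero])
  have h1 : ψ.comp φ = RingHom.id _ := by
    refine AdjoinRoot.ringHom_ext (MvPolynomial.ringHom_ext (fun c => ?_) fun k => ?_) ?_
    · simp [φ, φ₀, ψ, g]
    · rcases k with k | k <;> simp [φ, φ₀, ψ, g]
    · simp [φ, ψ, g]
  refine ⟨φ, Function.LeftInverse.injective (g := ψ) fun x => RingHom.congr_fun h1 x, ?_⟩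
  refine MvPolynomial.ringHom_ext (fun c => ?_) fun k => ?_ <;> simp [φ, φ₀]

theorem C1_dom2 : IsDomain (TB M₁ M₂) := by
  have : IsDomain (AdjoinRoot M₁.m) := AdjoinRoot.isDomain_of_prime M₁.irr.prime
  let L := FractionRing (AdjoinRoot M₁.m)
  obtain ⟨φ, h1, h2⟩ := C1_emb (r₂ := r₂) M₁
  refine C1_dom (C1_monic2 M₁ M₂) ((MvPolynomial.map (algebraMap (AdjoinRoot M₁.m) L)).comp φ)
    ((MvPolynomial.map_injective _ (IsFractionRing.injective _ _)).comp h1) ?_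
  rw [tm2, Polynomial.map_map, RingHom.comp_assoc, h2]
  convert irreducible_map ((algebraMap (AdjoinRoot M₁.m) L).comp
    ((AdjoinRoot.of M₁.m).comp MvPolynomial.C)) M₂.monic M₂.irr using 2
  refine MvPolynomial.ringHom_ext (fun c => ?_) fun k => ?_ <;> simp

theorem C1_basis : ∃ b : Module.Basis (Fin M₁.m.natDegree × Fin M₂.m.natDegree) (R0 r₁ r₂)
    (TB M₁ M₂), ∀ i, b i = x1B M₁ M₂ ^ (i.1 : ℕ) * x2B M₁ M₂ ^ (i.2 : ℕ) := by
  have := C1_dom1 (r₂ := r₂) M₁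
  have e1 : (tm1 (r₂ := r₂) M₁).natDegree = M₁.m.natDegree := M₁.monic.natDegree_map _
  have e2 : (tm2 M₁ M₂).natDegree = M₂.m.natDegree := M₂.monic.natDegree_map _
  let b1 := (AdjoinRoot.powerBasis' (C1_monic1 (r₂ := r₂) M₁)).basis.reindex (finCongr e1)
  let b2 := (AdjoinRoot.powerBasis' (C1_monic2 M₁ M₂)).basis.reindex (finCongr e2)
  refine ⟨b1.smulTower b2, fun i => ?_⟩
  rw [Module.Basis.smulTower_apply, Module.Basis.reindex_apply, Module.Basis.reindex_apply,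
    PowerBasis.basis_eq_pow, PowerBasis.basis_eq_pow, Algebra.smul_def, map_pow]
  rfl

theorem C1_aeval1 (p : MvPolynomial (Fin r₁) Qb) :
    MvPolynomial.aeval (fun k => uB M₁ M₂ (.inl k)) p =
      algebraMap (R0 r₁ r₂) (TB M₁ M₂) (MvPolynomial.rename Sum.inl p) := by
  have : (MvPolynomial.aeval fun k => uB M₁ M₂ (.inl k)) =
      (IsScalarTower.toAlgHom Qb (R0 r₁ r₂) (TB M₁ M₂)).comp (MvPolynomial.rename Sum.inl) :=
    MvPolynomial.algHom_ext fun k => by simp [uB]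
  rw [this]
  rfl

theorem C1_aeval2 (p : MvPolynomial (Fin r₂) Qb) :
    MvPolynomial.aeval (fun k => uB M₁ M₂ (.inr k)) p =
      algebraMap (R0 r₁ r₂) (TB M₁ M₂) (MvPolynomial.rename Sum.inr p) := by
  have : (MvPolynomial.aeval fun k => uB M₁ M₂ (.inr k)) =
      (IsScalarTower.toAlgHom Qb (R0 r₁ r₂) (TB M₁ M₂)).comp (MvPolynomial.rename Sum.inr) :=
    MvPolynomial.algHom_ext fun k => by simp [uB]
  rw [this]
  rfl

end Pool.Agent.E6b

end

section
open scoped NNReal TensorProduct IntermediateField BigOperators Classical Topology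
open Filter

namespace Pool.Agent.E6b
variable {r₁ r₂ : ℕ} {ι : Type} (M₁ : Mdl Qb r₁ ι) (M₂ : Mdl Qb r₂ ι)

instance instIsDomainTB : IsDomain (TB M₁ M₂) := C1_dom2 M₁ M₂

/-- function field of the product of two models, and its algebraic closure -/
def TK : Type := FractionRing (TB M₁ M₂)

noncomputable instance instFieldTK : Field (TK M₁ M₂) :=
  inferInstanceAs (Field (FractionRing (TB M₁ M₂)))

/-- algebra structures on the function field of the product -/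
@[reducible] noncomputable def algTK (S : Type) [CommSemiring S] [Algebra S (TB M₁ M₂)] :
    Algebra S (TK M₁ M₂) :=
  inferInstanceAs (Algebra S (FractionRing (TB M₁ M₂)))

noncomputable instance instAlgTBTK : Algebra (TB M₁ M₂) (TK M₁ M₂) := algTK M₁ M₂ (TB M₁ M₂)

instance instFracTK : IsFractionRing (TB M₁ M₂) (TK M₁ M₂) :=
  inferInstanceAs (IsFractionRing (TB M₁ M₂) (FractionRing (TB M₁ M₂)))

noncomputable instance instAlgR0TK : Algebra (R0 r₁ r₂) (TK M₁ M₂) := algTK M₁ M₂ (R0 r₁ r₂)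

noncomputable instance instAlgTK : Algebra Qb (TK M₁ M₂) := algTK M₁ M₂ Qb

instance instTowerTK₁ : IsScalarTower Qb (TB M₁ M₂) (TK M₁ M₂) :=
  IsScalarTower.of_algebraMap_eq fun _ => rfl

instance instTowerTK₂ : IsScalarTower (R0 r₁ r₂) (TB M₁ M₂) (TK M₁ M₂) :=
  IsScalarTower.of_algebraMap_eq fun _ => rfl

instance instTowerTK₃ : IsScalarTower Qb (R0 r₁ r₂) (TK M₁ M₂) :=
  IsScalarTower.of_algebraMap_eq fun _ => rfl

instance instFaithfulTK : FaithfulSMul (TB M₁ M₂) (TK M₁ M₂) :=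
  (faithfulSMul_iff_algebraMap_injective _ _).2 (IsFractionRing.injective _ _)

abbrev TL : Type := AlgebraicClosure (TK M₁ M₂)

instance instCharZeroTK : CharZero (TK M₁ M₂) :=
  charZero_of_injective_algebraMap (algebraMap Qb (TK M₁ M₂)).injective

noncomputable def uK (k : Fin r₁ ⊕ Fin r₂) : TK M₁ M₂ := algebraMap _ _ (uB M₁ M₂ k)

noncomputable def uL (k : Fin r₁ ⊕ Fin r₂) : TL M₁ M₂ := algebraMap (TB M₁ M₂) _ (uB M₁ M₂ k)

noncomputable def x1L : TL M₁ M₂ := algebraMap (TB M₁ M₂) _ (x1B M₁ M₂)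

noncomputable def x2L : TL M₁ M₂ := algebraMap (TB M₁ M₂) _ (x2B M₁ M₂)

theorem exists_basis_TB : ∃ b : Module.Basis (Fin M₁.m.natDegree × Fin M₂.m.natDegree) (R0 r₁ r₂)
    (TB M₁ M₂), ∀ i, b i = x1B M₁ M₂ ^ (i.1 : ℕ) * x2B M₁ M₂ ^ (i.2 : ℕ) := C1_basis M₁ M₂

instance instFreeTB : Module.Free (R0 r₁ r₂) (TB M₁ M₂) :=
  Module.Free.of_basis (exists_basis_TB M₁ M₂).choose

instance instFiniteTB : Module.Finite (R0 r₁ r₂) (TB M₁ M₂) :=
  Module.Finite.of_basis (exists_basis_TB M₁ M₂).choose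

theorem algebraMap_R0_injective : Function.Injective (algebraMap (R0 r₁ r₂) (TB M₁ M₂)) :=
  FaithfulSMul.algebraMap_injective _ _

theorem hom_algebraMap_TB {R : Type} [CommRing R] [Algebra Qb R] (χ : TB M₁ M₂ →ₐ[Qb] R)
    (p : R0 r₁ r₂) : χ (algebraMap _ _ p) = MvPolynomial.aeval (fun k => χ (uB M₁ M₂ k)) p := by
  have : χ.comp (IsScalarTower.toAlgHom Qb (R0 r₁ r₂) (TB M₁ M₂)) =
      MvPolynomial.aeval fun k => χ (uB M₁ M₂ k) :=
    MvPolynomial.algHom_ext fun k => by simp [uB]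
  rw [← this]
  rfl

theorem C1_injL : Function.Injective (algebraMap (TB M₁ M₂) (TL M₁ M₂)) := by
  rw [IsScalarTower.algebraMap_eq (TB M₁ M₂) (TK M₁ M₂) (TL M₁ M₂)]
  exact (algebraMap (TK M₁ M₂) (TL M₁ M₂)).injective.comp (IsFractionRing.injective _ _)

theorem C1_aevalK (p : R0 r₁ r₂) : MvPolynomial.aeval (uK M₁ M₂) p =
    algebraMap (TB M₁ M₂) (TK M₁ M₂) (algebraMap _ _ p) :=
  (hom_algebraMap_TB M₁ M₂ (IsScalarTower.toAlgHom Qb (TB M₁ M₂) (TK M₁ M₂)) p).symm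

theorem C1_aevalL (p : R0 r₁ r₂) : MvPolynomial.aeval (uL M₁ M₂) p =
    algebraMap (TB M₁ M₂) (TL M₁ M₂) (algebraMap _ _ p) :=
  (hom_algebraMap_TB M₁ M₂ (IsScalarTower.toAlgHom Qb (TB M₁ M₂) (TL M₁ M₂)) p).symm

theorem algebraicIndependent_uK : AlgebraicIndependent Qb (uK M₁ M₂) :=
  algebraicIndependent_iff_injective_aeval.2 fun p q h => by
    rw [C1_aevalK, C1_aevalK] at h
    exact algebraMap_R0_injective M₁ M₂ (IsFractionRing.injective _ _ h)

theorem algebraicIndependent_uL : AlgebraicIndependent Qb (uL M₁ M₂) :=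
  algebraicIndependent_iff_injective_aeval.2 fun p q h => by
    rw [C1_aevalL, C1_aevalL] at h
    exact algebraMap_R0_injective M₁ M₂ (C1_injL M₁ M₂ h)

theorem nrB_ne_zero {b : TB M₁ M₂} (hb : b ≠ 0) : nrB M₁ M₂ b ≠ 0 :=
  Algebra.norm_ne_zero_iff.2 hb

theorem dvd_nrB (b : TB M₁ M₂) : b ∣ algebraMap (R0 r₁ r₂) _ (nrB M₁ M₂ b) :=
  C1_dvd_norm b

/-- the valuation ring `O` dominates the point `χ` -/
def Dom (O : VS Qb (TL M₁ M₂)) (χ : TB M₁ M₂ →ₐ[Qb] Qb) : Prop :=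
  ∀ b, algebraMap _ (TL M₁ M₂) b ∈ O.1 ∧
    rs O (algebraMap _ (TL M₁ M₂) b) = algebraMap Qb (RF O) (χ b)

theorem exists_dom (χ : TB M₁ M₂ →ₐ[Qb] Qb) : ∃ O, Dom M₁ M₂ O χ := by
  let L := IsScalarTower.toAlgHom Qb (TB M₁ M₂) (TL M₁ M₂)
  have hinj : Function.Injective L := C1_injL M₁ M₂
  obtain ⟨O, h1, h2⟩ := exists_vs_dom L.range (χ.comp (AlgEquiv.ofInjective L hinj).symm.toAlgHom)
  have h3 : ∀ x, L x ∈ O.1 := fun x => h1 (AlgEquiv.ofInjective L hinj x)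
  have h4 : ∀ x, χ x = 0 → O.1.valuation (L x) < 1 := fun x hx => by
    refine (h2 (AlgEquiv.ofInjective L hinj x)).2 ?_
    change χ ((AlgEquiv.ofInjective L hinj).symm (AlgEquiv.ofInjective L hinj x)) = 0
    rw [AlgEquiv.symm_apply_apply, hx]
  refine ⟨O, fun b => ⟨h3 b, ?_⟩⟩
  have h5 := (rs_eq_zero_iff O (h3 _)).2 (h4 (b - algebraMap Qb _ (χ b)) (by simp))
  have h6 : L b = L (b - algebraMap Qb _ (χ b)) + algebraMap Qb _ (χ b) := by
    rw [map_sub, L.commutes, sub_add_cancel]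
  change rs O (L b) = _
  rw [h6, rs_add O (h3 _) (O.2 _), h5, zero_add, rs_algebraMap]

/-- combination of monomials -/
noncomputable def cmb {I J : Type} (M₁ : Mdl Qb r₁ (I ⊕ J)) (M₂ : Mdl Qb r₂ (I ⊕ J))
    {A₁ A₂ c N : ℕ} (μ₁ : Fin N → Mon J r₁ A₁ c) (μ₂ : Fin N → Mon J r₂ A₂ c) (w : Fin N → Qb) :
    TB M₁ M₂ := ∑ i, w i • (e1B M₁ M₂ (M₁.mon (μ₁ i)) * e2B M₁ M₂ (M₂.mon (μ₂ i)))

end Pool.Agent.E6b

end

section
open scoped NNReal TensorProduct IntermediateField BigOperators Classical Topology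
open Filter

namespace Pool.Agent.E6b
variable {F : Type} [Field F] [Algebra Qb F] [IsFF Qb F] {o : Place Qb F} {d r₁ r₂ : ℕ}
variable {M₁ : Mdl Qb r₁ (IX o d)} {M₂ : Mdl Qb r₂ (IX o d)}

variable (M₁ M₂) in
/-- the generic point -/
noncomputable def C5_i : TB M₁ M₂ →ₐ[Qb] TL M₁ M₂ := IsScalarTower.toAlgHom Qb (TB M₁ M₂) (TL M₁ M₂)

theorem C5_i_mem (b : TB M₁ M₂) : C5_i M₁ M₂ b ∈ (algebraMap (TK M₁ M₂) (TL M₁ M₂)).range :=
  ⟨algebraMap _ _ b, (IsScalarTower.algebraMap_apply _ _ _ b).symm⟩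

end Pool.Agent.E6b

end

section
open scoped NNReal TensorProduct IntermediateField BigOperators Classical Topology
open Filter

namespace Pool.Agent.E6b
variable {F : Type} [Field F] [Algebra Qb F] [IsFF Qb F] {o : Place Qb F} {d : ℕ}

/-- the vectors `P (inr j) / q` in the function field of the product -/
noncomputable def xK1 {r₁ r₂ : ℕ} {I J : Type} (M₁ : Mdl Qb r₁ (I ⊕ J)) (M₂ : Mdl Qb r₂ (I ⊕ J))
    (j : J) : TK M₁ M₂ :=
  algebraMap _ _ (e1B M₁ M₂ (M₁.P (.inr j))) / algebraMap _ _ (e1B M₁ M₂ (Polynomial.C M₁.q))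

noncomputable def xK2 {r₁ r₂ : ℕ} {I J : Type} (M₁ : Mdl Qb r₁ (I ⊕ J)) (M₂ : Mdl Qb r₂ (I ⊕ J))
    (j : J) : TK M₁ M₂ :=
  algebraMap _ _ (e2B M₁ M₂ (M₂.P (.inr j))) / algebraMap _ _ (e2B M₁ M₂ (Polynomial.C M₂.q))

section
variable {r₁ r₂ : ℕ} {ι : Type} (M₁ : Mdl Qb r₁ ι) (M₂ : Mdl Qb r₂ ι)

theorem C6_KL (b : TB M₁ M₂) : algebraMap (TK M₁ M₂) (TL M₁ M₂) (algebraMap _ (TK M₁ M₂) b) =
    algebraMap _ (TL M₁ M₂) b := (IsScalarTower.algebraMap_apply _ _ _ b).symm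

end

end Pool.Agent.E6b

end

section
open scoped NNReal TensorProduct IntermediateField BigOperators Classical Topology
open Filter

namespace Pool.Agent.E6b
variable {F : Type} [Field F] [Algebra Qb F] [IsFF Qb F] (o : Place Qb F) (d : ℕ)

section
variable {o d} {r₁ r₂ : ℕ} {M₁ : Mdl Qb r₁ (IX o d)} {M₂ : Mdl Qb r₂ (IX o d)} (k₀ : Fin r₁)
  (s t : ℤ) (a b : ℕ) {A₁ A₂ c N : ℕ} (μ₁ : Fin N → Mon (JJ o × JJ o) r₁ A₁ c)
  (μ₂ : Fin N → Mon (JJ o × JJ o) r₂ A₂ c)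

theorem C7_cmb (χ : TB M₁ M₂ →ₐ[Qb] Qb) (w : Fin N → Qb) : χ (cmb M₁ M₂ μ₁ μ₂ w) =
    ∑ i, w i * χ (e1B M₁ M₂ (M₁.mon (μ₁ i)) * e2B M₁ M₂ (M₂.mon (μ₂ i))) := by
  simp only [cmb, map_sum, map_smul, smul_eq_mul]

end

end Pool.Agent.E6b

end

section
open scoped NNReal TensorProduct IntermediateField BigOperators Classical Topology
open Filter

namespace Pool.Agent.E6b
open MvPowerSeries

section aux
variable {B K L : Type} [CommRing B] [IsDomain B] [Field K] [Algebra B K] [IsFractionRing B K]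
  [Field L] [Algebra K L] [Algebra B L] [IsScalarTower B K L]

theorem C4_pos {σ : Type} {w : σ → ℕ} (hw : ∀ k, 0 < w k) {f : MvPowerSeries σ Qb}
    (hf : constantCoeff f = 0) : 0 < f.weightedOrder w := by
  refine lt_of_lt_of_le (by simp) (nat_le_weightedOrder w (n := 1) fun d hd => ?_)
  have h0 : d = 0 := by
    ext k
    have h1 := Finsupp.le_weight w (hw k).ne' d
    simp only [Finsupp.coe_zero, Pi.zero_apply]
    omega
  rw [h0, coeff_zero_eq_constantCoeff_apply, hf]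

end aux
variable {r₁ r₂ : ℕ} {ι : Type} (M₁ : Mdl Qb r₁ ι) (M₂ : Mdl Qb r₂ ι)

/-- Leading coefficients for a weighted order. -/
theorem exists_lead (T : TB M₁ M₂ →ₐ[Qb] MvPowerSeries (Fin r₁ ⊕ Fin r₂) Qb)
    (χ : TB M₁ M₂ →ₐ[Qb] Qb) (hT : Function.Injective T) (hχ : ∀ b, constantCoeff (T b) = χ b)
    {p : Fin r₁ ⊕ Fin r₂ → Qb}
    (hp : ∀ q : R0 r₁ r₂, T (algebraMap _ _ q) = (shf p q : MvPowerSeries _ Qb))
    (dd : Fin r₁ ⊕ Fin r₂ → ℕ) (hd : ∀ k, 0 < dd k) :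
    ∃ O, Dom M₁ M₂ O χ ∧ ∀ (b : TB M₁ M₂) (ϑ : ℝ), b ≠ 0 → ¬ IdxGe (nrB M₁ M₂ b) p dd ϑ →
      ∃ m : Fin r₁ ⊕ Fin r₂ →₀ ℕ, ∑ k, (m k : ℝ) / dd k < ϑ ∧ coeff m (T b) ≠ 0 ∧
        ∀ (b' : TB M₁ M₂) (y : TL M₁ M₂) (c : Qb), y ∈ O.1 → rs O y = algebraMap Qb (RF O) c →
          algebraMap _ (TL M₁ M₂) b' = y * algebraMap _ (TL M₁ M₂) b →
          coeff m (T b') = c * coeff m (T b) := by
  obtain ⟨w, hw0, hw⟩ := C4_weight dd hd
  have hT0 : ∀ a, T a = 0 ↔ a = 0 := fun a => map_eq_zero_iff T hT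
  obtain ⟨O, hO⟩ := C4_exists_O (TK M₁ M₂) (TL M₁ M₂) (fun b => (T b).weightedOrder w)
    (fun a b => by rw [map_mul, weightedOrder_mul])
    (fun a b => by rw [map_add]; exact min_weightedOrder_le_add w)
    (fun a => by rw [map_neg, weightedOrder_neg])
    (fun a => by rw [weightedOrder_eq_top_iff, hT0])
  have hB : ∀ b : TB M₁ M₂, algebraMap _ (TL M₁ M₂) b ∈ O := fun b =>
    (hO _ b 1 one_ne_zero (by rw [map_one, mul_one])).1.2 (by simp)
  have hc : ∀ c : Qb, algebraMap Qb (TL M₁ M₂) c =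
      algebraMap (TB M₁ M₂) (TL M₁ M₂) (algebraMap Qb _ c) := fun c =>
    IsScalarTower.algebraMap_apply _ _ _ c
  refine ⟨⟨O, fun c => by rw [hc]; exact hB _⟩, fun b => ⟨hB b, ?_⟩, fun b ϑ hb hI => ?_⟩
  · have h1 : algebraMap _ (TL M₁ M₂) b =
        algebraMap _ (TL M₁ M₂) (b - algebraMap Qb _ (χ b)) + algebraMap Qb _ (χ b) := by
      rw [map_sub, hc, sub_add_cancel]
    rw [h1, rs_add _ (hB _) (by rw [hc]; exact hB _), rs_algebraMap,
      (rs_eq_zero_iff _ (hB _)).2, zero_add]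
    refine (hO _ (b - algebraMap Qb _ (χ b)) 1 one_ne_zero (by rw [map_one, mul_one])).2.2 ?_
    simp only [map_one, weightedOrder_one]
    refine C4_pos hw0 ?_
    rw [hχ, map_sub, AlgHom.commutes]
    exact sub_self _
  · have hb0 : T b ≠ 0 := fun e => hb ((hT0 b).1 e)
    obtain ⟨m, hm, hmw⟩ := exists_coeff_ne_zero_and_weightedOrder w
      ((ne_zero_iff_weightedOrder_finite w).1 hb0)
    refine ⟨m, ?_, hm, fun b' y c hy hyc hb' => ?_⟩
    · unfold IdxGe at hI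
      push Not at hI
      obtain ⟨m', hm', hlt⟩ := hI
      refine lt_of_le_of_lt ?_ hlt
      obtain ⟨c, hc'⟩ := dvd_nrB M₁ M₂ b
      have h1 : coeff m' (T b * T c) ≠ 0 := by
        rw [← map_mul, ← hc', hp, MvPolynomial.coeff_coe]
        exact MvPolynomial.mem_support_iff.1 hm'
      have h2 := weightedOrder_le w h1
      rw [weightedOrder_mul, ← hmw] at h2
      have h3 : Finsupp.weight w m ≤ Finsupp.weight w m' := by
        exact_mod_cast le_self_add.trans h2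
      rw [hw, hw]
      exact div_le_div_of_nonneg_right (by exact_mod_cast h3)
        (Finset.prod_nonneg fun i _ => Nat.cast_nonneg _)
    · have hcO : algebraMap Qb (TL M₁ M₂) (-c) ∈ O := by rw [hc]; exact hB _
      have h1 := (rs_eq_zero_iff ⟨O, fun c => by rw [hc]; exact hB _⟩ (O.add_mem _ _ hy hcO)).1
        (by rw [rs_add _ hy hcO, hyc, rs_algebraMap, ← map_add, add_neg_cancel, map_zero])
      have h2 := (hO _ (b' - algebraMap Qb _ c * b) b hb (by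
        rw [map_sub, map_mul, hb', ← hc, map_neg]; ring)).2.1 h1
      have h3 := coeff_eq_zero_of_lt_weightedOrder w (d := m) (hmw.trans_lt h2)
      rw [map_sub, map_mul, AlgHom.commutes, ← Algebra.smul_def, map_sub, map_smul,
        smul_eq_mul, sub_eq_zero] at h3
      exact h3

end Pool.Agent.E6b

end
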