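import Pool.Agent.E6c.A22
import Pool.Agent.E6c.A25
import Pool.Agent.E6c.A30
import Pool.Agent.E6c.A32

section
open scoped NNReal TensorProduct IntermediateField BigOperators Classical Topology
open Filter

namespace Pool.Agent.E6b
variable {κ L : Type} [Field κ] [IsAlgClosed κ] [CharZero κ] [Field L] [Algebra κ L] {n₀ B : ℕ}
  (T : Tw κ L n₀ B)

namespace Tw

theorem Ty.linEq {J : Finset (Fin 5)} {Z Z' : Dv κ (T.F J)} {n : Fin 5 → ℤ} (h : T.Ty J Z n)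
    (h' : LinEq Z Z') : T.Ty J Z' n :=
  h.imp fun _ hN => ⟨hN.1, hN.2.1, h'.symm.trans hN.2.2⟩

end Tw

end Pool.Agent.E6b

end

section
open scoped BigOperators Classical Pointwise

namespace Pool.Agent.E6b

theorem K9a_bonf {ι X : Type} (A : ι → Finset X) (t σ : ℕ) (I : Finset ι)
    (hA : ∀ i ∈ I, (A i).card = t) (hp : ∀ i ∈ I, ∀ j ∈ I, i ≠ j → (A i ∩ A j).card ≤ σ) :
    I.card * t ≤ (I.biUnion A).card + I.card * I.card * σ := by
  induction I using Finset.induction_on with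
  | empty => simp
  | insert a I ha ih =>
    have h1 := ih (fun i hi => hA i (Finset.mem_insert_of_mem hi)) fun i hi j hj =>
      hp i (Finset.mem_insert_of_mem hi) j (Finset.mem_insert_of_mem hj)
    have h2 := Finset.card_union_add_card_inter (A a) (I.biUnion A)
    have h3 : (A a ∩ I.biUnion A).card ≤ I.card * σ := by
      rw [Finset.inter_biUnion]
      refine Finset.card_biUnion_le_card_mul _ _ _ fun j hj => ?_
      exact hp a (Finset.mem_insert_self _ _) j (Finset.mem_insert_of_mem hj)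
        fun e => ha (e ▸ hj)
    rw [hA a (Finset.mem_insert_self _ _)] at h2
    rw [Finset.biUnion_insert, Finset.card_insert_of_notMem ha]
    nlinarith

theorem K9a_double {X : Type} (Ω : Finset (Finset X)) (B : Finset X) (r : ℕ)
    (h : ∀ x ∈ B, (Ω.filter fun A => x ∈ A).card = r) : ∑ A ∈ Ω, (B ∩ A).card = B.card * r := by
  have e : ∀ A, (B ∩ A).card = ∑ x ∈ B, if x ∈ A then 1 else 0 := fun A => by
    rw [← Finset.card_filter, Finset.filter_mem_eq_inter]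
  simp only [e]
  rw [Finset.sum_comm, Finset.sum_congr rfl fun x hx => (Finset.card_filter _ _).symm.trans (h x hx),
    Finset.sum_const, smul_eq_mul]

section
variable {H X : Type} [Group H] [MulAction H X]

theorem K9a_inter (T : Finset X) (g h : H) : (g • T ∩ h • T).card = (T ∩ (g⁻¹ * h) • T).card := by
  rw [← Finset.card_smul_finset g (T ∩ (g⁻¹ * h) • T), Finset.smul_finset_inter, smul_smul,
    mul_inv_cancel_left]

/-- the elements which almost preserve `T` -/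
def K9a_sub (T : Finset X) (σ : ℕ) (hσ : 100 * σ < T.card)
    (hd : ∀ h : H, (T ∩ h • T).card ≤ σ ∨ T.card ≤ (T ∩ h • T).card + σ) : Subgroup H where
  carrier := {h | T.card ≤ (T ∩ h • T).card + σ}
  one_mem' := by simp
  inv_mem' := fun {h} hh => by
    have := K9a_inter T h 1
    rw [mul_one, one_smul, Finset.inter_comm] at this
    change T.card ≤ (T ∩ h⁻¹ • T).card + σ
    rw [← this]
    exact hh
  mul_mem' := fun {g h} hg hh => by
    refine (hd (g * h)).resolve_left fun hc => ?_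
    have h1 : T.card ≤ (T ∩ g • T).card + σ := hg
    have h2 : T.card ≤ (g • T ∩ (g * h) • T).card + σ := by
      rw [K9a_inter, inv_mul_cancel_left]
      exact hh
    have h3 := Finset.card_union_add_card_inter (T ∩ g • T) (g • T ∩ (g * h) • T)
    have h4 : (T ∩ g • T ∪ g • T ∩ (g * h) • T).card ≤ T.card := by
      rw [← Finset.card_smul_finset g T]
      exact Finset.card_le_card
        (Finset.union_subset Finset.inter_subset_right Finset.inter_subset_left)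
    have h5 : (T ∩ g • T ∩ (g • T ∩ (g * h) • T)).card ≤ (T ∩ (g * h) • T).card :=
      Finset.card_le_card
        (Finset.inter_subset_inter Finset.inter_subset_left Finset.inter_subset_right)
    omega

theorem K9a_block (D T : Finset X)
    (hD : ∀ x ∈ D, ∀ h : H, h • x ∈ D) (htr : ∀ x ∈ D, ∀ y ∈ D, ∃ h : H, h • x = y) (hT : T ⊆ D)
    (σ : ℕ) (hσ : 100 * σ < T.card) (hb : D.card ≤ 6 * T.card)
    (hd : ∀ h : H, (T ∩ h • T).card ≤ σ ∨ T.card ≤ (T ∩ h • T).card + σ) :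
    ∃ U : Subgroup H, (∀ h, h ∈ U ↔ T.card ≤ (T ∩ h • T).card + σ) ∧ 0 < U.index ∧
      U.index ≤ 6 ∧ U.index * T.card ≤ D.card + 36 * σ ∧ D.card ≤ U.index * T.card + 36 * σ := by
  set U := K9a_sub T σ hσ hd with hU
  have hmem : ∀ h, h ∈ U ↔ T.card ≤ (T ∩ h • T).card + σ := fun _ => Iff.rfl
  have hsub : ∀ h : H, h • T ⊆ D := fun h x hx => by
    obtain ⟨y, hy, rfl⟩ := Finset.mem_smul_finset.1 hx
    exact hD y (hT hy) h
  have hbon : ∀ I : Finset (H ⧸ U), I.card * T.card ≤ D.card + I.card * I.card * σ := by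
    intro I
    refine (K9a_bonf (fun q : H ⧸ U => q.out • T) T.card σ I
      (fun q _ => Finset.card_smul_finset _ _) fun q _ q' _ hne => ?_).trans ?_
    · rw [K9a_inter]
      refine (hd _).resolve_right fun hc => hne ?_
      rw [← q.out_eq, ← q'.out_eq]
      exact QuotientGroup.eq.2 ((hmem _).2 hc)
    · exact Nat.add_le_add_right
        (Finset.card_le_card (Finset.biUnion_subset.2 fun q _ => hsub _)) _
  have h7 : ∀ I : Finset (H ⧸ U), I.card ≠ 7 := fun I hI => by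
    have := hbon I
    rw [hI] at this
    omega
  have hfin : Finite (H ⧸ U) := by
    by_contra hc
    rw [not_finite_iff_infinite] at hc
    obtain ⟨I, hI⟩ := Infinite.exists_subset_card_eq (H ⧸ U) 7
    exact h7 I hI
  have := Fintype.ofFinite (H ⧸ U)
  have hk : U.index = (Finset.univ : Finset (H ⧸ U)).card := by
    rw [Subgroup.index, Nat.card_eq_fintype_card, Finset.card_univ]
  have hk6 : U.index ≤ 6 := by
    by_contra hc
    obtain ⟨I, -, hI⟩ := Finset.exists_subset_card_eq (s := (Finset.univ : Finset (H ⧸ U)))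
      (n := 7) (by omega)
    exact h7 I hI
  refine ⟨U, hmem, Nat.pos_of_ne_zero Subgroup.index_ne_zero_of_finite, hk6, ?_, ?_⟩
  · have h1 := hbon Finset.univ
    rw [← hk] at h1
    have h2 : U.index * U.index * σ ≤ 36 * σ :=
      Nat.mul_le_mul_right _ (Nat.mul_le_mul hk6 hk6)
    omega
  set Ω : Finset (Finset X) := D.powerset.filter fun A => ∃ h : H, A = h • T with hΩ
  have hΩm : ∀ A, A ∈ Ω ↔ ∃ h : H, A = h • T := fun A => by
    rw [hΩ, Finset.mem_filter, Finset.mem_powerset]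
    exact ⟨fun h => h.2, fun ⟨h, e⟩ => ⟨e ▸ hsub h, h, e⟩⟩
  have hle : ∀ x ∈ D, ∀ y ∈ D,
      (Ω.filter fun A => x ∈ A).card ≤ (Ω.filter fun A => y ∈ A).card := by
    intro x hx y hy
    obtain ⟨g, rfl⟩ := htr x hx y hy
    refine Finset.card_le_card_of_injOn (fun A => g • A) (fun A hA => ?_)
      fun A _ A' _ e => MulAction.injective g e
    rw [Finset.mem_coe, Finset.mem_filter, hΩm] at hA ⊢
    obtain ⟨⟨h, rfl⟩, hxA⟩ := hA
    exact ⟨⟨g * h, smul_smul _ _ _⟩, Finset.smul_mem_smul_finset hxA⟩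
  obtain ⟨x₀, hx₀⟩ : T.Nonempty := Finset.card_pos.1 (by omega)
  set r := (Ω.filter fun A => x₀ ∈ A).card with hr
  have hreg : ∀ x ∈ D, (Ω.filter fun A => x ∈ A).card = r := fun x hx =>
    le_antisymm (hle x hx x₀ (hT hx₀)) (hle x₀ (hT hx₀) x hx)
  have hr0 : 0 < r := Finset.card_pos.2
    ⟨T, Finset.mem_filter.2 ⟨(hΩm T).2 ⟨1, (one_smul _ _).symm⟩, hx₀⟩⟩
  have d1 : Ω.card * T.card = D.card * r := by
    rw [← K9a_double Ω D r hreg, ← smul_eq_mul, ← Finset.sum_const]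
    refine Finset.sum_congr rfl fun A hA => ?_
    obtain ⟨h, rfl⟩ := (hΩm A).1 hA
    rw [Finset.inter_eq_right.2 (hsub h), Finset.card_smul_finset]
  have d2 := K9a_double Ω T r fun x hx => hreg x (hT hx)
  set ΩU := Ω.filter fun A => T.card ≤ (T ∩ A).card + σ with hΩU
  have d3 : ΩU.card * T.card ≤ T.card * r + ΩU.card * σ := by
    calc ΩU.card * T.card = ∑ _A ∈ ΩU, T.card := by rw [Finset.sum_const, smul_eq_mul]
      _ ≤ ∑ A ∈ ΩU, ((T ∩ A).card + σ) :=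
          Finset.sum_le_sum fun A hA => (Finset.mem_filter.1 hA).2
      _ = ∑ A ∈ ΩU, (T ∩ A).card + ΩU.card * σ := by
          rw [Finset.sum_add_distrib, Finset.sum_const, smul_eq_mul]
      _ ≤ _ := by
          rw [← d2]
          exact Nat.add_le_add_right
            (Finset.sum_le_sum_of_subset (Finset.filter_subset _ _)) _
  have d4 : Ω.card ≤ U.index * ΩU.card := by
    rw [hk]
    refine le_trans (Finset.card_le_card ?_) (Finset.card_biUnion_le_card_mul Finset.univ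
      (fun q : H ⧸ U => ΩU.image fun A => q.out • A) _ fun q _ => Finset.card_image_le)
    intro A hA
    obtain ⟨h, rfl⟩ := (hΩm A).1 hA
    refine Finset.mem_biUnion.2 ⟨(h : H ⧸ U), Finset.mem_univ _, Finset.mem_image.2
      ⟨((h : H ⧸ U).out⁻¹ * h) • T, Finset.mem_filter.2 ⟨(hΩm _).2 ⟨_, rfl⟩, (hmem _).1 ?_⟩, ?_⟩⟩
    · exact QuotientGroup.eq.1 (QuotientGroup.out_eq' _)
    · rw [smul_smul, mul_inv_cancel_left]
  obtain ⟨e, he⟩ : ∃ e, T.card = σ + e := ⟨T.card - σ, by omega⟩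
  have ht0 : 0 < T.card := by omega
  have d5 : ΩU.card * e ≤ T.card * r := by
    have : ΩU.card * T.card = ΩU.card * σ + ΩU.card * e := by rw [he, mul_add]
    omega
  have d6 : D.card * e * r ≤ U.index * T.card * T.card * r := by
    calc D.card * e * r = Ω.card * T.card * e := by rw [d1]; ring
      _ ≤ U.index * ΩU.card * T.card * e := by gcongr
      _ = U.index * T.card * (ΩU.card * e) := by ring
      _ ≤ U.index * T.card * (T.card * r) := by gcongr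
      _ = _ := by ring
  have d7 : D.card * e ≤ U.index * T.card * T.card := Nat.le_of_mul_le_mul_right d6 hr0
  have d8 : D.card * T.card ≤ (U.index * T.card + 6 * σ) * T.card := by
    calc D.card * T.card = D.card * σ + D.card * e := by rw [← mul_add, ← he]
      _ ≤ 6 * T.card * σ + U.index * T.card * T.card := by gcongr
      _ = _ := by ring
  have d9 := Nat.le_of_mul_le_mul_right d8 ht0
  omega

end

end Pool.Agent.E6b

end

section
open scoped NNReal TensorProduct IntermediateField BigOperators Classical Topology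
open Filter

namespace Pool.Agent.E6b
variable {L : Type} [Field L] [Algebra Qb L] {n₀ B : ℕ} {T : Tw Qb L n₀ B} (G : TwG T)

/-- Counting: translates of a subset of a transitive set that are almost equal or almost disjoint. -/
theorem block_count {H X : Type} [Group H] [MulAction H X] (D T : Finset X)
    (hD : ∀ x ∈ D, ∀ h : H, h • x ∈ D) (htr : ∀ x ∈ D, ∀ y ∈ D, ∃ h : H, h • x = y) (hT : T ⊆ D)
    (σ : ℕ) (hσ : 100 * σ < T.card) (hb : D.card ≤ 6 * T.card)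
    (hd : ∀ h : H, (T ∩ T.image (h • ·)).card ≤ σ ∨ T.card ≤ (T ∩ T.image (h • ·)).card + σ) :
    ∃ U : Subgroup H, (∀ h, h ∈ U ↔ T.card ≤ (T ∩ T.image (h • ·)).card + σ) ∧ 0 < U.index ∧
      U.index ≤ 6 ∧ U.index * T.card ≤ D.card + 36 * σ ∧ D.card ≤ U.index * T.card + 36 * σ :=
  K9a_block D T hD htr hT σ hσ hb hd

end Pool.Agent.E6b

end

section
open scoped NNReal TensorProduct IntermediateField BigOperators Classical Topology
open Filter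

namespace Pool.Agent.E6b

section
variable {κ F F' E : Type} [Field κ] [IsAlgClosed κ] [CharZero κ] [Field F] [Algebra κ F] [IsFF κ F]
  [Field F'] [Algebra κ F'] [IsFF κ F'] [Field E] [Algebra κ E] [IsFF κ E]

theorem K7_sec (S : Sq κ F' E F) {M : Dv κ F'} {N : Dv κ E} {Z : Dv κ F} (hM : deg M < rk κ S.t')
    (hN : deg N < rk κ S.t) (hZ : 0 ≤ Z) (h : LinEq Z (S.q'.pull M + S.q.pull N)) :
    ∃ G ∈ LT2 M N, S.rho G ≠ 0 ∧ Z = S.Z M N G := by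
  obtain ⟨x, hx, hZx⟩ := h.symm
  have hM' : ell (M - dinf κ S.t') = 0 := by
    rw [ell_eq_zero_iff]
    apply LL_eq_bot
    rw [deg_sub, deg_dinf_rk S.nc']
    omega
  obtain ⟨G, hG, hGx⟩ := S.hf hM' hN ((mem_LL_iff hx).2 (hZx ▸ hZ))
  refine ⟨G, hG, hGx ▸ hx, ?_⟩
  rw [hZx, ← hGx]
  rfl

end

/-- dichotomy for two sections -/
theorem dl_step (α b : ℕ) : ∃ B : ℕ, ∀ {κ F F' E : Type} [Field κ] [IsAlgClosed κ] [CharZero κ]
    [Field F] [Algebra κ F] [IsFF κ F] [Field F'] [Algebra κ F'] [IsFF κ F'] [Field E] [Algebra κ E]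
    [IsFF κ E] (S : Sq κ F' E F), genus κ E = 1 → NoMap κ E F' B → α < rk κ S.t →
      b < rk κ S.t' → ∀ (M₁ M₂ : Dv κ F') (N₁ N₂ : Dv κ E) (Z₁ Z₂ : Dv κ F), deg M₁ ≤ b →
      deg M₂ ≤ b → deg N₁ ≤ α → deg N₂ ≤ α → 0 ≤ Z₁ → 0 ≤ Z₂ →
      LinEq Z₁ (S.q'.pull M₁ + S.q.pull N₁) → LinEq Z₂ (S.q'.pull M₂ + S.q.pull N₂) →
        (∃ (M : Dv κ F') (N : Dv κ E) (Z : Dv κ F), BPF M ∧ deg M ≤ b ∧ 1 ≤ deg N ∧ 0 ≤ Z ∧
          Z ≤ Z₁ ∧ Z ≤ Z₂ ∧ LinEq Z (S.q'.pull M + S.q.pull N)) ∨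
        ∃ Sm : Finset (Place κ F), Sm.card ≤ (2 * α + 2) * α * b ∧ ∀ R, 0 < Z₁ R → 0 < Z₂ R →
          R ∉ Sm → ∀ R', S.q'.res R' = S.q'.res R → 0 < Z₁ R' := by
  obtain ⟨B, hB⟩ := split α b
  refine ⟨B, ?_⟩
  intro κ F F' E _ _ _ _ _ _ _ _ _ _ _ _ S hg hno hα hb M₁ M₂ N₁ N₂ Z₁ Z₂ dM₁ dM₂ dN₁ dN₂ z₁ z₂
    l₁ l₂
  have hα' : (α : ℤ) < rk κ S.t := by exact_mod_cast hα
  have hb' : (b : ℤ) < rk κ S.t' := by exact_mod_cast hb
  obtain ⟨G₁, m₁, r₁, rfl⟩ := K7_sec S (dM₁.trans_lt hb') (dN₁.trans_lt hα') z₁ l₁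
  obtain ⟨G₂, m₂, r₂, rfl⟩ := K7_sec S (dM₂.trans_lt hb') (dN₂.trans_lt hα') z₂ l₂
  have g₁ : G₁ ≠ 0 := fun e => r₁ (by rw [e, map_zero])
  have g₂ : G₂ ≠ 0 := fun e => r₂ (by rw [e, map_zero])
  obtain ⟨N₀, h, H₁, H₂, mh, k₁, k₂, q₁, q₂, -, hcop⟩ :=
    hB hg hno M₁ M₂ N₁ N₂ G₁ G₂ dM₁ dM₂ dN₁ dN₂ m₁ m₂ g₁ g₂
  have t₀ : h ≠ 0 := left_ne_zero_of_mul (q₁ ▸ g₁)
  have t₁ : H₁ ≠ 0 := right_ne_zero_of_mul (q₁ ▸ g₁)
  have d₀ := deg_nonneg_of_mem_LT mh t₀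
  rcases d₀.eq_or_lt with d | d
  · right
    obtain ⟨W, hW0, hWd, hW⟩ := S.base_bound hg m₁ m₂ r₁ r₂ (hcop d.symm) dN₁ dN₂ dM₁ dM₂
    refine ⟨(W.support.filter fun Q => G₁ ∉ LT2 (M₁ - pd Q) N₁).biUnion
      fun Q => (S.q'.fib Q).filter fun R => 0 < S.Z M₁ N₁ G₁ R, ?_, ?_⟩
    · have c₁ := Finset.card_biUnion_le_card_mul
        (W.support.filter fun Q => G₁ ∉ LT2 (M₁ - pd Q) N₁)
        (fun Q => (S.q'.fib Q).filter fun R => 0 < S.Z M₁ N₁ G₁ R) α fun Q hQ =>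
          ((S.fib_bound m₁ r₁ dN₁ Q).resolve_left (Finset.mem_filter.1 hQ).2).1
      have c₂ : W.support.card ≤ (2 * α + 2) * b := by
        exact_mod_cast (card_support_le_deg hW0).trans hWd
      have c₃ := (Finset.card_filter_le W.support fun Q => G₁ ∉ LT2 (M₁ - pd Q) N₁).trans c₂
      refine c₁.trans ((Nat.mul_le_mul_right α c₃).trans (le_of_eq ?_))
      ring
    · intro R p₁ p₂ hR R' hR'
      have w : S.q'.res R ∈ W.support := by
        rw [Finsupp.mem_support_iff]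
        intro h0
        have h1 := hW R
        rw [S.q'.pull_apply, h0, mul_zero, Finsupp.inf_apply] at h1
        exact absurd (lt_min p₁ p₂) (not_lt.2 h1)
      by_cases a : G₁ ∈ LT2 (M₁ - pd (S.q'.res R)) N₁
      · exact S.Z_pos a r₁ hR'
      · exact absurd (Finset.mem_biUnion.2 ⟨_, Finset.mem_filter.2 ⟨w, a⟩,
          Finset.mem_filter.2 ⟨S.q'.mem_fib.2 rfl, p₁⟩⟩) hR
  · left
    subst q₁ q₂
    have rh : S.rho h ≠ 0 := left_ne_zero_of_mul (map_mul S.rho h H₁ ▸ r₁)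
    have c := ((mem_LT2_iff_cont g₁ M₁ N₁).1 m₁).2
    rw [cont_mul t₀ t₁] at c
    have c' := deg_mono c
    rw [deg_add] at c'
    have c'' := (bpf_cont t₁).deg_nonneg
    exact ⟨cont h, N₀, S.Z (cont h) N₀ h, bpf_cont t₀, by linarith, d,
      S.Z_nonneg ((mem_LT2_iff_cont t₀ _ _).2 ⟨mh, le_rfl⟩) rh, K7_Z_le S m₁ k₁ r₁,
      K7_Z_le S m₂ k₂ r₂, K7_linEq_dv _ rh⟩

end Pool.Agent.E6b

end

section
open scoped NNReal TensorProduct IntermediateField BigOperators Classical Topology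
open Filter

namespace Pool.Agent.E6b

namespace Tw

section
variable {κ L : Type} [Field κ] [IsAlgClosed κ] [CharZero κ] [Field L] [Algebra κ L] {n₀ B : ℕ}
  (T : Tw κ L n₀ B)

theorem K8_pull_nonneg {F F' : Type} [Field F] [Algebra κ F] [IsFF κ F] [Field F'] [Algebra κ F']
    [IsFF κ F'] (φ : FHom κ F F') {D : Dv κ F} (h : 0 ≤ D) : 0 ≤ φ.pull D := by
  have h1 := φ.pull_le_iff.2 h
  rwa [FHom.pull_zero] at h1

theorem K8_deg_pull_erase {J : Finset (Fin 5)} {s : Fin 5} (hs : s ∈ J)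
    (D : Dv κ (T.F (J.erase s))) : deg ((T.pi (Finset.erase_subset s J)).pull D) = n₀ * deg D := by
  have h1 : J.card - (J.erase s).card = 1 := by
    have := Finset.card_pos.2 ⟨s, hs⟩
    rw [Finset.card_erase_of_mem hs]
    omega
  rw [FHom.deg_pull, T.deg_pi, h1, pow_one]

theorem K8_update_nonneg {n : Fin 5 → ℤ} (hn : 0 ≤ n) (s : Fin 5) {a : ℤ} (ha : 0 ≤ a) :
    0 ≤ Function.update n s a := by
  intro s'
  by_cases h : s' = s
  · subst h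
    rw [Function.update_self]
    exact ha
  · rw [Function.update_of_ne h]
    exact hn s'

end

/-- classification of pencils of low degree -/
theorem cl_tower (k c : ℕ) : ∃ c' n₁ : ℕ, ∀ n₀, n₁ ≤ n₀ → ∃ B₀ : ℕ, ∀ B, B₀ ≤ B →
    ∀ {κ L : Type} [Field κ] [IsAlgClosed κ] [CharZero κ] [Field L] [Algebra κ L]
      (T : Tw κ L n₀ B) (J : Finset (Fin 5)), J.card = k → ∀ Λ : Dv κ (T.F J), BPF Λ →
      n₀ * deg Λ ≤ c * (n₀ : ℤ) ^ k → ∃ (Bd : Dv κ (T.F J)) (n : Fin 5 → ℤ), 0 ≤ Bd ∧ 0 ≤ n ∧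
        T.Ty J (Λ + Bd) n ∧ (n₀ : ℤ) ^ 2 * deg Bd ≤ c' * (n₀ : ℤ) ^ k := by
  induction k generalizing c with
  | zero =>
    refine ⟨0, c + 1, fun n₀ hn => ⟨0, fun B _ κ L _ _ _ _ _ T J _ Λ hΛ hd => ?_⟩⟩
    have hn' : (c : ℤ) + 1 ≤ n₀ := by exact_mod_cast hn
    have hc : (0 : ℤ) ≤ c := Int.natCast_nonneg c
    rw [pow_zero, mul_one] at hd
    obtain ⟨P⟩ : Nonempty (Place κ (T.F J)) := inferInstance
    obtain ⟨f, hf0, hf, -⟩ := hΛ P
    have hfL : f ∈ LL Λ := mem_LL.2 (Or.inr hf)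
    have hne : LL Λ ≠ ⊥ := fun h => hf0 (by rwa [h, Submodule.mem_bot] at hfL)
    have hl : 0 < ell Λ := Nat.pos_of_ne_zero fun h => hne (ell_eq_zero_iff.1 h)
    have hd0 : 0 ≤ deg Λ := not_lt.1 fun h => hne (LL_eq_bot h)
    have hd1 : deg Λ = 0 := by
      by_contra h
      have h1 : 1 ≤ deg Λ := by omega
      have h2 : (n₀ : ℤ) * 1 ≤ n₀ * deg Λ := mul_le_mul_of_nonneg_left h1 (by omega)
      omega
    refine ⟨0, 0, le_rfl, le_rfl, ⟨fun _ => 0, fun _ => deg_zero, fun _ _ => rfl, ?_⟩, by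
      rw [deg_zero]; simp⟩
    have h1 : ∀ s, T.pl J s 0 = 0 := fun s => by
      have := T.K8_pl_zsmul J s 0 0
      rwa [zero_smul, zero_smul] at this
    rw [Finset.sum_congr rfl fun s _ => h1 s, Finset.sum_const_zero, add_zero]
    exact linEq_zero_of_ell_pos hd1 hl
  | succ k ih =>
    obtain ⟨c'', n₁, hih⟩ := ih (2 * c)
    refine ⟨2 * (c + 1) ^ 2 * (2 * (c + 1) + 2) * c + c'',
      n₁ + (2 * (c + 1) ^ 2 * (2 * (c + 1) + 2) + (c + 1) + 1), fun n₀ hn => ?_⟩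
    obtain ⟨B₂, hB₂⟩ := hih n₀ (by omega)
    obtain ⟨B₁, hB₁⟩ := cl_step (c + 1) (11 * n₀ ^ 5)
    refine ⟨B₁ + B₂, fun B hB κ L _ _ _ _ _ T J hJ Λ hΛ hd => ?_⟩
    obtain ⟨s, hs⟩ : J.Nonempty := Finset.card_pos.1 (by omega)
    have hc : (J.erase s).card = k := by
      rw [Finset.card_erase_of_mem hs]
      omega
    have hk : k ≤ 5 := by
      have h1 := Finset.card_le_univ (J.erase s)
      rw [Fintype.card_fin] at h1
      omega
    have hn0 : 0 < n₀ := T.n₀_pos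
    have hn0' : (0 : ℤ) < n₀ := by exact_mod_cast hn0
    have hp : (0 : ℤ) < (n₀ : ℤ) ^ k := by positivity
    have hd' : deg Λ ≤ c * (n₀ : ℤ) ^ k := by
      have h1 : (n₀ : ℤ) * deg Λ ≤ n₀ * (c * (n₀ : ℤ) ^ k) := by
        rw [pow_succ] at hd
        linarith
      exact le_of_mul_le_mul_left h1 hn0'
    obtain ⟨S, hq', hq, ht', ht⟩ := T.exists_sq hs
    have hrk : rk κ S.t = n₀ := by rw [ht, T.K8_rk_single]
    have hrk' : rk κ S.t' = n₀ ^ k := by rw [ht', T.rk_tJ, hc]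
    obtain ⟨M, N, Bd₁, hM, hN, hBd₁, hlin, hdM, hdB⟩ := hB₁ S (T.g1 s)
      ((T.nomap s _ (Finset.notMem_erase s J)).mono (by omega)) (by
        have h1 := T.genus_le' (J.erase s)
        have h2 : n₀ ^ k ≤ n₀ ^ 5 := Nat.pow_le_pow_right hn0 hk
        rw [hc] at h1
        rw [hrk']
        omega) (by rw [hrk]; omega) Λ hΛ (by
        rw [hrk']
        push_cast
        linarith)
    rw [hq', hq] at hlin
    rw [hrk] at hdM hdB
    obtain ⟨Bd₂, n', hBd₂, hn', hTy, hdB₂⟩ := hB₂ B (by omega) T (J.erase s) hc M hM (by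
      push_cast
      linarith)
    refine ⟨Bd₁ + (T.pi (Finset.erase_subset s J)).pull Bd₂, Function.update n' s (deg N),
      add_nonneg hBd₁ (K8_pull_nonneg _ hBd₂), K8_update_nonneg hn' s hN, ?_, ?_⟩
    · refine Ty.linEq T (Ty.join T hs hTy N) ?_
      rw [FHom.pull_add, add_right_comm, ← add_assoc]
      exact (hlin.add (LinEq.refl _)).symm
    · rw [deg_add, T.K8_deg_pull_erase hs]
      push_cast at hdB ⊢
      have hK : (0 : ℤ) ≤ 2 * ((c : ℤ) + 1) ^ 2 * (2 * ((c : ℤ) + 1) + 2) := by positivity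
      have h1 := mul_le_mul_of_nonneg_left hdB hn0'.le
      have h2 := mul_le_mul_of_nonneg_left hd hK
      have h3 := mul_le_mul_of_nonneg_left hdB₂ hn0'.le
      rw [pow_succ (n₀ : ℤ) k] at h2 ⊢
      generalize 2 * ((c : ℤ) + 1) ^ 2 * (2 * ((c : ℤ) + 1) + 2) = K at h1 h2 ⊢
      linarith

/-- dichotomy -/
theorem dl_tower (α : ℕ) : ∃ c n₁ : ℕ, ∀ n₀, n₁ ≤ n₀ → ∃ B₀ : ℕ, ∀ B, B₀ ≤ B →
    ∀ {κ L : Type} [Field κ] [IsAlgClosed κ] [CharZero κ] [Field L] [Algebra κ L]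
      (T : Tw κ L n₀ B) (Z₁ Z₂ : Dv κ T.FU) (m₁ m₂ : Fin 5 → ℤ), 0 ≤ Z₁ → 0 ≤ Z₂ → 0 ≤ m₁ → 0 ≤ m₂ →
      ∑ s, m₁ s ≤ α → ∑ s, m₂ s ≤ α → T.Ty Finset.univ Z₁ m₁ → T.Ty Finset.univ Z₂ m₂ →
      (∃ (Z Bd : Dv κ T.FU) (n : Fin 5 → ℤ), 0 ≤ Z ∧ Z ≤ Z₁ ∧ Z ≤ Z₂ ∧ 0 ≤ Bd ∧
        deg Bd ≤ c * (n₀ : ℤ) ^ 3 ∧ 0 ≤ n ∧ 1 ≤ ∑ s, n s ∧ T.Ty Finset.univ (Z + Bd) n) ∨
      ∀ s, ∃ Sm : Finset (Place κ T.FU), Sm.card ≤ c * n₀ ^ 3 ∧ ∀ R, 0 < Z₁ R → 0 < Z₂ R →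
        R ∉ Sm → ∀ R', T.Ln s R R' → 0 < Z₁ R' := by
  obtain ⟨c₁, n₁, hcl⟩ := cl_tower 4 α
  refine ⟨c₁ + (2 * α + 2) * α * α, n₁ + (α + 1), fun n₀ hn => ?_⟩
  obtain ⟨B₂, hB₂⟩ := hcl n₀ (by omega)
  obtain ⟨B₁, hB₁⟩ := dl_step α (α * n₀ ^ 3)
  refine ⟨B₁ + B₂, fun B hB κ L _ _ _ _ _ T Z₁ Z₂ m₁ m₂ hZ₁ hZ₂ hm₁ hm₂ hs₁ hs₂ hT₁ hT₂ => ?_⟩
  rw [or_iff_not_imp_left]
  intro hA s
  have hn0 : 0 < n₀ := T.n₀_pos
  have hn0' : (0 : ℤ) < n₀ := by exact_mod_cast hn0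
  have hsp : ∀ {Z : Dv κ T.FU} {m : Fin 5 → ℤ}, 0 ≤ m → ∑ s, m s ≤ α → T.Ty Finset.univ Z m →
      ∃ (M : Dv κ (T.F (Finset.univ.erase s))) (N : Dv κ (T.F {s})),
        deg M ≤ ((α * n₀ ^ 3 : ℕ) : ℤ) ∧ deg N ≤ α ∧
        LinEq Z ((T.pi (Finset.erase_subset s Finset.univ)).pull M +
          (T.pi (Finset.singleton_subset_iff.2 (Finset.mem_univ s))).pull N) := by
    intro Z m hm hs hT
    obtain ⟨M, N, hM, hN, hlin⟩ := Ty.split T (Finset.mem_univ s) hT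
    refine ⟨M, N, ?_, ?_, hlin⟩
    · have h1 := Ty.deg_eq T hM
      rw [K8_card_erase] at h1
      have h2 := K8_sum_update_le m s
      rw [Finset.sum_congr rfl fun s' _ => abs_of_nonneg (hm s')] at h2
      rw [h1, mul_comm]
      push_cast
      exact mul_le_mul_of_nonneg_right (h2.trans hs) (by positivity)
    · rw [hN]
      exact (Finset.single_le_sum (fun s' _ => hm s') (Finset.mem_univ s)).trans hs
  obtain ⟨M₁, N₁, hM₁, hN₁, hl₁⟩ := hsp hm₁ hs₁ hT₁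
  obtain ⟨M₂, N₂, hM₂, hN₂, hl₂⟩ := hsp hm₂ hs₂ hT₂
  obtain ⟨S, hq', hq, ht', ht⟩ := T.exists_sq (Finset.mem_univ s)
  have hrk : rk κ S.t = n₀ := by rw [ht, T.K8_rk_single]
  have hrk' : rk κ S.t' = n₀ ^ 4 := by rw [ht', T.rk_tJ, K8_card_erase]
  have hstep := hB₁ S (T.g1 s)
    ((T.nomap s _ (Finset.notMem_erase s Finset.univ)).mono (by omega)) (by rw [hrk]; omega) (by
      rw [hrk', pow_succ' n₀ 3]
      exact Nat.mul_lt_mul_of_pos_right (by omega) (by positivity))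
    M₁ M₂ N₁ N₂ Z₁ Z₂ hM₁ hM₂ hN₁ hN₂ hZ₁ hZ₂ (by rw [hq', hq]; exact hl₁)
    (by rw [hq', hq]; exact hl₂)
  rw [hq', hq] at hstep
  rcases hstep with ⟨M, N, Z, hM, hdM, hN, hZ, hle₁, hle₂, hlin⟩ | ⟨Sm, hSm, hR⟩
  · exfalso
    obtain ⟨Bd₂, n', hBd₂, hn', hTy, hdB₂⟩ := hB₂ B (by omega) T (Finset.univ.erase s)
      (K8_card_erase s) M hM (by
        push_cast at hdM
        have h1 := mul_le_mul_of_nonneg_left hdM hn0'.le
        linarith)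
    have hu := K8_update_nonneg hn' s (a := deg N) (by omega)
    refine hA ⟨Z, (T.pi (Finset.erase_subset s Finset.univ)).pull Bd₂, Function.update n' s (deg N),
      hZ, hle₁, hle₂, K8_pull_nonneg _ hBd₂, ?_, hu, ?_, ?_⟩
    · rw [T.K8_deg_pull_erase (Finset.mem_univ s)]
      have h1 : (n₀ : ℤ) * (n₀ * deg Bd₂) ≤ n₀ * (c₁ * (n₀ : ℤ) ^ 3) := by linarith
      have h2 := le_of_mul_le_mul_left h1 hn0'
      have h3 : (0 : ℤ) ≤ (2 * (α : ℤ) + 2) * α * α * (n₀ : ℤ) ^ 3 := by positivity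
      push_cast
      linarith
    · have h1 := Finset.single_le_sum (fun s' (_ : s' ∈ (Finset.univ : Finset (Fin 5))) => hu s')
        (Finset.mem_univ s)
      rw [Function.update_self] at h1
      exact hN.trans h1
    · refine Ty.linEq T (Ty.join T (Finset.mem_univ s) hTy N) ?_
      rw [FHom.pull_add, add_right_comm]
      exact (hlin.add (LinEq.refl _)).symm
  · refine ⟨Sm, hSm.trans ?_, fun R h1 h2 h3 R' h4 => hR R h1 h2 h3 R' (Eq.symm h4)⟩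
    rw [add_mul c₁, ← mul_assoc]
    exact Nat.le_add_left _ _

end Tw

end Pool.Agent.E6b

end

section
open scoped NNReal TensorProduct IntermediateField BigOperators Classical Topology
open Filter

namespace Pool.Agent.E6b

theorem K9b_arith {N q r r' d t b J c₀ c : ℤ} (hq : 0 < q) (hc₀ : 0 ≤ c₀) (hc : 0 ≤ c)
    (hN : 2000 * (c₀ + c + 1) ≤ N) (hr : 0 ≤ r) (hd : d * r = 5 * (N * q))
    (ht : t + b = N * q * J) (hb0 : 0 ≤ b) (hb : b ≤ c₀ * q) (hJ : 1 ≤ J) (htd : t ≤ d)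
    (hr0 : 0 < r') (hr6 : r' ≤ 6) (h1 : r' * t ≤ d + 36 * ((10 * c₀ + 5 * c) * q))
    (h2 : d ≤ r' * t + 36 * ((10 * c₀ + 5 * c) * q)) : r * r' * J = 5 := by
  have a0 : 0 ≤ c₀ * q := mul_nonneg hc₀ hq.le
  have a1 : 0 ≤ c * q := mul_nonneg hc hq.le
  have a2 : 2000 * (c₀ * q + c * q + q) ≤ N * q := by nlinarith
  have a3 : N * q ≤ N * q * J := by nlinarith
  have a4 : r ≤ 5 := by
    by_contra h
    have : d * 6 ≤ d * r := mul_le_mul_of_nonneg_left (by omega) (by omega)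
    omega
  have a5 : (r * r' * J - 5) * (N * q) = r * (r' * t - d) + r * r' * b := by
    have : t = N * q * J - b := by omega
    rw [this]
    linear_combination hd
  have a6 : r * (r' * t - d) ≤ 5 * (36 * ((10 * c₀ + 5 * c) * q)) := by nlinarith
  have a7 : - (5 * (36 * ((10 * c₀ + 5 * c) * q))) ≤ r * (r' * t - d) := by nlinarith
  have a8 : 0 ≤ r * r' * b := by positivity
  have a9 : r * r' * b ≤ 30 * (c₀ * q) :=
    mul_le_mul (by nlinarith) hb hb0 (by norm_num)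
  by_contra h
  rcases lt_or_gt_of_ne h with h | h
  · have : (r * r' * J - 5) * (N * q) ≤ (-1) * (N * q) :=
      mul_le_mul_of_nonneg_right (by omega) (by omega)
    nlinarith
  · have : 1 * (N * q) ≤ (r * r' * J - 5) * (N * q) :=
      mul_le_mul_of_nonneg_right (by omega) (by omega)
    nlinarith

theorem K9b_index {H : Type} [Group H] (φ : H →* Equiv.Perm (Fin 5)) (U : Subgroup H) (s₀ : Fin 5)
    (hU : ∀ h ∈ U, φ h s₀ = s₀) (h1 : ∀ h s, ((φ h s : ℕ) < 2 ↔ (s : ℕ) < 2))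
    (h2 : ∀ s s' : Fin 5, ((s : ℕ) < 2 ↔ (s' : ℕ) < 2) → ∃ h, φ h s = s') :
    2 ∣ U.index ∨ 3 ∣ U.index := by
  let _ : MulAction H (Fin 5) := MulAction.compHom (Fin 5) φ
  have hle : U ≤ MulAction.stabilizer H s₀ := fun h hh => hU h hh
  have hd := Subgroup.index_dvd_of_le hle
  rw [MulAction.index_stabilizer] at hd
  have ho : MulAction.orbit H s₀ =
      ((Finset.univ.filter fun s : Fin 5 => ((s₀ : ℕ) < 2 ↔ (s : ℕ) < 2) : Finset (Fin 5)) :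
        Set (Fin 5)) := by
    ext s
    simp only [Finset.coe_filter, Finset.mem_univ, true_and, Set.mem_ofPred_eq]
    constructor
    · rintro ⟨h, rfl⟩
      exact (h1 h s₀).symm
    · intro hs
      exact h2 s₀ s hs
  rw [ho, Set.ncard_coe_finset] at hd
  have hc : ∀ s₀ : Fin 5,
      (Finset.univ.filter fun s : Fin 5 => ((s₀ : ℕ) < 2 ↔ (s : ℕ) < 2)).card = 2 ∨
      (Finset.univ.filter fun s : Fin 5 => ((s₀ : ℕ) < 2 ↔ (s : ℕ) < 2)).card = 3 := by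
    decide
  rcases hc s₀ with h | h
  · left
    convert hd using 1
    convert h.symm
  · right
    convert hd using 1
    convert h.symm

theorem K9b_block {F : Type} [Field F] [Algebra Qb F] [IsFF Qb F] (A : GAct F)
    (K : IntermediateField ℚ Qb) (R₀ : Place Qb F) (S : Finset (Place Qb F))
    (hS : S ⊆ (A.finite_orb K R₀).toFinset) (σ : ℕ) (hσ : 100 * σ < S.card)
    (hb : (A.finite_orb K R₀).toFinset.card ≤ 6 * S.card)
    (hd : ∀ h : Qb ≃ₐ[ℚ] Qb, (∀ x ∈ K, h x = x) → (S ∩ S.image (A.sm h)).card ≤ σ ∨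
      S.card ≤ (S ∩ S.image (A.sm h)).card + σ) :
    ∃ U : Subgroup K.fixingSubgroup,
      (∀ h ∈ U, S.card ≤ (S ∩ S.image (A.sm h.1)).card + σ) ∧ 0 < U.index ∧ U.index ≤ 6 ∧
      U.index * S.card ≤ (A.finite_orb K R₀).toFinset.card + 36 * σ ∧
      (A.finite_orb K R₀).toFinset.card ≤ U.index * S.card + 36 * σ := by
  let _ : MulAction K.fixingSubgroup (Place Qb F) :=
    { smul := fun h P => A.sm h.1 P
      one_smul := A.sm_one
      mul_smul := fun a b => A.sm_mul a.1 b.1 }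
  have hm : ∀ h : K.fixingSubgroup, ∀ x ∈ K, h.1 x = x := fun h =>
    (IntermediateField.mem_fixingSubgroup_iff K h.1).1 h.2
  obtain ⟨U, h1, h2⟩ := block_count (H := K.fixingSubgroup) (A.finite_orb K R₀).toFinset S
    (fun x hx h => A.stab_orb K R₀ h.1 (hm h) x hx)
    (fun x hx y hy => by
      rw [Set.Finite.mem_toFinset] at hx hy
      rw [← A.orb_eq_of_mem hx] at hy
      obtain ⟨h, hh, rfl⟩ := hy
      exact ⟨⟨h, (IntermediateField.mem_fixingSubgroup_iff K h).2 hh⟩, rfl⟩)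
    hS σ hσ hb fun h => hd h.1 (hm h)
  exact ⟨U, fun h hh => (h1 h).1 hh, h2⟩

section
variable {L : Type} [Field L] [Algebra Qb L] {n₀ B : ℕ} {T : Tw Qb L n₀ B} (G : TwG T)

/-- there is no typed subset of least type -/
theorem K9b_core (K : IntermediateField ℚ Qb) (hK : G.Orb23 K) (R₀ : Place Qb T.FU) (hR : T.Ur R₀)
    (hD : (G.A.finite_orb K R₀).toFinset.card ∣ 5 * n₀ ^ 4) (c₀ c : ℕ)
    (hN : 2000 * (c₀ + c + 1) ≤ n₀)
    (dl : ∀ (Z₁ Z₂ : Dv Qb T.FU) (m₁ m₂ : Fin 5 → ℤ), 0 ≤ Z₁ → 0 ≤ Z₂ → 0 ≤ m₁ → 0 ≤ m₂ →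
      ∑ s, m₁ s ≤ (5 : ℕ) → ∑ s, m₂ s ≤ (5 : ℕ) → T.Ty Finset.univ Z₁ m₁ →
      T.Ty Finset.univ Z₂ m₂ →
      (∃ (Z Bd : Dv Qb T.FU) (n : Fin 5 → ℤ), 0 ≤ Z ∧ Z ≤ Z₁ ∧ Z ≤ Z₂ ∧ 0 ≤ Bd ∧
        deg Bd ≤ c * (n₀ : ℤ) ^ 3 ∧ 0 ≤ n ∧ 1 ≤ ∑ s, n s ∧ T.Ty Finset.univ (Z + Bd) n) ∨
      ∀ s, ∃ Sm : Finset (Place Qb T.FU), Sm.card ≤ c * n₀ ^ 3 ∧ ∀ R, 0 < Z₁ R → 0 < Z₂ R →
        R ∉ Sm → ∀ R', T.Ln s R R' → 0 < Z₁ R')
    (S : Finset (Place Qb T.FU)) (Bd : Dv Qb T.FU) (n : Fin 5 → ℤ)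
    (hS : S ⊆ (G.A.finite_orb K R₀).toFinset) (hB : 0 ≤ Bd) (hd : deg Bd ≤ c₀ * (n₀ : ℤ) ^ 3)
    (hn : 0 ≤ n) (h1 : 1 ≤ ∑ s, n s) (h5 : ∑ s, n s ≤ 5)
    (hty : T.Ty Finset.univ (ind S + Bd) n)
    (ih : ∀ (S' : Finset (Place Qb T.FU)) (Bd' : Dv Qb T.FU) (n' : Fin 5 → ℤ),
      S' ⊆ (G.A.finite_orb K R₀).toFinset → 0 ≤ Bd' →
      deg Bd' ≤ (2 * c₀ + c : ℕ) * (n₀ : ℤ) ^ 3 → 0 ≤ n' → 1 ≤ ∑ s, n' s →
      T.Ty Finset.univ (ind S' + Bd') n' → ∑ s, n s ≤ ∑ s, n' s) : False := by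
  have hq : 0 < n₀ ^ 3 := pow_pos T.n₀_pos 3
  have he : n₀ ^ 4 = n₀ * n₀ ^ 3 := by ring
  have hl : 2000 * (c₀ + c + 1) * n₀ ^ 3 ≤ n₀ ^ 4 := by
    rw [he]
    exact Nat.mul_le_mul_right _ hN
  have hD5 := Nat.le_of_dvd (by nlinarith) hD
  have hD32 : 32 * (G.A.finite_orb K R₀).toFinset.card < n₀ ^ 5 := by
    have a1 : n₀ ^ 5 = n₀ * n₀ ^ 4 := by ring
    have a2 : 2000 * n₀ ^ 4 ≤ n₀ * n₀ ^ 4 := Nat.mul_le_mul_right _ (by omega)
    have a3 : 0 < n₀ ^ 4 := pow_pos T.n₀_pos 4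
    omega
  have k0 := K9b_deg hty
  rw [deg_add, deg_ind] at k0
  have k1 : n₀ ^ 4 ≤ S.card + c₀ * n₀ ^ 3 := by
    have : n₀ * (n₀ : ℤ) ^ 3 * 1 ≤ n₀ * (n₀ : ℤ) ^ 3 * ∑ s, n s :=
      mul_le_mul_of_nonneg_left h1 (by positivity)
    rw [he]
    zify
    linarith
  obtain ⟨U, u1, u2, u3, u4, u5⟩ := K9b_block G.A K R₀ S hS ((10 * c₀ + 5 * c) * n₀ ^ 3)
    (by nlinarith) (by nlinarith) fun h _ =>
      K9b_dich G K R₀ hR hD32 c₀ c dl S Bd n hS hB hd hn h5 hty ih h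
  obtain ⟨r, hr⟩ := hD
  have k2 : (r : ℤ) * U.index * ∑ s, n s = 5 :=
    K9b_arith (N := n₀) (q := (n₀ : ℤ) ^ 3) (d := (G.A.finite_orb K R₀).toFinset.card)
      (t := S.card) (b := deg Bd) (c₀ := c₀) (c := c) (by exact_mod_cast hq) (by positivity)
      (by positivity) (by exact_mod_cast hN) (by positivity)
      (by rw [he] at hr; exact_mod_cast hr.symm) k0 (F1_deg_nonneg hB) hd h1
      (by exact_mod_cast Finset.card_le_card hS) (by exact_mod_cast u2) (by exact_mod_cast u3)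
      (by exact_mod_cast u4) (by exact_mod_cast u5)
  have k3 : ∀ h ∈ U, ∀ s, n (G.perm h.1 s) = n s := fun h hh =>
    K9b_inv G hB hn h5 hty ((10 * c₀ + 5 * c) * n₀ ^ 3) (by
      have a1 : (2000 * (c₀ + c + 1) * (n₀ : ℤ) ^ 3 : ℤ) ≤ (n₀ : ℤ) ^ 4 := by exact_mod_cast hl
      have a2 : (0 : ℤ) < (n₀ : ℤ) ^ 3 := by exact_mod_cast hq
      have a3 : (0 : ℤ) ≤ c₀ * (n₀ : ℤ) ^ 3 := by positivity
      have a4 : (0 : ℤ) ≤ c * (n₀ : ℤ) ^ 3 := by positivity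
      push_cast
      linarith) h.1 (u1 h hh)
  have hm : ∀ h : K.fixingSubgroup, ∀ x ∈ K, h.1 x = x := fun h =>
    (IntermediateField.mem_fixingSubgroup_iff K h.1).1 h.2
  have k4 : (∑ s, n s = 1 ∧ (U.index = 1 ∨ U.index = 5)) ∨ (∑ s, n s = 5 ∧ U.index = 1) := by
    generalize ∑ s, n s = J at k2 h1 h5
    generalize U.index = i at k2 u2 u3
    interval_cases i <;> interval_cases J <;> omega
  have n0 : ∀ s, 0 ≤ n s := hn
  rcases k4 with ⟨a1, a2⟩ | ⟨a1, a2⟩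
  · obtain ⟨s₀, hs₀⟩ : ∃ s₀, 0 < n s₀ := by
      by_contra hc
      have : ∑ s, n s ≤ 0 := Finset.sum_nonpos fun s _ => not_lt.1 fun h => hc ⟨s, h⟩
      omega
    have a3 := K9b_index (G.perm.comp K.fixingSubgroup.subtype) U s₀ (fun h hh => by
      by_contra hc
      have b1 := k3 h hh s₀
      have b2 : ∑ s ∈ {G.perm h.1 s₀, s₀}, n s ≤ ∑ s, n s :=
        Finset.sum_le_sum_of_subset_of_nonneg (Finset.subset_univ _) fun s _ _ => n0 s
      rw [Finset.sum_pair (show G.perm h.1 s₀ ≠ s₀ from hc)] at b2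
      omega) (fun h s => hK.1 h.1 (hm h) s) fun s s' hs => by
        obtain ⟨h, hh, e⟩ := hK.2 s s' hs
        exact ⟨⟨h, (IntermediateField.mem_fixingSubgroup_iff K h).2 hh⟩, e⟩
    omega
  · rw [Subgroup.index_eq_one] at a2
    have a3 : ∀ s s' : Fin 5, ((s : ℕ) < 2 ↔ (s' : ℕ) < 2) → n s' = n s := fun s s' hs => by
      obtain ⟨h, hh, e⟩ := hK.2 s s' hs
      rw [← e]
      exact k3 ⟨h, (IntermediateField.mem_fixingSubgroup_iff K h).2 hh⟩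
        (a2 ▸ Subgroup.mem_top _) s
    have b1 := a3 0 1 (by decide)
    have b2 := a3 2 3 (by decide)
    have b3 := a3 2 4 (by decide)
    have b4 := n0 0
    have b5 := n0 2
    rw [Fin.sum_univ_five] at a1
    have a4 : n = fun _ => 1 := by
      funext s
      fin_cases s <;> simp only [Fin.zero_eta, Fin.mk_one, Fin.reduceFinMk, Fin.isValue] <;> omega
    rw [a4] at hty
    exact K9b_five G K hK R₀ c₀ (by omega) hD5 hS hB hd hty

end

theorem K9b_ind (j : ℕ) (hj : j ≤ 5) (c₀ : ℕ) : ∃ n₁ : ℕ, ∀ n₀, n₁ ≤ n₀ → ∃ B₀ : ℕ, ∀ B, B₀ ≤ B →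
    ∀ {L : Type} [Field L] [Algebra Qb L] {T : Tw Qb L n₀ B} (G : TwG T)
      (K : IntermediateField ℚ Qb), G.Orb23 K → ∀ R₀ : Place Qb T.FU, T.Ur R₀ →
      (G.A.finite_orb K R₀).toFinset.card ∣ 5 * n₀ ^ 4 →
      ∀ (S : Finset (Place Qb T.FU)) (Bd : Dv Qb T.FU) (n : Fin 5 → ℤ),
        S ⊆ (G.A.finite_orb K R₀).toFinset → 0 ≤ Bd → deg Bd ≤ c₀ * (n₀ : ℤ) ^ 3 → 0 ≤ n →
        1 ≤ ∑ s, n s → ∑ s, n s ≤ j → ¬ T.Ty Finset.univ (ind S + Bd) n := by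
  induction j generalizing c₀ with
  | zero =>
    refine ⟨0, fun n₀ _ => ⟨0, fun B _ L _ _ T G K _ R₀ _ _ S Bd n _ _ _ _ h1 h2 => ?_⟩⟩
    omega
  | succ j ih =>
    obtain ⟨c, n₁, hdl⟩ := Tw.dl_tower 5
    obtain ⟨n₂, ih⟩ := ih (by omega) (2 * c₀ + c)
    refine ⟨max (max n₁ n₂) (2000 * (c₀ + c + 1)), fun n₀ hn₀ => ?_⟩
    obtain ⟨B₁, hdl⟩ := hdl n₀ (by omega)
    obtain ⟨B₂, ih⟩ := ih n₀ (by omega)
    refine ⟨max B₁ B₂, fun B hB L _ _ T G K hK R₀ hR hD S Bd n hS h0 hd hn h1 h2 hty => ?_⟩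
    refine K9b_core G K hK R₀ hR hD c₀ c (by omega) (hdl B (by omega) T) S Bd n hS h0 hd hn h1
      (by omega) hty fun S' Bd' n' a1 a2 a3 a4 a5 a6 => ?_
    by_contra hc
    exact ih B (by omega) G K hK R₀ hR hD S' Bd' n' a1 a2 a3 a4 a5 (by omega) a6

/-- an orbit of degree dividing `5 n₀ ^ 4` contains no typed subset -/
theorem no_typed (c₀ : ℕ) : ∃ n₁ : ℕ, ∀ n₀, n₁ ≤ n₀ → ∃ B₀ : ℕ, ∀ B, B₀ ≤ B →
    ∀ {L : Type} [Field L] [Algebra Qb L] {T : Tw Qb L n₀ B} (G : TwG T)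
      (K : IntermediateField ℚ Qb), G.Orb23 K → ∀ R₀ : Place Qb T.FU, T.Ur R₀ →
      (G.A.finite_orb K R₀).toFinset.card ∣ 5 * n₀ ^ 4 →
      ∀ (S : Finset (Place Qb T.FU)) (Bd : Dv Qb T.FU) (n : Fin 5 → ℤ),
        S ⊆ (G.A.finite_orb K R₀).toFinset → 0 ≤ Bd → deg Bd ≤ c₀ * (n₀ : ℤ) ^ 3 → 0 ≤ n →
        1 ≤ ∑ s, n s → ¬ T.Ty Finset.univ (ind S + Bd) n := by
  obtain ⟨n₁, h⟩ := K9b_ind 5 le_rfl c₀
  refine ⟨max n₁ (c₀ + 1), fun n₀ hn₀ => ?_⟩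
  obtain ⟨B₀, h⟩ := h n₀ (by omega)
  refine ⟨B₀, fun B hB L _ _ T G K hK R₀ hR hD S Bd n hS h0 hd hn h1 hty => ?_⟩
  refine h B hB G K hK R₀ hR hD S Bd n hS h0 hd hn h1 ?_ hty
  by_contra hc
  have hp : 0 < n₀ := T.n₀_pos
  have k0 := K9b_deg hty
  rw [deg_add, deg_ind] at k0
  have k1 : S.card ≤ 5 * n₀ ^ 4 := (Finset.card_le_card hS).trans (Nat.le_of_dvd (by positivity) hD)
  have k2 : (S.card : ℤ) ≤ 5 * (n₀ * (n₀ : ℤ) ^ 3) := by
    rw [← pow_succ']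
    exact_mod_cast k1
  have k3 : n₀ * (n₀ : ℤ) ^ 3 * 6 ≤ n₀ * (n₀ : ℤ) ^ 3 * ∑ s, n s :=
    mul_le_mul_of_nonneg_left (by omega) (by positivity)
  have k4 : (c₀ : ℤ) * (n₀ : ℤ) ^ 3 < n₀ * (n₀ : ℤ) ^ 3 :=
    mul_lt_mul_of_pos_right (by omega) (by positivity)
  linarith

end Pool.Agent.E6b

end

section
open scoped NNReal TensorProduct IntermediateField BigOperators Classical Topology
open Filter

namespace Pool.Agent.E6b
variable {F : Type} [Field F] [Algebra Qb F] [IsFF Qb F] (o : Place Qb F) (d : ℕ)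

section
variable {o d} {r₁ r₂ Δ : ℕ}

theorem C8_deg {r₁ r₂ d₁ d₂ : ℕ} (h₁ : 0 < d₁) (h₂ : 0 < d₂) {ϑ : ℝ} (m : Fin r₁ ⊕ Fin r₂ →₀ ℕ)
    (h : ∑ k, (m k : ℝ) / (Sum.elim (fun _ => d₁) (fun _ => d₂) k : ℕ) < ϑ) :
    ((m.comapDomain Sum.inl Sum.inl_injective.injOn).degree : ℝ) ≤ ϑ * d₁ ∧
      ((m.comapDomain Sum.inr Sum.inr_injective.injOn).degree : ℝ) ≤ ϑ * d₂ := by
  simp only [Fintype.sum_sum_type, Sum.elim_inl, Sum.elim_inr, ← Finset.sum_div] at h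
  simp only [Finsupp.degree_eq_sum, Finsupp.comapDomain_apply, Nat.cast_sum]
  have a1 : 0 ≤ (∑ k, (m (.inl k) : ℝ)) / d₁ := by positivity
  have a2 : 0 ≤ (∑ k, (m (.inr k) : ℝ)) / d₂ := by positivity
  exact ⟨(div_le_iff₀ (by exact_mod_cast h₁)).1 (by linarith),
    (div_le_iff₀ (by exact_mod_cast h₂)).1 (by linarith)⟩

end

end Pool.Agent.E6b

end

section
open scoped NNReal TensorProduct IntermediateField BigOperators Classical Topology
open Filter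

namespace Pool.Agent.E6b

theorem C9_quad {x y w : ℝ} (hx : 0 ≤ x) (hw : 0 ≤ w) (h : y ^ 2 ≤ x * w) (a b : ℝ) :
    0 ≤ a ^ 2 * x - 2 * a * b * y + b ^ 2 * w := by
  rcases hx.eq_or_lt with h0 | h0
  · subst h0
    have hy : y = 0 := by
      have : y ^ 2 ≤ 0 := by simpa using h
      exact pow_eq_zero_iff two_ne_zero |>.1 (le_antisymm this (sq_nonneg y))
    subst hy
    have := mul_nonneg (sq_nonneg b) hw
    linarith
  · refine le_of_mul_le_mul_left ?_ h0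
    have h1 := sq_nonneg (a * x - b * y)
    have h2 := mul_nonneg (sq_nonneg b) (sub_nonneg.2 h)
    nlinarith

/-- two close directions and a well chosen multiplier -/
theorem C9_close {x y w G₁ G₂ c ε N : ℝ} (hx : 0 ≤ x) (hw : 0 ≤ w) (h : y ^ 2 ≤ x * w)
    (hG₁ : 0 < G₁) (hN : 1 ≤ N) (hG₂ : N ^ 2 * G₁ ≤ G₂) (hc : w ≤ c * G₂)
    (hcl : x / G₁ - 2 * y / Real.sqrt (G₁ * G₂) + w / G₂ ≤ ε) :
    ∃ s : ℕ, N ≤ s ∧ G₂ ≤ s ^ 2 * G₁ ∧ s ^ 2 * G₁ ≤ 4 * G₂ ∧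
      s ^ 2 * x - 2 * s * y + w ≤ 2 * ε * (s ^ 2 * G₁) + 2 * c * G₁ := by
  have hG₂0 : 0 < G₂ := lt_of_lt_of_le (by positivity) hG₂
  obtain ⟨t, ht0, ht⟩ : ∃ t : ℝ, 0 < t ∧ G₂ = G₁ * t ^ 2 := by
    refine ⟨Real.sqrt (G₂ / G₁), Real.sqrt_pos.2 (by positivity), ?_⟩
    rw [Real.sq_sqrt (by positivity)]
    field_simp
  have hNt : N ≤ t := by
    refine (pow_le_pow_iff_left₀ (by linarith) ht0.le two_ne_zero).1 ?_
    rw [ht, mul_comm] at hG₂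
    exact le_of_mul_le_mul_left hG₂ hG₁
  have ht1 : 1 ≤ t := hN.trans hNt
  have hs1 : t ≤ (⌈t⌉₊ : ℝ) := Nat.le_ceil t
  have hs2 : (⌈t⌉₊ : ℝ) < t + 1 := Nat.ceil_lt_add_one ht0.le
  refine ⟨⌈t⌉₊, hNt.trans hs1, ?_, ?_, ?_⟩
  · rw [ht, mul_comm]
    exact mul_le_mul_of_nonneg_right (pow_le_pow_left₀ ht0.le hs1 2) hG₁.le
  · have h1 : (⌈t⌉₊ : ℝ) ^ 2 ≤ (2 * t) ^ 2 := pow_le_pow_left₀ (by positivity) (by linarith) 2
    have h2 := mul_le_mul_of_nonneg_right h1 hG₁.le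
    rw [ht]
    linarith
  · generalize (⌈t⌉₊ : ℝ) = s at hs1 hs2
    have hsq : Real.sqrt (G₁ * G₂) = G₁ * t := by
      rw [ht, show G₁ * (G₁ * t ^ 2) = (G₁ * t) ^ 2 by ring]
      exact Real.sqrt_sq (by positivity)
    rw [hsq, ht] at hcl
    obtain ⟨l, hl⟩ : ∃ l : ℝ, s = l * t := ⟨s / t, by field_simp⟩
    have h1 : s ^ 2 * x - 2 * s * l * y + l ^ 2 * w ≤ ε * (s ^ 2 * G₁) := by
      have h2 := mul_le_mul_of_nonneg_right hcl (show 0 ≤ s ^ 2 * G₁ by positivity)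
      refine le_trans (le_of_eq ?_) h2
      rw [hl]
      field_simp
    have h3 := C9_quad hx hw h s (2 * l - 1)
    have h4 : (l - 1) ^ 2 * t ^ 2 ≤ 1 := by
      have e : (l - 1) ^ 2 * t ^ 2 = (s - t) ^ 2 := by rw [hl]; ring
      rw [e]
      exact pow_le_one₀ (by linarith) (by linarith)
    have hc0 : 0 ≤ c := by
      by_contra hc0
      have := mul_neg_of_neg_of_pos (not_le.1 hc0) hG₂0
      linarith
    have h5 : (l - 1) ^ 2 * w ≤ c * G₁ := by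
      have h6 := mul_le_mul_of_nonneg_left hc (sq_nonneg (l - 1))
      have h7 := mul_le_mul_of_nonneg_left h4 (mul_nonneg hc0 hG₁.le)
      rw [ht] at h6
      linarith
    linarith

/-- the final numerical contradiction -/
theorem C9_final {S H₁ H₂ ε E C c c₀ ϑ Q m b₁ b₂ : ℝ} (hS : 1 ≤ S) (hH : 1 ≤ H₁)
    (h2 : H₂ + 1 ≤ S * (H₁ + 1)) (hε : 0 ≤ ε) (hE : 0 ≤ E) (hC : 0 ≤ C) (hc : 0 ≤ c)
    (hϑ : 0 ≤ ϑ) (hϑ1 : ϑ ≤ 1) (k1 : C * ϑ * c ≤ 1 / 24) (k2 : E * ε ≤ 1 / 32)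
    (k3 : C * ε ≤ 1 / 48) (k4 : 32 * E * c₀ ≤ S) (k5 : 32 * C ≤ H₁)
    (hQ : Q ≤ 2 * ε * (S * (H₁ + 1)) + 2 * c₀ * (H₁ + 1)) (hm : m ≤ S * (3 * ε * H₁ + 2))
    (hb₁ : b₁ ≤ c * H₁) (hb₂ : b₂ ≤ c * H₂)
    (h : S * H₁ ≤ E * Q + C * (1 + ϑ) * m + C * ϑ * (S * b₁ + b₂)) : False := by
  have hS0 : 0 ≤ S := by linarith
  have hH0 : 0 ≤ H₁ := by linarith
  have hX : 0 < S * H₁ := by positivity
  have hX1 : S ≤ S * H₁ := le_mul_of_one_le_right hS0 hH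
  have a1 : E * Q ≤ 1 / 4 * (S * H₁) := by
    have e1 := mul_le_mul_of_nonneg_left hQ hE
    have e2 : E * ε * (S * (H₁ + 1)) ≤ 1 / 32 * (S * (H₁ + 1)) :=
      mul_le_mul_of_nonneg_right k2 (by positivity)
    have e3 : 32 * E * c₀ * (H₁ + 1) ≤ S * (H₁ + 1) :=
      mul_le_mul_of_nonneg_right k4 (by positivity)
    linarith
  have a2 : C * (1 + ϑ) * m ≤ 1 / 4 * (S * H₁) := by
    have e1 : C * (1 + ϑ) * m ≤ C * (1 + ϑ) * (S * (3 * ε * H₁ + 2)) :=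
      mul_le_mul_of_nonneg_left hm (by positivity)
    have e2 : C * (1 + ϑ) * (S * (3 * ε * H₁ + 2)) ≤ C * 2 * (S * (3 * ε * H₁ + 2)) :=
      mul_le_mul_of_nonneg_right (mul_le_mul_of_nonneg_left (by linarith) hC) (by positivity)
    have e3 : C * ε * (S * H₁) ≤ 1 / 48 * (S * H₁) := mul_le_mul_of_nonneg_right k3 hX.le
    have e4 : S * (32 * C) ≤ S * H₁ := mul_le_mul_of_nonneg_left k5 hS0
    linarith
  have a3 : C * ϑ * (S * b₁ + b₂) ≤ 1 / 8 * (S * H₁) := by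
    have e1 : S * b₁ ≤ S * (c * H₁) := mul_le_mul_of_nonneg_left hb₁ hS0
    have e2 : c * H₂ ≤ c * (2 * (S * H₁)) := mul_le_mul_of_nonneg_left (by linarith) hc
    have e3 : C * ϑ * (S * b₁ + b₂) ≤ C * ϑ * (3 * c * (S * H₁)) :=
      mul_le_mul_of_nonneg_left (by linarith) (by positivity)
    have e4 : C * ϑ * c * (S * H₁) ≤ 1 / 24 * (S * H₁) := mul_le_mul_of_nonneg_right k1 hX.le
    linarith
  linarith
variable {F : Type} [Field F] [Algebra Qb F] [IsFF Qb F] (o : Place Qb F) {d : ℕ}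

/-- heights tend to infinity -/
theorem C9_tendsto (e : ℕ) (y : ℕ → Pt o Qb) (hi : Function.Injective y)
    (he : ∀ n, (minpoly ℚ (y n (wN o))).natDegree ≤ e) :
    Tendsto (fun n => h1 (y n (wN o))) cofinite atTop := by
  refine tendsto_atTop.2 fun B => ?_
  rw [eventually_cofinite]
  have h1' : (⋃ c ∈ {a : Qb | h1 a ≤ B ∧ (minpoly ℚ a).natDegree ≤ e},
      {p : Pt o Qb | p (wN o) = c}).Finite :=
    (northcott B e).biUnion fun c _ => finite_pt_wN c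
  refine (h1'.preimage hi.injOn).subset fun n hn => ?_
  simp only [Set.mem_preimage, Set.mem_iUnion, Set.mem_ofPred_eq] at hn ⊢
  exact ⟨_, ⟨(not_le.1 hn).le, he n⟩, rfl⟩

end Pool.Agent.E6b

end
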