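import Pool.Agent.E6c.A22
import Pool.Agent.E6c.A30
import Pool.Agent.E6c.A31

section
open scoped NNReal TensorProduct IntermediateField BigOperators Classical Topology
open Filter
set_option linter.unusedSectionVars false

namespace Pool.Agent.E6b
variable {κ F : Type} [Field κ] [IsAlgClosed κ] [CharZero κ] [Field F] [Algebra κ F] [IsFF κ F]
  {o : Place κ F} {Ω Ω' Ω'' : Type} [Field Ω] [IsAlgClosed Ω] [CharZero Ω] [Algebra κ Ω]
  [Field Ω'] [IsAlgClosed Ω'] [CharZero Ω'] [Algebra κ Ω']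
  [Field Ω''] [IsAlgClosed Ω''] [CharZero Ω''] [Algebra κ Ω'']

namespace BC
variable (β : BC o Ω Ω')

theorem cl_cl (y : Pt o Ω) : β.cl (E6b.cl y) = E6b.cl (β.pt y) := by
  rw [E6b.cl, E6b.cl, β.cl_clD, β.dv_pd, β.plc_plc]

end BC

end Pool.Agent.E6b

end

section
open scoped NNReal TensorProduct IntermediateField BigOperators Classical Topology
open Filter

namespace Pool.Agent.E6b

/-- a function bounded along every ultrafilter is bounded -/
theorem bdd_of_ultra {D : Type} (f : D → ℝ)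
    (h : ∀ (U : Ultrafilter ℕ) (d : ℕ → D), ∃ C : ℝ, ∀ᶠ n in (U : Filter ℕ), f (d n) ≤ C) :
    ∃ C : ℝ, ∀ d, f d ≤ C := by
  by_contra hn
  push Not at hn
  choose d hd using fun n : ℕ => hn n
  obtain ⟨C, hC⟩ := h (hyperfilter ℕ) d
  have h3 : ∀ᶠ n : ℕ in (hyperfilter ℕ : Ultrafilter ℕ), C ≤ (n : ℝ) :=
    Nat.hyperfilter_le_atTop (tendsto_natCast_atTop_atTop.eventually_ge_atTop C)
  obtain ⟨n, h4, h5⟩ := (hC.and h3).exists
  exact absurd (hd n) (not_lt.2 (h4.trans h5))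

end Pool.Agent.E6b

end

section
open scoped NNReal TensorProduct IntermediateField BigOperators Classical Topology
open Filter

namespace Pool.Agent.E6b
variable {κ F : Type} [Field κ] [IsAlgClosed κ] [CharZero κ] [Field F] [Algebra κ F] [IsFF κ F]
  {o : Place κ F} (U : Ultrafilter ℕ) {L : Type} [Field L] [IsAlgClosed L] [CharZero L]
  [Algebra κ L] {ι : Type} [Fintype ι]

theorem ptU_const (y : Pt o L) : ptU U (fun _ => y) = (bc o (dU U κ L)).pt y := by
  rw [bc_pt]
  rfl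

theorem exists_clU : ∃ φ : (ℕ → Cl o L) →+ Cl o (UP U L),
    ∀ (ι : Type) [Fintype ι] (z : ℕ → ι → Pt o L),
      φ (fun n => clz (z n)) = clz fun a => ptU U fun n => z n a := by
  choose r h1 _ h3 using fun w : Cl o L =>
    exists_rep w (Fin (2 * genus κ F)) (by simp) Set.finite_empty
  have hadd : ∀ w w' : ℕ → Cl o L, (clz fun a => ptU U fun n => r ((w + w') n) a) =
      (clz fun a => ptU U fun n => r (w n) a) + clz fun a => ptU U fun n => r (w' n) a := by
    intro w w'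
    choose s k1 k2 k3 using fun n => exists_rep (w' n) (Fin (2 * genus κ F)) (by simp)
      (Set.finite_range (r (w n)))
    rw [O4_key U (fun n => r (w' n)) s (fun n => h1 _) k1 fun n => by rw [h3, k3], ← O4_elim]
    exact O4_key U (fun n => r ((w + w') n)) (fun n => Sum.elim (r (w n)) (s n)) (fun n => h1 _)
      (fun n => O4_inj (h1 _) (k1 n) (k2 n)) fun n => by rw [clz_elim, h3, h3, k3, Pi.add_apply]
  refine ⟨AddMonoidHom.mk' (fun w => clz fun a => ptU U fun n => r (w n) a) hadd,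
    fun ι _ z => ?_⟩
  have e : (fun n => clz (z n)) = ∑ a, fun n => cl (z n a) := by
    funext n
    rw [clz_eq_sum, Finset.sum_apply]
  rw [e, map_sum, clz_eq_sum]
  refine Finset.sum_congr rfl fun a _ => ?_
  rw [← O4_unit]
  exact O4_key U (fun n => r (cl (z n a))) (fun n _ => z n a) (fun n => h1 _)
    (fun n => Function.injective_of_subsingleton _) fun n => by rw [h3, O4_unit]

/-- ultralimit of classes -/
noncomputable def clUH (o : Place κ F) (L : Type) [Field L] [IsAlgClosed L] [CharZero L]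
    [Algebra κ L] : (ℕ → Cl o L) →+ Cl o (UP U L) := (exists_clU U).choose

noncomputable def clU (w : ℕ → Cl o L) : Cl o (UP U L) := clUH U o L w

theorem clU_add (w w' : ℕ → Cl o L) : clU U (fun n => w n + w' n) = clU U w + clU U w' :=
  map_add (clUH U o L) w w'

theorem clU_sub (w w' : ℕ → Cl o L) : clU U (fun n => w n - w' n) = clU U w - clU U w' :=
  map_sub (clUH U o L) w w'

theorem clU_neg (w : ℕ → Cl o L) : clU U (fun n => - w n) = - clU U w := map_neg (clUH U o L) w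

theorem clU_clz (z : ℕ → ι → Pt o L) :
    clU U (fun n => clz (z n)) = clz fun a => ptU U fun n => z n a :=
  (exists_clU U).choose_spec ι z

theorem clU_cl (y : ℕ → Pt o L) : clU U (fun n => cl (y n)) = cl (ptU U y) := by
  have h := clU_clz U fun n (_ : Unit) => y n
  simpa only [O4_unit] using h

theorem clU_eq_zero_iff (w : ℕ → Cl o L) : clU U w = 0 ↔ ∀ᶠ n in (U : Filter ℕ), w n = 0 := by
  choose r h1 _ h3 using fun n => exists_rep (w n) (Fin (2 * genus κ F)) (by simp) Set.finite_empty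
  rw [← funext h3, clU_clz, O4_los U r (Filter.Eventually.of_forall h1)]

theorem clU_eq_iff (w w' : ℕ → Cl o L) :
    clU U w = clU U w' ↔ ∀ᶠ n in (U : Filter ℕ), w n = w' n := by
  rw [← sub_eq_zero, ← clU_sub, clU_eq_zero_iff]
  simp only [sub_eq_zero]

theorem clU_const (w : Cl o L) : clU U (fun _ => w) = (bc o (dU U κ L)).cl w := by
  obtain ⟨z, -, -, rfl⟩ := exists_rep w (Fin (2 * genus κ F)) (by simp) Set.finite_empty
  rw [clU_clz U fun _ => z, BC.cl_clz]
  simp only [ptU_const]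

/-- a set of classes all of whose ultralimits are constant is finite -/
theorem finite_of_clU {S : Set (Cl o L)}
    (h : ∀ (U : Ultrafilter ℕ) (w : ℕ → Cl o L), (∀ n, w n ∈ S) →
      clU U w ∈ Set.range (bc o (dU U κ L)).cl) : S.Finite := by
  by_contra hS
  obtain ⟨w₀, hw⟩ := h (Filter.hyperfilter ℕ) (fun n => (Set.Infinite.natEmbedding S hS n).1)
    fun n => (Set.Infinite.natEmbedding S hS n).2
  rw [← clU_const, clU_eq_iff] at hw
  refine Set.Finite.notMem_hyperfilter (Set.Subsingleton.finite fun a ha b hb => ?_) hw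
  exact (Set.Infinite.natEmbedding S hS).injective (Subtype.ext (ha.symm.trans hb))

end Pool.Agent.E6b

end

section
open scoped NNReal TensorProduct IntermediateField BigOperators Classical Topology
open Filter

namespace Pool.Agent.E6b
variable {κ F : Type} [Field κ] [IsAlgClosed κ] [CharZero κ] [Field F] [Algebra κ F] [IsFF κ F]
  {o : Place κ F} {Ω Ω' : Type} [Field Ω] [IsAlgClosed Ω] [CharZero Ω] [Algebra κ Ω]
  [Field Ω'] [IsAlgClosed Ω'] [CharZero Ω'] [Algebra κ Ω'] {ι ι' : Type} [Fintype ι] [Fintype ι']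

theorem good_ptU_iff (U : Ultrafilter ℕ) (z : ℕ → ι → Pt o Ω) :
    Good (fun a => ptU U fun n => z n a) ↔ ∀ᶠ n in (U : Filter ℕ), Good (z n) := by
  unfold Good
  rw [eventually_and, ptU_injective_iff]
  refine and_congr_right fun _ => ?_
  simp only [eventually_all]
  refine forall_congr' fun a => forall_congr' fun i => ?_
  rw [ptU_apply, ← gm_const, gm_ne_iff]

omit [IsAlgClosed Ω] [CharZero Ω] in
theorem rho_ptU (U : Ultrafilter ℕ) (z : ℕ → ι → Pt o Ω) (j : JJ o) :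
    rho (fun a => ptU U fun n => z n a) j = gm U fun n => rho (z n) j := by
  have h1 : ∀ j : JJ o, Det (Sum.elim (fun a => ptU U fun n => z n a) (Pj (UP U Ω) j)) =
      gm U fun n => Det (Sum.elim (z n) (Pj Ω j)) := by
    intro j
    unfold Det
    rw [gm_det]
    congr 1
    ext x y
    rcases x with x | x
    · rfl
    · exact (gm_const U _).symm
  unfold rho
  rw [gm_div, gm_mul, h1, h1, gm_prod]
  congr 1
  refine Finset.prod_congr rfl fun a _ => ?_
  rw [gm_prod]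
  refine Finset.prod_congr rfl fun s _ => ?_
  rw [gm_sub, gm_const]
  rfl

end Pool.Agent.E6b

end

section
open scoped NNReal TensorProduct IntermediateField BigOperators Classical Topology
open Filter

namespace Pool.Agent.E6b
variable {κ F : Type} [Field κ] [IsAlgClosed κ] [CharZero κ] [Field F] [Algebra κ F] [IsFF κ F]
  {o : Place κ F} {Ω Ω' : Type} [Field Ω] [IsAlgClosed Ω] [CharZero Ω] [Algebra κ Ω]
  [Field Ω'] [IsAlgClosed Ω'] [CharZero Ω'] [Algebra κ Ω'] {ι ι' ι'' : Type} [Fintype ι]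
  [Fintype ι'] [Fintype ι'']

theorem Psi_clU (U : Ultrafilter ℕ) (w : ℕ → Cl o Ω) :
    Prp (Psi (clU U w)) fun j => gm U fun n => Psi (w n) j := by
  have hg : Good fun a => ptU U fun n => rep (w n) a :=
    (good_ptU_iff U fun n => rep (w n)).2 (Eventually.of_forall fun n => rep_good _)
  have h1 := rho_prp_Psi hg
  have h2 : (fun n => clz (rep (w n))) = w := funext fun n => clz_rep _
  rw [← clU_clz U fun n => rep (w n), h2] at h1
  have h3 : (rho fun a => ptU U fun n => rep (w n) a) = fun j => gm U fun n => Psi (w n) j :=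
    funext fun j => rho_ptU U (fun n => rep (w n)) j
  rw [h3] at h1
  exact h1.symm

theorem Psym_clU (U : Ultrafilter ℕ) (w : ℕ → Cl o Ω) :
    Prp (Psym (clU U w)) fun j => gm U fun n => Psym (w n) j := by
  have h1 := (Psi_clU U w).segre (Psi_clU U fun n => - w n)
  rw [clU_neg] at h1
  have h2 : (fun j => gm U fun n => Psym (w n) j) = fun p : JJ o × JJ o =>
      (gm U fun n => Psi (w n) p.1) * gm U fun n => Psi (-w n) p.2 :=
    funext fun p => gm_mul U _ _
  rw [h2]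
  exact h1

end Pool.Agent.E6b

end

section
open scoped NNReal TensorProduct IntermediateField BigOperators Classical Topology
open Filter

namespace Pool.Agent.E6b

theorem psd_sum_le {G ι : Type} [AddCommGroup G] (B : G →+ G →+ ℝ) (hs : ∀ a b, B a b = B b a)
    (hp : ∀ a, 0 ≤ B a a) (s : Finset ι) (a : ι → G) :
    B (∑ i ∈ s, a i) (∑ i ∈ s, a i) ≤ s.card * ∑ i ∈ s, B (a i) (a i) := by
  have h1 : ∀ x y, B x y ≤ B x x / 2 + B y y / 2 := by
    intro x y
    have := hp (x - y)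
    simp only [map_sub, AddMonoidHom.sub_apply, hs y x] at this
    linarith
  simp only [map_sum, AddMonoidHom.finsetSum_apply]
  refine (Finset.sum_le_sum fun i _ => Finset.sum_le_sum fun j _ => h1 _ _).trans_eq ?_
  simp only [Finset.sum_add_distrib, Finset.sum_const, nsmul_eq_mul, ← Finset.mul_sum,
    ← Finset.sum_div]
  ring

end Pool.Agent.E6b

end

section
open scoped NNReal TensorProduct IntermediateField BigOperators Classical Topology
open Filter

namespace Pool.Agent.E6b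

theorem P4_hv_pair (a : Qb) : hv ![1, a] = h1 a := by
  unfold hv h1
  congr 1
  ext x
  simp [Fin.exists_fin_two, eq_comm]

theorem P4_pair_ne {K : Type} [Field K] (a : K) (c : ℕ) :
    (fun i => (![1, a] : Fin 2 → K) i ^ c) ≠ 0 :=
  Function.ne_iff.2 ⟨0, by simp⟩

theorem P4_T_pair (U : Ultrafilter ℕ) (a : ℕ → Qb) (c : ℕ) :
    P4_T U (fun n i => (![1, a n] : Fin 2 → Qb) i ^ c)
      fun i => (![1, gm U a] : Fin 2 → UP U Qb) i ^ c := by
  refine ⟨fun n => P4_pair_ne _ _, 1, one_ne_zero, fun i => ?_⟩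
  show _ = 1 * gm U fun n => (![1, a n] : Fin 2 → Qb) i ^ c
  rw [one_mul, gm_pow U fun n => (![1, a n] : Fin 2 → Qb) i]
  fin_cases i
  · rfl
  · rfl

section
variable {κ F : Type} [Field κ] [IsAlgClosed κ] [CharZero κ] [Field F] [Algebra κ F] [IsFF κ F]
  (o : Place κ F)

theorem P4_gen : ∃ c : ℕ, ∀ (Ω : Type) [Field Ω] [IsAlgClosed Ω] [CharZero Ω] [Algebra κ Ω]
    (y : Pt o Ω), Function.Injective y → ∃ γ : Ω, γ ≠ 0 ∧ ∀ O : VS κ Ω,
      vs O.1 (Psym (cl y)) ≤
        O.1.valuation γ * vs O.1 fun i => (![1, y (wN o)] : Fin 2 → Ω) i ^ c := by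
  have : CharZero (AlgebraicClosure F) :=
    charZero_of_injective_algebraMap (algebraMap κ (AlgebraicClosure F)).injective
  have := P4_alg o
  have hl := Psym_ne_zero (cl (P4_y0 o))
  obtain ⟨g, c, h⟩ := exists_gen_vle (κ := κ) (fun _ : Unit => P4_y0 o (wN o)) hl
  refine ⟨c, fun Ω _ _ _ _ y hy => ?_⟩
  obtain ⟨τ, rfl⟩ := P4_inj o y hy
  obtain ⟨μ, hμ, h1⟩ := (bc_ok (o := o) τ).Psym (cl (P4_y0 o))
  rw [BC.cl_cl, bc_pt, bc_τ] at h1
  have hg : τ (g : AlgebraicClosure F) ≠ 0 := (map_ne_zero τ).2 g.ne_zero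
  refine ⟨μ * τ g, mul_ne_zero hμ hg, fun O => ?_⟩
  rw [funext h1, vs_smul, map_mul, mul_assoc]
  refine mul_le_mul_right (vs_le _ fun j => ?_) _
  let O0 : VS κ (AlgebraicClosure F) :=
    ⟨O.1.comap (τ : AlgebraicClosure F →+* Ω), fun c => by
      rw [ValuationSubring.mem_comap]
      have := O.2 c
      rwa [← τ.commutes c] at this⟩
  have h2 := (gen_spec (κ := κ) hl O0).2 j
  have h3 := O0.1.mul_mem _ _ h2 (h O0)
  have hp : (![1, P4_y0 o (wN o)] : Fin 2 → AlgebraicClosure F) ≠ 0 :=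
    fun e => one_ne_zero (congrFun e 0)
  obtain ⟨i, hi⟩ := (gen_spec (κ := κ) hp O0).1
  have h4 : ((cstC κ g * (∏ _k : Unit, pen κ (P4_y0 o (wN o))) ^ c) O0 : AlgebraicClosure F) =
      g * (![1, P4_y0 o (wN o)] : Fin 2 → AlgebraicClosure F) i ^ c := by
    rw [hi, Fintype.prod_unique]
    rfl
  have h5 : (![1, P4_y0 o (wN o)] : Fin 2 → AlgebraicClosure F) i ≠ 0 := by
    rw [hi]
    exact Units.ne_zero _
  rw [div_mul_div_cancel₀ (Units.ne_zero _), h4] at h3
  have h6 : τ ((![1, P4_y0 o (wN o)] : Fin 2 → AlgebraicClosure F) i) =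
      (![1, (τ.comp (P4_y0 o)) (wN o)] : Fin 2 → Ω) i := by
    fin_cases i
    · exact map_one τ
    · rfl
  have h7 : τ (Psym (cl (P4_y0 o)) j) /
      (τ g * (![1, (τ.comp (P4_y0 o)) (wN o)] : Fin 2 → Ω) i ^ c) ∈ O.1 := by
    rw [← h6, ← map_pow, ← map_mul, ← map_div₀]
    exact h3
  rw [V1_div_mem _ _ (mul_ne_zero hg (pow_ne_zero _ (by
    rw [← h6]
    exact (map_ne_zero τ).2 h5))), map_mul] at h7
  exact h7.trans (mul_le_mul_right
    (le_vs O.1 (fun i => (![1, (τ.comp (P4_y0 o)) (wN o)] : Fin 2 → Ω) i ^ c) i) _)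

end
variable {F : Type} [Field F] [Algebra Qb F] [IsFF Qb F] (o : Place Qb F)

theorem P4_T_Psym (U : Ultrafilter ℕ) (w : ℕ → Cl o Qb) :
    P4_T U (fun n => Psym (w n)) (Psym (clU U w)) := ⟨fun _ => Psym_ne_zero _, Psym_clU U w⟩

theorem P4_par (U : Ultrafilter ℕ) (a b : ℕ → Cl o Qb) : ∃ C : ℝ, ∀ᶠ n in (U : Filter ℕ),
    |hq (a n + b n) + hq (a n - b n) - 2 * hq (a n) - 2 * hq (b n)| ≤ C := by
  obtain ⟨γ, hγ, h⟩ := par_val (clU U a) (clU U b)
  have h1 := P4_T_Psym o U fun n => a n + b n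
  have h2 := P4_T_Psym o U fun n => a n - b n
  rw [clU_add] at h1
  rw [clU_sub] at h2
  have g1 := P4_T_segre h1 h2
  have g2 := P4_T_segre (P4_T_Psym o U a) (P4_T_Psym o U b)
  have g3 := P4_T_segre g2 g2
  obtain ⟨C, hC⟩ := P4_T_abs g1 g3 hγ fun O => by
    rw [vs_segre O.1 _ (Psym (clU U a - clU U b)),
      vs_segre O.1 (fun p : (JJ o × JJ o) × JJ o × JJ o =>
        Psym (clU U a) p.1 * Psym (clU U b) p.2) fun p : (JJ o × JJ o) × JJ o × JJ o =>
        Psym (clU U a) p.1 * Psym (clU U b) p.2,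
      vs_segre O.1 _ (Psym (clU U b)), ← sq]
    exact h O
  refine ⟨C, hC.mono fun n hn => ?_⟩
  rw [hv_segre (g2.1 n) (g2.1 n), hv_segre (h1.1 n) (h2.1 n),
    hv_segre (Psym_ne_zero (a n)) (Psym_ne_zero (b n))] at hn
  unfold hq
  convert hn using 2
  ring

theorem par_ht : ∃ C : ℝ, ∀ a b : Cl o Qb,
    |hq (a + b) + hq (a - b) - 2 * hq a - 2 * hq b| ≤ C := by
  obtain ⟨C, hC⟩ := bdd_of_ultra (fun d : Cl o Qb × Cl o Qb =>
    |hq (d.1 + d.2) + hq (d.1 - d.2) - 2 * hq d.1 - 2 * hq d.2|)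
    fun U d => P4_par o U (fun n => (d n).1) fun n => (d n).2
  exact ⟨C, fun a b => hC (a, b)⟩

/-- the canonical height -/
theorem exists_nt : ∃ (B : Cl o Qb →+ Cl o Qb →+ ℝ) (C : ℝ), (∀ a b, B a b = B b a) ∧
    (∀ a, 0 ≤ B a a) ∧ ∀ a, |hq a - B a a| ≤ C := by
  obtain ⟨C, hC⟩ := par_ht o
  obtain ⟨B, hB⟩ := exists_tate (hq (o := o)) (fun a => hv_nonneg _) hC
  exact ⟨B, C, hB⟩

theorem up_ht : ∃ c : ℝ, 0 ≤ c ∧ ∀ y : Pt o Qb, hq (cl y) ≤ c * (h1 (y (wN o)) + 1) := by
  obtain ⟨c, hc⟩ := P4_gen o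
  obtain ⟨C, hC⟩ := bdd_of_ultra (fun y : Pt o Qb => hq (cl y) - c * h1 (y (wN o))) fun U y => by
    rcases pt_const_or_inj o (ptU U y) with ⟨p, hp⟩ | hy
    · have h1' : ptU U y = ptU U fun _ => p :=
        AlgHom.ext fun a => (hp a).trans (U2_const U (p a)).symm
      refine ⟨hq (cl p) - c * h1 (p (wN o)), ((ptU_eq_iff U _ _).1 h1').mono fun n hn => ?_⟩
      rw [hn]
    · obtain ⟨γ, hγ, h⟩ := hc (UP U Qb) (ptU U y) hy
      have h2 := P4_T_Psym o U fun n => cl (y n)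
      rw [clU_cl] at h2
      obtain ⟨C, hC⟩ := P4_T_le h2 (P4_T_pair U (fun n => y n (wN o)) c) hγ h
      refine ⟨C, hC.mono fun n hn => ?_⟩
      rw [hv_pow, P4_hv_pair] at hn
      unfold hq
      linarith
  refine ⟨max c (max C 0), (le_max_right C 0).trans (le_max_right _ _), fun y => ?_⟩
  have h2 := hC y
  have h3 := h1_nonneg (y (wN o))
  have h4 : (c : ℝ) ≤ max (c : ℝ) (max C 0) := le_max_left _ _
  have h5 : C ≤ max (c : ℝ) (max C 0) := (le_max_left C 0).trans (le_max_right _ _)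
  have h6 := mul_le_mul_of_nonneg_right h4 h3
  rw [mul_add, mul_one]
  linarith

end Pool.Agent.E6b

end

section
open scoped NNReal TensorProduct IntermediateField BigOperators Classical Topology
open Filter

namespace Pool.Agent.E6b

section
variable {F : Type} [Field F] [Algebra Qb F] [IsFF Qb F]
variable {o : Place Qb F} {d r : ℕ}

/-- the canonical bilinear form -/
noncomputable def ntB (o : Place Qb F) : Cl o Qb →+ Cl o Qb →+ ℝ := (exists_nt o).choose

theorem ntB_spec (o : Place Qb F) : ∃ C : ℝ, (∀ a b, ntB o a b = ntB o b a) ∧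
    (∀ a, 0 ≤ ntB o a a) ∧ ∀ a, |hq a - ntB o a a| ≤ C := (exists_nt o).choose_spec

end

end Pool.Agent.E6b

end

section
open scoped NNReal TensorProduct IntermediateField BigOperators Classical Topology
open Filter

namespace Pool.Agent.E6b

theorem M1_alg {K Ω : Type} [Field K] [Field Ω] [Algebra K Ω] {r : ℕ} {u : Fin r → Ω}
    (hu : AlgebraicIndependent K u) {x : Ω}
    (hx : IsAlgebraic (IntermediateField.adjoin K (Set.range u)) x) :
    ∃ p : PP K r, p ≠ 0 ∧ ev2 u x p = 0 := by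
  obtain ⟨p, hp0, hp⟩ := IntermediateField.isAlgebraic_adjoin_iff.1 hx
  refine ⟨p.map hu.aevalEquiv.symm.toAlgHom.toRingHom, ?_, ?_⟩
  · exact (Polynomial.map_ne_zero_iff hu.aevalEquiv.symm.injective).2 hp0
  · rw [M1_ev2, Polynomial.eval₂_map, ← hp, Polynomial.aeval_def]
    congr 1
    exact RingHom.ext fun a => hu.aeval_repr a

theorem M1_frac {R F Ω : Type} [CommRing R] [IsDomain R] [Field F] [Algebra R F]
    [IsFractionRing R F] [Field Ω] [Algebra R Ω] [Algebra F Ω] [IsScalarTower R F Ω] {ξ : Ω}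
    (hξ : IsAlgebraic F ξ) {x : Ω} (hx : x ∈ F⟮ξ⟯) :
    ∃ (d : R) (p : Polynomial R), d ≠ 0 ∧ Polynomial.aeval ξ p = algebraMap R Ω d * x := by
  have h1 : x ∈ (F⟮ξ⟯).toSubalgebra := hx
  rw [IntermediateField.adjoin_simple_toSubalgebra_of_isAlgebraic hξ,
    Algebra.adjoin_singleton_eq_range_aeval] at h1
  obtain ⟨p0, rfl⟩ := h1
  obtain ⟨b, hb, e⟩ := IsLocalization.integerNormalization_spec (nonZeroDivisors R) p0
  refine ⟨b, IsLocalization.integerNormalization (nonZeroDivisors R) p0,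
    nonZeroDivisors.ne_zero hb, ?_⟩
  rw [← Polynomial.aeval_map_algebraMap F, e, ← IsScalarTower.algebraMap_smul F b p0, map_smul,
    Algebra.smul_def, ← IsScalarTower.algebraMap_apply]
  rfl

/-- existence of a hypersurface model -/
theorem exists_mdl {K Ω : Type} [Field K] [CharZero K] [Field Ω] [Algebra K Ω] {r : ℕ} {ι : Type}
    [Fintype ι] (u : Fin r → Ω) (hu : AlgebraicIndependent K u) (t : ι → Ω)
    (ht : ∀ l, IsAlgebraic (IntermediateField.adjoin K (Set.range u)) (t l)) :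
    ∃ (M : Mdl K r ι) (ξ : Ω), M.IsPt u ξ ∧ (∀ l, M.val u ξ l = t l) ∧
      ξ ∈ IntermediateField.adjoin K (Set.range u ∪ Set.range t) := by
  let R := MvPolynomial (Fin r) K
  let _ : Algebra R Ω := (MvPolynomial.aeval u : R →ₐ[K] Ω).toRingHom.toAlgebra
  have hinj : Function.Injective (algebraMap R Ω) := algebraicIndependent_iff_injective_aeval.1 hu
  have : FaithfulSMul R Ω := (faithfulSMul_iff_algebraMap_injective _ _).2 hinj
  let F := FractionRing R
  let _ : Algebra F Ω := FractionRing.liftAlgebra R Ω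
  have : IsScalarTower R F Ω := FractionRing.isScalarTower_liftAlgebra R Ω
  have hev : ∀ (x : Ω) (p : PP K r), ev2 u x p = Polynomial.aeval x p := fun _ _ => rfl
  have hae : ∀ a : R, MvPolynomial.aeval u a = algebraMap R Ω a := fun _ => rfl
  have htR : ∀ l, IsAlgebraic R (t l) := fun l => M1_alg hu (ht l)
  have htF : ∀ x ∈ Set.range t, IsIntegral F x := by
    rintro _ ⟨l, rfl⟩
    exact ((IsFractionRing.isAlgebraic_iff R F Ω).1 (htR l)).isIntegral
  let E := IntermediateField.adjoin F (Set.range t)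
  have : FiniteDimensional F E := IntermediateField.finiteDimensional_adjoin htF
  have : CharZero F := charZero_of_injective_algebraMap (IsFractionRing.injective R F)
  obtain ⟨α, hα⟩ := Field.exists_primitive_element F E
  have hE : F⟮(α : Ω)⟯ = E := by
    simpa only [IntermediateField.lift_adjoin_simple, IntermediateField.lift_top] using
      congr_arg IntermediateField.lift hα
  have hαF : IsAlgebraic F (α : Ω) :=
    (IntermediateField.coe_isIntegral_iff.2 (IsIntegral.of_finite F α)).isAlgebraic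
  obtain ⟨y, hy0, hint⟩ := ((IsFractionRing.isAlgebraic_iff R F Ω).2 hαF).exists_integral_multiple
  set ξ : Ω := y • (α : Ω) with hξ
  have hy : algebraMap R Ω y ≠ 0 := fun h => hy0 (hinj (h.trans (map_zero _).symm))
  have hξF : IsAlgebraic F ξ := (IsFractionRing.isAlgebraic_iff R F Ω).1 hint.isAlgebraic
  have hRmem : ∀ (S : IntermediateField F Ω) (a : R), algebraMap R Ω a ∈ S := fun S a => by
    rw [IsScalarTower.algebraMap_apply R F Ω]
    exact S.algebraMap_mem _
  have hαmem : (α : Ω) ∈ F⟮ξ⟯ := by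
    have e : (α : Ω) = ξ / algebraMap R Ω y := by
      rw [hξ, Algebra.smul_def, mul_div_cancel_left₀ _ hy]
    rw [e]
    exact div_mem (IntermediateField.mem_adjoin_simple_self F ξ) (hRmem _ y)
  have hle : E ≤ F⟮ξ⟯ := by
    rw [← hE]
    exact IntermediateField.adjoin_simple_le_iff.2 hαmem
  let m := minpoly R ξ
  have hder : Polynomial.aeval ξ (Polynomial.derivative m) ≠ 0 := fun h => by
    have hpos : m.natDegree ≠ 0 := (minpoly.natDegree_pos hint).ne'
    have hd := minpoly.isIntegrallyClosed_dvd hint h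
    exact (Polynomial.derivative_ne_zero.2 hpos)
      (Polynomial.eq_zero_of_dvd_of_natDegree_lt hd (Polynomial.natDegree_derivative_lt hpos))
  let x : Option ι → Ω := fun o => o.elim (Polynomial.aeval ξ (Polynomial.derivative m))⁻¹ t
  have hx : ∀ o, x o ∈ F⟮ξ⟯ := by
    rintro (_ | l)
    · refine inv_mem ?_
      rw [Polynomial.aeval_eq_sum_range]
      refine sum_mem fun i _ => ?_
      rw [Algebra.smul_def]
      exact mul_mem (hRmem _ _) (pow_mem (IntermediateField.mem_adjoin_simple_self F ξ) _)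
    · exact hle (IntermediateField.subset_adjoin F _ ⟨l, rfl⟩)
  choose d p hd hp using fun o => M1_frac (R := R) hξF (hx o)
  let q : R := ∏ o, d o
  have hq0 : q ≠ 0 := Finset.prod_ne_zero_iff.2 fun o _ => hd o
  have hq : algebraMap R Ω q ≠ 0 := fun h => hq0 (hinj (h.trans (map_zero _).symm))
  have hP : ∀ o, ∃ P : Polynomial R, Polynomial.aeval ξ P = algebraMap R Ω q * x o := fun o => by
    obtain ⟨c, hc⟩ : d o ∣ q := Finset.dvd_prod_of_mem d (Finset.mem_univ o)
    refine ⟨Polynomial.C c * p o, ?_⟩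
    rw [map_mul, Polynomial.aeval_C, hp, hc, map_mul]
    ring
  choose P hP using hP
  have hsep : m ∣ P none * Polynomial.derivative m - Polynomial.C q := by
    refine minpoly.isIntegrallyClosed_dvd hint ?_
    rw [map_sub, map_mul, hP, Polynomial.aeval_C]
    show _ * (Polynomial.aeval ξ (Polynomial.derivative m))⁻¹ * _ - _ = 0
    rw [mul_assoc, inv_mul_cancel₀ hder, mul_one, sub_self]
  refine ⟨⟨m, q, fun l => P (some l), P none, minpoly.monic hint, minpoly.irreducible hint, hsep,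
    hq0⟩, ξ, ⟨minpoly.aeval R ξ, hq⟩, fun l => ?_, ?_⟩
  · show Polynomial.aeval ξ (P (some l)) / algebraMap R Ω q = t l
    rw [hP, mul_div_cancel_left₀ _ hq]
    rfl
  · set W := IntermediateField.adjoin K (Set.range u ∪ Set.range t)
    have h1 : ∀ a : R, algebraMap R Ω a ∈ W := fun a => by
      have h2 : Algebra.adjoin K (Set.range u) ≤ W.toSubalgebra :=
        Algebra.adjoin_le fun z hz => IntermediateField.subset_adjoin K _ (Or.inl hz)
      refine h2 ?_
      rw [Algebra.adjoin_range_eq_range_aeval]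
      exact ⟨a, rfl⟩
    have h2 : ∀ c : F, algebraMap F Ω c ∈ W := fun c => by
      obtain ⟨a, b, -, rfl⟩ := IsFractionRing.div_surjective R c
      rw [map_div₀, ← IsScalarTower.algebraMap_apply, ← IsScalarTower.algebraMap_apply]
      exact div_mem (h1 a) (h1 b)
    have h3 : Subfield.closure (Set.range (algebraMap F Ω) ∪ Set.range t) ≤ W.toSubfield := by
      refine Subfield.closure_le.2 ?_
      rintro z (⟨c, rfl⟩ | hz)
      · exact h2 c
      · exact IntermediateField.subset_adjoin K _ (Or.inr hz)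
    rw [hξ, Algebra.smul_def]
    exact mul_mem (h1 y) (h3 α.2)

/-- the kernel of the evaluation at a generic point -/
theorem ev2_eq_zero_iff {K Ω : Type} [Field K] [Field Ω] [Algebra K Ω] {r : ℕ} {m : PP K r}
    (hm : m.Monic) (hi : Irreducible m) {u : Fin r → Ω} (hu : AlgebraicIndependent K u) {ξ : Ω}
    (h : ev2 u ξ m = 0) (p : PP K r) : ev2 u ξ p = 0 ↔ m ∣ p := by
  let R := MvPolynomial (Fin r) K
  let _ : Algebra R Ω := (MvPolynomial.aeval u : R →ₐ[K] Ω).toRingHom.toAlgebra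
  have hinj : Function.Injective (algebraMap R Ω) := algebraicIndependent_iff_injective_aeval.1 hu
  have : FaithfulSMul R Ω := (faithfulSMul_iff_algebraMap_injective _ _).2 hinj
  have hint : IsIntegral R ξ := ⟨m, hm, h⟩
  have e : minpoly R ξ = m :=
    Polynomial.eq_of_monic_of_associated (minpoly.monic hint) hm
      ((minpoly.irreducible hint).associated_of_dvd hi (minpoly.isIntegrallyClosed_dvd hint h))
  rw [← e]
  exact minpoly.isIntegrallyClosed_dvd_iff hint p

theorem M1_inj {K Ω : Type} [Field K] [Field Ω] [Algebra K Ω] {r : ℕ} {m : PP K r}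
    (hm : m.Monic) (hi : Irreducible m) {u : Fin r → Ω} (hu : AlgebraicIndependent K u) {ξ : Ω}
    (h : ev2 u ξ m = 0) : Function.Injective (AdjoinRoot.lift
      (MvPolynomial.aeval u : MvPolynomial (Fin r) K →ₐ[K] Ω).toRingHom ξ h) := by
  refine (injective_iff_map_eq_zero _).2 fun z hz => ?_
  obtain ⟨g, rfl⟩ := AdjoinRoot.mk_surjective z
  rw [AdjoinRoot.lift_mk] at hz
  exact AdjoinRoot.mk_eq_zero.2 ((ev2_eq_zero_iff hm hi hu h g).1 hz)

/-- two generic points are conjugate -/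
theorem exists_hom_generic {K Ω Ω' : Type} [Field K] [Field Ω] [Algebra K Ω] [Field Ω']
    [IsAlgClosed Ω'] [Algebra K Ω'] {r : ℕ} {m : PP K r} (hm : m.Monic) (hi : Irreducible m)
    {u : Fin r → Ω} (hu : AlgebraicIndependent K u) {ξ : Ω} (h : ev2 u ξ m = 0)
    {u' : Fin r → Ω'} (hu' : AlgebraicIndependent K u') {ξ' : Ω'} (h' : ev2 u' ξ' m = 0)
    (L : IntermediateField K Ω) (hL : ∀ k, u k ∈ L) (hξ : ξ ∈ L)
    (ha : ∀ x ∈ L, IsAlgebraic (IntermediateField.adjoin K (Set.range u)) x) :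
    ∃ τ : L →ₐ[K] Ω', (∀ k, τ ⟨u k, hL k⟩ = u' k) ∧ τ ⟨ξ, hξ⟩ = ξ' := by
  let uL : Fin r → L := fun k => ⟨u k, hL k⟩
  have hev : ∀ (x : L) (p : PP K r), ev2 u (x : Ω) p = 0 → ev2 uL x p = 0 := fun x p hp =>
    Subtype.val_injective ((map_ev2 L.val uL x p).trans hp)
  have huL : AlgebraicIndependent K uL := AlgebraicIndependent.of_comp L.val hu
  have hL0 : ev2 uL ⟨ξ, hξ⟩ m = 0 := hev ⟨ξ, hξ⟩ m h
  let A := AdjoinRoot m
  let i1 : A →+* L := AdjoinRoot.lift
    (MvPolynomial.aeval uL : MvPolynomial (Fin r) K →ₐ[K] L).toRingHom ⟨ξ, hξ⟩ hL0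
  let i2 : A →+* Ω' := AdjoinRoot.lift
    (MvPolynomial.aeval u' : MvPolynomial (Fin r) K →ₐ[K] Ω').toRingHom ξ' h'
  have j1 : Function.Injective i1 := M1_inj hm hi huL hL0
  have j2 : Function.Injective i2 := M1_inj hm hi hu' h'
  have : IsDomain A := j1.isDomain i1
  let _ : Algebra A L := i1.toAlgebra
  let _ : Algebra A Ω' := i2.toAlgebra
  have : FaithfulSMul A L := (faithfulSMul_iff_algebraMap_injective _ _).2 j1
  have : FaithfulSMul A Ω' := (faithfulSMul_iff_algebraMap_injective _ _).2 j2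
  have c1 : ∀ a, i1 (AdjoinRoot.of m a) = MvPolynomial.aeval uL a := fun a =>
    AdjoinRoot.lift_of hL0
  have c2 : ∀ a, i2 (AdjoinRoot.of m a) = MvPolynomial.aeval u' a := fun a =>
    AdjoinRoot.lift_of h'
  have hof : Function.Injective (AdjoinRoot.of m) := fun a b e =>
    algebraicIndependent_iff_injective_aeval.1 hu' (by rw [← c2, ← c2, e])
  have : Algebra.IsAlgebraic A L := ⟨fun x => by
    obtain ⟨p, hp0, hp⟩ := M1_alg hu (ha x x.2)
    refine ⟨p.map (AdjoinRoot.of m), (Polynomial.map_ne_zero_iff hof).2 hp0, ?_⟩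
    rw [Polynomial.aeval_def, Polynomial.eval₂_map, ← hev x p hp, M1_ev2]
    congr 1
    exact RingHom.ext c1⟩
  let τ0 : L →ₐ[A] Ω' := IsAlgClosed.lift
  have hτ : ∀ a, τ0 (i1 a) = i2 a := τ0.commutes
  refine ⟨{ τ0.toRingHom with commutes' := fun c => ?_ }, fun k => ?_, ?_⟩
  · have := hτ (AdjoinRoot.of m (MvPolynomial.C c))
    rwa [c1, c2, MvPolynomial.aeval_C, MvPolynomial.aeval_C] at this
  · have := hτ (AdjoinRoot.of m (MvPolynomial.X k))
    rwa [c1, c2, MvPolynomial.aeval_X, MvPolynomial.aeval_X] at this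
  · have := hτ (AdjoinRoot.root m)
    rwa [AdjoinRoot.lift_root, AdjoinRoot.lift_root] at this

end Pool.Agent.E6b

end

section
open scoped NNReal TensorProduct IntermediateField BigOperators Classical Topology
open Filter

namespace Pool.Agent.E6b
variable (U : Ultrafilter ℕ)

section Aux
variable {L : Type} [Field L] {r : ℕ}

theorem M2_ev {L' : Type} [Field L'] [Algebra L L'] (φ : UP U L →+* UP U L')
    (hφ : ∀ x : ℕ → L, φ (gm U x) = gm U fun n => algebraMap L L' (x n))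
    (u : ℕ → Fin r → L') (ξ : ℕ → L') (p : M2P L r) :
    (M2lim U p).eval₂ (MvPolynomial.eval₂Hom φ fun k => gm U fun n => u n k) (gm U ξ) =
      gm U fun n => ev2 (u n) (ξ n) (M2cmp n p) := by
  have h : (Polynomial.eval₂RingHom (MvPolynomial.eval₂Hom φ fun k => gm U fun n => u n k)
      (gm U ξ)).comp (M2lim U) = (U1_hom U).comp (RingHom.pi fun n =>
        ((ev2 (u n) (ξ n) : PP L r →ₐ[L] L') : PP L r →+* L').comp (M2cmp n)) := by
    refine Polynomial.ringHom_ext' (MvPolynomial.ringHom_ext (fun a => ?_) fun k => ?_) ?_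
    · simp only [RingHom.comp_apply, M2lim, Polynomial.coe_mapRingHom, Polynomial.map_C,
        MvPolynomial.map_C, Polynomial.coe_eval₂RingHom, Polynomial.eval₂_C,
        MvPolynomial.eval₂Hom_C, U1_hom_apply, hφ]
      congr 1
      funext n
      simp [M2cmp, ev2]
    · simp only [RingHom.comp_apply, M2lim, Polynomial.coe_mapRingHom, Polynomial.map_C,
        MvPolynomial.map_X, Polynomial.coe_eval₂RingHom, Polynomial.eval₂_C,
        MvPolynomial.eval₂Hom_X', U1_hom_apply]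
      congr 1
      funext n
      simp [M2cmp, ev2]
    · simp only [RingHom.comp_apply, M2lim, Polynomial.coe_mapRingHom, Polynomial.map_X,
        Polynomial.coe_eval₂RingHom, Polynomial.eval₂_X, U1_hom_apply]
      congr 1
      funext n
      simp [M2cmp, ev2]
  exact RingHom.congr_fun h p

end Aux

theorem LimP.ev2 {L L' : Type} [Field L] [Field L'] [Algebra L L'] {r Δ : ℕ} {p : PP (UP U L) r}
    {ps : ℕ → PP L r} (h : LimP U p ps) (hΔ : ∀ n, CxP Δ (ps n)) (φ : UP U L →+* UP U L')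
    (hφ : ∀ x : ℕ → L, φ (gm U x) = gm U fun n => algebraMap L L' (x n))
    (u : ℕ → Fin r → L') (ξ : ℕ → L') :
    p.eval₂ (MvPolynomial.eval₂Hom φ fun k => gm U fun n => u n k) (gm U ξ) =
      gm U fun n => ev2 (u n) (ξ n) (ps n) := by
  obtain ⟨q, hq⟩ := M2_lift ps hΔ
  have h1 := M2_limP U q
  simp only [hq] at h1
  rw [M2_uniq U h h1, M2_ev U φ hφ]
  simp only [hq]

end Pool.Agent.E6b

end

section
open scoped NNReal TensorProduct IntermediateField BigOperators Classical Topology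
open Filter

namespace Pool.Agent.E6b
variable {F : Type} [Field F] [Algebra Qb F] [IsFF Qb F] (o : Place Qb F) (d : ℕ)

section
variable {o d} {r₁ r₂ Δ : ℕ}

/-- the parallelogram law -/
theorem C8_par {C : ℝ} (h1 : ∀ a b, ntB o a b = ntB o b a) (h2 : ∀ a, |hq a - ntB o a a| ≤ C)
    (s : ℕ) (a b : Cl o Qb) : 2 * (s : ℝ) ^ 2 * hq a + 2 * hq b -
      ntB o ((s : ℤ) • a - b) ((s : ℤ) • a - b) - C * (2 * (s : ℝ) ^ 2 + 3) ≤
      hq ((s : ℤ) • a + (1 : ℤ) • b) := by
  have e1 := (abs_le.1 (h2 ((s : ℤ) • a + (1 : ℤ) • b))).1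
  have e2 := mul_le_mul_of_nonneg_left (abs_le.1 (h2 a)).2 (sq_nonneg (s : ℝ))
  have e3 := (abs_le.1 (h2 b)).2
  simp only [one_smul, map_add, map_sub, map_zsmul, AddMonoidHom.add_apply, AddMonoidHom.sub_apply,
    AddMonoidHom.smul_apply, zsmul_eq_mul, Int.cast_natCast, h1 b a] at e1 ⊢
  linarith

end

end Pool.Agent.E6b

end

section
open scoped NNReal TensorProduct IntermediateField BigOperators Classical Topology
open Filter

namespace Pool.Agent.E6b
variable {F : Type} [Field F] [Algebra Qb F] [IsFF Qb F] {o : Place Qb F} {d : ℕ}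

theorem M3_mem_of_isIntegral {K Ω : Type} [Field K] [Field Ω] [Algebra K Ω]
    (L : IntermediateField K Ω) [IsAlgClosed L] {x : Ω} (hx : IsIntegral L x) : x ∈ L := by
  obtain ⟨y, hy⟩ := minpoly.mem_range_of_degree_eq_one L x
    (IsAlgClosed.degree_eq_one_of_irreducible L (minpoly.irreducible hx))
  exact hy ▸ y.2

theorem M3_root_mem {K Ω : Type} [Field K] [Field Ω] [Algebra K Ω] (L : IntermediateField K Ω)
    [IsAlgClosed L] {r : ℕ} {m : PP K r} (hm : m.Monic) {u : Fin r → Ω} (hu : ∀ k, u k ∈ L) {ξ : Ω}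
    (h : ev2 u ξ m = 0) : ξ ∈ L := by
  refine M3_mem_of_isIntegral L
    ⟨m.map (MvPolynomial.aeval fun k => (⟨u k, hu k⟩ : L)).toRingHom, hm.map _, ?_⟩
  rw [Polynomial.eval₂_map, ← h]
  change _ = m.eval₂ (MvPolynomial.aeval u).toRingHom ξ
  congr 1
  ext <;> simp

theorem M3_exists_root {K Ω : Type} [Field K] [Field Ω] [IsAlgClosed Ω] [Algebra K Ω] {r : ℕ}
    {m : PP K r} (hm : m.Monic) (hi : Irreducible m) (u : Fin r → Ω) : ∃ ξ : Ω, ev2 u ξ m = 0 := by
  obtain ⟨ξ, hξ⟩ := IsAlgClosed.exists_root (m.map (MvPolynomial.aeval u).toRingHom) (by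
    rw [hm.degree_map]
    intro h0
    exact hi.ne_one (hm.degree_le_zero_iff_eq_one.1 h0.le))
  exact ⟨ξ, by rwa [Polynomial.IsRoot, Polynomial.eval_map] at hξ⟩

theorem M3_ev2_C {K R : Type} [Field K] [CommRing R] [Algebra K R] {r : ℕ} (u : Fin r → R) (ξ : R)
    (q : MvPolynomial (Fin r) K) : ev2 u ξ (Polynomial.C q) = MvPolynomial.aeval u q :=
  Polynomial.eval₂_C _ _

theorem M3_val_map {K R R' : Type} [Field K] [Field R] [Algebra K R] [Field R'] [Algebra K R']
    {r : ℕ} {ι : Type} (M : Mdl K r ι) (φ : R →ₐ[K] R') (u : Fin r → R) (ξ : R) (l : ι) :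
    φ (M.val u ξ l) = M.val (fun k => φ (u k)) (φ ξ) l := by
  rw [Mdl.val, Mdl.val, map_div₀, map_ev2, ← M3_ev2_C u ξ, map_ev2, M3_ev2_C]

/-- the geometric meaning of a vector of values -/
def M3_Dat {r : ℕ} {Ω : Type} [Field Ω] [IsAlgClosed Ω] [CharZero Ω] [Algebra Qb Ω]
    (u : Fin r → Ω) (t : IX o d → Ω) (z : Fin d → Pt o Ω) : Prop :=
  (∀ a (i : Fin (MM o)), z a (eb o i) = t (.inl (a, i))) ∧
    Prp (Psym (clz z)) (fun j => t (.inr j)) ∧ (∃ j, t (.inr j) = 1) ∧
    ∀ k, ∃ (a : Fin d) (i : Fin (MM o)), u k = z a (eb o i)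

section
variable {r : ℕ} {Ω Ω' : Type} [Field Ω] [IsAlgClosed Ω] [CharZero Ω] [Algebra Qb Ω]
  [Field Ω'] [IsAlgClosed Ω'] [CharZero Ω'] [Algebra Qb Ω']

theorem M3_psym (τ : Ω →ₐ[Qb] Ω') (z : Fin d → Pt o Ω) :
    Prp (Psym (clz fun a => τ.comp (z a))) fun j => τ (Psym (clz z) j) := by
  have h := (bc_ok (o := o) τ).Psym (clz z)
  rw [BC.cl_clz, bc_τ] at h
  simp only [bc_pt] at h
  exact h

theorem M3_pts (τ : Ω →ₐ[Qb] Ω') {z : Fin d → Pt o Ω'}
    (h : ∀ a (i : Fin (MM o)), ∃ x, τ x = z a (eb o i)) :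
    ∃ z₀ : Fin d → Pt o Ω, z = fun a => τ.comp (z₀ a) := by
  have h1 : ∀ a, ∃ y : Pt o Ω, (bc o τ).pt y = z a := fun a =>
    (bc o τ).mem_range_pt.2 fun i => by
      rw [bc_τ]
      exact h a i
  choose z₀ hz using h1
  exact ⟨z₀, funext fun a => by rw [← hz, bc_pt]⟩

theorem M3_push (τ : Ω →ₐ[Qb] Ω') {u : Fin r → Ω} {t : IX o d → Ω} {z : Fin d → Pt o Ω}
    (h : M3_Dat u t z) : M3_Dat (fun k => τ (u k)) (fun l => τ (t l)) fun a => τ.comp (z a) := by
  obtain ⟨h1, h2, ⟨j, h3⟩, h4⟩ := h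
  refine ⟨fun a i => congrArg τ (h1 a i), (M3_psym τ z).trans (h2.map (τ : Ω →+* Ω')),
    ⟨j, by simp only [h3, map_one]⟩, fun k => ?_⟩
  obtain ⟨a, i, h⟩ := h4 k
  exact ⟨a, i, congrArg τ h⟩

theorem M3_descend (τ : Ω →ₐ[Qb] Ω') {u : Fin r → Ω} {t : IX o d → Ω} {z : Fin d → Pt o Ω'}
    (h : M3_Dat (fun k => τ (u k)) (fun l => τ (t l)) z) : ∃ z₀, M3_Dat u t z₀ := by
  obtain ⟨h1, h2, ⟨j, h3⟩, h4⟩ := h
  obtain ⟨z₀, rfl⟩ := M3_pts τ fun a i => ⟨_, (h1 a i).symm⟩
  refine ⟨z₀, fun a i => τ.injective (h1 a i),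
    Prp.of_map (τ : Ω →+* Ω') ((M3_psym τ z₀).symm.trans h2),
    ⟨j, τ.injective (h3.trans (map_one τ).symm)⟩, fun k => ?_⟩
  obtain ⟨a, i, h⟩ := h4 k
  exact ⟨a, i, τ.injective h⟩

/-- the normalised theta vector is defined over the field of the coordinates -/
theorem M3_theta (τ : Ω →ₐ[Qb] Ω') {z : Fin d → Pt o Ω'}
    (h : ∀ a (i : Fin (MM o)), ∃ x, τ x = z a (eb o i)) {x : JJ o × JJ o → Ω'}
    (hx : Prp (Psym (clz z)) x) {j₀ : JJ o × JJ o} (h1 : x j₀ = 1) (j : JJ o × JJ o) :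
    ∃ y, τ y = x j := by
  obtain ⟨z₀, rfl⟩ := M3_pts τ h
  obtain ⟨μ, -, hμ⟩ := hx.symm.trans (M3_psym τ z₀)
  have h2 := hμ j₀
  rw [h1] at h2
  refine ⟨Psym (clz z₀) j / Psym (clz z₀) j₀, ?_⟩
  rw [map_div₀, hμ j, eq_inv_of_mul_eq_one_left h2.symm, div_eq_inv_mul]

/-- transport from one generic point to another one -/
theorem M3_transport {K : Type} [Field K] [Algebra Qb K] [Algebra K Ω] [IsScalarTower Qb K Ω]
    [Algebra K Ω'] [IsScalarTower Qb K Ω'] (M : Mdl K r (IX o d)) {u : Fin r → Ω} {ξ : Ω}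
    (hu : AlgebraicIndependent K u) (hp : ev2 u ξ M.m = 0) {u' : Fin r → Ω'} {ξ' : Ω'}
    (hu' : AlgebraicIndependent K u') (hp' : ev2 u' ξ' M.m = 0) {z : Fin d → Pt o Ω}
    (h : M3_Dat u (M.val u ξ) z) : ∃ z', M3_Dat u' (M.val u' ξ') z' := by
  obtain ⟨L, hL, hm⟩ := exists_acl (κ := K) (Set.range u)
  have h1 : ∀ k, u k ∈ L := fun k => (hm _).2 (isAlgebraic_algebraMap
    (⟨_, IntermediateField.subset_adjoin K _ ⟨k, rfl⟩⟩ : IntermediateField.adjoin K (Set.range u)))
  have h2 : ξ ∈ L := M3_root_mem L M.monic h1 hp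
  obtain ⟨τ, h3, h4⟩ := exists_hom_generic M.monic M.irr hu hp hu' hp' L h1 h2
    fun x hx => (hm x).1 hx
  obtain ⟨z₀, h5⟩ := M3_descend (L.val.restrictScalars Qb) (u := fun k => ⟨u k, h1 k⟩)
    (t := M.val (fun k => (⟨u k, h1 k⟩ : L)) ⟨ξ, h2⟩) (z := z) (by
      simp only [AlgHom.restrictScalars_apply, M3_val_map M L.val]
      exact h)
  have h6 := M3_push (τ.restrictScalars Qb) h5
  simp only [AlgHom.restrictScalars_apply, M3_val_map M τ, h3, h4] at h6
  exact ⟨_, h6⟩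

theorem M3_los (U : Ultrafilter ℕ) {u : ℕ → Fin r → Ω} {t : ℕ → IX o d → Ω}
    {z : Fin d → Pt o (UP U Ω)}
    (h : M3_Dat (fun k => gm U fun n => u n k) (fun l => gm U fun n => t n l) z) :
    ∀ᶠ n in (U : Filter ℕ), ∃ z', M3_Dat (u n) (t n) z' := by
  obtain ⟨h1, h2, ⟨j, h3⟩, h4⟩ := h
  choose y hy using fun a => ptU_surj U (z a)
  obtain rfl : z = fun a => ptU U fun n => y a n := funext fun a => (hy a).symm
  choose a i h4 using h4
  have e1 : ∀ᶠ n in (U : Filter ℕ), ∀ a (i : Fin (MM o)), y a n (eb o i) = t n (.inl (a, i)) :=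
    eventually_all.2 fun a => eventually_all.2 fun i => (gm_eq_iff U _ _).1 (h1 a i)
  have e2 : ∀ᶠ n in (U : Filter ℕ), Prp (Psym (clz fun a => y a n)) fun j => t n (.inr j) := by
    rw [← clU_clz U fun n a => y a n] at h2
    exact (prp_gm_iff U _ _).1 ((Psym_clU U _).symm.trans h2)
  have e3 : ∀ᶠ n in (U : Filter ℕ), t n (.inr j) = 1 := (gm_eq_iff U _ fun _ => 1).1 h3
  have e4 : ∀ᶠ n in (U : Filter ℕ), ∀ k, u n k = y (a k) n (eb o (i k)) :=
    eventually_all.2 fun k => (gm_eq_iff U _ _).1 (h4 k)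
  filter_upwards [e1, e2, e3, e4] with n e1 e2 e3 e4
  exact ⟨fun a => y a n, e1, e2, ⟨j, e3⟩, fun k => ⟨a k, i k, e4 k⟩⟩

end

/-- it is enough to check `Real` at one generic point -/
theorem Mdl.real_of_one {r : ℕ} (M : Mdl Qb r (IX o d)) {Ω : Type} [Field Ω] [IsAlgClosed Ω]
    [CharZero Ω] [Algebra Qb Ω] {u : Fin r → Ω} {ξ : Ω} (hu : AlgebraicIndependent Qb u)
    (hp : M.IsPt u ξ) {z : Fin d → Pt o Ω} (h1 : M.Crd u ξ z)
    (h2 : Prp (Psym (clz z)) fun j => M.val u ξ (.inr j)) (h3 : ∃ j, M.val u ξ (.inr j) = 1)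
    (h4 : ∀ k, ∃ (a : Fin d) (i : Fin (MM o)), u k = z a (eb o i)) : M.Real := by
  intro Ω' _ _ _ _ u' ξ' hu' hp'
  exact M3_transport M hu hp.1 hu' hp'.1 ⟨h1, h2, h3, h4⟩

section
variable (U : Ultrafilter ℕ) (K : IntermediateField Qb (UP U Qb)) {r Δ : ℕ} {ι : Type}

/-- a model which is the limit of a sequence of models -/
def M3_Seq (M : Mdl K r ι) (Δ : ℕ) (Ms : ℕ → Mdl Qb r ι) : Prop :=
  (∀ n, (Ms n).Cx Δ) ∧
    LimP U (M.m.map (MvPolynomial.map (algebraMap K (UP U Qb)))) (fun n => (Ms n).m) ∧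
    LimP U (Polynomial.C (M.q.map (algebraMap K (UP U Qb)))) (fun n => Polynomial.C (Ms n).q) ∧
    ∀ l, LimP U ((M.P l).map (MvPolynomial.map (algebraMap K (UP U Qb)))) fun n => (Ms n).P l
variable {L : Type} [Field L] [Algebra Qb L]

theorem M3_ev2 [Algebra K (UP U L)] (φ : UP U Qb →+* UP U L)
    (hφ : ∀ x : ℕ → Qb, φ (gm U x) = gm U fun n => algebraMap Qb L (x n))
    (hK : ∀ c : K, algebraMap K (UP U L) c = φ c) {p : PP K r} {ps : ℕ → PP Qb r}
    (h : LimP U (p.map (MvPolynomial.map (algebraMap K (UP U Qb)))) ps) (hΔ : ∀ n, CxP Δ (ps n))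
    (u : ℕ → Fin r → L) (ξ : ℕ → L) :
    ev2 (fun k => gm U fun n => u n k) (gm U ξ) p = gm U fun n => ev2 (u n) (ξ n) (ps n) := by
  rw [← h.ev2 U hΔ φ hφ u ξ, Polynomial.eval₂_map]
  change p.eval₂ (MvPolynomial.aeval fun k => gm U fun n => u n k).toRingHom (gm U ξ) = _
  congr 1
  ext c
  · simp [hK]
  · simp

theorem M3_lim [Algebra K (UP U L)] (φ : UP U Qb →+* UP U L)
    (hφ : ∀ x : ℕ → Qb, φ (gm U x) = gm U fun n => algebraMap Qb L (x n))
    (hK : ∀ c : K, algebraMap K (UP U L) c = φ c) {M : Mdl K r ι} {Ms : ℕ → Mdl Qb r ι}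
    (h : M3_Seq U K M Δ Ms) (u : ℕ → Fin r → L) (ξ : ℕ → L) :
    (ev2 (fun k => gm U fun n => u n k) (gm U ξ) M.m =
      gm U fun n => ev2 (u n) (ξ n) (Ms n).m) ∧
    (MvPolynomial.aeval (fun k => gm U fun n => u n k) M.q =
      gm U fun n => MvPolynomial.aeval (u n) (Ms n).q) ∧
    ∀ l, M.val (fun k => gm U fun n => u n k) (gm U ξ) l =
      gm U fun n => (Ms n).val (u n) (ξ n) l := by
  obtain ⟨h0, h1, h2, h3⟩ := h
  have hq : MvPolynomial.aeval (fun k => gm U fun n => u n k) M.q =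
      gm U fun n => MvPolynomial.aeval (u n) (Ms n).q := by
    rw [← Polynomial.map_C] at h2
    have := M3_ev2 U K φ hφ hK (Δ := Δ) h2 (fun n => ⟨by simp, fun i => by
      rw [Polynomial.coeff_C]
      split_ifs
      · exact (h0 n).2.1
      · simp⟩) u ξ
    simpa only [M3_ev2_C] using this
  refine ⟨M3_ev2 U K φ hφ hK h1 (fun n => (h0 n).1) u ξ, hq, fun l => ?_⟩
  rw [Mdl.val, hq, M3_ev2 U K φ hφ hK (h3 l) (fun n => (h0 n).2.2.1 l) u ξ, ← gm_div]
  rfl

end

end Pool.Agent.E6b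

end

section
open scoped NNReal TensorProduct IntermediateField BigOperators Classical Topology
open Filter

namespace Pool.Agent.E6b
variable {F : Type} [Field F] [Algebra Qb F] [IsFF Qb F] (o : Place Qb F) {d : ℕ}

theorem ntB_clz_le : ∃ c : ℝ, 0 ≤ c ∧ ∀ (z : Fin d → Pt o Qb) (H : ℝ),
    (∀ a, h1 (z a (wN o)) ≤ H) → ntB o (clz z) (clz z) ≤ c * (H + 1) := by
  obtain ⟨C, hs, hp, hC⟩ := ntB_spec o
  obtain ⟨c, hc0, hc⟩ := up_ht o
  have hC0 : 0 ≤ C := (abs_nonneg _).trans (hC 0)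
  refine ⟨d * (d * (c + C)), by positivity, fun z H hz => ?_⟩
  rw [clz_eq_sum]
  refine (psd_sum_le (ntB o) hs hp Finset.univ _).trans ?_
  rw [Finset.card_univ, Fintype.card_fin, mul_assoc]
  refine mul_le_mul_of_nonneg_left ?_ (Nat.cast_nonneg d)
  have h : ∀ a, ntB o (cl (z a)) (cl (z a)) ≤ (c + C) * (H + 1) := fun a => by
    have h1' := (abs_le.1 (hC (cl (z a)))).1
    have h2 := hc (z a)
    have h3 := h1_nonneg (z a (wN o))
    have h4 := hz a
    have h5 : c * (h1 (z a (wN o)) + 1) ≤ c * (H + 1) :=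
      mul_le_mul_of_nonneg_left (by linarith) hc0
    have h6 : C ≤ C * (H + 1) := le_mul_of_one_le_right hC0 (by linarith)
    linarith
  refine (Finset.sum_le_sum fun a _ => h a).trans_eq ?_
  rw [Finset.sum_const, Finset.card_univ, Fintype.card_fin, nsmul_eq_mul, mul_assoc]

end Pool.Agent.E6b

end
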