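import Pool.Agent.E6c.A22
import Pool.Agent.E6c.A30
import Pool.Agent.E6c.A31
import Pool.Agent.E6c.A32
import Pool.Agent.E6c.A33

section
open scoped NNReal TensorProduct IntermediateField BigOperators Classical Topology
open Filter

namespace Pool.Agent.E6b
variable {κ F : Type} [Field κ] [IsAlgClosed κ] [CharZero κ] [Field F] [Algebra κ F] [IsFF κ F]
  {o : Place κ F} {Ω : Type} [Field Ω] [IsAlgClosed Ω] [CharZero Ω] [Algebra κ Ω]

/-- rigidity -/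
theorem rig {K : Type} [Field K] [IsAlgClosed K] [CharZero K] [Algebra κ K] (τ : K →ₐ[κ] Ω)
    {ι : Type} [Fintype ι] (z : ι → Pt o Ω) (hz : Function.Injective z) (n : ι → ℤ)
    (hn : ∀ a, n a ≠ 0) (h : ∑ a, n a • cl (z a) ∈ Set.range (bc o τ).cl)
    (hm : ∃ a, z a ∉ Set.range (bc o τ).pt) : 2 ≤ ell (dz z) := by
  obtain ⟨a₀, ha₀⟩ := hm
  letI : Algebra K Ω := τ.toRingHom.toAlgebra
  haveI : IsScalarTower κ K Ω := IsScalarTower.of_algebraMap_eq fun c => (τ.commutes c).symm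
  obtain ⟨δ', hδ'⟩ := exists_derivation (K := K) (x := z a₀ (wN o))
    (F0_transcendental (injective_of_notMem_range τ ha₀).1)
  obtain ⟨d, -, -, -, hoo, hd⟩ := exists_derF (o := o) (δ'.restrictScalars κ)
  obtain ⟨w, hw⟩ := h
  obtain ⟨D, rfl⟩ := clD_surj w
  have h1 : clD o Ω (∑ a, n a • pd (plc (z a))) = clD o Ω ((bc o τ).dv D) := by
    rw [← BC.cl_clD, hw, map_sum]
    exact Finset.sum_congr rfl fun a _ => map_zsmul _ _ _
  obtain ⟨k, f, hf, e⟩ := clD_eq_iff.1 h1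
  have key : ∀ y : Pt o Ω, (∃ a, δ' (y a) ≠ 0) →
      (plc y).ord f = -∑ a, if z a = y then n a else 0 := by
    rintro y ⟨a, hy⟩
    have hr : plc y ∉ Set.range (bc o τ).plc := by
      rintro ⟨P, hP⟩
      rcases eq_oo_or_plc P with rfl | ⟨y₀, rfl⟩
      · rw [BC.plc_oo] at hP
        exact plc_ne_oo y hP.symm
      · rw [BC.plc_plc, bc_pt] at hP
        rw [← plc_injective hP] at hy
        exact hy (δ'.map_algebraMap (y₀ a))
    have e1 := congrArg (fun E : DO o Ω => E (plc y)) e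
    have e2 : (bc o τ).dv D (plc y) = 0 := Finsupp.mapDomain_of_notMem_range _ _ hr
    simp only [Finsupp.add_apply, Finsupp.smul_apply, Finsupp.finsetSum_apply, e2, dv_apply,
      F1_pd_apply, if_neg (plc_ne_oo y).symm, plc_injective.eq_iff, smul_eq_mul, mul_ite, mul_one,
      mul_zero] at e1
    omega
  refine (two_le_ell_iff (dz_nonneg z)).2 ⟨d f / f, mem_LL.2 (Or.inr fun P => ?_), ?_⟩
  · have h0 : d f / f ∈ P.O → -dz z P ≤ P.ord (d f / f) := fun h => by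
      have h2 := P.mem_iff.1 h
      have h3 : 0 ≤ dz z P := dz_nonneg z P
      omega
    rcases eq_oo_or_plc P with rfl | ⟨y, rfl⟩
    · exact h0 (hoo f)
    by_cases hy : ∀ a, δ' (y a) = 0
    · exact h0 ((hd y f hf).1 hy)
    push Not at hy
    by_cases ho : (plc y).ord f = 0
    · exact h0 ((hd y f hf).2.1 ho)
    rw [(hd y f hf).2.2 hy ho, dz_apply, neg_le_neg_iff, Nat.one_le_cast, Finset.one_le_card]
    by_contra hne
    apply ho
    rw [key y hy, Finset.sum_eq_zero, neg_zero]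
    intro a _
    exact if_neg fun ha => hne ⟨a, Finset.mem_filter.2 ⟨Finset.mem_univ _, ha⟩⟩
  · rintro ⟨c, hc⟩
    have hy : ∃ a, δ' (z a₀ a) ≠ 0 := ⟨wN o, by rw [hδ']; exact one_ne_zero⟩
    have ho : (plc (z a₀)).ord f ≠ 0 := by
      rw [key _ hy]
      simpa [hz.eq_iff] using hn a₀
    have := (hd _ f hf).2.2 hy ho
    rw [← hc, Place.ord_algebraMap] at this
    omega

end Pool.Agent.E6b

end

section
open scoped NNReal TensorProduct IntermediateField BigOperators Classical Topology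
open Filter

namespace Pool.Agent.E6b

theorem Mdl.Cx.mono {K : Type} [Field K] {r : ℕ} {ι : Type} {M : Mdl K r ι} {Δ Δ' : ℕ}
    (h : M.Cx Δ) (h' : Δ ≤ Δ') : M.Cx Δ' :=
  ⟨M1_mono h.1 h', h.2.1.trans h', fun l => M1_mono (h.2.2.1 l) h', M1_mono h.2.2.2 h'⟩

end Pool.Agent.E6b

end

section

namespace Pool.Agent.E6b
open Polynomial

theorem C1_inf : {x : Qb | ∃ n : ℕ, 0 < n ∧ x ^ n = 1}.Infinite := by
  choose z hz using fun n : ℕ => HasEnoughRootsOfUnity.exists_primitiveRoot Qb (n + 1)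
  refine Set.infinite_of_injective_forall_mem (f := z) (fun a b e => ?_)
    fun n => ⟨n + 1, n.succ_pos, (hz n).pow_eq_one⟩
  exact Nat.succ_injective ((hz a).unique (e ▸ hz b))

theorem C1_root {r : ℕ} {ι : Type} (M : Mdl Qb r ι) (u : Fin r → Qb) : ∃ ξ, ev2 u ξ M.m = 0 := by
  have h : (M.m.map (MvPolynomial.aeval u : _ →ₐ[Qb] Qb).toRingHom).degree ≠ 0 := by
    rw [M.monic.degree_map]
    intro e
    exact M.irr.not_isUnit (by rw [M.monic.degree_le_zero_iff_eq_one.1 e.le]; exact isUnit_one)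
  obtain ⟨ξ, hξ⟩ := IsAlgClosed.exists_root _ h
  exact ⟨ξ, by rw [C1_ev2, eval₂_eq_eval_map]; exact hξ⟩
variable {r₁ r₂ : ℕ} {ι : Type} (M₁ : Mdl Qb r₁ ι) (M₂ : Mdl Qb r₂ ι)

theorem C1_m1 : e1B M₁ M₂ M₁.m = 0 := by
  have h : (MvPolynomial.aeval (fun k => uB M₁ M₂ (.inl k)) : _ →ₐ[Qb] _).toRingHom =
      (AdjoinRoot.of (tm2 M₁ M₂)).comp
        ((AdjoinRoot.of _).comp (MvPolynomial.rename Sum.inl).toRingHom) :=
    RingHom.ext fun p => C1_aeval1 M₁ M₂ p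
  rw [e1B, C1_ev2, h, x1B, ← hom_eval₂, ← eval₂_map]
  exact (congrArg _ (AdjoinRoot.eval₂_root _)).trans (map_zero _)

theorem C1_m2 : e2B M₁ M₂ M₂.m = 0 := by
  have h : (MvPolynomial.aeval (fun k => uB M₁ M₂ (.inr k)) : _ →ₐ[Qb] _).toRingHom =
      (AdjoinRoot.of (tm2 M₁ M₂)).comp
        ((AdjoinRoot.of _).comp (MvPolynomial.rename Sum.inr).toRingHom) :=
    RingHom.ext fun p => C1_aeval2 M₁ M₂ p
  rw [e2B, C1_ev2, h, x2B, ← eval₂_map]
  exact AdjoinRoot.eval₂_root _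

theorem C1_lift {R : Type} [CommRing R] [Algebra Qb R] (u : Fin r₁ ⊕ Fin r₂ → R) (ξ₁ ξ₂ : R)
    (h₁ : ev2 (fun k => u (.inl k)) ξ₁ M₁.m = 0) (h₂ : ev2 (fun k => u (.inr k)) ξ₂ M₂.m = 0) :
    ∃ χ : TB M₁ M₂ →ₐ[Qb] R, (∀ k, χ (uB M₁ M₂ k) = u k) ∧ χ (x1B M₁ M₂) = ξ₁ ∧
      χ (x2B M₁ M₂) = ξ₂ := by
  let χ₁ : AdjoinRoot (tm1 (r₂ := r₂) M₁) →ₐ[Qb] R :=
    AdjoinRoot.liftAlgHom _ (MvPolynomial.aeval u) ξ₁ (by
      rw [tm1, eval₂_map, ← h₁, C1_ev2]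
      congr 1
      refine MvPolynomial.ringHom_ext (fun c => ?_) fun k => ?_ <;> simp)
  have e1 : ∀ p, χ₁ (AdjoinRoot.of _ p) = MvPolynomial.aeval u p := fun p =>
    AdjoinRoot.liftAlgHom_of _ _ _ _ _
  refine ⟨AdjoinRoot.liftAlgHom _ χ₁ ξ₂ ?_, fun k => ?_, ?_, AdjoinRoot.liftAlgHom_root _ _ _ _⟩
  · rw [tm2, eval₂_map, ← h₂, C1_ev2]
    congr 1
    refine MvPolynomial.ringHom_ext (fun c => ?_) fun k => ?_ <;> simp [e1]
  · exact (AdjoinRoot.liftAlgHom_of _ _ _ _ _).trans ((e1 _).trans (MvPolynomial.aeval_X _ _))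
  · exact (AdjoinRoot.liftAlgHom_of _ _ _ _ _).trans (AdjoinRoot.liftAlgHom_root _ _ _ _)

end Pool.Agent.E6b

end

section
open scoped NNReal TensorProduct IntermediateField BigOperators Classical Topology
open Filter

namespace Pool.Agent.E6b
variable {r₁ r₂ : ℕ} {ι : Type} (M₁ : Mdl Qb r₁ ι) (M₂ : Mdl Qb r₂ ι)

theorem e1B_m : e1B M₁ M₂ M₁.m = 0 := C1_m1 M₁ M₂

theorem e2B_m : e2B M₁ M₂ M₂.m = 0 := C1_m2 M₁ M₂

theorem e1B_C (p : MvPolynomial (Fin r₁) Qb) : e1B M₁ M₂ (Polynomial.C p) =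
    algebraMap (R0 r₁ r₂) _ (MvPolynomial.rename Sum.inl p) := by
  rw [e1B, C1_ev2, Polynomial.eval₂_C]
  exact C1_aeval1 M₁ M₂ p

theorem e2B_C (p : MvPolynomial (Fin r₂) Qb) : e2B M₁ M₂ (Polynomial.C p) =
    algebraMap (R0 r₁ r₂) _ (MvPolynomial.rename Sum.inr p) := by
  rw [e2B, C1_ev2, Polynomial.eval₂_C]
  exact C1_aeval2 M₁ M₂ p

/-- universal property -/
theorem exists_lift_TB {R : Type} [CommRing R] [Algebra Qb R] (u : Fin r₁ ⊕ Fin r₂ → R) (ξ₁ ξ₂ : R)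
    (h₁ : ev2 (fun k => u (.inl k)) ξ₁ M₁.m = 0) (h₂ : ev2 (fun k => u (.inr k)) ξ₂ M₂.m = 0) :
    ∃ χ : TB M₁ M₂ →ₐ[Qb] R, (∀ k, χ (uB M₁ M₂ k) = u k) ∧ χ (x1B M₁ M₂) = ξ₁ ∧
      χ (x2B M₁ M₂) = ξ₂ := C1_lift M₁ M₂ u ξ₁ ξ₂ h₁ h₂

theorem C1_q1 : e1B M₁ M₂ (Polynomial.C M₁.q) ≠ 0 := by
  rw [e1B_C, map_ne_zero_iff _ (algebraMap_R0_injective M₁ M₂),
    map_ne_zero_iff _ (MvPolynomial.rename_injective _ Sum.inl_injective)]
  exact M₁.q_ne

theorem C1_q2 : e2B M₁ M₂ (Polynomial.C M₂.q) ≠ 0 := by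
  rw [e2B_C, map_ne_zero_iff _ (algebraMap_R0_injective M₁ M₂),
    map_ne_zero_iff _ (MvPolynomial.rename_injective _ Sum.inr_injective)]
  exact M₂.q_ne

theorem C1_evL1 (p : PP Qb r₁) : algebraMap (TB M₁ M₂) (TL M₁ M₂) (e1B M₁ M₂ p) =
    ev2 (fun k => uL M₁ M₂ (.inl k)) (x1L M₁ M₂) p :=
  map_ev2 (IsScalarTower.toAlgHom Qb (TB M₁ M₂) (TL M₁ M₂)) _ _ p

theorem C1_evL2 (p : PP Qb r₂) : algebraMap (TB M₁ M₂) (TL M₁ M₂) (e2B M₁ M₂ p) =
    ev2 (fun k => uL M₁ M₂ (.inr k)) (x2L M₁ M₂) p :=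
  map_ev2 (IsScalarTower.toAlgHom Qb (TB M₁ M₂) (TL M₁ M₂)) _ _ p

theorem isPt1_TL : M₁.IsPt (fun k => uL M₁ M₂ (.inl k)) (x1L M₁ M₂) := by
  refine ⟨by rw [← C1_evL1, e1B_m, map_zero], ?_⟩
  have h := (map_ne_zero_iff _ (C1_injL M₁ M₂)).2 (C1_q1 M₁ M₂)
  rwa [C1_evL1, C1_ev2, Polynomial.eval₂_C] at h

theorem isPt2_TL : M₂.IsPt (fun k => uL M₁ M₂ (.inr k)) (x2L M₁ M₂) := by
  refine ⟨by rw [← C1_evL2, e2B_m, map_zero], ?_⟩
  have h := (map_ne_zero_iff _ (C1_injL M₁ M₂)).2 (C1_q2 M₁ M₂)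
  rwa [C1_evL2, C1_ev2, Polynomial.eval₂_C] at h

/-- the good points above torsion points are dense -/
theorem eq_zero_of_tors {b : TB M₁ M₂}
    (h : ∀ χ : TB M₁ M₂ →ₐ[Qb] Qb, Tors M₁ M₂ χ → GdP M₁ M₂ χ → χ b = 0) : b = 0 := by
  by_contra hb
  refine nrB_ne_zero M₁ M₂ (mul_ne_zero (mul_ne_zero hb (C1_q1 M₁ M₂)) (C1_q2 M₁ M₂)) ?_
  refine MvPolynomial.funext_set (fun _ => {x : Qb | ∃ n : ℕ, 0 < n ∧ x ^ n = 1})
    (fun _ => C1_inf) fun u hu => ?_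
  obtain ⟨ξ₁, h₁⟩ := C1_root M₁ fun k => u (.inl k)
  obtain ⟨ξ₂, h₂⟩ := C1_root M₂ fun k => u (.inr k)
  obtain ⟨χ, hχ, -, -⟩ := exists_lift_TB M₁ M₂ u ξ₁ ξ₂ h₁ h₂
  have h3 := map_dvd χ (dvd_nrB M₁ M₂
    (b * e1B M₁ M₂ (Polynomial.C M₁.q) * e2B M₁ M₂ (Polynomial.C M₂.q)))
  have h4 : χ (b * e1B M₁ M₂ (Polynomial.C M₁.q) * e2B M₁ M₂ (Polynomial.C M₂.q)) = 0 := by
    rw [map_mul, map_mul]
    by_contra e
    exact left_ne_zero_of_mul (left_ne_zero_of_mul e) (h χ (fun k => hχ k ▸ hu k trivial)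
      ⟨right_ne_zero_of_mul (left_ne_zero_of_mul e), right_ne_zero_of_mul e⟩)
  rw [h4, zero_dvd_iff, hom_algebraMap_TB, funext hχ] at h3
  rw [map_zero]
  exact h3

end Pool.Agent.E6b

end

section
open scoped NNReal TensorProduct IntermediateField BigOperators Classical Topology
open Filter

namespace Pool.Agent.E6b
variable {κ F : Type} [Field κ] [IsAlgClosed κ] [CharZero κ] [Field F] [Algebra κ F] [IsFF κ F]
  {o : Place κ F} {Ω : Type} [Field Ω] [IsAlgClosed Ω] [CharZero Ω] [Algebra κ Ω]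

section
variable {K : Type} [Field K] [IsAlgClosed K] [CharZero K] [Algebra κ K] (τ : K →ₐ[κ] Ω)

/-- a class whose theta vector is defined over `K` is defined over `K` -/
theorem mem_range_cl_of_prp {w : Cl o Ω} {x : JJ o × JJ o → K} (h : Prp (Psym w) fun j => τ (x j)) :
    w ∈ Set.range (bc o τ).cl := by
  rcases Nat.eq_zero_or_pos (genus κ F) with hg | hg
  · have := subsingleton_Cl (o := o) (Ω := Ω) hg
    exact ⟨0, Subsingleton.elim _ _⟩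
  obtain ⟨j, -⟩ := exists_j w
  obtain ⟨n, hn⟩ : ∃ n, genus κ F = n + 1 := ⟨genus κ F - 1, by omega⟩
  obtain ⟨E, hE, hE1⟩ := P5_exists_deg (-w) (2 * (genus κ F : ℤ) - 1)
  obtain ⟨E', hE', hE1'⟩ := P5_exists_deg (-w + aj Ω j + aj Ω j) (2 * (genus κ F : ℤ) - 1)
  have hl : ∀ D : DO o Ω, deg D = 2 * (genus κ F : ℤ) - 1 → ell D = n + 1 := by
    intro D hD
    have h1 := rr_large (D := D) (by rw [genus_FO, hD])
    rw [genus_FO, hD, hn] at h1
    push_cast at h1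
    omega
  obtain ⟨Q, hQ, h1, h1'⟩ := P5_steps τ n (hl E hE) (hl E' hE')
  obtain ⟨R, hR, hR1⟩ := exists_eff_of_ell_pos (D := E - (bc o τ).dv Q) (by omega)
  have hRc : clD o Ω R = -w - clD o Ω ((bc o τ).dv Q) := by
    rw [← hR1.clD, map_sub, hE1]
  have hRd : deg R = genus κ F := by
    rw [← hR1.deg, deg_sub, BC.deg_dv, hE, hQ, hn]
    push_cast
    ring
  have hsup : (R.support : Set (PO o Ω)) ⊆ Set.range (bc o τ).plc := by
    intro P hP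
    by_contra hP'
    rcases eq_oo_or_plc P with rfl | ⟨y, rfl⟩
    · exact hP' ⟨_, BC.plc_oo _⟩
    have hy : y ∉ Set.range (bc o τ).pt := by
      rintro ⟨p, rfl⟩
      exact hP' ⟨_, BC.plc_plc _ p⟩
    obtain ⟨p, hp, hp'⟩ := P5_step τ (D := E - (bc o τ).dv Q) (D' := E' - (bc o τ).dv Q)
      (by omega) (by omega)
    obtain ⟨y', hy'⟩ := P5_psi τ h (clD o K (Q + pd (plc p)) - aj K j)
    have hd : ∀ D : DO o Ω, deg D = 2 * (genus κ F : ℤ) - 1 →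
        deg (D - (bc o τ).dv Q - (bc o τ).dv (pd (plc p))) = (genus κ F : ℤ) - 1 := by
      intro D hD
      rw [deg_sub, deg_sub, BC.deg_dv, BC.deg_dv, deg_pd, hD, hQ, hn]
      push_cast
      ring
    have ha : (bc o τ).cl (clD o K (Q + pd (plc p)) - aj K j) =
        clD o Ω ((bc o τ).dv Q) + clD o Ω ((bc o τ).dv (pd (plc p))) - aj Ω j := by
      rw [map_sub, (bc_ok τ).cl_aj, BC.cl_clD, map_add, map_add]
    have e1 : w + (bc o τ).cl (clD o K (Q + pd (plc p)) - aj K j) + aj Ω j =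
        - clD o Ω (E - (bc o τ).dv Q - (bc o τ).dv (pd (plc p))) := by
      rw [ha, map_sub, map_sub, hE1]
      abel
    have e2 : w + (bc o τ).cl (clD o K (Q + pd (plc p)) - aj K j) - aj Ω j =
        - clD o Ω (E' - (bc o τ).dv Q - (bc o τ).dv (pd (plc p))) := by
      rw [ha, map_sub, map_sub, hE1']
      abel
    have hj : Psi (w + (bc o τ).cl (clD o K (Q + pd (plc p)) - aj K j)) j ≠ 0 := by
      rw [Psi_ne_zero_iff, e1, e2, P5_th (hd E hE), P5_th (hd E' hE')]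
      constructor <;> omega
    obtain ⟨O, hO, hred⟩ := exists_spec τ hy p
    have h3 := P5_th_red τ hy' hj O hO
    have e3 : clD o Ω (E - (bc o τ).dv Q - (bc o τ).dv (pd (plc p))) =
        clD o Ω (R - pd (plc (τ.comp p))) := by
      rw [map_sub, hR1.clD, BC.dv_pd, BC.plc_plc, bc_pt, map_sub]
    have e4 : redD O o (R - pd (plc (τ.comp p))) = redD O o (R - pd (plc y)) := by
      rw [map_sub, map_sub, redD_pd, redD_pd, hred]
    rw [e1, e3, map_neg, redCl_clD, e4, P5_th (by rw [deg_redD, deg_sub, hRd, deg_pd])] at h3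
    have h4 : (0 : DO o Ω) ≤ R - pd (plc y) := by
      intro P
      have h5 : 0 ≤ R P := hR P
      have h6 : R (plc y) ≠ 0 := Finsupp.mem_support_iff.mp hP
      have h7 : 0 ≤ R (plc y) := hR _
      unfold pd
      rw [Finsupp.sub_apply, Finsupp.single_apply, Finsupp.zero_apply]
      split_ifs with h8
      · rw [← h8]
        omega
      · omega
    have h5 := redD_mono O h4
    rw [map_zero] at h5
    have h6 := one_le_ell h5
    omega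
  have hR0 : (bc o τ).dv (Finsupp.comapDomain _ R (bc o τ).plc_injective.injOn) = R :=
    Finsupp.mapDomain_comapDomain _ (bc o τ).plc_injective R hsup
  refine ⟨- clD o K (Q + Finsupp.comapDomain _ R (bc o τ).plc_injective.injOn), ?_⟩
  rw [map_neg, BC.cl_clD, map_add, hR0, map_add, hRc]
  abel

end

end Pool.Agent.E6b

end

section
open scoped NNReal TensorProduct IntermediateField BigOperators Classical Topology
open Filter

namespace Pool.Agent.E6b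

/-- independent elements algebraic over a family give an independent subfamily -/
theorem C5_sub {κ Ω J ι : Type} [Field κ] [Field Ω] [Algebra κ Ω] [Fintype ι] {n : ℕ}
    (hn : Fintype.card ι = n) (v : J → Ω) {u : ι → Ω} (hu : AlgebraicIndependent κ u)
    (h : ∀ k, IsAlgebraic (IntermediateField.adjoin κ (Set.range v)) (u k)) :
    ∃ j : Fin n → J, AlgebraicIndependent κ fun i => v (j i) := by
  have h1 : Set.range u ⊆ (AlgebraicIndependent.matroid κ Ω).closure (Set.range v) := by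
    rintro _ ⟨i, rfl⟩
    rw [AlgebraicIndependent.matroid_closure_eq, SetLike.mem_coe, Subalgebra.mem_algebraicClosure]
    exact IntermediateField.isAlgebraic_adjoin_iff.1 (h i)
  have h2 : (AlgebraicIndependent.matroid κ Ω).Indep (Set.range u) :=
    AlgebraicIndependent.matroid_indep_iff.2 hu.to_subtype_range
  have h3 := h2.encard_le_eRk_of_subset h1
  obtain ⟨I, hI⟩ := (AlgebraicIndependent.matroid κ Ω).exists_isBasis (Set.range v)
  have h6 : (Set.range u).encard = (n : ℕ∞) := by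
    rw [← Set.image_univ, hu.injective.encard_image, ← hn]
    simp
  rw [Matroid.eRk_closure_eq, ← hI.encard_eq_eRk, h6] at h3
  obtain ⟨T, hTI, hT⟩ := Set.exists_subset_encard_eq h3
  have hfin : T.Finite := Set.finite_of_encard_eq_coe hT
  have : Fintype T := hfin.fintype
  have hc : Fintype.card T = n := by
    rw [Set.encard_eq_coe_toFinset_card, Set.toFinset_card] at hT
    exact_mod_cast hT
  let e : Fin n ≃ T := (Fintype.equivFinOfCardEq hc).symm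
  have hind : AlgebraicIndependent κ fun x : T => (x : Ω) :=
    AlgebraicIndependent.matroid_indep_iff.1 (hI.indep.subset hTI)
  choose j hj using fun i : Fin n => hI.subset (hTI (e i).2)
  refine ⟨j, ?_⟩
  have : (fun i => v (j i)) = (fun x : T => (x : Ω)) ∘ e := funext hj
  rw [this]
  exact hind.comp e e.injective
variable {F : Type} [Field F] [Algebra Qb F] [IsFF Qb F] {o : Place Qb F} {d r₁ r₂ : ℕ}

theorem C5_red {B Ω : Type} [CommRing B] [Algebra Qb B] [Field Ω] [IsAlgClosed Ω] [CharZero Ω]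
    [Algebra Qb Ω] {r : ℕ} (M : Mdl Qb r (IX o d)) (φ : B →ₐ[Qb] Ω) (χ : B →ₐ[Qb] Qb)
    (u : Fin r → B) (ξ : B) {O : VS Qb Ω}
    (hO : ∀ b, φ b ∈ O.1 ∧ rs O (φ b) = algebraMap Qb (RF O) (χ b))
    (hq : χ (ev2 u ξ (Polynomial.C M.q)) ≠ 0) {z : Fin d → Pt o Ω}
    (hz : M.Crd (fun k => φ (u k)) (φ ξ) z) :
    ∃ h : ∀ a, Intg O (z a), (∃ y, M.Crd (fun k => χ (u k)) (χ ξ) y) ∧
      ∀ y, M.Crd (fun k => χ (u k)) (χ ξ) y →
        ∀ a, redp O (z a) (h a) = (bc o (Algebra.ofId Qb (RF O))).pt (y a) := by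
  have hv := C5_val_red M φ χ u ξ hO hq
  have h : ∀ a, Intg O (z a) := fun a => by
    have h1 : genus Qb F + 1 < MM o := by unfold MM; omega
    rw [intg_iff]
    have h2 := hz a ⟨_, h1⟩
    exact h2 ▸ (hv _).1
  have he : ∀ a (i : Fin (MM o)), redp O (z a) (h a) (eb o i) =
      algebraMap Qb (RF O) (M.val (fun k => χ (u k)) (χ ξ) (.inl (a, i))) := fun a i => by
    rw [redp_apply, hz a i, (hv _).2]
  refine ⟨h, ?_, fun y hy a => pt_ext o (funext fun i => ?_)⟩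
  · choose y hy using fun a => ((bc o (Algebra.ofId Qb (RF O))).mem_range_pt
      (y := redp O (z a) (h a))).2 fun i => ⟨_, by rw [bc_τ]; exact (he a i).symm⟩
    refine ⟨y, fun a i => (algebraMap Qb (RF O)).injective ?_⟩
    rw [← he, ← hy a, bc_pt]
    rfl
  · unfold cd
    rw [he, bc_pt, ← hy a i]
    rfl

theorem C5_spec {Ω : Type} [Field Ω] [IsAlgClosed Ω] [CharZero Ω] [Algebra Qb Ω] {O : VS Qb Ω}
    {w : Cl o Ω} {w' : Cl o Qb} (h : redCl O o w = (bc o (Algebra.ofId Qb (RF O))).cl w')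
    {x : JJ o × JJ o → Ω} (hx : Prp x (Psym w)) (h1 : vs O.1 x = 1) :
    Prp (fun j => rs O (x j)) fun j => algebraMap Qb (RF O) (Psym w' j) := by
  have h2 := Psym_red O w hx h1
  rw [h] at h2
  have h3 := (bc_ok (o := o) (Algebra.ofId Qb (RF O))).Psym w'
  rw [bc_τ] at h3
  exact h2.trans h3

theorem C5_pos {Ω : Type} [Field Ω] [IsAlgClosed Ω] [CharZero Ω] [Algebra Qb Ω]
    {z₁ z₂ : Fin d → Pt o Ω} (hi : Function.Injective (Sum.elim z₁ z₂))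
    (hl : ell (dz (Sum.elim z₁ z₂)) = 1) {x : JJ o × JJ o → Ω}
    (hx : Prp (Psym (clz z₁ - clz z₂)) x) (a : Fin d ⊕ Fin d) (f : AA o) :
    IsAlgebraic (IntermediateField.adjoin Qb (Set.range x)) (Sum.elim z₁ z₂ a f) := by
  obtain ⟨K, hK, hmem⟩ := exists_acl (κ := Qb) (Set.range x)
  have : CharZero K := charZero_of_injective_algebraMap (algebraMap Qb K).injective
  have hxK : ∀ j, x j ∈ K := fun j => (hmem _).2 (isAlgebraic_algebraMap
    (⟨x j, IntermediateField.subset_adjoin _ _ ⟨j, rfl⟩⟩ :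
      IntermediateField.adjoin Qb (Set.range x)))
  have h1 := mem_range_cl_of_prp K.val (x := fun j => ⟨x j, hxK j⟩) hx
  have h2 : Sum.elim z₁ z₂ a ∈ Set.range (bc o K.val).pt := by
    by_contra h
    have h3 := rig K.val (Sum.elim z₁ z₂) hi (Sum.elim (fun _ => 1) fun _ => -1)
      (fun a => by cases a <;> simp) (by
        rw [Fintype.sum_sum_type]
        simpa [clz_eq_sum, sub_eq_add_neg] using h1) ⟨a, h⟩
    omega
  obtain ⟨y, hy⟩ := h2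
  rw [← hmem, ← hy, bc_pt]
  exact (y f).2

/-- generic families of points on the product of two models -/
structure Gen (M₁ : Mdl Qb r₁ (IX o d)) (M₂ : Mdl Qb r₂ (IX o d)) where
  z₁ : Fin d → Pt o (TL M₁ M₂)
  z₂ : Fin d → Pt o (TL M₁ M₂)
  crd₁ : M₁.Crd (fun k => uL M₁ M₂ (.inl k)) (x1L M₁ M₂) z₁
  crd₂ : M₂.Crd (fun k => uL M₁ M₂ (.inr k)) (x2L M₁ M₂) z₂
  prp₁ : Prp (Psym (clz z₁)) fun j => M₁.val (fun k => uL M₁ M₂ (.inl k)) (x1L M₁ M₂) (.inr j)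
  prp₂ : Prp (Psym (clz z₂)) fun j => M₂.val (fun k => uL M₁ M₂ (.inr k)) (x2L M₁ M₂) (.inr j)
  one₁ : ∃ j, M₁.val (fun k => uL M₁ M₂ (.inl k)) (x1L M₁ M₂) (.inr j) = 1
  one₂ : ∃ j, M₂.val (fun k => uL M₁ M₂ (.inr k)) (x2L M₁ M₂) (.inr j) = 1
  u₁ : ∀ k, ∃ (a : Fin d) (i : Fin (MM o)), uL M₁ M₂ (.inl k) = z₁ a (eb o i)
  u₂ : ∀ k, ∃ (a : Fin d) (i : Fin (MM o)), uL M₁ M₂ (.inr k) = z₂ a (eb o i)
variable {M₁ : Mdl Qb r₁ (IX o d)} {M₂ : Mdl Qb r₂ (IX o d)}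
variable (G : Gen M₁ M₂)

/-- the families of points above a point `χ` of the product -/
def Above (M₁ : Mdl Qb r₁ (IX o d)) (M₂ : Mdl Qb r₂ (IX o d)) (χ : TB M₁ M₂ →ₐ[Qb] Qb)
    (y₁ y₂ : Fin d → Pt o Qb) : Prop :=
  M₁.Crd (fun k => χ (uB M₁ M₂ (.inl k))) (χ (x1B M₁ M₂)) y₁ ∧
    M₂.Crd (fun k => χ (uB M₁ M₂ (.inr k))) (χ (x2B M₁ M₂)) y₂

include G in
theorem Gen.exists_above {χ : TB M₁ M₂ →ₐ[Qb] Qb} (hχ : GdP M₁ M₂ χ) :
    ∃ y₁ y₂, Above M₁ M₂ χ y₁ y₂ := by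
  obtain ⟨O, hO⟩ := exists_dom M₁ M₂ χ
  obtain ⟨-, ⟨y₁, h₁⟩, -⟩ := C5_red M₁ (C5_i M₁ M₂) χ (fun k => uB M₁ M₂ (.inl k)) (x1B M₁ M₂)
    hO hχ.1 G.crd₁
  obtain ⟨-, ⟨y₂, h₂⟩, -⟩ := C5_red M₂ (C5_i M₁ M₂) χ (fun k => uB M₁ M₂ (.inr k)) (x2B M₁ M₂)
    hO hχ.2 G.crd₂
  exact ⟨y₁, y₂, h₁, h₂⟩

/-- specialisation of theta vectors -/
theorem Gen.spec {χ : TB M₁ M₂ →ₐ[Qb] Qb} (hχ : GdP M₁ M₂ χ) {y₁ y₂ : Fin d → Pt o Qb}
    (hy : Above M₁ M₂ χ y₁ y₂) {O : VS Qb (TL M₁ M₂)} (hO : Dom M₁ M₂ O χ) (s t : ℤ)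
    {x : JJ o × JJ o → TL M₁ M₂} (hx : Prp x (Psym (s • clz G.z₁ + t • clz G.z₂)))
    (h1 : vs O.1 x = 1) :
    Prp (fun j => rs O (x j)) fun j => algebraMap Qb (RF O) (Psym (s • clz y₁ + t • clz y₂) j) := by
  obtain ⟨i₁, -, h₁⟩ := C5_red M₁ (C5_i M₁ M₂) χ (fun k => uB M₁ M₂ (.inl k)) (x1B M₁ M₂)
    hO hχ.1 G.crd₁
  obtain ⟨i₂, -, h₂⟩ := C5_red M₂ (C5_i M₁ M₂) χ (fun k => uB M₁ M₂ (.inr k)) (x2B M₁ M₂)
    hO hχ.2 G.crd₂
  refine C5_spec ?_ hx h1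
  simp only [map_add, map_zsmul]
  rw [redCl_clz O i₁, redCl_clz O i₂, BC.cl_clz, BC.cl_clz, funext (h₁ y₁ hy.1),
    funext (h₂ y₂ hy.2)]

/-- the difference map is generically finite -/
theorem Gen.pos (hi : Function.Injective (Sum.elim G.z₁ G.z₂))
    (hl : ell (dz (Sum.elim G.z₁ G.z₂)) = 1) {x : JJ o × JJ o → TK M₁ M₂}
    (hx : Prp (Psym (clz G.z₁ - clz G.z₂)) fun j => algebraMap _ (TL M₁ M₂) (x j)) :
    ∃ (j₀ : JJ o × JJ o) (j : Fin (r₁ + r₂) → JJ o × JJ o), x j₀ ≠ 0 ∧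
      AlgebraicIndependent Qb fun i => x (j i) / x j₀ := by
  obtain ⟨j₀, hj₀⟩ := Function.ne_iff.1 (hx.symm.ne_zero (Psym_ne_zero _))
  have h0 : x j₀ ≠ 0 := fun e => hj₀ (by rw [e, map_zero]; rfl)
  have h1 : Prp (Psym (clz G.z₁ - clz G.z₂))
      fun j => algebraMap _ (TL M₁ M₂) (x j / x j₀) :=
    hx.trans ⟨_, hj₀, fun j => by rw [← map_mul, mul_div_cancel₀ _ h0]⟩
  have h2 := C5_pos hi hl h1
  obtain ⟨j, hj⟩ := C5_sub (n := r₁ + r₂) (by simp)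
    (fun j => algebraMap _ (TL M₁ M₂) (x j / x j₀)) (algebraicIndependent_uL M₁ M₂) (by
      rintro (k | k)
      · obtain ⟨a, i, e⟩ := G.u₁ k
        rw [e]
        exact h2 (.inl a) _
      · obtain ⟨a, i, e⟩ := G.u₂ k
        rw [e]
        exact h2 (.inr a) _)
  exact ⟨j₀, j, h0, AlgebraicIndependent.of_comp
    (IsScalarTower.toAlgHom Qb (TK M₁ M₂) (TL M₁ M₂)) hj⟩

end Pool.Agent.E6b

end

section
open scoped NNReal TensorProduct IntermediateField BigOperators Classical Topology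
open Filter

namespace Pool.Agent.E6b

section
variable {κ Ω : Type} [Field κ] [Field Ω] [Algebra κ Ω]

theorem C6_ev2_eq {r : ℕ} {R : Type} [CommRing R] [Algebra κ R] (u : Fin r → R) (ξ : R)
    (p : PP κ r) : ev2 u ξ p = p.eval₂ (MvPolynomial.aeval u).toRingHom ξ := rfl

theorem C6_ev2_C {r : ℕ} {R : Type} [CommRing R] [Algebra κ R] (u : Fin r → R) (ξ : R)
    (p : MvPolynomial (Fin r) κ) : ev2 u ξ (Polynomial.C p) = MvPolynomial.aeval u p := by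
  rw [C6_ev2_eq, Polynomial.eval₂_C]; rfl

theorem C6_ev2_X {r : ℕ} {R : Type} [CommRing R] [Algebra κ R] (u : Fin r → R) (ξ : R) :
    ev2 u ξ (Polynomial.X : PP κ r) = ξ := by
  rw [C6_ev2_eq, Polynomial.eval₂_X]

theorem C6_ev2_mem {r Δ : ℕ} (u : Fin r → Ω) (ξ : Ω) {m : PP κ r} (hm : m.Monic) (h : CxP Δ m)
    (h0 : ev2 u ξ m = 0) {p : PP κ r} (hp : CxP Δ p) :
    ev2 u ξ p ∈ TT ((∏ k, pen κ (u k)) ^ (Δ + Δ * Δ)) := by
  have hξ : ξ ∈ TT ((∏ k, pen κ (u k)) ^ Δ) := root_mem_TT u m hm h.2 h0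
  rw [C6_ev2_eq, Polynomial.eval₂_eq_sum_range]
  refine Submodule.sum_mem _ fun i hi => ?_
  have hi' : i ≤ Δ := le_trans (Nat.lt_succ_iff.mp (Finset.mem_range.mp hi)) hp.1
  have h1 := mul_mem_TT (aeval_mem_TT u (p.coeff i) (hp.2 i)) (V6_pow_mem hξ i)
  rw [← pow_mul, ← pow_add] at h1
  exact V2_mono u (Nat.add_le_add_left (Nat.mul_le_mul_left _ hi') _) h1

/-- the conductor for four families, only the first two being raised to a variable power -/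
theorem C6_cond [CharZero κ] {A B C D : Type} [Fintype A] [Fintype B] [Fintype C] [Fintype D]
    (a : A → Ω) (b : B → Ω) (c : C → Ω) (e : D → Ω) (ha : ∃ j, a j = 1) (hb : ∃ j, b j = 1)
    (hc : ∃ j, c j = 1) (he : ∃ j, e j = 1)
    (hgen : IntermediateField.adjoin κ (Set.range c ∪ Set.range e) = ⊤) :
    ∃ (γ : Ω) (n : ℕ), γ ≠ 0 ∧ ∀ (p q : ℕ), ∀ G ∈ TT (gen κ a ^ p * gen κ b ^ q),
      γ * G ∈ Submodule.span κ (Set.range
        fun μ : ((Fin (p + n) → A) × (Fin n → C)) × ((Fin (q + n) → B) × (Fin n → D)) =>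
          ((∏ i, a (μ.1.1 i)) * ∏ i, c (μ.1.2 i)) * ((∏ i, b (μ.2.1 i)) * ∏ i, e (μ.2.2 i))) := by
  obtain ⟨ja, hja⟩ := ha
  obtain ⟨jb, hjb⟩ := hb
  obtain ⟨jc, hjc⟩ := hc
  obtain ⟨je, hje⟩ := he
  have s1 : Function.Surjective fun t : A × B × C × D => t.1 := fun x => ⟨(x, jb, jc, je), rfl⟩
  have s2 : Function.Surjective fun t : A × B × C × D => t.2.1 := fun x => ⟨(ja, x, jc, je), rfl⟩
  have s3 : Function.Surjective fun t : A × B × C × D => t.2.2.1 := fun x => ⟨(ja, jb, x, je), rfl⟩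
  have s4 : Function.Surjective fun t : A × B × C × D => t.2.2.2 := fun x => ⟨(ja, jb, jc, x), rfl⟩
  obtain ⟨γ, n, hγ, H⟩ := exists_conductor (κ := κ) (I := Fin 4) (ι := fun _ => A × B × C × D)
    ![a ∘ fun t => t.1, b ∘ fun t => t.2.1, c ∘ fun t => t.2.2.1, e ∘ fun t => t.2.2.2]
    (by
      intro i
      fin_cases i
      · exact ⟨(ja, jb, jc, je), hja⟩
      · exact ⟨(ja, jb, jc, je), hjb⟩
      · exact ⟨(ja, jb, jc, je), hjc⟩
      · exact ⟨(ja, jb, jc, je), hje⟩)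
    (by
      rw [eq_top_iff, ← hgen]
      refine IntermediateField.adjoin.mono _ _ _ (Set.union_subset ?_ ?_)
      · refine Set.subset_iUnion_of_subset 2 ?_
        exact (s3.range_comp c).ge
      · refine Set.subset_iUnion_of_subset 3 ?_
        exact (s4.range_comp e).ge)
  refine ⟨γ, n, hγ, fun p q G hG => ?_⟩
  have ha0 : a ≠ 0 := fun h => by simp [h] at hja
  have hb0 : b ≠ 0 := fun h => by simp [h] at hjb
  have h1 := H ![p, q, 0, 0] G (by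
    rw [Fin.prod_univ_four]
    simp only [Matrix.cons_val_zero, Matrix.cons_val_one, Matrix.cons_val, pow_zero, mul_one]
    exact (((C6_gen_comp ha0 s1).pow p).mul ((C6_gen_comp hb0 s2).pow q)).TT_le hG)
  rw [Fin.prod_univ_four] at h1
  simp only [Matrix.cons_val_zero, Matrix.cons_val_one, Matrix.cons_val, zero_add] at h1
  rw [s1.range_comp, s2.range_comp, s3.range_comp, s4.range_comp, mul_assoc, mul_mul_mul_comm] at h1
  refine C6_span_mul (fun μ : (Fin (p + n) → A) × (Fin n → C) => (∏ i, a (μ.1 i)) * ∏ i, c (μ.2 i))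
    (fun μ : (Fin (q + n) → B) × (Fin n → D) => (∏ i, b (μ.1 i)) * ∏ i, e (μ.2 i)) ?_
  refine SetLike.le_def.mp (mul_le_mul' ?_ ?_) h1
  · exact le_trans (mul_le_mul' (C6_span_pow a _) (C6_span_pow c _)) (C6_span_mul _ _)
  · exact le_trans (mul_le_mul' (C6_span_pow b _) (C6_span_pow e _)) (C6_span_mul _ _)

end

end Pool.Agent.E6b

end

section
open scoped NNReal TensorProduct IntermediateField BigOperators Classical Topology
open Filter

namespace Pool.Agent.E6b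
variable {F : Type} [Field F] [Algebra Qb F] [IsFF Qb F] {o : Place Qb F} {d : ℕ}

section
variable {r₁ r₂ : ℕ} {ι : Type} (M₁ : Mdl Qb r₁ ι) (M₂ : Mdl Qb r₂ ι)

theorem C6_e1L (p : PP Qb r₁) :
    algebraMap (TK M₁ M₂) (TL M₁ M₂) (algebraMap _ (TK M₁ M₂) (e1B M₁ M₂ p)) =
      ev2 (fun k => uL M₁ M₂ (.inl k)) (x1L M₁ M₂) p := by
  rw [C6_KL]
  exact map_ev2 (IsScalarTower.toAlgHom Qb (TB M₁ M₂) (TL M₁ M₂)) _ _ p

theorem C6_e2L (p : PP Qb r₂) :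
    algebraMap (TK M₁ M₂) (TL M₁ M₂) (algebraMap _ (TK M₁ M₂) (e2B M₁ M₂ p)) =
      ev2 (fun k => uL M₁ M₂ (.inr k)) (x2L M₁ M₂) p := by
  rw [C6_KL]
  exact map_ev2 (IsScalarTower.toAlgHom Qb (TB M₁ M₂) (TL M₁ M₂)) _ _ p

theorem C6_q1_ne : algebraMap _ (TK M₁ M₂) (e1B M₁ M₂ (Polynomial.C M₁.q)) ≠ 0 := by
  intro h
  have h1 := C6_e1L M₁ M₂ (Polynomial.C M₁.q)
  rw [h, map_zero, C6_ev2_C] at h1
  exact (isPt1_TL M₁ M₂).2 h1.symm

theorem C6_q2_ne : algebraMap _ (TK M₁ M₂) (e2B M₁ M₂ (Polynomial.C M₂.q)) ≠ 0 := by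
  intro h
  have h1 := C6_e2L M₁ M₂ (Polynomial.C M₂.q)
  rw [h, map_zero, C6_ev2_C] at h1
  exact (isPt2_TL M₁ M₂).2 h1.symm

end

theorem C6_x2 {r₁ r₂ : ℕ} {I J : Type} (M₁ : Mdl Qb r₁ (I ⊕ J)) (M₂ : Mdl Qb r₂ (I ⊕ J)) (j : J) :
    M₂.val (fun k => uL M₁ M₂ (.inr k)) (x2L M₁ M₂) (.inr j) =
      algebraMap (TK M₁ M₂) (TL M₁ M₂) (xK2 M₁ M₂ j) := by
  rw [xK2, map_div₀, C6_e2L, C6_e2L, C6_ev2_C, Mdl.val]

end Pool.Agent.E6b

end

section
open scoped NNReal TensorProduct IntermediateField BigOperators Classical Topology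
open Filter

namespace Pool.Agent.E6b
open MvPowerSeries

theorem C3_SB_pow (σ : Type) [Fintype σ] (k n : ℕ) : ∃ k' : ℕ, ∀ (S : Finset Qb)
    (W : MvPowerSeries σ Qb), 1 ∈ S → SB S k W → ∀ i ≤ n, SB S k' (W ^ i) := by
  induction n with
  | zero =>
    refine ⟨1, fun S W h1 _ i hi => ?_⟩
    rw [Nat.le_zero.1 hi, pow_zero]
    exact C3_SB_one h1
  | succ n ih =>
    obtain ⟨k', hk'⟩ := ih
    refine ⟨2 * (k' + k) + Fintype.card σ + 1, fun S W h1 hW i hi => ?_⟩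
    rcases Nat.lt_or_ge i (n + 1) with h | h
    · exact (hk' S W h1 hW i (by omega)).mono h1 (Finset.Subset.refl _) (by omega)
    · rw [le_antisymm hi h, pow_succ]
      exact SB.mul h1 ((hk' S W h1 hW n le_rfl).mono h1 (Finset.Subset.refl _) (by omega))
        (hW.mono h1 (Finset.Subset.refl _) (by omega))

theorem C3_SB_sum {σ : Type} [Fintype σ] {S : Finset Qb} (h1 : 1 ∈ S) {k : ℕ} (n : ℕ)
    (f : ℕ → MvPowerSeries σ Qb) (hf : ∀ i < n, SB S k (f i)) :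
    SB S (k + n) (∑ i ∈ Finset.range n, f i) := by
  induction n with
  | zero =>
    intro p v _ m
    rw [Finset.sum_range_zero, map_zero, map_zero]
    exact pow_nonneg (zero_le_one.trans (TB1_one_le p v h1)) _
  | succ n ih =>
    rw [Finset.sum_range_succ]
    exact SB.add h1 (ih fun i hi => hf i (by omega))
      ((hf n (by omega)).mono h1 (Finset.Subset.refl _) (Nat.le_add_right _ _))

end Pool.Agent.E6b

end

section
open scoped NNReal TensorProduct IntermediateField BigOperators Classical Topology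
open Filter

namespace Pool.Agent.E6b
variable {F : Type} [Field F] [Algebra Qb F] [IsFF Qb F] {o : Place Qb F} {d r₁ r₂ : ℕ}
  {M₁ : Mdl Qb r₁ (IX o d)} {M₂ : Mdl Qb r₂ (IX o d)}
variable (G : Gen M₁ M₂) {s t : ℤ} {n : JJ o × JJ o → TB M₁ M₂}

theorem C7_n_ne (hn : Prp (Psym (s • clz G.z₁ + t • clz G.z₂))
    fun j => algebraMap _ (TL M₁ M₂) (n j)) :
    (fun j => algebraMap _ (TL M₁ M₂) (n j)) ≠ 0 := hn.symm.ne_zero (Psym_ne_zero _)

/-- identities specialise -/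
theorem C7_spec (hn : Prp (Psym (s • clz G.z₁ + t • clz G.z₂))
      fun j => algebraMap _ (TL M₁ M₂) (n j)) {χ : TB M₁ M₂ →ₐ[Qb] Qb} (hG : GdP M₁ M₂ χ)
    {y₁ y₂ : Fin d → Pt o Qb} (hy : Above M₁ M₂ χ y₁ y₂) {b b' u u' : TB M₁ M₂} {a : ℕ}
    {j j' : JJ o × JJ o} (h : b * (n j' ^ a * u') = b' * (n j ^ a * u)) :
    χ b * (Psym (s • clz y₁ + t • clz y₂) j' ^ a * χ u') =
      χ b' * (Psym (s • clz y₁ + t • clz y₂) j ^ a * χ u) := by
  obtain ⟨O, hO⟩ := exists_dom M₁ M₂ χ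
  have h0 := C7_n_ne G hn
  have : Nonempty (JJ o × JJ o) := ⟨j⟩
  obtain ⟨j₁, hj₁⟩ := exists_vs_eq O.1 fun j => algebraMap _ (TL M₁ M₂) (n j)
  have h1 := vs_ne_zero O.1 h0
  have h2 : algebraMap _ (TL M₁ M₂) (n j₁) ≠ 0 := fun h => h1 (by rw [← hj₁, h, map_zero])
  obtain ⟨x, hx⟩ : ∃ x : JJ o × JJ o → TL M₁ M₂, x = fun j =>
    (algebraMap _ (TL M₁ M₂) (n j₁))⁻¹ * algebraMap _ (TL M₁ M₂) (n j) := ⟨_, rfl⟩
  have h3 : vs O.1 x = 1 := by
    rw [hx, vs_smul, map_inv₀, hj₁, inv_mul_cancel₀ h1]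
  have h4 : ∀ j, x j ∈ O.1 := fun j =>
    (O.1.valuation_le_one_iff _).1 ((le_vs O.1 x j).trans h3.le)
  have h5 : Prp x fun j => algebraMap _ (TL M₁ M₂) (n j) :=
    ⟨_, inv_ne_zero h2, fun j => congrFun hx j⟩
  obtain ⟨μ, hμ, h6⟩ := G.spec hG hy hO s t (h5.trans hn.symm) h3
  have h7 : algebraMap _ (TL M₁ M₂) b * (x j' ^ a * algebraMap _ (TL M₁ M₂) u') =
      algebraMap _ (TL M₁ M₂) b' * (x j ^ a * algebraMap _ (TL M₁ M₂) u) := by
    have h8 := congrArg (algebraMap _ (TL M₁ M₂)) h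
    simp only [map_mul, map_pow] at h8
    simp only [hx, mul_pow]
    linear_combination (algebraMap _ (TL M₁ M₂) (n j₁))⁻¹ ^ a * h8
  have h9 : ∀ (b u : TB M₁ M₂) (j : JJ o × JJ o),
      rs O (algebraMap _ (TL M₁ M₂) b * (x j ^ a * algebraMap _ (TL M₁ M₂) u)) =
        μ ^ a * algebraMap Qb (RF O) (χ b * (Psym (s • clz y₁ + t • clz y₂) j ^ a * χ u)) := by
    intro b u j
    rw [rs_mul O (hO b).1 (mul_mem (pow_mem (h4 j) a) (hO u).1),
      rs_mul O (pow_mem (h4 j) a) (hO u).1, C7_rs_pow O (h4 j), (hO b).2, (hO u).2]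
    have h10 : rs O (x j) = μ * algebraMap Qb (RF O) (Psym (s • clz y₁ + t • clz y₂) j) := h6 j
    rw [h10, map_mul, map_mul, map_pow, mul_pow]
    ring
  have h11 := congrArg (rs O) h7
  rw [h9, h9] at h11
  exact (algebraMap Qb (RF O)).injective (mul_left_cancel₀ (pow_ne_zero a hμ) h11)

/-- identities at all torsion points hold generically -/
theorem C7_gen (hn : Prp (Psym (s • clz G.z₁ + t • clz G.z₂))
      fun j => algebraMap _ (TL M₁ M₂) (n j)) {b b' u u' : TB M₁ M₂} {a : ℕ}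
    {j j' : JJ o × JJ o} (h : ∀ χ : TB M₁ M₂ →ₐ[Qb] Qb, Tors M₁ M₂ χ → GdP M₁ M₂ χ →
      ∀ y₁ y₂, Above M₁ M₂ χ y₁ y₂ → χ b * (Psym (s • clz y₁ + t • clz y₂) j' ^ a * χ u') =
        χ b' * (Psym (s • clz y₁ + t • clz y₂) j ^ a * χ u)) :
    b * (n j' ^ a * u') = b' * (n j ^ a * u) := by
  obtain ⟨j₁, hj₁⟩ := Function.ne_iff.1 (C7_n_ne G hn)
  have h1 : n j₁ ≠ 0 := fun h => hj₁ (by rw [h, map_zero]; rfl)
  have h2 : (b * (n j' ^ a * u') - b' * (n j ^ a * u)) * n j₁ = 0 := by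
    refine eq_zero_of_tors M₁ M₂ fun χ hT hG => ?_
    rw [map_mul]
    by_cases h3 : χ (n j₁) = 0
    · rw [h3, mul_zero]
    obtain ⟨y₁, y₂, hy⟩ := G.exists_above hG
    obtain ⟨O, hO⟩ := exists_dom M₁ M₂ χ
    have h4 : vs O.1 (fun j => algebraMap _ (TL M₁ M₂) (n j)) = 1 := by
      refine le_antisymm (vs_le O.1 fun j => (O.1.valuation_le_one_iff _).2 (hO _).1) ?_
      refine le_trans (not_lt.1 fun h5 => h3 ?_) (le_vs O.1 _ j₁)
      have h6 := (rs_eq_zero_iff O (hO (n j₁)).1).2 h5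
      rw [(hO _).2] at h6
      exact (map_eq_zero _).1 h6
    have h7 := G.spec hG hy hO s t hn.symm h4
    simp only [(hO _).2] at h7
    obtain ⟨μ, -, h8⟩ := h7.of_map (algebraMap Qb (RF O))
    have h9 := h χ hT hG y₁ y₂ hy
    simp only [map_sub, map_mul, map_pow, h8, mul_pow]
    linear_combination μ ^ a * (μ * Psym (s • clz y₁ + t • clz y₂) j₁) * h9
  exact sub_eq_zero.1 ((mul_eq_zero.1 h2).resolve_right h1)

end Pool.Agent.E6b

end

section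
open scoped NNReal TensorProduct IntermediateField BigOperators Classical Topology
open Filter

namespace Pool.Agent.E6b

theorem C2_ok_xp {r D : ℕ} {S : Finset Qb} (h1 : (1 : Qb) ∈ S) (o : Option (Option (Fin r))) :
    C2_Ok (D + 1) S (xp Qb r o) := by
  have hs : ({1} : Finset Qb) ⊆ S := Finset.singleton_subset_iff.2 h1
  have hz : (0 : MvPolynomial (Fin r) Qb).totalDegree ≤ D + 1 ∧
      (0 : MvPolynomial (Fin r) Qb).coeffs ⊆ S := ⟨by simp, by simp⟩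
  have ho : (1 : MvPolynomial (Fin r) Qb).totalDegree ≤ D + 1 ∧
      (1 : MvPolynomial (Fin r) Qb).coeffs ⊆ S := ⟨by simp, MvPolynomial.coeffs_one.trans hs⟩
  rcases o with _ | _ | k
  · refine ⟨by simp [xp], fun i => ?_⟩
    rw [xp, Polynomial.coeff_one]
    split_ifs
    · exact ho
    · exact hz
  · refine ⟨by simp [xp], fun i => ?_⟩
    rw [xp, Polynomial.coeff_X]
    split_ifs
    · exact ho
    · exact hz
  · refine ⟨by simp [xp], fun i => ?_⟩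
    rw [xp, Polynomial.coeff_C]
    split_ifs
    · refine ⟨by simp, ?_⟩
      rw [← mul_one (MvPolynomial.X k), MvPolynomial.coeffs_X_mul]
      exact ho.2
    · exact hz

section
variable {r : ℕ} {I J : Type} [Fintype I] [Fintype J] (M : Mdl Qb r (I ⊕ J))

theorem C2_one_mem : (1 : Qb) ∈ M.S := Finset.mem_insert_self _ _

theorem C2_cfs_m : cfs M.m ⊆ M.S := fun _ ha => by
  simp only [Mdl.S, Finset.mem_insert, Finset.mem_union]
  exact Or.inr (Or.inl (Or.inl (Or.inl ha)))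

theorem C2_cfs_P (l : I ⊕ J) : cfs (M.P l) ⊆ M.S := fun _ ha => by
  simp only [Mdl.S, Finset.mem_insert, Finset.mem_union, Finset.mem_biUnion]
  exact Or.inr (Or.inr ⟨l, Finset.mem_univ _, ha⟩)

theorem C2_mon {Δ A c : ℕ} (hM : M.Cx Δ) (μ : Mon J r A c) :
    ∃ q : Fin A ⊕ Fin c → PP Qb r, (∀ i, C2_Ok (Δ + 1) M.S (q i)) ∧ M.mon μ = ∏ i, q i := by
  refine ⟨Sum.elim (fun i => M.P (.inr (μ.1 i))) fun i => xp Qb r (μ.2 i), ?_, ?_⟩
  · rintro (i | i)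
    · exact C2_ok_of (hM.2.2.1 _) (C2_cfs_P M _)
    · exact C2_ok_xp (C2_one_mem M) _
  · rw [Fintype.prod_sum_type]
    rfl

end

section
variable {r₁ r₂ : ℕ} {ι : Type} (M₁ : Mdl Qb r₁ ι) (M₂ : Mdl Qb r₂ ι)
  (b : Module.Basis (Fin M₁.m.natDegree × Fin M₂.m.natDegree) (R0 r₁ r₂) (TB M₁ M₂))
  (hb : ∀ i, b i = x1B M₁ M₂ ^ (i.1 : ℕ) * x2B M₁ M₂ ^ (i.2 : ℕ))
include hb

theorem C2_comp1 (i j : Fin M₁.m.natDegree × Fin M₂.m.natDegree) :
    Algebra.leftMulMatrix b ((e1B M₁ M₂).toRingHom Polynomial.X) i j = 0 ∨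
    Algebra.leftMulMatrix b ((e1B M₁ M₂).toRingHom Polynomial.X) i j = 1 ∨
    ∃ k, Algebra.leftMulMatrix b ((e1B M₁ M₂).toRingHom Polynomial.X) i j =
      -MvPolynomial.rename Sum.inl (M₁.m.coeff k) := by
  obtain ⟨g, hg, e⟩ := C2_shift (R' := R0 r₁ r₂) (fun q => MvPolynomial.rename Sum.inl q)
    (e1B M₁ M₂).toRingHom (e1B_C M₁ M₂) M₁.monic (e1B_m M₁ M₂) j.1
  have hx : (e1B M₁ M₂).toRingHom Polynomial.X = x1B M₁ M₂ := C2_ev2_X _ _
  rw [hx] at e ⊢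
  have e2 : x1B M₁ M₂ * b j = ∑ k, g k • b (k, j.2) := by
    rw [hb, ← mul_assoc, e, Finset.sum_mul]
    refine Finset.sum_congr rfl fun k _ => ?_
    rw [hb, smul_mul_assoc]
  rw [Algebra.leftMulMatrix_eq_repr_mul, e2]
  rcases C2_repr (b := b) (fun k => (k, j.2)) (fun _ _ h => congrArg Prod.fst h) g i with
    h | ⟨k, h⟩
  · exact Or.inl h
  · rw [h]; exact hg k

theorem C2_comp2 (i j : Fin M₁.m.natDegree × Fin M₂.m.natDegree) :
    Algebra.leftMulMatrix b ((e2B M₁ M₂).toRingHom Polynomial.X) i j = 0 ∨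
    Algebra.leftMulMatrix b ((e2B M₁ M₂).toRingHom Polynomial.X) i j = 1 ∨
    ∃ k, Algebra.leftMulMatrix b ((e2B M₁ M₂).toRingHom Polynomial.X) i j =
      -MvPolynomial.rename Sum.inr (M₂.m.coeff k) := by
  obtain ⟨g, hg, e⟩ := C2_shift (R' := R0 r₁ r₂) (fun q => MvPolynomial.rename Sum.inr q)
    (e2B M₁ M₂).toRingHom (e2B_C M₁ M₂) M₂.monic (e2B_m M₁ M₂) j.2
  have hx : (e2B M₁ M₂).toRingHom Polynomial.X = x2B M₁ M₂ := C2_ev2_X _ _
  rw [hx] at e ⊢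
  have e2 : x2B M₁ M₂ * b j = ∑ k, g k • b (j.1, k) := by
    rw [hb, mul_left_comm, e, Finset.mul_sum]
    refine Finset.sum_congr rfl fun k _ => ?_
    rw [hb, mul_smul_comm]
  rw [Algebra.leftMulMatrix_eq_repr_mul, e2]
  rcases C2_repr (b := b) (fun k => (j.1, k)) (fun _ _ h => congrArg Prod.snd h) g i with
    h | ⟨k, h⟩
  · exact Or.inl h
  · rw [h]; exact hg k

end

theorem C2_local (r₁ r₂ Δ : ℕ) : ∃ L : ℕ, ∀ {I J : Type} [Fintype I] [Fintype J]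
    (M₁ : Mdl Qb r₁ (I ⊕ J)) (M₂ : Mdl Qb r₂ (I ⊕ J)), M₁.Cx Δ → M₂.Cx Δ → ∃ e ≤ Δ * Δ,
    ∀ {A₁ A₂ c N : ℕ} (μ₁ : Fin N → Mon J r₁ A₁ c) (μ₂ : Fin N → Mon J r₂ A₂ c) (w : Fin N → Qb)
      (p : ℕ) (v : AbsoluteValue Qb ℝ), IsPl p v →
      C2_Bd p v (Sum.elim (fun _ => e * ((A₁ + c) * L)) fun _ => e * ((A₂ + c) * L))
        (th p e.factorial * (th p N * (nv v w * (th p 2 ^ (Δ * Δ) *
          ((th p 2 * nrm v M₁.S) ^ ((A₁ + c) * L) * (th p 2 * nrm v M₂.S) ^ ((A₂ + c) * L))))) ^ e)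
        (nrB M₁ M₂ (cmb M₁ M₂ μ₁ μ₂ w)) := by
  obtain ⟨L₁, hL₁⟩ := C2_block r₁ (Δ + 1) (Δ * Δ)
  obtain ⟨L₂, hL₂⟩ := C2_block r₂ (Δ + 1) (Δ * Δ)
  refine ⟨L₁ + L₂, ?_⟩
  intro I J _ _ M₁ M₂ h₁ h₂
  obtain ⟨b, hb⟩ := exists_basis_TB M₁ M₂
  have hE : Fintype.card (Fin M₁.m.natDegree × Fin M₂.m.natDegree) ≤ Δ * Δ := by
    rw [Fintype.card_prod, Fintype.card_fin, Fintype.card_fin]
    exact Nat.mul_le_mul h₁.1.1 h₂.1.1
  refine ⟨_, hE, ?_⟩
  intro A₁ A₂ c N μ₁ μ₂ w p v h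
  have hθ := C2_one_le_th2 p
  have hN₁ : 1 ≤ nrm v M₁.S := by simpa using le_nrm v (C2_one_mem M₁)
  have hN₂ : 1 ≤ nrm v M₂.S := by simpa using le_nrm v (C2_one_mem M₂)
  have hU₁ : th p 2 ≤ th p 2 * nrm v M₁.S := le_mul_of_one_le_right (zero_le_one.trans hθ) hN₁
  have hU₂ : th p 2 ≤ th p 2 * nrm v M₂.S := le_mul_of_one_le_right (zero_le_one.trans hθ) hN₂
  have k₁ : ∀ i, C2_Ty p v b (Sum.elim (fun _ => 1) fun _ => 0) (th p 2 * nrm v M₁.S)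
      ((A₁ + c) * (L₁ + L₂)) (e1B M₁ M₂ (M₁.mon (μ₁ i))) := by
    intro i
    obtain ⟨q, hq, e⟩ := C2_mon M₁ h₁ (μ₁ i)
    have := hL₁ b Sum.inl (Sum.elim (fun _ => 1) fun _ => 0) (e1B M₁ M₂).toRingHom M₁.S M₁.m hE
      (fun _ => le_rfl) (e1B_C M₁ M₂) (C2_one_mem M₁) (C2_ok_of h₁.1 (C2_cfs_m M₁))
      (C2_comp1 M₁ M₂ b hb) p v h q hq
    rw [Fintype.card_sum, Fintype.card_fin, Fintype.card_fin, ← e] at this
    exact this.mono hU₁ (Nat.mul_le_mul_left _ (Nat.le_add_right _ _))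
  have k₂ : ∀ i, C2_Ty p v b (Sum.elim (fun _ => 0) fun _ => 1) (th p 2 * nrm v M₂.S)
      ((A₂ + c) * (L₁ + L₂)) (e2B M₁ M₂ (M₂.mon (μ₂ i))) := by
    intro i
    obtain ⟨q, hq, e⟩ := C2_mon M₂ h₂ (μ₂ i)
    have := hL₂ b Sum.inr (Sum.elim (fun _ => 0) fun _ => 1) (e2B M₁ M₂).toRingHom M₂.S M₂.m hE
      (fun _ => le_rfl) (e2B_C M₁ M₂) (C2_one_mem M₂) (C2_ok_of h₂.1 (C2_cfs_m M₂))
      (C2_comp2 M₁ M₂ b hb) p v h q hq
    rw [Fintype.card_sum, Fintype.card_fin, Fintype.card_fin, ← e] at this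
    exact this.mono hU₂ (Nat.mul_le_mul_left _ (Nat.le_add_left _ _))
  have hW : 0 ≤ nv v w := nrm_nonneg _ _
  have k₃ : C2_BE p v b (Sum.elim (fun _ => (A₁ + c) * (L₁ + L₂)) fun _ => (A₂ + c) * (L₁ + L₂))
      (th p N * (nv v w * (th p 2 ^ (Δ * Δ) * ((th p 2 * nrm v M₁.S) ^ ((A₁ + c) * (L₁ + L₂)) *
        (th p 2 * nrm v M₂.S) ^ ((A₂ + c) * (L₁ + L₂)))))) (cmb M₁ M₂ μ₁ μ₂ w) := by
    have := C2_BE_sum (b := b) h Finset.univ
      (fun i => w i • (e1B M₁ M₂ (M₁.mon (μ₁ i)) * e2B M₁ M₂ (M₂.mon (μ₂ i))))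
      (a := Sum.elim (fun _ => (A₁ + c) * (L₁ + L₂)) fun _ => (A₂ + c) * (L₁ + L₂))
      (c := nv v w * (th p 2 ^ (Δ * Δ) * ((th p 2 * nrm v M₁.S) ^ ((A₁ + c) * (L₁ + L₂)) *
        (th p 2 * nrm v M₂.S) ^ ((A₂ + c) * (L₁ + L₂))))) (by positivity) fun i _ => by
        rw [← algebraMap_smul (R0 r₁ r₂) (w i), MvPolynomial.algebraMap_eq]
        refine (C2_BE.smul h (C2_Bd_C (w i)) (C2_BE.mul h hE (k₁ i) (k₂ i))).mono ?_ ?_
        · rintro (k | k) <;> simp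
        · exact mul_le_mul_of_nonneg_right
            (le_nrm v (Finset.mem_image_of_mem w (Finset.mem_univ i))) (by positivity)
    rw [Finset.card_univ, Fintype.card_fin] at this
    exact this
  rw [nrB, Algebra.norm_eq_matrix_det b]
  refine (C2_Bd_det h _ k₃.1 k₃.2).mono ?_ le_rfl
  rintro (k | k) <;> simp

end Pool.Agent.E6b

end
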