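import Pool.Agent.E6c.A25
import Pool.Agent.E6c.A30
import Pool.Agent.E6c.A32

section
open scoped NNReal TensorProduct IntermediateField BigOperators Classical Topology
open Filter

namespace Pool.Agent.E6b

theorem X4_ff {κ L : Type} [Field κ] [IsAlgClosed κ] [Field L] [Algebra κ L] {t : L}
    (ht : t ∉ (algebraMap κ L).range) (S : Finset L) (hS : ∀ z ∈ S, IsAlgebraic κ⟮t⟯ z) :
    IsFF κ (IntermediateField.adjoin κ⟮t⟯ (S : Set L)) := by
  have h1 : FiniteDimensional κ⟮t⟯ (IntermediateField.adjoin κ⟮t⟯ (S : Set L)) :=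
    IntermediateField.finiteDimensional_adjoin fun z hz => (hS z hz).isIntegral
  obtain ⟨s, hs⟩ : ∃ s : IntermediateField.adjoin κ⟮t⟯ (S : Set L), (s : L) = t :=
    ⟨algebraMap κ⟮t⟯ _ (IntermediateField.AdjoinSimple.gen κ t), rfl⟩
  refine ⟨⟨s, F0_transcendental fun ⟨c, hc⟩ => ht ⟨c, by rw [← hs, ← hc]; rfl⟩, ?_⟩⟩
  refine F0_finite_of_range (A := κ⟮t⟯) fun a => ?_
  have h3 : κ⟮t⟯ = (κ⟮s⟯).map
      ((IntermediateField.adjoin κ⟮t⟯ (S : Set L)).val.restrictScalars κ) := by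
    rw [IntermediateField.adjoin_map]
    simp [hs]
  obtain ⟨b, hb, hab⟩ : a.1 ∈ (κ⟮s⟯).map
      ((IntermediateField.adjoin κ⟮t⟯ (S : Set L)).val.restrictScalars κ) := h3 ▸ a.2
  exact ⟨⟨b, hb⟩, Subtype.ext hab⟩

theorem X4_lift {κ F Ω L : Type} [Field κ] [IsAlgClosed κ] [CharZero κ] [Field F] [Algebra κ F]
    [IsFF κ F] [Field Ω] [IsAlgClosed Ω] [CharZero Ω] [Field L] [Algebra κ Ω] [Algebra κ L]
    [Algebra Ω L] [IsScalarTower κ Ω L] (o : Place κ F) (j : F →ₐ[κ] L) {s : F}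
    (hs : j s ∉ (algebraMap Ω L).range) : ∃ Φ : FO o Ω →ₐ[Ω] L, ∀ z, j z ∈ Φ.fieldRange := by
  have : CharZero L := charZero_of_injective_algebraMap (algebraMap Ω L).injective
  let y : AA o →ₐ[κ] L := j.comp (AA o).val
  let ψ : AO o Ω →ₐ[Ω] L :=
    Algebra.TensorProduct.lift (Algebra.ofId Ω L) y fun _ _ => Commute.all _ _
  have hψ : ∀ a, ψ (1 ⊗ₜ[κ] a) = j a := fun a => by simp [ψ, y]
  have h1 : (IsScalarTower.toAlgHom κ L (AlgebraicClosure L)).comp y ∉
      Set.range (bc o (IsScalarTower.toAlgHom κ Ω (AlgebraicClosure L))).pt := by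
    rintro ⟨y₀, h⟩
    rw [bc_pt] at h
    have h2 : ∀ a : AA o, algebraMap Ω L (y₀ a) = j a := fun a =>
      (algebraMap L (AlgebraicClosure L)).injective (by
        rw [← IsScalarTower.algebraMap_apply]
        exact DFunLike.congr_fun h a)
    obtain ⟨a, b, -, rfl⟩ := IsFractionRing.div_surjective (A := AA o) s
    exact hs ⟨y₀ a / y₀ b, by rw [map_div₀, map_div₀, h2, h2]; rfl⟩
  have h2 : Function.Injective ψ := by
    refine Function.Injective.of_comp (f := algebraMap L (AlgebraicClosure L)) ?_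
    convert (injective_of_notMem_range _ h1).2 using 1
    funext x
    induction x using TensorProduct.induction_on with
    | zero => simp
    | tmul c a => simp [ψ, ← IsScalarTower.algebraMap_apply]
    | add f g hf hg =>
      rw [map_add, ← hf, ← hg]
      simp
  refine ⟨IsFractionRing.liftAlgHom h2, fun z => ?_⟩
  obtain ⟨a, b, -, rfl⟩ := IsFractionRing.div_surjective (A := AA o) z
  have h3 : ∀ a : AA o,
      j a ∈ (IsFractionRing.liftAlgHom (K := FO o Ω) h2).fieldRange := fun a =>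
    ⟨algebraMap _ _ (1 ⊗ₜ[κ] a : AO o Ω), (IsFractionRing.lift_algebraMap h2 _).trans (hψ a)⟩
  rw [map_div₀]
  exact div_mem (h3 a) (h3 b)

theorem nomap_field {κ Ω L : Type} [Field κ] [IsAlgClosed κ] [CharZero κ] [Field Ω] [IsAlgClosed Ω]
    [CharZero Ω] [Field L] [Algebra κ Ω] [Algebra κ L] [Algebra Ω L] [IsScalarTower κ Ω L]
    (δ : Derivation κ Ω Ω) {A B : Ω} (hA : A ≠ 0) (hns : B * (4 * A ^ 3 + 27 * B) ≠ 0)
    (hδ : 3 * B * δ A ≠ A * δ B) {t : L} (ht : t ∉ (algebraMap Ω L).range) (S : Finset L)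
    (hS : ∀ z ∈ S, IsAlgebraic κ⟮t⟯ z) {X Y : L}
    (hX : X ∈ IntermediateField.adjoin Ω (insert t (S : Set L)))
    (hY : Y ∈ IntermediateField.adjoin Ω (insert t (S : Set L)))
    (h : Y ^ 2 = X ^ 3 + algebraMap Ω L A * X ^ 2 + algebraMap Ω L B) :
    X ∈ (algebraMap Ω L).range := by
  have := X4_ff (κ := κ) (fun ⟨c, hc⟩ => ht ⟨algebraMap κ Ω c, by
    rw [← IsScalarTower.algebraMap_apply, hc]⟩) S hS
  obtain ⟨o⟩ : Nonempty (Place κ (IntermediateField.adjoin κ⟮t⟯ (S : Set L))) := inferInstance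
  obtain ⟨Φ, hΦ⟩ := X4_lift (Ω := Ω) o
    ((IntermediateField.adjoin κ⟮t⟯ (S : Set L)).val.restrictScalars κ)
    (s := algebraMap κ⟮t⟯ _ (IntermediateField.AdjoinSimple.gen κ t)) ht
  have h1 : IntermediateField.adjoin Ω (insert t (S : Set L)) ≤ Φ.fieldRange := by
    rw [IntermediateField.adjoin_le_iff]
    rintro z (rfl | hz)
    · exact hΦ (algebraMap κ⟮z⟯ _ (IntermediateField.AdjoinSimple.gen κ z))
    · exact hΦ ⟨z, IntermediateField.subset_adjoin _ _ hz⟩
  obtain ⟨X', rfl⟩ := AlgHom.mem_fieldRange.1 (h1 hX)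
  obtain ⟨Y', rfl⟩ := AlgHom.mem_fieldRange.1 (h1 hY)
  obtain ⟨c, rfl⟩ := nomap_FO o δ hA hns hδ (X := X') (Y := Y') (Φ.injective (by
    simpa only [AlgHom.toRingHom_eq_coe, RingHom.coe_coe, map_pow, map_add, map_mul,
      AlgHom.commutes] using h))
  exact ⟨c, (Φ.commutes c).symm⟩

end Pool.Agent.E6b

end

section
open scoped NNReal TensorProduct IntermediateField BigOperators Classical Topology
open Filter

namespace Pool.Agent.E6b

/-- the polynomial defining a cover -/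
noncomputable def X5_poly {K : Type} [Field K] (a : ℕ) (A B R : K) : Polynomial K :=
  Polynomial.X ^ (2 * a) * (Polynomial.X ^ 3 + Polynomial.C A * Polynomial.X ^ 2 + Polynomial.C B) -
    Polynomial.C R

theorem X5_deg {K : Type} [Field K] (a : ℕ) (A B R : K) : 0 < (X5_poly a A B R).degree := by
  have h1 : (Polynomial.X ^ 3 + Polynomial.C A * Polynomial.X ^ 2 + Polynomial.C B :
      Polynomial K).degree = 3 := by compute_degree!
  have h2 : 0 < (Polynomial.X ^ (2 * a) * (Polynomial.X ^ 3 + Polynomial.C A * Polynomial.X ^ 2 +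
      Polynomial.C B) : Polynomial K).degree := by
    rw [Polynomial.degree_mul, Polynomial.degree_X_pow, h1]
    exact_mod_cast (by omega : 0 < 2 * a + 3)
  rw [X5_poly, Polynomial.degree_sub_C h2]
  exact h2

theorem X5_aeval {K L : Type} [Field K] [Field L] [Algebra K L] (a : ℕ) (A B R : K) (x : L) :
    Polynomial.aeval x (X5_poly a A B R) =
      x ^ (2 * a) * (x ^ 3 + algebraMap K L A * x ^ 2 + algebraMap K L B) - algebraMap K L R := by
  simp [X5_poly]

theorem X5_alg {κ L : Type} [Field κ] [Field L] [Algebra κ L] (W : WP κ) {a : ℕ} {t x : L}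
    (h : W.Rel a t x) : IsAlgebraic κ⟮t⟯ x := by
  let t' : κ⟮t⟯ := ⟨t, IntermediateField.mem_adjoin_simple_self κ t⟩
  refine ⟨X5_poly a (algebraMap κ _ W.A) (algebraMap κ _ W.B)
    (((t' - algebraMap κ _ W.τ)⁻¹ - algebraMap κ _ W.c) ^ 2),
    Polynomial.ne_zero_of_degree_gt (X5_deg _ _ _ _), ?_⟩
  rw [X5_aeval, map_pow, map_sub, map_inv₀, map_sub, ← IsScalarTower.algebraMap_apply,
    ← IsScalarTower.algebraMap_apply, ← IsScalarTower.algebraMap_apply,
    ← IsScalarTower.algebraMap_apply, sub_eq_zero]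
  exact h

theorem X5_root {κ L : Type} [Field κ] [Field L] [IsAlgClosed L] [Algebra κ L] (W : WP κ) (a : ℕ)
    (t : L) : ∃ x : L, W.Rel a t x := by
  obtain ⟨x, hx⟩ := IsAlgClosed.exists_root (X5_poly a (algebraMap κ L W.A) (algebraMap κ L W.B)
    (((t - algebraMap κ L W.τ)⁻¹ - algebraMap κ L W.c) ^ 2)) (X5_deg _ _ _ _).ne'
  refine ⟨x, ?_⟩
  have h := hx.eq_zero
  rw [← Polynomial.coe_aeval_eq_eval, X5_aeval, sub_eq_zero] at h
  exact h

section
variable {κ L : Type} [Field κ] [IsAlgClosed κ] [CharZero κ] [Field L] [Algebra κ L] {a : ℕ}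
  (D : TD κ L a)

theorem X5_extract {s : Fin 5} {J : Finset (Fin 5)} {B : ℕ}
    (h : ¬ NoMap κ (D.F {s}) (D.F J) B) : ∃ X Y : D.F J,
      (X : L) ∉ (algebraMap κ L).range ∧ (Y : L) ^ 2 = (D.W s).f (X : L) ∧
      deg (dinf κ X) ≤ (3 * B : ℕ) ∧ deg (dinf κ Y) ≤ (3 * B : ℕ) := by
  obtain ⟨φ, hφ⟩ := not_forall.1 h
  have hφ' := not_lt.1 hφ
  have w := D.wc s
  set x := D.xF (Finset.mem_singleton_self s)
  set y := (D.W s).y a (D.tF {s}) x
  have hy : y ∉ (algebraMap κ (D.F {s})).range := by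
    rintro ⟨c, hc⟩
    refine F0_transcendental w.x_notMem ⟨X5_poly 0 (D.W s).A (D.W s).B (c ^ 2),
      Polynomial.ne_zero_of_degree_gt (X5_deg _ _ _ _), ?_⟩
    rw [X5_aeval, map_pow, hc, w.y_sq, mul_zero, pow_zero, one_mul]
    exact sub_self _
  obtain ⟨a1, a2⟩ := rk_map (FHom.ofAlgHom φ) w.x_notMem
  obtain ⟨b1, b2⟩ := rk_map (FHom.ofAlgHom φ) hy
  rw [w.rk_x] at a2
  rw [w.rk_y] at b2
  refine ⟨φ x, φ y, ?_, ?_, ?_, ?_⟩
  · rintro ⟨c, hc⟩
    exact a1 ⟨c, Subtype.ext hc⟩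
  · have h1 := congrArg (fun z => (D.F J).val (φ z)) w.y_sq
    simp only [WP.f, map_add, map_mul, map_pow, AlgHom.commutes] at h1
    exact h1
  · refine (deg_dinf_rk a1).trans_le ?_
    rw [a2]
    exact_mod_cast (by omega)
  · refine (deg_dinf_rk b1).trans_le ?_
    rw [b2]
    exact_mod_cast (by omega)

end

theorem X5_core {κ Ω L : Type} [Field κ] [CharZero κ] [Field Ω] [IsAlgClosed Ω] [CharZero Ω]
    [Field L] [Algebra κ Ω] [Algebra Ω L] {v : Fin 5 ⊕ Fin 5 → Ω} (hv : AlgebraicIndependent κ v)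
    {q : κ} (hq : q ≠ 0) (τ : Fin 5 → κ) {a : ℕ} {s : Fin 5} {J : Finset (Fin 5)} (hs : s ∉ J)
    {t : L} (ht : t ∉ (algebraMap Ω L).range) {x : Fin 5 → L}
    (hx : ∀ j ∈ J, (WP.mk (algebraMap κ Ω q * v (.inl j)) (v (.inl j) ^ 2) (v (.inr j))
      (algebraMap κ Ω (τ j))).Rel a t (x j)) {X Y : L}
    (hX : X ∈ IntermediateField.adjoin Ω (insert t ((J.image x : Finset L) : Set L)))
    (hY : Y ∈ IntermediateField.adjoin Ω (insert t ((J.image x : Finset L) : Set L)))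
    (h : Y ^ 2 = X ^ 3 + algebraMap Ω L (algebraMap κ Ω q * v (.inl s)) * X ^ 2 +
      algebraMap Ω L (v (.inl s) ^ 2)) : X ∈ (algebraMap Ω L).range := by
  obtain ⟨K, hK, hmem⟩ := exists_acl (κ := κ) (v '' {i | i ≠ .inl s})
  have : CharZero K := charZero_of_injective_algebraMap (algebraMap κ K).injective
  have hvK : ∀ i, i ≠ .inl s → v i ∈ K := fun i hi => (hmem _).2 (isAlgebraic_algebraMap
    (⟨v i, IntermediateField.subset_adjoin _ _ ⟨i, hi, rfl⟩⟩ :
      IntermediateField.adjoin κ (v '' {i | i ≠ .inl s})))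
  have hM : Transcendental K (v (.inl s)) := by
    refine F0_transcendental ?_
    rintro ⟨c, hc⟩
    have h1 : v (.inl s) ∈ K := hc ▸ c.2
    exact IntermediateField.transcendental_adjoin_iff.2
      (hv.transcendental_adjoin (s := {i | i ≠ .inl s}) (i := .inl s) (fun h => h rfl))
      ((hmem _).1 h1)
  obtain ⟨δ, hδ⟩ := exists_derivation hM
  have hδc : ∀ c : κ, δ (algebraMap κ Ω c) = 0 := fun c => by
    rw [IsScalarTower.algebraMap_apply κ K Ω]
    exact δ.map_algebraMap _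
  have hq' : algebraMap κ Ω q ≠ 0 := (map_ne_zero _).2 hq
  have hM0 : v (.inl s) ≠ 0 := fun h0 => by
    rw [h0, map_zero] at hδ
    exact zero_ne_one hδ
  have hM1 : 4 * algebraMap κ Ω q ^ 3 * v (.inl s) + 27 ≠ 0 := fun h0 => by
    have h1 : algebraMap κ Ω (4 * q ^ 3) * v (.inl s) + algebraMap κ Ω 27 = 0 := by
      rw [map_mul, map_pow, map_ofNat, map_ofNat]
      exact h0
    have h2 := congrArg δ h1
    rw [map_add, δ.leibniz, hδc, hδc, hδ, map_zero, smul_zero, add_zero, add_zero, smul_eq_mul,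
      mul_one, map_eq_zero] at h2
    exact mul_ne_zero (by norm_num) (pow_ne_zero 3 hq) h2
  refine nomap_field δ (mul_ne_zero hq' hM0) ?_ ?_ ht (J.image x) ?_ hX hY h
  · have : v (.inl s) ^ 2 * (4 * (algebraMap κ Ω q * v (.inl s)) ^ 3 + 27 * v (.inl s) ^ 2) =
        v (.inl s) ^ 4 * (4 * algebraMap κ Ω q ^ 3 * v (.inl s) + 27) := by ring
    rw [this]
    exact mul_ne_zero (pow_ne_zero _ hM0) hM1
  · rw [δ.leibniz, hδc, δ.leibniz_pow, hδ]
    simp only [smul_eq_mul, mul_one, mul_zero, add_zero, nsmul_eq_mul]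
    intro h0
    refine mul_ne_zero hq' (pow_ne_zero 2 hM0) ?_
    push_cast at h0
    linear_combination h0
  · intro z hz
    obtain ⟨j, hj, rfl⟩ := Finset.mem_image.1 hz
    have hjs : j ≠ s := fun e => hs (e ▸ hj)
    have m1 : v (.inl j) ∈ K := hvK _ fun e => hjs (Sum.inl_injective e)
    have m2 : v (.inr j) ∈ K := hvK _ Sum.inr_ne_inl
    exact X5_alg (WP.mk (⟨_, mul_mem (K.algebraMap_mem q) m1⟩ : K) ⟨_, pow_mem m1 2⟩ ⟨_, m2⟩
      ⟨_, K.algebraMap_mem (τ j)⟩) (hx j hj)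

end Pool.Agent.E6b

end
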