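import Pool.Agent.E6c.A22
import Pool.Agent.E6c.A30
import Pool.Agent.E6c.A33

section
open scoped NNReal TensorProduct IntermediateField BigOperators Classical Topology
open Filter

namespace Pool.Agent.E6b

section
variable {F : Type} [Field F] [Algebra Qb F] [IsFF Qb F] {o : Place Qb F}

/-- classes rational over a number field -/
def GK (o : Place Qb F) (K : IntermediateField ℚ Qb) : AddSubgroup (Cl o Qb) where
  carrier := {w | ∀ β : BC o Qb Qb, (∀ x ∈ K, β.τ x = x) → β.cl w = w}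
  zero_mem' := fun β _ => map_zero β.cl
  add_mem' := fun {a b} ha hb β h => by rw [map_add, ha β h, hb β h]
  neg_mem' := fun {a} ha β h => by rw [map_neg, ha β h]

end

end Pool.Agent.E6b

end

section
open scoped NNReal TensorProduct IntermediateField BigOperators Classical Topology
open Filter

namespace Pool.Agent.E6b
variable {κ F : Type} [Field κ] [IsAlgClosed κ] [CharZero κ] [Field F] [Algebra κ F] [IsFF κ F]
  {o : Place κ F} {Ω Ω' : Type} [Field Ω] [IsAlgClosed Ω] [CharZero Ω] [Algebra κ Ω]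
  [Field Ω'] [IsAlgClosed Ω'] [CharZero Ω'] [Algebra κ Ω'] {ι ι' : Type} [Fintype ι] [Fintype ι']

theorem exists_ok_finset (o : Place κ F) : ∃ S : Finset κ, ∀ (Ω Ω' : Type) [Field Ω] [IsAlgClosed Ω]
    [CharZero Ω] [Algebra κ Ω] [Field Ω'] [IsAlgClosed Ω'] [CharZero Ω'] [Algebra κ Ω']
    (τ : Ω →+* Ω'), Fx (S : Set κ) τ → ∃ β : BC o Ω Ω', β.τ = τ ∧ β.Ok := by
  obtain ⟨S, hS⟩ := exists_bc_finset o
  refine ⟨S ∪ Finset.univ.image fun x : Fin (5 * genus κ F + 1) × Fin (NN o) × Fin (MM o) =>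
    (pdat o).q x.1 x.2.1 (eb o x.2.2), ?_⟩
  intro Ω Ω' _ _ _ _ _ _ _ _ τ hτ
  obtain ⟨β, hβ⟩ := hS Ω Ω' τ fun c hc => hτ c (Finset.mem_union_left _ hc)
  refine ⟨β, hβ, fun i l => pt_ext o (funext fun m => ?_)⟩
  change β.pt _ (eb o m) = _
  rw [β.pt_eb, hβ]
  exact hτ _ (Finset.mem_union_right _ (Finset.mem_image.2 ⟨(i, l, m), Finset.mem_univ _, rfl⟩))

end Pool.Agent.E6b

end

section
open scoped NNReal TensorProduct IntermediateField BigOperators Classical Topology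
open Filter

namespace Pool.Agent.E6b

section
variable {F : Type} [Field F] [Algebra Qb F] [IsFF Qb F]
variable {o : Place Qb F} {d r : ℕ}

/-- height of the model -/
noncomputable def Lev.hh {Δ : ℕ} (L : Lev o d r Δ) : ℝ := ht L.M.S

end

end Pool.Agent.E6b

end

section
open scoped NNReal TensorProduct IntermediateField BigOperators Classical Topology
open Filter

namespace Pool.Agent.E6b

theorem M1_ev2_C {K R : Type} [Field K] [CommRing R] [Algebra K R] {r : ℕ} (u : Fin r → R) (ξ : R)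
    (a : MvPolynomial (Fin r) K) : ev2 u ξ (Polynomial.C a) = MvPolynomial.aeval u a := by
  rw [M1_ev2, Polynomial.eval₂_C]
  rfl

theorem Mdl.IsPt.derivative_ne_zero {K R : Type} [Field K] [CommRing R] [Algebra K R] {r : ℕ}
    {ι : Type} {M : Mdl K r ι} {u : Fin r → R} {ξ : R} (h : M.IsPt u ξ) :
    ev2 u ξ (Polynomial.derivative M.m) ≠ 0 := by
  intro h0
  obtain ⟨c, hc⟩ := M.sep
  have e := congrArg (ev2 u ξ) hc
  rw [map_sub, map_mul, map_mul, h0, h.1, M1_ev2_C, mul_zero, zero_mul, zero_sub, neg_eq_zero] at e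
  exact h.2 e

end Pool.Agent.E6b

end

section
open scoped NNReal TensorProduct IntermediateField BigOperators Classical Topology
open Filter

namespace Pool.Agent.E6b
variable {r₁ r₂ : ℕ} {ι : Type} (M₁ : Mdl Qb r₁ ι) (M₂ : Mdl Qb r₂ ι)

theorem C1_memE {s : Set (TK M₁ M₂)} (hs : Set.range (uK M₁ M₂) ⊆ s) (p : R0 r₁ r₂) :
    algebraMap (TB M₁ M₂) (TK M₁ M₂) (algebraMap _ _ p) ∈ IntermediateField.adjoin Qb s := by
  rw [← C1_aevalK]
  refine IntermediateField.algebra_adjoin_le_adjoin Qb s (Algebra.adjoin_mono hs ?_)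
  rw [Algebra.adjoin_range_eq_range_aeval]
  exact ⟨p, rfl⟩

theorem C1_span : Submodule.span (IntermediateField.adjoin Qb (Set.range (uK M₁ M₂)))
    (Set.range fun i => algebraMap (TB M₁ M₂) (TK M₁ M₂) ((exists_basis_TB M₁ M₂).choose i)) =
      ⊤ := by
  set b := (exists_basis_TB M₁ M₂).choose
  set W := Submodule.span (IntermediateField.adjoin Qb (Set.range (uK M₁ M₂)))
    (Set.range fun i => algebraMap (TB M₁ M₂) (TK M₁ M₂) (b i))
  have h1 : ∀ a, algebraMap (TB M₁ M₂) (TK M₁ M₂) a ∈ W := fun a => by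
    rw [← b.sum_repr a, map_sum]
    refine W.sum_mem fun i _ => ?_
    rw [Algebra.smul_def, map_mul]
    exact W.smul_mem ⟨_, C1_memE M₁ M₂ subset_rfl (b.repr a i)⟩
      (Submodule.subset_span ⟨i, rfl⟩)
  refine eq_top_iff.2 fun x _ => ?_
  obtain ⟨a, c, hc, rfl⟩ := IsFractionRing.div_surjective (A := TB M₁ M₂) x
  have hc0 := nonZeroDivisors.ne_zero hc
  obtain ⟨d, hd⟩ := C1_dvd_norm (R := R0 r₁ r₂) c
  have hd0 : d ≠ 0 := fun e => by
    rw [e, mul_zero, map_eq_zero_iff _ (algebraMap_R0_injective M₁ M₂),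
      Algebra.norm_eq_zero_iff] at hd
    exact hc0 hd
  have h2 := W.smul_mem ⟨_, inv_mem (C1_memE M₁ M₂ subset_rfl (Algebra.norm (R0 r₁ r₂) c))⟩
    (h1 (a * d))
  have hd1 : algebraMap (TB M₁ M₂) (TK M₁ M₂) d ≠ 0 :=
    (map_ne_zero_iff _ (IsFractionRing.injective _ _)).2 hd0
  convert h2 using 1
  change _ = (algebraMap (TB M₁ M₂) (TK M₁ M₂) (algebraMap _ _ (Algebra.norm (R0 r₁ r₂) c)))⁻¹ *
    algebraMap (TB M₁ M₂) (TK M₁ M₂) (a * d)
  rw [hd, map_mul, map_mul, inv_mul_eq_div, mul_div_mul_right _ _ hd1]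

instance instFiniteTK :
    FiniteDimensional (IntermediateField.adjoin Qb (Set.range (uK M₁ M₂))) (TK M₁ M₂) :=
  Module.finite_def.2 (C1_span M₁ M₂ ▸ Submodule.fg_span (Set.finite_range _))

theorem finrank_TK_le : Module.finrank (IntermediateField.adjoin Qb (Set.range (uK M₁ M₂)))
    (TK M₁ M₂) ≤ M₁.m.natDegree * M₂.m.natDegree := by
  simpa using finrank_le_of_span_eq_top (C1_span M₁ M₂)

theorem adjoin_TK : IntermediateField.adjoin Qb (Set.range (uK M₁ M₂) ∪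
    {algebraMap _ _ (x1B M₁ M₂), algebraMap _ _ (x2B M₁ M₂)}) = ⊤ := by
  obtain ⟨b, hb⟩ := exists_basis_TB M₁ M₂
  set E := IntermediateField.adjoin Qb (Set.range (uK M₁ M₂) ∪
    {algebraMap _ _ (x1B M₁ M₂), algebraMap _ _ (x2B M₁ M₂)})
  have h1 : ∀ a, algebraMap (TB M₁ M₂) (TK M₁ M₂) a ∈ E := fun a => by
    rw [← b.sum_repr a, map_sum]
    refine E.sum_mem fun i _ => ?_
    rw [Algebra.smul_def, map_mul, hb, map_mul, map_pow, map_pow]
    refine mul_mem (C1_memE M₁ M₂ Set.subset_union_left _) (mul_mem (pow_mem ?_ _) (pow_mem ?_ _))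
    · exact IntermediateField.subset_adjoin _ _ (Set.mem_union_right _ (Set.mem_insert _ _))
    · exact IntermediateField.subset_adjoin _ _
        (Set.mem_union_right _ (Set.mem_insert_of_mem _ rfl))
  refine eq_top_iff.2 fun x _ => ?_
  obtain ⟨a, c, -, rfl⟩ := IsFractionRing.div_surjective (A := TB M₁ M₂) x
  exact div_mem (h1 a) (h1 c)

end Pool.Agent.E6b

end

section
open scoped NNReal TensorProduct IntermediateField BigOperators Classical Topology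
open Filter

namespace Pool.Agent.E6b

section
variable {κ K Ω : Type} [Field κ] [Field K] [Field Ω] [Algebra κ K] [Algebra κ Ω] [Algebra K Ω]
  [IsScalarTower κ K Ω]

omit [Algebra κ Ω] [IsScalarTower κ K Ω] in
theorem P5_vs_gen {ι : Type} [Fintype ι] {x : ι → K} (hx : x ≠ 0) (O0 : VS κ K)
    (O : ValuationSubring Ω) (h : O.comap (algebraMap K Ω) = O0.1) :
    vs O (fun i => algebraMap K Ω (x i)) = O.valuation (algebraMap K Ω (gen κ x O0)) := by
  obtain ⟨⟨j, hj⟩, h1⟩ := gen_spec (κ := κ) hx O0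
  apply le_antisymm
  · refine vs_le O fun i => ?_
    have h2 := h1 i
    rw [← h, ValuationSubring.mem_comap, map_div₀, V1_div_mem _ _ (by simp)] at h2
    exact h2
  · rw [← hj]
    exact le_vs O (fun i => algebraMap K Ω (x i)) j

end

end Pool.Agent.E6b

end

section
open scoped NNReal TensorProduct IntermediateField BigOperators Classical Topology
open Filter

namespace Pool.Agent.E6b
variable {κ F : Type} [Field κ] [IsAlgClosed κ] [CharZero κ] [Field F] [Algebra κ F] [IsFF κ F]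
  {o : Place κ F} {Ω : Type} [Field Ω] [IsAlgClosed Ω] [CharZero Ω] [Algebra κ Ω]

section
variable {K : Type} [Field K] [Algebra K Ω] [Algebra κ K] [IsScalarTower κ K Ω]
  [Algebra.IsAlgebraic K Ω]

omit [Algebra.IsAlgebraic K Ω] in
theorem RatC.add {a b : Cl o Ω} (ha : RatC K a) (hb : RatC K b) : RatC K (a + b) := fun σ => by
  rw [map_add, ha σ, hb σ]

omit [Algebra.IsAlgebraic K Ω] in
theorem RatC.zsmul {a : Cl o Ω} (ha : RatC K a) (n : ℤ) : RatC K (n • a) := fun σ => by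
  rw [map_zsmul, ha σ]

omit [Algebra.IsAlgebraic K Ω] in
theorem ratC_clz {ι : Type} [Fintype ι] {z : ι → Pt o Ω}
    (h : ∀ a (i : Fin (MM o)), z a (eb o i) ∈ (algebraMap K Ω).range) : RatC K (clz z) := by
  intro σ
  rw [BC.cl_clz]
  congr 1
  funext a
  rw [bc_pt]
  refine pt_ext o (funext fun i => ?_)
  obtain ⟨c, hc⟩ := h a i
  change σ (z a (eb o i)) = z a (eb o i)
  rw [← hc, AlgEquiv.commutes]

theorem RatC.exists_prp {a : Cl o Ω} (ha : RatC K a) :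
    ∃ x : JJ o × JJ o → K, Prp (Psym a) fun j => algebraMap K Ω (x j) := by
  have : CharZero K := (algebraMap K Ω).charZero
  have : IsAlgClosure K Ω := ⟨inferInstance, inferInstance⟩
  obtain ⟨j0, hj0⟩ := Function.ne_iff.mp (Psym_ne_zero a)
  have hj : Psym a j0 ≠ 0 := hj0
  have h1 : ∀ j, Psym a j / Psym a j0 ∈ Set.range (algebraMap K Ω) := by
    intro j
    rw [InfiniteGalois.mem_range_algebraMap_iff_fixed]
    intro σ
    have h2 := (bc_ok (o := o) ((σ : Ω →ₐ[K] Ω).restrictScalars κ)).Psym a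
    rw [ha σ, bc_τ] at h2
    obtain ⟨μ, hμ, h2⟩ := h2
    have h3 : ∀ i, Psym a i = μ * σ (Psym a i) := h2
    rw [map_div₀]
    conv_rhs => rw [h3 j, h3 j0, mul_div_mul_left _ _ hμ]
  choose y hy using h1
  refine ⟨y, Psym a j0, hj, fun j => ?_⟩
  change Psym a j = Psym a j0 * algebraMap K Ω (y j)
  rw [hy]
  field_simp

/-- the subgroup of rational classes -/
def P5G (o : Place κ F) (Ω : Type) [Field Ω] [IsAlgClosed Ω] [CharZero Ω] [Algebra κ Ω] (K : Type)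
    [Field K] [Algebra K Ω] [Algebra κ K] [IsScalarTower κ K Ω] : AddSubgroup (Cl o Ω) where
  carrier := {w | RatC K w}
  zero_mem' := fun _ => map_zero _
  add_mem' := RatC.add
  neg_mem' := fun {a} ha σ => by rw [map_neg, ha σ]

/-- the valuative class of a rational class -/
noncomputable def P5q (a : P5G o Ω K) : Additive (VC κ K ⧸ P5H κ K) :=
  P5m (gen κ (RatC.exists_prp a.2).choose)

theorem P5q_eq (a : P5G o Ω K) {x : JJ o × JJ o → K}
    (h : Prp (Psym a.1) fun j => algebraMap K Ω (x j)) : P5q a = P5m (gen κ x) :=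
  P5m_prp (P5_ne_zero_of_prp (map_zero _) (Psym_ne_zero _) h)
    (Prp.of_map (algebraMap K Ω) ((RatC.exists_prp a.2).choose_spec.symm.trans h))

omit [Algebra.IsAlgebraic K Ω] [IsScalarTower κ K Ω] in
theorem P5_vs_rat {w : Cl o Ω} {x : JJ o × JJ o → K}
    (h : Prp (Psym w) fun j => algebraMap K Ω (x j)) : ∃ μ : Ω, μ ≠ 0 ∧
      ∀ (O0 : VS κ K) (O : ValuationSubring Ω), O.comap (algebraMap K Ω) = O0.1 →
        vs O (Psym w) = O.valuation μ * O.valuation (algebraMap K Ω (gen κ x O0)) := by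
  have hx := P5_ne_zero_of_prp (map_zero _) (Psym_ne_zero _) h
  obtain ⟨μ, hμ, h⟩ := h
  refine ⟨μ, hμ, fun O0 O hO => ?_⟩
  have e : Psym w = fun j => μ * algebraMap K Ω (x j) := funext h
  rw [e, vs_smul, P5_vs_gen hx O0 O hO]

theorem P5q_par (a b : P5G o Ω K) : P5q (a + b) + P5q (a - b) = 2 • P5q a + 2 • P5q b := by
  obtain ⟨x1, h1⟩ := RatC.exists_prp (a + b).2
  obtain ⟨x2, h2⟩ := RatC.exists_prp (a - b).2
  obtain ⟨xa, ha⟩ := RatC.exists_prp a.2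
  obtain ⟨xb, hb⟩ := RatC.exists_prp b.2
  rw [P5q_eq _ h1, P5q_eq _ h2, P5q_eq _ ha, P5q_eq _ hb, ← P5m_pow, ← P5m_pow, ← P5m_mul,
    ← P5m_mul, P5m_eq]
  obtain ⟨γ, hγ, hp⟩ := par_val a.1 b.1
  obtain ⟨μ1, hμ1, e1⟩ := P5_vs_rat h1
  obtain ⟨μ2, hμ2, e2⟩ := P5_vs_rat h2
  obtain ⟨μa, hμa, ea⟩ := P5_vs_rat ha
  obtain ⟨μb, hμb, eb⟩ := P5_vs_rat hb
  refine P5_descend (Ω := Ω) (γ := γ * (μa * μb) ^ 2 / (μ1 * μ2))
    (div_ne_zero (mul_ne_zero hγ (pow_ne_zero _ (mul_ne_zero hμa hμb))) (mul_ne_zero hμ1 hμ2))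
    fun O0 O hO => ?_
  have h3 := hp O
  have e1' := e1 O0 O.1 hO
  have e2' := e2 O0 O.1 hO
  rw [AddSubgroup.coe_add] at e1'
  rw [AddSubgroup.coe_sub] at e2'
  rw [e1', e2', ea O0 O.1 hO, eb O0 O.1 hO] at h3
  have h4 : O.1.valuation μ1 ≠ 0 := by simpa using hμ1
  have h5 : O.1.valuation μ2 ≠ 0 := by simpa using hμ2
  simp only [Pi.mul_apply, Pi.pow_apply, Units.val_mul, Units.val_pow_eq_pow_val, map_mul,
    map_pow, map_div₀]
  rw [div_mul_eq_mul_div, eq_div_iff (mul_ne_zero h4 h5), mul_mul_mul_comm,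
    mul_comm _ (O.1.valuation μ1), mul_comm _ (O.1.valuation μ2), h3]
  simp only [mul_pow]
  ac_rfl

theorem P5_alg {M : Type} [AddCommGroup M] (A B C : M) (s t : ℤ) :
    s ^ 2 • A + t ^ 2 • B + (s * t) • (C - A - B) =
      (s ^ 2 - s * t) • A + (t ^ 2 - s * t) • B + (s * t) • C := by
  module

/-- the valuative class of the symmetric theta vector is a quadratic form -/
theorem quad_val {a b : Cl o Ω} (ha : RatC K a) (hb : RatC K b) (s t : ℤ)
    {xa xb xab x : JJ o × JJ o → K} (h1 : Prp (Psym a) fun j => algebraMap K Ω (xa j))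
    (h2 : Prp (Psym b) fun j => algebraMap K Ω (xb j))
    (h3 : Prp (Psym (a + b)) fun j => algebraMap K Ω (xab j))
    (h : Prp (Psym (s • a + t • b)) fun j => algebraMap K Ω (x j)) :
    QEq (gen κ x)
      (gen κ xa ^ (s ^ 2 - s * t) * gen κ xb ^ (t ^ 2 - s * t) * gen κ xab ^ (s * t)) := by
  have hq := quad_of_par P5m_tf (P5q (o := o) (Ω := Ω) (K := K)) P5q_par ⟨a, ha⟩ ⟨b, hb⟩ s t
  have e0 : (s • (⟨a, ha⟩ : P5G o Ω K) + t • (⟨b, hb⟩ : P5G o Ω K)).1 = s • a + t • b := by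
    rw [AddSubgroup.coe_add, AddSubgroupClass.coe_zsmul, AddSubgroupClass.coe_zsmul]
  have e := P5q_eq (K := K) (s • (⟨a, ha⟩ : P5G o Ω K) + t • ⟨b, hb⟩) (x := x) (by
    rw [e0]; exact h)
  have e1 := P5q_eq (K := K) (⟨a, ha⟩ : P5G o Ω K) (x := xa) h1
  have e2 := P5q_eq (K := K) (⟨b, hb⟩ : P5G o Ω K) (x := xb) h2
  have e4 : ((⟨a, ha⟩ : P5G o Ω K) + (⟨b, hb⟩ : P5G o Ω K)).1 = a + b := AddSubgroup.coe_add _ _ _
  have e3 := P5q_eq (K := K) ((⟨a, ha⟩ : P5G o Ω K) + ⟨b, hb⟩) (x := xab) (by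
    rw [e4]; exact h3)
  rw [e, e1, e2, e3] at hq
  rw [← P5m_eq, hq, P5m_mul, P5m_mul, P5m_zpow, P5m_zpow, P5m_zpow]
  exact P5_alg _ _ _ s t

end

end Pool.Agent.E6b

end

section
open scoped NNReal TensorProduct IntermediateField BigOperators Classical Topology
open Filter

namespace Pool.Agent.E6b
variable {F : Type} [Field F] [Algebra Qb F] [IsFF Qb F] {o : Place Qb F} {d r₁ r₂ : ℕ}

theorem C5_ratC {B K Ω : Type} [CommRing B] [Algebra Qb B] [Field K] [Algebra Qb K] [Field Ω]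
    [IsAlgClosed Ω] [CharZero Ω] [Algebra Qb Ω] [Algebra K Ω] [IsScalarTower Qb K Ω]
    [Algebra.IsAlgebraic K Ω] {r : ℕ} (M : Mdl Qb r (IX o d)) (φ : B →ₐ[Qb] Ω)
    (hφ : ∀ b, φ b ∈ (algebraMap K Ω).range) (u : Fin r → B) (ξ : B) {z : Fin d → Pt o Ω}
    (hz : M.Crd (fun k => φ (u k)) (φ ξ) z) : RatC K (clz z) := by
  refine ratC_clz fun a i => ?_
  obtain ⟨x, hx⟩ := hφ (ev2 u ξ (M.P (.inl (a, i))))
  obtain ⟨y, hy⟩ := hφ (ev2 u ξ (Polynomial.C M.q))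
  exact ⟨x / y, by rw [hz a i, C5_val, map_div₀, hx, hy]⟩

end Pool.Agent.E6b

end

section
open scoped NNReal TensorProduct IntermediateField BigOperators Classical Topology
open Filter

namespace Pool.Agent.E6b

section
variable {κ Ω : Type} [Field κ] [Field Ω] [Algebra κ Ω]

theorem C6_prod_mem {l : VC κ Ω} {n : ℕ} {z : Fin n → Ω} (h : ∀ i, z i ∈ TT l) :
    ∏ i, z i ∈ TT (l ^ n) := by
  have := V6_prod_mem Finset.univ h fun _ => 1
  simpa using this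

end

end Pool.Agent.E6b

end

section
open scoped NNReal TensorProduct IntermediateField BigOperators Classical Topology
open Filter

namespace Pool.Agent.E6b
variable {F : Type} [Field F] [Algebra Qb F] [IsFF Qb F] {o : Place Qb F} {d : ℕ}

section
variable {r₁ r₂ : ℕ} {ι : Type} (M₁ : Mdl Qb r₁ ι) (M₂ : Mdl Qb r₂ ι)

theorem C6_e1K (p : PP Qb r₁) : algebraMap _ (TK M₁ M₂) (e1B M₁ M₂ p) =
    ev2 (fun k => uK M₁ M₂ (.inl k)) (algebraMap _ (TK M₁ M₂) (x1B M₁ M₂)) p :=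
  map_ev2 (IsScalarTower.toAlgHom Qb (TB M₁ M₂) (TK M₁ M₂)) _ _ p

theorem C6_e2K (p : PP Qb r₂) : algebraMap _ (TK M₁ M₂) (e2B M₁ M₂ p) =
    ev2 (fun k => uK M₁ M₂ (.inr k)) (algebraMap _ (TK M₁ M₂) (x2B M₁ M₂)) p :=
  map_ev2 (IsScalarTower.toAlgHom Qb (TB M₁ M₂) (TK M₁ M₂)) _ _ p

end

end Pool.Agent.E6b

end

section
open scoped NNReal TensorProduct IntermediateField BigOperators Classical Topology
open Filter

namespace Pool.Agent.E6b

theorem C3_ev2_C {K R : Type} [Field K] [CommRing R] [Algebra K R] {r : ℕ} (u : Fin r → R) (ξ : R)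
    (c : MvPolynomial (Fin r) K) : ev2 u ξ (Polynomial.C c) = MvPolynomial.aeval u c :=
  Polynomial.eval₂_C _ _

theorem C3_ev2_X {K R : Type} [Field K] [CommRing R] [Algebra K R] {r : ℕ} (u : Fin r → R)
    (ξ : R) : ev2 (K := K) u ξ Polynomial.X = ξ :=
  Polynomial.eval₂_X _ _

theorem C3_ev2_map {K R : Type} [Field K] [CommRing R] [Algebra K R] {r : ℕ} (u : Fin r → R)
    (ξ : R) (p : PP K r) :
    (p.map (MvPolynomial.aeval u : MvPolynomial (Fin r) K →ₐ[K] R).toRingHom).eval ξ =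
      ev2 u ξ p :=
  Polynomial.eval_map _ _

section
variable {K : Type} [Field K] {r : ℕ} {ι : Type} [Fintype ι] (M : Mdl K r ι)

theorem C3_one_mem : (1 : K) ∈ M.S := Finset.mem_insert_self _ _

theorem C3_m_sub : cfs M.m ⊆ M.S := fun a ha => by simp [Mdl.S, ha]

theorem C3_q_sub : M.q.coeffs ⊆ M.S := fun a ha => by simp [Mdl.S, ha]

theorem C3_P'_sub : cfs M.P' ⊆ M.S := fun a ha => by simp [Mdl.S, ha]

theorem C3_P_sub (l : ι) : cfs (M.P l) ⊆ M.S := fun _ ha =>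
  Finset.mem_insert_of_mem (Finset.mem_union_right _
    (Finset.mem_biUnion.2 ⟨l, Finset.mem_univ _, ha⟩))

end
open MvPowerSeries

/-- the constant coefficient -/
noncomputable def C3_cc (σ : Type) : MvPowerSeries σ Qb →ₐ[Qb] Qb :=
  { (constantCoeff : MvPowerSeries σ Qb →+* Qb) with commutes' := fun a => constantCoeff_C a }

theorem C3_cc_ev2 {σ : Type} {r : ℕ} (x : Fin r → MvPowerSeries σ Qb) (W : MvPowerSeries σ Qb)
    {u : Fin r → Qb} {ξ : Qb} (hx : ∀ i, constantCoeff (x i) = u i) (hW : constantCoeff W = ξ)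
    (P : PP Qb r) : constantCoeff (ev2 x W P) = ev2 u ξ P := by
  have := map_ev2 (C3_cc σ) x W P
  rw [← hW, ← funext hx]
  exact this

theorem C3_ht {S T : Finset Qb} (h1 : 1 ∈ S) (k : ℕ)
    (h : ∀ p v, IsPl p v → ∀ a ∈ T, v a ≤ (th p 2 * nrm v S) ^ k) : ht T ≤ k * (ht S + 1) := by
  have h2 := ht_le_of_local1 (s := insert 1 T) (t := S) ⟨1, Finset.mem_insert_self _ _, one_ne_zero⟩
    ⟨1, h1, one_ne_zero⟩ k (c := 2 ^ k) (by positivity) fun p v hv => by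
      rw [TB1_th_pow, ← mul_pow]
      have h3 : 1 ≤ (th p 2 * nrm v S) ^ k := one_le_pow₀ (TB1_one_le p v h1)
      refine nrm_le v (zero_le_one.trans h3) fun a ha => ?_
      rcases Finset.mem_insert.1 ha with rfl | ha
      · rwa [map_one]
      · exact h p v hv a ha
  have h3 := ht_mono (Finset.subset_insert 1 T)
  have h4 : Real.log 2 ≤ 1 := by
    have := Real.log_le_sub_one_of_pos (x := 2) two_pos
    linarith
  rw [Real.log_pow] at h2
  have h5 : (k : ℝ) * Real.log 2 ≤ k * 1 := mul_le_mul_of_nonneg_left h4 (Nat.cast_nonneg k)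
  linarith

theorem C3_union {S : Finset Qb} (hS : 1 ∈ S) {ι : Type} [Fintype ι] (g : ι → Qb) :
    ht (S ∪ Finset.univ.image g) ≤ ht S + ∑ i, h1 (g i) := by
  have h2 := H2_two (s := S ∪ Finset.univ.image g) (t := S) (u := insert 1 (Finset.univ.image g))
    ⟨1, Finset.mem_union_left _ hS, one_ne_zero⟩ ⟨1, hS, one_ne_zero⟩
    ⟨1, Finset.mem_insert_self _ _, one_ne_zero⟩ one_pos fun p v _ => by
      have a1 := TB1_one_le_nrm v hS
      have a2 := TB1_one_le_nrm v (Finset.mem_insert_self 1 (Finset.univ.image g))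
      rw [H2_th_one, one_mul]
      refine nrm_le v (by positivity) fun a ha => ?_
      rcases Finset.mem_union.1 ha with ha | ha
      · exact (le_nrm v ha).trans (le_mul_of_one_le_right (by positivity) a2)
      · exact (le_nrm v (Finset.mem_insert_of_mem ha)).trans
          (le_mul_of_one_le_left (by positivity) a1)
  have h3 := H2_ins Finset.univ g
  rw [Real.log_one] at h2
  linarith

theorem C3_base {r : ℕ} {S : Finset Qb} (hS : 1 ∈ S) (u : Fin r → Qb) (ξ : Qb) :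
    ∃ S₀ : Finset Qb, S ⊆ S₀ ∧ (∀ i, u i ∈ S₀) ∧ ξ ∈ S₀ ∧ ht S₀ ≤ ht S + (∑ i, h1 (u i) + h1 ξ) := by
  refine ⟨S ∪ Finset.univ.image fun o : Option (Fin r) => o.elim ξ u, Finset.subset_union_left,
    fun i => Finset.mem_union_right _ (Finset.mem_image.2 ⟨some i, Finset.mem_univ _, rfl⟩),
    Finset.mem_union_right _ (Finset.mem_image.2 ⟨none, Finset.mem_univ _, rfl⟩), ?_⟩
  have := C3_union hS fun o : Option (Fin r) => o.elim ξ u
  rw [Fintype.sum_option] at this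
  simp only [Option.elim] at this ⊢
  linarith

theorem C3_h1 {r Δ k : ℕ} (hk : ∀ (S T : Finset Qb) (u : Fin r → Qb) (ξ : Qb), 1 ∈ S →
    (∀ i, u i ∈ S) → ξ ∈ S →
    (∀ a ∈ T, a = 1 ∨ ∃ P : PP Qb r, CxP Δ P ∧ cfs P ⊆ S ∧ a = ev2 u ξ P) →
    ht T ≤ k * (ht S + 1)) {S : Finset Qb} {u : Fin r → Qb} {ξ : Qb} (hS : 1 ∈ S)
    (hu : ∀ i, u i ∈ S) (hξ : ξ ∈ S) {P : PP Qb r} (hP : CxP Δ P) (hc : cfs P ⊆ S) :
    h1 (ev2 u ξ P) ≤ k * (ht S + 1) := by
  refine hk S _ u ξ hS hu hξ fun a ha => ?_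
  rcases Finset.mem_insert.1 ha with rfl | ha
  · exact Or.inl rfl
  · exact Or.inr ⟨P, hP, hc, Finset.mem_singleton.1 ha⟩

theorem C3_xp_none {R : Type} [CommRing R] [Algebra Qb R] {r : ℕ} (u : Fin r → R) (ξ : R) :
    ev2 u ξ (xp Qb r none) = 1 := map_one _

theorem C3_xp_T {R : Type} [CommRing R] [Algebra Qb R] {r : ℕ} (u : Fin r → R) (ξ : R) :
    ev2 u ξ (xp Qb r (some none)) = ξ := C3_ev2_X u ξ

theorem C3_xp_u {R : Type} [CommRing R] [Algebra Qb R] {r : ℕ} (u : Fin r → R) (ξ : R)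
    (i : Fin r) : ev2 u ξ (xp Qb r (some (some i))) = u i :=
  (C3_ev2_C u ξ _).trans (MvPolynomial.aeval_X _ _)

theorem hv_xp_le {r : ℕ} (u : Fin r → Qb) (ξ : Qb) :
    hv (fun l => ev2 u ξ (xp Qb r l)) ≤ ∑ i, h1 (u i) + h1 ξ := by
  refine (hv_le_sum _).trans (le_of_eq ?_)
  rw [Fintype.sum_option, Fintype.sum_option, C3_xp_none, C3_xp_T, H2_h1_one, zero_add, add_comm]
  simp only [C3_xp_u]

theorem C3_hv_mon {r : ℕ} {I J : Type} [Fintype J] (M : Mdl Qb r (I ⊕ J)) {A c N : ℕ}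
    (μ : Fin N → Mon J r A c) (u : Fin r → Qb) (ξ : Qb) :
    hv (fun i => ev2 u ξ (M.mon (μ i))) ≤
      A * hv (fun j => ev2 u ξ (M.P (.inr j))) + c * hv (fun l => ev2 u ξ (xp Qb r l)) := by
  simp only [Mdl.mon, map_mul, map_prod]
  exact (C3_hv_mul _ _).trans (add_le_add
    (C3_hv_prod (fun j => ev2 u ξ (M.P (.inr j))) A fun i => (μ i).1)
    (C3_hv_prod (fun l => ev2 u ξ (xp Qb r l)) c fun i => (μ i).2))

/-- height of a vector of products of two monomials -/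
theorem hv_mon_le {r₁ r₂ : ℕ} {I J : Type} [Fintype I] [Fintype J] (M₁ : Mdl Qb r₁ (I ⊕ J))
    (M₂ : Mdl Qb r₂ (I ⊕ J)) {A₁ A₂ c N : ℕ} (μ₁ : Fin N → Mon J r₁ A₁ c)
    (μ₂ : Fin N → Mon J r₂ A₂ c) (u₁ : Fin r₁ → Qb) (ξ₁ : Qb) (u₂ : Fin r₂ → Qb) (ξ₂ : Qb) :
    hv (fun i => ev2 u₁ ξ₁ (M₁.mon (μ₁ i)) * ev2 u₂ ξ₂ (M₂.mon (μ₂ i))) ≤
      A₁ * hv (fun j => ev2 u₁ ξ₁ (M₁.P (.inr j))) + c * hv (fun l => ev2 u₁ ξ₁ (xp Qb r₁ l)) +
      A₂ * hv (fun j => ev2 u₂ ξ₂ (M₂.P (.inr j))) + c * hv (fun l => ev2 u₂ ξ₂ (xp Qb r₂ l)) := by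
  have a1 := C3_hv_mul (fun i => ev2 u₁ ξ₁ (M₁.mon (μ₁ i))) fun i => ev2 u₂ ξ₂ (M₂.mon (μ₂ i))
  have a2 := C3_hv_mon M₁ μ₁ u₁ ξ₁
  have a3 := C3_hv_mon M₂ μ₂ u₂ ξ₂
  linarith

end Pool.Agent.E6b

end

section
open scoped NNReal TensorProduct IntermediateField BigOperators Classical Topology
open Filter

namespace Pool.Agent.E6b
variable {F : Type} [Field F] [Algebra Qb F] [IsFF Qb F] (o : Place Qb F)

theorem MW1_fd {S : Set Qb} (hS : S.Finite) : FiniteDimensional ℚ (IntermediateField.adjoin ℚ S) :=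
  have := hS.to_subtype
  IntermediateField.finiteDimensional_adjoin fun x _ => (H3_isAlgebraic.isAlgebraic x).isIntegral

/-- a number field over which the curve and the auxiliary data are defined -/
theorem exists_defField : ∃ K : IntermediateField ℚ Qb, FiniteDimensional ℚ K ∧
    ∀ σ : Qb ≃ₐ[ℚ] Qb, (∀ x ∈ K, σ x = x) → ∃ β : BC o Qb Qb, (∀ x, β.τ x = σ x) ∧ β.Ok := by
  obtain ⟨S, hS⟩ := exists_ok_finset o
  refine ⟨IntermediateField.adjoin ℚ (S : Set Qb), MW1_fd S.finite_toSet, fun σ hσ => ?_⟩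
  obtain ⟨β, h1, h2⟩ := hS Qb Qb (σ : Qb →+* Qb) fun c hc =>
    hσ c (IntermediateField.subset_adjoin ℚ _ hc)
  exact ⟨β, fun x => by rw [h1]; rfl, h2⟩

theorem GK_mono {K K' : IntermediateField ℚ Qb} (h : K ≤ K') : GK o K ≤ GK o K' :=
  fun _ hw β hβ => hw β fun x hx => hβ x (h hx)

theorem exists_mem_GK (w : Cl o Qb) :
    ∃ K : IntermediateField ℚ Qb, FiniteDimensional ℚ K ∧ w ∈ GK o K := by
  obtain ⟨z, -, -, rfl⟩ := exists_rep w (Fin (2 * genus Qb F)) (by simp) Set.finite_empty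
  refine ⟨IntermediateField.adjoin ℚ
    (Set.range fun q : Fin (2 * genus Qb F) × Fin (MM o) => z q.1 (eb o q.2)),
    MW1_fd (Set.finite_range _), fun β hβ => ?_⟩
  rw [β.cl_clz]
  congr 1
  funext a
  apply pt_ext
  funext i
  simp only [cd]
  rw [β.pt_eb]
  exact hβ _ (IntermediateField.subset_adjoin ℚ _ ⟨(a, i), rfl⟩)

end Pool.Agent.E6b

end

section
open scoped NNReal TensorProduct IntermediateField BigOperators Classical Topology
open Filter

namespace Pool.Agent.E6b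

section gal
variable (σ : Qb ≃ₐ[ℚ] Qb) {r : ℕ}

theorem C7_aeval_gal (u : Fin r → Qb) {q : MvPolynomial (Fin r) Qb} (h : ∀ a ∈ q.coeffs, σ a = a) :
    MvPolynomial.aeval (fun k => σ (u k)) q = σ (MvPolynomial.aeval u q) := by
  rw [MvPolynomial.aeval_def, MvPolynomial.aeval_def, MvPolynomial.eval₂_eq, MvPolynomial.eval₂_eq,
    map_sum]
  refine Finset.sum_congr rfl fun m hm => ?_
  rw [map_mul, map_prod, Algebra.algebraMap_self, RingHom.id_apply,
    h _ (MvPolynomial.coeff_mem_coeffs m (MvPolynomial.mem_support_iff.1 hm))]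
  simp only [map_pow]

theorem C7_ev2_eq {K R : Type} [Field K] [CommRing R] [Algebra K R] (u : Fin r → R) (ξ : R)
    (p : PP K r) :
    ev2 u ξ p = ∑ i ∈ p.support, MvPolynomial.aeval u (p.coeff i) * ξ ^ i :=
  Polynomial.eval₂_eq_sum

theorem C7_ev2_C {K R : Type} [Field K] [CommRing R] [Algebra K R] (u : Fin r → R) (ξ : R)
    (q : MvPolynomial (Fin r) K) : ev2 u ξ (Polynomial.C q) = MvPolynomial.aeval u q :=
  Polynomial.eval₂_C _ _

theorem C7_ev2_X {K R : Type} [Field K] [CommRing R] [Algebra K R] (u : Fin r → R) (ξ : R) :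
    ev2 u ξ (Polynomial.X : PP K r) = ξ :=
  Polynomial.eval₂_X _ _

theorem C7_ev2_gal (u : Fin r → Qb) (ξ : Qb) {p : PP Qb r} (h : ∀ a ∈ cfs p, σ a = a) :
    ev2 (fun k => σ (u k)) (σ ξ) p = σ (ev2 u ξ p) := by
  rw [C7_ev2_eq, C7_ev2_eq, map_sum]
  refine Finset.sum_congr rfl fun i hi => ?_
  rw [map_mul, map_pow, C7_aeval_gal σ u fun a ha => h a (Finset.mem_biUnion.2 ⟨i, hi, ha⟩)]

theorem C7_mdl_gal {I J : Type} [Fintype I] [Fintype J] (M : Mdl Qb r (I ⊕ J))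
    (h : ∀ a ∈ M.S, σ a = a) (u : Fin r → Qb) (ξ : Qb) :
    ev2 (fun k => σ (u k)) (σ ξ) M.m = σ (ev2 u ξ M.m) ∧
    MvPolynomial.aeval (fun k => σ (u k)) M.q = σ (MvPolynomial.aeval u M.q) ∧
    (∀ l, M.val (fun k => σ (u k)) (σ ξ) l = σ (M.val u ξ l)) ∧
    ∀ {A c : ℕ} (μ : Mon J r A c),
      ev2 (fun k => σ (u k)) (σ ξ) (M.mon μ) = σ (ev2 u ξ (M.mon μ)) := by
  have h1 := C7_ev2_gal σ u ξ (p := M.m) fun a ha => h a (by simp [Mdl.S, ha])
  have h2 := C7_aeval_gal σ u (q := M.q) fun a ha => h a (by simp [Mdl.S, ha])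
  have h3 := fun l => C7_ev2_gal σ u ξ (p := M.P l) fun a ha => h a
    (Finset.mem_insert_of_mem (Finset.mem_union_right _
      (Finset.mem_biUnion.2 ⟨l, Finset.mem_univ l, ha⟩)))
  have h4 : ∀ l, ev2 (fun k => σ (u k)) (σ ξ) (xp Qb r l) = σ (ev2 u ξ (xp Qb r l)) := by
    rintro (_ | _ | k)
    · simp only [xp, map_one]
    · simp only [xp, C7_ev2_X]
    · simp only [xp, C7_ev2_C, MvPolynomial.aeval_X]
  refine ⟨h1, h2, fun l => ?_, fun μ => ?_⟩
  · rw [Mdl.val, Mdl.val, h3, h2, map_div₀]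
  · simp only [Mdl.mon, map_mul, map_prod, h3, h4]

end gal

theorem C7_e1 {r₁ r₂ : ℕ} {ι : Type} {M₁ : Mdl Qb r₁ ι} {M₂ : Mdl Qb r₂ ι}
    (χ : TB M₁ M₂ →ₐ[Qb] Qb) (p : PP Qb r₁) : χ (e1B M₁ M₂ p) =
      ev2 (fun k => χ (uB M₁ M₂ (.inl k))) (χ (x1B M₁ M₂)) p := map_ev2 χ _ _ p

theorem C7_e2 {r₁ r₂ : ℕ} {ι : Type} {M₁ : Mdl Qb r₁ ι} {M₂ : Mdl Qb r₂ ι}
    (χ : TB M₁ M₂ →ₐ[Qb] Qb) (p : PP Qb r₂) : χ (e2B M₁ M₂ p) =
      ev2 (fun k => χ (uB M₁ M₂ (.inr k))) (χ (x2B M₁ M₂)) p := map_ev2 χ _ _ p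

end Pool.Agent.E6b

end

section
open scoped NNReal TensorProduct IntermediateField BigOperators Classical Topology
open Filter

namespace Pool.Agent.E6b

theorem C7_real {a c S p₁ x₁ p₂ x₂ H₁ H₂ C₂ C₃ C₄ h q : ℝ} (hS : 1 ≤ S) (hc : 0 ≤ c)
    (ha : 2 * c ≤ a) (hH₁ : 1 ≤ H₁) (hH₂ : 1 ≤ H₂) (h₂ : 0 ≤ C₂) (h₃ : 0 ≤ C₃) (h₄ : 0 ≤ C₄)
    (a1 : p₁ ≤ C₂ * H₁) (a2 : x₁ ≤ C₂ * H₁) (a3 : p₂ ≤ C₃ * H₂) (a4 : x₂ ≤ C₃ * H₂)
    (hh : h ≤ (2 * a * S + c) * p₁ + c * x₁ + (2 * a + c) * p₂ + c * x₂)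
    (hq : q ≤ 2 * S * (p₁ + C₄) + 2 * (p₂ + C₄) + C₄) :
    h + a * q ≤ (5 * C₂ + 5 * C₃ + 3 * C₄) * a * (S * H₁ + H₂) := by
  have ha0 : 0 ≤ a := by linarith
  have hS0 : 0 ≤ S := by linarith
  have hP : 0 ≤ C₂ * H₁ := by positivity
  have hQ : 0 ≤ C₃ * H₂ := by positivity
  have b1 : (2 * a * S + c) * p₁ ≤ (2 * a * S + c) * (C₂ * H₁) := by gcongr
  have b2 : c * x₁ ≤ c * (C₂ * H₁) := by gcongr
  have b3 : (2 * a + c) * p₂ ≤ (2 * a + c) * (C₃ * H₂) := by gcongr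
  have b4 : c * x₂ ≤ c * (C₃ * H₂) := by gcongr
  have b5 : 2 * c * (C₂ * H₁) ≤ a * S * (C₂ * H₁) :=
    mul_le_mul_of_nonneg_right (ha.trans (le_mul_of_one_le_right ha0 hS)) hP
  have b6 : 2 * c * (C₃ * H₂) ≤ a * (C₃ * H₂) := mul_le_mul_of_nonneg_right ha hQ
  have b7 : S * p₁ ≤ S * (C₂ * H₁) := by gcongr
  have b8 : C₄ * (S * 1) ≤ C₄ * (S * H₁) := by gcongr
  have b9 : C₄ * 1 ≤ C₄ * H₂ := by gcongr
  have c1 : 0 ≤ C₂ * H₂ := by positivity
  have c2 : 0 ≤ C₃ * (S * H₁) := by positivity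
  have c3 : 0 ≤ C₄ * S := by positivity
  have c4 : 3 * (S * (C₂ * H₁)) + 3 * (C₃ * H₂) + q ≤
      (5 * C₂ + 5 * C₃ + 3 * C₄) * (S * H₁ + H₂) := by linarith
  have c5 := mul_le_mul_of_nonneg_left c4 ha0
  linarith

theorem C7_final {n κ B β c K C₅ C₂ E T x : ℝ} (hκ : 0 < κ) (hn : 1 ≤ n) (h5 : n ≤ C₅ * κ)
    (hT : 1 ≤ T) (hK : 0 ≤ K) (hc : 0 ≤ c) (hcK : c ≤ K) (hl : Real.log n ≤ K) (hβ : 0 ≤ β)
    (hB : β = C₂ * (K * E) * T) (hx : x ≤ n / κ * (β + c + 3 * Real.log n) + c)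
    (hB' : B = C₅ * (C₂ * E + 4) + 1) : x ≤ B * K * T := by
  have h1 : n / κ ≤ C₅ := (div_le_iff₀ hκ).2 h5
  have h2 : 0 ≤ Real.log n := Real.log_nonneg hn
  have h3 : 0 ≤ n / κ := by positivity
  have h4 : K * 1 ≤ K * T := by gcongr
  have h6 : n / κ * (β + c + 3 * Real.log n) ≤ C₅ * (β + 4 * (K * T)) :=
    mul_le_mul h1 (by linarith) (by positivity) (h3.trans h1)
  rw [hB] at h6 hx
  rw [hB']
  linarith

end Pool.Agent.E6b

end
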