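import Pool.Agent.E6c.A36
import Pool.Agent.E6c.A37

section
open scoped NNReal TensorProduct IntermediateField BigOperators Classical Topology
open Filter

namespace Pool.Agent.E6b
variable {κ F : Type} [Field κ] [IsAlgClosed κ] [CharZero κ] [Field F] [Algebra κ F] [IsFF κ F]

theorem ell_le {D : Dv κ F} (h : -1 ≤ deg D) : (ell D : ℤ) ≤ deg D + 1 := by
  rcases Nat.eq_zero_or_pos (ell D) with h0 | h0
  · omega
  obtain ⟨f, hf, hf0⟩ := F2_exists_ne h0
  have h1 := F2_ell_add_le 0 ((mem_LL_iff hf0).1 hf)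
  rw [zero_add, F2_ell_add_dv D hf0, ell_zero, deg_add, deg_dv] at h1
  omega

end Pool.Agent.E6b

end

section
open scoped NNReal TensorProduct IntermediateField BigOperators Classical Topology
open Filter

namespace Pool.Agent.E6b

/-- the field containing all covers -/
abbrev LX : Type := AlgebraicClosure (RatFunc Qb)

noncomputable def tX : LX := algebraMap (RatFunc Qb) LX RatFunc.X

end Pool.Agent.E6b

end

section
open scoped NNReal TensorProduct IntermediateField BigOperators Classical Topology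
open Filter

namespace Pool.Agent.E6b

theorem X4_indep {κ F : Type} [Field κ] [IsAlgClosed κ] [Field F] [Algebra κ F] {t : F}
    (ht : t ∉ (algebraMap κ F).range) {ι : Type} {y : ι → F} (hy : LinearIndependent κ⟮t⟯ y)
    (m : ℕ) : LinearIndependent κ fun p : Fin m × ι => t ^ (p.1 : ℕ) * y p.2 := by
  have h1 : LinearIndependent κ fun i : ℕ => t ^ i := by
    have h2 := (Polynomial.basisMonomials κ).linearIndependent.map'
      (Polynomial.aeval t : Polynomial κ →ₐ[κ] F).toLinearMap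
      (LinearMap.ker_eq_bot.2 (transcendental_iff_injective.1 (F0_transcendental ht)))
    have h3 : (fun i : ℕ => t ^ i) = (Polynomial.aeval t : Polynomial κ →ₐ[κ] F).toLinearMap ∘
        Polynomial.basisMonomials κ := by
      ext i
      simp
    rw [h3]
    exact h2
  have h2 : LinearIndependent κ fun i : Fin m =>
      (IntermediateField.AdjoinSimple.gen κ t) ^ (i : ℕ) := by
    refine LinearIndependent.of_comp (κ⟮t⟯).val.toLinearMap ?_
    exact h1.comp (fun i : Fin m => (i : ℕ)) Fin.val_injective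
  have h3 : (fun p : Fin m × ι => t ^ (p.1 : ℕ) * y p.2) = fun p : Fin m × ι =>
      (IntermediateField.AdjoinSimple.gen κ t) ^ (p.1 : ℕ) • y p.2 := by
    funext p
    rw [Algebra.smul_def, map_pow, IntermediateField.AdjoinSimple.algebraMap_gen]
  rw [h3]
  exact linearIndependent_smul (R := κ) (S := κ⟮t⟯) (A := F) (ι := Fin m) (ι' := ι)
    (b := fun i : Fin m => (IntermediateField.AdjoinSimple.gen κ t) ^ (i : ℕ)) (c := y) h2 hy

/-- bounded representation of a function of bounded degree -/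
theorem exists_repr_bdd {κ F : Type} [Field κ] [IsAlgClosed κ] [CharZero κ] [Field F] [Algebra κ F]
    [IsFF κ F] {t : F} (ht : t ∉ (algebraMap κ F).range) {ι : Type} [Fintype ι] (y : ι → F)
    (hy : LinearIndependent κ⟮t⟯ y) (hc : Fintype.card ι = rk κ t) {c b : ℕ}
    (hd : ∀ i, deg (dinf κ (y i)) ≤ c) {f : F} (hf : deg (dinf κ f) ≤ b) :
    ∃ (β : Fin (b + Fintype.card ι * c + 1) → κ) (α : ι → Fin (b + Fintype.card ι * c + 1) → κ),
      β ≠ 0 ∧ (∑ k, β k • t ^ (k : ℕ)) * f = ∑ i, (∑ k, α i k • t ^ (k : ℕ)) * y i := by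
  generalize hD : b + Fintype.card ι * c = D
  have hn := rk_pos ht
  have n0 : ∀ z : F, 0 ≤ dinf κ z := F2_dinf_nonneg
  have n1 : (0 : Dv κ F) ≤ ∑ i, dinf κ (y i) := Finset.sum_nonneg fun i _ => n0 _
  have h1 : ∀ p : Fin (D + 1) × Option ι, t ^ (p.1 : ℕ) * p.2.elim f y ∈
      LL (D • dinf κ t + (dinf κ f + ∑ i, dinf κ (y i))) := by
    rintro ⟨k, _ | i⟩
    · exact mul_mem_LL (F2_pow_mem t (Nat.lt_succ_iff.1 k.2))
        (LL_mono (le_add_of_nonneg_right n1) (mem_LL_dinf f))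
    · exact mul_mem_LL (F2_pow_mem t (Nat.lt_succ_iff.1 k.2))
        (LL_mono ((Finset.single_le_sum (f := fun i => dinf κ (y i)) (fun i _ => n0 _)
          (Finset.mem_univ i)).trans (le_add_of_nonneg_left (n0 f))) (mem_LL_dinf (y i)))
  have h2 : ¬ LinearIndependent κ fun p : Fin (D + 1) × Option ι =>
      t ^ (p.1 : ℕ) * p.2.elim f y := fun hi => by
    have h3 : LinearIndependent κ fun p : Fin (D + 1) × Option ι =>
        (⟨_, h1 p⟩ : LL (D • dinf κ t + (dinf κ f + ∑ i, dinf κ (y i)))) :=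
      LinearIndependent.of_comp (Submodule.subtype _) hi
    have h4 : _ ≤ ell _ := h3.fintype_card_le_finrank
    have h5 := ell_le (le_trans (by norm_num) (F1_deg_nonneg
      (add_nonneg (nsmul_nonneg (n0 t) D) (add_nonneg (n0 f) n1))))
    have h6 : ∑ i, deg (dinf κ (y i)) ≤ Fintype.card ι * c := by
      simpa using Finset.sum_le_sum fun i (_ : i ∈ Finset.univ) => hd i
    rw [deg_add, deg_add, deg_nsmul, deg_sum, deg_dinf_rk ht, ← hc] at h5
    rw [Fintype.card_prod, Fintype.card_fin, Fintype.card_option] at h4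
    rw [← hc] at hn
    zify at h4 hD hn
    nlinarith
  obtain ⟨g, h3, p, hp⟩ := Fintype.not_linearIndependent_iff.1 h2
  rw [Fintype.sum_prod_type] at h3
  simp only [Fintype.sum_option, Option.elim, Finset.sum_add_distrib] at h3
  refine ⟨fun k => g (k, none), fun i k => -g (k, some i), fun h0 => hp ?_, ?_⟩
  · have h4 : ∀ k, g (k, none) = 0 := congrFun h0
    obtain ⟨k, _ | i⟩ := p
    · exact h4 k
    · refine Fintype.linearIndependent_iff.1 (X4_indep ht hy (D + 1))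
        (fun p => g (p.1, some p.2)) ?_ (k, i)
      rw [Fintype.sum_prod_type]
      simpa only [h4, zero_smul, Finset.sum_const_zero, zero_add] using h3
  · rw [Finset.sum_comm, ← eq_neg_iff_add_eq_zero] at h3
    simpa only [Finset.sum_mul, smul_mul_assoc, neg_smul, neg_mul, Finset.sum_neg_distrib]
      using h3

end Pool.Agent.E6b

end

section
open scoped NNReal TensorProduct IntermediateField BigOperators Classical Topology
open Filter

namespace Pool.Agent.E6b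

theorem X5a_countable (ι : Type) [Fintype ι] : Countable (MvPolynomial ι Qb) := by
  have := H1a_isAlgebraic
  have h1 : Cardinal.mk Qb ≤ Cardinal.aleph0 :=
    (Algebra.IsAlgebraic.cardinalMk_le_max ℚ Qb).trans (by simp)
  exact Cardinal.mk_le_aleph0_iff.1 (MvPolynomial.cardinalMk_le_max.trans
    (sup_le (sup_le h1 Cardinal.mk_le_aleph0) le_rfl))

theorem X5a_avoid {ι : Type} (p : ℤ) (hp : p ≠ 0) (r : ι → ℤ) {Q : MvPolynomial ι Qb}
    (hQ : Q ≠ 0) : ∃ u : ι → ℤ, (∀ i, p ∣ u i - r i) ∧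
      MvPolynomial.eval (fun i => (u i : Qb)) Q ≠ 0 := by
  by_contra h
  push Not at h
  refine hQ (MvPolynomial.funext_set (fun i => Set.range fun k : ℤ => ((r i + p * k : ℤ) : Qb))
    (fun i => Set.infinite_range_of_injective fun k l e => ?_) fun x hx => ?_)
  · exact mul_left_cancel₀ hp (add_left_cancel (Int.cast_injective (α := Qb) e))
  · choose k hk using fun i => hx i trivial
    rw [map_zero, ← funext hk]
    exact h (fun i => r i + p * k i) fun i => ⟨k i, by ring⟩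

/-- integer vectors in given congruence classes avoiding all hypersurfaces eventually -/
theorem exists_generic_seq {ι : Type} [Fintype ι] (p : ℤ) (hp : p ≠ 0) (r : ι → ℤ) :
    ∃ u : ℕ → ι → ℤ, (∀ n i, p ∣ u n i - r i) ∧ ∀ Q : MvPolynomial ι Qb, Q ≠ 0 →
      ∀ᶠ n in atTop, MvPolynomial.eval (fun i => (u n i : Qb)) Q ≠ 0 := by
  have := X5a_countable ι
  obtain ⟨e, he⟩ := exists_surjective_nat (MvPolynomial ι Qb)
  choose u h1 h2 using fun n => X5a_avoid p hp r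
    (Q := ∏ k ∈ (Finset.range n).filter fun k => e k ≠ 0, e k)
    (Finset.prod_ne_zero_iff.2 fun k hk => (Finset.mem_filter.1 hk).2)
  refine ⟨u, h1, fun Q hQ => ?_⟩
  obtain ⟨k, rfl⟩ := he Q
  refine (eventually_gt_atTop k).mono fun n hn => ?_
  have h3 := h2 n
  rw [map_prod, Finset.prod_ne_zero_iff] at h3
  exact h3 k (Finset.mem_filter.2 ⟨Finset.mem_range.2 hn, hQ⟩)

theorem X5a_dvd {p : ℕ} (hp : p.Prime) {T : Qb} (hT : IsIntegral ℤ T) {c : ℤ}
    (h : p * T = c) : (p : ℤ) ∣ c := by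
  by_contra hc
  obtain ⟨v, hv⟩ := exists_isPl (Or.inr hp)
  have h1 := H1a_coprime hv hp.ne_zero hc
  have h2 := hv.le_one_of_isIntegral hp.ne_zero hT
  rw [← h, map_mul, (H1a_prime hv hp.ne_zero).2] at h1
  have h3 : (1 : ℝ) < p := by exact_mod_cast hp.one_lt
  rw [inv_mul_eq_one₀ (by positivity)] at h1
  linarith
variable {a : ℕ} (Λ : AR a)

theorem AR.ns {m c : Fin 5 → ℤ} (h : Λ.Adm m c) (s : Fin 5) : (Λ.W m c s).Ns := by
  choose k hk using h.1
  have h1 : Λ.pv m s = 1 + Λ.p * Λ.pv k s := by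
    have h2 : ∀ i, (m i : Qb) = (if i = 0 then 1 else 0) + Λ.p * k i := fun i => by
      have h3 := congrArg (Int.cast : ℤ → Qb) (hk i)
      push_cast at h3
      linear_combination h3
    simp only [AR.pv, h2, Fin.sum_univ_five]
    simp
    ring
  have h0 : Λ.pv m s ≠ 0 := fun e => by
    have h3 := X5a_dvd Λ.prime (X5a_int Λ k s) (c := -1) (by push_cast; linear_combination e - h1)
    exact Λ.prime.one_lt.ne' (Nat.dvd_one.1 (Int.natCast_dvd_natCast.1 (dvd_neg.1 h3)))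
  have h4 : 256 * Λ.p ^ 3 * Λ.pv m s + 27 ≠ 0 := fun e => by
    have h3 := X5a_dvd Λ.prime ((isIntegral_algebraMap (x := (256 * Λ.p ^ 2 : ℤ))).mul
      (X5a_int Λ m s)) (c := -27) (by simp only [eq_intCast]; push_cast; linear_combination e)
    have h5 : Λ.p ∣ 3 ^ 3 := Int.natCast_dvd_natCast.1 (dvd_neg.1 h3)
    have h6 := Nat.le_of_dvd (by norm_num) (Λ.prime.dvd_of_dvd_pow h5)
    have := Λ.big
    omega
  intro e
  refine mul_ne_zero (pow_ne_zero 4 h0) h4 ?_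
  simp only [AR.W] at e
  linear_combination e

open MvPolynomial in
/-- the values `pv m s`, `pv c s` of a generic sequence are independent in the ultrapower -/
theorem AR.indep (U : Ultrafilter ℕ) (hU : (U : Filter ℕ) ≤ atTop) (u : ℕ → Fin 5 ⊕ Fin 5 → ℤ)
    (hu : ∀ Q : MvPolynomial (Fin 5 ⊕ Fin 5) Qb, Q ≠ 0 →
      ∀ᶠ n in atTop, MvPolynomial.eval (fun i => (u n i : Qb)) Q ≠ 0) :
    AlgebraicIndependent Qb (Sum.elim (fun s => gm U fun n => Λ.pv (fun i => u n (.inl i)) s)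
      fun s => gm U fun n => Λ.pv (fun i => u n (.inr i)) s) := by
  let L : Fin 5 ⊕ Fin 5 → MvPolynomial (Fin 5 ⊕ Fin 5) Qb := Sum.elim
    (fun s => ∑ i : Fin 5, X (.inl i) * C (Λ.θ s ^ (i : ℕ)))
    fun s => ∑ i : Fin 5, X (.inr i) * C (Λ.θ s ^ (i : ℕ))
  have hV : Function.Surjective (Matrix.vandermonde Λ.θ).mulVec :=
    Matrix.mulVec_surjective_iff_isUnit.2 ((Matrix.isUnit_iff_isUnit_det _).2
      (Matrix.det_vandermonde_ne_zero_iff.2 Λ.inj).isUnit)
  refine algebraicIndependent_iff.2 fun P hP => ?_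
  by_contra h0
  have h1 : bind₁ L P ≠ 0 := fun e => h0 (MvPolynomial.funext fun b => by
    obtain ⟨a₁, h₁⟩ := hV fun s => b (.inl s)
    obtain ⟨a₂, h₂⟩ := hV fun s => b (.inr s)
    have h2 := congrArg (aeval (Sum.elim a₁ a₂)) e
    rw [aeval_bind₁, map_zero] at h2
    rw [map_zero, ← h2]
    change aeval b P = _
    congr 2
    funext j
    rcases j with s | s
    · simp [L, ← congrFun h₁ s, Matrix.mulVec, dotProduct, mul_comm]
    · simp [L, ← congrFun h₂ s, Matrix.mulVec, dotProduct, mul_comm])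
  have h3 := (gm_ne_iff U _ fun _ => 0).2 (hU (hu _ h1))
  refine h3 (Eq.trans ?_ hP)
  have h4 := gm_aeval U P fun j n => aeval (fun i => (u n i : Qb)) (L j)
  refine Eq.trans ?_ (h4.trans ?_)
  · congr 1
    funext n
    exact aeval_bind₁ (fun i => (u n i : Qb)) L P
  · congr 2
    funext j
    rcases j with s | s <;> simp [L, AR.pv]

theorem X5a_acl {κ Ω ι : Type} [Field κ] [Field Ω] [Algebra κ Ω] {z : ι → Ω}
    (hz : AlgebraicIndependent κ z) (j : ι) : ∃ K : IntermediateField κ Ω,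
      (∀ i, i ≠ j → z i ∈ K) ∧ z j ∉ K ∧ ∀ x, IsAlgebraic K x → x ∈ K := by
  refine ⟨(algebraicClosure (IntermediateField.adjoin κ (z '' {j}ᶜ)) Ω).restrictScalars κ,
    fun i hi => mem_algebraicClosure_iff.2 (isAlgebraic_algebraMap
      (⟨z i, IntermediateField.subset_adjoin κ _ ⟨i, hi, rfl⟩⟩ :
        IntermediateField.adjoin κ (z '' {j}ᶜ))), fun h => ?_, fun x hx => ?_⟩
  · exact IntermediateField.transcendental_adjoin_iff.2
      (hz.transcendental_adjoin (s := {j}ᶜ) (i := j) fun h => h rfl) (mem_algebraicClosure_iff.1 h)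
  · have hx' : IsAlgebraic (algebraicClosure (IntermediateField.adjoin κ (z '' {j}ᶜ)) Ω) x := hx
    exact mem_algebraicClosure_iff.2 (hx'.restrictScalars _)

/-- the equations of a critical point -/
def X5a_Sp {R : Type} [CommRing R] (a p : ℕ) (M x y : R) : Prop :=
  y ^ 2 = x ^ 3 + 4 * p * M * x ^ 2 + M ^ 2 ∧
    (2 * a + 3) * x ^ 4 + (2 * a + 2) * (4 * p * M) * x ^ 3 + 2 * a * M ^ 2 * x = 0

theorem X5a_map {R S : Type} [CommRing R] [CommRing S] (φ : R →+* S) {a p : ℕ} {M x y : R}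
    (h : X5a_Sp a p M x y) : X5a_Sp a p (φ M) (φ x) (φ y) :=
  ⟨by simpa [map_ofNat] using congrArg φ h.1, by simpa [map_ofNat] using congrArg φ h.2⟩

open Polynomial in
theorem X5a_mem {κ Ω : Type} [Field κ] [Field Ω] [CharZero Ω] [Algebra κ Ω]
    {K : IntermediateField κ Ω} (hK : ∀ x, IsAlgebraic K x → x ∈ K) {a p : ℕ} {M x y : Ω}
    (hM : M ∈ K) (h : X5a_Sp a p M x y) : x ^ a * y ∈ K := by
  have : CharZero K := (algebraMap K Ω).charZero
  have hx : x ∈ K := by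
    refine hK x ⟨C (2 * a + 3 : K) * X ^ 4 + C ((2 * a + 2) * (4 * p * ⟨M, hM⟩) : K) * X ^ 3 +
      C (2 * a * ⟨M, hM⟩ ^ 2 : K) * X, fun e => ?_, ?_⟩
    · have h1 := congrArg (coeff · 4) e
      simp only [coeff_add, coeff_C_mul, coeff_X_pow, coeff_X, coeff_zero] at h1
      norm_num at h1
      exact absurd h1 (by exact_mod_cast (by omega : 2 * a + 3 ≠ 0))
    · simpa [map_ofNat] using h.2
  refine mul_mem (pow_mem hx _) (hK y (IsAlgebraic.of_pow two_pos ?_))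
  exact isAlgebraic_algebraMap (A := Ω) (⟨y ^ 2, h.1 ▸ add_mem (add_mem (pow_mem hx _)
    (mul_mem (mul_mem (mul_mem (ofNat_mem K 4) (natCast_mem K p)) hM) (pow_mem hx _)))
    (pow_mem hM _)⟩ : K)

theorem X5a_br {m c : Fin 5 → ℤ} {s : Fin 5} {e : Option Qb} (h : e ∈ (Λ.W m c s).Br a) :
    e = some (Λ.θ s ^ 2 + Λ.k * Λ.θ s) ∨ ∃ x y : Qb, X5a_Sp a Λ.p (Λ.pv m s) x y ∧
      (x ^ a * y + Λ.pv c s = 0 ∧ e = none ∨ x ^ a * y + Λ.pv c s ≠ 0 ∧
        e = some (Λ.θ s ^ 2 + Λ.k * Λ.θ s + (x ^ a * y + Λ.pv c s)⁻¹)) := by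
  refine h.imp_right fun ⟨x, y, h1, h2, h3⟩ => ⟨x, y, ⟨h1, ?_⟩, ?_⟩
  · simp only [WP.f, AR.W, Algebra.algebraMap_self, RingHom.id_apply] at h2
    linear_combination h2
  · split_ifs at h3 with h4
    exacts [Or.inl ⟨h4, h3⟩, Or.inr ⟨h4, h3⟩]

theorem X5a_wit (m c : Fin 5 → ℤ) {s s' : Fin 5} (hs : s ≠ s') : ∃ x y x' y' : Qb,
    X5a_Sp a Λ.p (Λ.pv m s) x y ∧ X5a_Sp a Λ.p (Λ.pv m s') x' y' ∧
    (¬ Disjoint ((Λ.W m c s).Br a) ((Λ.W m c s').Br a) → ∀ δ u u' : Qb,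
      δ = (Λ.θ s ^ 2 + Λ.k * Λ.θ s) - (Λ.θ s' ^ 2 + Λ.k * Λ.θ s') → u = x ^ a * y + Λ.pv c s →
      u' = x' ^ a * y' + Λ.pv c s' →
      (δ * u' - 1) * (δ * u + 1) * (δ * u * u' + u' - u) = 0) := by
  have h0 : ∀ M : Qb, X5a_Sp a Λ.p M 0 M := fun M => ⟨by ring, by ring⟩
  by_cases h : Disjoint ((Λ.W m c s).Br a) ((Λ.W m c s').Br a)
  · exact ⟨_, _, _, _, h0 _, h0 _, fun h' => absurd h h'⟩
  obtain ⟨e, h1, h2⟩ := Set.not_disjoint_iff.1 h
  rcases X5a_br Λ h1 with rfl | ⟨x, y, a1, a2⟩ <;> rcases X5a_br Λ h2 with h2 | ⟨x', y', b1, b2⟩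
  · exact absurd (Λ.τ_injective (Option.some.inj h2)) hs
  · refine ⟨_, _, x', y', h0 _, b1, fun _ δ u u' e1 _ e3 => ?_⟩
    rw [← e3] at b2
    obtain ⟨-, h3⟩ | ⟨h3, h4⟩ := b2
    · cases h3
    have h4 : δ * u' - 1 = 0 := by
      rw [e1, Option.some.inj h4, add_sub_cancel_left, inv_mul_cancel₀ h3, sub_self]
    rw [h4, zero_mul, zero_mul]
  · refine ⟨x, y, _, _, a1, h0 _, fun _ δ u u' e1 e2 _ => ?_⟩
    rw [← e2, h2] at a2
    obtain ⟨-, h3⟩ | ⟨h3, h4⟩ := a2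
    · cases h3
    have h4 : δ * u + 1 = 0 := by
      rw [e1, Option.some.inj h4, sub_add_cancel_left, neg_mul, inv_mul_cancel₀ h3,
        neg_add_cancel]
    rw [h4, mul_zero, zero_mul]
  · refine ⟨x, y, x', y', a1, b1, fun _ δ u u' e1 e2 e3 => mul_eq_zero_of_right _ ?_⟩
    rw [← e2] at a2
    rw [← e3] at b2
    rcases a2 with ⟨h3, rfl⟩ | ⟨h3, rfl⟩ <;> rcases b2 with ⟨h4, h5⟩ | ⟨h4, h5⟩
    · rw [h3, h4]
      ring
    · cases h5
    · cases h5
    · have h5 : δ = u'⁻¹ - u⁻¹ := by linear_combination e1 + Option.some.inj h5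
      rw [h5]
      field_simp
      ring

theorem AR.eventually_br (ha : 1 ≤ a) (U : Ultrafilter ℕ) (m c : ℕ → Fin 5 → ℤ)
    (hi : AlgebraicIndependent Qb (Sum.elim (fun s => gm U fun n => Λ.pv (m n) s)
      fun s => gm U fun n => Λ.pv (c n) s)) :
    ∀ᶠ n in (U : Filter ℕ), ∀ s s', s ≠ s' →
      Disjoint ((Λ.W (m n) (c n) s).Br a) ((Λ.W (m n) (c n) s').Br a) := by
  have _ := ha
  refine eventually_all.2 fun s => eventually_all.2 fun s' => eventually_all.2 fun hs => ?_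
  by_contra h
  choose x y x' y' h1 h2 h3 using fun n => X5a_wit Λ (m n) (c n) hs
  have a1 := X5a_map (U1_hom U) (a := a) (p := Λ.p) (M := fun n => Λ.pv (m n) s) (x := x) (y := y)
    ⟨funext fun n => (h1 n).1, funext fun n => (h1 n).2⟩
  have a2 := X5a_map (U1_hom U) (a := a) (p := Λ.p) (M := fun n => Λ.pv (m n) s') (x := x')
    (y := y') ⟨funext fun n => (h2 n).1, funext fun n => (h2 n).2⟩
  have a3 := (gm_eq_zero_iff U _).2
    ((Ultrafilter.eventually_not.2 h).mono fun n hn => h3 n hn _ _ _ rfl rfl rfl)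
  obtain ⟨δ, hδ⟩ : ∃ δ, δ = (Λ.θ s ^ 2 + Λ.k * Λ.θ s) - (Λ.θ s' ^ 2 + Λ.k * Λ.θ s') := ⟨_, rfl⟩
  rw [← hδ] at a3
  have a4 : ∀ f : ℕ → Qb, U1_hom U f = gm U f := fun _ => rfl
  have a5 : (gm U fun _ => δ) = algebraMap Qb (UP U Qb) δ := rfl
  have a6 : (gm U fun _ => (1 : Qb)) = 1 := rfl
  simp only [gm_mul, gm_sub, gm_add, gm_pow, a5, a6] at a3
  simp only [a4] at a1 a2
  obtain ⟨K, k1, k2, k3⟩ := X5a_acl hi (.inr s)
  obtain ⟨K', l1, l2, l3⟩ := X5a_acl hi (.inr s')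
  have w1 := X5a_mem k3 (k1 (.inl s) (by simp)) a1
  have w2 := X5a_mem l3 (l1 (.inl s) (by simp)) a1
  have w3 := X5a_mem l3 (l1 (.inl s') (by simp)) a2
  have w4 := add_mem w2 (l1 (.inr s) (by simpa using hs))
  have w5 : ¬ _ ∈ K := fun e => k2 ((add_mem_cancel_left w1).1 e)
  have w6 : ¬ _ ∈ K' := fun e => l2 ((add_mem_cancel_left w3).1 e)
  simp only [Sum.elim_inr] at w4 w5 w6
  generalize gm U x ^ a * gm U y + (gm U fun n => Λ.pv (c n) s) = u at a3 w4 w5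
  generalize gm U x' ^ a * gm U y' + (gm U fun n => Λ.pv (c n) s') = u' at a3 w6
  have b1 : algebraMap Qb (UP U Qb) δ * u + 1 ≠ 0 := fun e => w5 (by
    rw [eq_inv_of_mul_eq_one_right (a := -algebraMap Qb (UP U Qb) δ) (b := u)
      (by linear_combination -e)]
    exact inv_mem (neg_mem (K.algebraMap_mem δ)))
  have b2 : algebraMap Qb (UP U Qb) δ * u' - 1 ≠ 0 := fun e => w6 (by
    rw [eq_inv_of_mul_eq_one_right (sub_eq_zero.1 e)]
    exact inv_mem (K'.algebraMap_mem δ))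
  have b3 := (mul_eq_zero.1 a3).resolve_left (mul_ne_zero b2 b1)
  refine w6 ?_
  rw [eq_div_of_mul_eq b1 (show u' * _ = u by linear_combination b3)]
  exact div_mem w4 (add_mem (mul_mem (K'.algebraMap_mem δ) w4) (one_mem _))

end Pool.Agent.E6b

end

section
open scoped NNReal TensorProduct IntermediateField BigOperators Classical Topology
open Filter

namespace Pool.Agent.E6b

theorem X5_tX : tX ∉ (algebraMap Qb LX).range := by
  rintro ⟨c, hc⟩
  rw [IsScalarTower.algebraMap_apply Qb (RatFunc Qb) LX] at hc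
  have h := (algebraMap (RatFunc Qb) LX).injective hc
  have h2 : RatFunc.intDegree (algebraMap Qb (RatFunc Qb) c) = 0 := RatFunc.intDegree_C c
  rw [h, RatFunc.intDegree_X] at h2
  exact one_ne_zero h2

/-- bounded representation in the monomials -/
def X5_Rep {κ L : Type} [Field κ] [Field L] (φ : κ →+* L) {N d : ℕ} (J : Finset (Fin 5)) (t : L)
    (x : Fin 5 → L) (X : L) (β : Fin N → κ) (α : (J → Fin d) → Fin N → κ) : Prop :=
  β ≠ 0 ∧ (∑ k, φ (β k) * t ^ (k : ℕ)) * X =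
    ∑ μ, (∑ k, φ (α μ k) * t ^ (k : ℕ)) * ∏ s : J, x s ^ (μ s : ℕ)

theorem X5_mem {Ω L : Type} [Field Ω] [IsAlgClosed Ω] [Field L] [Algebra Ω L] {N d : ℕ}
    {J : Finset (Fin 5)} {t : L} (ht : t ∉ (algebraMap Ω L).range) {x : Fin 5 → L} {X : L}
    {β : Fin N → Ω} {α : (J → Fin d) → Fin N → Ω} (h : X5_Rep (algebraMap Ω L) J t x X β α) :
    X ∈ IntermediateField.adjoin Ω (insert t ((J.image x : Finset L) : Set L)) := by
  set F := IntermediateField.adjoin Ω (insert t ((J.image x : Finset L) : Set L))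
  have htF : t ∈ F := IntermediateField.subset_adjoin _ _ (Set.mem_insert _ _)
  have hxF : ∀ s : J, x s ∈ F := fun s => IntermediateField.subset_adjoin _ _
    (Set.mem_insert_of_mem _ (Finset.mem_coe.2 (Finset.mem_image_of_mem x s.2)))
  have hs : ∀ γ : Fin N → Ω, (∑ k, algebraMap Ω L (γ k) * t ^ (k : ℕ)) ∈ F := fun γ =>
    sum_mem fun k _ => mul_mem (F.algebraMap_mem _) (pow_mem htF _)
  have hne : (∑ k, algebraMap Ω L (β k) * t ^ (k : ℕ)) ≠ 0 := by
    intro h0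
    refine F0_transcendental ht ⟨∑ k : Fin N, Polynomial.C (β k) * Polynomial.X ^ (k : ℕ), ?_, ?_⟩
    · intro h1
      refine h.1 (funext fun j => ?_)
      have h2 := congrArg (fun q : Polynomial Ω => q.coeff j) h1
      simpa [Polynomial.finsetSum_coeff, Polynomial.coeff_C_mul, Polynomial.coeff_X_pow,
        Fin.val_inj] using h2
    · simpa using h0
  have h3 : X = (∑ k, algebraMap Ω L (β k) * t ^ (k : ℕ))⁻¹ *
      ∑ μ, (∑ k, algebraMap Ω L (α μ k) * t ^ (k : ℕ)) * ∏ s : J, x s ^ (μ s : ℕ) := by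
    rw [← h.2, ← mul_assoc, inv_mul_cancel₀ hne, one_mul]
  rw [h3]
  exact mul_mem (inv_mem (hs β)) (sum_mem fun μ _ => mul_mem (hs _)
    (prod_mem fun s _ => pow_mem (hxF s) _))

section
variable {κ L : Type} [Field κ] [IsAlgClosed κ] [CharZero κ] [Field L] [Algebra κ L] {a : ℕ}
  (D : TD κ L a)

theorem X5_rep (J : Finset (Fin 5)) {b : ℕ} (f : D.F J) (hf : deg (dinf κ f) ≤ b) :
    ∃ (β : Fin (b + Fintype.card (J → Fin (2 * a + 3)) * (10 * (2 * a + 3) ^ 5) + 1) → κ)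
      (α : (J → Fin (2 * a + 3)) →
        Fin (b + Fintype.card (J → Fin (2 * a + 3)) * (10 * (2 * a + 3) ^ 5) + 1) → κ),
      X5_Rep (algebraMap κ L) J D.t D.x (f : L) β α := by
  obtain ⟨β, α, h1, h2⟩ := exists_repr_bdd (D.nc_tF J) _ (D.indep_mon J)
    (by rw [D.rk_eq, Fintype.card_fun, Fintype.card_fin, Fintype.card_coe])
    (c := 10 * (2 * a + 3) ^ 5) (b := b) (fun μ => by exact_mod_cast D.deg_mon_le J μ) hf
  refine ⟨β, α, h1, ?_⟩
  have h3 := congrArg (D.F J).val h2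
  simp only [map_mul, map_sum, map_pow, map_prod, Algebra.smul_def, AlgHom.commutes] at h3
  exact h3

end

section
variable (U : Ultrafilter ℕ) (φ : UP U Qb →+* UP U LX)
  (hφ : ∀ x : ℕ → Qb, φ (gm U x) = gm U fun n => algebraMap Qb LX (x n))
include hφ

theorem X5_lim_rep {N d : ℕ} {J : Finset (Fin 5)} {t : LX} {x : ℕ → Fin 5 → LX} {X : ℕ → LX}
    {β : ℕ → Fin N → Qb} {α : ℕ → (J → Fin d) → Fin N → Qb}
    (h : ∀ᶠ n in (U : Filter ℕ), X5_Rep (algebraMap Qb LX) J t (x n) (X n) (β n) (α n)) :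
    X5_Rep φ J (gm U fun _ => t) (fun j => gm U fun n => x n j) (gm U X)
      (fun k => gm U fun n => β n k) (fun μ k => gm U fun n => α n μ k) := by
  refine ⟨fun h0 => ?_, ?_⟩
  · have h1 : ∀ᶠ n in (U : Filter ℕ), ∀ k, β n k = 0 :=
      eventually_all.2 fun k => (gm_eq_zero_iff U _).1 (congrFun h0 k)
    obtain ⟨n, h2, h3⟩ := (h.and h1).exists
    exact h2.1 (funext h3)
  · have h1 := (gm_eq_iff U _ _).2 (h.mono fun n hn => hn.2)
    have e : ∀ γ : ℕ → Fin N → Qb,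
        (gm U fun n => ∑ k, algebraMap Qb LX (γ n k) * t ^ (k : ℕ)) =
          ∑ k, φ (gm U fun n => γ n k) * (gm U fun _ => t) ^ (k : ℕ) := fun γ => by
      rw [gm_sum U _ fun k n => algebraMap Qb LX (γ n k) * t ^ (k : ℕ)]
      refine Finset.sum_congr rfl fun k _ => ?_
      rw [hφ, ← gm_pow, ← gm_mul]
    rw [gm_mul, e, gm_sum U _ fun μ n => (∑ k, algebraMap Qb LX (α n μ k) * t ^ (k : ℕ)) *
      ∏ s : J, x n s ^ (μ s : ℕ)] at h1
    refine h1.trans (Finset.sum_congr rfl fun μ _ => ?_)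
    rw [gm_mul, e fun n => α n μ, gm_prod U _ fun (s : J) n => x n s ^ (μ s : ℕ)]
    congr 1

theorem X5_lim_f (A B : ℕ → Qb) (X : ℕ → LX) :
    (gm U fun n => X n ^ 3 + algebraMap Qb LX (A n) * X n ^ 2 + algebraMap Qb LX (B n)) =
      gm U X ^ 3 + φ (gm U A) * gm U X ^ 2 + φ (gm U B) := by
  rw [hφ, hφ, ← gm_pow, ← gm_pow, ← gm_mul, ← gm_add, ← gm_add]

theorem X5_lim_nc {X : ℕ → LX} (h : ∀ᶠ n in (U : Filter ℕ), X n ∉ (algebraMap Qb LX).range) :
    gm U X ∉ φ.range := by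
  rintro ⟨c, hc⟩
  obtain ⟨w, rfl⟩ := gm_surj U c
  rw [hφ, gm_eq_iff] at hc
  obtain ⟨n, h1, h2⟩ := (h.and hc).exists
  exact h1 ⟨_, h2⟩

end
variable {a : ℕ} (Λ : AR a)

theorem X5_one (U : Ultrafilter ℕ) (m c : ℕ → Fin 5 → ℤ)
    (hi : AlgebraicIndependent Qb (Sum.elim (fun s => gm U fun n => Λ.pv (m n) s)
      fun s => gm U fun n => Λ.pv (c n) s)) (B : ℕ) {s : Fin 5} {J : Finset (Fin 5)} (hs : s ∉ J) :
    ∀ᶠ n in (U : Filter ℕ), ∀ D : TD Qb LX a, D.W = Λ.W (m n) (c n) → D.t = tX →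
      NoMap Qb (D.F {s}) (D.F J) B := by
  by_contra h0
  set N := 3 * B + Fintype.card (J → Fin (2 * a + 3)) * (10 * (2 * a + 3) ^ 5) + 1 with hN
  have h1 : ∀ᶠ n in (U : Filter ℕ), ∃ (x : Fin 5 → LX) (X Y : LX) (β β' : Fin N → Qb)
      (α α' : (J → Fin (2 * a + 3)) → Fin N → Qb),
      (∀ j, (Λ.W (m n) (c n) j).Rel a tX (x j)) ∧ X ∉ (algebraMap Qb LX).range ∧
      Y ^ 2 = (Λ.W (m n) (c n) s).f X ∧ X5_Rep (algebraMap Qb LX) J tX x X β α ∧
      X5_Rep (algebraMap Qb LX) J tX x Y β' α' := by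
    filter_upwards [Ultrafilter.eventually_not.2 h0] with n hn
    push Not at hn
    obtain ⟨D, hW, ht, hD⟩ := hn
    obtain ⟨X, Y, a1, a2, a3, a4⟩ := X5_extract D hD
    obtain ⟨β, α, b1⟩ := X5_rep D J X a3
    obtain ⟨β', α', b2⟩ := X5_rep D J Y a4
    rw [← hW, ← ht]
    exact ⟨D.x, X, Y, β, β', α, α', D.rel, a1, a2, b1, b2⟩
  obtain ⟨x, h1⟩ := h1.choice
  obtain ⟨X, h1⟩ := h1.choice
  obtain ⟨Y, h1⟩ := h1.choice
  obtain ⟨β, h1⟩ := h1.choice
  obtain ⟨β', h1⟩ := h1.choice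
  obtain ⟨α, h1⟩ := h1.choice
  obtain ⟨α', h1⟩ := h1.choice
  obtain ⟨φ₀, hφ₀⟩ := exists_upMap U (L := Qb) (L' := LX)
  obtain ⟨φ, hφ⟩ : ∃ φ : UP U Qb →+* UP U LX,
      ∀ x : ℕ → Qb, φ (gm U x) = gm U fun n => algebraMap Qb LX (x n) := ⟨φ₀, hφ₀⟩
  let _ : Algebra (UP U Qb) (UP U LX) := φ.toAlgebra
  have ht : (gm U fun _ => tX) ∉ φ.range := X5_lim_nc U φ hφ (Eventually.of_forall fun _ => X5_tX)
  have hA : ∀ j, (gm U fun n => (Λ.W (m n) (c n) j).A) =
      algebraMap Qb (UP U Qb) (4 * Λ.p) * gm U fun n => Λ.pv (m n) j := fun j => by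
    rw [← U2_const, ← gm_mul]
    rfl
  have hB : ∀ j, (gm U fun n => (Λ.W (m n) (c n) j).B) = (gm U fun n => Λ.pv (m n) j) ^ 2 :=
    fun j => gm_pow U _ 2
  refine X5_lim_nc U φ hφ (h1.mono fun n hn => hn.2.1) (X5_core (L := UP U LX) hi (q := 4 * Λ.p)
    (mul_ne_zero (by norm_num) (Nat.cast_ne_zero.2 Λ.prime.ne_zero))
    (fun j => Λ.θ j ^ 2 + Λ.k * Λ.θ j) (a := a) hs ht (x := fun j => gm U fun n => x n j) ?_
    (X5_mem ht (X5_lim_rep U φ hφ (h1.mono fun n hn => hn.2.2.2.1)))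
    (X5_mem ht (X5_lim_rep U φ hφ (h1.mono fun n hn => hn.2.2.2.2))) ?_)
  · intro j _
    have h2 := (gm_eq_iff U _ _).2 (h1.mono fun n hn => hn.1 j)
    simp only [WP.f] at h2
    rw [gm_mul, gm_pow, X5_lim_f U φ hφ, hA, hB, gm_pow, gm_sub, gm_inv, gm_sub, ← hφ, ← hφ] at h2
    exact h2
  · have h2 := (gm_eq_iff U _ _).2 (h1.mono fun n hn => hn.2.2.1)
    simp only [WP.f] at h2
    rw [gm_pow, X5_lim_f U φ hφ, hA, hB] at h2
    exact h2

theorem AR.eventually_nm (U : Ultrafilter ℕ) (m c : ℕ → Fin 5 → ℤ)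
    (hi : AlgebraicIndependent Qb (Sum.elim (fun s => gm U fun n => Λ.pv (m n) s)
      fun s => gm U fun n => Λ.pv (c n) s)) (B : ℕ) :
    ∀ᶠ n in (U : Filter ℕ), ∀ D : TD Qb LX a, D.W = Λ.W (m n) (c n) → D.t = tX → D.NM B := by
  have h : ∀ᶠ n in (U : Filter ℕ), ∀ (s : Fin 5) (J : Finset (Fin 5)), s ∉ J →
      ∀ D : TD Qb LX a, D.W = Λ.W (m n) (c n) → D.t = tX → NoMap Qb (D.F {s}) (D.F J) B := by
    refine eventually_all.2 fun s => eventually_all.2 fun J => ?_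
    by_cases hs : s ∈ J
    · exact Eventually.of_forall fun _ h => absurd hs h
    · exact (X5_one Λ U m c hi B hs).mono fun _ h _ => h
  exact h.mono fun n hn D h1 h2 s J hs => hn s J hs D h1 h2

/-- existence of good parameters -/
theorem AR.exists_td (ha : 1 ≤ a) (B : ℕ) : ∃ (m c : Fin 5 → ℤ) (D : TD Qb LX a),
    Λ.Adm m c ∧ D.W = Λ.W m c ∧ D.NM B := by
  obtain ⟨u, hu1, hu2⟩ := exists_generic_seq (ι := Fin 5 ⊕ Fin 5) (Λ.p : ℤ)
    (Nat.cast_ne_zero.2 Λ.prime.ne_zero)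
    (Sum.elim (fun i => if i = 0 then 1 else 0) fun i => if i = 0 then Λ.cb else 0)
  have hi := Λ.indep (Ultrafilter.of atTop) (Ultrafilter.of_le _) u hu2
  obtain ⟨n, h1, h2⟩ := ((Λ.eventually_br ha _ _ _ hi).and (Λ.eventually_nm _ _ _ hi B)).exists
  have hA : Λ.Adm (fun i => u n (.inl i)) fun i => u n (.inr i) :=
    ⟨fun i => hu1 n (.inl i), fun i => hu1 n (.inr i)⟩
  choose x hx using fun s =>
    X5_root (Λ.W (fun i => u n (.inl i)) (fun i => u n (.inr i)) s) a tX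
  exact ⟨_, _, ⟨_, tX, x, ha, X5_tX, Λ.ns hA, h1, hx⟩, hA, rfl, h2 _ rfl rfl⟩

end Pool.Agent.E6b

end
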