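import Pool.Agent.E6c.A35
import Pool.Agent.E6c.A36
import Pool.Agent.E6c.A38

section
open scoped NNReal TensorProduct IntermediateField BigOperators Classical Topology
open Filter
set_option linter.unusedSectionVars false

namespace Pool.Agent.E6b
variable {κ F : Type} [Field κ] [IsAlgClosed κ] [CharZero κ] [Field F] [Algebra κ F] [IsFF κ F]
  {o : Place κ F} {Ω Ω' Ω'' : Type} [Field Ω] [IsAlgClosed Ω] [CharZero Ω] [Algebra κ Ω]
  [Field Ω'] [IsAlgClosed Ω'] [CharZero Ω'] [Algebra κ Ω']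
  [Field Ω''] [IsAlgClosed Ω''] [CharZero Ω''] [Algebra κ Ω'']

namespace BC

theorem ext_τ {β β' : BC o Ω Ω'} (h : β.τ = β'.τ) : β = β' := by
  have h1 : β.φ = β'.φ := IsFractionRing.ringHom_ext (A := AO o Ω) fun a => by
    rw [β.O2_phi, β'.O2_phi, h]
  cases β; cases β'
  cases h; cases h1
  rfl
variable (β : BC o Ω Ω')

theorem cl_injective : Function.Injective β.cl := by
  rw [injective_iff_map_eq_zero]
  intro w hw
  obtain ⟨D, rfl⟩ := QuotientAddGroup.mk'_surjective (prin o Ω) w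
  obtain ⟨k, hk⟩ := (QuotientAddGroup.eq_zero_iff (β.dv D)).1 hw
  rw [← β.plc_oo, ← β.dv_pd, ← map_zsmul] at hk
  exact (QuotientAddGroup.eq_zero_iff D).2 ⟨k, β.linEq_dv_iff.1 hk⟩

theorem comp_plc (β' : BC o Ω' Ω'') (P : PO o Ω) : (β'.comp β).plc P = β'.plc (β.plc P) :=
  (β'.comp β).O2_unique ((β'.comp β).ord_plc P) fun f =>
    (β'.ord_plc _ (β.φ f)).trans (β.ord_plc P f)

theorem comp_cl (β' : BC o Ω' Ω'') (w : Cl o Ω) : (β'.comp β).cl w = β'.cl (β.cl w) := by
  obtain ⟨D, rfl⟩ := QuotientAddGroup.mk'_surjective (prin o Ω) w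
  have h : (β'.comp β).dv D = β'.dv (β.dv D) := by
    show D.mapDomain (β'.comp β).plc = (D.mapDomain β.plc).mapDomain β'.plc
    rw [← Finsupp.mapDomain_comp]
    exact congrArg (fun g => D.mapDomain g) (funext (β.comp_plc β'))
  exact congrArg (clD o Ω'') h

end BC

end Pool.Agent.E6b

end

section
open scoped NNReal TensorProduct IntermediateField BigOperators Classical Topology
open Filter

namespace Pool.Agent.E6b
variable {κ F : Type} [Field κ] [IsAlgClosed κ] [CharZero κ] [Field F] [Algebra κ F] [IsFF κ F]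
  {o : Place κ F} {Ω : Type} [Field Ω] [IsAlgClosed Ω] [CharZero Ω] [Algebra κ Ω]
  {ι ι' : Type} [Fintype ι] [Fintype ι']

/-- the classes of points generate -/
theorem closure_cl : AddSubgroup.closure (Set.range (cl : Pt o Ω → Cl o Ω)) = ⊤ := by
  refine eq_top_iff.2 fun w _ => ?_
  obtain ⟨z, -, -, rfl⟩ := exists_rep w (Fin (2 * genus κ F)) (by simp) Set.finite_empty
  rw [clz_eq_sum]
  exact sum_mem fun a _ => AddSubgroup.subset_closure ⟨_, rfl⟩

end Pool.Agent.E6b

end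

section
open scoped NNReal TensorProduct IntermediateField BigOperators Classical Topology
open Filter

namespace Pool.Agent.E6b
variable {κ F : Type} [Field κ] [IsAlgClosed κ] [CharZero κ] [Field F] [Algebra κ F] [IsFF κ F]
  {o : Place κ F} {Ω : Type} [Field Ω] [IsAlgClosed Ω] [CharZero Ω] [Algebra κ Ω] (O : VS κ Ω)

theorem redCl_cl_congr {y y' : Pt o Ω} (h : red O (plc y) = red O (plc y')) :
    redCl O o (cl y) = redCl O o (cl y') := by
  rw [cl, cl, redCl_clD, redCl_clD, redD_pd, redD_pd, h]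

section
variable {K : Type} [Field K] [IsAlgClosed K] [CharZero K] [Algebra κ K] (τ : K →ₐ[κ] Ω)

theorem red_bc (h : ∀ c, τ c ∈ O.1) (P : PO o K) :
    red O ((bc o τ).plc P) = (bc o (resH O τ h)).plc P := by
  rcases eq_oo_or_plc P with rfl | ⟨y, rfl⟩
  · rw [BC.plc_oo, BC.plc_oo, red_oo]
  · rw [BC.plc_plc, BC.plc_plc, bc_pt, bc_pt, red_plc O (intg_comp O τ h y), redp_comp]

theorem redCl_bc (h : ∀ c, τ c ∈ O.1) (w : Cl o K) :
    redCl O o ((bc o τ).cl w) = (bc o (resH O τ h)).cl w := by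
  obtain ⟨D, rfl⟩ := clD_surj w
  rw [BC.cl_clD, BC.cl_clD, redCl_clD]
  congr 1
  change Finsupp.mapDomain (red O) (Finsupp.mapDomain (bc o τ).plc D) =
    Finsupp.mapDomain (bc o (resH O τ h)).plc D
  rw [← Finsupp.mapDomain_comp]
  congr 1
  exact funext fun P => red_bc O τ h P

end

end Pool.Agent.E6b

end

section
open scoped NNReal TensorProduct IntermediateField BigOperators Classical Topology
open Filter

namespace Pool.Agent.E6b
variable {κ F : Type} [Field κ] [IsAlgClosed κ] [CharZero κ] [Field F] [Algebra κ F] [IsFF κ F]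
  {o : Place κ F} {Ω : Type} [Field Ω] [IsAlgClosed Ω] [CharZero Ω] [Algebra κ Ω]

section
variable {K : Type} [Field K] [IsAlgClosed K] [CharZero K] [Algebra κ K] (τ : K →ₐ[κ] Ω)

theorem mem_range_cl_of_two {w : Cl o Ω} (h : 2 • w ∈ Set.range (bc o τ).cl) :
    w ∈ Set.range (bc o τ).cl := by
  obtain ⟨a, ha⟩ := h
  obtain ⟨γ, hγ, hp⟩ := par_val w w
  obtain ⟨μ, hμ, h1⟩ := P5_vs_bc τ a
  obtain ⟨ν, hν, h2⟩ := P5_vs_bc (o := o) τ 0
  rw [ha, two_nsmul] at h1
  rw [map_zero, ← sub_self w] at h2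
  obtain ⟨y, hy⟩ := exists_prp_of_vs τ (Psym_ne_zero w) (k := 2 * 2) (by norm_num)
    (γ := μ * ν / γ) fun O hO => by
    have h3 := hp O
    have h4 : O.1.valuation γ ≠ 0 := by simpa using hγ
    rw [h1 O.1 hO, h2 O.1 hO] at h3
    rw [map_div₀, map_mul, h3, mul_div_cancel_left₀ _ h4, pow_mul, pow_two (vs O.1 (Psym w))]
  exact mem_range_cl_of_prp τ hy

end

theorem finite_two_torsion : {w : Cl o Ω | 2 • w = 0}.Finite := by
  refine finite_of_clU fun U w hw => mem_range_cl_of_two _ ⟨0, ?_⟩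
  rw [map_zero, two_nsmul, ← clU_add, eq_comm, clU_eq_zero_iff]
  refine Eventually.of_forall fun n => ?_
  rw [← two_nsmul]
  exact hw n

theorem finite_fibre_Psym (x : JJ o × JJ o → Ω) : {w : Cl o Ω | Prp (Psym w) x}.Finite := by
  refine finite_of_clU fun U w hw => mem_range_cl_of_prp _ (x := x) ?_
  exact (Psym_clU U w).trans
    ((prp_gm_iff U (fun n => Psym (w n)) fun _ => x).mpr (Eventually.of_forall hw))

end Pool.Agent.E6b

end

section
open scoped NNReal TensorProduct IntermediateField BigOperators Classical Topology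
open Filter

namespace Pool.Agent.E6b

/-- an algebraically closed subfield containing `m` given elements and no `m + 1` independent
elements -/
theorem P6_acl {κ Ω : Type} [Field κ] [CharZero κ] [Field Ω] [IsAlgClosed Ω] [Algebra κ Ω] {m : ℕ}
    (v : Fin m → Ω) : ∃ (K : Type) (_ : Field K) (_ : IsAlgClosed K) (_ : CharZero K)
      (_ : Algebra κ K) (τ : K →ₐ[κ] Ω), (∀ i, v i ∈ τ.range) ∧
      ∀ u : Fin (m + 1) → Ω, AlgebraicIndependent κ u → ¬ ∀ i, u i ∈ τ.range := by
  obtain ⟨K, hK, hmem⟩ := exists_acl (κ := κ) (Set.range v)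
  refine ⟨K, inferInstance, hK, charZero_of_injective_algebraMap (algebraMap κ K).injective,
    inferInstance, K.val, fun i => ?_, fun u hu h => ?_⟩
  · refine ⟨⟨v i, (hmem _).2 ?_⟩, rfl⟩
    exact isAlgebraic_algebraMap
      (⟨v i, IntermediateField.subset_adjoin _ _ ⟨i, rfl⟩⟩ : IntermediateField.adjoin κ (Set.range v))
  · have h1 : Set.range u ⊆ (AlgebraicIndependent.matroid κ Ω).closure (Set.range v) := by
      rintro _ ⟨i, rfl⟩
      rw [AlgebraicIndependent.matroid_closure_eq, SetLike.mem_coe, Subalgebra.mem_algebraicClosure]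
      obtain ⟨c, hc⟩ := h i
      have : u i ∈ K := by rw [← hc]; exact c.2
      exact IntermediateField.isAlgebraic_adjoin_iff.1 ((hmem _).1 this)
    have h2 : (AlgebraicIndependent.matroid κ Ω).Indep (Set.range u) :=
      AlgebraicIndependent.matroid_indep_iff.2 hu.to_subtype_range
    have h3 := h2.encard_le_eRk_of_subset h1
    rw [Matroid.eRk_closure_eq] at h3
    have h4 := h3.trans (Matroid.eRk_le_encard _ _)
    have h5 : (Set.range v).encard ≤ (m : ℕ∞) := by
      rw [← Set.image_univ]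
      refine (Set.encard_image_le _ _).trans ?_
      simp
    have h6 : (Set.range u).encard = ((m + 1 : ℕ) : ℕ∞) := by
      rw [← Set.image_univ, hu.injective.encard_image]
      simp
    rw [h6] at h4
    have := h4.trans h5
    norm_cast at this
    omega
variable {κ F : Type} [Field κ] [IsAlgClosed κ] [CharZero κ] [Field F] [Algebra κ F] [IsFF κ F]
  {o : Place κ F}

section
variable {Ω K : Type} [Field Ω] [IsAlgClosed Ω] [CharZero Ω] [Algebra κ Ω]
  [Field K] [IsAlgClosed K] [CharZero K] [Algebra κ K] (τ : K →ₐ[κ] Ω)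

theorem P6_redD_bc (O : VS κ Ω) (h : ∀ c, τ c ∈ O.1) (D : DO o K) :
    redD O o ((bc o τ).dv D) = (bc o (resH O τ h)).dv D := by
  change Finsupp.mapDomain (red O) (Finsupp.mapDomain (bc o τ).plc D) =
    Finsupp.mapDomain (bc o (resH O τ h)).plc D
  rw [← Finsupp.mapDomain_comp]
  congr 1
  funext P
  exact red_bc O τ h P

/-- adding a point which is not defined over `K` to a special divisor does not add sections -/
theorem P6_step {D : DO o K} (hD : deg D + 1 - genus κ F < ell D) {y : Pt o Ω}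
    (hy : y ∉ Set.range (bc o τ).pt) : ell ((bc o τ).dv D + pd (plc y)) ≤ ell D := by
  by_contra hlt
  push Not at hlt
  have key : ∀ p : Pt o K, ell D < ell (D + pd (plc p)) := by
    intro p
    obtain ⟨O, hO, hred⟩ := exists_spec τ hy p
    have h1 := ell_le_red O ((bc o τ).dv D + pd (plc y))
    rw [map_add, P6_redD_bc τ O hO, redD_pd, hred, ← bc_pt, ← BC.plc_plc, red_bc O τ hO,
      ← BC.dv_pd, ← map_add, BC.ell_dv] at h1
    exact lt_of_lt_of_le hlt h1
  obtain ⟨S, hS⟩ := Infinite.exists_subset_card_eq (Pt o K) (2 * genus κ F - 2 - deg D + 1).toNat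
  have h2 := card_h1_le (D := D) (by rwa [genus_FO]) (S.image plc) (by
    intro P hP
    obtain ⟨p, -, rfl⟩ := Finset.mem_image.1 hP
    exact key p)
  rw [Finset.card_image_of_injective _ plc_injective, hS, genus_FO] at h2
  omega

theorem P6_wN_mem {y : Pt o Ω} (h : plc y ∈ Set.range (bc o τ).plc) : y (wN o) ∈ τ.range := by
  obtain ⟨P, hP⟩ := h
  rcases eq_oo_or_plc P with rfl | ⟨p, rfl⟩
  · rw [BC.plc_oo] at hP
    exact absurd hP.symm (plc_ne_oo y)
  · rw [BC.plc_plc, bc_pt] at hP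
    rw [← plc_injective hP]
    exact ⟨p (wN o), rfl⟩

/-- descent of divisibility by two -/
theorem P6_descend {w : Cl o K} {x : Cl o Ω} (h : 2 • x = (bc o τ).cl w) :
    ∃ x' : Cl o K, 2 • x' = w := by
  obtain ⟨x', rfl⟩ := mem_range_cl_of_two τ ⟨w, h.symm⟩
  exact ⟨x', (bc o τ).cl_injective (by rw [map_nsmul, h])⟩

end

/-- independent generic points are non special -/
theorem ell_dz_generic {Ω : Type} [Field Ω] [IsAlgClosed Ω] [CharZero Ω] [Algebra κ Ω] {n : ℕ}
    (hn : n ≤ genus κ F) (y : Fin n → Pt o Ω)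
    (hy : AlgebraicIndependent κ fun i => y i (wN o)) : ell (dz y) = 1 := by
  induction n with
  | zero =>
    have : dz y = 0 := by simp [dz]
    rw [this, ell_zero]
  | succ n ih =>
    have ih' := ih (by omega) (fun i => y i.succ) (hy.comp _ (Fin.succ_injective n))
    obtain ⟨K, _, _, _, _, τ, h1, h2⟩ := P6_acl (κ := κ) fun i : Fin n => y i.succ (wN o)
    choose z hz using fun i => mem_range_pt_of_wN τ (h1 i)
    have h0 : y 0 ∉ Set.range (bc o τ).pt := by
      rintro ⟨p, hp⟩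
      refine h2 _ hy fun i => Fin.cases ?_ (fun i => h1 i) i
      rw [← hp, bc_pt]
      exact ⟨p (wN o), rfl⟩
    have h3 : (bc o τ).dv (dz z) = dz fun i : Fin n => y i.succ := by
      rw [BC.dv_dz]; simp only [hz]
    have h4 : ell (dz z) = 1 := by rw [← (bc o τ).ell_dv, h3, ih']
    have h5 := P6_step τ (D := dz z) (by
      rw [h4, deg_dz, Fintype.card_fin]; push_cast; omega) h0
    have h6 : dz y = (bc o τ).dv (dz z) + pd (plc (y 0)) := by
      rw [h3, dz, Fin.sum_univ_succ, add_comm]; rfl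
    have h7 := one_le_ell (dz_nonneg y)
    rw [← h6, h4] at h5
    omega

/-- if all points are congruent modulo doubles then every class is a double -/
theorem P6_all {K : Type} [Field K] [IsAlgClosed K] [CharZero K] [Algebra κ K] {r : Cl o K}
    (h : ∀ p : Pt o K, ∃ x : Cl o K, 2 • x = cl p + r) (w : Cl o K) : ∃ x : Cl o K, 2 • x = w := by
  let H : AddSubgroup (Cl o K) := (nsmulAddMonoidHom 2).range
  have hH : ∀ w, w ∈ H ↔ ∃ x : Cl o K, 2 • x = w := fun w => Iff.rfl
  have h1 : ∀ p p' : Pt o K, cl p - cl p' ∈ H := by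
    intro p p'
    have := H.sub_mem ((hH _).2 (h p)) ((hH _).2 (h p'))
    rwa [add_sub_add_right_eq_sub] at this
  have h2 : ∀ p : Pt o K, cl p ∈ H := by
    intro p
    obtain ⟨z, -, -, -, hz⟩ := exists_fibre (o := o) (0 : K)
    have h3 := H.sum_mem (t := Finset.univ) fun l _ => h1 p (z l)
    rw [Finset.sum_sub_distrib, ← clz_eq_sum z, hz, sub_zero, Finset.sum_const, Finset.card_univ,
      Fintype.card_fin, NN, add_nsmul, one_nsmul, mul_nsmul'] at h3
    have h4 : 2 • genus κ F • cl p ∈ H := (hH _).2 ⟨_, rfl⟩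
    simpa using H.sub_mem h3 h4
  have h5 : AddSubgroup.closure (Set.range (cl : Pt o K → Cl o K)) ≤ H := by
    rw [AddSubgroup.closure_le]
    rintro _ ⟨p, rfl⟩
    exact h2 p
  rw [closure_cl] at h5
  exact (hH _).1 (h5 (AddSubgroup.mem_top w))

theorem P6_main {Ω : Type} [Field Ω] [IsAlgClosed Ω] [CharZero Ω] [Algebra κ Ω] {m : ℕ}
    (hg : genus κ F = m + 1) (u : Fin (m + 1) → Ω) (hu : AlgebraicIndependent κ u) (w : Cl o κ) :
    ∃ x : Cl o κ, 2 • x = w := by
  choose y hy using fun i => exists_pt_wN (o := o) (u i)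
  have hy' : AlgebraicIndependent κ fun i => y i (wN o) := by simpa only [hy] using hu
  have h1 : ell (dz y) = 1 := ell_dz_generic hg.ge y hy'
  obtain ⟨R, hR0, hRd, hR⟩ := exists_eff_rep (2 • clz y)
  obtain ⟨P, rfl⟩ := exists_eq_sum_pd hR0 (n := m + 1) (by rw [hRd, hg])
  obtain ⟨K, _, _, _, _, τ, hK1, hK2⟩ :=
    P6_acl (κ := κ) fun i : Fin m => (P i.succ).ev (iF o Ω (wN o))
  choose Q hQ using fun i => P6_mem_range_plc τ (hK1 i)
  have h2 : ∑ i, pd (P i) = pd (P 0) + (bc o τ).dv (∑ i, pd (Q i)) := by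
    rw [Fin.sum_univ_succ, map_sum]
    simp only [BC.dv_pd, hQ]
  have h3 : P 0 ∉ Set.range (bc o τ).plc := by
    rintro ⟨Q0, hQ0⟩
    rw [h2, ← hQ0, ← BC.dv_pd, ← map_add, ← BC.cl_clD] at hR
    obtain ⟨x, hx⟩ := mem_range_cl_of_two τ ⟨_, hR⟩
    obtain ⟨D, hD0, hDd, rfl⟩ := exists_eff_rep x
    rw [BC.cl_clD, clz, eq_comm, clD_eq_iff_of_deg (by
      rw [BC.deg_dv, hDd, deg_dz, Fintype.card_fin, hg])] at hx
    have h4 := eq_of_ell_eq_one (dz_nonneg y)
      (by rw [← map_zero (bc o τ).dv, BC.dv_le_iff]; exact hD0) hx h1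
    refine hK2 u hu fun i => ?_
    rw [← hy i]
    refine P6_wN_mem τ ?_
    by_contra hn
    have h5 : (bc o τ).dv D (plc (y i)) = 0 := Finsupp.mapDomain_of_notMem_range _ _ hn
    rw [← h4, dz_apply] at h5
    have h6 : i ∈ Finset.univ.filter fun a => y a = y i := by simp
    have h7 := Finset.card_pos.2 ⟨i, h6⟩
    omega
  rcases eq_oo_or_plc (P 0) with h0 | ⟨y0, h0⟩
  · exact absurd ⟨_, (BC.plc_oo _).trans h0.symm⟩ h3
  have h4 : y0 ∉ Set.range (bc o τ).pt := by
    rintro ⟨p, rfl⟩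
    exact h3 ⟨_, (BC.plc_plc _ _).trans h0⟩
  have h5 : ∀ p : Pt o K, ∃ x : Cl o K, 2 • x = cl p + clD o K (∑ i, pd (Q i)) := by
    intro p
    obtain ⟨O, hO, hred⟩ := exists_spec τ h4 p
    refine P6_descend (resH O τ hO) (x := redCl O o (clz y)) ?_
    rw [← map_nsmul, ← hR, h2, ← h0, map_add, map_add, ← redCl_bc O τ hO, map_add, map_add,
      BC.cl_clD, BC.cl_cl, bc_pt]
    congr 1
    exact redCl_cl_congr O hred
  obtain ⟨x, hx⟩ := P6_all h5 ((bc o (Algebra.ofId κ K)).cl w)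
  exact P6_descend _ hx

/-- the class group is divisible by two -/
theorem exists_two_smul (w : Cl o κ) : ∃ x : Cl o κ, 2 • x = w := by
  rcases hg : genus κ F with _ | m
  · have := subsingleton_Cl (o := o) (Ω := κ) hg
    exact ⟨w, Subsingleton.elim _ _⟩
  · let Ω := AlgebraicClosure (FractionRing (MvPolynomial (Fin (m + 1)) κ))
    have : CharZero Ω := charZero_of_injective_algebraMap (algebraMap κ Ω).injective
    let f : MvPolynomial (Fin (m + 1)) κ →ₐ[κ] Ω :=
      (IsScalarTower.toAlgHom κ (FractionRing (MvPolynomial (Fin (m + 1)) κ)) Ω).comp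
        (IsScalarTower.toAlgHom κ (MvPolynomial (Fin (m + 1)) κ) _)
    have hf : Function.Injective f :=
      (algebraMap (FractionRing (MvPolynomial (Fin (m + 1)) κ)) Ω).injective.comp
        (IsFractionRing.injective (MvPolynomial (Fin (m + 1)) κ) _)
    exact P6_main hg (f ∘ MvPolynomial.X) ((MvPolynomial.algebraicIndependent_X _ _).map' hf) w

end Pool.Agent.E6b

end

section
open scoped NNReal TensorProduct IntermediateField BigOperators Classical Topology
open Filter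

namespace Pool.Agent.E6b

theorem MW1_sign : ∃ e : ZMod 2 → ℤˣ, (∀ r s, e (r + s) = e r * e s) ∧ ∀ r, e r = 1 → r = 0 :=
  ⟨fun r => if r.val = 0 then 1 else -1, by decide, by decide⟩

/-- sign characters separate the points of the two torsion -/
theorem MW1_char {A : Type} [AddCommGroup A] {a : A} (h2 : 2 • a = 0) (ha : a ≠ 0) :
    ∃ ψ : A → ℤˣ, (∀ b c, 2 • b = 0 → 2 • c = 0 → ψ (b + c) = ψ b * ψ c) ∧ ψ a ≠ 1 := by
  let T : AddSubgroup A := (nsmulAddMonoidHom (α := A) 2).ker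
  have hT : ∀ b, b ∈ T ↔ 2 • b = 0 := fun b => Iff.rfl
  let : Module (ZMod 2) T := AddCommGroup.zmodModule fun x => Subtype.ext ((hT x).1 x.2)
  have : Fact (Nat.Prime 2) := ⟨Nat.prime_two⟩
  have ha' : (⟨a, (hT a).2 h2⟩ : T) ≠ 0 := fun h => ha (congrArg Subtype.val h)
  obtain ⟨f, hf⟩ := not_forall.1 (mt (Module.forall_dual_apply_eq_zero_iff (ZMod 2) _).1 ha')
  obtain ⟨e, he, he1⟩ := MW1_sign
  refine ⟨fun b => if h : b ∈ T then e (f ⟨b, h⟩) else 1, fun b c hb hc => ?_, ?_⟩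
  · have hb' := (hT b).2 hb
    have hc' := (hT c).2 hc
    simp only [dif_pos hb', dif_pos hc', dif_pos (T.add_mem hb' hc')]
    rw [← he, ← map_add]
    rfl
  · simp only [dif_pos ((hT a).2 h2)]
    exact fun h => hf (he1 _ h)

/-- the group theoretic part of the weak Mordell-Weil theorem -/
theorem MW1_abs {Γ A : Type} [Group Γ] [AddCommGroup A] (act : Γ → A →+ A)
    (hmul : ∀ σ σ' a, act (σ * σ') a = act σ (act σ' a)) (hT : {a : A | 2 • a = 0}.Finite)
    (hfix : ∀ σ a, 2 • a = 0 → act σ a = a) (hdiv : ∀ w : A, ∃ x : A, 2 • x = w)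
    (X : Set (Γ →* ℤˣ)) (hX : X.Finite)
    (hmem : ∀ x : A, (∀ σ, 2 • (act σ x - x) = 0) → ∀ χ : Γ →* ℤˣ,
      (∀ σ, act σ x = x → χ σ = 1) → χ ∈ X) :
    ∃ S : Finset A, ∀ w, (∀ σ, act σ w = w) →
      ∃ s ∈ S, ∃ x, (∀ σ, act σ x = x) ∧ w = s + 2 • x := by
  choose x hx using hdiv
  let T := {t : A // 2 • t = 0 ∧ t ≠ 0}
  have : Finite T := (hT.subset fun t (ht : 2 • t = 0 ∧ t ≠ 0) => ht.1).to_subtype
  have : Finite X := hX.to_subtype
  have hψ := fun t : T => MW1_char t.2.1 t.2.2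
  choose ψ hψ hψ1 using hψ
  have hψ0 : ∀ t, ψ t 0 = 1 := fun t => by
    have := hψ t 0 0 (smul_zero _) (smul_zero _)
    rw [add_zero] at this
    exact left_eq_mul.1 this
  let G := {w : A // ∀ σ, act σ w = w}
  have : Nonempty G := ⟨⟨0, fun σ => map_zero _⟩⟩
  have hk : ∀ (w : G) σ, 2 • (act σ (x w) - x w) = 0 := fun w σ => by
    rw [smul_sub, ← map_nsmul, hx, w.2, sub_self]
  have hk2 : ∀ (w : G) σ σ', act (σ * σ') (x w) - x w =
      (act σ (x w) - x w) + (act σ' (x w) - x w) := fun w σ σ' => by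
    have := hfix σ _ (hk w σ')
    rw [map_sub] at this
    rw [hmul, ← this]
    abel
  let χ : G → T → Γ →* ℤˣ := fun w t => MonoidHom.mk' (fun σ => ψ t (act σ (x w) - x w))
    fun σ σ' => by rw [hk2, hψ t _ _ (hk w σ) (hk w σ')]
  have hχ : ∀ w t σ, χ w t σ = ψ t (act σ (x w) - x w) := fun _ _ _ => rfl
  let Φ : G → T → X := fun w t => ⟨χ w t, hmem (x w) (hk w) _ fun σ h => by
    rw [hχ, h, sub_self, hψ0]⟩
  refine ⟨(Set.finite_range fun c => (Function.invFun Φ c).1).toFinset, fun w hw => ?_⟩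
  let w₁ : G := ⟨w, hw⟩
  let w₂ : G := Function.invFun Φ (Φ w₁)
  have h12 : Φ w₂ = Φ w₁ := Function.invFun_eq ⟨w₁, rfl⟩
  refine ⟨w₂.1, (Set.Finite.mem_toFinset _).2 ⟨Φ w₁, rfl⟩, x w₁ - x w₂, fun σ => ?_, ?_⟩
  · by_contra hne
    have hd : 2 • ((act σ (x w₁) - x w₁) - (act σ (x w₂) - x w₂)) = 0 := by
      rw [smul_sub, hk, hk, sub_self]
    have hd0 : (act σ (x w₁) - x w₁) - (act σ (x w₂) - x w₂) ≠ 0 := fun h => hne (by
      rw [map_sub, ← sub_eq_zero, ← h]; abel)
    let t : T := ⟨_, hd, hd0⟩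
    have e1 : χ w₂ t σ = χ w₁ t σ := by
      have := congrArg Subtype.val (congrFun h12 t)
      exact DFunLike.congr_fun this σ
    have e2 := hψ t _ _ hd (hk w₂ σ)
    rw [sub_add_cancel, ← hχ, ← hχ, e1] at e2
    exact hψ1 t (right_eq_mul.1 e2)
  · rw [smul_sub, hx, hx]
    simp [w₁]
variable {F : Type} [Field F] [Algebra Qb F] [IsFF Qb F] (o : Place Qb F)

theorem exists_algEquiv_of_bc (β : BC o Qb Qb) : ∃ σ : Qb ≃ₐ[ℚ] Qb, ∀ x, β.τ x = σ x := by
  have := H3_isAlgebraic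
  exact ⟨AlgEquiv.ofBijective β.τ.toRatAlgHom (Algebra.IsAlgebraic.algHom_bijective _),
    fun _ => rfl⟩

/-- inertia at large primes acts trivially on division points -/
theorem exists_unram : ∃ N : ℕ, ∀ p v, IsPl p v → N ≤ p → p ≠ 0 → ∀ β : BC o Qb Qb,
    (∀ x, v x ≤ 1 → v (β.τ x - x) < 1) → ∀ x : Cl o Qb, 2 • (β.cl x - x) = 0 → β.cl x = x := by
  by_contra hc
  push Not at hc
  choose p v hv hN hp β hβ x h2 hne using hc
  let U : Ultrafilter ℕ := hyperfilter ℕ
  have hpt : Tendsto p (U : Filter ℕ) atTop :=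
    tendsto_atTop_mono hN (Nat.hyperfilter_le_atTop)
  obtain ⟨O, h1, h1'⟩ := exists_vs_one U p v hv hpt
  obtain ⟨t, -, ht⟩ := exists_eventually_eq U (finite_two_torsion (o := o) (Ω := Qb))
    (f := fun n => (β n).cl (x n) - x n) (Eventually.of_forall h2)
  have ht0 : t ≠ 0 := by
    obtain ⟨n, hn⟩ := ht.exists
    rw [← hn]
    exact sub_ne_zero.2 (hne n)
  have hz := fun n => exists_rep (x n) (Fin (2 * genus Qb F)) (by simp) Set.finite_empty
  choose z _ _ hz using hz
  have e1 : clU U (fun n => (β n).cl (x n) - x n) = (bc o (dU U Qb Qb)).cl t := by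
    rw [← clU_const, clU_eq_iff]
    exact ht
  have e2 : clU U (fun n => (β n).cl (x n) - x n) =
      clz (fun a => ptU U fun n => (β n).pt (z n a)) - clz fun a => ptU U fun n => z n a := by
    rw [clU_sub, ← clU_clz, ← clU_clz]
    obtain rfl : x = fun n => clz (z n) := funext fun n => (hz n).symm
    simp only [BC.cl_clz]
  have e3 : redCl O o (clU U fun n => (β n).cl (x n) - x n) = 0 := by
    rw [e2, map_sub, clz_eq_sum, clz_eq_sum, map_sum, map_sum, sub_eq_zero]
    refine Finset.sum_congr rfl fun a _ => redCl_cl_congr O ?_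
    exact MW1_red o U v (fun n => (hv n).nonarch (hp n)) O h1 h1' β hβ fun n => z n a
  rw [e1, redCl_bc O (dU U Qb Qb) O.2] at e3
  exact ht0 (BC.cl_injective _ (e3.trans (map_zero _).symm))

/-- weak Mordell-Weil -/
theorem weak_mw (K₀ : IntermediateField ℚ Qb) [FiniteDimensional ℚ K₀] :
    ∃ K : IntermediateField ℚ Qb, K₀ ≤ K ∧ FiniteDimensional ℚ K ∧
      (∀ σ : Qb ≃ₐ[ℚ] Qb, (∀ x ∈ K, σ x = x) → ∃ β : BC o Qb Qb, (∀ x, β.τ x = σ x) ∧ β.Ok) ∧
      ∃ S : Finset (Cl o Qb), ∀ w ∈ GK o K, ∃ s ∈ S, ∃ x ∈ GK o K, w = s + 2 • x := by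
  obtain ⟨K₁, hK₁, hdef⟩ := exists_defField o
  choose L hL hLm using exists_mem_GK o
  have hT := finite_two_torsion (o := o) (Ω := Qb)
  have := hT.to_subtype
  let K₂ : IntermediateField ℚ Qb := ⨆ t : {w : Cl o Qb | 2 • w = 0}, L t
  have : ∀ t : {w : Cl o Qb | 2 • w = 0}, FiniteDimensional ℚ (L t) := fun t => hL t
  have : FiniteDimensional ℚ K₂ := IntermediateField.finiteDimensional_iSup_of_finite
  let K : IntermediateField ℚ Qb := (K₀ ⊔ K₁) ⊔ K₂
  have hK : FiniteDimensional ℚ K := IntermediateField.finiteDimensional_sup _ _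
  have hdef' : ∀ σ : Qb ≃ₐ[ℚ] Qb, (∀ x ∈ K, σ x = x) →
      ∃ β : BC o Qb Qb, (∀ x, β.τ x = σ x) ∧ β.Ok := fun σ hσ =>
    hdef σ fun x hx => hσ x ((le_sup_right.trans le_sup_left : K₁ ≤ K) hx)
  refine ⟨K, le_sup_left.trans le_sup_left, hK, hdef', ?_⟩
  have hfx : ∀ σ : K.fixingSubgroup, ∀ x ∈ K, (σ : Qb ≃ₐ[ℚ] Qb) x = x := fun σ =>
    (IntermediateField.mem_fixingSubgroup_iff K _).1 σ.2
  choose β hβ _ using fun σ : K.fixingSubgroup => hdef' σ (hfx σ)
  have hGK : ∀ w, w ∈ GK o K ↔ ∀ σ, (β σ).cl w = w := fun w => by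
    refine ⟨fun h σ => h _ fun x hx => by rw [hβ, hfx σ x hx], fun h b hb => ?_⟩
    obtain ⟨σ, hσ⟩ := exists_algEquiv_of_bc o b
    have hm : σ ∈ K.fixingSubgroup := (IntermediateField.mem_fixingSubgroup_iff K _).2
      fun x hx => by rw [← hσ, hb x hx]
    have : b = β ⟨σ, hm⟩ := BC.ext_τ (RingHom.ext fun x => by rw [hσ, hβ])
    rw [this]
    exact h _
  obtain ⟨N, hN⟩ := exists_unram o
  obtain ⟨S, hS⟩ := MW1_abs (fun σ : K.fixingSubgroup => (β σ).cl) (fun σ σ' a => by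
      have : β (σ * σ') = (β σ).comp (β σ') := BC.ext_τ (RingHom.ext fun x => by
        change _ = (β σ).τ ((β σ').τ x)
        rw [hβ, hβ, hβ]; rfl)
      simp only [this, BC.comp_cl]) hT
    (fun σ a ha => (hGK a).1 (GK_mono o
      ((le_iSup (fun t : {w : Cl o Qb | 2 • w = 0} => L t) ⟨a, ha⟩).trans le_sup_right) (hLm a)) σ)
    exists_two_smul _ (finite_unram_char K N) fun x hx χ hχ =>
      ⟨⟨L x, hL x, fun σ hσ => hχ σ (hLm x _ fun y hy => by rw [hβ, hσ y hy])⟩,
        fun p v hv hp hp0 σ hσ => hχ σ (hN p v hv hp hp0 _ (fun y hy => by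
          rw [hβ]; exact hσ y hy) x (hx σ))⟩
  refine ⟨S, fun w hw => ?_⟩
  obtain ⟨s, hs, x, hx, e⟩ := hS w ((hGK w).1 hw)
  exact ⟨s, hs, x, (hGK x).2 hx, e⟩

end Pool.Agent.E6b

end

section
open scoped NNReal TensorProduct IntermediateField BigOperators Classical Topology
open Filter

namespace Pool.Agent.E6b
variable {F : Type} [Field F] [Algebra Qb F] [IsFF Qb F] (o : Place Qb F)

theorem northcott_GK (K : IntermediateField ℚ Qb) [FiniteDimensional ℚ K] (B : ℝ) :
    {w : Cl o Qb | w ∈ GK o K ∧ hq w ≤ B}.Finite := by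
  obtain ⟨K₀, hfin, hK₀⟩ := exists_defField o
  have hT := northcott_field (K ⊔ K₀) B
  have hX : {x : JJ o × JJ o → Qb | ∀ j, x j ∈ {a : Qb | a ∈ K ⊔ K₀ ∧ h1 a ≤ B}}.Finite :=
    Set.Finite.pi' fun _ => hT
  refine (hX.biUnion fun x _ => finite_fibre_Psym (o := o) x).subset ?_
  rintro w ⟨hw, hB⟩
  obtain ⟨j₀, hj₀⟩ := Function.ne_iff.1 (Psym_ne_zero w)
  have hj : Psym w j₀ ≠ 0 := hj₀
  refine Set.mem_biUnion (x := fun j => Psym w j / Psym w j₀) (fun j => ⟨?_, ?_⟩) ?_
  · refine mem_of_fixed _ fun σ hσ => ?_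
    obtain ⟨β, hβ, hok⟩ := hK₀ σ fun x hx => hσ x ((le_sup_right : K₀ ≤ K ⊔ K₀) hx)
    have h1 : β.cl w = w := hw β fun x hx => by
      rw [hβ, hσ x ((le_sup_left : K ≤ K ⊔ K₀) hx)]
    obtain ⟨μ, hμ, h2⟩ := hok.Psym w
    rw [h1] at h2
    have h3 := h2 j
    have h4 := h2 j₀
    simp only [hβ] at h3 h4
    rw [map_div₀, ← mul_div_mul_left _ _ hμ, ← h3, ← h4]
  · exact (h1_le_of_mem (Finset.mem_image_of_mem _ (Finset.mem_univ j))
      (Finset.mem_image_of_mem _ (Finset.mem_univ j₀)) hj).trans hB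
  · exact ⟨Psym w j₀, hj, fun j => (mul_div_cancel₀ _ hj).symm⟩

/-- Mordell-Weil -/
theorem mw (K : IntermediateField ℚ Qb) [FiniteDimensional ℚ K] : (GK o K).FG := by
  obtain ⟨K', hle, hfin, -, S, hS⟩ := weak_mw o K
  obtain ⟨C, hC⟩ := par_ht o
  have hN : Northcott fun x : GK o K' => hq x.1 :=
    ⟨fun B => ((northcott_GK o K' B).preimage Subtype.val_injective.injOn).subset
      fun x hx => ⟨x.2, hx⟩⟩
  have hI : (nsmulAddMonoidHom (α := GK o K') 2).range.FiniteIndex := by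
    have hf : (Subtype.val ⁻¹' (S : Set (Cl o Qb)) : Set (GK o K')).Finite :=
      S.finite_toSet.preimage Subtype.val_injective.injOn
    have hq : Finite (GK o K' ⧸ (nsmulAddMonoidHom (α := GK o K') 2).range) := by
      rw [← Set.finite_univ_iff]
      refine (hf.image QuotientAddGroup.mk).subset fun q _ => ?_
      obtain ⟨w, rfl⟩ := QuotientAddGroup.mk_surjective q
      obtain ⟨s, hs, x, hx, e⟩ := hS w.1 w.2
      have hs' : s ∈ GK o K' := by
        have : s = w.1 - 2 • x := by rw [e, add_sub_cancel_right]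
        rw [this]
        exact sub_mem w.2 (nsmul_mem hx 2)
      refine ⟨⟨s, hs'⟩, hs, QuotientAddGroup.eq.2 ⟨⟨x, hx⟩, Subtype.ext ?_⟩⟩
      change 2 • x = -s + w.1
      rw [e, neg_add_cancel_left]
    exact AddSubgroup.finiteIndex_of_finite_quotient
  have hFG : AddGroup.FG (GK o K') :=
    AddCommGroup.fg_of_descent' (h := fun x : GK o K' => hq x.1) (C := C) hI
      (fun x => hv_nonneg _) fun x y => by
        have := hC x.1 y.1
        rw [mul_add, ← sub_sub]
        exact this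
  have h1 : (GK o K').toIntSubmodule.FG := by
    rw [Submodule.fg_iff_addSubgroup_fg, AddSubgroup.toIntSubmodule_toAddSubgroup]
    exact (AddGroup.fg_iff_addSubgroup_fg _).1 hFG
  have h2 : (GK o K).toIntSubmodule.FG := h1.of_le fun x hx => GK_mono o hle hx
  rwa [Submodule.fg_iff_addSubgroup_fg, AddSubgroup.toIntSubmodule_toAddSubgroup] at h2

end Pool.Agent.E6b

end
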