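import Pool.Agent.E6c.A35
import Pool.Agent.E6c.A36
import Pool.Agent.E6c.A38

section
open scoped NNReal TensorProduct IntermediateField BigOperators Classical Topology
open Filter

namespace Pool.Agent.E6b
variable (U : Ultrafilter ℕ)

section Aux
variable {L : Type} [Field L] {r : ℕ}

theorem M2_congr {p : PP (UP U L) r} {ps qs : ℕ → PP L r} (h : LimP U p ps)
    (e : ∀ᶠ n in (U : Filter ℕ), qs n = ps n) : LimP U p qs := fun i μ =>
  (h i μ).trans ((gm_eq_iff U _ _).2 (e.mono fun n hn => by rw [hn]))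

theorem M2_zero (p : M2P L r) : M2lim U p = 0 ↔ ∀ᶠ n in (U : Filter ℕ), M2cmp n p = 0 := by
  refine ⟨fun h => ?_, fun h => ?_⟩
  · have h1 : ∀ᶠ n in (U : Filter ℕ), ∀ i ∈ p.support, ∀ μ ∈ (p.coeff i).support,
        (p.coeff i).coeff μ n = 0 := by
      refine (eventually_all_finset _).2 fun i _ => (eventually_all_finset _).2 fun μ _ => ?_
      rw [← gm_eq_zero_iff, ← M2lim_coeff, h, Polynomial.coeff_zero, MvPolynomial.coeff_zero]
    refine h1.mono fun n hn => Polynomial.ext fun i => MvPolynomial.ext _ _ fun μ => ?_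
    rw [M2cmp_coeff, Polynomial.coeff_zero, MvPolynomial.coeff_zero]
    by_cases h2 : (p.coeff i).coeff μ = 0
    · rw [h2]
      rfl
    · refine hn i (Polynomial.mem_support_iff.2 fun e => h2 ?_) μ
        (MvPolynomial.mem_support_iff.2 h2)
      rw [e, MvPolynomial.coeff_zero]
  · refine Polynomial.ext fun i => MvPolynomial.ext _ _ fun μ => ?_
    rw [M2lim_coeff, Polynomial.coeff_zero, MvPolynomial.coeff_zero, gm_eq_zero_iff]
    exact h.mono fun n hn => by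
      rw [← M2cmp_coeff, hn, Polynomial.coeff_zero, MvPolynomial.coeff_zero]

theorem M2_eq (p q : M2P L r) :
    M2lim U p = M2lim U q ↔ ∀ᶠ n in (U : Filter ℕ), M2cmp n p = M2cmp n q := by
  rw [← sub_eq_zero, ← map_sub, M2_zero]
  simp only [map_sub, sub_eq_zero]

theorem M2_dvd {Δ : ℕ} {f m : PP L r} (h : CxP Δ m) (hm : m ≠ 0) (hf : f ∣ m) :
    CxP (Δ + Δ) f := by
  obtain ⟨F, rfl⟩ := (MvPolynomial.finSuccEquiv L r).surjective f
  obtain ⟨G, rfl⟩ := (MvPolynomial.finSuccEquiv L r).surjective m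
  have h1 : G.totalDegree ≤ Δ + Δ := by
    refine Finset.sup_le fun s hs => ?_
    have h2 := MvPolynomial.mem_support_iff.1 hs
    rw [← Finsupp.cons_tail (t := s), ← MvPolynomial.finSuccEquiv_coeff_coeff] at h2
    rw [← Finsupp.cons_tail (t := s), Finsupp.sum_cons]
    refine Nat.add_le_add ((Polynomial.le_natDegree_of_ne_zero fun e => h2 ?_).trans h.1)
      ((MvPolynomial.le_totalDegree (MvPolynomial.mem_support_iff.2 h2)).trans (h.2 _))
    rw [e, MvPolynomial.coeff_zero]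
  have h2 : F.totalDegree ≤ Δ + Δ :=
    (MvPolynomial.totalDegree_le_of_dvd_of_isDomain ((map_dvd_iff (MvPolynomial.finSuccEquiv L r)).1 hf)
      fun e => hm (by rw [e, map_zero])).trans h1
  refine ⟨?_, fun i => ?_⟩
  · rw [MvPolynomial.natDegree_finSuccEquiv]
    exact (MvPolynomial.degreeOf_le_totalDegree _ _).trans h2
  · by_cases hi : (MvPolynomial.finSuccEquiv L r F).coeff i = 0
    · rw [hi, MvPolynomial.totalDegree_zero]
      exact Nat.zero_le _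
    · exact (Nat.le_add_right _ _).trans
        ((MvPolynomial.totalDegree_coeff_finSuccEquiv_add_le F i hi).trans h2)

theorem M2_irr {m : M2P L r} (hm : m.Monic) (hi : Irreducible (M2lim U m)) :
    ∀ᶠ n in (U : Filter ℕ), Irreducible (M2cmp n m) := by
  obtain ⟨Δ, hΔ⟩ := M2_cx m
  have hmn : ∀ n, (M2cmp n m).Monic := fun n => hm.map _
  have h1 : ∀ᶠ n in (U : Filter ℕ), M2cmp n m ≠ 1 := by
    refine Ultrafilter.eventually_not.2 fun h => hi.ne_one ?_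
    rw [← map_one (M2lim U), M2_eq]
    simpa only [map_one] using h
  have h2 : ∀ n, ∃ f g : PP L r, CxP (Δ + Δ) f ∧ CxP (Δ + Δ) g ∧ (M2cmp n m ≠ 1 →
      ¬ Irreducible (M2cmp n m) → ¬ IsUnit f ∧ ¬ IsUnit g ∧ f * g = M2cmp n m) := fun n => by
    by_cases h : M2cmp n m ≠ 1 ∧ ¬ Irreducible (M2cmp n m)
    · have h3 := h.2
      rw [Polynomial.irreducible_of_monic (hmn n) h.1] at h3
      push Not at h3
      obtain ⟨f, g, hf, hg, e, h4, h5⟩ := h3
      exact ⟨f, g, M2_dvd (hΔ n) (hmn n).ne_zero ⟨g, e.symm⟩,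
        M2_dvd (hΔ n) (hmn n).ne_zero ⟨f, by rw [← e, mul_comm]⟩, fun _ _ =>
        ⟨fun u => h4 (hf.eq_one_of_isUnit u), fun u => h5 (hg.eq_one_of_isUnit u), e⟩⟩
    · exact ⟨1, 1, M2_cx_one _, M2_cx_one _, fun a b => absurd ⟨a, b⟩ h⟩
  choose f g hf hg hfg using h2
  obtain ⟨F, hF⟩ := M2_lift f hf
  obtain ⟨G, hG⟩ := M2_lift g hg
  have hu : ∀ F : M2P L r, IsUnit (M2lim U F) → ∀ᶠ n in (U : Filter ℕ), IsUnit (M2cmp n F) :=
    fun F h => by
      obtain ⟨b, hb⟩ := h.exists_right_inv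
      obtain ⟨B, rfl⟩ := M2_surj U b
      rw [← map_mul, ← map_one (M2lim U), M2_eq] at hb
      refine hb.mono fun n hn => ?_
      rw [map_mul, map_one] at hn
      exact IsUnit.of_mul_eq_one _ hn
  by_contra hn
  have h3 := (h1.and (Ultrafilter.eventually_not.2 hn)).mono fun n hn => hfg n hn.1 hn.2
  have h4 : M2lim U m = M2lim U F * M2lim U G := by
    rw [← map_mul, M2_eq]
    exact h3.mono fun n hn => by rw [map_mul, hF, hG, hn.2.2]
  rcases hi.isUnit_or_isUnit h4 with h | h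
  · obtain ⟨n, h5, h6⟩ := ((hu F h).and h3).exists
    exact h6.1 (hF n ▸ h5)
  · obtain ⟨n, h5, h6⟩ := ((hu G h).and h3).exists
    exact h6.2.1 (hG n ▸ h5)

theorem M2_sep {m p g q : M2P L r}
    (h : M2lim U p * Polynomial.derivative (M2lim U m) - M2lim U q = M2lim U m * M2lim U g) :
    ∀ᶠ n in (U : Filter ℕ),
      M2cmp n m ∣ M2cmp n p * Polynomial.derivative (M2cmp n m) - M2cmp n q := by
  have h1 : Polynomial.derivative (M2lim U m) = M2lim U (Polynomial.derivative m) :=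
    Polynomial.derivative_map _ _
  rw [h1, ← map_mul, ← map_mul, ← map_sub, M2_eq] at h
  refine h.mono fun n hn => ⟨M2cmp n g, ?_⟩
  have h2 : M2cmp n (Polynomial.derivative m) = Polynomial.derivative (M2cmp n m) :=
    (Polynomial.derivative_map _ _).symm
  rwa [map_sub, map_mul, map_mul, h2] at hn

theorem M2_mem_cfs {p : PP L r} {a : L} (h : a ∈ cfs p) :
    ∃ i μ, (p.coeff i).coeff μ ≠ 0 ∧ a = (p.coeff i).coeff μ := by
  obtain ⟨i, -, hi⟩ := Finset.mem_biUnion.1 h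
  obtain ⟨μ, h1, h2⟩ := MvPolynomial.mem_coeffs_iff.1 hi
  exact ⟨i, μ, MvPolynomial.mem_support_iff.1 h1, h2⟩

theorem M2_cfs {K : Type} [Field K] (τ : K →+* UP U L) (p : PP K r) (q : M2P L r)
    (h : M2lim U q = p.map (MvPolynomial.map τ)) :
    ∃ T : Finset (ℕ → L), (∀ c ∈ T, gm U c ∈ τ.range) ∧
      ∀ n, ∀ a ∈ cfs (M2cmp n q), ∃ c ∈ T, a = c n := by
  refine ⟨q.support.biUnion fun i => (q.coeff i).coeffs, fun c hc => ?_, fun n a ha => ?_⟩
  · obtain ⟨i, -, hi⟩ := Finset.mem_biUnion.1 hc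
    obtain ⟨μ, -, rfl⟩ := MvPolynomial.mem_coeffs_iff.1 hi
    rw [← M2lim_coeff, h, Polynomial.coeff_map, MvPolynomial.coeff_map]
    exact ⟨_, rfl⟩
  · obtain ⟨i, μ, h1, h2⟩ := M2_mem_cfs ha
    rw [M2cmp_coeff] at h1 h2
    have h3 : (q.coeff i).coeff μ ≠ 0 := fun e => h1 (by rw [e]; rfl)
    refine ⟨_, Finset.mem_biUnion.2 ⟨i, Polynomial.mem_support_iff.2 fun e => h3 ?_,
      MvPolynomial.coeff_mem_coeffs μ h3⟩, h2⟩
    rw [e, MvPolynomial.coeff_zero]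

theorem M2_default (ι : Type) {Δ : ℕ} (h : 1 ≤ Δ) : ∃ M : Mdl L r ι, M.Cx Δ :=
  ⟨⟨Polynomial.X, 1, fun _ => 0, 1, Polynomial.monic_X, Polynomial.irreducible_X, by simp,
    one_ne_zero⟩, M2_cx_X h, by simp, fun _ => M2_cx_zero _, M2_cx_one _⟩

end Aux

/-- constant independent elements stay independent over the ultrapower -/
theorem algebraicIndependent_gm {L L' : Type} [Field L] [Field L'] [Algebra L L'] {r : ℕ}
    {u : Fin r → L'} (hu : AlgebraicIndependent L u) (φ : UP U L →+* UP U L')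
    (hφ : ∀ x : ℕ → L, φ (gm U x) = gm U fun n => algebraMap L L' (x n))
    (Q : MvPolynomial (Fin r) (UP U L))
    (hQ : MvPolynomial.eval₂ φ (fun k => gm U fun _ => u k) Q = 0) : Q = 0 := by
  obtain ⟨q, rfl⟩ := M2_surj0 U Q
  have h1 := M2_ev U φ hφ (fun _ => u) (fun _ => 0) (Polynomial.C q)
  have h2 : M2lim U (Polynomial.C q) = Polynomial.C (MvPolynomial.map (U1_hom U) q) :=
    Polynomial.map_C _
  rw [h2, Polynomial.eval₂_C, MvPolynomial.coe_eval₂Hom, hQ, eq_comm, gm_eq_zero_iff] at h1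
  rw [← Polynomial.C_eq_zero, ← h2, M2_zero]
  refine h1.mono fun n hn => ?_
  rw [M2cmp, Polynomial.coe_mapRingHom, Polynomial.map_C] at hn ⊢
  rw [algebraicIndependent_iff.1 hu _ ((Polynomial.eval₂_C _ _).symm.trans hn), map_zero]

/-- a model over an algebraically closed subfield of the ultrapower is a limit of models -/
theorem exists_mdl_seq (K : IntermediateField Qb (UP U Qb)) [IsAlgClosed K] {r : ℕ} {ι : Type}
    [Fintype ι] (M : Mdl K r ι) : ∃ (Δ : ℕ) (Ms : ℕ → Mdl Qb r ι), (∀ n, (Ms n).Cx Δ) ∧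
      LimP U (M.m.map (MvPolynomial.map (algebraMap K (UP U Qb)))) (fun n => (Ms n).m) ∧
      LimP U (Polynomial.C (M.q.map (algebraMap K (UP U Qb)))) (fun n => Polynomial.C (Ms n).q) ∧
      (∀ l, LimP U ((M.P l).map (MvPolynomial.map (algebraMap K (UP U Qb)))) fun n => (Ms n).P l) ∧
      ∃ (k : ℕ) (c : Fin k → ℕ → Qb), (∀ i, gm U (c i) ∈ K) ∧
        ∀ᶠ n in (U : Filter ℕ), ∀ a ∈ (Ms n).S, ∃ i, a = c i n := by
  obtain ⟨τ, hτ⟩ : ∃ τ, τ = algebraMap K (UP U Qb) := ⟨_, rfl⟩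
  rw [← hτ]
  obtain ⟨m, hm, -, hmon⟩ := Polynomial.lifts_and_natDegree_eq_and_monic
    ((Polynomial.mem_lifts _).2 (M2_surj U (M.m.map (MvPolynomial.map τ)))) (M.monic.map _)
  replace hm : M2lim U m = M.m.map (MvPolynomial.map τ) := hm
  obtain ⟨q, hq0⟩ := M2_surj0 U (M.q.map τ)
  have hq : M2lim U (Polynomial.C q) = (Polynomial.C M.q).map (MvPolynomial.map τ) := by
    rw [Polynomial.map_C, ← hq0]
    exact Polynomial.map_C _
  choose P hP using fun l => M2_surj U ((M.P l).map (MvPolynomial.map τ))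
  obtain ⟨P', hP'⟩ := M2_surj U (M.P'.map (MvPolynomial.map τ))
  obtain ⟨g₀, hg₀⟩ := M.sep
  obtain ⟨g, hg⟩ := M2_surj U (g₀.map (MvPolynomial.map τ))
  have hCq : ∀ n, M2cmp n (Polynomial.C q) =
      Polynomial.C (q.map (Pi.evalRingHom (fun _ : ℕ => Qb) n)) := fun n => Polynomial.map_C _
  have h1 := M2_irr U hmon (hm ▸ irreducible_map τ M.monic M.irr)
  have h2 : ∀ᶠ n in (U : Filter ℕ), q.map (Pi.evalRingHom (fun _ : ℕ => Qb) n) ≠ 0 := by
    refine Ultrafilter.eventually_not.2 fun h => M.q_ne ?_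
    have h3 := (M2_zero U (Polynomial.C q)).2 (h.mono fun n hn => by rw [hCq, hn, map_zero])
    rw [hq, Polynomial.map_C, Polynomial.C_eq_zero] at h3
    exact MvPolynomial.map_injective τ τ.injective (h3.trans (map_zero _).symm)
  have h3 : ∀ᶠ n in (U : Filter ℕ), M2cmp n m ∣ M2cmp n P' * Polynomial.derivative (M2cmp n m) -
      Polynomial.C (q.map (Pi.evalRingHom (fun _ : ℕ => Qb) n)) := by
    simp only [← hCq]
    refine M2_sep U (g := g) ?_
    rw [hm, hq, hP', hg, Polynomial.derivative_map, ← Polynomial.map_mul, ← Polynomial.map_sub,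
      hg₀, Polynomial.map_mul]
  obtain ⟨d₁, hd₁⟩ := M2_cx m
  obtain ⟨d₂, hd₂⟩ := M2_cx (Polynomial.C q)
  obtain ⟨d₃, hd₃⟩ := M2_cx P'
  choose d₄ hd₄ using fun l => M2_cx (P l)
  obtain ⟨Δ, e₀, e₁, e₂, e₃, e₄⟩ : ∃ Δ, 1 ≤ Δ ∧ d₁ ≤ Δ ∧ d₂ ≤ Δ ∧ d₃ ≤ Δ ∧ ∀ l, d₄ l ≤ Δ :=
    ⟨1 + d₁ + d₂ + d₃ + Finset.univ.sup d₄, by omega, by omega, by omega, by omega, fun l =>
      (Finset.le_sup (Finset.mem_univ l)).trans (Nat.le_add_left _ _)⟩
  have h4 : ∀ n, ∃ N : Mdl Qb r ι, N.Cx Δ ∧ (Irreducible (M2cmp n m) ∧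
      q.map (Pi.evalRingHom (fun _ : ℕ => Qb) n) ≠ 0 ∧
      M2cmp n m ∣ M2cmp n P' * Polynomial.derivative (M2cmp n m) -
        Polynomial.C (q.map (Pi.evalRingHom (fun _ : ℕ => Qb) n)) →
      N.m = M2cmp n m ∧ Polynomial.C N.q = M2cmp n (Polynomial.C q) ∧
        (∀ l, N.P l = M2cmp n (P l)) ∧ N.P' = M2cmp n P') := fun n => by
    by_cases h : Irreducible (M2cmp n m) ∧ q.map (Pi.evalRingHom (fun _ : ℕ => Qb) n) ≠ 0 ∧
      M2cmp n m ∣ M2cmp n P' * Polynomial.derivative (M2cmp n m) -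
        Polynomial.C (q.map (Pi.evalRingHom (fun _ : ℕ => Qb) n))
    · refine ⟨⟨M2cmp n m, _, fun l => M2cmp n (P l), M2cmp n P', hmon.map _, h.1, h.2.2, h.2.1⟩,
        ⟨M2_mono (hd₁ n) e₁, ?_, fun l => M2_mono (hd₄ l n) (e₄ l), M2_mono (hd₃ n) e₃⟩,
        fun _ => ⟨rfl, (hCq n).symm, fun _ => rfl, rfl⟩⟩
      have h5 := (M2_mono (hd₂ n) e₂).2 0
      rwa [hCq, Polynomial.coeff_C_zero] at h5
    · obtain ⟨N, hN⟩ := M2_default (L := Qb) (r := r) ι e₀
      exact ⟨N, hN, fun h' => absurd h' h⟩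
  choose Ms hMs hMs' using h4
  have h5 := (h1.and (h2.and h3)).mono hMs'
  obtain ⟨T₁, a₁, b₁⟩ := M2_cfs U τ _ _ hm
  obtain ⟨T₂, a₂, b₂⟩ := M2_cfs U τ _ _ hq
  obtain ⟨T₃, a₃, b₃⟩ := M2_cfs U τ _ _ hP'
  choose T₄ a₄ b₄ using fun l => M2_cfs U τ _ _ (hP l)
  obtain ⟨T, hT, hT'⟩ : ∃ T : Finset (ℕ → Qb), (∀ c ∈ T, gm U c ∈ τ.range) ∧
      ∀ᶠ n in (U : Filter ℕ), ∀ a ∈ (Ms n).S, ∃ c ∈ T, a = c n := by
    refine ⟨insert 1 (T₁ ∪ T₂ ∪ T₃ ∪ Finset.univ.biUnion T₄), fun c hc => ?_,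
      h5.mono fun n hn a ha => ?_⟩
    · simp only [Finset.mem_insert, Finset.mem_union, Finset.mem_biUnion] at hc
      rcases hc with rfl | ((hc | hc) | hc) | ⟨l, -, hc⟩
      · exact ⟨1, map_one τ⟩
      · exact a₁ c hc
      · exact a₂ c hc
      · exact a₃ c hc
      · exact a₄ l c hc
    · simp only [Mdl.S, Finset.mem_insert, Finset.mem_union, Finset.mem_biUnion] at ha ⊢
      rcases ha with rfl | ((ha | ha) | ha) | ⟨l, hl, ha⟩
      · exact ⟨1, Or.inl rfl, rfl⟩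
      · obtain ⟨c, hc, e⟩ := b₁ n a (hn.1 ▸ ha)
        exact ⟨c, Or.inr (Or.inl (Or.inl (Or.inl hc))), e⟩
      · obtain ⟨c, hc, e⟩ := b₂ n a (hn.2.1 ▸ M2_cfs_C ha)
        exact ⟨c, Or.inr (Or.inl (Or.inl (Or.inr hc))), e⟩
      · obtain ⟨c, hc, e⟩ := b₃ n a (hn.2.2.2 ▸ ha)
        exact ⟨c, Or.inr (Or.inl (Or.inr hc)), e⟩
      · obtain ⟨c, hc, e⟩ := b₄ l n a (hn.2.2.1 l ▸ ha)
        exact ⟨c, Or.inr (Or.inr ⟨l, hl, hc⟩), e⟩
  refine ⟨Δ, Ms, hMs, M2_congr U (hm ▸ M2_limP U m) (h5.mono fun n hn => hn.1), ?_,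
    fun l => M2_congr U (hP l ▸ M2_limP U (P l)) (h5.mono fun n hn => hn.2.2.1 l),
    T.card, fun i => T.equivFin.symm i, fun i => ?_, hT'.mono fun n hn a ha => ?_⟩
  · rw [Polynomial.map_C] at hq
    exact M2_congr U (hq ▸ M2_limP U (Polynomial.C q)) (h5.mono fun n hn => hn.2.1)
  · obtain ⟨x, hx⟩ := hT _ (T.equivFin.symm i).2
    rw [← hx, hτ]
    exact x.2
  · obtain ⟨c, hc, e⟩ := hn a ha
    exact ⟨T.equivFin ⟨c, hc⟩, by simpa only [Equiv.symm_apply_apply] using e⟩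

/-- points whose coordinates are independent over the field of small elements are generic -/
theorem generic_of_indep (H : ℕ → ℝ) (hH : Tendsto H (U : Filter ℕ) atTop)
    (K : IntermediateField Qb (UP U Qb))
    (hK : ∀ x : ℕ → Qb, Tendsto (fun n => h1 (x n) / H n) (U : Filter ℕ) (𝓝 0) → gm U x ∈ K)
    {r : ℕ} (u : ℕ → Fin r → Qb) (hu : AlgebraicIndependent K fun k => gm U fun n => u n k)
    (B : ℕ) : ∃ η : ℝ, 0 < η ∧ ∀ᶠ n in (U : Filter ℕ), ∀ q : MvPolynomial (Fin r) Qb, q ≠ 0 →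
      q.totalDegree ≤ B → MvPolynomial.eval (u n) q = 0 → η * H n ≤ hp q := by
  by_contra hcon
  have hq : ∀ n, ∃ q : MvPolynomial (Fin r) Qb, ∀ q' : MvPolynomial (Fin r) Qb, q' ≠ 0 →
      q'.totalDegree ≤ B → MvPolynomial.eval (u n) q' = 0 →
      (q ≠ 0 ∧ q.totalDegree ≤ B ∧ MvPolynomial.eval (u n) q = 0) ∧ hp q ≤ hp q' + 1 := fun n => by
    by_cases h : (hp '' {q : MvPolynomial (Fin r) Qb | q ≠ 0 ∧ q.totalDegree ≤ B ∧
        MvPolynomial.eval (u n) q = 0}).Nonempty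
    · obtain ⟨_, ⟨q, hq, rfl⟩, h1⟩ := Real.lt_sInf_add_pos h one_pos
      refine ⟨q, fun q' a b c => ⟨hq, h1.le.trans (add_le_add_left (csInf_le ⟨0, ?_⟩ ?_) 1)⟩⟩
      · rintro _ ⟨q, -, rfl⟩
        exact ht_nonneg _
      · exact ⟨q', ⟨a, b, c⟩, rfl⟩
    · exact ⟨0, fun q' a b c => absurd ⟨_, q', ⟨a, b, c⟩, rfl⟩ h⟩
  choose q hq using hq
  have h1 : ∀ η : ℝ, 0 < η → ∀ᶠ n in (U : Filter ℕ), (q n ≠ 0 ∧ (q n).totalDegree ≤ B ∧
      MvPolynomial.eval (u n) (q n) = 0) ∧ hp (q n) < η * H n + 1 := fun η hη => by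
    refine (Ultrafilter.eventually_not.2 fun h => hcon ⟨η, hη, h⟩).mono fun n hn => ?_
    push Not at hn
    obtain ⟨q', a, b, c, d⟩ := hn
    exact ⟨(hq n q' a b c).1, by linarith [(hq n q' a b c).2]⟩
  have h2 := (h1 1 one_pos).mono fun n hn => hn.1
  have hpos : ∀ᶠ n in (U : Filter ℕ), 0 < H n := hH.eventually_gt_atTop 0
  have h3 : Tendsto (fun n => hp (q n) / H n) (U : Filter ℕ) (𝓝 0) := by
    refine tendsto_order.2 ⟨fun a ha => hpos.mono fun n hn =>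
      ha.trans_le (div_nonneg (ht_nonneg _) hn.le), fun a ha => ?_⟩
    filter_upwards [h1 (a / 2) (half_pos ha), hpos, hH.eventually_ge_atTop (2 / a)] with n b c d
    rw [div_le_iff₀ ha] at d
    rw [div_lt_iff₀ c]
    linarith [b.2]
  obtain ⟨μ, -, hμ⟩ := exists_eventually_eq U (U1_fin (σ := Fin r) B)
    (f := fun n => if h : q n ≠ 0 then (MvPolynomial.support_nonempty.2 h).choose else 0)
    (h2.mono fun n hn => by
      rw [dif_pos hn.1]
      exact (MvPolynomial.le_totalDegree (MvPolynomial.support_nonempty.2 hn.1).choose_spec).trans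
        hn.2.1)
  have h4 : ∀ᶠ n in (U : Filter ℕ), (q n).coeff μ ≠ 0 := (h2.and hμ).mono fun n hn => by
    have h5 := hn.2
    rw [dif_pos hn.1.1] at h5
    exact MvPolynomial.mem_support_iff.1
      (h5 ▸ (MvPolynomial.support_nonempty.2 hn.1.1).choose_spec)
  have h5 : ∀ᶠ n in (U : Filter ℕ),
      (MvPolynomial.C ((q n).coeff μ)⁻¹ * q n).totalDegree ≤ B := h2.mono fun n hn => by
    refine (MvPolynomial.totalDegree_mul _ _).trans ?_
    rw [MvPolynomial.totalDegree_C, zero_add]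
    exact hn.2.1
  obtain ⟨Q, -, hQ⟩ := exists_poly_gm U _ B h5
  have h6 := eval_poly_gm U h5 hQ fun k n => u n k
  rw [(gm_eq_zero_iff U _).2 (h2.mono fun n hn => by rw [map_mul, hn.2.2, mul_zero])] at h6
  obtain ⟨Q', rfl⟩ : Q ∈ Set.range (MvPolynomial.map (algebraMap K (UP U Qb))) := by
    refine MvPolynomial.mem_range_map_iff_coeffs_subset.2 fun c hc => ?_
    obtain ⟨ν, -, rfl⟩ := MvPolynomial.mem_coeffs_iff.1 hc
    rw [hQ]
    refine ⟨⟨_, hK _ (squeeze_zero' (hpos.mono fun n hn => div_nonneg (h1_nonneg _) hn.le)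
      ?_ h3)⟩, rfl⟩
    filter_upwards [hpos, h4] with n a b
    refine div_le_div_of_nonneg_right ?_ a.le
    rw [MvPolynomial.coeff_C_mul, inv_mul_eq_div]
    refine (h1_le_of_mem (s := insert 0 (q n).coeffs) ?_ (Finset.mem_insert_of_mem
      (MvPolynomial.coeff_mem_coeffs μ b)) b).trans (ht_insert_zero _).le
    by_cases e : (q n).coeff ν = 0
    · rw [e]
      exact Finset.mem_insert_self _ _
    · exact Finset.mem_insert_of_mem (MvPolynomial.coeff_mem_coeffs ν e)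
  rw [MvPolynomial.eval_map, ← MvPolynomial.aeval_def] at h6
  have h7 := hQ μ
  rw [algebraicIndependent_iff.1 hu _ h6, map_zero, MvPolynomial.coeff_zero, eq_comm,
    gm_eq_zero_iff] at h7
  obtain ⟨n, a, b⟩ := (h7.and h4).exists
  rw [MvPolynomial.coeff_C_mul, inv_mul_cancel₀ b] at a
  exact one_ne_zero a

end Pool.Agent.E6b

end

section
open scoped NNReal TensorProduct IntermediateField BigOperators Classical Topology
open Filter

namespace Pool.Agent.E6b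
variable {F : Type} [Field F] [Algebra Qb F] [IsFF Qb F] {o : Place Qb F} {d : ℕ}

/-- a transcendence basis inside a finite family, through a given member -/
theorem M3_basis {K Ω ι : Type} [Field K] [Field Ω] [Algebra K Ω] [Finite ι] (c : ι → Ω) (i₀ : ι)
    (h : Transcendental K (c i₀)) : ∃ (r : ℕ) (π : Fin r → ι) (k₀ : Fin r), π k₀ = i₀ ∧
      AlgebraicIndependent K (fun k => c (π k)) ∧
      ∀ i, IsAlgebraic (IntermediateField.adjoin K (Set.range fun k => c (π k))) (c i) := by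
  have h0 : AlgebraicIndepOn K c {i₀} :=
    (algebraicIndependent_singleton_iff (⟨i₀, rfl⟩ : ({i₀} : Set ι))).2 h
  obtain ⟨s, ⟨hs0, hs⟩, hm⟩ := (Set.toFinite {s : Set ι | i₀ ∈ s ∧ AlgebraicIndepOn K c s}).exists_maximal
    ⟨{i₀}, rfl, h0⟩
  obtain ⟨r, ⟨e⟩⟩ := Finite.exists_equiv_fin s
  have hr : (Set.range fun k => c (e.symm k)) = c '' s := by
    ext x
    constructor
    · rintro ⟨k, rfl⟩
      exact ⟨_, (e.symm k).2, rfl⟩
    · rintro ⟨i, hi, rfl⟩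
      exact ⟨e ⟨i, hi⟩, by simp⟩
  refine ⟨r, fun k => e.symm k, e ⟨i₀, hs0⟩, by simp,
    (algebraicIndependent_equiv e.symm (f := fun i : s => c i)).2 hs, fun i => ?_⟩
  rw [hr, IntermediateField.isAlgebraic_adjoin_iff]
  by_contra hc
  have h1 : i ∈ s := hm ⟨Set.mem_insert_of_mem _ hs0, hs.insert hc⟩ (Set.subset_insert i s)
    (Set.mem_insert i s)
  exact hc (isAlgebraic_algebraMap
    (⟨_, Algebra.subset_adjoin ⟨i, h1, rfl⟩⟩ : Algebra.adjoin K (c '' s)))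

section
variable (U : Ultrafilter ℕ) (K : IntermediateField Qb (UP U Qb)) {r Δ : ℕ} {ι : Type}
variable {L : Type} [Field L] [Algebra Qb L]

theorem M3_real [IsAlgClosed L] [CharZero L] {X : Fin r → L} (hX : AlgebraicIndependent Qb X)
    {M : Mdl K r (IX o d)} {Ms : ℕ → Mdl Qb r (IX o d)} (h : M3_Seq U K M Δ Ms)
    {u : Fin r → UP U Qb} {ξ : UP U Qb} (hu : AlgebraicIndependent K u) (hp : ev2 u ξ M.m = 0)
    {z : Fin d → Pt o (UP U Qb)} (hz : M3_Dat u (M.val u ξ) z) :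
    ∀ᶠ n in (U : Filter ℕ), (Ms n).Real := by
  obtain ⟨φ, hφ⟩ := exists_upMap U (L := Qb) (L' := L)
  let _ : Algebra K (UP U L) :=
    ((φ : UP U Qb →+* UP U L).comp (algebraMap K (UP U Qb))).toAlgebra
  have hK : ∀ c : K, algebraMap K (UP U L) c = (φ : UP U Qb →+* UP U L) c := fun c => rfl
  have : @IsScalarTower Qb K (UP U L) Algebra.toSMul Algebra.toSMul Algebra.toSMul :=
    IsScalarTower.of_algebraMap_eq fun c => (φ.commutes c).symm
  choose ξ' hξ' using fun n => M3_exists_root (Ms n).monic (Ms n).irr X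
  obtain ⟨h1, -, h3⟩ := M3_lim U K (φ : UP U Qb →+* UP U L) hφ hK h (fun _ => X) ξ'
  have h4 : AlgebraicIndependent K fun k => gm U fun _ : ℕ => X k := by
    refine algebraicIndependent_iff.2 fun p hp => ?_
    apply MvPolynomial.map_injective _ (algebraMap K (UP U Qb)).injective
    rw [map_zero]
    refine algebraicIndependent_gm U hX (φ : UP U Qb →+* UP U L) hφ _ ?_
    rw [MvPolynomial.eval₂_map]
    exact hp
  obtain ⟨z', h5⟩ := M3_transport M hu hp h4 (ξ' := gm U ξ')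
    (h1.trans ((gm_eq_zero_iff U _).2 (Eventually.of_forall hξ'))) hz
  rw [funext h3] at h5
  filter_upwards [M3_los U (u := fun _ => X) (t := fun n => (Ms n).val X (ξ' n)) h5] with n hn
  obtain ⟨y, e1, e2, e3, e4⟩ := hn
  exact (Ms n).real_of_one hX ⟨hξ' n, fun e => (Ms n).q_ne (algebraicIndependent_iff.1 hX _ e)⟩
    e1 e2 e3 e4

end

theorem M3_hh (U : Ultrafilter ℕ) {H : ℕ → ℝ} (hH : Tendsto H (U : Filter ℕ) atTop) {k : ℕ}
    {c : Fin k → ℕ → Qb} (hc : ∀ i, Tendsto (fun n => h1 (c i n) / H n) (U : Filter ℕ) (𝓝 0))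
    {S : ℕ → Finset Qb} (h1S : ∀ n, 1 ∈ S n)
    (hS : ∀ᶠ n in (U : Filter ℕ), ∀ a ∈ S n, ∃ i, a = c i n) {ε : ℝ} (hε : 0 < ε) :
    ∀ᶠ n in (U : Filter ℕ), ht (S n) ≤ ε * H n := by
  have h2 := tendsto_finsetSum Finset.univ fun i _ => hc i
  rw [Finset.sum_const_zero] at h2
  filter_upwards [hS, h2.eventually (ge_mem_nhds hε), hH.eventually_gt_atTop 0] with n e1 e2 e3
  rw [← Finset.sum_div, div_le_iff₀ e3] at e2
  have e4 := ht_insert_one_le (S n)
  rw [Finset.insert_eq_of_mem (h1S n)] at e4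
  refine e4.trans (le_trans ?_ e2)
  refine le_trans (Finset.sum_le_sum_of_subset_of_nonneg (t := Finset.univ.image fun i => c i n)
    (fun a ha => ?_) fun a _ _ => h1_nonneg a)
    (Finset.sum_image_le_of_nonneg fun a _ => h1_nonneg a)
  obtain ⟨i, rfl⟩ := e1 a ha
  exact Finset.mem_image_of_mem _ (Finset.mem_univ i)

/-- models along an ultrafilter -/
theorem mex (U : Ultrafilter ℕ) (z : ℕ → Fin d → Pt o Qb) (a₀ : Fin d)
    (hH : Tendsto (fun n => h1 (z n a₀ (wN o))) (U : Filter ℕ) atTop)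
    (hmax : ∀ᶠ n in (U : Filter ℕ), ∀ a, h1 (z n a (wN o)) ≤ h1 (z n a₀ (wN o))) :
    ∃ (r Δ : ℕ) (k₀ : Fin r) (c : ℝ) (u : ℕ → Fin r → Qb),
      (∀ n, u n k₀ = z n a₀ (wN o)) ∧
      (∀ B : ℕ, ∃ η : ℝ, 0 < η ∧ ∀ᶠ n in (U : Filter ℕ), ∀ q : MvPolynomial (Fin r) Qb, q ≠ 0 →
        q.totalDegree ≤ B → MvPolynomial.eval (u n) q = 0 → η * h1 (z n a₀ (wN o)) ≤ hp q) ∧
      ∀ ε : ℝ, 0 < ε → ∀ᶠ n in (U : Filter ℕ), ∃ L : Lev o d r Δ, L.u = u n ∧ L.z = z n ∧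
        L.hh ≤ ε * h1 (z n a₀ (wN o)) ∧ L.hs ≤ c * h1 (z n a₀ (wN o)) := by
  obtain ⟨K, hKc, hK⟩ := exists_small U _ hH
  obtain ⟨Kf, hKfc, hKf⟩ := exists_fin U _ hH
  have hle : K ≤ Kf := fun x hx => by
    obtain ⟨y, rfl⟩ := gm_surj U x
    refine (hKf y).2 ⟨1, ?_⟩
    filter_upwards [((hK y).1 hx).eventually (ge_mem_nhds one_pos), hH.eventually_gt_atTop 0]
      with n e1 e2
    exact (div_le_iff₀ e2).1 e1
  set zh : Fin d → Pt o (UP U Qb) := fun a => ptU U fun n => z n a with hzh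
  have hN : genus Qb F + 1 < MM o := by
    rw [MM]
    omega
  have htr : Transcendental K (zh a₀ (wN o)) := fun ha => by
    have e1 := (hK fun n => z n a₀ (wN o)).1 (M3_mem_of_isIntegral K ha.isIntegral)
    have e2 : Tendsto (fun n => h1 (z n a₀ (wN o)) / h1 (z n a₀ (wN o))) (U : Filter ℕ) (𝓝 1) := by
      refine tendsto_const_nhds.congr' ?_
      filter_upwards [hH.eventually_gt_atTop 0] with n e
      exact (div_self e.ne').symm
    exact zero_ne_one (tendsto_nhds_unique e1 e2)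
  obtain ⟨r, π, k₀, hπ, hind, halg⟩ := M3_basis (K := K)
    (fun p : Fin d × Fin (MM o) => zh p.1 (eb o p.2)) (a₀, ⟨_, hN⟩) htr
  obtain ⟨j₀, hj₀⟩ : ∃ j, Psym (clz zh) j ≠ 0 := Function.ne_iff.1 (Psym_ne_zero _)
  have hx : Prp (Psym (clz zh)) fun j => Psym (clz zh) j / Psym (clz zh) j₀ :=
    ⟨_, hj₀, fun j => (mul_div_cancel₀ _ hj₀).symm⟩
  obtain ⟨M, ξh, hpt, hval, -⟩ := exists_mdl (ι := IX o d) _ hind
    (Sum.elim (fun p => zh p.1 (eb o p.2)) fun j => Psym (clz zh) j / Psym (clz zh) j₀) (by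
      rintro (p | j)
      · exact halg p
      · obtain ⟨L, hL, hm⟩ := exists_acl (κ := K) (Set.range fun k => zh (π k).1 (eb o (π k).2))
        obtain ⟨y, hy⟩ := M3_theta (L.val.restrictScalars Qb)
          (fun a i => ⟨⟨_, (hm _).2 (halg (a, i))⟩, rfl⟩) hx (div_self hj₀) j
        exact (hm _).1 (show _ / _ ∈ L from hy ▸ y.2))
  obtain ⟨Δ, Ms, s0, s1, s2, s3, k, c, hc, hS⟩ := exists_mdl_seq U K M
  have hseq : M3_Seq U K M Δ Ms := ⟨s0, s1, s2, s3⟩
  obtain ⟨ξ, rfl⟩ := gm_surj U ξh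
  obtain ⟨l1, l2, l3⟩ := M3_lim U K (L := Qb) (RingHom.id _) (fun _ => rfl) (fun _ => rfl) hseq
    (fun n k => z n (π k).1 (eb o (π k).2)) ξ
  have hdat : M3_Dat (fun k => zh (π k).1 (eb o (π k).2))
      (M.val (fun k => zh (π k).1 (eb o (π k).2)) (gm U ξ)) zh := by
    rw [funext hval]
    exact ⟨fun _ _ => rfl, hx, ⟨j₀, div_self hj₀⟩, fun k => ⟨_, _, rfl⟩⟩
  have e1 := M3_real U K (hind.restrictScalars (algebraMap Qb K).injective) hseq hind hpt.1 hdat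
  have e2 := (gm_eq_zero_iff U _).1 (l1.symm.trans hpt.1)
  have e3 := (gm_ne_iff U _ fun _ => 0).1 fun e => hpt.2 (l2.trans e)
  have e4 : ∀ᶠ n in (U : Filter ℕ), ∀ a (i : Fin (MM o)), z n a (eb o i) =
      (Ms n).val (fun k => z n (π k).1 (eb o (π k).2)) (ξ n) (.inl (a, i)) :=
    eventually_all.2 fun a => eventually_all.2 fun i =>
      (gm_eq_iff U _ _).1 ((hdat.1 a i).trans (l3 _))
  have hco : ∀ a (i : Fin (MM o)), zh a (eb o i) ∈ Kf := fun a i => by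
    have f1 : zh a (wN o) ∈ Kf := (hKf _).2 ⟨1, hmax.mono fun n hn => by
      rw [one_mul]
      exact hn a⟩
    obtain ⟨y, hy⟩ := mem_range_pt_of_wN Kf.val (y := zh a) ⟨⟨_, f1⟩, rfl⟩
    rw [← hy, bc_pt]
    exact (y (eb o i)).2
  have hξ : gm U ξ ∈ Kf := by
    have : IsAlgClosed (IntermediateField.extendScalars hle) := hKfc
    exact M3_root_mem (IntermediateField.extendScalars hle) M.monic (fun k => hco _ _) hpt.1
  obtain ⟨c₀, hc₀⟩ := (hKf _).1 hξ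
  choose c₁ hc₁ using fun k => (hKf fun n => z n (π k).1 (eb o (π k).2)).1 (hco _ _)
  refine ⟨r, Δ, k₀, ∑ k, c₁ k + c₀, fun n k => z n (π k).1 (eb o (π k).2), fun n => ?_,
    generic_of_indep U _ hH K (fun x hx => (hK x).2 hx) _ hind, fun ε hε => ?_⟩
  · simp only [hπ]
    rfl
  filter_upwards [e1, e2, e3, e4, hc₀, eventually_all.2 hc₁,
    M3_hh U hH (fun i => (hK _).1 (hc i)) (S := fun n => (Ms n).S)
      (fun n => Finset.mem_insert_self _ _) hS hε] with n e1 e2 e3 e4 e5 e6 e7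
  refine ⟨⟨Ms n, s0 n, e1, _, ξ n, ⟨e2, e3⟩, z n, e4⟩, rfl, rfl, e7, ?_⟩
  rw [add_mul, Finset.sum_mul]
  exact add_le_add (Finset.sum_le_sum fun k _ => e6 k) e5

end Pool.Agent.E6b

end
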