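import Pool.Agent.E6c.A35
import Pool.Agent.E6c.A36
import Pool.Agent.E6c.A38

section
open scoped NNReal TensorProduct IntermediateField BigOperators Classical Topology
open Filter

namespace Pool.Agent.E6b
variable {F : Type} [Field F] [Algebra Qb F] [IsFF Qb F] {o : Place Qb F} {d r₁ r₂ : ℕ}

theorem C5_spec1 {B Ω : Type} [CommRing B] [Algebra Qb B] [Field Ω] [IsAlgClosed Ω] [CharZero Ω]
    [Algebra Qb Ω] {r : ℕ} (M : Mdl Qb r (IX o d)) (φ : B →ₐ[Qb] Ω) (χ : B →ₐ[Qb] Qb)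
    (u : Fin r → B) (ξ : B) {O : VS Qb Ω}
    (hO : ∀ b, φ b ∈ O.1 ∧ rs O (φ b) = algebraMap Qb (RF O) (χ b))
    (hq : χ (ev2 u ξ (Polynomial.C M.q)) ≠ 0) {z : Fin d → Pt o Ω}
    (hz : M.Crd (fun k => φ (u k)) (φ ξ) z)
    (hp : Prp (Psym (clz z)) fun j => M.val (fun k => φ (u k)) (φ ξ) (.inr j))
    (h1 : ∃ j, M.val (fun k => φ (u k)) (φ ξ) (.inr j) = 1) {y : Fin d → Pt o Qb}
    (hy : M.Crd (fun k => χ (u k)) (χ ξ) y) :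
    Prp (fun j => χ (ev2 u ξ (M.P (.inr j)))) (Psym (clz y)) := by
  have hv := C5_val_red M φ χ u ξ hO hq
  obtain ⟨h, -, hr⟩ := C5_red M φ χ u ξ hO hq hz
  have h2 : vs O.1 (fun j => M.val (fun k => φ (u k)) (φ ξ) (.inr j)) = 1 := by
    refine le_antisymm (vs_le O.1 fun j => (O.1.valuation_le_one_iff _).2 (hv _).1) ?_
    obtain ⟨j, hj⟩ := h1
    have := le_vs O.1 (fun j => M.val (fun k => φ (u k)) (φ ξ) (.inr j)) j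
    rwa [hj, map_one] at this
  have h3 := C5_spec (w' := clz y) (by
    rw [redCl_clz O h, BC.cl_clz]
    exact congrArg clz (funext (hr y hy))) hp.symm h2
  simp only [(hv _).2] at h3
  refine Prp.trans ⟨_, hq, fun j => ?_⟩ (Prp.of_map _ h3)
  rw [C5_val, mul_div_cancel₀ _ hq]
variable {M₁ : Mdl Qb r₁ (IX o d)} {M₂ : Mdl Qb r₂ (IX o d)}
variable (G : Gen M₁ M₂)

theorem Gen.ratC₁ : RatC (TK M₁ M₂) (clz G.z₁) :=
  C5_ratC M₁ (C5_i M₁ M₂) C5_i_mem (fun k => uB M₁ M₂ (.inl k)) (x1B M₁ M₂) G.crd₁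

theorem Gen.ratC₂ : RatC (TK M₁ M₂) (clz G.z₂) :=
  C5_ratC M₂ (C5_i M₁ M₂) C5_i_mem (fun k => uB M₁ M₂ (.inr k)) (x2B M₁ M₂) G.crd₂

theorem Gen.exists_num (s t : ℤ) : ∃ n : JJ o × JJ o → TB M₁ M₂,
    Prp (Psym (s • clz G.z₁ + t • clz G.z₂)) fun j => algebraMap _ (TL M₁ M₂) (n j) := by
  obtain ⟨x, hx⟩ := ((G.ratC₁.zsmul s).add (G.ratC₂.zsmul t)).exists_prp
  obtain ⟨b, hb⟩ := IsLocalization.exist_integer_multiples_of_finite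
    (nonZeroDivisors (TB M₁ M₂)) x
  choose n hn using hb
  have h0 : algebraMap (TB M₁ M₂) (TK M₁ M₂) b ≠ 0 :=
    IsFractionRing.to_map_ne_zero_of_mem_nonZeroDivisors b.2
  refine ⟨n, hx.trans (Prp.symm ⟨algebraMap (TK M₁ M₂) _ (algebraMap (TB M₁ M₂) _ b),
    (map_ne_zero _).2 h0, fun j => ?_⟩)⟩
  rw [← map_mul, ← Algebra.smul_def, ← hn j]
  exact IsScalarTower.algebraMap_apply _ _ _ _

include G in
theorem Gen.spec₁ {χ : TB M₁ M₂ →ₐ[Qb] Qb} (hχ : GdP M₁ M₂ χ) {y₁ y₂ : Fin d → Pt o Qb}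
    (hy : Above M₁ M₂ χ y₁ y₂) :
    Prp (fun j => χ (e1B M₁ M₂ (M₁.P (.inr j)))) (Psym (clz y₁)) ∧
      Prp (fun j => χ (e2B M₁ M₂ (M₂.P (.inr j)))) (Psym (clz y₂)) := by
  obtain ⟨O, hO⟩ := exists_dom M₁ M₂ χ
  exact ⟨C5_spec1 M₁ (C5_i M₁ M₂) χ (fun k => uB M₁ M₂ (.inl k)) (x1B M₁ M₂) hO hχ.1 G.crd₁
      G.prp₁ G.one₁ hy.1,
    C5_spec1 M₂ (C5_i M₁ M₂) χ (fun k => uB M₁ M₂ (.inr k)) (x2B M₁ M₂) hO hχ.2 G.crd₂
      G.prp₂ G.one₂ hy.2⟩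

end Pool.Agent.E6b

end

section
open scoped NNReal TensorProduct IntermediateField BigOperators Classical Topology
open Filter

namespace Pool.Agent.E6b
variable {F : Type} [Field F] [Algebra Qb F] [IsFF Qb F] {o : Place Qb F} {d : ℕ}

section
variable {r₁ r₂ : ℕ} {ι : Type} (M₁ : Mdl Qb r₁ ι) (M₂ : Mdl Qb r₂ ι)

theorem C6_gen_xp : IntermediateField.adjoin Qb
    (Set.range (fun l => algebraMap _ (TK M₁ M₂) (e1B M₁ M₂ (xp Qb r₁ l))) ∪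
      Set.range (fun l => algebraMap _ (TK M₁ M₂) (e2B M₁ M₂ (xp Qb r₂ l)))) = ⊤ := by
  rw [eq_top_iff, ← adjoin_TK M₁ M₂]
  refine IntermediateField.adjoin.mono _ _ _ (Set.union_subset ?_ ?_)
  · rintro _ ⟨k | k, rfl⟩
    · refine Or.inl ⟨some (some k), ?_⟩
      show algebraMap _ (TK M₁ M₂) (e1B M₁ M₂ (Polynomial.C (MvPolynomial.X k))) = _
      rw [C6_e1K, C6_ev2_C, MvPolynomial.aeval_X]
    · refine Or.inr ⟨some (some k), ?_⟩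
      show algebraMap _ (TK M₁ M₂) (e2B M₁ M₂ (Polynomial.C (MvPolynomial.X k))) = _
      rw [C6_e2K, C6_ev2_C, MvPolynomial.aeval_X]
  · rintro _ (rfl | rfl)
    · refine Or.inl ⟨some none, ?_⟩
      show algebraMap _ (TK M₁ M₂) (e1B M₁ M₂ Polynomial.X) = _
      rw [C6_e1K, C6_ev2_X]
    · refine Or.inr ⟨some none, ?_⟩
      show algebraMap _ (TK M₁ M₂) (e2B M₁ M₂ Polynomial.X) = _
      rw [C6_e2K, C6_ev2_X]

end

theorem C6_x1 {r₁ r₂ : ℕ} {I J : Type} (M₁ : Mdl Qb r₁ (I ⊕ J)) (M₂ : Mdl Qb r₂ (I ⊕ J)) (j : J) :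
    M₁.val (fun k => uL M₁ M₂ (.inl k)) (x1L M₁ M₂) (.inr j) =
      algebraMap (TK M₁ M₂) (TL M₁ M₂) (xK1 M₁ M₂ j) := by
  rw [xK1, map_div₀, C6_e1L, C6_e1L, C6_ev2_C, Mdl.val]

theorem C6_mon {r₁ r₂ : ℕ} {I J : Type} (M₁ : Mdl Qb r₁ (I ⊕ J)) (M₂ : Mdl Qb r₂ (I ⊕ J))
    {A₁ A₂ c : ℕ} (μ : Mon J r₁ A₁ c × Mon J r₂ A₂ c) :
    (algebraMap _ (TK M₁ M₂) (e1B M₁ M₂ (Polynomial.C M₁.q)) ^ A₁ *
      algebraMap _ (TK M₁ M₂) (e2B M₁ M₂ (Polynomial.C M₂.q)) ^ A₂) *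
      (((∏ i, xK1 M₁ M₂ (μ.1.1 i)) *
          ∏ i, algebraMap _ (TK M₁ M₂) (e1B M₁ M₂ (xp Qb r₁ (μ.1.2 i)))) *
        ((∏ i, xK2 M₁ M₂ (μ.2.1 i)) *
          ∏ i, algebraMap _ (TK M₁ M₂) (e2B M₁ M₂ (xp Qb r₂ (μ.2.2 i))))) =
      algebraMap _ (TK M₁ M₂) (e1B M₁ M₂ (M₁.mon μ.1) * e2B M₁ M₂ (M₂.mon μ.2)) := by
  have h1 := pow_ne_zero A₁ (C6_q1_ne M₁ M₂)
  have h2 := pow_ne_zero A₂ (C6_q2_ne M₁ M₂)
  simp only [Mdl.mon, xK1, xK2, map_mul, map_prod, Finset.prod_div_distrib, Finset.prod_const,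
    Finset.card_univ, Fintype.card_fin]
  field_simp

/-- elements of bounded degree are sections of a power of the box class -/
theorem e1B_mem_TT {r₁ r₂ Δ : ℕ} {ι : Type} (M₁ : Mdl Qb r₁ ι) (M₂ : Mdl Qb r₂ ι)
    (h : CxP Δ M₁.m) {p : PP Qb r₁} (hp : CxP Δ p) : algebraMap _ (TK M₁ M₂) (e1B M₁ M₂ p) ∈
      TT ((∏ k, pen Qb (uK M₁ M₂ (.inl k))) ^ (Δ + Δ * Δ)) := by
  rw [C6_e1K]
  exact C6_ev2_mem _ _ M₁.monic h (by rw [← C6_e1K, e1B_m, map_zero]) hp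

theorem e2B_mem_TT {r₁ r₂ Δ : ℕ} {ι : Type} (M₁ : Mdl Qb r₁ ι) (M₂ : Mdl Qb r₂ ι)
    (h : CxP Δ M₂.m) {p : PP Qb r₂} (hp : CxP Δ p) : algebraMap _ (TK M₁ M₂) (e2B M₁ M₂ p) ∈
      TT ((∏ k, pen Qb (uK M₁ M₂ (.inr k))) ^ (Δ + Δ * Δ)) := by
  rw [C6_e2K]
  exact C6_ev2_mem _ _ M₂.monic h (by rw [← C6_e2K, e2B_m, map_zero]) hp

/-- Many sections `G`; multiplied by `n j ^ a * u ^ (0 or b)` and a fixed factor they become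
combinations of monomials. -/
theorem exists_sections (r₁ r₂ Δ : ℕ) : ∃ E : ℕ, 0 < E ∧
    ∀ (M₁ : Mdl Qb r₁ (IX o d)) (M₂ : Mdl Qb r₂ (IX o d)), M₁.Cx Δ → M₂.Cx Δ →
    ∀ G : Gen M₁ M₂, Function.Injective (Sum.elim G.z₁ G.z₂) →
      ell (dz (Sum.elim G.z₁ G.z₂)) = 1 → ∀ (k₀ : Fin r₁) (s : ℕ), 0 < s →
      ∀ n : JJ o × JJ o → TB M₁ M₂,
        Prp (Psym ((s : ℤ) • clz G.z₁ + (1 : ℤ) • clz G.z₂))
          (fun j => algebraMap _ (TL M₁ M₂) (n j)) →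
        ∃ k c : ℕ, 0 < k ∧ ∀ᶠ D : ℕ in atTop, ∃ W : Submodule Qb (TK M₁ M₂), Module.Finite Qb W ∧
          (s : ℝ) ^ (2 * r₁) * ((k * D * E : ℕ) : ℝ) ^ (r₁ + r₂) / (4 * (r₁ + r₂).factorial) ≤
            Module.finrank Qb W ∧
          ∀ g ∈ W, ∀ (j : JJ o × JJ o) (ε : Bool),
            g * algebraMap _ (TK M₁ M₂) (n j ^ (k * D * E) *
              uB M₁ M₂ (.inl k₀) ^ (if ε then k * D * s ^ 2 else 0)) ∈
            Submodule.span Qb (Set.range fun μ : Mon (JJ o × JJ o) r₁ (2 * (k * D * E) * s ^ 2 + c) c ×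
                Mon (JJ o × JJ o) r₂ (2 * (k * D * E) + c) c =>
              algebraMap _ (TK M₁ M₂) (e1B M₁ M₂ (M₁.mon μ.1) * e2B M₁ M₂ (M₂.mon μ.2))) := by
  obtain ⟨E, hE, H⟩ := vol_main r₁ r₂ (Δ * Δ) (2 * (Δ + Δ * Δ))
  refine ⟨E, hE, fun M₁ M₂ c₁ c₂ G hi hl k₀ s hs n hn => ?_⟩
  have p1 : Prp (Psym (clz G.z₁)) fun j => algebraMap (TK M₁ M₂) (TL M₁ M₂) (xK1 M₁ M₂ j) := by
    have := G.prp₁
    simp only [C6_x1] at this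
    exact this
  have p2 : Prp (Psym (clz G.z₂)) fun j => algebraMap (TK M₁ M₂) (TL M₁ M₂) (xK2 M₁ M₂ j) := by
    have := G.prp₂
    simp only [C6_x2] at this
    exact this
  have o1 : ∃ j, xK1 M₁ M₂ j = 1 := by
    obtain ⟨j, hj⟩ := G.one₁
    rw [C6_x1] at hj
    exact ⟨j, (algebraMap (TK M₁ M₂) (TL M₁ M₂)).injective (by rw [hj, map_one])⟩
  have o2 : ∃ j, xK2 M₁ M₂ j = 1 := by
    obtain ⟨j, hj⟩ := G.one₂
    rw [C6_x2] at hj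
    exact ⟨j, (algebraMap (TK M₁ M₂) (TL M₁ M₂)).injective (by rw [hj, map_one])⟩
  have n1 := C6_ne (Psym_ne_zero _) p1
  have n2 := C6_ne (Psym_ne_zero _) p2
  obtain ⟨y, hy⟩ := (G.ratC₁.add G.ratC₂).exists_prp
  choose X hX using fun s t : ℤ => ((G.ratC₁.zsmul s).add (G.ratC₂.zsmul t)).exists_prp
  have hQ := fun s t : ℤ => quad_val G.ratC₁ G.ratC₂ s t p1 p2 hy (hX s t)
  have b1 : QLe (gen Qb (xK1 M₁ M₂)) ((∏ k, pen Qb (uK M₁ M₂ (.inl k))) ^ (Δ + Δ * Δ)) :=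
    C6_qle_div (C6_q1_ne M₁ M₂) n1 fun j => e1B_mem_TT M₁ M₂ c₁.1 (c₁.2.2.1 _)
  have b2 : QLe (gen Qb (xK2 M₁ M₂)) ((∏ k, pen Qb (uK M₁ M₂ (.inr k))) ^ (Δ + Δ * Δ)) :=
    C6_qle_div (C6_q2_ne M₁ M₂) n2 fun j => e2B_mem_TT M₁ M₂ c₂.1 (c₂.2.2.1 _)
  obtain ⟨k, hk, hD⟩ := H (uK M₁ M₂) (algebraicIndependent_uK M₁ M₂)
    ((finrank_TK_le M₁ M₂).trans (Nat.mul_le_mul c₁.1.1 c₂.1.1)) (xK1 M₁ M₂) (xK2 M₁ M₂) y n1 n2
    (C6_ne (Psym_ne_zero _) hy) (fun s t => X s (-(t : ℤ)))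
    (fun s t => C6_ne (Psym_ne_zero _) (hX _ _)) (fun s t _ _ => C6_q1 s t (hQ _ _))
    (fun s t _ _ => C6_hb s t _ (C6_q2 s t (hQ _ _) (hQ _ _))
      (qle_one_gen (C6_ne (Psym_ne_zero _) (hX _ _))) b1 b2)
    (G.pos hi hl (by
      have := hX ((1 : ℕ) : ℤ) (-((1 : ℕ) : ℤ))
      rwa [Nat.cast_one, one_zsmul, neg_one_zsmul, ← sub_eq_add_neg] at this)) k₀ s 1 hs one_pos
  have pn : Prp (Psym ((s : ℤ) • clz G.z₁ + ((1 : ℕ) : ℤ) • clz G.z₂)) fun j =>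
      algebraMap (TK M₁ M₂) (TL M₁ M₂) (algebraMap _ (TK M₁ M₂) (n j)) := by
    simp only [C6_KL]
    exact hn
  obtain ⟨k', hk', g, hg, -⟩ := C6_q2 s 1 (hQ _ _) (quad_val G.ratC₁ G.ratC₂ _ _ p1 p2 hy pn)
  obtain ⟨γ, c, hγ, hc⟩ := C6_cond (xK1 M₁ M₂) (xK2 M₁ M₂)
    (fun l => algebraMap _ (TK M₁ M₂) (e1B M₁ M₂ (xp Qb r₁ l)))
    (fun l => algebraMap _ (TK M₁ M₂) (e2B M₁ M₂ (xp Qb r₂ l))) o1 o2
    ⟨none, by show algebraMap _ (TK M₁ M₂) (e1B M₁ M₂ 1) = 1; rw [map_one, map_one]⟩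
    ⟨none, by show algebraMap _ (TK M₁ M₂) (e2B M₁ M₂ 1) = 1; rw [map_one, map_one]⟩
    (C6_gen_xp M₁ M₂)
  refine ⟨k * k', c, Nat.mul_pos hk hk', ?_⟩
  filter_upwards [(V6_tend hk').eventually hD] with D hD
  obtain ⟨hf, hr⟩ := hD
  have e0 : k * (k' * D) = k * k' * D := (mul_assoc _ _ _).symm
  have e1 : k * k' * D * E = k' * (k * D * E) := by ring
  rw [e0] at hf hr
  rw [Nat.cast_one, one_pow, mul_one] at hr
  obtain ⟨W, hW, hW1, hW2⟩ := C6_map_mul (TT (gen Qb (X s (-((1 : ℕ) : ℤ))) ^ (k * k' * D * E) *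
    (pen Qb (uK M₁ M₂ (.inl k₀)) ^ (k * k' * D * s ^ 2))⁻¹))
    (c := (algebraMap _ (TK M₁ M₂) (e1B M₁ M₂ (Polynomial.C M₁.q)) ^
        (2 * (k * k' * D * E) * s ^ 2 + c) *
      algebraMap _ (TK M₁ M₂) (e2B M₁ M₂ (Polynomial.C M₂.q)) ^ (2 * (k * k' * D * E) + c)) *
      (γ / ((g ^ (k * D * E) : (TK M₁ M₂)ˣ) : TK M₁ M₂)))
    (mul_ne_zero (mul_ne_zero (pow_ne_zero _ (C6_q1_ne M₁ M₂)) (pow_ne_zero _ (C6_q2_ne M₁ M₂)))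
      (div_ne_zero hγ (Units.ne_zero _)))
  refine ⟨W, hW, by rw [hW1]; exact hr, fun w hw j ε => ?_⟩
  obtain ⟨w₀, hw₀, rfl⟩ := hW2 w hw
  have h1 := C6_sec (C6_ne (Psym_ne_zero _) pn) hg (k * D * E) (k * k' * D * s ^ 2)
    (uK M₁ M₂ (.inl k₀)) (G := w₀) (by rw [← e1]; exact hw₀) j ε
  rw [← e1] at h1
  have h2 := C6_span_scale _ _ _ (C6_mon M₁ M₂) (hc _ _ _ h1)
  convert h2 using 1
  rw [map_mul, map_pow, map_pow, uK]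
  ring

/-- upper bound for the number of independent monomials -/
theorem card_mon_le (r₁ r₂ Δ : ℕ) : ∃ C : ℕ, ∀ {I J : Type} (M₁ : Mdl Qb r₁ (I ⊕ J))
    (M₂ : Mdl Qb r₂ (I ⊕ J)), M₁.Cx Δ → M₂.Cx Δ → ∀ {A₁ A₂ c N : ℕ} (μ₁ : Fin N → Mon J r₁ A₁ c)
      (μ₂ : Fin N → Mon J r₂ A₂ c),
      (LinearIndependent Qb fun i => e1B M₁ M₂ (M₁.mon (μ₁ i)) * e2B M₁ M₂ (M₂.mon (μ₂ i))) →
      N ≤ C * (A₁ + c + 1) ^ r₁ * (A₂ + c + 1) ^ r₂ := by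
  refine ⟨Δ * Δ * ((Δ + 1 + (Δ + 1) * (Δ + 1) + 1) ^ r₁ * (Δ + 1 + (Δ + 1) * (Δ + 1) + 1) ^ r₂),
    fun M₁ M₂ c₁ c₂ A₁ A₂ c N μ₁ μ₂ hli => ?_⟩
  generalize hB : Δ + 1 + (Δ + 1) * (Δ + 1) = B
  obtain ⟨hf, hr⟩ := ub (uK M₁ M₂) (algebraicIndependent_uK M₁ M₂)
    (Sum.elim (fun _ => B * (A₁ + c)) fun _ => B * (A₂ + c))
  have hm : ∀ i, algebraMap _ (TK M₁ M₂) (e1B M₁ M₂ (M₁.mon (μ₁ i)) * e2B M₁ M₂ (M₂.mon (μ₂ i))) ∈
      TT (∏ k, pen Qb (uK M₁ M₂ k) ^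
        (Sum.elim (fun _ => B * (A₁ + c)) (fun _ => B * (A₂ + c)) k : ℕ)) := by
    intro i
    rw [Fintype.prod_sum_type]
    simp only [Sum.elim_inl, Sum.elim_inr, Mdl.mon, map_mul, map_prod]
    rw [Finset.prod_pow, Finset.prod_pow, pow_mul, pow_mul, pow_add, pow_add, ← hB]
    have l : Δ ≤ Δ + 1 := Nat.le_succ _
    refine mul_mem_TT (mul_mem_TT (C6_prod_mem fun _ => ?_) (C6_prod_mem fun _ => ?_))
      (mul_mem_TT (C6_prod_mem fun _ => ?_) (C6_prod_mem fun _ => ?_))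
    · exact e1B_mem_TT M₁ M₂ (C6_cxP_mono c₁.1 l) (C6_cxP_mono (c₁.2.2.1 _) l)
    · exact e1B_mem_TT M₁ M₂ (C6_cxP_mono c₁.1 l) (C6_cxP_xp (Nat.le_add_left _ _) _)
    · exact e2B_mem_TT M₁ M₂ (C6_cxP_mono c₂.1 l) (C6_cxP_mono (c₂.2.2.1 _) l)
    · exact e2B_mem_TT M₁ M₂ (C6_cxP_mono c₂.1 l) (C6_cxP_xp (Nat.le_add_left _ _) _)
  have h1 := hli.map' (IsScalarTower.toAlgHom Qb (TB M₁ M₂) (TK M₁ M₂)).toLinearMap
    (LinearMap.ker_eq_bot.mpr (IsFractionRing.injective (TB M₁ M₂) (TK M₁ M₂)))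
  have h2 : LinearIndependent Qb fun i => (⟨_, hm i⟩ : TT (∏ k, pen Qb (uK M₁ M₂ k) ^
      (Sum.elim (fun _ => B * (A₁ + c)) (fun _ => B * (A₂ + c)) k : ℕ))) :=
    LinearIndependent.of_comp (Submodule.subtype _) h1
  have h3 := h2.fintype_card_le_finrank
  rw [Fintype.card_fin] at h3
  have e : ∏ k : Fin r₁ ⊕ Fin r₂,
      ((Sum.elim (fun _ => B * (A₁ + c)) (fun _ => B * (A₂ + c)) k : ℕ) + 1) =
      (B * (A₁ + c) + 1) ^ r₁ * (B * (A₂ + c) + 1) ^ r₂ := by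
    rw [Fintype.prod_sum_type]
    simp only [Sum.elim_inl, Sum.elim_inr, Finset.prod_const, Finset.card_univ, Fintype.card_fin]
  rw [e] at hr
  have h4 := (finrank_TK_le M₁ M₂).trans (Nat.mul_le_mul c₁.1.1 c₂.1.1)
  have h5 := Nat.mul_le_mul h4 (Nat.mul_le_mul (V5_pow_le B (A₁ + c) r₁) (V5_pow_le B (A₂ + c) r₂))
  refine h3.trans (hr.trans (h5.trans (le_of_eq ?_)))
  ring

end Pool.Agent.E6b

end

section
open scoped NNReal TensorProduct IntermediateField BigOperators Classical Topology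
open Filter

namespace Pool.Agent.E6b
open MvPowerSeries

theorem C3_SB (σ : Type) [Fintype σ] (r k Δ : ℕ) : ∃ k' : ℕ, ∀ (S : Finset Qb)
    (x : Fin r → MvPowerSeries σ Qb) (W : MvPowerSeries σ Qb) (P : PP Qb r), 1 ∈ S →
    (∀ i, SB S k (x i)) → SB S k W → CxP Δ P → cfs P ⊆ S → SB S k' (ev2 x W P) := by
  obtain ⟨k₁, h₁⟩ := exists_SB_aeval σ (Fin r) k Δ
  obtain ⟨k₂, h₂⟩ := C3_SB_pow σ k Δ
  refine ⟨2 * (k₁ + k₂) + Fintype.card σ + 1 + (Δ + 1), fun S x W P h1 hx hW hP hS => ?_⟩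
  have e : ev2 x W P = ∑ i ∈ Finset.range (Δ + 1), MvPolynomial.aeval x (P.coeff i) * W ^ i :=
    Polynomial.eval₂_eq_sum_range' _ (Nat.lt_succ_of_le hP.1) _
  rw [e]
  refine C3_SB_sum h1 _ _ fun i hi => SB.mul h1 ?_ ?_
  · exact (h₁ S x _ h1 hx (hP.2 i) ((C3_coeffs_sub P i).trans hS)).mono h1
      (Finset.Subset.refl _) (by omega)
  · exact (h₂ S W h1 hW i (by omega)).mono h1 (Finset.Subset.refl _) (by omega)

/-- heights of families of values -/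
theorem C3_val (r Δ : ℕ) : ∃ k : ℕ, ∀ (S T : Finset Qb) (u : Fin r → Qb) (ξ : Qb), 1 ∈ S →
    (∀ i, u i ∈ S) → ξ ∈ S →
    (∀ a ∈ T, a = 1 ∨ ∃ P : PP Qb r, CxP Δ P ∧ cfs P ⊆ S ∧ a = ev2 u ξ P) →
    ht T ≤ k * (ht S + 1) := by
  obtain ⟨k, hk⟩ := C3_SB Unit r 1 Δ
  refine ⟨k, fun S T u ξ h1 hu hξ hT => C3_ht h1 k fun p v hv a ha => ?_⟩
  rcases hT a ha with rfl | ⟨P, hP, hS, rfl⟩
  · rw [map_one]
    exact one_le_pow₀ (TB1_one_le p v h1)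
  · have h2 := hk S (fun i => C (u i)) (C ξ) P h1 (fun i => SB.C h1 (hu i)) (SB.C h1 hξ) hP hS
      p v hv 0
    rwa [coeff_zero_eq_constantCoeff_apply, C3_cc_ev2 _ _ (fun i => constantCoeff_C (u i))
      (constantCoeff_C ξ), map_zero, zero_add, mul_one] at h2

theorem C3_norm {σ : Type} [Fintype σ] {S : Finset Qb} (h1 : 1 ∈ S) {k : ℕ} {ι : Type} [Fintype ι]
    (F : ι → MvPowerSeries σ Qb) (a : ι → Qb) (ha : ∀ i, constantCoeff (F i) = a i)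
    (h0 : ∃ i, a i ≠ 0) (hi : ∀ i, (a i)⁻¹ ∈ S) (hF : ∀ i, SB S (k + 1) (F i))
    (v : AbsoluteValue Qb ℝ) : ∃ (t : Qb) (G : ι → MvPowerSeries σ Qb), v t = nv v a ∧
      (∀ i, F i = C t * G i) ∧ (∀ i, SB S (2 * (k + 1) + Fintype.card σ + 1) (G i)) ∧
      ∀ i, v (constantCoeff (G i)) ≤ 1 := by
  obtain ⟨i₁, hi₁⟩ := h0
  have : Nonempty ι := ⟨i₁⟩
  obtain ⟨i₀, e⟩ := exists_nv_eq v a
  have hp : 0 < v (a i₀) := e ▸ (v.pos hi₁).trans_le (le_nv v a i₁)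
  have hne : a i₀ ≠ 0 := fun h => by simp [h] at hp
  refine ⟨a i₀, fun i => C (a i₀)⁻¹ * F i, e, fun i => ?_, fun i => ?_, fun i => ?_⟩
  · rw [← mul_assoc, ← map_mul, mul_inv_cancel₀ hne, map_one, one_mul]
  · exact SB.mul h1 ((SB.C h1 (hi i₀)).mono h1 (Finset.Subset.refl _) (by omega)) (hF i)
  · rw [map_mul, constantCoeff_C, ha, map_mul, map_inv₀, inv_mul_le_iff₀ hp, mul_one, e]
    exact le_nv v a i

theorem C3_set (r Δ nJ : ℕ) : ∃ k : ℕ, ∀ {I J : Type} [Fintype I] [Fintype J],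
    Fintype.card J ≤ nJ → ∀ (M : Mdl Qb r (I ⊕ J)), M.Cx Δ → ∀ (u : Fin r → Qb) (ξ : Qb),
    M.IsPt u ξ → ∃ S : Finset Qb, M.S ⊆ S ∧ (∀ i, u i ∈ S) ∧ ξ ∈ S ∧
      (ev2 u ξ (Polynomial.derivative M.m))⁻¹ ∈ S ∧ (∀ j, (ev2 u ξ (M.P (.inr j)))⁻¹ ∈ S) ∧
      (∀ l, (ev2 u ξ (xp Qb r l))⁻¹ ∈ S) ∧
      ht S ≤ k * (ht M.S + (∑ i, h1 (u i) + h1 ξ) + 1) := by
  obtain ⟨k, hk⟩ := C3_val r Δ
  refine ⟨1 + 2 * k + nJ * k + (r + 2), fun {I J} _ _ hJ M hM u ξ hpt => ?_⟩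
  obtain ⟨S₀, s1, s2, s3, s4⟩ := C3_base (C3_one_mem M) u ξ
  have s0 : (1 : Qb) ∈ S₀ := s1 (C3_one_mem M)
  let g : Option (J ⊕ Option (Option (Fin r))) → Qb := fun o =>
    o.elim (ev2 u ξ (Polynomial.derivative M.m))⁻¹
      (Sum.elim (fun j => (ev2 u ξ (M.P (.inr j)))⁻¹) fun l => (ev2 u ξ (xp Qb r l))⁻¹)
  have hg : ∀ o, g o ∈ S₀ ∪ Finset.univ.image g := fun o =>
    Finset.mem_union_right _ (Finset.mem_image_of_mem _ (Finset.mem_univ o))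
  refine ⟨S₀ ∪ Finset.univ.image g, s1.trans Finset.subset_union_left,
    fun i => Finset.mem_union_left _ (s2 i), Finset.mem_union_left _ s3, hg none,
    fun j => hg (some (.inl j)), fun l => hg (some (.inr l)), ?_⟩
  have t0 := C3_union s0 g
  rw [Fintype.sum_option, Fintype.sum_sum_type] at t0
  have n0 := ht_nonneg S₀
  have t1 : h1 (g none) ≤ 2 * (k * (ht S₀ + 1)) := by
    obtain ⟨c, hc⟩ := M.sep
    have e := congrArg (ev2 u ξ) hc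
    rw [map_sub, map_mul, map_mul, hpt.1, zero_mul, sub_eq_zero] at e
    have hq : ev2 u ξ (Polynomial.C M.q) ≠ 0 := by rw [C3_ev2_C]; exact hpt.2
    have e2 : g none = ev2 u ξ M.P' * (ev2 u ξ (Polynomial.C M.q))⁻¹ := by
      have h3 := hpt.derivative_ne_zero
      have h4 : ev2 u ξ M.P' ≠ 0 := left_ne_zero_of_mul (e ▸ hq)
      rw [← e, mul_inv, ← mul_assoc, mul_inv_cancel₀ h4, one_mul]
      rfl
    have a1 := C3_h1 hk s0 s2 s3 hM.2.2.2 ((C3_P'_sub M).trans s1)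
    have a2 := C3_h1 hk s0 s2 s3 (C3_cx_C hM.2.1) ((C3_cfs_C _).trans ((C3_q_sub M).trans s1))
    have a3 := h1_mul_le (ev2 u ξ M.P') (ev2 u ξ (Polynomial.C M.q))⁻¹
    rw [h1_inv] at a3
    rw [e2]
    linarith
  have t2 : ∑ j : J, h1 (g (some (.inl j))) ≤ nJ * (k * (ht S₀ + 1)) := by
    refine (Finset.sum_le_card_nsmul _ _ (k * (ht S₀ + 1)) fun j _ => ?_).trans ?_
    · change h1 (ev2 u ξ (M.P (.inr j)))⁻¹ ≤ _
      rw [h1_inv]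
      exact C3_h1 hk s0 s2 s3 (hM.2.2.1 _) ((C3_P_sub M _).trans s1)
    · rw [nsmul_eq_mul, Finset.card_univ]
      exact mul_le_mul_of_nonneg_right (by exact_mod_cast hJ) (by positivity)
  have t3 : ∑ l : Option (Option (Fin r)), h1 (g (some (.inr l))) ≤ (r + 2) * ht S₀ := by
    refine (Finset.sum_le_card_nsmul _ _ (ht S₀) fun l _ => ?_).trans ?_
    · change h1 (ev2 u ξ (xp Qb r l))⁻¹ ≤ _
      rw [h1_inv]
      refine ht_mono (Finset.insert_subset s0 (Finset.singleton_subset_iff.2 ?_))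
      rcases l with _ | _ | i
      · rwa [C3_xp_none]
      · rwa [C3_xp_T]
      · rw [C3_xp_u]
        exact s2 i
    · rw [nsmul_eq_mul, Finset.card_univ, Fintype.card_option, Fintype.card_option,
        Fintype.card_fin]
      push_cast
      exact le_of_eq (by ring)
  have t4 : ht (S₀ ∪ Finset.univ.image g) ≤
      ((1 + 2 * k + nJ * k + (r + 2) : ℕ) : ℝ) * (ht S₀ + 1) := by
    push_cast
    have : (0 : ℝ) ≤ r := Nat.cast_nonneg r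
    linarith
  exact t4.trans (mul_le_mul_of_nonneg_left (by linarith) (Nat.cast_nonneg _))

open MvPowerSeries in
/-- Taylor coefficients of long monomials at a point of a model -/
theorem taylor_bound (r Δ nJ : ℕ) : ∃ k : ℕ, ∀ {I J : Type} [Fintype I] [Fintype J],
    Fintype.card J ≤ nJ → ∀ (M : Mdl Qb r (I ⊕ J)), M.Cx Δ → ∀ (u : Fin r → Qb) (ξ : Qb),
    M.IsPt u ξ → (∃ j, ev2 u ξ (M.P (.inr j)) ≠ 0) →
    ∃ (W : MvPowerSeries (Fin r) Qb) (S : Finset Qb), constantCoeff W = ξ ∧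
      ev2 (fun i => C (u i) + X i) W M.m = 0 ∧ 1 ∈ S ∧
      ht S ≤ k * (ht M.S + (∑ i, h1 (u i) + h1 ξ) + 1) ∧
      ∀ {A c : ℕ} (μ : Mon J r A c) (p : ℕ) (v : AbsoluteValue Qb ℝ), IsPl p v →
        ∀ m : Fin r →₀ ℕ, v (coeff m (ev2 (fun i => C (u i) + X i) W (M.mon μ))) ≤
          nv v (fun j => ev2 u ξ (M.P (.inr j))) ^ A * nv v (fun l => ev2 u ξ (xp Qb r l)) ^ c *
            th p 2 ^ (r * (A + c) + m.degree) * (th p 2 * nrm v S) ^ (k * m.degree) := by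
  obtain ⟨k₀, h₀⟩ := C3_set r Δ nJ
  obtain ⟨k₁, h₁⟩ := exists_SB_aeval (Fin r) (Fin r) 1 Δ
  obtain ⟨k₂, h₂⟩ := exists_implicit (Fin r) k₁ Δ
  obtain ⟨k₃, h₃⟩ := C3_SB (Fin r) r (k₂ + 1) Δ
  refine ⟨k₀ + 2 * (2 * (k₂ + k₃ + 1) + r + 1), fun {I J} _ _ hJ M hM u ξ hpt hP0 => ?_⟩
  obtain ⟨S, s1, s2, s3, s4, s5, s6, s7⟩ := h₀ hJ M hM u ξ hpt
  have s0 : (1 : Qb) ∈ S := s1 (C3_one_mem M)
  set x : Fin r → MvPowerSeries (Fin r) Qb := fun i => C (u i) + X i with hxdef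
  have hx : ∀ i, SB S 1 (x i) := fun i => SB.shiftX s0 (s2 i) i
  have hx0 : ∀ i, constantCoeff (x i) = u i := fun i => by simp [hxdef]
  have em : (M.m.map (MvPolynomial.aeval x :
      MvPolynomial (Fin r) Qb →ₐ[Qb] MvPowerSeries (Fin r) Qb).toRingHom).map
        (constantCoeff : MvPowerSeries (Fin r) Qb →+* Qb) =
      M.m.map (MvPolynomial.aeval u : MvPolynomial (Fin r) Qb →ₐ[Qb] Qb).toRingHom := by
    rw [Polynomial.map_map]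
    congr 1
    refine MvPolynomial.ringHom_ext (fun a => ?_) fun i => ?_
    · simp [MvPowerSeries.algebraMap_apply]
    · simpa using hx0 i
  obtain ⟨W, w0, w1, w2⟩ := h₂ S (M.m.map (MvPolynomial.aeval x :
      MvPolynomial (Fin r) Qb →ₐ[Qb] MvPowerSeries (Fin r) Qb).toRingHom) ξ s0
    (Polynomial.natDegree_map_le.trans hM.1.1)
    (fun i => by
      rw [Polynomial.coeff_map]
      exact h₁ S x _ s0 hx (hM.1.2 i) ((C3_coeffs_sub _ i).trans ((C3_m_sub M).trans s1))) s3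
    (by rw [em, C3_ev2_map]; exact hpt.1)
    (by rw [em, Polynomial.derivative_map, C3_ev2_map]; exact hpt.derivative_ne_zero)
    (by rw [em, Polynomial.derivative_map, C3_ev2_map]; exact s4)
  rw [C3_ev2_map] at w1
  refine ⟨W, S, w0, w1, s0, s7.trans (mul_le_mul_of_nonneg_right (by exact_mod_cast Nat.le_add_right _ _) ?_),
    fun {A c} μ p v hv m => ?_⟩
  · have a1 := ht_nonneg M.S
    have a2 := h1_nonneg ξ
    have a3 : 0 ≤ ∑ i, h1 (u i) := Finset.sum_nonneg fun i _ => h1_nonneg _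
    linarith
  have rf := Finset.Subset.refl S
  obtain ⟨t, G, ht1, hG1, hG2, hG3⟩ := C3_norm s0 (k := k₂ + k₃) (fun j => ev2 x W (M.P (.inr j)))
    (fun j => ev2 u ξ (M.P (.inr j))) (fun j => C3_cc_ev2 x W hx0 w0 _) hP0 s5
    (fun j => (h₃ S x W _ s0 (fun i => (hx i).mono s0 rf (by omega)) (w2.mono s0 rf (by omega))
      (hM.2.2.1 _) ((C3_P_sub M _).trans s1)).mono s0 rf (by omega)) v
  obtain ⟨t', G', ht1', hG1', hG2', hG3'⟩ := C3_norm s0 (k := k₂ + k₃)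
    (fun l => ev2 x W (xp Qb r l)) (fun l => ev2 u ξ (xp Qb r l))
    (fun l => C3_cc_ev2 x W hx0 w0 _) ⟨none, by rw [C3_xp_none]; exact one_ne_zero⟩ s6
    (fun l => by
      rcases l with _ | _ | i
      · rw [C3_xp_none]
        exact (C3_SB_one s0).mono s0 rf (by omega)
      · rw [C3_xp_T]
        exact w2.mono s0 rf (by omega)
      · rw [C3_xp_u]
        exact (hx i).mono s0 rf (by omega)) v
  have e : ev2 x W (M.mon μ) = C (t ^ A * t' ^ c) *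
      ∏ i : Fin A ⊕ Fin c, Sum.elim (fun i => G (μ.1 i)) (fun i => G' (μ.2 i)) i := by
    rw [Mdl.mon, map_mul, map_prod, map_prod, Fintype.prod_sum_type]
    simp only [hG1, hG1', Finset.prod_mul_distrib, Finset.prod_const, Finset.card_univ,
      Fintype.card_fin, Sum.elim_inl, Sum.elim_inr, map_mul, map_pow]
    ring
  have b := coeff_prod_le s0 Finset.univ
    (fun i : Fin A ⊕ Fin c => Sum.elim (fun i => G (μ.1 i)) (fun i => G' (μ.2 i)) i)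
    (fun i _ => by
      rcases i with i | i
      · exact hG2 _
      · exact hG2' _) hv
    (fun i _ => by
      rcases i with i | i
      · exact hG3 _
      · exact hG3' _) m
  rw [Finset.card_univ, Fintype.card_sum, Fintype.card_fin, Fintype.card_fin,
    Fintype.card_fin] at b
  rw [e, coeff_C_mul, map_mul, map_mul, map_pow, map_pow, ht1, ht1', mul_assoc (_ * _)]
  refine mul_le_mul_of_nonneg_left (b.trans (mul_le_mul_of_nonneg_left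
    (pow_le_pow_right₀ (TB1_one_le p v s0) (Nat.mul_le_mul_right _ (Nat.le_add_left _ _)))
    (pow_nonneg (zero_le_one.trans (TB1_th_one_le p)) _))) ?_
  exact mul_nonneg (pow_nonneg (nrm_nonneg _ _) _) (pow_nonneg (nrm_nonneg _ _) _)

/-- heights at a point above a torsion point -/
theorem tors_bound (r Δ : ℕ) : ∃ C : ℝ, 0 ≤ C ∧ ∀ {I J : Type} [Fintype I] [Fintype J]
    (M : Mdl Qb r (I ⊕ J)), M.Cx Δ → ∀ (u : Fin r → Qb) (ξ : Qb),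
    (∀ k, ∃ n : ℕ, 0 < n ∧ u k ^ n = 1) → ev2 u ξ M.m = 0 →
      hv (fun j => ev2 u ξ (M.P (.inr j))) ≤ C * (ht M.S + 1) ∧
      hv (fun l => ev2 u ξ (xp Qb r l)) ≤ C * (ht M.S + 1) := by
  obtain ⟨k, hk⟩ := C3_val r Δ
  refine ⟨(k + 1) * (k + 2), by positivity, fun {I J} _ _ M hM u ξ hu h0 => ?_⟩
  have u0 : ∑ i, h1 (u i) = 0 := Finset.sum_eq_zero fun i _ => by
    obtain ⟨n, hn, e⟩ := hu i
    exact h1_rootOfUnity hn e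
  have n0 := ht_nonneg M.S
  have k0 : (0 : ℝ) ≤ k := Nat.cast_nonneg k
  have hξ : h1 ξ ≤ k * (ht M.S + 1) + 1 := by
    obtain ⟨S₁, s1, s2, s3, s4⟩ := C3_base (C3_one_mem M) u 1
    rw [u0, H2_h1_one] at s4
    have a1 := h1_root_le (M.monic.map
      (MvPolynomial.aeval u : MvPolynomial (Fin r) Qb →ₐ[Qb] Qb).toRingHom).ne_zero (a := ξ)
      ((C3_ev2_map u ξ M.m).trans h0)
    have a2 := hk S₁ (M.m.map
      (MvPolynomial.aeval u : MvPolynomial (Fin r) Qb →ₐ[Qb] Qb).toRingHom).coeffs u 1 s3 s2 s3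
      fun a ha => by
        obtain ⟨i, -, rfl⟩ := Polynomial.mem_coeffs_iff.1 ha
        refine Or.inr ⟨Polynomial.C (M.m.coeff i), C3_cx_C (hM.1.2 i),
          (C3_cfs_C _).trans ((C3_coeffs_sub _ i).trans ((C3_m_sub M).trans s1)), ?_⟩
        rw [Polynomial.coeff_map, C3_ev2_C]
        rfl
    have a3 : Real.log 2 ≤ 1 := by
      have := Real.log_le_sub_one_of_pos (x := 2) two_pos
      linarith
    have a4 : (k : ℝ) * (ht S₁ + 1) ≤ k * (ht M.S + 1) := mul_le_mul_of_nonneg_left (by linarith) k0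
    linarith
  constructor
  · obtain ⟨S₀, s1, s2, s3, s4⟩ := C3_base (C3_one_mem M) u ξ
    have a2 := hk S₀ (Finset.univ.image fun j => ev2 u ξ (M.P (.inr j))) u ξ (s1 (C3_one_mem M))
      s2 s3 fun a ha => by
        obtain ⟨j, -, rfl⟩ := Finset.mem_image.1 ha
        exact Or.inr ⟨_, hM.2.2.1 _, (C3_P_sub M _).trans s1, rfl⟩
    have a3 : ht S₀ + 1 ≤ (k + 2) * (ht M.S + 1) := by linarith
    have a4 := mul_le_mul_of_nonneg_left a3 k0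
    have a5 : (0 : ℝ) ≤ (k + 2) * (ht M.S + 1) := by positivity
    unfold hv
    linarith
  · have a1 := hv_xp_le u ξ
    have a5 : (0 : ℝ) ≤ (k + 1) * (k + 1) * (ht M.S + 1) := by positivity
    linarith

end Pool.Agent.E6b

end

section
open scoped NNReal TensorProduct IntermediateField BigOperators Classical Topology
open Filter

namespace Pool.Agent.E6b
variable {F : Type} [Field F] [Algebra Qb F] [IsFF Qb F] {o : Place Qb F} {d r₁ r₂ : ℕ}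
  {M₁ : Mdl Qb r₁ (IX o d)} {M₂ : Mdl Qb r₂ (IX o d)}

/-- conjugate of a point of the product -/
theorem C7_conj (σ : Qb ≃ₐ[ℚ] Qb) (h₁ : ∀ a ∈ M₁.S, σ a = a) (h₂ : ∀ a ∈ M₂.S, σ a = a)
    (β : BC o Qb Qb) (hβ : ∀ x, β.τ x = σ x) {χ : TB M₁ M₂ →ₐ[Qb] Qb} (hT : Tors M₁ M₂ χ)
    (hG : GdP M₁ M₂ χ) {y₁ y₂ : Fin d → Pt o Qb} (hy : Above M₁ M₂ χ y₁ y₂) :
    ∃ χ' : TB M₁ M₂ →ₐ[Qb] Qb, Tors M₁ M₂ χ' ∧ GdP M₁ M₂ χ' ∧
      Above M₁ M₂ χ' (fun a => β.pt (y₁ a)) (fun a => β.pt (y₂ a)) ∧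
      (∀ k, χ' (uB M₁ M₂ k) = σ (χ (uB M₁ M₂ k))) ∧
      ∀ {A₁ A₂ c : ℕ} (μ₁ : Mon (JJ o × JJ o) r₁ A₁ c) (μ₂ : Mon (JJ o × JJ o) r₂ A₂ c),
        χ' (e1B M₁ M₂ (M₁.mon μ₁) * e2B M₁ M₂ (M₂.mon μ₂)) =
          σ (χ (e1B M₁ M₂ (M₁.mon μ₁) * e2B M₁ M₂ (M₂.mon μ₂))) := by
  obtain ⟨a1, a2, a3, a4⟩ := C7_mdl_gal σ M₁ h₁ (fun k => χ (uB M₁ M₂ (.inl k))) (χ (x1B M₁ M₂))
  obtain ⟨b1, b2, b3, b4⟩ := C7_mdl_gal σ M₂ h₂ (fun k => χ (uB M₁ M₂ (.inr k))) (χ (x2B M₁ M₂))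
  obtain ⟨χ', c1, c2, c3⟩ := exists_lift_TB M₁ M₂ (fun k => σ (χ (uB M₁ M₂ k)))
    (σ (χ (x1B M₁ M₂))) (σ (χ (x2B M₁ M₂)))
    (by rw [a1, ← C7_e1, e1B_m, map_zero, map_zero])
    (by rw [b1, ← C7_e2, e2B_m, map_zero, map_zero])
  refine ⟨χ', fun k => ?_, ⟨?_, ?_⟩, ⟨fun a i => ?_, fun a i => ?_⟩, c1, fun μ₁ μ₂ => ?_⟩
  · obtain ⟨n, hn, h⟩ := hT k
    exact ⟨n, hn, by rw [c1, ← map_pow, h, map_one]⟩
  · have h := hG.1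
    rw [C7_e1, C7_ev2_C] at h ⊢
    simp only [c1]
    rw [a2]
    exact (map_ne_zero σ).2 h
  · have h := hG.2
    rw [C7_e2, C7_ev2_C] at h ⊢
    simp only [c1]
    rw [b2]
    exact (map_ne_zero σ).2 h
  · simp only [c1, c2]
    rw [a3, β.pt_eb, hβ, hy.1 a i]
  · simp only [c1, c3]
    rw [b3, β.pt_eb, hβ, hy.2 a i]
  · rw [map_mul, map_mul, map_mul, C7_e1, C7_e1, C7_e2, C7_e2]
    simp only [c1, c2, c3]
    rw [a4, b4]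

end Pool.Agent.E6b

end

section
open scoped NNReal TensorProduct IntermediateField BigOperators Classical Topology
open Filter

namespace Pool.Agent.E6b
variable {F : Type} [Field F] [Algebra Qb F] [IsFF Qb F] (o : Place Qb F) (d : ℕ)

theorem C7_height (r₁ r₂ Δ : ℕ) : ∃ C : ℝ, 0 ≤ C ∧
    ∀ (M₁ : Mdl Qb r₁ (IX o d)) (M₂ : Mdl Qb r₂ (IX o d)), M₁.Cx Δ → M₂.Cx Δ → Gen M₁ M₂ →
    ∀ χ : TB M₁ M₂ →ₐ[Qb] Qb, Tors M₁ M₂ χ → GdP M₁ M₂ χ → ∀ y₁ y₂, Above M₁ M₂ χ y₁ y₂ →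
    ∀ (s a c N : ℕ), 0 < s → 2 * c ≤ a →
    ∀ (μ₁ : Fin N → Mon (JJ o × JJ o) r₁ (2 * a * s ^ 2 + c) c)
      (μ₂ : Fin N → Mon (JJ o × JJ o) r₂ (2 * a + c) c),
      hv (fun i => χ (e1B M₁ M₂ (M₁.mon (μ₁ i)) * e2B M₁ M₂ (M₂.mon (μ₂ i)))) +
        a * hv (Psym ((s : ℤ) • clz y₁ + (1 : ℤ) • clz y₂)) ≤
        C * a * (s ^ 2 * (ht M₁.S + 1) + (ht M₂.S + 1)) := by
  obtain ⟨C₂, h₂, hC₂⟩ := tors_bound r₁ Δ
  obtain ⟨C₃, h₃, hC₃⟩ := tors_bound r₂ Δ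
  obtain ⟨C₄, hsym, hpos, hC₄⟩ := ntB_spec o
  have h₄ : 0 ≤ C₄ := (abs_nonneg _).trans (hC₄ 0)
  refine ⟨5 * C₂ + 5 * C₃ + 3 * C₄, by positivity, ?_⟩
  intro M₁ M₂ c₁ c₂ G χ hT hG y₁ y₂ hy s a c N hs hc μ₁ μ₂
  obtain ⟨a1, a2⟩ := hC₂ M₁ c₁ (fun k => χ (uB M₁ M₂ (.inl k))) (χ (x1B M₁ M₂))
    (fun k => hT _) (by rw [← C7_e1, e1B_m, map_zero])
  obtain ⟨a3, a4⟩ := hC₃ M₂ c₂ (fun k => χ (uB M₁ M₂ (.inr k))) (χ (x2B M₁ M₂))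
    (fun k => hT _) (by rw [← C7_e2, e2B_m, map_zero])
  have a5 := hv_mon_le M₁ M₂ μ₁ μ₂ (fun k => χ (uB M₁ M₂ (.inl k))) (χ (x1B M₁ M₂))
    (fun k => χ (uB M₁ M₂ (.inr k))) (χ (x2B M₁ M₂))
  obtain ⟨b1, b2⟩ := G.spec₁ hG hy
  have b3 := hv_congr b1
  have b4 := hv_congr b2
  simp only [C7_e1] at b3
  simp only [C7_e2] at b4
  have b5 := abs_le.1 (hC₄ (clz y₁))
  have b6 := abs_le.1 (hC₄ (clz y₂))
  have b7 := abs_le.1 (hC₄ ((s : ℤ) • clz y₁ + (1 : ℤ) • clz y₂))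
  have b8 := C7_psd (ntB o) hsym hpos s (clz y₁) (clz y₂)
  simp only [hq] at b5 b6 b7
  rw [← b3] at b5
  rw [← b4] at b6
  simp only [map_mul, C7_e1, C7_e2]
  push_cast at a5
  refine C7_real (one_le_pow₀ (by exact_mod_cast hs)) (Nat.cast_nonneg c) (by exact_mod_cast hc)
    (by linarith [ht_nonneg M₁.S]) (by linarith [ht_nonneg M₂.S]) h₂ h₃ h₄ a1 a2 a3 a4 a5 ?_
  have b9 := mul_le_mul_of_nonneg_left b5.1 (sq_nonneg (s : ℝ))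
  linarith

section
variable {o d} {r₁ r₂ : ℕ} {M₁ : Mdl Qb r₁ (IX o d)} {M₂ : Mdl Qb r₂ (IX o d)} (k₀ : Fin r₁)
  (s t : ℤ) (a b : ℕ) {A₁ A₂ c N : ℕ} (μ₁ : Fin N → Mon (JJ o × JJ o) r₁ A₁ c)
  (μ₂ : Fin N → Mon (JJ o × JJ o) r₂ A₂ c)

variable (M₁ M₂) in
/-- the linear conditions at the torsion points -/
def C7R : Set (((JJ o × JJ o) × Bool) × Fin N → Qb) :=
  {r | ∃ (χ : TB M₁ M₂ →ₐ[Qb] Qb) (y₁ y₂ : Fin d → Pt o Qb) (x x' : (JJ o × JJ o) × Bool),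
    Tors M₁ M₂ χ ∧ GdP M₁ M₂ χ ∧ Above M₁ M₂ χ y₁ y₂ ∧
    r = C7row (fun i => χ (e1B M₁ M₂ (M₁.mon (μ₁ i)) * e2B M₁ M₂ (M₂.mon (μ₂ i))))
      (C7rho (Psym (s • clz y₁ + t • clz y₂)) (χ (uB M₁ M₂ (.inl k₀))) a b) x x'}

theorem C7R_gal (σ : Qb ≃ₐ[ℚ] Qb) (h₁ : ∀ a ∈ M₁.S, σ a = a) (h₂ : ∀ a ∈ M₂.S, σ a = a)
    (β : BC o Qb Qb) (hβ : ∀ x, β.τ x = σ x) (hok : β.Ok) :
    ∀ r ∈ C7R M₁ M₂ k₀ s t a b μ₁ μ₂, ∃ r' ∈ C7R M₁ M₂ k₀ s t a b μ₁ μ₂,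
      Prp r' fun i => σ (r i) := by
  rintro _ ⟨χ, y₁, y₂, x, x', hT, hG, hy, rfl⟩
  obtain ⟨χ', hT', hG', hy', c1, c2⟩ := C7_conj σ h₁ h₂ β hβ hT hG hy
  refine ⟨_, ⟨χ', _, _, x, x', hT', hG', hy', rfl⟩, C7row_gal σ (fun i => c2 _ _) ?_ x x'⟩
  rw [c1]
  refine C7rho_gal σ ?_ _ a b
  have h := hok.Psym (s • clz y₁ + t • clz y₂)
  simp only [hβ] at h
  rwa [map_add, map_zsmul, map_zsmul, β.cl_clz, β.cl_clz] at h
variable {s t} (G : Gen M₁ M₂) {n : JJ o × JJ o → TB M₁ M₂}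

theorem C7_ker (hn : Prp (Psym (s • clz G.z₁ + t • clz G.z₂))
      fun j => algebraMap _ (TL M₁ M₂) (n j)) (w : ((JJ o × JJ o) × Bool) × Fin N → Qb) :
    w ∈ kerR (C7R M₁ M₂ k₀ s t a b μ₁ μ₂) ↔ ∀ x x' : (JJ o × JJ o) × Bool,
      cmb M₁ M₂ μ₁ μ₂ (fun i => w (x, i)) *
        (n x'.1 ^ a * uB M₁ M₂ (.inl k₀) ^ (if x'.2 then b else 0)) =
      cmb M₁ M₂ μ₁ μ₂ (fun i => w (x', i)) *
        (n x.1 ^ a * uB M₁ M₂ (.inl k₀) ^ (if x.2 then b else 0)) := by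
  constructor
  · intro h x x'
    refine C7_gen G hn fun χ hT hG y₁ y₂ hy => ?_
    have h1 := h _ ⟨χ, y₁, y₂, x, x', hT, hG, hy, rfl⟩
    rw [C7row_sum, sub_eq_zero] at h1
    rw [C7_cmb, C7_cmb, map_pow, map_pow]
    exact h1
  · rintro h _ ⟨χ, y₁, y₂, x, x', -, hG, hy, rfl⟩
    have h1 := C7_spec G hn hG hy (h x x')
    rw [C7_cmb, C7_cmb, map_pow, map_pow] at h1
    rw [C7row_sum, sub_eq_zero]
    exact h1

theorem C7_rank (hn : Prp (Psym (s • clz G.z₁ + t • clz G.z₂))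
      fun j => algebraMap _ (TL M₁ M₂) (n j)) (W : Submodule Qb (TK M₁ M₂))
    (hW : ∀ g ∈ W, ∀ x : (JJ o × JJ o) × Bool, ∃ w : Fin N → Qb,
      algebraMap _ (TK M₁ M₂) (cmb M₁ M₂ μ₁ μ₂ w) = g * algebraMap _ (TK M₁ M₂)
        (n x.1 ^ a * uB M₁ M₂ (.inl k₀) ^ (if x.2 then b else 0))) :
    Module.finrank Qb W ≤ Module.finrank Qb (kerR (C7R M₁ M₂ k₀ s t a b μ₁ μ₂)) := by
  obtain ⟨j₁, hj₁⟩ := Function.ne_iff.1 (C7_n_ne G hn)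
  have h1 : n j₁ ≠ 0 := fun h => hj₁ (by rw [h, map_zero]; rfl)
  have hinj := IsFractionRing.injective (TB M₁ M₂) (TK M₁ M₂)
  have h2 : algebraMap _ (TK M₁ M₂) (n j₁ ^ a * uB M₁ M₂ (.inl k₀) ^ 0) ≠ 0 := by
    rw [pow_zero, mul_one]
    exact (map_ne_zero_iff _ hinj).2 (pow_ne_zero _ h1)
  obtain ⟨Ψ, hΨ⟩ : ∃ Ψ : (((JJ o × JJ o) × Bool) × Fin N → Qb) →ₗ[Qb] TK M₁ M₂, ∀ w, Ψ w =
      algebraMap _ (TK M₁ M₂) (cmb M₁ M₂ μ₁ μ₂ fun i => w ((j₁, false), i)) *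
        (algebraMap _ (TK M₁ M₂) (n j₁ ^ a * uB M₁ M₂ (.inl k₀) ^ 0))⁻¹ :=
    ⟨(LinearMap.mulRight Qb (algebraMap _ (TK M₁ M₂) (n j₁ ^ a * uB M₁ M₂ (.inl k₀) ^ 0))⁻¹).comp
      ((IsScalarTower.toAlgHom Qb (TB M₁ M₂) (TK M₁ M₂)).toLinearMap.comp
        ((Fintype.linearCombination Qb fun i =>
          e1B M₁ M₂ (M₁.mon (μ₁ i)) * e2B M₁ M₂ (M₂.mon (μ₂ i))).comp
            (LinearMap.funLeft Qb Qb fun i => ((j₁, false), i)))), fun _ => rfl⟩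
  refine le_trans (Submodule.finrank_mono fun g hg => ?_) (Submodule.finrank_map_le Ψ _)
  choose w hw using hW g hg
  refine ⟨fun p => w p.1 p.2, (C7_ker k₀ a b μ₁ μ₂ G hn _).2 fun x x' => hinj ?_, ?_⟩
  · rw [map_mul, map_mul _ (cmb _ _ _ _ _), hw x, hw x']
    ring
  · rw [hΨ]
    exact (congrArg (· * _) (hw (j₁, false))).trans (mul_inv_cancel_right₀ h2 g)

end

/-- the auxiliary sections of small height -/
theorem exists_aux (r₁ r₂ Δ : ℕ) : ∃ (E : ℕ) (C : ℝ), 0 < E ∧ 0 ≤ C ∧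
    ∀ (M₁ : Mdl Qb r₁ (IX o d)) (M₂ : Mdl Qb r₂ (IX o d)), M₁.Cx Δ → M₂.Cx Δ →
    ∀ G : Gen M₁ M₂, Function.Injective (Sum.elim G.z₁ G.z₂) →
      ell (dz (Sum.elim G.z₁ G.z₂)) = 1 → ∀ (k₀ : Fin r₁) (s : ℕ), 0 < s →
      ∀ n : JJ o × JJ o → TB M₁ M₂,
        Prp (Psym ((s : ℤ) • clz G.z₁ + (1 : ℤ) • clz G.z₂))
          (fun j => algebraMap _ (TL M₁ M₂) (n j)) →
        ∃ k c : ℕ, 0 < k ∧ ∀ᶠ D : ℕ in atTop, ∃ (N : ℕ)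
          (μ₁ : Fin N → Mon (JJ o × JJ o) r₁ (2 * (k * D * E) * s ^ 2 + c) c)
          (μ₂ : Fin N → Mon (JJ o × JJ o) r₂ (2 * (k * D * E) + c) c)
          (w : ((JJ o × JJ o) × Bool) × Fin N → Qb),
          (∃ x, cmb M₁ M₂ μ₁ μ₂ (fun i => w (x, i)) ≠ 0) ∧
          (∀ x x' : (JJ o × JJ o) × Bool,
            cmb M₁ M₂ μ₁ μ₂ (fun i => w (x, i)) * (n x'.1 ^ (k * D * E) *
              uB M₁ M₂ (.inl k₀) ^ (if x'.2 then k * D * s ^ 2 else 0)) =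
            cmb M₁ M₂ μ₁ μ₂ (fun i => w (x', i)) * (n x.1 ^ (k * D * E) *
              uB M₁ M₂ (.inl k₀) ^ (if x.2 then k * D * s ^ 2 else 0))) ∧
          hv w ≤ C * (k * D) * (s ^ 2 * (ht M₁.S + 1) + (ht M₂.S + 1)) ∧
          Real.log (N + 1) ≤ k * D := by
  obtain ⟨E, hE, hsec⟩ := exists_sections (o := o) (d := d) r₁ r₂ Δ
  obtain ⟨C₁, hC₁⟩ := card_mon_le r₁ r₂ Δ
  obtain ⟨C₂, hC₂, hht⟩ := C7_height o d r₁ r₂ Δ
  obtain ⟨K, hK, hKβ⟩ := exists_defField o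
  obtain ⟨C₃, hC₃⟩ : ∃ C₃ : ℕ, C₃ = Fintype.card ((JJ o × JJ o) × Bool) * (C₁ * 3 ^ (r₁ + r₂)) :=
    ⟨_, rfl⟩
  refine ⟨E, C₃ * (4 * (r₁ + r₂).factorial) * (C₂ * E + 4) + 1, hE, by positivity, ?_⟩
  intro M₁ M₂ h₁ h₂ G hi hl k₀ s hs n hn
  obtain ⟨k, c, hk, hev⟩ := hsec M₁ M₂ h₁ h₂ G hi hl k₀ s hs n hn
  refine ⟨k, c, hk, ?_⟩
  have hfd := MW1_fd (M₁.S ∪ M₂.S).finite_toSet
  obtain ⟨cL, hcL, hsieg⟩ :=
    siegel_abs (K ⊔ IntermediateField.adjoin ℚ ((M₁.S ∪ M₂.S : Finset Qb) : Set Qb))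
  filter_upwards [hev, C7_exp (C₃ * (s ^ (2 * r₁) * (k * E) ^ (r₁ + r₂))) (r₁ + r₂),
    eventually_ge_atTop (2 * c + 1), tendsto_natCast_atTop_atTop.eventually_ge_atTop cL]
    with D hD h3 h4 h5
  obtain ⟨W, -, hW, hmem⟩ := hD
  have hDk : D ≤ k * D := Nat.le_mul_of_pos_left _ hk
  have hDa : 2 * c + 1 ≤ k * D * E := h4.trans (hDk.trans (Nat.le_mul_of_pos_right _ hE))
  have hDk' : (D : ℝ) ≤ k * D := by exact_mod_cast hDk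
  obtain ⟨N, μ, hli, hsp⟩ := C7_indep (K := Qb)
    fun μ : Mon (JJ o × JJ o) r₁ (2 * (k * D * E) * s ^ 2 + c) c ×
      Mon (JJ o × JJ o) r₂ (2 * (k * D * E) + c) c =>
      algebraMap _ (TK M₁ M₂) (e1B M₁ M₂ (M₁.mon μ.1) * e2B M₁ M₂ (M₂.mon μ.2))
  have hli' : LinearIndependent Qb fun i =>
      e1B M₁ M₂ (M₁.mon (μ i).1) * e2B M₁ M₂ (M₂.mon (μ i).2) :=
    LinearIndependent.of_comp (IsScalarTower.toAlgHom Qb (TB M₁ M₂) (TK M₁ M₂)).toLinearMap hli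
  have hN := C7_count hs hDa (hC₁ M₁ M₂ h₁ h₂ (fun i => (μ i).1) (fun i => (μ i).2) hli')
  have hrk := C7_rank k₀ (k * D * E) (k * D * s ^ 2) (fun i => (μ i).1) (fun i => (μ i).2) G hn W
    fun g hg x => by
      obtain ⟨w, hw⟩ := hsp _ (hmem g hg x.1 x.2)
      refine ⟨w, Eq.trans ?_ hw⟩
      rw [cmb, map_sum]
      exact Finset.sum_congr rfl fun i _ =>
        map_smul (IsScalarTower.toAlgHom Qb (TB M₁ M₂) (TK M₁ M₂)) _ _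
  have ha0 : 0 < k * D * E := by omega
  have hκ : (0 : ℝ) < Module.finrank Qb W := lt_of_lt_of_le (by positivity) hW
  have hT : (1 : ℝ) ≤ s ^ 2 * (ht M₁.S + 1) + (ht M₂.S + 1) := by
    have a1 := ht_nonneg M₁.S
    have a2 := ht_nonneg M₂.S
    have a3 : (0 : ℝ) ≤ s ^ 2 * (ht M₁.S + 1) := by positivity
    linarith
  have hβ : (0 : ℝ) ≤ C₂ * (k * D * E : ℕ) * (s ^ 2 * (ht M₁.S + 1) + (ht M₂.S + 1)) := by
    positivity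
  obtain ⟨w, hw, hw0, hwh⟩ := hsieg _
    (C7R M₁ M₂ k₀ s 1 (k * D * E) (k * D * s ^ 2) (fun i => (μ i).1) fun i => (μ i).2) _
    (Module.finrank Qb W) hβ (by exact_mod_cast hκ)
    (by
      rintro _ ⟨χ, y₁, y₂, x, x', hT, hG, hy, rfl⟩
      refine (C7row_hv _ _ x x').trans (le_trans ?_
        (hht M₁ M₂ h₁ h₂ G χ hT hG y₁ y₂ hy s _ c N hs (by omega) (fun i => (μ i).1)
          fun i => (μ i).2))
      exact add_le_add le_rfl (C7rho_hv _ (hT _) _ _))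
    (fun r hr σ hσ => by
      obtain ⟨β, b1, b2⟩ := hKβ σ fun x hx => hσ x ((le_sup_left : K ≤ _) hx)
      have b3 : ∀ x ∈ M₁.S ∪ M₂.S, σ x = x := fun x hx =>
        hσ x ((le_sup_right : _ ≤ K ⊔ _) (IntermediateField.subset_adjoin ℚ _ hx))
      exact C7R_gal k₀ s 1 _ _ _ _ σ (fun x hx => b3 x (Finset.mem_union_left _ hx))
        (fun x hx => b3 x (Finset.mem_union_right _ hx)) β b1 b2 r hr)
    hrk
  obtain ⟨p, hp⟩ := Function.ne_iff.1 hw0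
  have hcard : Fintype.card (((JJ o × JJ o) × Bool) × Fin N) ≤
      C₃ * (s ^ (2 * r₁) * (k * D * E) ^ (r₁ + r₂)) := by
    rw [Fintype.card_prod, Fintype.card_fin, hC₃, mul_assoc]
    exact Nat.mul_le_mul_left _ hN
  have hN' : N ≤ Fintype.card (((JJ o × JJ o) × Bool) × Fin N) := by
    rw [Fintype.card_prod, Fintype.card_fin]
    exact Nat.le_mul_of_pos_left _ (Fintype.card_pos_iff.2 ⟨p.1⟩)
  have hpos : 0 < Fintype.card (((JJ o × JJ o) × Bool) × Fin N) := Fintype.card_pos_iff.2 ⟨p⟩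
  generalize Fintype.card (((JJ o × JJ o) × Bool) × Fin N) = m at hwh hcard hN' hpos
  have hcard' : (m : ℝ) ≤ C₃ * (s ^ (2 * r₁) * ((k * D * E : ℕ) : ℝ) ^ (r₁ + r₂)) := by
    exact_mod_cast hcard
  have hlog : Real.log (m + 1) ≤ k * D := by
    refine le_trans (Real.log_le_log (by positivity) ?_) (h3.trans hDk')
    refine add_le_add (hcard'.trans (le_of_eq ?_)) le_rfl
    push_cast
    ring
  have hm : (1 : ℝ) ≤ m := by exact_mod_cast hpos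
  refine ⟨N, fun i => (μ i).1, fun i => (μ i).2, w, ⟨p.1, fun h => hp ?_⟩,
    (C7_ker k₀ _ _ _ _ G hn w).1 hw, ?_, ?_⟩
  · exact Fintype.linearIndependent_iff.1 hli' (fun i => w (p.1, i)) h p.2
  · refine C7_final hκ hm ?_ hT (by positivity) hcL (h5.trans hDk')
      ((Real.log_le_log (by positivity) (by linarith)).trans hlog) hβ (by push_cast; ring) hwh rfl
    rw [div_le_iff₀ (by positivity)] at hW
    exact hcard'.trans ((mul_le_mul_of_nonneg_left hW (Nat.cast_nonneg _)).trans_eq (by ring))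
  · refine le_trans (Real.log_le_log (by positivity) ?_) hlog
    exact add_le_add (by exact_mod_cast hN') le_rfl

end Pool.Agent.E6b

end

section
open scoped NNReal TensorProduct IntermediateField BigOperators Classical Topology
open Filter

namespace Pool.Agent.E6b
variable {F : Type} [Field F] [Algebra Qb F] [IsFF Qb F] (o : Place Qb F) (d : ℕ)

section
variable {o d} {r₁ r₂ Δ : ℕ}

/-- the special point of the product -/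
theorem C8_pt (L₁ : Lev o d r₁ Δ) (L₂ : Lev o d r₂ Δ) {χ : TB L₁.M L₂.M →ₐ[Qb] Qb}
    (hu : ∀ k, χ (uB L₁.M L₂.M k) = Sum.elim L₁.u L₂.u k) (h₁ : χ (x1B L₁.M L₂.M) = L₁.ξ)
    (h₂ : χ (x2B L₁.M L₂.M) = L₂.ξ) :
    (∀ p, χ (e1B L₁.M L₂.M p) = ev2 L₁.u L₁.ξ p) ∧ (∀ p, χ (e2B L₁.M L₂.M p) = ev2 L₂.u L₂.ξ p) ∧
      GdP L₁.M L₂.M χ ∧ Above L₁.M L₂.M χ L₁.z L₂.z := by
  have e₁ : (fun k => χ (uB L₁.M L₂.M (.inl k))) = L₁.u := funext fun k => hu _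
  have e₂ : (fun k => χ (uB L₁.M L₂.M (.inr k))) = L₂.u := funext fun k => hu _
  have f₁ : ∀ p, χ (e1B L₁.M L₂.M p) = ev2 L₁.u L₁.ξ p := fun p => by
    rw [e1B, map_ev2, e₁, h₁]
  have f₂ : ∀ p, χ (e2B L₁.M L₂.M p) = ev2 L₂.u L₂.ξ p := fun p => by
    rw [e2B, map_ev2, e₂, h₂]
  refine ⟨f₁, f₂, ⟨?_, ?_⟩, ?_, ?_⟩
  · rw [f₁]
    simpa [ev2] using L₁.pt.2
  · rw [f₂]
    simpa [ev2] using L₂.pt.2
  · rw [e₁, h₁]
    exact L₁.crd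
  · rw [e₂, h₂]
    exact L₂.crd

theorem C8_prp (L₁ : Lev o d r₁ Δ) (L₂ : Lev o d r₂ Δ) (G : Gen L₁.M L₂.M) :
    Prp (fun j => ev2 L₁.u L₁.ξ (L₁.M.P (.inr j))) (Psym (clz L₁.z)) ∧
      Prp (fun j => ev2 L₂.u L₂.ξ (L₂.M.P (.inr j))) (Psym (clz L₂.z)) := by
  obtain ⟨χ, h1, h2, h3⟩ := exists_lift_TB L₁.M L₂.M (Sum.elim L₁.u L₂.u) L₁.ξ L₂.ξ
    L₁.pt.1 L₂.pt.1
  obtain ⟨f₁, f₂, hg, ha⟩ := C8_pt L₁ L₂ h1 h2 h3
  have h := G.spec₁ hg ha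
  simpa only [f₁, f₂] using h

end

end Pool.Agent.E6b

end
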