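import Pool.Agent.E6c.A36
import Pool.Agent.E6c.A38

section
open scoped NNReal TensorProduct IntermediateField BigOperators Classical Topology
open Filter

namespace Pool.Agent.E6b
variable {F : Type} [Field F] [Algebra Qb F] [IsFF Qb F] {o : Place Qb F} {d r₁ r₂ : ℕ}
variable {M₁ : Mdl Qb r₁ (IX o d)} {M₂ : Mdl Qb r₂ (IX o d)}

theorem exists_gen (h₁ : M₁.Real) (h₂ : M₂.Real) : Nonempty (Gen M₁ M₂) := by
  obtain ⟨z₁, a1, a2, a3, a4⟩ := h₁ (TL M₁ M₂) _ _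
    ((algebraicIndependent_uL M₁ M₂).comp Sum.inl Sum.inl_injective) (isPt1_TL M₁ M₂)
  obtain ⟨z₂, b1, b2, b3, b4⟩ := h₂ (TL M₁ M₂) _ _
    ((algebraicIndependent_uL M₁ M₂).comp Sum.inr Sum.inr_injective) (isPt2_TL M₁ M₂)
  exact ⟨⟨z₁, z₂, a1, b1, a2, b2, a3, b3, a4, b4⟩⟩
variable (G : Gen M₁ M₂)

theorem Gen.ell_eq_one {χ : TB M₁ M₂ →ₐ[Qb] Qb} (hχ : GdP M₁ M₂ χ) {y₁ y₂ : Fin d → Pt o Qb}
    (hy : Above M₁ M₂ χ y₁ y₂) (hi : Function.Injective (Sum.elim y₁ y₂))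
    (hl : ell (dz (Sum.elim y₁ y₂)) = 1) :
    Function.Injective (Sum.elim G.z₁ G.z₂) ∧ ell (dz (Sum.elim G.z₁ G.z₂)) = 1 := by
  obtain ⟨O, hO⟩ := exists_dom M₁ M₂ χ
  obtain ⟨i₁, -, h₁⟩ := C5_red M₁ (C5_i M₁ M₂) χ (fun k => uB M₁ M₂ (.inl k)) (x1B M₁ M₂)
    hO hχ.1 G.crd₁
  obtain ⟨i₂, -, h₂⟩ := C5_red M₂ (C5_i M₁ M₂) χ (fun k => uB M₁ M₂ (.inr k)) (x2B M₁ M₂)
    hO hχ.2 G.crd₂
  have i : ∀ a, Intg O (Sum.elim G.z₁ G.z₂ a) := Sum.forall.2 ⟨i₁, i₂⟩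
  have h : ∀ a, redp O (Sum.elim G.z₁ G.z₂ a) (i a) =
      (bc o (Algebra.ofId Qb (RF O))).pt (Sum.elim y₁ y₂ a) :=
    Sum.forall.2 ⟨h₁ y₁ hy.1, h₂ y₂ hy.2⟩
  refine ⟨fun a b e => hi ((bc o (Algebra.ofId Qb (RF O))).pt_injective ?_),
    le_antisymm ?_ (one_le_ell (dz_nonneg _))⟩
  · rw [← h, ← h]
    congr 1
  · refine (ell_le_red O _).trans_eq ?_
    rw [redD_dz O i, funext h, ← BC.dv_dz, BC.ell_dv, hl]

end Pool.Agent.E6b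

end

section
open scoped NNReal TensorProduct IntermediateField BigOperators Classical Topology
open Filter

namespace Pool.Agent.E6b

/-- degree and height of the norm of a combination of monomials -/
theorem norm_bound (r₁ r₂ Δ : ℕ) : ∃ C : ℕ, ∀ {I J : Type} [Fintype I] [Fintype J]
    (M₁ : Mdl Qb r₁ (I ⊕ J)) (M₂ : Mdl Qb r₂ (I ⊕ J)), M₁.Cx Δ → M₂.Cx Δ →
    ∀ {A₁ A₂ c N : ℕ} (μ₁ : Fin N → Mon J r₁ A₁ c) (μ₂ : Fin N → Mon J r₂ A₂ c) (w : Fin N → Qb),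
      (∀ k, (nrB M₁ M₂ (cmb M₁ M₂ μ₁ μ₂ w)).degreeOf (.inl k) ≤ C * (A₁ + c)) ∧
      (∀ k, (nrB M₁ M₂ (cmb M₁ M₂ μ₁ μ₂ w)).degreeOf (.inr k) ≤ C * (A₂ + c)) ∧
      hp (nrB M₁ M₂ (cmb M₁ M₂ μ₁ μ₂ w)) ≤ C * (hv w + Real.log (N + 1) +
        (A₁ + c) * (ht M₁.S + 1) + (A₂ + c) * (ht M₂.S + 1) + 1) := by
  obtain ⟨L, hL⟩ := C2_local r₁ r₂ Δ
  set E := Δ * Δ with hEdef
  refine ⟨E.factorial + E * E + E * L + E, ?_⟩
  intro I J _ _ M₁ M₂ h₁ h₂ A₁ A₂ c N μ₁ μ₂ w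
  obtain ⟨e, he, hloc⟩ := hL M₁ M₂ h₁ h₂
  have hdeg : ∀ n : ℕ, e * (n * L) ≤ (E.factorial + E * E + E * L + E) * n := fun n => by
    calc e * (n * L) ≤ E * (n * L) := Nat.mul_le_mul_right _ he
      _ = E * L * n := by ring
      _ ≤ _ := Nat.mul_le_mul_right _ (by omega)
  obtain ⟨v₀, hv₀⟩ := exists_isPl (p := 0) (Or.inl rfl)
  refine ⟨fun k => ((hloc μ₁ μ₂ w 0 v₀ hv₀).deg (.inl k)).trans (hdeg _),
    fun k => ((hloc μ₁ μ₂ w 0 v₀ hv₀).deg (.inr k)).trans (hdeg _), ?_⟩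
  have hw0 : 0 ≤ hv w := ht_nonneg _
  have hs₁ : 0 ≤ ht M₁.S := ht_nonneg _
  have hs₂ : 0 ≤ ht M₂.S := ht_nonneg _
  have hN1 : (1 : ℝ) ≤ (N : ℝ) + 1 := le_add_of_nonneg_left (Nat.cast_nonneg N)
  have hlN : 0 ≤ Real.log ((N : ℝ) + 1) := Real.log_nonneg hN1
  by_cases hn : nrB M₁ M₂ (cmb M₁ M₂ μ₁ μ₂ w) = 0
  · rw [hn, hp, htSpec.zero _ (by simp)]
    positivity
  have hw : w ≠ 0 := by
    rintro rfl
    apply hn
    simp [cmb, nrB]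
  have key := ht_le_of_local (r := Fin 3) (Gelf_exists_ne hn) ![Finset.univ.image w, M₁.S, M₂.S]
    (fun i => by
      fin_cases i
      · exact H2_vec_ne hw
      · exact ⟨1, C2_one_mem M₁, one_ne_zero⟩
      · exact ⟨1, C2_one_mem M₂, one_ne_zero⟩)
    ![(e : ℝ), (E * ((A₁ + c) * L) : ℕ), (E * ((A₂ + c) * L) : ℕ)]
    (c := 2 ^ (E.factorial + E * E + E * ((A₁ + c) * L) + E * ((A₂ + c) * L)) * ((N : ℝ) + 1) ^ E)
    (by positivity) fun p v h => by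
      refine (C2_nrm_le_sz (p := p) _).trans ((hloc μ₁ μ₂ w p v h).sz.trans ?_)
      refine (C2_th_bound p he (nrm_nonneg _ _) (by simpa using le_nrm v (C2_one_mem M₁))
        (by simpa using le_nrm v (C2_one_mem M₂))).trans (le_of_eq ?_)
      simp only [Fin.prod_univ_three, Matrix.cons_val_zero, Matrix.cons_val_one, Matrix.cons_val,
        Real.rpow_natCast]
  simp only [Fin.sum_univ_three, Matrix.cons_val_zero, Matrix.cons_val_one, Matrix.cons_val] at key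
  rw [Real.log_mul (by positivity) (by positivity), Real.log_pow, Real.log_pow] at key
  have hl2 : Real.log 2 ≤ 1 := by
    have := Real.log_le_sub_one_of_pos (x := 2) two_pos
    linarith
  have heE : (e : ℝ) ≤ E := by exact_mod_cast he
  refine key.trans ?_
  change _ + (e * hv w + _ + _) ≤ _
  push_cast
  set F : ℝ := (E.factorial : ℝ)
  have hF : 0 ≤ F := Nat.cast_nonneg _
  set a₁ : ℝ := (A₁ : ℝ) + c
  set a₂ : ℝ := (A₂ : ℝ) + c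
  have ha₁ : 0 ≤ a₁ := by positivity
  have ha₂ : 0 ≤ a₂ := by positivity
  have hE0 : (0 : ℝ) ≤ E := Nat.cast_nonneg _
  have hL0 : (0 : ℝ) ≤ L := Nat.cast_nonneg _
  have b1 : (F + E * E + E * (a₁ * L) + E * (a₂ * L)) * Real.log 2 ≤
      F + E * E + E * (a₁ * L) + E * (a₂ * L) := mul_le_of_le_one_right (by positivity) hl2
  have b2 : (e : ℝ) * hv w ≤ E * hv w := mul_le_mul_of_nonneg_right heE hw0
  have b3 : 0 ≤ (F + E * E + E * L) * (hv w + Real.log ((N : ℝ) + 1)) := by positivity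
  have b4 : 0 ≤ (F + E * E + E) * (a₁ * (ht M₁.S + 1) + a₂ * (ht M₂.S + 1)) := by positivity
  have b5 : (0 : ℝ) ≤ E * L + E := by positivity
  nlinarith

end Pool.Agent.E6b

end

section
open scoped NNReal TensorProduct IntermediateField BigOperators Classical Topology
open Filter

namespace Pool.Agent.E6b
open MvPowerSeries

section aux

/-- the constant coefficient as an algebra homomorphism -/
noncomputable def C4_cc (σ : Type) : MvPowerSeries σ Qb →ₐ[Qb] Qb :=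
  { (constantCoeff : MvPowerSeries σ Qb →+* Qb) with
    commutes' := fun c => by simp [MvPowerSeries.algebraMap_apply] }

theorem C4_cc_apply {σ : Type} (f : MvPowerSeries σ Qb) : C4_cc σ f = constantCoeff f := rfl

end aux
variable {r₁ r₂ : ℕ} {ι : Type} (M₁ : Mdl Qb r₁ ι) (M₂ : Mdl Qb r₂ ι)

/-- Taylor expansion on the product of two models -/
theorem exists_tay (u₁ : Fin r₁ → Qb) (u₂ : Fin r₂ → Qb) (W₁ : MvPowerSeries (Fin r₁) Qb)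
    (W₂ : MvPowerSeries (Fin r₂) Qb) (h₁ : ev2 (fun i => C (u₁ i) + X i) W₁ M₁.m = 0)
    (h₂ : ev2 (fun i => C (u₂ i) + X i) W₂ M₂.m = 0) :
    ∃ (T : TB M₁ M₂ →ₐ[Qb] MvPowerSeries (Fin r₁ ⊕ Fin r₂) Qb) (χ : TB M₁ M₂ →ₐ[Qb] Qb),
      Function.Injective T ∧ (∀ b, constantCoeff (T b) = χ b) ∧
      (∀ p, T (e1B M₁ M₂ p) = rename Sum.inl (ev2 (fun i => C (u₁ i) + X i) W₁ p)) ∧
      (∀ p, T (e2B M₁ M₂ p) = rename Sum.inr (ev2 (fun i => C (u₂ i) + X i) W₂ p)) ∧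
      (∀ p : R0 r₁ r₂, T (algebraMap _ _ p) = (shf (Sum.elim u₁ u₂) p : MvPowerSeries _ Qb)) ∧
      (∀ k, χ (uB M₁ M₂ k) = Sum.elim u₁ u₂ k) ∧ χ (x1B M₁ M₂) = constantCoeff W₁ ∧
      χ (x2B M₁ M₂) = constantCoeff W₂ := by
  have e₁ : ∀ p, rename (Sum.inl : Fin r₁ → Fin r₁ ⊕ Fin r₂)
      (ev2 (fun i => C (u₁ i) + X i) W₁ p) =
      ev2 (fun k => (C (u₁ k) + X (Sum.inl k) : MvPowerSeries (Fin r₁ ⊕ Fin r₂) Qb))
        (rename Sum.inl W₁) p := fun p => by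
    rw [map_ev2]
    simp only [map_add, rename_C, rename_X]
  have e₂ : ∀ p, rename (Sum.inr : Fin r₂ → Fin r₁ ⊕ Fin r₂)
      (ev2 (fun i => C (u₂ i) + X i) W₂ p) =
      ev2 (fun k => (C (u₂ k) + X (Sum.inr k) : MvPowerSeries (Fin r₁ ⊕ Fin r₂) Qb))
        (rename Sum.inr W₂) p := fun p => by
    rw [map_ev2]
    simp only [map_add, rename_C, rename_X]
  obtain ⟨T, hu, hx1, hx2⟩ := exists_lift_TB M₁ M₂
    (fun k => (C (Sum.elim u₁ u₂ k) + X k : MvPowerSeries (Fin r₁ ⊕ Fin r₂) Qb))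
    (rename Sum.inl W₁) (rename Sum.inr W₂)
    (by simp only [Sum.elim_inl]; rw [← e₁, h₁, map_zero])
    (by simp only [Sum.elim_inr]; rw [← e₂, h₂, map_zero])
  have hR : ∀ p : R0 r₁ r₂,
      T (algebraMap _ _ p) = (shf (Sum.elim u₁ u₂) p : MvPowerSeries _ Qb) := fun p => by
    rw [hom_algebraMap_TB, ← C4_aeval]
    simp only [hu]
  refine ⟨T, (C4_cc _).comp T, ?_, fun _ => rfl, fun p => ?_, fun p => ?_, hR, fun k => ?_, ?_, ?_⟩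
  · rw [injective_iff_map_eq_zero]
    intro b hb
    by_contra h0
    obtain ⟨c, hc⟩ := dvd_nrB M₁ M₂ b
    have h1 := hR (nrB M₁ M₂ b)
    rw [hc, map_mul, hb, zero_mul] at h1
    exact nrB_ne_zero M₁ M₂ h0 (C4_shf_eq_zero (MvPolynomial.coe_eq_zero_iff.1 h1.symm))
  · rw [e₁, e1B, map_ev2, hx1]
    simp only [hu, Sum.elim_inl]
  · rw [e₂, e2B, map_ev2, hx2]
    simp only [hu, Sum.elim_inr]
  · rw [AlgHom.comp_apply, hu, C4_cc_apply]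
    simp
  · rw [AlgHom.comp_apply, hx1, C4_cc_apply, constantCoeff_rename]
  · rw [AlgHom.comp_apply, hx2, C4_cc_apply, constantCoeff_rename]

end Pool.Agent.E6b

end

section
open scoped NNReal TensorProduct IntermediateField BigOperators Classical Topology
open Filter

namespace Pool.Agent.E6b

/-- the bound for the height of the norm -/
theorem C8_real2 {t a S H₁ H₂ c C₁ C₂ B₀ B x l hF : ℝ} (ht : 1 ≤ t) (ha : t ≤ a) (hS : 1 ≤ S)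
    (hH₁ : 1 ≤ H₁) (hH₂ : 1 ≤ H₂) (hc : c ≤ t) (hC₁ : 0 ≤ C₁) (hC₂ : 0 ≤ C₂) (hB₀ : 0 ≤ B₀)
    (hB : B₀ * (C₂ * (C₁ + 6) + 1) ≤ B) (hx : x ≤ C₁ * t * (S * H₁ + H₂)) (hl : l ≤ t)
    (h : hF ≤ C₂ * (x + l + (2 * a * S + c + c) * H₁ + (2 * a + c + c) * H₂ + 1)) :
    B₀ * (hF + a * S) ≤ B * (S * H₁ + H₂) * a := by
  obtain ⟨P, hP⟩ : ∃ P, P = S * H₁ + H₂ := ⟨_, rfl⟩
  have ha0 : 0 ≤ a := by linarith
  have b0 : S ≤ S * H₁ := le_mul_of_one_le_right (by linarith) hH₁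
  have b1 : a * 1 ≤ a * P := mul_le_mul_of_nonneg_left (by linarith) ha0
  have b2 : a * S ≤ a * P := mul_le_mul_of_nonneg_left (by linarith) ha0
  have b3 : a * 1 ≤ a * S := mul_le_mul_of_nonneg_left hS ha0
  have b4 : (2 * a * S + c + c) * H₁ ≤ (4 * (a * S)) * H₁ :=
    mul_le_mul_of_nonneg_right (by linarith) (by linarith)
  have b5 : (2 * a + c + c) * H₂ ≤ (4 * a) * H₂ :=
    mul_le_mul_of_nonneg_right (by linarith) (by linarith)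
  have b6 : C₁ * (t * P) ≤ C₁ * (a * P) :=
    mul_le_mul_of_nonneg_left (mul_le_mul_of_nonneg_right ha (by linarith)) hC₁
  have b7 : a * P = a * S * H₁ + a * H₂ := by rw [hP]; ring
  rw [← hP] at hx ⊢
  have b8 : C₂ * (x + l + (2 * a * S + c + c) * H₁ + (2 * a + c + c) * H₂ + 1) ≤
      C₂ * ((C₁ + 6) * (a * P)) := mul_le_mul_of_nonneg_left (by linarith) hC₂
  have b9 : B₀ * (hF + a * S) ≤ B₀ * ((C₂ * (C₁ + 6) + 1) * (a * P)) :=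
    mul_le_mul_of_nonneg_left (by linarith) hB₀
  have b10 := mul_le_mul_of_nonneg_right hB (show 0 ≤ a * P by linarith)
  linarith

end Pool.Agent.E6b

end

section
open scoped NNReal TensorProduct IntermediateField BigOperators Classical Topology
open Filter

namespace Pool.Agent.E6b
variable {F : Type} [Field F] [Algebra Qb F] [IsFF Qb F] (o : Place Qb F) (d : ℕ)

section
variable {o d} {r₁ r₂ Δ : ℕ}

/-- the ratios of the numerators at a valuation ring dominating a point -/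
theorem C8_ratio {M₁ : Mdl Qb r₁ (IX o d)} {M₂ : Mdl Qb r₂ (IX o d)} (G : Gen M₁ M₂)
    {χ : TB M₁ M₂ →ₐ[Qb] Qb} (hχ : GdP M₁ M₂ χ) {y₁ y₂ : Fin d → Pt o Qb}
    (hy : Above M₁ M₂ χ y₁ y₂) {O : VS Qb (TL M₁ M₂)} (hO : Dom M₁ M₂ O χ) (s t : ℤ)
    {n : JJ o × JJ o → TL M₁ M₂} (hn : Prp (Psym (s • clz G.z₁ + t • clz G.z₂)) n) :
    ∃ j₁, n j₁ ≠ 0 ∧ Psym (s • clz y₁ + t • clz y₂) j₁ ≠ 0 ∧ ∀ j, n j / n j₁ ∈ O.1 ∧
      rs O (n j / n j₁) = algebraMap Qb (RF O)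
        (Psym (s • clz y₁ + t • clz y₂) j / Psym (s • clz y₁ + t • clz y₂) j₁) := by
  have h0 : n ≠ 0 := hn.symm.ne_zero (Psym_ne_zero _)
  have : Nonempty (JJ o × JJ o) := ⟨(Function.ne_iff.1 h0).choose⟩
  obtain ⟨j₁, hj⟩ := exists_vs_eq O.1 n
  have h1 : O.1.valuation (n j₁) ≠ 0 := hj ▸ vs_ne_zero O.1 h0
  have h2 : n j₁ ≠ 0 := fun h => h1 (by rw [h, map_zero])
  have h3 : Prp (fun j => (n j₁)⁻¹ * n j) n := ⟨_, inv_ne_zero h2, fun _ => rfl⟩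
  obtain ⟨μ, -, hμ⟩ := G.spec hχ hy hO s t (h3.trans hn.symm)
    (by rw [vs_smul, ← hj, map_inv₀, inv_mul_cancel₀ h1])
  have h4 : 1 = μ * algebraMap Qb (RF O) (Psym (s • clz y₁ + t • clz y₂) j₁) := by
    have h5 := hμ j₁
    simp only [inv_mul_cancel₀ h2] at h5
    rw [← h5]
    simpa using (rs_algebraMap O 1).symm
  refine ⟨j₁, h2, fun h => ?_, fun j => ⟨(V1_div_mem O.1 _ h2).2 (hj ▸ le_vs O.1 n j), ?_⟩⟩
  · rw [h, map_zero, mul_zero] at h4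
    exact one_ne_zero h4
  · rw [div_eq_inv_mul, map_div₀, div_eq_inv_mul, ← eq_inv_of_mul_eq_one_left h4.symm]
    exact hμ j

/-- the norm has small index -/
theorem C8_idx {r₁ r₂ C₂ B₀ ρ B s t a c : ℕ} {C₁ H₁ H₂ x l ϑ : ℝ} {u₁ : Fin r₁ → Qb}
    {u₂ : Fin r₂ → Qb}
    (hP : ∀ d₁ d₂ : ℕ, 0 < d₂ → d₂ ≤ d₁ → ρ * d₂ ≤ d₁ →
      ∀ (F : MvPolynomial (Fin r₁ ⊕ Fin r₂) Qb) (p₁ : Fin r₁ → Qb) (p₂ : Fin r₂ → Qb), F ≠ 0 →
      (∀ j, F.degreeOf (.inl j) ≤ 4 * C₂ * d₁) → (∀ j, F.degreeOf (.inr j) ≤ 4 * C₂ * d₂) →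
      IdxGe F (Sum.elim p₁ p₂) (Sum.elim (fun _ => d₁) fun _ => d₂) ϑ →
      (∃ q : MvPolynomial (Fin r₁) Qb, q ≠ 0 ∧ q.totalDegree ≤ B₀ ∧ MvPolynomial.eval p₁ q = 0 ∧
        hp q * d₁ ≤ B₀ * (hp F + d₁)) ∨
      (∃ q : MvPolynomial (Fin r₂) Qb, q ≠ 0 ∧ q.totalDegree ≤ B₀ ∧ MvPolynomial.eval p₂ q = 0 ∧
        hp q * d₂ ≤ B₀ * (hp F + d₁)))
    (hs : 0 < s) (hBs : B ≤ s) (hρ : ρ ≤ B) (hB₀ : B₀ ≤ B)
    (hB : B₀ * (C₂ * (C₁ + 6) + 1) ≤ (B : ℝ)) (ht : 0 < t) (hta : t ≤ a) (hc : c ≤ t)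
    (hH₁ : 1 ≤ H₁) (hH₂ : 1 ≤ H₂) (hC₁ : 0 ≤ C₁)
    (g₁ : ∀ q : MvPolynomial (Fin r₁) Qb, q ≠ 0 → q.totalDegree ≤ B → MvPolynomial.eval u₁ q = 0 →
      B * (s ^ 2 * H₁ + H₂) < hp q * s ^ 2)
    (g₂ : ∀ q : MvPolynomial (Fin r₂) Qb, q ≠ 0 → q.totalDegree ≤ B → MvPolynomial.eval u₂ q = 0 →
      B * (s ^ 2 * H₁ + H₂) < hp q)
    {Q : MvPolynomial (Fin r₁ ⊕ Fin r₂) Qb} (hQ : Q ≠ 0)
    (d₁ : ∀ k, Q.degreeOf (.inl k) ≤ C₂ * (2 * a * s ^ 2 + c + c))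
    (d₂ : ∀ k, Q.degreeOf (.inr k) ≤ C₂ * (2 * a + c + c))
    (hx : x ≤ C₁ * t * (s ^ 2 * H₁ + H₂)) (hl : l ≤ t)
    (hh : hp Q ≤ C₂ * (x + l + ((2 * a * s ^ 2 + c : ℕ) + c) * H₁ + ((2 * a + c : ℕ) + c) * H₂ + 1)) :
    ¬ IdxGe Q (Sum.elim u₁ u₂) (Sum.elim (fun _ => a * s ^ 2) fun _ => a) ϑ := by
  intro hI
  have s1 : 1 ≤ s ^ 2 := Nat.one_le_pow _ _ hs
  have s2 : s ≤ s ^ 2 := Nat.le_self_pow two_ne_zero s
  have s3 : a ≤ a * s ^ 2 := Nat.le_mul_of_pos_right _ s1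
  have a0 : (0 : ℝ) < a := by exact_mod_cast ht.trans_le hta
  push_cast at hh
  have key := C8_real2 (S := (s : ℝ) ^ 2) (by exact_mod_cast ht) (by exact_mod_cast hta)
    (by exact_mod_cast s1) hH₁ hH₂ (by exact_mod_cast hc) hC₁ (Nat.cast_nonneg C₂)
    (Nat.cast_nonneg B₀) hB hx hl hh
  rcases hP (a * s ^ 2) a (by omega) s3
    (by rw [mul_comm]; exact Nat.mul_le_mul_left _ (by omega)) Q u₁ u₂ hQ
    (fun k => (d₁ k).trans (by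
      rw [mul_comm 4, mul_assoc C₂, mul_assoc 2]
      exact Nat.mul_le_mul_left _ (by omega)))
    (fun k => (d₂ k).trans (by
      rw [mul_comm 4, mul_assoc C₂]
      exact Nat.mul_le_mul_left _ (by omega))) hI with ⟨q, q1, q2, q3, q4⟩ | ⟨q, q1, q2, q3, q4⟩
  · have h1 := mul_lt_mul_of_pos_right (g₁ q q1 (q2.trans hB₀) q3) a0
    push_cast at q4
    linarith
  · have h1 := mul_lt_mul_of_pos_right (g₂ q q1 (q2.trans hB₀) q3) a0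
    push_cast at q4
    linarith

end

end Pool.Agent.E6b

end
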