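import Pool.Agent.E6c.A24
import Pool.Agent.E6c.A34
import Pool.Agent.E6c.A39
import Pool.Agent.E6c.A40
import Pool.Agent.E6c.A41
import Pool.Agent.E6c.A42
import Pool.Agent.E6c.A43

section
open scoped NNReal TensorProduct IntermediateField BigOperators Classical Topology
open Filter

namespace Pool.Agent.E6b
variable {F : Type} [Field F] [Algebra Qb F] [IsFF Qb F] (o : Place Qb F) (d : ℕ)

/-- Vojta's inequality for two generic special points -/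
theorem core (r₁ r₂ Δ : ℕ) : ∃ E C : ℝ, 0 ≤ E ∧ 0 ≤ C ∧ ∀ ϑ : ℝ, 0 < ϑ → ∃ B : ℕ,
    ∀ (L₁ : Lev o d r₁ Δ) (L₂ : Lev o d r₂ Δ) (k₀ : Fin r₁) (s : ℕ), 0 < s → B ≤ s →
      Function.Injective (Sum.elim L₁.z L₂.z) → ell (dz (Sum.elim L₁.z L₂.z)) = 1 →
      (∀ q : MvPolynomial (Fin r₁) Qb, q ≠ 0 → q.totalDegree ≤ B → MvPolynomial.eval L₁.u q = 0 →
        B * (s ^ 2 * (L₁.hh + 1) + (L₂.hh + 1)) < hp q * s ^ 2) →
      (∀ q : MvPolynomial (Fin r₂) Qb, q ≠ 0 → q.totalDegree ≤ B → MvPolynomial.eval L₂.u q = 0 →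
        B * (s ^ 2 * (L₁.hh + 1) + (L₂.hh + 1)) < hp q) →
      s ^ 2 * h1 (L₁.u k₀) ≤
        E * ntB o ((s : ℤ) • clz L₁.z - clz L₂.z) ((s : ℤ) • clz L₁.z - clz L₂.z) +
          C * (1 + ϑ) * (s ^ 2 * (L₁.hh + 1) + (L₂.hh + 1)) + C * ϑ * (s ^ 2 * L₁.hs + L₂.hs) := by
  obtain ⟨E, C₁, hE, hC₁, haux⟩ := exists_aux o d r₁ r₂ Δ
  obtain ⟨C₂, hnorm⟩ := norm_bound r₁ r₂ Δ
  obtain ⟨k₁, tay₁⟩ := taylor_bound r₁ Δ (Fintype.card (JJ o × JJ o))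
  obtain ⟨k₂, tay₂⟩ := taylor_bound r₂ Δ (Fintype.card (JJ o × JJ o))
  obtain ⟨C₀, nt1, -, nt3⟩ := ntB_spec o
  have hC₀ : 0 ≤ C₀ := (abs_nonneg _).trans (nt3 0)
  refine ⟨E, 3 * E * C₀ + 2 + C₁ + 4 * E * (r₁ + r₂) + E * (k₁ ^ 2 + k₂ ^ 2 + k₁ + k₂ + 1),
    Nat.cast_nonneg E, by positivity, fun ϑ hϑ => ?_⟩
  obtain ⟨B₀, ρ, hP⟩ := prod_thm r₁ r₂ (4 * C₂) hϑ
  refine ⟨ρ + B₀ + ⌈B₀ * (C₂ * (C₁ + 6) + 1)⌉₊, fun L₁ L₂ k₀ s hs hBs hi hl g₁ g₂ => ?_⟩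
  obtain ⟨G⟩ := exists_gen L₁.real L₂.real
  obtain ⟨p₁, p₂⟩ := C8_prp L₁ L₂ G
  have p₁' := p₁.ne_zero (Psym_ne_zero _)
  have p₂' := p₂.ne_zero (Psym_ne_zero _)
  obtain ⟨W₁, S₁, w11, w12, w13, w14, w15⟩ :=
    tay₁ le_rfl L₁.M L₁.cx L₁.u L₁.ξ L₁.pt (Function.ne_iff.1 p₁')
  obtain ⟨W₂, S₂, w21, w22, w23, w24, w25⟩ :=
    tay₂ le_rfl L₂.M L₂.cx L₂.u L₂.ξ L₂.pt (Function.ne_iff.1 p₂')
  obtain ⟨T, χ, t1, t2, t3, t4, t5, t6, t7, t8⟩ := exists_tay L₁.M L₂.M L₁.u L₂.u W₁ W₂ w12 w22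
  obtain ⟨-, -, hg, ha⟩ := C8_pt L₁ L₂ t6 (t7.trans w11) (t8.trans w21)
  obtain ⟨gi, gl⟩ := G.ell_eq_one hg ha hi hl
  obtain ⟨n, hn⟩ := G.exists_num s 1
  obtain ⟨k, c, hk, hD⟩ := haux L₁.M L₂.M L₁.cx L₂.cx G gi gl k₀ s hs n hn
  have σ₁ : 0 ≤ L₁.hs := add_nonneg (Finset.sum_nonneg fun _ _ => h1_nonneg _) (h1_nonneg _)
  have σ₂ : 0 ≤ L₂.hs := add_nonneg (Finset.sum_nonneg fun _ _ => h1_nonneg _) (h1_nonneg _)
  have q₁ : 0 ≤ hq (clz L₁.z) := hv_nonneg _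
  have q₂ : 0 ≤ hq (clz L₂.z) := hv_nonneg _
  have H₁ : 1 ≤ L₁.hh + 1 := le_add_of_nonneg_left (ht_nonneg _)
  have H₂ : 1 ≤ L₂.hh + 1 := le_add_of_nonneg_left (ht_nonneg _)
  obtain ⟨D, ⟨N, μ₁, μ₂, w, ⟨x₀, hx₀⟩, hrel, hw, hN⟩, hD1⟩ := (hD.and (Filter.eventually_ge_atTop
    (⌈c * (hq (clz L₁.z) + hq (clz L₂.z) + L₁.hs + L₂.hs + 1)⌉₊ + 1))).exists
  have hDk : D ≤ k * D := Nat.le_mul_of_pos_left _ hk
  have hct : c * (hq (clz L₁.z) + hq (clz L₂.z) + L₁.hs + L₂.hs + 1) ≤ (k * D : ℕ) :=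
    Nat.ceil_le.1 (by omega)
  rw [← Nat.cast_mul] at hw hN
  generalize k * D = t at *
  have ht0 : 0 < t := by omega
  have hc : c ≤ t := by
    have h := mul_nonneg (Nat.cast_nonneg (α := ℝ) c)
      (show 0 ≤ hq (clz L₁.z) + hq (clz L₂.z) + L₁.hs + L₂.hs by linarith)
    exact_mod_cast (show (c : ℝ) ≤ t by linarith)
  have ha0 : 0 < t * E := Nat.mul_pos ht0 hE
  have ha1 : 0 < t * E * s ^ 2 := by positivity
  obtain ⟨O, hO, hlead⟩ := exists_lead L₁.M L₂.M T χ t1 t2 t5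
    (Sum.elim (fun _ => t * E * s ^ 2) fun _ => t * E) (by rintro (k | k) <;> assumption)
  obtain ⟨j₁, n0, ψ0, hj⟩ := C8_ratio G hg ha hO s 1 hn
  have n1 : n j₁ ≠ 0 := fun h => n0 (by rw [h, map_zero])
  have b0 : cmb L₁.M L₂.M μ₁ μ₂ (fun i => w ((j₁, false), i)) ≠ 0 := by
    intro h
    have h1 := hrel x₀ (j₁, false)
    rw [h, zero_mul] at h1
    exact mul_ne_zero hx₀ (mul_ne_zero (pow_ne_zero _ n1) (by simp)) h1
  obtain ⟨d₁, d₂, hh⟩ := hnorm L₁.M L₂.M L₁.cx L₂.cx μ₁ μ₂ fun i => w ((j₁, false), i)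
  obtain ⟨m, m1, m2, m3⟩ := hlead _ ϑ b0 (C8_idx hP hs hBs (by omega) (by omega)
    ((Nat.le_ceil _).trans (by exact_mod_cast Nat.le_add_left _ _)) ht0
    (Nat.le_mul_of_pos_right _ hE) hc H₁ H₂ hC₁ g₁ g₂ (nrB_ne_zero _ _ b0) d₁ d₂
    ((hv_comp_le w fun i => ((j₁, false), i)).trans hw) hN hh)
  obtain ⟨m4, m5⟩ := C8_deg ha1 ha0 m m1
  generalize hψ : Psym ((s : ℤ) • clz L₁.z + (1 : ℤ) • clz L₂.z) = ψ at ψ0 hj
  have hy : ∀ x : (JJ o × JJ o) × Bool,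
      MvPowerSeries.coeff m (T (cmb L₁.M L₂.M μ₁ μ₂ fun i => w (x, i))) =
        (ψ x.1 / ψ j₁) ^ (t * E) * L₁.u k₀ ^ (if x.2 then t * s ^ 2 else 0) *
          MvPowerSeries.coeff m (T (cmb L₁.M L₂.M μ₁ μ₂ fun i => w ((j₁, false), i))) := by
    intro x
    obtain ⟨u1, u2⟩ := hO (uB L₁.M L₂.M (.inl k₀))
    refine m3 _ ((algebraMap _ (TL L₁.M L₂.M) (n x.1) / algebraMap _ (TL L₁.M L₂.M) (n j₁)) ^
      (t * E) * algebraMap _ (TL L₁.M L₂.M) (uB L₁.M L₂.M (.inl k₀)) ^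
        (if x.2 then t * s ^ 2 else 0)) _ (mul_mem (pow_mem (hj _).1 _) (pow_mem u1 _)) ?_ ?_
    · rw [rs_mul O (pow_mem (hj _).1 _) (pow_mem u1 _), C8_rs_pow O (hj _).1, C8_rs_pow O u1,
        (hj _).2, u2, t6, map_mul, map_pow, map_pow, Sum.elim_inl]
    · have h1 := congrArg (algebraMap _ (TL L₁.M L₂.M)) (hrel x (j₁, false))
      simp only [map_mul, map_pow, Bool.false_eq_true, if_false, pow_zero, mul_one] at h1
      rw [div_pow, div_mul_eq_mul_div, div_mul_eq_mul_div, eq_div_iff (pow_ne_zero _ n0), h1,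
        mul_comm]
  have hψ0 : (fun j => ψ j ^ (t * E)) ≠ 0 := Function.ne_iff.2 ⟨j₁, pow_ne_zero _ ψ0⟩
  have hlow : hv (fun x : (JJ o × JJ o) × Bool =>
      MvPowerSeries.coeff m (T (cmb L₁.M L₂.M μ₁ μ₂ fun i => w (x, i)))) =
      (t * E : ℕ) * hq ((s : ℤ) • clz L₁.z + (1 : ℤ) • clz L₂.z) +
        (t * s ^ 2 : ℕ) * h1 (L₁.u k₀) := by
    rw [hq, hψ, ← hv_pow, ← C8_hv_bool, ← hv_segre hψ0 (Function.ne_iff.2 ⟨false, by simp⟩)]
    refine hv_congr ⟨_, div_ne_zero m2 (pow_ne_zero (t * E) ψ0), fun x => ?_⟩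
    beta_reduce
    rw [hy x, div_pow]
    ring
  have hup := C8_loc w _ _ (H2_vec_ne p₁') (H2_vec_ne (Function.ne_iff.2 ⟨none, by simp [xp]⟩))
    ⟨1, w13, one_ne_zero⟩ (H2_vec_ne p₂') (H2_vec_ne (Function.ne_iff.2 ⟨none, by simp [xp]⟩))
    ⟨1, w23, one_ne_zero⟩
    (fun p v hv i => w15 (μ₁ i) p v hv (m.comapDomain Sum.inl Sum.inl_injective.injOn))
    (fun p v hv i => w25 (μ₂ i) p v hv (m.comapDomain Sum.inr Sum.inr_injective.injOn))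
    (y := fun x => MvPowerSeries.coeff m (T (cmb L₁.M L₂.M μ₁ μ₂ fun i => w (x, i))))
    (fun x => by
      simp only [cmb, map_sum, map_smul, map_mul, t3, t4, coeff_rename_mul, smul_eq_mul])
    (Function.ne_iff.2 ⟨(j₁, false), m2⟩)
  have e₁ : ht (Finset.univ.image fun j => ev2 L₁.u L₁.ξ (L₁.M.P (.inr j))) = hq (clz L₁.z) :=
    hv_congr p₁
  have e₂ : ht (Finset.univ.image fun j => ev2 L₂.u L₂.ξ (L₂.M.P (.inr j))) = hq (clz L₂.z) :=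
    hv_congr p₂
  have x₁ : c * ht (Finset.univ.image fun l => ev2 L₁.u L₁.ξ (xp Qb r₁ l)) ≤ c * L₁.hs :=
    mul_le_mul_of_nonneg_left (hv_xp_le _ _) (Nat.cast_nonneg c)
  have x₂ : c * ht (Finset.univ.image fun l => ev2 L₂.u L₂.ξ (xp Qb r₂ l)) ≤ c * L₂.hs :=
    mul_le_mul_of_nonneg_left (hv_xp_le _ _) (Nat.cast_nonneg c)
  rw [hlow, e₁, e₂] at hup
  generalize (m.comapDomain Sum.inl Sum.inl_injective.injOn).degree = m₁ at hup m4
  generalize (m.comapDomain Sum.inr Sum.inr_injective.injOn).degree = m₂ at hup m5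
  have y₁ : (k₁ * m₁ : ℝ) * ht S₁ ≤ k₁ * m₁ * (k₁ * (L₁.hh + 1 + L₁.hs)) :=
    mul_le_mul_of_nonneg_left (w14.trans_eq (by rw [Lev.hh, Lev.hs]; ring)) (by positivity)
  have y₂ : (k₂ * m₂ : ℝ) * ht S₂ ≤ k₂ * m₂ * (k₂ * (L₂.hh + 1 + L₂.hs)) :=
    mul_le_mul_of_nonneg_left (w24.trans_eq (by rw [Lev.hh, Lev.hs]; ring)) (by positivity)
  push_cast at hup m4 m5
  change hv w ≤ C₁ * t * (s ^ 2 * (L₁.hh + 1) + (L₂.hh + 1)) at hw
  exact C8_real (t := t) (by exact_mod_cast ht0) (by exact_mod_cast hE)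
    (by exact_mod_cast Nat.one_le_pow _ _ hs) H₁ H₂ σ₁ σ₂ q₁ q₂ (Nat.cast_nonneg c) hϑ hC₀ hC₁
    (Nat.cast_nonneg k₁) (Nat.cast_nonneg k₂) (Nat.cast_nonneg r₁) (Nat.cast_nonneg r₂)
    (C8_par nt1 nt3 s _ _) (by linarith) hct m4 m5

end Pool.Agent.E6b

end

section
open scoped NNReal TensorProduct IntermediateField BigOperators Classical Topology
open Filter

namespace Pool.Agent.E6b
variable {F : Type} [Field F] [Algebra Qb F] [IsFF Qb F] (o : Place Qb F) {d : ℕ}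

/-- Theorem V for points -/
theorem thmV_pt (hd : 0 < d) (K : IntermediateField ℚ Qb) [FiniteDimensional ℚ K] (e : ℕ)
    (z : ℕ → Fin d → Pt o Qb) (hi : Function.Injective fun p : ℕ × Fin d => z p.1 p.2)
    (hK : ∀ n, clz (z n) ∈ GK o K) (he : ∀ n a, (minpoly ℚ (z n a (wN o))).natDegree ≤ e) :
    ∃ m n, m ≠ n ∧ ell (dz (Sum.elim (z m) (z n))) ≠ 1 := by
  by_contra hcon
  have hone : ∀ m n, m ≠ n → ell (dz (Sum.elim (z m) (z n))) = 1 := fun m n hmn => by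
    by_contra h
    exact hcon ⟨m, n, hmn, h⟩
  have : Nonempty (Fin d) := ⟨⟨0, hd⟩⟩
  let U : Ultrafilter ℕ := hyperfilter ℕ
  have hU : (U : Filter ℕ) ≤ cofinite := hyperfilter_le_cofinite
  choose am ham using fun n => Finite.exists_max fun a : Fin d => h1 (z n a (wN o))
  obtain ⟨a₀, -, ha₀⟩ := exists_eventually_eq U (s := Set.univ) Set.finite_univ (f := am)
    (Eventually.of_forall fun n => Set.mem_univ _)
  have hH : Tendsto (fun n => h1 (z n a₀ (wN o))) (U : Filter ℕ) atTop :=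
    (C9_tendsto o e (fun n => z n a₀)
      (fun m n h => congrArg Prod.fst (hi (a₁ := (m, a₀)) (a₂ := (n, a₀)) h))
      fun n => he n a₀).mono_left hU
  have hmax : ∀ᶠ n in (U : Filter ℕ), ∀ a, h1 (z n a (wN o)) ≤ h1 (z n a₀ (wN o)) :=
    ha₀.mono fun n hn a => hn ▸ ham n a
  obtain ⟨r, Δ, k₀, c, u, hu0, hgen, hlev⟩ := mex U z a₀ hH hmax
  obtain ⟨E, C, hE, hC, hcore⟩ := core o d r r Δ
  obtain ⟨c₀, hc₀, hnt⟩ := ntB_clz_le o (d := d)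
  obtain ⟨C', hs, hp', -⟩ := ntB_spec o
  obtain ⟨ϑ₀, hϑ₀, kϑ⟩ := C9_small (a := C * |c|) (k := 1 / 24) (by positivity) (by norm_num)
  obtain ⟨ϑ, hϑ, hϑ1, hϑ2⟩ : ∃ ϑ : ℝ, 0 < ϑ ∧ ϑ ≤ 1 ∧ ϑ ≤ ϑ₀ :=
    ⟨min 1 ϑ₀, lt_min one_pos hϑ₀, min_le_left _ _, min_le_right _ _⟩
  have k1 : C * ϑ * |c| ≤ 1 / 24 := by
    have := kϑ ϑ hϑ.le hϑ2
    linarith
  obtain ⟨B, hB⟩ := hcore ϑ hϑ
  obtain ⟨η, hη, hgenB⟩ := hgen B
  obtain ⟨δ₁, hδ₁, kδ₁⟩ := C9_small (a := E) (k := 1 / 32) hE (by norm_num)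
  obtain ⟨δ₂, hδ₂, kδ₂⟩ := C9_small (a := C) (k := 1 / 48) hC (by norm_num)
  obtain ⟨δ₃, hδ₃, kδ₃⟩ := C9_small (a := B) (k := η / 48) (Nat.cast_nonneg B) (by positivity)
  obtain ⟨ε, hε, hε1, hε2, hε3⟩ : ∃ ε : ℝ, 0 < ε ∧ ε ≤ δ₁ ∧ ε ≤ δ₂ ∧ ε ≤ δ₃ :=
    ⟨min δ₁ (min δ₂ δ₃), lt_min hδ₁ (lt_min hδ₂ hδ₃), min_le_left _ _,
      (min_le_right _ _).trans (min_le_left _ _), (min_le_right _ _).trans (min_le_right _ _)⟩
  have k2 := kδ₁ ε hε.le hε1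
  have k3 := kδ₂ ε hε.le hε2
  have k6 := kδ₃ ε hε.le hε3
  obtain ⟨T, hT, hclose⟩ := exists_close (ntB o) hs hp' (GK o K) (mw o K) U (fun n => clz (z n))
    hK (fun n => h1 (z n (am n) (wN o)) + 1)
    (fun n => add_pos_of_nonneg_of_pos (h1_nonneg _) one_pos) (c := c₀)
    (fun n => hnt (z n) _ (ham n)) hε
  have hT' : ∀ᶠ n in (U : Filter ℕ), n ∈ T := hT
  have hgood := hT'.and (ha₀.and (hgenB.and ((hlev ε hε).and (hH.eventually_ge_atTop 1))))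
  obtain ⟨n₁, ⟨t₁, a₁, g₁, ⟨L₁, u₁, z₁, hh₁, hs₁⟩, o₁⟩, p₁, q₁⟩ :=
    (hgood.and ((hH.eventually_ge_atTop (32 * C)).and
      (hH.eventually_gt_atTop (32 * B / η)))).exists
  obtain ⟨N, hN1, hNB, hNE⟩ : ∃ N : ℝ, 1 ≤ N ∧ (B : ℝ) ≤ N ∧ 32 * E * c₀ ≤ N :=
    ⟨max 1 (max B (32 * E * c₀)), le_max_left _ _, (le_max_left _ _).trans (le_max_right _ _),
      (le_max_right _ _).trans (le_max_right _ _)⟩
  obtain ⟨n₂, ⟨t₂, a₂, g₂, ⟨L₂, u₂, z₂, hh₂, hs₂⟩, o₂⟩, p₂, q₂⟩ :=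
    (hgood.and ((hH.eventually_ge_atTop (N ^ 2 * (h1 (z n₁ a₀ (wN o)) + 1))).and
      (hU (eventually_cofinite_ne n₁)))).exists
  have hne : n₁ ≠ n₂ := fun h => q₂ h.symm
  have hcl := hclose n₁ t₁ n₂ t₂
  have hw := hnt (z n₂) _ (ham n₂)
  simp only [a₁, a₂] at hcl hw
  have hu₁ := hu0 n₁
  generalize h1 (z n₂ a₀ (wN o)) = H₂ at *
  generalize hH₁ : h1 (z n₁ a₀ (wN o)) = H₁ at *
  obtain ⟨s, s1, s2, s3, s4⟩ := C9_close (hp' _) (hp' _) (psd_cs (ntB o) hs hp' _ _)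
    (by linarith : 0 < H₁ + 1) hN1 (by linarith : N ^ 2 * (H₁ + 1) ≤ H₂ + 1) hw hcl
  have hs1 : (1 : ℝ) ≤ s := hN1.trans s1
  have hS1 : (1 : ℝ) ≤ s ^ 2 := one_le_pow₀ hs1
  have hsS : (s : ℝ) ≤ s ^ 2 := le_self_pow₀ hs1 two_ne_zero
  have hmid := C9_mid hS1 o₁ s2 hε.le hh₁ hh₂
  have hB0 : (0 : ℝ) ≤ B := Nat.cast_nonneg B
  have hkey : (B : ℝ) * (s ^ 2 * (L₁.hh + 1) + (L₂.hh + 1)) < η / 8 * (s ^ 2 * H₁) := by
    have e1 := mul_le_mul_of_nonneg_left hmid hB0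
    rw [div_lt_iff₀ hη] at q₁
    have e2 : (B : ℝ) * ε * H₁ ≤ η / 48 * H₁ := mul_le_mul_of_nonneg_right k6 (by linarith)
    have e3 : (B : ℝ) * (3 * ε * H₁ + 2) < η / 8 * H₁ := by linarith
    have e4 := mul_lt_mul_of_pos_left e3 (by linarith : (0 : ℝ) < s ^ 2)
    linarith
  have hinj : Function.Injective (Sum.elim (z n₁) (z n₂)) :=
    Function.Injective.sumElim
      (fun a b h => congrArg Prod.snd (hi (a₁ := (n₁, a)) (a₂ := (n₁, b)) h))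
      (fun a b h => congrArg Prod.snd (hi (a₁ := (n₂, a)) (a₂ := (n₂, b)) h))
      fun a b h => hne (congrArg Prod.fst (hi (a₁ := (n₁, a)) (a₂ := (n₂, b)) h))
  have hfin := hB L₁ L₂ k₀ s (by exact_mod_cast (by linarith : (0 : ℝ) < s))
    (by exact_mod_cast hNB.trans s1) (by rw [z₁, z₂]; exact hinj)
    (by rw [z₁, z₂]; exact hone _ _ hne) (fun q hq hdq hev => ?_) fun q hq hdq hev => ?_
  · rw [u₁, hu₁, hH₁, z₁, z₂] at hfin
    refine C9_final hS1 o₁ s2 hε.le hE hC (abs_nonneg c) hϑ.le hϑ1 k1 k2 k3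
      (hNE.trans (s1.trans hsS)) p₁ ?_ hmid
      (hs₁.trans (mul_le_mul_of_nonneg_right (le_abs_self c) (by linarith)))
      (hs₂.trans (mul_le_mul_of_nonneg_right (le_abs_self c) (by linarith))) hfin
    refine le_trans (le_of_eq ?_) s4
    simp only [map_sub, map_zsmul, AddMonoidHom.sub_apply, AddMonoidHom.zsmul_apply, zsmul_eq_mul,
      Int.cast_natCast, hs (clz (z n₂)) (clz (z n₁))]
    ring
  · have e1 := g₁ q hq hdq (u₁ ▸ hev)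
    have e2 := mul_le_mul_of_nonneg_right e1 (by linarith : (0 : ℝ) ≤ s ^ 2)
    have e3 : 0 ≤ η * (s ^ 2 * H₁) := by
      have : 0 ≤ H₁ := by linarith
      positivity
    linarith
  · have e1 := g₂ q hq hdq (u₂ ▸ hev)
    have e2 : s ^ 2 * H₁ ≤ 8 * H₂ := by linarith
    have e3 := mul_le_mul_of_nonneg_left e2 hη.le
    linarith

end Pool.Agent.E6b

end

section
open scoped NNReal TensorProduct IntermediateField BigOperators Classical Topology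
open Filter

namespace Pool.Agent.E6b
variable {F : Type} [Field F] [Algebra Qb F] [IsFF Qb F] (A : GAct F)

theorem TV_aux (o : Place Qb F) (K : IntermediateField ℚ Qb) [FiniteDimensional ℚ K] {d : ℕ}
    (hd : 0 < d) (D : ℕ → Finset (Place Qb F)) (hc : ∀ n, (D n).card = d)
    (hdis : Pairwise fun m n => Disjoint (D m) (D n)) (hs : ∀ n, A.Stab K (D n))
    (ho : ∀ n, o ∉ D n) : ∃ m n, m ≠ n ∧ 2 ≤ ell (ind (D m) + ind (D n)) := by
  obtain ⟨K', hK, hfd, hfix⟩ := TV_field A o K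
  let P : ℕ → Fin d → Place Qb F := fun n a => (Finset.equivFinOfCardEq (hc n)).symm a
  have hP : ∀ n a, P n a ∈ D n := fun n a => Subtype.property _
  have hsum : ∀ n, ind (D n) = ∑ a, pd (P n a) := fun n => by
    rw [ind, ← Finset.sum_coe_sort]
    exact ((Finset.equivFinOfCardEq (hc n)).symm.sum_comp fun x => pd x.1).symm
  choose z hz using fun n a => TV_pt (o := o) (P := P n a) fun e => ho n (e ▸ hP n a)
  have hpd : ∀ R : PO o Qb, (jK o).pull (pd ((jK o).res R)) = pd R := (jK o).pull_pd jK_surj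
  have hdz : ∀ n, dz (z n) = (jK o).pull (ind (D n)) := fun n => by
    rw [hsum, FHom.pull_sum, dz]
    exact Finset.sum_congr rfl fun a _ => by rw [← hz, hpd]
  refine (thmV_pt o hd K' (d * Module.finrank ℚ K') z ?_ ?_ ?_).imp fun m => Exists.imp
    fun n h => ⟨h.1, ?_⟩
  rotate_right
  · have h2 := h.2
    have h1 := one_le_ell (dz_nonneg (Sum.elim (z m) (z n)))
    rw [dz_elim, hdz, hdz, ← FHom.pull_add, (jK o).ell_pull jK_surj] at h2 h1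
    omega
  · rintro ⟨m, a⟩ ⟨n, b⟩ e
    have e1 : P m a = P n b := by rw [← hz, ← hz, show z m a = z n b from e]
    obtain rfl : m = n := by
      by_contra hne
      exact Finset.disjoint_left.1 (hdis hne) (hP m a) (e1 ▸ hP n b)
    rw [(Finset.equivFinOfCardEq (hc m)).symm.injective (Subtype.ext e1)]
  · intro n β hβ
    obtain ⟨σ, hσ⟩ := exists_algEquiv_of_bc o β
    have hσ' : ∀ x ∈ K', σ x = x := fun x hx => (hσ x).symm.trans (hβ x hx)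
    obtain ⟨β', h1, -, h3⟩ := exists_bc_of_fhom (o := o) (A.fh σ) (hfix σ hσ')
    obtain rfl : β = β' := BC.ext_τ (RingHom.ext fun x => (hσ x).trans (h1 x).symm)
    rw [clz, β.cl_clD]
    congr 1
    conv_rhs => rw [hdz, ← GAct.Stab.image_eq A (hs n) fun x hx => hσ' x (hK hx), ← A.pull_ind,
      hsum, FHom.pull_sum, FHom.pull_sum]
    rw [dz, map_sum]
    refine Finset.sum_congr rfl fun a _ => ?_
    rw [β.dv_pd, A.pull_pd, ← hpd, ← hz, ← h3 (plc (z n a))]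
    congr 2
    exact ((A.fh σ).res_bij (A.fh_surj σ)).1 (A.res_sm σ _).symm
  · intro n a
    refine (natDegree_minpoly_le K' ((D n).image fun Q => Q.ev (wN o : F)) fun σ hσ => ?_).trans
      (Nat.mul_le_mul_right _ (Finset.card_image_le.trans (hc n).le))
    refine Finset.mem_image.2 ⟨_, hs n σ (fun x hx => hσ x (hK hx)) _ (hP n a), ?_⟩
    rw [← jK_res_plc, hz, ← A.ev_sm, wN, hfix σ hσ]

/-- Theorem V -/
theorem thmV (K : IntermediateField ℚ Qb) [FiniteDimensional ℚ K] {d : ℕ} (hd : 0 < d)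
    (D : ℕ → Finset (Place Qb F)) (hc : ∀ n, (D n).card = d)
    (hdis : Pairwise fun m n => Disjoint (D m) (D n)) (hs : ∀ n, A.Stab K (D n)) :
    ∃ m n, m ≠ n ∧ 2 ≤ ell (ind (D m) + ind (D n)) := by
  obtain ⟨o⟩ : Nonempty (Place Qb F) := inferInstance
  obtain ⟨N, hN⟩ : ∃ N, ∀ n, o ∉ D (n + N) := by
    by_cases h : ∃ n, o ∈ D n
    · obtain ⟨n, hn⟩ := h
      exact ⟨n + 1, fun m => Finset.disjoint_left.1 (hdis (by omega : n ≠ m + (n + 1))) hn⟩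
    · exact ⟨0, fun n hn => h ⟨_, hn⟩⟩
  obtain ⟨m, n, hmn, h⟩ := TV_aux A o K hd (fun n => D (n + N)) (fun n => hc _)
    (fun m n hmn => hdis (by omega)) (fun n => hs _) hN
  exact ⟨m + N, n + N, by omega, h⟩

/-- one member has two partners -/
theorem thmV2 (K : IntermediateField ℚ Qb) [FiniteDimensional ℚ K] {d : ℕ} (hd : 0 < d)
    (D : ℕ → Finset (Place Qb F)) (hc : ∀ n, (D n).card = d)
    (hdis : Pairwise fun m n => Disjoint (D m) (D n)) (hs : ∀ n, A.Stab K (D n)) :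
    ∃ n m₁ m₂, n ≠ m₁ ∧ n ≠ m₂ ∧ m₁ ≠ m₂ ∧ 2 ≤ ell (ind (D n) + ind (D m₁)) ∧
      2 ≤ ell (ind (D n) + ind (D m₂)) := by
  by_contra hn
  have h1 : ∀ x, {y | ¬ (x ≠ y ∧ ¬ 2 ≤ ell (ind (D x) + ind (D y)))}.Finite := by
    intro x
    have h2 : {y | x ≠ y ∧ 2 ≤ ell (ind (D x) + ind (D y))}.Subsingleton := by
      intro a ha b hb
      by_contra hab
      exact hn ⟨x, a, b, ha.1, hb.1, hab, ha.2, hb.2⟩
    refine (h2.finite.insert x).subset fun y hy => ?_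
    by_cases e : x = y
    · exact Or.inl e.symm
    · exact Or.inr ⟨e, by_contra fun h => hy ⟨e, h⟩⟩
  obtain ⟨f, -, hf⟩ := exists_seq_of_forall_finset_exists (fun _ : ℕ => True)
    (fun x y => x ≠ y ∧ ¬ 2 ≤ ell (ind (D x) + ind (D y))) fun s _ => by
      obtain ⟨y, hy⟩ := (s.finite_toSet.biUnion fun x _ => h1 x).exists_notMem
      exact ⟨y, trivial, fun x hx => by_contra fun h => hy (Set.mem_biUnion hx h)⟩
  have h3 : ∀ m n, m ≠ n → f m ≠ f n ∧ ¬ 2 ≤ ell (ind (D (f m)) + ind (D (f n))) := by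
    intro m n h
    rcases lt_or_gt_of_ne h with h | h
    · exact hf m n h
    · rw [add_comm]
      exact ⟨(hf n m h).1.symm, (hf n m h).2⟩
  obtain ⟨m, n, hmn, h⟩ := thmV A K hd (fun n => D (f n)) (fun n => hc _)
    (fun m n hmn => hdis (h3 m n hmn).1) fun n => hs _
  exact (h3 m n hmn).2 h

end Pool.Agent.E6b

end

section
open scoped NNReal TensorProduct IntermediateField BigOperators Classical Topology
open Filter

namespace Pool.Agent.E6b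

/-- finitely many points whose degree over `K` divides `5 n₀ ^ 4` -/
theorem thmK : ∃ n₁ : ℕ, ∀ n₀, n₁ ≤ n₀ → ∃ B₀ : ℕ, ∀ B, B₀ ≤ B →
    ∀ {L : Type} [Field L] [Algebra Qb L] {T : Tw Qb L n₀ B} (G : TwG T)
      (K : IntermediateField ℚ Qb), FiniteDimensional ℚ K → G.Orb23 K →
      {R : Place Qb T.FU | (G.A.finite_orb K R).toFinset.card ∣ 5 * n₀ ^ 4}.Finite := by
  obtain ⟨c', n₁, hcl⟩ := Tw.cl_tower 5 10
  obtain ⟨c, n₂, hdl⟩ := Tw.dl_tower 11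
  obtain ⟨n₃, hnt⟩ := no_typed (2 * c' + c)
  refine ⟨n₁ + n₂ + n₃ + (161 + 10 * c + 21 * c'), fun n₀ hn₀ => ?_⟩
  obtain ⟨B₁, hcl⟩ := hcl n₀ (by omega)
  obtain ⟨B₂, hdl⟩ := hdl n₀ (by omega)
  obtain ⟨B₃, hnt⟩ := hnt n₀ (by omega)
  refine ⟨B₁ + B₂ + B₃, fun B hB L _ _ T G K hK h23 => ?_⟩
  replace hcl := hcl B (by omega) T Finset.univ (by simp)
  replace hdl := hdl B (by omega) T
  replace hnt := hnt B (by omega) G K h23
  have hn : (161 + 10 * c + 21 * c' : ℤ) ≤ n₀ := by omega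
  have hc0 : (0 : ℤ) ≤ c := by positivity
  have hc0' : (0 : ℤ) ≤ c' := by positivity
  have hp : (0 : ℤ) < n₀ := by omega
  have hp' : 0 < n₀ := by omega
  have hp3 : (0 : ℤ) < (n₀ : ℤ) ^ 3 := by positivity
  have hp4 : (0 : ℤ) < (n₀ : ℤ) ^ 4 := by positivity
  have h43 : (161 + 10 * c + 21 * c' : ℤ) * (n₀ : ℤ) ^ 3 ≤ (n₀ : ℤ) ^ 4 := by
    rw [pow_succ' (n₀ : ℤ) 3]
    exact mul_le_mul_of_nonneg_right hn hp3.le
  have hcc : (0 : ℤ) ≤ c * (n₀ : ℤ) ^ 3 := by positivity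
  have hcc' : (0 : ℤ) ≤ c' * (n₀ : ℤ) ^ 3 := by positivity
  have key : ∀ Λ : Dv Qb T.FU, BPF Λ → 0 < deg Λ → deg Λ ≤ 10 * (n₀ : ℤ) ^ 4 →
      ∃ (Bd : Dv Qb T.FU) (n : Fin 5 → ℤ), 0 ≤ Bd ∧ 0 ≤ n ∧ T.Ty Finset.univ (Λ + Bd) n ∧
        deg Bd ≤ c' * (n₀ : ℤ) ^ 3 ∧ 1 ≤ ∑ s, n s ∧ ∑ s, n s ≤ (11 : ℕ) ∧
        (n₀ : ℤ) ^ 4 ≤ deg Λ + deg Bd := by
    intro Λ h1 h2 h3
    obtain ⟨Bd, n, e1, e2, e3, e4⟩ := hcl Λ h1 (by
      have := mul_le_mul_of_nonneg_left h3 hp.le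
      push_cast
      linarith [show (n₀ : ℤ) * (10 * (n₀ : ℤ) ^ 4) = 10 * (n₀ : ℤ) ^ 5 by ring])
    have e5 : deg Bd ≤ c' * (n₀ : ℤ) ^ 3 := by
      refine le_of_mul_le_mul_left (a := (n₀ : ℤ) ^ 2) (e4.trans_eq ?_) (by positivity)
      ring
    have e6 := Tw.Ty.deg_eq T e3
    rw [deg_add, show (Finset.univ : Finset (Fin 5)).card - 1 = 4 by simp] at e6
    have e7 := F1_deg_nonneg e1
    have e8 : 1 ≤ ∑ s, n s := by
      by_contra e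
      have := mul_nonpos_of_nonneg_of_nonpos hp4.le (show ∑ s, n s ≤ 0 by omega)
      omega
    refine ⟨Bd, n, e1, e2, e3, e5, e8, ?_, ?_⟩
    · refine le_of_mul_le_mul_left ?_ hp4
      push_cast
      linarith
    · have := mul_le_mul_of_nonneg_left e8 hp4.le
      linarith
  by_contra hinf
  obtain ⟨d, f, hd, h1, h2⟩ := K9_seq G K (N := 5 * n₀ ^ 4) (by positivity) hinf
  have hd0 : 0 < d := (h1 0).1 ▸ K9_pos G K (f 0)
  have hd0' : (0 : ℤ) < d := by omega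
  have hd5 : d ≤ 5 * n₀ ^ 4 := Nat.le_of_dvd (by positivity) hd
  have hd5' : (d : ℤ) ≤ 5 * (n₀ : ℤ) ^ 4 := by exact_mod_cast hd5
  have hdeg : ∀ n, deg (ind (K9_D G K (f n))) = d := fun n => by rw [deg_ind, (h1 n).1]
  have hsing : ∀ n, ¬ BPF (ind (K9_D G K (f n))) := fun n hb => by
    obtain ⟨Bd, m, e1, e2, e3, e4, e5, -⟩ := key _ hb (by rw [hdeg]; exact hd0')
      (by rw [hdeg]; linarith)
    exact hnt (f n) (h1 n).2 ((h1 n).1 ▸ hd) _ Bd m subset_rfl e1 (by push_cast; linarith) e2 e5 e3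
  obtain ⟨n, m₁, m₂, a1, a2, a3, a4, a5⟩ := thmV2 G.A K hd0 (fun n => K9_D G K (f n))
    (fun n => (h1 n).1) (fun m n hmn => (h2 m n hmn).disj) fun n => G.A.stab_orb K _
  have hsum : ∀ m, n ≠ m → 2 ≤ ell (ind (K9_D G K (f n)) + ind (K9_D G K (f m))) →
      ∃ (Bd : Dv Qb T.FU) (k : Fin 5 → ℤ), 0 ≤ Bd ∧ 0 ≤ k ∧
        T.Ty Finset.univ (ind (K9_D G K (f n)) + ind (K9_D G K (f m)) + Bd) k ∧
        deg Bd ≤ c' * (n₀ : ℤ) ^ 3 ∧ ∑ s, k s ≤ (11 : ℕ) ∧ (n₀ : ℤ) ^ 4 ≤ d + d + deg Bd := by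
    intro m hm h
    obtain ⟨Bd, k, e1, e2, e3, e4, -, e5, e6⟩ := key _
      (((G.A.bpf_of_two_le (h2 n m hm).disj h).resolve_left (hsing n)).resolve_left (hsing m))
      (by rw [deg_add, hdeg, hdeg]; linarith) (by rw [deg_add, hdeg, hdeg]; linarith)
    rw [deg_add, hdeg, hdeg] at e6
    exact ⟨Bd, k, e1, e2, e3, e4, e5, e6⟩
  obtain ⟨D₁, k₁, p1, p2, p3, p4, p5, p6⟩ := hsum m₁ a1 a4
  obtain ⟨D₂, k₂, q1, q2, q3, q4, q5, -⟩ := hsum m₂ a2 a5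
  rcases hdl _ _ k₁ k₂ (add_nonneg (add_nonneg (K9_ind_nonneg _) (K9_ind_nonneg _)) p1)
    (add_nonneg (add_nonneg (K9_ind_nonneg _) (K9_ind_nonneg _)) q1) p2 q2 p5 q5 p3 q3 with
    ⟨Z, Bd, k, r1, r2, r3, r4, r5, r6, r7, r8⟩ | hSm
  · obtain ⟨S, s1, s2, s3⟩ := K9_part (h2 n m₁ a1).disj (h2 m₁ m₂ a3).disj r1 p1 q1 r2 r3
    refine hnt (f n) (h1 n).2 ((h1 n).1 ▸ hd) S (Z - ind S + Bd) k s1 (add_nonneg s2 r4)
      (by rw [deg_add]; push_cast; linarith) r6 r7 ?_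
    rwa [show ind S + (Z - ind S + Bd) = Z + Bd by abel]
  · choose Sm s1 s2 using hSm
    have hpos : ∀ (m : ℕ) (Bd : Dv Qb T.FU), 0 ≤ Bd → ∀ R ∈ K9_D G K (f n),
        0 < (ind (K9_D G K (f n)) + ind (K9_D G K (f m)) + Bd) R := fun m Bd hBd R hR => by
      have e1 : 0 ≤ Bd R := hBd R
      have e2 : 0 ≤ ind (K9_D G K (f m)) R := K9_ind_nonneg _ R
      rw [Finsupp.add_apply, Finsupp.add_apply, ind_apply, if_pos hR]
      omega
    have h3 := G.overlap_le K (f n) (h1 n).2 (by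
      rw [(h1 n).1]
      calc 32 * d ≤ 160 * n₀ ^ 4 := by omega
        _ < n₀ * n₀ ^ 4 := Nat.mul_lt_mul_of_pos_right (by omega) (by positivity)
        _ = n₀ ^ 5 := by ring) _ D₁.support subset_rfl Sm fun s R hR hs R' hl => by
      have e1 := s2 s R (hpos m₁ D₁ p1 R hR) (hpos m₂ D₂ q1 R hR) hs R' hl
      have e2 : R' ∉ K9_D G K (f m₁) := fun e => h2 n m₁ a1 R hR R' e (Tw.Ln.tv_eq T hl)
      by_contra e3
      rw [not_or, ← Set.Finite.mem_toFinset (G.A.finite_orb K (f n)), Finsupp.mem_support_iff,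
        not_not] at e3
      rw [Finsupp.add_apply, Finsupp.add_apply, ind_apply, ind_apply, if_neg e3.1, if_neg e2,
        e3.2] at e1
      omega
    rw [(h1 n).1] at h3
    have h4 : ∑ s, (Sm s).card ≤ 5 * (c * n₀ ^ 3) := by
      simpa using Finset.sum_le_sum fun s (_ : s ∈ Finset.univ) => s1 s
    have h5 := card_support_le_deg p1
    have h6 : (d : ℤ) ≤ 5 * (c * (n₀ : ℤ) ^ 3) + 10 * (D₁.support.card : ℤ) := by
      exact_mod_cast h3.trans (Nat.add_le_add_right h4 _)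
    linarith

end Pool.Agent.E6b

end

section
open scoped NNReal TensorProduct IntermediateField BigOperators Classical Topology
open Filter

namespace Pool.Agent.E6b

/-- a curve over the rationals with infinitely many points of degree `d` and finitely many points
of degree dividing `d` over a finite extension -/
theorem exists_curve : ∃ (F : Type) (_ : Field F) (_ : Algebra Qb F) (_ : IsFF Qb F) (A : GAct F)
    (t : F) (K : IntermediateField ℚ Qb) (d : ℕ), t ∉ (algebraMap Qb F).range ∧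
      (∀ σ, A.act σ t = t) ∧ FiniteDimensional ℚ K ∧ 1 ≤ d ∧
      {R : Place Qb F | (A.finite_orb ⊥ R).toFinset.card = d}.Infinite ∧
      {R : Place Qb F | (A.finite_orb K R).toFinset.card ∣ d}.Finite := by
  obtain ⟨n₁, h1⟩ := thmK
  obtain ⟨B, h2⟩ := h1 (2 * (n₁ + 1) + 3) (by omega)
  obtain ⟨Λ⟩ := exists_AR (n₁ + 1)
  obtain ⟨m, c, D, hadm, hD, hB⟩ := Λ.exists_td (by omega) B
  obtain ⟨G, hG, hx⟩ := D.exists_twG hB Λ.perm (by rw [hD]; exact Λ.act_W m c) Λ.perm_open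
  obtain ⟨K, hK, hK'⟩ := Λ.exists_K
  refine ⟨(D.tw hB).FU, inferInstance, inferInstance, inferInstance, G.A,
    (D.tw hB).tJ Finset.univ, K, 5 * (2 * (n₁ + 1) + 3) ^ 4, (D.tw hB).nc_tJ _, G.fix, hK,
    Nat.succ_le_of_lt (by positivity), Λ.infinite_orb hadm D hD hB G hG (hG ▸ hx),
    h2 B le_rfl G K hK ⟨fun σ hσ => hG ▸ (hK' σ).1 hσ, fun s s' hs => ?_⟩⟩
  obtain ⟨σ, hσ⟩ := Λ.surj (Equiv.swap s s')
  refine ⟨σ, (hK' σ).2 fun r => ?_, by rw [hG, hσ, Equiv.swap_apply_left]⟩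
  rw [hσ, Equiv.swap_apply_def]
  split_ifs with e1 e2
  · rw [e1]; exact hs.symm
  · rw [e2]; exact hs
  · rfl

end Pool.Agent.E6b

end

section
open scoped NNReal TensorProduct IntermediateField BigOperators Classical Topology
open Filter

namespace Pool.Agent.E6b

theorem main_thm : ∃ (k k' : Type) (_ : Field k) (_ : NumberField k) (_ : Field k')
    (_ : Algebra k k') (_ : FiniteDimensional k k') (X : NiceSurface k),
      ¬ X.delta k ⊆ X.delta k' := by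
  obtain ⟨F, _, _, _, A, t, K, d, ht, hA, hK, hd, h1, h2⟩ := exists_curve
  obtain ⟨E⟩ := exists_emb A ht hA
  exact ⟨ℚ, K, inferInstance, inferInstance, inferInstance, inferInstance, hK, E.surf ht hA,
    fun h => E.notMem_delta ht hA K h2 (h (E.mem_delta ht hA hd h1))⟩

end Pool.Agent.E6b

end
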